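import Pool.Agent.CGA.AT3

/-! PROJECT CGA, module ABg: the Bargmann invariant. -/

set_option linter.all false

namespace CGA

open scoped RealInnerProductSpace Real Topology
open MeasureTheory Set Filter

theorem Bg_singleton (x : E) : Bg [x] = 1 := by
  unfold Bg
  rw [List.map_singleton, List.prod_singleton, trace_Pm]

private theorem ABg_rot1 (l : List E) : Bg (l.rotate 1) = Bg l := by
  cases l with
  | nil => rfl
  | cons x xs =>
    unfold Bg
    rw [List.rotate_cons_succ, List.rotate_zero, List.map_append, List.prod_append,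
      Matrix.trace_mul_comm, List.map_singleton, List.prod_singleton, List.map_cons,
      List.prod_cons]

theorem Bg_rotate (l : List E) (k : ℕ) : Bg (l.rotate k) = Bg l := by
  induction k with
  | zero => rw [List.rotate_zero]
  | succ k ih => rw [← List.rotate_rotate, ABg_rot1, ih]

private theorem ABg_rev (l : List E) :
    ((l.reverse).map Pm).prod = ((l.map Pm).prod).conjTranspose := by
  induction l with
  | nil => simp
  | cons x xs ih =>
    rw [List.reverse_cons, List.map_append, List.prod_append, ih, List.map_singleton,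
      List.prod_singleton, List.map_cons, List.prod_cons, Matrix.conjTranspose_mul,
      Pm_conjTranspose]

theorem Bg_reverse (l : List E) : Bg l.reverse = (starRingEnd ℂ) (Bg l) := by
  unfold Bg
  rw [ABg_rev, Matrix.trace_conjTranspose]
  rfl

theorem Bg_dup {x : E} (hx : ‖x‖ = 1) (l : List E) : Bg (x :: x :: l) = Bg (x :: l) := by
  unfold Bg
  simp only [List.map_cons, List.prod_cons]
  rw [← mul_assoc, Pm_idem hx]

theorem Bg_join {x : E} (hx : ‖x‖ = 1) (l₁ l₂ : List E) :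
    Bg (x :: l₁ ++ x :: l₂) = Bg (x :: l₁) * Bg (x :: l₂) := by
  unfold Bg
  simp only [List.map_cons, List.map_append, List.prod_cons, List.prod_append,
    List.cons_append]
  have e : Pm x * ((l₁.map Pm).prod * (Pm x * (l₂.map Pm).prod)) =
      Pm x * (l₁.map Pm).prod * Pm x * (l₂.map Pm).prod := by simp only [mul_assoc]
  rw [e, Pm_sandwich hx, Matrix.smul_mul, Matrix.trace_smul, smul_eq_mul]

theorem Bg_spur {x y : E} (hx : ‖x‖ = 1) (l : List E) :
    Bg (x :: y :: x :: l) = ((1 + ⟪x, y⟫) / 2 : ℝ) * Bg (x :: l) := by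
  unfold Bg
  simp only [List.map_cons, List.prod_cons]
  have e : Pm x * (Pm y * (Pm x * (l.map Pm).prod)) =
      Pm x * Pm y * Pm x * (l.map Pm).prod := by simp only [mul_assoc]
  rw [e, Pm_sandwich hx, Matrix.smul_mul, Matrix.trace_smul, smul_eq_mul, trace_Pm2]

theorem Bg_insert {a b : E} (ha : ‖a‖ = 1) (hb : ‖b‖ = 1) (h : ‖a - b‖ < 2) {t : ℝ}
    (ht : t ∈ Icc (0:ℝ) 1) (l : List E) :
    ∃ k : ℝ, 0 < k ∧ Bg (a :: nrm ((1 - t) • a + t • b) :: b :: l) = k * Bg (a :: b :: l) := by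
  obtain ⟨k, hk, hkk⟩ := Pm_insert ha hb h ht
  refine ⟨k, hk, ?_⟩
  unfold Bg
  simp only [List.map_cons, List.prod_cons]
  have e : Pm a * (Pm (nrm ((1 - t) • a + t • b)) * (Pm b * (l.map Pm).prod)) =
      Pm a * Pm (nrm ((1 - t) • a + t • b)) * Pm b * (l.map Pm).prod := by simp only [mul_assoc]
  rw [e, hkk, Matrix.smul_mul, Matrix.trace_smul, smul_eq_mul, mul_assoc]

private theorem ABg_mem {l : List E} {e : E × E} (h : e ∈ cyc l) : e.1 ∈ l ∧ e.2 ∈ l := by
  have h1 := List.of_mem_zip (show (e.1, e.2) ∈ l.zip (l.rotate 1) from h)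
  exact ⟨h1.1, List.mem_rotate.1 h1.2⟩

private theorem ABg_pos {a b : E} (ha : ‖a‖ = 1) (hb : ‖b‖ = 1) (h : a ≠ -b) :
    0 < 1 + ⟪a, b⟫ := by
  have h1 := norm_add_sq_real a b
  rw [ha, hb] at h1
  have h2 : 0 < ‖a + b‖ := norm_pos_iff.2 fun h3 => h (eq_neg_of_add_eq_zero_left h3)
  nlinarith

private theorem ABg_ne {a b c : E} (ha : ‖a‖ = 1) (hb : ‖b‖ = 1) (hc : ‖c‖ = 1) (h1 : a ≠ -b)
    (h2 : b ≠ -c) (h3 : c ≠ -a) : T3 a b c ≠ 0 := by
  rw [← Complex.normSq_pos, normSq_T3 ha hb hc]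
  have p1 := ABg_pos ha hb h1
  have p2 := ABg_pos hb hc h2
  have p3 := ABg_pos hc ha h3
  positivity

private theorem ABg_sy {x y : E} (h : x ≠ -y) : y ≠ -x := fun h' => h (by rw [h', neg_neg])

private noncomputable def ABg_q (n : ℕ) : E :=
  WithLp.toLp 2 ![(1 - (n:ℝ) ^ 2) / (1 + (n:ℝ) ^ 2), 2 * n / (1 + (n:ℝ) ^ 2), 0]

private theorem ABg_qn (n : ℕ) : ‖ABg_q n‖ = 1 := by
  have h : ‖ABg_q n‖ ^ 2 = 1 := by
    rw [normsq3]
    simp only [ABg_q, Matrix.cons_val_zero, Matrix.cons_val_one, Matrix.cons_val]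
    have h0 : (1 + (n:ℝ) ^ 2) ≠ 0 := by positivity
    field_simp
    ring
  have h1 := norm_nonneg (ABg_q n)
  nlinarith

private theorem ABg_qinj : Function.Injective ABg_q := by
  intro n m h
  have h1 := congrArg (fun x : E => x 0) h
  simp only [ABg_q, Matrix.cons_val_zero] at h1
  have h2 : (0:ℝ) < 1 + (n:ℝ) ^ 2 := by positivity
  have h3 : (0:ℝ) < 1 + (m:ℝ) ^ 2 := by positivity
  rw [div_eq_div_iff h2.ne' h3.ne'] at h1
  have h4 : (n:ℝ) ^ 2 = (m:ℝ) ^ 2 := by nlinarith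
  have h5 : (n:ℝ) = m := (pow_left_inj₀ (Nat.cast_nonneg n) (Nat.cast_nonneg m)
    (by norm_num : (2:ℕ) ≠ 0)).1 h4
  exact_mod_cast h5

private theorem ABg_exq (l : List E) : ∃ q : E, ‖q‖ = 1 ∧ ∀ x ∈ l, x ≠ -q := by
  classical
  obtain ⟨q, ⟨n, rfl⟩, hq⟩ := (Set.infinite_range_of_injective ABg_qinj).exists_notMem_finset
    (l.map fun x => -x).toFinset
  refine ⟨_, ABg_qn n, fun x hx h => hq ?_⟩
  rw [List.mem_toFinset, List.mem_map]
  exact ⟨x, hx, by rw [h, neg_neg]⟩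

private theorem ABg_T3 {q : E} (hq : ‖q‖ = 1) {l : List E} (hu : ∀ x ∈ l, ‖x‖ = 1)
    (h : ∀ e ∈ cyc l, e.1 ≠ - e.2) (hql : ∀ x ∈ l, x ≠ - q) {e : E × E} (he : e ∈ cyc l) :
    T3 q e.1 e.2 ≠ 0 := by
  obtain ⟨h1, h2⟩ := ABg_mem he
  exact ABg_ne hq (hu _ h1) (hu _ h2) (ABg_sy (hql _ h1)) (h e he) (hql _ h2)

theorem Bg_ne_zero {l : List E} (hl : l ≠ []) (hu : ∀ x ∈ l, ‖x‖ = 1)
    (h : ∀ e ∈ cyc l, e.1 ≠ - e.2) : Bg l ≠ 0 := by
  obtain ⟨q, hq, hql⟩ := ABg_exq l
  have h1 := cone_formula hq l hl hu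
  intro h0
  rw [h0, mul_zero, zero_mul, List.prod_eq_zero_iff, List.mem_map] at h1
  obtain ⟨e, he, h2⟩ := h1
  exact ABg_T3 hq hu h hql he h2

theorem continuous_Bg (n : ℕ) : Continuous fun X : Fin n → E => Bg (List.ofFn X) := by
  unfold Bg
  have h1 : Continuous fun X : Fin n → E => ((List.finRange n).map fun i => Pm (X i)).prod :=
    continuous_list_prod _ fun i _ => continuous_Pm.comp (continuous_apply i)
  have h2 : (fun X : Fin n → E => ((List.ofFn X).map Pm).prod) =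
      fun X : Fin n → E => ((List.finRange n).map fun i => Pm (X i)).prod := by
    funext X
    rw [List.ofFn_eq_map, List.map_map]
    rfl
  have h3 : (fun X : Fin n → E => (((List.ofFn X).map Pm).prod).trace) =
      fun X : Fin n → E => (((List.finRange n).map fun i => Pm (X i)).prod).trace := by
    funext X
    exact congrArg Matrix.trace (congrFun h2 X)
  rw [h3]
  exact h1.matrix_trace

theorem FineL.Bg_ne_zero {M : Met} {δ L : ℝ} (hδ : δ ≤ 1) {l : List E} (h : FineL M δ L l) :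
    Bg l ≠ 0 := by
  refine CGA.Bg_ne_zero h.ne h.unit fun e he h1 => ?_
  have h2 := h.mesh e he
  have h3 := h.unit _ (ABg_mem he).2
  rw [h1] at h2
  have e1 : -e.2 - e.2 = (-2 : ℝ) • e.2 := by
    rw [neg_smul, two_smul]
    abel
  rw [e1, norm_smul, h3] at h2
  norm_num at h2
  linarith

private theorem ABg_W (q : E) (l : List E) (h3 : ∀ x ∈ l, 0 < 1 + ⟪q, x⟫) :
    ∃ W : ℝ, 0 < W ∧ (l.map fun x => ((1 + ⟪q, x⟫ : ℝ) : ℂ)).prod = (W : ℂ) := by
  induction l with
  | nil => exact ⟨1, one_pos, by simp⟩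
  | cons x l ih =>
    obtain ⟨W, hW0, hW⟩ := ih fun y hy => h3 y (List.mem_cons_of_mem x hy)
    refine ⟨(1 + ⟪q, x⟫) * W, mul_pos (h3 x List.mem_cons_self) hW0, ?_⟩
    rw [List.map_cons, List.prod_cons, hW]
    push_cast
    ring

private theorem ABg_list (q : E) (s : List (E × E)) :
    (s.map fun e => T3 q e.1 e.2).prod =
      Complex.exp (2 * π * Complex.I * ((s.map fun e => Th q e.1 e.2).sum : ℝ)) *
        (‖(s.map fun e => T3 q e.1 e.2).prod‖ : ℂ) := by
  induction s with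
  | nil => simp
  | cons e s ih =>
    have h1 : T3 q e.1 e.2 =
        Complex.exp (2 * π * Complex.I * (Th q e.1 e.2 : ℂ)) * (‖T3 q e.1 e.2‖ : ℂ) := by
      rcases eq_or_ne (T3 q e.1 e.2) 0 with h | h
      · rw [h]
        simp
      · have e1 := Complex.norm_mul_exp_arg_mul_I (T3 q e.1 e.2)
        have e2 : (2 * π * Complex.I * (Th q e.1 e.2 : ℂ)) =
            ((T3 q e.1 e.2).arg : ℂ) * Complex.I := by
          unfold Th
          push_cast
          have hpi : (π : ℂ) ≠ 0 := Complex.ofReal_ne_zero.2 Real.pi_ne_zero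
          field_simp
        rw [e2, mul_comm, e1]
    rw [List.map_cons, List.prod_cons, List.map_cons, List.sum_cons, norm_mul]
    nth_rewrite 1 [h1, ih]
    push_cast
    rw [mul_add, Complex.exp_add]
    ring

/-- phase of `Bg` from a cone with apex `q` -/
theorem exp_cone {q : E} (hq : ‖q‖ = 1) {l : List E} (hl : l ≠ []) (hu : ∀ x ∈ l, ‖x‖ = 1)
    (h : ∀ e ∈ cyc l, e.1 ≠ - e.2) (hql : ∀ x ∈ l, x ≠ - q) :
    Complex.exp (2 * π * Complex.I * (((cyc l).map fun e => Th q e.1 e.2).sum : ℝ)) * (‖Bg l‖ : ℂ)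
      = Bg l := by
  have _ := h
  have h1 := cone_formula hq l hl hu
  have h2 := ABg_list q (cyc l)
  have h3 : ∀ x ∈ l, 0 < 1 + ⟪q, x⟫ := fun x hx =>
    ABg_pos hq (hu x hx) (ABg_sy (hql x hx))
  obtain ⟨W, hW0, hW⟩ := ABg_W q l h3
  rw [hW] at h1
  rw [h1, norm_mul, norm_mul, norm_pow, Complex.norm_real, Real.norm_eq_abs,
    abs_of_pos hW0] at h2
  have hn : ‖(2:ℂ)‖ = 2 := by simp
  rw [hn] at h2
  push_cast at h2
  have h4 : (2 : ℂ) ^ l.length ≠ 0 := pow_ne_zero _ two_ne_zero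
  have h5 : (W : ℂ) ≠ 0 := Complex.ofReal_ne_zero.2 hW0.ne'
  have h6 := mul_ne_zero h4 h5
  apply mul_left_cancel₀ h6
  linear_combination -h2

end CGA
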