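import Pool.Agent.CGA.AEllR

/-! PROJECT CGA, module ACtr: gnomonic contraction.  See /team-store/CGA_PROOF.md, section 0:
for `A = (1-s) + s q⊗q`: `|Au × Av| ≤ (1-s)|u × v|` (cofactor matrix), `|Au|² = ⟪q,u⟫² + (1-s)²|u_⊥|² ≥ (1 - 2 s r²)|u|²`,
`f(Au) ≤ f(u)(1 + C s r)` (as `|nrm(Au) - nrm u| ≤ 2 s |u_⊥|/|u|`), so the integrand of `ell` does not increase when `r` is small;
`ell (ctr x) (ctr y) = ell (A x) (A y)` by `ell_smul`. -/

set_option linter.all false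

namespace CGA

open scoped RealInnerProductSpace Real Topology
open MeasureTheory Set Filter

noncomputable def ctr (q : E) (s : ℝ) (x : E) : E := nrm ((1 - s) • x + (s * ⟪q, x⟫) • q)

private noncomputable def Aq (q : E) (s : ℝ) (x : E) : E := (1 - s) • x + (s * ⟪q, x⟫) • q

private theorem ctr_eq (q : E) (s : ℝ) (x : E) : ctr q s x = nrm (Aq q s x) := rfl

private theorem qq {q : E} (hq : ‖q‖ = 1) : ⟪q, q⟫ = (1:ℝ) := by
  rw [real_inner_self_eq_norm_sq, hq, one_pow]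

private theorem inner_q_A {q : E} (hq : ‖q‖ = 1) (s : ℝ) (x : E) : ⟪q, Aq q s x⟫ = ⟪q, x⟫ := by
  unfold Aq
  rw [inner_add_right, real_inner_smul_right, real_inner_smul_right, qq hq]
  ring

private theorem A_ne {q x : E} (hq : ‖q‖ = 1) (s : ℝ) (hx : 0 < ⟪q, x⟫) : Aq q s x ≠ 0 := by
  intro h
  have := inner_q_A hq s x
  rw [h, inner_zero_right] at this
  exact hx.ne this

theorem ctr_zero {q x : E} (hx : ‖x‖ = 1) : ctr q 0 x = x := by
  unfold ctr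
  rw [sub_zero, one_smul, zero_mul, zero_smul, add_zero, nrm_of_unit hx]

theorem ctr_one {q x : E} (hq : ‖q‖ = 1) (hx : 0 < ⟪q, x⟫) : ctr q 1 x = q := by
  unfold ctr
  rw [sub_self, zero_smul, zero_add, one_mul, nrm_smul hx, nrm_of_unit hq]

theorem ctr_self {q : E} (hq : ‖q‖ = 1) (s : ℝ) : ctr q s q = q := by
  unfold ctr
  rw [qq hq, mul_one, ← add_smul, sub_add_cancel, one_smul, nrm_of_unit hq]

theorem norm_ctr {q x : E} (hq : ‖q‖ = 1) (hx : 0 < ⟪q, x⟫) {s : ℝ} (hs : s ∈ Icc (0:ℝ) 1) :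
    ‖ctr q s x‖ = 1 := by
  rw [ctr_eq]
  exact norm_nrm (A_ne hq s hx)

theorem continuousOn_ctr {q : E} (hq : ‖q‖ = 1) :
    ContinuousOn (fun p : ℝ × E => ctr q p.1 p.2) (Icc (0:ℝ) 1 ×ˢ {x | 0 < ⟪q, x⟫}) := by
  have h1 : Continuous fun p : ℝ × E => (1 - p.1) • p.2 + (p.1 * ⟪q, p.2⟫) • q := by
    fun_prop
  refine continuousOn_nrm.comp h1.continuousOn fun p hp => ?_
  exact A_ne hq p.1 hp.2

private theorem inner_A {q : E} (hq : ‖q‖ = 1) (s : ℝ) (x y : E) :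
    ⟪Aq q s x, Aq q s y⟫ = (1 - s) ^ 2 * ⟪x, y⟫ + (1 - (1 - s) ^ 2) * (⟪q, x⟫ * ⟪q, y⟫) := by
  unfold Aq
  rw [inner_add_left, inner_add_right, inner_add_right]
  simp only [real_inner_smul_left, real_inner_smul_right, qq hq, real_inner_comm q x]
  ring

private theorem norm_A {q : E} (hq : ‖q‖ = 1) (s : ℝ) (x : E) :
    ‖Aq q s x‖ ^ 2 = (1 - s) ^ 2 * ‖x‖ ^ 2 + (1 - (1 - s) ^ 2) * ⟪q, x⟫ ^ 2 := by
  rw [← real_inner_self_eq_norm_sq, inner_A hq, real_inner_self_eq_norm_sq]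
  ring

private theorem perp_cs {q : E} (hq : ‖q‖ = 1) (x y : E) :
    (⟪x, y⟫ - ⟪q, x⟫ * ⟪q, y⟫) ^ 2 ≤ (‖x‖ ^ 2 - ⟪q, x⟫ ^ 2) * (‖y‖ ^ 2 - ⟪q, y⟫ ^ 2) := by
  have h := real_inner_mul_inner_self_le (x - ⟪q, x⟫ • q) (y - ⟪q, y⟫ • q)
  have e : ∀ x y : E, ⟪x - ⟪q, x⟫ • q, y - ⟪q, y⟫ • q⟫ = ⟪x, y⟫ - ⟪q, x⟫ * ⟪q, y⟫ := by
    intro x y
    rw [inner_sub_left, inner_sub_right, inner_sub_right]
    simp only [real_inner_smul_left, real_inner_smul_right, qq hq, real_inner_comm q x]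
    ring
  rw [e, e, e, real_inner_self_eq_norm_sq, real_inner_self_eq_norm_sq] at h
  nlinarith

private theorem perp_nonneg {q : E} (hq : ‖q‖ = 1) (x : E) : ⟪q, x⟫ ^ 2 ≤ ‖x‖ ^ 2 := by
  have h := abs_real_inner_le_norm q x
  rw [hq, one_mul] at h
  rw [← sq_abs]
  exact pow_le_pow_left₀ (abs_nonneg _) h 2

private theorem crs_A {q : E} (hq : ‖q‖ = 1) {s : ℝ} (hs : s ∈ Icc (0:ℝ) 1) (x y : E) :
    ‖crs (Aq q s x) (Aq q s y)‖ ≤ (1 - s) * ‖crs x y‖ := by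
  have h0 : 0 ≤ 1 - s := by linarith [hs.2]
  refine le_of_sq_le_sq ?_ (mul_nonneg h0 (norm_nonneg _)) |>.trans le_rfl
  rw [mul_pow, norm_crs_sq, norm_crs_sq, norm_A hq, norm_A hq, inner_A hq]
  have h1 := perp_cs hq x y
  have h2 : 0 ≤ (1 - s) ^ 2 := by positivity
  have h3 : 0 ≤ 1 - (1 - s) ^ 2 := by nlinarith [hs.1]
  have h4 := mul_nonneg (mul_nonneg h2 h3) (sub_nonneg.2 h1)
  nlinarith

private theorem A_lin (q : E) (s t : ℝ) (x y : E) :
    Aq q s ((1 - t) • x + t • y) = (1 - t) • Aq q s x + t • Aq q s y := by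
  unfold Aq
  rw [inner_add_right, real_inner_smul_right, real_inner_smul_right]
  module

/-- pointwise estimate of the factor and of the norm -/
private theorem pt_est (M : Met) {m F K : ℝ} (hm : 0 < m) (hK : 0 < K)
    (hf : ∀ x : E, x ≠ 0 → m ≤ M.f x ∧ M.f x ≤ F)
    (hL : ∀ x y : E, ‖x‖ = 1 → ‖y‖ = 1 → |M.f x - M.f y| ≤ K * ‖x - y‖)
    {r : ℝ} (hr0 : 0 < r) (hr : r ≤ 1 / 4) {q : E} (hq : ‖q‖ = 1) {s : ℝ}
    (hs : s ∈ Icc (0:ℝ) 1) {u : E} (hu : ‖u‖ ≤ 1) (hh : 1 - r ^ 2 / 2 ≤ ⟪q, u⟫) :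
    0 < ‖u‖ ∧ ‖u‖ ^ 2 * (1 - 4 * s * r ^ 2) ≤ ‖Aq q s u‖ ^ 2 ∧ 0 < ‖Aq q s u‖ ∧
      M.f (Aq q s u) ≤ M.f u * (1 + 2 * K / m * s * r) := by
  have hr2 : r ^ 2 ≤ 1 / 16 := by nlinarith
  have hh' : 31 / 32 ≤ ⟪q, u⟫ := by nlinarith
  have hhp : 0 < ⟪q, u⟫ := by linarith
  have hle := perp_nonneg hq u
  have hle' : ⟪q, u⟫ ≤ ‖u‖ := by
    have := abs_real_inner_le_norm q u
    rw [hq, one_mul] at this
    exact (le_abs_self _).trans this
  have hupos : 0 < ‖u‖ := by linarith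
  have hun : u ≠ 0 := norm_pos_iff.1 hupos
  have hAn : Aq q s u ≠ 0 := A_ne hq s hhp
  have hApos : 0 < ‖Aq q s u‖ := norm_pos_iff.2 hAn
  have hperp : ‖u‖ ^ 2 - ⟪q, u⟫ ^ 2 ≤ r ^ 2 := by nlinarith
  have h2 : ⟪q, u⟫ ≤ ‖Aq q s u‖ := by
    have := abs_real_inner_le_norm q (Aq q s u)
    rw [hq, one_mul, inner_q_A hq] at this
    exact (le_abs_self _).trans this
  refine ⟨hupos, ?_, hApos, ?_⟩
  · rw [norm_A hq]
    have e1 : (1 - s) ^ 2 * ‖u‖ ^ 2 + (1 - (1 - s) ^ 2) * ⟪q, u⟫ ^ 2 =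
        ‖u‖ ^ 2 - (1 - (1 - s) ^ 2) * (‖u‖ ^ 2 - ⟪q, u⟫ ^ 2) := by ring
    rw [e1]
    have h3 : (1 - (1 - s) ^ 2) * (‖u‖ ^ 2 - ⟪q, u⟫ ^ 2) ≤ 2 * s * r ^ 2 := by
      have h4 : 1 - (1 - s) ^ 2 ≤ 2 * s := by nlinarith [sq_nonneg s]
      have h5 : 0 ≤ 1 - (1 - s) ^ 2 := by nlinarith [hs.1, hs.2]
      calc (1 - (1 - s) ^ 2) * (‖u‖ ^ 2 - ⟪q, u⟫ ^ 2) ≤ (1 - (1 - s) ^ 2) * r ^ 2 :=
            mul_le_mul_of_nonneg_left hperp h5
        _ ≤ 2 * s * r ^ 2 := mul_le_mul_of_nonneg_right h4 (by positivity)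
    have h6 : 1 / 2 ≤ ‖u‖ ^ 2 := by nlinarith
    have h7 : 0 ≤ s * r ^ 2 := mul_nonneg hs.1 (by positivity)
    nlinarith
  · have h3 : ‖nrm (Aq q s u) - nrm u‖ ≤ 2 * (s * r) := by
      have h4 : ‖nrm (Aq q s u) - nrm u‖ ≤ ‖Aq q s u - u‖ / (1 / 2) :=
        norm_nrm_sub_le (by norm_num) (by linarith) (by linarith)
      have h5 : Aq q s u - u = -s • (u - ⟪q, u⟫ • q) := by
        unfold Aq
        module
      have h6 : ‖u - ⟪q, u⟫ • q‖ ^ 2 = ‖u‖ ^ 2 - ⟪q, u⟫ ^ 2 := by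
        rw [← real_inner_self_eq_norm_sq, inner_sub_left, inner_sub_right, inner_sub_right]
        simp only [real_inner_smul_left, real_inner_smul_right, qq hq, real_inner_comm q u]
        rw [real_inner_self_eq_norm_sq]
        ring
      have h7 : ‖u - ⟪q, u⟫ • q‖ ≤ r := by
        refine le_of_sq_le_sq ?_ hr0.le |>.trans le_rfl
        rw [h6]
        exact hperp
      have h8 : ‖Aq q s u - u‖ ≤ s * r := by
        rw [h5, norm_smul, norm_neg, Real.norm_of_nonneg hs.1]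
        exact mul_le_mul_of_nonneg_left h7 hs.1
      linarith
    have h4 := (abs_le.1 (hL _ _ (norm_nrm hAn) (norm_nrm hun))).2
    rw [M.f_nrm hAn, M.f_nrm hun] at h4
    have h5 : M.f (Aq q s u) ≤ M.f u + K * (2 * (s * r)) := by
      have := mul_le_mul_of_nonneg_left h3 hK.le
      linarith
    have h6 := (hf u hun).1
    have h7 : K * (2 * (s * r)) ≤ M.f u * (2 * K / m * s * r) := by
      have h8 : K * (2 * (s * r)) = m * (2 * K / m * s * r) := by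
        field_simp
      rw [h8]
      refine mul_le_mul_of_nonneg_right h6 ?_
      have := hs.1
      positivity
    linarith

private theorem igd_cont' (M : Met) {a b : E} (h : ∀ t ∈ Icc (0:ℝ) 1, (1 - t) • a + t • b ≠ 0) :
    ContinuousOn (fun t : ℝ => M.f ((1 - t) • a + t • b) * ‖crs a b‖ /
      ‖(1 - t) • a + t • b‖ ^ 2) (Icc 0 1) := by
  have hc : ContinuousOn (fun t : ℝ => (1 - t) • a + t • b) (Icc 0 1) := by fun_prop
  refine ContinuousOn.div ?_ (by fun_prop) ?_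
  · refine ContinuousOn.mul ?_ continuousOn_const
    exact M.continuousOn_f.comp hc fun t ht => h t ht
  · intro t ht
    have := norm_pos_iff.2 (h t ht)
    positivity

private theorem cap_inner {q x : E} (hq : ‖q‖ = 1) (hx : ‖x‖ = 1) {r : ℝ} (hr0 : 0 < r)
    (h : ‖x - q‖ ≤ r) : 1 - r ^ 2 / 2 ≤ ⟪q, x⟫ := by
  rw [unit_inner_le hq hx, norm_sub_rev]
  have := pow_le_pow_left₀ (norm_nonneg _) h 2
  linarith

private theorem ell_ctr_eq (M : Met) {q x y : E} (hq : ‖q‖ = 1) (s : ℝ)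
    (h : 0 < ‖Aq q s x‖ * ‖Aq q s y‖ + ⟪Aq q s x, Aq q s y⟫) :
    ell M (ctr q s x) (ctr q s y) = ell M (Aq q s x) (Aq q s y) := by
  have hx : Aq q s x ≠ 0 := by
    intro h0
    rw [h0] at h
    simp at h
  have hy : Aq q s y ≠ 0 := by
    intro h0
    rw [h0] at h
    simp at h
  rw [ctr_eq, ctr_eq]
  exact ell_smul M h (inv_pos.2 (norm_pos_iff.2 hx)) (inv_pos.2 (norm_pos_iff.2 hy))

private theorem chord_crs {a b : E} (ha : ‖a‖ = 1) (hb : ‖b‖ = 1) :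
    ‖crs a b‖ ^ 2 = ‖a - b‖ ^ 2 * (1 - ‖a - b‖ ^ 2 / 4) := by
  rw [norm_crs_sq, ha, hb, unit_inner_le ha hb]
  ring

theorem exists_ctr (M : Met) : ∃ r > 0, r ≤ 1 / 2 ∧ ∀ q : E, ‖q‖ = 1 → ∀ s ∈ Icc (0:ℝ) 1,
    ∀ x y : E, ‖x‖ = 1 → ‖y‖ = 1 → ‖x - q‖ ≤ r → ‖y - q‖ ≤ r →
      ell M (ctr q s x) (ctr q s y) ≤ ell M x y ∧
      M.f (ctr q s x) * M.f (ctr q s y) * ‖ctr q s x - ctr q s y‖ ^ 2
        ≤ M.f x * M.f y * ‖x - y‖ ^ 2 ∧
      ‖ctr q s x - ctr q s y‖ ≤ ‖x - y‖ ∧ ‖ctr q s x - q‖ ≤ ‖x - q‖ := by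
  obtain ⟨m, F, K, hm, hmF, hK, hf, hL, -⟩ := M.exists_bounds
  set C := 2 * K / m with hC
  have hC0 : 0 < C := by positivity
  set r := min (1 / 4) (1 / (2 * C)) with hr
  have hr0 : 0 < r := lt_min (by norm_num) (by positivity)
  have hr4 : r ≤ 1 / 4 := min_le_left _ _
  have hrC : C * r ≤ 1 / 2 := by
    have h1 : r ≤ 1 / (2 * C) := min_le_right _ _
    have h2 := mul_le_mul_of_nonneg_left h1 hC0.le
    have h3 : C * (1 / (2 * C)) = 1 / 2 := by field_simp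
    linarith
  have hr16 : r ^ 2 ≤ 1 / 16 := by nlinarith
  -- the key numerical inequality
  have key : ∀ s ∈ Icc (0:ℝ) 1, 0 < 1 - 4 * s * r ^ 2 ∧
      (1 + C * s * r) * (1 - s) ≤ 1 - 4 * s * r ^ 2 := by
    intro s hs
    have hs0 := hs.1
    have hs1 := hs.2
    constructor
    · nlinarith [mul_nonneg hs0 (sq_nonneg r)]
    · have h1 : 0 ≤ s * s * (C * r) := by positivity
      have h2 : s * (C * r) ≤ s * (1 / 2) := mul_le_mul_of_nonneg_left hrC hs0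
      have h3 : s * r ^ 2 ≤ s * (1 / 16) := mul_le_mul_of_nonneg_left hr16 hs0
      nlinarith
  -- the chord statement
  have chord : ∀ q : E, ‖q‖ = 1 → ∀ s ∈ Icc (0:ℝ) 1,
      ∀ x y : E, ‖x‖ = 1 → ‖y‖ = 1 → ‖x - q‖ ≤ r → ‖y - q‖ ≤ r →
      ‖ctr q s x - ctr q s y‖ ≤ ‖x - y‖ ∧
      ‖ctr q s x - ctr q s y‖ ^ 2 * (1 - 4 * s * r ^ 2) ^ 2 ≤ (1 - s) ^ 2 * ‖x - y‖ ^ 2 := by
    intro q hq s hs x y hx hy hxq hyq
    have hhx := cap_inner hq hx hr0 hxq
    have hhy := cap_inner hq hy hr0 hyq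
    obtain ⟨-, hx1, hx2, -⟩ := pt_est M hm hK hf hL hr0 hr4 hq hs hx.le hhx
    obtain ⟨-, hy1, hy2, -⟩ := pt_est M hm hK hf hL hr0 hr4 hq hs hy.le hhy
    rw [hx, one_pow, one_mul] at hx1
    rw [hy, one_pow, one_mul] at hy1
    obtain ⟨hk1, hk2⟩ := key s hs
    set P := 1 - 4 * s * r ^ 2 with hP
    have h0 : 0 ≤ 1 - s := by linarith [hs.2]
    have hsP : 1 - s ≤ P := by
      have : 0 ≤ C * s * r * (1 - s) := by
        have := hs.1
        positivity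
      nlinarith
    have hxp : 0 < ⟪q, x⟫ := by nlinarith
    have hyp : 0 < ⟪q, y⟫ := by nlinarith
    have hnx := norm_ctr hq hxp hs
    have hny := norm_ctr hq hyp hs
    -- the cross product
    have hcr : ‖crs (ctr q s x) (ctr q s y)‖ * (‖Aq q s x‖ * ‖Aq q s y‖) =
        ‖crs (Aq q s x) (Aq q s y)‖ := by
      have e1 : ∀ z, ctr q s z = ‖Aq q s z‖⁻¹ • Aq q s z := fun z => rfl
      rw [e1, e1, crs_smul1, crs_smul2, norm_smul, norm_smul, norm_inv, norm_inv, norm_norm,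
        norm_norm]
      field_simp
    have hcr2 := crs_A hq hs x y
    have hcr3 : ‖crs (ctr q s x) (ctr q s y)‖ ^ 2 * P ^ 2 ≤ (1 - s) ^ 2 * ‖crs x y‖ ^ 2 := by
      have h1 : ‖crs (ctr q s x) (ctr q s y)‖ ^ 2 * P ^ 2 ≤
          (‖crs (ctr q s x) (ctr q s y)‖ * (‖Aq q s x‖ * ‖Aq q s y‖)) ^ 2 := by
        rw [mul_pow, mul_pow]
        refine mul_le_mul_of_nonneg_left ?_ (by positivity)
        rw [sq P]
        exact mul_le_mul hx1 hy1 hk1.le (by positivity)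
      rw [hcr] at h1
      refine h1.trans ?_
      rw [← mul_pow]
      exact pow_le_pow_left₀ (norm_nonneg _) hcr2 2
    rw [chord_crs hnx hny, chord_crs hx hy] at hcr3
    set D := ‖x - y‖ ^ 2 with hD
    set D' := ‖ctr q s x - ctr q s y‖ ^ 2 with hD'
    have hD0 : 0 ≤ D := by positivity
    have hD'0 : 0 ≤ D' := by positivity
    have hxy : ‖x - y‖ ≤ 1 / 2 := by
      calc ‖x - y‖ = ‖(x - q) - (y - q)‖ := by rw [sub_sub_sub_cancel_right]
        _ ≤ ‖x - q‖ + ‖y - q‖ := norm_sub_le _ _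
        _ ≤ 1 / 2 := by linarith
    have hD1 : D ≤ 1 / 4 := by
      have := pow_le_pow_left₀ (norm_nonneg _) hxy 2
      linarith
    -- D' < 2
    have hD'1 : D' < 2 := by
      have h1 : 0 < ⟪ctr q s x, ctr q s y⟫ := by
        have e1 : ∀ z, ctr q s z = ‖Aq q s z‖⁻¹ • Aq q s z := fun z => rfl
        rw [e1, e1, real_inner_smul_left, real_inner_smul_right]
        have h2 : 0 < ⟪Aq q s x, Aq q s y⟫ := by
          rw [inner_A hq, unit_inner_le hx hy]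
          have h3 : 0 < ⟪q, x⟫ * ⟪q, y⟫ := mul_pos hxp hyp
          have h4 : 0 ≤ 1 - (1 - s) ^ 2 := by nlinarith [hs.1, hs.2]
          have h5 : 1 / 2 ≤ 1 - ‖x - y‖ ^ 2 / 2 := by linarith
          rcases eq_or_lt_of_le hs.2 with h6 | h6
          · rw [h6]
            linarith
          · have h7 : 0 < (1 - s) ^ 2 := by
              have : 0 < 1 - s := by linarith
              positivity
            have h8 : 0 < (1 - s) ^ 2 * (1 - ‖x - y‖ ^ 2 / 2) := mul_pos h7 (by linarith)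
            have h9 := mul_nonneg h4 h3.le
            linarith
        positivity
      rw [unit_inner_le hnx hny] at h1
      linarith
    have hmono : D' ≤ D := by
      have h1 : (1 - s) ^ 2 ≤ P ^ 2 := pow_le_pow_left₀ h0 hsP 2
      have h2 : D' * (1 - D' / 4) ≤ D * (1 - D / 4) := by
        have hP2 : 0 < P ^ 2 := by positivity
        have h3 : 0 ≤ D * (1 - D / 4) := mul_nonneg hD0 (by linarith)
        have h4 : (1 - s) ^ 2 * (D * (1 - D / 4)) ≤ P ^ 2 * (D * (1 - D / 4)) :=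
          mul_le_mul_of_nonneg_right h1 h3
        have h5 : P ^ 2 * (D' * (1 - D' / 4)) ≤ P ^ 2 * (D * (1 - D / 4)) := by linarith
        exact le_of_mul_le_mul_left h5 hP2
      by_contra h3
      push Not at h3
      have h4 : 0 < (D' - D) * (1 - (D' + D) / 4) := mul_pos (by linarith) (by linarith)
      nlinarith
    refine ⟨le_of_sq_le_sq hmono (norm_nonneg _) |>.trans le_rfl, ?_⟩
    -- D' P² (1 - D/4) ≤ D' P² (1 - D'/4) ≤ (1-s)² D (1 - D/4)
    have h4 : 0 < 1 - D / 4 := by linarith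
    have h5 : D' * P ^ 2 * (1 - D / 4) ≤ (1 - s) ^ 2 * D * (1 - D / 4) := by
      have h6 : D' * P ^ 2 * (1 - D / 4) ≤ D' * P ^ 2 * (1 - D' / 4) :=
        mul_le_mul_of_nonneg_left (by linarith) (by positivity)
      nlinarith
    exact le_of_mul_le_mul_right h5 h4
  refine ⟨r, hr0, by linarith, ?_⟩
  intro q hq s hs x y hx hy hxq hyq
  obtain ⟨hk1, hk2⟩ := key s hs
  obtain ⟨hch1, hch2⟩ := chord q hq s hs x y hx hy hxq hyq
  have hhx := cap_inner hq hx hr0 hxq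
  have hhy := cap_inner hq hy hr0 hyq
  have hxp : 0 < ⟪q, x⟫ := by nlinarith
  have hyp : 0 < ⟪q, y⟫ := by nlinarith
  obtain ⟨-, hx1, hx2, hx3⟩ := pt_est M hm hK hf hL hr0 hr4 hq hs hx.le hhx
  obtain ⟨-, hy1, hy2, hy3⟩ := pt_est M hm hK hf hL hr0 hr4 hq hs hy.le hhy
  have h0 : 0 ≤ 1 - s := by linarith [hs.2]
  have hCs : 0 ≤ C * s * r := by
    have := hs.1
    positivity
  refine ⟨?_, ?_, hch1, ?_⟩
  · -- length
    have hxy : ‖x - y‖ ≤ 1 / 2 := by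
      calc ‖x - y‖ = ‖(x - q) - (y - q)‖ := by rw [sub_sub_sub_cancel_right]
        _ ≤ ‖x - q‖ + ‖y - q‖ := norm_sub_le _ _
        _ ≤ 1 / 2 := by linarith
    have hseg : ∀ t ∈ Icc (0:ℝ) 1, ‖(1 - t) • x + t • y‖ ≤ 1 ∧
        1 - r ^ 2 / 2 ≤ ⟪q, (1 - t) • x + t • y⟫ := by
      intro t ht
      have ht0 := ht.1
      have ht1 : 0 ≤ 1 - t := by linarith [ht.2]
      constructor
      · calc ‖(1 - t) • x + t • y‖ ≤ ‖(1 - t) • x‖ + ‖t • y‖ := norm_add_le _ _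
          _ = 1 := by
            rw [norm_smul, norm_smul, hx, hy, Real.norm_of_nonneg ht0, Real.norm_of_nonneg ht1]
            ring
      · rw [inner_add_right, real_inner_smul_right, real_inner_smul_right]
        nlinarith
    have hAin : 0 < ⟪Aq q s x, Aq q s y⟫ := by
      rw [inner_A hq, unit_inner_le hx hy]
      have h3 : 0 < ⟪q, x⟫ * ⟪q, y⟫ := mul_pos hxp hyp
      have h4 : 0 ≤ 1 - (1 - s) ^ 2 := by nlinarith [hs.1, hs.2]
      have h5 : 1 / 2 ≤ 1 - ‖x - y‖ ^ 2 / 2 := by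
        have := pow_le_pow_left₀ (norm_nonneg _) hxy 2
        linarith
      rcases eq_or_lt_of_le hs.2 with h6 | h6
      · rw [h6]
        linarith
      · have h7 : 0 < (1 - s) ^ 2 := by
          have : 0 < 1 - s := by linarith
          positivity
        have h8 : 0 < (1 - s) ^ 2 * (1 - ‖x - y‖ ^ 2 / 2) := mul_pos h7 (by linarith)
        have h9 := mul_nonneg h4 h3.le
        linarith
    rw [ell_ctr_eq M hq s (by positivity)]
    unfold ell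
    refine intervalIntegral.integral_mono_on (by norm_num) ?_ ?_ ?_
    · refine ContinuousOn.intervalIntegrable ?_
      rw [uIcc_of_le (by norm_num : (0:ℝ) ≤ 1)]
      refine igd_cont' M fun t ht => ?_
      rw [← A_lin]
      exact norm_pos_iff.1 (pt_est M hm hK hf hL hr0 hr4 hq hs (hseg t ht).1 (hseg t ht).2).2.2.1
    · refine ContinuousOn.intervalIntegrable ?_
      rw [uIcc_of_le (by norm_num : (0:ℝ) ≤ 1)]
      refine igd_cont' M fun t ht => ?_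
      exact norm_pos_iff.1 (pt_est M hm hK hf hL hr0 hr4 hq hs (hseg t ht).1 (hseg t ht).2).1
    · intro t ht
      obtain ⟨p1, p2, p3, p4⟩ := pt_est M hm hK hf hL hr0 hr4 hq hs (hseg t ht).1 (hseg t ht).2
      rw [← A_lin]
      set u := (1 - t) • x + t • y with hu
      have hfu : 0 < M.f u := M.pos u (norm_pos_iff.1 p1)
      have hcr := crs_A hq hs x y
      rw [div_le_div_iff₀ (by positivity) (by positivity)]
      calc M.f (Aq q s u) * ‖crs (Aq q s x) (Aq q s y)‖ * ‖u‖ ^ 2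
          ≤ (M.f u * (1 + C * s * r)) * ((1 - s) * ‖crs x y‖) * ‖u‖ ^ 2 := by
            refine mul_le_mul_of_nonneg_right ?_ (by positivity)
            exact mul_le_mul p4 hcr (norm_nonneg _) (by positivity)
        _ = M.f u * ‖crs x y‖ * (‖u‖ ^ 2 * ((1 + C * s * r) * (1 - s))) := by ring
        _ ≤ M.f u * ‖crs x y‖ * (‖u‖ ^ 2 * (1 - 4 * s * r ^ 2)) := by
            refine mul_le_mul_of_nonneg_left ?_ (by positivity)
            exact mul_le_mul_of_nonneg_left hk2 (by positivity)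
        _ ≤ M.f u * ‖crs x y‖ * ‖Aq q s u‖ ^ 2 := by
            refine mul_le_mul_of_nonneg_left p2 (by positivity)
  · -- cost
    have hxn : x ≠ 0 := by
      rintro rfl
      simp at hx
    have hyn : y ≠ 0 := by
      rintro rfl
      simp at hy
    have hfx := M.pos x hxn
    have hfy := M.pos y hyn
    have hAx := A_ne hq s hxp
    have hAy := A_ne hq s hyp
    rw [ctr_eq, ctr_eq, M.f_nrm hAx, M.f_nrm hAy, ← ctr_eq, ← ctr_eq]
    have hfAx := M.pos _ hAx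
    have hfAy := M.pos _ hAy
    set P := 1 - 4 * s * r ^ 2 with hP
    have h1 : M.f (Aq q s x) * M.f (Aq q s y) ≤ M.f x * M.f y * (1 + C * s * r) ^ 2 := by
      calc M.f (Aq q s x) * M.f (Aq q s y)
          ≤ (M.f x * (1 + C * s * r)) * (M.f y * (1 + C * s * r)) :=
            mul_le_mul hx3 hy3 hfAy.le (by positivity)
        _ = _ := by ring
    have h2 : (1 + C * s * r) ^ 2 * (1 - s) ^ 2 ≤ P ^ 2 := by
      rw [← mul_pow]
      exact pow_le_pow_left₀ (mul_nonneg (by linarith) h0) hk2 2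
    have hP2 : 0 < P ^ 2 := by positivity
    have h3 : M.f (Aq q s x) * M.f (Aq q s y) * ‖ctr q s x - ctr q s y‖ ^ 2 * P ^ 2 ≤
        M.f x * M.f y * ‖x - y‖ ^ 2 * P ^ 2 := by
      calc M.f (Aq q s x) * M.f (Aq q s y) * ‖ctr q s x - ctr q s y‖ ^ 2 * P ^ 2
          = M.f (Aq q s x) * M.f (Aq q s y) * (‖ctr q s x - ctr q s y‖ ^ 2 * P ^ 2) := by ring
        _ ≤ (M.f x * M.f y * (1 + C * s * r) ^ 2) * ((1 - s) ^ 2 * ‖x - y‖ ^ 2) :=
            mul_le_mul h1 hch2 (by positivity) (by positivity)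
        _ = M.f x * M.f y * ‖x - y‖ ^ 2 * ((1 + C * s * r) ^ 2 * (1 - s) ^ 2) := by ring
        _ ≤ _ := mul_le_mul_of_nonneg_left h2 (by positivity)
    exact le_of_mul_le_mul_right h3 hP2
  · have := (chord q hq s hs x q hx hq hxq (by rw [sub_self, norm_zero]; exact hr0.le)).1
    rw [ctr_self hq] at this
    exact this

end CGA
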