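import Pool.Agent.CGA.AEllB

/-! PROJECT CGA, module ACyc: combinatorics of closed lists. -/

set_option linter.all false

namespace CGA

open scoped RealInnerProductSpace Real Topology
open MeasureTheory Set Filter

theorem cyc_ofFn {n : ℕ} [NeZero n] (X : Fin n → E) :
    cyc (List.ofFn X) = List.ofFn fun i => (X i, X (i + 1)) := by
  obtain ⟨k, rfl⟩ : ∃ k, n = k + 1 := Nat.exists_eq_succ_of_ne_zero (NeZero.ne n)
  unfold cyc
  refine List.ext_getElem (by simp) ?_
  intro i h1 h2
  have hi : i < k + 1 := by simpa using h2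
  rw [List.getElem_zip, List.getElem_rotate, List.getElem_ofFn, List.getElem_ofFn,
    List.getElem_ofFn]
  refine Prod.ext rfl ?_
  refine congrArg X (Fin.ext ?_)
  simp [List.length_ofFn, Fin.val_add, Nat.add_mod]

theorem cyc_cons (x : E) (l : List E) : cyc (x :: l) = pth (x :: l ++ [x]) := by
  unfold cyc pth
  have h1 : (x :: l).rotate 1 = l ++ [x] := by simp
  have h2 : (x :: l ++ [x]).tail = (l ++ [x]) ++ [] := by simp
  rw [h1, h2, List.zip_append (by simp)]
  simp

theorem pth_cons_cons (x y : E) (l : List E) : pth (x :: y :: l) = (x, y) :: pth (y :: l) := by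
  rfl

theorem pth_append (l₁ l₂ : List E) (x : E) :
    pth (l₁ ++ x :: l₂) = pth (l₁ ++ [x]) ++ pth (x :: l₂) := by
  induction l₁ with
  | nil => rfl
  | cons a t ih =>
    cases t with
    | nil => rfl
    | cons b t =>
      simp only [List.cons_append] at ih ⊢
      rw [pth_cons_cons, pth_cons_cons, ih]
      rfl

theorem pth_reverse (l : List E) : (pth l.reverse : Multiset (E × E)) = (pth l : Multiset (E × E)).map Prod.swap := by
  induction l with
  | nil => rfl
  | cons x t ih =>
    cases t with
    | nil => rfl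
    | cons y t =>
      have h1 : (x :: y :: t).reverse = t.reverse ++ y :: [x] := by simp
      have h2 : t.reverse ++ [y] = (y :: t).reverse := by simp
      rw [h1, pth_append, h2, pth_cons_cons, ← Multiset.coe_add, ih]
      have h3 : ((x, y) :: pth (y :: t) : List (E × E)) = [(x, y)] ++ pth (y :: t) := rfl
      rw [pth_cons_cons x y t, h3, ← Multiset.coe_add, Multiset.map_add, add_comm]
      rfl

theorem cyc_rotate (l : List E) (k : ℕ) : cyc (l.rotate k) = (cyc l).rotate k := by
  unfold cyc
  rw [List.zip_eq_zipWith, List.zip_eq_zipWith, List.zipWith_rotate_distrib _ _ _ _ (by simp),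
    List.rotate_rotate, List.rotate_rotate, add_comm]

theorem cyc_rotate_coe (l : List E) (k : ℕ) :
    (cyc (l.rotate k) : Multiset (E × E)) = (cyc l : Multiset (E × E)) := by
  rw [cyc_rotate]
  exact Multiset.coe_eq_coe.2 (List.rotate_perm _ _)

theorem cyc_reverse (l : List E) :
    (cyc l.reverse : Multiset (E × E)) = (cyc l : Multiset (E × E)).map Prod.swap := by
  cases l with
  | nil => rfl
  | cons x t =>
    have h1 : (x :: t).reverse = (x :: t.reverse).rotate 1 := by simp
    have h2 : x :: t.reverse ++ [x] = (x :: t ++ [x]).reverse := by simp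
    rw [h1, cyc_rotate_coe, cyc_cons, h2, pth_reverse, cyc_cons]

theorem cyc_join (x : E) (l₁ l₂ : List E) :
    (cyc (x :: l₁ ++ x :: l₂) : Multiset (E × E)) =
      (cyc (x :: l₁) : Multiset (E × E)) + (cyc (x :: l₂) : Multiset (E × E)) := by
  have h1 : x :: (l₁ ++ x :: l₂) ++ [x] = (x :: l₁) ++ x :: (l₂ ++ [x]) := by simp
  rw [List.cons_append, cyc_cons, h1, pth_append, cyc_cons, cyc_cons, ← Multiset.coe_add]
  rfl

theorem cyc_dup (x : E) (l : List E) :
    (cyc (x :: x :: l) : Multiset (E × E)) = (x, x) ::ₘ (cyc (x :: l) : Multiset (E × E)) := by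
  rw [cyc_cons, cyc_cons]
  rfl

theorem cyc_fst (l : List E) : (cyc l : Multiset (E × E)).map Prod.fst = (l : Multiset E) := by
  unfold cyc
  rw [Multiset.map_coe, List.map_fst_zip (by simp)]

theorem cyc_snd (l : List E) : (cyc l : Multiset (E × E)).map Prod.snd = (l : Multiset E) := by
  unfold cyc
  rw [Multiset.map_coe, List.map_snd_zip (by simp)]
  exact Multiset.coe_eq_coe.2 (List.rotate_perm _ _)

theorem length_cyc (l : List E) : (cyc l).length = l.length := by
  unfold cyc
  simp

@[simp] theorem mass_coe (M : Met) (s : List (E × E)) : mass M (s : Multiset (E × E)) = llen M s := by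
  unfold mass llen
  rw [Multiset.map_coe, Multiset.sum_coe]

theorem mass_add (M : Met) (s t : Multiset (E × E)) : mass M (s + t) = mass M s + mass M t := by
  unfold mass
  rw [Multiset.map_add, Multiset.sum_add]

theorem mass_cons (M : Met) (e : E × E) (s : Multiset (E × E)) :
    mass M (e ::ₘ s) = ell M e.1 e.2 + mass M s := by
  unfold mass
  rw [Multiset.map_cons, Multiset.sum_cons]

theorem mass_nonneg (M : Met) (s : Multiset (E × E)) : 0 ≤ mass M s := by
  unfold mass
  refine Multiset.sum_nonneg ?_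
  intro r hr
  obtain ⟨e, -, rfl⟩ := Multiset.mem_map.1 hr
  exact ell_nonneg M _ _

theorem mass_swap (M : Met) (s : Multiset (E × E)) : mass M (s.map Prod.swap) = mass M s := by
  unfold mass
  rw [Multiset.map_map]
  refine congrArg _ (Multiset.map_congr rfl ?_)
  intro e _
  exact ell_comm M _ _

theorem mass_le_of_le (M : Met) {s t : Multiset (E × E)} (h : s ≤ t) : mass M s ≤ mass M t := by
  obtain ⟨u, rfl⟩ := Multiset.le_iff_exists_add.1 h
  rw [mass_add]
  linarith [mass_nonneg M u]

theorem llen_nonneg (M : Met) (s : List (E × E)) : 0 ≤ llen M s := by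
  rw [← mass_coe]
  exact mass_nonneg M _

/-- a path of small length stays close to its first point -/
theorem dist_le_llen (M : Met) {m F : ℝ} (hm : 0 < m)
    (hf : ∀ x : E, x ≠ 0 → m ≤ M.f x ∧ M.f x ≤ F) (x : E) (l : List E)
    (hl : ∀ y ∈ x :: l, ‖y‖ = 1) (hmesh : ∀ e ∈ pth (x :: l), ‖e.1 - e.2‖ ≤ 1) :
    ∀ y ∈ x :: l, m * ‖y - x‖ ≤ llen M (pth (x :: l)) := by
  induction l generalizing x with
  | nil =>
    intro y hy
    rw [List.mem_singleton] at hy
    rw [hy, sub_self, norm_zero, mul_zero]
    exact llen_nonneg M _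
  | cons z t ih =>
    intro y hy
    rcases List.mem_cons.1 hy with hy | hy
    · rw [hy, sub_self, norm_zero, mul_zero]
      exact llen_nonneg M _
    · have h1 := ih z (fun w hw => hl w (List.mem_cons_of_mem _ hw))
        (fun e he => hmesh e (by rw [pth_cons_cons]; exact List.mem_cons_of_mem _ he)) y hy
      have h2 : ‖x - z‖ ≤ 1 := hmesh (x, z) (by rw [pth_cons_cons]; exact List.mem_cons_self)
      have h3 := (ell_bounds M hm hf (hl x List.mem_cons_self)
        (hl z (List.mem_cons_of_mem _ List.mem_cons_self)) h2).1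
      have h4 : llen M (pth (x :: z :: t)) = ell M x z + llen M (pth (z :: t)) := by
        rw [pth_cons_cons]
        unfold llen
        rw [List.map_cons, List.sum_cons]
      have h5 : ‖y - x‖ ≤ ‖y - z‖ + ‖x - z‖ := by
        rw [norm_sub_rev x z]
        exact norm_sub_le_norm_sub_add_norm_sub y z x
      rw [h4]
      nlinarith

private theorem acyc_mesh {s t : List (E × E)} {δ : ℝ}
    (h : (s : Multiset (E × E)) = (t : Multiset (E × E))) (ht : ∀ e ∈ t, ‖e.1 - e.2‖ ≤ δ) :
    ∀ e ∈ s, ‖e.1 - e.2‖ ≤ δ := by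
  intro e he
  refine ht e ?_
  rw [← Multiset.mem_coe, ← h, Multiset.mem_coe]
  exact he

theorem FineL.rotate {M : Met} {δ L : ℝ} {l : List E} (h : FineL M δ L l) (k : ℕ) :
    FineL M δ L (l.rotate k) := by
  refine ⟨?_, ?_, ?_, ?_⟩
  · intro h1
    exact h.ne (List.rotate_eq_nil_iff.1 h1)
  · intro x hx
    exact h.unit x (List.mem_rotate.1 hx)
  · exact acyc_mesh (cyc_rotate_coe l k) h.mesh
  · rw [← mass_coe, cyc_rotate_coe, mass_coe]
    exact h.len

theorem FineL.reverse {M : Met} {δ L : ℝ} {l : List E} (h : FineL M δ L l) :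
    FineL M δ L l.reverse := by
  refine ⟨?_, ?_, ?_, ?_⟩
  · intro h1
    exact h.ne (List.reverse_eq_nil_iff.1 h1)
  · intro x hx
    exact h.unit x (List.mem_reverse.1 hx)
  · intro e he
    rw [← Multiset.mem_coe, cyc_reverse] at he
    obtain ⟨e', he', rfl⟩ := Multiset.mem_map.1 he
    rw [Prod.fst_swap, Prod.snd_swap, norm_sub_rev]
    exact h.mesh e' (Multiset.mem_coe.1 he')
  · rw [← mass_coe, cyc_reverse, mass_swap, mass_coe]
    exact h.len

theorem FineL.dup {M : Met} {δ L : ℝ} (hδ : 0 ≤ δ) {x : E} {l : List E} (h : FineL M δ L (x :: l)) :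
    FineL M δ L (x :: x :: l) := by
  refine ⟨by simp, ?_, ?_, ?_⟩
  · intro y hy
    rcases List.mem_cons.1 hy with hy | hy
    · rw [hy]
      exact h.unit x List.mem_cons_self
    · exact h.unit y hy
  · intro e he
    rw [← Multiset.mem_coe, cyc_dup, Multiset.mem_cons] at he
    rcases he with rfl | he
    · simpa using hδ
    · exact h.mesh e (Multiset.mem_coe.1 he)
  · rw [← mass_coe, cyc_dup, mass_cons, mass_coe, ell_self, zero_add]
    exact h.len

theorem FineL.insert {M : Met} {δ L : ℝ} (hδ : δ ≤ 1) {a b : E} {l : List E}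
    (h : FineL M δ L (a :: b :: l)) {t : ℝ} (ht : t ∈ Icc (0:ℝ) 1) :
    FineL M δ L (a :: nrm ((1 - t) • a + t • b) :: b :: l) := by
  have ha : ‖a‖ = 1 := h.unit a List.mem_cons_self
  have hb : ‖b‖ = 1 := h.unit b (List.mem_cons_of_mem _ List.mem_cons_self)
  have e1 : cyc (a :: b :: l) = (a, b) :: pth (b :: l ++ [a]) := by
    rw [cyc_cons]
    rfl
  have e2 : cyc (a :: nrm ((1 - t) • a + t • b) :: b :: l) =
      (a, nrm ((1 - t) • a + t • b)) :: (nrm ((1 - t) • a + t • b), b) ::
        pth (b :: l ++ [a]) := by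
    rw [cyc_cons]
    rfl
  have hab : ‖a - b‖ ≤ δ := h.mesh (a, b) (by rw [e1]; exact List.mem_cons_self)
  have hab1 : ‖a - b‖ ≤ 1 := hab.trans hδ
  have hab2 : ‖a - b‖ < 2 := by linarith
  have hn := norm_sub_arc_le ha hb hab1 ht
  refine ⟨by simp, ?_, ?_, ?_⟩
  · intro y hy
    rcases List.mem_cons.1 hy with hy | hy
    · rw [hy]
      exact ha
    · rcases List.mem_cons.1 hy with hy | hy
      · rw [hy]
        exact norm_nrm (seg_ne_zero ha hb hab2 t)
      · exact h.unit y (List.mem_cons_of_mem _ hy)
  · intro e he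
    rw [e2] at he
    rcases List.mem_cons.1 he with he | he
    · rw [he]
      exact hn.1.trans hab
    · rcases List.mem_cons.1 he with he | he
      · rw [he]
        exact hn.2.trans hab
      · exact h.mesh e (by rw [e1]; exact List.mem_cons_of_mem _ he)
  · have h1 := h.len
    rw [e1] at h1
    rw [e2]
    unfold llen at h1 ⊢
    rw [List.map_cons, List.sum_cons] at h1
    rw [List.map_cons, List.sum_cons, List.map_cons, List.sum_cons]
    have h2 := ell_add_nrm M ha hb hab2 ht
    simp only at h1 ⊢
    linarith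

theorem FineL.left {M : Met} {δ L : ℝ} {x : E} {l₁ l₂ : List E}
    (h : FineL M δ L (x :: l₁ ++ x :: l₂)) : FineL M δ L (x :: l₁) := by
  have hj := cyc_join x l₁ l₂
  refine ⟨by simp, ?_, ?_, ?_⟩
  · intro y hy
    exact h.unit y (List.mem_append_left _ hy)
  · intro e he
    refine h.mesh e ?_
    rw [← Multiset.mem_coe, hj]
    exact Multiset.mem_add.2 (Or.inl (Multiset.mem_coe.2 he))
  · have h1 := h.len
    rw [← mass_coe, hj, mass_add, mass_coe, mass_coe] at h1
    linarith [llen_nonneg M (cyc (x :: l₂))]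

theorem FineL.right {M : Met} {δ L : ℝ} {x : E} {l₁ l₂ : List E}
    (h : FineL M δ L (x :: l₁ ++ x :: l₂)) : FineL M δ L (x :: l₂) := by
  have hj := cyc_join x l₁ l₂
  refine ⟨by simp, ?_, ?_, ?_⟩
  · intro y hy
    exact h.unit y (List.mem_append_right _ hy)
  · intro e he
    refine h.mesh e ?_
    rw [← Multiset.mem_coe, hj]
    exact Multiset.mem_add.2 (Or.inr (Multiset.mem_coe.2 he))
  · have h1 := h.len
    rw [← mass_coe, hj, mass_add, mass_coe, mass_coe] at h1
    linarith [llen_nonneg M (cyc (x :: l₁))]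

private theorem acyc_walk (n : ℕ) : ∀ (s : Multiset (E × E)) (x y : E), s.card = n →
    s.map Prod.fst + {y} = s.map Prod.snd + {x} →
    ∃ t u : List E, x :: t = u ++ [y] ∧ (pth (x :: t) : Multiset (E × E)) ≤ s := by
  classical
  induction n with
  | zero =>
    intro s x y hs h
    rw [Multiset.card_eq_zero] at hs
    subst hs
    simp only [Multiset.map_zero, zero_add, Multiset.singleton_inj] at h
    exact ⟨[], [], by simp [h], by simp [pth]⟩
  | succ n ih =>
    intro s x y hs h
    by_cases hxy : x = y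
    · exact ⟨[], [], by simp [hxy], by simp [pth]⟩
    · have h1 : x ∈ s.map Prod.fst + {y} := by
        rw [h]
        exact Multiset.mem_add.2 (Or.inr (Multiset.mem_singleton_self x))
      rcases Multiset.mem_add.1 h1 with h2 | h2
      · obtain ⟨e, he, hex⟩ := Multiset.mem_map.1 h2
        obtain ⟨s', rfl⟩ := Multiset.exists_cons_of_mem he
        have hs' : s'.card = n := by
          rw [Multiset.card_cons] at hs
          omega
        have h3 : s'.map Prod.fst + {y} = s'.map Prod.snd + {e.2} := by
          rw [Multiset.map_cons, Multiset.map_cons, hex, Multiset.cons_add, Multiset.cons_add] at h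
          have h4 : e.2 ::ₘ (s'.map Prod.snd + {x}) = x ::ₘ (s'.map Prod.snd + {e.2}) := by
            rw [← Multiset.singleton_add, ← Multiset.singleton_add]
            abel
          rw [h4] at h
          exact (Multiset.cons_inj_right x).1 h
        obtain ⟨t, u, h5, h6⟩ := ih s' e.2 y hs' h3
        refine ⟨e.2 :: t, x :: u, by rw [h5]; rfl, ?_⟩
        rw [pth_cons_cons]
        have h7 : e = (x, e.2) := Prod.ext hex rfl
        have h8 : (((x, e.2) :: pth (e.2 :: t) : List (E × E)) : Multiset (E × E)) =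
            (x, e.2) ::ₘ (pth (e.2 :: t) : Multiset (E × E)) := rfl
        rw [h8, ← h7]
        exact (Multiset.cons_le_cons_iff e).2 h6
      · exact absurd (Multiset.mem_singleton.1 h2) hxy

private theorem acyc_one (s : Multiset (E × E)) (h : s.map Prod.fst = s.map Prod.snd)
    (h0 : s ≠ 0) : ∃ l : List E, l ≠ [] ∧ (cyc l : Multiset (E × E)) ≤ s := by
  obtain ⟨e, he⟩ := Multiset.exists_mem_of_ne_zero h0
  obtain ⟨s', rfl⟩ := Multiset.exists_cons_of_mem he
  have h1 : s'.map Prod.fst + {e.1} = s'.map Prod.snd + {e.2} := by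
    rw [Multiset.map_cons, Multiset.map_cons] at h
    rw [add_comm, Multiset.singleton_add, add_comm, Multiset.singleton_add]
    exact h
  obtain ⟨t, u, h2, h3⟩ := acyc_walk _ s' e.2 e.1 rfl h1
  refine ⟨e.2 :: t, by simp, ?_⟩
  have h4 : e.2 :: t ++ [e.2] = u ++ e.1 :: [e.2] := by
    rw [h2]
    simp
  rw [cyc_cons, h4, pth_append, ← h2]
  have h5 : pth [e.1, e.2] = [e] := rfl
  rw [h5, ← Multiset.coe_add, add_comm]
  have h6 : (([e] : List (E × E)) : Multiset (E × E)) + (pth (e.2 :: t) : Multiset (E × E)) =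
      e ::ₘ (pth (e.2 :: t) : Multiset (E × E)) := rfl
  rw [h6]
  exact (Multiset.cons_le_cons_iff e).2 h3

/-- a balanced multiset of darts is a sum of closed polygons -/
theorem exists_cyc_decomp (s : Multiset (E × E)) (h : s.map Prod.fst = s.map Prod.snd) :
    ∃ Ls : List (List E), (∀ l ∈ Ls, l ≠ []) ∧
      s = (Ls.map fun l => (cyc l : Multiset (E × E))).sum := by
  induction hn : s.card using Nat.strong_induction_on generalizing s with
  | _ n ih =>
    by_cases h0 : s = 0
    · exact ⟨[], by simp, by simp [h0]⟩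
    · obtain ⟨l, hl, hle⟩ := acyc_one s h h0
      obtain ⟨u, rfl⟩ := Multiset.le_iff_exists_add.1 hle
      have hu : u.map Prod.fst = u.map Prod.snd := by
        rw [Multiset.map_add, Multiset.map_add, cyc_fst, cyc_snd] at h
        exact add_left_cancel h
      have hc : u.card < n := by
        rw [← hn, Multiset.card_add, Multiset.coe_card, length_cyc]
        have := List.length_pos_iff.2 hl
        omega
      obtain ⟨Ls, h1, h2⟩ := ih _ hc u hu rfl
      refine ⟨l :: Ls, ?_, ?_⟩
      · intro l' hl'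
        rcases List.mem_cons.1 hl' with rfl | hl'
        · exact hl
        · exact h1 l' hl'
      · rw [List.map_cons, List.sum_cons, ← h2]

end CGA
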