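import Pool.Agent.CGA.AEllR

/-! PROJECT CGA, module AEllB: bounds for `ell`.  On the segment `|u|² = 1 - t(1-t)|a-b|² ∈ [3/4,1]`,
`|a × b|² = 1 - ⟪a,b⟫² = |a-b|²(1 - |a-b|²/4)`, `|f(u) - f(a)| ≤ K |nrm u - a| ≤ K|a-b|`.
The lower bound `m|a-b| ≤ ell`: `∫ |a×b|/|u|² dt ≥ |a×b| ∫ (1 + t(1-t)|a-b|²) dt = |a×b|(1+|a-b|²/6) ≥ |a-b|`. -/

set_option linter.all false

namespace CGA

open scoped RealInnerProductSpace Real Topology
open MeasureTheory Set Filter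

private theorem AEllB_cont (M : Met) {a b : E} (ha : ‖a‖ = 1) (hb : ‖b‖ = 1) (h : ‖a - b‖ ≤ 1) :
    Continuous fun t : ℝ => M.f ((1 - t) • a + t • b) * ‖crs a b‖ / ‖(1 - t) • a + t • b‖ ^ 2 := by
  have hne : ∀ t : ℝ, (1 - t) • a + t • b ≠ 0 := fun t => seg_ne_zero ha hb (by linarith) t
  have hu : Continuous fun t : ℝ => (1 - t) • a + t • b := by fun_prop
  have hf : Continuous fun t : ℝ => M.f ((1 - t) • a + t • b) :=
    M.continuousOn_f.comp_continuous hu hne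
  exact (hf.mul continuous_const).div (hu.norm.pow 2) fun t =>
    pow_ne_zero 2 (norm_ne_zero_iff.2 (hne t))

private theorem AEllB_crs {a b : E} (ha : ‖a‖ = 1) (hb : ‖b‖ = 1) :
    ‖crs a b‖ ^ 2 = ‖a - b‖ ^ 2 - ‖a - b‖ ^ 4 / 4 := by
  rw [norm_crs_sq, ha, hb, unit_inner_le ha hb]
  ring

private theorem AEllB_crs_le {a b : E} (ha : ‖a‖ = 1) (hb : ‖b‖ = 1) :
    ‖crs a b‖ ≤ ‖a - b‖ := by
  refine abs_le_of_sq_le_sq' ?_ (norm_nonneg _) |>.2
  rw [AEllB_crs ha hb]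
  nlinarith [sq_nonneg (‖a - b‖ ^ 2)]

private theorem AEllB_le_crs {a b : E} (ha : ‖a‖ = 1) (hb : ‖b‖ = 1) (h : ‖a - b‖ ≤ 1) :
    ‖a - b‖ ≤ ‖crs a b‖ * (1 + ‖a - b‖ ^ 2 / 6) := by
  have hd := norm_nonneg (a - b)
  refine abs_le_of_sq_le_sq' ?_ (by positivity) |>.2
  rw [mul_pow, AEllB_crs ha hb]
  generalize ‖a - b‖ = d at h hd ⊢
  have h2 : d ^ 2 ≤ 1 := pow_le_one₀ hd h
  have h4 : (d ^ 2 - d ^ 4 / 4) * (1 + d ^ 2 / 6) ^ 2 - d ^ 2
      = (d ^ 2) ^ 2 * (12 - 8 * d ^ 2 - (d ^ 2) ^ 2) / 144 := by ring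
  have h5 : 0 ≤ 12 - 8 * d ^ 2 - (d ^ 2) ^ 2 := by nlinarith [sq_nonneg d]
  have h6 : 0 ≤ (d ^ 2) ^ 2 * (12 - 8 * d ^ 2 - (d ^ 2) ^ 2) / 144 := by positivity
  linarith

private theorem AEllB_q {a b : E} (ha : ‖a‖ = 1) (hb : ‖b‖ = 1) (h : ‖a - b‖ ≤ 1) {t : ℝ}
    (ht : t ∈ Icc (0:ℝ) 1) : 3 / 4 ≤ 1 - t * (1 - t) * ‖a - b‖ ^ 2 ∧
      1 - t * (1 - t) * ‖a - b‖ ^ 2 ≤ 1 ∧ 0 ≤ t * (1 - t) * ‖a - b‖ ^ 2 ∧
      t * (1 - t) * ‖a - b‖ ^ 2 ≤ ‖a - b‖ ^ 2 / 4 := by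
  have hd := norm_nonneg (a - b)
  have h2 : ‖a - b‖ ^ 2 ≤ 1 := pow_le_one₀ hd h
  have h3 : 0 ≤ t * (1 - t) := mul_nonneg ht.1 (by linarith [ht.2])
  have h4 : t * (1 - t) ≤ 1 / 4 := by nlinarith [sq_nonneg (t - 1 / 2)]
  have h5 : 0 ≤ t * (1 - t) * ‖a - b‖ ^ 2 := by positivity
  have h6 : t * (1 - t) * ‖a - b‖ ^ 2 ≤ 1 / 4 * ‖a - b‖ ^ 2 :=
    mul_le_mul_of_nonneg_right h4 (by positivity)
  refine ⟨by linarith, by linarith, h5, by linarith⟩

theorem ell_bounds (M : Met) {m F : ℝ} (hm : 0 < m)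
    (hf : ∀ x : E, x ≠ 0 → m ≤ M.f x ∧ M.f x ≤ F) {a b : E} (ha : ‖a‖ = 1) (hb : ‖b‖ = 1)
    (h : ‖a - b‖ ≤ 1) : m * ‖a - b‖ ≤ ell M a b ∧ ell M a b ≤ 2 * F * ‖a - b‖ := by
  have hne : ∀ t : ℝ, (1 - t) • a + t • b ≠ 0 := fun t => seg_ne_zero ha hb (by linarith) t
  have hc := AEllB_cont M ha hb h
  have hd := norm_nonneg (a - b)
  have hcn := norm_nonneg (crs a b)
  have hcd := AEllB_crs_le ha hb
  have hF : 0 < F := by
    have := hf a (fun h0 => by rw [h0, norm_zero] at ha; norm_num at ha)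
    linarith
  constructor
  · have h1 : ∫ t in (0:ℝ)..1, m * ‖crs a b‖ * (1 + t * (1 - t) * ‖a - b‖ ^ 2)
        = m * ‖crs a b‖ * (1 + ‖a - b‖ ^ 2 / 6) := by
      have h2 : ∀ t : ℝ, HasDerivAt
          (fun t : ℝ => m * ‖crs a b‖ * (t + (t ^ 2 / 2 - t ^ 3 / 3) * ‖a - b‖ ^ 2))
          (m * ‖crs a b‖ * (1 + t * (1 - t) * ‖a - b‖ ^ 2)) t := by
        intro t
        have h3 : HasDerivAt (fun t : ℝ => t ^ 2 / 2 - t ^ 3 / 3) (t * (1 - t)) t := by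
          have h4 := ((hasDerivAt_pow 2 t).div_const 2).sub ((hasDerivAt_pow 3 t).div_const 3)
          refine h4.congr_deriv ?_
          norm_num
          ring
        exact ((hasDerivAt_id t).add (h3.mul_const _)).const_mul _
      rw [intervalIntegral.integral_eq_sub_of_hasDerivAt (fun t _ => h2 t)
        (Continuous.intervalIntegrable (by fun_prop) _ _)]
      norm_num
      left
      ring
    have h2 : m * ‖crs a b‖ * (1 + ‖a - b‖ ^ 2 / 6) ≤ ell M a b := by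
      rw [← h1]
      unfold ell
      refine intervalIntegral.integral_mono_on zero_le_one
        (Continuous.intervalIntegrable (by fun_prop) _ _) (hc.intervalIntegrable _ _) fun t ht => ?_
      obtain ⟨q1, q2, q3, q4⟩ := AEllB_q ha hb h ht
      rw [norm_seg_sq ha hb, le_div_iff₀ (by linarith)]
      generalize t * (1 - t) * ‖a - b‖ ^ 2 = x at q1 q2 q3 q4 ⊢
      have h3 : (1 + x) * (1 - x) ≤ 1 := by nlinarith
      calc m * ‖crs a b‖ * (1 + x) * (1 - x) = m * ‖crs a b‖ * ((1 + x) * (1 - x)) := by ring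
        _ ≤ m * ‖crs a b‖ * 1 := mul_le_mul_of_nonneg_left h3 (by positivity)
        _ = m * ‖crs a b‖ := mul_one _
        _ ≤ M.f ((1 - t) • a + t • b) * ‖crs a b‖ :=
            mul_le_mul_of_nonneg_right (hf _ (hne t)).1 hcn
    calc m * ‖a - b‖ ≤ m * (‖crs a b‖ * (1 + ‖a - b‖ ^ 2 / 6)) :=
          mul_le_mul_of_nonneg_left (AEllB_le_crs ha hb h) hm.le
      _ = m * ‖crs a b‖ * (1 + ‖a - b‖ ^ 2 / 6) := by ring
      _ ≤ _ := h2
  · have h1 : ∫ t in (0:ℝ)..1, (2 * F * ‖a - b‖) = 2 * F * ‖a - b‖ := by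
      rw [intervalIntegral.integral_const]
      simp
    rw [← h1]
    unfold ell
    refine intervalIntegral.integral_mono_on zero_le_one (hc.intervalIntegrable _ _)
      (Continuous.intervalIntegrable (by fun_prop) _ _) fun t ht => ?_
    obtain ⟨q1, q2, q3, q4⟩ := AEllB_q ha hb h ht
    rw [norm_seg_sq ha hb, div_le_iff₀ (by linarith)]
    calc M.f ((1 - t) • a + t • b) * ‖crs a b‖ ≤ F * ‖a - b‖ :=
          mul_le_mul (hf _ (hne t)).2 hcd hcn hF.le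
      _ ≤ 2 * F * ‖a - b‖ * (1 - t * (1 - t) * ‖a - b‖ ^ 2) := by
          have h3 : 0 ≤ F * ‖a - b‖ := by positivity
          nlinarith

theorem ell_pos (M : Met) {a b : E} (ha : ‖a‖ = 1) (hb : ‖b‖ = 1) (h : ‖a - b‖ ≤ 1) (hab : a ≠ b) :
    0 < ell M a b := by
  obtain ⟨m, F, K, hm, hmF, hK, hf, -, -⟩ := M.exists_bounds
  have h1 := (ell_bounds M hm hf ha hb h).1
  have h2 : 0 < ‖a - b‖ := norm_pos_iff.2 (sub_ne_zero.2 hab)
  have h3 : 0 < m * ‖a - b‖ := mul_pos hm h2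
  linarith

private theorem AEllB_approx (M : Met) {m F K : ℝ} (hm : 0 < m) (hmF : m ≤ F) (hK : 0 < K)
    (hf : ∀ x : E, x ≠ 0 → m ≤ M.f x ∧ M.f x ≤ F)
    (hL : ∀ x y : E, ‖x‖ = 1 → ‖y‖ = 1 → |M.f x - M.f y| ≤ K * ‖x - y‖)
    {a b : E} (ha : ‖a‖ = 1) (hb : ‖b‖ = 1) (h : ‖a - b‖ ≤ 1) :
    |ell M a b - M.f a * ‖a - b‖| ≤ (2 * K + F) * ‖a - b‖ ^ 2 := by
  have hne : ∀ t : ℝ, (1 - t) • a + t • b ≠ 0 := fun t => seg_ne_zero ha hb (by linarith) t
  have ha0 : a ≠ 0 := fun h0 => by rw [h0, norm_zero] at ha; norm_num at ha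
  have hc := AEllB_cont M ha hb h
  have hd := norm_nonneg (a - b)
  have hcn := norm_nonneg (crs a b)
  have hcd := AEllB_crs_le ha hb
  have hdc := AEllB_le_crs ha hb h
  have hF : 0 < F := lt_of_lt_of_le hm hmF
  have h1 : ∫ t in (0:ℝ)..1, (M.f a * ‖a - b‖) = M.f a * ‖a - b‖ := by
    rw [intervalIntegral.integral_const]
    simp
  have h2 : ell M a b - M.f a * ‖a - b‖ = ∫ t in (0:ℝ)..1,
      (M.f ((1 - t) • a + t • b) * ‖crs a b‖ / ‖(1 - t) • a + t • b‖ ^ 2 - M.f a * ‖a - b‖) := by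
    rw [intervalIntegral.integral_sub (hc.intervalIntegrable _ _)
      (Continuous.intervalIntegrable (by fun_prop) _ _), h1]
    rfl
  rw [h2, ← Real.norm_eq_abs]
  refine (intervalIntegral.norm_integral_le_of_norm_le_const
    (C := (2 * K + F) * ‖a - b‖ ^ 2) fun t ht => ?_).trans (by norm_num)
  rw [uIoc_of_le zero_le_one] at ht
  have ht' : t ∈ Icc (0:ℝ) 1 := ⟨ht.1.le, ht.2⟩
  obtain ⟨q1, q2, q3, q4⟩ := AEllB_q ha hb h ht'
  rw [norm_seg_sq ha hb, Real.norm_eq_abs]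
  have hfa := hf a ha0
  have hfu : |M.f ((1 - t) • a + t • b) - M.f a| ≤ K * ‖a - b‖ := by
    rw [← M.f_nrm (hne t), abs_sub_comm]
    exact (hL _ _ ha (norm_nrm (hne t))).trans
      (mul_le_mul_of_nonneg_left (norm_sub_arc_le ha hb h ht').1 hK.le)
  generalize M.f ((1 - t) • a + t • b) = fu at hfu ⊢
  generalize t * (1 - t) * ‖a - b‖ ^ 2 = x at q1 q2 q3 q4 ⊢
  generalize M.f a = fa at hfa hfu ⊢
  generalize ‖crs a b‖ = c at hcn hcd hdc ⊢
  generalize ‖a - b‖ = d at hd h hcd hdc hfu q4 ⊢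
  have hq : (0:ℝ) < 1 - x := by linarith
  have hq1 : c / (1 - x) ≤ 4 / 3 * d := by
    rw [div_le_iff₀ hq]
    nlinarith
  have hq0 : 0 ≤ c / (1 - x) := by positivity
  have hd2 : d ^ 2 ≤ 1 := pow_le_one₀ hd h
  have hd3 : d ^ 3 ≤ d ^ 2 := by nlinarith [sq_nonneg d]
  have e1 : fu * c / (1 - x) - fa * d = (fu - fa) * (c / (1 - x)) + fa * (c / (1 - x) - d) := by
    field_simp
    ring
  have h3 : |(fu - fa) * (c / (1 - x))| ≤ 4 / 3 * K * d ^ 2 := by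
    rw [abs_mul, abs_of_nonneg hq0]
    calc |fu - fa| * (c / (1 - x)) ≤ (K * d) * (4 / 3 * d) :=
          mul_le_mul hfu hq1 hq0 (by positivity)
      _ = 4 / 3 * K * d ^ 2 := by ring
  have h4 : |c / (1 - x) - d| ≤ d ^ 2 := by
    rw [abs_le]
    constructor
    · have h5 : c ≤ c / (1 - x) := by
        rw [le_div_iff₀ hq]
        nlinarith
      have h6 : d - c ≤ d ^ 3 / 6 := by nlinarith [sq_nonneg d, mul_le_mul_of_nonneg_right hcd (sq_nonneg d)]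
      nlinarith [sq_nonneg d]
    · have h5 : c / (1 - x) ≤ d + d ^ 2 / 3 := by
        rw [div_le_iff₀ hq]
        nlinarith [sq_nonneg d, mul_nonneg hd (sq_nonneg d)]
      nlinarith [sq_nonneg d]
  have h5 : |fa * (c / (1 - x) - d)| ≤ F * d ^ 2 := by
    rw [abs_mul, abs_of_nonneg (by linarith : (0:ℝ) ≤ fa)]
    exact mul_le_mul hfa.2 h4 (abs_nonneg _) hF.le
  rw [e1]
  refine (abs_add_le _ _).trans ((add_le_add h3 h5).trans ?_)
  have : 0 ≤ K * d ^ 2 := by positivity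
  linarith

theorem ell_approx (M : Met) : ∃ C > 0, ∀ a b : E, ‖a‖ = 1 → ‖b‖ = 1 → ‖a - b‖ ≤ 1 →
    |ell M a b - M.f a * ‖a - b‖| ≤ C * ‖a - b‖ ^ 2 := by
  obtain ⟨m, F, K, hm, hmF, hK, hf, hL, -⟩ := M.exists_bounds
  exact ⟨2 * K + F, by linarith, fun a b ha hb h => AEllB_approx M hm hmF hK hf hL ha hb h⟩

theorem ell_chord (M : Met) : ∃ C > 0, ∀ a b : E, ‖a‖ = 1 → ‖b‖ = 1 → ‖a - b‖ ≤ 1 →
    |ell M a b - √(M.f a * M.f b) * ‖a - b‖| ≤ C * ‖a - b‖ ^ 2 ∧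
    √(M.f a * M.f b) * ‖a - b‖ ≤ (1 + C * ‖a - b‖) * ell M a b ∧
    ell M a b ≤ (1 + C * ‖a - b‖) * (√(M.f a * M.f b) * ‖a - b‖) := by
  obtain ⟨m, F, K, hm, hmF, hK, hf, hL, -⟩ := M.exists_bounds
  have hF : 0 < F := lt_of_lt_of_le hm hmF
  refine ⟨(3 * K + F) + (3 * K + F) / m, by positivity, fun a b ha hb h => ?_⟩
  have ha0 : a ≠ 0 := fun h0 => by rw [h0, norm_zero] at ha; norm_num at ha
  have hb0 : b ≠ 0 := fun h0 => by rw [h0, norm_zero] at hb; norm_num at hb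
  have h1 := AEllB_approx M hm hmF hK hf hL ha hb h
  have h2 := (ell_bounds M hm hf ha hb h).1
  have hfa := hf a ha0
  have hfb := hf b hb0
  have hab := hL a b ha hb
  have hd := norm_nonneg (a - b)
  generalize ell M a b = l at h1 h2 ⊢
  generalize M.f a = fa at hfa hab h1 ⊢
  generalize M.f b = fb at hfb hab ⊢
  generalize ‖a - b‖ = d at hd h hab h1 h2 ⊢
  have hs0 : m ≤ √(fa * fb) := by
    refine Real.le_sqrt_of_sq_le ?_
    nlinarith [hfa.1, hfb.1]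
  have hs1 : |√(fa * fb) - fa| ≤ K * d := by
    refine le_trans ?_ hab
    rcases le_total fa fb with h3 | h3
    · have h4 : fa ≤ √(fa * fb) := Real.le_sqrt_of_sq_le (by nlinarith)
      have h5 : √(fa * fb) ≤ fb := by
        rw [Real.sqrt_le_left (by linarith)]
        nlinarith
      rw [abs_of_nonneg (by linarith), abs_of_nonpos (by linarith)]
      linarith
    · have h4 : √(fa * fb) ≤ fa := by
        rw [Real.sqrt_le_left (by linarith)]
        nlinarith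
      have h5 : fb ≤ √(fa * fb) := Real.le_sqrt_of_sq_le (by nlinarith)
      rw [abs_of_nonpos (by linarith), abs_of_nonneg (by linarith)]
      linarith
  generalize √(fa * fb) = s at hs0 hs1 ⊢
  have h6 : |l - s * d| ≤ (3 * K + F) * d ^ 2 := by
    have h7 : l - s * d = (l - fa * d) + (-((s - fa) * d)) := by ring
    rw [h7]
    refine (abs_add_le _ _).trans ?_
    rw [abs_neg, abs_mul, abs_of_nonneg hd]
    have h8 : |s - fa| * d ≤ K * d * d := mul_le_mul_of_nonneg_right hs1 hd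
    nlinarith
  have hC : 0 < 3 * K + F := by positivity
  have hC' : 0 < (3 * K + F) / m := by positivity
  have h7 : (3 * K + F) * d ^ 2 = (3 * K + F) / m * d * (m * d) := by
    field_simp
  have h9 := abs_le.1 h6
  refine ⟨h6.trans ?_, ?_, ?_⟩
  · have : 0 ≤ (3 * K + F) / m * d ^ 2 := by positivity
    linarith [add_mul (3 * K + F) ((3 * K + F) / m) (d ^ 2)]
  · have hl : 0 ≤ l := le_trans (by positivity) h2
    have h10 : (3 * K + F) / m * d * (m * d) ≤ (3 * K + F) / m * d * l :=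
      mul_le_mul_of_nonneg_left h2 (by positivity)
    have h11 : 0 ≤ (3 * K + F) * d * l := by positivity
    have e : (1 + ((3 * K + F) + (3 * K + F) / m) * d) * l
        = l + (3 * K + F) * d * l + (3 * K + F) / m * d * l := by ring
    rw [e]
    linarith [h9.1]
  · have hl : m * d ≤ s * d := mul_le_mul_of_nonneg_right hs0 hd
    have hl0 : 0 ≤ s * d := le_trans (by positivity) hl
    have h10 : (3 * K + F) / m * d * (m * d) ≤ (3 * K + F) / m * d * (s * d) :=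
      mul_le_mul_of_nonneg_left hl (by positivity)
    have h11 : 0 ≤ (3 * K + F) * d * (s * d) := by positivity
    have e : (1 + ((3 * K + F) + (3 * K + F) / m) * d) * (s * d)
        = s * d + (3 * K + F) * d * (s * d) + (3 * K + F) / m * d * (s * d) := by ring
    rw [e]
    linarith [h9.2]

end CGA
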