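import Pool.Agent.CGA.AEllR

/-! PROJECT CGA, module AEllC: continuity of `ell` (e.g. `intervalIntegral.continuous_parametric...` after
restricting to a compact neighbourhood on which the segment stays away from `0`, or dominated
convergence). -/

set_option linter.all false

namespace CGA

open scoped RealInnerProductSpace Real Topology
open MeasureTheory Set Filter

private theorem AEllC_ne {a b : E} (h : 0 < ‖a‖ * ‖b‖ + ⟪a, b⟫) {t : ℝ} (ht : t ∈ Icc (0:ℝ) 1) :
    (1 - t) • a + t • b ≠ 0 := by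
  intro h0
  have h1 : t • b = -((1 - t) • a) := by
    rw [eq_neg_iff_add_eq_zero, add_comm]
    exact h0
  have h2 : t * ‖b‖ = (1 - t) * ‖a‖ := by
    have := congrArg norm h1
    rwa [norm_neg, norm_smul, norm_smul, Real.norm_of_nonneg ht.1,
      Real.norm_of_nonneg (by linarith [ht.2])] at this
  have h3 : t * ⟪a, b⟫ = -((1 - t) * ‖a‖ ^ 2) := by
    rw [← inner_smul_right, h1, inner_neg_right, inner_smul_right, real_inner_self_eq_norm_sq]
  have h4 : t * (‖a‖ * ‖b‖ + ⟪a, b⟫) = 0 := by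
    linear_combination ‖a‖ * h2 + h3
  rcases mul_eq_zero.1 h4 with h5 | h5
  · rw [h5, zero_mul, sub_zero, one_mul] at h2
    rw [norm_eq_zero.1 h2.symm, norm_zero, zero_mul, inner_zero_left, add_zero] at h
    exact lt_irrefl _ h
  · exact h.ne' h5

private theorem AEllC_integrand (M : Met) : ContinuousOn (fun q : (E × E) × ℝ =>
    M.f ((1 - q.2) • q.1.1 + q.2 • q.1.2) * ‖crs q.1.1 q.1.2‖ /
      ‖(1 - q.2) • q.1.1 + q.2 • q.1.2‖ ^ 2) {q | (1 - q.2) • q.1.1 + q.2 • q.1.2 ≠ 0} := by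
  have hu : Continuous fun q : (E × E) × ℝ => (1 - q.2) • q.1.1 + q.2 • q.1.2 := by fun_prop
  have hc : Continuous fun q : (E × E) × ℝ => ‖crs q.1.1 q.1.2‖ :=
    (continuous_crs.comp continuous_fst).norm
  refine ContinuousOn.div (ContinuousOn.mul ?_ hc.continuousOn) (hu.norm.pow 2).continuousOn ?_
  · exact M.continuousOn_f.comp hu.continuousOn fun q hq => hq
  · intro q hq
    exact pow_ne_zero _ (norm_ne_zero_iff.2 hq)

private theorem AEllC_on (M : Met) : ContinuousOn (fun p : E × E => ell M p.1 p.2)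
    {p | 0 < ‖p.1‖ * ‖p.2‖ + ⟪p.1, p.2⟫} := by
  rw [continuousOn_iff_continuous_restrict]
  have h1 : Continuous fun x : {p : E × E | 0 < ‖p.1‖ * ‖p.2‖ + ⟪p.1, p.2⟫} =>
      ∫ t in (0:ℝ)..1, M.f ((1 - (projIcc (0:ℝ) 1 zero_le_one t : ℝ)) • x.1.1 +
        (projIcc (0:ℝ) 1 zero_le_one t : ℝ) • x.1.2) * ‖crs x.1.1 x.1.2‖ /
        ‖(1 - (projIcc (0:ℝ) 1 zero_le_one t : ℝ)) • x.1.1 +
          (projIcc (0:ℝ) 1 zero_le_one t : ℝ) • x.1.2‖ ^ 2 := by
    refine intervalIntegral.continuous_parametric_intervalIntegral_of_continuous' ?_ 0 1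
    have h2 : Continuous fun q : {p : E × E | 0 < ‖p.1‖ * ‖p.2‖ + ⟪p.1, p.2⟫} × ℝ =>
        (((q.1 : E × E), (projIcc (0:ℝ) 1 zero_le_one q.2 : ℝ)) : (E × E) × ℝ) :=
      (continuous_subtype_val.comp continuous_fst).prodMk
        (continuous_subtype_val.comp (continuous_projIcc.comp continuous_snd))
    exact (AEllC_integrand M).comp_continuous h2 fun q =>
      AEllC_ne q.1.2 (projIcc (0:ℝ) 1 zero_le_one q.2).2
  refine h1.congr fun x => ?_
  refine intervalIntegral.integral_congr fun t ht => ?_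
  rw [uIcc_of_le zero_le_one] at ht
  simp only [projIcc_of_mem zero_le_one ht]

theorem continuousAt_ell (M : Met) {a b : E} (h : 0 < ‖a‖ * ‖b‖ + ⟪a, b⟫) :
    ContinuousAt (fun p : E × E => ell M p.1 p.2) (a, b) := by
  have ho : IsOpen {p : E × E | 0 < ‖p.1‖ * ‖p.2‖ + ⟪p.1, p.2⟫} :=
    isOpen_lt continuous_const (by fun_prop)
  exact (AEllC_on M).continuousAt (ho.mem_nhds h)

theorem continuousOn_ell (M : Met) :
    ContinuousOn (fun p : E × E => ell M p.1 p.2)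
      {p | ‖p.1‖ = 1 ∧ ‖p.2‖ = 1 ∧ ‖p.1 - p.2‖ ≤ 1} := by
  refine (AEllC_on M).mono ?_
  rintro ⟨a, b⟩ ⟨ha, hb, h⟩
  have h1 := unit_inner_le ha hb
  change 0 < ‖a‖ * ‖b‖ + ⟪a, b⟫
  rw [h1, ha, hb]
  have h2 : ‖a - b‖ ^ 2 ≤ 1 := by
    have h3 : ‖a - b‖ ≤ 1 := h
    nlinarith [norm_nonneg (a - b)]
  linarith

end CGA
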