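import Pool.Agent.CGA.AMet

/-! PROJECT CGA, module AEllR: invariance properties of `ell`.

All statements follow from the substitution rule.  The integrand of `ell` is
`f(u) |u × u'| / |u|²` with `u(t) = (1-t)a+tb`, `u' = b-a`, `u × u' = a × b`, which is invariant under
`u → λ(t) u` and under reparametrisation.  For `ell_smul`: the Moebius substitution
`s(t) = μ t/(λ(1-t)+μ t)` gives `(1-t)λa + tμb = (λ(1-t)+μt) ((1-s)a+sb)`, `s'(t) = λμ/(λ(1-t)+μt)²`,
`|λa × μb| = λμ|a×b|`.  For `ell_add`: affine substitutions. -/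

set_option linter.all false

namespace CGA

open scoped RealInnerProductSpace Real Topology
open MeasureTheory Set Filter

/-- the integrand of `ell` -/
private noncomputable def igd (M : Met) (a b : E) (t : ℝ) : ℝ :=
  M.f ((1 - t) • a + t • b) * ‖crs a b‖ / ‖(1 - t) • a + t • b‖ ^ 2

private theorem ell_igd (M : Met) (a b : E) : ell M a b = ∫ t in (0:ℝ)..1, igd M a b t := rfl

private theorem igd_nonneg (M : Met) (a b : E) (t : ℝ) : 0 ≤ igd M a b t := by
  unfold igd
  by_cases h : (1 - t) • a + t • b = 0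
  · rw [h]; simp
  · have := (M.pos _ h).le
    positivity

theorem ell_nonneg (M : Met) (a b : E) : 0 ≤ ell M a b := by
  rw [ell_igd]
  exact intervalIntegral.integral_nonneg (by norm_num) fun t _ => igd_nonneg M a b t

@[simp] theorem ell_self (M : Met) (a : E) : ell M a a = 0 := by
  simp [ell]

theorem ell_comm (M : Met) (a b : E) : ell M a b = ell M b a := by
  rw [ell_igd, ell_igd]
  have h : ∀ t, igd M a b t = igd M b a (1 - t) := by
    intro t
    unfold igd
    rw [crs_swap b a, norm_neg]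
    have : (1 - (1 - t)) • b + (1 - t) • a = (1 - t) • a + t • b := by
      rw [sub_sub_cancel, add_comm]
    rw [this]
  rw [intervalIntegral.integral_congr (fun t _ => h t), intervalIntegral.integral_comp_sub_left]
  norm_num

/-- no point of the segment is zero, and the sub-arcs are short -/
private theorem seg_pos {a b : E} (h : 0 < ‖a‖ * ‖b‖ + ⟪a, b⟫) {s : ℝ} (hs : s ∈ Icc (0:ℝ) 1) :
    0 < ‖a‖ * ‖(1 - s) • a + s • b‖ + ⟪a, (1 - s) • a + s • b⟫ := by
  have ha : a ≠ 0 := by
    rintro rfl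
    simp at h
  have ha' : 0 < ‖a‖ := norm_pos_iff.2 ha
  have hb : b ≠ 0 := by
    rintro rfl
    simp at h
  have hb' : 0 < ‖b‖ := norm_pos_iff.2 hb
  set c := (1 - s) • a + s • b with hc
  have hin : ⟪a, c⟫ = (1 - s) * ‖a‖ ^ 2 + s * ⟪a, b⟫ := by
    rw [hc, inner_add_right, real_inner_smul_right, real_inner_smul_right, real_inner_self_eq_norm_sq]
  have hcs := norm_crs_sq a c
  have hcr : crs a c = s • crs a b := by
    rw [hc, crs_lin2, crs_self, smul_zero, zero_add]
  have hab := norm_crs_sq a b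
  rw [hcr, norm_smul, mul_pow, hab] at hcs
  by_contra hneg
  push Not at hneg
  have hpc : 0 ≤ ‖a‖ * ‖c‖ := by positivity
  have h1 : ‖a‖ ^ 2 * ‖c‖ ^ 2 ≤ ⟪a, c⟫ ^ 2 := by nlinarith
  have h2 : ‖s‖ ^ 2 * (‖a‖ ^ 2 * ‖b‖ ^ 2 - ⟪a, b⟫ ^ 2) ≤ 0 := by linarith
  have h3 : ‖s‖ ^ 2 = s ^ 2 := by rw [Real.norm_eq_abs, sq_abs]
  rw [h3] at h2
  have h4 : ⟪a, b⟫ ^ 2 ≤ ‖a‖ ^ 2 * ‖b‖ ^ 2 := by
    have := sq_nonneg ‖crs a b‖
    linarith
  rcases eq_or_lt_of_le hs.1 with h0 | h0
  · rw [← h0] at hin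
    have : 0 < ⟪a, c⟫ := by rw [hin]; nlinarith
    linarith
  · have h5 : ‖a‖ ^ 2 * ‖b‖ ^ 2 - ⟪a, b⟫ ^ 2 ≤ 0 := by
      by_contra h6
      push Not at h6
      have : 0 < s ^ 2 * (‖a‖ ^ 2 * ‖b‖ ^ 2 - ⟪a, b⟫ ^ 2) := by positivity
      linarith
    have h6 : (‖a‖ * ‖b‖ + ⟪a, b⟫) * (‖a‖ * ‖b‖ - ⟪a, b⟫) ≤ 0 := by nlinarith
    have h7 : ‖a‖ * ‖b‖ ≤ ⟪a, b⟫ := by
      by_contra h8
      push Not at h8
      have : 0 < (‖a‖ * ‖b‖ + ⟪a, b⟫) * (‖a‖ * ‖b‖ - ⟪a, b⟫) := mul_pos h (by linarith)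
      linarith
    have h8 : 0 < ⟪a, b⟫ := lt_of_lt_of_le (by positivity) h7
    have h9 : 0 < ⟪a, c⟫ := by
      rw [hin]
      have : 0 ≤ (1 - s) * ‖a‖ ^ 2 := mul_nonneg (by linarith [hs.2]) (by positivity)
      have : 0 < s * ⟪a, b⟫ := by positivity
      linarith
    linarith

private theorem seg_ne {a b : E} (h : 0 < ‖a‖ * ‖b‖ + ⟪a, b⟫) {s : ℝ} (hs : s ∈ Icc (0:ℝ) 1) :
    (1 - s) • a + s • b ≠ 0 := by
  intro h0
  have := seg_pos h hs
  rw [h0] at this
  simp at this

private theorem igd_cont (M : Met) {a b : E} (h : 0 < ‖a‖ * ‖b‖ + ⟪a, b⟫) :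
    ContinuousOn (igd M a b) (Icc 0 1) := by
  unfold igd
  have hc : ContinuousOn (fun t : ℝ => (1 - t) • a + t • b) (Icc 0 1) := by fun_prop
  refine ContinuousOn.div ?_ (by fun_prop) ?_
  · refine ContinuousOn.mul ?_ continuousOn_const
    exact M.continuousOn_f.comp hc fun t ht => seg_ne h ht
  · intro t ht
    have := norm_pos_iff.2 (seg_ne h ht)
    positivity

private theorem igd_int (M : Met) {a b : E} (h : 0 < ‖a‖ * ‖b‖ + ⟪a, b⟫) {x y : ℝ}
    (hx : x ∈ Icc (0:ℝ) 1) (hy : y ∈ Icc (0:ℝ) 1) :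
    IntervalIntegrable (igd M a b) volume x y := by
  refine ContinuousOn.intervalIntegrable ((igd_cont M h).mono ?_)
  exact uIcc_subset_Icc hx hy

theorem ell_smul (M : Met) {a b : E} (h : 0 < ‖a‖ * ‖b‖ + ⟪a, b⟫) {l m : ℝ} (hl : 0 < l)
    (hm : 0 < m) : ell M (l • a) (m • b) = ell M a b := by
  rw [ell_igd, ell_igd]
  have hD : ∀ t ∈ Icc (0:ℝ) 1, 0 < l * (1 - t) + m * t := by
    intro t ht
    rcases eq_or_lt_of_le ht.1 with h0 | h0
    · rw [← h0]; simpa using hl
    · have : 0 ≤ l * (1 - t) := mul_nonneg hl.le (by linarith [ht.2])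
      have : 0 < m * t := by positivity
      linarith
  have hsub := @intervalIntegral.integral_comp_mul_deriv_of_deriv_nonneg 0 1
    (fun t => m * t / (l * (1 - t) + m * t)) (fun t => l * m / (l * (1 - t) + m * t) ^ 2)
    (igd M a b) ?_ ?_ ?_
  · have e0 : m * 0 / (l * (1 - 0) + m * 0) = 0 := by simp
    have e1 : m * 1 / (l * (1 - 1) + m * 1) = 1 := by
      rw [sub_self, mul_zero, zero_add, mul_one, div_self hm.ne']
    simp only [e0, e1] at hsub
    rw [← hsub]
    refine intervalIntegral.integral_congr fun t ht => ?_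
    rw [uIcc_of_le (by norm_num : (0:ℝ) ≤ 1)] at ht
    have hDt := hD t ht
    set D := l * (1 - t) + m * t with hDdef
    simp only [Function.comp]
    set s := m * t / D with hs
    have hsI : s ∈ Icc (0:ℝ) 1 := by
      constructor
      · exact div_nonneg (mul_nonneg hm.le ht.1) hDt.le
      · rw [hs, div_le_one hDt, hDdef]
        have : 0 ≤ l * (1 - t) := mul_nonneg hl.le (by linarith [ht.2])
        linarith
    have hv : (1 - t) • l • a + t • m • b = D • ((1 - s) • a + s • b) := by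
      rw [smul_add, smul_smul, smul_smul, smul_smul, smul_smul]
      congr 2
      · rw [hs]; field_simp; rw [hDdef]; ring
      · rw [hs]; field_simp
    have hne := seg_ne h hsI
    unfold igd
    rw [hv, M.hom D _ hDt, norm_smul, Real.norm_of_nonneg hDt.le, crs_smul1, crs_smul2, norm_smul,
      norm_smul, Real.norm_of_nonneg hl.le, Real.norm_of_nonneg hm.le]
    have hn : ‖(1 - s) • a + s • b‖ ≠ 0 := norm_ne_zero_iff.2 hne
    field_simp
  · refine ContinuousOn.div (by fun_prop) (by fun_prop) fun t ht => ?_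
    rw [uIcc_of_le (by norm_num : (0:ℝ) ≤ 1)] at ht
    exact (hD t ht).ne'
  · intro t ht
    simp only [min_eq_left (zero_le_one' ℝ), max_eq_right (zero_le_one' ℝ)] at ht
    have hDt := hD t (Ioo_subset_Icc_self ht)
    have h1 : HasDerivAt (fun t : ℝ => m * t) m t := by
      simpa using (hasDerivAt_id t).const_mul m
    have h2 : HasDerivAt (fun t : ℝ => l * (1 - t) + m * t) (l * (-1) + m) t := by
      have h3 : HasDerivAt (fun t : ℝ => 1 - t) (-1) t := by
        simpa using (hasDerivAt_id t).const_sub 1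
      exact (h3.const_mul l).add h1
    have h4 := h1.fun_div h2 hDt.ne'
    have e5 : l * m / (l * (1 - t) + m * t) ^ 2 =
        (m * (l * (1 - t) + m * t) - m * t * (l * -1 + m)) / (l * (1 - t) + m * t) ^ 2 := by
      congr 1
      ring
    rw [e5]
    exact h4
  · intro t ht
    positivity

theorem ell_add (M : Met) {a b : E} (h : 0 < ‖a‖ * ‖b‖ + ⟪a, b⟫) {t : ℝ} (ht : t ∈ Icc (0:ℝ) 1) :
    ell M a ((1 - t) • a + t • b) + ell M ((1 - t) • a + t • b) b = ell M a b := by
  have h1 : ell M a ((1 - t) • a + t • b) = ∫ s in (0:ℝ)..t, igd M a b s := by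
    rw [ell_igd]
    have : ∀ s, igd M a ((1 - t) • a + t • b) s = t * igd M a b (t * s) := by
      intro s
      unfold igd
      have e1 : (1 - s) • a + s • ((1 - t) • a + t • b) = (1 - t * s) • a + (t * s) • b := by
        module
      have e2 : crs a ((1 - t) • a + t • b) = t • crs a b := by
        rw [crs_lin2, crs_self, smul_zero, zero_add]
      rw [e1, e2, norm_smul, Real.norm_of_nonneg ht.1]
      ring
    rw [intervalIntegral.integral_congr (fun s _ => this s), intervalIntegral.integral_const_mul,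
      intervalIntegral.mul_integral_comp_mul_left]
    simp
  have h2 : ell M ((1 - t) • a + t • b) b = ∫ s in t..1, igd M a b s := by
    rw [ell_igd]
    have : ∀ s, igd M ((1 - t) • a + t • b) b s = (1 - t) * igd M a b (t + (1 - t) * s) := by
      intro s
      unfold igd
      have e1 : (1 - s) • ((1 - t) • a + t • b) + s • b =
          (1 - (t + (1 - t) * s)) • a + (t + (1 - t) * s) • b := by
        module
      have e2 : crs ((1 - t) • a + t • b) b = (1 - t) • crs a b := by
        rw [crs_lin1, crs_self, smul_zero, add_zero]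
      rw [e1, e2, norm_smul, Real.norm_of_nonneg (by linarith [ht.2] : (0:ℝ) ≤ 1 - t)]
      ring
    rw [intervalIntegral.integral_congr (fun s _ => this s), intervalIntegral.integral_const_mul,
      intervalIntegral.mul_integral_comp_add_mul]
    simp
  rw [h1, h2, ell_igd]
  exact intervalIntegral.integral_add_adjacent_intervals (igd_int M h ⟨le_rfl, zero_le_one⟩ ht)
    (igd_int M h ht ⟨zero_le_one, le_rfl⟩)

private theorem pos_unit {a b : E} (ha : ‖a‖ = 1) (hb : ‖b‖ = 1) (h : ‖a - b‖ < 2) :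
    0 < ‖a‖ * ‖b‖ + ⟪a, b⟫ := by
  rw [unit_inner_le ha hb, ha, hb]
  nlinarith [norm_nonneg (a - b)]

/-- additivity for unit vectors -/
theorem ell_add_nrm (M : Met) {a b : E} (ha : ‖a‖ = 1) (hb : ‖b‖ = 1) (h : ‖a - b‖ < 2) {t : ℝ}
    (ht : t ∈ Icc (0:ℝ) 1) :
    ell M a (nrm ((1 - t) • a + t • b)) + ell M (nrm ((1 - t) • a + t • b)) b = ell M a b := by
  have hp := pos_unit ha hb h
  have hp' : 0 < ‖b‖ * ‖a‖ + ⟪b, a⟫ := by rw [mul_comm, real_inner_comm]; exact hp
  have hne := seg_ne hp ht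
  have hn : 0 < ‖(1 - t) • a + t • b‖⁻¹ := by
    have := norm_pos_iff.2 hne
    positivity
  have e1 : ell M a (nrm ((1 - t) • a + t • b)) = ell M a ((1 - t) • a + t • b) := by
    have := ell_smul M (seg_pos hp ht) one_pos hn
    rw [one_smul] at this
    exact this
  have e2 : ell M (nrm ((1 - t) • a + t • b)) b = ell M ((1 - t) • a + t • b) b := by
    have h1 := seg_pos hp' (s := 1 - t) ⟨by linarith [ht.2], by linarith [ht.1]⟩
    have e3 : (1 - (1 - t)) • b + (1 - t) • a = (1 - t) • a + t • b := by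
      rw [sub_sub_cancel, add_comm]
    rw [e3] at h1
    have := ell_smul M h1 one_pos hn
    rw [one_smul] at this
    rw [ell_comm M _ b, ell_comm M _ b]
    exact this
  rw [e1, e2]
  exact ell_add M hp ht

/-- additivity, intrinsic form: `c` in the open arc `(a,b)` of the great circle `n^⊥` -/
theorem ell_add_between (M : Met) {n a b c : E} (ha : ‖a‖ = 1) (hb : ‖b‖ = 1) (hc : ‖c‖ = 1)
    (hna : ⟪n, a⟫ = 0) (hnb : ⟪n, b⟫ = 0) (hnc : ⟪n, c⟫ = 0) (hab : 0 < det3 n a b)
    (hac : 0 < det3 n a c) (hcb : 0 < det3 n c b) : ell M a c + ell M c b = ell M a b := by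
  have hpl := det3_plane (d := a) hna hnb hnc
  have hne : a ≠ -b := by
    rintro rfl
    rw [det3_neg2, det3_self23] at hab
    simp at hab
  have hlt : ‖a - b‖ < 2 := by
    have h1 : 1 + ⟪a, b⟫ ≠ 0 := fun h0 => hne ((unit_antipodal ha hb).1 h0)
    have h2 : -1 ≤ ⟪a, b⟫ := by
      have := (abs_le.1 (abs_real_inner_le_norm a b)).1
      rw [ha, hb, one_mul] at this
      exact this
    have h3 : -1 < ⟪a, b⟫ := lt_of_le_of_ne h2 (fun h0 => h1 (by linarith))
    have h4 := unit_inner_le ha hb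
    have h5 : ‖a - b‖ ^ 2 < 2 ^ 2 := by nlinarith
    exact lt_of_pow_lt_pow_left₀ 2 (by norm_num) h5
  set x := det3 n c b with hx
  set y := det3 n a c with hy
  set D := det3 n a b with hD
  have hxy : 0 < x + y := by linarith
  set t := y / (x + y) with ht
  have ht1 : t ∈ Icc (0:ℝ) 1 := by
    constructor
    · positivity
    · rw [ht, div_le_one hxy]; linarith
  have hcomb : (1 - t) • a + t • b = (D / (x + y)) • c := by
    have e1 : 1 - t = (x + y)⁻¹ * x := by rw [ht]; field_simp; ring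
    have e2 : t = (x + y)⁻¹ * y := by rw [ht]; field_simp
    rw [e1, e2, mul_smul, mul_smul, ← smul_add, ← hpl, smul_smul]
    congr 1
    field_simp
  have hnc' : nrm ((1 - t) • a + t • b) = c := by
    rw [hcomb, nrm_smul (by positivity), nrm_of_unit hc]
  have := ell_add_nrm M ha hb hlt ht1
  rw [hnc'] at this
  exact this

end CGA
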