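import Pool.Agent.CGA.ANrm

/-! PROJECT CGA, module AMet: bounds for the conformal factor, its gradient. -/

set_option linter.all false

namespace CGA

open scoped RealInnerProductSpace Real Topology
open MeasureTheory Set Filter

theorem Met.continuousOn_f (M : Met) : ContinuousOn M.f {x : E | x ≠ 0} := M.smooth.continuousOn

private theorem AMet_open : IsOpen {x : E | x ≠ 0} := isOpen_ne

private theorem AMet_diff (M : Met) {x : E} (hx : x ≠ 0) : DifferentiableAt ℝ M.f x :=
  (M.smooth.contDiffAt (isOpen_ne.mem_nhds hx)).differentiableAt (by norm_num)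

theorem Met.hasGradientAt (M : Met) {x : E} (hx : x ≠ 0) : HasGradientAt M.f (gradient M.f x) x :=
  (AMet_diff M hx).hasGradientAt

theorem Met.continuousOn_gradient (M : Met) : ContinuousOn (gradient M.f) {x : E | x ≠ 0} := by
  have h1 : ContinuousOn (fderiv ℝ M.f) {x : E | x ≠ 0} :=
    M.smooth.continuousOn_fderiv_of_isOpen isOpen_ne (by norm_num)
  exact (InnerProductSpace.toDual ℝ E).symm.continuous.comp_continuousOn h1

/-- homogeneity of degree zero -/
theorem Met.inner_gradient_self (M : Met) {x : E} (hx : x ≠ 0) : ⟪gradient M.f x, x⟫ = 0 := by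
  have h1 : HasDerivAt (fun t : ℝ => t • x) x 1 := by
    simpa using (hasDerivAt_id (1 : ℝ)).smul_const x
  have h2 : HasFDerivAt M.f (InnerProductSpace.toDual ℝ E (gradient M.f x)) ((1 : ℝ) • x) := by
    rw [one_smul]
    exact (M.hasGradientAt hx).hasFDerivAt
  have h3 := h2.comp_hasDerivAt (1 : ℝ) h1
  have h4 : HasDerivAt (fun t : ℝ => M.f (t • x)) 0 1 := by
    refine (hasDerivAt_const (1 : ℝ) (M.f x)).congr_of_eventuallyEq ?_
    filter_upwards [lt_mem_nhds (show (0 : ℝ) < 1 by norm_num)] with t ht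
    exact M.hom t x ht
  have h5 := h3.unique h4
  simpa using h5

theorem Met.gradient_smul (M : Met) {x : E} (hx : x ≠ 0) {t : ℝ} (ht : 0 < t) :
    gradient M.f (t • x) = t⁻¹ • gradient M.f x := by
  have hne : t • x ≠ 0 := smul_ne_zero ht.ne' hx
  have h1 : HasFDerivAt (fun y : E => t • y) (t • ContinuousLinearMap.id ℝ E) x :=
    (hasFDerivAt_id x).const_smul t
  have h2 := (M.hasGradientAt hne).hasFDerivAt.comp x h1
  have h3 : (M.f ∘ fun y : E => t • y) = M.f := by
    funext y
    exact M.hom t y ht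
  rw [h3] at h2
  have h4 := (M.hasGradientAt hx).hasFDerivAt.unique h2
  have h5 : gradient M.f x = t • gradient M.f (t • x) := by
    apply (InnerProductSpace.toDual ℝ E).injective
    rw [h4]
    ext v
    simp
  rw [h5, smul_smul, inv_mul_cancel₀ ht.ne', one_smul]

private theorem AMet_sphere : IsCompact {x : E | ‖x‖ = 1} := by
  have h : {x : E | ‖x‖ = 1} = Metric.sphere 0 1 := by
    ext x
    simp
  rw [h]
  exact isCompact_sphere 0 1

private theorem AMet_sphere_sub : {x : E | ‖x‖ = 1} ⊆ {x : E | x ≠ 0} := by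
  intro x hx h0
  rw [mem_setOf_eq, h0, norm_zero] at hx
  exact zero_ne_one hx

private theorem AMet_unit_ne {x : E} (hx : ‖x‖ = 1) : x ≠ 0 := AMet_sphere_sub hx

/-- global bounds (compactness of the sphere; the Lipschitz constant along great circle arcs) -/
theorem Met.exists_bounds (M : Met) : ∃ m F K : ℝ, 0 < m ∧ m ≤ F ∧ 0 < K ∧
    (∀ x : E, x ≠ 0 → m ≤ M.f x ∧ M.f x ≤ F) ∧
    (∀ x y : E, ‖x‖ = 1 → ‖y‖ = 1 → |M.f x - M.f y| ≤ K * ‖x - y‖) ∧
    (∀ x : E, ‖x‖ = 1 → ‖gradient M.f x‖ ≤ K) := by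
  have hne : {x : E | ‖x‖ = 1}.Nonempty := ⟨EuclideanSpace.single 0 1, by simp⟩
  have hcf := M.continuousOn_f.mono AMet_sphere_sub
  obtain ⟨x0, hx0, hmin⟩ := AMet_sphere.exists_isMinOn hne hcf
  obtain ⟨x1, hx1, hmax⟩ := AMet_sphere.exists_isMaxOn hne hcf
  obtain ⟨K0, hK0⟩ := AMet_sphere.exists_bound_of_continuousOn
    (M.continuousOn_gradient.mono AMet_sphere_sub)
  have hb : ∀ x : E, x ≠ 0 → M.f x0 ≤ M.f x ∧ M.f x ≤ M.f x1 := by
    intro x hx
    rw [← M.f_nrm hx]
    exact ⟨hmin (norm_nrm hx), hmax (norm_nrm hx)⟩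
  have hm : 0 < M.f x0 := M.pos _ (AMet_unit_ne hx0)
  have hmF : M.f x0 ≤ M.f x1 := (hb x0 (AMet_unit_ne hx0)).2
  have hK0' : 0 ≤ K0 := (norm_nonneg _).trans (hK0 x0 hx0)
  refine ⟨M.f x0, M.f x1, M.f x1 + 2 * K0, hm, hmF, by linarith, hb, ?_, ?_⟩
  · intro x y hx hy
    by_cases hxy : 1 ≤ ‖x - y‖
    · have h1 := hb x (AMet_unit_ne hx)
      have h2 := hb y (AMet_unit_ne hy)
      have h3 : |M.f x - M.f y| ≤ M.f x1 := by
        rw [abs_le]
        constructor <;> linarith
      calc |M.f x - M.f y| ≤ M.f x1 := h3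
        _ ≤ (M.f x1 + 2 * K0) * 1 := by linarith
        _ ≤ _ := mul_le_mul_of_nonneg_left hxy (by linarith)
    · push Not at hxy
      have hseg : ∀ u ∈ segment ℝ y x, 1 / 2 ≤ ‖u‖ := by
        intro u hu
        rw [segment_eq_image] at hu
        obtain ⟨t, ht, rfl⟩ := hu
        have h1 := norm_seg_sq hy hx t
        rw [norm_sub_rev y x] at h1
        have h2 : ‖x - y‖ ^ 2 ≤ 1 := by
          nlinarith [norm_nonneg (x - y)]
        have h3 : t * (1 - t) ≤ 1 / 4 := by nlinarith [sq_nonneg (t - 1 / 2)]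
        have h4 : 0 ≤ t * (1 - t) := mul_nonneg ht.1 (by linarith [ht.2])
        have h5 : (1 / 2 : ℝ) ^ 2 ≤ ‖(1 - t) • y + t • x‖ ^ 2 := by
          rw [h1]
          nlinarith [sq_nonneg ‖x - y‖]
        exact le_of_sq_le_sq h5 (norm_nonneg _)
      have hder : ∀ u ∈ segment ℝ y x, HasFDerivWithinAt M.f
          (InnerProductSpace.toDual ℝ E (gradient M.f u)) (segment ℝ y x) u := by
        intro u hu
        have h1 := hseg u hu
        have hu0 : u ≠ 0 := by
          intro h0
          rw [h0, norm_zero] at h1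
          norm_num at h1
        exact (M.hasGradientAt hu0).hasFDerivAt.hasFDerivWithinAt
      have hbd : ∀ u ∈ segment ℝ y x,
          ‖InnerProductSpace.toDual ℝ E (gradient M.f u)‖ ≤ 2 * K0 := by
        intro u hu
        have h1 := hseg u hu
        have hu0 : u ≠ 0 := by
          intro h0
          rw [h0, norm_zero] at h1
          norm_num at h1
        rw [LinearIsometryEquiv.norm_map]
        have h2 : u = ‖u‖ • nrm u := (smul_nrm u).symm
        have h3 : nrm u ≠ 0 := AMet_unit_ne (norm_nrm hu0)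
        have hpos : 0 < ‖u‖ := norm_pos_iff.2 hu0
        have h4 : gradient M.f u = ‖u‖⁻¹ • gradient M.f (nrm u) := by
          conv_lhs => rw [h2]
          exact M.gradient_smul h3 hpos
        rw [h4, norm_smul, norm_inv, norm_norm]
        have h5 : ‖u‖⁻¹ ≤ 2 := by
          rw [inv_le_comm₀ hpos (by norm_num)]
          linarith
        exact mul_le_mul h5 (hK0 _ (norm_nrm hu0)) (norm_nonneg _) (by norm_num)
      have h6 := (convex_segment y x).norm_image_sub_le_of_norm_hasFDerivWithin_le hder hbd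
        (left_mem_segment ℝ y x) (right_mem_segment ℝ y x)
      rw [Real.norm_eq_abs] at h6
      refine h6.trans (mul_le_mul_of_nonneg_right ?_ (norm_nonneg _))
      linarith
  · intro x hx
    have := hK0 x hx
    linarith

theorem Met.continuousOn_rhs (M : Met) :
    ContinuousOn (fun p : E × E => rhs M p.1 p.2) {p | p.1 ≠ 0} := by
  have hm : MapsTo (fun p : E × E => p.1) {p : E × E | p.1 ≠ 0} {x : E | x ≠ 0} := fun p hp => hp
  have hf : ContinuousOn (fun p : E × E => M.f p.1) {p | p.1 ≠ 0} :=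
    M.continuousOn_f.comp continuousOn_fst hm
  have hg : ContinuousOn (fun p : E × E => gradient M.f p.1) {p | p.1 ≠ 0} :=
    M.continuousOn_gradient.comp continuousOn_fst hm
  have hw : ContinuousOn (fun p : E × E => ‖p.2‖ ^ 2) {p | p.1 ≠ 0} :=
    (continuous_snd.norm.pow 2).continuousOn
  unfold rhs
  refine ContinuousOn.sub (ContinuousOn.smul (hw.div (hf.pow 3) ?_) hg)
    (ContinuousOn.smul (hw.div (hf.pow 2) ?_) continuousOn_fst)
  · intro p hp
    exact pow_ne_zero _ (M.pos _ hp).ne'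
  · intro p hp
    exact pow_ne_zero _ (M.pos _ hp).ne'

/-- first order expansion at a point of the sphere, uniformly -/
theorem Met.exists_taylor (M : Met) : ∀ ε > 0, ∃ δ > 0, ∀ x y : E, ‖x‖ = 1 → ‖y - x‖ ≤ δ →
    |M.f y - M.f x - ⟪gradient M.f x, y - x⟫| ≤ ε * ‖y - x‖ := by
  intro ε hε
  set A : Set E := Metric.closedBall 0 2 \ Metric.ball 0 (1 / 2) with hA
  have hAc : IsCompact A := (isCompact_closedBall 0 2).diff Metric.isOpen_ball
  have hAs : A ⊆ {x : E | x ≠ 0} := by
    rintro x ⟨_, hx⟩ h0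
    rw [h0] at hx
    exact hx (Metric.mem_ball_self (by norm_num))
  have huc := hAc.uniformContinuousOn_of_continuous (M.continuousOn_gradient.mono hAs)
  rw [Metric.uniformContinuousOn_iff] at huc
  obtain ⟨δ, hδ, hd⟩ := huc ε hε
  refine ⟨min (δ / 2) (1 / 2), by positivity, ?_⟩
  intro x y hx hy
  have hball : ∀ z ∈ Metric.closedBall x (min (δ / 2) (1 / 2)), z ∈ A ∧ dist z x < δ := by
    intro z hz
    rw [Metric.mem_closedBall] at hz
    have h1 : dist z x ≤ 1 / 2 := hz.trans (min_le_right _ _)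
    have h2 : dist z x ≤ δ / 2 := hz.trans (min_le_left _ _)
    rw [dist_eq_norm] at h1
    have h3 : ‖z‖ ≤ 3 / 2 := by
      have := norm_add_le (z - x) x
      rw [sub_add_cancel, hx] at this
      linarith
    have h4 : 1 / 2 ≤ ‖z‖ := by
      have := norm_sub_norm_le x z
      rw [hx, norm_sub_rev] at this
      linarith
    refine ⟨⟨?_, ?_⟩, by linarith⟩
    · rw [mem_closedBall_zero_iff]
      linarith
    · rw [mem_ball_zero_iff]
      linarith
  have hr : 0 ≤ min (δ / 2) (1 / 2) := by positivity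
  have hxA := hball x (Metric.mem_closedBall_self hr)
  have hder : ∀ z ∈ Metric.closedBall x (min (δ / 2) (1 / 2)), HasFDerivWithinAt
      (fun z => M.f z - ⟪gradient M.f x, z⟫)
      (InnerProductSpace.toDual ℝ E (gradient M.f z - gradient M.f x))
      (Metric.closedBall x (min (δ / 2) (1 / 2))) z := by
    intro z hz
    have h1 := (M.hasGradientAt (hAs (hball z hz).1)).hasFDerivAt
    have h2 : HasFDerivAt (fun z : E => ⟪gradient M.f x, z⟫)
        (InnerProductSpace.toDual ℝ E (gradient M.f x)) z :=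
      (InnerProductSpace.toDual ℝ E (gradient M.f x)).hasFDerivAt
    rw [map_sub]
    exact (h1.sub h2).hasFDerivWithinAt
  have hbd : ∀ z ∈ Metric.closedBall x (min (δ / 2) (1 / 2)),
      ‖InnerProductSpace.toDual ℝ E (gradient M.f z - gradient M.f x)‖ ≤ ε := by
    intro z hz
    rw [LinearIsometryEquiv.norm_map, ← dist_eq_norm]
    exact (hd z (hball z hz).1 x hxA.1 (hball z hz).2).le
  have h6 := (convex_closedBall x _).norm_image_sub_le_of_norm_hasFDerivWithin_le hder hbd
    (Metric.mem_closedBall_self hr) (y := y) (by rw [Metric.mem_closedBall, dist_eq_norm]; exact hy)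
  rw [Real.norm_eq_abs] at h6
  have h7 : M.f y - M.f x - ⟪gradient M.f x, y - x⟫ =
      (M.f y - ⟪gradient M.f x, y⟫) - (M.f x - ⟪gradient M.f x, x⟫) := by
    rw [inner_sub_right]
    ring
  rw [h7]
  exact h6

end CGA
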