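import Pool.Agent.CGA.AVec

/-! PROJECT CGA, module ANrm: radial projection. -/

set_option linter.all false

namespace CGA

open scoped RealInnerProductSpace Real Topology
open MeasureTheory Set Filter

theorem norm_nrm {x : E} (hx : x ≠ 0) : ‖nrm x‖ = 1 := by
  unfold nrm
  rw [norm_smul, norm_inv, norm_norm, inv_mul_cancel₀ (norm_ne_zero_iff.2 hx)]

theorem nrm_smul {t : ℝ} (ht : 0 < t) (x : E) : nrm (t • x) = nrm x := by
  unfold nrm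
  rw [norm_smul, Real.norm_eq_abs, abs_of_pos ht, smul_smul, mul_inv]
  congr 1
  field_simp

theorem nrm_of_unit {x : E} (hx : ‖x‖ = 1) : nrm x = x := by
  unfold nrm
  rw [hx, inv_one, one_smul]

theorem nrm_neg (x : E) : nrm (-x) = - nrm x := by
  unfold nrm
  rw [norm_neg, smul_neg]

theorem smul_nrm (x : E) : ‖x‖ • nrm x = x := by
  unfold nrm
  by_cases hx : x = 0
  · rw [hx, smul_zero, smul_zero]
  · rw [smul_smul, mul_inv_cancel₀ (norm_ne_zero_iff.2 hx), one_smul]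

theorem continuousOn_nrm : ContinuousOn nrm {x : E | x ≠ 0} := by
  unfold nrm
  exact (continuousOn_id.norm.inv₀ fun x hx => norm_ne_zero_iff.2 hx).smul continuousOn_id

/-- the radial projection is `1/ρ`-Lipschitz outside the ball of radius `ρ` -/
theorem norm_nrm_sub_le {x y : E} {ρ : ℝ} (hρ : 0 < ρ) (hx : ρ ≤ ‖x‖) (hy : ρ ≤ ‖y‖) :
    ‖nrm x - nrm y‖ ≤ ‖x - y‖ / ρ := by
  have hx0 : 0 < ‖x‖ := hρ.trans_le hx
  have hy0 : 0 < ‖y‖ := hρ.trans_le hy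
  have h1 : ‖nrm x - nrm y‖ ^ 2 * (‖x‖ * ‖y‖) = ‖x - y‖ ^ 2 - (‖x‖ - ‖y‖) ^ 2 := by
    rw [@norm_sub_sq_real, @norm_sub_sq_real, norm_nrm (norm_pos_iff.1 hx0),
      norm_nrm (norm_pos_iff.1 hy0)]
    unfold nrm
    rw [inner_smul_left, inner_smul_right]
    simp only [conj_trivial]
    field_simp
    ring
  have h2 : ‖nrm x - nrm y‖ ^ 2 * (ρ * ρ) ≤ ‖x - y‖ ^ 2 := by
    have h3 : ρ * ρ ≤ ‖x‖ * ‖y‖ := mul_le_mul hx hy hρ.le hx0.le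
    have h4 := mul_le_mul_of_nonneg_left h3 (sq_nonneg ‖nrm x - nrm y‖)
    nlinarith [sq_nonneg (‖x‖ - ‖y‖)]
  rw [le_div_iff₀ hρ]
  refine abs_le_of_sq_le_sq' ?_ (norm_nonneg _) |>.2
  calc (‖nrm x - nrm y‖ * ρ) ^ 2 = ‖nrm x - nrm y‖ ^ 2 * (ρ * ρ) := by ring
    _ ≤ _ := h2

theorem Met.f_nrm (M : Met) {x : E} (hx : x ≠ 0) : M.f (nrm x) = M.f x :=
  M.hom _ _ (inv_pos.2 (norm_pos_iff.2 hx))

theorem unit_inner_le {a b : E} (ha : ‖a‖ = 1) (hb : ‖b‖ = 1) : ⟪a, b⟫ = 1 - ‖a - b‖ ^ 2 / 2 := by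
  rw [@norm_sub_sq_real, ha, hb]
  ring

/-- `|(1-t)a + tb|² = 1 - t(1-t)|a-b|²` for unit vectors -/
theorem norm_seg_sq {a b : E} (ha : ‖a‖ = 1) (hb : ‖b‖ = 1) (t : ℝ) :
    ‖(1 - t) • a + t • b‖ ^ 2 = 1 - t * (1 - t) * ‖a - b‖ ^ 2 := by
  have h1 := unit_inner_le ha hb
  rw [@norm_add_sq_real, inner_smul_left, inner_smul_right, norm_smul, norm_smul, ha, hb, mul_one,
    mul_one, Real.norm_eq_abs, Real.norm_eq_abs, sq_abs, sq_abs, h1]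
  simp only [conj_trivial]
  ring

theorem seg_ne_zero {a b : E} (ha : ‖a‖ = 1) (hb : ‖b‖ = 1) (h : ‖a - b‖ < 2) (t : ℝ) :
    (1 - t) • a + t • b ≠ 0 := by
  intro h0
  have h1 := norm_seg_sq ha hb t
  rw [h0, norm_zero] at h1
  have h2 : ‖a - b‖ ^ 2 < 4 := by nlinarith [norm_nonneg (a - b)]
  have h3 := sq_nonneg ‖a - b‖
  rcases le_or_gt 0 (t * (1 - t)) with h4 | h4
  · nlinarith [sq_nonneg (t - 1 / 2)]
  · nlinarith [mul_nonneg (neg_nonneg.2 h4.le) h3]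

private theorem norm_sub_arc_le_aux {a b : E} (ha : ‖a‖ = 1) (hb : ‖b‖ = 1) (h : ‖a - b‖ ≤ 1)
    {t : ℝ} (ht : t ∈ Icc (0:ℝ) 1) : ‖a - nrm ((1 - t) • a + t • b)‖ ≤ ‖a - b‖ := by
  set s := (1 - t) • a + t • b with hs
  have hs0 : s ≠ 0 := seg_ne_zero ha hb (by linarith) t
  have hsn : 0 < ‖s‖ := norm_pos_iff.2 hs0
  have hp := unit_inner_le ha hb
  have hp1 : 1 / 2 ≤ ⟪a, b⟫ := by
    rw [hp]
    nlinarith [norm_nonneg (a - b)]
  have hp2 : ⟪a, b⟫ ≤ 1 := by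
    rw [hp]
    nlinarith [sq_nonneg ‖a - b‖]
  have hs1 : ‖s‖ ≤ 1 := by
    have h1 := norm_seg_sq ha hb t
    have h2 : ‖s‖ ^ 2 ≤ 1 ^ 2 := by
      rw [hs, h1]
      nlinarith [mul_nonneg (mul_nonneg ht.1 (sub_nonneg.2 ht.2)) (sq_nonneg ‖a - b‖)]
    exact abs_le_of_sq_le_sq' h2 zero_le_one |>.2
  have h3 : ⟪a, s⟫ = (1 - t) + t * ⟪a, b⟫ := by
    rw [hs, inner_add_right, inner_smul_right, inner_smul_right, real_inner_self_eq_norm_sq, ha]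
    ring
  have h4 : ⟪a, b⟫ ≤ ⟪a, nrm s⟫ := by
    unfold nrm
    rw [inner_smul_right, h3, inv_mul_eq_div, le_div_iff₀ hsn]
    have h5 : ⟪a, b⟫ ≤ (1 - t) + t * ⟪a, b⟫ := by nlinarith [ht.1, ht.2]
    nlinarith
  have h6 := unit_inner_le ha (norm_nrm hs0)
  refine abs_le_of_sq_le_sq' ?_ (norm_nonneg _) |>.2
  nlinarith

/-- points of an arc are at most as far from the end points as the end points from each other -/
theorem norm_sub_arc_le {a b : E} (ha : ‖a‖ = 1) (hb : ‖b‖ = 1) (h : ‖a - b‖ ≤ 1) {t : ℝ}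
    (ht : t ∈ Icc (0:ℝ) 1) :
    ‖a - nrm ((1 - t) • a + t • b)‖ ≤ ‖a - b‖ ∧ ‖nrm ((1 - t) • a + t • b) - b‖ ≤ ‖a - b‖ := by
  refine ⟨norm_sub_arc_le_aux ha hb h ht, ?_⟩
  have h1 := norm_sub_arc_le_aux hb ha (by rwa [norm_sub_rev]) (t := 1 - t)
    ⟨by linarith [ht.2], by linarith [ht.1]⟩
  rw [sub_sub_cancel, add_comm, norm_sub_rev, norm_sub_rev b a] at h1
  exact h1

theorem unit_antipodal {a b : E} (ha : ‖a‖ = 1) (hb : ‖b‖ = 1) : 1 + ⟪a, b⟫ = 0 ↔ a = -b := by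
  constructor
  · intro h
    refine (inner_eq_one_iff_of_norm_eq_one (𝕜 := ℝ) ha (by rw [norm_neg, hb])).1 ?_
    rw [inner_neg_right]
    linarith
  · intro h
    rw [h, inner_neg_left, real_inner_self_eq_norm_sq, hb]
    norm_num

end CGA
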