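import Pool.Agent.CGA.ACyc

/-! PROJECT CGA, module AT3: the projectors `Pm` and the triangle function `T3`. -/

set_option linter.all false

namespace CGA

open scoped RealInnerProductSpace Real Topology
open MeasureTheory Set Filter

private theorem AT3_Pm (a : E) : Pm a = !![(1 + (a 2 : ℂ)) / 2, ((a 0 : ℂ) - (a 1 : ℂ) * Complex.I) / 2;
    ((a 0 : ℂ) + (a 1 : ℂ) * Complex.I) / 2, (1 - (a 2 : ℂ)) / 2] := by
  unfold Pm
  ext i j
  fin_cases i <;> fin_cases j <;> simp <;> ring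

private theorem AT3_rel {a : E} (ha : ‖a‖ = 1) :
    (((a 0 : ℂ) - (a 1 : ℂ) * Complex.I) / 2) * (((a 0 : ℂ) + (a 1 : ℂ) * Complex.I) / 2) =
      ((1 + (a 2 : ℂ)) / 2) * ((1 - (a 2 : ℂ)) / 2) := by
  have h1 : a 0 ^ 2 + a 1 ^ 2 + a 2 ^ 2 = 1 := by
    rw [← normsq3, ha, one_pow]
  have h2 : (a 0 : ℂ) ^ 2 + (a 1 : ℂ) ^ 2 + (a 2 : ℂ) ^ 2 = 1 := by
    have h3 := congrArg (fun r : ℝ => (r : ℂ)) h1
    simpa only [Complex.ofReal_add, Complex.ofReal_pow, Complex.ofReal_one] using h3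
  linear_combination (1 / 4 : ℂ) * h2 - (a 1 : ℂ) ^ 2 / 4 * Complex.I_sq

theorem trace_Pm (a : E) : (Pm a).trace = 1 := by
  rw [AT3_Pm, Matrix.trace_fin_two_of]
  ring

theorem trace_Pm2 (a b : E) : (Pm a * Pm b).trace = ((1 + ⟪a, b⟫) / 2 : ℝ) := by
  rw [AT3_Pm, AT3_Pm, Matrix.mul_fin_two, Matrix.trace_fin_two_of, inner3]
  push_cast
  linear_combination (-((a 1 : ℂ) * (b 1 : ℂ)) / 2) * Complex.I_sq

theorem trace_Pm3 (a b c : E) : (Pm a * Pm b * Pm c).trace = (1 / 4 : ℂ) * T3 a b c := by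
  rw [AT3_Pm, AT3_Pm, AT3_Pm, Matrix.mul_fin_two, Matrix.mul_fin_two, Matrix.trace_fin_two_of]
  unfold T3 det3
  rw [inner3, inner3, inner3]
  have h2 : ((2 : ℂ)).re = 2 := rfl
  apply Complex.ext
  · simp [Complex.div_re, Complex.div_im, Complex.normSq_apply]
    ring
  · simp [Complex.div_re, Complex.div_im, Complex.normSq_apply]
    ring

theorem Pm_idem {a : E} (ha : ‖a‖ = 1) : Pm a * Pm a = Pm a := by
  have hs : ∀ A : Matrix (Fin 2) (Fin 2) ℂ, Pm a * A * Pm a = (Pm a * A).trace • Pm a := by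
    intro A
    have hR := AT3_rel ha
    rw [AT3_Pm]
    set p := (1 + (a 2 : ℂ)) / 2 with hp
    set d := (1 - (a 2 : ℂ)) / 2 with hd
    set b := ((a 0 : ℂ) - (a 1 : ℂ) * Complex.I) / 2 with hb
    set c := ((a 0 : ℂ) + (a 1 : ℂ) * Complex.I) / 2 with hc
    clear_value p d b c
    rw [Matrix.eta_fin_two A]
    rw [Matrix.mul_fin_two, Matrix.mul_fin_two, Matrix.trace_fin_two_of]
    ext i j
    fin_cases i <;> fin_cases j
    · simp
      linear_combination (A 1 1) * hR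
    · simp
      linear_combination (-A 0 1) * hR
    · simp
      linear_combination (-A 1 0) * hR
    · simp
      linear_combination (A 0 0) * hR
  have h1 := hs 1
  rw [mul_one] at h1
  have h2 : (Pm a).trace = 1 := by
    rw [AT3_Pm, Matrix.trace_fin_two_of]
    ring
  rw [h1, h2, one_smul]

theorem Pm_conjTranspose (a : E) : (Pm a).conjTranspose = Pm a := by
  rw [AT3_Pm]
  ext i j
  fin_cases i <;> fin_cases j <;> simp [Matrix.conjTranspose_apply] <;> ring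

/-- `P_a` has rank one: `P_a A P_a = tr(P_a A) P_a` -/
theorem Pm_sandwich {a : E} (ha : ‖a‖ = 1) (A : Matrix (Fin 2) (Fin 2) ℂ) :
    Pm a * A * Pm a = (Pm a * A).trace • Pm a := by
  have hR := AT3_rel ha
  rw [AT3_Pm]
  set p := (1 + (a 2 : ℂ)) / 2 with hp
  set d := (1 - (a 2 : ℂ)) / 2 with hd
  set b := ((a 0 : ℂ) - (a 1 : ℂ) * Complex.I) / 2 with hb
  set c := ((a 0 : ℂ) + (a 1 : ℂ) * Complex.I) / 2 with hc
  clear_value p d b c
  rw [Matrix.eta_fin_two A]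
  rw [Matrix.mul_fin_two, Matrix.mul_fin_two, Matrix.trace_fin_two_of]
  ext i j
  fin_cases i <;> fin_cases j
  · simp
    linear_combination (A 1 1) * hR
  · simp
    linear_combination (-A 0 1) * hR
  · simp
    linear_combination (-A 1 0) * hR
  · simp
    linear_combination (A 0 0) * hR

/-- collinear point: `P_a P_c P_b = k P_a P_b` with `k > 0` -/
theorem Pm_insert {a b : E} (ha : ‖a‖ = 1) (hb : ‖b‖ = 1) (h : ‖a - b‖ < 2) {t : ℝ}
    (ht : t ∈ Icc (0:ℝ) 1) :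
    ∃ k : ℝ, 0 < k ∧ Pm a * Pm (nrm ((1 - t) • a + t • b)) * Pm b = (k : ℂ) • (Pm a * Pm b) := by
  set u := (1 - t) • a + t • b with hu
  have hu0 : u ≠ 0 := seg_ne_zero ha hb h t
  have hr : 0 < ‖u‖ := norm_pos_iff.2 hu0
  have hrc : (‖u‖ : ℂ) ≠ 0 := by exact_mod_cast hr.ne'
  refine ⟨(1 + ‖u‖⁻¹) / 2, by positivity, ?_⟩
  have hc : ∀ i, (nrm u) i = ‖u‖⁻¹ * ((1 - t) * a i + t * b i) := by
    intro i
    simp [nrm, hu]
    ring
  have hP : Pm (nrm u) = ((1 / 2 : ℂ) * (1 - (‖u‖ : ℂ)⁻¹)) • (1 : Matrix (Fin 2) (Fin 2) ℂ) +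
      ((‖u‖ : ℂ)⁻¹ * (1 - (t : ℂ))) • Pm a + ((‖u‖ : ℂ)⁻¹ * (t : ℂ)) • Pm b := by
    rw [AT3_Pm, AT3_Pm, AT3_Pm]
    rw [hc, hc, hc]
    push_cast
    ext i j
    fin_cases i <;> fin_cases j
    · simp
      ring
    · simp
      ring
    · simp
      ring
    · simp
      ring
  have ia := Pm_idem ha
  have ib := Pm_idem hb
  rw [hP, Matrix.mul_add, Matrix.mul_add, Matrix.add_mul, Matrix.add_mul, Matrix.mul_smul,
    Matrix.mul_smul, Matrix.mul_smul, Matrix.smul_mul, Matrix.smul_mul, Matrix.smul_mul,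
    Matrix.mul_one, ia, Matrix.mul_assoc (Pm a) (Pm b) (Pm b), ib, ← add_smul, ← add_smul]
  congr 1
  push_cast
  ring

theorem T3_cyc (a b c : E) : T3 a b c = T3 b c a := by
  unfold T3
  rw [det3_cyc a b c]
  congr 1
  ring

theorem T3_swap (a b c : E) : T3 a c b = (starRingEnd ℂ) (T3 a b c) := by
  unfold T3
  apply Complex.ext
  · simp only [Complex.conj_re]
    rw [real_inner_comm c a, real_inner_comm b c, real_inner_comm a b]
    ring
  · simp only [Complex.conj_im]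
    exact det3_swap23 a b c

theorem normSq_T3 {a b c : E} (ha : ‖a‖ = 1) (hb : ‖b‖ = 1) (hc : ‖c‖ = 1) :
    Complex.normSq (T3 a b c) = 2 * (1 + ⟪a, b⟫) * (1 + ⟪b, c⟫) * (1 + ⟪c, a⟫) := by
  have h1 : ∀ x : E, ‖x‖ = 1 → x 0 ^ 2 + x 1 ^ 2 + x 2 ^ 2 = 1 := by
    intro x hx
    rw [← normsq3, hx, one_pow]
  have h2 : det3 a b c ^ 2 = (a 0 ^ 2 + a 1 ^ 2 + a 2 ^ 2) * (b 0 ^ 2 + b 1 ^ 2 + b 2 ^ 2) *
      (c 0 ^ 2 + c 1 ^ 2 + c 2 ^ 2) + 2 * ⟪a, b⟫ * ⟪b, c⟫ * ⟪c, a⟫ -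
      (a 0 ^ 2 + a 1 ^ 2 + a 2 ^ 2) * ⟪b, c⟫ ^ 2 - (b 0 ^ 2 + b 1 ^ 2 + b 2 ^ 2) * ⟪c, a⟫ ^ 2 -
      (c 0 ^ 2 + c 1 ^ 2 + c 2 ^ 2) * ⟪a, b⟫ ^ 2 := by
    rw [inner3, inner3, inner3, det3]
    ring
  rw [h1 a ha, h1 b hb, h1 c hc] at h2
  rw [Complex.normSq_apply]
  change (1 + ⟪a, b⟫ + ⟪b, c⟫ + ⟪c, a⟫) * (1 + ⟪a, b⟫ + ⟪b, c⟫ + ⟪c, a⟫) +
    det3 a b c * det3 a b c = _
  linear_combination h2

theorem continuous_T3 : Continuous fun p : E × E × E => T3 p.1 p.2.1 p.2.2 := by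
  have h1 : (fun p : E × E × E => T3 p.1 p.2.1 p.2.2) = fun p =>
      ((1 + ⟪p.1, p.2.1⟫ + ⟪p.2.1, p.2.2⟫ + ⟪p.2.2, p.1⟫ : ℝ) : ℂ) +
        (det3 p.1 p.2.1 p.2.2 : ℂ) * Complex.I := by
    funext p
    exact Complex.mk_eq_add_mul_I _ _
  rw [h1]
  unfold det3
  have hc : ∀ i : Fin 3, Continuous fun x : E => x i := fun i =>
    (EuclideanSpace.proj i : E →L[ℝ] ℝ).continuous
  fun_prop

theorem continuous_Pm : Continuous Pm := by
  have hc : ∀ i : Fin 3, Continuous fun x : E => ((x i : ℝ) : ℂ) := fun i =>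
    Complex.continuous_ofReal.comp (EuclideanSpace.proj i : E →L[ℝ] ℝ).continuous
  refine continuous_matrix fun i j => ?_
  simp only [AT3_Pm]
  fin_cases i <;> fin_cases j
  · exact (continuous_const.add (hc 2)).div_const _
  · exact ((hc 0).sub ((hc 1).mul continuous_const)).div_const _
  · exact ((hc 0).add ((hc 1).mul continuous_const)).div_const _
  · exact (continuous_const.sub (hc 2)).div_const _

/-- the cone formula -/
theorem cone_formula {q : E} (hq : ‖q‖ = 1) (l : List E) (hl : l ≠ []) (hu : ∀ x ∈ l, ‖x‖ = 1) :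
    ((cyc l).map fun e => T3 q e.1 e.2).prod =
      2 ^ l.length * Bg l * (l.map fun x => ((1 + ⟪q, x⟫ : ℝ) : ℂ)).prod := by
  obtain ⟨x, t, rfl⟩ := List.exists_cons_of_ne_nil hl
  have hx : ‖x‖ = 1 := hu x (by simp)
  have ht : ∀ y ∈ t, ‖y‖ = 1 := fun y hy => hu y (by simp [hy])
  have iq := Pm_idem hq
  -- the path version
  have key : ∀ (t : List E) (x z : E), (∀ y ∈ t, ‖y‖ = 1) →
      (((pth (x :: t ++ [z])).map fun e => (Pm q * Pm e.1 * Pm e.2).trace).prod) • Pm q =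
      ((t.map fun y => (((1 + ⟪q, y⟫) / 2 : ℝ) : ℂ)).prod) •
        (Pm q * (Pm x * ((t.map Pm).prod * Pm z)) * Pm q) := by
    intro t
    induction t with
    | nil =>
      intro x z _
      have h1 : pth (x :: [] ++ [z]) = [(x, z)] := rfl
      rw [h1]
      simp only [List.map_cons, List.map_nil, List.prod_cons, List.prod_nil, mul_one, one_smul,
        one_mul]
      rw [Pm_sandwich hq, mul_assoc]
    | cons y t ih =>
      intro x z hy
      have hyu : ‖y‖ = 1 := hy y (by simp)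
      have h1 : pth (x :: (y :: t) ++ [z]) = (x, y) :: pth (y :: t ++ [z]) := rfl
      rw [h1]
      simp only [List.map_cons, List.prod_cons]
      have h2 := ih y z fun w hw => hy w (by simp [hw])
      have h3 : (Pm q * Pm x * Pm y).trace • Pm q = Pm q * (Pm x * Pm y) * Pm q := by
        rw [Pm_sandwich hq, mul_assoc]
      have h4 : Pm y * Pm q * Pm y = (((1 + ⟪q, y⟫) / 2 : ℝ) : ℂ) • Pm y := by
        rw [Pm_sandwich hyu, trace_Pm2, real_inner_comm]
      have h5 : ((Pm q * Pm x * Pm y).trace *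
          ((pth (y :: t ++ [z])).map fun e => (Pm q * Pm e.1 * Pm e.2).trace).prod) • Pm q =
          ((Pm q * Pm x * Pm y).trace • Pm q) *
          ((((pth (y :: t ++ [z])).map fun e => (Pm q * Pm e.1 * Pm e.2).trace).prod) • Pm q) := by
        rw [Matrix.smul_mul, Matrix.mul_smul, iq, smul_smul]
      rw [h5, h3, h2, Matrix.mul_smul]
      have h6 : Pm q * (Pm x * Pm y) * Pm q * (Pm q * (Pm y * ((List.map Pm t).prod * Pm z)) * Pm q)
          = Pm q * Pm x * (Pm y * (Pm q * Pm q) * Pm y) * ((List.map Pm t).prod * Pm z) * Pm q := by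
        noncomm_ring
      rw [h6, iq, h4]
      simp only [Matrix.mul_smul, Matrix.smul_mul, smul_smul]
      rw [mul_comm]
      congr 1
      noncomm_ring
  have h1 := congrArg Matrix.trace (key t x x ht)
  rw [Matrix.trace_smul, Matrix.trace_smul, trace_Pm, ← cyc_cons] at h1
  have h2 : (Pm q * (Pm x * ((t.map Pm).prod * Pm x)) * Pm q).trace =
      (((1 + ⟪q, x⟫) / 2 : ℝ) : ℂ) * Bg (x :: t) := by
    have h3 : Pm x * Pm q * Pm x = (((1 + ⟪q, x⟫) / 2 : ℝ) : ℂ) • Pm x := by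
      rw [Pm_sandwich hx, trace_Pm2, real_inner_comm]
    rw [Matrix.trace_mul_comm, ← mul_assoc, iq]
    have h4 : Pm q * (Pm x * ((t.map Pm).prod * Pm x)) = (Pm q * Pm x * (t.map Pm).prod) * Pm x := by
      noncomm_ring
    rw [h4, Matrix.trace_mul_comm]
    have h5 : Pm x * (Pm q * Pm x * (t.map Pm).prod) = Pm x * Pm q * Pm x * (t.map Pm).prod := by
      noncomm_ring
    rw [h5, h3, Matrix.smul_mul, Matrix.trace_smul]
    rfl
  rw [h2] at h1
  simp only [smul_eq_mul, mul_one] at h1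
  -- pass to `T3`
  have h6 : ∀ s : List (E × E), (s.map fun e => T3 q e.1 e.2).prod =
      4 ^ s.length * (s.map fun e => (Pm q * Pm e.1 * Pm e.2).trace).prod := by
    intro s
    induction s with
    | nil => simp
    | cons e s ih =>
      rw [List.map_cons, List.prod_cons, ih, List.map_cons, List.prod_cons, List.length_cons,
        trace_Pm3]
      ring
  have h7 : ∀ s : List E, (s.map fun y => ((1 + ⟪q, y⟫ : ℝ) : ℂ)).prod =
      2 ^ s.length * (s.map fun y => (((1 + ⟪q, y⟫) / 2 : ℝ) : ℂ)).prod := by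
    intro s
    induction s with
    | nil => simp
    | cons e s ih =>
      rw [List.map_cons, List.prod_cons, ih, List.map_cons, List.prod_cons, List.length_cons]
      push_cast
      ring
  rw [h6, h1, h7, length_cyc, List.map_cons, List.prod_cons]
  have h8 : (4 : ℂ) ^ (x :: t).length = 2 ^ (x :: t).length * 2 ^ (x :: t).length := by
    rw [← mul_pow]
    norm_num
  rw [h8]
  ring

end CGA
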