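import Pool.Agent.CGA.AT3

/-! PROJECT CGA, module ATh: the normalised triangle area. -/

set_option linter.all false

namespace CGA

open scoped RealInnerProductSpace Real Topology
open MeasureTheory Set Filter

private theorem ATh_re (a b c : E) : (T3 a b c).re = 1 + ⟪a, b⟫ + ⟪b, c⟫ + ⟪c, a⟫ := rfl

private theorem ATh_im (a b c : E) : (T3 a b c).im = det3 a b c := rfl

private theorem ATh_conj {z : ℂ} (h : z.arg ≠ π) : ((starRingEnd ℂ) z).arg = -z.arg := by
  rw [Complex.arg_conj, if_neg h]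

theorem abs_Th_le (a b c : E) : |Th a b c| ≤ 1 / 2 := by
  have h := Complex.abs_arg_le_pi (T3 a b c)
  have hπ := Real.pi_pos
  unfold Th
  rw [abs_div, abs_of_pos (by positivity : (0:ℝ) < 2 * π), div_le_iff₀ (by positivity)]
  linarith

theorem Th_cyc (a b c : E) : Th a b c = Th b c a := by
  unfold Th
  rw [T3_cyc]

theorem Th_swap {a b c : E} (h : det3 a b c ≠ 0) : Th a c b = - Th a b c := by
  unfold Th
  rw [T3_swap, ATh_conj, neg_div]
  intro h1
  exact h (Complex.arg_eq_pi_iff.1 h1).2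

theorem Th_swap' {a b c : E} (h : 0 < (T3 a b c).re) : Th a c b = - Th a b c := by
  unfold Th
  rw [T3_swap, ATh_conj, neg_div]
  intro h1
  have h2 := (Complex.arg_eq_pi_iff.1 h1).1
  linarith

theorem Th_self {q a : E} (hq : ‖q‖ = 1) (ha : ‖a‖ = 1) : Th q a a = 0 := by
  unfold Th
  have h1 : (T3 q a a).arg = 0 := by
    rw [Complex.arg_eq_zero_iff]
    refine ⟨?_, ?_⟩
    · rw [ATh_re, real_inner_self_eq_norm_sq, ha, real_inner_comm q a]
      have h2 : |⟪q, a⟫| ≤ ‖q‖ * ‖a‖ := abs_real_inner_le_norm q a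
      rw [hq, ha, mul_one] at h2
      have h3 := (abs_le.1 h2).1
      linarith
    · rw [ATh_im, det3_self23]
  rw [h1, zero_div]

private theorem ATh_inner {a q : E} (hq : ‖q‖ = 1) (ha : ‖a‖ = 1) :
    ⟪q, a⟫ = 1 - ‖a - q‖ ^ 2 / 2 := by
  have h := norm_sub_sq_real a q
  rw [hq, ha, real_inner_comm] at h
  linarith

private theorem ATh_det (q a b : E) : det3 q a b = det3 q (a - q) (b - a) := by
  simp only [det3, PiLp.sub_apply]
  ring

private theorem ATh_arg {z : ℂ} (h : 2 ≤ z.re) : |z.arg| ≤ π / 4 * |z.im| := by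
  have hπ := Real.pi_pos
  have h1 : |z.arg| ≤ π / 2 := Complex.abs_arg_le_pi_div_two_iff.2 (by linarith)
  have h2 := Real.mul_le_sin (abs_nonneg z.arg) h1
  have h3 : Real.sin |z.arg| = |Real.sin z.arg| := by
    rcases abs_cases z.arg with ⟨h4, h5⟩ | ⟨h4, h5⟩
    · rw [h4, abs_of_nonneg]
      exact Real.sin_nonneg_of_nonneg_of_le_pi h5 (Complex.arg_le_pi z)
    · rw [h4, Real.sin_neg, abs_of_nonpos]
      exact Real.sin_nonpos_of_nonpos_of_neg_pi_le h5.le (Complex.neg_pi_lt_arg z).le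
  have h6 : 2 ≤ ‖z‖ := h.trans ((le_abs_self _).trans (Complex.abs_re_le_norm z))
  rw [h3, Complex.sin_arg, abs_div, abs_of_nonneg (norm_nonneg z)] at h2
  have h7 : |z.im| / ‖z‖ ≤ |z.im| / 2 :=
    div_le_div_of_nonneg_left (abs_nonneg _) (by norm_num) h6
  have h8 : 2 / π * |z.arg| ≤ |z.im| / 2 := h2.trans h7
  rw [div_mul_eq_mul_div, div_le_iff₀ hπ] at h8
  nlinarith

/-- small triangles have small area -/
theorem Th_small {q a b : E} (hq : ‖q‖ = 1) (ha : ‖a‖ = 1) (hb : ‖b‖ = 1) (h1 : ‖a - q‖ ≤ 1 / 2)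
    (h2 : ‖b - q‖ ≤ 1 / 2) : |Th q a b| ≤ ‖a - q‖ * ‖b - a‖ / 8 ∧ 0 < (T3 q a b).re := by
  have hπ := Real.pi_pos
  have e1 := ATh_inner hq ha
  have e2 := ATh_inner hb hq
  have e3 := ATh_inner ha hb
  have n1 := norm_nonneg (a - q)
  have n2 := norm_nonneg (b - q)
  have n3 := norm_nonneg (b - a)
  have h3 : ‖b - a‖ ≤ 1 := by
    have e : b - a = (b - q) - (a - q) := by abel
    rw [e]
    exact (norm_sub_le _ _).trans (by linarith)
  have h4 : 2 ≤ (T3 q a b).re := by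
    rw [ATh_re, e1, e2, e3, norm_sub_rev q b]
    nlinarith
  refine ⟨?_, by linarith⟩
  have h5 := ATh_arg h4
  have h6 : |(T3 q a b).im| ≤ ‖a - q‖ * ‖b - a‖ := by
    rw [ATh_im, ATh_det]
    have h7 := abs_det3_le q (a - q) (b - a)
    rwa [hq, one_mul] at h7
  unfold Th
  rw [abs_div, abs_of_pos (by positivity : (0:ℝ) < 2 * π), div_le_iff₀ (by positivity)]
  nlinarith

theorem continuousAt_Th {a b c : E} (h : T3 a b c ∈ Complex.slitPlane) :
    ContinuousAt (fun p : E × E × E => Th p.1 p.2.1 p.2.2) (a, b, c) := by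
  unfold Th
  have h1 : ContinuousAt (fun p : E × E × E => T3 p.1 p.2.1 p.2.2) (a, b, c) :=
    continuous_T3.continuousAt
  have h2 : ContinuousAt (fun p : E × E × E => (T3 p.1 p.2.1 p.2.2).arg) (a, b, c) :=
    ContinuousAt.comp (g := Complex.arg) (f := fun p : E × E × E => T3 p.1 p.2.1 p.2.2)
      (Complex.continuousAt_arg h) h1
  exact h2.div_const _

theorem mem_slitPlane_of_det {a b c : E} (h : det3 a b c ≠ 0) : T3 a b c ∈ Complex.slitPlane := by
  exact Complex.mem_slitPlane_iff.2 (Or.inr h)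

theorem Th_pos {a b c : E} (h : 0 < det3 a b c) : 0 < Th a b c ∧ Th a b c < 1 / 2 := by
  have hπ := Real.pi_pos
  have h1 : 0 ≤ (T3 a b c).arg := Complex.arg_nonneg_iff.2 h.le
  have h2 : (T3 a b c).arg ≠ 0 := by
    intro h3
    have h4 := (Complex.arg_eq_zero_iff.1 h3).2
    rw [ATh_im] at h4
    linarith
  have h5 : (T3 a b c).arg ≠ π := by
    intro h3
    have h4 := (Complex.arg_eq_pi_iff.1 h3).2
    rw [ATh_im] at h4
    linarith
  have h6 := lt_of_le_of_ne h1 h2.symm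
  have h7 := lt_of_le_of_ne (Complex.arg_le_pi _) h5
  unfold Th
  refine ⟨by positivity, ?_⟩
  rw [div_lt_iff₀ (by positivity)]
  linarith

theorem Th_neg {a b c : E} (h : det3 a b c < 0) : Th a b c < 0 ∧ -(1 / 2) < Th a b c := by
  have hπ := Real.pi_pos
  have h1 : (T3 a b c).arg < 0 := Complex.arg_neg_iff.2 h
  have h2 := Complex.neg_pi_lt_arg (T3 a b c)
  unfold Th
  refine ⟨div_neg_of_neg_of_pos h1 (by positivity), ?_⟩
  rw [lt_div_iff₀ (by positivity)]
  linarith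

theorem exp_Th {a b c : E} (h : T3 a b c ≠ 0) :
    Complex.exp (2 * π * Complex.I * (Th a b c : ℂ)) = T3 a b c / (‖T3 a b c‖ : ℂ) := by
  have h1 := Complex.norm_mul_exp_arg_mul_I (T3 a b c)
  have h2 : (‖T3 a b c‖ : ℂ) ≠ 0 := Complex.ofReal_ne_zero.2 (norm_ne_zero_iff.2 h)
  have h3 : 2 * (π : ℂ) * Complex.I * (Th a b c : ℂ) = ((T3 a b c).arg : ℂ) * Complex.I := by
    unfold Th
    push_cast
    have hπ : (π : ℂ) ≠ 0 := Complex.ofReal_ne_zero.2 Real.pi_ne_zero
    field_simp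
  rw [h3, eq_div_iff h2, mul_comm]
  exact h1

end CGA
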