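import Pool.Agent.CGA.ATh

/-! PROJECT CGA, module AThJ: the jump of `p ↦ Th (-p) a b` across the arc `(a,b)`. -/

set_option linter.all false

namespace CGA

open scoped RealInnerProductSpace Real Topology
open MeasureTheory Set Filter

private theorem aux_tendsto_nrm {n m : E} (hm : m ≠ 0) :
    Tendsto (fun ε : ℝ => nrm (m + ε • n)) (𝓝 0) (𝓝 (nrm m)) := by
  have h1 : ContinuousAt nrm m :=
    continuousOn_nrm.continuousAt (isOpen_ne.mem_nhds hm)
  have h2 : Tendsto (fun ε : ℝ => m + ε • n) (𝓝 0) (𝓝 m) := by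
    have : Continuous fun ε : ℝ => m + ε • n := by fun_prop
    simpa using this.tendsto 0
  exact h1.tendsto.comp h2

private theorem aux_tendsto_T3 {n m : E} (a b : E) (hm : m ≠ 0) :
    Tendsto (fun ε : ℝ => T3 (- nrm (m + ε • n)) a b) (𝓝 0) (𝓝 (T3 (- nrm m) a b)) := by
  have h1 : Continuous fun p : E => T3 p a b := by
    have : Continuous fun p : E => ((p, a, b) : E × E × E) := by fun_prop
    exact continuous_T3.comp this
  exact (h1.tendsto _).comp (aux_tendsto_nrm hm).neg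

private theorem aux_tendsto_neg : Tendsto (fun ε : ℝ => -ε) (𝓝[>] 0) (𝓝 0) := by
  have : Tendsto (fun ε : ℝ => -ε) (𝓝 0) (𝓝 (-0)) := tendsto_id.neg
  rw [neg_zero] at this
  exact this.mono_left nhdsWithin_le_nhds

private theorem aux_sub (n m : E) (ε : ℝ) : m - ε • n = m + (-ε) • n := by
  rw [neg_smul, sub_eq_add_neg]

/-- if `T3 (-nrm m) a b` is in the slit plane there is no jump -/
private theorem aux_no_jump {n m a b : E} (hm : m ≠ 0)
    (h : T3 (- nrm m) a b ∈ Complex.slitPlane) :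
    Tendsto (fun ε : ℝ => Th (- nrm (m + ε • n)) a b - Th (- nrm (m - ε • n)) a b) (𝓝[>] 0)
      (𝓝 0) := by
  have hc : Tendsto (fun ε : ℝ => Th (- nrm (m + ε • n)) a b) (𝓝 0)
      (𝓝 (Th (- nrm m) a b)) := by
    have h1 := (Complex.continuousAt_arg h).tendsto.comp (aux_tendsto_T3 (n := n) a b hm)
    exact h1.div_const (2 * π)
  have h1 : Tendsto (fun ε : ℝ => Th (- nrm (m + ε • n)) a b) (𝓝[>] 0)
      (𝓝 (Th (- nrm m) a b)) := hc.mono_left nhdsWithin_le_nhds
  have h2 : Tendsto (fun ε : ℝ => Th (- nrm (m - ε • n)) a b) (𝓝[>] 0)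
      (𝓝 (Th (- nrm m) a b)) := by
    have := hc.comp aux_tendsto_neg
    refine this.congr fun ε => ?_
    simp only [Function.comp]
    rw [aux_sub]
  simpa using h1.sub h2

private theorem aux_det_m {n a b m : E} (hn : ‖n‖ = 1) (hna : ⟪n, a⟫ = 0)
    (hnb : ⟪n, b⟫ = 0) (hnm : ⟪n, m⟫ = 0) : det3 m a b = 0 := by
  rw [det3_eq_inner, crs_eq_smul hn hna hnb, real_inner_smul_right, real_inner_comm, hnm, mul_zero]

/-- imaginary part -/
private theorem aux_im {n a b m : E} (ε : ℝ) :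
    (T3 (- nrm (m + ε • n)) a b).im = - (‖m + ε • n‖⁻¹ * (det3 m a b + ε * det3 n a b)) := by
  show det3 (- nrm (m + ε • n)) a b = _
  have h := det3_lin1 1 ε m n a b
  rw [one_smul, one_mul] at h
  rw [det3_neg1, nrm, det3_smul1, h]

/-- real part at a point of the plane: `(1+g)(1-x-y)` -/
private theorem aux_re {n a b m : E} (ha : ‖a‖ = 1) (hb : ‖b‖ = 1) (hna : ⟪n, a⟫ = 0)
    (hnb : ⟪n, b⟫ = 0) (hnm : ⟪n, m⟫ = 0) (hm : m ≠ 0) (hab : 0 < det3 n a b) :
    ∃ x y : ℝ, x = ‖m‖⁻¹ * det3 n m b / det3 n a b ∧ y = ‖m‖⁻¹ * det3 n a m / det3 n a b ∧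
      x ^ 2 + 2 * x * y * ⟪a, b⟫ + y ^ 2 = 1 ∧ -1 < ⟪a, b⟫ ∧ ⟪a, b⟫ < 1 ∧
      (T3 (- nrm m) a b).re = (1 + ⟪a, b⟫) * (1 - x - y) := by
  have hD : det3 n a b ≠ 0 := hab.ne'
  have hm0 : ‖m‖ ≠ 0 := norm_ne_zero_iff.2 hm
  have hpl := det3_plane (d := a) hna hnb hnm
  have hmm : nrm m = (‖m‖⁻¹ * det3 n m b / det3 n a b) • a +
      (‖m‖⁻¹ * det3 n a m / det3 n a b) • b := by
    have h1 : m = (det3 n a b)⁻¹ • (det3 n a b • m) := by
      rw [smul_smul, inv_mul_cancel₀ hD, one_smul]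
    have h2 : nrm m = ‖m‖⁻¹ • ((det3 n a b)⁻¹ • (det3 n m b • a + det3 n a m • b)) := by
      rw [← hpl, ← h1]; rfl
    rw [h2, smul_add, smul_add, smul_smul, smul_smul, smul_smul, smul_smul]
    congr 2 <;> field_simp
  have haa : ⟪a, a⟫ = (1:ℝ) := by rw [real_inner_self_eq_norm_sq, ha, one_pow]
  have hbb : ⟪b, b⟫ = (1:ℝ) := by rw [real_inner_self_eq_norm_sq, hb, one_pow]
  have hba : ⟪b, a⟫ = ⟪a, b⟫ := real_inner_comm _ _
  have hne : a ≠ b := by
    rintro rfl
    rw [det3_self23] at hab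
    exact lt_irrefl _ hab
  have hne' : a ≠ -b := by
    rintro rfl
    rw [det3_neg2, det3_self23, neg_zero] at hab
    exact lt_irrefl _ hab
  have hcr : 0 < ‖crs a b‖ ^ 2 := by
    have := norm_pos_iff.2 (crs_ne_zero ha hb hne hne')
    positivity
  rw [norm_crs_sq, ha, hb] at hcr
  have hg : ⟪a, b⟫ ^ 2 < 1 := by linarith
  have hg1 := (sq_lt_one_iff_abs_lt_one _).1 hg
  rw [abs_lt] at hg1
  set x := ‖m‖⁻¹ * det3 n m b / det3 n a b with hx
  set y := ‖m‖⁻¹ * det3 n a m / det3 n a b with hy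
  refine ⟨x, y, rfl, rfl, ?_, hg1.1, hg1.2, ?_⟩
  · have h1 : ‖nrm m‖ ^ 2 = 1 := by rw [norm_nrm hm, one_pow]
    rw [hmm, ← real_inner_self_eq_norm_sq, inner_add_left, inner_add_right, inner_add_right] at h1
    simp only [real_inner_smul_left, real_inner_smul_right, haa, hbb, hba] at h1
    linarith
  · show 1 + ⟪- nrm m, a⟫ + ⟪a, b⟫ + ⟪b, - nrm m⟫ = _
    rw [hmm, inner_neg_left, inner_neg_right, inner_add_left, inner_add_right]
    simp only [real_inner_smul_left, real_inner_smul_right, haa, hbb, hba]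
    ring

/-- in the open arc the jump is `-1` -/
theorem Th_jump_in {n a b m : E} (hn : ‖n‖ = 1) (ha : ‖a‖ = 1) (hb : ‖b‖ = 1) (hna : ⟪n, a⟫ = 0)
    (hnb : ⟪n, b⟫ = 0) (hnm : ⟪n, m⟫ = 0) (hab : 0 < det3 n a b) (ham : 0 < det3 n a m)
    (hmb : 0 < det3 n m b) :
    Tendsto (fun ε : ℝ => Th (- nrm (m + ε • n)) a b - Th (- nrm (m - ε • n)) a b) (𝓝[>] 0)
      (𝓝 (-1)) := by
  have hm : m ≠ 0 := by
    rintro rfl
    have : det3 n a (0:E) = 0 := by
      have := det3_smul3 0 n a (0:E)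
      rw [zero_smul, zero_mul] at this
      exact this
    rw [this] at ham
    exact lt_irrefl _ ham
  have hmp : 0 < ‖m‖⁻¹ := inv_pos.2 (norm_pos_iff.2 hm)
  obtain ⟨x, y, hx, hy, hxy, hg1, hg2, hre⟩ := aux_re ha hb hna hnb hnm hm hab
  have hx0 : 0 < x := by rw [hx]; positivity
  have hy0 : 0 < y := by rw [hy]; positivity
  have hre' : (T3 (- nrm m) a b).re < 0 := by
    rw [hre]
    have h1 : 1 < (x + y) ^ 2 := by
      have : 0 < x * y := by positivity
      nlinarith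
    have h2 : 1 < x + y := by
      by_contra h3
      push Not at h3
      nlinarith
    exact mul_neg_of_pos_of_neg (by linarith) (by linarith)
  have hdm := aux_det_m hn hna hnb hnm
  have him : (T3 (- nrm m) a b).im = 0 := by
    have := aux_im (n := n) (a := a) (b := b) (m := m) 0
    rw [zero_smul, add_zero, hdm] at this
    rw [this]
    ring
  have hne : ∀ ε : ℝ, 0 < ‖m + ε • n‖⁻¹ := by
    intro ε
    rw [inv_pos, norm_pos_iff]
    intro h0
    apply hm
    have h1 : ⟪m, m + ε • n⟫ = ‖m‖ ^ 2 := by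
      have hmn : ⟪m, n⟫ = 0 := by rw [real_inner_comm]; exact hnm
      rw [inner_add_right, real_inner_smul_right, real_inner_self_eq_norm_sq, hmn]
      ring
    rw [h0, inner_zero_right] at h1
    have h2 : ‖m‖ = 0 := by
      have := pow_eq_zero_iff (two_ne_zero) |>.1 h1.symm
      exact this
    exact norm_eq_zero.1 h2
  -- upper side
  have h1 : Tendsto (fun ε : ℝ => Th (- nrm (m + ε • n)) a b) (𝓝[>] 0) (𝓝 (-π / (2 * π))) := by
    have e1 : Tendsto (fun ε : ℝ => T3 (- nrm (m + ε • n)) a b) (𝓝[>] 0)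
        (𝓝[{z : ℂ | z.im < 0}] (T3 (- nrm m) a b)) := by
      refine tendsto_nhdsWithin_iff.2 ⟨(aux_tendsto_T3 a b hm).mono_left nhdsWithin_le_nhds, ?_⟩
      filter_upwards [self_mem_nhdsWithin] with ε hε
      have hε' : 0 < ε := hε
      show (T3 (- nrm (m + ε • n)) a b).im < 0
      rw [aux_im, hdm, zero_add]
      have := mul_pos (hne ε) (mul_pos hε' hab)
      linarith
    have e2 := (Complex.tendsto_arg_nhdsWithin_im_neg_of_re_neg_of_im_zero hre' him).comp e1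
    exact e2.div_const (2 * π)
  have h2 : Tendsto (fun ε : ℝ => Th (- nrm (m - ε • n)) a b) (𝓝[>] 0) (𝓝 (π / (2 * π))) := by
    have e1 : Tendsto (fun ε : ℝ => T3 (- nrm (m - ε • n)) a b) (𝓝[>] 0)
        (𝓝[{z : ℂ | 0 ≤ z.im}] (T3 (- nrm m) a b)) := by
      refine tendsto_nhdsWithin_iff.2 ⟨?_, ?_⟩
      · refine ((aux_tendsto_T3 (n := n) a b hm).comp aux_tendsto_neg).congr fun ε => ?_
        simp only [Function.comp]
        rw [aux_sub]
      · filter_upwards [self_mem_nhdsWithin] with ε hε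
        have hε' : 0 < ε := hε
        show 0 ≤ (T3 (- nrm (m - ε • n)) a b).im
        rw [aux_sub, aux_im, hdm, zero_add]
        have := mul_pos (hne (-ε)) (mul_pos hε' hab)
        linarith
    have e2 := (Complex.tendsto_arg_nhdsWithin_im_nonneg_of_re_neg_of_im_zero hre' him).comp e1
    exact e2.div_const (2 * π)
  have h3 := h1.sub h2
  have h4 : -π / (2 * π) - π / (2 * π) = -1 := by
    have := Real.pi_ne_zero
    field_simp
    norm_num
  rw [h4] at h3
  exact h3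

/-- outside the closed arc there is no jump -/
theorem Th_jump_out {n a b m : E} (hn : ‖n‖ = 1) (ha : ‖a‖ = 1) (hb : ‖b‖ = 1) (hna : ⟪n, a⟫ = 0)
    (hnb : ⟪n, b⟫ = 0) (hnm : ⟪n, m⟫ = 0) (hm : m ≠ 0) (hab : 0 < det3 n a b)
    (h : ¬ (0 ≤ det3 n a m ∧ 0 ≤ det3 n m b)) :
    Tendsto (fun ε : ℝ => Th (- nrm (m + ε • n)) a b - Th (- nrm (m - ε • n)) a b) (𝓝[>] 0)
      (𝓝 0) := by
  refine aux_no_jump hm ?_
  have hmp : 0 < ‖m‖⁻¹ := inv_pos.2 (norm_pos_iff.2 hm)
  obtain ⟨x, y, hx, hy, hxy, hg1, hg2, hre⟩ := aux_re ha hb hna hnb hnm hm hab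
  left
  rw [hre]
  have hneg : x < 0 ∨ y < 0 := by
    by_cases h1 : det3 n a m < 0
    · right
      rw [hy]
      exact div_neg_of_neg_of_pos (mul_neg_of_pos_of_neg hmp h1) hab
    · left
      push Not at h1
      have h2 : det3 n m b < 0 := by
        by_contra h3
        push Not at h3
        exact h ⟨h1, h3⟩
      rw [hx]
      exact div_neg_of_neg_of_pos (mul_neg_of_pos_of_neg hmp h2) hab
  have hsum : x + y < 1 := by
    by_contra h3
    push Not at h3
    have h4 : x * y < 0 := by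
      rcases hneg with h5 | h5
      · exact mul_neg_of_neg_of_pos h5 (by linarith)
      · exact mul_neg_of_pos_of_neg (by linarith) h5
    nlinarith
  exact mul_pos (by linarith) (by linarith)

/-- off the plane of `a, b` there is no jump -/
theorem Th_jump_off {n a b m : E} (hn : ‖n‖ = 1) (ha : ‖a‖ = 1) (hb : ‖b‖ = 1) (hm : m ≠ 0)
    (h : det3 m a b ≠ 0) :
    Tendsto (fun ε : ℝ => Th (- nrm (m + ε • n)) a b - Th (- nrm (m - ε • n)) a b) (𝓝[>] 0)
      (𝓝 0) := by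
  refine aux_no_jump hm ?_
  right
  have := aux_im (n := n) (a := a) (b := b) (m := m) 0
  rw [zero_smul, add_zero, zero_mul, add_zero] at this
  rw [this]
  have hm0 : ‖m‖⁻¹ ≠ 0 := inv_ne_zero (norm_ne_zero_iff.2 hm)
  exact neg_ne_zero.2 (mul_ne_zero hm0 h)

end CGA
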