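import Pool.Agent.CGA.ATh

/-! PROJECT CGA, module AThS: subdivision and change of apex.
`Th_add`: `T3(q,a,c) T3(q,c,b) = k T3(q,a,b)` with `k > 0` (from `Pm_insert`, `Pm_sandwich`); all three determinants have
the same sign (for `t ∈ (0,1)`), so the sum of the two arguments has no wrap-around.
`Th_apex`: `T3(q,a,b) T3(q',b,a) = k T3(q,a,q') T3(q,q',b)`, `k > 0`; `g x = Th q q' x`. -/

set_option linter.all false

namespace CGA

open scoped RealInnerProductSpace Real Topology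
open MeasureTheory Set Filter

/-- products of traces with a rank one projector -/
private theorem AThS_rank {c : E} (hc : ‖c‖ = 1) (X Y : Matrix (Fin 2) (Fin 2) ℂ) :
    (X * Pm c).trace * (Pm c * Y).trace = (X * Pm c * Y * Pm c).trace := by
  have h1 : X * Pm c * Y * Pm c = (Pm c * Y).trace • (X * Pm c) := by
    rw [mul_assoc X, mul_assoc X, Pm_sandwich hc, Matrix.mul_smul]
  rw [h1, Matrix.trace_smul, smul_eq_mul, mul_comm]

private theorem AThS_phase {z w : ℂ} {α β : ℝ} (hα : 0 < α) (hβ : 0 < β)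
    (h : (α : ℂ) * z = β * w) : z / (‖z‖ : ℂ) = w / (‖w‖ : ℂ) := by
  have hα' : (α : ℂ) ≠ 0 := Complex.ofReal_ne_zero.2 hα.ne'
  have hβ' : (β : ℂ) ≠ 0 := Complex.ofReal_ne_zero.2 hβ.ne'
  have h1 : (α : ℂ) * (‖z‖ : ℂ) = β * (‖w‖ : ℂ) := by
    have h2 := congrArg (fun x : ℂ => (‖x‖ : ℂ)) h
    simp only [norm_mul, Complex.norm_real, Real.norm_eq_abs, abs_of_pos hα, abs_of_pos hβ] at h2
    push_cast at h2
    exact h2
  calc z / (‖z‖ : ℂ) = ((α : ℂ) * z) / ((α : ℂ) * (‖z‖ : ℂ)) := (mul_div_mul_left _ _ hα').symm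
    _ = w / (‖w‖ : ℂ) := by rw [h, h1, mul_div_mul_left _ _ hβ']

private theorem AThS_int {x y : ℝ} (h : Complex.exp (2 * π * Complex.I * (x : ℂ)) =
    Complex.exp (2 * π * Complex.I * (y : ℂ))) : ∃ k : ℤ, x = y + k := by
  have h1 : Complex.exp (2 * π * Complex.I * (x : ℂ) - 2 * π * Complex.I * (y : ℂ)) = 1 := by
    rw [Complex.exp_sub, h, div_self (Complex.exp_ne_zero _)]
  obtain ⟨n, hn⟩ := Complex.exp_eq_one_iff.1 h1
  refine ⟨n, ?_⟩
  have hπ : (2 * (π : ℂ) * Complex.I) ≠ 0 := Complex.two_pi_I_ne_zero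
  have h2 : (2 * (π : ℂ) * Complex.I) * ((x : ℂ) - y) = (2 * (π : ℂ) * Complex.I) * (n : ℂ) := by
    rw [mul_sub, hn]
    ring
  have h3 := mul_left_cancel₀ hπ h2
  have h4 : (x : ℂ) = ((y + n : ℝ) : ℂ) := by
    push_cast
    linear_combination h3
  exact_mod_cast h4

private theorem AThS_tr3 (a b c : E) : T3 a b c = 4 * (Pm a * Pm b * Pm c).trace := by
  rw [trace_Pm3]
  ring

private theorem AThS_prod {q a b : E} (hq : ‖q‖ = 1) (ha : ‖a‖ = 1) (hb : ‖b‖ = 1)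
    (h : ‖a - b‖ < 2) {t : ℝ} (ht : t ∈ Icc (0:ℝ) 1) {c : E}
    (hc : c = nrm ((1 - t) • a + t • b)) (hc1 : ‖c‖ = 1) :
    ∃ K : ℝ, 0 ≤ K ∧ T3 q a c * T3 q c b = K * T3 q a b := by
  obtain ⟨k, hk, hkk⟩ := Pm_insert ha hb h ht
  rw [← hc] at hkk
  refine ⟨2 * k * (1 + ⟪q, c⟫), ?_, ?_⟩
  · have h2 : |⟪q, c⟫| ≤ ‖q‖ * ‖c‖ := abs_real_inner_le_norm q c
    rw [hq, hc1, mul_one] at h2
    have h3 := (abs_le.1 h2).1
    have h4 : 0 ≤ 1 + ⟪q, c⟫ := by linarith
    positivity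
  · have e1 : (Pm q * Pm c * Pm b).trace = (Pm c * (Pm b * Pm q)).trace := by
      rw [mul_assoc, Matrix.trace_mul_comm, mul_assoc]
    have e2 := AThS_rank hc1 (Pm q * Pm a) (Pm b * Pm q)
    have e3 : Pm q * Pm a * Pm c * (Pm b * Pm q) * Pm c =
        (k : ℂ) • (Pm q * (Pm a * Pm b) * (Pm q * Pm c)) := by
      calc Pm q * Pm a * Pm c * (Pm b * Pm q) * Pm c
          = Pm q * (Pm a * Pm c * Pm b) * (Pm q * Pm c) := by simp only [mul_assoc]
        _ = _ := by rw [hkk, Matrix.mul_smul, Matrix.smul_mul]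
    have e4 : (Pm q * (Pm a * Pm b) * (Pm q * Pm c)).trace =
        (Pm q * Pm c).trace * (Pm q * Pm a * Pm b).trace := by
      rw [Matrix.trace_mul_comm, ← mul_assoc, Pm_sandwich hq, Matrix.smul_mul, Matrix.trace_smul,
        smul_eq_mul, mul_assoc]
    rw [AThS_tr3 q a c, AThS_tr3 q c b, AThS_tr3 q a b, e1]
    have e5 : 4 * (Pm q * Pm a * Pm c).trace * (4 * (Pm c * (Pm b * Pm q)).trace) =
        16 * ((Pm q * Pm a * Pm c).trace * (Pm c * (Pm b * Pm q)).trace) := by ring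
    rw [e5, e2, e3, Matrix.trace_smul, e4, trace_Pm2, smul_eq_mul]
    push_cast
    ring

theorem Th_add {q a b : E} (hq : ‖q‖ = 1) (ha : ‖a‖ = 1) (hb : ‖b‖ = 1) (h : ‖a - b‖ < 2)
    (hd : det3 q a b ≠ 0) {t : ℝ} (ht : t ∈ Icc (0:ℝ) 1) :
    Th q a (nrm ((1 - t) • a + t • b)) + Th q (nrm ((1 - t) • a + t • b)) b = Th q a b := by
  rcases eq_or_lt_of_le ht.1 with h0 | h0
  · rw [← h0, sub_zero, one_smul, zero_smul, add_zero, nrm_of_unit ha, Th_self hq ha, zero_add]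
  rcases eq_or_lt_of_le ht.2 with h1 | h1
  · rw [h1, sub_self, one_smul, zero_smul, zero_add, nrm_of_unit hb, Th_self hq hb, add_zero]
  obtain ⟨v, hv⟩ : ∃ v, v = (1 - t) • a + t • b := ⟨_, rfl⟩
  have hv0 : v ≠ 0 := by
    rintro rfl
    apply hd
    have e : det3 q a ((1 - t) • a + t • b) = t * det3 q a b := by
      rw [det3_lin3, det3_self23]
      ring
    rw [← hv] at e
    have e2 : det3 q a 0 = 0 := by simp [det3]
    rw [e2] at e
    rcases mul_eq_zero.1 e.symm with h2 | h2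
    · linarith
    · exact h2
  have hs : 0 < ‖v‖⁻¹ := inv_pos.2 (norm_pos_iff.2 hv0)
  obtain ⟨c, hc⟩ : ∃ c, c = nrm v := ⟨_, rfl⟩
  have hc1 : ‖c‖ = 1 := by rw [hc]; exact norm_nrm hv0
  have d1 : det3 q a c = ‖v‖⁻¹ * t * det3 q a b := by
    rw [hc, nrm, det3_smul3, hv, det3_lin3, det3_self23]
    ring
  have d2 : det3 q c b = ‖v‖⁻¹ * (1 - t) * det3 q a b := by
    rw [hc, nrm, det3_smul2, hv, det3_lin2, det3_self23]
    ring
  have p1 : 0 < ‖v‖⁻¹ * t := mul_pos hs h0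
  have p2 : 0 < ‖v‖⁻¹ * (1 - t) := mul_pos hs (by linarith)
  have n1 : det3 q a c ≠ 0 := by rw [d1]; exact mul_ne_zero p1.ne' hd
  have n2 : det3 q c b ≠ 0 := by rw [d2]; exact mul_ne_zero p2.ne' hd
  have z1 : T3 q a c ≠ 0 := Complex.slitPlane_ne_zero (mem_slitPlane_of_det n1)
  have z2 : T3 q c b ≠ 0 := Complex.slitPlane_ne_zero (mem_slitPlane_of_det n2)
  have z3 : T3 q a b ≠ 0 := Complex.slitPlane_ne_zero (mem_slitPlane_of_det hd)
  obtain ⟨K, hK0, hK⟩ := AThS_prod hq ha hb h ht (c := c) (by rw [hc, hv]) hc1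
  have hKpos : 0 < K := by
    refine lt_of_le_of_ne hK0 ?_
    rintro rfl
    rw [Complex.ofReal_zero, zero_mul] at hK
    exact mul_ne_zero z1 z2 hK
  have hphase : (T3 q a c * T3 q c b) / (‖T3 q a c * T3 q c b‖ : ℂ) =
      T3 q a b / (‖T3 q a b‖ : ℂ) :=
    AThS_phase (α := 1) (β := K) one_pos hKpos (by rw [Complex.ofReal_one, one_mul, hK])
  have hexp : Complex.exp (2 * π * Complex.I * ((Th q a c + Th q c b : ℝ) : ℂ)) =
      Complex.exp (2 * π * Complex.I * (Th q a b : ℂ)) := by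
    rw [exp_Th z3, ← hphase]
    push_cast
    rw [mul_add, Complex.exp_add, exp_Th z1, exp_Th z2, norm_mul]
    push_cast
    rw [div_mul_div_comm]
  obtain ⟨k, hk⟩ := AThS_int hexp
  rw [← hv, ← hc]
  have hk0 : k = 0 := by
    rcases lt_or_gt_of_ne hd with h2 | h2
    · have t1 := Th_neg (show det3 q a c < 0 by rw [d1]; exact mul_neg_of_pos_of_neg p1 h2)
      have t2 := Th_neg (show det3 q c b < 0 by rw [d2]; exact mul_neg_of_pos_of_neg p2 h2)
      have t3 := Th_neg h2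
      have k1 : (k : ℝ) < 1 := by linarith [t1.1, t1.2, t2.1, t2.2, t3.1, t3.2]
      have k2 : (-1 : ℝ) < k := by linarith [t1.1, t1.2, t2.1, t2.2, t3.1, t3.2]
      have k3 : k < 1 := by exact_mod_cast k1
      have k4 : -1 < k := by exact_mod_cast k2
      omega
    · have t1 := Th_pos (show 0 < det3 q a c by rw [d1]; exact mul_pos p1 h2)
      have t2 := Th_pos (show 0 < det3 q c b by rw [d2]; exact mul_pos p2 h2)
      have t3 := Th_pos h2
      have k1 : (k : ℝ) < 1 := by linarith [t1.1, t1.2, t2.1, t2.2, t3.1, t3.2]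
      have k2 : (-1 : ℝ) < k := by linarith [t1.1, t1.2, t2.1, t2.2, t3.1, t3.2]
      have k3 : k < 1 := by exact_mod_cast k1
      have k4 : -1 < k := by exact_mod_cast k2
      omega
  rw [hk, hk0, Int.cast_zero, add_zero]

private theorem AThS_pos {a b : E} (ha : ‖a‖ = 1) (hb : ‖b‖ = 1) (h : a ≠ -b) :
    0 < 1 + ⟪a, b⟫ := by
  have h1 := norm_add_sq_real a b
  rw [ha, hb] at h1
  have h2 : 0 < ‖a + b‖ := norm_pos_iff.2 fun h3 => h (eq_neg_of_add_eq_zero_left h3)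
  nlinarith

private theorem AThS_ne {a b c : E} (ha : ‖a‖ = 1) (hb : ‖b‖ = 1) (hc : ‖c‖ = 1) (h1 : a ≠ -b)
    (h2 : b ≠ -c) (h3 : c ≠ -a) : T3 a b c ≠ 0 := by
  rw [← Complex.normSq_pos, normSq_T3 ha hb hc]
  have p1 := AThS_pos ha hb h1
  have p2 := AThS_pos hb hc h2
  have p3 := AThS_pos hc ha h3
  positivity

private theorem AThS_expneg {z : ℂ} {x : ℝ}
    (h : Complex.exp (2 * π * Complex.I * (x : ℂ)) = z / (‖z‖ : ℂ)) :
    Complex.exp (-(2 * π * Complex.I * (x : ℂ))) = (starRingEnd ℂ) z / (‖z‖ : ℂ) := by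
  have h1 : -(2 * π * Complex.I * (x : ℂ)) = (starRingEnd ℂ) (2 * π * Complex.I * (x : ℂ)) := by
    simp only [map_mul, Complex.conj_I, Complex.conj_ofReal, map_ofNat]
    ring
  rw [h1, Complex.exp_conj, h, map_div₀, Complex.conj_ofReal]

theorem Th_apex {q q' : E} (hq : ‖q‖ = 1) (hq' : ‖q'‖ = 1) (hqq : q ≠ -q') :
    ∃ g : E → ℝ, ∀ a b : E, ‖a‖ = 1 → ‖b‖ = 1 → a ≠ -q → a ≠ -q' → b ≠ -q → b ≠ -q' → a ≠ -b →
      ∃ k : ℤ, Th q a b - Th q' a b = g b - g a + k := by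
  refine ⟨fun x => Th q q' x, fun a b ha hb haq haq' hbq hbq' hab => ?_⟩
  have sy : ∀ {x y : E}, x ≠ -y → y ≠ -x := fun {x y} h h' => h (by rw [h', neg_neg])
  have z1 : T3 q a b ≠ 0 := AThS_ne hq ha hb (sy haq) hab hbq
  have z2 : T3 q' a b ≠ 0 := AThS_ne hq' ha hb (sy haq') hab hbq'
  have z3 : T3 q q' a ≠ 0 := AThS_ne hq hq' ha hqq (sy haq') haq
  have z4 : T3 q q' b ≠ 0 := AThS_ne hq hq' hb hqq (sy hbq') hbq
  have pa : 0 < 1 + ⟪a, b⟫ := AThS_pos ha hb hab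
  have pq : 0 < 1 + ⟪q', q⟫ := AThS_pos hq' hq (sy hqq)
  have key : ((1 + ⟪q', q⟫ : ℝ) : ℂ) * (T3 q a b * (starRingEnd ℂ) (T3 q' a b)) =
      ((1 + ⟪a, b⟫ : ℝ) : ℂ) * (T3 q q' b * (starRingEnd ℂ) (T3 q q' a)) := by
    rw [← T3_swap q' a b, ← T3_swap q q' a]
    have f1 : (Pm q * Pm a * Pm b).trace * (Pm q' * Pm b * Pm a).trace =
        (Pm b * Pm a).trace * (Pm q * Pm a * Pm q' * Pm b).trace := by
      have g1 : (Pm q * Pm a * Pm b).trace = (Pm b * Pm q * Pm a).trace := by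
        rw [Matrix.trace_mul_comm, mul_assoc]
      have g2 : (Pm q' * Pm b * Pm a).trace = (Pm a * (Pm q' * Pm b)).trace :=
        Matrix.trace_mul_comm _ _
      have g3 : Pm b * Pm q * Pm a * (Pm q' * Pm b) * Pm a =
          (Pm b * Pm q * Pm a * Pm q') * (Pm b * Pm a) := by simp only [mul_assoc]
      have g4 : (Pm b * Pm q * Pm a * Pm q' * (Pm b * Pm a)).trace =
          (Pm b * Pm a).trace * (Pm q * Pm a * Pm q' * Pm b).trace := by
        calc (Pm b * Pm q * Pm a * Pm q' * (Pm b * Pm a)).trace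
            = (Pm b * Pm a * Pm b * (Pm q * Pm a * Pm q')).trace := by
              rw [Matrix.trace_mul_comm]
              simp only [mul_assoc]
          _ = (Pm b * Pm a).trace * (Pm b * (Pm q * Pm a * Pm q')).trace := by
              rw [Pm_sandwich hb, Matrix.smul_mul, Matrix.trace_smul, smul_eq_mul]
          _ = _ := by rw [Matrix.trace_mul_comm (Pm b) (Pm q * Pm a * Pm q')]
      rw [g1, g2, AThS_rank ha, g3, g4]
    have f2 : (Pm q * Pm a * Pm q').trace * (Pm q * Pm q' * Pm b).trace =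
        (Pm q' * Pm q).trace * (Pm q * Pm a * Pm q' * Pm b).trace := by
      have g1 : (Pm q * Pm a * Pm q').trace = (Pm a * Pm q' * Pm q).trace := by
        rw [mul_assoc, Matrix.trace_mul_comm]
      have g3 : Pm a * Pm q' * Pm q * (Pm q' * Pm b) * Pm q =
          Pm a * (Pm q' * Pm q * Pm q') * (Pm b * Pm q) := by simp only [mul_assoc]
      have g4 : (Pm a * (Pm q' * Pm q * Pm q') * (Pm b * Pm q)).trace =
          (Pm q' * Pm q).trace * (Pm q * Pm a * Pm q' * Pm b).trace := by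
        rw [Pm_sandwich hq', Matrix.mul_smul, Matrix.smul_mul, Matrix.trace_smul, smul_eq_mul,
          ← mul_assoc, Matrix.trace_mul_comm (Pm a * Pm q' * Pm b) (Pm q)]
        simp only [mul_assoc]
      rw [g1, mul_assoc (Pm q) (Pm q') (Pm b), AThS_rank hq, g3, g4]
    have f3 : (Pm b * Pm a).trace = ((1 + ⟪a, b⟫ : ℝ) : ℂ) / 2 := by
      rw [Matrix.trace_mul_comm, trace_Pm2]
      push_cast
      ring
    have f4 : (Pm q' * Pm q).trace = ((1 + ⟪q', q⟫ : ℝ) : ℂ) / 2 := by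
      rw [trace_Pm2]
      push_cast
      ring
    rw [f3] at f1
    rw [f4] at f2
    rw [AThS_tr3 q a b, AThS_tr3 q' b a, AThS_tr3 q q' b, AThS_tr3 q a q']
    linear_combination (16 * ((1 + ⟪q', q⟫ : ℝ) : ℂ)) * f1 - (16 * ((1 + ⟪a, b⟫ : ℝ) : ℂ)) * f2
  have hphase := AThS_phase pq pa key
  refine AThS_int ?_
  have e1 : 2 * π * Complex.I * ((Th q a b - Th q' a b : ℝ) : ℂ) =
      2 * π * Complex.I * (Th q a b : ℂ) + -(2 * π * Complex.I * (Th q' a b : ℂ)) := by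
    push_cast
    ring
  have e2 : 2 * π * Complex.I * ((Th q q' b - Th q q' a : ℝ) : ℂ) =
      2 * π * Complex.I * (Th q q' b : ℂ) + -(2 * π * Complex.I * (Th q q' a : ℂ)) := by
    push_cast
    ring
  rw [e1, e2, Complex.exp_add, Complex.exp_add, exp_Th z1, exp_Th z4, AThS_expneg (exp_Th z2),
    AThS_expneg (exp_Th z3), div_mul_div_comm, div_mul_div_comm]
  rw [norm_mul, norm_mul, RCLike.norm_conj, RCLike.norm_conj] at hphase
  push_cast at hphase
  exact hphase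

end CGA
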