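import Pool.Agent.CGA.Defs

/-! PROJECT CGA, module AVec: algebra of `det3` and `crs` (everything by coordinates:
`simp [det3, crs, PiLp.inner_apply, Fin.sum_univ_three]; ring`). -/

set_option linter.all false

namespace CGA

open scoped RealInnerProductSpace Real Topology
open MeasureTheory Set Filter

theorem inner3 (a b : E) : ⟪a, b⟫ = a 0 * b 0 + a 1 * b 1 + a 2 * b 2 := by
  simp [PiLp.inner_apply, Fin.sum_univ_three]
  ring

theorem normsq3 (a : E) : ‖a‖ ^ 2 = a 0 ^ 2 + a 1 ^ 2 + a 2 ^ 2 := by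
  rw [← real_inner_self_eq_norm_sq, inner3]
  ring

theorem det3_eq_inner (a b c : E) : det3 a b c = ⟪a, crs b c⟫ := by
  rw [inner3]
  simp [det3, crs]

theorem det3_cyc (a b c : E) : det3 a b c = det3 b c a := by
  simp only [det3]
  ring

theorem det3_swap23 (a b c : E) : det3 a c b = - det3 a b c := by
  simp only [det3]
  ring

theorem det3_swap12 (a b c : E) : det3 b a c = - det3 a b c := by
  simp only [det3]
  ring

theorem det3_swap13 (a b c : E) : det3 c b a = - det3 a b c := by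
  simp only [det3]
  ring

@[simp] theorem det3_self12 (a c : E) : det3 a a c = 0 := by
  simp only [det3]
  ring

@[simp] theorem det3_self23 (a b : E) : det3 a b b = 0 := by
  simp only [det3]
  ring

@[simp] theorem det3_self13 (a b : E) : det3 a b a = 0 := by
  simp only [det3]
  ring

theorem det3_lin1 (s t : ℝ) (a a' b c : E) :
    det3 (s • a + t • a') b c = s * det3 a b c + t * det3 a' b c := by
  simp only [det3, PiLp.add_apply, PiLp.smul_apply, smul_eq_mul]
  ring

theorem det3_lin2 (s t : ℝ) (a b b' c : E) :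
    det3 a (s • b + t • b') c = s * det3 a b c + t * det3 a b' c := by
  simp only [det3, PiLp.add_apply, PiLp.smul_apply, smul_eq_mul]
  ring

theorem det3_lin3 (s t : ℝ) (a b c c' : E) :
    det3 a b (s • c + t • c') = s * det3 a b c + t * det3 a b c' := by
  simp only [det3, PiLp.add_apply, PiLp.smul_apply, smul_eq_mul]
  ring

theorem det3_smul1 (s : ℝ) (a b c : E) : det3 (s • a) b c = s * det3 a b c := by
  simp only [det3, PiLp.smul_apply, smul_eq_mul]
  ring

theorem det3_smul2 (s : ℝ) (a b c : E) : det3 a (s • b) c = s * det3 a b c := by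
  simp only [det3, PiLp.smul_apply, smul_eq_mul]
  ring

theorem det3_smul3 (s : ℝ) (a b c : E) : det3 a b (s • c) = s * det3 a b c := by
  simp only [det3, PiLp.smul_apply, smul_eq_mul]
  ring

theorem det3_neg1 (a b c : E) : det3 (-a) b c = - det3 a b c := by
  simp only [det3, PiLp.neg_apply]
  ring

theorem det3_neg2 (a b c : E) : det3 a (-b) c = - det3 a b c := by
  simp only [det3, PiLp.neg_apply]
  ring

theorem det3_neg3 (a b c : E) : det3 a b (-c) = - det3 a b c := by
  simp only [det3, PiLp.neg_apply]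
  ring

theorem inner_crs_left (a b : E) : ⟪crs a b, a⟫ = 0 := by
  rw [inner3]
  simp [crs]
  ring

theorem inner_crs_right (a b : E) : ⟪crs a b, b⟫ = 0 := by
  rw [inner3]
  simp [crs]
  ring

theorem crs_swap (a b : E) : crs b a = - crs a b := by
  ext i
  fin_cases i <;> simp [crs] <;> ring

@[simp] theorem crs_self (a : E) : crs a a = 0 := by
  ext i
  fin_cases i <;> simp [crs] <;> ring

theorem crs_lin1 (s t : ℝ) (a a' b : E) : crs (s • a + t • a') b = s • crs a b + t • crs a' b := by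
  ext i
  fin_cases i <;> simp [crs] <;> ring

theorem crs_lin2 (s t : ℝ) (a b b' : E) : crs a (s • b + t • b') = s • crs a b + t • crs a b' := by
  ext i
  fin_cases i <;> simp [crs] <;> ring

theorem crs_smul1 (s : ℝ) (a b : E) : crs (s • a) b = s • crs a b := by
  ext i
  fin_cases i <;> simp [crs] <;> ring

theorem crs_smul2 (s : ℝ) (a b : E) : crs a (s • b) = s • crs a b := by
  ext i
  fin_cases i <;> simp [crs] <;> ring

theorem crs_crs (n v : E) : crs n (crs n v) = ⟪n, v⟫ • n - ‖n‖ ^ 2 • v := by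
  ext i
  rw [normsq3, inner3]
  fin_cases i <;> simp [crs] <;> ring

theorem norm_crs_sq (a b : E) : ‖crs a b‖ ^ 2 = ‖a‖ ^ 2 * ‖b‖ ^ 2 - ⟪a, b⟫ ^ 2 := by
  rw [normsq3, normsq3, normsq3, inner3]
  simp [crs]
  ring

theorem norm_crs_le (a b : E) : ‖crs a b‖ ≤ ‖a‖ * ‖b‖ := by
  refine abs_le_of_sq_le_sq' ?_ (by positivity) |>.2
  rw [norm_crs_sq, mul_pow]
  nlinarith [sq_nonneg ⟪a, b⟫]

theorem abs_det3_le (a b c : E) : |det3 a b c| ≤ ‖a‖ * ‖b‖ * ‖c‖ := by
  rw [det3_eq_inner, mul_assoc]
  exact (abs_real_inner_le_norm _ _).trans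
    (mul_le_mul_of_nonneg_left (norm_crs_le b c) (norm_nonneg _))

/-- Cramer's rule -/
theorem cramer (a b c p : E) :
    det3 a b c • p = det3 p b c • a + det3 a p c • b + det3 a b p • c := by
  ext i
  fin_cases i <;> simp [det3] <;> ring

theorem crs_eq_smul {n a b : E} (hn : ‖n‖ = 1) (ha : ⟪n, a⟫ = 0) (hb : ⟪n, b⟫ = 0) :
    crs a b = det3 n a b • n := by
  have h1 := inner3 n a
  have h2 := inner3 n b
  rw [ha] at h1
  rw [hb] at h2
  have h3 : n 0 ^ 2 + n 1 ^ 2 + n 2 ^ 2 = 1 := by rw [← normsq3, hn, one_pow]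
  ext i
  fin_cases i
  · simp [crs, det3]
    linear_combination (n 2 * b 1 - n 1 * b 2) * h1 + (n 1 * a 2 - n 2 * a 1) * h2 - (a 1 * b 2 - a 2 * b 1) * h3
  · simp [crs, det3]
    linear_combination (n 0 * b 2 - n 2 * b 0) * h1 + (n 2 * a 0 - n 0 * a 2) * h2 - (a 2 * b 0 - a 0 * b 2) * h3
  · simp [crs, det3]
    linear_combination (n 1 * b 0 - n 0 * b 1) * h1 + (n 0 * a 1 - n 1 * a 0) * h2 - (a 0 * b 1 - a 1 * b 0) * h3

/-- Plucker-type relation in the plane `n^⊥` -/
theorem det3_plane {n a b c d : E} (ha : ⟪n, a⟫ = 0) (hb : ⟪n, b⟫ = 0) (hc : ⟪n, c⟫ = 0) :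
    det3 n a b • c = det3 n c b • a + det3 n a c • b := by
  by_cases hn : n = 0
  · subst hn
    have h1 : ∀ x y : E, det3 0 x y = 0 := fun x y => by
      have h2 := det3_smul1 0 0 x y
      rwa [zero_smul, zero_mul] at h2
    rw [h1, h1, h1, zero_smul, zero_smul, zero_smul, add_zero]
  · have h1 := congrArg (fun x => ⟪n, x⟫) (cramer a b c n)
    simp only [inner_add_right, inner_smul_right, ha, hb, hc, mul_zero, add_zero] at h1
    have h2 : det3 a b c = 0 := by
      rcases mul_eq_zero.1 h1 with h3 | h3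
      · exact h3
      · exact absurd (inner_self_eq_zero.1 h3) hn
    have h := cramer n a b c
    rw [← det3_cyc c a b] at h2
    rw [h2, zero_smul, zero_add] at h
    exact h

theorem crs_ne_zero {a b : E} (ha : ‖a‖ = 1) (hb : ‖b‖ = 1) (h : a ≠ b) (h' : a ≠ -b) :
    crs a b ≠ 0 := by
  intro h0
  have h1 := norm_crs_sq a b
  rw [h0, ha, hb, norm_zero] at h1
  have h2 : (⟪a, b⟫ - 1) * (⟪a, b⟫ + 1) = 0 := by nlinarith
  rcases mul_eq_zero.1 h2 with h3 | h3
  · exact h ((inner_eq_one_iff_of_norm_eq_one (𝕜 := ℝ) ha hb).1 (sub_eq_zero.1 h3))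
  · refine h' ((inner_eq_one_iff_of_norm_eq_one (𝕜 := ℝ) ha (by rw [norm_neg, hb])).1 ?_)
    rw [inner_neg_right]
    linarith

theorem continuous_det3 : Continuous fun p : E × E × E => det3 p.1 p.2.1 p.2.2 := by
  unfold det3
  fun_prop

theorem continuous_crs : Continuous fun p : E × E => crs p.1 p.2 := by
  unfold crs
  refine (PiLp.continuous_toLp 2 _).comp (continuous_pi fun i => ?_)
  fin_cases i
  · change Continuous fun p : E × E => p.1 1 * p.2 2 - p.1 2 * p.2 1
    fun_prop
  · change Continuous fun p : E × E => p.1 2 * p.2 0 - p.1 0 * p.2 2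
    fun_prop
  · change Continuous fun p : E × E => p.1 0 * p.2 1 - p.1 1 * p.2 0
    fun_prop

end CGA
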