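import Pool.Agent.CGA.BDefs
import Pool.Agent.CGA.ABg
import Pool.Agent.CGA.ATh
import Pool.Agent.CGA.AMet
import Pool.Agent.CGA.ACyc

/-! PROJECT CGA, chunk B, module BLo.

`low_exists`: let m be the lower bound of f (Met.exists_bounds), e = m^2/4.  Cauchy-Schwarz:
 m * sum_i |X(i+1) - X i| <= sum_i sqrt(f f) |..| <= sqrt(sum f f |..|^2/tau) sqrt(sum tau) = sqrt(En) < m/2,
so P := sum |X(i+1) - X i| < 1/2 and every X i is within P < 1/2 of X 0 (telescoping along Fin n; induction on i.val, or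
`dist_le_range_sum_dist`).  exp_cone with q = X 0, l = ofFn X (cyc_ofFn): no two points are antipodal
(distance < 2).  With S = sum_i Th (X 0) (X i) (X (i+1)): exp(2 pi i S) |Bg| = Bg, and |S| <= P * P / 8 < 1/8 (Th_small), Bg ≠ 0
(Bg_ne_zero), so arg Bg = 2 pi S (Complex.arg_mul_cos_add_sin_mul_I or Complex.arg_exp_mul_I, toIocMod) and |arg| < pi/4.
`nz_exists`: d = m^2/A: |X(i+1) - X i|^2 <= En tau i / m^2 <= A d / m^2 <= 1 (all terms of En are nonnegative), so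
consecutive points are not antipodal; Bg_ne_zero with cyc_ofFn.
-/

set_option linter.all false

namespace CGA

open scoped RealInnerProductSpace Real Topology
open MeasureTheory Set Filter

private theorem BLo_ne {x : E} (hx : ‖x‖ = 1) : x ≠ 0 := by
  intro h
  rw [h, norm_zero] at hx
  exact zero_ne_one hx

private theorem BLo_pos (M : Met) {x : E} (hx : ‖x‖ = 1) : 0 < M.f x := M.pos _ (BLo_ne hx)

theorem En_term_le (M : Met) {n : ℕ} [NeZero n] {τ : Fin n → ℝ} {X : Fin n → E}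
    (hτ : ∀ i, 0 < τ i) (hX : ∀ i, ‖X i‖ = 1) (i : Fin n) :
    M.f (X i) * M.f (X (i + 1)) * ‖X (i + 1) - X i‖ ^ 2 / τ i ≤ En M τ X := by
  unfold En
  refine Finset.single_le_sum (f := fun i => M.f (X i) * M.f (X (i + 1)) * ‖X (i + 1) - X i‖ ^ 2
    / τ i) (fun j _ => ?_) (Finset.mem_univ i)
  have h1 := BLo_pos M (hX j)
  have h2 := BLo_pos M (hX (j + 1))
  have h3 := hτ j
  positivity

/-- Cauchy-Schwarz -/
theorem chord_sum_le (M : Met) {n : ℕ} [NeZero n] {τ : Fin n → ℝ} {X : Fin n → E}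
    (hτ : ∀ i, 0 < τ i) (hτ1 : ∑ i, τ i = 1) (hX : ∀ i, ‖X i‖ = 1) :
    (∑ i, √(M.f (X i) * M.f (X (i + 1))) * ‖X (i + 1) - X i‖) ^ 2 ≤ En M τ X := by
  have h := Finset.sum_sq_le_sum_mul_sum_of_sq_eq_mul Finset.univ
    (r := fun i => √(M.f (X i) * M.f (X (i + 1))) * ‖X (i + 1) - X i‖)
    (f := fun i => M.f (X i) * M.f (X (i + 1)) * ‖X (i + 1) - X i‖ ^ 2 / τ i)
    (g := τ) (fun i _ => by
      have h1 := BLo_pos M (hX i)
      have h2 := BLo_pos M (hX (i + 1))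
      have h3 := hτ i
      positivity) (fun i _ => (hτ i).le) (fun i _ => by
      have h1 := BLo_pos M (hX i)
      have h2 := BLo_pos M (hX (i + 1))
      have h3 := hτ i
      rw [mul_pow, Real.sq_sqrt (by positivity), div_mul_cancel₀ _ h3.ne'])
  rw [hτ1, mul_one] at h
  exact h

private theorem BLo_near {n : ℕ} [NeZero n] (X : Fin n → E) (i : Fin n) :
    ‖X i - X 0‖ ≤ ∑ j, ‖X (j + 1) - X j‖ := by
  have h0 : Fin.ofNat n 0 = 0 := rfl
  have hs : ∀ k : ℕ, Fin.ofNat n (k + 1) = Fin.ofNat n k + 1 := by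
    intro k
    apply Fin.ext
    simp [Fin.ofNat, Fin.val_add, Nat.add_mod]
  have h1 := dist_le_range_sum_dist (fun k : ℕ => X (Fin.ofNat n k)) i.val
  simp only [h0, hs, Fin.ofNat_val_eq_self] at h1
  have h2 : ∑ k ∈ Finset.range i.val, dist (X (Fin.ofNat n k)) (X (Fin.ofNat n k + 1))
      ≤ ∑ k ∈ Finset.range n, dist (X (Fin.ofNat n k)) (X (Fin.ofNat n k + 1)) :=
    Finset.sum_le_sum_of_subset_of_nonneg (Finset.range_mono i.isLt.le)
      (fun _ _ _ => dist_nonneg)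
  have h3 := Finset.sum_range (n := n) (fun k => dist (X (Fin.ofNat n k)) (X (Fin.ofNat n k + 1)))
  simp only [Fin.ofNat_val_eq_self] at h3
  rw [h3] at h2
  rw [← dist_eq_norm, dist_comm]
  refine h1.trans (h2.trans (le_of_eq ?_))
  refine Finset.sum_congr rfl fun j _ => ?_
  rw [dist_comm, dist_eq_norm]

private theorem BLo_anti {x y : E} (hx : ‖x‖ = 1) (h : ‖y - x‖ < 2) : x ≠ -y := by
  intro h1
  rw [h1, sub_neg_eq_add, ← two_smul ℝ y, norm_smul] at h
  have h2 : ‖y‖ = 1 := by rw [h1, norm_neg] at hx; exact hx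
  rw [h2] at h
  norm_num at h

theorem low_exists (M : Met) : ∃ e > 0, ∀ (n : ℕ) [NeZero n] (τ : Fin n → ℝ) (X : Fin n → E),
    (∀ i, 0 < τ i) → ∑ i, τ i = 1 → (∀ i, ‖X i‖ = 1) → En M τ X < e →
    |(Bg (List.ofFn X)).arg| < π / 4 := by
  obtain ⟨m, F, K, hm, -, -, hb, -, -⟩ := M.exists_bounds
  refine ⟨m ^ 2 / 4, by positivity, ?_⟩
  intro n _ τ X hτ hτ1 hX hE
  set P := ∑ i, ‖X (i + 1) - X i‖ with hP
  have hP0 : 0 ≤ P := Finset.sum_nonneg fun i _ => norm_nonneg _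
  have hPh : P < 1 / 2 := by
    have h1 := chord_sum_le M hτ hτ1 hX
    have h2 : m * P ≤ ∑ i, √(M.f (X i) * M.f (X (i + 1))) * ‖X (i + 1) - X i‖ := by
      rw [hP, Finset.mul_sum]
      refine Finset.sum_le_sum fun i _ => mul_le_mul_of_nonneg_right ?_ (norm_nonneg _)
      apply Real.le_sqrt_of_sq_le
      have h3 := (hb _ (BLo_ne (hX i))).1
      have h4 := (hb _ (BLo_ne (hX (i + 1)))).1
      nlinarith
    have h3 : (m * P) ^ 2 < (m / 2) ^ 2 := by
      have h5 : (m * P) ^ 2 ≤ (∑ i, √(M.f (X i) * M.f (X (i + 1))) * ‖X (i + 1) - X i‖) ^ 2 :=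
        pow_le_pow_left₀ (by positivity) h2 2
      calc (m * P) ^ 2 ≤ _ := h5
        _ ≤ En M τ X := h1
        _ < m ^ 2 / 4 := hE
        _ = (m / 2) ^ 2 := by ring
    have h4 : m * P < m / 2 := lt_of_pow_lt_pow_left₀ 2 (by positivity) h3
    by_contra h5
    push Not at h5
    nlinarith
  have hnear : ∀ i, ‖X i - X 0‖ ≤ P := fun i => BLo_near X i
  have hstep : ∀ i, ‖X (i + 1) - X i‖ ≤ P := fun i =>
    Finset.single_le_sum (f := fun i => ‖X (i + 1) - X i‖) (fun j _ => norm_nonneg _)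
      (Finset.mem_univ i)
  have hne : List.ofFn X ≠ [] := by
    intro h
    have h1 := congrArg List.length h
    rw [List.length_ofFn, List.length_nil] at h1
    exact NeZero.ne n h1
  have hu : ∀ x ∈ List.ofFn X, ‖x‖ = 1 := by
    intro x hx
    obtain ⟨i, rfl⟩ := List.mem_ofFn.1 hx
    exact hX i
  have hcyc : ∀ e ∈ cyc (List.ofFn X), e.1 ≠ -e.2 := by
    intro e he
    rw [cyc_ofFn] at he
    obtain ⟨i, rfl⟩ := List.mem_ofFn.1 he
    exact BLo_anti (hX i) (by linarith [hstep i])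
  have hq : ∀ x ∈ List.ofFn X, x ≠ -X 0 := by
    intro x hx
    obtain ⟨i, rfl⟩ := List.mem_ofFn.1 hx
    refine BLo_anti (hX i) ?_
    rw [norm_sub_rev]
    linarith [hnear i]
  have hexp := exp_cone (hX 0) hne hu hcyc hq
  have hB := Bg_ne_zero hne hu hcyc
  rw [cyc_ofFn, List.map_ofFn, List.sum_ofFn] at hexp
  set S : ℝ := ∑ i, Th (X 0) (X i) (X (i + 1)) with hS
  have hS' : |S| ≤ P * P / 8 := by
    rw [hS]
    refine (Finset.abs_sum_le_sum_abs _ _).trans ?_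
    have h1 : ∀ i ∈ Finset.univ, |Th (X 0) (X i) (X (i + 1))| ≤ P * ‖X (i + 1) - X i‖ / 8 := by
      intro i _
      have h2 := (Th_small (hX 0) (hX i) (hX (i + 1)) ((hnear i).trans hPh.le)
        ((hnear (i + 1)).trans hPh.le)).1
      refine h2.trans ?_
      have h3 := mul_le_mul_of_nonneg_right (hnear i) (norm_nonneg (X (i + 1) - X i))
      linarith
    refine (Finset.sum_le_sum h1).trans (le_of_eq ?_)
    rw [hP, ← Finset.sum_div, ← Finset.mul_sum]
  have hS2 : |S| < 1 / 32 := by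
    refine hS'.trans_lt ?_
    nlinarith
  have hπ := Real.pi_pos
  have hexp' : Complex.exp (2 * π * Complex.I * (S : ℂ)) * (‖Bg (List.ofFn X)‖ : ℂ)
      = Bg (List.ofFn X) := hexp
  have harg : (Bg (List.ofFn X)).arg = 2 * π * S := by
    rw [← hexp']
    have h1 : 2 * (π : ℂ) * Complex.I * (S : ℂ) = ((2 * π * S : ℝ) : ℂ) * Complex.I := by
      push_cast
      ring
    rw [h1, Complex.exp_mul_I, mul_comm]
    apply Complex.arg_mul_cos_add_sin_mul_I (norm_pos_iff.2 hB)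
    rcases abs_lt.1 hS2 with ⟨h2, h3⟩
    constructor <;> nlinarith
  rw [harg, abs_mul, abs_of_pos (by positivity : (0:ℝ) < 2 * π)]
  nlinarith

theorem nz_exists (M : Met) {A : ℝ} (hA : 0 < A) : ∃ d > 0, ∀ (n : ℕ) [NeZero n]
    (τ : Fin n → ℝ) (X : Fin n → E), (∀ i, 0 < τ i) → (∀ i, τ i ≤ d) → (∀ i, ‖X i‖ = 1) →
    En M τ X ≤ A → Bg (List.ofFn X) ≠ 0 := by
  obtain ⟨m, F, K, hm, -, -, hb, -, -⟩ := M.exists_bounds
  refine ⟨m ^ 2 / A, by positivity, ?_⟩
  intro n _ τ X hτ hτd hX hE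
  have hstep : ∀ i, ‖X (i + 1) - X i‖ < 2 := by
    intro i
    have h1 := En_term_le M hτ hX i
    have h3 := (hb _ (BLo_ne (hX i))).1
    have h4 := (hb _ (BLo_ne (hX (i + 1)))).1
    have h5 : m ^ 2 ≤ M.f (X i) * M.f (X (i + 1)) := by nlinarith
    have h6 : M.f (X i) * M.f (X (i + 1)) * ‖X (i + 1) - X i‖ ^ 2 ≤ A * τ i := by
      rw [← div_le_iff₀ (hτ i)]
      exact h1.trans hE
    have h7 : A * τ i ≤ m ^ 2 := by
      have h8 := mul_le_mul_of_nonneg_left (hτd i) hA.le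
      rwa [mul_div_cancel₀ _ hA.ne'] at h8
    have h9 : m ^ 2 * ‖X (i + 1) - X i‖ ^ 2 ≤ m ^ 2 :=
      (mul_le_mul_of_nonneg_right h5 (sq_nonneg _)).trans (h6.trans h7)
    have h10 : ‖X (i + 1) - X i‖ ^ 2 ≤ 1 := by
      have h11 : 0 < m ^ 2 := by positivity
      by_contra h12
      push Not at h12
      nlinarith
    nlinarith [norm_nonneg (X (i + 1) - X i)]
  apply Bg_ne_zero
  · intro h
    have h1 := congrArg List.length h
    rw [List.length_ofFn, List.length_nil] at h1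
    exact NeZero.ne n h1
  · intro x hx
    obtain ⟨i, rfl⟩ := List.mem_ofFn.1 hx
    exact hX i
  · intro e he
    rw [cyc_ofFn] at he
    obtain ⟨i, rfl⟩ := List.mem_ofFn.1 he
    exact BLo_anti (hX i) (hstep i)

end CGA
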