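import Pool.Agent.CGA.BDe
import Pool.Agent.CGA.BLo

/-! PROJECT CGA, chunk B, module BCe.

Existence of the constants (assembled; nothing to prove here once BDe and BLo are done).
-/

set_option linter.all false

namespace CGA

open scoped RealInnerProductSpace Real Topology
open MeasureTheory Set Filter

theorem BC_exists (M : Met) {L : ℝ} (hL : 0 < L)
    (hcrit : ∀ e₀ > (0:ℝ), ∃ δ > 0, ∀ (n : ℕ) [NeZero n] (τ : Fin n → ℝ) (X : Fin n → E),
      (∀ i, 0 < τ i) → (∀ i, τ i ≤ δ) → ∑ i, τ i = 1 → (∀ i, ‖X i‖ = 1) → e₀ ≤ En M τ X →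
      En M τ X ≤ L ^ 2 → ∃ i v, ⟪X i, v⟫ = 0 ∧ ⟪GrC M τ X i, v⟫ ≠ 0) :
    ∃ e d, BC M (L ^ 2) e d := by
  obtain ⟨e, he, hlow⟩ := low_exists M
  obtain ⟨d1, hd1, hnz⟩ := nz_exists M (A := L ^ 2) (by positivity)
  obtain ⟨d2, hd2, hcr⟩ := hcrit (e / 2 / 2) (by positivity)
  refine ⟨e, min d1 d2, by positivity, he, lt_min hd1 hd2, ?_, ?_, ?_⟩
  · intro n _ τ hτ ε hε
    exact desc_exists M τ (by positivity) (fun X hX h1 h2 => hcr n τ X hτ.pos
      (fun i => (hτ.le i).trans (min_le_right _ _)) hτ.sum hX h1 h2) hε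
  · intro n _ τ hτ X hX
    exact hnz n τ X hτ.pos (fun i => (hτ.le i).trans (min_le_left _ _)) hX.1 hX.2
  · intro n _ τ hτ X hX h
    exact hlow n τ X hτ.pos hτ.sum hX.1 h

end CGA
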