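import Pool.Agent.CGA.BDefs

/-! PROJECT CGA, chunk B, module BCh.

Time steps from the chords.  P = (L1 + L2)/2, delta = d P / 2, N ≥ 1 with 1/N <= d/2.  c_i = sqrt(f f)|X(i+1) - X i| >= 0, S = sum c_i <= L2 < P,
eta = (P - S)/n > 0, tau i = (c_i + eta)/P > 0: sum = (S + n eta)/P = 1; tau i <= delta/P + 1/n <= d/2 + d/2.
En = sum c_i^2/tau i = sum P c_i^2/(c_i + eta) <= P sum c_i = P S <= P L2 < L1^2   (c_i^2 = f f |..|^2, f > 0 at unit vectors).
-/

set_option linter.all false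

namespace CGA

open scoped RealInnerProductSpace Real Topology
open MeasureTheory Set Filter

theorem tau_of_chord (M : Met) {L₂ L₁ d : ℝ} (hL₂ : 0 < L₂) (h21 : L₂ < L₁) (hd : 0 < d) :
    ∃ N : ℕ, 1 ≤ N ∧ ∃ δ > 0, ∀ (n : ℕ) [NeZero n] (X : Fin n → E), N ≤ n →
      (∀ i, ‖X i‖ = 1) → (∀ i, √(M.f (X i) * M.f (X (i + 1))) * ‖X (i + 1) - X i‖ ≤ δ) →
      ∑ i, √(M.f (X i) * M.f (X (i + 1))) * ‖X (i + 1) - X i‖ ≤ L₂ →
      ∃ τ, Adm d τ ∧ En M τ X < L₁ ^ 2 := by
  obtain ⟨N, hN⟩ := exists_nat_gt (2 / d)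
  have hN0 : 0 < (N : ℝ) := lt_trans (by positivity) hN
  have hN1 : 1 ≤ N := by
    have : 0 < N := by exact_mod_cast hN0
    omega
  refine ⟨N, hN1, d * ((L₁ + L₂) / 2) / 2, by
    have : 0 < (L₁ + L₂) / 2 := by linarith
    positivity, ?_⟩
  intro n _ X hNn hX hc hS
  obtain ⟨P, hP⟩ : ∃ P, P = (L₁ + L₂) / 2 := ⟨_, rfl⟩
  rw [← hP] at hc
  have hP0 : 0 < P := by rw [hP]; linarith
  have hPL : L₂ < P := by rw [hP]; linarith
  have hPL' : P < L₁ := by rw [hP]; linarith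
  obtain ⟨c, hcdef⟩ : ∃ c : Fin n → ℝ, c = fun i => √(M.f (X i) * M.f (X (i + 1))) * ‖X (i + 1) - X i‖ :=
    ⟨_, rfl⟩
  have hc0 : ∀ i, 0 ≤ c i := by
    intro i
    rw [hcdef]
    positivity
  have hcd : ∀ i, c i ≤ d * P / 2 := by
    intro i
    rw [hcdef]
    exact hc i
  have hSc : ∑ i, c i ≤ L₂ := by
    rw [hcdef]
    exact hS
  have hS0 : 0 ≤ ∑ i, c i := Finset.sum_nonneg fun i _ => hc0 i
  have hn0 : 0 < (n : ℝ) := by
    have : 0 < n := by omega
    exact_mod_cast this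
  have hnd : 1 / (n : ℝ) ≤ d / 2 := by
    have h1 : (N : ℝ) ≤ n := by exact_mod_cast hNn
    rw [div_le_div_iff₀ hn0 (by norm_num)]
    have h2 : 2 < N * d := by
      rw [div_lt_iff₀ hd] at hN
      exact hN
    nlinarith
  obtain ⟨η, hη⟩ : ∃ η, η = (P - ∑ i, c i) / n := ⟨_, rfl⟩
  have hη0 : 0 < η := by
    rw [hη]
    apply div_pos _ hn0
    linarith
  have hηn : η / P ≤ 1 / n := by
    rw [hη, div_div, div_le_div_iff₀ (by positivity) hn0]
    nlinarith
  have hτ0 : ∀ i, 0 < (c i + η) / P := fun i => by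
    have := hc0 i
    positivity
  refine ⟨fun i => (c i + η) / P, ⟨hτ0, ?_, ?_⟩, ?_⟩
  · intro i
    have h1 : (c i + η) / P = c i / P + η / P := add_div _ _ _
    have h2 : c i / P ≤ d / 2 := by
      rw [div_le_iff₀ hP0]
      have := hcd i
      linarith
    change (c i + η) / P ≤ d
    rw [h1]
    linarith
  · rw [← Finset.sum_div, Finset.sum_add_distrib, Finset.sum_const, Finset.card_univ, Fintype.card_fin,
      nsmul_eq_mul, hη]
    field_simp
    ring
  · have hterm : ∀ i, M.f (X i) * M.f (X (i + 1)) * ‖X (i + 1) - X i‖ ^ 2 / ((c i + η) / P) ≤ P * c i := by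
      intro i
      have hne : ∀ j, X j ≠ 0 := by
        intro j h
        have := hX j
        rw [h, norm_zero] at this
        exact zero_ne_one this
      have hff : 0 ≤ M.f (X i) * M.f (X (i + 1)) :=
        (mul_pos (M.pos _ (hne i)) (M.pos _ (hne (i + 1)))).le
      have h1 : M.f (X i) * M.f (X (i + 1)) * ‖X (i + 1) - X i‖ ^ 2 = c i ^ 2 := by
        rw [hcdef]
        change _ = (√(M.f (X i) * M.f (X (i + 1))) * ‖X (i + 1) - X i‖) ^ 2
        rw [mul_pow, Real.sq_sqrt hff]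
      rw [h1, div_div_eq_mul_div, div_le_iff₀ (by have := hc0 i; positivity)]
      have := hc0 i
      nlinarith [mul_nonneg (mul_nonneg hP0.le this) hη0.le]
    calc En M (fun i => (c i + η) / P) X ≤ ∑ i, P * c i := Finset.sum_le_sum fun i _ => hterm i
      _ = P * ∑ i, c i := by rw [Finset.mul_sum]
      _ ≤ P * L₂ := by gcongr
      _ < L₁ ^ 2 := by nlinarith

end CGA
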