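import Pool.Agent.CGA.BDefs
import Pool.Agent.CGA.ANrm

/-! PROJECT CGA, chunk B, module BStp.

The projected step.  |X i + v i|^2 = 1 + |v i|^2 >= 1 for v i ⟂ X i, so X i + v i ≠ 0 and nrm has norm 1;
|nrm(X i + v i) - (X i + v i)| = |X i + v i| - 1 = sqrt(1+|v i|^2) - 1 <= |v i|^2 <= (sup norm)^2.
Continuity: nrm is continuous off 0 (continuousOn_nrm), continuousOn_pi.
-/

set_option linter.all false

namespace CGA

open scoped RealInnerProductSpace Real Topology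
open MeasureTheory Set Filter

theorem stp_zero {n : ℕ} {X : Fin n → E} (hX : ∀ i, ‖X i‖ = 1) : stp X 0 = X := by
  funext i
  show nrm (X i + (0 : Fin n → E) i) = X i
  rw [Pi.zero_apply, add_zero, nrm_of_unit (hX i)]

private theorem BStp_sq {x v : E} (hx : ‖x‖ = 1) (hv : ⟪x, v⟫ = 0) :
    ‖x + v‖ ^ 2 = 1 + ‖v‖ ^ 2 := by
  rw [norm_add_sq_real, hx, hv]
  ring

private theorem BStp_ge {x v : E} (hx : ‖x‖ = 1) (hv : ⟪x, v⟫ = 0) : 1 ≤ ‖x + v‖ := by
  have h := BStp_sq hx hv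
  nlinarith [norm_nonneg (x + v), sq_nonneg ‖v‖]

private theorem BStp_ne {x v : E} (hx : ‖x‖ = 1) (hv : ⟪x, v⟫ = 0) : x + v ≠ 0 := by
  intro h
  have h1 := BStp_ge hx hv
  rw [h, norm_zero] at h1
  linarith

theorem stp_unit {n : ℕ} {X v : Fin n → E} (hX : ∀ i, ‖X i‖ = 1)
    (hv : ∀ i, ⟪X i, v i⟫ = 0) (i : Fin n) : ‖stp X v i‖ = 1 :=
  norm_nrm (BStp_ne (hX i) (hv i))

theorem stp_near {n : ℕ} {X v : Fin n → E} (hX : ∀ i, ‖X i‖ = 1)
    (hv : ∀ i, ⟪X i, v i⟫ = 0) : ‖stp X v - X - v‖ ≤ ‖v‖ ^ 2 := by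
  rw [pi_norm_le_iff_of_nonneg (by positivity)]
  intro i
  have h1 : (stp X v - X - v) i = nrm (X i + v i) - (X i + v i) := by
    show nrm (X i + v i) - X i - v i = _
    abel
  have h2 : nrm (X i + v i) - (X i + v i) = (1 - ‖X i + v i‖) • nrm (X i + v i) := by
    rw [sub_smul, one_smul, smul_nrm]
  have h3 := BStp_ge (hX i) (hv i)
  have h4 := BStp_sq (hX i) (hv i)
  have h5 : ‖v i‖ ≤ ‖v‖ := norm_le_pi_norm v i
  rw [h1, h2, norm_smul, norm_nrm (BStp_ne (hX i) (hv i)), mul_one, Real.norm_eq_abs, abs_sub_comm,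
    abs_of_nonneg (by linarith)]
  nlinarith [norm_nonneg (v i), norm_nonneg (X i + v i)]

theorem stp_contOn (n : ℕ) : ContinuousOn (fun p : (Fin n → E) × (Fin n → E) => stp p.1 p.2)
    {p | (∀ i, ‖p.1 i‖ = 1) ∧ ∀ i, ⟪p.1 i, p.2 i⟫ = 0} := by
  rw [continuousOn_pi]
  intro i
  have h1 : Continuous (fun p : (Fin n → E) × (Fin n → E) => p.1 i + p.2 i) :=
    ((continuous_apply i).comp continuous_fst).add ((continuous_apply i).comp continuous_snd)
  exact continuousOn_nrm.comp h1.continuousOn fun p hp => BStp_ne (hp.1 i) (hp.2 i)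

end CGA
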