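import Pool.Agent.CGA.BDefs

/-! PROJECT CGA, chunk B, module BUd.

Uniform differentiability on compact sets.
Proof.  For x0 in K: ContDiffAt of order 1 gives HasStrictFDerivAt Phi (fderiv Phi x0) x0
(`ContDiffAt.hasStrictFDerivAt`) and continuity of fderiv Phi at x0.  So there is r(x0) > 0 such that
for y, z in ball x0 r(x0): y in U, |Phi z - Phi y - Phi'(x0)(z - y)| <= (eps/2)|z - y| and
norm(Phi'(y) - Phi'(x0)) <= eps/2; hence |Phi z - Phi y - Phi'(y)(z-y)| <= eps |z-y|.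
Cover K by finitely many balls ball x0 (r(x0)/2) (`IsCompact.elim_nhds_subcover` or `IsCompact.induction_on`,
or `lebesgue_number_lemma_of_metric`) and take eta < half of all radii.
-/

set_option linter.all false

namespace CGA

open scoped RealInnerProductSpace Real Topology
open MeasureTheory Set Filter

theorem unif_diff {F : Type*} [NormedAddCommGroup F] [NormedSpace ℝ F] {U : Set F}
    (hU : IsOpen U) {Φ : F → ℝ} (hΦ : ContDiffOn ℝ 1 Φ U) {K : Set F} (hK : IsCompact K)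
    (hKU : K ⊆ U) {ε : ℝ} (hε : 0 < ε) :
    ∃ η > 0, ∀ x ∈ K, ∀ v, ‖v‖ ≤ η → x + v ∈ U ∧
      |Φ (x + v) - Φ x - fderiv ℝ Φ x v| ≤ ε * ‖v‖ := by
  have hcont : ContinuousOn (fderiv ℝ Φ) U := hΦ.continuousOn_fderiv_of_isOpen hU le_rfl
  refine hK.induction_on (p := fun s => ∃ η > 0, ∀ x ∈ s, ∀ v, ‖v‖ ≤ η → x + v ∈ U ∧
      |Φ (x + v) - Φ x - fderiv ℝ Φ x v| ≤ ε * ‖v‖) ?_ ?_ ?_ ?_
  · exact ⟨1, one_pos, fun x hx => absurd hx (notMem_empty x)⟩
  · rintro s t hst ⟨η, hη, h⟩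
    exact ⟨η, hη, fun x hx => h x (hst hx)⟩
  · rintro s t ⟨η, hη, h⟩ ⟨η', hη', h'⟩
    refine ⟨min η η', lt_min hη hη', ?_⟩
    rintro x (hx | hx) v hv
    · exact h x hx v (hv.trans (min_le_left _ _))
    · exact h' x hx v (hv.trans (min_le_right _ _))
  · intro x₀ hx₀
    have hx₀U : x₀ ∈ U := hKU hx₀
    have h1 : HasStrictFDerivAt Φ (fderiv ℝ Φ x₀) x₀ :=
      (hΦ.contDiffAt (hU.mem_nhds hx₀U)).hasStrictFDerivAt (by norm_num)
    have h2 := h1.isLittleO.def (half_pos hε)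
    rw [Metric.eventually_nhds_iff] at h2
    obtain ⟨r₁, hr₁, h2⟩ := h2
    have h3 : ∀ᶠ y in 𝓝 x₀, dist (fderiv ℝ Φ y) (fderiv ℝ Φ x₀) < ε / 2 :=
      (hcont.continuousAt (hU.mem_nhds hx₀U)).eventually (Metric.ball_mem_nhds _ (half_pos hε))
    rw [Metric.eventually_nhds_iff] at h3
    obtain ⟨r₂, hr₂, h3⟩ := h3
    obtain ⟨r₃, hr₃, h4⟩ := Metric.isOpen_iff.1 hU x₀ hx₀U
    obtain ⟨r, hr, hr1, hr2, hr3⟩ : ∃ r > 0, r ≤ r₁ ∧ r ≤ r₂ ∧ r ≤ r₃ :=
      ⟨min r₁ (min r₂ r₃), lt_min hr₁ (lt_min hr₂ hr₃), min_le_left _ _,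
        (min_le_right _ _).trans (min_le_left _ _), (min_le_right _ _).trans (min_le_right _ _)⟩
    refine ⟨Metric.ball x₀ (r / 2), mem_nhdsWithin_of_mem_nhds
      (Metric.ball_mem_nhds _ (half_pos hr)), r / 4, by positivity, ?_⟩
    intro x hx v hv
    rw [Metric.mem_ball] at hx
    have hxv : dist (x + v) x₀ < r := by
      have := dist_triangle (x + v) x x₀
      have h5 : dist (x + v) x = ‖v‖ := by rw [dist_eq_norm]; congr 1; abel
      rw [h5] at this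
      linarith
    refine ⟨h4 (Metric.mem_ball.2 (hxv.trans_le hr3)), ?_⟩
    have h6 := @h2 (x + v, x) (by
      rw [Prod.dist_eq]
      exact max_lt (hxv.trans_le hr1) (by change dist x x₀ < r₁; linarith))
    have h7 := @h3 x (by linarith)
    have h8 : Φ (x + v) - Φ x - fderiv ℝ Φ x v =
        (Φ (x + v) - Φ x - fderiv ℝ Φ x₀ v) - (fderiv ℝ Φ x - fderiv ℝ Φ x₀) v := by
      rw [_root_.sub_apply]
      ring
    have h9 : ‖(fderiv ℝ Φ x - fderiv ℝ Φ x₀) v‖ ≤ ε / 2 * ‖v‖ := by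
      refine (ContinuousLinearMap.le_opNorm _ _).trans
        (mul_le_mul_of_nonneg_right ?_ (norm_nonneg _))
      rw [← dist_eq_norm]
      exact h7.le
    simp only [add_sub_cancel_left] at h6
    rw [h8, ← Real.norm_eq_abs]
    calc ‖(Φ (x + v) - Φ x - fderiv ℝ Φ x₀ v) - (fderiv ℝ Φ x - fderiv ℝ Φ x₀) v‖
        ≤ ‖Φ (x + v) - Φ x - fderiv ℝ Φ x₀ v‖ + ‖(fderiv ℝ Φ x - fderiv ℝ Φ x₀) v‖ :=
          norm_sub_le _ _
      _ ≤ ε / 2 * ‖v‖ + ε / 2 * ‖v‖ := add_le_add h6 h9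
      _ = ε * ‖v‖ := by ring

end CGA
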