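import Pool.Agent.CGA.BKc
import Pool.Agent.CGA.BStp
import Pool.Agent.CGA.BUd

/-! PROJECT CGA, chunk B, module BEs.

First order estimate of a projected step, uniform.
Let K = unit tuples (compact, contained in the open set U = {all X i ≠ 0}).  fderiv of En is continuous on U
(En_contDiffOn, order 1, U open), so norm(fderiv En X) <= D on K.  Take eta0 from unif_diff with eps' = eps/8 and
eta = min(1, eta0/2, eps/(4(D+1))).  For |v| <= eta let v' = stp X v - X; by stp_near |v' - v| <= |v|^2 <= |v|,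
so |v'| <= 2|v| <= eta0, and En(X + v') <= En X + fderiv En X v' + eps'|v'|
 <= En X + fderiv En X v + D |v|^2 + 2 eps' |v| <= En X + sum <GrC, v> + eps |v|.
(n = 0 does not occur: NeZero n.)
-/

set_option linter.all false

namespace CGA

open scoped RealInnerProductSpace Real Topology
open MeasureTheory Set Filter

theorem En_stp (M : Met) {n : ℕ} [NeZero n] (τ : Fin n → ℝ) {ε : ℝ} (hε : 0 < ε) :
    ∃ η > 0, ∀ X v : Fin n → E, (∀ i, ‖X i‖ = 1) → (∀ i, ⟪X i, v i⟫ = 0) → ‖v‖ ≤ η →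
      En M τ (stp X v) ≤ En M τ X + ∑ i, ⟪GrC M τ X i, v i⟫ + ε * ‖v‖ := by
  have hU := isOpen_ne0 n
  have hcd := En_contDiffOn M τ
  have hK := UT_compact n
  have hKU : {X : Fin n → E | ∀ i, ‖X i‖ = 1} ⊆ {X | ∀ i, X i ≠ 0} := fun X hX i =>
    unit_ne0 hX i
  have hfc : ContinuousOn (fderiv ℝ (En M τ)) {X : Fin n → E | ∀ i, X i ≠ 0} :=
    hcd.continuousOn_fderiv_of_isOpen hU le_rfl
  obtain ⟨D0, hD0⟩ := hK.exists_bound_of_continuousOn (hfc.mono hKU)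
  obtain ⟨D, hDpos, hD⟩ : ∃ D : ℝ, 0 ≤ D ∧ ∀ X : Fin n → E, (∀ i, ‖X i‖ = 1) →
      ‖fderiv ℝ (En M τ) X‖ ≤ D :=
    ⟨max D0 0, le_max_right _ _, fun X hX => (hD0 X hX).trans (le_max_left _ _)⟩
  obtain ⟨η0, hη0, hη⟩ := unif_diff hU hcd hK hKU (ε := ε / 8) (by positivity)
  refine ⟨min 1 (min (η0 / 2) (ε / (4 * (D + 1)))), by positivity, ?_⟩
  intro X v hX hv hvn
  have hv1 : ‖v‖ ≤ 1 := hvn.trans (min_le_left _ _)
  have hv2 : ‖v‖ ≤ η0 / 2 := hvn.trans ((min_le_right _ _).trans (min_le_left _ _))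
  have hv3 : ‖v‖ ≤ ε / (4 * (D + 1)) := hvn.trans ((min_le_right _ _).trans (min_le_right _ _))
  have hv0 := norm_nonneg v
  have hnear := stp_near hX hv
  obtain ⟨w, hw⟩ : ∃ w, w = stp X v - X := ⟨_, rfl⟩
  rw [← hw] at hnear
  have hwn : ‖w‖ ≤ 2 * ‖v‖ := by
    have h1 : ‖w‖ ≤ ‖w - v‖ + ‖v‖ := by
      have := norm_add_le (w - v) v
      rwa [sub_add_cancel] at this
    nlinarith
  obtain ⟨-, h2⟩ := hη X hX w (by linarith)
  have h3 : X + w = stp X v := by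
    rw [hw]
    abel
  rw [h3] at h2
  have h4 : fderiv ℝ (En M τ) X w = fderiv ℝ (En M τ) X v + fderiv ℝ (En M τ) X (w - v) := by
    rw [← map_add]
    congr 1
    abel
  have h5 : fderiv ℝ (En M τ) X (w - v) ≤ D * ‖v‖ ^ 2 := by
    refine (le_abs_self _).trans ?_
    rw [← Real.norm_eq_abs]
    refine ((fderiv ℝ (En M τ) X).le_opNorm _).trans ?_
    exact mul_le_mul (hD X hX) hnear (norm_nonneg _) hDpos
  have h6 : D * ‖v‖ ^ 2 ≤ ε / 4 * ‖v‖ := by
    have h7 : D * ‖v‖ ≤ ε / 4 := by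
      have h8 : D * ‖v‖ ≤ D * (ε / (4 * (D + 1))) := mul_le_mul_of_nonneg_left hv3 hDpos
      have h9 : D * (ε / (4 * (D + 1))) ≤ ε / 4 := by
        rw [mul_div_assoc', div_le_div_iff₀ (by positivity) (by norm_num)]
        nlinarith
      linarith
    calc D * ‖v‖ ^ 2 = (D * ‖v‖) * ‖v‖ := by ring
      _ ≤ ε / 4 * ‖v‖ := mul_le_mul_of_nonneg_right h7 hv0
  have h10 := En_fderiv M τ (fun i => unit_ne0 hX i) v
  have h11 := (abs_le.1 h2).2
  have h12 : ε / 8 * ‖w‖ ≤ ε / 4 * ‖v‖ := by nlinarith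
  have h13 : 0 ≤ ε * ‖v‖ := by positivity
  nlinarith

end CGA
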