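import Pool.Agent.CGA.BVf
import Pool.Agent.CGA.BEs

/-! PROJECT CGA, chunk B, module BDe.

Energy decreasing deformation.  Let g from VF_lower (with e/2), C from VF_bound, eta0 from En_stp with
eps' = g/(2C), and eta = min(eta0/C, eps/(2C), 1/(C), ...) > 0 so that eta*C <= eta0 and
eta*C + (eta*C)^2 <= eps.  chi(t) = max 0 (min 1 (2t/e - 1)): continuous, in [0,1], 0 for t <= e/2, 1 for t >= e.
H s X := stp X ((s * eta * chi(En X)) • VF X).
 cont: stp_contOn, VF_cont, En_contOn'.  zero: stp_zero.  unit: stp_unit, VF_tan.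
 le: with c = s*eta*chi(En X) >= 0: if chi = 0 then H s X = X.  Otherwise e/2 < En X and
   En(H s X) <= En X + c * sum <GrC, VF> + eps' * c * |VF| <= En X - c g + c g/2 <= En X   (VF_inner, VF_lower).
 dec: for s = 1 and En X >= e: c = eta, so the decrease is at least eta*g/2 =: g of the structure.
 close: |H 1 X - X| <= |v| + |v|^2 (stp_near), |v| <= eta*C.
-/

set_option linter.all false

namespace CGA

open scoped RealInnerProductSpace Real Topology
open MeasureTheory Set Filter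

private theorem BDe_chi {e : ℝ} (he : 0 < e) : ∃ χ : ℝ → ℝ, Continuous χ ∧
    (∀ t, 0 ≤ χ t) ∧ (∀ t, χ t ≤ 1) ∧ (∀ t, χ t ≠ 0 → e / 2 ≤ t) ∧ ∀ t, e ≤ t → χ t = 1 := by
  refine ⟨fun t => max 0 (min 1 (2 * t / e - 1)), by fun_prop, fun t => le_max_left _ _,
    fun t => max_le zero_le_one (min_le_left _ _), ?_, ?_⟩
  · intro t ht
    by_contra hlt
    push Not at hlt
    apply ht
    have h1 : 2 * t / e - 1 ≤ 0 := by
      have : 2 * t / e ≤ 1 := by
        rw [div_le_one he]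
        linarith
      linarith
    exact max_eq_left ((min_le_right _ _).trans h1)
  · intro t ht
    have h1 : 1 ≤ 2 * t / e - 1 := by
      have : 2 ≤ 2 * t / e := by
        rw [le_div_iff₀ he]
        linarith
      linarith
    show max 0 (min 1 (2 * t / e - 1)) = 1
    rw [min_eq_left h1, max_eq_right zero_le_one]

theorem desc_exists (M : Met) {n : ℕ} [NeZero n] (τ : Fin n → ℝ) {A e : ℝ} (he : 0 < e)
    (hcr : ∀ X : Fin n → E, (∀ i, ‖X i‖ = 1) → e / 2 ≤ En M τ X → En M τ X ≤ A →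
      ∃ i v, ⟪X i, v⟫ = 0 ∧ ⟪GrC M τ X i, v⟫ ≠ 0) {ε : ℝ} (hε : 0 < ε) :
    Nonempty (Desc M τ A e ε) := by
  obtain ⟨g, hg0, hg⟩ := VF_lower M τ (A := A) (e := e / 2) hcr
  obtain ⟨C, hC0, hC⟩ := VF_bound M τ
  obtain ⟨η0, hη0, hη⟩ := En_stp M τ (ε := g / (2 * C)) (by positivity)
  obtain ⟨χ, hχc, hχ0, hχ1, hχe, hχE⟩ := BDe_chi he
  obtain ⟨η, hηpos, hη1, hη2, hη3⟩ : ∃ η : ℝ, 0 < η ∧ η * C ≤ η0 ∧ η * C ≤ ε / 2 ∧ η * C ≤ 1 := by
    refine ⟨min (η0 / C) (min (ε / 2 / C) (1 / C)), by positivity, ?_, ?_, ?_⟩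
    · rw [← le_div_iff₀ hC0]
      exact min_le_left _ _
    · rw [← le_div_iff₀ hC0]
      exact (min_le_right _ _).trans (min_le_left _ _)
    · rw [← le_div_iff₀ hC0]
      exact (min_le_right _ _).trans (min_le_right _ _)
  obtain ⟨c, hc⟩ : ∃ c : ℝ → (Fin n → E) → ℝ, ∀ s X, c s X = s * η * χ (En M τ X) :=
    ⟨_, fun _ _ => rfl⟩
  have hc0 : ∀ s ∈ Icc (0:ℝ) 1, ∀ X, 0 ≤ c s X := by
    intro s hs X
    rw [hc]
    exact mul_nonneg (mul_nonneg hs.1 hηpos.le) (hχ0 _)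
  have hcη : ∀ s ∈ Icc (0:ℝ) 1, ∀ X, c s X ≤ η := by
    intro s hs X
    rw [hc]
    have h1 : s * η ≤ η := by nlinarith [hs.2]
    have h2 : s * η * χ (En M τ X) ≤ s * η * 1 :=
      mul_le_mul_of_nonneg_left (hχ1 _) (mul_nonneg hs.1 hηpos.le)
    linarith
  have htan : ∀ s X, (∀ i, ‖X i‖ = 1) → ∀ i, ⟪X i, (c s X • VF M τ X) i⟫ = 0 := by
    intro s X hX i
    rw [Pi.smul_apply, inner_smul_right, VF_tan M τ hX i, mul_zero]
  have hnorm : ∀ s ∈ Icc (0:ℝ) 1, ∀ X, (∀ i, ‖X i‖ = 1) → ‖c s X • VF M τ X‖ ≤ η * C := by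
    intro s hs X hX
    rw [norm_smul, Real.norm_of_nonneg (hc0 s hs X)]
    exact mul_le_mul (hcη s hs X) (hC X hX) (norm_nonneg _) hηpos.le
  have hdec : ∀ s ∈ Icc (0:ℝ) 1, ∀ X ∈ KE M τ A,
      En M τ (stp X (c s X • VF M τ X)) ≤ En M τ X - c s X * (g / 2) := by
    intro s hs X hX
    have hu := hX.1
    by_cases h0 : χ (En M τ X) = 0
    · have h1 : c s X = 0 := by rw [hc, h0, mul_zero]
      rw [h1, zero_smul, stp_zero hu, zero_mul, sub_zero]
    · have h2 := hη X (c s X • VF M τ X) hu (htan s X hu) ((hnorm s hs X hu).trans hη1)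
      have h3 : ∑ i, ⟪GrC M τ X i, (c s X • VF M τ X) i⟫ = - (c s X * ∑ i, ‖VF M τ X i‖ ^ 2) := by
        have h4 : ∀ i, ⟪GrC M τ X i, (c s X • VF M τ X) i⟫ = c s X * ⟪GrC M τ X i, VF M τ X i⟫ := by
          intro i
          rw [Pi.smul_apply, inner_smul_right]
        simp only [h4]
        rw [← Finset.mul_sum, VF_inner M τ hu, mul_neg]
      have h5 := hg X hX (hχe _ h0)
      have h6 : g / (2 * C) * ‖c s X • VF M τ X‖ ≤ c s X * (g / 2) := by
        rw [norm_smul, Real.norm_of_nonneg (hc0 s hs X)]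
        have h7 : c s X * ‖VF M τ X‖ ≤ c s X * C :=
          mul_le_mul_of_nonneg_left (hC X hu) (hc0 s hs X)
        calc g / (2 * C) * (c s X * ‖VF M τ X‖) ≤ g / (2 * C) * (c s X * C) :=
              mul_le_mul_of_nonneg_left h7 (by positivity)
          _ = c s X * (g / 2) := by
              field_simp
      have h8 : c s X * g ≤ c s X * ∑ i, ‖VF M τ X i‖ ^ 2 :=
        mul_le_mul_of_nonneg_left h5 (hc0 s hs X)
      rw [h3] at h2
      linarith
  refine ⟨⟨fun s X => stp X (c s X • VF M τ X), ?_, ?_, ?_, ?_, ?_, η * (g / 2), by positivity, ?_⟩⟩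
  · have h2 : ContinuousOn (fun p : ℝ × (Fin n → E) => c p.1 p.2) (Icc 0 1 ×ˢ KE M τ A) := by
      have h2 : (fun p : ℝ × (Fin n → E) => c p.1 p.2) =
            fun p => p.1 * η * χ (En M τ p.2) := by
        funext p
        rw [hc]
      rw [h2]
      have h6 : ContinuousOn (fun p : ℝ × (Fin n → E) => En M τ p.2) (Icc 0 1 ×ˢ KE M τ A) :=
        (En_contOn' M τ).comp continuousOn_snd fun p hp => hp.2.1
      exact (continuousOn_fst.mul continuousOn_const).mul (hχc.comp_continuousOn h6)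
    have h3 : ContinuousOn (fun p : ℝ × (Fin n → E) => VF M τ p.2) (Icc 0 1 ×ˢ KE M τ A) :=
      (VF_cont M τ).comp continuousOn_snd fun p hp => hp.2.1
    have h4 : ContinuousOn (fun p : ℝ × (Fin n → E) => c p.1 p.2 • VF M τ p.2)
        (Icc 0 1 ×ˢ KE M τ A) := h2.smul h3
    have h1 : ContinuousOn (fun p : ℝ × (Fin n → E) => (p.2, c p.1 p.2 • VF M τ p.2))
        (Icc 0 1 ×ˢ KE M τ A) := continuousOn_snd.prodMk h4
    have hmaps : MapsTo (fun p : ℝ × (Fin n → E) => (p.2, c p.1 p.2 • VF M τ p.2))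
        (Icc 0 1 ×ˢ KE M τ A)
        {p : (Fin n → E) × (Fin n → E) | (∀ i, ‖p.1 i‖ = 1) ∧ ∀ i, ⟪p.1 i, p.2 i⟫ = 0} := by
      intro p hp
      have hu : ∀ i, ‖p.2 i‖ = 1 := hp.2.1
      exact And.intro hu (htan p.1 p.2 hu)
    have h5 := ContinuousOn.comp (stp_contOn n) h1 hmaps
    exact h5
  · intro X hX
    show stp X (c 0 X • VF M τ X) = X
    rw [hc, zero_mul, zero_mul, zero_smul, stp_zero hX.1]
  · intro s hs X hX i
    exact stp_unit hX.1 (htan s X hX.1) i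
  · intro s hs X hX
    have h1 := hdec s hs X hX
    have h2 := hc0 s hs X
    have h3 : 0 ≤ c s X * (g / 2) := by positivity
    show En M τ (stp X (c s X • VF M τ X)) ≤ En M τ X
    linarith
  · intro X hX
    show ‖stp X (c 1 X • VF M τ X) - X‖ ≤ ε
    have h1 := stp_near hX.1 (htan 1 X hX.1)
    have h2 := hnorm 1 (by simp) X hX.1
    have h3 : ‖stp X (c 1 X • VF M τ X) - X‖ ≤
        ‖stp X (c 1 X • VF M τ X) - X - c 1 X • VF M τ X‖ + ‖c 1 X • VF M τ X‖ := by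
      have := norm_add_le (stp X (c 1 X • VF M τ X) - X - c 1 X • VF M τ X) (c 1 X • VF M τ X)
      rwa [sub_add_cancel] at this
    have h4 := norm_nonneg (c 1 X • VF M τ X)
    have h5 : ‖c 1 X • VF M τ X‖ ^ 2 ≤ η * C := by nlinarith
    linarith
  · intro X hX hXe
    have h1 := hdec 1 (by simp) X hX
    have h2 : c 1 X = η := by
      rw [hc, hχE _ hXe, one_mul, mul_one]
    show En M τ (stp X (c 1 X • VF M τ X)) ≤ En M τ X - η * (g / 2)
    rwa [h2] at h1 ⊢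

end CGA
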