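import Pool.Agent.CGA.Defs

/-! # PROJECT CGA, chunk B: definitions -/

set_option linter.all false

namespace CGA

open scoped RealInnerProductSpace Real Topology
open MeasureTheory Set Filter

noncomputable section

/-- unit tuples of energy at most `A` -/
def KE (M : Met) {n : ℕ} [NeZero n] (τ : Fin n → ℝ) (A : ℝ) : Set (Fin n → E) :=
  {X | (∀ i, ‖X i‖ = 1) ∧ En M τ X ≤ A}

/-- tangential part of the negative gradient of the energy -/
def VF (M : Met) {n : ℕ} [NeZero n] (τ : Fin n → ℝ) (X : Fin n → E) : Fin n → E :=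
  fun i => ⟪X i, GrC M τ X i⟫ • X i - GrC M τ X i

/-- one step: move every vertex by `v` and project back to the sphere -/
def stp {n : ℕ} (X v : Fin n → E) : Fin n → E := fun i => nrm (X i + v i)

/-- energy decreasing deformation of the set of unit tuples of energy at most `A`; `e > 0`
is the energy below which nothing is required -/
structure Desc (M : Met) {n : ℕ} [NeZero n] (τ : Fin n → ℝ) (A e ε : ℝ) where
  H : ℝ → (Fin n → E) → (Fin n → E)
  cont : ContinuousOn (fun p : ℝ × (Fin n → E) => H p.1 p.2) (Icc 0 1 ×ˢ KE M τ A)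
  zero : ∀ X ∈ KE M τ A, H 0 X = X
  unit : ∀ s ∈ Icc (0:ℝ) 1, ∀ X ∈ KE M τ A, ∀ i, ‖H s X i‖ = 1
  le : ∀ s ∈ Icc (0:ℝ) 1, ∀ X ∈ KE M τ A, En M τ (H s X) ≤ En M τ X
  close : ∀ X ∈ KE M τ A, ‖H 1 X - X‖ ≤ ε
  g : ℝ
  gpos : 0 < g
  dec : ∀ X ∈ KE M τ A, e ≤ En M τ X → En M τ (H 1 X) ≤ En M τ X - g

/-- `J` is a lift of the holonomy at `X` -/
def IsL {n : ℕ} (J : (Fin n → E) → ℝ) (X : Fin n → E) : Prop :=
  Complex.exp (2 * π * Complex.I * (J X : ℂ)) * (‖Bg (List.ofFn X)‖ : ℂ) = Bg (List.ofFn X)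

/-- continuous lift of the holonomy on the unit tuples of energy at most `A`, small where the
energy is less than `e` -/
structure JL (M : Met) {n : ℕ} [NeZero n] (τ : Fin n → ℝ) (A e : ℝ) where
  J : (Fin n → E) → ℝ
  cont : ContinuousOn J (KE M τ A)
  hol : ∀ X ∈ KE M τ A, IsL J X
  low : ∀ X ∈ KE M τ A, En M τ X < e → |J X| < 1 / 8

/-- admissible time steps -/
structure Adm (d : ℝ) {n : ℕ} (τ : Fin n → ℝ) : Prop where
  pos : ∀ i, 0 < τ i
  le : ∀ i, τ i ≤ d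
  sum : ∑ i, τ i = 1

/-- The constants of chunk B: `A` = energy bound, `e` = low energy, `d` = bound of the time
steps. -/
structure BC (M : Met) (A e d : ℝ) : Prop where
  Apos : 0 < A
  epos : 0 < e
  dpos : 0 < d
  desc : ∀ (n : ℕ) [NeZero n] (τ : Fin n → ℝ), Adm d τ → ∀ ε > 0, Nonempty (Desc M τ A (e / 2) ε)
  nz : ∀ (n : ℕ) [NeZero n] (τ : Fin n → ℝ), Adm d τ → ∀ X ∈ KE M τ A, Bg (List.ofFn X) ≠ 0
  low : ∀ (n : ℕ) [NeZero n] (τ : Fin n → ℝ), Adm d τ → ∀ X ∈ KE M τ A, En M τ X < e →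
    |(Bg (List.ofFn X)).arg| < π / 4

/-- A function on tuples with the properties of the lift, independent of the time steps. -/
structure IT (M : Met) (A e d : ℝ) where
  J : ∀ n : ℕ, (Fin n → E) → ℝ
  cont : ∀ (n : ℕ) [NeZero n] (τ : Fin n → ℝ), Adm d τ → ∀ B < A, ContinuousOn (J n) (KE M τ B)
  hol : ∀ (n : ℕ) [NeZero n] (τ : Fin n → ℝ), Adm d τ → ∀ B < A, ∀ X ∈ KE M τ B, IsL (J n) X
  low : ∀ (n : ℕ) [NeZero n] (τ : Fin n → ℝ), Adm d τ → ∀ B < A, ∀ X ∈ KE M τ B, En M τ X < e →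
    |J n X| < 1 / 8

/-- the function on lists given by a function on tuples -/
def onL (J : ∀ n : ℕ, (Fin n → E) → ℝ) (l : List E) : ℝ :=
  J (List.equivSigmaTuple l).1 (List.equivSigmaTuple l).2

/-- domain on lists -/
def DomL (M : Met) (A d : ℝ) (l : List E) : Prop :=
  ∃ (n : ℕ) (_ : NeZero n) (τ : Fin n → ℝ) (X : Fin n → E), l = List.ofFn X ∧ Adm d τ ∧
    (∀ i, ‖X i‖ = 1) ∧ En M τ X < A

end

end CGA
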