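import Pool.Agent.CGA.BTa

/-! PROJECT CGA, chunk B, module BDo.

Domains of the symmetries.
`rot_dom`: tau' i = tau (i+1); Equiv.sum_comp (Equiv.addRight 1).
`rev_dom`: in Fin n (n ≥ 1) i.rev = -1 - i, and (i+1).rev = i.rev - 1.  tau' i = tau (i.rev - 1): the edge i of the reversed polygon goes
 from X (i.rev) to X (i.rev - 1), i.e. it is the edge i.rev - 1 of X backwards.  En: reindex by the bijection i ↦ i.rev - 1
 (norm_sub_rev, commutativity).
`dup_dom`: s = min (1 - 1/c) d  (so 0 < s < 1, 1/(1-s) <= c, s <= d), tau' = Fin.cons s ((1-s) tau): positive, <= d, sum s + (1-s) = 1.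
 En tau' (cons (X 0) X): Fin.sum_univ_succ; the 0-th term has X' 1 - X' 0 = X 0 - X 0 = 0 (X' := Fin.cons (X 0) X; 0 + 1 is
 (0 : Fin n).succ);
 for j : Fin n, X' (j.succ + 1) = X (j + 1) (if j is the last index both are X 0), so the term is (1/(1-s)) times the term j of En tau X.
-/

set_option linter.all false

namespace CGA

open scoped RealInnerProductSpace Real Topology
open MeasureTheory Set Filter

theorem rot_dom (M : Met) {d : ℝ} {n : ℕ} [NeZero n] {τ : Fin n → ℝ} (hτ : Adm d τ) :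
    ∃ τ', Adm d τ' ∧ ∀ X : Fin n → E, En M τ' (fun i => X (i + 1)) = En M τ X := by
  refine ⟨fun i => τ (i + 1), ⟨fun i => hτ.pos _, fun i => hτ.le _, ?_⟩, fun X => ?_⟩
  · exact (Equiv.sum_comp (Equiv.addRight (1 : Fin n)) τ).trans hτ.sum
  · exact Equiv.sum_comp (Equiv.addRight (1 : Fin n))
      (fun i => M.f (X i) * M.f (X (i + 1)) * ‖X (i + 1) - X i‖ ^ 2 / τ i)

theorem rev_dom (M : Met) {d : ℝ} {n : ℕ} [NeZero n] {τ : Fin n → ℝ} (hτ : Adm d τ) :
    ∃ τ', Adm d τ' ∧ ∀ X : Fin n → E, En M τ' (fun i => X i.rev) = En M τ X := by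
  have hrev : ∀ i : Fin n, (i + 1).rev = i.rev - 1 := fun i => Fin.rev_add i 1
  refine ⟨fun i => τ (i.rev - 1), ⟨fun i => hτ.pos _, fun i => hτ.le _, ?_⟩, fun X => ?_⟩
  · exact (Equiv.sum_comp (Fin.revPerm.trans (Equiv.subRight (1 : Fin n))) τ).trans hτ.sum
  · have h1 := Equiv.sum_comp (Fin.revPerm.trans (Equiv.subRight (1 : Fin n)))
      (fun i => M.f (X i) * M.f (X (i + 1)) * ‖X (i + 1) - X i‖ ^ 2 / τ i)
    unfold En
    rw [← h1]
    refine Finset.sum_congr rfl fun i _ => ?_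
    have h2 : (Fin.revPerm.trans (Equiv.subRight (1 : Fin n))) i = i.rev - 1 := rfl
    simp only [h2, sub_add_cancel, hrev i]
    rw [norm_sub_rev (X (i.rev - 1)) (X i.rev),
      mul_comm (M.f (X i.rev)) (M.f (X (i.rev - 1)))]

private theorem BDo_cons {n : ℕ} [NeZero n] (X : Fin n → E) (j : Fin n) :
    (Fin.cons (X 0) X : Fin (n + 1) → E) (j.succ + 1) = X (j + 1) := by
  obtain ⟨m, rfl⟩ := Nat.exists_eq_succ_of_ne_zero (NeZero.ne n)
  induction j using Fin.lastCases with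
  | last =>
    rw [Fin.succ_last, Fin.last_add_one, Fin.cons_zero]
    congr 1
    exact (Fin.last_add_one m).symm
  | cast i =>
    rw [Fin.succ_castSucc, Fin.coeSucc_eq_succ, Fin.cons_succ]
    congr 1
    exact (Fin.coeSucc_eq_succ (a := i)).symm

theorem dup_dom (M : Met) {d : ℝ} (hd : 0 < d) {n : ℕ} [NeZero n] {τ : Fin n → ℝ}
    (hτ : Adm d τ) {c : ℝ} (hc : 1 < c) : ∃ τ' : Fin (n + 1) → ℝ, Adm d τ' ∧
    ∀ X : Fin n → E, (∀ i, ‖X i‖ = 1) →
      En M τ' (Fin.cons (X 0) X : Fin (n + 1) → E) ≤ c * En M τ X := by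
  have hc0 : 0 < c := by linarith
  have hc1 : 1 / c < 1 := by
    rw [div_lt_one hc0]
    exact hc
  obtain ⟨s, hs0, hs1, hsd⟩ : ∃ s : ℝ, 0 < s ∧ s ≤ 1 - 1 / c ∧ s ≤ d :=
    ⟨min (1 - 1 / c) d, lt_min (by linarith) hd, min_le_left _ _, min_le_right _ _⟩
  have hcpos : 0 < 1 / c := by positivity
  have hs2 : 0 < 1 - s := by linarith
  refine ⟨Fin.cons s (fun j => (1 - s) * τ j), ⟨?_, ?_, ?_⟩, ?_⟩
  · intro i
    refine Fin.cases ?_ (fun j => ?_) i
    · rw [Fin.cons_zero]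
      exact hs0
    · rw [Fin.cons_succ]
      exact mul_pos hs2 (hτ.pos j)
  · intro i
    refine Fin.cases ?_ (fun j => ?_) i
    · rw [Fin.cons_zero]
      exact hsd
    · rw [Fin.cons_succ]
      have h1 := hτ.pos j
      have h2 := hτ.le j
      nlinarith
  · rw [Fin.sum_univ_succ, Fin.cons_zero]
    simp only [Fin.cons_succ]
    rw [← Finset.mul_sum, hτ.sum]
    ring
  · intro X hX
    unfold En
    rw [Fin.sum_univ_succ]
    have h0 : (Fin.cons (X 0) X : Fin (n + 1) → E) (0 + 1) = X 0 := by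
      have h1 : (0 + 1 : Fin (n + 1)) = (0 : Fin n).succ := by
        rw [zero_add, Fin.succ_zero_eq_one']
      rw [h1, Fin.cons_succ]
    rw [h0, Fin.cons_zero, sub_self, norm_zero]
    have hterm : ∀ j : Fin n, M.f ((Fin.cons (X 0) X : Fin (n + 1) → E) j.succ) *
        M.f ((Fin.cons (X 0) X : Fin (n + 1) → E) (j.succ + 1)) *
        ‖(Fin.cons (X 0) X : Fin (n + 1) → E) (j.succ + 1) -
          (Fin.cons (X 0) X : Fin (n + 1) → E) j.succ‖ ^ 2 /
        (Fin.cons s (fun j => (1 - s) * τ j) : Fin (n + 1) → ℝ) j.succ =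
        (1 - s)⁻¹ * (M.f (X j) * M.f (X (j + 1)) * ‖X (j + 1) - X j‖ ^ 2 / τ j) := by
      intro j
      rw [BDo_cons X j, Fin.cons_succ, Fin.cons_succ]
      have h1 := (hτ.pos j).ne'
      have h2 := hs2.ne'
      field_simp
    rw [Finset.sum_congr rfl fun j _ => hterm j, ← Finset.mul_sum]
    have hE := En_nonneg M hτ.pos hX
    unfold En at hE
    have h3 : (1 - s)⁻¹ ≤ c := by
      rw [inv_le_comm₀ hs2 hc0, ← one_div]
      linarith
    have h4 := mul_le_mul_of_nonneg_right h3 hE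
    have h5 : ∀ u : ℝ, M.f (X 0) * M.f (X 0) * (0 : ℝ) ^ 2 / u = 0 := fun u => by ring
    rw [h5, zero_add]
    exact h4

end CGA
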