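import Pool.Agent.CGA.BDefs
import Pool.Agent.CGA.AMet

/-! PROJECT CGA, chunk B, module BEn.

Smoothness and derivative of the energy.
`En_contDiffOn`: every term f(X i) f(X (i+1)) |X (i+1) - X i|^2 / tau i is C^1 on {X i ≠ 0 for all i}:
M.smooth composed with the evaluations (ContDiffOn.comp), norm_sq is smooth.
`En_fderiv`: on this open set f is differentiable with gradient `gradient M.f` (`Met.hasGradientAt`).  The
derivative of the i-th term in direction V is
 [<grad f(X i), V i> f(X (i+1)) + f(X i) <grad f(X (i+1)), V (i+1)>] |X (i+1) - X i|^2 / tau i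
   + f(X i) f(X (i+1)) 2 <X (i+1) - X i, V (i+1) - V i> / tau i.
Sum over i and shift the index in the terms with V (i+1) by `Equiv.sum_comp (Equiv.addRight 1)`
(so i + 1 becomes i and i becomes i - 1; (i - 1) + 1 = i); compare with the definition of GrC
(GrC = 2 (MomC (i-1) - MomC i) + (...) grad f(X i)).
A convenient way: show HasFDerivAt (En M tau) (sum of ContinuousLinearMap) X, or restrict to the line
t ↦ X + t V (HasDerivAt) and use (HasFDerivAt.comp_hasDerivAt) with uniqueness of derivatives.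
-/

set_option linter.all false

namespace CGA

open scoped RealInnerProductSpace Real Topology
open MeasureTheory Set Filter

theorem isOpen_ne0 (n : ℕ) : IsOpen {X : Fin n → E | ∀ i, X i ≠ 0} := by
  have h : {X : Fin n → E | ∀ i, X i ≠ 0} = ⋂ i, {X : Fin n → E | X i ≠ 0} := by
    ext X
    simp
  rw [h]
  exact isOpen_iInter_of_finite fun i => isOpen_ne.preimage (continuous_apply i)

theorem En_contDiffOn (M : Met) {n : ℕ} [NeZero n] (τ : Fin n → ℝ) :
    ContDiffOn ℝ 1 (En M τ) {X | ∀ i, X i ≠ 0} := by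
  have hf : ContDiffOn ℝ 1 M.f {0}ᶜ := M.smooth.of_le (by norm_num)
  have h1 : ∀ i : Fin n, ContDiffOn ℝ 1 (fun X : Fin n → E => M.f (X i)) {X | ∀ i, X i ≠ 0} := by
    intro i
    exact hf.comp (contDiff_apply ℝ E i).contDiffOn fun X hX => hX i
  unfold En
  refine ContDiffOn.sum fun i _ => ?_
  refine ContDiffOn.div_const (((h1 i).mul (h1 (i + 1))).mul ?_) _
  exact (((contDiff_apply ℝ E (i + 1)).sub (contDiff_apply ℝ E i)).norm_sq ℝ).contDiffOn

theorem En_fderiv (M : Met) {n : ℕ} [NeZero n] (τ : Fin n → ℝ) {X : Fin n → E}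
    (hX : ∀ i, X i ≠ 0) (V : Fin n → E) :
    fderiv ℝ (En M τ) X V = ∑ i, ⟪GrC M τ X i, V i⟫ := by
  have hd : DifferentiableAt ℝ (En M τ) X :=
    ((En_contDiffOn M τ).contDiffAt ((isOpen_ne0 n).mem_nhds hX)).differentiableAt (by norm_num)
  obtain ⟨L, hL⟩ : ∃ L : ℝ → Fin n → E, L = fun t => X + t • V := ⟨_, rfl⟩
  have hL0 : L 0 = X := by rw [hL]; simp
  have hLd : HasDerivAt L V 0 := by
    rw [hL]
    simpa using ((hasDerivAt_id (0 : ℝ)).smul_const V).const_add X
  have hLi : ∀ i, HasDerivAt (fun t => L t i) (V i) 0 := fun i => (hasDerivAt_pi.1 hLd) i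
  have h1 : HasDerivAt (fun t => En M τ (L t)) (fderiv ℝ (En M τ) X V) 0 := by
    have h2 : HasFDerivAt (En M τ) (fderiv ℝ (En M τ) X) (L 0) := by
      rw [hL0]
      exact hd.hasFDerivAt
    exact h2.comp_hasDerivAt 0 hLd
  have hf : ∀ i, HasDerivAt (fun t => M.f (L t i)) ⟪gradient M.f (X i), V i⟫ 0 := by
    intro i
    have h2 : HasFDerivAt M.f (InnerProductSpace.toDual ℝ E (gradient M.f (X i))) (L 0 i) := by
      rw [hL0]
      exact (M.hasGradientAt (hX i)).hasFDerivAt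
    have h3 := h2.comp_hasDerivAt 0 (hLi i)
    exact h3
  have hn : ∀ i, HasDerivAt (fun t => ‖L t (i + 1) - L t i‖ ^ 2)
      (2 * ⟪X (i + 1) - X i, V (i + 1) - V i⟫) 0 := by
    intro i
    have h2 := ((hLi (i + 1)).fun_sub (hLi i)).norm_sq
    simp only [hL0] at h2
    exact h2
  have hterm : ∀ i ∈ (Finset.univ : Finset (Fin n)), HasDerivAt
      (fun t => M.f (L t i) * M.f (L t (i + 1)) * ‖L t (i + 1) - L t i‖ ^ 2 / τ i)
      (((⟪gradient M.f (X i), V i⟫ * M.f (X (i + 1)) +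
        M.f (X i) * ⟪gradient M.f (X (i + 1)), V (i + 1)⟫) * ‖X (i + 1) - X i‖ ^ 2 +
        M.f (X i) * M.f (X (i + 1)) * (2 * ⟪X (i + 1) - X i, V (i + 1) - V i⟫)) / τ i) 0 := by
    intro i _
    have h2 := (((hf i).fun_mul (hf (i + 1))).fun_mul (hn i)).div_const (τ i)
    simp only [hL0] at h2
    exact h2
  have h4 : HasDerivAt (fun t => En M τ (L t)) _ 0 := HasDerivAt.fun_sum hterm
  rw [h1.unique h4]
  obtain ⟨B, hB⟩ : ∃ B : Fin n → ℝ, B = fun i =>
      M.f (X i) * ‖X (i + 1) - X i‖ ^ 2 / τ i * ⟪gradient M.f (X (i + 1)), V (i + 1)⟫ +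
        2 * ⟪MomC M τ X i, V (i + 1)⟫ := ⟨_, rfl⟩
  obtain ⟨A, hA⟩ : ∃ A : Fin n → ℝ, A = fun i =>
      M.f (X (i + 1)) * ‖X (i + 1) - X i‖ ^ 2 / τ i * ⟪gradient M.f (X i), V i⟫ -
        2 * ⟪MomC M τ X i, V i⟫ := ⟨_, rfl⟩
  have e1 : ∀ i, ((⟪gradient M.f (X i), V i⟫ * M.f (X (i + 1)) +
        M.f (X i) * ⟪gradient M.f (X (i + 1)), V (i + 1)⟫) * ‖X (i + 1) - X i‖ ^ 2 +
        M.f (X i) * M.f (X (i + 1)) * (2 * ⟪X (i + 1) - X i, V (i + 1) - V i⟫)) / τ i =
      A i + B i := by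
    intro i
    rw [hA, hB]
    simp only [MomC, inner_smul_left, inner_sub_right, RCLike.conj_to_real]
    ring
  have e2 : ∀ i, ⟪GrC M τ X i, V i⟫ = A i + B (i - 1) := by
    intro i
    rw [hA, hB]
    simp only [GrC, inner_add_left, inner_smul_left, inner_sub_left, RCLike.conj_to_real,
      sub_add_cancel]
    ring
  have e3 : ∑ i, B (i - 1) = ∑ i, B i := Equiv.sum_comp (Equiv.subRight (1 : Fin n)) B
  simp only [e1, e2, Finset.sum_add_distrib, e3]

end CGA
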