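import Pool.Agent.CGA.C1Con

/-! # CGA / C1SolB: operations on solutions

PROOFS.  `sol_scale`: `∫_{a}^{c t} g = c ∫_{a/c}^{t} g (c s) ds` (`intervalIntegral.integral_comp_mul_left`, `intervalIntegral.smul_integral_comp_mul_left`) and
`rhs M x (c • w) = c² • rhs M x w`.  `sol_rev`: `∫_{-b}^{t} g(-s) ds = ∫_{-t}^{b} g` (`intervalIntegral.integral_comp_neg`), `rhs M x (-w) = rhs M x w`, and
`γ(-t) = γ a + ∫_a^{-t}`, `γ b = γ a + ∫_a^b` (additivity `intervalIntegral.integral_add_adjacent_intervals`, integrands continuous on `[a,b]`).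
`sol_shift`: `intervalIntegral.integral_comp_sub_right`.  `sol_restrict`: additivity of the integral.  `sol_concat`: continuity by `ContinuousOn.if` or
`ContinuousOn.union_of_isClosed`-type lemma; for `t ≤ b` the integral over `[a,t]` is unchanged (`intervalIntegral.integral_congr`), for `t > b` split the integral at `b`
(on `[b,t]` the two functions agree with `γ₂, w₂` also at the point `b` by `e1, e2`).
-/

set_option linter.all false

namespace CGA

open scoped RealInnerProductSpace Real Topology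
open MeasureTheory Set Filter

private theorem C1SolB_ne (M : Met) {a b : ℝ} {γ w : ℝ → E} (h : Sol M a b γ w) :
    ∀ t ∈ Icc a b, γ t ∈ ({0}ᶜ : Set E) := by
  intro t ht h0
  have h0' : γ t = 0 := h0
  have h1 := h.unit t ht
  rw [h0', norm_zero] at h1
  norm_num at h1

private theorem C1SolB_cf (M : Met) {a b : ℝ} {γ w : ℝ → E} (h : Sol M a b γ w) :
    ContinuousOn (fun s => M.f (γ s)) (Icc a b) :=
  (cont_f M).comp h.cγ (C1SolB_ne M h)

private theorem C1SolB_c1 (M : Met) {a b : ℝ} {γ w : ℝ → E} (h : Sol M a b γ w) :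
    ContinuousOn (fun s => (M.f (γ s) ^ 2)⁻¹ • w s) (Icc a b) :=
  (((C1SolB_cf M h).pow 2).inv₀ fun t ht => pow_ne_zero 2 (M.pos _ (C1SolB_ne M h t ht)).ne').smul
    h.cw

private theorem C1SolB_c2 (M : Met) {a b : ℝ} {γ w : ℝ → E} (h : Sol M a b γ w) :
    ContinuousOn (fun s => rhs M (γ s) (w s)) (Icc a b) := by
  unfold rhs
  refine ContinuousOn.sub (ContinuousOn.smul (f := fun s => ‖w s‖ ^ 2 / M.f (γ s) ^ 3)
    (g := fun s => gradient M.f (γ s)) ?_ ?_)
    (ContinuousOn.smul (f := fun s => ‖w s‖ ^ 2 / M.f (γ s) ^ 2) ?_ h.cγ)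
  · exact (h.cw.norm.pow 2).div ((C1SolB_cf M h).pow 3)
      fun t ht => pow_ne_zero 3 (M.pos _ (C1SolB_ne M h t ht)).ne'
  · exact (cont_grad M).comp h.cγ (C1SolB_ne M h)
  · exact (h.cw.norm.pow 2).div ((C1SolB_cf M h).pow 2)
      fun t ht => pow_ne_zero 2 (M.pos _ (C1SolB_ne M h t ht)).ne'

private theorem C1SolB_int {a b : ℝ} {φ : ℝ → E} (h : ContinuousOn φ (Icc a b)) {s t : ℝ}
    (hs : s ∈ Icc a b) (ht : t ∈ Icc a b) : IntervalIntegrable φ volume s t :=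
  (h.mono (uIcc_subset_Icc hs ht)).intervalIntegrable

private theorem C1SolB_restrict {a b : ℝ} {γ φ : ℝ → E} (hφ : ContinuousOn φ (Icc a b))
    (h : ∀ t ∈ Icc a b, γ t = γ a + ∫ s in a..t, φ s) {s t : ℝ} (hs : s ∈ Icc a b)
    (ht : t ∈ Icc a b) : γ t = γ s + ∫ r in s..t, φ r := by
  have ha : a ∈ Icc a b := ⟨le_rfl, hs.1.trans hs.2⟩
  rw [h t ht, h s hs, add_assoc, intervalIntegral.integral_add_adjacent_intervals
    (C1SolB_int hφ ha hs) (C1SolB_int hφ hs ht)]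

private theorem C1SolB_rhs (M : Met) (x w : E) (c : ℝ) : rhs M x (c • w) = c ^ 2 • rhs M x w := by
  unfold rhs
  rw [norm_smul, mul_pow, Real.norm_eq_abs, sq_abs, smul_sub, smul_smul, smul_smul]
  congr 2 <;> ring

private theorem C1SolB_rhs_neg (M : Met) (x w : E) : rhs M x (-w) = rhs M x w := by
  unfold rhs
  rw [norm_neg]

private theorem C1SolB_scale {a b c : ℝ} (hc : 0 < c) {γ φ : ℝ → E}
    (h : ∀ t ∈ Icc a b, γ t = γ a + ∫ s in a..t, φ s) {t : ℝ} (ht : t ∈ Icc (a / c) (b / c)) :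
    γ (c * t) = γ (c * (a / c)) + ∫ s in (a / c)..t, c • φ (c * s) := by
  have h1 : c * t ∈ Icc a b := by
    have h2 := (div_le_iff₀ hc).1 ht.1
    have h3 := (le_div_iff₀ hc).1 ht.2
    exact ⟨by linarith, by linarith⟩
  have h2 : c * (a / c) = a := mul_div_cancel₀ a hc.ne'
  rw [h _ h1, h2, intervalIntegral.integral_smul, intervalIntegral.smul_integral_comp_mul_left, h2]

private theorem C1SolB_mem_neg {a b t : ℝ} (ht : t ∈ Icc (-b) (-a)) : -t ∈ Icc a b :=
  ⟨by linarith [ht.2], by linarith [ht.1]⟩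

private theorem C1SolB_rev {a b : ℝ} {γ φ : ℝ → E} (hφ : ContinuousOn φ (Icc a b))
    (h : ∀ t ∈ Icc a b, γ t = γ a + ∫ s in a..t, φ s) {t : ℝ} (ht : t ∈ Icc (-b) (-a)) :
    γ (-t) = γ (- -b) - ∫ s in (-b)..t, φ (-s) := by
  have h1 := C1SolB_mem_neg ht
  have hb : b ∈ Icc a b := ⟨h1.1.trans h1.2, le_rfl⟩
  rw [intervalIntegral.integral_comp_neg (fun s => φ s), neg_neg,
    C1SolB_restrict hφ h h1 hb, add_sub_cancel_right]

private theorem C1SolB_shift {a b c : ℝ} {γ φ : ℝ → E}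
    (h : ∀ t ∈ Icc a b, γ t = γ a + ∫ s in a..t, φ s) {t : ℝ} (ht : t ∈ Icc (a + c) (b + c)) :
    γ (t - c) = γ (a + c - c) + ∫ s in (a + c)..t, φ (s - c) := by
  have h1 : t - c ∈ Icc a b := ⟨by linarith [ht.1], by linarith [ht.2]⟩
  rw [intervalIntegral.integral_comp_sub_right (fun s => φ s), add_sub_cancel_right]
  exact h _ h1

private theorem C1SolB_concat {a b c : ℝ} (hab : a ≤ b) (hbc : b ≤ c) {γ₁ φ₁ γ₂ φ₂ Φ : ℝ → E}
    (h₁ : ∀ t ∈ Icc a b, γ₁ t = γ₁ a + ∫ s in a..t, φ₁ s)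
    (h₂ : ∀ t ∈ Icc b c, γ₂ t = γ₂ b + ∫ s in b..t, φ₂ s) (e : γ₁ b = γ₂ b)
    (c₁ : ContinuousOn φ₁ (Icc a b)) (c₂ : ContinuousOn φ₂ (Icc b c))
    (i₁ : ∀ s ∈ Icc a b, Φ s = φ₁ s) (i₂ : ∀ s ∈ Icc b c, Φ s = φ₂ s) {t : ℝ}
    (ht : t ∈ Icc a c) :
    (if t ≤ b then γ₁ t else γ₂ t) = (if a ≤ b then γ₁ a else γ₂ a) + ∫ s in a..t, Φ s := by
  rw [if_pos hab]
  have hbb : b ∈ Icc a b := ⟨hab, le_rfl⟩
  have haa : a ∈ Icc a b := ⟨le_rfl, hab⟩
  have key : ∀ t ∈ Icc a b, ∫ s in a..t, Φ s = ∫ s in a..t, φ₁ s := fun t ht =>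
    intervalIntegral.integral_congr fun s hs => i₁ s (uIcc_subset_Icc haa ht hs)
  by_cases htb : t ≤ b
  · rw [if_pos htb, key t ⟨ht.1, htb⟩]
    exact h₁ t ⟨ht.1, htb⟩
  · rw [if_neg htb]
    push Not at htb
    have ht' : t ∈ Icc b c := ⟨htb.le, ht.2⟩
    have hb' : b ∈ Icc b c := ⟨le_rfl, hbc⟩
    have hΦ₁ : IntervalIntegrable Φ volume a b :=
      ((c₁.congr fun s hs => i₁ s hs).mono (uIcc_subset_Icc haa hbb)).intervalIntegrable
    have hΦ₂ : IntervalIntegrable Φ volume b t :=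
      ((c₂.congr fun s hs => i₂ s hs).mono (uIcc_subset_Icc hb' ht')).intervalIntegrable
    rw [← intervalIntegral.integral_add_adjacent_intervals hΦ₁ hΦ₂, key b hbb, ← add_assoc,
      ← h₁ b hbb, e]
    have k2 : ∫ s in b..t, Φ s = ∫ s in b..t, φ₂ s :=
      intervalIntegral.integral_congr fun s hs => i₂ s (uIcc_subset_Icc hb' ht' hs)
    rw [k2]
    exact h₂ t ht'

private theorem C1SolB_concat_cont {a b c : ℝ} (hab : a ≤ b) (hbc : b ≤ c) {γ₁ γ₂ : ℝ → E}
    (h₁ : ContinuousOn γ₁ (Icc a b)) (h₂ : ContinuousOn γ₂ (Icc b c)) (e : γ₁ b = γ₂ b) :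
    ContinuousOn (fun t => if t ≤ b then γ₁ t else γ₂ t) (Icc a c) := by
  rw [← Icc_union_Icc_eq_Icc hab hbc]
  refine ContinuousOn.union_of_isClosed ?_ ?_ isClosed_Icc isClosed_Icc
  · exact h₁.congr fun t ht => if_pos ht.2
  · refine h₂.congr fun t ht => ?_
    by_cases h : t ≤ b
    · have : t = b := le_antisymm h ht.1
      subst this
      show (if t ≤ t then γ₁ t else γ₂ t) = γ₂ t
      rw [if_pos le_rfl, e]
    · exact if_neg h

theorem sol_scale (M : Met) {a b c : ℝ} (hc : 0 < c) {γ w : ℝ → E} (h : Sol M a b γ w) :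
    Sol M (a / c) (b / c) (fun t => γ (c * t)) (fun t => c • w (c * t)) := by
  have hm : MapsTo (fun t : ℝ => c * t) (Icc (a / c) (b / c)) (Icc a b) := fun t ht => by
    have h2 := (div_le_iff₀ hc).1 ht.1
    have h3 := (le_div_iff₀ hc).1 ht.2
    exact ⟨by simp only; linarith, by simp only; linarith⟩
  have hcm : ContinuousOn (fun t : ℝ => c * t) (Icc (a / c) (b / c)) :=
    (continuous_const.mul continuous_id).continuousOn
  refine ⟨h.cγ.comp hcm hm, (h.cw.comp hcm hm).const_smul c, fun t ht => h.unit _ (hm ht), ?_, ?_⟩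
  · intro t ht
    have h1 := C1SolB_scale hc h.eqγ ht
    rw [h1]
    congr 1
    refine intervalIntegral.integral_congr fun s _ => ?_
    try simp only
    rw [smul_comm]
  · intro t ht
    have h1 := C1SolB_scale hc h.eqw ht
    try simp only
    rw [h1, smul_add, ← intervalIntegral.integral_smul]
    congr 1
    refine intervalIntegral.integral_congr fun s _ => ?_
    try simp only
    rw [C1SolB_rhs, smul_smul, sq]

theorem sol_rev (M : Met) {a b : ℝ} {γ w : ℝ → E} (h : Sol M a b γ w) :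
    Sol M (-b) (-a) (fun t => γ (-t)) (fun t => - w (-t)) := by
  have hm : MapsTo (fun t : ℝ => -t) (Icc (-b) (-a)) (Icc a b) := fun t ht => C1SolB_mem_neg ht
  have hcm : ContinuousOn (fun t : ℝ => -t) (Icc (-b) (-a)) := continuous_neg.continuousOn
  refine ⟨h.cγ.comp hcm hm, (h.cw.comp hcm hm).neg, fun t ht => h.unit _ (hm ht), ?_, ?_⟩
  · intro t ht
    have h1 := C1SolB_rev (C1SolB_c1 M h) h.eqγ ht
    rw [h1, sub_eq_add_neg, ← intervalIntegral.integral_neg]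
    congr 1
    refine intervalIntegral.integral_congr fun s _ => ?_
    try simp only
    rw [smul_neg]
  · intro t ht
    have h1 := C1SolB_rev (C1SolB_c2 M h) h.eqw ht
    try simp only
    rw [h1, neg_sub, sub_eq_add_neg, add_comm]
    congr 1
    refine intervalIntegral.integral_congr fun s _ => ?_
    try simp only
    rw [C1SolB_rhs_neg]

theorem sol_shift (M : Met) {a b : ℝ} (c : ℝ) {γ w : ℝ → E} (h : Sol M a b γ w) :
    Sol M (a + c) (b + c) (fun t => γ (t - c)) (fun t => w (t - c)) := by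
  have hm : MapsTo (fun t : ℝ => t - c) (Icc (a + c) (b + c)) (Icc a b) := fun t ht =>
    ⟨by simp only; linarith [ht.1], by simp only; linarith [ht.2]⟩
  have hcm : ContinuousOn (fun t : ℝ => t - c) (Icc (a + c) (b + c)) :=
    (continuous_id.sub continuous_const).continuousOn
  exact ⟨h.cγ.comp hcm hm, h.cw.comp hcm hm, fun t ht => h.unit _ (hm ht),
    fun t ht => C1SolB_shift h.eqγ ht, fun t ht => C1SolB_shift h.eqw ht⟩

theorem sol_restrict (M : Met) {a b a' b' : ℝ} {γ w : ℝ → E} (h : Sol M a b γ w) (ha : a ≤ a')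
    (hb : b' ≤ b) : Sol M a' b' γ w := by
  have hsub : Icc a' b' ⊆ Icc a b := Icc_subset_Icc ha hb
  refine ⟨h.cγ.mono hsub, h.cw.mono hsub, fun t ht => h.unit t (hsub ht), fun t ht => ?_,
    fun t ht => ?_⟩
  · exact C1SolB_restrict (C1SolB_c1 M h) h.eqγ (hsub ⟨le_rfl, ht.1.trans ht.2⟩) (hsub ht)
  · exact C1SolB_restrict (C1SolB_c2 M h) h.eqw (hsub ⟨le_rfl, ht.1.trans ht.2⟩) (hsub ht)

theorem sol_concat (M : Met) {a b c : ℝ} {γ₁ w₁ γ₂ w₂ : ℝ → E} (h₁ : Sol M a b γ₁ w₁)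
    (h₂ : Sol M b c γ₂ w₂) (hab : a ≤ b) (hbc : b ≤ c) (e1 : γ₁ b = γ₂ b) (e2 : w₁ b = w₂ b) :
    Sol M a c (fun t => if t ≤ b then γ₁ t else γ₂ t) (fun t => if t ≤ b then w₁ t else w₂ t) := by
  have g1 : ∀ s ∈ Icc a b, (if s ≤ b then γ₁ s else γ₂ s) = γ₁ s := fun s hs => if_pos hs.2
  have g2 : ∀ s ∈ Icc b c, (if s ≤ b then γ₁ s else γ₂ s) = γ₂ s := by
    intro s hs
    by_cases hsb : s ≤ b
    · have : s = b := le_antisymm hsb hs.1
      rw [this, if_pos le_rfl, e1]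
    · exact if_neg hsb
  have w1 : ∀ s ∈ Icc a b, (if s ≤ b then w₁ s else w₂ s) = w₁ s := fun s hs => if_pos hs.2
  have w2' : ∀ s ∈ Icc b c, (if s ≤ b then w₁ s else w₂ s) = w₂ s := by
    intro s hs
    by_cases hsb : s ≤ b
    · have : s = b := le_antisymm hsb hs.1
      rw [this, if_pos le_rfl, e2]
    · exact if_neg hsb
  refine ⟨C1SolB_concat_cont hab hbc h₁.cγ h₂.cγ e1, C1SolB_concat_cont hab hbc h₁.cw h₂.cw e2,
    ?_, ?_, ?_⟩
  · intro t ht
    try simp only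
    by_cases htb : t ≤ b
    · rw [if_pos htb]
      exact h₁.unit t ⟨ht.1, htb⟩
    · rw [if_neg htb]
      exact h₂.unit t ⟨(not_le.1 htb).le, ht.2⟩
  · intro t ht
    exact C1SolB_concat hab hbc h₁.eqγ h₂.eqγ e1 (C1SolB_c1 M h₁) (C1SolB_c1 M h₂)
      (fun s hs => by rw [g1 s hs, w1 s hs])
      (fun s hs => by rw [g2 s hs, w2' s hs]) ht
  · intro t ht
    exact C1SolB_concat hab hbc h₁.eqw h₂.eqw e2 (C1SolB_c2 M h₁) (C1SolB_c2 M h₂)
      (fun s hs => by rw [g1 s hs, w1 s hs])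
      (fun s hs => by rw [g2 s hs, w2' s hs]) ht

/-- a solution stays one if it is changed outside `[a,b]` -/
theorem sol_congr (M : Met) {a b : ℝ} {γ w γ' w' : ℝ → E} (h : Sol M a b γ w)
    (e1 : ∀ t ∈ Icc a b, γ' t = γ t) (e2 : ∀ t ∈ Icc a b, w' t = w t) : Sol M a b γ' w' := by
  have hint : ∀ (F : E → E → E) {t : ℝ}, t ∈ Icc a b →
      ∫ s in a..t, F (γ' s) (w' s) = ∫ s in a..t, F (γ s) (w s) := by
    intro F t ht
    refine intervalIntegral.integral_congr fun s hs => ?_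
    have hs' : s ∈ Icc a b := uIcc_subset_Icc ⟨le_rfl, ht.1.trans ht.2⟩ ht hs
    try simp only
    rw [e1 s hs', e2 s hs']
  refine ⟨h.cγ.congr e1, h.cw.congr e2, fun t ht => by rw [e1 t ht]; exact h.unit t ht,
    fun t ht => ?_, fun t ht => ?_⟩
  · have := hint (fun x w => (M.f x ^ 2)⁻¹ • w) ht
    try simp only at this
    rw [this, e1 t ht, e1 a ⟨le_rfl, ht.1.trans ht.2⟩]
    exact h.eqγ t ht
  · have := hint (fun x w => rhs M x w) ht
    try simp only at this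
    rw [this, e2 t ht, e2 a ⟨le_rfl, ht.1.trans ht.2⟩]
    exact h.eqw t ht

end CGA
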