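import Pool.Agent.CGA.C1Sol
import Pool.Agent.CGA.C1SolB

/-! # CGA / C1Cl: a loop solution is a closed geodesic

PROOF.  `γ'(t) = γ (T t)`, `w'(t) = T • w (T t)`: `sol_scale` with `c = T` (`0 / T = 0`, `T / T = 1`).  `γ' 1 = γ T = γ 0 = γ' 0`, the same for `w'`.
Speed: `‖w' t‖ = T ‖w (T t)‖` and `‖w (T t)‖ * f(γ 0) = ‖w 0‖ * f(γ (T t)) = s f(γ 0) f(γ (T t))` (`sol_speed`, `f > 0`).
-/

set_option linter.all false

namespace CGA

open scoped RealInnerProductSpace Real Topology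
open MeasureTheory Set Filter

/-- C-close: a loop solution is a closed geodesic -/
theorem closedGeo_of_sol (M : Met) {T s : ℝ} (hT : 0 < T) (hs : 0 < s) {γ w : ℝ → E}
    (h : Sol M 0 T γ w) (hγ : γ T = γ 0) (hw : w T = w 0) (h0 : ‖w 0‖ = s * M.f (γ 0)) :
    ClosedGeo M (s * T) := by
  have h1 := sol_scale M hT h
  rw [zero_div, div_self hT.ne'] at h1
  refine ⟨_, _, h1, ?_, ?_, ?_⟩
  · simp only [mul_one, mul_zero]
    exact hγ
  · simp only [mul_one, mul_zero]
    rw [hw]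
  · intro t ht
    have ht' : T * t ∈ Icc (0:ℝ) T :=
      ⟨mul_nonneg hT.le ht.1, by
        have := mul_le_mul_of_nonneg_left ht.2 hT.le
        rwa [mul_one] at this⟩
    have h0' : (0:ℝ) ∈ Icc (0:ℝ) T := ⟨le_rfl, hT.le⟩
    have h2 := sol_speed M h ht' h0'
    have hne : γ 0 ≠ 0 := by
      intro h3
      have h4 := h.unit 0 h0'
      rw [h3, norm_zero] at h4
      exact zero_ne_one h4
    have hpos := M.pos _ hne
    rw [h0] at h2
    have h5 : ‖w (T * t)‖ = s * M.f (γ (T * t)) := by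
      have h6 : (‖w (T * t)‖ - s * M.f (γ (T * t))) * M.f (γ 0) = 0 := by
        rw [sub_mul, h2]
        ring
      rcases mul_eq_zero.1 h6 with h7 | h7
      · exact sub_eq_zero.1 h7
      · exact absurd h7 hpos.ne'
    rw [norm_smul, Real.norm_eq_abs, abs_of_pos hT, h5]
    ring

end CGA
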