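import Pool.Agent.CGA.C1Inc

/-! # CGA / C1Unr: unrolling a closed polygon

`unr X i = X (Fin.ofNat n i)`.  `Fin.ofNat n (i+1) = Fin.ofNat n i + 1`.

PROOFS.  `en_unr`: `Finset.sum_range` (sum over `range n` = sum over `Fin n`), `Fin.ofNat n (i : ℕ) = i`.
`tm_unr` the same.  `crit_unr`: with `j = Fin.ofNat n (i+1)`: `j - 1 = Fin.ofNat n i`, `j + 1 = Fin.ofNat n (i+2)`, so the vector in `CritN` is `GrC M τ X j` up to the
order of the two squares: `‖X j - X (j-1)‖`.
-/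

set_option linter.all false

namespace CGA

open scoped RealInnerProductSpace Real Topology
open MeasureTheory Set Filter

/-- periodic extension -/
def unr {α : Type*} {n : ℕ} [NeZero n] (X : Fin n → α) (i : ℕ) : α := X (Fin.ofNat n i)

private theorem C1Unr_succ {n : ℕ} [NeZero n] (i : ℕ) :
    Fin.ofNat n (i + 1) = Fin.ofNat n i + 1 := by
  apply Fin.ext
  rw [Fin.val_add]
  simp [Fin.ofNat]

theorem unr_zero {α : Type*} {n : ℕ} [NeZero n] (X : Fin n → α) : unr X 0 = X 0 := by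
  rfl

theorem unr_n {α : Type*} {n : ℕ} [NeZero n] (X : Fin n → α) : unr X n = X 0 := by
  unfold unr
  congr 1
  apply Fin.ext
  simp [Fin.ofNat]

theorem unr_add {α : Type*} {n : ℕ} [NeZero n] (X : Fin n → α) (i : ℕ) : unr X (n + i) = unr X i := by
  unfold unr
  congr 1
  apply Fin.ext
  simp [Fin.ofNat]

theorem en_unr (M : Met) {n : ℕ} [NeZero n] (τ : Fin n → ℝ) (X : Fin n → E) :
    EnN M n (unr τ) (unr X) = En M τ X := by
  unfold EnN En
  rw [Finset.sum_range]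
  refine Finset.sum_congr rfl fun i _ => ?_
  have h1 : Fin.ofNat n (i : ℕ) = i := by
    apply Fin.ext
    simp [Fin.ofNat, Nat.mod_eq_of_lt i.2]
  simp only [unr, C1Unr_succ, h1]

theorem tm_unr {n : ℕ} [NeZero n] (τ : Fin n → ℝ) : tm (unr τ) n = ∑ i, τ i := by
  unfold tm
  rw [Finset.sum_range]
  refine Finset.sum_congr rfl fun i _ => ?_
  have h1 : Fin.ofNat n (i : ℕ) = i := by
    apply Fin.ext
    simp [Fin.ofNat, Nat.mod_eq_of_lt i.2]
  simp only [unr, h1]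

theorem crit_unr (M : Met) {n : ℕ} [NeZero n] (τ : Fin n → ℝ) (X : Fin n → E)
    (h : ∀ i v, ⟪X i, v⟫ = 0 → ⟪GrC M τ X i, v⟫ = 0) (i : ℕ) : CritN M (unr τ) (unr X) i := by
  intro v hv
  have h1 := h (Fin.ofNat n (i + 1)) v hv
  have h2 : Fin.ofNat n (i + 1) - 1 = Fin.ofNat n i := by
    rw [C1Unr_succ, add_sub_cancel_right]
  have h3 : Fin.ofNat n (i + 1) + 1 = Fin.ofNat n (i + 2) := (C1Unr_succ (i + 1)).symm
  have h4 : Fin.ofNat n i + 1 = Fin.ofNat n (i + 1) := (C1Unr_succ i).symm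
  have h5 : GrC M τ X (Fin.ofNat n (i + 1)) =
      (2:ℝ) • (Mom M (unr τ) (unr X) i - Mom M (unr τ) (unr X) (i + 1)) +
      (M.f (unr X (i + 2)) * ‖unr X (i + 2) - unr X (i + 1)‖ ^ 2 / unr τ (i + 1) +
        M.f (unr X i) * ‖unr X (i + 1) - unr X i‖ ^ 2 / unr τ i) •
        gradient M.f (unr X (i + 1)) := by
    unfold GrC MomC Mom unr
    rw [h2, h3, h4]
  rw [h5] at h1
  exact h1

/-- the two cyclic shifts agree: `Mom` at `n` is `Mom` at `0` -/
theorem mom_unr (M : Met) {n : ℕ} [NeZero n] (τ : Fin n → ℝ) (X : Fin n → E) :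
    Mom M (unr τ) (unr X) n = Mom M (unr τ) (unr X) 0 := by
  unfold Mom
  have h1 := unr_add X 0
  have h2 := unr_add X 1
  have h3 := unr_add τ 0
  rw [add_zero] at h1 h3
  rw [h1, h2, h3]

end CGA
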