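import Pool.Agent.CGA.C1LC
import Pool.Agent.CGA.C1Cl
import Pool.Agent.CGA.C1Unr

/-! # CGA / C1NC: no critical closed polygons of small mesh

PROOF.  Suppose not: for every `k : ℕ` (with `δ = 1/(k+1)`) there are `n_k`, `τ_k`, `X_k` as in the statement with `⟪GrC i, v⟫ = 0` for all `i` and `v ⟂ X i`
(`choose`; the instance `NeZero (n k)` comes along, use `NeZero.of_pos` / `⟨..⟩`).  Let `U = hyperfilter ℕ`, `X' = unr X_k`, `τ' = unr τ_k`.  `limChain` with `C = L²`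
(`en_unr`, `tm_unr`, `crit_unr`) gives `γ, w`.
* `γ 1 = γ 0`: `X' n = X' 0` (`unr_n`), uniqueness of limits.
* `w 1 = w 0`: CritN at `n_k - 1` (vertex `n_k`, `crit_unr` holds for all `i`) says for `v ⟂ X' n = X' 0`:
  `⟪2 (Mom (n-1) - Mom n) + (f e_n + f e_{n-1}) ∇f(X' n), v⟫ = 0` with `Mom n = Mom 0` (`mom_unr`), and
  `e_j = ee τ' X' j = τ'_j ‖Mom_j‖² / (f f)² → 0` for `j = n` (which is `j = 0`) and `j = n - 1`: `τ' ≤ δ k → 0`, `Mom` converges, `f ≥ m`, and `‖∇f‖ ≤ K`.  For fixed `v ⟂ γ 0` use `v_k = v - ⟪X' 0, v⟫ X' 0 → v`: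
  in the limit `⟪w 1 - w 0, v⟫ = 0`.  Also `⟪w 0, γ 0⟫ = 0` and `⟪w 1, γ 1⟫ = 0` (`sol_perp`).  So `w 1 - w 0` is orthogonal to everything.
* speed: `s := ‖w 0‖ / f(γ 0)`, `‖w t‖ = s f(γ t)` (`sol_speed`), so the limit energy `∫ ‖w‖²/f² = s²` lies in `[e₀, L²]`; `s > 0`, `s ≤ L`.
`closedGeo_of_sol` with `T = 1` gives `ClosedGeo M s`, contradiction with `hN`.
-/

set_option linter.all false

namespace CGA

open scoped RealInnerProductSpace Real Topology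
open MeasureTheory Set Filter

private theorem C1NC_ee (M : Met) {m F K W δ : ℝ} (hC : Csts M m F K) {τ : ℕ → ℝ} {X : ℕ → E}
    {i : ℕ} (hτ : 0 < τ i) (hτδ : τ i ≤ δ) (hX : ∀ i, ‖X i‖ = 1) (hW : ‖Mom M τ X i‖ ≤ W) :
    ‖X (i + 1) - X i‖ ^ 2 / τ i ≤ δ * (W ^ 2 / m ^ 4) := by
  have h := ee_eq M hτ hX
  unfold ee at h
  rw [h]
  have h1 := hC.lo (X i) (hX i)
  have h2 := hC.lo (X (i + 1)) (hX _)
  have hm := hC.hm
  have h3 : m ^ 2 ≤ M.f (X i) * M.f (X (i + 1)) := by nlinarith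
  have h4 : m ^ 4 ≤ (M.f (X i) * M.f (X (i + 1))) ^ 2 := by
    have : m ^ 4 = (m ^ 2) ^ 2 := by ring
    rw [this]
    exact pow_le_pow_left₀ (by positivity) h3 2
  have h5 : ‖Mom M τ X i‖ ^ 2 ≤ W ^ 2 := pow_le_pow_left₀ (norm_nonneg _) hW 2
  have hm4 : 0 < m ^ 4 := by positivity
  calc τ i * ‖Mom M τ X i‖ ^ 2 / (M.f (X i) * M.f (X (i + 1))) ^ 2
      ≤ τ i * ‖Mom M τ X i‖ ^ 2 / m ^ 4 := by
        apply div_le_div_of_nonneg_left _ hm4 h4
        positivity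
    _ = τ i * (‖Mom M τ X i‖ ^ 2 / m ^ 4) := by ring
    _ ≤ δ * (W ^ 2 / m ^ 4) := by
        apply mul_le_mul hτδ _ (by positivity) (hτ.le.trans hτδ)
        gcongr

/-- C-crit: no critical closed polygons of small mesh with energy in `[e₀, L²]`. -/
theorem noCrit (M : Met) {L : ℝ} (hL : 0 < L) (hN : NoGeo M L) {e₀ : ℝ} (he : 0 < e₀) :
    ∃ δ > 0, ∀ (n : ℕ) [NeZero n] (τ : Fin n → ℝ) (X : Fin n → E), (∀ i, 0 < τ i) →
      (∀ i, τ i ≤ δ) → ∑ i, τ i = 1 → (∀ i, ‖X i‖ = 1) → e₀ ≤ En M τ X → En M τ X ≤ L ^ 2 →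
      ∃ i v, ⟪X i, v⟫ = 0 ∧ ⟪GrC M τ X i, v⟫ ≠ 0 := by
  by_contra hcon
  push Not at hcon
  have hcon' : ∀ k : ℕ, ∃ (n : ℕ) (_ : NeZero n) (τ : Fin n → ℝ) (X : Fin n → E), (∀ i, 0 < τ i) ∧
      (∀ i, τ i ≤ 1 / ((k : ℝ) + 1)) ∧ ∑ i, τ i = 1 ∧ (∀ i, ‖X i‖ = 1) ∧ e₀ ≤ En M τ X ∧
      En M τ X ≤ L ^ 2 ∧ ∀ i v, ⟪X i, v⟫ = 0 → ⟪GrC M τ X i, v⟫ = 0 := fun k =>
    hcon (1 / ((k : ℝ) + 1)) (by positivity)
  choose n hn τ X hτ hτδ hτ1 hX hE0 hE1 hcr using hcon'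
  set τ' : ℕ → ℕ → ℝ := fun k => unr (τ k) with hτ'
  set X' : ℕ → ℕ → E := fun k => unr (X k) with hX'
  set δ : ℕ → ℝ := fun k => 1 / ((k : ℝ) + 1) with hδdef
  have hδ : Tendsto δ (hyperfilter ℕ : Filter ℕ) (𝓝 0) :=
    tendsto_one_div_add_atTop_nhds_zero_nat.mono_left Nat.hyperfilter_le_atTop
  have hnp : ∀ k, 0 < n k := fun k => Nat.pos_of_ne_zero (hn k).out
  have hτp : ∀ k i, 0 < τ' k i := fun k i => hτ k _
  have hτd : ∀ k i, τ' k i ≤ δ k := fun k i => hτδ k _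
  have hXu : ∀ k i, ‖X' k i‖ = 1 := fun k i => hX k _
  have hτs : ∀ k, ∑ i ∈ Finset.range (n k), τ' k i = 1 := fun k => by
    have := tm_unr (τ k)
    rw [hτ1 k] at this
    exact this
  have hcrN : ∀ k i, CritN M (τ' k) (X' k) i := fun k i => crit_unr M (τ k) (X k) (hcr k) i
  have hEn : ∀ k, EnN M (n k) (τ' k) (X' k) = En M (τ k) (X k) := fun k => en_unr M (τ k) (X k)
  have hch : ∀ k, Chn M (L ^ 2) (n k) (τ' k) (X' k) (δ k) := fun k =>
    ⟨hnp k, hτp k, fun i _ => hτd k i, hτs k, hXu k, fun i _ => hcrN k i,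
      by rw [hEn k]; exact hE1 k⟩
  obtain ⟨γ, w, hS, h0, h1, hw0, hw1, hen⟩ := limChain M (hyperfilter ℕ) n τ' X' δ (L ^ 2) hδ hnp
    hτp (fun k i _ => hτd k i) hτs hXu (fun k i _ => hcrN k i)
    (fun k => by rw [hEn k]; exact hE1 k)
  have hXn : ∀ k, X' k (n k) = X' k 0 := fun k => by
    show unr (X k) (n k) = unr (X k) 0
    rw [unr_n, unr_zero]
  have hγ : γ 1 = γ 0 := tendsto_nhds_unique h1 (by simpa only [hXn] using h0)
  have hγu : ‖γ 0‖ = 1 := hS.unit 0 ⟨le_rfl, zero_le_one⟩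
  have hp0 : ⟪w 0, γ 0⟫ = 0 := sol_perp M zero_lt_one hS ⟨le_rfl, zero_le_one⟩
  have hp1 : ⟪w 1, γ 0⟫ = 0 := by
    have := sol_perp M zero_lt_one hS (t := 1) ⟨zero_le_one, le_rfl⟩
    rwa [hγ] at this
  -- the end momenta agree
  obtain ⟨m, F, K, hC⟩ := exists_csts M
  obtain ⟨W, hW, hWb⟩ := mom_bound M (L ^ 2)
  have hw : w 1 = w 0 := by
    have hv : ∀ v, ⟪γ 0, v⟫ = 0 → ⟪w 1 - w 0, v⟫ = 0 := by
      intro v hv
      set c : ℕ → ℝ := fun k => M.f (X' k (n k + 1)) * (‖X' k (n k + 1) - X' k (n k)‖ ^ 2 / τ' k (n k)) +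
        M.f (X' k (n k - 1)) * (‖X' k (n k) - X' k (n k - 1)‖ ^ 2 / τ' k (n k - 1)) with hc
      have hcb : ∀ k, |c k| ≤ δ k * (2 * F * (W ^ 2 / m ^ 4)) := by
        intro k
        have a1 : ‖X' k (n k + 1) - X' k (n k)‖ ^ 2 / τ' k (n k) ≤ δ k * (W ^ 2 / m ^ 4) := by
          have b := C1NC_ee M hC (hτp k 0) (hτd k 0) (hXu k) (hWb _ _ _ _ (hch k) 0 (hnp k))
          have c1 : X' k (n k + 1) = X' k (0 + 1) := by
            show unr (X k) (n k + 1) = unr (X k) (0 + 1)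
            rw [unr_add]
          have c2 : τ' k (n k) = τ' k 0 := by
            show unr (τ k) (n k) = unr (τ k) 0
            rw [unr_n, unr_zero]
          rw [c1, hXn, c2]
          exact b
        have a2 : ‖X' k (n k) - X' k (n k - 1)‖ ^ 2 / τ' k (n k - 1) ≤ δ k * (W ^ 2 / m ^ 4) := by
          have b := C1NC_ee M hC (hτp k (n k - 1)) (hτd k (n k - 1)) (hXu k)
            (hWb _ _ _ _ (hch k) (n k - 1) (by have := hnp k; omega))
          have e : n k - 1 + 1 = n k := by have := hnp k; omega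
          rw [e] at b
          exact b
        have p1 : 0 ≤ ‖X' k (n k + 1) - X' k (n k)‖ ^ 2 / τ' k (n k) :=
          div_nonneg (by positivity) (hτp k _).le
        have p2 : 0 ≤ ‖X' k (n k) - X' k (n k - 1)‖ ^ 2 / τ' k (n k - 1) :=
          div_nonneg (by positivity) (hτp k _).le
        have f1 := hC.hi _ (hXu k (n k + 1))
        have f2 := hC.hi _ (hXu k (n k - 1))
        have f3 : 0 < M.f (X' k (n k + 1)) := lt_of_lt_of_le hC.hm (hC.lo _ (hXu k _))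
        have f4 : 0 < M.f (X' k (n k - 1)) := lt_of_lt_of_le hC.hm (hC.lo _ (hXu k _))
        rw [abs_of_nonneg (by positivity)]
        have g1 : M.f (X' k (n k + 1)) * (‖X' k (n k + 1) - X' k (n k)‖ ^ 2 / τ' k (n k)) ≤
          F * (δ k * (W ^ 2 / m ^ 4)) := mul_le_mul f1 a1 p1 hC.hF.le
        have g2 : M.f (X' k (n k - 1)) * (‖X' k (n k) - X' k (n k - 1)‖ ^ 2 / τ' k (n k - 1)) ≤
          F * (δ k * (W ^ 2 / m ^ 4)) := mul_le_mul f2 a2 p2 hC.hF.le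
        calc c k ≤ F * (δ k * (W ^ 2 / m ^ 4)) + F * (δ k * (W ^ 2 / m ^ 4)) := add_le_add g1 g2
          _ = _ := by ring
      have hc0 : Tendsto c (hyperfilter ℕ : Filter ℕ) (𝓝 0) := by
        rw [tendsto_zero_iff_norm_tendsto_zero]
        refine squeeze_zero (fun k => norm_nonneg _) (fun k => hcb k) ?_
        simpa using hδ.mul_const (2 * F * (W ^ 2 / m ^ 4))
      have hcg : Tendsto (fun k => c k • gradient M.f (X' k (n k))) (hyperfilter ℕ : Filter ℕ)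
          (𝓝 0) := by
        rw [tendsto_zero_iff_norm_tendsto_zero]
        have hb : Tendsto (fun k => |c k| * K) (hyperfilter ℕ : Filter ℕ) (𝓝 0) := by
          simpa using hc0.abs.mul_const K
        refine squeeze_zero (fun k => norm_nonneg _) (fun k => ?_) hb
        rw [norm_smul, Real.norm_eq_abs]
        exact mul_le_mul_of_nonneg_left (hC.gr _ (hXu k _)) (abs_nonneg _)
      have hXl : Tendsto (fun k => X' k (n k)) (hyperfilter ℕ : Filter ℕ) (𝓝 (γ 0)) := by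
        simpa only [hXn] using h0
      have hu : Tendsto (fun k => v - ⟪X' k (n k), v⟫ • X' k (n k)) (hyperfilter ℕ : Filter ℕ)
          (𝓝 v) := by
        have : Tendsto (fun k => v - ⟪X' k (n k), v⟫ • X' k (n k)) (hyperfilter ℕ : Filter ℕ)
          (𝓝 (v - ⟪γ 0, v⟫ • γ 0)) :=
          tendsto_const_nhds.sub ((hXl.inner tendsto_const_nhds).smul hXl)
        simpa [hv] using this
      have hzero : ∀ k, ⟪(2:ℝ) • (Mom M (τ' k) (X' k) (n k - 1) - Mom M (τ' k) (X' k) 0) +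
          c k • gradient M.f (X' k (n k)), v - ⟪X' k (n k), v⟫ • X' k (n k)⟫ = 0 := by
        intro k
        have e : n k - 1 + 1 = n k := by have := hnp k; omega
        have e2 : n k - 1 + 2 = n k + 1 := by have := hnp k; omega
        have hk := hcrN k (n k - 1) (v - ⟪X' k (n k), v⟫ • X' k (n k)) (by
          rw [e, inner_sub_right, inner_smul_right, real_inner_self_eq_norm_sq, hXu k]
          ring)
        rw [e, e2] at hk
        have hm0 : Mom M (τ' k) (X' k) (n k) = Mom M (τ' k) (X' k) 0 := mom_unr M (τ k) (X k)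
        rw [hm0] at hk
        rw [← hk]
        congr 3
        simp only [hc]
        ring
      have hlim : Tendsto (fun k => ⟪(2:ℝ) • (Mom M (τ' k) (X' k) (n k - 1) -
          Mom M (τ' k) (X' k) 0) + c k • gradient M.f (X' k (n k)),
          v - ⟪X' k (n k), v⟫ • X' k (n k)⟫) (hyperfilter ℕ : Filter ℕ)
          (𝓝 ⟪(2:ℝ) • (w 1 - w 0) + 0, v⟫) :=
        (((hw1.sub hw0).const_smul (2:ℝ)).add hcg).inner hu
      simp only [hzero] at hlim
      have := tendsto_nhds_unique hlim tendsto_const_nhds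
      rw [add_zero, inner_smul_left] at this
      simpa using this
    have hd := hv (w 1 - w 0) (by
      rw [inner_sub_right, real_inner_comm, hp1, real_inner_comm, hp0, sub_zero])
    exact sub_eq_zero.mp (inner_self_eq_zero.mp hd)
  -- speed
  set s : ℝ := ‖w 0‖ / M.f (γ 0) with hs
  have hf0 : 0 < M.f (γ 0) := lt_of_lt_of_le hC.hm (hC.lo _ hγu)
  have hs0 : 0 ≤ s := by positivity
  have hws : ∀ t ∈ Icc (0:ℝ) 1, ‖w t‖ = s * M.f (γ t) := by
    intro t ht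
    have := sol_speed M hS ht (t := 0) ⟨le_rfl, zero_le_one⟩
    rw [hs]
    field_simp
    linarith
  have hint : ∫ t in (0:ℝ)..1, ‖w t‖ ^ 2 / M.f (γ t) ^ 2 = s ^ 2 := by
    have : ∫ t in (0:ℝ)..1, ‖w t‖ ^ 2 / M.f (γ t) ^ 2 = ∫ t in (0:ℝ)..1, s ^ 2 := by
      apply intervalIntegral.integral_congr
      intro t ht
      rw [uIcc_of_le zero_le_one] at ht
      have h1 : 0 < M.f (γ t) := lt_of_lt_of_le hC.hm (hC.lo _ (hS.unit t ht))
      show ‖w t‖ ^ 2 / M.f (γ t) ^ 2 = s ^ 2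
      rw [hws t ht]
      field_simp
    rw [this]
    simp
  rw [hint] at hen
  have hlo : e₀ ≤ s ^ 2 := ge_of_tendsto' hen (fun k => by rw [hEn k]; exact hE0 k)
  have hhi : s ^ 2 ≤ L ^ 2 := le_of_tendsto' hen (fun k => by rw [hEn k]; exact hE1 k)
  have hsp : 0 < s := by
    rcases hs0.lt_or_eq with h | h
    · exact h
    · rw [← h] at hlo
      norm_num at hlo
      linarith
  have hsL : s ≤ L := by nlinarith
  have hgeo : ClosedGeo M (s * 1) := closedGeo_of_sol M one_pos hsp hS hγ hw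
    (hws 0 ⟨le_rfl, zero_le_one⟩)
  have := hN (s * 1) (by linarith) hgeo
  linarith

end CGA
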