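import Pool.Agent.CGA.BPd
import Pool.Agent.CGA.C1NC

/-! PROJECT CGA, chunk B: the lift of the holonomy exists (assembly). -/

set_option linter.all false

namespace CGA

open scoped RealInnerProductSpace Real Topology
open MeasureTheory Set Filter

/-- Chunk B: if no closed geodesic has length at most `L₁`, the holonomy of fine closed polygons of
length less than `L` lifts. -/
theorem lift_exists (M : Met) {L L₁ : ℝ} (hL : 0 < L) (hLL : L < L₁) (hN : NoGeo M L₁) :
    ∃ δ > 0, δ ≤ 1 ∧ Nonempty (Lift M δ L) :=
  lift_of_noCrit M hL hLL fun _ he => noCrit M (hL.trans hLL) hN he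

end CGA
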