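import Pool.Agent.CGA.BCh
import Pool.Agent.CGA.AEllB
import Pool.Agent.CGA.ACyc

/-! PROJECT CGA, chunk B, module BFi.

Fine lists lie in the domain.  L2 = (L + L1)/2; N, delta' from tau_of_chord; C from ell_chord; F = upper bound of f (exists_bounds);
delta = min(1, delta'/F, (L2 - L)/(C L)).  l = ofFn X (X = l.get, n = l.length ≥ 1); cyc_ofFn: the edges are (X i, X (i+1)), llen = sum ell.
c_i = sqrt(f f)|X(i+1) - X i| <= F delta <= delta' and sum c_i <= (1 + C delta) sum ell <= (1 + (L2-L)/L) L = L2.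
-/

set_option linter.all false

namespace CGA

open scoped RealInnerProductSpace Real Topology
open MeasureTheory Set Filter

theorem DomL_of_fine (M : Met) {L L₁ d : ℝ} (hL : 0 < L) (hLL : L < L₁) (hd : 0 < d) :
    ∃ N : ℕ, 1 ≤ N ∧ ∃ δ > 0, δ ≤ 1 ∧ ∀ l, FineL M δ L l → N ≤ l.length →
      DomL M (L₁ ^ 2) d l := by
  obtain ⟨m, F, K, hm, hmF, hK, hf, -, -⟩ := M.exists_bounds
  have hF : 0 < F := lt_of_lt_of_le hm hmF
  obtain ⟨L₂, h1, h2⟩ := exists_between hLL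
  have hL₂ : 0 < L₂ := hL.trans h1
  obtain ⟨N, hN, δ', hδ', htau⟩ := tau_of_chord M hL₂ h2 hd
  obtain ⟨C, hC, hch⟩ := ell_chord M
  have hLL2 : 0 < L₂ - L := by linarith
  have hδ0 : 0 < min 1 (min (δ' / F) ((L₂ - L) / (C * L))) := by positivity
  refine ⟨N, hN, _, hδ0, min_le_left _ _, ?_⟩
  intro l hl hlen
  obtain ⟨n, X, rfl⟩ : ∃ n, ∃ X : Fin n → E, l = List.ofFn X :=
    ⟨l.length, l.get, (List.ofFn_get l).symm⟩
  rw [List.length_ofFn] at hlen
  haveI hn : NeZero n := ⟨by omega⟩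
  have hu : ∀ i, ‖X i‖ = 1 := fun i => hl.unit _ (by
    rw [List.mem_ofFn]
    exact ⟨i, rfl⟩)
  have hmesh : ∀ i, ‖X i - X (i + 1)‖ ≤ min 1 (min (δ' / F) ((L₂ - L) / (C * L))) := by
    intro i
    exact hl.mesh (X i, X (i + 1)) (by
      rw [cyc_ofFn, List.mem_ofFn]
      exact ⟨i, rfl⟩)
  have hlen' : ∑ i, ell M (X i) (X (i + 1)) < L := by
    have h := hl.len
    rw [cyc_ofFn] at h
    unfold llen at h
    rw [List.map_ofFn, List.sum_ofFn] at h
    exact h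
  have hd1 : ∀ i, ‖X i - X (i + 1)‖ ≤ 1 := fun i => (hmesh i).trans (min_le_left _ _)
  have hd2 : ∀ i, ‖X i - X (i + 1)‖ ≤ δ' / F := fun i =>
    (hmesh i).trans ((min_le_right _ _).trans (min_le_left _ _))
  have hd3 : ∀ i, ‖X i - X (i + 1)‖ ≤ (L₂ - L) / (C * L) := fun i =>
    (hmesh i).trans ((min_le_right _ _).trans (min_le_right _ _))
  have hne : ∀ i, X i ≠ 0 := fun i h0 => by
    have := hu i
    rw [h0, norm_zero] at this
    exact zero_ne_one this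
  have hs : ∀ i, √(M.f (X i) * M.f (X (i + 1))) ≤ F := by
    intro i
    rw [Real.sqrt_le_left hF.le]
    have ha := hf _ (hne i)
    have hb := hf _ (hne (i + 1))
    rw [sq]
    exact mul_le_mul ha.2 hb.2 (hm.le.trans hb.1) hF.le
  have hc1 : ∀ i, √(M.f (X i) * M.f (X (i + 1))) * ‖X (i + 1) - X i‖ ≤ δ' := by
    intro i
    rw [norm_sub_rev]
    have h3 := hd2 i
    rw [le_div_iff₀ hF] at h3
    calc √(M.f (X i) * M.f (X (i + 1))) * ‖X i - X (i + 1)‖ ≤ F * ‖X i - X (i + 1)‖ :=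
          mul_le_mul_of_nonneg_right (hs i) (norm_nonneg _)
      _ ≤ δ' := by linarith
  have hell0 : ∀ i, 0 ≤ ell M (X i) (X (i + 1)) := fun i =>
    (mul_nonneg hm.le (norm_nonneg _)).trans (ell_bounds M hm hf (hu i) (hu (i + 1)) (hd1 i)).1
  have hc2 : ∑ i, √(M.f (X i) * M.f (X (i + 1))) * ‖X (i + 1) - X i‖ ≤ L₂ := by
    have h3 : ∀ i, √(M.f (X i) * M.f (X (i + 1))) * ‖X (i + 1) - X i‖ ≤
        (1 + (L₂ - L) / L) * ell M (X i) (X (i + 1)) := by
      intro i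
      rw [norm_sub_rev]
      refine (hch (X i) (X (i + 1)) (hu i) (hu (i + 1)) (hd1 i)).2.1.trans ?_
      refine mul_le_mul_of_nonneg_right ?_ (hell0 i)
      have h4 : C * ‖X i - X (i + 1)‖ ≤ C * ((L₂ - L) / (C * L)) :=
        mul_le_mul_of_nonneg_left (hd3 i) hC.le
      have h5 : C * ((L₂ - L) / (C * L)) = (L₂ - L) / L := by
        field_simp
      linarith
    have h6 : 0 < 1 + (L₂ - L) / L := by positivity
    calc ∑ i, √(M.f (X i) * M.f (X (i + 1))) * ‖X (i + 1) - X i‖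
        ≤ ∑ i, (1 + (L₂ - L) / L) * ell M (X i) (X (i + 1)) :=
          Finset.sum_le_sum fun i _ => h3 i
      _ = (1 + (L₂ - L) / L) * ∑ i, ell M (X i) (X (i + 1)) := by rw [Finset.mul_sum]
      _ ≤ (1 + (L₂ - L) / L) * L := mul_le_mul_of_nonneg_left hlen'.le h6.le
      _ = L₂ := by
        field_simp
        ring
  obtain ⟨τ, hτ, hE⟩ := htau n X hlen hu hc1 hc2
  exact ⟨n, hn, τ, X, rfl, hτ, hu, hE⟩

end CGA
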