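import Pool.Agent.CGA.BTb

/-! PROJECT CGA, chunk B, module BIt.

Definition of the lift on tuples, independent of tau:
 I n X := if h : ∃ (_ : NeZero n) (tau : Fin n → ℝ), Adm d tau ∧ (∀ i, ‖X i‖ = 1) ∧ En M tau X < A
          then (JL_exists M hC (tau := chosen tau) ..).some.J X else 0    (open Classical).
Let tau be admissible, B < A and J a lift for tau (JL_exists).  On KE M tau B the function I n equals J.J (tau_indep; two instances
NeZero n are equal, Subsingleton), so it is continuous there (KE M tau B ⊆ KE M tau A), a lift, and small where En < e.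
-/

set_option linter.all false

namespace CGA

open scoped RealInnerProductSpace Real Topology
open MeasureTheory Set Filter

open Classical in
private noncomputable def BIt_J (M : Met) {A e d : ℝ} (hC : BC M A e d) (n : ℕ) (X : Fin n → E) : ℝ :=
  if h : ∃ (_ : NeZero n) (τ : Fin n → ℝ), Adm d τ ∧ (∀ i, ‖X i‖ = 1) ∧ En M τ X < A then
    @JL.J M n h.choose h.choose_spec.choose A e
      (@JL_exists M A e d hC n h.choose h.choose_spec.choose h.choose_spec.choose_spec.1).some X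
  else 0

private theorem BIt_eq (M : Met) {A e d : ℝ} (hC : BC M A e d) {n : ℕ} [NeZero n] {τ : Fin n → ℝ}
    (hτ : Adm d τ) (J0 : JL M τ A e) {X : Fin n → E} (hX : ∀ i, ‖X i‖ = 1) (hE : En M τ X < A) :
    BIt_J M hC n X = J0.J X := by
  have h : ∃ (_ : NeZero n) (τ : Fin n → ℝ), Adm d τ ∧ (∀ i, ‖X i‖ = 1) ∧ En M τ X < A :=
    ⟨inferInstance, τ, hτ, hX, hE⟩
  unfold BIt_J
  rw [dif_pos h]
  exact tau_indep M hC h.choose_spec.choose_spec.1 hτ _ J0 hX h.choose_spec.choose_spec.2.2 hE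

theorem IT_exists (M : Met) {A e d : ℝ} (hC : BC M A e d) : Nonempty (IT M A e d) := by
  have hsub : ∀ (n : ℕ) [NeZero n] (τ : Fin n → ℝ) (B : ℝ), B < A → ∀ X ∈ KE M τ B,
      X ∈ KE M τ A ∧ En M τ X < A := by
    intro n _ τ B hB X hX
    have h1 : En M τ X < A := lt_of_le_of_lt hX.2 hB
    exact ⟨⟨hX.1, h1.le⟩, h1⟩
  refine ⟨⟨BIt_J M hC, ?_, ?_, ?_⟩⟩
  · intro n _ τ hτ B hB
    obtain ⟨J0⟩ := JL_exists M hC hτ
    refine (J0.cont.mono fun X hX => (hsub n τ B hB X hX).1).congr fun X hX => ?_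
    exact BIt_eq M hC hτ J0 hX.1 (hsub n τ B hB X hX).2
  · intro n _ τ hτ B hB X hX
    obtain ⟨J0⟩ := JL_exists M hC hτ
    have h1 := J0.hol X (hsub n τ B hB X hX).1
    unfold IsL at h1 ⊢
    rw [BIt_eq M hC hτ J0 hX.1 (hsub n τ B hB X hX).2]
    exact h1
  · intro n _ τ hτ B hB X hX he
    obtain ⟨J0⟩ := JL_exists M hC hτ
    rw [BIt_eq M hC hτ J0 hX.1 (hsub n τ B hB X hX).2]
    exact J0.low X (hsub n τ B hB X hX).1 he

end CGA
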