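import Pool.Agent.CGA.BKc
import Pool.Agent.CGA.ABg

/-! PROJECT CGA, chunk B, module BJ.

The lift for fixed time steps.  K = KE M tau A is compact, b(X) = Bg(ofFn X) is continuous (continuous_Bg) and ≠ 0 on K,
so |b| >= b0 > 0 on K (if K is empty everything is trivial).  The set of unit tuples is compact, so b is uniformly
continuous there: there is eps > 0 with |b X - b Y| < b0 for unit X, Y with |X - Y| <= eps.
Take the deformation D : Desc M tau A (e/2) eps and phi = D.H 1: maps K to K, continuous on K (restrict cont), En(phi X) <= En X,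
En(phi X) <= En X - g if En X >= e/2.  Let N with N g > A.  Then En(phi^N X) < e/2 for X in K.
 J X := arg(b(phi^N X))/(2 pi) + sum_{j<N} arg(b(phi^j X)/b(phi^(j+1) X))/(2 pi).
-/

set_option linter.all false

namespace CGA

open scoped RealInnerProductSpace Real Topology
open MeasureTheory Set Filter

private theorem exp_arg_I {z : ℂ} (hz : z ≠ 0) :
    Complex.exp ((z.arg : ℂ) * Complex.I) = z / (‖z‖ : ℂ) := by
  have h := Complex.norm_mul_exp_arg_mul_I z
  have hn : (‖z‖ : ℂ) ≠ 0 := by
    simpa using hz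
  field_simp
  rw [mul_comm]
  exact h

private theorem arg_div_low {x y : ℂ} (hx : x ≠ 0) (hy : y ≠ 0) (h1 : |x.arg| < π / 4)
    (h2 : |y.arg| < π / 4) : (x / y).arg = x.arg - y.arg := by
  have h := Complex.arg_div_coe_angle hx hy
  rw [← Real.Angle.coe_sub] at h
  have h3 := congrArg Real.Angle.toReal h
  rw [Complex.arg_coe_angle_toReal_eq_arg] at h3
  rw [h3]
  rw [Real.Angle.toReal_coe_eq_self_iff]
  rw [abs_lt] at h1 h2
  constructor
  · linarith [Real.pi_pos]
  · linarith [Real.pi_pos]

theorem JL_exists (M : Met) {A e d : ℝ} (hC : BC M A e d) {n : ℕ} [NeZero n] {τ : Fin n → ℝ}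
    (hτ : Adm d τ) : Nonempty (JL M τ A e) := by
  classical
  set b : (Fin n → E) → ℂ := fun X => Bg (List.ofFn X) with hbdef
  have hb : Continuous b := continuous_Bg n
  have hK : IsCompact (KE M τ A) := KE_compact M τ A
  have hnz : ∀ X ∈ KE M τ A, b X ≠ 0 := fun X hX => hC.nz n τ hτ X hX
  -- lower bound
  obtain ⟨b0, hb0, hb0l⟩ : ∃ b0 > 0, ∀ X ∈ KE M τ A, b0 ≤ ‖b X‖ := by
    rcases (KE M τ A).eq_empty_or_nonempty with hemp | hne
    · exact ⟨1, one_pos, fun X hX => by rw [hemp] at hX; exact absurd hX (notMem_empty _)⟩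
    · obtain ⟨X0, hX0, hmin⟩ := hK.exists_isMinOn hne (hb.norm.continuousOn)
      exact ⟨‖b X0‖, norm_pos_iff.mpr (hnz X0 hX0), fun X hX => hmin hX⟩
  have huc := (UT_compact n).uniformContinuousOn_of_continuous (hb.continuousOn)
  rw [Metric.uniformContinuousOn_iff] at huc
  obtain ⟨δ, hδ, hδu⟩ := huc b0 hb0
  obtain ⟨D⟩ := hC.desc n τ hτ (δ / 2) (by positivity)
  set φ := D.H 1 with hφdef
  have h1 : (1:ℝ) ∈ Icc (0:ℝ) 1 := ⟨zero_le_one, le_rfl⟩
  have hφK : ∀ X ∈ KE M τ A, φ X ∈ KE M τ A := fun X hX =>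
    ⟨D.unit 1 h1 X hX, (D.le 1 h1 X hX).trans hX.2⟩
  have hφc : ContinuousOn φ (KE M τ A) := by
    have : ContinuousOn (fun X : Fin n → E => ((1:ℝ), X)) (KE M τ A) :=
      (continuous_const.prodMk continuous_id).continuousOn
    exact D.cont.comp this (fun X hX => ⟨h1, hX⟩)
  have hit : ∀ j : ℕ, ∀ X ∈ KE M τ A, φ^[j] X ∈ KE M τ A ∧ En M τ (φ^[j] X) ≤ En M τ X := by
    intro j
    induction j with
    | zero => intro X hX; exact ⟨hX, le_rfl⟩
    | succ k ih =>
      intro X hX
      rw [Function.iterate_succ_apply']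
      obtain ⟨h2, h3⟩ := ih X hX
      exact ⟨hφK _ h2, (D.le 1 h1 _ h2).trans h3⟩
  have hitc : ∀ j : ℕ, ContinuousOn (φ^[j]) (KE M τ A) := by
    intro j
    induction j with
    | zero => exact continuousOn_id
    | succ k ih =>
      rw [Function.iterate_succ']
      exact hφc.comp ih (fun X hX => (hit k X hX).1)
  obtain ⟨N, hN⟩ := exists_nat_gt (A / D.g)
  have hN' : A < N * D.g := by rwa [div_lt_iff₀ D.gpos] at hN
  have hepos := hC.epos
  have hlowN : ∀ X ∈ KE M τ A, En M τ (φ^[N] X) < e / 2 := by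
    intro X hX
    by_contra hcon
    rw [not_lt] at hcon
    have hmono : ∀ j k : ℕ, En M τ (φ^[k + j] X) ≤ En M τ (φ^[k] X) := by
      intro j k
      rw [add_comm, Function.iterate_add_apply]
      exact (hit j _ (hit k X hX).1).2
    have hall : ∀ j ≤ N, En M τ (φ^[j] X) ≤ A - j * D.g := by
      intro j
      induction j with
      | zero => intro _; simpa using hX.2
      | succ k ih =>
        intro hk
        have h2 := ih (by omega)
        have h3 : e / 2 ≤ En M τ (φ^[k] X) := by
          have := hmono (N - k) k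
          rw [Nat.add_sub_cancel' (by omega)] at this
          exact hcon.trans this
        rw [Function.iterate_succ_apply']
        have h4 := D.dec _ (hit k X hX).1 h3
        push_cast
        linarith
    have := hall N le_rfl
    linarith
  -- quotients
  set q : ℕ → (Fin n → E) → ℂ := fun j X => b (φ^[j] X) / b (φ^[j + 1] X) with hqdef
  have hbit : ∀ j : ℕ, ∀ X ∈ KE M τ A, b (φ^[j] X) ≠ 0 := fun j X hX => hnz _ (hit j X hX).1
  have hqre : ∀ j : ℕ, ∀ X ∈ KE M τ A, 0 < (q j X).re := by
    intro j X hX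
    have hXj := (hit j X hX).1
    have hXj1 := (hit (j + 1) X hX).1
    have hclose : dist (φ^[j] X) (φ^[j + 1] X) < δ := by
      rw [Function.iterate_succ_apply', dist_comm, dist_eq_norm]
      have := D.close _ hXj
      linarith
    have hd := hδu _ hXj.1 _ hXj1.1 hclose
    rw [dist_eq_norm] at hd
    have hlow1 := hb0l _ hXj1
    have hne := hbit (j + 1) X hX
    have h3 : ‖q j X - 1‖ < 1 := by
      have : q j X - 1 = (b (φ^[j] X) - b (φ^[j + 1] X)) / b (φ^[j + 1] X) := by
        simp only [hqdef]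
        field_simp
      rw [this, norm_div, div_lt_one (norm_pos_iff.mpr hne)]
      exact hd.trans_le hlow1
    have h4 := Complex.abs_re_le_norm (q j X - 1)
    have h5 := abs_lt.mp (h4.trans_lt h3)
    simp only [Complex.sub_re, Complex.one_re] at h5
    linarith [h5.1]
  have hqne : ∀ j : ℕ, ∀ X ∈ KE M τ A, q j X ≠ 0 := by
    intro j X hX h0
    have := hqre j X hX
    rw [h0] at this
    simp at this
  have hpi : (2 * π : ℝ) ≠ 0 := by positivity
  have hlowarg : ∀ X ∈ KE M τ A, En M τ X < e → |(b X).arg| < π / 4 := fun X hX h =>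
    hC.low n τ hτ X hX h
  refine ⟨⟨fun X => (b (φ^[N] X)).arg / (2 * π) +
      ∑ j ∈ Finset.range N, (q j X).arg / (2 * π), ?_, ?_, ?_⟩⟩
  · -- continuity
    refine ContinuousOn.add ?_ (continuousOn_finset_sum _ fun j _ => ?_)
    · refine ContinuousOn.div_const ?_ _
      intro X hX
      have hsl : b (φ^[N] X) ∈ Complex.slitPlane := by
        have h2 := hlowarg _ (hit N X hX).1 (by linarith [hlowN X hX])
        rw [Complex.mem_slitPlane_iff_arg]
        refine ⟨fun h => ?_, hbit N X hX⟩
        rw [h, abs_of_pos Real.pi_pos] at h2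
        linarith [Real.pi_pos]
      have h3 : ContinuousWithinAt (fun X => b (φ^[N] X)) (KE M τ A) X :=
        hb.continuousAt.comp_continuousWithinAt (hitc N X hX)
      exact ContinuousAt.comp_continuousWithinAt (g := Complex.arg) (f := fun X => b (φ^[N] X))
        (Complex.continuousAt_arg hsl) h3
    · refine ContinuousOn.div_const ?_ _
      intro X hX
      have h3 : ContinuousWithinAt (q j) (KE M τ A) X := by
        refine ContinuousWithinAt.div ?_ ?_ (hbit (j + 1) X hX)
        · exact hb.continuousAt.comp_continuousWithinAt (hitc j X hX)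
        · exact hb.continuousAt.comp_continuousWithinAt (hitc (j + 1) X hX)
      exact (Complex.continuousAt_arg (Or.inl (hqre j X hX))).comp_continuousWithinAt h3
  · -- lift
    intro X hX
    unfold IsL
    have hprod : ∀ m : ℕ, Complex.exp (((∑ j ∈ Finset.range m, (q j X).arg : ℝ) : ℂ) * Complex.I)
        = (b X / (‖b X‖ : ℂ)) / (b (φ^[m] X) / (‖b (φ^[m] X)‖ : ℂ)) := by
      intro m
      induction m with
      | zero =>
        have h2 := hbit 0 X hX
        simp only [Function.iterate_zero, id] at h2 ⊢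
        have h3 : (‖b X‖ : ℂ) ≠ 0 := by simpa using h2
        simp only [Finset.range_zero, Finset.sum_empty, Complex.ofReal_zero, zero_mul,
          Complex.exp_zero]
        rw [div_self (div_ne_zero h2 h3)]
      | succ k ih =>
        rw [Finset.sum_range_succ, Complex.ofReal_add, add_mul, Complex.exp_add, ih,
          exp_arg_I (hqne k X hX)]
        have h2 := hbit k X hX
        have h3 := hbit (k + 1) X hX
        have h4 : (‖b (φ^[k] X)‖ : ℂ) ≠ 0 := by simpa using h2
        have h5 : (‖b (φ^[k + 1] X)‖ : ℂ) ≠ 0 := by simpa using h3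
        have h6 : (‖b X‖ : ℂ) ≠ 0 := by simpa using hbit 0 X hX
        simp only [hqdef, norm_div, Complex.ofReal_div]
        field_simp
    have hsum : (2 * π * Complex.I * (((b (φ^[N] X)).arg / (2 * π) +
        ∑ j ∈ Finset.range N, (q j X).arg / (2 * π) : ℝ) : ℂ)) =
        ((b (φ^[N] X)).arg : ℂ) * Complex.I +
          ((∑ j ∈ Finset.range N, (q j X).arg : ℝ) : ℂ) * Complex.I := by
      rw [← Finset.sum_div]
      have : (π : ℂ) ≠ 0 := by exact_mod_cast Real.pi_ne_zero
      push_cast
      field_simp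
    show Complex.exp (2 * π * Complex.I * (((b (φ^[N] X)).arg / (2 * π) +
        ∑ j ∈ Finset.range N, (q j X).arg / (2 * π) : ℝ) : ℂ)) * (‖b X‖ : ℂ) = b X
    rw [hsum, Complex.exp_add, hprod N, exp_arg_I (hbit N X hX)]
    have h3 := hbit N X hX
    have h4 : (‖b (φ^[N] X)‖ : ℂ) ≠ 0 := by simpa using h3
    have h6 : (‖b X‖ : ℂ) ≠ 0 := by simpa using hbit 0 X hX
    field_simp
  · -- low
    intro X hX hE
    have hj : ∀ j : ℕ, |(b (φ^[j] X)).arg| < π / 4 := fun j =>
      hlowarg _ (hit j X hX).1 ((hit j X hX).2.trans_lt hE)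
    have hq : ∀ j : ℕ, (q j X).arg / (2 * π) =
        (b (φ^[j] X)).arg / (2 * π) - (b (φ^[j + 1] X)).arg / (2 * π) := by
      intro j
      have := arg_div_low (hbit j X hX) (hbit (j + 1) X hX) (hj j) (hj (j + 1))
      simp only [hqdef]
      rw [this, sub_div]
    have hs : ∑ j ∈ Finset.range N, (q j X).arg / (2 * π) =
        (b X).arg / (2 * π) - (b (φ^[N] X)).arg / (2 * π) := by
      rw [Finset.sum_congr rfl (fun j _ => hq j), Finset.sum_range_sub']
      rfl
    show |(b (φ^[N] X)).arg / (2 * π) + ∑ j ∈ Finset.range N, (q j X).arg / (2 * π)| < 1 / 8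
    rw [hs]
    have h5 := hj 0
    simp only [Function.iterate_zero, id] at h5
    have h6 : (b (φ^[N] X)).arg / (2 * π) + ((b X).arg / (2 * π) - (b (φ^[N] X)).arg / (2 * π))
        = (b X).arg / (2 * π) := by ring
    rw [h6, abs_div, abs_of_pos (by positivity : (0:ℝ) < 2 * π), div_lt_iff₀ (by positivity)]
    linarith

end CGA
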