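import Pool.Agent.CGA.BEn

/-! PROJECT CGA, chunk B, module BKc.

Compactness.  `UT_compact`: closed (finite intersection of closed conditions) and bounded in Fin n → E
(isCompact_univ_pi of spheres: the set is Set.pi univ (fun _ => Metric.sphere 0 1)).
`En_contOn`: ContDiffOn.continuousOn.  `KE_compact`: closed subset of UT_compact: preimage of Iic A
under a function continuous on the compact (closed) set (`ContinuousOn.preimage_isClosed_of_isClosed`).
-/

set_option linter.all false

namespace CGA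

open scoped RealInnerProductSpace Real Topology
open MeasureTheory Set Filter

theorem unit_ne0 {n : ℕ} {X : Fin n → E} (hX : ∀ i, ‖X i‖ = 1) (i : Fin n) : X i ≠ 0 := by
  intro h
  have h1 := hX i
  rw [h, norm_zero] at h1
  exact zero_ne_one h1

theorem UT_compact (n : ℕ) : IsCompact {X : Fin n → E | ∀ i, ‖X i‖ = 1} := by
  have h : {X : Fin n → E | ∀ i, ‖X i‖ = 1} =
      Set.pi univ (fun _ : Fin n => Metric.sphere (0 : E) 1) := by
    ext X
    simp [Set.mem_pi]
  rw [h]
  exact isCompact_univ_pi fun _ => isCompact_sphere 0 1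

theorem En_contOn (M : Met) {n : ℕ} [NeZero n] (τ : Fin n → ℝ) :
    ContinuousOn (En M τ) {X | ∀ i, X i ≠ 0} := (En_contDiffOn M τ).continuousOn

theorem En_contOn' (M : Met) {n : ℕ} [NeZero n] (τ : Fin n → ℝ) :
    ContinuousOn (En M τ) {X | ∀ i, ‖X i‖ = 1} :=
  (En_contOn M τ).mono fun _ hX i => unit_ne0 hX i

theorem KE_compact (M : Met) {n : ℕ} [NeZero n] (τ : Fin n → ℝ) (A : ℝ) :
    IsCompact (KE M τ A) := by
  have h1 : IsClosed ({X : Fin n → E | ∀ i, ‖X i‖ = 1} ∩ En M τ ⁻¹' Iic A) :=
    (En_contOn' M τ).preimage_isClosed_of_isClosed (UT_compact n).isClosed isClosed_Iic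
  have h2 : KE M τ A = {X : Fin n → E | ∀ i, ‖X i‖ = 1} ∩ En M τ ⁻¹' Iic A := rfl
  rw [h2]
  exact (UT_compact n).of_isClosed_subset h1 inter_subset_left

end CGA
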