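import Pool.Agent.CGA.BLi

/-! PROJECT CGA, chunk B, module BLc.

`onL_const`: replicate k x = ofFn X; all X i = x, so En = 0 < e and |J| < 1/8 (I.low with B = A/2 or any 0 <= B < A); Bg = 1 (Bg_dup, Bg_singleton by
 induction, k ≥ 1), so exp(2 pi i J) = 1, J is an integer, J = 0.
`onL_cont`: at X0 in S: DomL gives n', X', tau with ofFn X0 = ofFn X', so n = n', X0 = X' (List.ofFn_inj', or compare lengths and subst), and
 En tau X0 < A.  Choose B with En tau X0 < B < A.  En M tau is continuous at X0 within the unit tuples, so in a neighbourhood of X0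
 all X in S (unit by DomL) satisfy En tau X < B, hence lie in KE M tau B where I.J n is continuous; onL_ofFn.
-/

set_option linter.all false

namespace CGA

open scoped RealInnerProductSpace Real Topology
open MeasureTheory Set Filter

private theorem BLc_Bg {x : E} (hx : ‖x‖ = 1) (k : ℕ) : Bg (List.replicate (k + 1) x) = 1 := by
  induction k with
  | zero => exact Bg_singleton x
  | succ k ih =>
    rw [List.replicate_succ, List.replicate_succ, Bg_dup hx, ← List.replicate_succ]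
    exact ih

theorem onL_const (M : Met) {A e d : ℝ} (hC : BC M A e d) (I : IT M A e d) {x : E} {k : ℕ}
    (h : DomL M A d (List.replicate k x)) : onL I.J (List.replicate k x) = 0 := by
  obtain ⟨n, hn, τ, X, hl, hτ, hX, hE⟩ := h
  have hkn : k = n := by
    have h1 := congrArg List.length hl
    simpa using h1
  have hXx : ∀ i, X i = x := by
    intro i
    have h1 : X i ∈ List.ofFn X := by
      rw [List.mem_ofFn]
      exact ⟨i, rfl⟩
    rw [← hl] at h1
    exact List.eq_of_mem_replicate h1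
  have hx : ‖x‖ = 1 := by
    rw [← hXx 0]
    exact hX 0
  have hE0 : En M τ X = 0 := by
    unfold En
    refine Finset.sum_eq_zero fun i _ => ?_
    rw [hXx, hXx, sub_self, norm_zero]
    simp
  obtain ⟨j, hj⟩ : ∃ j, n = j + 1 := Nat.exists_eq_succ_of_ne_zero (NeZero.ne n)
  have hBg : Bg (List.ofFn X) = 1 := by
    rw [← hl, hkn, hj]
    exact BLc_Bg hx j
  have hlow := I.low n τ hτ 0 hC.Apos X ⟨hX, hE0.le⟩ (by rw [hE0]; exact hC.epos)
  have hhol := I.hol n τ hτ 0 hC.Apos X ⟨hX, hE0.le⟩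
  unfold IsL at hhol
  rw [hBg, norm_one, Complex.ofReal_one, mul_one] at hhol
  obtain ⟨m, hm⟩ := Complex.exp_eq_one_iff.1 hhol
  have h5 : (2 * π * Complex.I : ℂ) ≠ 0 := Complex.two_pi_I_ne_zero
  have h6 : ((I.J n X : ℝ) : ℂ) = (m : ℂ) := by
    apply mul_left_cancel₀ h5
    rw [hm]
    ring
  have h7 : I.J n X = m := by exact_mod_cast h6
  have h8 : |(m : ℝ)| < 1 := by
    rw [← h7]
    exact lt_trans hlow (by norm_num)
  have h9 : m = 0 := by
    have h10 : |m| < 1 := by exact_mod_cast h8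
    exact Int.abs_lt_one_iff.1 h10
  rw [hl, onL_ofFn, h7, h9, Int.cast_zero]

theorem onL_cont (M : Met) {A e d : ℝ} (I : IT M A e d) {n : ℕ} {S : Set (Fin n → E)}
    (hS : ∀ X ∈ S, DomL M A d (List.ofFn X)) :
    ContinuousOn (fun X => onL I.J (List.ofFn X)) S := by
  have hcomp : ∀ X ∈ S, ∃ (_ : NeZero n) (τ : Fin n → ℝ), Adm d τ ∧ (∀ i, ‖X i‖ = 1) ∧
      En M τ X < A := by
    intro X hX
    obtain ⟨m, hm, τ, Y, hl, hτ, hY, hE⟩ := hS X hX
    have hnm : n = m := by
      have h1 := congrArg List.length hl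
      simpa using h1
    subst hnm
    have hXY : X = Y := List.ofFn_injective hl
    subst hXY
    exact ⟨hm, τ, hτ, hY, hE⟩
  have hfun : (fun X : Fin n → E => onL I.J (List.ofFn X)) = I.J n := by
    funext X
    exact onL_ofFn I.J X
  rw [hfun]
  intro X₀ hX₀
  obtain ⟨hn, τ, hτ, hX₀u, hE⟩ := hcomp X₀ hX₀
  obtain ⟨B, hB1, hB2⟩ := exists_between hE
  have hSu : ∀ X ∈ S, ∀ i, ‖X i‖ = 1 := fun X hX => by
    obtain ⟨_, _, _, h, _⟩ := hcomp X hX
    exact h
  have hJc : ContinuousWithinAt (I.J n) (KE M τ B) X₀ := I.cont n τ hτ B hB2 X₀ ⟨hX₀u, hB1.le⟩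
  refine hJc.mono_of_mem_nhdsWithin ?_
  have hEc : ContinuousWithinAt (En M τ) {X : Fin n → E | ∀ i, ‖X i‖ = 1} X₀ :=
    En_contOn' M τ X₀ hX₀u
  have hev : ∀ᶠ X in 𝓝[{X : Fin n → E | ∀ i, ‖X i‖ = 1}] X₀, En M τ X < B :=
    hEc.eventually (gt_mem_nhds hB1)
  have hev' : ∀ᶠ X in 𝓝[S] X₀, En M τ X < B :=
    hev.filter_mono (nhdsWithin_mono _ fun X hX => hSu X hX)
  filter_upwards [hev', self_mem_nhdsWithin] with X hX1 hX2
  exact ⟨hSu X hX2, hX1.le⟩

end CGA
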