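import Pool.Agent.CGA.BRo

/-! PROJECT CGA, chunk B, module BLi.

List versions.  `onL_ofFn`: List.ofFn X = equivSigmaTuple.symm ⟨n, X⟩ definitionally, Equiv.apply_symm_apply.
Everything else: unpack DomL (l = ofFn X), use onL_ofFn, ofFn_rot, ofFn_rev', List.ofFn_cons, rot_dom, rev_dom, dup_dom
(c > 1 with c En < A; if En <= 0 take c = 2), IT_rot, IT_rev, IT_dup.
For the duplication: x :: l = ofFn X with n ≥ 1 gives x = X 0, x :: x :: l = ofFn (Fin.cons (X 0) X).
-/

set_option linter.all false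

namespace CGA

open scoped RealInnerProductSpace Real Topology
open MeasureTheory Set Filter

theorem onL_ofFn (J : ∀ n : ℕ, (Fin n → E) → ℝ) {n : ℕ} (X : Fin n → E) :
    onL J (List.ofFn X) = J n X := by
  have h : List.equivSigmaTuple (List.ofFn X) = ⟨n, X⟩ :=
    List.equivSigmaTuple.apply_symm_apply ⟨n, X⟩
  unfold onL
  rw [h]

private theorem BLi_head {n : ℕ} [NeZero n] {X : Fin n → E} {x : E} {l : List E}
    (h : x :: l = List.ofFn X) : x :: x :: l = List.ofFn (Fin.cons (X 0) X : Fin (n + 1) → E) := by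
  have hx : x = X 0 := by
    cases n with
    | zero => exact absurd rfl (NeZero.ne 0)
    | succ m =>
      rw [List.ofFn_succ] at h
      injection h
  rw [List.ofFn_cons, ← h, ← hx]

private theorem BLi_c {u A : ℝ} (h : u < A) : ∃ c : ℝ, 1 < c ∧ c * u < A := by
  rcases le_or_gt u 0 with h0 | h0
  · exact ⟨2, by norm_num, by linarith⟩
  · refine ⟨(1 + A / u) / 2, ?_, ?_⟩
    · have : 1 < A / u := by
        rw [lt_div_iff₀ h0]
        linarith
      linarith
    · have : (1 + A / u) / 2 * u = (u + A) / 2 := by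
        field_simp
      rw [this]
      linarith

theorem DomL_dup (M : Met) {A d : ℝ} (hd : 0 < d) {x : E} {l : List E}
    (h : DomL M A d (x :: l)) : DomL M A d (x :: x :: l) := by
  obtain ⟨n, hn, τ, X, hl, hτ, hX, hE⟩ := h
  obtain ⟨c, hc, hcE⟩ := BLi_c hE
  obtain ⟨τ', hτ', hd'⟩ := dup_dom M hd hτ hc
  refine ⟨n + 1, inferInstance, τ', (Fin.cons (X 0) X : Fin (n + 1) → E), BLi_head hl, hτ',
    fun i => ?_, lt_of_le_of_lt (hd' X hX) hcE⟩
  refine Fin.cases ?_ (fun j => ?_) i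
  · rw [Fin.cons_zero]
    exact hX 0
  · rw [Fin.cons_succ]
    exact hX j

theorem onL_dup (M : Met) {A e d : ℝ} (hC : BC M A e d) (I : IT M A e d) {x : E} {l : List E}
    (h : DomL M A d (x :: l)) : onL I.J (x :: x :: l) = onL I.J (x :: l) := by
  obtain ⟨n, hn, τ, X, hl, hτ, hX, hE⟩ := h
  rw [BLi_head hl, hl, onL_ofFn, onL_ofFn]
  exact IT_dup M hC I hτ hX hE

theorem DomL_rot (M : Met) {A d : ℝ} {l : List E} (h : DomL M A d l) :
    DomL M A d (l.rotate 1) := by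
  obtain ⟨n, hn, τ, X, hl, hτ, hX, hE⟩ := h
  obtain ⟨τ', hτ', hd'⟩ := rot_dom M hτ
  exact ⟨n, hn, τ', fun i => X (i + 1), by rw [hl, ofFn_rot], hτ', fun i => hX _, by
    rw [hd']
    exact hE⟩

theorem onL_rot (M : Met) {A e d : ℝ} (hC : BC M A e d) (I : IT M A e d) {l : List E}
    (h : DomL M A d l) : onL I.J (l.rotate 1) = onL I.J l := by
  obtain ⟨n, hn, τ, X, hl, hτ, hX, hE⟩ := h
  rw [hl, ← ofFn_rot, onL_ofFn, onL_ofFn]
  exact IT_rot M hC I hτ hX hE

theorem DomL_rev (M : Met) {A d : ℝ} {l : List E} (h : DomL M A d l) :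
    DomL M A d l.reverse := by
  obtain ⟨n, hn, τ, X, hl, hτ, hX, hE⟩ := h
  obtain ⟨τ', hτ', hd'⟩ := rev_dom M hτ
  exact ⟨n, hn, τ', fun i => X i.rev, by rw [hl, ofFn_rev'], hτ', fun i => hX _, by
    rw [hd']
    exact hE⟩

theorem onL_rev (M : Met) {A e d : ℝ} (hC : BC M A e d) (I : IT M A e d) {l : List E}
    (h : DomL M A d l) : onL I.J l.reverse = - onL I.J l := by
  obtain ⟨n, hn, τ, X, hl, hτ, hX, hE⟩ := h
  rw [hl, ← ofFn_rev', onL_ofFn, onL_ofFn]
  exact IT_rev M hC I hτ hX hE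

theorem onL_hol (M : Met) {A e d : ℝ} (I : IT M A e d) {l : List E} (h : DomL M A d l) :
    Complex.exp (2 * π * Complex.I * (onL I.J l : ℂ)) * (‖Bg l‖ : ℂ) = Bg l := by
  obtain ⟨n, hn, τ, X, hl, hτ, hX, hE⟩ := h
  rw [hl, onL_ofFn]
  exact I.hol n τ hτ _ hE X ⟨hX, le_rfl⟩

end CGA
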