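import Pool.Agent.CGA.BLc
import Pool.Agent.CGA.BFi
import Pool.Agent.CGA.BIt
import Pool.Agent.CGA.BCe

/-! PROJECT CGA, chunk B, module BPd.

Final assembly.  A = L1^2, constants e, d from BC_exists, I from IT_exists, N ≥ 1, delta from DomL_of_fine.
padL N (x :: l) = replicate N x ++ x :: l.   Lift.I l := onL I.J (padL N l).
FineL is closed under duplication of the head (FineL.dup), rotation, reversal (ACyc), so padL N l and all lists below are fine of
length ≥ N, hence in DomL.
 remHead: onL (replicate k x ++ x :: l) = onL (x :: l) if FineL (x :: l) and N ≤ length (x :: l)  (induction, onL_dup).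
 rotation by any amount: onL (l.rotate k) = onL l; so onL (a ++ b) = onL (b ++ a)  (List.rotate_append_length_eq).
 remLast: onL (l ++ replicate k x ++ [x]) = onL (l ++ [x])  (rotate, remHead, rotate).
 cont: for n = 0 the set is empty; for n + 1: padL N (ofFn X) = ofFn (Fin.append (fun _ => X 0) X) (List.ofFn_fin_append, List.ofFn_const), onL_cont and
   continuity of X ↦ Fin.append (fun _ => X 0) X.
 hol: onL_hol, Bg(padL N l) = Bg l (Bg_dup, induction).
 dup: both sides reduce by remHead: padL N (x::x::l) = replicate (N+1) x ++ x :: l = x :: x :: (replicate (N-1) x ++ x :: l), onL_dup.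
 rot: l = [x]: trivial.  l = x :: y :: l'': W = replicate N y ++ y :: l'' ++ replicate N x ++ [x].  remLast: onL W = onL(replicate N y ++ y :: l'' ++ [x]) = I(l.rotate 1);
   remHead: onL W = onL(y :: l'' ++ replicate N x ++ [x]) = (rotation) onL(replicate N x ++ x :: y :: l'') = I(l).
 rev: l = x :: l', z = head of l.reverse; W = replicate N z ++ l.reverse ++ replicate N x: remLast: onL W = I(l.reverse) (l.reverse ends with x);
   remHead: onL W = onL(l.reverse ++ replicate N x) = onL((replicate N x ++ l).reverse) = - I(l).
 sing: padL N [x] = replicate (N+1) x, onL_const.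
-/

set_option linter.all false

namespace CGA

open scoped RealInnerProductSpace Real Topology
open MeasureTheory Set Filter

private structure BPdF (M : Met) (δ L : ℝ) (N : ℕ) (F : List E → ℝ) : Prop where
  dup : ∀ x l, FineL M δ L (x :: l) → N ≤ (x :: l).length → F (x :: x :: l) = F (x :: l)
  rot : ∀ l, FineL M δ L l → N ≤ l.length → F (l.rotate 1) = F l
  rev : ∀ l, FineL M δ L l → N ≤ l.length → F l.reverse = - F l

private theorem BPd_rep (k : ℕ) (x : E) (l : List E) :
    List.replicate k x ++ x :: l = x :: (List.replicate k x ++ l) := by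
  induction k with
  | zero => rfl
  | succ k ih => rw [List.replicate_succ, List.cons_append, ih, List.cons_append]

private theorem BPd_fineRep {M : Met} {δ L : ℝ} (hδ : 0 ≤ δ) (k : ℕ) {x : E} {l : List E}
    (h : FineL M δ L (x :: l)) : FineL M δ L (List.replicate k x ++ x :: l) := by
  induction k with
  | zero => exact h
  | succ k ih =>
    rw [List.replicate_succ, List.cons_append, BPd_rep]
    rw [BPd_rep] at ih
    exact ih.dup hδ

private theorem BPd_fineComm {M : Met} {δ L : ℝ} {a b : List E} (h : FineL M δ L (a ++ b)) :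
    FineL M δ L (b ++ a) := by
  rw [← List.rotate_append_length_eq a b]
  exact h.rotate _

private theorem BPdF.rotK {M : Met} {δ L : ℝ} {N : ℕ} {F : List E → ℝ} (hF : BPdF M δ L N F)
    (k : ℕ) {l : List E} (h : FineL M δ L l) (hN : N ≤ l.length) : F (l.rotate k) = F l := by
  induction k with
  | zero => rw [List.rotate_zero]
  | succ k ih =>
    rw [← List.rotate_rotate, hF.rot _ (h.rotate k) (by rwa [List.length_rotate]), ih]

private theorem BPdF.comm {M : Met} {δ L : ℝ} {N : ℕ} {F : List E → ℝ} (hF : BPdF M δ L N F)
    {a b : List E} (h : FineL M δ L (a ++ b)) (hN : N ≤ (a ++ b).length) :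
    F (b ++ a) = F (a ++ b) := by
  rw [← List.rotate_append_length_eq a b]
  exact hF.rotK _ h hN

private theorem BPdF.remHead {M : Met} {δ L : ℝ} (hδ : 0 ≤ δ) {N : ℕ} {F : List E → ℝ}
    (hF : BPdF M δ L N F) (k : ℕ) {x : E} {l : List E} (h : FineL M δ L (x :: l))
    (hN : N ≤ (x :: l).length) : F (List.replicate k x ++ x :: l) = F (x :: l) := by
  induction k with
  | zero => rfl
  | succ k ih =>
    have h1 := BPd_fineRep hδ k h
    rw [List.replicate_succ, List.cons_append]
    rw [BPd_rep] at h1 ih ⊢
    rw [hF.dup x _ h1 ?_, ih]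
    simp only [List.length_cons, List.length_append] at hN ⊢
    omega

private theorem BPdF.remLast {M : Met} {δ L : ℝ} (hδ : 0 ≤ δ) {N : ℕ} {F : List E → ℝ}
    (hF : BPdF M δ L N F) (k : ℕ) {x : E} {l : List E} (h : FineL M δ L (l ++ [x]))
    (hN : N ≤ (l ++ [x]).length) :
    F (l ++ (List.replicate k x ++ [x])) = F (l ++ [x]) ∧
      FineL M δ L (l ++ (List.replicate k x ++ [x])) := by
  have h1 : FineL M δ L (x :: l) := BPd_fineComm (a := l) (b := [x]) h
  have h2 := BPd_fineRep hδ k h1
  have h3 : List.replicate k x ++ x :: l = (List.replicate k x ++ [x]) ++ l := by simp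
  have hN1 : N ≤ (x :: l).length := by
    simp only [List.length_cons, List.length_append, List.length_nil] at hN ⊢
    omega
  rw [h3] at h2
  refine ⟨?_, BPd_fineComm h2⟩
  rw [hF.comm h2 ?_, ← h3, hF.remHead hδ k h1 hN1]
  · have h4 := hF.comm (a := [x]) (b := l) h1 hN1
    exact h4.symm
  · simp only [List.length_cons, List.length_append, List.length_nil] at hN ⊢
    omega

private def BPd_pad (N : ℕ) : List E → List E
  | [] => []
  | x :: l => List.replicate N x ++ x :: l

private theorem BPd_cont {M : Met} {δ L : ℝ} {N : ℕ} {F : List E → ℝ} (hδ : 0 ≤ δ)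
    (hF : ∀ n : ℕ, ContinuousOn (fun X : Fin n → E => F (List.ofFn X))
      {X | FineL M δ L (List.ofFn X) ∧ N ≤ (List.ofFn X).length}) (n : ℕ) :
    ContinuousOn (fun X : Fin n → E => F (BPd_pad N (List.ofFn X)))
      {X | FineL M δ L (List.ofFn X)} := by
  cases n with
  | zero =>
    have h0 : {X : Fin 0 → E | FineL M δ L (List.ofFn X)} = ∅ := by
      ext X
      simp only [mem_setOf_eq, mem_empty_iff_false, iff_false]
      intro h
      exact h.ne (by simp)
    rw [h0]
    exact continuousOn_empty _
  | succ n =>
    have h1 : ∀ X : Fin (n + 1) → E, BPd_pad N (List.ofFn X) =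
        List.ofFn (Fin.append (fun _ : Fin N => X 0) X) := by
      intro X
      rw [List.ofFn_fin_append, List.ofFn_const, List.ofFn_succ]
      rfl
    have h2 : Continuous fun X : Fin (n + 1) → E =>
        (Fin.append (fun _ : Fin N => X 0) X : Fin (N + (n + 1)) → E) := by
      refine continuous_pi fun i => ?_
      refine Fin.addCases (fun i => ?_) (fun i => ?_) i
      · simp only [Fin.append_left]
        exact continuous_apply 0
      · simp only [Fin.append_right]
        exact continuous_apply i
    have h3 := (hF (N + (n + 1))).comp (h2.continuousOn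
      (s := {X : Fin (n + 1) → E | FineL M δ L (List.ofFn X)})) ?_
    · refine h3.congr fun X _ => ?_
      simp only [Function.comp]
      rw [h1]
    · intro X hX
      simp only [mem_setOf_eq] at hX ⊢
      rw [← h1]
      rw [List.ofFn_succ] at hX ⊢
      refine ⟨BPd_fineRep hδ N hX, ?_⟩
      simp [BPd_pad]

theorem lift_of_noCrit (M : Met) {L L₁ : ℝ} (hL : 0 < L) (hLL : L < L₁)
    (hcrit : ∀ e₀ > (0:ℝ), ∃ δ > 0, ∀ (n : ℕ) [NeZero n] (τ : Fin n → ℝ) (X : Fin n → E),
      (∀ i, 0 < τ i) → (∀ i, τ i ≤ δ) → ∑ i, τ i = 1 → (∀ i, ‖X i‖ = 1) → e₀ ≤ En M τ X →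
      En M τ X ≤ L₁ ^ 2 → ∃ i v, ⟪X i, v⟫ = 0 ∧ ⟪GrC M τ X i, v⟫ ≠ 0) :
    ∃ δ > 0, δ ≤ 1 ∧ Nonempty (Lift M δ L) := by
  obtain ⟨e, d, hC⟩ := BC_exists M (L := L₁) (hL.trans hLL) hcrit
  obtain ⟨I⟩ := IT_exists M hC
  obtain ⟨N, hN1, δ, hδ, hδ1, hdom⟩ := DomL_of_fine M hL hLL hC.dpos
  refine ⟨δ, hδ, hδ1, ⟨?_⟩⟩
  have hF : BPdF M δ L N (onL I.J) :=
    ⟨fun x l h hN => onL_dup M hC I (hdom _ h hN), fun l h hN => onL_rot M hC I (hdom _ h hN),
      fun l h hN => onL_rev M hC I (hdom _ h hN)⟩
  have hlen : ∀ (x : E) (l : List E), N ≤ (List.replicate N x ++ x :: l).length := by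
    intro x l
    simp
  have hBg : ∀ (k : ℕ) (x : E) (l : List E), ‖x‖ = 1 →
      Bg (List.replicate k x ++ x :: l) = Bg (x :: l) := by
    intro k x l hx
    induction k with
    | zero => rfl
    | succ k ih =>
      rw [List.replicate_succ, List.cons_append]
      rw [BPd_rep] at ih ⊢
      rw [Bg_dup hx, ih]
  refine
    { I := fun l => onL I.J (BPd_pad N l)
      cont := ?_
      hol := ?_
      dup := ?_
      rot := ?_
      rev := ?_
      sing := ?_ }
  · refine BPd_cont hδ.le fun n => onL_cont M I fun X hX => ?_
    exact hdom _ hX.1 hX.2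
  · intro l h
    cases l with
    | nil => exact absurd rfl h.ne
    | cons x l =>
      have h1 := onL_hol M I (hdom _ (BPd_fineRep hδ.le N h) (hlen x l))
      rw [hBg N x l (h.unit x List.mem_cons_self)] at h1
      exact h1
  · intro x l h
    have h1 := BPd_fineRep hδ.le N h
    change onL I.J (List.replicate N x ++ x :: x :: l) = onL I.J (List.replicate N x ++ x :: l)
    have h2 := hlen x l
    rw [BPd_rep, BPd_rep]
    rw [BPd_rep] at h1 h2
    exact hF.dup x _ h1 h2
  · intro l h
    rcases l with _ | ⟨x, _ | ⟨y, l⟩⟩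
    · exact absurd rfl h.ne
    · simp
    · change onL I.J (List.replicate N y ++ y :: (l ++ [x])) =
        onL I.J (List.replicate N x ++ x :: y :: l)
      have hr : FineL M δ L (y :: (l ++ [x])) := h.rotate 1
      have hA : FineL M δ L ((List.replicate N y ++ y :: l) ++ [x]) := by
        have := BPd_fineRep hδ.le N hr
        simpa using this
      have hAl : N ≤ ((List.replicate N y ++ y :: l) ++ [x]).length := by simp
      have h1 := (hF.remLast hδ.le N hA hAl).1
      have hB : FineL M δ L ((List.replicate N x ++ [x]) ++ (y :: l)) := by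
        have := BPd_fineRep hδ.le N h
        simpa using this
      have hBl : N ≤ ((List.replicate N x ++ [x]) ++ (y :: l)).length := by simp
      have hB' := BPd_fineComm hB
      have h2 := hF.comm hB hBl
      have h3 := hF.remHead hδ.le N (x := y) (l := l ++ (List.replicate N x ++ [x]))
        hB' (by simp; omega)
      have e1 : List.replicate N y ++ y :: (l ++ [x]) = (List.replicate N y ++ y :: l) ++ [x] := by
        simp
      have e2 : List.replicate N x ++ x :: y :: l = (List.replicate N x ++ [x]) ++ (y :: l) := by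
        simp
      have e3 : List.replicate N y ++ y :: (l ++ (List.replicate N x ++ [x])) =
          (List.replicate N y ++ y :: l) ++ (List.replicate N x ++ [x]) := by simp
      rw [e1, e2, ← h1, ← h2, ← e3, h3]
      rfl
  · intro l h
    obtain ⟨x, l', rfl⟩ : ∃ x l', l = x :: l' := by
      cases l with
      | nil => exact absurd rfl h.ne
      | cons x l' => exact ⟨x, l', rfl⟩
    have hr : FineL M δ L (x :: l').reverse := h.reverse
    obtain ⟨z, m, hz⟩ : ∃ z m, (x :: l').reverse = z :: m := by
      cases hc : (x :: l').reverse with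
      | nil => exact absurd hc hr.ne
      | cons z m => exact ⟨z, m, rfl⟩
    have hrev : (x :: l').reverse = l'.reverse ++ [x] := by simp
    change onL I.J (BPd_pad N (x :: l').reverse) = - onL I.J (List.replicate N x ++ x :: l')
    rw [hz]
    change onL I.J (List.replicate N z ++ z :: m) = _
    rw [hz] at hr
    have hA : FineL M δ L ((List.replicate N z ++ l'.reverse) ++ [x]) := by
      have h1 := BPd_fineRep hδ.le N hr
      rw [← hz, hrev, ← List.append_assoc] at h1
      exact h1
    have h1 := (hF.remLast hδ.le N hA (by simp)).1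
    have hB : FineL M δ L (List.replicate N x ++ x :: l').reverse :=
      (BPd_fineRep hδ.le N h).reverse
    have eB : (List.replicate N x ++ x :: l').reverse = z :: (m ++ List.replicate N x) := by
      rw [List.reverse_append, hz, List.reverse_replicate]
      rfl
    have h2 := hF.rev _ (BPd_fineRep hδ.le N h) (hlen x l')
    rw [eB] at h2 hB
    have h3 := hF.remHead hδ.le N hB (by simp; omega)
    have e1 : List.replicate N z ++ z :: m = (List.replicate N z ++ l'.reverse) ++ [x] := by
      rw [← hz, hrev, List.append_assoc]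
    have e2 : List.replicate N z ++ z :: (m ++ List.replicate N x) =
        (List.replicate N z ++ l'.reverse) ++ (List.replicate N x ++ [x]) := by
      have e3 : z :: (m ++ List.replicate N x) = (l'.reverse ++ [x]) ++ List.replicate N x := by
        rw [← hrev, hz]
        rfl
      have e4 : [x] ++ List.replicate N x = List.replicate N x ++ [x] := by
        rw [BPd_rep]
        simp
      rw [e3, List.append_assoc, List.append_assoc, e4]
    rw [e1, ← h1, ← e2, h3, h2]
  · intro x hx
    have h1 : FineL M δ L [x] := by
      refine ⟨by simp, ?_, ?_, ?_⟩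
      · intro y hy
        rw [List.mem_singleton.1 hy]
        exact hx
      · intro e he
        have h2 : cyc [x] = [(x, x)] := by simp [cyc]
        rw [h2, List.mem_singleton] at he
        rw [he]
        simpa using hδ.le
      · have h2 : cyc [x] = [(x, x)] := by simp [cyc]
        rw [h2]
        unfold llen
        simpa using hL
    change onL I.J (List.replicate N x ++ x :: []) = 0
    have h2 : List.replicate N x ++ x :: [] = List.replicate (N + 1) x := by
      rw [List.replicate_succ']
    have h3 := hdom _ (BPd_fineRep hδ.le N h1) (hlen x [])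
    rw [h2] at h3 ⊢
    exact onL_const M hC I h3

end CGA
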