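import Pool.Agent.CGA.BTr
import Pool.Agent.CGA.BDo
import Pool.Agent.CGA.ABg

/-! PROJECT CGA, chunk B, module BRo.

Symmetries of the lift, from IT_transfer (with c = 1, s = ±1; or c > 1 with c En < A for the duplication) and rot_dom, rev_dom, dup_dom.
 lists: List.ofFn (fun i => X (i+1)) = (List.ofFn X).rotate 1 (List.ext_getElem, values of Fin addition mod n; see `ofFn_rot`),
 List.ofFn (fun i => X i.rev) = (List.ofFn X).reverse, List.ofFn (Fin.cons (X 0) X) = X 0 :: List.ofFn X and
 List.ofFn X = X 0 :: l' (n ≥ 1).  Bg_rotate, Bg_reverse (conjugate; the conjugate of exp(2 pi i J)|b| is exp(-2 pi i J)|b|),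
 Bg_dup.
-/

set_option linter.all false

namespace CGA

open scoped RealInnerProductSpace Real Topology
open MeasureTheory Set Filter

theorem ofFn_rot {n : ℕ} [NeZero n] (X : Fin n → E) :
    List.ofFn (fun i => X (i + 1)) = (List.ofFn X).rotate 1 := by
  apply List.ext_getElem
  · simp
  · intro i h1 h2
    rw [List.getElem_ofFn, List.getElem_rotate, List.getElem_ofFn]
    congr 1
    apply Fin.ext
    rw [Fin.val_add]
    have hn : 0 < n := Nat.pos_of_ne_zero (NeZero.ne n)
    rcases Nat.lt_or_ge 1 n with h | h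
    · have h1 : ((1 : Fin n) : ℕ) = 1 := by
        rw [Fin.val_one', Nat.mod_eq_of_lt h]
      simp [h1]
    · have : n = 1 := by omega
      subst this
      simp [Nat.mod_one]

theorem ofFn_rev' {n : ℕ} (X : Fin n → E) :
    List.ofFn (fun i => X i.rev) = (List.ofFn X).reverse := by
  apply List.ext_getElem
  · simp
  · intro i h1 h2
    rw [List.getElem_ofFn, List.getElem_reverse, List.getElem_ofFn]
    congr 1
    apply Fin.ext
    simp [Fin.val_rev]
    omega

theorem IT_rot (M : Met) {A e d : ℝ} (hC : BC M A e d) (I : IT M A e d) {n : ℕ}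
    [NeZero n] {τ : Fin n → ℝ} (hτ : Adm d τ) {X : Fin n → E}
    (hX : ∀ i, ‖X i‖ = 1) (hE : En M τ X < A) : I.J n (fun i => X (i + 1)) = I.J n X := by
  obtain ⟨τ', hτ', h⟩ := rot_dom M hτ
  have key := IT_transfer M hC I hτ hτ' (T := fun X : Fin n → E => fun i => X (i + 1))
    (by fun_prop) (fun X hX i => hX _) (c := 1) le_rfl (by norm_num)
    (fun X hX => by rw [h X, one_mul]) (s := 1)
    (fun X hX hL => by
      unfold IsL at hL ⊢
      simp only [ofFn_rot, Bg_rotate, one_mul] at hL ⊢
      exact hL)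
    (by simp) hX (by rw [one_mul]; exact hE)
  rw [one_mul] at key
  exact key

theorem IT_rev (M : Met) {A e d : ℝ} (hC : BC M A e d) (I : IT M A e d) {n : ℕ}
    [NeZero n] {τ : Fin n → ℝ} (hτ : Adm d τ) {X : Fin n → E}
    (hX : ∀ i, ‖X i‖ = 1) (hE : En M τ X < A) : I.J n (fun i => X i.rev) = - I.J n X := by
  obtain ⟨τ', hτ', h⟩ := rev_dom M hτ
  have key := IT_transfer M hC I hτ hτ' (T := fun X : Fin n → E => fun i => X i.rev)
    (by fun_prop) (fun X hX i => hX _) (c := 1) le_rfl (by norm_num)
    (fun X hX => by rw [h X, one_mul]) (s := -1)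
    (fun X hX hL => by
      unfold IsL at hL ⊢
      simp only [ofFn_rev', Bg_reverse, RCLike.norm_conj] at hL ⊢
      have h2 := congrArg (starRingEnd ℂ) hL
      rw [map_mul, Complex.conj_conj, ← Complex.exp_conj, Complex.conj_ofReal] at h2
      refine Eq.trans ?_ h2
      congr 2
      have h3 : (starRingEnd ℂ) (2:ℂ) = 2 := Complex.conj_ofNat 2
      simp [h3])
    (by simp) hX (by rw [one_mul]; exact hE)
  rw [← key]
  ring

theorem IT_dup (M : Met) {A e d : ℝ} (hC : BC M A e d) (I : IT M A e d) {n : ℕ}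
    [NeZero n] {τ : Fin n → ℝ} (hτ : Adm d τ) {X : Fin n → E}
    (hX : ∀ i, ‖X i‖ = 1) (hE : En M τ X < A) :
    I.J (n + 1) (Fin.cons (X 0) X : Fin (n + 1) → E) = I.J n X := by
  have hE0 : 0 ≤ En M τ X := En_nonneg M hτ.pos hX
  obtain ⟨c, hc1, hc2, hcE⟩ : ∃ c : ℝ, 1 < c ∧ c ≤ 2 ∧ c * En M τ X < A := by
    refine ⟨1 + min 1 ((A - En M τ X) / (2 * (En M τ X + 1))), ?_, ?_, ?_⟩
    · have : 0 < min 1 ((A - En M τ X) / (2 * (En M τ X + 1))) := by
        apply lt_min one_pos
        apply div_pos (by linarith) (by linarith)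
      linarith
    · have := min_le_left 1 ((A - En M τ X) / (2 * (En M τ X + 1)))
      linarith
    · have h1 := min_le_right 1 ((A - En M τ X) / (2 * (En M τ X + 1)))
      have h2 : En M τ X * ((A - En M τ X) / (2 * (En M τ X + 1))) < A - En M τ X := by
        rw [← mul_div_assoc, div_lt_iff₀ (by linarith)]
        nlinarith
      have h3 := mul_le_mul_of_nonneg_left h1 hE0
      nlinarith
  obtain ⟨τ', hτ', h⟩ := dup_dom M hC.dpos hτ hc1
  have key := IT_transfer M hC I hτ hτ'
    (T := fun X : Fin n → E => (Fin.cons (X 0) X : Fin (n + 1) → E))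
    (by
      refine continuous_pi fun i => ?_
      refine Fin.cases ?_ (fun j => ?_) i
      · simpa using continuous_apply (0 : Fin n)
      · simpa using continuous_apply j)
    (fun X hX i => by
      refine Fin.cases ?_ (fun j => ?_) i
      · simpa using hX 0
      · simpa using hX j)
    (c := c) hc1.le hc2
    (fun X hX => h X hX) (s := 1)
    (fun X hX hL => by
      have hB : Bg (List.ofFn (Fin.cons (X 0) X : Fin (n + 1) → E)) = Bg (List.ofFn X) := by
        obtain ⟨m, rfl⟩ : ∃ m, n = m + 1 := ⟨n - 1, by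
          have := NeZero.pos n
          omega⟩
        have h1 : List.ofFn (Fin.cons (X 0) X : Fin (m + 1 + 1) → E) = X 0 :: List.ofFn X := by
          rw [List.ofFn_succ]
          simp
        rw [h1, List.ofFn_succ]
        exact Bg_dup (hX 0) _
      unfold IsL at hL ⊢
      simp only [one_mul, hB] at hL ⊢
      exact hL)
    (by simp) hX hcE
  rw [one_mul] at key
  exact key

end CGA
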