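import Pool.Agent.CGA.BUq

/-! PROJECT CGA, chunk B, module BTa.

Change of the time steps.  All terms a_i = f f |..|^2 are >= 0 (M.pos at unit vectors).
`En_ratio`: a_i/tau'_i <= c a_i/tau_i.
`En_convex`: 1/((1-t) x + t y) <= (1-t)/x + t/y for x, y > 0, so En is at most the convex combination of the two
energies, which is at most the maximum.
`tau_close`: lift_uniq for tau with J = J.J, Q = J'.J (D from hC.desc with eps = 1).  For Y in KE M tau (En tau X):
En tau' Y <= c En tau Y <= c En tau X <= A, so Y in KE M tau' A, where J'.J is continuous and a lift.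
(c > 0 because n >= 1, tau i <= c tau' i.)  If En tau Y < e/2 then En tau' Y <= c En tau Y < e (0 <= En, c <= 2), so
|J'.J Y| < 1/8; also |J.J Y| < 1/8.
-/

set_option linter.all false

namespace CGA

open scoped RealInnerProductSpace Real Topology
open MeasureTheory Set Filter

private theorem BTa_ne {x : E} (hx : ‖x‖ = 1) : x ≠ 0 := by
  rintro rfl
  rw [norm_zero] at hx
  norm_num at hx

private theorem BTa_term (M : Met) {n : ℕ} [NeZero n] {X : Fin n → E}
    (hX : ∀ i, ‖X i‖ = 1) (i : Fin n) :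
    0 ≤ M.f (X i) * M.f (X (i + 1)) * ‖X (i + 1) - X i‖ ^ 2 := by
  have h1 := M.pos (X i) (BTa_ne (hX i))
  have h2 := M.pos (X (i + 1)) (BTa_ne (hX (i + 1)))
  positivity

theorem En_nonneg (M : Met) {n : ℕ} [NeZero n] {τ : Fin n → ℝ} (hτ : ∀ i, 0 < τ i)
    {X : Fin n → E} (hX : ∀ i, ‖X i‖ = 1) : 0 ≤ En M τ X := by
  unfold En
  exact Finset.sum_nonneg fun i _ => div_nonneg (BTa_term M hX i) (hτ i).le

theorem En_ratio (M : Met) {n : ℕ} [NeZero n] {τ τ' : Fin n → ℝ} (hτ : ∀ i, 0 < τ i)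
    (hτ' : ∀ i, 0 < τ' i) {c : ℝ} (h : ∀ i, τ i ≤ c * τ' i) {X : Fin n → E}
    (hX : ∀ i, ‖X i‖ = 1) : En M τ' X ≤ c * En M τ X := by
  unfold En
  rw [Finset.mul_sum]
  refine Finset.sum_le_sum fun i _ => ?_
  have h0 := BTa_term M hX i
  rw [mul_div_assoc', div_le_div_iff₀ (hτ' i) (hτ i)]
  nlinarith [h i, mul_le_mul_of_nonneg_left (h i) h0]

theorem En_convex (M : Met) {n : ℕ} [NeZero n] {τ τ' : Fin n → ℝ} (hτ : ∀ i, 0 < τ i)
    (hτ' : ∀ i, 0 < τ' i) {t : ℝ} (ht : t ∈ Icc (0:ℝ) 1) {X : Fin n → E}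
    (hX : ∀ i, ‖X i‖ = 1) :
    En M (fun i => (1 - t) * τ i + t * τ' i) X ≤ max (En M τ X) (En M τ' X) := by
  have ht0 : 0 ≤ 1 - t := by linarith [ht.2]
  have h1 : En M (fun i => (1 - t) * τ i + t * τ' i) X ≤
      (1 - t) * En M τ X + t * En M τ' X := by
    unfold En
    rw [Finset.mul_sum, Finset.mul_sum, ← Finset.sum_add_distrib]
    refine Finset.sum_le_sum fun i _ => ?_
    have h0 := BTa_term M hX i
    simp only
    generalize M.f (X i) * M.f (X (i + 1)) * ‖X (i + 1) - X i‖ ^ 2 = a at h0 ⊢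
    have hx := hτ i
    have hy := hτ' i
    generalize τ i = x at hx ⊢
    generalize τ' i = y at hy ⊢
    have hm : 0 < (1 - t) * x + t * y := by
      rcases eq_or_lt_of_le ht.1 with h | h
      · rw [← h]
        linarith
      · have := mul_pos h hy
        nlinarith [mul_nonneg ht0 hx.le]
    have h2 : 1 / ((1 - t) * x + t * y) ≤ (1 - t) / x + t / y := by
      rw [div_add_div _ _ hx.ne' hy.ne', div_le_div_iff₀ hm (mul_pos hx hy)]
      nlinarith [mul_nonneg (mul_nonneg ht0 ht.1) (sq_nonneg (x - y))]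
    calc a / ((1 - t) * x + t * y) = a * (1 / ((1 - t) * x + t * y)) := by ring
      _ ≤ a * ((1 - t) / x + t / y) := mul_le_mul_of_nonneg_left h2 h0
      _ = (1 - t) * (a / x) + t * (a / y) := by ring
  have h2 : (1 - t) * En M τ X ≤ (1 - t) * max (En M τ X) (En M τ' X) :=
    mul_le_mul_of_nonneg_left (le_max_left _ _) ht0
  have h3 : t * En M τ' X ≤ t * max (En M τ X) (En M τ' X) :=
    mul_le_mul_of_nonneg_left (le_max_right _ _) ht.1
  linarith

theorem tau_close (M : Met) {A e d : ℝ} (hC : BC M A e d) {n : ℕ} [NeZero n] {τ τ' : Fin n → ℝ}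
    (hτ : Adm d τ) (hτ' : Adm d τ') (J : JL M τ A e) (J' : JL M τ' A e) {X : Fin n → E}
    (hX : ∀ i, ‖X i‖ = 1) {c : ℝ} (hc : c ≤ 2) (h : ∀ i, τ i ≤ c * τ' i)
    (hE : En M τ X ≤ A) (hcE : c * En M τ X ≤ A) : J.J X = J'.J X := by
  obtain ⟨D⟩ := hC.desc n τ hτ 1 one_pos
  have hc0 : 0 < c := by
    have h1 := h 0
    have h2 := hτ.pos 0
    have h3 := hτ'.pos 0
    by_contra h4
    have h5 : c * τ' 0 ≤ 0 := mul_nonpos_of_nonpos_of_nonneg (not_lt.1 h4) h3.le
    linarith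
  have key : ∀ Y ∈ KE M τ (En M τ X), Y ∈ KE M τ' A ∧ Y ∈ KE M τ A := by
    intro Y hY
    refine ⟨⟨hY.1, ?_⟩, hY.1, hY.2.trans hE⟩
    have h1 := En_ratio M hτ.pos hτ'.pos h hY.1
    have h2 : c * En M τ Y ≤ c * En M τ X := mul_le_mul_of_nonneg_left hY.2 hc0.le
    linarith
  refine lift_uniq M hC.epos D (hC.nz n τ hτ) (X₀ := X) ⟨hX, hE⟩
    (J.cont.mono fun Y hY => (key Y hY).2) (J'.cont.mono fun Y hY => (key Y hY).1)
    (fun Y hY => J.hol Y (key Y hY).2) (fun Y hY => J'.hol Y (key Y hY).1) ?_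
  intro Y hY hlow
  have he := hC.epos
  refine ⟨J.low Y (key Y hY).2 (by linarith), J'.low Y (key Y hY).1 ?_⟩
  have h1 := En_ratio M hτ.pos hτ'.pos h hY.1
  have h2 : c * En M τ Y ≤ 2 * En M τ Y :=
    mul_le_mul_of_nonneg_right hc (En_nonneg M hτ.pos hY.1)
  linarith

end CGA
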