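import Pool.Agent.CGA.BTa
import Pool.Agent.CGA.BJ

/-! PROJECT CGA, chunk B, module BTb.

Independence of the time steps.  T_t = (1-t) tau + t tau' is admissible (t in [0,1]), En_{T_t} X <= max(En_tau X, En_tau' X) =: B < A
(En_convex).  Choose c in (1,2] with c B <= A (if B <= 0 then c = 2 works: c B <= B < A; otherwise c = min 2 (A/B)).
mu = min over i of min(tau i, tau' i) > 0.  Choose N >= 1 with 1/(N mu) <= c - 1.  For T_k = T_{k/N}:
 T_k i - T_(k+1) i <= 1/N (both values are in (0,1], difference (tau i - tau' i)/N) <= (c-1) mu <= (c-1) T_(k+1) i, so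
 T_k i <= c T_(k+1) i.  Let J_k be any lift for T_k (JL_exists), J_0 = J, J_N = J' (or prove by induction on k that for all lifts
 J'' for T_k: J.J X = J''.J X; T_0 = tau, T_N = tau').  tau_close gives J_k.J X = J_(k+1).J X.
-/

set_option linter.all false

namespace CGA

open scoped RealInnerProductSpace Real Topology
open MeasureTheory Set Filter

theorem tau_indep (M : Met) {A e d : ℝ} (hC : BC M A e d) {n : ℕ} [NeZero n] {τ τ' : Fin n → ℝ}
    (hτ : Adm d τ) (hτ' : Adm d τ') (J : JL M τ A e) (J' : JL M τ' A e) {X : Fin n → E}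
    (hX : ∀ i, ‖X i‖ = 1) (hE : En M τ X < A) (hE' : En M τ' X < A) : J.J X = J'.J X := by
  have hB : max (En M τ X) (En M τ' X) < A := max_lt hE hE'
  have hB0 : 0 ≤ max (En M τ X) (En M τ' X) := le_max_of_le_left (En_nonneg M hτ.pos hX)
  obtain ⟨c, hc1, hc2, hcB⟩ : ∃ c : ℝ, 1 < c ∧ c ≤ 2 ∧ c * max (En M τ X) (En M τ' X) ≤ A := by
    generalize max (En M τ X) (En M τ' X) = B at hB hB0
    rcases hB0.eq_or_lt with h | h
    · exact ⟨2, by norm_num, le_rfl, by rw [← h, mul_zero]; exact hC.Apos.le⟩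
    · refine ⟨min 2 (A / B), lt_min (by norm_num) ((one_lt_div h).2 hB), min_le_left _ _, ?_⟩
      calc min 2 (A / B) * B ≤ A / B * B := mul_le_mul_of_nonneg_right (min_le_right _ _) h.le
        _ = A := by field_simp
  obtain ⟨i0, hi0⟩ := Finite.exists_min τ
  obtain ⟨i1, hi1⟩ := Finite.exists_min τ'
  obtain ⟨m, hm, hm1, hm2⟩ : ∃ m : ℝ, 0 < m ∧ (∀ i, m ≤ τ i) ∧ ∀ i, m ≤ τ' i :=
    ⟨min (τ i0) (τ' i1), lt_min (hτ.pos _) (hτ'.pos _),
      fun i => (min_le_left _ _).trans (hi0 i), fun i => (min_le_right _ _).trans (hi1 i)⟩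
  have hcm : 0 < (c - 1) * m := mul_pos (by linarith) hm
  obtain ⟨N, hN⟩ := exists_nat_gt (d / ((c - 1) * m))
  have hN0 : (0 : ℝ) < N := lt_trans (div_pos hC.dpos hcm) hN
  have hdN : d / N ≤ (c - 1) * m := by
    rw [div_lt_iff₀ hcm] at hN
    rw [div_le_iff₀ hN0]
    linarith
  let T : ℝ → Fin n → ℝ := fun s i => (1 - s) * τ i + s * τ' i
  have hTm : ∀ s ∈ Icc (0:ℝ) 1, ∀ i, m ≤ T s i := by
    intro s hs i
    have h1 : (1 - s) * m ≤ (1 - s) * τ i :=
      mul_le_mul_of_nonneg_left (hm1 i) (by linarith [hs.2])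
    have h2 : s * m ≤ s * τ' i := mul_le_mul_of_nonneg_left (hm2 i) hs.1
    change m ≤ (1 - s) * τ i + s * τ' i
    linarith
  have hT : ∀ s ∈ Icc (0:ℝ) 1, Adm d (T s) := by
    intro s hs
    refine ⟨fun i => lt_of_lt_of_le hm (hTm s hs i), ?_, ?_⟩
    · intro i
      have h1 : (1 - s) * τ i ≤ (1 - s) * d :=
        mul_le_mul_of_nonneg_left (hτ.le i) (by linarith [hs.2])
      have h2 : s * τ' i ≤ s * d := mul_le_mul_of_nonneg_left (hτ'.le i) hs.1
      change (1 - s) * τ i + s * τ' i ≤ d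
      linarith
    · change ∑ i, ((1 - s) * τ i + s * τ' i) = 1
      rw [Finset.sum_add_distrib, ← Finset.mul_sum, ← Finset.mul_sum, hτ.sum, hτ'.sum]
      ring
  have hTE : ∀ s ∈ Icc (0:ℝ) 1, En M (T s) X ≤ max (En M τ X) (En M τ' X) := fun s hs =>
    En_convex M hτ.pos hτ'.pos hs hX
  have hmem : ∀ k : ℕ, k ≤ N → (k : ℝ) / N ∈ Icc (0:ℝ) 1 := by
    intro k hk
    refine ⟨by positivity, ?_⟩
    rw [div_le_one hN0]
    exact_mod_cast hk
  have key : ∀ k : ℕ, k ≤ N → ∀ J'' : JL M (T ((k : ℝ) / N)) A e, J.J X = J''.J X := by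
    intro k
    induction k with
    | zero =>
      intro hk J''
      refine tau_close M hC hτ (hT _ (hmem 0 hk)) J J'' hX (c := 1) (by norm_num) ?_ hE.le
        (by rw [one_mul]; exact hE.le)
      intro i
      change τ i ≤ 1 * ((1 - ((0 : ℕ) : ℝ) / N) * τ i + ((0 : ℕ) : ℝ) / N * τ' i)
      simp
    | succ k ih =>
      intro hk J''
      have hk' : k ≤ N := Nat.le_of_succ_le hk
      obtain ⟨Jk⟩ := JL_exists M hC (hT _ (hmem k hk'))
      rw [ih hk' Jk]
      have hEk := hTE _ (hmem k hk')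
      refine tau_close M hC (hT _ (hmem k hk')) (hT _ (hmem (k + 1) hk)) Jk J'' hX hc2 ?_
        (hEk.trans hB.le) ?_
      · intro i
        have h1 := hTm _ (hmem (k + 1) hk) i
        have h2 : T ((k : ℝ) / N) i - T (((k + 1 : ℕ) : ℝ) / N) i = (τ i - τ' i) / N := by
          change ((1 - (k : ℝ) / N) * τ i + (k : ℝ) / N * τ' i) -
            ((1 - ((k + 1 : ℕ) : ℝ) / N) * τ i + ((k + 1 : ℕ) : ℝ) / N * τ' i) = _
          push_cast
          field_simp
          ring
        have h3 : (τ i - τ' i) / N ≤ d / N :=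
          div_le_div_of_nonneg_right (by linarith [hτ.le i, hτ'.pos i]) hN0.le
        have h4 : (c - 1) * m ≤ (c - 1) * T (((k + 1 : ℕ) : ℝ) / N) i :=
          mul_le_mul_of_nonneg_left h1 (by linarith)
        linarith
      · exact (mul_le_mul_of_nonneg_left hEk (by linarith)).trans hcB
  obtain ⟨JN⟩ := JL_exists M hC (hT _ (hmem N le_rfl))
  rw [key N le_rfl JN]
  have hEN := hTE _ (hmem N le_rfl)
  refine tau_close M hC (hT _ (hmem N le_rfl)) hτ' JN J' hX (c := 1) (by norm_num) ?_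
    (hEN.trans hB.le) (by rw [one_mul]; exact hEN.trans hB.le)
  intro i
  change (1 - (N : ℝ) / N) * τ i + (N : ℝ) / N * τ' i ≤ 1 * τ' i
  rw [div_self hN0.ne']
  simp

end CGA
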