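import Pool.Agent.CGA.BTa

/-! PROJECT CGA, chunk B, module BTr.

Transfer principle.  lift_uniq for tau, X0 with J = I.J n and Q X = s * I.J n' (T X).  En tau X0 <= c En tau X0 < A
(En >= 0, c >= 1).  With B = c En tau X0 < A: for X in KE M tau (En tau X0): T X is unit, En tau' (T X) <= c En tau X <= B, so
T X in KE M tau' B: I.J n' is continuous there and a lift (I.cont, I.hol), so Q is continuous (T continuous) and a lift by hBg.
If En tau X < e/2 then En tau' (T X) <= c En tau X < e so |Q X| = |I.J n' (T X)| < 1/8 (I.low; |s| = 1).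
|I.J n X| < 1/8 by I.low with B' = En tau X0.  (hC.desc with eps = 1, hC.nz.)
-/

set_option linter.all false

namespace CGA

open scoped RealInnerProductSpace Real Topology
open MeasureTheory Set Filter

theorem IT_transfer (M : Met) {A e d : ℝ} (hC : BC M A e d) (I : IT M A e d) {n n' : ℕ}
    [NeZero n] [NeZero n'] {τ : Fin n → ℝ} {τ' : Fin n' → ℝ} (hτ : Adm d τ) (hτ' : Adm d τ')
    {T : (Fin n → E) → (Fin n' → E)} (hT : Continuous T)
    (hU : ∀ X : Fin n → E, (∀ i, ‖X i‖ = 1) → ∀ i, ‖T X i‖ = 1) {c : ℝ} (hc0 : 1 ≤ c)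
    (hc2 : c ≤ 2)
    (hc : ∀ X : Fin n → E, (∀ i, ‖X i‖ = 1) → En M τ' (T X) ≤ c * En M τ X) {s : ℝ}
    (hBg : ∀ X : Fin n → E, (∀ i, ‖X i‖ = 1) → IsL (I.J n') (T X) →
      IsL (fun Y => s * I.J n' (T Y)) X) (hs : |s| = 1) {X₀ : Fin n → E}
    (hX₀ : ∀ i, ‖X₀ i‖ = 1) (hE : c * En M τ X₀ < A) :
    s * I.J n' (T X₀) = I.J n X₀ := by
  obtain ⟨D⟩ := hC.desc n τ hτ 1 one_pos
  have hc0' : 0 < c := by linarith
  have hEn0 : 0 ≤ En M τ X₀ := En_nonneg M hτ.pos hX₀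
  have hEX : En M τ X₀ < A := by nlinarith
  have key : ∀ Y ∈ KE M τ (En M τ X₀), T Y ∈ KE M τ' (c * En M τ X₀) := by
    intro Y hY
    refine ⟨hU Y hY.1, (hc Y hY.1).trans ?_⟩
    exact mul_le_mul_of_nonneg_left hY.2 hc0'.le
  symm
  refine lift_uniq M hC.epos D (hC.nz n τ hτ) (X₀ := X₀) ⟨hX₀, hEX.le⟩
    (J := I.J n) (Q := fun Y => s * I.J n' (T Y))
    (I.cont n τ hτ _ hEX) ?_ (fun Y hY => I.hol n τ hτ _ hEX Y hY) ?_ ?_
  · exact continuousOn_const.mul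
      ((I.cont n' τ' hτ' _ hE).comp hT.continuousOn fun Y hY => key Y hY)
  · intro Y hY
    exact hBg Y hY.1 (I.hol n' τ' hτ' _ hE _ (key Y hY))
  · intro Y hY hlow
    have he := hC.epos
    refine ⟨I.low n τ hτ _ hEX Y hY (by linarith), ?_⟩
    rw [abs_mul, hs, one_mul]
    refine I.low n' τ' hτ' _ hE _ (key Y hY) ?_
    have h1 := hc Y hY.1
    have h2 : c * En M τ Y ≤ 2 * En M τ Y :=
      mul_le_mul_of_nonneg_right hc2 (En_nonneg M hτ.pos hY.1)
    linarith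

end CGA
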