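import Pool.Agent.CGA.BKc
import Pool.Agent.CGA.ABg

/-! PROJECT CGA, chunk B, module BUq.

Uniqueness of the lift.  Let E0 = En X0, K0 = KE M tau E0 (contained in KE M tau A), S(X) = J X - Q X.
 (1) For X in K0: S(X) is an integer: exp(2 pi i J)|b| = b = exp(2 pi i Q)|b|, b ≠ 0, so exp(2 pi i (J-Q)) = 1
     (Complex.exp_eq_one_iff, or Complex.exp_eq_exp_iff_exists_int).
 (2) S is continuous on K0.  For X in K0 the path s ↦ D.H s X (s in [0,1]) stays in K0 (unit, le), is continuous, so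
     s ↦ S(D.H s X) is a continuous integer valued function on [0,1], hence constant (e.g. IsPreconnected.constant /
     isPreconnected_Icc with the intermediate value theorem): S(X) = S(D.H 1 X)  (zero).
 (3) Iterate phi = D.H 1: S(X0) = S(phi^k X0) for all k, phi^k X0 in K0.  There is k with En(phi^k X0) < e/2
     (otherwise En(phi^k X0) <= E0 - k g for all k, contradiction with En >= e/2 > 0).  There |J|, |Q| < 1/8, so |S| < 1/4 and
     S is an integer, S = 0.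
-/

set_option linter.all false

namespace CGA

open scoped RealInnerProductSpace Real Topology
open MeasureTheory Set Filter

theorem lift_uniq (M : Met) {n : ℕ} [NeZero n] {τ : Fin n → ℝ} {A e ε : ℝ} (he : 0 < e)
    (D : Desc M τ A (e / 2) ε) (hnz : ∀ X ∈ KE M τ A, Bg (List.ofFn X) ≠ 0) {X₀ : Fin n → E}
    (hX₀ : X₀ ∈ KE M τ A) {J Q : (Fin n → E) → ℝ}
    (hJ : ContinuousOn J (KE M τ (En M τ X₀))) (hQ : ContinuousOn Q (KE M τ (En M τ X₀)))
    (hJl : ∀ X ∈ KE M τ (En M τ X₀), IsL J X) (hQl : ∀ X ∈ KE M τ (En M τ X₀), IsL Q X)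
    (hlow : ∀ X ∈ KE M τ (En M τ X₀), En M τ X < e / 2 → |J X| < 1 / 8 ∧ |Q X| < 1 / 8) :
    J X₀ = Q X₀ := by
  have hE₀A : En M τ X₀ ≤ A := hX₀.2
  have hsub : ∀ X ∈ KE M τ (En M τ X₀), X ∈ KE M τ A := fun X hX => ⟨hX.1, hX.2.trans hE₀A⟩
  have hint : ∀ X ∈ KE M τ (En M τ X₀), ∃ k : ℤ, J X - Q X = k := by
    intro X hX
    have h1 := hJl X hX
    have h2 := hQl X hX
    have h3 : (‖Bg (List.ofFn X)‖ : ℂ) ≠ 0 :=
      Complex.ofReal_ne_zero.2 (norm_ne_zero_iff.2 (hnz X (hsub X hX)))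
    unfold IsL at h1 h2
    have h4 : Complex.exp (2 * π * Complex.I * (J X : ℂ)) =
        Complex.exp (2 * π * Complex.I * (Q X : ℂ)) :=
      mul_right_cancel₀ h3 (h1.trans h2.symm)
    obtain ⟨k, hk⟩ := Complex.exp_eq_exp_iff_exists_int.1 h4
    refine ⟨k, ?_⟩
    have h5 : (2 * π * Complex.I : ℂ) ≠ 0 := Complex.two_pi_I_ne_zero
    have h6 : ((J X : ℝ) : ℂ) = (Q X : ℂ) + k := by
      apply mul_left_cancel₀ h5
      rw [hk]
      ring
    have h7 : J X = Q X + k := by exact_mod_cast h6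
    linarith
  haveI : DiscreteTopology (Set.range ((↑) : ℤ → ℝ)) :=
    Int.isClosedEmbedding_coe_real.isEmbedding.toHomeomorph.symm.isEmbedding.discreteTopology
  have hstep : ∀ X ∈ KE M τ (En M τ X₀), D.H 1 X ∈ KE M τ (En M τ X₀) ∧
      J (D.H 1 X) - Q (D.H 1 X) = J X - Q X := by
    intro X hX
    have hXA := hsub X hX
    have hpath : ∀ s ∈ Icc (0:ℝ) 1, D.H s X ∈ KE M τ (En M τ X₀) := fun s hs =>
      ⟨D.unit s hs X hXA, (D.le s hs X hXA).trans hX.2⟩
    have hc : ContinuousOn (fun s : ℝ => D.H s X) (Icc 0 1) :=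
      D.cont.comp (f := fun s : ℝ => (s, X)) (by fun_prop) (fun s hs => ⟨hs, hXA⟩)
    have hcS : ContinuousOn (fun s : ℝ => J (D.H s X) - Q (D.H s X)) (Icc 0 1) :=
      (hJ.comp hc hpath).sub (hQ.comp hc hpath)
    refine ⟨hpath 1 ⟨zero_le_one, le_rfl⟩, ?_⟩
    have hmaps : MapsTo (fun s : ℝ => J (D.H s X) - Q (D.H s X)) (Icc 0 1)
        (Set.range ((↑) : ℤ → ℝ)) := by
      intro s hs
      obtain ⟨k, hk⟩ := hint _ (hpath s hs)
      exact ⟨k, hk.symm⟩
    have hconst := (isPreconnected_Icc (a := (0:ℝ)) (b := 1)).constant_of_mapsTo ⟨inferInstance⟩ hcS hmaps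
      (x := 1) (y := 0) ⟨zero_le_one, le_rfl⟩ ⟨le_rfl, zero_le_one⟩
    have h0 := D.zero X hXA
    simp only [h0] at hconst
    exact hconst
  have hiter : ∀ k : ℕ, ∃ X ∈ KE M τ (En M τ X₀), J X - Q X = J X₀ - Q X₀ ∧
      (En M τ X < e / 2 ∨ En M τ X ≤ En M τ X₀ - k * D.g) := by
    intro k
    induction k with
    | zero => exact ⟨X₀, ⟨hX₀.1, le_rfl⟩, rfl, Or.inr (by simp)⟩
    | succ k ih =>
      obtain ⟨X, hX, h1, h2⟩ := ih
      rcases lt_or_ge (En M τ X) (e / 2) with h3 | h3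
      · exact ⟨X, hX, h1, Or.inl h3⟩
      · have h4 : En M τ X ≤ En M τ X₀ - k * D.g := h2.resolve_left (not_lt.2 h3)
        refine ⟨D.H 1 X, (hstep X hX).1, (hstep X hX).2.trans h1, Or.inr ?_⟩
        have h5 := D.dec X (hsub X hX) h3
        push_cast
        linarith
  obtain ⟨k, hk⟩ := exists_nat_gt (En M τ X₀ / D.g)
  obtain ⟨X, hX, h1, h2⟩ := hiter k
  have h3 : En M τ X < e / 2 := by
    rcases h2 with h2 | h2
    · exact h2
    · rw [div_lt_iff₀ D.gpos] at hk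
      linarith
  obtain ⟨h4, h5⟩ := hlow X hX h3
  obtain ⟨m, hm⟩ := hint X hX
  have h6 : |(m : ℝ)| < 1 := by
    rw [← hm, abs_lt]
    rw [abs_lt] at h4 h5
    constructor <;> linarith [h4.1, h4.2, h5.1, h5.2]
  have h7 : m = 0 := by
    have h8 : |m| < 1 := by exact_mod_cast h6
    exact Int.abs_lt_one_iff.1 h8
  rw [h7, Int.cast_zero, h1] at hm
  linarith

end CGA
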