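import Pool.Agent.CGA.BKc

/-! PROJECT CGA, chunk B, module BVf.

The tangential gradient field.  `VF_cont`: GrC is continuous on unit tuples (Met.continuousOn_f,
Met.continuousOn_gradient, norms).  `VF_tan`: <X, <X,G> X - G> = <X,G> - <X,G> = 0.
`VF_inner`: <G, V> with V = <X,G> X - G: since <X,V>=0, <G,V> = <G - <X,G>X, V> = -|V|^2.
`VF_bound`: continuous on the compact set UT (norm attains a bound).
`VF_lower`: on the compact set {X in KE, e <= En X} the continuous function sum |V_i|^2 is positive: by hcr there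
are i, v with <X i, v> = 0, <G i, v> ≠ 0, and <V i, v> = -<G i, v> ≠ 0, so V i ≠ 0.  Minimum attained (if the set is
empty take g = 1).
-/

set_option linter.all false

namespace CGA

open scoped RealInnerProductSpace Real Topology
open MeasureTheory Set Filter

private theorem BVf_f (M : Met) {n : ℕ} (j : Fin n) :
    ContinuousOn (fun X : Fin n → E => M.f (X j)) {X | ∀ i, ‖X i‖ = 1} :=
  M.continuousOn_f.comp (continuous_apply j).continuousOn fun X hX => unit_ne0 hX j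

private theorem BVf_g (M : Met) {n : ℕ} (j : Fin n) :
    ContinuousOn (fun X : Fin n → E => gradient M.f (X j)) {X | ∀ i, ‖X i‖ = 1} :=
  M.continuousOn_gradient.comp (continuous_apply j).continuousOn fun X hX => unit_ne0 hX j

private theorem BVf_c {n : ℕ} (j : Fin n) :
    ContinuousOn (fun X : Fin n → E => X j) {X | ∀ i, ‖X i‖ = 1} :=
  (continuous_apply j).continuousOn

private theorem BVf_mom (M : Met) {n : ℕ} [NeZero n] (τ : Fin n → ℝ) (i : Fin n) :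
    ContinuousOn (fun X : Fin n → E => MomC M τ X i) {X | ∀ i, ‖X i‖ = 1} :=
  (((BVf_f M i).mul (BVf_f M (i + 1))).div_const _).smul ((BVf_c (i + 1)).sub (BVf_c i))

private theorem BVf_gr (M : Met) {n : ℕ} [NeZero n] (τ : Fin n → ℝ) (i : Fin n) :
    ContinuousOn (fun X : Fin n → E => GrC M τ X i) {X | ∀ i, ‖X i‖ = 1} := by
  have h1 : ContinuousOn (fun X : Fin n → E => (2:ℝ) • (MomC M τ X (i - 1) - MomC M τ X i))
      {X | ∀ i, ‖X i‖ = 1} := ((BVf_mom M τ (i - 1)).sub (BVf_mom M τ i)).const_smul (2:ℝ)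
  have h2 : ContinuousOn (fun X : Fin n → E => M.f (X (i + 1)) * ‖X (i + 1) - X i‖ ^ 2 / τ i +
      M.f (X (i - 1)) * ‖X i - X (i - 1)‖ ^ 2 / τ (i - 1)) {X | ∀ i, ‖X i‖ = 1} :=
    (((BVf_f M (i + 1)).mul (((BVf_c (i + 1)).sub (BVf_c i)).norm.pow 2)).div_const _).add
      (((BVf_f M (i - 1)).mul (((BVf_c i).sub (BVf_c (i - 1))).norm.pow 2)).div_const _)
  exact h1.add (h2.smul (BVf_g M i))

theorem VF_cont (M : Met) {n : ℕ} [NeZero n] (τ : Fin n → ℝ) :
    ContinuousOn (VF M τ) {X | ∀ i, ‖X i‖ = 1} := by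
  rw [continuousOn_pi]
  intro i
  exact ((((BVf_c i).inner (BVf_gr M τ i) : ContinuousOn (fun X : Fin n → E =>
    ⟪X i, GrC M τ X i⟫) {X | ∀ i, ‖X i‖ = 1})).smul (BVf_c i)).sub (BVf_gr M τ i)

theorem VF_tan (M : Met) {n : ℕ} [NeZero n] (τ : Fin n → ℝ) {X : Fin n → E}
    (hX : ∀ i, ‖X i‖ = 1) (i : Fin n) : ⟪X i, VF M τ X i⟫ = 0 := by
  rw [VF, inner_sub_right, inner_smul_right, real_inner_self_eq_norm_sq, hX i]
  ring

theorem VF_inner (M : Met) {n : ℕ} [NeZero n] (τ : Fin n → ℝ) {X : Fin n → E}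
    (hX : ∀ i, ‖X i‖ = 1) : ∑ i, ⟪GrC M τ X i, VF M τ X i⟫ = - ∑ i, ‖VF M τ X i‖ ^ 2 := by
  rw [← Finset.sum_neg_distrib]
  apply Finset.sum_congr rfl
  intro i _
  have h1 := VF_tan M τ hX i
  have h2 : VF M τ X i + GrC M τ X i = ⟪X i, GrC M τ X i⟫ • X i := by
    rw [VF, sub_add_cancel]
  have h3 : ⟪VF M τ X i + GrC M τ X i, VF M τ X i⟫ = 0 := by
    rw [h2, real_inner_smul_left, h1, mul_zero]
  rw [inner_add_left, real_inner_self_eq_norm_sq] at h3
  linarith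

theorem VF_bound (M : Met) {n : ℕ} [NeZero n] (τ : Fin n → ℝ) :
    ∃ C > 0, ∀ X : Fin n → E, (∀ i, ‖X i‖ = 1) → ‖VF M τ X‖ ≤ C := by
  obtain ⟨C, hC⟩ := (UT_compact n).exists_bound_of_continuousOn (VF_cont M τ)
  exact ⟨max C 1, lt_max_of_lt_right one_pos, fun X hX => (hC X hX).trans (le_max_left _ _)⟩

theorem VF_lower (M : Met) {n : ℕ} [NeZero n] (τ : Fin n → ℝ) {A e : ℝ}
    (hcr : ∀ X : Fin n → E, (∀ i, ‖X i‖ = 1) → e ≤ En M τ X → En M τ X ≤ A →
      ∃ i v, ⟪X i, v⟫ = 0 ∧ ⟪GrC M τ X i, v⟫ ≠ 0) :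
    ∃ g > 0, ∀ X ∈ KE M τ A, e ≤ En M τ X → g ≤ ∑ i, ‖VF M τ X i‖ ^ 2 := by
  have hsub : KE M τ A ⊆ {X | ∀ i, ‖X i‖ = 1} := fun X hX => hX.1
  have hcl : IsClosed (KE M τ A ∩ En M τ ⁻¹' Ici e) :=
    ((En_contOn' M τ).mono hsub).preimage_isClosed_of_isClosed (KE_compact M τ A).isClosed
      isClosed_Ici
  have hK : IsCompact (KE M τ A ∩ En M τ ⁻¹' Ici e) :=
    (KE_compact M τ A).of_isClosed_subset hcl inter_subset_left
  rcases (KE M τ A ∩ En M τ ⁻¹' Ici e).eq_empty_or_nonempty with h0 | h0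
  · refine ⟨1, one_pos, ?_⟩
    intro X hX hXe
    exfalso
    have : X ∈ KE M τ A ∩ En M τ ⁻¹' Ici e := ⟨hX, hXe⟩
    rw [h0] at this
    exact this
  · have hcont : ContinuousOn (fun X : Fin n → E => ∑ i, ‖VF M τ X i‖ ^ 2)
        (KE M τ A ∩ En M τ ⁻¹' Ici e) := by
      apply continuousOn_finset_sum
      intro i _
      have h1 : ContinuousOn (fun X : Fin n → E => VF M τ X i)
          (KE M τ A ∩ En M τ ⁻¹' Ici e) :=
        ((continuousOn_pi.1 (VF_cont M τ)) i).mono (inter_subset_left.trans hsub)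
      exact h1.norm.pow 2
    obtain ⟨X0, hX0, hmin⟩ := hK.exists_isMinOn h0 hcont
    refine ⟨∑ i, ‖VF M τ X0 i‖ ^ 2, ?_, ?_⟩
    · obtain ⟨i, v, h1, h2⟩ := hcr X0 hX0.1.1 hX0.2 hX0.1.2
      have h3 : VF M τ X0 i ≠ 0 := by
        intro h4
        apply h2
        have h5 : ⟪VF M τ X0 i, v⟫ = 0 := by rw [h4, inner_zero_left]
        rw [VF, inner_sub_left, real_inner_smul_left, h1, mul_zero, zero_sub, neg_eq_zero] at h5
        exact h5
      have h4 : 0 < ‖VF M τ X0 i‖ ^ 2 := by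
        have := norm_pos_iff.2 h3
        positivity
      exact lt_of_lt_of_le h4 (Finset.single_le_sum (f := fun i => ‖VF M τ X0 i‖ ^ 2)
        (fun j _ => sq_nonneg _) (Finset.mem_univ i))
    · intro X hX hXe
      exact hmin ⟨hX, hXe⟩

end CGA
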