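import Pool.Agent.CGA.C1Inc

/-! # CGA / C1Bd: the momenta of a critical chain are bounded

PROOF OF `mom_bound`.  Take `m, F, K` from `exists_csts`.  `en_eq`: each summand of `EnN` equals `f_i f_{i+1} ee_i = τ_i ‖w_i‖² / (f_i f_{i+1})` (`ee_eq`).
`Σ_{i<n} ee_i ≤ EnN / m² ≤ C / m²` and `Σ_{i<n} τ_i ‖w_i‖² ≤ F² EnN ≤ F² C`.  Since `Σ_{i<n} τ_i = 1`, some `j < n` has `‖w_j‖² ≤ F² C` (otherwise the sum would be `> F² C`).
`incr` gives `‖w_{i+1} - w_i‖ ≤ ½ (F K + F²) (ee_{i+1} + ee_i)` for `i + 1 < n`, hence `‖w_i - w_j‖ ≤ (F K + F²) C / m²` for all `i, j < n`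
(telescoping: `‖w_j - w_i‖ ≤ Σ_{i ≤ l < j} ‖w_{l+1} - w_l‖`, `dist_le_Ico_sum_dist` or `Finset.sum_range_sub`).  `W := F √|C| + (F K + F²) |C| / m²` works
(`0 ≤ EnN ≤ C`).  `step_bound`: `‖X_{i+1} - X_i‖ = τ_i ‖w_i‖ / (f_i f_{i+1}) ≤ τ_i W / m²`.
-/

set_option linter.all false

namespace CGA

open scoped RealInnerProductSpace Real Topology
open MeasureTheory Set Filter

theorem en_eq (M : Met) {τ : ℕ → ℝ} {X : ℕ → E} {n : ℕ} (hτ : ∀ i, 0 < τ i) (hX : ∀ i, ‖X i‖ = 1) :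
    EnN M n τ X =
      ∑ i ∈ Finset.range n, τ i * (‖Mom M τ X i‖ ^ 2 / (M.f (X i) * M.f (X (i + 1)))) := by
  have hf : ∀ i, 0 < M.f (X i) := fun i => M.pos _ (by
    intro h
    have := hX i
    rw [h, norm_zero] at this
    exact zero_ne_one this)
  unfold EnN
  apply Finset.sum_congr rfl
  intro i _
  have h1 := hf i
  have h2 := hf (i + 1)
  have h3 := hτ i
  rw [mom_norm M (hτ i) hX]
  field_simp

theorem mom_bound (M : Met) (C : ℝ) : ∃ W, 0 < W ∧ ∀ (n : ℕ) (τ : ℕ → ℝ) (X : ℕ → E) (δ : ℝ),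
    Chn M C n τ X δ → ∀ i < n, ‖Mom M τ X i‖ ≤ W := by
  obtain ⟨m, F, K, hc⟩ := exists_csts M
  have hm := hc.hm
  have hF := hc.hF
  have hK := hc.hK
  set D : ℝ := F * K + F ^ 2 with hD
  have hD0 : 0 < D := by positivity
  refine ⟨F * √|C| + D * (|C| / m ^ 2) + 1, by positivity, ?_⟩
  intro n τ X δ h i hi
  have hf1 : ∀ k, m ≤ M.f (X k) := fun k => hc.lo _ (h.unit k)
  have hf2 : ∀ k, M.f (X k) ≤ F := fun k => hc.hi _ (h.unit k)
  have hf0 : ∀ k, 0 < M.f (X k) := fun k => lt_of_lt_of_le hm (hf1 k)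
  have hff : ∀ k l, M.f (X k) * M.f (X l) ≤ F ^ 2 := fun k l => by
    rw [pow_two]
    exact mul_le_mul (hf2 k) (hf2 l) (hf0 l).le hF.le
  have hff' : ∀ k l, m ^ 2 ≤ M.f (X k) * M.f (X l) := fun k l => by
    rw [pow_two]
    exact mul_le_mul (hf1 k) (hf1 l) hm.le (hf0 k).le
  have hee : ∀ k, 0 ≤ ee τ X k := fun k => div_nonneg (by positivity) (h.pos k).le
  set E0 := EnN M n τ X with hE0
  have hE1 : m ^ 2 * ∑ k ∈ Finset.range n, ee τ X k ≤ E0 := by
    rw [Finset.mul_sum, hE0]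
    unfold EnN
    apply Finset.sum_le_sum
    intro k _
    rw [mul_div_assoc]
    exact mul_le_mul_of_nonneg_right (hff' k (k + 1)) (hee k)
  have hS0 : 0 ≤ ∑ k ∈ Finset.range n, ee τ X k := Finset.sum_nonneg fun k _ => hee k
  have hEpos : 0 ≤ E0 := le_trans (by positivity) hE1
  have hEC : E0 ≤ |C| := le_trans h.en (le_abs_self C)
  have hE2 : ∑ k ∈ Finset.range n, ee τ X k ≤ |C| / m ^ 2 := by
    rw [le_div_iff₀ (by positivity)]
    linarith
  have hE3 : ∑ k ∈ Finset.range n, τ k * ‖Mom M τ X k‖ ^ 2 ≤ F ^ 2 * E0 := by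
    rw [hE0, en_eq M h.pos h.unit, Finset.mul_sum]
    apply Finset.sum_le_sum
    intro k _
    have h1 : 0 < M.f (X k) * M.f (X (k + 1)) := mul_pos (hf0 k) (hf0 (k + 1))
    have h2 := h.pos k
    have h3 : τ k * ‖Mom M τ X k‖ ^ 2 = (M.f (X k) * M.f (X (k + 1))) *
        (τ k * (‖Mom M τ X k‖ ^ 2 / (M.f (X k) * M.f (X (k + 1))))) := by
      rw [mul_left_comm, mul_div_cancel₀ _ h1.ne']
    rw [h3]
    exact mul_le_mul_of_nonneg_right (hff k (k + 1)) (by positivity)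
  have hj : ∃ j < n, ‖Mom M τ X j‖ ^ 2 ≤ F ^ 2 * E0 := by
    by_contra hcon
    push Not at hcon
    have h1 : ∑ k ∈ Finset.range n, τ k * (F ^ 2 * E0) <
        ∑ k ∈ Finset.range n, τ k * ‖Mom M τ X k‖ ^ 2 := by
      apply Finset.sum_lt_sum_of_nonempty
      · exact Finset.nonempty_range_iff.2 h.hn.ne'
      · intro k hk
        exact mul_lt_mul_of_pos_left (hcon k (Finset.mem_range.1 hk)) (h.pos k)
    rw [← Finset.sum_mul] at h1
    have h2 : ∑ k ∈ Finset.range n, τ k = 1 := h.sum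
    rw [h2] at h1
    linarith
  obtain ⟨j, hjn, hj⟩ := hj
  have hwj : ‖Mom M τ X j‖ ≤ F * √|C| := by
    apply le_of_sq_le_sq _ (by positivity)
    rw [mul_pow, Real.sq_sqrt (abs_nonneg C)]
    refine hj.trans (mul_le_mul_of_nonneg_left hEC (by positivity))
  have hinc : ∀ l, l + 1 < n → ‖Mom M τ X (l + 1) - Mom M τ X l‖ ≤
      D / 2 * (ee τ X (l + 1) + ee τ X l) := by
    intro l hl
    rw [incr M h.unit (h.crit l hl)]
    refine (norm_sub_le _ _).trans ?_
    have e1 := hee l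
    have e2 := hee (l + 1)
    have e3 := (hf0 l).le
    have e4 := (hf0 (l + 1)).le
    have e5 := (hf0 (l + 2)).le
    have a1 : M.f (X (l + 2)) * ee τ X (l + 1) + M.f (X l) * ee τ X l ≤
        F * (ee τ X (l + 1) + ee τ X l) := by
      have := mul_le_mul_of_nonneg_right (hf2 (l + 2)) e2
      have := mul_le_mul_of_nonneg_right (hf2 l) e1
      linarith
    have a2 : M.f (X (l + 1)) * M.f (X (l + 2)) * ee τ X (l + 1) +
        M.f (X l) * M.f (X (l + 1)) * ee τ X l ≤ F ^ 2 * (ee τ X (l + 1) + ee τ X l) := by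
      have := mul_le_mul_of_nonneg_right (hff (l + 1) (l + 2)) e2
      have := mul_le_mul_of_nonneg_right (hff l (l + 1)) e1
      linarith
    rw [norm_smul, norm_smul, h.unit, Real.norm_eq_abs, Real.norm_eq_abs,
      abs_of_nonneg (by positivity), abs_of_nonneg (by positivity)]
    have a3 : 1 / 2 * (M.f (X (l + 2)) * ee τ X (l + 1) + M.f (X l) * ee τ X l) *
        ‖gradient M.f (X (l + 1))‖ ≤ 1 / 2 * (F * (ee τ X (l + 1) + ee τ X l)) * K :=
      mul_le_mul (mul_le_mul_of_nonneg_left a1 (by norm_num)) (hc.gr _ (h.unit _))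
        (norm_nonneg _) (by positivity)
    have a4 : D / 2 * (ee τ X (l + 1) + ee τ X l) =
        1 / 2 * (F * (ee τ X (l + 1) + ee τ X l)) * K +
        1 / 2 * (F ^ 2 * (ee τ X (l + 1) + ee τ X l)) := by
      rw [hD]
      ring
    rw [a4]
    linarith
  have htel : ∀ a b, a ≤ b → b < n → ‖Mom M τ X a - Mom M τ X b‖ ≤ D * (|C| / m ^ 2) := by
    intro a b hab hb
    rw [← dist_eq_norm]
    refine (dist_le_Ico_sum_dist (Mom M τ X) hab).trans ?_
    have h1 : ∑ l ∈ Finset.Ico a b, dist (Mom M τ X l) (Mom M τ X (l + 1)) ≤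
        ∑ l ∈ Finset.Ico a b, (D / 2 * ee τ X (l + 1) + D / 2 * ee τ X l) := by
      apply Finset.sum_le_sum
      intro l hl
      rw [Finset.mem_Ico] at hl
      rw [dist_eq_norm, norm_sub_rev]
      have := hinc l (by omega)
      linarith
    refine h1.trans ?_
    rw [Finset.sum_add_distrib, ← Finset.mul_sum, ← Finset.mul_sum]
    have h2 : ∑ l ∈ Finset.Ico a b, ee τ X l ≤ |C| / m ^ 2 := by
      refine le_trans ?_ hE2
      apply Finset.sum_le_sum_of_subset_of_nonneg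
      · intro l hl
        rw [Finset.mem_Ico] at hl
        exact Finset.mem_range.2 (by omega)
      · intro l _ _
        exact hee l
    have h3 : ∑ l ∈ Finset.Ico a b, ee τ X (l + 1) ≤ |C| / m ^ 2 := by
      refine le_trans ?_ hE2
      rw [Finset.sum_Ico_add' (fun l => ee τ X l) a b 1]
      apply Finset.sum_le_sum_of_subset_of_nonneg
      · intro l hl
        rw [Finset.mem_Ico] at hl
        exact Finset.mem_range.2 (by omega)
      · intro l _ _
        exact hee l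
    have h4 := mul_le_mul_of_nonneg_left h2 (by positivity : 0 ≤ D / 2)
    have h5 := mul_le_mul_of_nonneg_left h3 (by positivity : 0 ≤ D / 2)
    linarith
  have hdiff : ‖Mom M τ X i - Mom M τ X j‖ ≤ D * (|C| / m ^ 2) := by
    rcases le_total i j with hij | hij
    · exact htel i j hij hjn
    · rw [norm_sub_rev]
      exact htel j i hij hi
  have := norm_le_norm_add_norm_sub' (Mom M τ X i) (Mom M τ X j)
  linarith

theorem step_bound (M : Met) (C : ℝ) : ∃ A, 0 < A ∧ ∀ (n : ℕ) (τ : ℕ → ℝ) (X : ℕ → E) (δ : ℝ),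
    Chn M C n τ X δ → ∀ i < n, ‖X (i + 1) - X i‖ ≤ A * τ i := by
  obtain ⟨m, F, K, hc⟩ := exists_csts M
  obtain ⟨W, hW, hb⟩ := mom_bound M C
  have hm := hc.hm
  refine ⟨W / m ^ 2, by positivity, ?_⟩
  intro n τ X δ h i hi
  have hf1 : ∀ k, m ≤ M.f (X k) := fun k => hc.lo _ (h.unit k)
  have hf0 : ∀ k, 0 < M.f (X k) := fun k => lt_of_lt_of_le hm (hf1 k)
  have hff' : m ^ 2 ≤ M.f (X i) * M.f (X (i + 1)) := by
    rw [pow_two]
    exact mul_le_mul (hf1 _) (hf1 _) hm.le (hf0 _).le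
  have hτ := h.pos i
  have hp : 0 < M.f (X i) * M.f (X (i + 1)) := mul_pos (hf0 _) (hf0 _)
  rw [X_step M (h.pos i) h.unit, norm_smul, Real.norm_eq_abs, abs_of_nonneg (by positivity)]
  have h1 := hb n τ X δ h i hi
  calc τ i / (M.f (X i) * M.f (X (i + 1))) * ‖Mom M τ X i‖ ≤ τ i / m ^ 2 * W := by
        apply mul_le_mul _ h1 (norm_nonneg _) (by positivity)
        exact div_le_div_of_nonneg_left hτ.le (by positivity) hff'
    _ = W / m ^ 2 * τ i := by ring

end CGA
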