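import Pool.Agent.CGA.Defs

/-! # CGA / C1Con: constants of a metric

PROOF OF `exists_csts`.  `f` is `C²` on the open set `{0}ᶜ` (`M.smooth`, `isOpen_compl_singleton`), so `f`, `fderiv ℝ f` and
`gradient f = (toDual).symm (fderiv f)` are continuous on `{0}ᶜ`, and `gradient f` is `C¹` there.
The sphere `S = {‖x‖ = 1}` and the annulus `R = {1/2 ≤ ‖x‖ ≤ 3/2}` are compact and contained in `{0}ᶜ`; take `m` = minimum of `f` on `S`,
`F` = maximum of `f` on `S`, `K₀` = maximum on `R` of `‖fderiv f‖` and of `‖fderiv (gradient f)‖`, `G` = maximum of `‖gradient f‖` on `S`.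
Let `x, y ∈ S`.  If `‖x - y‖ ≤ 1/2` then `closedBall x (1/2)` is convex, contained in `R` (it is a compact convex set not containing `0`) and the mean value
inequality `Convex.norm_image_sub_le_of_norm_fderivWithin_le` or `Convex.norm_image_sub_le_of_norm_hasFDerivWithin_le` gives
`|f x - f y| ≤ K₀ ‖x - y‖` and the same for the gradient.  If `‖x - y‖ > 1/2` then `|f x - f y| ≤ 2 F ≤ 4 F ‖x - y‖`, `‖∇f x - ∇f y‖ ≤ 2 G ≤ 4 G ‖x - y‖`.
`K := K₀ + 4 F + 4 G + 1`.  (`‖gradient f x‖ = ‖fderiv ℝ f x‖`.)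

PROOF OF `grad_perp`.  `t ↦ f (t • x)` is constant on `t > 0` (`M.hom`), its derivative at `t = 1` is `fderiv f x x = ⟪gradient f x, x⟫`.
-/

set_option linter.all false

namespace CGA

open scoped RealInnerProductSpace Real Topology
open MeasureTheory Set Filter

/-- constants of the metric -/
structure Csts (M : Met) (m F K : ℝ) : Prop where
  hm : 0 < m
  hF : 0 < F
  hK : 0 < K
  lo : ∀ x, ‖x‖ = 1 → m ≤ M.f x
  hi : ∀ x, ‖x‖ = 1 → M.f x ≤ F
  gr : ∀ x, ‖x‖ = 1 → ‖gradient M.f x‖ ≤ K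
  lip : ∀ x y, ‖x‖ = 1 → ‖y‖ = 1 → |M.f x - M.f y| ≤ K * ‖x - y‖
  glip : ∀ x y, ‖x‖ = 1 → ‖y‖ = 1 → ‖gradient M.f x - gradient M.f y‖ ≤ K * ‖x - y‖

private theorem C1Con_c1 (M : Met) : ContDiffOn ℝ 1 (gradient M.f) {0}ᶜ := by
  have h : ContDiffOn ℝ 1 (fderiv ℝ M.f) {0}ᶜ :=
    M.smooth.fderiv_of_isOpen isOpen_compl_singleton (by norm_num)
  exact ((InnerProductSpace.toDual ℝ E).symm.toContinuousLinearEquiv.contDiff).comp_contDiffOn h

private theorem C1Con_lip {W : Type*} [NormedAddCommGroup W] [NormedSpace ℝ W] {φ : E → W}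
    (hφ : ContDiffOn ℝ 1 φ {0}ᶜ) :
    ∃ K, 0 ≤ K ∧ ∀ x y : E, ‖x‖ = 1 → ‖y‖ = 1 → ‖φ x - φ y‖ ≤ K * ‖x - y‖ := by
  set R : Set E := Metric.closedBall 0 (3 / 2) \ Metric.ball 0 (1 / 2) with hR
  have hRc : IsCompact R := (isCompact_closedBall 0 (3 / 2)).diff Metric.isOpen_ball
  have hR0 : R ⊆ {0}ᶜ := by
    rintro x ⟨-, h2⟩ h0
    have h0' : x = 0 := h0
    apply h2
    rw [h0']
    exact Metric.mem_ball_self (by norm_num)
  have hSR : Metric.sphere (0 : E) 1 ⊆ R := by
    intro x hx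
    rw [mem_sphere_zero_iff_norm] at hx
    refine ⟨?_, ?_⟩
    · rw [mem_closedBall_zero_iff, hx]
      norm_num
    · rw [mem_ball_zero_iff, hx]
      norm_num
  obtain ⟨K₀, hK₀⟩ := hRc.exists_bound_of_continuousOn
    ((hφ.continuousOn_fderiv_of_isOpen isOpen_compl_singleton le_rfl).mono hR0)
  obtain ⟨G, hG⟩ := hRc.exists_bound_of_continuousOn (hφ.continuousOn.mono hR0)
  refine ⟨|K₀| + 4 * |G|, by positivity, fun x y hx hy => ?_⟩
  have hxR : x ∈ R := hSR (mem_sphere_zero_iff_norm.2 hx)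
  have hyR : y ∈ R := hSR (mem_sphere_zero_iff_norm.2 hy)
  by_cases h : ‖x - y‖ ≤ 1 / 2
  · have hB : Metric.closedBall y (1 / 2) ⊆ R := by
      intro z hz
      rw [mem_closedBall_iff_norm] at hz
      have h1 := norm_sub_norm_le y (y - z)
      have h2 : ‖z‖ ≤ ‖y‖ + ‖z - y‖ := norm_le_norm_add_norm_sub' z y
      have h3 : ‖y‖ ≤ ‖z‖ + ‖y - z‖ := norm_le_norm_add_norm_sub' y z
      rw [norm_sub_rev y z] at h3
      refine ⟨?_, ?_⟩
      · rw [mem_closedBall_zero_iff]
        linarith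
      · rw [mem_ball_zero_iff]
        linarith
    have h1 := (convex_closedBall y (1 / 2)).norm_image_sub_le_of_norm_fderiv_le (𝕜 := ℝ)
      (f := φ) (C := |K₀|) (x := y) (y := x)
      (fun z hz => (hφ.contDiffAt (isOpen_compl_singleton.mem_nhds (hR0 (hB hz)))).differentiableAt
        (by norm_num))
      (fun z hz => (hK₀ z (hB hz)).trans (le_abs_self _))
      (Metric.mem_closedBall_self (by norm_num)) (by rwa [mem_closedBall_iff_norm])
    refine h1.trans (mul_le_mul_of_nonneg_right ?_ (norm_nonneg _))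
    have := abs_nonneg G
    linarith
  · push Not at h
    have h1 := (hG x hxR).trans (le_abs_self _)
    have h2 := (hG y hyR).trans (le_abs_self _)
    have h3 : ‖φ x - φ y‖ ≤ ‖φ x‖ + ‖φ y‖ := norm_sub_le _ _
    have h4 := abs_nonneg G
    have h5 := abs_nonneg K₀
    nlinarith [mul_nonneg h5 (norm_nonneg (x - y)), mul_nonneg h4 (sub_nonneg.2 h.le)]

theorem exists_csts (M : Met) : ∃ m F K, Csts M m F K := by
  have hSc : IsCompact (Metric.sphere (0 : E) 1) := isCompact_sphere 0 1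
  have hS0 : Metric.sphere (0 : E) 1 ⊆ {0}ᶜ := by
    intro x hx h0
    have h0' : x = 0 := h0
    rw [mem_sphere_zero_iff_norm, h0', norm_zero] at hx
    norm_num at hx
  have hne : (Metric.sphere (0 : E) 1).Nonempty := NormedSpace.sphere_nonempty.2 zero_le_one
  obtain ⟨x0, hx0, hmin⟩ := hSc.exists_isMinOn hne (M.smooth.continuousOn.mono hS0)
  obtain ⟨F, hF⟩ := hSc.exists_bound_of_continuousOn (M.smooth.continuousOn.mono hS0)
  obtain ⟨G, hG⟩ := hSc.exists_bound_of_continuousOn ((C1Con_c1 M).continuousOn.mono hS0)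
  obtain ⟨K1, hK1, hL1⟩ := C1Con_lip (M.smooth.of_le (by norm_num) : ContDiffOn ℝ 1 M.f {0}ᶜ)
  obtain ⟨K2, hK2, hL2⟩ := C1Con_lip (C1Con_c1 M)
  have hS : ∀ x : E, ‖x‖ = 1 → x ∈ Metric.sphere (0 : E) 1 := fun x hx =>
    mem_sphere_zero_iff_norm.2 hx
  refine ⟨M.f x0, |F| + 1, |G| + K1 + K2 + 1, ?_⟩
  have hG0 := abs_nonneg G
  exact
    { hm := M.pos _ (hS0 hx0)
      hF := by positivity
      hK := by positivity
      lo := fun x hx => hmin (hS x hx)
      hi := fun x hx => by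
        have h1 := hF x (hS x hx)
        rw [Real.norm_eq_abs] at h1
        have h2 := le_abs_self (M.f x)
        have h3 := le_abs_self F
        linarith
      gr := fun x hx => by
        have h1 := hG x (hS x hx)
        have h3 := le_abs_self G
        linarith
      lip := fun x y hx hy => by
        have h1 := hL1 x y hx hy
        rw [Real.norm_eq_abs] at h1
        refine h1.trans (mul_le_mul_of_nonneg_right ?_ (norm_nonneg _))
        linarith
      glip := fun x y hx hy => by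
        refine (hL2 x y hx hy).trans (mul_le_mul_of_nonneg_right ?_ (norm_nonneg _))
        linarith }

private theorem C1Con_fd (M : Met) {x : E} (hx : x ≠ 0) :
    HasFDerivAt M.f (innerSL ℝ (gradient M.f x)) x := by
  have h1 : DifferentiableAt ℝ M.f x :=
    (M.smooth.contDiffAt (isOpen_compl_singleton.mem_nhds hx)).differentiableAt (by norm_num)
  have h2 := h1.hasGradientAt
  exact h2

theorem grad_perp (M : Met) {x : E} (hx : x ≠ 0) : ⟪gradient M.f x, x⟫ = 0 := by
  have h1 : HasDerivAt (fun t : ℝ => t • x) x 1 := by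
    have := (hasDerivAt_id (1 : ℝ)).smul_const x
    simpa using this
  have hx1 : HasFDerivAt M.f (innerSL ℝ (gradient M.f x)) ((1 : ℝ) • x) := by
    rw [one_smul]
    exact C1Con_fd M hx
  have h2 : HasDerivAt (fun t : ℝ => M.f (t • x)) (⟪gradient M.f x, x⟫) 1 := by
    have := HasFDerivAt.comp_hasDerivAt (1 : ℝ) (l := M.f) (l' := innerSL ℝ (gradient M.f x))
      (f := fun t : ℝ => t • x) hx1 h1
    exact this
  have h3 : HasDerivAt (fun t : ℝ => M.f (t • x)) 0 1 := by
    refine (hasDerivAt_const (1 : ℝ) (M.f x)).congr_of_eventuallyEq ?_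
    filter_upwards [isOpen_Ioi.mem_nhds (one_pos : (0:ℝ) < 1)] with t ht
    exact M.hom t x ht
  exact h2.unique h3

/-- `fderiv` in terms of the gradient -/
theorem hasFDerivAt_f (M : Met) {x : E} (hx : x ≠ 0) :
    HasFDerivAt M.f (innerSL ℝ (gradient M.f x)) x := C1Con_fd M hx

theorem cont_f (M : Met) : ContinuousOn M.f {0}ᶜ := M.smooth.continuousOn

theorem cont_grad (M : Met) : ContinuousOn (gradient M.f) {0}ᶜ := (C1Con_c1 M).continuousOn

end CGA
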