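import Pool.Agent.CGA.C1Bd

/-! # CGA / C1CumW: cumulative error of the momenta

PROOF.  Constants `m, F, K` (`exists_csts`), `W` (`mom_bound`), `A₀` (`step_bound`).  Write `f_j = f(X_j)`, `∇_j = ∇f(X_j)`, `w_j = Mom`,
`R_j = rhs M X_j w_j = (‖w_j‖²/f_j³) ∇_j - (‖w_j‖²/f_j²) X_j`, `e_j = ee τ X j = τ_j ‖w_j‖² / (f_j f_{j+1})²` (`ee_eq`).  For `j + 1 < n`, `incr` reads
`w_{j+1} - w_j = P_j + Q_{j+1}` with `P_j = ½ f_j e_j ∇_{j+1} - ½ f_j f_{j+1} e_j X_{j+1}`, `Q_{j+1} = ½ f_{j+2} e_{j+1} ∇_{j+1} - ½ f_{j+1} f_{j+2} e_{j+1} X_{j+1}`.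
`f_j e_j = τ_j ‖w_j‖² / (f_j f_{j+1}²)`, `f_j f_{j+1} e_j = τ_j ‖w_j‖² / (f_j f_{j+1})`; replacing `f_{j+1}` by `f_j` costs `|f_{j+1} - f_j| ≤ K A₀ τ_j ≤ K A₀ δ`,
replacing `∇_{j+1}`, `X_{j+1}` by `∇_j`, `X_j` costs at most `K A₀ δ`, `A₀ δ` (`glip`, `step_bound`): `‖P_j - ½ τ_j R_j‖ ≤ A₁ δ τ_j`; in the same way
`‖Q_j - ½ τ_j R_j‖ ≤ A₁ δ τ_j` for `1 ≤ j < n` (only `f_{j+1}` is replaced).  `‖R_j‖ ≤ W² (K/m³ + 1/m²) =: R`.  For `i < n`
`w_i - w_0 = Σ_{j<i} (P_j + Q_{j+1})`, and `Σ_{j<i} (½ τ_j R_j + ½ τ_{j+1} R_{j+1}) = Σ_{j<i} τ_j R_j + ½ (τ_i R_i - τ_0 R_0)`; so the error is at most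
`2 A₁ δ + R δ` (`τ_i, τ_0 ≤ δ`, `Σ τ = 1`).
-/

set_option linter.all false

namespace CGA

open scoped RealInnerProductSpace Real Topology
open MeasureTheory Set Filter

private theorem C1CumW_r1 {m F K d f g : ℝ} (hm : 0 < m) (hf : m ≤ f) (hg : m ≤ g)
    (hfF : f ≤ F) (hgF : g ≤ F) (hK : 0 ≤ K) (hd : 0 ≤ d) (h : |f - g| ≤ K * d) :
    |1 / (f * g ^ 2) - 1 / f ^ 3| ≤ K * d * (2 * F) / m ^ 5 := by
  have h1 : 0 < f := hm.trans_le hf
  have h2 : 0 < g := hm.trans_le hg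
  have h3 : 1 / (f * g ^ 2) - 1 / f ^ 3 = (f - g) * (f + g) / (f ^ 3 * g ^ 2) := by
    field_simp
    ring
  rw [h3, abs_div, abs_mul, abs_of_pos (by positivity : 0 < f + g),
    abs_of_pos (by positivity : 0 < f ^ 3 * g ^ 2)]
  refine div_le_div₀ (by nlinarith [mul_nonneg hK hd]) ?_ (by positivity) ?_
  · exact mul_le_mul h (by linarith) (by positivity) (mul_nonneg hK hd)
  · calc m ^ 5 = m ^ 3 * m ^ 2 := by ring
      _ ≤ f ^ 3 * g ^ 2 := mul_le_mul (pow_le_pow_left₀ hm.le hf 3) (pow_le_pow_left₀ hm.le hg 2)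
          (by positivity) (by positivity)

private theorem C1CumW_r2 {m K d f g : ℝ} (hm : 0 < m) (hf : m ≤ f) (hg : m ≤ g)
    (hK : 0 ≤ K) (hd : 0 ≤ d) (h : |f - g| ≤ K * d) :
    |1 / (f * g) - 1 / f ^ 2| ≤ K * d / m ^ 3 := by
  have h1 : 0 < f := hm.trans_le hf
  have h2 : 0 < g := hm.trans_le hg
  have h3 : 1 / (f * g) - 1 / f ^ 2 = (f - g) / (f ^ 2 * g) := by
    field_simp
  rw [h3, abs_div, abs_of_pos (by positivity : 0 < f ^ 2 * g)]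
  refine div_le_div₀ (mul_nonneg hK hd) h (by positivity) ?_
  calc m ^ 3 = m ^ 2 * m := by ring
      _ ≤ f ^ 2 * g := mul_le_mul (pow_le_pow_left₀ hm.le hf 2) hg hm.le (by positivity)

private theorem C1CumW_r3 {m K d f g : ℝ} (hm : 0 < m) (hf : m ≤ f) (hg : m ≤ g)
    (hK : 0 ≤ K) (hd : 0 ≤ d) (h : |f - g| ≤ K * d) :
    |1 / (f ^ 2 * g) - 1 / f ^ 3| ≤ K * d / m ^ 4 := by
  have h1 : 0 < f := hm.trans_le hf
  have h2 : 0 < g := hm.trans_le hg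
  have h3 : 1 / (f ^ 2 * g) - 1 / f ^ 3 = (f - g) / (f ^ 3 * g) := by
    field_simp
  rw [h3, abs_div, abs_of_pos (by positivity : 0 < f ^ 3 * g)]
  refine div_le_div₀ (mul_nonneg hK hd) h (by positivity) ?_
  calc m ^ 4 = m ^ 3 * m := by ring
      _ ≤ f ^ 3 * g := mul_le_mul (pow_le_pow_left₀ hm.le hf 3) hg hm.le (by positivity)

private theorem C1CumW_P {m F K d f g : ℝ} {G G' X X' : E} (hm : 0 < m) (hf : m ≤ f)
    (hg : m ≤ g) (hfF : f ≤ F) (hgF : g ≤ F) (hK : 0 ≤ K) (hd : 0 ≤ d) (h : |f - g| ≤ K * d)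
    (hG : ‖G'‖ ≤ K) (hGG : ‖G' - G‖ ≤ K * d) (hX : ‖X'‖ = 1) (hXX : ‖X' - X‖ ≤ d) :
    ‖(1 / (f * g ^ 2)) • G' - (1 / (f * g)) • X' - ((1 / f ^ 3) • G - (1 / f ^ 2) • X)‖ ≤
      (2 * F * K * K / m ^ 5 + K / m ^ 3 + K / m ^ 3 + 1 / m ^ 2) * d := by
  have h1 : 0 < f := hm.trans_le hf
  have e1 : (1 / (f * g ^ 2)) • G' - (1 / (f * g)) • X' - ((1 / f ^ 3) • G - (1 / f ^ 2) • X) =
      (1 / (f * g ^ 2) - 1 / f ^ 3) • G' + (1 / f ^ 3) • (G' - G) -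
        ((1 / (f * g) - 1 / f ^ 2) • X' + (1 / f ^ 2) • (X' - X)) := by
    module
  have n1 : ‖(1 / (f * g ^ 2) - 1 / f ^ 3) • G'‖ ≤ K * d * (2 * F) / m ^ 5 * K := by
    rw [norm_smul, Real.norm_eq_abs]
    exact mul_le_mul (C1CumW_r1 hm hf hg hfF hgF hK hd h) hG (norm_nonneg _)
      ((abs_nonneg _).trans (C1CumW_r1 hm hf hg hfF hgF hK hd h))
  have n2 : ‖(1 / f ^ 3) • (G' - G)‖ ≤ 1 / m ^ 3 * (K * d) := by
    rw [norm_smul, Real.norm_eq_abs, abs_of_pos (by positivity)]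
    exact mul_le_mul (one_div_le_one_div_of_le (by positivity) (pow_le_pow_left₀ hm.le hf 3)) hGG
      (norm_nonneg _) (by positivity)
  have n3 : ‖(1 / (f * g) - 1 / f ^ 2) • X'‖ ≤ K * d / m ^ 3 := by
    rw [norm_smul, Real.norm_eq_abs, hX, mul_one]
    exact C1CumW_r2 hm hf hg hK hd h
  have n4 : ‖(1 / f ^ 2) • (X' - X)‖ ≤ 1 / m ^ 2 * d := by
    rw [norm_smul, Real.norm_eq_abs, abs_of_pos (by positivity)]
    exact mul_le_mul (one_div_le_one_div_of_le (by positivity) (pow_le_pow_left₀ hm.le hf 2)) hXX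
      (norm_nonneg _) (by positivity)
  rw [e1]
  calc _ ≤ ‖(1 / (f * g ^ 2) - 1 / f ^ 3) • G' + (1 / f ^ 3) • (G' - G)‖ +
        ‖(1 / (f * g) - 1 / f ^ 2) • X' + (1 / f ^ 2) • (X' - X)‖ := norm_sub_le _ _
    _ ≤ (‖(1 / (f * g ^ 2) - 1 / f ^ 3) • G'‖ + ‖(1 / f ^ 3) • (G' - G)‖) +
        (‖(1 / (f * g) - 1 / f ^ 2) • X'‖ + ‖(1 / f ^ 2) • (X' - X)‖) :=
        add_le_add (norm_add_le _ _) (norm_add_le _ _)
    _ ≤ (K * d * (2 * F) / m ^ 5 * K + 1 / m ^ 3 * (K * d)) + (K * d / m ^ 3 + 1 / m ^ 2 * d) :=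
        add_le_add (add_le_add n1 n2) (add_le_add n3 n4)
    _ = _ := by ring

private theorem C1CumW_Q {m K d f g : ℝ} {G X : E} (hm : 0 < m) (hf : m ≤ f)
    (hg : m ≤ g) (hK : 0 ≤ K) (hd : 0 ≤ d) (h : |f - g| ≤ K * d)
    (hG : ‖G‖ ≤ K) (hX : ‖X‖ = 1) :
    ‖(1 / (f ^ 2 * g)) • G - (1 / (f * g)) • X - ((1 / f ^ 3) • G - (1 / f ^ 2) • X)‖ ≤
      (K * K / m ^ 4 + K / m ^ 3) * d := by
  have e1 : (1 / (f ^ 2 * g)) • G - (1 / (f * g)) • X - ((1 / f ^ 3) • G - (1 / f ^ 2) • X) =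
      (1 / (f ^ 2 * g) - 1 / f ^ 3) • G - (1 / (f * g) - 1 / f ^ 2) • X := by
    module
  have n1 : ‖(1 / (f ^ 2 * g) - 1 / f ^ 3) • G‖ ≤ K * d / m ^ 4 * K := by
    rw [norm_smul, Real.norm_eq_abs]
    exact mul_le_mul (C1CumW_r3 hm hf hg hK hd h) hG (norm_nonneg _)
      ((abs_nonneg _).trans (C1CumW_r3 hm hf hg hK hd h))
  have n3 : ‖(1 / (f * g) - 1 / f ^ 2) • X‖ ≤ K * d / m ^ 3 := by
    rw [norm_smul, Real.norm_eq_abs, hX, mul_one]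
    exact C1CumW_r2 hm hf hg hK hd h
  rw [e1]
  calc _ ≤ ‖(1 / (f ^ 2 * g) - 1 / f ^ 3) • G‖ + ‖(1 / (f * g) - 1 / f ^ 2) • X‖ :=
        norm_sub_le _ _
    _ ≤ K * d / m ^ 4 * K + K * d / m ^ 3 := add_le_add n1 n3
    _ = _ := by ring

theorem cum_W (M : Met) (C : ℝ) : ∃ A, 0 < A ∧ ∀ (n : ℕ) (τ : ℕ → ℝ) (X : ℕ → E) (δ : ℝ),
    Chn M C n τ X δ → ∀ i < n,
      ‖Mom M τ X i - Mom M τ X 0 - ∑ j ∈ Finset.range i, τ j • rhs M (X j) (Mom M τ X j)‖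
        ≤ A * δ := by
  obtain ⟨m, F, K, hc⟩ := exists_csts M
  obtain ⟨W, hW, hWb⟩ := mom_bound M C
  obtain ⟨A₀, hA₀, hAb⟩ := step_bound M C
  have hm := hc.hm
  have hF := hc.hF
  have hK := hc.hK
  set B : ℝ := 2 * F * K * K / m ^ 5 + K / m ^ 3 + K / m ^ 3 + 1 / m ^ 2 with hB
  set B' : ℝ := K * K / m ^ 4 + K / m ^ 3 with hB'
  have hB0 : 0 < B := by positivity
  have hB'0 : 0 < B' := by positivity
  set A₁ : ℝ := 1 / 2 * W ^ 2 * A₀ * (B + B') with hA₁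
  have hA₁0 : 0 < A₁ := by positivity
  set R : ℝ := W ^ 2 / m ^ 3 * K + W ^ 2 / m ^ 2 with hR
  have hR0 : 0 < R := by positivity
  refine ⟨2 * A₁ + R, by positivity, fun n τ X δ h i hi => ?_⟩
  have hδ : 0 < δ := (h.pos 0).trans_le (h.mesh 0 h.hn)
  have hlo : ∀ j, m ≤ M.f (X j) := fun j => hc.lo _ (h.unit j)
  have hhi : ∀ j, M.f (X j) ≤ F := fun j => hc.hi _ (h.unit j)
  have hpos : ∀ j, 0 < M.f (X j) := fun j => hm.trans_le (hlo j)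
  have hlip : ∀ j, |M.f (X j) - M.f (X (j + 1))| ≤ K * ‖X (j + 1) - X j‖ := fun j => by
    rw [norm_sub_rev]
    exact hc.lip _ _ (h.unit j) (h.unit (j + 1))
  have hglip : ∀ j, ‖gradient M.f (X (j + 1)) - gradient M.f (X j)‖ ≤ K * ‖X (j + 1) - X j‖ :=
    fun j => hc.glip _ _ (h.unit (j + 1)) (h.unit j)
  have hstep : ∀ j < n, ‖X (j + 1) - X j‖ ≤ A₀ * δ := fun j hj =>
    (hAb n τ X δ h j hj).trans (mul_le_mul_of_nonneg_left (h.mesh j hj) hA₀.le)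
  have hW2 : ∀ j < n, ‖Mom M τ X j‖ ^ 2 ≤ W ^ 2 := fun j hj =>
    pow_le_pow_left₀ (norm_nonneg _) (hWb n τ X δ h j hj) 2
  -- the two local estimates
  set P : ℕ → E := fun j => ((1 / 2 : ℝ) * (M.f (X j) * ee τ X j)) • gradient M.f (X (j + 1)) -
    ((1 / 2 : ℝ) * (M.f (X j) * M.f (X (j + 1)) * ee τ X j)) • X (j + 1) with hP
  set Q : ℕ → E := fun j => ((1 / 2 : ℝ) * (M.f (X (j + 1)) * ee τ X j)) • gradient M.f (X j) -
    ((1 / 2 : ℝ) * (M.f (X j) * M.f (X (j + 1)) * ee τ X j)) • X j with hQ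
  set T : ℕ → E := fun j => τ j • rhs M (X j) (Mom M τ X j) with hT
  have eP : ∀ j, P j - (1 / 2 : ℝ) • T j = ((1 / 2 : ℝ) * τ j * ‖Mom M τ X j‖ ^ 2) •
      ((1 / (M.f (X j) * M.f (X (j + 1)) ^ 2)) • gradient M.f (X (j + 1)) -
        (1 / (M.f (X j) * M.f (X (j + 1)))) • X (j + 1) -
        ((1 / M.f (X j) ^ 3) • gradient M.f (X j) - (1 / M.f (X j) ^ 2) • X j)) := by
    intro j
    have h1 : M.f (X j) ≠ 0 := (hpos j).ne'
    have h2 : M.f (X (j + 1)) ≠ 0 := (hpos (j + 1)).ne'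
    have c1 : (1 / 2 : ℝ) * (M.f (X j) * ee τ X j) = (1 / 2 : ℝ) * τ j * ‖Mom M τ X j‖ ^ 2 *
        (1 / (M.f (X j) * M.f (X (j + 1)) ^ 2)) := by
      rw [ee_eq M (h.pos j) h.unit]
      field_simp
    have c2 : (1 / 2 : ℝ) * (M.f (X j) * M.f (X (j + 1)) * ee τ X j) =
        (1 / 2 : ℝ) * τ j * ‖Mom M τ X j‖ ^ 2 * (1 / (M.f (X j) * M.f (X (j + 1)))) := by
      rw [ee_eq M (h.pos j) h.unit]
      field_simp
    simp only [hP, hT, rhs]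
    rw [c1, c2]
    module
  have eQ : ∀ j, Q j - (1 / 2 : ℝ) • T j = ((1 / 2 : ℝ) * τ j * ‖Mom M τ X j‖ ^ 2) •
      ((1 / (M.f (X j) ^ 2 * M.f (X (j + 1)))) • gradient M.f (X j) -
        (1 / (M.f (X j) * M.f (X (j + 1)))) • X j -
        ((1 / M.f (X j) ^ 3) • gradient M.f (X j) - (1 / M.f (X j) ^ 2) • X j)) := by
    intro j
    have h1 : M.f (X j) ≠ 0 := (hpos j).ne'
    have h2 : M.f (X (j + 1)) ≠ 0 := (hpos (j + 1)).ne'
    have c1 : (1 / 2 : ℝ) * (M.f (X (j + 1)) * ee τ X j) = (1 / 2 : ℝ) * τ j *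
        ‖Mom M τ X j‖ ^ 2 * (1 / (M.f (X j) ^ 2 * M.f (X (j + 1)))) := by
      rw [ee_eq M (h.pos j) h.unit]
      field_simp
    have c2 : (1 / 2 : ℝ) * (M.f (X j) * M.f (X (j + 1)) * ee τ X j) =
        (1 / 2 : ℝ) * τ j * ‖Mom M τ X j‖ ^ 2 * (1 / (M.f (X j) * M.f (X (j + 1)))) := by
      rw [ee_eq M (h.pos j) h.unit]
      field_simp
    simp only [hQ, hT, rhs]
    rw [c1, c2]
    module
  have bnd : ∀ j < n, ∀ v : E, ∀ b, 0 ≤ b → b ≤ B + B' → ‖v‖ ≤ b * ‖X (j + 1) - X j‖ →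
      ‖((1 / 2 : ℝ) * τ j * ‖Mom M τ X j‖ ^ 2) • v‖ ≤ A₁ * δ * τ j := by
    intro j hj v b hb hbB hv
    have hτ := h.pos j
    rw [norm_smul, Real.norm_eq_abs, abs_of_nonneg (by positivity)]
    calc 1 / 2 * τ j * ‖Mom M τ X j‖ ^ 2 * ‖v‖
        ≤ 1 / 2 * τ j * W ^ 2 * ((B + B') * (A₀ * δ)) := by
          refine mul_le_mul ?_ ?_ (norm_nonneg _) (by positivity)
          · exact mul_le_mul_of_nonneg_left (hW2 j hj) (by positivity)
          · exact hv.trans (mul_le_mul hbB (hstep j hj) (norm_nonneg _) (by positivity))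
      _ = A₁ * δ * τ j := by
          rw [hA₁]
          ring
  have bP : ∀ j < n, ‖P j - (1 / 2 : ℝ) • T j‖ ≤ A₁ * δ * τ j := by
    intro j hj
    rw [eP]
    refine bnd j hj _ B hB0.le (by linarith) ?_
    exact C1CumW_P hm (hlo j) (hlo (j + 1)) (hhi j) (hhi (j + 1)) hK.le (norm_nonneg _) (hlip j)
      (hc.gr _ (h.unit (j + 1))) (hglip j) (h.unit (j + 1)) le_rfl
  have bQ : ∀ j < n, ‖Q j - (1 / 2 : ℝ) • T j‖ ≤ A₁ * δ * τ j := by
    intro j hj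
    rw [eQ]
    refine bnd j hj _ B' hB'0.le (by linarith) ?_
    exact C1CumW_Q hm (hlo j) (hlo (j + 1)) hK.le (norm_nonneg _) (hlip j)
      (hc.gr _ (h.unit j)) (h.unit j)
  have bT : ∀ j < n, ‖T j‖ ≤ R * δ := by
    intro j hj
    have hτ := h.pos j
    have h1 := hpos j
    have n1 : ‖rhs M (X j) (Mom M τ X j)‖ ≤ R := by
      unfold rhs
      refine (norm_sub_le _ _).trans ?_
      rw [norm_smul, norm_smul, h.unit j, mul_one, Real.norm_eq_abs, Real.norm_eq_abs,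
        abs_of_nonneg (by positivity), abs_of_nonneg (by positivity), hR]
      refine add_le_add (mul_le_mul ?_ (hc.gr _ (h.unit j)) (norm_nonneg _) (by positivity)) ?_
      · exact div_le_div₀ (by positivity) (hW2 j hj) (by positivity)
          (pow_le_pow_left₀ hm.le (hlo j) 3)
      · exact div_le_div₀ (by positivity) (hW2 j hj) (by positivity)
          (pow_le_pow_left₀ hm.le (hlo j) 2)
    simp only [hT]
    rw [norm_smul, Real.norm_eq_abs, abs_of_pos hτ, mul_comm]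
    exact mul_le_mul n1 (h.mesh j hj) hτ.le hR0.le
  -- telescoping
  have key : ∀ i < n, ‖Mom M τ X i - Mom M τ X 0 - ∑ j ∈ Finset.range i, T j -
      (1 / 2 : ℝ) • (T i - T 0)‖ ≤ A₁ * δ * (∑ j ∈ Finset.range i, τ j +
        ∑ j ∈ Finset.range i, τ (j + 1)) := by
    intro i
    induction i with
    | zero =>
      intro _
      simp
    | succ i ih =>
      intro hi
      have hi' : i < n := (Nat.lt_succ_self i).trans hi
      have h1 := ih hi'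
      have h2 := incr M h.unit (h.crit i hi)
      have h3 : Mom M τ X (i + 1) - Mom M τ X i = P i + Q (i + 1) := by
        rw [h2]
        simp only [hP, hQ]
        module
      have h4 : Mom M τ X (i + 1) - Mom M τ X 0 - ∑ j ∈ Finset.range (i + 1), T j -
          (1 / 2 : ℝ) • (T (i + 1) - T 0) =
          (Mom M τ X i - Mom M τ X 0 - ∑ j ∈ Finset.range i, T j -
            (1 / 2 : ℝ) • (T i - T 0)) + ((P i - (1 / 2 : ℝ) • T i) +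
            (Q (i + 1) - (1 / 2 : ℝ) • T (i + 1))) := by
        rw [Finset.sum_range_succ, eq_add_of_sub_eq h3]
        module
      rw [h4]
      refine (norm_add_le _ _).trans ?_
      refine (add_le_add h1 ((norm_add_le _ _).trans (add_le_add (bP i hi') (bQ (i + 1) hi)))).trans
        (le_of_eq ?_)
      rw [Finset.sum_range_succ, Finset.sum_range_succ]
      ring
  have hs1 : ∑ j ∈ Finset.range i, τ j ≤ 1 := by
    rw [← h.sum]
    exact Finset.sum_le_sum_of_subset_of_nonneg (Finset.range_mono hi.le)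
      fun j _ _ => (h.pos j).le
  have hs2 : ∑ j ∈ Finset.range i, τ (j + 1) ≤ 1 := by
    have h5 : ∑ j ∈ Finset.range (i + 1), τ j = ∑ j ∈ Finset.range i, τ (j + 1) + τ 0 :=
      Finset.sum_range_succ' _ _
    have h6 : ∑ j ∈ Finset.range (i + 1), τ j ≤ 1 := by
      rw [← h.sum]
      exact Finset.sum_le_sum_of_subset_of_nonneg (Finset.range_mono hi)
        fun j _ _ => (h.pos j).le
    have := h.pos 0
    linarith
  have h7 := key i hi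
  have h8 : Mom M τ X i - Mom M τ X 0 - ∑ j ∈ Finset.range i, T j =
      (Mom M τ X i - Mom M τ X 0 - ∑ j ∈ Finset.range i, T j - (1 / 2 : ℝ) • (T i - T 0)) +
        (1 / 2 : ℝ) • (T i - T 0) := by abel
  change ‖Mom M τ X i - Mom M τ X 0 - ∑ j ∈ Finset.range i, T j‖ ≤ _
  rw [h8]
  have h9 : ‖(1 / 2 : ℝ) • (T i - T 0)‖ ≤ R * δ := by
    rw [norm_smul, Real.norm_eq_abs, abs_of_pos (by norm_num : (0:ℝ) < 1 / 2)]
    have := norm_sub_le (T i) (T 0)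
    have := bT i hi
    have := bT 0 h.hn
    linarith
  have h10 : A₁ * δ * (∑ j ∈ Finset.range i, τ j + ∑ j ∈ Finset.range i, τ (j + 1)) ≤
      A₁ * δ * (1 + 1) := mul_le_mul_of_nonneg_left (add_le_add hs1 hs2) (by positivity)
  refine (norm_add_le _ _).trans ((add_le_add (h7.trans h10) h9).trans (le_of_eq ?_))
  ring

end CGA
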