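import Pool.Agent.CGA.C1Bd

/-! # CGA / C1CumX: cumulative error of the positions and of the energy

PROOF.  Constants `m, F, K` (`exists_csts`), `W` (`mom_bound`), `A₀` (`step_bound`).  `X_{j+1} - X_j = (τ_j / (f_j f_{j+1})) w_j` (`X_step`), so
`X_i - X_0 - Σ_{j<i} τ_j (f_j²)⁻¹ w_j = Σ_{j<i} τ_j (1/(f_j f_{j+1}) - 1/f_j²) w_j`, and
`|1/(f_j f_{j+1}) - 1/f_j²| = |f_j - f_{j+1}| / (f_j² f_{j+1}) ≤ K ‖X_{j+1} - X_j‖ / m³ ≤ K A₀ τ_j / m³ ≤ K A₀ δ / m³`.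
The sum is at most `(Σ τ_j) K A₀ W δ / m³ ≤ K A₀ W δ / m³`.  Energy: `en_eq` and the same difference with `‖w_j‖²`: `≤ K A₀ W² δ / m³`.
-/

set_option linter.all false

namespace CGA

open scoped RealInnerProductSpace Real Topology
open MeasureTheory Set Filter

private theorem C1CumX_pos (M : Met) {X : ℕ → E} (hX : ∀ i, ‖X i‖ = 1) (i : ℕ) :
    0 < M.f (X i) :=
  M.pos _ (by
    intro h
    have := hX i
    rw [h, norm_zero] at this
    exact zero_ne_one this)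

private theorem C1CumX_D (M : Met) {m F K : ℝ} (hc : Csts M m F K) {x y : E} (hx : ‖x‖ = 1)
    (hy : ‖y‖ = 1) {r : ℝ} (h : ‖y - x‖ ≤ r) :
    |1 / (M.f x * M.f y) - 1 / M.f x ^ 2| ≤ K * r / m ^ 3 := by
  have hm := hc.hm
  have h1 := hc.lo x hx
  have h2 := hc.lo y hy
  have h3 := hc.lip x y hx hy
  rw [norm_sub_rev] at h3
  have f1 : 0 < M.f x := hm.trans_le h1
  have f2 : 0 < M.f y := hm.trans_le h2
  have e : 1 / (M.f x * M.f y) - 1 / M.f x ^ 2 = (M.f x - M.f y) / (M.f x ^ 2 * M.f y) := by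
    field_simp
  have h4 : m ^ 3 ≤ M.f x ^ 2 * M.f y := by
    have : m ^ 2 ≤ M.f x ^ 2 := pow_le_pow_left₀ hm.le h1 2
    calc m ^ 3 = m ^ 2 * m := by ring
      _ ≤ M.f x ^ 2 * M.f y := mul_le_mul this h2 hm.le (by positivity)
  rw [e, abs_div, abs_of_pos (by positivity : 0 < M.f x ^ 2 * M.f y)]
  have h5 : |M.f x - M.f y| ≤ K * r := h3.trans (mul_le_mul_of_nonneg_left h hc.hK.le)
  have h6 : 0 ≤ K * r := (abs_nonneg _).trans h5
  exact div_le_div₀ h6 h5 (by positivity) h4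

private theorem C1CumX_sum {n i : ℕ} (hi : i ≤ n) {τ c : ℕ → ℝ} (hτ : ∀ j, 0 < τ j)
    (hs : tm τ n = 1) {B : ℝ} (hB : 0 ≤ B) (hc : ∀ j < n, c j ≤ B) :
    ∑ j ∈ Finset.range i, τ j * c j ≤ B := by
  calc ∑ j ∈ Finset.range i, τ j * c j ≤ ∑ j ∈ Finset.range i, τ j * B := by
        refine Finset.sum_le_sum fun j hj => ?_
        rw [Finset.mem_range] at hj
        exact mul_le_mul_of_nonneg_left (hc j (by omega)) (hτ j).le
    _ = (∑ j ∈ Finset.range i, τ j) * B := by rw [Finset.sum_mul]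
    _ ≤ (∑ j ∈ Finset.range n, τ j) * B := by
        refine mul_le_mul_of_nonneg_right ?_ hB
        exact Finset.sum_le_sum_of_subset_of_nonneg (Finset.range_subset_range.2 hi)
          fun j _ _ => (hτ j).le
    _ = B := by
        have : ∑ j ∈ Finset.range n, τ j = 1 := hs
        rw [this, one_mul]

theorem cum_X (M : Met) (C : ℝ) : ∃ A, 0 < A ∧ ∀ (n : ℕ) (τ : ℕ → ℝ) (X : ℕ → E) (δ : ℝ),
    Chn M C n τ X δ → ∀ i < n,
      ‖X i - X 0 - ∑ j ∈ Finset.range i, τ j • ((M.f (X j) ^ 2)⁻¹ • Mom M τ X j)‖ ≤ A * δ := by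
  obtain ⟨m, F, K, hc⟩ := exists_csts M
  obtain ⟨W, hW, hmom⟩ := mom_bound M C
  obtain ⟨A0, hA0, hst⟩ := step_bound M C
  have hm := hc.hm
  have hK := hc.hK
  refine ⟨K * A0 * W / m ^ 3, by positivity, fun n τ X δ h i hi => ?_⟩
  have hδ : 0 < δ := (h.pos 0).trans_le (h.mesh 0 h.hn)
  have e1 : X i - X 0 - ∑ j ∈ Finset.range i, τ j • ((M.f (X j) ^ 2)⁻¹ • Mom M τ X j) =
      ∑ j ∈ Finset.range i, (τ j * (1 / (M.f (X j) * M.f (X (j + 1))) - 1 / M.f (X j) ^ 2)) •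
        Mom M τ X j := by
    rw [← Finset.sum_range_sub X i, ← Finset.sum_sub_distrib]
    refine Finset.sum_congr rfl fun j _ => ?_
    rw [X_step M (h.pos j) h.unit, smul_smul, ← sub_smul]
    congr 1
    have f1 := C1CumX_pos M h.unit j
    have f2 := C1CumX_pos M h.unit (j + 1)
    field_simp
  rw [e1]
  refine (norm_sum_le _ _).trans ?_
  have e2 : ∀ j ∈ Finset.range i, ‖(τ j * (1 / (M.f (X j) * M.f (X (j + 1))) -
      1 / M.f (X j) ^ 2)) • Mom M τ X j‖ = τ j * (|1 / (M.f (X j) * M.f (X (j + 1))) -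
      1 / M.f (X j) ^ 2| * ‖Mom M τ X j‖) := by
    intro j _
    rw [norm_smul, Real.norm_eq_abs, abs_mul, abs_of_pos (h.pos j), mul_assoc]
  rw [Finset.sum_congr rfl e2]
  refine C1CumX_sum hi.le h.pos h.sum (by positivity) fun j hj => ?_
  have h1 := C1CumX_D M hc (h.unit j) (h.unit (j + 1)) ((hst n τ X δ h j hj).trans
    (mul_le_mul_of_nonneg_left (h.mesh j hj) hA0.le))
  have h2 := hmom n τ X δ h j hj
  calc |1 / (M.f (X j) * M.f (X (j + 1))) - 1 / M.f (X j) ^ 2| * ‖Mom M τ X j‖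
      ≤ (K * (A0 * δ) / m ^ 3) * W := mul_le_mul h1 h2 (norm_nonneg _) (by positivity)
    _ = K * A0 * W / m ^ 3 * δ := by ring

theorem cum_E (M : Met) (C : ℝ) : ∃ A, 0 < A ∧ ∀ (n : ℕ) (τ : ℕ → ℝ) (X : ℕ → E) (δ : ℝ),
    Chn M C n τ X δ →
      |EnN M n τ X - ∑ j ∈ Finset.range n, τ j • (‖Mom M τ X j‖ ^ 2 / M.f (X j) ^ 2)| ≤ A * δ := by
  obtain ⟨m, F, K, hc⟩ := exists_csts M
  obtain ⟨W, hW, hmom⟩ := mom_bound M C
  obtain ⟨A0, hA0, hst⟩ := step_bound M C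
  have hm := hc.hm
  have hK := hc.hK
  refine ⟨K * A0 * W ^ 2 / m ^ 3, by positivity, fun n τ X δ h => ?_⟩
  have hδ : 0 < δ := (h.pos 0).trans_le (h.mesh 0 h.hn)
  have e1 : EnN M n τ X - ∑ j ∈ Finset.range n, τ j • (‖Mom M τ X j‖ ^ 2 / M.f (X j) ^ 2) =
      ∑ j ∈ Finset.range n, τ j * ((1 / (M.f (X j) * M.f (X (j + 1))) - 1 / M.f (X j) ^ 2) *
        ‖Mom M τ X j‖ ^ 2) := by
    rw [en_eq M h.pos h.unit, ← Finset.sum_sub_distrib]
    refine Finset.sum_congr rfl fun j _ => ?_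
    rw [smul_eq_mul]
    ring
  rw [e1]
  refine (Finset.abs_sum_le_sum_abs _ _).trans ?_
  have e2 : ∀ j ∈ Finset.range n, |τ j * ((1 / (M.f (X j) * M.f (X (j + 1))) -
      1 / M.f (X j) ^ 2) * ‖Mom M τ X j‖ ^ 2)| = τ j * (|1 / (M.f (X j) * M.f (X (j + 1))) -
      1 / M.f (X j) ^ 2| * ‖Mom M τ X j‖ ^ 2) := by
    intro j _
    rw [abs_mul, abs_mul, abs_of_pos (h.pos j), abs_of_nonneg (sq_nonneg ‖Mom M τ X j‖)]
  rw [Finset.sum_congr rfl e2]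
  refine C1CumX_sum le_rfl h.pos h.sum (by positivity) fun j hj => ?_
  have h1 := C1CumX_D M hc (h.unit j) (h.unit (j + 1)) ((hst n τ X δ h j hj).trans
    (mul_le_mul_of_nonneg_left (h.mesh j hj) hA0.le))
  have h2 := pow_le_pow_left₀ (norm_nonneg _) (hmom n τ X δ h j hj) 2
  calc |1 / (M.f (X j) * M.f (X (j + 1))) - 1 / M.f (X j) ^ 2| * ‖Mom M τ X j‖ ^ 2
      ≤ (K * (A0 * δ) / m ^ 3) * W ^ 2 := mul_le_mul h1 h2 (sq_nonneg _) (by positivity)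
    _ = K * A0 * W ^ 2 / m ^ 3 * δ := by ring

end CGA
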