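import Pool.Agent.CGA.C1LC
import Pool.Agent.CGA.C1Cl

/-! # CGA / C1Gap: limits of solutions, gap above `L`

`limSol`: a sequence (along an ultrafilter) of solutions on `[0,1]` with bounded momenta converges to a solution.
PROOF OF `limSol`.  Here `ι = ℕ`, `U = hyperfilter ℕ`.  `Γ_k = (γ_k, w_k)` takes values in `KK W`, where `‖gg‖ ≤ G` (`KK_compact`, `gg_cont`), and is `G`-Lipschitz.
Use `limit_main` with `n k = k + 1`, `τ k i = 1/(k+1)`, `Y k i = Γ_k (i/(k+1))`, `K = KK W`, `g = gg M`.  Error: `Γ_k(t_i) = Γ_k(0) + ∫_0^{t_i} gg(Γ_k)` and by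
`riemann` (with `h = gg M ∘ Γ_k`) the difference to the sum is at most `ω_k := sup {‖gg p - gg q‖ : p, q ∈ KK W, ‖p - q‖ ≤ G/(k+1)}`, which tends to `0`
(uniform continuity of `gg` on `KK W`).  So `ε k := max (1/(k+1)) ω_k`-type sequence; it is convenient to choose by uniform continuity for each `k` the number
`ε k := 1/(k+1) + sSup {...}` or to use the statement `∃ ω : ℕ → ℝ, Tendsto ω atTop (𝓝 0) ∧ ∀ k, ∀ p ∈ K, ∀ q ∈ K, ‖p - q‖ ≤ G/(k+1) → ‖gg p - gg q‖ ≤ ω k`.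
(`hyperfilter ℕ ≤ atTop`: `Nat.hyperfilter_le_atTop`.)  End points: `Y k 0 = Γ_k 0`, `Y k (n k - 1) = Γ_k (k/(k+1))` is within `G/(k+1)` of `Γ_k 1`.

PROOF OF `gap`.  Otherwise for every `k` some closed geodesic has length `ℓ_k ∈ (0, L + 1/(k+1)]`; by `hN`, `L < ℓ_k`.  So `ℓ_k → L`.  Its data `γ_k, w_k` satisfy
`‖w_k‖ = ℓ_k f ≤ (L+1) F`; `limSol` gives `γ, w` with `γ 1 = γ 0`, `w 1 = w 0` (limits of equal sequences) and `‖w 0‖ = L f(γ 0)`.  `closedGeo_of_sol` with `T = 1`: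
`ClosedGeo M L`, so `L < L` by `hN`.
-/

set_option linter.all false

namespace CGA

open scoped RealInnerProductSpace Real Topology
open MeasureTheory Set Filter

private theorem C1Gap_curve (M : Met) {W : ℝ} {γ w : ℝ → E} (h : Sol M 0 1 γ w)
    (hW : ∀ t ∈ Icc (0:ℝ) 1, ‖w t‖ ≤ W) :
    ContinuousOn (fun t => (γ t, w t)) (Icc 0 1) ∧ (∀ t ∈ Icc (0:ℝ) 1, (γ t, w t) ∈ KK W) ∧
    ContinuousOn (fun t => gg M (γ t, w t)) (Icc 0 1) ∧
    ∀ t ∈ Icc (0:ℝ) 1, (γ t, w t) = (γ 0, w 0) + ∫ s in (0:ℝ)..t, gg M (γ s, w s) := by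
  have h1 : ContinuousOn (fun t => (γ t, w t)) (Icc 0 1) := h.cγ.prodMk h.cw
  have h2 : ∀ t ∈ Icc (0:ℝ) 1, (γ t, w t) ∈ KK W := fun t ht => ⟨h.unit t ht, hW t ht⟩
  have h3 : ContinuousOn (fun t => gg M (γ t, w t)) (Icc 0 1) := (gg_cont M W).comp h1 h2
  refine ⟨h1, h2, h3, fun t ht => ?_⟩
  have hsub : uIcc 0 t ⊆ Icc (0:ℝ) 1 := by
    rw [uIcc_of_le ht.1]
    exact Icc_subset_Icc_right ht.2
  have hI : IntervalIntegrable (fun s => gg M (γ s, w s)) volume 0 t :=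
    (h3.mono hsub).intervalIntegrable
  have e1 : (∫ s in (0:ℝ)..t, gg M (γ s, w s)).1 = ∫ s in (0:ℝ)..t, (M.f (γ s) ^ 2)⁻¹ • w s :=
    ((ContinuousLinearMap.fst ℝ E E).intervalIntegral_comp_comm hI).symm
  have e2 : (∫ s in (0:ℝ)..t, gg M (γ s, w s)).2 = ∫ s in (0:ℝ)..t, rhs M (γ s) (w s) :=
    ((ContinuousLinearMap.snd ℝ E E).intervalIntegral_comp_comm hI).symm
  refine Prod.ext ?_ ?_
  · rw [Prod.fst_add, e1]
    exact h.eqγ t ht
  · rw [Prod.snd_add, e2]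
    exact h.eqw t ht

private theorem C1Gap_lip (M : Met) {W G : ℝ} {γ w : ℝ → E} (h : Sol M 0 1 γ w)
    (hW : ∀ t ∈ Icc (0:ℝ) 1, ‖w t‖ ≤ W) (hG : ∀ p ∈ KK W, ‖gg M p‖ ≤ G) {s t : ℝ}
    (hs : s ∈ Icc (0:ℝ) 1) (ht : t ∈ Icc (0:ℝ) 1) (hst : s ≤ t) :
    ‖(γ t, w t) - (γ s, w s)‖ ≤ G * (t - s) := by
  obtain ⟨h1, h2, h3, h4⟩ := C1Gap_curve M h hW
  have hI : ∀ u ∈ Icc (0:ℝ) 1, IntervalIntegrable (fun s => gg M (γ s, w s)) volume 0 u := by
    intro u hu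
    refine (h3.mono ?_).intervalIntegrable
    rw [uIcc_of_le hu.1]
    exact Icc_subset_Icc_right hu.2
  rw [h4 t ht, h4 s hs, add_sub_add_left_eq_sub,
    intervalIntegral.integral_interval_sub_left (hI t ht) (hI s hs)]
  have := intervalIntegral.norm_integral_le_of_norm_le_const (a := s) (b := t) (C := G)
    (f := fun s => gg M (γ s, w s)) (fun u hu => ?_)
  · rwa [abs_of_nonneg (sub_nonneg.2 hst)] at this
  · rw [uIoc_of_le hst] at hu
    exact hG _ (h2 u ⟨hs.1.trans hu.1.le, hu.2.trans ht.2⟩)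

private theorem C1Gap_omega (M : Met) (W : ℝ) {G : ℝ} (hG : ∀ p ∈ KK W, ‖gg M p‖ ≤ G) :
    ∃ ω : ℕ → ℝ, Tendsto ω atTop (𝓝 0) ∧ (∀ k, 0 ≤ ω k) ∧
      ∀ k : ℕ, ∀ p ∈ KK W, ∀ q ∈ KK W, ‖p - q‖ ≤ G / (k + 1) → ‖gg M p - gg M q‖ ≤ ω k := by
  have hu : UniformContinuousOn (gg M) (KK W) :=
    (KK_compact W).uniformContinuousOn_of_continuous (gg_cont M W)
  rw [Metric.uniformContinuousOn_iff_le] at hu
  let S : ℕ → Set ℝ := fun k => {r | ∃ p ∈ KK W, ∃ q ∈ KK W, ‖p - q‖ ≤ G / (k + 1) ∧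
    r = ‖gg M p - gg M q‖}
  have hS : ∀ k, BddAbove (S k) := by
    intro k
    refine ⟨G + G, ?_⟩
    rintro r ⟨p, hp, q, hq, -, rfl⟩
    exact (norm_sub_le _ _).trans (add_le_add (hG p hp) (hG q hq))
  have hS0 : ∀ k, 0 ≤ sSup (S k) := by
    intro k
    refine Real.sSup_nonneg ?_
    rintro r ⟨p, hp, q, hq, -, rfl⟩
    exact norm_nonneg _
  refine ⟨fun k => sSup (S k), ?_, hS0, ?_⟩
  · rw [Metric.tendsto_atTop]
    intro η hη
    obtain ⟨δ, hδ, h⟩ := hu (η / 2) (by linarith)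
    obtain ⟨N, hN⟩ := exists_nat_gt (G / δ)
    refine ⟨N, fun k hk => ?_⟩
    rw [Real.dist_eq, sub_zero, abs_of_nonneg (hS0 k)]
    refine lt_of_le_of_lt (Real.sSup_le ?_ (by linarith : (0:ℝ) ≤ η / 2)) (by linarith)
    rintro r ⟨p, hp, q, hq, hpq, rfl⟩
    rw [← dist_eq_norm]
    refine h p hp q hq ?_
    rw [dist_eq_norm]
    refine hpq.trans ?_
    rw [div_le_iff₀ (by positivity)]
    rw [div_lt_iff₀ hδ] at hN
    have : (N:ℝ) ≤ k := by exact_mod_cast hk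
    nlinarith
  · intro k p hp q hq hpq
    exact le_csSup (hS k) ⟨p, hp, q, hq, hpq, rfl⟩

theorem limSol (M : Met) {W : ℝ} {γ w : ℕ → ℝ → E} (h : ∀ k, Sol M 0 1 (γ k) (w k))
    (hW : ∀ k, ∀ t ∈ Icc (0:ℝ) 1, ‖w k t‖ ≤ W) :
    ∃ γ' w' : ℝ → E, Sol M 0 1 γ' w' ∧
      Tendsto (fun k => γ k 0) (hyperfilter ℕ : Filter ℕ) (𝓝 (γ' 0)) ∧
      Tendsto (fun k => γ k 1) (hyperfilter ℕ : Filter ℕ) (𝓝 (γ' 1)) ∧
      Tendsto (fun k => w k 0) (hyperfilter ℕ : Filter ℕ) (𝓝 (w' 0)) ∧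
      Tendsto (fun k => w k 1) (hyperfilter ℕ : Filter ℕ) (𝓝 (w' 1)) := by
  obtain ⟨G, hG⟩ := (KK_compact W).exists_bound_of_continuousOn (gg_cont M W)
  obtain ⟨ω, hω, hω0, hωb⟩ := C1Gap_omega M W hG
  have h01 : (0:ℝ) ∈ Icc (0:ℝ) 1 := by simp
  have h11 : (1:ℝ) ∈ Icc (0:ℝ) 1 := by simp
  let Γ : ℕ → ℝ → E × E := fun k t => (γ k t, w k t)
  let τ : ℕ → ℕ → ℝ := fun k _ => 1 / ((k:ℝ) + 1)
  have hτ : ∀ k i, tm (τ k) i = i / ((k:ℝ) + 1) := by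
    intro k i
    simp only [tm, τ, Finset.sum_const, Finset.card_range, nsmul_eq_mul]
    ring
  have hτ0 : ∀ k i, 0 < τ k i := fun k i => by
    simp only [τ]
    positivity
  have hτ1 : ∀ k, tm (τ k) (k + 1) = 1 := by
    intro k
    rw [hτ]
    push_cast
    exact div_self (by positivity)
  have hle : (hyperfilter ℕ : Filter ℕ) ≤ atTop := Nat.hyperfilter_le_atTop
  have hinv : Tendsto (fun k : ℕ => 1 / ((k:ℝ) + 1)) atTop (𝓝 0) :=
    tendsto_one_div_add_atTop_nhds_zero_nat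
  have hmem : ∀ k, ∀ i ≤ k + 1, tm (τ k) i ∈ Icc (0:ℝ) 1 := fun k i hi =>
    tm_mem (fun j _ => (hτ0 k j).le) (hτ1 k) hi
  have H : LimData (KK W) (gg M) (hyperfilter ℕ) (fun k => k + 1) τ
      (fun k i => Γ k (tm (τ k) i)) (fun k => 1 / ((k:ℝ) + 1) + ω k) := by
    refine ⟨fun k => Nat.succ_pos k, fun k i _ => hτ0 k i, fun k i _ => ?_, hτ1, ?_, ?_, ?_⟩
    · simp only [τ]
      linarith [hω0 k]
    · intro k i hi
      exact ⟨(h k).unit _ (hmem k i hi.le), hW k _ (hmem k i hi.le)⟩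
    · intro k i hi
      obtain ⟨h1, h2, h3, h4⟩ := C1Gap_curve M (h k) (hW k)
      have hr := riemann (h := fun s => gg M (Γ k s)) h3 (τ := τ k) (n := k + 1) (i := i) hi.le
        (fun j _ => (hτ0 k j).le) (hτ1 k) (ω := ω k) (fun j hj s hs => ?_)
      · have e : Γ k (tm (τ k) i) - Γ k (tm (τ k) 0) = ∫ s in (0:ℝ)..tm (τ k) i, gg M (Γ k s) := by
          rw [tm_zero]
          have := h4 _ (hmem k i hi.le)
          simp only [Γ]
          rw [this, add_sub_cancel_left]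
        change ‖Γ k (tm (τ k) i) - Γ k (tm (τ k) 0)
          - ∑ j ∈ Finset.range i, τ k j • gg M (Γ k (tm (τ k) j))‖ ≤ 1 / ((k:ℝ) + 1) + ω k
        rw [e, norm_sub_rev]
        have : (0:ℝ) < 1 / ((k:ℝ) + 1) := by positivity
        linarith
      · have m1 : tm (τ k) j ∈ Icc (0:ℝ) 1 := hmem k j hj.le
        have m2 : tm (τ k) (j + 1) ∈ Icc (0:ℝ) 1 := hmem k (j + 1) hj
        have m3 : s ∈ Icc (0:ℝ) 1 := ⟨m1.1.trans hs.1, hs.2.trans m2.2⟩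
        refine hωb k _ (h2 s m3) _ (h2 _ m1) ?_
        refine (C1Gap_lip M (h k) (hW k) hG m1 m3 hs.1).trans ?_
        have hG0 : 0 ≤ G := (norm_nonneg _).trans (hG _ (h2 s m3))
        have h5 : s - tm (τ k) j ≤ 1 / ((k:ℝ) + 1) := by
          have := hs.2
          rw [tm_succ] at this
          simp only [τ] at this ⊢
          linarith
        calc G * (s - tm (τ k) j) ≤ G * (1 / ((k:ℝ) + 1)) := mul_le_mul_of_nonneg_left h5 hG0
          _ = G / (k + 1) := by ring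
    · have := (hinv.add hω).mono_left hle
      simpa using this
  obtain ⟨Γ', c1, c2, c3, -, c5, c6⟩ := limit_main (KK_compact W) (gg_cont M W) H
  have hG0 : 0 ≤ G := (norm_nonneg _).trans (hG _ (c2 0 h01))
  have c7 : Tendsto (fun k => Γ k 0) (hyperfilter ℕ : Filter ℕ) (𝓝 (Γ' 0)) := by
    simpa only [tm_zero] using c5
  have c8 : Tendsto (fun k => Γ k 1) (hyperfilter ℕ : Filter ℕ) (𝓝 (Γ' 1)) := by
    have d1 : Tendsto (fun k => Γ k 1 - Γ k (tm (τ k) k)) (hyperfilter ℕ : Filter ℕ) (𝓝 0) := by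
      refine squeeze_zero_norm (a := fun k : ℕ => G * (1 / ((k:ℝ) + 1))) (fun k => ?_) ?_
      · have m1 : tm (τ k) k ∈ Icc (0:ℝ) 1 := hmem k k (Nat.le_succ k)
        refine (C1Gap_lip M (h k) (hW k) hG m1 h11 m1.2).trans (mul_le_mul_of_nonneg_left ?_ hG0)
        have := hτ1 k
        rw [tm_succ] at this
        simp only [τ] at this ⊢
        linarith
      · have := (hinv.const_mul G).mono_left hle
        simpa using this
    have d2 := d1.add c6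
    rw [zero_add] at d2
    refine d2.congr fun k => ?_
    simp only [Nat.add_sub_cancel]
    exact sub_add_cancel _ _
  refine ⟨fun t => (Γ' t).1, fun t => (Γ' t).2, sol_of_curve M c1 c2 c3, ?_, ?_, ?_, ?_⟩
  · exact (continuous_fst.tendsto _).comp c7
  · exact (continuous_fst.tendsto _).comp c8
  · exact (continuous_snd.tendsto _).comp c7
  · exact (continuous_snd.tendsto _).comp c8

/-- C-gap -/
theorem gap (M : Met) {L : ℝ} (hL : 0 < L) (hN : NoGeo M L) : ∃ L₁ > L, NoGeo M L₁ := by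
  by_contra hcon
  push Not at hcon
  have h1 : ∀ k : ℕ, ∃ ℓ, 0 < ℓ ∧ ClosedGeo M ℓ ∧ ℓ ≤ L + 1 / ((k:ℝ) + 1) := by
    intro k
    have h2 : ¬ NoGeo M (L + 1 / ((k:ℝ) + 1)) := hcon _ (by
      have : (0:ℝ) < 1 / ((k:ℝ) + 1) := by positivity
      linarith)
    unfold NoGeo at h2
    push Not at h2
    exact h2
  choose ℓ hℓ0 hℓ hℓ1 using h1
  have hlt : ∀ k, L < ℓ k := fun k => hN (ℓ k) (hℓ0 k) (hℓ k)
  choose γ w hS hγ hw hn using hℓ
  obtain ⟨m, F, K, hc⟩ := exists_csts M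
  have h01 : (0:ℝ) ∈ Icc (0:ℝ) 1 := by simp
  have hle : (hyperfilter ℕ : Filter ℕ) ≤ atTop := Nat.hyperfilter_le_atTop
  have hinv : Tendsto (fun k : ℕ => 1 / ((k:ℝ) + 1)) atTop (𝓝 0) :=
    tendsto_one_div_add_atTop_nhds_zero_nat
  have hW : ∀ k, ∀ t ∈ Icc (0:ℝ) 1, ‖w k t‖ ≤ (L + 1) * F := by
    intro k t ht
    rw [hn k t ht]
    have h3 : ℓ k ≤ L + 1 := by
      refine (hℓ1 k).trans ?_
      have : 1 / ((k:ℝ) + 1) ≤ 1 := by
        rw [div_le_one (by positivity)]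
        linarith [(Nat.cast_nonneg k : (0:ℝ) ≤ k)]
      linarith
    have h4 : 0 ≤ M.f (γ k t) := hc.hm.le.trans (hc.lo _ ((hS k).unit t ht))
    exact mul_le_mul h3 (hc.hi _ ((hS k).unit t ht)) h4 (by linarith)
  obtain ⟨γ', w', hS', t1, t2, t3, t4⟩ := limSol M hS hW
  have e1 : γ' 1 = γ' 0 := tendsto_nhds_unique (by simpa only [hγ] using t2) t1
  have e2 : w' 1 = w' 0 := tendsto_nhds_unique (by simpa only [hw] using t4) t3
  have hu : ‖γ' 0‖ = 1 := hS'.unit 0 h01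
  have hne : γ' 0 ≠ 0 := fun h0 => by rw [h0, norm_zero] at hu; norm_num at hu
  have hℓl : Tendsto ℓ (hyperfilter ℕ : Filter ℕ) (𝓝 L) := by
    refine Tendsto.mono_left ?_ hle
    refine tendsto_of_tendsto_of_tendsto_of_le_of_le tendsto_const_nhds
      (h := fun k : ℕ => L + 1 / ((k:ℝ) + 1)) ?_ (fun k => (hlt k).le) hℓ1
    simpa using hinv.const_add L
  have hf : Tendsto (fun k => M.f (γ k 0)) (hyperfilter ℕ : Filter ℕ) (𝓝 (M.f (γ' 0))) :=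
    (((cont_f M).continuousAt (isOpen_compl_singleton.mem_nhds hne)).tendsto).comp t1
  have e3 : ‖w' 0‖ = L * M.f (γ' 0) := by
    refine tendsto_nhds_unique t3.norm ?_
    simpa only [hn _ 0 h01] using hℓl.mul hf
  have hg := closedGeo_of_sol M one_pos hL hS' e1 e2 e3
  rw [mul_one] at hg
  exact lt_irrefl _ (hN L hL hg)

end CGA
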