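import Pool.Agent.CGA.Defs

/-! # CGA / C1RS: Riemann sums

`tm τ i = τ 0 + ... + τ (i-1)` are the times of a partition.

PROOF OF `riemann`.  By `intervalIntegral.sum_integral_adjacent_intervals` (range version)
`∫_0^{t_i} h = Σ_{j<i} ∫_{t_j}^{t_{j+1}} h`, and `τ j • h (t_j) = ∫_{t_j}^{t_{j+1}} h (t_j)` (`intervalIntegral.integral_const`).
Each difference has norm at most `ω τ j` (`intervalIntegral.norm_integral_le_of_norm_le_const`), the sum is at most `ω t_i ≤ ω`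
(if `i = 0` both sides are `0 ≤ ω`; in general `0 ≤ ω` because `n > 0` — if `n = 0` then `tm τ n = 0 ≠ 1`).
-/

set_option linter.all false

namespace CGA

open scoped RealInnerProductSpace Real Topology
open MeasureTheory Set Filter

/-- times of a partition -/
def tm (τ : ℕ → ℝ) (i : ℕ) : ℝ := ∑ j ∈ Finset.range i, τ j

@[simp] theorem tm_zero (τ : ℕ → ℝ) : tm τ 0 = 0 := by
  simp [tm]

theorem tm_succ (τ : ℕ → ℝ) (i : ℕ) : tm τ (i + 1) = tm τ i + τ i := by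
  rw [tm, tm, Finset.sum_range_succ]

theorem tm_mono {τ : ℕ → ℝ} {n : ℕ} (h0 : ∀ j < n, 0 ≤ τ j) {i j : ℕ} (hij : i ≤ j) (hj : j ≤ n) :
    tm τ i ≤ tm τ j := by
  refine Finset.sum_le_sum_of_subset_of_nonneg (Finset.range_mono hij) fun k hk _ => ?_
  rw [Finset.mem_range] at hk
  exact h0 k (by omega)

theorem tm_mem {τ : ℕ → ℝ} {n : ℕ} (h0 : ∀ j < n, 0 ≤ τ j) (h1 : tm τ n = 1) {i : ℕ} (hi : i ≤ n) :
    tm τ i ∈ Icc (0:ℝ) 1 := by
  have h2 := tm_mono h0 (Nat.zero_le i) hi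
  have h3 := tm_mono h0 hi le_rfl
  rw [tm_zero] at h2
  rw [h1] at h3
  exact ⟨h2, h3⟩

private theorem C1RS_aux {V : Type*} [NormedAddCommGroup V] [NormedSpace ℝ V] [CompleteSpace V]
    {h : ℝ → V} (hc : ContinuousOn h (Icc 0 1)) {τ : ℕ → ℝ} {n : ℕ}
    (h0 : ∀ j < n, 0 ≤ τ j) (h1 : tm τ n = 1) {ω : ℝ}
    (hω : ∀ j < n, ∀ s ∈ Icc (tm τ j) (tm τ (j + 1)), ‖h s - h (tm τ j)‖ ≤ ω) :
    ∀ i ≤ n, ‖∑ j ∈ Finset.range i, τ j • h (tm τ j) - ∫ s in (0:ℝ)..tm τ i, h s‖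
      ≤ ω * tm τ i := by
  intro i
  induction i with
  | zero => intro _; simp
  | succ i ih =>
    intro hi
    have ih' := ih (by omega)
    have hii : ∀ a b : ℝ, a ∈ Icc (0:ℝ) 1 → b ∈ Icc (0:ℝ) 1 → IntervalIntegrable h volume a b := by
      intro a b ha hb
      refine (hc.mono ?_).intervalIntegrable
      exact uIcc_subset_Icc ha hb
    have m0 : (0:ℝ) ∈ Icc (0:ℝ) 1 := ⟨le_rfl, zero_le_one⟩
    have mi := tm_mem h0 h1 (i := i) (by omega)
    have mi1 := tm_mem h0 h1 hi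
    have hle : tm τ i ≤ tm τ (i + 1) := tm_mono h0 (Nat.le_succ i) hi
    have hτ : tm τ (i + 1) - tm τ i = τ i := by rw [tm_succ]; ring
    have e1 : ∫ s in (0:ℝ)..tm τ (i + 1), h s
        = (∫ s in (0:ℝ)..tm τ i, h s) + ∫ s in tm τ i..tm τ (i + 1), h s :=
      (intervalIntegral.integral_add_adjacent_intervals (hii _ _ m0 mi) (hii _ _ mi mi1)).symm
    have e2 : τ i • h (tm τ i) - ∫ s in tm τ i..tm τ (i + 1), h s
        = ∫ s in tm τ i..tm τ (i + 1), (h (tm τ i) - h s) := by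
      rw [intervalIntegral.integral_sub intervalIntegrable_const (hii _ _ mi mi1),
        intervalIntegral.integral_const, hτ]
    have e3 : ‖∫ s in tm τ i..tm τ (i + 1), (h (tm τ i) - h s)‖ ≤ ω * τ i := by
      have := intervalIntegral.norm_integral_le_of_norm_le_const (a := tm τ i)
        (b := tm τ (i + 1)) (f := fun s => h (tm τ i) - h s) (C := ω) (fun s hs => by
          rw [uIoc_of_le hle] at hs
          rw [norm_sub_rev]
          exact hω i (by omega) s ⟨hs.1.le, hs.2⟩)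
      rwa [hτ, abs_of_nonneg (h0 i (by omega))] at this
    rw [Finset.sum_range_succ, e1]
    have e4 : (∑ j ∈ Finset.range i, τ j • h (tm τ j) + τ i • h (tm τ i))
        - ((∫ s in (0:ℝ)..tm τ i, h s) + ∫ s in tm τ i..tm τ (i + 1), h s)
        = (∑ j ∈ Finset.range i, τ j • h (tm τ j) - ∫ s in (0:ℝ)..tm τ i, h s)
          + ∫ s in tm τ i..tm τ (i + 1), (h (tm τ i) - h s) := by
      rw [← e2]
      abel
    have e5 : ω * tm τ (i + 1) = ω * tm τ i + ω * τ i := by rw [tm_succ, mul_add]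
    rw [e4, e5]
    exact (norm_add_le _ _).trans (add_le_add ih' e3)

theorem riemann {V : Type*} [NormedAddCommGroup V] [NormedSpace ℝ V] [CompleteSpace V]
    {h : ℝ → V} (hc : ContinuousOn h (Icc 0 1)) {τ : ℕ → ℝ} {n i : ℕ} (hi : i ≤ n)
    (h0 : ∀ j < n, 0 ≤ τ j) (h1 : tm τ n = 1) {ω : ℝ}
    (hω : ∀ j < n, ∀ s ∈ Icc (tm τ j) (tm τ (j + 1)), ‖h s - h (tm τ j)‖ ≤ ω) :
    ‖∑ j ∈ Finset.range i, τ j • h (tm τ j) - ∫ s in (0:ℝ)..tm τ i, h s‖ ≤ ω := by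
  have hn : 0 < n := by
    rcases Nat.eq_zero_or_pos n with h | h
    · rw [h, tm_zero] at h1
      norm_num at h1
    · exact h
  have hω0 : 0 ≤ ω := (norm_nonneg _).trans
    (hω 0 hn (tm τ 0) ⟨le_rfl, tm_mono h0 (Nat.zero_le 1) hn⟩)
  refine (C1RS_aux hc h0 h1 hω i hi).trans ?_
  have := (tm_mem h0 h1 hi).2
  nlinarith

end CGA
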