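import Pool.Agent.CGA.C1Con
import Pool.Agent.CGA.C1RS

/-! # CGA / C1Inc: algebra of critical chains

`ee τ X i = ‖X (i+1) - X i‖² / τ i`, `w_i = Mom M τ X i = (f_i f_{i+1} / τ_i) (X_{i+1} - X_i)`.

PROOFS.  `mom_norm`: `norm_smul`, positivity.  `ee_eq`: `‖w_i‖² = (f_i f_{i+1})² ‖ΔX‖² / τ_i²`.
`X_step`: `X_{i+1} - X_i = (τ_i / (f_i f_{i+1})) w_i`.
`incr`: put `v := 2 (w_{i+1} - w_i) - (f_{i+2} e_{i+1} + f_i e_i) ∇f(X_{i+1})`.  By `hc` (`CritN`), `⟪v, u⟫ = 0` for all `u ⟂ x := X_{i+1}`, so `v = ⟪v, x⟫ x`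
(apply it to `u = v - ⟪v,x⟫ x`, `‖x‖ = 1`).  `⟪∇f(x), x⟫ = 0` (`grad_perp`), and for unit vectors
`⟪X_{i+2} - x, x⟫ = -‖X_{i+2} - x‖² / 2`, `⟪x - X_i, x⟫ = ‖x - X_i‖² / 2`, so `⟪w_{i+1}, x⟫ = -½ f_{i+1} f_{i+2} e_{i+1}`, `⟪w_i, x⟫ = ½ f_i f_{i+1} e_i`.
-/

set_option linter.all false

namespace CGA

open scoped RealInnerProductSpace Real Topology
open MeasureTheory Set Filter

/-- `‖ΔX‖² / τ` -/
noncomputable def ee (τ : ℕ → ℝ) (X : ℕ → E) (i : ℕ) : ℝ := ‖X (i + 1) - X i‖ ^ 2 / τ i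

private theorem C1Inc_pos (M : Met) {X : ℕ → E} (hX : ∀ i, ‖X i‖ = 1) (i : ℕ) :
    0 < M.f (X i) :=
  M.pos _ (by
    intro h
    have := hX i
    rw [h, norm_zero] at this
    exact zero_ne_one this)

theorem mom_norm (M : Met) {τ : ℕ → ℝ} {X : ℕ → E} {i : ℕ} (hτ : 0 < τ i) (hX : ∀ i, ‖X i‖ = 1) :
    ‖Mom M τ X i‖ = M.f (X i) * M.f (X (i + 1)) * ‖X (i + 1) - X i‖ / τ i := by
  have h1 := C1Inc_pos M hX i
  have h2 := C1Inc_pos M hX (i + 1)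
  unfold Mom
  rw [norm_smul, Real.norm_eq_abs, abs_of_pos (by positivity)]
  ring

theorem X_step (M : Met) {τ : ℕ → ℝ} {X : ℕ → E} {i : ℕ} (hτ : 0 < τ i) (hX : ∀ i, ‖X i‖ = 1) :
    X (i + 1) - X i = (τ i / (M.f (X i) * M.f (X (i + 1)))) • Mom M τ X i := by
  have h1 := C1Inc_pos M hX i
  have h2 := C1Inc_pos M hX (i + 1)
  unfold Mom
  rw [smul_smul, div_mul_div_cancel₀ (by positivity), div_self hτ.ne', one_smul]

theorem ee_eq (M : Met) {τ : ℕ → ℝ} {X : ℕ → E} {i : ℕ} (hτ : 0 < τ i) (hX : ∀ i, ‖X i‖ = 1) :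
    ee τ X i = τ i * ‖Mom M τ X i‖ ^ 2 / (M.f (X i) * M.f (X (i + 1))) ^ 2 := by
  have h1 := C1Inc_pos M hX i
  have h2 := C1Inc_pos M hX (i + 1)
  rw [mom_norm M hτ hX]
  unfold ee
  field_simp

theorem incr (M : Met) {τ : ℕ → ℝ} {X : ℕ → E} {i : ℕ} (hX : ∀ i, ‖X i‖ = 1)
    (hc : CritN M τ X i) :
    Mom M τ X (i + 1) - Mom M τ X i =
      ((1 / 2 : ℝ) * (M.f (X (i + 2)) * ee τ X (i + 1) + M.f (X i) * ee τ X i)) •
          gradient M.f (X (i + 1)) -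
        ((1 / 2 : ℝ) * (M.f (X (i + 1)) * M.f (X (i + 2)) * ee τ X (i + 1) +
          M.f (X i) * M.f (X (i + 1)) * ee τ X i)) • X (i + 1) := by
  have hx0 : X (i + 1) ≠ 0 := by
    intro h
    have := hX (i + 1)
    rw [h, norm_zero] at this
    exact zero_ne_one this
  have hxx : ⟪X (i + 1), X (i + 1)⟫ = 1 := by
    rw [real_inner_self_eq_norm_sq, hX, one_pow]
  have hg := grad_perp M hx0
  have h1 : ⟪Mom M τ X (i + 1), X (i + 1)⟫ =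
      -(1 / 2) * (M.f (X (i + 1)) * M.f (X (i + 2)) * ee τ X (i + 1)) := by
    have hn : ‖X (i + 2) - X (i + 1)‖ ^ 2 = 2 - 2 * ⟪X (i + 2), X (i + 1)⟫ := by
      rw [norm_sub_sq_real, hX, hX]
      ring
    unfold Mom ee
    rw [show i + 1 + 1 = i + 2 from rfl, real_inner_smul_left, inner_sub_left, hxx, hn]
    ring
  have h0 : ⟪Mom M τ X i, X (i + 1)⟫ =
      (1 / 2) * (M.f (X i) * M.f (X (i + 1)) * ee τ X i) := by
    have hn : ‖X (i + 1) - X i‖ ^ 2 = 2 - 2 * ⟪X i, X (i + 1)⟫ := by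
      rw [norm_sub_sq_real, hX, hX, real_inner_comm]
      ring
    unfold Mom ee
    rw [real_inner_smul_left, inner_sub_left, hxx, hn]
    ring
  set V : E := (2:ℝ) • (Mom M τ X i - Mom M τ X (i + 1)) +
      (M.f (X (i + 2)) * ‖X (i + 2) - X (i + 1)‖ ^ 2 / τ (i + 1) +
        M.f (X i) * ‖X (i + 1) - X i‖ ^ 2 / τ i) • gradient M.f (X (i + 1)) with hV
  have hVx : ⟪V, X (i + 1)⟫ = M.f (X i) * M.f (X (i + 1)) * ee τ X i +
      M.f (X (i + 1)) * M.f (X (i + 2)) * ee τ X (i + 1) := by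
    rw [hV, inner_add_left, real_inner_smul_left, real_inner_smul_left, inner_sub_left, h0, h1, hg]
    ring
  have hVe : V = ⟪V, X (i + 1)⟫ • X (i + 1) := by
    have hu : ⟪X (i + 1), V - ⟪V, X (i + 1)⟫ • X (i + 1)⟫ = 0 := by
      rw [inner_sub_right, real_inner_smul_right, hxx, real_inner_comm]
      ring
    have h2 : ⟪V, V - ⟪V, X (i + 1)⟫ • X (i + 1)⟫ = 0 := hc _ hu
    have h3 : ⟪V - ⟪V, X (i + 1)⟫ • X (i + 1), V - ⟪V, X (i + 1)⟫ • X (i + 1)⟫ = 0 := by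
      rw [inner_sub_left, h2, real_inner_smul_left, hu]
      ring
    exact sub_eq_zero.1 (inner_self_eq_zero.1 h3)
  rw [hVx] at hVe
  have hV' : V = (2:ℝ) • (Mom M τ X i - Mom M τ X (i + 1)) +
      (M.f (X (i + 2)) * ee τ X (i + 1) + M.f (X i) * ee τ X i) • gradient M.f (X (i + 1)) := by
    rw [hV]
    unfold ee
    rw [mul_div_assoc, mul_div_assoc]
  rw [hV'] at hVe
  have h4 : (2:ℝ) • (Mom M τ X (i + 1) - Mom M τ X i) =
      (M.f (X (i + 2)) * ee τ X (i + 1) + M.f (X i) * ee τ X i) • gradient M.f (X (i + 1)) -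
      (M.f (X i) * M.f (X (i + 1)) * ee τ X i +
        M.f (X (i + 1)) * M.f (X (i + 2)) * ee τ X (i + 1)) • X (i + 1) := by
    rw [← hVe, smul_sub, smul_sub]
    abel
  have h5 : Mom M τ X (i + 1) - Mom M τ X i =
      (1 / 2 : ℝ) • ((2:ℝ) • (Mom M τ X (i + 1) - Mom M τ X i)) := by
    rw [smul_smul]
    norm_num
  rw [h5, h4, smul_sub, smul_smul, smul_smul]
  congr 2
  ring

/-- a critical chain with `n` steps, mesh `≤ δ`, energy `≤ C` -/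
structure Chn (M : Met) (C : ℝ) (n : ℕ) (τ : ℕ → ℝ) (X : ℕ → E) (δ : ℝ) : Prop where
  hn : 0 < n
  pos : ∀ i, 0 < τ i
  mesh : ∀ i < n, τ i ≤ δ
  sum : tm τ n = 1
  unit : ∀ i, ‖X i‖ = 1
  crit : ∀ i, i + 1 < n → CritN M τ X i
  en : EnN M n τ X ≤ C

end CGA
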