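import Pool.Agent.CGA.C1LimD
import Pool.Agent.CGA.C1CumX
import Pool.Agent.CGA.C1CumW

/-! # CGA / C1LC: limits of critical chains

`gg M p = ((f(p.1)²)⁻¹ p.2, rhs M p.1 p.2)` on `E × E`, `KK W = {‖p.1‖ = 1, ‖p.2‖ ≤ W}`.

PROOFS.  `KK_compact`: closed and bounded in the finite dimensional space `E × E` (`Metric.isCompact_of_isClosed_isBounded`).
`gg_cont`: `cont_f`, `cont_grad` (unit vectors are `≠ 0`), positivity of `f`.
`sol_of_curve`: components of the integral equation: `ContinuousLinearMap.intervalIntegral_comp_comm` for `fst` and `snd` (the integrand is continuous on `[0,t]`,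
`ContinuousOn.intervalIntegrable`).
`limChain`: with `W` from `mom_bound`, `A_X, A_W, A_E, A_0` from `cum_X, cum_W, cum_E, step_bound` and `A = A_X + A_W + 1` the data
`V = E × E`, `K = KK W`, `g = gg M`, `Y k i = (X k i, Mom (τ k) (X k) i)`, `ε k = A * δ k` satisfy `LimData` (norm of a pair = maximum; `0 < τ k 0 ≤ δ k`;
the sum of pairs is the pair of sums: `Prod.fst_sum`, `Prod.snd_sum`).  `limit_main` gives `Γ`, `γ := fst ∘ Γ`, `w := snd ∘ Γ`.
`X k (n k) → γ 1`: `‖X (n) - X (n-1)‖ ≤ A_0 τ_{n-1} ≤ A_0 δ k → 0`.  Energy: `cum_E` and `limit_sum` for `h p = ‖p.2‖² / f(p.1)²`, `i k = n k`, `t = 1`.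
-/

set_option linter.all false

namespace CGA

open scoped RealInnerProductSpace Real Topology
open MeasureTheory Set Filter

/-- the vector field of the geodesic equation -/
noncomputable def gg (M : Met) (p : E × E) : E × E := ((M.f p.1 ^ 2)⁻¹ • p.2, rhs M p.1 p.2)

def KK (W : ℝ) : Set (E × E) := {p | ‖p.1‖ = 1 ∧ ‖p.2‖ ≤ W}

private theorem C1LC_ne {x : E} (hx : ‖x‖ = 1) : x ∈ ({0}ᶜ : Set E) := by
  intro h
  have : x = 0 := h
  rw [this] at hx
  simp at hx

theorem KK_compact (W : ℝ) : IsCompact (KK W) := by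
  apply Metric.isCompact_of_isClosed_isBounded
  · have : KK W = {p : E × E | ‖p.1‖ = 1} ∩ {p | ‖p.2‖ ≤ W} := rfl
    rw [this]
    exact (isClosed_eq (by fun_prop) (by fun_prop)).inter (isClosed_le (by fun_prop) (by fun_prop))
  · refine (Metric.isBounded_closedBall (x := (0 : E × E)) (r := max 1 W)).subset ?_
    intro p hp
    rw [mem_closedBall_zero_iff, Prod.norm_def]
    exact max_le_max hp.1.le hp.2

private theorem C1LC_f (M : Met) (W : ℝ) : ContinuousOn (fun p : E × E => M.f p.1) (KK W) :=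
  (cont_f M).comp continuous_fst.continuousOn (fun p hp => C1LC_ne hp.1)

private theorem C1LC_g (M : Met) (W : ℝ) :
    ContinuousOn (fun p : E × E => gradient M.f p.1) (KK W) :=
  (cont_grad M).comp continuous_fst.continuousOn (fun p hp => C1LC_ne hp.1)

private theorem C1LC_pos (M : Met) {W : ℝ} {p : E × E} (hp : p ∈ KK W) : 0 < M.f p.1 :=
  M.pos _ (C1LC_ne hp.1)

theorem gg_cont (M : Met) (W : ℝ) : ContinuousOn (gg M) (KK W) := by
  have hf := C1LC_f M W
  have hg := C1LC_g M W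
  have h1 : ContinuousOn (fun p : E × E => p.1) (KK W) := continuous_fst.continuousOn
  have h2 : ContinuousOn (fun p : E × E => p.2) (KK W) := continuous_snd.continuousOn
  unfold gg rhs
  apply ContinuousOn.prodMk
  · exact ((hf.pow 2).inv₀ (fun p hp => (pow_pos (C1LC_pos M hp) 2).ne')).smul h2
  · exact (((h2.norm.pow 2).div (hf.pow 3) (fun p hp => (pow_pos (C1LC_pos M hp) 3).ne')).smul
      hg).sub (((h2.norm.pow 2).div (hf.pow 2)
        (fun p hp => (pow_pos (C1LC_pos M hp) 2).ne')).smul h1)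

theorem en_cont (M : Met) (W : ℝ) :
    ContinuousOn (fun p : E × E => ‖p.2‖ ^ 2 / M.f p.1 ^ 2) (KK W) := by
  have hf := C1LC_f M W
  have h2 : ContinuousOn (fun p : E × E => p.2) (KK W) := continuous_snd.continuousOn
  exact (h2.norm.pow 2).div (hf.pow 2) (fun p hp => (pow_pos (C1LC_pos M hp) 2).ne')

theorem sol_of_curve (M : Met) {W : ℝ} {Γ : ℝ → E × E} (hc : ContinuousOn Γ (Icc 0 1))
    (hK : ∀ t ∈ Icc (0:ℝ) 1, Γ t ∈ KK W)
    (he : ∀ t ∈ Icc (0:ℝ) 1, Γ t = Γ 0 + ∫ s in (0:ℝ)..t, gg M (Γ s)) :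
    Sol M 0 1 (fun t => (Γ t).1) (fun t => (Γ t).2) := by
  have hgc : ContinuousOn (fun s => gg M (Γ s)) (Icc 0 1) := (gg_cont M W).comp hc hK
  have hint : ∀ t ∈ Icc (0:ℝ) 1, IntervalIntegrable (fun s => gg M (Γ s)) volume 0 t := by
    intro t ht
    apply ContinuousOn.intervalIntegrable
    rw [uIcc_of_le ht.1]
    exact hgc.mono (Icc_subset_Icc le_rfl ht.2)
  refine ⟨continuous_fst.comp_continuousOn hc, continuous_snd.comp_continuousOn hc,
    fun t ht => (hK t ht).1, fun t ht => ?_, fun t ht => ?_⟩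
  · have h1 := congrArg Prod.fst (he t ht)
    rw [Prod.fst_add] at h1
    have h2 := (ContinuousLinearMap.fst ℝ E E).intervalIntegral_comp_comm (hint t ht)
    simp only [ContinuousLinearMap.coe_fst'] at h2
    show (Γ t).1 = _
    rw [h1, ← h2]
    rfl
  · have h1 := congrArg Prod.snd (he t ht)
    rw [Prod.snd_add] at h1
    have h2 := (ContinuousLinearMap.snd ℝ E E).intervalIntegral_comp_comm (hint t ht)
    simp only [ContinuousLinearMap.coe_snd'] at h2
    show (Γ t).2 = _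
    rw [h1, ← h2]
    rfl

private theorem C1LC_data (M : Met) (C : ℝ) : ∃ W A, 0 < A ∧ ∀ {ι : Type} (U : Ultrafilter ι)
    (n : ι → ℕ) (τ : ι → ℕ → ℝ) (X : ι → ℕ → E) (δ : ι → ℝ), Tendsto δ U (𝓝 0) →
    (∀ k, Chn M C (n k) (τ k) (X k) (δ k)) →
    LimData (KK W) (gg M) U n τ (fun k i => (X k i, Mom M (τ k) (X k) i)) (fun k => A * δ k) := by
  obtain ⟨W, hW, hWb⟩ := mom_bound M C
  obtain ⟨AX, hAX, hX⟩ := cum_X M C
  obtain ⟨AW, hAW, hAWb⟩ := cum_W M C
  refine ⟨W, AX + AW + 1, by positivity, ?_⟩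
  intro ι U n τ X δ hδ hch
  have hδp : ∀ k, 0 < δ k := fun k => lt_of_lt_of_le ((hch k).pos 0) ((hch k).mesh 0 (hch k).hn)
  refine ⟨fun k => (hch k).hn, fun k i _ => (hch k).pos i, fun k i hi => ?_, fun k => (hch k).sum,
    fun k i hi => ⟨(hch k).unit i, hWb _ _ _ _ (hch k) i hi⟩, fun k i hi => ?_, ?_⟩
  · have h1 := (hch k).mesh i hi
    have h2 := hδp k
    nlinarith
  · have h1 := hX _ _ _ _ (hch k) i hi
    have h2 := hAWb _ _ _ _ (hch k) i hi
    have h3 := hδp k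
    have e1 : ((X k i, Mom M (τ k) (X k) i) - (X k 0, Mom M (τ k) (X k) 0) -
        ∑ j ∈ Finset.range i, τ k j • gg M (X k j, Mom M (τ k) (X k) j) : E × E) =
        (X k i - X k 0 - ∑ j ∈ Finset.range i, τ k j • ((M.f (X k j) ^ 2)⁻¹ • Mom M (τ k) (X k) j),
         Mom M (τ k) (X k) i - Mom M (τ k) (X k) 0 -
          ∑ j ∈ Finset.range i, τ k j • rhs M (X k j) (Mom M (τ k) (X k) j)) := by
      apply Prod.ext
      · simp [Prod.fst_sum, gg]
      · simp [Prod.snd_sum, gg]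
    show ‖_‖ ≤ _
    rw [e1, Prod.norm_def]
    apply max_le
    · exact h1.trans (by nlinarith)
    · exact h2.trans (by nlinarith)
  · simpa using hδ.const_mul (AX + AW + 1)

/-- C-lim: critical chains whose mesh tends to zero converge to a solution. -/
theorem limChain (M : Met) {ι : Type} (U : Ultrafilter ι) (n : ι → ℕ) (τ : ι → ℕ → ℝ)
    (X : ι → ℕ → E) (δ : ι → ℝ) (C : ℝ) (hδ : Tendsto δ U (𝓝 0)) (hn : ∀ k, 0 < n k)
    (hτ : ∀ k i, 0 < τ k i) (hτδ : ∀ k, ∀ i < n k, τ k i ≤ δ k)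
    (hτ1 : ∀ k, ∑ i ∈ Finset.range (n k), τ k i = 1) (hX : ∀ k i, ‖X k i‖ = 1)
    (hcr : ∀ k i, i + 1 < n k → CritN M (τ k) (X k) i) (hE : ∀ k, EnN M (n k) (τ k) (X k) ≤ C) :
    ∃ γ w : ℝ → E, Sol M 0 1 γ w ∧
      Tendsto (fun k => X k 0) U (𝓝 (γ 0)) ∧ Tendsto (fun k => X k (n k)) U (𝓝 (γ 1)) ∧
      Tendsto (fun k => Mom M (τ k) (X k) 0) U (𝓝 (w 0)) ∧
      Tendsto (fun k => Mom M (τ k) (X k) (n k - 1)) U (𝓝 (w 1)) ∧
      Tendsto (fun k => EnN M (n k) (τ k) (X k)) U (𝓝 (∫ t in (0:ℝ)..1, ‖w t‖ ^ 2 / M.f (γ t) ^ 2)) := by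
  have hch : ∀ k, Chn M C (n k) (τ k) (X k) (δ k) := fun k =>
    ⟨hn k, hτ k, hτδ k, hτ1 k, hX k, hcr k, hE k⟩
  obtain ⟨W, A, hA, hdat⟩ := C1LC_data M C
  have H := hdat U n τ X δ hδ hch
  obtain ⟨Γ, hc, hK, he, hunif, h0, h1⟩ := limit_main (KK_compact W) (gg_cont M W) H
  refine ⟨fun t => (Γ t).1, fun t => (Γ t).2, sol_of_curve M hc hK he, ?_, ?_, ?_, ?_, ?_⟩
  · exact (continuous_fst.tendsto _).comp h0
  · obtain ⟨A0, hA0, hst⟩ := step_bound M C
    have hl : Tendsto (fun k => X k (n k - 1)) U (𝓝 (Γ 1).1) := (continuous_fst.tendsto _).comp h1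
    have hd : Tendsto (fun k => X k (n k) - X k (n k - 1)) U (𝓝 0) := by
      rw [tendsto_zero_iff_norm_tendsto_zero]
      have hb : Tendsto (fun k => A0 * δ k) U (𝓝 0) := by simpa using hδ.const_mul A0
      refine squeeze_zero (fun k => norm_nonneg _) (fun k => ?_) hb
      have h2 := hst _ _ _ _ (hch k) (n k - 1) (by have := hn k; omega)
      have h3 : n k - 1 + 1 = n k := by have := hn k; omega
      rw [h3] at h2
      have h4 := hτδ k (n k - 1) (by have := hn k; omega)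
      exact h2.trans (by gcongr)
    simpa using hl.add hd
  · exact (continuous_snd.tendsto _).comp h0
  · exact (continuous_snd.tendsto _).comp h1
  · obtain ⟨AE, hAE, hEb⟩ := cum_E M C
    have hs := limit_sum (KK_compact W) H hc hK hunif (en_cont M W) (i := n) (fun k => le_rfl)
      (t := 1) ⟨zero_le_one, le_rfl⟩ (by simp only [H.sum]; exact tendsto_const_nhds)
    have hd : Tendsto (fun k => EnN M (n k) (τ k) (X k) - ∑ j ∈ Finset.range (n k),
        τ k j • (‖Mom M (τ k) (X k) j‖ ^ 2 / M.f (X k j) ^ 2)) U (𝓝 0) := by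
      rw [tendsto_zero_iff_norm_tendsto_zero]
      have hb : Tendsto (fun k => AE * δ k) U (𝓝 0) := by simpa using hδ.const_mul AE
      exact squeeze_zero (fun k => norm_nonneg _) (fun k => hEb _ _ _ _ (hch k)) hb
    have := hs.add hd
    simpa using this

end CGA
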