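import Pool.Agent.CGA.C1RS

/-! # CGA / C1LimA: abstract limit lemma, part 1 (existence of the limit)

`idx τ n t` = largest index `i < n` with `tm τ i ≤ t` (for `n > 0`, `t ≥ 0`): `Nat.findGreatest (fun i => tm τ i ≤ t) (n - 1)`.

PROOFS.  `idx_lt`: `Nat.findGreatest_le`.  `idx_le`: `Nat.findGreatest_spec` with the witness `0` (`tm τ 0 = 0 ≤ t`).
`lt_idx`: if `i := idx`, `i + 1 < n` then `tm τ (i+1) > t` (`Nat.findGreatest_is_greatest`), so `t < tm τ i + τ i ≤ tm τ i + ε`;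
if `i + 1 = n` then `tm τ (i+1) = 1 ≥ t`.  `idx_tm`: `tm` is strictly increasing on `[0,n]` for positive `τ`, so `idx τ n (tm τ i) = i` for `i < n`.
`idx_zero`: the case `i = 0`.

`exists_limit`.  Let `G ≥ 0` be a bound of `‖g‖` on the compact set `K`.  Subtracting two instances of `err`, for `i ≤ j < n k`:
`‖Y k j - Y k i‖ ≤ Σ_{i ≤ l < j} τ k l ‖g (Y k l)‖ + 2 ε k ≤ G (tm j - tm i) + 2 ε k` (this is `Y_lip`).
For `t ∈ [0,1]` the points `Y k (idx (τ k) (n k) t)` lie in `K`; `K` is compact, so `U.map (fun k => Y k (idx ..))` converges to a point of `K`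
(`IsCompact.ultrafilter_le_nhds'` / `hK.ultrafilter_le_nhds`): call it `Γ t` (choice; put `Γ t := Y-value anything` outside, e.g. use
`Classical.choose` on the statement `∀ t, t ∈ Icc 0 1 → ∃ ...`, or `choose!`).
Lipschitz: for `s ≤ t` in `[0,1]`, `i = idx s ≤ j = idx t` and `tm j - tm i ≤ t - (s - ε k)`, hence `‖Y k j - Y k i‖ ≤ G (t - s) + (G + 2) ε k`; pass to the limit
(`le_of_tendsto_of_tendsto`), which gives `‖Γ t - Γ s‖ ≤ G |t - s|`.
-/

set_option linter.all false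

namespace CGA

open scoped RealInnerProductSpace Real Topology
open MeasureTheory Set Filter

/-- data of a sequence of almost solutions of the discrete equation `Y (i+1) - Y i = τ i • g (Y i)` -/
structure LimData {V : Type*} [NormedAddCommGroup V] [NormedSpace ℝ V] (K : Set V) (g : V → V)
    {ι : Type} (U : Ultrafilter ι) (n : ι → ℕ) (τ : ι → ℕ → ℝ) (Y : ι → ℕ → V) (ε : ι → ℝ) :
    Prop where
  hn : ∀ k, 0 < n k
  pos : ∀ k, ∀ i < n k, 0 < τ k i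
  mesh : ∀ k, ∀ i < n k, τ k i ≤ ε k
  sum : ∀ k, tm (τ k) (n k) = 1
  mem : ∀ k, ∀ i < n k, Y k i ∈ K
  err : ∀ k, ∀ i < n k, ‖Y k i - Y k 0 - ∑ j ∈ Finset.range i, τ k j • g (Y k j)‖ ≤ ε k
  lim : Tendsto ε U (𝓝 0)

open Classical in
/-- largest index `i < n` with `tm τ i ≤ t` -/
noncomputable def idx (τ : ℕ → ℝ) (n : ℕ) (t : ℝ) : ℕ := Nat.findGreatest (fun i => tm τ i ≤ t) (n - 1)

theorem idx_lt {τ : ℕ → ℝ} {n : ℕ} (hn : 0 < n) (t : ℝ) : idx τ n t < n := by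
  have h : idx τ n t ≤ n - 1 := Nat.findGreatest_le _
  omega

theorem idx_le {τ : ℕ → ℝ} {n : ℕ} {t : ℝ} (ht : 0 ≤ t) : tm τ (idx τ n t) ≤ t := by
  classical
  exact Nat.findGreatest_spec (P := fun i => tm τ i ≤ t) (Nat.zero_le (n - 1))
    (by rw [tm_zero]; exact ht)

theorem lt_idx {τ : ℕ → ℝ} {n : ℕ} (hn : 0 < n) {t ε : ℝ} (ht : 0 ≤ t) (ht1 : t ≤ 1)
    (h1 : tm τ n = 1) (hm : ∀ i < n, τ i ≤ ε) : t ≤ tm τ (idx τ n t) + ε := by
  classical
  have hi := idx_lt (τ := τ) hn t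
  have h2 := hm _ hi
  have h3 := tm_succ τ (idx τ n t)
  rcases Nat.lt_or_ge (idx τ n t + 1) n with h | h
  · have h4 : ¬ tm τ (idx τ n t + 1) ≤ t :=
      Nat.findGreatest_is_greatest (P := fun i => tm τ i ≤ t) (n := n - 1) (Nat.lt_succ_self _)
        (by omega)
    push Not at h4
    linarith
  · have h5 : idx τ n t + 1 = n := by omega
    rw [h5, h1] at h3
    linarith

theorem idx_mono {τ : ℕ → ℝ} {n : ℕ} {s t : ℝ} (hst : s ≤ t) : idx τ n s ≤ idx τ n t := by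
  classical
  exact Nat.findGreatest_mono_left (fun i hi => le_trans hi hst) _

theorem idx_tm {τ : ℕ → ℝ} {n : ℕ} (h0 : ∀ i < n, 0 < τ i) {i : ℕ} (hi : i < n) :
    idx τ n (tm τ i) = i := by
  classical
  have h1 : i ≤ idx τ n (tm τ i) :=
    Nat.le_findGreatest (P := fun j => tm τ j ≤ tm τ i) (by omega) le_rfl
  have h0' : ∀ j < n, 0 ≤ τ j := fun j hj => (h0 j hj).le
  refine le_antisymm ?_ h1
  by_contra hc
  push Not at hc
  have h2 := idx_lt (τ := τ) (n := n) (by omega) (tm τ i)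
  have h3 : tm τ (idx τ n (tm τ i)) ≤ tm τ i := by
    have := tm_mono h0' (Nat.zero_le i) hi.le
    rw [tm_zero] at this
    exact idx_le this
  have h4 : tm τ (i + 1) ≤ tm τ (idx τ n (tm τ i)) := tm_mono h0' hc h2.le
  have h5 := tm_succ τ i
  have h6 := h0 i hi
  linarith

section
variable {V : Type*} [NormedAddCommGroup V] [NormedSpace ℝ V] {K : Set V} {g : V → V}
  {ι : Type} {U : Ultrafilter ι} {n : ι → ℕ} {τ : ι → ℕ → ℝ} {Y : ι → ℕ → V} {ε : ι → ℝ}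

theorem Y_lip (H : LimData K g U n τ Y ε) {G : ℝ} (hG : ∀ x ∈ K, ‖g x‖ ≤ G) (k : ι) {i j : ℕ}
    (hij : i ≤ j) (hj : j < n k) :
    ‖Y k j - Y k i‖ ≤ G * (tm (τ k) j - tm (τ k) i) + 2 * ε k := by
  have e1 := H.err k j hj
  have e2 := H.err k i (by omega)
  have e3 : ∑ l ∈ Finset.Ico i j, τ k l • g (Y k l) = ∑ l ∈ Finset.range j, τ k l • g (Y k l)
      - ∑ l ∈ Finset.range i, τ k l • g (Y k l) := Finset.sum_Ico_eq_sub _ hij
  have e4 : tm (τ k) j - tm (τ k) i = ∑ l ∈ Finset.Ico i j, τ k l :=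
    (Finset.sum_Ico_eq_sub _ hij).symm
  have e5 : ‖∑ l ∈ Finset.Ico i j, τ k l • g (Y k l)‖ ≤ G * (tm (τ k) j - tm (τ k) i) := by
    rw [e4, Finset.mul_sum]
    refine (norm_sum_le _ _).trans (Finset.sum_le_sum fun l hl => ?_)
    rw [Finset.mem_Ico] at hl
    have h1 := H.pos k l (by omega)
    rw [norm_smul, Real.norm_of_nonneg h1.le, mul_comm]
    exact mul_le_mul_of_nonneg_right (hG _ (H.mem k l (by omega))) h1.le
  have e6 : Y k j - Y k i = (Y k j - Y k 0 - ∑ l ∈ Finset.range j, τ k l • g (Y k l))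
      - (Y k i - Y k 0 - ∑ l ∈ Finset.range i, τ k l • g (Y k l))
      + ∑ l ∈ Finset.Ico i j, τ k l • g (Y k l) := by
    rw [e3]
    abel
  rw [e6]
  have e7 := norm_add_le ((Y k j - Y k 0 - ∑ l ∈ Finset.range j, τ k l • g (Y k l))
      - (Y k i - Y k 0 - ∑ l ∈ Finset.range i, τ k l • g (Y k l)))
      (∑ l ∈ Finset.Ico i j, τ k l • g (Y k l))
  have e8 := norm_sub_le (Y k j - Y k 0 - ∑ l ∈ Finset.range j, τ k l • g (Y k l))
      (Y k i - Y k 0 - ∑ l ∈ Finset.range i, τ k l • g (Y k l))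
  linarith

theorem exists_limit (hK : IsCompact K) (H : LimData K g U n τ Y ε) {G : ℝ} (hG0 : 0 ≤ G)
    (hG : ∀ x ∈ K, ‖g x‖ ≤ G) :
    ∃ Γ : ℝ → V, (∀ t ∈ Icc (0:ℝ) 1, Γ t ∈ K) ∧
      (∀ s ∈ Icc (0:ℝ) 1, ∀ t ∈ Icc (0:ℝ) 1, ‖Γ t - Γ s‖ ≤ G * |t - s|) ∧
      (∀ t ∈ Icc (0:ℝ) 1, Tendsto (fun k => Y k (idx (τ k) (n k) t)) U (𝓝 (Γ t))) := by
  have h1 : ∀ t : ℝ, ∃ x ∈ K, Tendsto (fun k => Y k (idx (τ k) (n k) t)) U (𝓝 x) := by
    intro t
    have h2 : (↑(U.map fun k => Y k (idx (τ k) (n k) t)) : Filter V) ≤ 𝓟 K := by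
      rw [le_principal_iff]
      show ∀ᶠ k in (U : Filter ι), Y k (idx (τ k) (n k) t) ∈ K
      exact Eventually.of_forall fun k => H.mem k _ (idx_lt (H.hn k) t)
    obtain ⟨x, hx, hle⟩ := hK.ultrafilter_le_nhds _ h2
    exact ⟨x, hx, hle⟩
  choose Γ hΓK hΓ using h1
  have key : ∀ s ∈ Icc (0:ℝ) 1, ∀ t ∈ Icc (0:ℝ) 1, s ≤ t → ‖Γ t - Γ s‖ ≤ G * (t - s) := by
    intro s hs t ht hst
    have l1 : Tendsto (fun k => ‖Y k (idx (τ k) (n k) t) - Y k (idx (τ k) (n k) s)‖) U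
        (𝓝 ‖Γ t - Γ s‖) := ((hΓ t).sub (hΓ s)).norm
    have l2 : Tendsto (fun k => G * (t - s) + (G + 2) * ε k) U (𝓝 (G * (t - s) + (G + 2) * 0)) :=
      tendsto_const_nhds.add (H.lim.const_mul _)
    rw [mul_zero, add_zero] at l2
    refine le_of_tendsto_of_tendsto' l1 l2 fun k => ?_
    have h2 := Y_lip H hG k (idx_mono (τ := τ k) (n := n k) hst) (idx_lt (H.hn k) t)
    have h3 := idx_le (τ := τ k) (n := n k) ht.1
    have h4 := lt_idx (H.hn k) hs.1 hs.2 (H.sum k) (H.mesh k)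
    have h5 : G * (tm (τ k) (idx (τ k) (n k) t) - tm (τ k) (idx (τ k) (n k) s))
        ≤ G * (t - s + ε k) := mul_le_mul_of_nonneg_left (by linarith) hG0
    linarith
  refine ⟨Γ, fun t _ => hΓK t, fun s hs t ht => ?_, fun t _ => hΓ t⟩
  rcases le_total s t with h | h
  · rw [abs_of_nonneg (sub_nonneg.2 h)]
    exact key s hs t ht h
  · rw [abs_of_nonpos (sub_nonpos.2 h), norm_sub_rev, neg_sub]
    exact key t ht s hs h

end

end CGA
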