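import Pool.Agent.CGA.C1LimA

/-! # CGA / C1LimB: abstract limit lemma, part 2 (uniform convergence on the vertices)

PROOF OF `limit_unif`.  Let `η > 0`; choose `N ≥ 1` with `(2 G + 1) / N < η / 4`.  For each of the finitely many `m ≤ N` eventually
`‖Y k (idx (m/N)) - Γ (m/N)‖ < η / 4` (`Filter.eventually_all_finite` or `Finset.range` version `eventually_all_finset`), and eventually `(G + 2) ε k < η / 4`
(`H.lim`).  Let `k` be such and `i < n k`, `t = tm (τ k) i ∈ [0,1]`, `m = ⌊N t⌋` (natural floor, `m ≤ N`), `s = m / N`, `s ≤ t < s + 1/N`.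
With `i' = idx (τ k) (n k) s ≤ idx (τ k) (n k) t = i` (`idx_mono`, `idx_tm`) and `tm i' ≥ s - ε k` (`lt_idx`), `Y_lip` gives
`‖Y k i - Y k i'‖ ≤ G (t - s + ε k) + 2 ε k ≤ G / N + (G + 2) ε k`.  Together with `‖Γ s - Γ t‖ ≤ G / N` the triangle inequality gives `< η`.
(`0 ≤ ε k` because `0 < τ k 0 ≤ ε k`.)
-/

set_option linter.all false

namespace CGA

open scoped RealInnerProductSpace Real Topology
open MeasureTheory Set Filter

theorem limit_unif {V : Type*} [NormedAddCommGroup V] [NormedSpace ℝ V] {K : Set V} {g : V → V}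
    {ι : Type} {U : Ultrafilter ι} {n : ι → ℕ} {τ : ι → ℕ → ℝ} {Y : ι → ℕ → V} {ε : ι → ℝ}
    (H : LimData K g U n τ Y ε) {G : ℝ} (hG0 : 0 ≤ G) (hG : ∀ x ∈ K, ‖g x‖ ≤ G) {Γ : ℝ → V}
    (hΓ : ∀ s ∈ Icc (0:ℝ) 1, ∀ t ∈ Icc (0:ℝ) 1, ‖Γ t - Γ s‖ ≤ G * |t - s|)
    (hlim : ∀ t ∈ Icc (0:ℝ) 1, Tendsto (fun k => Y k (idx (τ k) (n k) t)) U (𝓝 (Γ t)))
    {η : ℝ} (hη : 0 < η) :
    ∀ᶠ k in (U : Filter ι), ∀ i < n k, ‖Y k i - Γ (tm (τ k) i)‖ < η := by
  obtain ⟨N, hN⟩ := exists_nat_gt ((2 * G + 1) / (η / 4))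
  have hN0 : (0 : ℝ) < N := lt_of_le_of_lt (by positivity) hN
  have hGN : 2 * (G / N) < η / 4 := by
    rw [div_lt_iff₀ (by positivity)] at hN
    have h1 : G / N * N = G := div_mul_cancel₀ G hN0.ne'
    by_contra hc
    push Not at hc
    have h2 : η / 4 * N ≤ 2 * (G / N) * N := mul_le_mul_of_nonneg_right hc hN0.le
    nlinarith
  have hgrid : ∀ m ≤ N, ((m : ℝ) / N) ∈ Icc (0:ℝ) 1 := by
    intro m hm
    constructor
    · positivity
    · rw [div_le_one hN0]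
      exact_mod_cast hm
  have e1 : ∀ᶠ k in (U : Filter ι), ∀ m ∈ Finset.range (N + 1),
      ‖Y k (idx (τ k) (n k) ((m : ℝ) / N)) - Γ ((m : ℝ) / N)‖ < η / 4 := by
    rw [Filter.eventually_all_finset]
    intro m hm
    have h1 := hlim _ (hgrid m (Nat.lt_succ_iff.1 (Finset.mem_range.1 hm)))
    have h2 := (tendsto_iff_norm_sub_tendsto_zero.1 h1)
    exact h2.eventually_lt_const (by positivity)
  have e2 : ∀ᶠ k in (U : Filter ι), (G + 2) * ε k < η / 4 := by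
    have h1 := H.lim.const_mul (G + 2)
    rw [mul_zero] at h1
    exact h1.eventually_lt_const (by positivity)
  filter_upwards [e1, e2] with k h1 h2 i hi
  have h0' : ∀ j < n k, 0 ≤ τ k j := fun j hj => (H.pos k j hj).le
  have ht := tm_mem h0' (H.sum k) hi.le
  set t := tm (τ k) i with htdef
  set m := ⌊(N : ℝ) * t⌋₊ with hm
  have hNt : 0 ≤ (N : ℝ) * t := mul_nonneg hN0.le ht.1
  have hmN : m ≤ N := by
    apply Nat.floor_le_of_le
    nlinarith [ht.2]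
  have hm1 : (m : ℝ) ≤ N * t := Nat.floor_le hNt
  have hm2 : (N : ℝ) * t < m + 1 := Nat.lt_floor_add_one _
  have hs := hgrid m hmN
  have hst : (m : ℝ) / N ≤ t := by
    rw [div_le_iff₀ hN0]
    linarith
  have hts : t - (m : ℝ) / N ≤ 1 / N := by
    rw [sub_le_iff_le_add, ← add_div, le_div_iff₀ hN0]
    linarith
  have hidx : idx (τ k) (n k) ((m : ℝ) / N) ≤ i := by
    have h3 := idx_mono (τ := τ k) (n := n k) hst
    rwa [htdef, idx_tm (H.pos k) hi] at h3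
  have h4 := lt_idx (H.hn k) hs.1 hs.2 (H.sum k) (H.mesh k)
  have h5 := Y_lip H hG k hidx hi
  have h6 := hΓ _ hs _ ht
  rw [abs_of_nonneg (sub_nonneg.2 hst)] at h6
  have h7 := h1 m (Finset.mem_range.2 (Nat.lt_succ_of_le hmN))
  have h8 : G * (t - (m : ℝ) / N) ≤ G / N := by
    calc G * (t - (m : ℝ) / N) ≤ G * (1 / N) := mul_le_mul_of_nonneg_left hts hG0
      _ = G / N := by ring
  have h9 : G * (t - tm (τ k) (idx (τ k) (n k) ((m : ℝ) / N))) ≤ G / N + G * ε k := by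
    calc G * (t - tm (τ k) (idx (τ k) (n k) ((m : ℝ) / N)))
        ≤ G * ((t - (m : ℝ) / N) + ε k) := mul_le_mul_of_nonneg_left (by linarith) hG0
      _ = G * (t - (m : ℝ) / N) + G * ε k := by ring
      _ ≤ _ := by linarith
  have h10 : Y k i - Γ t = (Y k i - Y k (idx (τ k) (n k) ((m : ℝ) / N))) +
      (Y k (idx (τ k) (n k) ((m : ℝ) / N)) - Γ ((m : ℝ) / N)) + (Γ ((m : ℝ) / N) - Γ t) := by abel
  rw [h10]
  rw [norm_sub_rev] at h6
  have h11 := norm_add₃_le (a := Y k i - Y k (idx (τ k) (n k) ((m : ℝ) / N)))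
    (b := Y k (idx (τ k) (n k) ((m : ℝ) / N)) - Γ ((m : ℝ) / N)) (c := Γ ((m : ℝ) / N) - Γ t)
  rw [← htdef] at h5
  linarith

end CGA
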