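import Pool.Agent.CGA.C1LimA

/-! # CGA / C1LimC: abstract limit lemma, part 3 (convergence of sums to integrals)

PROOF OF `limit_sum`.  `h` is uniformly continuous on the compact set `K` (`IsCompact.uniformContinuousOn_of_continuous`), `h ∘ Γ` is continuous on `[0,1]`
(`hΓc`, `hΓK`), hence uniformly continuous there and bounded by some `B`.
Let `η > 0`.  (a) By `hunif` and uniform continuity of `h` on `K` eventually `‖h (Y k j) - h (Γ (tm j))‖ ≤ η` for all `j < n k` (both points are in `K`), so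
`‖Σ_{j<i} τ j • h (Y k j) - Σ_{j<i} τ j • h (Γ (tm j))‖ ≤ η Σ τ ≤ η`.  (b) Uniform continuity of `h ∘ Γ` on `[0,1]` with modulus at `ε k → 0`: eventually
`‖h (Γ s) - h (Γ (tm j))‖ ≤ η` for `s ∈ [tm j, tm (j+1)]`, `j < n k` (the length of the interval is `τ k j ≤ ε k`), so `riemann` gives
`‖Σ_{j<i} τ j • h (Γ (tm j)) - ∫_0^{tm i} h ∘ Γ‖ ≤ η`.  (c) `‖∫_0^{tm (i k)} h∘Γ - ∫_0^t h∘Γ‖ ≤ B |tm (i k) - t| → 0`
(`intervalIntegral.integral_interval_sub_left`, `norm_integral_le_of_norm_le_const`).  So the distance of the sum to the integral is eventually `≤ 3 η`.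
-/

set_option linter.all false

namespace CGA

open scoped RealInnerProductSpace Real Topology
open MeasureTheory Set Filter

theorem limit_sum {V : Type*} [NormedAddCommGroup V] [NormedSpace ℝ V] {K : Set V} {g : V → V}
    {ι : Type} {U : Ultrafilter ι} {n : ι → ℕ} {τ : ι → ℕ → ℝ} {Y : ι → ℕ → V} {ε : ι → ℝ}
    (hK : IsCompact K) (H : LimData K g U n τ Y ε) {Γ : ℝ → V}
    (hΓc : ContinuousOn Γ (Icc 0 1)) (hΓK : ∀ t ∈ Icc (0:ℝ) 1, Γ t ∈ K)
    (hunif : ∀ η > 0, ∀ᶠ k in (U : Filter ι), ∀ i < n k, ‖Y k i - Γ (tm (τ k) i)‖ < η)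
    {W : Type*} [NormedAddCommGroup W] [NormedSpace ℝ W] [CompleteSpace W] {h : V → W}
    (hh : ContinuousOn h K) {i : ι → ℕ} (hi : ∀ k, i k ≤ n k) {t : ℝ} (ht : t ∈ Icc (0:ℝ) 1)
    (hit : Tendsto (fun k => tm (τ k) (i k)) U (𝓝 t)) :
    Tendsto (fun k => ∑ j ∈ Finset.range (i k), τ k j • h (Y k j)) U
      (𝓝 (∫ s in (0:ℝ)..t, h (Γ s))) := by
  have hc : ContinuousOn (fun s => h (Γ s)) (Icc (0:ℝ) 1) := hh.comp hΓc hΓK
  have hu1 := Metric.uniformContinuousOn_iff.1 (hK.uniformContinuousOn_of_continuous hh)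
  have hu2 := Metric.uniformContinuousOn_iff.1
    (isCompact_Icc.uniformContinuousOn_of_continuous hc)
  obtain ⟨B, hB⟩ := isCompact_Icc.exists_bound_of_continuousOn hc
  have hB0 : 0 ≤ B := (norm_nonneg _).trans (hB 0 ⟨le_rfl, zero_le_one⟩)
  rw [Metric.tendsto_nhds]
  intro e he
  set η := e / 4 with hη
  have hη0 : 0 < η := by rw [hη]; positivity
  obtain ⟨δ1, hδ1, hd1⟩ := hu1 η hη0
  obtain ⟨δ2, hδ2, hd2⟩ := hu2 η hη0
  have hE2 : ∀ᶠ k in (U : Filter ι), ε k < δ2 := (tendsto_order.1 H.lim).2 δ2 hδ2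
  have hE3 := Metric.tendsto_nhds.1 hit (η / (B + 1)) (by positivity)
  filter_upwards [hunif δ1 hδ1, hE2, hE3] with k h1 h2 h3
  have hτ : ∀ j < n k, 0 ≤ τ k j := fun j hj => (H.pos k j hj).le
  have hmem : ∀ j ≤ n k, tm (τ k) j ∈ Icc (0:ℝ) 1 := fun j hj => tm_mem hτ (H.sum k) hj
  have ha : ‖∑ j ∈ Finset.range (i k), τ k j • h (Y k j) -
      ∑ j ∈ Finset.range (i k), τ k j • h (Γ (tm (τ k) j))‖ ≤ η := by
    rw [← Finset.sum_sub_distrib]
    calc ‖∑ j ∈ Finset.range (i k), (τ k j • h (Y k j) - τ k j • h (Γ (tm (τ k) j)))‖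
        ≤ ∑ j ∈ Finset.range (i k), ‖τ k j • h (Y k j) - τ k j • h (Γ (tm (τ k) j))‖ :=
          norm_sum_le _ _
      _ ≤ ∑ j ∈ Finset.range (i k), τ k j * η := by
          refine Finset.sum_le_sum fun j hj => ?_
          have hj' : j < n k := lt_of_lt_of_le (Finset.mem_range.1 hj) (hi k)
          rw [← smul_sub, norm_smul, Real.norm_of_nonneg (hτ j hj')]
          refine mul_le_mul_of_nonneg_left ?_ (hτ j hj')
          have h4 := hd1 (Y k j) (H.mem k j hj') (Γ (tm (τ k) j)) (hΓK _ (hmem j hj'.le))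
            (by rw [dist_eq_norm]; exact h1 j hj')
          rw [dist_eq_norm] at h4
          exact h4.le
      _ = tm (τ k) (i k) * η := by rw [tm, Finset.sum_mul]
      _ ≤ 1 * η := mul_le_mul_of_nonneg_right (hmem _ (hi k)).2 hη0.le
      _ = η := one_mul η
  have hb : ‖∑ j ∈ Finset.range (i k), τ k j • h (Γ (tm (τ k) j)) -
      ∫ s in (0:ℝ)..tm (τ k) (i k), h (Γ s)‖ ≤ η := by
    refine riemann (h := fun s => h (Γ s)) hc (hi k) hτ (H.sum k) ?_
    intro j hj s hs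
    have hs1 := hmem j hj.le
    have hs2 := hmem (j + 1) hj
    have h4 : s ∈ Icc (0:ℝ) 1 := ⟨hs1.1.trans hs.1, hs.2.trans hs2.2⟩
    have h5 : dist s (tm (τ k) j) < δ2 := by
      rw [Real.dist_eq, abs_of_nonneg (by linarith [hs.1])]
      have h6 := hs.2
      rw [tm_succ] at h6
      have h7 := H.mesh k j hj
      linarith
    have h8 := hd2 s h4 _ hs1 h5
    rw [dist_eq_norm] at h8
    exact h8.le
  have hint : ∀ a ∈ Icc (0:ℝ) 1, ∀ b ∈ Icc (0:ℝ) 1,
      IntervalIntegrable (fun s => h (Γ s)) volume a b := by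
    intro a ha b hb
    exact (hc.mono (uIcc_subset_Icc ha hb)).intervalIntegrable
  have h01 : (0:ℝ) ∈ Icc (0:ℝ) 1 := ⟨le_rfl, zero_le_one⟩
  have hcc : ‖(∫ s in (0:ℝ)..tm (τ k) (i k), h (Γ s)) - ∫ s in (0:ℝ)..t, h (Γ s)‖ ≤ η := by
    rw [intervalIntegral.integral_interval_sub_left (hint _ h01 _ (hmem _ (hi k)))
      (hint _ h01 _ ht)]
    have h4 : ‖∫ s in t..tm (τ k) (i k), h (Γ s)‖ ≤ B * |tm (τ k) (i k) - t| := by
      refine intervalIntegral.norm_integral_le_of_norm_le_const fun x hx => ?_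
      exact hB x (uIcc_subset_Icc ht (hmem _ (hi k)) (uIoc_subset_uIcc hx))
    rw [Real.dist_eq] at h3
    refine h4.trans ?_
    calc B * |tm (τ k) (i k) - t| ≤ (B + 1) * (η / (B + 1)) := by
          refine mul_le_mul (by linarith) h3.le (abs_nonneg _) (by positivity)
      _ = η := by field_simp
  rw [dist_eq_norm]
  have h9 : ∑ j ∈ Finset.range (i k), τ k j • h (Y k j) - ∫ s in (0:ℝ)..t, h (Γ s) =
      (∑ j ∈ Finset.range (i k), τ k j • h (Y k j) -
      ∑ j ∈ Finset.range (i k), τ k j • h (Γ (tm (τ k) j))) +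
      (∑ j ∈ Finset.range (i k), τ k j • h (Γ (tm (τ k) j)) -
      ∫ s in (0:ℝ)..tm (τ k) (i k), h (Γ s)) +
      ((∫ s in (0:ℝ)..tm (τ k) (i k), h (Γ s)) - ∫ s in (0:ℝ)..t, h (Γ s)) := by abel
  rw [h9]
  refine (norm_add₃_le).trans_lt ?_
  linarith

end CGA
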