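import Pool.Agent.CGA.C1LimB
import Pool.Agent.CGA.C1LimC

/-! # CGA / C1LimD: abstract limit lemma

PROOF OF `limit_main`.  `g` is bounded on the compact set `K` (`hK.exists_bound_of_continuousOn hg`), say by `G ≥ 0`.  Take `Γ` from `exists_limit`; it is
continuous (Lipschitz) on `[0,1]`, uniform convergence is `limit_unif`, the sums are `limit_sum`.  Integral equation at `t ∈ [0,1]`: with `i k = idx (τ k) (n k) t < n k`,
`tm (i k) → t` (`idx_le`, `lt_idx`, squeeze with `ε k → 0`), so `Σ_{j < i k} τ j • g (Y k j) → ∫_0^t g (Γ s)` by `limit_sum`, and `H.err` (squeeze) gives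
`Y k (i k) - Y k 0 - Σ → 0`; `Y k (i k) → Γ t` and `Y k 0 → Γ 0` (from `hlim` at `0`, where `idx = 0` by `idx_tm`, or from uniform convergence at `i = 0`).
`limit_last`: `Y k (n k - 1) → Γ 1`: `tm (n k - 1) = 1 - τ k (n k - 1) → 1`, uniform convergence at the index `n k - 1` and continuity of `Γ` on `[0,1]`.
-/

set_option linter.all false

namespace CGA

open scoped RealInnerProductSpace Real Topology
open MeasureTheory Set Filter

theorem limit_main {V : Type*} [NormedAddCommGroup V] [NormedSpace ℝ V] [CompleteSpace V]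
    {K : Set V} {g : V → V}
    {ι : Type} {U : Ultrafilter ι} {n : ι → ℕ} {τ : ι → ℕ → ℝ} {Y : ι → ℕ → V} {ε : ι → ℝ}
    (hK : IsCompact K) (hg : ContinuousOn g K) (H : LimData K g U n τ Y ε) :
    ∃ Γ : ℝ → V, ContinuousOn Γ (Icc 0 1) ∧ (∀ t ∈ Icc (0:ℝ) 1, Γ t ∈ K) ∧
      (∀ t ∈ Icc (0:ℝ) 1, Γ t = Γ 0 + ∫ s in (0:ℝ)..t, g (Γ s)) ∧
      (∀ η > 0, ∀ᶠ k in (U : Filter ι), ∀ i < n k, ‖Y k i - Γ (tm (τ k) i)‖ < η) ∧
      Tendsto (fun k => Y k 0) U (𝓝 (Γ 0)) ∧
      Tendsto (fun k => Y k (n k - 1)) U (𝓝 (Γ 1)) := by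
  obtain ⟨G0, hG0⟩ := hK.exists_bound_of_continuousOn hg
  obtain ⟨G, hGn, hG⟩ : ∃ G : ℝ, 0 ≤ G ∧ ∀ x ∈ K, ‖g x‖ ≤ G :=
    ⟨max G0 0, le_max_right _ _, fun x hx => (hG0 x hx).trans (le_max_left _ _)⟩
  obtain ⟨Γ, hΓK, hΓ, hlim⟩ := exists_limit hK H hGn hG
  have hunif : ∀ η > 0, ∀ᶠ k in (U : Filter ι), ∀ i < n k, ‖Y k i - Γ (tm (τ k) i)‖ < η :=
    fun η hη => limit_unif H hGn hG hΓ hlim hη
  have hΓc : ContinuousOn Γ (Icc 0 1) := by
    have h1 : LipschitzOnWith ⟨G, hGn⟩ Γ (Icc 0 1) := by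
      refine LipschitzOnWith.of_dist_le_mul fun x hx y hy => ?_
      rw [dist_eq_norm, Real.dist_eq]
      exact hΓ y hy x hx
    exact h1.continuousOn
  have h00 : (0 : ℝ) ∈ Icc (0:ℝ) 1 := ⟨le_rfl, zero_le_one⟩
  have h11 : (1 : ℝ) ∈ Icc (0:ℝ) 1 := ⟨zero_le_one, le_rfl⟩
  have h0 : Tendsto (fun k => Y k 0) U (𝓝 (Γ 0)) := by
    refine (hlim 0 h00).congr fun k => ?_
    have h1 := idx_tm (H.pos k) (H.hn k)
    rw [tm_zero] at h1
    rw [h1]
  refine ⟨Γ, hΓc, hΓK, ?_, hunif, h0, ?_⟩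
  · intro t ht
    have hit : Tendsto (fun k => tm (τ k) (idx (τ k) (n k) t)) U (𝓝 t) := by
      have hl : Tendsto (fun k => t - ε k) U (𝓝 t) := by
        have := H.lim.const_sub t
        rwa [sub_zero] at this
      refine tendsto_of_tendsto_of_tendsto_of_le_of_le hl tendsto_const_nhds (fun k => ?_)
        (fun k => idx_le ht.1)
      have := lt_idx (H.hn k) ht.1 ht.2 (H.sum k) (H.mesh k)
      simp only
      linarith
    have hsum := limit_sum hK H hΓc hΓK hunif hg (i := fun k => idx (τ k) (n k) t)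
      (fun k => (idx_lt (H.hn k) t).le) ht hit
    have herr : Tendsto (fun k => Y k (idx (τ k) (n k) t) - Y k 0 -
        ∑ j ∈ Finset.range (idx (τ k) (n k) t), τ k j • g (Y k j)) U (𝓝 0) :=
      squeeze_zero_norm (fun k => H.err k _ (idx_lt (H.hn k) t)) H.lim
    have h1 := ((hlim t ht).sub h0).sub hsum
    have h2 := tendsto_nhds_unique h1 herr
    rw [sub_sub, sub_eq_zero] at h2
    exact h2
  · rw [tendsto_iff_norm_sub_tendsto_zero, Metric.tendsto_nhds]
    intro η hη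
    have e2 : ∀ᶠ k in (U : Filter ι), G * ε k < η / 2 := by
      have h1 := H.lim.const_mul G
      rw [mul_zero] at h1
      exact h1.eventually_lt_const (by positivity)
    filter_upwards [hunif (η / 2) (by positivity), e2] with k h1 h2
    have hn := H.hn k
    have hlt : n k - 1 < n k := by omega
    have h3 := h1 (n k - 1) hlt
    have h4 : tm (τ k) (n k - 1) + τ k (n k - 1) = 1 := by
      rw [← tm_succ, Nat.sub_add_cancel hn]
      exact H.sum k
    have h5 := tm_mem (fun j hj => (H.pos k j hj).le) (H.sum k) hlt.le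
    have h6 := hΓ 1 h11 _ h5
    have h7 : |tm (τ k) (n k - 1) - 1| ≤ ε k := by
      have h8 := H.mesh k _ hlt
      have h9 := H.pos k _ hlt
      rw [abs_le]
      constructor <;> linarith
    have h8 : G * |tm (τ k) (n k - 1) - 1| ≤ G * ε k := mul_le_mul_of_nonneg_left h7 hGn
    rw [dist_zero_right, norm_norm]
    have h9 : Y k (n k - 1) - Γ 1 = (Y k (n k - 1) - Γ (tm (τ k) (n k - 1))) +
        (Γ (tm (τ k) (n k - 1)) - Γ 1) := by abel
    rw [h9]
    have h10 := norm_add_le (Y k (n k - 1) - Γ (tm (τ k) (n k - 1)))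
      (Γ (tm (τ k) (n k - 1)) - Γ 1)
    linarith

end CGA
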