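import Pool.Agent.CGA.C1Con

/-! # CGA / C1Sol: solutions: derivatives, `w ⟂ γ`, constant speed

PROOFS.  `sol_deriv_γ`, `sol_deriv_w`: near `t ∈ (a,b)` the curve equals `γ a + ∫_a^· g`, the integrand is continuous on `[a,b]`, hence
`intervalIntegral.integral_hasDerivAt_right` (continuity at `t`, strong measurability from `ContinuousOn`), `HasDerivAt.congr_of_eventuallyEq`.
Continuity of the integrands: `cont_f`, `cont_grad`, `h.unit` (so `γ ≠ 0`).
`sol_perp`: on `(a,b)` the function `‖γ‖² = 1` has derivative `0 = 2 ⟪γ, γ'⟫ = 2 f^{-2} ⟪γ, w⟫`, so `⟪w, γ⟫ = 0` on `(a,b)`; by continuity on `[a,b]` also at the ends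
(`a < b`: `Icc a b = closure (Ioo a b)`, `ContinuousOn` + `Set.EqOn.closure`-type argument, or `le_of_tendsto` from inside).
`sol_speed`: on `(a,b)` the function `q = ‖w‖² / f(γ)²` has derivative
`(2 ⟪w, w'⟫ f² - ‖w‖² 2 f ⟪∇f(γ), γ'⟫) / f⁴ = 0`, since `⟪w, w'⟫ = (‖w‖²/f³) ⟪∇f, w⟫ - (‖w‖²/f²) ⟪w, γ⟫` and the last term vanishes (`sol_perp`), `γ' = w / f²`
(`hasFDerivAt_f`).  `q` is continuous on `[a,b]`, so it is constant (`constant_of_derivWithin_zero`, `is_const_of_deriv_eq_zero` on the interval, or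
`Convex.is_const_of_fderivWithin_eq_zero`).  Then `‖w s‖ / f(γ s) = ‖w t‖ / f(γ t)` (both `≥ 0`, equal squares).
-/

set_option linter.all false

namespace CGA

open scoped RealInnerProductSpace Real Topology
open MeasureTheory Set Filter

private theorem C1Sol_deriv {a b : ℝ} {u g : ℝ → E} (hg : ContinuousOn g (Icc a b))
    (hu : ∀ t ∈ Icc a b, u t = u a + ∫ s in a..t, g s) {t : ℝ} (ht : t ∈ Ioo a b) :
    HasDerivAt u (g t) t := by
  have hab : a < b := ht.1.trans ht.2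
  have h1 : IntervalIntegrable g volume a t :=
    ((hg.mono (Icc_subset_Icc_right ht.2.le)).intervalIntegrable_of_Icc ht.1.le)
  have h2 : StronglyMeasurableAtFilter g (𝓝 t) :=
    (hg.mono Ioo_subset_Icc_self).stronglyMeasurableAtFilter isOpen_Ioo t ht
  have h3 : ContinuousAt g t := hg.continuousAt (Icc_mem_nhds ht.1 ht.2)
  have h4 := (intervalIntegral.integral_hasDerivAt_right h1 h2 h3).const_add (u a)
  refine h4.congr_of_eventuallyEq ?_
  filter_upwards [Icc_mem_nhds ht.1 ht.2] with x hx using hu x hx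

private theorem C1Sol_ne (M : Met) {a b : ℝ} {γ w : ℝ → E} (h : Sol M a b γ w) {t : ℝ}
    (ht : t ∈ Icc a b) : γ t ≠ 0 := by
  intro h0
  have := h.unit t ht
  rw [h0, norm_zero] at this
  exact one_ne_zero this.symm

private theorem C1Sol_cf (M : Met) {a b : ℝ} {γ w : ℝ → E} (h : Sol M a b γ w) :
    ContinuousOn (fun s => M.f (γ s)) (Icc a b) :=
  (cont_f M).comp h.cγ fun t ht => C1Sol_ne M h ht

theorem sol_deriv_γ (M : Met) {a b : ℝ} {γ w : ℝ → E} (h : Sol M a b γ w) {t : ℝ}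
    (ht : t ∈ Ioo a b) : HasDerivAt γ ((M.f (γ t) ^ 2)⁻¹ • w t) t := by
  have hg : ContinuousOn (fun s => (M.f (γ s) ^ 2)⁻¹ • w s) (Icc a b) := by
    refine ContinuousOn.smul (ContinuousOn.inv₀ ((C1Sol_cf M h).pow 2) fun s hs => ?_) h.cw
    exact pow_ne_zero 2 (M.pos _ (C1Sol_ne M h hs)).ne'
  exact C1Sol_deriv (g := fun s => (M.f (γ s) ^ 2)⁻¹ • w s) hg h.eqγ ht

theorem sol_deriv_w (M : Met) {a b : ℝ} {γ w : ℝ → E} (h : Sol M a b γ w) {t : ℝ}
    (ht : t ∈ Ioo a b) : HasDerivAt w (rhs M (γ t) (w t)) t := by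
  have hg : ContinuousOn (fun s => rhs M (γ s) (w s)) (Icc a b) := by
    have c1 : ContinuousOn (fun s => ‖w s‖ ^ 2 / M.f (γ s) ^ 3) (Icc a b) :=
      ContinuousOn.div (h.cw.norm.pow 2) ((C1Sol_cf M h).pow 3) fun s hs =>
        pow_ne_zero 3 (M.pos _ (C1Sol_ne M h hs)).ne'
    have c2 : ContinuousOn (fun s => gradient M.f (γ s)) (Icc a b) :=
      (cont_grad M).comp h.cγ fun t ht => C1Sol_ne M h ht
    have c3 : ContinuousOn (fun s => ‖w s‖ ^ 2 / M.f (γ s) ^ 2) (Icc a b) :=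
      ContinuousOn.div (h.cw.norm.pow 2) ((C1Sol_cf M h).pow 2) fun s hs =>
        pow_ne_zero 2 (M.pos _ (C1Sol_ne M h hs)).ne'
    exact (c1.smul c2).sub (c3.smul h.cγ)
  exact C1Sol_deriv (g := fun s => rhs M (γ s) (w s)) hg h.eqw ht

theorem sol_perp (M : Met) {a b : ℝ} (hab : a < b) {γ w : ℝ → E} (h : Sol M a b γ w) {t : ℝ}
    (ht : t ∈ Icc a b) : ⟪w t, γ t⟫ = 0 := by
  have h1 : ∀ t ∈ Ioo a b, ⟪w t, γ t⟫ = 0 := by
    intro t ht
    have hd := sol_deriv_γ M h ht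
    have h2 := hd.inner ℝ hd
    have h3 : HasDerivAt (fun t => ⟪γ t, γ t⟫) 0 t := by
      refine (hasDerivAt_const t (1 : ℝ)).congr_of_eventuallyEq ?_
      filter_upwards [Icc_mem_nhds ht.1 ht.2] with x hx
      rw [real_inner_self_eq_norm_sq, h.unit x hx, one_pow]
    have h4 := h2.unique h3
    have hp : 0 < M.f (γ t) := M.pos _ (C1Sol_ne M h (Ioo_subset_Icc_self ht))
    rw [real_inner_smul_right, real_inner_smul_left, real_inner_comm (w t) (γ t), ← two_mul] at h4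
    have h5 : (M.f (γ t) ^ 2)⁻¹ ≠ 0 := inv_ne_zero (pow_ne_zero 2 hp.ne')
    rcases mul_eq_zero.1 h4 with h6 | h6
    · exact absurd h6 two_ne_zero
    · rcases mul_eq_zero.1 h6 with h7 | h7
      · exact absurd h7 h5
      · exact h7
  have h2 : EqOn (fun t => ⟪w t, γ t⟫) (fun _ => (0 : ℝ)) (Icc a b) :=
    EqOn.of_subset_closure (s := Ioo a b) (fun t ht => h1 t ht) (h.cw.inner h.cγ)
      continuousOn_const Ioo_subset_Icc_self (closure_Ioo hab.ne).ge
  exact h2 ht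

private theorem C1Sol_speed_lt (M : Met) {a b : ℝ} {γ w : ℝ → E} (h : Sol M a b γ w) {s t : ℝ}
    (hs : s ∈ Icc a b) (ht : t ∈ Icc a b) (hst : s < t) :
    ‖w s‖ ^ 2 / M.f (γ s) ^ 2 = ‖w t‖ ^ 2 / M.f (γ t) ^ 2 := by
  have hab : a < b := hs.1.trans_lt (hst.trans_le ht.2)
  have hsub : Icc s t ⊆ Icc a b := Icc_subset_Icc hs.1 ht.2
  have hq : ContinuousOn (fun x => ‖w x‖ ^ 2 / M.f (γ x) ^ 2) (Icc s t) :=
    (ContinuousOn.div (h.cw.norm.pow 2) ((C1Sol_cf M h).pow 2) fun s hs =>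
        pow_ne_zero 2 (M.pos _ (C1Sol_ne M h hs)).ne').mono hsub
  have hd : ∀ x ∈ Ioo s t, HasDerivAt (fun x => ‖w x‖ ^ 2 / M.f (γ x) ^ 2) 0 x := by
    intro x hx
    have hx' : x ∈ Ioo a b := ⟨hs.1.trans_lt hx.1, hx.2.trans_le ht.2⟩
    have hne := C1Sol_ne M h (Ioo_subset_Icc_self hx')
    have hp : 0 < M.f (γ x) := M.pos _ hne
    have d1 := sol_deriv_γ M h hx'
    have d2 := sol_deriv_w M h hx'
    have d3 : HasDerivAt (fun x => M.f (γ x)) (⟪gradient M.f (γ x), (M.f (γ x) ^ 2)⁻¹ • w x⟫) x :=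
      (hasFDerivAt_f M hne).comp_hasDerivAt x d1
    have d4 : HasDerivAt (fun x => ‖w x‖ ^ 2) (2 * ⟪w x, rhs M (γ x) (w x)⟫) x := by
      have h5 := d2.norm_sq
      exact h5
    have d5 := d4.div (d3.pow 2) (pow_ne_zero 2 hp.ne')
    refine d5.congr_deriv ?_
    have h6 := sol_perp M hab h (Ioo_subset_Icc_self hx')
    unfold rhs
    rw [inner_sub_right, real_inner_smul_right, real_inner_smul_right, real_inner_smul_right, h6,
      real_inner_comm (w x) (gradient M.f (γ x))]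
    simp only [Pi.pow_apply]
    field_simp
    ring
  obtain ⟨c, _, hc⟩ := exists_hasDerivAt_eq_slope (fun x => ‖w x‖ ^ 2 / M.f (γ x) ^ 2)
    (fun _ => 0) hst hq hd
  have h7 : t - s ≠ 0 := sub_ne_zero.2 hst.ne'
  have h8 := (div_eq_zero_iff.1 hc.symm).resolve_right h7
  exact (sub_eq_zero.1 h8).symm

theorem sol_speed (M : Met) {a b : ℝ} {γ w : ℝ → E} (h : Sol M a b γ w) {s t : ℝ}
    (hs : s ∈ Icc a b) (ht : t ∈ Icc a b) : ‖w s‖ * M.f (γ t) = ‖w t‖ * M.f (γ s) := by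
  have hps : 0 < M.f (γ s) := M.pos _ (C1Sol_ne M h hs)
  have hpt : 0 < M.f (γ t) := M.pos _ (C1Sol_ne M h ht)
  have h1 : ‖w s‖ ^ 2 / M.f (γ s) ^ 2 = ‖w t‖ ^ 2 / M.f (γ t) ^ 2 := by
    rcases lt_trichotomy s t with h2 | h2 | h2
    · exact C1Sol_speed_lt M h hs ht h2
    · rw [h2]
    · exact (C1Sol_speed_lt M h ht hs h2).symm
  rw [div_eq_div_iff (pow_ne_zero 2 hps.ne') (pow_ne_zero 2 hpt.ne')] at h1
  refine (sq_eq_sq₀ (by positivity) (by positivity)).1 ?_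
  rw [mul_pow, mul_pow, h1]

end CGA
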