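import Pool.Agent.CGA.NodA

/-! PROJECT CGA, chunk C2, module NodB: equidistributed nodes on a closed polygon.

`ℓ = llen M (cyc l) ≥ cJ > 0`, `n = l.length`.  For `j < J` (even `j ≤ J`) let `i₀ j` be the least `i` with `jℓ/J ≤ cL M l i` (`Nat.find`; `i = n` works: `cL_length`), so `i₀ j ≤ n`,
`i₀ 0 = 0`, `i₀` is monotone, and `jℓ/J ≤ cL (i₀ j) < jℓ/J + c`: either `i₀ j = 0` and `cL 0 = 0`, or `i₀ j = i' + 1`, `cL i' < jℓ/J` and the last edge has length `≤ c`
(`cX_edge_mem`).  Put `i j = i₀ (j % J) + n * (j / J)`.  By `cL_add_mul_length` `jℓ/J ≤ cL (i j) < jℓ/J + c` for all `j` (`j = J (j/J) + j % J`).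
`i` is monotone: `i j ≤ i (j+1)`: if `j % J + 1 < J` by monotonicity of `i₀`; if `j % J = J - 1`: `(j+1) % J = 0`, `(j+1)/J = j/J + 1`, `i₀ (J-1) ≤ n`.
`cX l (i (j+J)) = cX l (i j)`: `cX_add_mul_length`.  `i (j+r) - i j < n` for `r < J`: otherwise `i j + n ≤ i (j+r)` and
`jℓ/J + ℓ ≤ cL (i j) + ℓ = cL (i j + n) ≤ cL (i (j+r)) < (j+r)ℓ/J + c ≤ jℓ/J + (J-1)ℓ/J + ℓ/J`, a contradiction.
The last claim follows from the bounds for `cL (i j)` and `cL (i (j+r))`.
-/

set_option linter.all false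

namespace CGA

open scoped RealInnerProductSpace Real Topology
open MeasureTheory Set Filter

theorem exists_nodes (M : Met) {l : List E} {c : ℝ} {J : ℕ} (hJ : 0 < J) (hl : l ≠ []) (hc0 : 0 < c)
    (hc : ∀ e ∈ cyc l, ell M e.1 e.2 ≤ c) (hcJ : c ≤ llen M (cyc l) / J) :
    ∃ i : ℕ → ℕ, ∀ j, cX l (i (j + J)) = cX l (i j) ∧ ∀ r < J, i j ≤ i (j + r) ∧
      i (j + r) - i j < l.length ∧
      |cL M l (i (j + r)) - cL M l (i j) - r * (llen M (cyc l) / J)| ≤ c := by
  classical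
  have hJ' : (0 : ℝ) < J := by exact_mod_cast hJ
  obtain ⟨ℓ, hℓ⟩ : ∃ ℓ, ℓ = llen M (cyc l) := ⟨_, rfl⟩
  rw [← hℓ] at hcJ ⊢
  have hs0 : 0 < ℓ / J := lt_of_lt_of_le hc0 hcJ
  have hℓ0 : 0 < ℓ := by
    have h1 : ℓ = ℓ / J * J := by field_simp
    rw [h1]; positivity
  have hℓJ : (J : ℝ) * (ℓ / J) = ℓ := by field_simp
  have hn : 0 < l.length := List.length_pos_iff.2 hl
  have hstep : ∀ i, cL M l (i + 1) = cL M l i + ell M (cX l i) (cX l (i + 1)) := by
    intro i
    unfold cL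
    rw [Finset.sum_range_succ]
  have hedge : ∀ i, cL M l (i + 1) ≤ cL M l i + c := by
    intro i
    rw [hstep]
    have := hc _ (cX_edge_mem hl i)
    simp only at this
    linarith
  have hmono := cL_mono M l
  have h0 : cL M l 0 = 0 := by unfold cL; simp
  have hper : ∀ i, cL M l (i + l.length) = cL M l i + ℓ := by
    intro i
    rw [cL_add_length M hl, hℓ]
  have hex : ∀ j : ℕ, ∃ i, (j : ℝ) * (ℓ / J) < cL M l (i + 1) := by
    intro j
    refine ⟨l.length * (j + 1), ?_⟩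
    have h1 : cL M l (l.length * (j + 1)) ≤ cL M l (l.length * (j + 1) + 1) :=
      hmono (Nat.le_succ _)
    have h2 := cL_add_mul_length M hl 0 (j + 1)
    rw [Nat.zero_add, h0, zero_add, ← hℓ] at h2
    have h3 : ℓ / J ≤ ℓ := by
      rw [div_le_iff₀ hJ']
      have : (1 : ℝ) ≤ J := by exact_mod_cast hJ
      nlinarith
    have h4 : (j : ℝ) * (ℓ / J) ≤ j * ℓ := mul_le_mul_of_nonneg_left h3 (Nat.cast_nonneg j)
    push_cast at h2
    have h5 : ((j : ℝ) + 1) * ℓ = j * ℓ + ℓ := by ring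
    linarith
  let i : ℕ → ℕ := fun j => Nat.find (hex j)
  have hi1 : ∀ j : ℕ, (j : ℝ) * (ℓ / J) < cL M l (i j + 1) := fun j => Nat.find_spec (hex j)
  have hi2 : ∀ j : ℕ, cL M l (i j) ≤ (j : ℝ) * (ℓ / J) := by
    intro j
    rcases Nat.eq_zero_or_pos (i j) with h | h
    · rw [h, h0]; positivity
    · have h1 := Nat.find_min (hex j) (m := i j - 1) (Nat.sub_lt h Nat.one_pos)
      have h2 : i j - 1 + 1 = i j := Nat.sub_add_cancel h
      rw [h2] at h1
      exact not_lt.1 h1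
  have hi3 : ∀ j : ℕ, (j : ℝ) * (ℓ / J) < cL M l (i j) + c := fun j =>
    lt_of_lt_of_le (hi1 j) (hedge _)
  have himono : ∀ j j' : ℕ, j ≤ j' → i j ≤ i j' := by
    intro j j' h
    refine Nat.find_min' (hex j) (lt_of_le_of_lt ?_ (hi1 j'))
    have : (j : ℝ) ≤ j' := by exact_mod_cast h
    exact mul_le_mul_of_nonneg_right this hs0.le
  have hcast : ∀ j : ℕ, ((j + J : ℕ) : ℝ) * (ℓ / J) = (j : ℝ) * (ℓ / J) + ℓ := by
    intro j
    push_cast
    rw [add_mul, hℓJ]
  have hiper : ∀ j : ℕ, i (j + J) = i j + l.length := by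
    intro j
    apply le_antisymm
    · refine Nat.find_min' (hex (j + J)) ?_
      rw [hcast, show i j + l.length + 1 = (i j + 1) + l.length by ring, hper]
      linarith [hi1 j]
    · have h1 := hi1 (j + J)
      rw [hcast] at h1
      have h2 : l.length ≤ i (j + J) := by
        by_contra hcon
        push Not at hcon
        have h3 : cL M l (i (j + J) + 1) ≤ cL M l (0 + l.length) := hmono (by omega)
        rw [hper, h0] at h3
        have : (0 : ℝ) ≤ j * (ℓ / J) := by positivity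
        linarith
      obtain ⟨k, hk⟩ := Nat.exists_eq_add_of_le h2
      rw [hk] at h1 ⊢
      rw [show l.length + k + 1 = (k + 1) + l.length by ring, hper] at h1
      have h4 : i j ≤ k := Nat.find_min' (hex j) (by linarith)
      omega
  refine ⟨i, fun j => ⟨?_, fun r hr => ⟨himono _ _ (Nat.le_add_right _ _), ?_, ?_⟩⟩⟩
  · rw [hiper, cX_add_length]
  · have h1 := himono j (j + r) (Nat.le_add_right _ _)
    by_contra hcon
    push Not at hcon
    have h2 : i j + l.length ≤ i (j + r) := by omega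
    have h3 := hmono h2
    rw [hper] at h3
    have h4 := hi2 (j + r)
    have h5 := hi3 j
    have h6 : ((r : ℝ) + 1) * (ℓ / J) ≤ ℓ := by
      have : (r : ℝ) + 1 ≤ J := by exact_mod_cast hr
      calc ((r : ℝ) + 1) * (ℓ / J) ≤ J * (ℓ / J) := mul_le_mul_of_nonneg_right this hs0.le
        _ = ℓ := hℓJ
    push_cast at h4
    rw [add_mul] at h4 h6
    linarith
  · have a1 := hi2 j
    have a2 := hi3 j
    have b1 := hi2 (j + r)
    have b2 := hi3 (j + r)
    push_cast at b1 b2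
    rw [add_mul] at b1 b2
    rw [abs_le]
    constructor <;> linarith

end CGA
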