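import Pool.Agent.CGA.KapA
import Pool.Agent.CGA.NodB
import Pool.Agent.CGA.AEllB

/-! PROJECT CGA, chunk C2, module KapB: uniform shortcuts in closed polygons (`kappa`).

Suppose not.  For each `k`, `κ = δ = 1/(k+1)`: a list `l k` with unit vertices, mesh `≤ 1/(k+1)`, `ρ' ≤ ℓ k := llen M (cyc (l k)) ≤ L` (so `l k ≠ []`) and
(*) for all `i, k', x, y` with `k' < length`, entries `x, y` of `rotate i` at `0, k'`: `llen (sub) ≤ ρ → llen (sub) < dist' x y + 1/(k+1)`.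
Let `J = max 4 ⌈8L/ρ⌉₊`, so `2L/J ≤ ρ/4`, `2 < J`; `c k = 2F/(k+1)` (`ell_bounds`: `ell ≤ 2F‖·‖`; `F > 0`).  For `k ≥ k₀`: `c k ≤ ρ'/J ≤ ℓ k/J`, `c k ≤ ρ/4`.
`exists_nodes`: `i k : ℕ → ℕ`; `p k j = cX (l k) (i k j)`.  For `r = 1, 2`: with `a = i k j`, `b = i k (j+r) - a` (so `a + b = i k (j+r)`): `pathL_sub`, `llen_sub`:
`r = 1`: `dist' (p k j) (p k (j+1)) ≤ llen = cL (a+b) - cL a ≤ ℓ k/J + c k`;
`r = 2`: `llen ≤ 2ℓ k/J + c k ≤ ρ`, so by (*) (`rotate_get`) `2ℓ k/J - c k ≤ llen < dist' (p k j) (p k (j+2)) + 1/(k+1)`.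
(Replace `l k` by `l (k + k₀)` to have this for all `k`.)  Let `U = hyperfilter ℕ`.  `ℓ k` lies in `Icc ρ' L` (compact): limit `ℓ ∈ Icc ρ' L` along `U`; for each `j`, `p k j` lies in
the compact sphere: limit `p j` (`IsCompact.ultrafilter_le_nhds'`, or `Ultrafilter.map`), `‖p j‖ = 1`, `p (j+J) = p j` (limits of equal functions).
`tendsto_dist'` and `le_of_tendsto_of_tendsto'`: `dist' (p j) (p (j+1)) ≤ ℓ/J`, `2ℓ/J ≤ dist' (p j) (p (j+2))`.
`closedGeo_of_nodes`: `ClosedGeo M ℓ` with `0 < ρ' ≤ ℓ ≤ L`, contradiction to `hN`.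
-/

set_option linter.all false

namespace CGA

open scoped RealInnerProductSpace Real Topology
open MeasureTheory Set Filter

private theorem KapB_lim {V : Type*} [TopologicalSpace V] {K : Set V} (hK : IsCompact K) {u : ℕ → V}
    (hu : ∀ k, u k ∈ K) : ∃ x ∈ K, Tendsto u (hyperfilter ℕ : Filter ℕ) (𝓝 x) := by
  obtain ⟨x, hx, hle⟩ := hK.ultrafilter_le_nhds ((hyperfilter ℕ).map u) (by
    rw [le_principal_iff]
    exact Filter.mem_map.2 (Filter.univ_mem' hu))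
  exact ⟨x, hx, hle⟩

theorem kappa_of (M : Met) (hmin : MinGeo M) (hloop : LoopSol M) {L : ℝ} (hL : 0 < L)
    (hN : NoGeo M L) {ρ ρ' : ℝ} (hρ : 0 < ρ) (hρ' : 0 < ρ') :
    ∃ κ > 0, ∃ δ > 0, ∀ l : List E, (∀ x ∈ l, ‖x‖ = 1) → (∀ e ∈ cyc l, ‖e.1 - e.2‖ ≤ δ) →
      ρ' ≤ llen M (cyc l) → llen M (cyc l) ≤ L →
      ∃ i k x y, k < l.length ∧ (l.rotate i)[0]? = some x ∧ (l.rotate i)[k]? = some y ∧
        llen M (pth ((l.rotate i).take (k + 1))) ≤ ρ ∧
        dist' M x y + κ ≤ llen M (pth ((l.rotate i).take (k + 1))) := by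
  by_contra hcon
  have hcon' : ∀ κ > 0, ∃ l : List E, (∀ x ∈ l, ‖x‖ = 1) ∧
      (∀ e ∈ cyc l, ‖e.1 - e.2‖ ≤ κ) ∧ ρ' ≤ llen M (cyc l) ∧ llen M (cyc l) ≤ L ∧
      ∀ i k x y, k < l.length → (l.rotate i)[0]? = some x → (l.rotate i)[k]? = some y →
        llen M (pth ((l.rotate i).take (k + 1))) ≤ ρ →
        llen M (pth ((l.rotate i).take (k + 1))) < dist' M x y + κ := by
    intro κ hκ
    by_contra h
    apply hcon
    refine ⟨κ, hκ, κ, hκ, ?_⟩
    intro l h1 h2 h3 h4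
    by_contra h5
    apply h
    refine ⟨l, h1, h2, h3, h4, ?_⟩
    intro i k x y h6 h7 h8 h9
    by_contra h10
    exact h5 ⟨i, k, x, y, h6, h7, h8, h9, not_lt.1 h10⟩
  obtain ⟨m, F, K, hm, hmF, hK, hf, -, -⟩ := M.exists_bounds
  have hF : 0 < F := lt_of_lt_of_le hm hmF
  obtain ⟨J, hJ4, hJρ⟩ : ∃ J : ℕ, 4 ≤ J ∧ 8 * L / ρ ≤ J :=
    ⟨max 4 ⌈8 * L / ρ⌉₊, le_max_left _ _,
      (Nat.le_ceil _).trans (by exact_mod_cast le_max_right _ _)⟩
  have hJ : 0 < J := by omega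
  have hJ' : (0:ℝ) < J := by exact_mod_cast hJ
  have hJL : 2 * (L / J) ≤ ρ / 4 := by
    rw [div_le_iff₀ hρ] at hJρ
    have h1 : L / J ≤ ρ / 8 := by
      rw [div_le_iff₀ hJ']
      linarith
    linarith
  -- small parameters
  obtain ⟨k₀, hk₀⟩ : ∃ k₀ : ℕ, 2 * F / (ρ' / J) + 8 * F / ρ + 1 ≤ k₀ := exists_nat_ge _
  have h0 : 0 < 2 * F / (ρ' / J) := by positivity
  have h0' : 0 < 8 * F / ρ := by positivity
  set e : ℕ → ℝ := fun k => 1 / ((k : ℝ) + k₀ + 1) with he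
  have hpos : ∀ k : ℕ, (0:ℝ) < (k : ℝ) + k₀ + 1 := fun k => by positivity
  have he0 : ∀ k, 0 < e k := fun k => by
    have := hpos k
    positivity
  have he1 : ∀ k, e k ≤ 1 := by
    intro k
    rw [he]
    show 1 / ((k : ℝ) + k₀ + 1) ≤ 1
    rw [div_le_one (hpos k)]
    have h1 : (0:ℝ) ≤ k := Nat.cast_nonneg k
    linarith
  have hc1 : ∀ k, 2 * F * e k ≤ ρ' / J := by
    intro k
    show 2 * F * (1 / ((k : ℝ) + k₀ + 1)) ≤ ρ' / J
    rw [mul_one_div, div_le_iff₀ (hpos k)]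
    have h1 : 2 * F / (ρ' / J) ≤ (k : ℝ) + k₀ + 1 := by
      have h2 : (0:ℝ) ≤ k := Nat.cast_nonneg k
      linarith
    rw [div_le_iff₀ (by positivity)] at h1
    linarith
  have hc2 : ∀ k, 2 * F * e k ≤ ρ / 4 := by
    intro k
    show 2 * F * (1 / ((k : ℝ) + k₀ + 1)) ≤ ρ / 4
    rw [mul_one_div, div_le_iff₀ (hpos k)]
    have h1 : 8 * F / ρ ≤ (k : ℝ) + k₀ + 1 := by
      have h2 : (0:ℝ) ≤ k := Nat.cast_nonneg k
      linarith
    rw [div_le_iff₀ hρ] at h1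
    linarith
  have helim : Tendsto e (hyperfilter ℕ : Filter ℕ) (𝓝 0) := by
    have h1 : Tendsto (fun k : ℕ => 1 / (((k + k₀ : ℕ) : ℝ) + 1)) atTop (𝓝 0) :=
      tendsto_one_div_add_atTop_nhds_zero_nat.comp (tendsto_add_atTop_nat k₀)
    have h2 : e = fun k : ℕ => 1 / (((k + k₀ : ℕ) : ℝ) + 1) := by
      funext k
      rw [he]
      push_cast
      rfl
    rw [h2]
    exact h1.mono_left Nat.hyperfilter_le_atTop
  choose l hu hmesh hlo hhi hno using fun k => hcon' (e k) (he0 k)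
  have hl : ∀ k, l k ≠ [] := by
    intro k h1
    have h2 := hlo k
    rw [h1] at h2
    simp [cyc, llen] at h2
    linarith
  have hmem : ∀ k, ∀ x ∈ cyc (l k), x.1 ∈ l k ∧ x.2 ∈ l k := by
    intro k x hx
    have h1 := List.of_mem_zip (a := x.1) (b := x.2) hx
    exact ⟨h1.1, List.mem_rotate.1 h1.2⟩
  have hmesh1 : ∀ k, ∀ x ∈ cyc (l k), ‖x.1 - x.2‖ ≤ 1 := fun k x hx =>
    (hmesh k x hx).trans (he1 k)
  have hc : ∀ k, ∀ x ∈ cyc (l k), ell M x.1 x.2 ≤ 2 * F * e k := by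
    intro k x hx
    refine (ell_bounds M hm hf (hu k _ (hmem k x hx).1) (hu k _ (hmem k x hx).2)
      (hmesh1 k x hx)).2.trans ?_
    exact mul_le_mul_of_nonneg_left (hmesh k x hx) (by positivity)
  have hc0 : ∀ k, 0 < 2 * F * e k := fun k => by
    have := he0 k
    positivity
  choose i hi using fun k => exists_nodes M hJ (hl k) (hc0 k) (hc k)
    ((hc1 k).trans (by
      have h1 := hlo k
      gcongr))
  have hp : ∀ k j, ‖cX (l k) (i k j)‖ = 1 := fun k j => hu k _ (cX_mem (hl k) _)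
  have hsub : ∀ k j r, r < J → ∃ P : List E,
      PathL (cX (l k) (i k j)) (cX (l k) (i k (j + r))) P ∧
      (llen M (pth P) ≤ ρ → llen M (pth P) <
        dist' M (cX (l k) (i k j)) (cX (l k) (i k (j + r))) + e k) ∧
      |llen M (pth P) - r * (llen M (cyc (l k)) / J)| ≤ 2 * F * e k := by
    intro k j r hr
    obtain ⟨h1, h2, h3⟩ := (hi k j).2 r hr
    have h4 : i k j + (i k (j + r) - i k j) = i k (j + r) := Nat.add_sub_cancel' h1
    refine ⟨((l k).rotate (i k j)).take (i k (j + r) - i k j + 1), ?_, ?_, ?_⟩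
    · have h5 := pathL_sub (hu k) (hmesh1 k) (i k j) h2
      rwa [h4] at h5
    · intro h5
      refine hno k (i k j) _ _ _ h2 ?_ ?_ h5
      · have h6 := rotate_get (l := l k) (i k j) (k := 0)
          (lt_of_le_of_lt (Nat.zero_le _) h2)
        rwa [add_zero] at h6
      · have h6 := rotate_get (l := l k) (i k j) h2
        rwa [h4] at h6
    · rw [llen_sub M (i k j) h2, h4]
      exact h3
  have d1 : ∀ k j, dist' M (cX (l k) (i k j)) (cX (l k) (i k (j + 1))) ≤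
      llen M (cyc (l k)) / J + 2 * F * e k := by
    intro k j
    obtain ⟨P, hP, -, h3⟩ := hsub k j 1 (by omega)
    have h4 := dist'_le_llen M hP
    have h5 := (abs_le.1 h3).2
    push_cast at h5
    linarith
  have d2 : ∀ k j, 2 * (llen M (cyc (l k)) / J) - (2 * F * e k + e k) ≤
      dist' M (cX (l k) (i k j)) (cX (l k) (i k (j + 2))) := by
    intro k j
    obtain ⟨P, hP, h2, h3⟩ := hsub k j 2 (by omega)
    have h4 := abs_le.1 h3
    push_cast at h4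
    have h5 : llen M (cyc (l k)) / J ≤ L / J := by
      have := hhi k
      gcongr
    have h6 := h2 (by
      have := hc2 k
      linarith)
    linarith
  obtain ⟨ℓ, hℓ, hℓlim⟩ := KapB_lim (u := fun k => llen M (cyc (l k)))
    (isCompact_Icc (a := ρ') (b := L)) (fun k => ⟨hlo k, hhi k⟩)
  choose p hpS hplim using fun j => KapB_lim (u := fun k => cX (l k) (i k j))
    (isCompact_sphere (0 : E) 1) (fun k => mem_sphere_zero_iff_norm.2 (hp k j))
  have hp1 : ∀ j, ‖p j‖ = 1 := fun j => mem_sphere_zero_iff_norm.1 (hpS j)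
  have hper : ∀ j, p (j + J) = p j := by
    intro j
    refine tendsto_nhds_unique (hplim (j + J)) ?_
    have h1 : (fun k => cX (l k) (i k (j + J))) = fun k => cX (l k) (i k j) :=
      funext fun k => (hi k j).1
    rw [h1]
    exact hplim j
  have hclim : Tendsto (fun k => 2 * F * e k) (hyperfilter ℕ : Filter ℕ) (𝓝 0) := by
    have h1 := helim.const_mul (2 * F)
    rwa [mul_zero] at h1
  have hℓ0 : 0 < ℓ := lt_of_lt_of_le hρ' hℓ.1
  refine absurd hℓ.2 (not_le.2 (hN ℓ hℓ0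
    (closedGeo_of_nodes M hmin hloop hJ hℓ0 p hp1 hper ?_ ?_)))
  · intro j
    have h1 := tendsto_dist' M (fun k => hp k j) (fun k => hp k (j + 1)) (hp1 j) (hp1 (j + 1))
      (hplim j) (hplim (j + 1))
    have h2 := (hℓlim.div_const (J : ℝ)).add hclim
    rw [add_zero] at h2
    exact le_of_tendsto_of_tendsto' h1 h2 (fun k => d1 k j)
  · intro j
    have h1 := tendsto_dist' M (fun k => hp k j) (fun k => hp k (j + 2)) (hp1 j) (hp1 (j + 2))
      (hplim j) (hplim (j + 2))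
    have h2 := ((hℓlim.div_const (J : ℝ)).const_mul 2).sub (hclim.add helim)
    rw [add_zero, sub_zero] at h2
    exact le_of_tendsto_of_tendsto' h2 h1 (fun k => d2 k j)

end CGA
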