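import Pool.Agent.CGA.MinG
import Pool.Agent.CGA.KapB
import Pool.Agent.CGA.C1LC
import Pool.Agent.CGA.C1Cl

/-! PROJECT CGA, chunk C2, module C2End: the theorems of the chunk. -/

set_option linter.all false

namespace CGA

open scoped RealInnerProductSpace Real Topology
open MeasureTheory Set Filter

theorem limChain_prop (M : Met) : LimChain M := by
  intro U n τ X δ C h1 h2 h3 h4 h5 h6 h7 h8
  obtain ⟨γ, w, a1, a2, a3, -, -, a6⟩ := limChain M U n τ X δ C h1 h2 h3 h4 h5 h6 h7 h8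
  exact ⟨γ, w, a1, a2, a3, a6⟩

theorem loopSol_prop (M : Met) : LoopSol M :=
  fun _ _ _ _ h1 h2 h3 h4 h5 h6 => closedGeo_of_sol M h1 h2 h3 h4 h5 h6

/-- C-min: minimising geodesics exist -/
theorem minGeo (M : Met) {x y : E} (hx : ‖x‖ = 1) (hy : ‖y‖ = 1) :
    ∃ γ w : ℝ → E, Sol M 0 1 γ w ∧ γ 0 = x ∧ γ 1 = y ∧
      ∀ t ∈ Icc (0:ℝ) 1, ‖w t‖ = dist' M x y * M.f (γ t) :=
  minGeo_of M (limChain_prop M) x y hx hy

/-- C-κ: uniform shortcut in closed polygons of length at most `L` -/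
theorem kappa (M : Met) {L : ℝ} (hL : 0 < L) (hN : NoGeo M L) {ρ ρ' : ℝ} (hρ : 0 < ρ)
    (hρ' : 0 < ρ') :
    ∃ κ > 0, ∃ δ > 0, ∀ l : List E, (∀ x ∈ l, ‖x‖ = 1) → (∀ e ∈ cyc l, ‖e.1 - e.2‖ ≤ δ) →
      ρ' ≤ llen M (cyc l) → llen M (cyc l) ≤ L →
      ∃ i k x y, k < l.length ∧ (l.rotate i)[0]? = some x ∧ (l.rotate i)[k]? = some y ∧
        llen M (pth ((l.rotate i).take (k + 1))) ≤ ρ ∧
        dist' M x y + κ ≤ llen M (pth ((l.rotate i).take (k + 1))) :=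
  kappa_of M (minGeo_of M (limChain_prop M)) (loopSol_prop M) hL hN hρ hρ'

end CGA
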