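import Pool.Agent.CGA.PthA

/-! PROJECT CGA, chunk C2, module PthB: `dist'` is a metric on the sphere.

`dist'_eq`; the set `{r | ∃ l, PathL x y l ∧ r = llen M (pth l)}` is bounded below by `0` (`llen_nonneg`) and nonempty for
unit vectors (`exists_path`).  `dist'_le_llen`: `csInf_le`.  `exists_path_lt`: `exists_lt_of_csInf_lt`.
`dist'_comm`, `dist'_triangle`: `PathL.reverse`, `PathL.append` and `exists_path_lt` with `ε → 0` (`le_of_forall_pos_lt_add`).
`le_dist'`: `dist_le_llen` (ACyc) for the list `l = x :: l₀` of a path, applied to the last point: `m ‖y - x‖ ≤ llen`; `le_csInf`.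
`dist'_le_norm`: `‖x-y‖ ≤ 1`: `dist'_le_ell` and `ell_bounds` (`≤ 2F‖x-y‖`); otherwise `exists_path`: `≤ 8F ≤ 8F‖x-y‖`.
`dist'_self`: `PathL.single`.  `dist'_lip`: twice the triangle inequality.
-/

set_option linter.all false

namespace CGA

open scoped RealInnerProductSpace Real Topology
open MeasureTheory Set Filter

private theorem pthb_bdd (M : Met) (x y : E) :
    BddBelow {r | ∃ l : List E, PathL x y l ∧ r = llen M (pth l)} := by
  refine ⟨0, ?_⟩
  rintro r ⟨l, -, rfl⟩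
  exact llen_nonneg M _

private theorem pthb_ne (M : Met) {x y : E} (hx : ‖x‖ = 1) (hy : ‖y‖ = 1) :
    {r | ∃ l : List E, PathL x y l ∧ r = llen M (pth l)}.Nonempty := by
  obtain ⟨m, F, K, -, -, -, hb, -, -⟩ := M.exists_bounds
  obtain ⟨l, hl, -⟩ := exists_path M (fun x hx => (hb x hx).2) hx hy
  exact ⟨_, l, hl, rfl⟩

theorem dist'_nonneg (M : Met) (x y : E) : 0 ≤ dist' M x y := by
  rw [dist'_eq]
  refine Real.sInf_nonneg ?_
  rintro r ⟨l, -, rfl⟩
  exact llen_nonneg M _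

theorem dist'_le_llen (M : Met) {x y : E} {l : List E} (h : PathL x y l) :
    dist' M x y ≤ llen M (pth l) := by
  rw [dist'_eq]
  exact csInf_le (pthb_bdd M x y) ⟨l, h, rfl⟩

theorem exists_path_lt (M : Met) {x y : E} (hx : ‖x‖ = 1) (hy : ‖y‖ = 1) {ε : ℝ} (hε : 0 < ε) :
    ∃ l : List E, PathL x y l ∧ llen M (pth l) < dist' M x y + ε := by
  have h1 : sInf {r | ∃ l : List E, PathL x y l ∧ r = llen M (pth l)} < dist' M x y + ε := by
    rw [← dist'_eq]
    linarith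
  obtain ⟨r, ⟨l, hl, rfl⟩, h2⟩ := exists_lt_of_csInf_lt (pthb_ne M hx hy) h1
  exact ⟨l, hl, h2⟩

theorem dist'_self (M : Met) {x : E} (hx : ‖x‖ = 1) : dist' M x x = 0 := by
  refine le_antisymm ?_ (dist'_nonneg M x x)
  have h := dist'_le_llen M (PathL.single hx)
  rwa [llen_pth_single] at h

private theorem pthb_comm_le (M : Met) {x y : E} (hx : ‖x‖ = 1) (hy : ‖y‖ = 1) :
    dist' M x y ≤ dist' M y x := by
  refine le_of_forall_pos_lt_add fun ε hε => ?_
  obtain ⟨l, hl, h1⟩ := exists_path_lt M hy hx hε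
  have h2 := dist'_le_llen M hl.reverse.1
  rw [hl.reverse.2 M] at h2
  linarith

theorem dist'_comm (M : Met) {x y : E} (hx : ‖x‖ = 1) (hy : ‖y‖ = 1) :
    dist' M x y = dist' M y x :=
  le_antisymm (pthb_comm_le M hx hy) (pthb_comm_le M hy hx)

theorem dist'_triangle (M : Met) {x y z : E} (hx : ‖x‖ = 1) (hy : ‖y‖ = 1) (hz : ‖z‖ = 1) :
    dist' M x z ≤ dist' M x y + dist' M y z := by
  refine le_of_forall_pos_lt_add fun ε hε => ?_
  obtain ⟨l, hl, h1⟩ := exists_path_lt M hx hy (half_pos hε)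
  obtain ⟨l', hl', h2⟩ := exists_path_lt M hy hz (half_pos hε)
  have h3 := dist'_le_llen M (hl.append hl').1
  rw [(hl.append hl').2 M] at h3
  linarith

theorem dist'_le_ell (M : Met) {x y : E} (hx : ‖x‖ = 1) (hy : ‖y‖ = 1) (h : ‖x - y‖ ≤ 1) :
    dist' M x y ≤ ell M x y := by
  have h1 := dist'_le_llen M (PathL.edge hx hy h)
  rwa [llen_pth_edge] at h1

theorem le_dist' (M : Met) {m F : ℝ} (hm : 0 < m) (hf : ∀ x : E, x ≠ 0 → m ≤ M.f x ∧ M.f x ≤ F)
    {x y : E} (hx : ‖x‖ = 1) (hy : ‖y‖ = 1) : m * ‖x - y‖ ≤ dist' M x y := by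
  rw [dist'_eq]
  refine le_csInf (pthb_ne M hx hy) ?_
  rintro r ⟨l, hl, rfl⟩
  obtain ⟨l₀, rfl⟩ := List.head?_eq_some_iff.1 hl.head
  have h1 := dist_le_llen M hm hf x l₀ hl.unit hl.mesh y (List.mem_of_getLast? hl.last)
  rwa [norm_sub_rev] at h1

theorem dist'_le_norm (M : Met) {m F : ℝ} (hm : 0 < m)
    (hf : ∀ x : E, x ≠ 0 → m ≤ M.f x ∧ M.f x ≤ F) {x y : E} (hx : ‖x‖ = 1) (hy : ‖y‖ = 1) :
    dist' M x y ≤ 8 * F * ‖x - y‖ := by
  have hx0 : x ≠ 0 := by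
    intro h
    rw [h, norm_zero] at hx
    exact zero_ne_one hx
  have hF0 : 0 < F := hm.trans_le ((hf x hx0).1.trans (hf x hx0).2)
  have hn := norm_nonneg (x - y)
  by_cases h : ‖x - y‖ ≤ 1
  · have h1 := dist'_le_ell M hx hy h
    have h2 := (ell_bounds M hm hf hx hy h).2
    have h3 : 0 ≤ F * ‖x - y‖ := by positivity
    nlinarith
  · push Not at h
    obtain ⟨l, hl, h1⟩ := exists_path M (fun x hx => (hf x hx).2) hx hy
    have h2 := dist'_le_llen M hl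
    nlinarith

theorem dist'_pos (M : Met) {x y : E} (hx : ‖x‖ = 1) (hy : ‖y‖ = 1) (hxy : x ≠ y) :
    0 < dist' M x y := by
  obtain ⟨m, F, K, hm, -, -, hb, -, -⟩ := M.exists_bounds
  refine lt_of_lt_of_le ?_ (le_dist' M hm hb hx hy)
  exact mul_pos hm (norm_pos_iff.2 (sub_ne_zero.2 hxy))

/-- `dist'` is Lipschitz on the sphere -/
theorem dist'_lip (M : Met) {m F : ℝ} (hm : 0 < m)
    (hf : ∀ x : E, x ≠ 0 → m ≤ M.f x ∧ M.f x ≤ F) {x y x' y' : E} (hx : ‖x‖ = 1) (hy : ‖y‖ = 1)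
    (hx' : ‖x'‖ = 1) (hy' : ‖y'‖ = 1) :
    |dist' M x y - dist' M x' y'| ≤ 8 * F * (‖x - x'‖ + ‖y - y'‖) := by
  have h1 := dist'_triangle M hx hx' hy
  have h2 := dist'_triangle M hx' hy' hy
  have h3 := dist'_triangle M hx' hx hy'
  have h4 := dist'_triangle M hx hy hy'
  have h5 := dist'_le_norm M hm hf hx hx'
  have h6 := dist'_le_norm M hm hf hy hy'
  have h7 := dist'_comm M hx hx'
  have h8 := dist'_comm M hy hy'
  rw [abs_le]
  constructor <;> nlinarith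

theorem tendsto_dist' (M : Met) {ι : Type} {U : Filter ι} {p q : ι → E} {x y : E}
    (hp : ∀ k, ‖p k‖ = 1) (hq : ∀ k, ‖q k‖ = 1) (hx : ‖x‖ = 1) (hy : ‖y‖ = 1)
    (h1 : Tendsto p U (𝓝 x)) (h2 : Tendsto q U (𝓝 y)) :
    Tendsto (fun k => dist' M (p k) (q k)) U (𝓝 (dist' M x y)) := by
  obtain ⟨m, F, K, hm, -, -, hb, -, -⟩ := M.exists_bounds
  rw [tendsto_iff_dist_tendsto_zero]
  have h3 : Tendsto (fun k => 8 * F * (‖p k - x‖ + ‖q k - y‖)) U (𝓝 0) := by
    have h4 : Tendsto (fun k => ‖p k - x‖) U (𝓝 0) := by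
      have := (tendsto_iff_norm_sub_tendsto_zero.1 h1)
      exact this
    have h5 : Tendsto (fun k => ‖q k - y‖) U (𝓝 0) := tendsto_iff_norm_sub_tendsto_zero.1 h2
    have h6 := (h4.add h5).const_mul (8 * F)
    simpa using h6
  refine squeeze_zero (fun k => dist_nonneg) (fun k => ?_) h3
  rw [Real.dist_eq]
  exact dist'_lip M hm hb (hp k) (hq k) hx hy

end CGA
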