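import Pool.Agent.CGA.SolC
import Pool.Agent.CGA.PthB
import Pool.Agent.CGA.AEllB

/-! PROJECT CGA, chunk C2, module SolD: a solution of speed `s` on a time interval of length `τ` realises distances at most `sτ`.

* `dist'_le_of_local`: fix `ε > 0`, `δ`; `N` with `(b-a)/N ≤ δ`, `t_i = a + i(b-a)/N`; triangle inequality (induction on `i`:
  `dist' (g a) (g t_i) ≤ (A+ε)(t_i - a)`), then `ε → 0`.
* `Sol.norm_sub_le`: `γ v - γ u = ∫_u^v f⁻²w` (`Sol.sub_eq`), `‖f⁻²w‖ = s/f ≤ s/m` (`intervalIntegral.norm_integral_le_of_norm_le_const`).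
* `Sol.f_norm_sub_le`: `f(γ u)‖γ v - γ u‖ ≤ f(γ u) ∫_u^v s/f(γ t) dt` and `f(γ u)/f(γ t) ≤ 1 + K‖γ t - γ u‖/m ≤ 1 + K s (v-u)/m²`.
* `Sol.dist_le`: `dist'_le_of_local` with `A = s`: for `v - u` small: `‖γ v - γ u‖ ≤ 1`, `dist' ≤ ell ≤ f(γ u)‖γ v - γ u‖ + C‖γ v - γ u‖²` (`ell_approx`)
  `≤ s(v-u)(1 + C'(v-u)) + C (s/m)²(v-u)² ≤ (s + ε)(v-u)`.
-/

set_option linter.all false

namespace CGA

open scoped RealInnerProductSpace Real Topology
open MeasureTheory Set Filter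

variable {M : Met} {a b s : ℝ} {γ w : ℝ → E}

theorem dist'_le_of_local (M : Met) {g : ℝ → E} {a b A : ℝ} (hab : a ≤ b)
    (hg : ∀ t ∈ Icc a b, ‖g t‖ = 1)
    (h : ∀ ε > 0, ∃ δ > 0, ∀ u ∈ Icc a b, ∀ v ∈ Icc a b, u ≤ v → v - u ≤ δ →
      dist' M (g u) (g v) ≤ (A + ε) * (v - u)) :
    dist' M (g a) (g b) ≤ A * (b - a) := by
  have key : ∀ ε > 0, dist' M (g a) (g b) ≤ (A + ε) * (b - a) := by
    intro ε hε
    obtain ⟨δ, hδ, h1⟩ := h ε hε
    obtain ⟨N, hN⟩ := exists_nat_gt ((b - a) / δ)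
    have hba : 0 ≤ b - a := by linarith
    have hN0 : (0:ℝ) < N := lt_of_le_of_lt (by positivity) hN
    set η : ℝ := (b - a) / N with hη
    have hη0 : 0 ≤ η := by positivity
    have hηδ : η ≤ δ := by
      rw [hη, div_le_iff₀ hN0]
      rw [div_lt_iff₀ hδ] at hN
      linarith
    have hNη : (N : ℝ) * η = b - a := by
      rw [hη]
      field_simp
    have hmem : ∀ i : ℕ, i ≤ N → a + i * η ∈ Icc a b := by
      intro i hi
      have hi' : (i : ℝ) ≤ N := by exact_mod_cast hi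
      have h2 : (i : ℝ) * η ≤ N * η := mul_le_mul_of_nonneg_right hi' hη0
      have h3 : 0 ≤ (i : ℝ) * η := by positivity
      constructor
      · linarith
      · linarith
    have hind : ∀ i : ℕ, i ≤ N → dist' M (g a) (g (a + i * η)) ≤ (A + ε) * (i * η) := by
      intro i
      induction i with
      | zero =>
        intro _
        have h0 : a + ((0 : ℕ) : ℝ) * η = a := by simp
        rw [h0, dist'_self M (hg a ⟨le_rfl, hab⟩)]
        simp
      | succ i ih =>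
        intro hi
        have hi1 := hmem i (by omega)
        have hi2 := hmem (i + 1) hi
        have e1 : a + ((i + 1 : ℕ) : ℝ) * η - (a + (i : ℝ) * η) = η := by
          push_cast
          ring
        have h2 := h1 _ hi1 _ hi2 (by linarith) (by rw [e1]; exact hηδ)
        rw [e1] at h2
        have h3 := dist'_triangle M (hg a ⟨le_rfl, hab⟩) (hg _ hi1) (hg _ hi2)
        have h4 := ih (by omega)
        have e2 : (A + ε) * (((i + 1 : ℕ) : ℝ) * η) = (A + ε) * (i * η) + (A + ε) * η := by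
          push_cast
          ring
        rw [e2]
        linarith
    have h5 := hind N le_rfl
    rw [hNη] at h5
    have e3 : a + (b - a) = b := by ring
    rw [e3] at h5
    exact h5
  apply le_of_forall_pos_le_add
  intro ε hε
  have h0 : 0 < b - a + 1 := by linarith
  have h1 := key (ε / (b - a + 1)) (by positivity)
  have h2 : ε / (b - a + 1) * (b - a) ≤ ε := by
    rw [div_mul_eq_mul_div, div_le_iff₀ h0]
    nlinarith
  nlinarith

private theorem SolD_norm (h : Sol M a b γ w) (hs : ∀ t ∈ Icc a b, ‖w t‖ = s * M.f (γ t)) {t : ℝ}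
    (ht : t ∈ Icc a b) : 0 < M.f (γ t) ∧ ‖(M.f (γ t) ^ 2)⁻¹ • w t‖ = s / M.f (γ t) := by
  have h0 : 0 < M.f (γ t) := M.pos _ (by
    intro h0
    have := h.unit t ht
    rw [h0, norm_zero] at this
    norm_num at this)
  refine ⟨h0, ?_⟩
  rw [norm_smul, hs t ht, Real.norm_eq_abs, abs_of_pos (by positivity)]
  field_simp

theorem Sol.norm_sub_le (h : Sol M a b γ w) (hs : ∀ t ∈ Icc a b, ‖w t‖ = s * M.f (γ t))
    (hs0 : 0 ≤ s) {m F : ℝ} (hm : 0 < m) (hf : ∀ x : E, x ≠ 0 → m ≤ M.f x ∧ M.f x ≤ F) {u v : ℝ}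
    (hu : u ∈ Icc a b) (hv : v ∈ Icc a b) (huv : u ≤ v) : ‖γ v - γ u‖ ≤ s / m * (v - u) := by
  rw [h.sub_eq hu hv]
  have h1 := intervalIntegral.norm_integral_le_of_norm_le_const (a := u) (b := v)
    (f := fun s => (M.f (γ s) ^ 2)⁻¹ • w s) (C := s / m) (by
      intro t ht
      rw [uIoc_of_le huv] at ht
      have ht' : t ∈ Icc a b := ⟨hu.1.trans ht.1.le, ht.2.trans hv.2⟩
      obtain ⟨h2, h3⟩ := SolD_norm h hs ht'
      rw [h3]
      have h4 : γ t ≠ 0 := by
        intro h0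
        have := h.unit t ht'
        rw [h0, norm_zero] at this
        norm_num at this
      exact div_le_div_of_nonneg_left hs0 hm (hf _ h4).1)
  rwa [abs_of_nonneg (by linarith)] at h1

theorem Sol.f_norm_sub_le (h : Sol M a b γ w) (hs : ∀ t ∈ Icc a b, ‖w t‖ = s * M.f (γ t))
    (hs0 : 0 ≤ s) {m F K : ℝ} (hm : 0 < m) (hK : 0 ≤ K)
    (hf : ∀ x : E, x ≠ 0 → m ≤ M.f x ∧ M.f x ≤ F)
    (hlip : ∀ x y : E, ‖x‖ = 1 → ‖y‖ = 1 → |M.f x - M.f y| ≤ K * ‖x - y‖) {u v : ℝ}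
    (hu : u ∈ Icc a b) (hv : v ∈ Icc a b) (huv : u ≤ v) :
    M.f (γ u) * ‖γ v - γ u‖ ≤ s * (v - u) * (1 + K * s / m ^ 2 * (v - u)) := by
  have hu0 := (SolD_norm h hs hu).1
  have hne : ∀ t ∈ Icc a b, γ t ≠ 0 := by
    intro t ht h0
    have := h.unit t ht
    rw [h0, norm_zero] at this
    norm_num at this
  have huv0 : 0 ≤ v - u := by linarith
  rw [h.sub_eq hu hv]
  have h1 := intervalIntegral.norm_integral_le_of_norm_le_const (a := u) (b := v)
    (f := fun s => (M.f (γ s) ^ 2)⁻¹ • w s)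
    (C := s * (1 + K * s / m ^ 2 * (v - u)) / M.f (γ u)) (by
      intro t ht
      rw [uIoc_of_le huv] at ht
      have ht' : t ∈ Icc a b := ⟨hu.1.trans ht.1.le, ht.2.trans hv.2⟩
      obtain ⟨h2, h3⟩ := SolD_norm h hs ht'
      rw [h3, div_le_div_iff₀ h2 hu0, mul_assoc]
      apply mul_le_mul_of_nonneg_left _ hs0
      have h4 : M.f (γ u) - M.f (γ t) ≤ K * (s / m * (v - u)) := by
        have h5 := (abs_le.1 (hlip (γ u) (γ t) (h.unit u hu) (h.unit t ht'))).2
        have h6 : ‖γ u - γ t‖ ≤ s / m * (v - u) := by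
          rw [norm_sub_rev]
          refine (h.norm_sub_le hs hs0 hm hf hu ht' ht.1.le).trans ?_
          apply mul_le_mul_of_nonneg_left _ (by positivity)
          linarith [ht.2]
        exact h5.trans (mul_le_mul_of_nonneg_left h6 hK)
      have h7 : m ≤ M.f (γ t) := (hf _ (hne t ht')).1
      have h8 : K * (s / m * (v - u)) ≤ K * s / m ^ 2 * (v - u) * M.f (γ t) := by
        have e1 : K * (s / m * (v - u)) = K * s / m ^ 2 * (v - u) * m := by
          field_simp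
        rw [e1]
        apply mul_le_mul_of_nonneg_left h7
        positivity
      nlinarith)
  rw [abs_of_nonneg huv0] at h1
  calc M.f (γ u) * ‖∫ s in u..v, (M.f (γ s) ^ 2)⁻¹ • w s‖
      ≤ M.f (γ u) * (s * (1 + K * s / m ^ 2 * (v - u)) / M.f (γ u) * (v - u)) :=
        mul_le_mul_of_nonneg_left h1 hu0.le
    _ = s * (v - u) * (1 + K * s / m ^ 2 * (v - u)) := by
        field_simp

theorem Sol.dist_le (h : Sol M a b γ w) (hs : ∀ t ∈ Icc a b, ‖w t‖ = s * M.f (γ t)) (hs0 : 0 ≤ s)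
    {u v : ℝ} (hu : u ∈ Icc a b) (hv : v ∈ Icc a b) (huv : u ≤ v) :
    dist' M (γ u) (γ v) ≤ s * (v - u) := by
  obtain ⟨m, F, K, hm, hmF, hK, hf, hlip, -⟩ := M.exists_bounds
  obtain ⟨C, hC, hell⟩ := ell_approx M
  have hsub : ∀ t ∈ Icc u v, t ∈ Icc a b := fun t ht => ⟨hu.1.trans ht.1, ht.2.trans hv.2⟩
  apply dist'_le_of_local M huv (fun t ht => h.unit t (hsub t ht))
  intro ε hε
  have hD : 0 < (K + C) * s ^ 2 / m ^ 2 + 1 := by positivity
  refine ⟨min (m / (s + 1)) (ε / ((K + C) * s ^ 2 / m ^ 2 + 1)), ?_, ?_⟩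
  · apply lt_min
    · positivity
    · positivity
  intro p hp q hq hpq hd
  have hd1 := hd.trans (min_le_left _ _)
  have hd2 := hd.trans (min_le_right _ _)
  have hpq0 : 0 ≤ q - p := by linarith
  have h1 := h.norm_sub_le hs hs0 hm hf (hsub p hp) (hsub q hq) hpq
  have h2 := h.f_norm_sub_le hs hs0 hm hK.le hf hlip (hsub p hp) (hsub q hq) hpq
  have h3 : ‖γ p - γ q‖ ≤ 1 := by
    rw [norm_sub_rev]
    refine h1.trans ?_
    calc s / m * (q - p) ≤ s / m * (m / (s + 1)) := by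
          apply mul_le_mul_of_nonneg_left hd1
          positivity
      _ = s / (s + 1) := by field_simp
      _ ≤ 1 := by
          rw [div_le_one (by linarith)]
          linarith
  have h4 := dist'_le_ell M (h.unit p (hsub p hp)) (h.unit q (hsub q hq)) h3
  have h5 := (abs_le.1 (hell (γ p) (γ q) (h.unit p (hsub p hp)) (h.unit q (hsub q hq)) h3)).2
  rw [norm_sub_rev] at h5
  have h6 : ‖γ q - γ p‖ ^ 2 ≤ (s / m * (q - p)) ^ 2 :=
    pow_le_pow_left₀ (norm_nonneg _) h1 2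
  have h7 : C * ‖γ q - γ p‖ ^ 2 ≤ C * (s / m * (q - p)) ^ 2 :=
    mul_le_mul_of_nonneg_left h6 hC.le
  have h8 : ((K + C) * s ^ 2 / m ^ 2 + 1) * (q - p) ≤ ε := by
    rw [le_div_iff₀ hD] at hd2
    linarith
  have h9 : ((K + C) * s ^ 2 / m ^ 2) * (q - p) ≤ ε := by nlinarith
  have h10 : s * (q - p) * (1 + K * s / m ^ 2 * (q - p)) + C * (s / m * (q - p)) ^ 2
      = (s + ((K + C) * s ^ 2 / m ^ 2) * (q - p)) * (q - p) := by
    field_simp
    ring
  have h11 : (s + ((K + C) * s ^ 2 / m ^ 2) * (q - p)) * (q - p) ≤ (s + ε) * (q - p) := by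
    apply mul_le_mul_of_nonneg_right _ hpq0
    linarith
  linarith

end CGA
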