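import Pool.Agent.CGA.SolC
import Pool.Agent.CGA.SolD

/-! PROJECT CGA, chunk C2, module Corn: a concatenation of two minimising geodesics which is still minimising has no corner.

`q = γ₁ 1 = γ₂ 0`, `v₁ = w₁ 1`, `v₂ = w₂ 0`, `‖v₁‖ = ‖v₂‖ = s f(q)`.  Suppose `v₁ ≠ v₂`; then `‖v₁ + v₂‖ < 2 s f(q)` (parallelogram identity
`‖v₁+v₂‖² + ‖v₁-v₂‖² = 4 s² f(q)²`).  Let `p_δ = γ₁ (1-δ)`, `r_δ = γ₂ δ`.  By `Sol.left_tangent` and `Sol.right_tangent`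
`δ⁻¹(r_δ - p_δ) → f(q)⁻²(v₁ + v₂)` as `δ → 0+`, so `δ⁻¹‖r_δ - p_δ‖ → ‖v₁+v₂‖/f(q)²`, `‖r_δ - p_δ‖ → 0`, `f(p_δ) → f(q)`, and
`δ⁻¹ (f(p_δ)‖p_δ - r_δ‖ + C‖p_δ - r_δ‖²) → ‖v₁+v₂‖/f(q) < 2s`.  So for some `δ ∈ (0,1)`: `‖p_δ - r_δ‖ ≤ 1` and
`dist' p_δ r_δ ≤ ell p_δ r_δ < 2sδ` (`dist'_le_ell`, `ell_approx`).  With `Sol.dist_le`: `dist' (γ₁ 0) p_δ ≤ s(1-δ)`, `dist' r_δ (γ₂ 1) ≤ s(1-δ)`;
the triangle inequality contradicts `hd`.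
-/

set_option linter.all false

namespace CGA

open scoped RealInnerProductSpace Real Topology
open MeasureTheory Set Filter

theorem noCorner (M : Met) {s : ℝ} (hs : 0 < s) {γ₁ w₁ γ₂ w₂ : ℝ → E} (h1 : Sol M 0 1 γ₁ w₁)
    (h2 : Sol M 0 1 γ₂ w₂) (s1 : ∀ t ∈ Icc (0:ℝ) 1, ‖w₁ t‖ = s * M.f (γ₁ t))
    (s2 : ∀ t ∈ Icc (0:ℝ) 1, ‖w₂ t‖ = s * M.f (γ₂ t)) (hq : γ₁ 1 = γ₂ 0)
    (hd : 2 * s ≤ dist' M (γ₁ 0) (γ₂ 1)) : w₁ 1 = w₂ 0 := by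
  by_contra hne
  have h01 : (0:ℝ) ∈ Icc (0:ℝ) 1 := ⟨le_rfl, zero_le_one⟩
  have h11 : (1:ℝ) ∈ Icc (0:ℝ) 1 := ⟨zero_le_one, le_rfl⟩
  have hq1 : ‖γ₁ 1‖ = 1 := h1.unit 1 h11
  have hq0 : γ₁ 1 ≠ 0 := by
    intro h
    rw [h, norm_zero] at hq1
    exact zero_ne_one hq1
  set f0 := M.f (γ₁ 1) with hf0
  have hf0p : 0 < f0 := M.pos _ hq0
  have hn1 : ‖w₁ 1‖ = s * f0 := s1 1 h11
  have hn2 : ‖w₂ 0‖ = s * f0 := by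
    rw [s2 0 h01, ← hq]
  have hdiff : 0 < ‖w₁ 1 - w₂ 0‖ := norm_pos_iff.2 (sub_ne_zero.2 hne)
  have hsum : ‖w₁ 1 + w₂ 0‖ < 2 * s * f0 := by
    have hpar := parallelogram_law_with_norm ℝ (w₁ 1) (w₂ 0)
    rw [hn1, hn2] at hpar
    have h3 : ‖w₁ 1 + w₂ 0‖ ^ 2 < (2 * s * f0) ^ 2 := by
      have : 0 < ‖w₁ 1 - w₂ 0‖ * ‖w₁ 1 - w₂ 0‖ := mul_pos hdiff hdiff
      nlinarith
    exact lt_of_pow_lt_pow_left₀ 2 (by positivity) h3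
  -- limits
  have hδ : Tendsto (fun δ : ℝ => δ) (𝓝[>] 0) (𝓝 0) := nhdsWithin_le_nhds
  have hpos : ∀ᶠ δ : ℝ in 𝓝[>] 0, 0 < δ := self_mem_nhdsWithin
  have hT1 := h1.left_tangent zero_lt_one
  have hT2 := h2.right_tangent zero_lt_one
  have hP : Tendsto (fun δ : ℝ => γ₁ (1 - δ)) (𝓝[>] 0) (𝓝 (γ₁ 1)) := by
    have h3 := hδ.smul hT1
    rw [zero_smul] at h3
    have h4 : Tendsto (fun δ : ℝ => γ₁ 1 - δ • δ⁻¹ • (γ₁ 1 - γ₁ (1 - δ))) (𝓝[>] 0)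
        (𝓝 (γ₁ 1 - 0)) := tendsto_const_nhds.sub h3
    rw [sub_zero] at h4
    refine h4.congr' ?_
    filter_upwards [hpos] with δ hδp
    rw [smul_smul, mul_inv_cancel₀ hδp.ne', one_smul, sub_sub_cancel]
  have hF : Tendsto (fun δ : ℝ => M.f (γ₁ (1 - δ))) (𝓝[>] 0) (𝓝 f0) := by
    have hc : ContinuousAt M.f (γ₁ 1) :=
      M.continuousOn_f.continuousAt (isOpen_ne.mem_nhds hq0)
    exact hc.tendsto.comp hP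
  have hD : Tendsto (fun δ : ℝ => δ⁻¹ • (γ₂ (0 + δ) - γ₁ (1 - δ))) (𝓝[>] 0)
      (𝓝 ((f0 ^ 2)⁻¹ • (w₁ 1 + w₂ 0))) := by
    have h3 := hT1.add hT2
    rw [← hq, ← smul_add] at h3
    refine h3.congr' ?_
    filter_upwards with δ
    rw [← smul_add]
    congr 1
    abel
  have hDn := hD.norm
  rw [norm_smul, norm_inv, norm_pow, Real.norm_of_nonneg hf0p.le] at hDn
  have hR : Tendsto (fun δ : ℝ => ‖γ₁ (1 - δ) - γ₂ (0 + δ)‖) (𝓝[>] 0) (𝓝 0) := by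
    have h3 := hδ.mul hDn
    rw [zero_mul] at h3
    refine h3.congr' ?_
    filter_upwards [hpos] with δ hδp
    rw [norm_smul, norm_inv, Real.norm_of_nonneg hδp.le, ← mul_assoc, mul_inv_cancel₀ hδp.ne',
      one_mul, norm_sub_rev]
  obtain ⟨C, hC, hell⟩ := ell_approx M
  have hG : Tendsto (fun δ : ℝ => (M.f (γ₁ (1 - δ)) + C * ‖γ₁ (1 - δ) - γ₂ (0 + δ)‖) *
      ‖δ⁻¹ • (γ₂ (0 + δ) - γ₁ (1 - δ))‖) (𝓝[>] 0)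
      (𝓝 ((f0 + C * 0) * ((f0 ^ 2)⁻¹ * ‖w₁ 1 + w₂ 0‖))) :=
    (hF.add (hR.const_mul C)).mul hDn
  have hlim : (f0 + C * 0) * ((f0 ^ 2)⁻¹ * ‖w₁ 1 + w₂ 0‖) < 2 * s := by
    have h3 : (f0 + C * 0) * ((f0 ^ 2)⁻¹ * ‖w₁ 1 + w₂ 0‖) = ‖w₁ 1 + w₂ 0‖ / f0 := by
      field_simp
      ring
    rw [h3, div_lt_iff₀ hf0p]
    exact hsum
  have hlt1 : ∀ᶠ δ : ℝ in 𝓝[>] 0, δ < 1 := hδ.eventually (gt_mem_nhds zero_lt_one)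
  have hR1 : ∀ᶠ δ : ℝ in 𝓝[>] 0, ‖γ₁ (1 - δ) - γ₂ (0 + δ)‖ < 1 :=
    hR.eventually (gt_mem_nhds zero_lt_one)
  obtain ⟨δ, hδp, hδ1, hr1, hg⟩ := (hpos.and (hlt1.and (hR1.and (hG.eventually
    (gt_mem_nhds hlim))))).exists
  rw [zero_add] at hr1 hg
  have hmem1 : 1 - δ ∈ Icc (0:ℝ) 1 := ⟨by linarith, by linarith⟩
  have hmem2 : δ ∈ Icc (0:ℝ) 1 := ⟨hδp.le, hδ1.le⟩
  have hup := h1.unit _ hmem1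
  have hur := h2.unit _ hmem2
  have h3 : ell M (γ₁ (1 - δ)) (γ₂ δ) < 2 * s * δ := by
    have h4 := (abs_le.1 (hell _ _ hup hur hr1.le)).2
    have h5 : ell M (γ₁ (1 - δ)) (γ₂ δ) ≤
        (M.f (γ₁ (1 - δ)) + C * ‖γ₁ (1 - δ) - γ₂ δ‖) * ‖γ₁ (1 - δ) - γ₂ δ‖ := by
      have h6 : (M.f (γ₁ (1 - δ)) + C * ‖γ₁ (1 - δ) - γ₂ δ‖) * ‖γ₁ (1 - δ) - γ₂ δ‖ =
        M.f (γ₁ (1 - δ)) * ‖γ₁ (1 - δ) - γ₂ δ‖ + C * ‖γ₁ (1 - δ) - γ₂ δ‖ ^ 2 := by ring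
      linarith
    have h7 : ‖δ⁻¹ • (γ₂ δ - γ₁ (1 - δ))‖ = δ⁻¹ * ‖γ₁ (1 - δ) - γ₂ δ‖ := by
      rw [norm_smul, norm_inv, Real.norm_of_nonneg hδp.le, norm_sub_rev]
    rw [h7] at hg
    have h8 : (M.f (γ₁ (1 - δ)) + C * ‖γ₁ (1 - δ) - γ₂ δ‖) * ‖γ₁ (1 - δ) - γ₂ δ‖ < 2 * s * δ := by
      have h9 : (M.f (γ₁ (1 - δ)) + C * ‖γ₁ (1 - δ) - γ₂ δ‖) * ‖γ₁ (1 - δ) - γ₂ δ‖ =
        (M.f (γ₁ (1 - δ)) + C * ‖γ₁ (1 - δ) - γ₂ δ‖) * (δ⁻¹ * ‖γ₁ (1 - δ) - γ₂ δ‖) * δ := by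
        field_simp
      rw [h9]
      exact mul_lt_mul_of_pos_right hg hδp
    linarith
  have h4 : dist' M (γ₁ (1 - δ)) (γ₂ δ) ≤ ell M (γ₁ (1 - δ)) (γ₂ δ) :=
    dist'_le_ell M hup hur hr1.le
  have h5 := h1.dist_le s1 hs.le h01 hmem1 hmem1.1
  have h6 := h2.dist_le s2 hs.le hmem2 h11 hmem2.2
  have h7 := dist'_triangle M (h1.unit 0 h01) hup (h2.unit 1 h11)
  have h8 := dist'_triangle M hup hur (h2.unit 1 h11)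
  nlinarith

end CGA
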