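import Pool.Agent.CGA.AMet

/-! PROJECT CGA, module DEnA: derivative of the energy.

`en_hasDerivAt`: each summand `f(X_i) f(X_{i+1}) ‖X_{i+1} - X_i‖² / τ_i` has the derivative (`HasGradientAt` of `M.hasGradientAt`, chain rule with `X i`; `HasDerivAt.norm_sq`)
`⟪∇f(X_i), V_i⟫ f_{i+1} d_i²/τ_i + f_i ⟪∇f(X_{i+1}), V_{i+1}⟫ d_i²/τ_i + 2 ⟪MomC_i, V_{i+1} - V_i⟫` (`HasDerivAt.sum`, i.e. `HasDerivAt.fun_sum`).  Sum over `i` and replace the index `i` by `i - 1`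
in the terms with `V_{i+1}` (`Equiv.sum_comp (Equiv.addRight 1)`, `Equiv.subRight`; `Fin n` is an additive group for `NeZero n`, `sub_add_cancel`); then `inner_add_left`,
`inner_sub_left`, `inner_smul_left`, `ring`.
`hasDerivAt_nrm`: `nrm (x + s • v) = (√(1 + s² ‖v‖²))⁻¹ • (x + s • v)` for `‖x‖ = 1`, `⟪x, v⟫ = 0`; the derivative of the first factor at `0` is `0`.
`en_cont_X`: finite sum of continuous functions (`M.continuousOn_f`).
-/

set_option linter.all false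

namespace CGA

open scoped RealInnerProductSpace Real Topology
open MeasureTheory Set Filter

private theorem dena_f (M : Met) {γ : ℝ → E} {v : E} {s₀ : ℝ} (h : HasDerivAt γ v s₀)
    (h0 : γ s₀ ≠ 0) : HasDerivAt (fun s => M.f (γ s)) ⟪gradient M.f (γ s₀), v⟫ s₀ := by
  exact (M.hasGradientAt h0).hasFDerivAt.comp_hasDerivAt s₀ h

theorem en_hasDerivAt (M : Met) {n : ℕ} [NeZero n] (τ : Fin n → ℝ) (X : ℝ → Fin n → E)
    (V : Fin n → E) (s₀ : ℝ) (hX : ∀ i, HasDerivAt (fun s => X s i) (V i) s₀)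
    (h0 : ∀ i, X s₀ i ≠ 0) :
    HasDerivAt (fun s => En M τ (X s)) (∑ i, ⟪GrC M τ (X s₀) i, V i⟫) s₀ := by
  have hterm : ∀ i, HasDerivAt
      (fun s => M.f (X s i) * M.f (X s (i + 1)) * ‖X s (i + 1) - X s i‖ ^ 2 / τ i)
      (((⟪gradient M.f (X s₀ i), V i⟫ * M.f (X s₀ (i + 1)) +
        M.f (X s₀ i) * ⟪gradient M.f (X s₀ (i + 1)), V (i + 1)⟫) * ‖X s₀ (i + 1) - X s₀ i‖ ^ 2 +
        M.f (X s₀ i) * M.f (X s₀ (i + 1)) *
          (2 * ⟪X s₀ (i + 1) - X s₀ i, V (i + 1) - V i⟫)) / τ i) s₀ := by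
    intro i
    exact (((dena_f M (hX i) (h0 i)).mul (dena_f M (hX (i + 1)) (h0 (i + 1)))).mul
      ((hX (i + 1)).sub (hX i)).norm_sq).div_const (τ i)
  have hsum := HasDerivAt.fun_sum (u := Finset.univ) fun i _ => hterm i
  have hEn : (fun s => En M τ (X s)) = fun s => ∑ i, M.f (X s i) * M.f (X s (i + 1)) *
      ‖X s (i + 1) - X s i‖ ^ 2 / τ i := rfl
  rw [hEn]
  refine HasDerivAt.congr_deriv hsum ?_
  obtain ⟨b, hb⟩ : ∃ b : Fin n → ℝ, b = fun i =>
      M.f (X s₀ i) * ⟪gradient M.f (X s₀ (i + 1)), V (i + 1)⟫ *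
        ‖X s₀ (i + 1) - X s₀ i‖ ^ 2 / τ i + 2 * ⟪MomC M τ (X s₀) i, V (i + 1)⟫ := ⟨_, rfl⟩
  have hshift : ∑ i, b (i - 1) = ∑ i, b i := Equiv.sum_comp (Equiv.subRight (1 : Fin n)) b
  have hl : ∀ i, ⟪GrC M τ (X s₀) i, V i⟫ =
      (⟪gradient M.f (X s₀ i), V i⟫ * M.f (X s₀ (i + 1)) * ‖X s₀ (i + 1) - X s₀ i‖ ^ 2 / τ i -
        2 * ⟪MomC M τ (X s₀) i, V i⟫) + b (i - 1) := by
    intro i
    rw [hb]
    simp only [sub_add_cancel]
    unfold GrC
    rw [inner_add_left, inner_smul_left, inner_smul_left, inner_sub_left]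
    simp only [conj_trivial]
    ring
  have hr : ∀ i, (((⟪gradient M.f (X s₀ i), V i⟫ * M.f (X s₀ (i + 1)) +
        M.f (X s₀ i) * ⟪gradient M.f (X s₀ (i + 1)), V (i + 1)⟫) * ‖X s₀ (i + 1) - X s₀ i‖ ^ 2 +
        M.f (X s₀ i) * M.f (X s₀ (i + 1)) *
          (2 * ⟪X s₀ (i + 1) - X s₀ i, V (i + 1) - V i⟫)) / τ i) =
      (⟪gradient M.f (X s₀ i), V i⟫ * M.f (X s₀ (i + 1)) * ‖X s₀ (i + 1) - X s₀ i‖ ^ 2 / τ i -
        2 * ⟪MomC M τ (X s₀) i, V i⟫) + b i := by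
    intro i
    rw [hb]
    simp only [MomC, inner_smul_left, inner_sub_left, inner_sub_right, conj_trivial]
    ring
  rw [Finset.sum_congr rfl fun i _ => hl i, Finset.sum_congr rfl fun i _ => hr i,
    Finset.sum_add_distrib, Finset.sum_add_distrib, hshift]

private theorem dena_ne {x v : E} (hx : ‖x‖ = 1) (hv : ⟪x, v⟫ = 0) (s : ℝ) : x + s • v ≠ 0 := by
  intro h
  have h1 : ⟪x, x + s • v⟫ = 1 := by
    rw [inner_add_right, inner_smul_right, hv, real_inner_self_eq_norm_sq, hx]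
    ring
  rw [h, inner_zero_right] at h1
  exact zero_ne_one h1

theorem hasDerivAt_nrm {x v : E} (hx : ‖x‖ = 1) (hv : ⟪x, v⟫ = 0) :
    HasDerivAt (fun s : ℝ => nrm (x + s • v)) v 0 ∧ (∀ s : ℝ, ‖nrm (x + s • v)‖ = 1) ∧
      Continuous (fun s : ℝ => nrm (x + s • v)) := by
  have hne := dena_ne hx hv
  refine ⟨?_, fun s => norm_nrm (hne s), ?_⟩
  · have h1 : HasDerivAt (fun s : ℝ => x + s • v) v 0 := by
      have := ((hasDerivAt_id (0 : ℝ)).smul_const v).const_add x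
      simpa using this
    have h2 : HasDerivAt (fun s : ℝ => ‖x + s • v‖ ^ 2) 0 0 := by
      have := h1.norm_sq
      simpa [hv] using this
    have h3 : HasDerivAt (fun s : ℝ => ‖x + s • v‖) 0 0 := by
      have h4 := h2.sqrt (by simp [hx])
      have h5 : (fun s : ℝ => √(‖x + s • v‖ ^ 2)) = fun s : ℝ => ‖x + s • v‖ := by
        funext s
        exact Real.sqrt_sq (norm_nonneg _)
      rw [h5] at h4
      simpa using h4
    have h6 : HasDerivAt (fun s : ℝ => ‖x + s • v‖⁻¹) 0 0 := by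
      have := h3.inv (by simp [hx])
      rw [neg_zero, zero_div] at this
      exact this
    have h7 := h6.smul h1
    have e : ‖x + (0 : ℝ) • v‖⁻¹ • v + (0 : ℝ) • (x + (0 : ℝ) • v) = v := by simp [hx]
    rw [e] at h7
    exact h7
  · exact continuousOn_nrm.comp_continuous (by fun_prop) fun s => hne s

theorem en_cont_X (M : Met) {n : ℕ} [NeZero n] (τ : Fin n → ℝ) :
    ContinuousOn (fun X : Fin n → E => En M τ X) {X | ∀ i, X i ≠ 0} := by
  unfold En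
  refine continuousOn_finset_sum _ fun i _ => ?_
  have h1 : ∀ j, ContinuousOn (fun X : Fin n → E => M.f (X j)) {X | ∀ i, X i ≠ 0} := fun j =>
    M.continuousOn_f.comp (continuous_apply j).continuousOn fun X hX => hX j
  have h2 : ContinuousOn (fun X : Fin n → E => ‖X (i + 1) - X i‖ ^ 2) {X | ∀ i, X i ≠ 0} := by
    fun_prop
  exact (((h1 i).mul (h1 (i + 1))).mul h2).div_const _

theorem en_nonneg (M : Met) {n : ℕ} [NeZero n] {τ : Fin n → ℝ} (hτ : ∀ i, 0 < τ i) (X : Fin n → E)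
    (hX : ∀ i, ‖X i‖ = 1) : 0 ≤ En M τ X := by
  have h0 : ∀ i, X i ≠ 0 := by
    intro i h
    have := hX i
    rw [h, norm_zero] at this
    exact zero_ne_one this
  unfold En
  refine Finset.sum_nonneg fun i _ => ?_
  have h1 := M.pos _ (h0 i)
  have h2 := M.pos _ (h0 (i + 1))
  have h3 := hτ i
  positivity

end CGA
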