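import Pool.Agent.CGA.DEnA
import Pool.Agent.CGA.AEllB

/-! PROJECT CGA, module DEnB: energy and length.  `ch X i = √(f(X_i) f(X_{i+1})) ‖X_{i+1} - X_i‖`, so `En = ∑ ch_i² / τ_i`.

`en_eq_ch`: `Real.sq_sqrt`.
`sum_ch_le`: Cauchy-Schwarz `(∑ ch_i)² = (∑ (ch_i/√τ_i) √τ_i)² ≤ (∑ ch_i²/τ_i)(∑ τ_i)` (`Finset.sum_mul_sq_le_sq_mul_sq`, or `Finset.sum_sq_le_sum_mul_sum_of_sq_eq_mul`,
`Finset.inner_mul_le_norm_mul_norm`), `Real.le_sqrt`.
`en_edge_le`: `m² d_i² ≤ ch_i² ≤ τ_i En ≤ δ En` (a single term of the sum of nonnegative terms), square roots.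
`en_dist_base`: `m ‖X i - X 0‖ ≤ m ∑_{j < i} ‖X (j+1) - X j‖ ≤ ∑ ch ≤ √En`: induction on `i.val` gives
`‖X i - X 0‖ ≤ ∑_{j : Fin (n+1), j.val < i.val} ‖X (j + 1) - X j‖` (or `dist_le_range_sum_dist` for the sequence `k ↦ X (Fin.ofNat (n+1) k)` and `Finset.sum_range`).
`ell_sum_le`: `ell_chord` edge by edge: if all edges are `≤ μ ≤ 1` then `ell ≤ (1 + C μ) ch`.  `ch_sum_le` the same in the other direction.
`en_time`: `c_i = ch X i ≤ F η`, `S = ∑ c_i`, `τ_i = (c_i + ε/(n+1)) / (S + ε)`; `∑ τ_i = 1`; `τ_i ≤ (F η + ε/(n+1))/ε`;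
`En = (S + ε) ∑ c_i²/(c_i + ε/(n+1)) ≤ (S + ε) S ≤ (S + ε)²`.
-/

set_option linter.all false

namespace CGA

open scoped RealInnerProductSpace Real Topology
open MeasureTheory Set Filter

/-- chord -/
noncomputable def ch (M : Met) {n : ℕ} [NeZero n] (X : Fin n → E) (i : Fin n) : ℝ :=
  √(M.f (X i) * M.f (X (i + 1))) * ‖X (i + 1) - X i‖

private theorem DEnB_ne {x : E} (h : ‖x‖ = 1) : x ≠ 0 := by
  intro h0
  rw [h0, norm_zero] at h
  exact zero_ne_one h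

private theorem DEnB_nonneg (M : Met) {n : ℕ} [NeZero n] (X : Fin n → E) (i : Fin n) :
    0 ≤ ch M X i := mul_nonneg (Real.sqrt_nonneg _) (norm_nonneg _)

private theorem DEnB_sq (M : Met) {n : ℕ} [NeZero n] (X : Fin n → E) (hX : ∀ i, ‖X i‖ = 1)
    (i : Fin n) : ch M X i ^ 2 = M.f (X i) * M.f (X (i + 1)) * ‖X (i + 1) - X i‖ ^ 2 := by
  unfold ch
  rw [mul_pow, Real.sq_sqrt]
  exact mul_nonneg (M.pos _ (DEnB_ne (hX i))).le (M.pos _ (DEnB_ne (hX (i + 1)))).le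

theorem en_eq_ch (M : Met) {n : ℕ} [NeZero n] (τ : Fin n → ℝ) (X : Fin n → E)
    (hX : ∀ i, ‖X i‖ = 1) : En M τ X = ∑ i, ch M X i ^ 2 / τ i := by
  unfold En
  refine Finset.sum_congr rfl fun i _ => ?_
  rw [DEnB_sq M X hX i]

theorem sum_ch_le (M : Met) {n : ℕ} [NeZero n] {τ : Fin n → ℝ} (hτ : ∀ i, 0 < τ i)
    (h1 : ∑ i, τ i = 1) (X : Fin n → E) (hX : ∀ i, ‖X i‖ = 1) :
    ∑ i, ch M X i ≤ √(En M τ X) := by
  refine Real.le_sqrt_of_sq_le ?_
  rw [en_eq_ch M τ X hX]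
  have h := Finset.sum_sq_le_sum_mul_sum_of_sq_eq_mul Finset.univ (r := fun i => ch M X i)
    (f := fun i => ch M X i ^ 2 / τ i) (g := τ) (fun i _ => by have := hτ i; positivity)
    (fun i _ => (hτ i).le) (fun i _ => by have := (hτ i).ne'; field_simp)
  rw [h1, mul_one] at h
  exact h

private theorem DEnB_single (M : Met) {n : ℕ} [NeZero n] {τ : Fin n → ℝ} (hτ : ∀ i, 0 < τ i)
    (X : Fin n → E) (hX : ∀ i, ‖X i‖ = 1) (i : Fin n) : ch M X i ^ 2 / τ i ≤ En M τ X := by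
  rw [en_eq_ch M τ X hX]
  exact Finset.single_le_sum (f := fun i => ch M X i ^ 2 / τ i)
    (fun j _ => by have := hτ j; positivity) (Finset.mem_univ i)

theorem en_edge_le (M : Met) {m : ℝ} (hm : 0 < m) (hf : ∀ x : E, ‖x‖ = 1 → m ≤ M.f x) {n : ℕ}
    [NeZero n] {τ : Fin n → ℝ} {δ : ℝ} (hτ : ∀ i, 0 < τ i) (hτδ : ∀ i, τ i ≤ δ) (X : Fin n → E)
    (hX : ∀ i, ‖X i‖ = 1) (i : Fin n) : m * ‖X (i + 1) - X i‖ ≤ √δ * √(En M τ X) := by
  have hδ : 0 ≤ δ := (hτ i).le.trans (hτδ i)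
  rw [← Real.sqrt_mul hδ]
  refine Real.le_sqrt_of_sq_le ?_
  have h1 := DEnB_single M hτ X hX i
  rw [div_le_iff₀ (hτ i)] at h1
  have hE : 0 ≤ En M τ X := by
    have h2 := DEnB_single M hτ X hX i
    have h3 : 0 ≤ ch M X i ^ 2 / τ i := by have := hτ i; positivity
    exact h3.trans h2
  have h2 : En M τ X * τ i ≤ δ * En M τ X := by
    rw [mul_comm]
    exact mul_le_mul_of_nonneg_right (hτδ i) hE
  rw [DEnB_sq M X hX i] at h1
  refine le_trans ?_ (h1.trans h2)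
  rw [mul_pow]
  refine mul_le_mul_of_nonneg_right ?_ (by positivity)
  have ha := hf _ (hX i)
  have hb := hf _ (hX (i + 1))
  nlinarith

private theorem DEnB_ch_ge (M : Met) {m : ℝ} (hm : 0 < m) (hf : ∀ x : E, ‖x‖ = 1 → m ≤ M.f x)
    {n : ℕ} [NeZero n] (X : Fin n → E) (hX : ∀ i, ‖X i‖ = 1) (i : Fin n) :
    m * ‖X (i + 1) - X i‖ ≤ ch M X i := by
  unfold ch
  refine mul_le_mul_of_nonneg_right ?_ (norm_nonneg _)
  refine Real.le_sqrt_of_sq_le ?_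
  have ha := hf _ (hX i)
  have hb := hf _ (hX (i + 1))
  nlinarith

theorem en_dist_base (M : Met) {m : ℝ} (hm : 0 < m) (hf : ∀ x : E, ‖x‖ = 1 → m ≤ M.f x) {n : ℕ}
    [NeZero n] {τ : Fin n → ℝ} (hτ : ∀ i, 0 < τ i) (h1 : ∑ i, τ i = 1) (X : Fin n → E)
    (hX : ∀ i, ‖X i‖ = 1) (i : Fin n) : m * ‖X i - X 0‖ ≤ √(En M τ X) := by
  refine le_trans ?_ (sum_ch_le M hτ h1 X hX)
  have h2 : ‖X i - X 0‖ ≤ ∑ j : Fin n, ‖X (j + 1) - X j‖ := by
    have h3 := dist_le_range_sum_dist (fun k : ℕ => X (Fin.ofNat n k)) i.val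
    have h4 : Fin.ofNat n i.val = i := by
      apply Fin.ext
      simp [Fin.ofNat, Nat.mod_eq_of_lt i.isLt]
    have h5 : Fin.ofNat n 0 = 0 := rfl
    simp only [h4, h5] at h3
    rw [dist_comm, dist_eq_norm] at h3
    refine h3.trans ?_
    have h6 : ∑ k ∈ Finset.range i.val, dist (X (Fin.ofNat n k)) (X (Fin.ofNat n (k + 1))) ≤
        ∑ k ∈ Finset.range n, dist (X (Fin.ofNat n k)) (X (Fin.ofNat n (k + 1))) := by
      refine Finset.sum_le_sum_of_subset_of_nonneg ?_ (fun _ _ _ => dist_nonneg)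
      exact Finset.range_subset_range.2 i.isLt.le
    refine h6.trans ?_
    rw [Finset.sum_range]
    refine Finset.sum_le_sum fun j _ => ?_
    have h7 : Fin.ofNat n j.val = j := by
      apply Fin.ext
      simp [Fin.ofNat, Nat.mod_eq_of_lt j.isLt]
    have h8 : Fin.ofNat n (j.val + 1) = j + 1 := by
      apply Fin.ext
      rw [Fin.val_add]
      simp [Fin.ofNat]
    rw [h7, h8, dist_comm, dist_eq_norm]
  calc m * ‖X i - X 0‖ ≤ m * ∑ j : Fin n, ‖X (j + 1) - X j‖ :=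
        mul_le_mul_of_nonneg_left h2 hm.le
    _ = ∑ j : Fin n, m * ‖X (j + 1) - X j‖ := Finset.mul_sum _ _ _
    _ ≤ ∑ j, ch M X j := Finset.sum_le_sum fun j _ => DEnB_ch_ge M hm hf X hX j

theorem ell_sum_le (M : Met) : ∃ C > 0, ∀ (n : ℕ) [NeZero n] (X : Fin n → E) (μ : ℝ),
    (∀ i, ‖X i‖ = 1) → μ ≤ 1 → (∀ i, ‖X (i + 1) - X i‖ ≤ μ) →
      ∑ i, ell M (X i) (X (i + 1)) ≤ (1 + C * μ) * ∑ i, ch M X i ∧
      ∑ i, ch M X i ≤ (1 + C * μ) * ∑ i, ell M (X i) (X (i + 1)) := by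
  obtain ⟨C, hC, hE⟩ := ell_chord M
  refine ⟨C, hC, fun n _ X μ hX hμ hd => ?_⟩
  have key : ∀ i, ell M (X i) (X (i + 1)) ≤ (1 + C * μ) * ch M X i ∧
      ch M X i ≤ (1 + C * μ) * ell M (X i) (X (i + 1)) := by
    intro i
    have h0 : ‖X i - X (i + 1)‖ ≤ μ := by
      rw [norm_sub_rev]
      exact hd i
    obtain ⟨-, h1, h2⟩ := hE (X i) (X (i + 1)) (hX i) (hX (i + 1)) (h0.trans hμ)
    have h3 : √(M.f (X i) * M.f (X (i + 1))) * ‖X i - X (i + 1)‖ = ch M X i := by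
      unfold ch
      rw [norm_sub_rev]
    rw [h3] at h1 h2
    have h4 := DEnB_nonneg M X i
    have h5 := norm_nonneg (X i - X (i + 1))
    have h6 : C * ‖X i - X (i + 1)‖ ≤ C * μ := mul_le_mul_of_nonneg_left h0 hC.le
    have h7 : 0 ≤ C * ‖X i - X (i + 1)‖ := mul_nonneg hC.le h5
    have h8 : 0 ≤ ell M (X i) (X (i + 1)) := by
      by_contra h
      push Not at h
      nlinarith
    constructor
    · refine h2.trans ?_
      exact mul_le_mul_of_nonneg_right (by linarith) h4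
    · refine h1.trans ?_
      exact mul_le_mul_of_nonneg_right (by linarith) h8
  rw [Finset.mul_sum, Finset.mul_sum]
  exact ⟨Finset.sum_le_sum fun i _ => (key i).1, Finset.sum_le_sum fun i _ => (key i).2⟩

theorem en_time (M : Met) {F : ℝ} (hf : ∀ x : E, ‖x‖ = 1 → M.f x ≤ F) {n : ℕ} [NeZero n]
    (X : Fin n → E) (hX : ∀ i, ‖X i‖ = 1) {η ε : ℝ} (hη : ∀ i, ‖X (i + 1) - X i‖ ≤ η)
    (hε : 0 < ε) :
    ∃ τ : Fin n → ℝ, (∀ i, 0 < τ i) ∧ (∀ i, τ i ≤ F * η / ε + 1 / n) ∧ ∑ i, τ i = 1 ∧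
      √(En M τ X) ≤ ∑ i, ch M X i + ε := by
  have hn : (0 : ℝ) < n := by
    exact_mod_cast Nat.pos_of_ne_zero (NeZero.ne n)
  have hc : ∀ i, 0 ≤ ch M X i := DEnB_nonneg M X
  have hS : 0 ≤ ∑ i, ch M X i := Finset.sum_nonneg fun i _ => hc i
  have hcF : ∀ i, ch M X i ≤ F * η := by
    intro i
    have ha := hf _ (hX i)
    have hb := hf _ (hX (i + 1))
    have ha0 := M.pos _ (DEnB_ne (hX i))
    have hb0 := M.pos _ (DEnB_ne (hX (i + 1)))
    have h1 : √(M.f (X i) * M.f (X (i + 1))) ≤ F := by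
      rw [Real.sqrt_le_left (by linarith)]
      nlinarith
    unfold ch
    exact mul_le_mul h1 (hη i) (norm_nonneg _) (by linarith)
  set S := ∑ i, ch M X i with hSdef
  have hSε : 0 < S + ε := by linarith
  have hεn : 0 < ε / n := div_pos hε hn
  have hpos : ∀ i, 0 < ch M X i + ε / n := fun i => by have := hc i; linarith
  refine ⟨fun i => (ch M X i + ε / n) / (S + ε), fun i => div_pos (hpos i) hSε, fun i => ?_, ?_, ?_⟩
  · have h1 : (ch M X i + ε / n) / (S + ε) ≤ (ch M X i + ε / n) / ε :=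
      div_le_div_of_nonneg_left (hpos i).le hε (by linarith)
    have h2 : (ch M X i + ε / n) / ε = ch M X i / ε + 1 / n := by
      field_simp
    have h3 : ch M X i / ε ≤ F * η / ε := div_le_div_of_nonneg_right (hcF i) hε.le
    linarith
  · rw [← Finset.sum_div, Finset.sum_add_distrib, ← hSdef]
    have h1 : ∑ i : Fin n, ε / (n : ℝ) = ε := by
      rw [Finset.sum_const, Finset.card_univ, Fintype.card_fin, nsmul_eq_mul]
      field_simp
    rw [h1, div_self hSε.ne']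
  · have h1 : √(En M (fun i => (ch M X i + ε / n) / (S + ε)) X) ≤ √((S + ε) ^ 2) := by
      apply Real.sqrt_le_sqrt
      rw [en_eq_ch M _ X hX]
      have h2 : ∀ i, ch M X i ^ 2 / ((ch M X i + ε / n) / (S + ε)) ≤ (S + ε) * ch M X i := by
        intro i
        have h3 := hpos i
        rw [div_div_eq_mul_div, div_le_iff₀ h3]
        have h4 := hc i
        have h5 : 0 ≤ ch M X i * (S + ε) * (ε / n) := by positivity
        nlinarith
      have h6 := Finset.sum_le_sum fun i (_ : i ∈ Finset.univ) => h2 i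
      rw [← Finset.mul_sum, ← hSdef] at h6
      refine h6.trans ?_
      nlinarith
    rwa [Real.sqrt_sq hSε.le] at h1

end CGA
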