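import Pool.Agent.CGA.C1Cl
import Pool.Agent.CGA.AVec

/-! PROJECT CGA, module DVec: four unit vectors in a plane; two loops make a closed geodesic.

`four_vectors`: `‖a + b‖² = 2 + 2⟪a,b⟫`, so `⟪a,b⟫ = ⟪a',b'⟫`.  If `a + b = 0` the third case holds.  Let `s = a + b ≠ 0`, `c = crs q s`: `c ⟂ q, s`, `‖c‖ = ‖s‖ ≠ 0` (`norm_crs_sq`).  The vectors `u = a - b`, `u' = a' - b'` are
orthogonal to `q` and to `s` (`⟪a - b, a + b⟫ = 0`), so `u = k c`, `u' = k' c`: from `crs_eq_smul` or: `crs q (crs q s) = -s` (`crs_crs`), the vector `‖c‖² u - ⟪u, c⟫ c` is orthogonal to `q, s, c`; by `cramer` for `q, s, c`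
(`det3 q s c = ‖c‖² ≠ 0`) a vector orthogonal to all three is `0`.  `‖u‖² = 2 - 2⟪a,b⟫ = ‖u'‖²`, so `k² = k'²`, `u' = ± u`: `a' - b' = a - b` gives `a' = a`, `b' = b`; `a' - b' = b - a` gives
`a' = b`, `b' = a`.

`loops`: unit speed versions: `α t = γ (t/A)`, `p t = A⁻¹ • w (t/A)` on `[0, A]` (`sol_scale` with `c = A⁻¹`), the same for `η, ω` on `[0, B]`; end values `p 0 = A⁻¹ • w 0`, `p A = A⁻¹ • w 1`.
Case (2) `A⁻¹ • w 1 = B⁻¹ • ω 0` and `B⁻¹ • ω 1 = A⁻¹ • w 0`: `sol_shift`, `sol_concat` on `[0, A]`, `[A, A + B]` and `closedGeo_of_sol` with `T = A + B`, `s = 1`.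
Case (3): reverse the first loop: `sol_rev`, `sol_shift`: a solution on `[0, A]` with momentum `- A⁻¹ • w 1` at `0` and `- A⁻¹ • w 0` at `A`; then as before.
-/

set_option linter.all false

namespace CGA

open scoped RealInnerProductSpace Real Topology
open MeasureTheory Set Filter

private theorem DVec_triple (u q s : E) : crs u (crs q s) = ⟪u, s⟫ • q - ⟪u, q⟫ • s := by
  ext i
  rw [inner3, inner3]
  fin_cases i <;> simp [crs] <;> ring

private theorem DVec_par {c u : E} (h : crs u c = 0) : ‖c‖ ^ 2 • u = ⟪c, u⟫ • c := by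
  have h1 := crs_crs c u
  rw [crs_swap u c, h, neg_zero] at h1
  have h2 : crs c (0 : E) = 0 := by
    have := crs_lin2 0 0 c 0 0
    simpa using this
  rw [h2] at h1
  exact (sub_eq_zero.1 h1.symm).symm

theorem four_vectors {q a a' b b' : E} (hq : ‖q‖ = 1) (ha : ‖a‖ = 1) (ha' : ‖a'‖ = 1)
    (hb : ‖b‖ = 1) (hb' : ‖b'‖ = 1) (qa : ⟪q, a⟫ = 0) (qa' : ⟪q, a'⟫ = 0) (qb : ⟪q, b⟫ = 0)
    (qb' : ⟪q, b'⟫ = 0) (h : a' - a + (b' - b) = 0) :
    (a' = a ∧ b' = b) ∨ (a' = b ∧ b' = a) ∨ (b = - a ∧ b' = - a') := by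
  have hs : a + b = a' + b' := by
    have h1 : a' - a + (b' - b) = (a' + b') - (a + b) := by abel
    rw [h1] at h
    exact (sub_eq_zero.1 h).symm
  by_cases hs0 : a + b = 0
  · right; right
    refine ⟨(neg_eq_of_add_eq_zero_right hs0).symm, (neg_eq_of_add_eq_zero_right ?_).symm⟩
    rw [← hs, hs0]
  obtain ⟨s, hsd⟩ : ∃ s, s = a + b := ⟨_, rfl⟩
  obtain ⟨c, hc⟩ : ∃ c, c = crs q s := ⟨_, rfl⟩
  have naa : ⟪a, a⟫ = 1 := by rw [real_inner_self_eq_norm_sq, ha, one_pow]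
  have nbb : ⟪b, b⟫ = 1 := by rw [real_inner_self_eq_norm_sq, hb, one_pow]
  have naa' : ⟪a', a'⟫ = 1 := by rw [real_inner_self_eq_norm_sq, ha', one_pow]
  have nbb' : ⟪b', b'⟫ = 1 := by rw [real_inner_self_eq_norm_sq, hb', one_pow]
  have hs' : s = a' + b' := by rw [hsd, hs]
  have qs : ⟪q, s⟫ = 0 := by rw [hsd, inner_add_right, qa, qb, add_zero]
  have us : ⟪a - b, s⟫ = 0 := by
    rw [hsd, inner_sub_left, inner_add_right, inner_add_right, naa, nbb, real_inner_comm b a]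
    ring
  have us' : ⟪a' - b', s⟫ = 0 := by
    rw [hs', inner_sub_left, inner_add_right, inner_add_right, naa', nbb', real_inner_comm b' a']
    ring
  have uq : ⟪a - b, q⟫ = 0 := by
    rw [real_inner_comm, inner_sub_right, qa, qb, sub_zero]
  have uq' : ⟪a' - b', q⟫ = 0 := by
    rw [real_inner_comm, inner_sub_right, qa', qb', sub_zero]
  have uc : crs (a - b) c = 0 := by
    rw [hc, DVec_triple, us, uq, zero_smul, zero_smul, sub_zero]
  have uc' : crs (a' - b') c = 0 := by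
    rw [hc, DVec_triple, us', uq', zero_smul, zero_smul, sub_zero]
  have s0 : s ≠ 0 := by rw [hsd]; exact hs0
  have nc : ‖c‖ ^ 2 = ‖s‖ ^ 2 := by
    rw [hc, norm_crs_sq, hq, qs]
    ring
  have c0 : ‖c‖ ^ 2 ≠ 0 := by
    rw [nc]
    exact pow_ne_zero 2 (norm_ne_zero_iff.2 s0)
  have e1 := DVec_par uc
  have e2 := DVec_par uc'
  have f1 := norm_crs_sq (a - b) c
  have f2 := norm_crs_sq (a' - b') c
  rw [uc, norm_zero] at f1
  rw [uc', norm_zero] at f2
  have n1 : ‖a - b‖ ^ 2 + ‖s‖ ^ 2 = 4 := by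
    rw [hsd, ← real_inner_self_eq_norm_sq, ← real_inner_self_eq_norm_sq, inner_sub_left,
      inner_sub_right, inner_sub_right, inner_add_left, inner_add_right, inner_add_right, naa, nbb]
    ring
  have n2 : ‖a' - b'‖ ^ 2 + ‖s‖ ^ 2 = 4 := by
    rw [hs', ← real_inner_self_eq_norm_sq, ← real_inner_self_eq_norm_sq, inner_sub_left,
      inner_sub_right, inner_sub_right, inner_add_left, inner_add_right, inner_add_right,
      naa', nbb']
    ring
  have n3 : ‖a - b‖ ^ 2 = ‖a' - b'‖ ^ 2 := by linarith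
  have n4 : ⟪a - b, c⟫ ^ 2 = ⟪a' - b', c⟫ ^ 2 := by
    rw [n3] at f1
    linarith
  have key : a - b = a' - b' ∨ a - b = -(a' - b') := by
    rcases sq_eq_sq_iff_eq_or_eq_neg.1 n4 with h5 | h5
    · left
      rw [real_inner_comm] at e1 e2
      refine smul_right_injective E c0 ?_
      simp only
      rw [e1, e2, h5]
    · right
      rw [real_inner_comm] at e1 e2
      refine smul_right_injective E c0 ?_
      simp only
      rw [smul_neg, e1, e2, h5, neg_smul]
  have two : ∀ x y : E, x + x = y + y → x = y := by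
    intro x y hxy
    have : (2:ℝ) • x = (2:ℝ) • y := by rw [two_smul, two_smul, hxy]
    exact smul_right_injective E (two_ne_zero) this
  rcases key with h6 | h6
  · left
    have h7 : a' = a := by
      apply two
      have : a' + a' = (a' + b') + (a' - b') := by abel
      rw [this, ← hs, ← h6]
      abel
    refine ⟨h7, ?_⟩
    rw [h7] at hs
    exact (add_left_cancel hs).symm
  · right; left
    have h7 : a' = b := by
      apply two
      have : a' + a' = (a' + b') + (a' - b') := by abel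
      have h8 : a' - b' = -(a - b) := by rw [h6, neg_neg]
      rw [this, ← hs, h8]
      abel
    refine ⟨h7, ?_⟩
    rw [h7, add_comm a b] at hs
    exact (add_left_cancel hs).symm

private theorem DVec_loops (M : Met) {A B : ℝ} (hA : 0 < A) (hB : 0 < B) {γ p η r : ℝ → E}
    (h : Sol M 0 A γ p) (h' : Sol M 0 B η r) (e1 : γ A = η 0) (e2 : η B = γ 0)
    (s0 : ‖p 0‖ = M.f (γ 0)) (c1 : p A = r 0) (c2 : r B = p 0) : ClosedGeo M (A + B) := by
  have h2 := sol_shift M A h'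
  rw [zero_add, add_comm B A] at h2
  have h3 := sol_concat M h h2 hA.le (by linarith) (by simp only [sub_self]; exact e1)
    (by simp only [sub_self]; exact c1)
  have hAB : ¬ (A + B ≤ A) := by linarith
  have h4 := closedGeo_of_sol M (T := A + B) (s := 1) (by linarith) one_pos h3
    (by
      simp only [if_neg hAB, if_pos hA.le, add_sub_cancel_left]
      exact e2)
    (by
      simp only [if_neg hAB, if_pos hA.le, add_sub_cancel_left]
      exact c2)
    (by
      simp only [if_pos hA.le, one_mul]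
      exact s0)
  rwa [one_mul] at h4

private theorem DVec_unit (M : Met) {A : ℝ} (hA : 0 < A) {γ w : ℝ → E} (h : Sol M 0 1 γ w) :
    Sol M 0 A (fun t => γ (A⁻¹ * t)) (fun t => A⁻¹ • w (A⁻¹ * t)) := by
  have h1 := sol_scale M (inv_pos.2 hA) h
  rwa [zero_div, one_div, inv_inv] at h1

/-- first loop followed by the second -/
theorem loops (M : Met) {A B : ℝ} (hA : 0 < A) (hB : 0 < B) {γ w η ω : ℝ → E}
    (h : Sol M 0 1 γ w) (h' : Sol M 0 1 η ω) (e1 : γ 1 = γ 0) (e2 : η 0 = γ 0) (e3 : η 1 = γ 0)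
    (sA : ‖w 0‖ = A * M.f (γ 0)) (c1 : A⁻¹ • w 1 = B⁻¹ • ω 0) (c2 : B⁻¹ • ω 1 = A⁻¹ • w 0) :
    ClosedGeo M (A + B) := by
  refine DVec_loops M hA hB (DVec_unit M hA h) (DVec_unit M hB h') ?_ ?_ ?_ ?_ ?_
  · simp only [inv_mul_cancel₀ hA.ne', mul_zero]
    rw [e1, e2]
  · simp only [inv_mul_cancel₀ hB.ne', mul_zero]
    exact e3
  · simp only [mul_zero]
    rw [norm_smul, sA, norm_inv, Real.norm_eq_abs, abs_of_pos hA, inv_mul_cancel_left₀ hA.ne']
  · simp only [inv_mul_cancel₀ hA.ne', mul_zero]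
    exact c1
  · simp only [inv_mul_cancel₀ hB.ne', mul_zero]
    exact c2

/-- first loop reversed, followed by the second -/
theorem loops_rev (M : Met) {A B : ℝ} (hA : 0 < A) (hB : 0 < B) {γ w η ω : ℝ → E}
    (h : Sol M 0 1 γ w) (h' : Sol M 0 1 η ω) (e1 : γ 1 = γ 0) (e2 : η 0 = γ 0) (e3 : η 1 = γ 0)
    (sA : ‖w 0‖ = A * M.f (γ 0)) (c1 : B⁻¹ • ω 0 = - A⁻¹ • w 0) (c2 : B⁻¹ • ω 1 = - A⁻¹ • w 1) :
    ClosedGeo M (A + B) := by
  have h1 := sol_shift M A (sol_rev M (DVec_unit M hA h))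
  rw [neg_add_cancel, neg_zero, zero_add] at h1
  have hne : γ 0 ≠ 0 := by
    intro h3
    have h4 := h.unit 0 ⟨le_rfl, zero_le_one⟩
    rw [h3, norm_zero] at h4
    exact zero_ne_one h4
  have hs := sol_speed M h (s := 1) (t := 0) ⟨zero_le_one, le_rfl⟩ ⟨le_rfl, zero_le_one⟩
  have hw1 : ‖w 1‖ = A * M.f (γ 0) := by
    rw [e1] at hs
    have hp := (M.pos _ hne).ne'
    have h6 := mul_right_cancel₀ hp hs
    rw [h6, sA]
  refine DVec_loops M hA hB h1 (DVec_unit M hB h') ?_ ?_ ?_ ?_ ?_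
  · simp only [sub_self, neg_zero, mul_zero]
    rw [e2]
  · simp only [inv_mul_cancel₀ hB.ne', zero_sub, neg_neg, inv_mul_cancel₀ hA.ne']
    rw [e3, e1]
  · simp only [zero_sub, neg_neg, inv_mul_cancel₀ hA.ne']
    rw [norm_neg, norm_smul, hw1, norm_inv, Real.norm_eq_abs, abs_of_pos hA,
      inv_mul_cancel_left₀ hA.ne', e1]
  · simp only [sub_self, neg_zero, mul_zero]
    rw [c1, neg_smul]
  · simp only [inv_mul_cancel₀ hB.ne', zero_sub, neg_neg, inv_mul_cancel₀ hA.ne']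
    rw [c2, neg_smul]

end CGA
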