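import Pool.Agent.CGA.DLim
import Pool.Agent.CGA.DVec

/-! PROJECT CGA, module DFin: additivity of the lift on bouquets (chunk D).

PROOF.  Otherwise `bq_limit`.  Let `q = γ 0`, `f = M.f q > 0`, `a = (A f)⁻¹ • w 0`, `a' = (A f)⁻¹ • w 1`, `b = (B f)⁻¹ • ω 0`, `b' = (B f)⁻¹ • ω 1`: unit vectors orthogonal to `q` (`sol_perp`).  The vector
`z = A⁻¹ • (w 1 - w 0) + B⁻¹ • (ω 1 - ω 0)` is orthogonal to `q`, so `⟪z, z⟫ = 0` by the last property for `v = z`, `z = 0`, and `a' - a + (b' - b) = f⁻¹ • z = 0`.  `four_vectors`: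
(1) `w 1 = w 0`: `closedGeo_of_sol` with `T = 1`, `s = A` gives `ClosedGeo M A`, `hN`: `L < A < L`, contradiction.  (2) `loops`, (3) `loops_rev` give `ClosedGeo M (A + B)`, `L < A + B < L`, contradiction.
-/

set_option linter.all false

namespace CGA

open scoped RealInnerProductSpace Real Topology
open MeasureTheory Set Filter

theorem bouquet (M : Met) {δ L : ℝ} (hδ : 0 < δ) (hδ' : δ ≤ 1) (hL : 0 < L) (hN : NoGeo M L)
    (Λ : Lift M δ L) : Λ.Bouquet := by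
  by_contra hBq
  obtain ⟨A, B, hA, hB, hAB, γ, w, η, ω, h1, h2, g1, g2, g3, n0, n1, m0, m1, hv⟩ :=
    bq_limit M hδ hδ' Λ hBq
  have h01 : (0:ℝ) < 1 := zero_lt_one
  have z0 : (0:ℝ) ∈ Icc (0:ℝ) 1 := ⟨le_rfl, zero_le_one⟩
  have z1 : (1:ℝ) ∈ Icc (0:ℝ) 1 := ⟨zero_le_one, le_rfl⟩
  have hq : ‖γ 0‖ = 1 := h1.unit 0 z0
  have hne : γ 0 ≠ 0 := by
    intro h
    rw [h, norm_zero] at hq
    exact zero_ne_one hq
  have hf := M.pos _ hne
  have p0 : ⟪γ 0, w 0⟫ = 0 := by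
    rw [real_inner_comm]
    exact sol_perp M h01 h1 z0
  have p1 : ⟪γ 0, w 1⟫ = 0 := by
    have h := sol_perp M h01 h1 z1
    rw [g1] at h
    rw [real_inner_comm]
    exact h
  have r0 : ⟪γ 0, ω 0⟫ = 0 := by
    have h := sol_perp M h01 h2 z0
    rw [g2] at h
    rw [real_inner_comm]
    exact h
  have r1 : ⟪γ 0, ω 1⟫ = 0 := by
    have h := sol_perp M h01 h2 z1
    rw [g3] at h
    rw [real_inner_comm]
    exact h
  have hz : A⁻¹ • (w 1 - w 0) + B⁻¹ • (ω 1 - ω 0) = 0 := by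
    have h := hv (A⁻¹ • (w 1 - w 0) + B⁻¹ • (ω 1 - ω 0)) (by
      rw [inner_add_right, real_inner_smul_right, real_inner_smul_right, inner_sub_right,
        inner_sub_right, p0, p1, r0, r1]
      ring)
    exact inner_self_eq_zero.1 h
  have hAf : 0 < A * M.f (γ 0) := mul_pos hA hf
  have hBf : 0 < B * M.f (γ 0) := mul_pos hB hf
  have nm : ∀ (c : ℝ) (v : E), 0 < c → ‖v‖ = c → ‖c⁻¹ • v‖ = 1 := by
    intro c v hc hv
    rw [norm_smul, hv, norm_inv, Real.norm_eq_abs, abs_of_pos hc, inv_mul_cancel₀ hc.ne']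
  have pp : ∀ (c : ℝ) (v : E), ⟪γ 0, v⟫ = 0 → ⟪γ 0, c⁻¹ • v⟫ = 0 := by
    intro c v hv
    rw [real_inner_smul_right, hv, mul_zero]
  have hsum : (A * M.f (γ 0))⁻¹ • w 1 - (A * M.f (γ 0))⁻¹ • w 0 +
      ((B * M.f (γ 0))⁻¹ • ω 1 - (B * M.f (γ 0))⁻¹ • ω 0) = 0 := by
    have h : (M.f (γ 0))⁻¹ • (A⁻¹ • (w 1 - w 0) + B⁻¹ • (ω 1 - ω 0)) = 0 := by
      rw [hz, smul_zero]
    rw [smul_add, smul_smul, smul_smul, smul_sub, smul_sub] at h
    rw [mul_inv, mul_inv, mul_comm A⁻¹, mul_comm B⁻¹]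
    exact h
  have cancel : ∀ (c d : ℝ) (v u : E), 0 < c → 0 < d →
      (c * M.f (γ 0))⁻¹ • v = (d * M.f (γ 0))⁻¹ • u → c⁻¹ • v = d⁻¹ • u := by
    intro c d v u hc hd h
    have h' : M.f (γ 0) • (c * M.f (γ 0))⁻¹ • v = M.f (γ 0) • (d * M.f (γ 0))⁻¹ • u := by
      rw [h]
    rw [smul_smul, smul_smul] at h'
    have e1 : M.f (γ 0) * (c * M.f (γ 0))⁻¹ = c⁻¹ := by
      field_simp
    have e2 : M.f (γ 0) * (d * M.f (γ 0))⁻¹ = d⁻¹ := by
      field_simp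
    rw [e1, e2] at h'
    exact h'
  rcases four_vectors hq (nm _ _ hAf n0) (nm _ _ hAf n1) (nm _ _ hBf m0) (nm _ _ hBf m1)
    (pp _ _ p0) (pp _ _ p1) (pp _ _ r0) (pp _ _ r1) hsum with ⟨e1, _⟩ | ⟨e1, e2⟩ | ⟨e1, e2⟩
  · have hw : w 1 = w 0 := by
      have h := smul_right_injective E (inv_ne_zero hAf.ne') e1
      exact h
    have hc := closedGeo_of_sol M h01 hA h1 g1 hw n0
    have h := hN _ (by rw [mul_one]; exact hA) hc
    rw [mul_one] at h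
    linarith
  · have hc := loops M hA hB h1 h2 g1 g2 g3 n0 (cancel _ _ _ _ hA hB e1) (cancel _ _ _ _ hB hA e2)
    have h := hN _ (add_pos hA hB) hc
    linarith
  · have k1 : B⁻¹ • ω 0 = - A⁻¹ • w 0 := by
      have h := cancel B A (ω 0) (- w 0) hB hA (by rw [e1, smul_neg])
      rw [h, smul_neg, neg_smul]
    have k2 : B⁻¹ • ω 1 = - A⁻¹ • w 1 := by
      have h := cancel B A (ω 1) (- w 1) hB hA (by rw [e2, smul_neg])
      rw [h, smul_neg, neg_smul]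
    have hc := loops_rev M hA hB h1 h2 g1 g2 g3 n0 k1 k2
    have h := hN _ (add_pos hA hB) hc
    linarith

end CGA
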