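import Pool.Agent.CGA.DRefA

/-! PROJECT CGA, module DJ: the defect of additivity on bouquets.

`Cf n m`: pairs of closed polygons with `n + 1` and `m + 1` vertices.  `FineP`: common base point and fine as one polygon.
`JP_int`: `List.ofFn_succ` writes both lists as `x :: _`, with the same `x`.  By `Bg_join` `Bg (l₁ ++ l₂) = Bg l₁ * Bg l₂`, by `Lift.hol` (`FineL.left`, `FineL.right`)
`exp(2πi (I l₁ + I l₂)) ‖Bg (l₁ ++ l₂)‖ = Bg (l₁ ++ l₂) = exp (2πi I (l₁ ++ l₂)) ‖Bg (l₁ ++ l₂)‖`, and `Bg ≠ 0` (`FineL.Bg_ne_zero`), so the two exponentials are equal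
(`Complex.exp_eq_exp_iff_exists_int`).
`JP_cont`: `Lift.cont` three times, composed with the continuous maps `p ↦ Fin.append p.1 p.2` (`List.ofFn_fin_append`), `p.1`, `p.2`.
`JP_swap`: `fine_comm`.
`JP_const`: the image of a preconnected set under a continuous integer valued function is one point (`IsPreconnected.constant_of_mapsTo` or the intermediate value theorem).
`fineP_iff`: `List.ofFn_succ`, `cyc_join`, `cyc_ofFn`, `mass_add`, `mass_coe`; `llen M (List.ofFn g) = ∑ i, ell M (g i).1 (g i).2` (`List.sum_ofFn`, `List.map_ofFn`); membership in `List.ofFn`: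
`List.mem_ofFn`.
-/

set_option linter.all false

namespace CGA

open scoped RealInnerProductSpace Real Topology
open MeasureTheory Set Filter

/-- pairs of closed polygons -/
abbrev Cf (n m : ℕ) : Type := (Fin (n + 1) → E) × (Fin (m + 1) → E)

/-- fine bouquets -/
def FineP (M : Met) (δ L : ℝ) (n m : ℕ) : Set (Cf n m) :=
  {p | p.1 0 = p.2 0 ∧ FineL M δ L (List.ofFn p.1 ++ List.ofFn p.2)}

/-- defect of additivity of the lift -/
noncomputable def Lift.JP {M : Met} {δ L : ℝ} (Λ : Lift M δ L) {n m : ℕ} (p : Cf n m) : ℝ :=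
  Λ.I (List.ofFn p.1 ++ List.ofFn p.2) - Λ.I (List.ofFn p.1) - Λ.I (List.ofFn p.2)

variable {M : Met} {δ L : ℝ}

private theorem DJ_cyc {n m : ℕ} {p : Cf n m} (h : p.1 0 = p.2 0) :
    (cyc (List.ofFn p.1 ++ List.ofFn p.2) : Multiset (E × E)) =
      (cyc (List.ofFn p.1) : Multiset (E × E)) + (cyc (List.ofFn p.2) : Multiset (E × E)) := by
  rw [List.ofFn_succ (f := p.1), List.ofFn_succ (f := p.2), ← h]
  exact cyc_join _ _ _

private theorem DJ_llen {n : ℕ} (X : Fin (n + 1) → E) :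
    llen M (cyc (List.ofFn X)) = ∑ i, ell M (X i) (X (i + 1)) := by
  rw [cyc_ofFn]
  unfold llen
  rw [List.map_ofFn, List.sum_ofFn]
  rfl

theorem fineP_iff {n m : ℕ} (p : Cf n m) : p ∈ FineP M δ L n m ↔
    p.1 0 = p.2 0 ∧ (∀ i, ‖p.1 i‖ = 1) ∧ (∀ i, ‖p.2 i‖ = 1) ∧ (∀ i, ‖p.1 i - p.1 (i + 1)‖ ≤ δ) ∧
      (∀ i, ‖p.2 i - p.2 (i + 1)‖ ≤ δ) ∧
      ∑ i, ell M (p.1 i) (p.1 (i + 1)) + ∑ i, ell M (p.2 i) (p.2 (i + 1)) < L := by
  constructor
  · rintro ⟨h0, hf⟩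
    have hc := DJ_cyc h0
    refine ⟨h0, ?_, ?_, ?_, ?_, ?_⟩
    · intro i
      exact hf.unit _ (List.mem_append_left _ ((List.mem_ofFn' _ _).2 ⟨i, rfl⟩))
    · intro i
      exact hf.unit _ (List.mem_append_right _ ((List.mem_ofFn' _ _).2 ⟨i, rfl⟩))
    · intro i
      refine hf.mesh (p.1 i, p.1 (i + 1)) ?_
      rw [← Multiset.mem_coe, hc, Multiset.mem_add, Multiset.mem_coe, cyc_ofFn]
      exact Or.inl ((List.mem_ofFn' _ _).2 ⟨i, rfl⟩)
    · intro i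
      refine hf.mesh (p.2 i, p.2 (i + 1)) ?_
      rw [← Multiset.mem_coe, hc, Multiset.mem_add, Multiset.mem_coe, Multiset.mem_coe,
        cyc_ofFn p.2]
      exact Or.inr ((List.mem_ofFn' _ _).2 ⟨i, rfl⟩)
    · have h1 := hf.len
      rw [← mass_coe, hc, mass_add, mass_coe, mass_coe, DJ_llen, DJ_llen] at h1
      exact h1
  · rintro ⟨h0, h1, h2, h3, h4, h5⟩
    have hc := DJ_cyc h0
    refine ⟨h0, ⟨?_, ?_, ?_, ?_⟩⟩
    · rw [List.ofFn_succ]
      simp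
    · intro x hx
      rcases List.mem_append.1 hx with hx | hx
      · obtain ⟨i, rfl⟩ := (List.mem_ofFn' _ _).1 hx
        exact h1 i
      · obtain ⟨i, rfl⟩ := (List.mem_ofFn' _ _).1 hx
        exact h2 i
    · intro e he
      rw [← Multiset.mem_coe, hc, Multiset.mem_add, Multiset.mem_coe, Multiset.mem_coe, cyc_ofFn,
        cyc_ofFn] at he
      rcases he with he | he
      · obtain ⟨i, rfl⟩ := (List.mem_ofFn' _ _).1 he
        exact h3 i
      · obtain ⟨i, rfl⟩ := (List.mem_ofFn' _ _).1 he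
        exact h4 i
    · rw [← mass_coe, hc, mass_add, mass_coe, mass_coe, DJ_llen, DJ_llen]
      exact h5

theorem fineP_left {n m : ℕ} {p : Cf n m} (h : p ∈ FineP M δ L n m) :
    FineL M δ L (List.ofFn p.1) ∧ FineL M δ L (List.ofFn p.2) := by
  obtain ⟨h0, hf⟩ := h
  rw [List.ofFn_succ (f := p.1), List.ofFn_succ (f := p.2), ← h0] at hf ⊢
  exact ⟨hf.left, hf.right⟩

theorem JP_int (hδ : δ ≤ 1) (Λ : Lift M δ L) {n m : ℕ} {p : Cf n m} (h : p ∈ FineP M δ L n m) :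
    ∃ k : ℤ, Λ.JP p = k := by
  obtain ⟨hl, hr⟩ := fineP_left h
  obtain ⟨h0, hf⟩ := h
  have hx : ‖p.1 0‖ = 1 := hl.unit _ ((List.mem_ofFn' _ _).2 ⟨0, rfl⟩)
  have hB : Bg (List.ofFn p.1 ++ List.ofFn p.2) = Bg (List.ofFn p.1) * Bg (List.ofFn p.2) := by
    rw [List.ofFn_succ (f := p.1), List.ofFn_succ (f := p.2), ← h0]
    exact Bg_join hx _ _
  have n1 : ((‖Bg (List.ofFn p.1)‖ : ℝ) : ℂ) ≠ 0 := by
    exact_mod_cast (norm_pos_iff.2 (hl.Bg_ne_zero hδ)).ne'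
  have n2 : ((‖Bg (List.ofFn p.2)‖ : ℝ) : ℂ) ≠ 0 := by
    exact_mod_cast (norm_pos_iff.2 (hr.Bg_ne_zero hδ)).ne'
  have e1 := Λ.hol _ hf
  have e2 := Λ.hol _ hl
  have e3 := Λ.hol _ hr
  rw [hB, norm_mul] at e1
  unfold Lift.JP
  set I1 := Λ.I (List.ofFn p.1 ++ List.ofFn p.2)
  set I2 := Λ.I (List.ofFn p.1)
  set I3 := Λ.I (List.ofFn p.2)
  have h3 : Complex.exp (2 * π * Complex.I * (I1 : ℂ)) =
      Complex.exp (2 * π * Complex.I * ((I2 : ℂ) + (I3 : ℂ))) := by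
    rw [mul_add, Complex.exp_add]
    have h4 : Complex.exp (2 * π * Complex.I * (I1 : ℂ)) *
        (((‖Bg (List.ofFn p.1)‖ : ℝ) : ℂ) * ((‖Bg (List.ofFn p.2)‖ : ℝ) : ℂ)) =
        (Complex.exp (2 * π * Complex.I * (I2 : ℂ)) * Complex.exp (2 * π * Complex.I * (I3 : ℂ))) *
        (((‖Bg (List.ofFn p.1)‖ : ℝ) : ℂ) * ((‖Bg (List.ofFn p.2)‖ : ℝ) : ℂ)) := by
      rw [← Complex.ofReal_mul, e1]
      conv_lhs => rw [← e2, ← e3]
      push_cast
      ring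
    exact mul_right_cancel₀ (mul_ne_zero n1 n2) h4
  obtain ⟨k, hk⟩ := Complex.exp_eq_exp_iff_exists_int.1 h3
  refine ⟨k, ?_⟩
  have hpi : (2 * π * Complex.I : ℂ) ≠ 0 := by
    have := Real.pi_ne_zero
    have h5 : (π : ℂ) ≠ 0 := by exact_mod_cast this
    exact mul_ne_zero (mul_ne_zero two_ne_zero h5) Complex.I_ne_zero
  have h6 : (2 * π * Complex.I : ℂ) * (I1 : ℂ) =
      (2 * π * Complex.I : ℂ) * ((I2 : ℂ) + (I3 : ℂ) + k) := by
    rw [hk]
    ring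
  have h7 := mul_left_cancel₀ hpi h6
  have h8 : ((I1 : ℝ) : ℂ) = ((I2 + I3 + k : ℝ) : ℂ) := by
    rw [h7]
    push_cast
    rfl
  have h9 : I1 = I2 + I3 + k := by exact_mod_cast h8
  rw [h9]
  ring

private theorem DJ_append (n m : ℕ) : Continuous fun p : Cf n m =>
    (Fin.append p.1 p.2 : Fin ((n + 1) + (m + 1)) → E) := by
  refine continuous_pi fun i => ?_
  refine Fin.addCases (fun j => ?_) (fun j => ?_) i
  · simp only [Fin.append_left]
    exact (continuous_apply j).comp continuous_fst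
  · simp only [Fin.append_right]
    exact (continuous_apply j).comp continuous_snd

theorem JP_cont (Λ : Lift M δ L) (n m : ℕ) :
    ContinuousOn (fun p : Cf n m => Λ.JP p) (FineP M δ L n m) := by
  unfold Lift.JP
  refine ContinuousOn.sub (ContinuousOn.sub ?_ ?_) ?_
  · have h1 : ContinuousOn (fun p : Cf n m => Λ.I (List.ofFn (Fin.append p.1 p.2)))
        (FineP M δ L n m) := by
      refine (Λ.cont ((n + 1) + (m + 1))).comp (DJ_append n m).continuousOn fun p hp => ?_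
      change FineL M δ L (List.ofFn (Fin.append p.1 p.2))
      rw [List.ofFn_fin_append]
      exact hp.2
    refine h1.congr fun p _ => ?_
    simp only [List.ofFn_fin_append]
  · exact (Λ.cont (n + 1)).comp continuous_fst.continuousOn fun p hp => (fineP_left hp).1
  · exact (Λ.cont (m + 1)).comp continuous_snd.continuousOn fun p hp => (fineP_left hp).2

theorem JP_swap (Λ : Lift M δ L) {n m : ℕ} {p : Cf n m} (h : p ∈ FineP M δ L n m) :
    (p.2, p.1) ∈ FineP M δ L m n ∧ Λ.JP (n := m) (m := n) (p.2, p.1) = Λ.JP p := by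
  obtain ⟨a1, a2, _⟩ := fine_comm Λ h.2
  refine ⟨⟨h.1.symm, a1⟩, ?_⟩
  change Λ.I (List.ofFn p.2 ++ List.ofFn p.1) - Λ.I (List.ofFn p.2) - Λ.I (List.ofFn p.1) =
    Λ.I (List.ofFn p.1 ++ List.ofFn p.2) - Λ.I (List.ofFn p.1) - Λ.I (List.ofFn p.2)
  rw [a2]
  ring

theorem JP_const (hδ : δ ≤ 1) (Λ : Lift M δ L) {n m : ℕ} (q : ℝ → Cf n m)
    (hq : ContinuousOn q (Icc 0 1)) (hF : ∀ t ∈ Icc (0:ℝ) 1, q t ∈ FineP M δ L n m) :
    Λ.JP (q 0) = Λ.JP (q 1) := by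
  have hc : ContinuousOn (fun t => Λ.JP (q t)) (Icc 0 1) := (JP_cont Λ n m).comp hq hF
  by_contra hne
  have h0 : (0 : ℝ) ∈ Icc (0:ℝ) 1 := ⟨le_rfl, zero_le_one⟩
  have h1 : (1 : ℝ) ∈ Icc (0:ℝ) 1 := ⟨zero_le_one, le_rfl⟩
  obtain ⟨k0, hk0⟩ := JP_int hδ Λ (hF 0 h0)
  obtain ⟨k1, hk1⟩ := JP_int hδ Λ (hF 1 h1)
  rw [hk0, hk1] at hne
  have hkne : k0 ≠ k1 := fun h => hne (by rw [h])
  have key : ∀ k : ℤ, (k : ℝ) + 1 / 2 ∉ (fun t => Λ.JP (q t)) '' Icc 0 1 := by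
    rintro k ⟨t, ht, hkt⟩
    obtain ⟨j, hj⟩ := JP_int hδ Λ (hF t ht)
    have h2 : (j : ℝ) = (k : ℝ) + 1 / 2 := by
      rw [← hkt, ← hj]
    have h3 : ((2 * j : ℤ) : ℝ) = ((2 * k + 1 : ℤ) : ℝ) := by
      push_cast
      linarith
    have h4 : 2 * j = 2 * k + 1 := by exact_mod_cast h3
    omega
  rcases lt_or_gt_of_ne hkne with h | h
  · have h5 := intermediate_value_Icc zero_le_one hc
    apply key k0
    apply h5
    show (k0 : ℝ) + 1 / 2 ∈ Icc (Λ.JP (q 0)) (Λ.JP (q 1))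
    rw [hk0, hk1]
    have h6 : (k0 : ℝ) + 1 ≤ k1 := by exact_mod_cast h
    constructor <;> linarith
  · have h5 := intermediate_value_Icc' zero_le_one hc
    apply key k1
    apply h5
    show (k1 : ℝ) + 1 / 2 ∈ Icc (Λ.JP (q 1)) (Λ.JP (q 0))
    rw [hk0, hk1]
    have h6 : (k1 : ℝ) + 1 ≤ k0 := by exact_mod_cast h
    constructor <;> linarith

end CGA
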