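import Pool.Agent.CGA.DEnB
import Pool.Agent.CGA.DJ

/-! PROJECT CGA, module DFine: configurations of small energy and small time steps are fine.

`HP = √En + √En`.
`Conf`: unit vectors and common base point.
`exists_fineP`: `m, F, K` from `M.exists_bounds`, `C` from `ell_sum_le`.  Choose `μ > 0` with `μ ≤ δ` (`≤ 1`) and `C μ L' < L - L'`, and `δ₁ > 0` with `√δ₁ L' ≤ m μ`
(`δ₁ = (m μ / (L' + 1))²`).  Each of the two energies has `√En ≤ L'` (`Real.sqrt_nonneg`), so all edges are `≤ μ` (`en_edge_le`); the two sums of `ell` are together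
`≤ (1 + C μ)(∑ ch + ∑ ch) ≤ (1 + C μ)(√En + √En) ≤ (1 + C μ) L' < L` (`ell_sum_le`, `sum_ch_le`); `fineP_iff` (`norm_sub_rev`).
`HP_cont`: `en_cont_X`, `Real.continuous_sqrt`.
`conf_compact`: `{p | Conf p ∧ HP p ≤ L'}` is closed (the unit vectors form a closed set on which `HP` is continuous) and bounded in a finite dimensional space: a closed
subset of the compact product of spheres.
-/

set_option linter.all false

namespace CGA

open scoped RealInnerProductSpace Real Topology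
open MeasureTheory Set Filter

/-- pairs of closed polygons on the sphere with a common base point -/
def Conf {n m : ℕ} (p : Cf n m) : Prop := (∀ i, ‖p.1 i‖ = 1) ∧ (∀ i, ‖p.2 i‖ = 1) ∧ p.1 0 = p.2 0

noncomputable def HP (M : Met) {n m : ℕ} (τ : Fin (n + 1) → ℝ) (σ : Fin (m + 1) → ℝ)
    (p : Cf n m) : ℝ := √(En M τ p.1) + √(En M σ p.2)

/-- time steps -/
structure Times {n : ℕ} (τ : Fin (n + 1) → ℝ) (δ₁ : ℝ) : Prop where
  pos : ∀ i, 0 < τ i
  le : ∀ i, τ i ≤ δ₁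
  sum : ∑ i, τ i = 1

private theorem DFine_part (M : Met) {m C μ δ₁ L' : ℝ} (hm : 0 < m)
    (hf : ∀ x : E, ‖x‖ = 1 → m ≤ M.f x) (hC : 0 < C)
    (hell : ∀ (n : ℕ) [NeZero n] (X : Fin n → E) (μ : ℝ),
      (∀ i, ‖X i‖ = 1) → μ ≤ 1 → (∀ i, ‖X (i + 1) - X i‖ ≤ μ) →
        ∑ i, ell M (X i) (X (i + 1)) ≤ (1 + C * μ) * ∑ i, ch M X i)
    (hμ : 0 < μ) (hμ1 : μ ≤ 1) (hδ₁ : √δ₁ * L' ≤ m * μ) {n : ℕ} {τ : Fin (n + 1) → ℝ}
    (hτ : Times τ δ₁) {X : Fin (n + 1) → E} (hX : ∀ i, ‖X i‖ = 1) (hE : √(En M τ X) ≤ L') :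
    (∀ i, ‖X i - X (i + 1)‖ ≤ μ) ∧
      ∑ i, ell M (X i) (X (i + 1)) ≤ (1 + C * μ) * √(En M τ X) := by
  have h1 : ∀ i, ‖X (i + 1) - X i‖ ≤ μ := by
    intro i
    have h2 := en_edge_le M hm hf hτ.pos hτ.le X hX i
    have h3 : √δ₁ * √(En M τ X) ≤ √δ₁ * L' := mul_le_mul_of_nonneg_left hE (Real.sqrt_nonneg _)
    have h4 : m * ‖X (i + 1) - X i‖ ≤ m * μ := by linarith
    exact le_of_mul_le_mul_left h4 hm
  refine ⟨fun i => by rw [norm_sub_rev]; exact h1 i, ?_⟩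
  refine (hell (n + 1) X μ hX hμ1 h1).trans ?_
  exact mul_le_mul_of_nonneg_left (sum_ch_le M hτ.pos hτ.sum X hX) (by positivity)

theorem exists_fineP (M : Met) {δ L L' : ℝ} (hδ : 0 < δ) (hδ' : δ ≤ 1) (hL' : 0 < L')
    (hLL : L' < L) : ∃ δ₁ > 0, ∀ (n m : ℕ) (τ : Fin (n + 1) → ℝ) (σ : Fin (m + 1) → ℝ)
      (p : Cf n m), Times τ δ₁ → Times σ δ₁ → Conf p → HP M τ σ p ≤ L' → p ∈ FineP M δ L n m := by
  obtain ⟨m₀, F, K, hm, hmF, hK, hf, hlip, -⟩ := M.exists_bounds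
  obtain ⟨C, hC, hell⟩ := ell_sum_le M
  have hf' : ∀ x : E, ‖x‖ = 1 → m₀ ≤ M.f x := by
    intro x hx
    apply (hf x _).1
    intro h0
    rw [h0, norm_zero] at hx
    norm_num at hx
  set μ : ℝ := min δ ((L - L') / (2 * C * L')) with hμdef
  have hμ0 : 0 < μ := lt_min hδ (div_pos (by linarith) (by positivity))
  have hμδ : μ ≤ δ := min_le_left _ _
  have hμ1 : μ ≤ 1 := hμδ.trans hδ'
  have hμL : C * μ * L' < L - L' := by
    have h1 : μ ≤ (L - L') / (2 * C * L') := min_le_right _ _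
    rw [le_div_iff₀ (by positivity)] at h1
    nlinarith
  refine ⟨(m₀ * μ / (L' + 1)) ^ 2, by positivity, ?_⟩
  have hδ₁ : √((m₀ * μ / (L' + 1)) ^ 2) * L' ≤ m₀ * μ := by
    rw [Real.sqrt_sq (by positivity), div_mul_eq_mul_div, div_le_iff₀ (by linarith)]
    have : 0 < m₀ * μ := by positivity
    nlinarith
  intro n m τ σ p hτ hσ hp hH
  obtain ⟨hp1, hp2, hp0⟩ := hp
  unfold HP at hH
  have hs1 := Real.sqrt_nonneg (En M τ p.1)
  have hs2 := Real.sqrt_nonneg (En M σ p.2)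
  obtain ⟨h1, h2⟩ := DFine_part M hm hf' hC (fun n _ X μ h1 h2 h3 => (hell n X μ h1 h2 h3).1)
    hμ0 hμ1 hδ₁ hτ hp1 (by linarith)
  obtain ⟨h3, h4⟩ := DFine_part M hm hf' hC (fun n _ X μ h1 h2 h3 => (hell n X μ h1 h2 h3).1)
    hμ0 hμ1 hδ₁ hσ hp2 (by linarith)
  rw [fineP_iff]
  refine ⟨hp0, hp1, hp2, fun i => (h1 i).trans hμδ, fun i => (h3 i).trans hμδ, ?_⟩
  have h5 : (1 + C * μ) * (√(En M τ p.1) + √(En M σ p.2)) ≤ (1 + C * μ) * L' :=
    mul_le_mul_of_nonneg_left hH (by positivity)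
  nlinarith

theorem HP_cont (M : Met) {n m : ℕ} (τ : Fin (n + 1) → ℝ) (σ : Fin (m + 1) → ℝ) :
    ContinuousOn (fun p : Cf n m => HP M τ σ p) {p | (∀ i, ‖p.1 i‖ = 1) ∧ ∀ i, ‖p.2 i‖ = 1} := by
  have hne : ∀ {x : E}, ‖x‖ = 1 → x ≠ 0 := by
    intro x hx h0
    rw [h0, norm_zero] at hx
    norm_num at hx
  unfold HP
  apply ContinuousOn.add
  · apply Real.continuous_sqrt.comp_continuousOn
    exact (en_cont_X M τ).comp continuous_fst.continuousOn fun p hp i => hne (hp.1 i)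
  · apply Real.continuous_sqrt.comp_continuousOn
    exact (en_cont_X M σ).comp continuous_snd.continuousOn fun p hp i => hne (hp.2 i)

theorem conf_compact (M : Met) {n m : ℕ} (τ : Fin (n + 1) → ℝ) (σ : Fin (m + 1) → ℝ) (L' : ℝ) :
    IsCompact {p : Cf n m | Conf p ∧ HP M τ σ p ≤ L'} := by
  have hK : IsCompact {p : Cf n m | (∀ i, ‖p.1 i‖ = 1) ∧ ∀ i, ‖p.2 i‖ = 1} := by
    have h1 : IsCompact ((Set.univ.pi fun _ : Fin (n + 1) => Metric.sphere (0 : E) 1) ×ˢ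
        (Set.univ.pi fun _ : Fin (m + 1) => Metric.sphere (0 : E) 1)) :=
      (isCompact_univ_pi fun _ => isCompact_sphere 0 1).prod
        (isCompact_univ_pi fun _ => isCompact_sphere 0 1)
    convert h1 using 1
    ext p
    simp [Set.mem_prod, Set.mem_pi]
  have h2 := (HP_cont M τ σ).preimage_isClosed_of_isClosed hK.isClosed (isClosed_Iic (a := L'))
  have h3 : IsClosed {p : Cf n m | p.1 0 = p.2 0} := by
    apply isClosed_eq
    · exact (continuous_apply _).comp continuous_fst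
    · exact (continuous_apply _).comp continuous_snd
  apply hK.of_isClosed_subset (_ : IsClosed _)
  · rintro p ⟨⟨h1, h2, -⟩, -⟩
    exact ⟨h1, h2⟩
  · have h4 := h2.inter h3
    convert h4 using 1
    ext p
    constructor
    · rintro ⟨⟨h1, h2, h3⟩, h4⟩
      exact ⟨⟨⟨h1, h2⟩, h4⟩, h3⟩
    · rintro ⟨⟨⟨h1, h2⟩, h4⟩, h3⟩
      exact ⟨⟨h1, h2, h3⟩, h4⟩

end CGA
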