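import Pool.Agent.CGA.DJ
import Pool.Agent.CGA.ACtr

/-! PROJECT CGA, module DSm: the defect vanishes if one of the two loops is small.

`lift_pad`: induction on `n` with `FineL.dup`, `Lift.dup` (`x :: (replicate n x ++ x :: l) = x :: x :: _`, as `replicate n x ++ x :: l` starts with `x`; or
`List.replicate_append_comm`-type rewriting).  `lift_pad'` (`l = []`): `Lift.sing`.
`JP_small`: `r` from `exists_ctr`.  `q = p.1 0`; path `t ↦ ((fun i => ctr q t (p.1 i)), p.2)`, `t ∈ [0,1]`.  `0 < ⟪q, p.1 i⟫` since `‖p.1 i - q‖ ≤ 1/2` (`unit_inner_le`).  It is in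
`FineP` by `fineP_iff`: `ctr_self` for the base point, `norm_ctr`, and by `exists_ctr` distances and lengths of the edges do not increase (`ell`, `‖·‖` of `ctr q t x`, `ctr q t y`);
continuous: `continuousOn_ctr`.  At `t = 0` it is `p` (`ctr_zero`), at `t = 1` the first polygon is constant `q` (`ctr_one`), `List.ofFn (fun _ => q) = List.replicate (n+1) q`
(`List.ofFn_const`), so `JP = I (replicate (n+1) q ++ ofFn p.2) - I (replicate (n+1) q) - I (ofFn p.2) = I (ofFn p.2) - 0 - I (ofFn p.2) = 0` by `lift_pad`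
(`ofFn p.2 = q :: _` by `List.ofFn_succ`).  `JP_const`.
-/

set_option linter.all false

namespace CGA

open scoped RealInnerProductSpace Real Topology
open MeasureTheory Set Filter

theorem lift_pad {M : Met} {δ L : ℝ} (hδ : 0 ≤ δ) (Λ : Lift M δ L) {x : E} {l : List E}
    (h : FineL M δ L (x :: l)) (n : ℕ) :
    FineL M δ L (List.replicate n x ++ x :: l) ∧ Λ.I (List.replicate n x ++ x :: l) = Λ.I (x :: l) := by
  induction n with
  | zero =>
    rw [List.replicate_zero, List.nil_append]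
    exact ⟨h, rfl⟩
  | succ n ih =>
    obtain ⟨h1, h2⟩ := ih
    obtain ⟨l', hl'⟩ : ∃ l', List.replicate n x ++ x :: l = x :: l' := by
      cases n with
      | zero => exact ⟨l, by rw [List.replicate_zero, List.nil_append]⟩
      | succ k => exact ⟨List.replicate k x ++ x :: l, by rw [List.replicate_succ, List.cons_append]⟩
    rw [List.replicate_succ, List.cons_append, ← h2, hl']
    rw [hl'] at h1
    exact ⟨h1.dup hδ, Λ.dup x l' h1⟩

theorem lift_pad' {M : Met} {δ L : ℝ} (hδ : 0 ≤ δ) (hL : 0 < L) (Λ : Lift M δ L) {x : E}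
    (hx : ‖x‖ = 1) (n : ℕ) : Λ.I (List.replicate (n + 1) x) = 0 := by
  have h0 : cyc [x] = [(x, x)] := by
    unfold cyc
    rw [List.rotate_singleton]
    rfl
  have h1 : FineL M δ L [x] := by
    refine ⟨by simp, ?_, ?_, ?_⟩
    · intro y hy
      rw [List.mem_singleton] at hy
      rw [hy, hx]
    · intro e he
      rw [h0, List.mem_singleton] at he
      rw [he, sub_self, norm_zero]
      exact hδ
    · rw [h0]
      unfold llen
      rw [List.map_singleton, List.sum_singleton, ell_self]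
      exact hL
  rw [List.replicate_succ', (lift_pad hδ Λ h1 n).2]
  exact Λ.sing x hx

private theorem DSm_cont {q x : E} (hq : ‖q‖ = 1) (hx : 0 < ⟪q, x⟫) :
    ContinuousOn (fun t : ℝ => ctr q t x) (Icc 0 1) := by
  have hg : ContinuousOn (fun t : ℝ => ((t, x) : ℝ × E)) (Icc 0 1) := by fun_prop
  have hm : MapsTo (fun t : ℝ => ((t, x) : ℝ × E)) (Icc (0:ℝ) 1)
        (Icc (0:ℝ) 1 ×ˢ {x | 0 < ⟪q, x⟫}) := fun t ht => ⟨ht, hx⟩
  have h := (continuousOn_ctr hq).comp hg hm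
  exact h

theorem JP_small (M : Met) : ∃ r > 0, ∀ (δ L : ℝ), 0 ≤ δ → δ ≤ 1 → ∀ (Λ : Lift M δ L) (n m : ℕ)
    (p : Cf n m), p ∈ FineP M δ L n m → (∀ i, ‖p.1 i - p.1 0‖ ≤ r) → Λ.JP p = 0 := by
  obtain ⟨r, hr, hr2, hctr⟩ := exists_ctr M
  refine ⟨r, hr, fun δ L hδ hδ1 Λ n m p hp hsm => ?_⟩
  obtain ⟨f1, f2, f3, f4, f5, f6⟩ := (fineP_iff p).1 hp
  have hq : ‖p.1 0‖ = 1 := f2 0
  have hpos : ∀ i, 0 < ⟪p.1 0, p.1 i⟫ := by
    intro i
    rw [unit_inner_le hq (f2 i), norm_sub_rev]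
    have h1 := hsm i
    have h2 : ‖p.1 i - p.1 0‖ ^ 2 ≤ (1 / 2) ^ 2 := by
      gcongr
      exact h1.trans hr2
    norm_num at h2 ⊢
    linarith
  have hQ1 : ∀ i, ContinuousOn (fun t : ℝ => ctr (p.1 0) t (p.1 i)) (Icc 0 1) :=
    fun i => DSm_cont hq (hpos i)
  let Q : ℝ → Cf n m := fun t => (fun i => ctr (p.1 0) t (p.1 i), p.2)
  have hQ2 : ContinuousOn (fun t : ℝ => fun i => ctr (p.1 0) t (p.1 i)) (Icc (0:ℝ) 1) :=
    continuousOn_pi.2 hQ1
  have hQc : ContinuousOn Q (Icc 0 1) := hQ2.prodMk continuousOn_const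
  have hQF : ∀ t ∈ Icc (0:ℝ) 1, Q t ∈ FineP M δ L n m := by
    intro t ht
    rw [fineP_iff]
    refine ⟨?_, ?_, f3, ?_, f5, ?_⟩
    · show ctr (p.1 0) t (p.1 0) = p.2 0
      rw [ctr_self hq, f1]
    · intro i
      exact norm_ctr hq (hpos i) ht
    · intro i
      exact (hctr (p.1 0) hq t ht _ _ (f2 i) (f2 (i + 1)) (hsm i) (hsm (i + 1))).2.2.1.trans (f4 i)
    · refine lt_of_le_of_lt (add_le_add (Finset.sum_le_sum fun i _ => ?_) le_rfl) f6
      exact (hctr (p.1 0) hq t ht _ _ (f2 i) (f2 (i + 1)) (hsm i) (hsm (i + 1))).1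
  have h0 : Q 0 = p := by
    refine Prod.ext ?_ rfl
    funext i
    exact ctr_zero (f2 i)
  have h1 := JP_const hδ1 Λ Q hQc hQF
  rw [h0] at h1
  rw [h1]
  have h2 : (Q 1).1 = fun _ => p.1 0 := by
    funext i
    exact ctr_one hq (hpos i)
  have h3 : List.ofFn (Q 1).1 = List.replicate (n + 1) (p.1 0) := by
    rw [h2, List.ofFn_const]
  have h4 : List.ofFn (Q 1).2 = p.1 0 :: List.ofFn fun i => p.2 (Fin.succ i) := by
    show List.ofFn p.2 = _
    rw [List.ofFn_succ, f1]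
  have h5 := (fineP_left hp).2
  have h6 : List.ofFn p.2 = p.1 0 :: List.ofFn fun i => p.2 (Fin.succ i) := h4
  rw [h6] at h5
  have hL : 0 < L := (llen_nonneg M _).trans_lt h5.len
  unfold Lift.JP
  rw [h3, h4, (lift_pad hδ Λ h5 (n + 1)).2, lift_pad' hδ hL Λ hq n]
  ring

end CGA
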