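import Pool.Agent.CGA.DRefA

/-! PROJECT CGA, module DRefB: refinement of a bouquet.

`refine_edge`: induction on `n` (all `a`, `b`).  `n = 0`: `p = []` (`pth [a, b] = [(a, b)]`).  Step: `c = nrm ((1 - 1/2) • a + (1/2) • b)`, unit (`seg_ne_zero`, `norm_nrm`), by `nrm_half_le` the
distances `‖a - c‖`, `‖c - b‖` are `≤ 2/3 ‖a - b‖ ≤ η (3/2)^n` and `≤ 1`; the induction hypothesis gives `p₁` for `(a, c)` and `p₂` for `(c, b)`; `p = p₁ ++ c :: p₂`:
`PMove.insert` from `[a, b]` to `[a, c, b] = [a, c] ++ [b]`, then `PMove.ctx` (`s = []`, `t = [b]`) to `a :: p₁ ++ [c] ++ [b] = (a :: p₁) ++ [c, b]`, then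
`PMove.ctx` (`s = a :: p₁`, `t = []`) to `(a :: p₁) ++ (c :: p₂ ++ [b])`.  Mesh: `pth_append` with `l₁ = a :: p₁`, `x = c`, `l₂ = p₂ ++ [b]`.

`refine_path`: induction on `l` (all `x`).  `l = []`: `refine_edge` (some `n` with `1 ≤ η (3/2)^n`: `pow_unbounded_of_one_lt`).
`l = b :: l'`: `refine_edge` for `(x, b)` gives `p`, the induction hypothesis for `b, l', y` gives `q'`; `q = p ++ b :: q'`; the moves `PMove.ctx` of `[x, b]` in `[x, b] ++ (l' ++ [y])` and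
of `b :: l' ++ [y]` in `(x :: p) ++ (b :: l' ++ [y])`.  Mesh: `pth_append`.

`refine_pad`: induction on `N`: `x :: q ++ [y] = [x] ++ (q ++ [y])`, `PMove.dup` and `PMove.ctx`; `pth` gets the edges `(x, x)` (`pth_cons_cons`).

`loop_move`: `FineL.dup`, `Lift.dup` for `x :: x :: l`; `x :: (x :: l)` is a rotation of `x :: l ++ [x]` (`fine_comm` with `u = [x]`); the move with `u = v = []`;
rotate back to `x :: x :: q = x :: [] ++ x :: q`, `FineL.right`, `Lift.dup` for `x :: q`.  Lengths: `cyc_dup`, `ell_self`, `mass_coe`.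
`cyc (x :: q) = pth (x :: q ++ [x])` (`cyc_cons`).

`exists_refine`: `refine_path` for `x, l₁, x` and `x, l₂, x` followed by `refine_pad` (`N` extra copies of `x`) gives `q₁`, `q₂` with moves `PMove Λ (x :: lᵢ ++ [x]) (x :: qᵢ ++ [x])`.
The hypothesis `hl` of `refine_path` follows from `FineL.left`, `FineL.right` and `cyc_cons`.  In the polygon `x :: l₁ ++ x :: l₂ = [] ++ (x :: l₁ ++ [x]) ++ l₂` replace the first path: `x :: q₁ ++ x :: l₂`;
`fine_comm`: `x :: l₂ ++ x :: q₁ = [] ++ (x :: l₂ ++ [x]) ++ q₁`, replace: `x :: q₂ ++ x :: q₁`, `fine_comm`.  The single loops: `loop_move`.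
-/

set_option linter.all false

namespace CGA

open scoped RealInnerProductSpace Real Topology
open MeasureTheory Set Filter

variable {M : Met} {δ L : ℝ}

theorem refine_edge (hδ0 : 0 ≤ δ) (hδ : δ ≤ 1) (Λ : Lift M δ L) {η : ℝ} (hη : 0 < η) (n : ℕ) :
    ∀ a b : E, ‖a‖ = 1 → ‖b‖ = 1 → ‖a - b‖ ≤ 1 → ‖a - b‖ ≤ η * (3 / 2) ^ n →
      ∃ p : List E, (∀ z ∈ p, ‖z‖ = 1) ∧ (∀ e ∈ pth (a :: p ++ [b]), ‖e.1 - e.2‖ ≤ η) ∧
        PMove Λ [a, b] (a :: p ++ [b]) := by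
  induction n with
  | zero =>
    intro a b ha hb h1 h2
    refine ⟨[], by simp, ?_, PMove.refl Λ _⟩
    intro e he
    have h3 : pth (a :: [] ++ [b]) = [(a, b)] := rfl
    rw [h3, List.mem_singleton] at he
    rw [he]
    simpa using h2
  | succ n ih =>
    intro a b ha hb h1 h2
    have hc : ‖nrm ((1 - 1 / 2 : ℝ) • a + (1 / 2 : ℝ) • b)‖ = 1 :=
      norm_nrm (seg_ne_zero ha hb (by linarith) _)
    obtain ⟨h3, h4⟩ := nrm_half_le ha hb h1
    have hmv : PMove Λ [a, b] [a, nrm ((1 - 1 / 2 : ℝ) • a + (1 / 2 : ℝ) • b), b] :=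
      PMove.insert hδ0 hδ Λ a b (t := 1 / 2) (by norm_num)
    generalize nrm ((1 - 1 / 2 : ℝ) • a + (1 / 2 : ℝ) • b) = c at hc h3 h4 hmv
    have h5 : 2 / 3 * (η * (3 / 2) ^ (n + 1)) = η * (3 / 2) ^ n := by
      rw [pow_succ]
      ring
    have h6 : ‖a - b‖ ≥ 0 := norm_nonneg _
    obtain ⟨p₁, u1, m1, v1⟩ := ih a c ha hc (by linarith) (by linarith)
    obtain ⟨p₂, u2, m2, v2⟩ := ih c b hc hb (by linarith) (by linarith)
    refine ⟨p₁ ++ c :: p₂, ?_, ?_, ?_⟩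
    · intro z hz
      rcases List.mem_append.1 hz with hz | hz
      · exact u1 z hz
      · rcases List.mem_cons.1 hz with rfl | hz
        · exact hc
        · exact u2 z hz
    · intro e he
      have e1 : a :: (p₁ ++ c :: p₂) ++ [b] = (a :: p₁) ++ c :: (p₂ ++ [b]) := by simp
      rw [e1, pth_append] at he
      rcases List.mem_append.1 he with he | he
      · exact m1 e he
      · exact m2 e he
    · have w1 := v1.ctx [] [b]
      have w2 := v2.ctx (a :: p₁) []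
      have e1 : [] ++ [a, c] ++ [b] = [a, c, b] := rfl
      have e2 : [] ++ (a :: p₁ ++ [c]) ++ [b] = (a :: p₁) ++ [c, b] ++ [] := by simp
      have e3 : (a :: p₁) ++ (c :: p₂ ++ [b]) ++ [] = a :: (p₁ ++ c :: p₂) ++ [b] := by simp
      rw [e1, e2] at w1
      rw [e3] at w2
      exact (hmv.trans w1).trans w2

theorem refine_path (hδ0 : 0 ≤ δ) (hδ : δ ≤ 1) (Λ : Lift M δ L) {η : ℝ} (hη : 0 < η) (y : E)
    (hy : ‖y‖ = 1) (l : List E) : ∀ x : E, ‖x‖ = 1 → (∀ z ∈ l, ‖z‖ = 1) →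
      (∀ e ∈ pth (x :: l ++ [y]), ‖e.1 - e.2‖ ≤ 1) →
      ∃ q : List E, (∀ z ∈ q, ‖z‖ = 1) ∧ (∀ e ∈ pth (x :: q ++ [y]), ‖e.1 - e.2‖ ≤ η) ∧
        PMove Λ (x :: l ++ [y]) (x :: q ++ [y]) := by
  obtain ⟨n, hn⟩ := pow_unbounded_of_one_lt (1 / η) (by norm_num : (1:ℝ) < 3 / 2)
  have hn' : 1 ≤ η * (3 / 2) ^ n := by
    rw [div_lt_iff₀ hη] at hn
    linarith
  induction l with
  | nil =>
    intro x hx _ hm
    have h1 : ‖x - y‖ ≤ 1 := hm (x, y) (by simp [pth])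
    exact refine_edge hδ0 hδ Λ hη n x y hx hy h1 (h1.trans hn')
  | cons b l' ih =>
    intro x hx hl hm
    have hb : ‖b‖ = 1 := hl b List.mem_cons_self
    have e0 : pth (x :: b :: l' ++ [y]) = (x, b) :: pth (b :: l' ++ [y]) := rfl
    have h1 : ‖x - b‖ ≤ 1 := hm (x, b) (by rw [e0]; exact List.mem_cons_self)
    obtain ⟨p, u1, m1, v1⟩ := refine_edge hδ0 hδ Λ hη n x b hx hb h1 (h1.trans hn')
    obtain ⟨q', u2, m2, v2⟩ := ih b hb (fun z hz => hl z (List.mem_cons_of_mem _ hz))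
      (fun e he => hm e (by rw [e0]; exact List.mem_cons_of_mem _ he))
    refine ⟨p ++ b :: q', ?_, ?_, ?_⟩
    · intro z hz
      rcases List.mem_append.1 hz with hz | hz
      · exact u1 z hz
      · rcases List.mem_cons.1 hz with rfl | hz
        · exact hb
        · exact u2 z hz
    · intro e he
      have e1 : x :: (p ++ b :: q') ++ [y] = (x :: p) ++ b :: (q' ++ [y]) := by simp
      rw [e1, pth_append] at he
      rcases List.mem_append.1 he with he | he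
      · exact m1 e he
      · exact m2 e he
    · have w1 := v1.ctx [] (l' ++ [y])
      have w2 := v2.ctx (x :: p) []
      have e1 : [] ++ [x, b] ++ (l' ++ [y]) = x :: b :: l' ++ [y] := by simp
      have e2 : [] ++ (x :: p ++ [b]) ++ (l' ++ [y]) = (x :: p) ++ (b :: l' ++ [y]) ++ [] := by simp
      have e3 : (x :: p) ++ (b :: q' ++ [y]) ++ [] = x :: (p ++ b :: q') ++ [y] := by simp
      rw [e1, e2] at w1
      rw [e3] at w2
      exact w1.trans w2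

theorem refine_pad (hδ0 : 0 ≤ δ) (Λ : Lift M δ L) {η : ℝ} (hη : 0 < η) (N : ℕ) (x y : E) (q : List E)
    (h : ∀ e ∈ pth (x :: q ++ [y]), ‖e.1 - e.2‖ ≤ η) :
    ∃ q' : List E, N ≤ q'.length ∧ (∀ e ∈ pth (x :: q' ++ [y]), ‖e.1 - e.2‖ ≤ η) ∧
      PMove Λ (x :: q ++ [y]) (x :: q' ++ [y]) := by
  induction N with
  | zero => exact ⟨q, Nat.zero_le _, h, PMove.refl Λ _⟩
  | succ N ih =>
    obtain ⟨q', h1, h2, h3⟩ := ih
    refine ⟨x :: q', by simpa using h1, ?_, ?_⟩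
    · intro e he
      have e0 : pth (x :: x :: q' ++ [y]) = (x, x) :: pth (x :: q' ++ [y]) := rfl
      rw [e0] at he
      rcases List.mem_cons.1 he with rfl | he
      · simpa using hη.le
      · exact h2 e he
    · have w := (PMove.dup hδ0 Λ x).ctx [] (q' ++ [y])
      have e1 : [] ++ [x] ++ (q' ++ [y]) = x :: q' ++ [y] := by simp
      have e2 : [] ++ [x, x] ++ (q' ++ [y]) = x :: x :: q' ++ [y] := by simp
      rw [e1, e2] at w
      exact h3.trans w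

private theorem DRefB_llen (M : Met) (x : E) (l : List E) :
    llen M (cyc (x :: x :: l)) = llen M (cyc (x :: l)) := by
  rw [← mass_coe, cyc_dup, mass_cons, ell_self, zero_add, mass_coe]

theorem loop_move (hδ0 : 0 ≤ δ) {Λ : Lift M δ L} {x : E} {l q : List E}
    (h : PMove Λ (x :: l ++ [x]) (x :: q ++ [x])) (hl : FineL M δ L (x :: l)) :
    FineL M δ L (x :: q) ∧ Λ.I (x :: q) = Λ.I (x :: l) ∧
      llen M (cyc (x :: q)) = llen M (cyc (x :: l)) := by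
  have h1 : FineL M δ L ([x] ++ (x :: l)) := hl.dup hδ0
  obtain ⟨a1, a2, a3⟩ := fine_comm Λ h1
  have h2 : FineL M δ L ([] ++ (x :: l ++ [x]) ++ []) := by
    have e1 : [] ++ (x :: l ++ [x]) ++ [] = x :: l ++ [x] := by simp
    rw [e1]
    exact a1
  obtain ⟨b1, b2, b3⟩ := h [] [] h2
  have e1 : [] ++ (x :: l ++ [x]) ++ [] = x :: l ++ [x] := by simp
  have e2 : [] ++ (x :: q ++ [x]) ++ [] = x :: q ++ [x] := by simp
  rw [e2] at b1
  rw [e1, e2] at b2 b3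
  obtain ⟨c1, c2, c3⟩ := fine_comm Λ (u := x :: q) (v := [x]) b1
  have h3 : FineL M δ L (x :: q) := FineL.right (l₁ := []) c1
  have d1 : Λ.I ([x] ++ (x :: q)) = Λ.I (x :: q) := Λ.dup x q h3
  have d2 : Λ.I ([x] ++ (x :: l)) = Λ.I (x :: l) := Λ.dup x l hl
  have d3 : llen M (cyc ([x] ++ (x :: q))) = llen M (cyc (x :: q)) := DRefB_llen M x q
  have d4 : llen M (cyc ([x] ++ (x :: l))) = llen M (cyc (x :: l)) := DRefB_llen M x l
  refine ⟨h3, ?_, ?_⟩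
  · rw [← d1, c2, b2, a2, d2]
  · rw [← d3, c3, b3, a3, d4]

private theorem DRefB_one (hδ0 : 0 ≤ δ) (hδ : δ ≤ 1) (Λ : Lift M δ L) {x : E} {l : List E}
    (h : FineL M δ L (x :: l)) {η : ℝ} (hη : 0 < η) (N : ℕ) :
    ∃ q : List E, N ≤ q.length ∧ (∀ e ∈ cyc (x :: q), ‖e.1 - e.2‖ ≤ η) ∧
      PMove Λ (x :: l ++ [x]) (x :: q ++ [x]) := by
  have hx : ‖x‖ = 1 := h.unit x List.mem_cons_self
  obtain ⟨q, h1, h2, h3⟩ := refine_path hδ0 hδ Λ hη x hx l x hx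
    (fun z hz => h.unit z (List.mem_cons_of_mem _ hz))
    (fun e he => (h.mesh e (by rw [cyc_cons]; exact he)).trans hδ)
  obtain ⟨q', h4, h5, h6⟩ := refine_pad hδ0 Λ hη N x x q h2
  refine ⟨q', h4, ?_, h3.trans h6⟩
  rw [cyc_cons]
  exact h5

/-- a bouquet can be refined without changing lifts and lengths -/
theorem exists_refine (hδ0 : 0 ≤ δ) (hδ : δ ≤ 1) (Λ : Lift M δ L) {x : E} {l₁ l₂ : List E}
    (h : FineL M δ L (x :: l₁ ++ x :: l₂)) {η : ℝ} (hη : 0 < η) (N : ℕ) :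
    ∃ q₁ q₂ : List E, N ≤ q₁.length ∧ N ≤ q₂.length ∧ FineL M δ L (x :: q₁ ++ x :: q₂) ∧
      (∀ e ∈ cyc (x :: q₁), ‖e.1 - e.2‖ ≤ η) ∧ (∀ e ∈ cyc (x :: q₂), ‖e.1 - e.2‖ ≤ η) ∧
      llen M (cyc (x :: q₁)) = llen M (cyc (x :: l₁)) ∧
      llen M (cyc (x :: q₂)) = llen M (cyc (x :: l₂)) ∧
      Λ.I (x :: q₁ ++ x :: q₂) - Λ.I (x :: q₁) - Λ.I (x :: q₂) =
        Λ.I (x :: l₁ ++ x :: l₂) - Λ.I (x :: l₁) - Λ.I (x :: l₂) := by
  obtain ⟨q₁, n1, m1, v1⟩ := DRefB_one hδ0 hδ Λ h.left hη N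
  obtain ⟨q₂, n2, m2, v2⟩ := DRefB_one hδ0 hδ Λ h.right hη N
  obtain ⟨a1, a2, a3⟩ := loop_move hδ0 v1 h.left
  obtain ⟨b1, b2, b3⟩ := loop_move hδ0 v2 h.right
  have e1 : x :: l₁ ++ x :: l₂ = [] ++ (x :: l₁ ++ [x]) ++ l₂ := by simp
  have e2 : [] ++ (x :: q₁ ++ [x]) ++ l₂ = x :: q₁ ++ x :: l₂ := by simp
  have e3 : x :: l₂ ++ x :: q₁ = [] ++ (x :: l₂ ++ [x]) ++ q₁ := by simp
  have e4 : [] ++ (x :: q₂ ++ [x]) ++ q₁ = x :: q₂ ++ x :: q₁ := by simp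
  have h1 := h
  rw [e1] at h1
  obtain ⟨c1, c2, c3⟩ := v1 [] l₂ h1
  rw [e2] at c1
  rw [e2, ← e1] at c2
  obtain ⟨d1, d2, d3⟩ := fine_comm Λ (u := x :: q₁) (v := x :: l₂) c1
  rw [e3] at d1
  obtain ⟨f1, f2, f3⟩ := v2 [] q₁ d1
  rw [e4] at f1
  rw [e4, ← e3] at f2
  obtain ⟨g1, g2, g3⟩ := fine_comm Λ (u := x :: q₂) (v := x :: q₁) f1
  refine ⟨q₁, q₂, n1, n2, g1, m1, m2, a3, b3, ?_⟩
  rw [g2, f2, d2, c2, a2, b2]

end CGA
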