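import Pool.Agent.CGA.DFine
import Pool.Agent.CGA.DRefB

/-! PROJECT CGA, module DStart: a bouquet with nonzero defect gives configurations of small energy with arbitrarily small time steps.

PROOF.  `S = llen M (cyc (x :: l₁)) + llen M (cyc (x :: l₂)) < L` (`h.len`, `cyc_join`, `mass_add`, `mass_coe`), `0 ≤ S` (`llen_nonneg`), `L' = (S + L)/2`.  Given `δ₁`: `F` from `M.exists_bounds`, `C` from
`ell_sum_le`, `ε = (L - S)/8`; choose `0 < η ≤ 1` with `C η S ≤ (L - S)/4`, `F η / ε ≤ δ₁/2`, and `N ≥ 2` with `1/(N + 1) ≤ δ₁/2`.  `exists_refine` gives `q₁, q₂`; with `n = q₁.length`, `m = q₂.length`,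
`p = ((x :: q₁).get, (x :: q₂).get)` (`List.ofFn_get`; `(x :: q).length = q.length + 1` is definitional).  Edges: `cyc_ofFn`, so `‖X (i+1) - X i‖ ≤ η`, and `∑ ell = llen M (cyc (x :: q₁))`.
`en_time` gives `τ`, `σ` with `√En ≤ ∑ ch + ε ≤ (1 + C η) llen M (cyc (x :: l₁)) + ε`; the sum is
`≤ S + C η S + 2 ε ≤ S + (L - S)/4 + (L - S)/4 = L'`.
-/

set_option linter.all false

namespace CGA

open scoped RealInnerProductSpace Real Topology
open MeasureTheory Set Filter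

private theorem DStart_one (M : Met) {F C : ℝ} (hC : 0 < C) (hf : ∀ x : E, ‖x‖ = 1 → M.f x ≤ F)
    (hE : ∀ (n : ℕ) [NeZero n] (X : Fin n → E) (μ : ℝ),
      (∀ i, ‖X i‖ = 1) → μ ≤ 1 → (∀ i, ‖X (i + 1) - X i‖ ≤ μ) →
        ∑ i, ell M (X i) (X (i + 1)) ≤ (1 + C * μ) * ∑ i, ch M X i ∧
        ∑ i, ch M X i ≤ (1 + C * μ) * ∑ i, ell M (X i) (X (i + 1)))
    {δ₁ ε η : ℝ} (hε : 0 < ε) (hη1 : η ≤ 1) (hη2 : F * η / ε ≤ δ₁ / 2) {N : ℕ}
    (hN : 1 / ((N : ℝ) + 1) ≤ δ₁ / 2) {x : E} {q : List E} (hq : N ≤ q.length)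
    (hu : ∀ y ∈ x :: q, ‖y‖ = 1) (he : ∀ e ∈ cyc (x :: q), ‖e.1 - e.2‖ ≤ η) :
    ∃ (τ : Fin (q.length + 1) → ℝ) (X : Fin (q.length + 1) → E), Times τ δ₁ ∧
      List.ofFn X = x :: q ∧ X 0 = x ∧ (∀ i, ‖X i‖ = 1) ∧
      √(En M τ X) ≤ (1 + C * η) * llen M (cyc (x :: q)) + ε := by
  let X : Fin (q.length + 1) → E := fun i => (x :: q).get i
  have hX : List.ofFn X = x :: q := List.ofFn_get (x :: q)
  have hXu : ∀ i, ‖X i‖ = 1 := fun i => hu _ (List.get_mem (x :: q) i)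
  have hcy : cyc (x :: q) = List.ofFn fun i => (X i, X (i + 1)) := by
    rw [← hX, cyc_ofFn]
  have hed : ∀ i, ‖X (i + 1) - X i‖ ≤ η := by
    intro i
    have h1 := he (X i, X (i + 1)) (by
      rw [hcy]
      exact List.mem_ofFn.2 ⟨i, rfl⟩)
    rw [norm_sub_rev]
    exact h1
  have hll : ∑ i, ell M (X i) (X (i + 1)) = llen M (cyc (x :: q)) := by
    rw [hcy, llen, List.map_ofFn, List.sum_ofFn]
    rfl
  obtain ⟨τ, h1, h2, h3, h4⟩ := en_time M hf X hXu hed hε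
  refine ⟨τ, X, ⟨h1, fun i => (h2 i).trans ?_, h3⟩, hX, rfl, hXu, ?_⟩
  · have h5 : 1 / ((q.length + 1 : ℕ) : ℝ) ≤ 1 / ((N : ℝ) + 1) := by
      apply one_div_le_one_div_of_le (by positivity)
      push_cast
      have : (N : ℝ) ≤ q.length := by exact_mod_cast hq
      linarith
    linarith
  · have h5 := (hE _ X η hXu hη1 hed).2
    rw [hll] at h5
    linarith

theorem bq_start (M : Met) {δ L : ℝ} (hδ : 0 < δ) (hδ' : δ ≤ 1) (Λ : Lift M δ L) {x : E}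
    {l₁ l₂ : List E} (h : FineL M δ L (x :: l₁ ++ x :: l₂))
    (hJ : Λ.I (x :: l₁ ++ x :: l₂) - Λ.I (x :: l₁) - Λ.I (x :: l₂) ≠ 0) :
    ∃ L' : ℝ, 0 < L' ∧ L' < L ∧ ∀ δ₁ > 0, ∃ (n m : ℕ) (τ : Fin (n + 1) → ℝ)
      (σ : Fin (m + 1) → ℝ) (p : Cf n m), 2 ≤ n ∧ 2 ≤ m ∧ Times τ δ₁ ∧ Times σ δ₁ ∧ Conf p ∧
        HP M τ σ p ≤ L' ∧ Λ.JP p ≠ 0 := by
  set S := llen M (cyc (x :: l₁)) + llen M (cyc (x :: l₂)) with hS
  have hS0 : 0 ≤ S := add_nonneg (llen_nonneg M _) (llen_nonneg M _)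
  have hSL : S < L := by
    have h1 := h.len
    rw [← mass_coe, cyc_join, mass_add, mass_coe, mass_coe] at h1
    exact h1
  refine ⟨(S + L) / 2, by linarith, by linarith, fun δ₁ hδ₁ => ?_⟩
  obtain ⟨m, F, K, hm, hmF, hK, hf, -, -⟩ := M.exists_bounds
  have hF : 0 < F := lt_of_lt_of_le hm hmF
  have hf' : ∀ x : E, ‖x‖ = 1 → M.f x ≤ F := fun x hx => (hf x (by
    intro h0
    rw [h0, norm_zero] at hx
    exact zero_ne_one hx)).2
  obtain ⟨C, hC, hE⟩ := ell_sum_le M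
  have hε : 0 < (L - S) / 8 := by linarith
  obtain ⟨η, hη, hη1, hη2, hη3⟩ : ∃ η > 0, η ≤ 1 ∧ C * η * S ≤ (L - S) / 4 ∧
      F * η / ((L - S) / 8) ≤ δ₁ / 2 := by
    refine ⟨min 1 (min ((L - S) / (4 * C * (S + 1))) (δ₁ * ((L - S) / 8) / (2 * F))), ?_, ?_, ?_, ?_⟩
    · refine lt_min one_pos (lt_min ?_ ?_)
      · exact div_pos (by linarith) (by positivity)
      · positivity
    · exact min_le_left _ _
    · have h1 : min 1 (min ((L - S) / (4 * C * (S + 1))) (δ₁ * ((L - S) / 8) / (2 * F))) ≤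
          (L - S) / (4 * C * (S + 1)) := (min_le_right _ _).trans (min_le_left _ _)
      have h2 : C * ((L - S) / (4 * C * (S + 1))) * (S + 1) = (L - S) / 4 := by
        have : S + 1 ≠ 0 := by linarith
        field_simp
      have h0 : 0 ≤ C * ((L - S) / (4 * C * (S + 1))) :=
        mul_nonneg hC.le (div_nonneg (by linarith) (by positivity))
      calc C * min 1 (min ((L - S) / (4 * C * (S + 1))) (δ₁ * ((L - S) / 8) / (2 * F))) * S
          ≤ C * ((L - S) / (4 * C * (S + 1))) * S :=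
            mul_le_mul_of_nonneg_right (mul_le_mul_of_nonneg_left h1 hC.le) hS0
        _ ≤ C * ((L - S) / (4 * C * (S + 1))) * (S + 1) :=
            mul_le_mul_of_nonneg_left (by linarith) h0
        _ = (L - S) / 4 := h2
    · have h1 : min 1 (min ((L - S) / (4 * C * (S + 1))) (δ₁ * ((L - S) / 8) / (2 * F))) ≤
          δ₁ * ((L - S) / 8) / (2 * F) := (min_le_right _ _).trans (min_le_right _ _)
      rw [div_le_iff₀ hε]
      calc F * min 1 (min ((L - S) / (4 * C * (S + 1))) (δ₁ * ((L - S) / 8) / (2 * F)))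
          ≤ F * (δ₁ * ((L - S) / 8) / (2 * F)) := mul_le_mul_of_nonneg_left h1 hF.le
        _ = δ₁ / 2 * ((L - S) / 8) := by field_simp
  obtain ⟨N₀, hN₀⟩ := exists_nat_one_div_lt (show (0:ℝ) < δ₁ / 2 by positivity)
  have hN : 1 / (((N₀ + 2 : ℕ) : ℝ) + 1) ≤ δ₁ / 2 := by
    refine le_trans ?_ hN₀.le
    apply one_div_le_one_div_of_le (by positivity)
    push_cast
    linarith
  obtain ⟨q₁, q₂, hl₁, hl₂, hfin, he₁, he₂, hle₁, hle₂, hJP⟩ :=
    exists_refine hδ.le hδ' Λ h hη (N₀ + 2)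
  obtain ⟨τ, X, hτ, hX, hX0, hXu, hXE⟩ := DStart_one M hC hf' (fun n _ => hE n) hε hη1 hη3 hN hl₁
    hfin.left.unit he₁
  obtain ⟨σ, Y, hσ, hY, hY0, hYu, hYE⟩ := DStart_one M hC hf' (fun n _ => hE n) hε hη1 hη3 hN hl₂
    hfin.right.unit he₂
  refine ⟨q₁.length, q₂.length, τ, σ, (X, Y), by omega, by omega, hτ, hσ,
    ⟨hXu, hYu, hX0.trans hY0.symm⟩, ?_, ?_⟩
  · unfold HP
    rw [hle₁] at hXE
    rw [hle₂] at hYE
    have h1 : (1 + C * η) * llen M (cyc (x :: l₁)) + (1 + C * η) * llen M (cyc (x :: l₂)) =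
        S + C * η * S := by
      rw [hS]
      ring
    simp only
    linarith
  · unfold Lift.JP
    simp only
    rw [hX, hY, hJP]
    exact hJ

end CGA
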