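import Pool.Agent.CGA.C1Unr

/-! PROJECT CGA, module DUnr: unrolling a closed polygon which is critical except at the base vertex.

`crit_unr0`: as `crit_unr` in C1Unr: the vertex `i + 1 < n` corresponds to `Fin.ofNat n (i+1) ≠ 0`; with `j = Fin.ofNat n (i+1)`: `j - 1 = Fin.ofNat n i`, `j + 1 = Fin.ofNat n (i+2)`, and the vector
in `CritN` is `GrC M τ X j` (`norm_sub_rev` in the second square where necessary).
`grC_zero`: `GrC M τ X 0 = 2 (MomC (0 - 1) - MomC 0) + (...) ∇f(X 0)` with `MomC (0 - 1) = Mom (unr) (n - 1)` (`Fin.ofNat n (n-1) = 0 - 1`: add `1` on both sides), `MomC 0 = Mom (unr) 0`;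
the scalar is `f(X_1) ee_0 + f(X_{-1}) ee_{-1}`, where `ee_i = τ_i ‖Mom_i‖² / (f_i f_{i+1})² ≤ δ ‖Mom_i‖² / m⁴` (`ee_eq` for the chains `unr τ`, `unr X`); so the norm of the difference is
`≤ F K / m⁴ * δ * (‖Mom_0‖² + ‖Mom_{n-1}‖²)`.
-/

set_option linter.all false

namespace CGA

open scoped RealInnerProductSpace Real Topology
open MeasureTheory Set Filter

private theorem DUnr_succ {n : ℕ} [NeZero n] (i : ℕ) :
    Fin.ofNat n (i + 1) = Fin.ofNat n i + 1 := by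
  apply Fin.ext
  rw [Fin.val_add]
  simp [Fin.ofNat]

private theorem DUnr_gr (M : Met) {n : ℕ} [NeZero n] (τ : Fin n → ℝ) (X : Fin n → E) (i : ℕ) :
    GrC M τ X (Fin.ofNat n (i + 1)) =
      (2:ℝ) • (Mom M (unr τ) (unr X) i - Mom M (unr τ) (unr X) (i + 1)) +
      (M.f (unr X (i + 2)) * ‖unr X (i + 2) - unr X (i + 1)‖ ^ 2 / unr τ (i + 1) +
        M.f (unr X i) * ‖unr X (i + 1) - unr X i‖ ^ 2 / unr τ i) •
        gradient M.f (unr X (i + 1)) := by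
  have h2 : Fin.ofNat n (i + 1) - 1 = Fin.ofNat n i := by
    rw [DUnr_succ, add_sub_cancel_right]
  have h3 : Fin.ofNat n (i + 1) + 1 = Fin.ofNat n (i + 2) := (DUnr_succ (i + 1)).symm
  have h4 : Fin.ofNat n i + 1 = Fin.ofNat n (i + 1) := (DUnr_succ i).symm
  unfold GrC MomC Mom unr
  rw [h2, h3, h4]

theorem crit_unr0 (M : Met) {n : ℕ} [NeZero n] (τ : Fin n → ℝ) (X : Fin n → E)
    (h : ∀ i ≠ 0, ∀ v, ⟪X i, v⟫ = 0 → ⟪GrC M τ X i, v⟫ = 0) (i : ℕ) (hi : i + 1 < n) :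
    CritN M (unr τ) (unr X) i := by
  intro v hv
  have h0 : Fin.ofNat n (i + 1) ≠ 0 := by
    intro h1
    have h2 := congrArg Fin.val h1
    simp [Fin.ofNat, Nat.mod_eq_of_lt hi] at h2
  have h1 := h (Fin.ofNat n (i + 1)) h0 v hv
  rw [DUnr_gr] at h1
  exact h1

theorem grC_zero (M : Met) : ∃ C > 0, ∀ (n : ℕ) [NeZero n] (τ : Fin n → ℝ) (X : Fin n → E) (δ : ℝ),
    (∀ i, 0 < τ i) → (∀ i, τ i ≤ δ) → (∀ i, ‖X i‖ = 1) →
      ‖GrC M τ X 0 - (2:ℝ) • (Mom M (unr τ) (unr X) (n - 1) - Mom M (unr τ) (unr X) 0)‖ ≤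
        C * δ * (‖Mom M (unr τ) (unr X) 0‖ ^ 2 + ‖Mom M (unr τ) (unr X) (n - 1)‖ ^ 2) := by
  obtain ⟨m, F, K, hc⟩ := exists_csts M
  have hm := hc.hm
  have hF := hc.hF
  have hK := hc.hK
  refine ⟨F * K / m ^ 4, by positivity, ?_⟩
  intro n _ τ X δ hτ hτδ hX
  have hn : 0 < n := Nat.pos_of_ne_zero (NeZero.ne n)
  have hτ' : ∀ i, 0 < unr τ i := fun i => hτ _
  have hX' : ∀ i, ‖unr X i‖ = 1 := fun i => hX _
  have hδ' : ∀ i, unr τ i ≤ δ := fun i => hτδ _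
  have h0 : (0 : Fin n) = Fin.ofNat n (n - 1 + 1) := by
    apply Fin.ext
    rw [Nat.sub_add_cancel hn]
    simp [Fin.ofNat]
  have h1 := DUnr_gr M τ X (n - 1)
  rw [← h0] at h1
  have e1 : n - 1 + 1 = n := Nat.sub_add_cancel hn
  have e2 : n - 1 + 2 = n + 1 := by omega
  rw [e1, e2, mom_unr] at h1
  rw [h1, add_sub_cancel_left]
  have hee : ∀ i, unr X (i + 1) = unr X (i + 1) →
      ‖unr X (i + 1) - unr X i‖ ^ 2 / unr τ i ≤ δ * ‖Mom M (unr τ) (unr X) i‖ ^ 2 / m ^ 4 := by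
    intro i _
    have h2 := ee_eq M (i := i) (hτ' i) hX'
    unfold ee at h2
    rw [h2]
    have f1 := hc.lo _ (hX' i)
    have f2 := hc.lo _ (hX' (i + 1))
    have h3 : m ^ 4 ≤ (M.f (unr X i) * M.f (unr X (i + 1))) ^ 2 := by
      have h4 : m * m ≤ M.f (unr X i) * M.f (unr X (i + 1)) :=
        mul_le_mul f1 f2 hm.le (hm.le.trans f1)
      calc m ^ 4 = (m * m) ^ 2 := by ring
        _ ≤ _ := pow_le_pow_left₀ (by positivity) h4 2
    refine div_le_div₀ ?_ ?_ (by positivity) h3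
    · exact mul_nonneg ((hτ' i).le.trans (hδ' i)) (by positivity)
    · exact mul_le_mul_of_nonneg_right (hδ' i) (by positivity)
  have hA := hee 0 rfl
  have hB := hee (n - 1) rfl
  rw [e1] at hB
  have hn1 : unr X (n + 1) = unr X (0 + 1) := by
    rw [unr_add, zero_add]
  have hn0 : unr X n = unr X 0 := by
    have := unr_add X 0
    rwa [add_zero] at this
  have ht0 : unr τ n = unr τ 0 := by
    have := unr_add τ 0
    rwa [add_zero] at this
  rw [hn1, hn0, ht0]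
  rw [hn0] at hB
  have p1 := hc.hi _ (hX' (0 + 1))
  have p2 := hc.hi _ (hX' (n - 1))
  have q1 := hm.le.trans (hc.lo _ (hX' (0 + 1)))
  have q2 := hm.le.trans (hc.lo _ (hX' (n - 1)))
  have r1 : 0 ≤ ‖unr X (0 + 1) - unr X 0‖ ^ 2 / unr τ 0 := div_nonneg (by positivity) (hτ' 0).le
  have r2 : 0 ≤ ‖unr X 0 - unr X (n - 1)‖ ^ 2 / unr τ (n - 1) :=
    div_nonneg (by positivity) (hτ' (n - 1)).le
  rw [norm_smul, mul_div_assoc, mul_div_assoc]
  have g := hc.gr _ (hX' 0)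
  have s1 := mul_le_mul p1 hA r1 hF.le
  have s2 := mul_le_mul p2 hB r2 hF.le
  have t1 := mul_nonneg q1 r1
  have t2 := mul_nonneg q2 r2
  rw [Real.norm_eq_abs, abs_of_nonneg (add_nonneg t1 t2)]
  have u := mul_le_mul (add_le_add s1 s2) g (norm_nonneg _) (add_nonneg (t1.trans s1) (t2.trans s2))
  refine u.trans (le_of_eq ?_)
  field_simp

end CGA
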