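import Pool.Agent.CGA.DMin
import Pool.Agent.CGA.DStart
import Pool.Agent.CGA.DSm
import Pool.Agent.CGA.DUnr
import Pool.Agent.CGA.C1LC
import Pool.Agent.CGA.C1Cl

/-! PROJECT CGA, module DLim: the limit of the minimisers.

`bq_conf`: `m` from `M.exists_bounds`, `r` from `JP_small`, `e = m r`.  Given `x, l₁, l₂` with nonzero defect: `L'` from `bq_start`, `δ₂` from `exists_fineP`.  For `δ₁ > 0` use `bq_start` for
`min δ₁ δ₂`; `bq_min`; for the minimiser `p`: `e ≤ √(En M τ p.1)` since otherwise all `‖p.1 i - p.1 0‖ ≤ r` (`en_dist_base`) and `JP p = 0` (`JP_small`, `p ∈ FineP`); the same for the second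
polygon by `JP_swap`.  So both energies are positive, `bq_crit`.

`bq_limit`: for `k : ℕ` take the data of `bq_conf` for `δ₁ = 1/(k+1)` (`choose`), `U = hyperfilter ℕ` (`Tendsto δ U (𝓝 0)`: `tendsto_one_div_add_atTop_nhds_zero_nat` and
`Nat.hyperfilter_le_atTop`).  `limChain` for the chains `unr (τ k)`, `unr (p k).1` with `n k + 1` steps (`crit_unr0`, `en_unr`, `tm_unr` (`tm` is the sum over `range`), energy `≤ L'²` because `√En ≤ L'`) gives `γ, w`, and for the second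
polygons `η, ω`.  `γ 1 = γ 0` (`unr_n`, `unr_zero`, uniqueness of limits), `η 0 = γ 0` (common base points), `η 1 = η 0`.
Speeds: `A = ‖w 0‖ / f(γ 0)`; `‖w t‖ = A f(γ t)` (`sol_speed`), the limit of `En M (τ k) (p k).1` is `∫_0^1 A² = A²`, so `√En → A` (`A ≥ 0`, `Real.continuous_sqrt`, `Real.sqrt_sq`),
`e ≤ A`; the same for `B`; `A + B ≤ L' < L` (`le_of_tendsto`).
Base: for `v ⟂ γ 0` let `v_k = v - ⟪x_k, v⟫ x_k` with `x_k = (p k).1 0 → γ 0`, so `v_k → v` and `⟪x_k, v_k⟫ = 0`.  By `grC_zero` `GrC M (τ k) (p k).1 0 → 2 (w 1 - w 0)` (`δ k → 0`, the momenta converge, so they are bounded along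
`U`: the product of a convergent sequence and a null sequence), the same for the second polygon.  The limit of `⟪(√En)⁻¹ • GrC .. + (√En)⁻¹ • GrC .., v_k⟫ = 0` is
`⟪A⁻¹ • 2 (w 1 - w 0) + B⁻¹ • 2 (ω 1 - ω 0), v⟫ = 0`; divide by `2`.
-/

set_option linter.all false

namespace CGA

open scoped RealInnerProductSpace Real Topology
open MeasureTheory Set Filter

theorem bq_conf (M : Met) {δ L : ℝ} (hδ : 0 < δ) (hδ' : δ ≤ 1) (Λ : Lift M δ L)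
    (hB : ¬ Λ.Bouquet) :
    ∃ L' e : ℝ, 0 < L' ∧ L' < L ∧ 0 < e ∧ ∀ δ₁ > 0, ∃ (n m : ℕ) (τ : Fin (n + 1) → ℝ)
      (σ : Fin (m + 1) → ℝ) (p : Cf n m), Times τ δ₁ ∧ Times σ δ₁ ∧ Conf p ∧ HP M τ σ p ≤ L' ∧
        e ≤ √(En M τ p.1) ∧ e ≤ √(En M σ p.2) ∧
        (∀ i ≠ 0, ∀ v, ⟪p.1 i, v⟫ = 0 → ⟪GrC M τ p.1 i, v⟫ = 0) ∧
        (∀ i ≠ 0, ∀ v, ⟪p.2 i, v⟫ = 0 → ⟪GrC M σ p.2 i, v⟫ = 0) ∧
        ∀ v, ⟪p.1 0, v⟫ = 0 → ⟪(√(En M τ p.1))⁻¹ • GrC M τ p.1 0 +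
          (√(En M σ p.2))⁻¹ • GrC M σ p.2 0, v⟫ = 0 := by
  obtain ⟨m, F, K, hm, hmF, hK, hb, -, -⟩ := M.exists_bounds
  obtain ⟨r, hr, hsm⟩ := JP_small M
  unfold Lift.Bouquet at hB
  push Not at hB
  obtain ⟨x, l₁, l₂, hf, hne⟩ := hB
  obtain ⟨L', hL', hLL, hst⟩ := bq_start M hδ hδ' Λ hf (by intro h; apply hne; linarith)
  obtain ⟨δ₂, hδ₂, hfin⟩ := exists_fineP M hδ hδ' hL' hLL
  have hmr : 0 < m * r := by positivity
  refine ⟨L', m * r, hL', hLL, hmr, ?_⟩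
  intro δ₁ hδ₁
  obtain ⟨n, k, τ, σ, p₀, hn, hk, hτ, hσ, hc, hH, hJ⟩ := hst (min δ₁ δ₂) (lt_min hδ₁ hδ₂)
  have hτ2 : Times τ δ₂ := ⟨hτ.pos, fun i => (hτ.le i).trans (min_le_right _ _), hτ.sum⟩
  have hσ2 : Times σ δ₂ := ⟨hσ.pos, fun i => (hσ.le i).trans (min_le_right _ _), hσ.sum⟩
  obtain ⟨p, hpc, hpH, hpJ, hpm⟩ := bq_min M hδ' Λ τ σ
    (fun q hq hqH => hfin n k τ σ q hτ2 hσ2 hq hqH) p₀ hc hH hJ
  have hpF := hfin n k τ σ p hτ2 hσ2 hpc hpH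
  have hf1 : ∀ x : E, ‖x‖ = 1 → m ≤ M.f x := fun x hx => (hb x (by rintro rfl; simp at hx)).1
  have h1 : m * r ≤ √(En M τ p.1) := by
    by_contra hlt
    push Not at hlt
    apply hpJ
    apply hsm δ L hδ.le hδ' Λ n k p hpF
    intro i
    have h2 := en_dist_base M hm hf1 hτ.pos hτ.sum p.1 hpc.1 i
    have h3 : m * ‖p.1 i - p.1 0‖ < m * r := lt_of_le_of_lt h2 hlt
    exact (lt_of_mul_lt_mul_left h3 hm.le).le
  have h2 : m * r ≤ √(En M σ p.2) := by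
    by_contra hlt
    push Not at hlt
    obtain ⟨h3, h4⟩ := JP_swap Λ hpF
    apply hpJ
    rw [← h4]
    apply hsm δ L hδ.le hδ' Λ k n (p.2, p.1) h3
    intro i
    have h2 := en_dist_base M hm hf1 hσ.pos hσ.sum p.2 hpc.2.1 i
    have h3 : m * ‖p.2 i - p.2 0‖ < m * r := lt_of_le_of_lt h2 hlt
    exact (lt_of_mul_lt_mul_left h3 hm.le).le
  have hA : 0 < En M τ p.1 := Real.sqrt_pos.1 (lt_of_lt_of_le hmr h1)
  have hB' : 0 < En M σ p.2 := Real.sqrt_pos.1 (lt_of_lt_of_le hmr h2)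
  obtain ⟨c1, c2, c3⟩ := bq_crit M hpc hA hB' hpm
  exact ⟨n, k, τ, σ, p, ⟨hτ.pos, fun i => (hτ.le i).trans (min_le_left _ _), hτ.sum⟩,
    ⟨hσ.pos, fun i => (hσ.le i).trans (min_le_left _ _), hσ.sum⟩, hpc, hpH, h1, h2, c1, c2, c3⟩

/-- one family of closed polygons which are critical except at the base vertex -/
private theorem DLim_one (M : Met) {L' e : ℝ} (hL' : 0 < L') (he : 0 < e) (n : ℕ → ℕ)
    (τ : ∀ k, Fin (n k + 1) → ℝ) (X : ∀ k, Fin (n k + 1) → E)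
    (hτ : ∀ k : ℕ, Times (τ k) (1 / ((k : ℝ) + 1))) (hX : ∀ k i, ‖X k i‖ = 1)
    (hlo : ∀ k, e ≤ √(En M (τ k) (X k))) (hhi : ∀ k, √(En M (τ k) (X k)) ≤ L')
    (hcr : ∀ k, ∀ i ≠ 0, ∀ v, ⟪X k i, v⟫ = 0 → ⟪GrC M (τ k) (X k) i, v⟫ = 0) :
    ∃ (A : ℝ) (γ w : ℝ → E), 0 < A ∧ Sol M 0 1 γ w ∧ γ 1 = γ 0 ∧ ‖w 0‖ = A * M.f (γ 0) ∧
      ‖w 1‖ = A * M.f (γ 0) ∧ Tendsto (fun k => X k 0) (hyperfilter ℕ : Filter ℕ) (𝓝 (γ 0)) ∧
      Tendsto (fun k => √(En M (τ k) (X k))) (hyperfilter ℕ : Filter ℕ) (𝓝 A) ∧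
      Tendsto (fun k => GrC M (τ k) (X k) 0) (hyperfilter ℕ : Filter ℕ)
        (𝓝 ((2:ℝ) • (w 1 - w 0))) := by
  have hδ0 : Tendsto (fun k : ℕ => 1 / ((k : ℝ) + 1)) (hyperfilter ℕ : Filter ℕ) (𝓝 0) :=
    tendsto_one_div_add_atTop_nhds_zero_nat.mono_left Nat.hyperfilter_le_atTop
  have hEn : ∀ k, En M (τ k) (X k) ≤ L' ^ 2 := by
    intro k
    have h1 := hhi k
    exact (Real.sqrt_le_left hL'.le).1 h1
  have hEn0 : ∀ k, 0 < En M (τ k) (X k) := fun k =>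
    Real.sqrt_pos.1 (lt_of_lt_of_le he (hlo k))
  obtain ⟨γ, w, hS, t0, t1, tm0, tm1, tE⟩ := limChain M (hyperfilter ℕ) (fun k => n k + 1)
    (fun k => unr (τ k)) (fun k => unr (X k)) (fun k : ℕ => 1 / ((k : ℝ) + 1)) (L' ^ 2) hδ0
    (fun k => Nat.succ_pos _) (fun k i => (hτ k).pos _) (fun k i _ => (hτ k).le _)
    (fun k => by
      have h1 := tm_unr (τ k)
      rw [(hτ k).sum] at h1
      exact h1)
    (fun k i => hX k _) (fun k i hi => crit_unr0 M (τ k) (X k) (hcr k) i hi)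
    (fun k => by
      change EnN M (n k + 1) (unr (τ k)) (unr (X k)) ≤ L' ^ 2
      rw [en_unr]
      exact hEn k)
  have e0 : ∀ k, unr (X k) 0 = X k 0 := fun k => unr_zero (X k)
  have e1 : ∀ k, unr (X k) (n k + 1) = X k 0 := fun k => unr_n (X k)
  have e2 : ∀ k, EnN M (n k + 1) (unr (τ k)) (unr (X k)) = En M (τ k) (X k) := fun k =>
    en_unr M (τ k) (X k)
  simp only [e0] at t0
  simp only [e1] at t1
  simp only [e2] at tE
  have h10 : γ 1 = γ 0 := tendsto_nhds_unique t1 t0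
  have hu0 : ‖γ 0‖ = 1 := hS.unit 0 (by simp)
  have hne0 : γ 0 ≠ 0 := by
    intro h
    rw [h, norm_zero] at hu0
    exact zero_ne_one hu0
  have hf0 : 0 < M.f (γ 0) := M.pos _ hne0
  set A := ‖w 0‖ / M.f (γ 0) with hA
  have hA0 : 0 ≤ A := by positivity
  have hsp : ∀ t ∈ Icc (0:ℝ) 1, ‖w t‖ = A * M.f (γ t) := by
    intro t ht
    have h := sol_speed M hS ht (by simp : (0:ℝ) ∈ Icc (0:ℝ) 1)
    rw [hA]
    field_simp
    linarith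
  have hint : (∫ t in (0:ℝ)..1, ‖w t‖ ^ 2 / M.f (γ t) ^ 2) = A ^ 2 := by
    have h : (∫ t in (0:ℝ)..1, ‖w t‖ ^ 2 / M.f (γ t) ^ 2) = ∫ t in (0:ℝ)..1, A ^ 2 := by
      apply intervalIntegral.integral_congr
      intro t ht
      rw [uIcc_of_le zero_le_one] at ht
      have hut : ‖γ t‖ = 1 := hS.unit t ht
      have hnet : γ t ≠ 0 := by
        intro h
        rw [h, norm_zero] at hut
        exact zero_ne_one hut
      have hft : 0 < M.f (γ t) := M.pos _ hnet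
      change ‖w t‖ ^ 2 / M.f (γ t) ^ 2 = A ^ 2
      rw [hsp t ht]
      field_simp
    rw [h]
    simp
  rw [hint] at tE
  have tA : Tendsto (fun k => √(En M (τ k) (X k))) (hyperfilter ℕ : Filter ℕ) (𝓝 A) := by
    have h := (Real.continuous_sqrt.tendsto (A ^ 2)).comp tE
    rwa [Real.sqrt_sq hA0] at h
  have heA : e ≤ A := ge_of_tendsto' tA hlo
  refine ⟨A, γ, w, lt_of_lt_of_le he heA, hS, h10, hsp 0 (by simp), ?_, t0, tA, ?_⟩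
  · rw [hsp 1 (by simp), h10]
  · obtain ⟨C, hC, hg⟩ := grC_zero M
    have tm1' : Tendsto (fun k => Mom M (unr (τ k)) (unr (X k)) (n k)) (hyperfilter ℕ : Filter ℕ)
        (𝓝 (w 1)) := by
      have h : (fun k => Mom M (unr (τ k)) (unr (X k)) (n k + 1 - 1)) =
          fun k => Mom M (unr (τ k)) (unr (X k)) (n k) := by
        funext k
        rw [Nat.add_sub_cancel]
      rw [← h]
      exact tm1
    have hlim : Tendsto (fun k => (2:ℝ) • (Mom M (unr (τ k)) (unr (X k)) (n k) -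
        Mom M (unr (τ k)) (unr (X k)) 0)) (hyperfilter ℕ : Filter ℕ) (𝓝 ((2:ℝ) • (w 1 - w 0))) :=
      (tm1'.sub tm0).const_smul 2
    have hz : Tendsto (fun k => GrC M (τ k) (X k) 0 - (2:ℝ) • (Mom M (unr (τ k)) (unr (X k)) (n k) -
        Mom M (unr (τ k)) (unr (X k)) 0)) (hyperfilter ℕ : Filter ℕ) (𝓝 0) := by
      apply squeeze_zero_norm (a := fun k : ℕ => C * (1 / ((k : ℝ) + 1)) *
        (‖Mom M (unr (τ k)) (unr (X k)) 0‖ ^ 2 + ‖Mom M (unr (τ k)) (unr (X k)) (n k)‖ ^ 2))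
      · intro k
        have h := hg (n k + 1) (τ k) (X k) (1 / ((k : ℝ) + 1)) (hτ k).pos (hτ k).le (hX k)
        rwa [Nat.add_sub_cancel] at h
      · have h := (hδ0.const_mul C).mul ((tm0.norm.pow 2).add (tm1'.norm.pow 2))
        simpa using h
    have h := hz.add hlim
    simpa using h

theorem bq_limit (M : Met) {δ L : ℝ} (hδ : 0 < δ) (hδ' : δ ≤ 1) (Λ : Lift M δ L)
    (hB : ¬ Λ.Bouquet) :
    ∃ A B : ℝ, 0 < A ∧ 0 < B ∧ A + B < L ∧ ∃ γ w η ω : ℝ → E, Sol M 0 1 γ w ∧ Sol M 0 1 η ω ∧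
      γ 1 = γ 0 ∧ η 0 = γ 0 ∧ η 1 = γ 0 ∧ ‖w 0‖ = A * M.f (γ 0) ∧ ‖w 1‖ = A * M.f (γ 0) ∧
      ‖ω 0‖ = B * M.f (γ 0) ∧ ‖ω 1‖ = B * M.f (γ 0) ∧
      ∀ v, ⟪γ 0, v⟫ = 0 → ⟪A⁻¹ • (w 1 - w 0) + B⁻¹ • (ω 1 - ω 0), v⟫ = 0 := by
  obtain ⟨L', e, hL', hLL, he, hall⟩ := bq_conf M hδ hδ' Λ hB
  have hall' : ∀ k : ℕ, ∃ (n m : ℕ) (τ : Fin (n + 1) → ℝ)
      (σ : Fin (m + 1) → ℝ) (p : Cf n m), Times τ (1 / ((k : ℝ) + 1)) ∧
        Times σ (1 / ((k : ℝ) + 1)) ∧ Conf p ∧ HP M τ σ p ≤ L' ∧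
        e ≤ √(En M τ p.1) ∧ e ≤ √(En M σ p.2) ∧
        (∀ i ≠ 0, ∀ v, ⟪p.1 i, v⟫ = 0 → ⟪GrC M τ p.1 i, v⟫ = 0) ∧
        (∀ i ≠ 0, ∀ v, ⟪p.2 i, v⟫ = 0 → ⟪GrC M σ p.2 i, v⟫ = 0) ∧
        ∀ v, ⟪p.1 0, v⟫ = 0 → ⟪(√(En M τ p.1))⁻¹ • GrC M τ p.1 0 +
          (√(En M σ p.2))⁻¹ • GrC M σ p.2 0, v⟫ = 0 := fun k => hall _ (by positivity)
  choose n m τ σ p hτ hσ hc hH h1 h2 c1 c2 c3 using hall'
  have hs1 : ∀ k, √(En M (τ k) (p k).1) ≤ L' := fun k => by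
    have h := hH k
    have h' := Real.sqrt_nonneg (En M (σ k) (p k).2)
    unfold HP at h
    linarith
  have hs2 : ∀ k, √(En M (σ k) (p k).2) ≤ L' := fun k => by
    have h := hH k
    have h' := Real.sqrt_nonneg (En M (τ k) (p k).1)
    unfold HP at h
    linarith
  obtain ⟨A, γ, w, hA, hS, g10, sw0, sw1, tx, tA, tG⟩ := DLim_one M hL' he n τ
    (fun k => (p k).1) hτ (fun k => (hc k).1) h1 hs1 c1
  obtain ⟨B, η, ω, hBp, hS', g10', so0, so1, tx', tB, tG'⟩ := DLim_one M hL' he m σ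
    (fun k => (p k).2) hσ (fun k => (hc k).2.1) h2 hs2 c2
  have hbase : η 0 = γ 0 := by
    refine tendsto_nhds_unique (tx'.congr fun k => ?_) tx
    exact (hc k).2.2.symm
  refine ⟨A, B, hA, hBp, ?_, γ, w, η, ω, hS, hS', g10, hbase, g10'.trans hbase, sw0, sw1, ?_, ?_, ?_⟩
  · have h : A + B ≤ L' := le_of_tendsto' (tA.add tB) hH
    linarith
  · rw [so0, hbase]
  · rw [so1, hbase]
  · intro v hv
    have tv : Tendsto (fun k => v - ⟪(p k).1 0, v⟫ • (p k).1 0) (hyperfilter ℕ : Filter ℕ)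
        (𝓝 v) := by
      have h : Tendsto (fun k => v - ⟪(p k).1 0, v⟫ • (p k).1 0) (hyperfilter ℕ : Filter ℕ)
          (𝓝 (v - ⟪γ 0, v⟫ • γ 0)) :=
        tendsto_const_nhds.sub ((tx.inner tendsto_const_nhds).smul tx)
      rwa [hv, zero_smul, sub_zero] at h
    have tz := Tendsto.inner (𝕜 := ℝ) (((tA.inv₀ hA.ne').smul tG).add ((tB.inv₀ hBp.ne').smul tG')) tv
    have hz : ∀ k, ⟪(√(En M (τ k) (p k).1))⁻¹ • GrC M (τ k) (p k).1 0 +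
        (√(En M (σ k) (p k).2))⁻¹ • GrC M (σ k) (p k).2 0, v - ⟪(p k).1 0, v⟫ • (p k).1 0⟫ = 0 := by
      intro k
      apply c3 k
      rw [inner_sub_right, inner_smul_right, real_inner_self_eq_norm_sq, (hc k).1 0]
      ring
    have h0 := tendsto_nhds_unique tz (tendsto_const_nhds.congr fun k => (hz k).symm)
    have h4 : A⁻¹ • (2:ℝ) • (w 1 - w 0) + B⁻¹ • (2:ℝ) • (ω 1 - ω 0) =
        (2:ℝ) • (A⁻¹ • (w 1 - w 0) + B⁻¹ • (ω 1 - ω 0)) := by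
      rw [smul_comm A⁻¹ (2:ℝ), smul_comm B⁻¹ (2:ℝ), smul_add]
    rw [h4, inner_smul_left] at h0
    simpa using h0

end CGA
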