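import Pool.Agent.CGA.DFine

/-! PROJECT CGA, module DMin: a minimiser of `HP` among the configurations with nonzero defect, and its criticality.

`bq_min`: `K = {p | Conf p ∧ HP p ≤ L'}` is compact (`conf_compact`), contained in `FineP` (`hfine`), `JP` is continuous on `K` (`JP_cont`) and integer valued (`JP_int`), so
`K' = {p ∈ K | JP p ≠ 0} = {p ∈ K | 1 ≤ |JP p|}` is closed in `K`, compact and contains `p₀`; `HP` is continuous (`HP_cont`), let `p` be a minimiser.  For a curve `q` as in the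
statement: `JP` is continuous at `p` within `K`, so there is a neighbourhood `W` of `p` with `|JP p' - JP p| < 1`, hence `JP p' = JP p ≠ 0`, for `p' ∈ W ∩ K`.  For `s` near `0`: `q s ∈ W`; if
`HP (q s) < HP p` then `q s ∈ K`, `JP (q s) ≠ 0`, so `q s ∈ K'` and `HP p ≤ HP (q s)`, a contradiction.  So `HP p ≤ HP (q s)`.

`bq_crit`: `A = √(En M τ p.1) > 0`, `B = √(En M σ p.2) > 0`.  For `i`, `v` with `⟪p.1 i, v⟫ = 0`, `i ≠ 0`: the curve `q s = (fun j => if j = i then nrm (p.1 i + s • v) else p.1 j, p.2)`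
is continuous, `q 0 = p` (`nrm_of_unit`), stays in `Conf` (`i ≠ 0`).  By `en_hasDerivAt` and `hasDerivAt_nrm` the derivative of `HP (q s)` at `0` is `⟪GrC M τ p.1 i, v⟫ / (2A)` (`HasDerivAt.sqrt`, `V = Pi.single i v`,
`Finset.sum_eq_single`), and it is `0` (`IsLocalMin.hasDerivAt_eq_zero`).  The same for the second polygon.  For the base: `q s = (j = 0 ↦ nrm (p.1 0 + s • v), ...)` in both
polygons: `⟪GrC M τ p.1 0, v⟫/(2A) + ⟪GrC M σ p.2 0, v⟫/(2B) = 0`.
-/

set_option linter.all false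

namespace CGA

open scoped RealInnerProductSpace Real Topology
open MeasureTheory Set Filter

private theorem DMin_en (M : Met) {n : ℕ} (τ : Fin (n + 1) → ℝ) (X : Fin (n + 1) → E)
    (hX : ∀ j, ‖X j‖ = 1) (i : Fin (n + 1)) {v : E} (hv : ⟪X i, v⟫ = 0) :
    HasDerivAt (fun s : ℝ => En M τ (Function.update X i (nrm (X i + s • v)))) ⟪GrC M τ X i, v⟫ 0 ∧
      Function.update X i (nrm (X i + (0 : ℝ) • v)) = X ∧
      Continuous (fun s : ℝ => Function.update X i (nrm (X i + s • v))) ∧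
      ∀ (s : ℝ) (j : Fin (n + 1)), ‖Function.update X i (nrm (X i + s • v)) j‖ = 1 := by
  obtain ⟨h1, h2, h3⟩ := hasDerivAt_nrm (hX i) hv
  have h0 : Function.update X i (nrm (X i + (0 : ℝ) • v)) = X := by
    rw [zero_smul, add_zero, nrm_of_unit (hX i), Function.update_eq_self]
  have h4 : ∀ (s : ℝ) (j : Fin (n + 1)), ‖Function.update X i (nrm (X i + s • v)) j‖ = 1 := by
    intro s j
    by_cases hj : j = i
    · subst hj
      rw [Function.update_self]
      exact h2 s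
    · rw [Function.update_of_ne hj]
      exact hX j
  refine ⟨?_, h0, ?_, h4⟩
  · have h5 := en_hasDerivAt M τ (fun s : ℝ => Function.update X i (nrm (X i + s • v)))
      (Pi.single i v) 0 (fun j => by
        by_cases hj : j = i
        · subst hj
          simp only [Function.update_self, Pi.single_eq_same]
          exact h1
        · simp only [Function.update_of_ne hj, Pi.single_eq_of_ne hj]
          exact hasDerivAt_const _ _) (fun j => by
        have := h4 0 j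
        intro h6
        rw [h6, norm_zero] at this
        exact zero_ne_one this)
    have h6 : ∑ j, ⟪GrC M τ (Function.update X i (nrm (X i + (0 : ℝ) • v))) j,
        (Pi.single i v : Fin (n + 1) → E) j⟫ = ⟪GrC M τ X i, v⟫ := by
      rw [h0, Finset.sum_eq_single i]
      · rw [Pi.single_eq_same]
      · intro j _ hj
        rw [Pi.single_eq_of_ne hj, inner_zero_right]
      · intro h
        exact absurd (Finset.mem_univ i) h
    rw [h6] at h5
    exact h5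
  · exact continuous_const.update i h3

theorem bq_min (M : Met) {δ L L' : ℝ} (hδ' : δ ≤ 1) (Λ : Lift M δ L) {n m : ℕ}
    (τ : Fin (n + 1) → ℝ) (σ : Fin (m + 1) → ℝ)
    (hfine : ∀ p : Cf n m, Conf p → HP M τ σ p ≤ L' → p ∈ FineP M δ L n m) (p₀ : Cf n m)
    (h₀ : Conf p₀) (h₀' : HP M τ σ p₀ ≤ L') (hJ : Λ.JP p₀ ≠ 0) :
    ∃ p : Cf n m, Conf p ∧ HP M τ σ p ≤ L' ∧ Λ.JP p ≠ 0 ∧ ∀ q : ℝ → Cf n m, ContinuousAt q 0 →
      q 0 = p → (∀ s, Conf (q s)) → IsLocalMin (fun s => HP M τ σ (q s)) 0 := by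
  set K : Set (Cf n m) := {p | Conf p ∧ HP M τ σ p ≤ L'} with hK
  have hKc : IsCompact K := conf_compact M τ σ L'
  have hKF : K ⊆ FineP M δ L n m := fun p hp => hfine p hp.1 hp.2
  have hJc : ContinuousOn (fun p : Cf n m => Λ.JP p) K := (JP_cont Λ n m).mono hKF
  have hHc : ContinuousOn (fun p : Cf n m => HP M τ σ p) K :=
    (HP_cont M τ σ).mono fun p hp => ⟨hp.1.1, hp.1.2.1⟩
  set K' : Set (Cf n m) := K ∩ (fun p : Cf n m => Λ.JP p) ⁻¹' {x | 1 ≤ |x|} with hK'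
  have hK'c : IsCompact K' := by
    refine hKc.of_isClosed_subset ?_ inter_subset_left
    exact hJc.preimage_isClosed_of_isClosed hKc.isClosed
      (isClosed_le continuous_const continuous_abs)
  have hone : ∀ p ∈ K, Λ.JP p ≠ 0 → 1 ≤ |Λ.JP p| := by
    intro p hp h
    obtain ⟨k, hk⟩ := JP_int hδ' Λ (hKF hp)
    rw [hk] at h ⊢
    have h1 : k ≠ 0 := by
      rintro rfl
      exact h (by norm_num)
    exact_mod_cast Int.one_le_abs h1
  have hp₀ : p₀ ∈ K' := ⟨⟨h₀, h₀'⟩, hone p₀ ⟨h₀, h₀'⟩ hJ⟩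
  obtain ⟨p, hp, hmin⟩ := hK'c.exists_isMinOn ⟨p₀, hp₀⟩ (hHc.mono inter_subset_left)
  have hJp : Λ.JP p ≠ 0 := by
    intro h
    have h1 : 1 ≤ |Λ.JP p| := hp.2
    rw [h, abs_zero] at h1
    linarith
  refine ⟨p, hp.1.1, hp.1.2, hJp, fun q hq hq0 hqc => ?_⟩
  have h1 := hJc p hp.1
  have h2 : {p' : Cf n m | |Λ.JP p' - Λ.JP p| < 1} ∈ 𝓝[K] p := by
    have h3 := Metric.tendsto_nhds.1 h1 1 one_pos
    filter_upwards [h3] with p' hp'
    rw [Real.dist_eq] at hp'
    exact hp'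
  obtain ⟨U, hUo, hpU, hU⟩ := mem_nhdsWithin.1 h2
  have h3 : ∀ᶠ s in 𝓝 (0 : ℝ), q s ∈ U := hq.eventually (hUo.mem_nhds (by rw [hq0]; exact hpU))
  filter_upwards [h3] with s hs
  rw [hq0]
  by_contra hlt
  push Not at hlt
  have hsK : q s ∈ K := ⟨hqc s, hlt.le.trans hp.1.2⟩
  have h4 : |Λ.JP (q s) - Λ.JP p| < 1 := hU ⟨hs, hsK⟩
  obtain ⟨k, hk⟩ := JP_int hδ' Λ (hKF hp.1)
  obtain ⟨k', hk'⟩ := JP_int hδ' Λ (hKF hsK)
  have h5 : k' = k := by
    rw [hk, hk'] at h4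
    have h6 : |k' - k| < 1 := by exact_mod_cast h4
    have h7 := Int.abs_lt_one_iff.1 h6
    omega
  have h6 : Λ.JP (q s) ≠ 0 := by
    rw [hk', h5, ← hk]
    exact hJp
  have h7 := hmin (show q s ∈ K' from ⟨hsK, hone _ hsK h6⟩)
  have h8 : HP M τ σ p ≤ HP M τ σ (q s) := h7
  linarith

theorem bq_crit (M : Met) {n m : ℕ} {τ : Fin (n + 1) → ℝ} {σ : Fin (m + 1) → ℝ} {p : Cf n m}
    (hp : Conf p) (hA : 0 < En M τ p.1) (hB : 0 < En M σ p.2)
    (hmin : ∀ q : ℝ → Cf n m, ContinuousAt q 0 → q 0 = p → (∀ s, Conf (q s)) →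
      IsLocalMin (fun s => HP M τ σ (q s)) 0) :
    (∀ i ≠ 0, ∀ v, ⟪p.1 i, v⟫ = 0 → ⟪GrC M τ p.1 i, v⟫ = 0) ∧
    (∀ i ≠ 0, ∀ v, ⟪p.2 i, v⟫ = 0 → ⟪GrC M σ p.2 i, v⟫ = 0) ∧
    ∀ v, ⟪p.1 0, v⟫ = 0 → ⟪(√(En M τ p.1))⁻¹ • GrC M τ p.1 0 +
      (√(En M σ p.2))⁻¹ • GrC M σ p.2 0, v⟫ = 0 := by
  have hp1 := hp.1
  have hp2 := hp.2.1
  have hp0 := hp.2.2
  refine ⟨fun i hi v hv => ?_, fun i hi v hv => ?_, fun v hv => ?_⟩
  · obtain ⟨h1, h2, h3, h4⟩ := DMin_en M τ p.1 hp1 i hv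
    have h5 := hmin (fun s : ℝ => (Function.update p.1 i (nrm (p.1 i + s • v)), p.2))
      (h3.prodMk continuous_const).continuousAt (by rw [h2]) (fun s => ⟨h4 s, hp2, by
        show Function.update p.1 i (nrm (p.1 i + s • v)) 0 = p.2 0
        rw [Function.update_of_ne (Ne.symm hi)]
        exact hp0⟩)
    have h6 := (h1.sqrt (by rw [h2]; exact hA.ne')).add_const (√(En M σ p.2))
    have h7 := h5.hasDerivAt_eq_zero h6
    rw [h2] at h7
    have h8 : 0 < √(En M τ p.1) := Real.sqrt_pos.2 hA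
    rw [div_eq_zero_iff] at h7
    rcases h7 with h7 | h7
    · exact h7
    · exfalso
      linarith
  · obtain ⟨h1, h2, h3, h4⟩ := DMin_en M σ p.2 hp2 i hv
    have h5 := hmin (fun s : ℝ => (p.1, Function.update p.2 i (nrm (p.2 i + s • v))))
      (continuous_const.prodMk h3).continuousAt (by rw [h2]) (fun s => ⟨hp1, h4 s, by
        show p.1 0 = Function.update p.2 i (nrm (p.2 i + s • v)) 0
        rw [Function.update_of_ne (Ne.symm hi)]
        exact hp0⟩)
    have h6 := (h1.sqrt (by rw [h2]; exact hB.ne')).const_add (√(En M τ p.1))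
    have h7 := h5.hasDerivAt_eq_zero h6
    rw [h2] at h7
    have h8 : 0 < √(En M σ p.2) := Real.sqrt_pos.2 hB
    rw [div_eq_zero_iff] at h7
    rcases h7 with h7 | h7
    · exact h7
    · exfalso
      linarith
  · have hv' : ⟪p.2 0, v⟫ = 0 := by
      rw [← hp0]
      exact hv
    obtain ⟨h1, h2, h3, h4⟩ := DMin_en M τ p.1 hp1 0 hv
    obtain ⟨k1, k2, k3, k4⟩ := DMin_en M σ p.2 hp2 0 hv'
    have h5 := hmin (fun s : ℝ => (Function.update p.1 0 (nrm (p.1 0 + s • v)),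
        Function.update p.2 0 (nrm (p.2 0 + s • v))))
      (h3.prodMk k3).continuousAt (by rw [h2, k2]) (fun s => ⟨h4 s, k4 s, by
        show Function.update p.1 0 (nrm (p.1 0 + s • v)) 0 =
          Function.update p.2 0 (nrm (p.2 0 + s • v)) 0
        rw [Function.update_self, Function.update_self, hp0]⟩)
    have h6 := (h1.sqrt (by rw [h2]; exact hA.ne')).add (k1.sqrt (by rw [k2]; exact hB.ne'))
    have h7 := h5.hasDerivAt_eq_zero h6
    rw [h2, k2] at h7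
    have h8 : 0 < √(En M τ p.1) := Real.sqrt_pos.2 hA
    have h9 : 0 < √(En M σ p.2) := Real.sqrt_pos.2 hB
    rw [inner_add_left, real_inner_smul_left, real_inner_smul_left]
    have h10 : (√(En M τ p.1))⁻¹ * ⟪GrC M τ p.1 0, v⟫ + (√(En M σ p.2))⁻¹ * ⟪GrC M σ p.2 0, v⟫ =
        2 * (⟪GrC M τ p.1 0, v⟫ / (2 * √(En M τ p.1)) + ⟪GrC M σ p.2 0, v⟫ / (2 * √(En M σ p.2))) := by
      field_simp
    rw [h10, h7, mul_zero]

end CGA
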