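import Pool.Agent.CGA.FIns

/-! PROJECT CGA, module DRefA: moves of paths inside fine polygons.

`lift_rotate`: induction on `k` with `Lift.rot` and `FineL.rotate` (`List.rotate_rotate`).
`fine_comm`: `(u ++ v).rotate u.length = v ++ u` (`List.rotate_append_length_eq`), `FineL.rotate`, `lift_rotate`; the length: `cyc_rotate_coe`, `mass_coe`
(`llen M s = mass M (s : Multiset _)`).
`PMove Λ P P'`: the path `P` can be replaced by the path `P'` in every fine polygon without change of the lift and of the length.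
`PMove.ctx`: `u ++ (s ++ P ++ t) ++ v = (u ++ s) ++ P ++ (t ++ v)` (`List.append_assoc`).
`PMove.insert`: by `fine_comm` the polygon `u ++ [a, b] ++ v` is replaced by `a :: b :: (v ++ u)`; `FineL.insert`, `lift_insert`; the length: write with `cyc_cons` and
`pth_cons_cons`: `cyc (a :: c :: b :: r) = (a, c) :: (c, b) :: pth (b :: r ++ [a])`, `cyc (a :: b :: r) = (a, b) :: pth (b :: r ++ [a])`, and `ell_add_nrm`.
Then `fine_comm` back.  `PMove.dup`: the same with `FineL.dup`, `Lift.dup`, `cyc_dup`, `ell_self`.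
`nrm_half_le`: `c = nrm ((1 - 1/2) • a + (1/2) • b)`, `d = ‖a - b‖ ≤ 1`.  `‖(a+b)/2‖² = 1 - d²/4` (`norm_seg_sq`), `⟪a, c⟫ = (1 + ⟪a,b⟫)/2 / ‖(a+b)/2‖ = √(1 - d²/4)`
(`unit_inner_le`), `‖a - c‖² = 2 - 2√(1 - d²/4) ≤ (4/9) d²` since `(1 - (2/9) d²)² ≤ 1 - d²/4` for `0 ≤ d ≤ 1`.
-/

set_option linter.all false

namespace CGA

open scoped RealInnerProductSpace Real Topology
open MeasureTheory Set Filter

variable {M : Met} {δ L : ℝ}

theorem lift_rotate (Λ : Lift M δ L) {l : List E} (h : FineL M δ L l) (k : ℕ) :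
    Λ.I (l.rotate k) = Λ.I l := by
  induction k with
  | zero => rw [List.rotate_zero]
  | succ k ih =>
    rw [← List.rotate_rotate l k 1, Λ.rot _ (h.rotate k), ih]

theorem fine_comm (Λ : Lift M δ L) {u v : List E} (h : FineL M δ L (u ++ v)) :
    FineL M δ L (v ++ u) ∧ Λ.I (v ++ u) = Λ.I (u ++ v) ∧
      llen M (cyc (v ++ u)) = llen M (cyc (u ++ v)) := by
  have e : (u ++ v).rotate u.length = v ++ u := List.rotate_append_length_eq u v
  refine ⟨?_, ?_, ?_⟩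
  · rw [← e]
    exact h.rotate _
  · rw [← e]
    exact lift_rotate Λ h _
  · rw [← e, ← mass_coe, cyc_rotate_coe, mass_coe]

/-- `P'` may replace the path `P` in every fine polygon -/
def PMove (Λ : Lift M δ L) (P P' : List E) : Prop :=
  ∀ u v : List E, FineL M δ L (u ++ P ++ v) → FineL M δ L (u ++ P' ++ v) ∧
    Λ.I (u ++ P' ++ v) = Λ.I (u ++ P ++ v) ∧
    llen M (cyc (u ++ P' ++ v)) = llen M (cyc (u ++ P ++ v))

theorem PMove.refl (Λ : Lift M δ L) (P : List E) : PMove Λ P P := fun _ _ h => ⟨h, rfl, rfl⟩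

theorem PMove.trans {Λ : Lift M δ L} {P P' P'' : List E} (h : PMove Λ P P') (h' : PMove Λ P' P'') :
    PMove Λ P P'' := by
  intro u v hf
  obtain ⟨a1, a2, a3⟩ := h u v hf
  obtain ⟨b1, b2, b3⟩ := h' u v a1
  exact ⟨b1, b2.trans a2, b3.trans a3⟩

theorem PMove.ctx {Λ : Lift M δ L} {P P' : List E} (h : PMove Λ P P') (s t : List E) :
    PMove Λ (s ++ P ++ t) (s ++ P' ++ t) := by
  intro u v hf
  have e : ∀ Q : List E, u ++ (s ++ Q ++ t) ++ v = (u ++ s) ++ Q ++ (t ++ v) := fun Q => by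
    simp only [List.append_assoc]
  rw [e] at hf ⊢
  rw [e]
  exact h (u ++ s) (t ++ v) hf

/-- a move of closed polygons at the beginning is a move of paths -/
private theorem DRefA_move (Λ : Lift M δ L) {P P' : List E}
    (h : ∀ v : List E, FineL M δ L (P ++ v) → FineL M δ L (P' ++ v) ∧
      Λ.I (P' ++ v) = Λ.I (P ++ v) ∧ llen M (cyc (P' ++ v)) = llen M (cyc (P ++ v))) :
    PMove Λ P P' := by
  intro u v hf
  rw [List.append_assoc] at hf ⊢
  rw [List.append_assoc]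
  obtain ⟨a1, a2, a3⟩ := fine_comm Λ hf
  rw [List.append_assoc] at a1 a2 a3
  obtain ⟨b1, b2, b3⟩ := h (v ++ u) a1
  rw [← List.append_assoc] at b1 b2 b3
  obtain ⟨c1, c2, c3⟩ := fine_comm Λ b1
  exact ⟨c1, c2.trans (b2.trans a2), c3.trans (b3.trans a3)⟩

theorem PMove.insert (hδ0 : 0 ≤ δ) (hδ : δ ≤ 1) (Λ : Lift M δ L) (a b : E) {t : ℝ}
    (ht : t ∈ Icc (0:ℝ) 1) : PMove Λ [a, b] [a, nrm ((1 - t) • a + t • b), b] := by
  refine DRefA_move Λ fun v hf => ?_
  have h2 : FineL M δ L (a :: b :: v) := hf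
  have ha : ‖a‖ = 1 := h2.unit a List.mem_cons_self
  have hb : ‖b‖ = 1 := h2.unit b (List.mem_cons_of_mem _ List.mem_cons_self)
  have e1 : cyc (a :: b :: v) = (a, b) :: pth (b :: v ++ [a]) := by
    rw [cyc_cons]
    rfl
  have e2 : cyc (a :: nrm ((1 - t) • a + t • b) :: b :: v) =
      (a, nrm ((1 - t) • a + t • b)) :: (nrm ((1 - t) • a + t • b), b) ::
        pth (b :: v ++ [a]) := by
    rw [cyc_cons]
    rfl
  have hab : ‖a - b‖ ≤ δ := h2.mesh (a, b) (by rw [e1]; exact List.mem_cons_self)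
  have hab2 : ‖a - b‖ < 2 := by linarith
  refine ⟨h2.insert hδ ht, lift_insert hδ0 hδ Λ h2 ht, ?_⟩
  change llen M (cyc (a :: nrm ((1 - t) • a + t • b) :: b :: v)) = llen M (cyc (a :: b :: v))
  rw [e1, e2]
  unfold llen
  rw [List.map_cons, List.sum_cons, List.map_cons, List.sum_cons, List.map_cons, List.sum_cons]
  have h3 := ell_add_nrm M ha hb hab2 ht
  simp only at h3 ⊢
  linarith

theorem PMove.dup (hδ0 : 0 ≤ δ) (Λ : Lift M δ L) (x : E) : PMove Λ [x] [x, x] := by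
  refine DRefA_move Λ fun v hf => ?_
  have h2 : FineL M δ L (x :: v) := hf
  refine ⟨h2.dup hδ0, Λ.dup x v h2, ?_⟩
  change llen M (cyc (x :: x :: v)) = llen M (cyc (x :: v))
  rw [← mass_coe, cyc_dup, mass_cons, mass_coe, ell_self, zero_add]

theorem nrm_half_le {a b : E} (ha : ‖a‖ = 1) (hb : ‖b‖ = 1) (h : ‖a - b‖ ≤ 1) :
    ‖a - nrm ((1 - 1 / 2 : ℝ) • a + (1 / 2 : ℝ) • b)‖ ≤ 2 / 3 * ‖a - b‖ ∧
      ‖nrm ((1 - 1 / 2 : ℝ) • a + (1 / 2 : ℝ) • b) - b‖ ≤ 2 / 3 * ‖a - b‖ := by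
  have hd := norm_nonneg (a - b)
  have h1 := norm_seg_sq ha hb (1 / 2)
  have h2 := unit_inner_le ha hb
  have hw0 : (1 - 1 / 2 : ℝ) • a + (1 / 2 : ℝ) • b ≠ 0 := seg_ne_zero ha hb (by linarith) _
  have hwn := norm_nrm hw0
  set w := (1 - 1 / 2 : ℝ) • a + (1 / 2 : ℝ) • b with hw
  have hwp : 0 < ‖w‖ := norm_pos_iff.2 hw0
  have h3 : ⟪a, w⟫ = ‖w‖ ^ 2 := by
    rw [hw, inner_add_right, inner_smul_right, inner_smul_right, real_inner_self_eq_norm_sq, ← hw,
      h1, ha, h2]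
    ring
  have h4 : ⟪w, b⟫ = ‖w‖ ^ 2 := by
    rw [hw, inner_add_left, real_inner_smul_left, real_inner_smul_left,
      real_inner_self_eq_norm_sq, ← hw, h1, hb, h2]
    ring
  have h5 : ⟪a, nrm w⟫ = ‖w‖ := by
    unfold nrm
    rw [inner_smul_right, h3]
    field_simp
  have h6 : ⟪nrm w, b⟫ = ‖w‖ := by
    unfold nrm
    rw [real_inner_smul_left, h4]
    field_simp
  have h7 : ‖a - nrm w‖ ^ 2 = 2 - 2 * ‖w‖ := by
    rw [@norm_sub_sq_real, h5, ha, hwn]
    ring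
  have h8 : ‖nrm w - b‖ ^ 2 = 2 - 2 * ‖w‖ := by
    rw [@norm_sub_sq_real, h6, hb, hwn]
    ring
  have hd2 : ‖a - b‖ ^ 2 ≤ 1 := by nlinarith
  have h9 : 1 - 2 / 9 * ‖a - b‖ ^ 2 ≤ ‖w‖ := by
    by_contra hc
    push Not at hc
    nlinarith [sq_nonneg ‖a - b‖]
  constructor
  · refine le_of_sq_le_sq ?_ (by positivity)
    rw [h7]
    nlinarith
  · refine le_of_sq_le_sq ?_ (by positivity)
    rw [h8]
    nlinarith

end CGA
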