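import Mathlib

/-! # PROJECT CGA (MP_249bb7_gt): basic definitions

Metrics `g = f² g₀` on the round sphere `S² ⊂ E = ℝ³`.  The factor `f` is a function on `E`,
positive and homogeneous of degree `0` away from `0`, of class `C²` there.
-/

set_option linter.all false

namespace CGA

open scoped RealInnerProductSpace Real Topology
open MeasureTheory Set Filter

noncomputable section

abbrev E := EuclideanSpace ℝ (Fin 3)

/-- triple product `det(a,b,c) = ⟪a, b × c⟫` -/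
def det3 (a b c : E) : ℝ :=
  a 0 * (b 1 * c 2 - b 2 * c 1) + a 1 * (b 2 * c 0 - b 0 * c 2) + a 2 * (b 0 * c 1 - b 1 * c 0)

/-- cross product -/
def crs (a b : E) : E :=
  WithLp.toLp 2 ![a 1 * b 2 - a 2 * b 1, a 2 * b 0 - a 0 * b 2, a 0 * b 1 - a 1 * b 0]

/-- radial projection to the unit sphere (`0 ↦ 0`) -/
def nrm (x : E) : E := ‖x‖⁻¹ • x

/-- A conformal metric `f² g₀` on `S²`. -/
structure Met where
  f : E → ℝ
  smooth : ContDiffOn ℝ 2 f {0}ᶜ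
  pos : ∀ x, x ≠ 0 → 0 < f x
  hom : ∀ (t : ℝ) (x : E), 0 < t → f (t • x) = f x

/-! ## Geodesics -/

/-- right hand side of the geodesic equation for the momentum `w = f(γ)² γ'` -/
def rhs (M : Met) (x w : E) : E :=
  (‖w‖ ^ 2 / M.f x ^ 3) • gradient M.f x - (‖w‖ ^ 2 / M.f x ^ 2) • x

/-- `(γ, w)` is a solution of the geodesic equation on `[a,b]` (integral form). -/
structure Sol (M : Met) (a b : ℝ) (γ w : ℝ → E) : Prop where
  cγ : ContinuousOn γ (Icc a b)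
  cw : ContinuousOn w (Icc a b)
  unit : ∀ t ∈ Icc a b, ‖γ t‖ = 1
  eqγ : ∀ t ∈ Icc a b, γ t = γ a + ∫ s in a..t, (M.f (γ s) ^ 2)⁻¹ • w s
  eqw : ∀ t ∈ Icc a b, w t = w a + ∫ s in a..t, rhs M (γ s) (w s)

/-- closed geodesic of length `ℓ > 0`: a solution on `[0,1]` with matching end data and
constant `g`-speed `‖w‖/f = ℓ`. -/
def ClosedGeo (M : Met) (ℓ : ℝ) : Prop :=
  ∃ γ w : ℝ → E, Sol M 0 1 γ w ∧ γ 1 = γ 0 ∧ w 1 = w 0 ∧ ∀ t ∈ Icc (0:ℝ) 1, ‖w t‖ = ℓ * M.f (γ t)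

/-- no closed geodesic of length in `(0, L]` -/
def NoGeo (M : Met) (L : ℝ) : Prop := ∀ ℓ, 0 < ℓ → ClosedGeo M ℓ → L < ℓ

/-! ## Lengths -/

/-- `g`-length of the (short) great circle arc from `a` to `b` (`a ≠ -b`) -/
def ell (M : Met) (a b : E) : ℝ :=
  ∫ t in (0:ℝ)..1, M.f ((1 - t) • a + t • b) * ‖crs a b‖ / ‖(1 - t) • a + t • b‖ ^ 2

/-- edges of a closed polygon -/
def cyc (l : List E) : List (E × E) := l.zip (l.rotate 1)

/-- edges of an open polygonal path -/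
def pth (l : List E) : List (E × E) := l.zip l.tail

/-- `g`-length of a list of edges -/
def llen (M : Met) (s : List (E × E)) : ℝ := (s.map fun e => ell M e.1 e.2).sum

/-- `g`-length of a multiset of edges -/
def mass (M : Met) (s : Multiset (E × E)) : ℝ := (s.map fun e => ell M e.1 e.2).sum

/-- closed polygon with unit vertices, mesh `≤ δ`, length `< L` -/
structure FineL (M : Met) (δ L : ℝ) (l : List E) : Prop where
  ne : l ≠ []
  unit : ∀ x ∈ l, ‖x‖ = 1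
  mesh : ∀ e ∈ cyc l, ‖e.1 - e.2‖ ≤ δ
  len : llen M (cyc l) < L

/-- the distance of `g` (infimum over polygonal paths) -/
def dist' (M : Met) (x y : E) : ℝ :=
  sInf {r | ∃ l : List E, (∀ z ∈ l, ‖z‖ = 1) ∧ l.head? = some x ∧ l.getLast? = some y ∧
    (∀ e ∈ pth l, ‖e.1 - e.2‖ ≤ 1) ∧ r = llen M (pth l)}

/-! ## Discrete energy -/

/-- energy of a closed `n`-gon `X` with time steps `τ` -/
def En (M : Met) {n : ℕ} [NeZero n] (τ : Fin n → ℝ) (X : Fin n → E) : ℝ :=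
  ∑ i, M.f (X i) * M.f (X (i + 1)) * ‖X (i + 1) - X i‖ ^ 2 / τ i

/-- momentum of the `i`-th step of a chain -/
def Mom (M : Met) (τ : ℕ → ℝ) (X : ℕ → E) (i : ℕ) : E :=
  (M.f (X i) * M.f (X (i + 1)) / τ i) • (X (i + 1) - X i)

/-- the chain is critical at the interior vertex `i + 1` -/
def CritN (M : Met) (τ : ℕ → ℝ) (X : ℕ → E) (i : ℕ) : Prop :=
  ∀ v, ⟪X (i + 1), v⟫ = 0 →
    ⟪(2:ℝ) • (Mom M τ X i - Mom M τ X (i + 1)) +
      (M.f (X (i + 2)) * ‖X (i + 2) - X (i + 1)‖ ^ 2 / τ (i + 1) +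
        M.f (X i) * ‖X (i + 1) - X i‖ ^ 2 / τ i) • gradient M.f (X (i + 1)), v⟫ = 0

/-- energy of a chain with `n` steps -/
def EnN (M : Met) (n : ℕ) (τ : ℕ → ℝ) (X : ℕ → E) : ℝ :=
  ∑ i ∈ Finset.range n, M.f (X i) * M.f (X (i + 1)) * ‖X (i + 1) - X i‖ ^ 2 / τ i

/-- momentum of the closed polygon `X` -/
def MomC (M : Met) {n : ℕ} [NeZero n] (τ : Fin n → ℝ) (X : Fin n → E) (i : Fin n) : E :=
  (M.f (X i) * M.f (X (i + 1)) / τ i) • (X (i + 1) - X i)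

/-- gradient (up to the normal part) of the energy of a closed polygon with respect to `X i` -/
def GrC (M : Met) {n : ℕ} [NeZero n] (τ : Fin n → ℝ) (X : Fin n → E) (i : Fin n) : E :=
  (2:ℝ) • (MomC M τ X (i - 1) - MomC M τ X i) +
    (M.f (X (i + 1)) * ‖X (i + 1) - X i‖ ^ 2 / τ i +
      M.f (X (i - 1)) * ‖X i - X (i - 1)‖ ^ 2 / τ (i - 1)) • gradient M.f (X i)

/-! ## Holonomy -/

/-- `4 tr(P_a P_b P_c)` -/
def T3 (a b c : E) : ℂ := ⟨1 + ⟪a, b⟫ + ⟪b, c⟫ + ⟪c, a⟫, det3 a b c⟩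

/-- normalised area of the spherical triangle `(a,b,c)`, in `(-1/2, 1/2]` -/
def Th (a b c : E) : ℝ := (T3 a b c).arg / (2 * π)

/-- the projector `(1 + x·σ)/2` -/
def Pm (x : E) : Matrix (Fin 2) (Fin 2) ℂ :=
  (1 / 2 : ℂ) • !![1 + (x 2 : ℂ), (x 0 : ℂ) - (x 1 : ℂ) * Complex.I;
    (x 0 : ℂ) + (x 1 : ℂ) * Complex.I, 1 - (x 2 : ℂ)]

/-- Bargmann invariant of a closed polygon -/
def Bg (l : List E) : ℂ := ((l.map Pm).prod).trace

/-! ## The real lift of the holonomy -/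

structure Lift (M : Met) (δ L : ℝ) where
  I : List E → ℝ
  cont : ∀ n : ℕ, ContinuousOn (fun X : Fin n → E => I (List.ofFn X))
    {X | FineL M δ L (List.ofFn X)}
  hol : ∀ l, FineL M δ L l → Complex.exp (2 * π * Complex.I * (I l : ℂ)) * (‖Bg l‖ : ℂ) = Bg l
  dup : ∀ x l, FineL M δ L (x :: l) → I (x :: x :: l) = I (x :: l)
  rot : ∀ l, FineL M δ L l → I (l.rotate 1) = I l
  rev : ∀ l, FineL M δ L l → I l.reverse = - I l
  sing : ∀ x, ‖x‖ = 1 → I [x] = 0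

/-- additivity on bouquets of two loops -/
def Lift.Bouquet {M : Met} {δ L : ℝ} (Λ : Lift M δ L) : Prop :=
  ∀ (x : E) (l₁ l₂ : List E), FineL M δ L (x :: l₁ ++ x :: l₂) →
    Λ.I (x :: l₁ ++ x :: l₂) = Λ.I (x :: l₁) + Λ.I (x :: l₂)

/-- balanced multiset of darts, unit end points, mesh `≤ δ`, mass `< L` -/
structure Good (M : Met) (δ L : ℝ) (s : Multiset (E × E)) : Prop where
  unit : ∀ e ∈ s, ‖e.1‖ = 1 ∧ ‖e.2‖ = 1
  mesh : ∀ e ∈ s, ‖e.1 - e.2‖ ≤ δ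
  bal : s.map Prod.fst = s.map Prod.snd
  len : mass M s < L

/-- total lift for balanced systems of darts -/
structure Tot (M : Met) (δ L r : ℝ) where
  T : Multiset (E × E) → ℝ
  add : ∀ s t, Good M δ L s → Good M δ L t → mass M s + mass M t < L → T (s + t) = T s + T t
  cancel : ∀ s a b, Good M δ L s → ‖a‖ = 1 → ‖b‖ = 1 → ‖a - b‖ ≤ δ → mass M s + 2 * ell M a b < L →
    T ((a, b) ::ₘ (b, a) ::ₘ s) = T s
  rev : ∀ s, Good M δ L s → T (s.map Prod.swap) = - T s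
  sub : ∀ s a b, Good M δ L ((a, b) ::ₘ s) → ∀ t ∈ Icc (0:ℝ) 1,
    T ((a, nrm ((1 - t) • a + t • b)) ::ₘ (nrm ((1 - t) • a + t • b), b) ::ₘ s) = T ((a, b) ::ₘ s)
  hol : ∀ s, Good M δ L s → ∀ q : E, ‖q‖ = 1 → (∀ e ∈ s, det3 q e.1 e.2 ≠ 0) →
    ∃ k : ℤ, T s = (s.map fun e => Th q e.1 e.2).sum + k
  loc : ∀ s, Good M δ L s → ∀ q : E, ‖q‖ = 1 → (∀ e ∈ s, ‖e.1 - q‖ ≤ r) →
    T s = (s.map fun e => Th q e.1 e.2).sum

/-! ## Arrangements of great circles and integer functions -/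

/-- canonical choice of one of `±v` -/
def Can (v : E) : Prop := 0 < v 0 ∨ (v 0 = 0 ∧ (0 < v 1 ∨ (v 1 = 0 ∧ 0 < v 2)))

/-- a finite set of unit normals, one for each plane, which contains the coordinate vectors -/
structure IsArr (N : Finset E) : Prop where
  unit : ∀ n ∈ N, ‖n‖ = 1
  can : ∀ n ∈ N, Can n
  coord : ∀ i : Fin 3, EuclideanSpace.single i (1:ℝ) ∈ N

/-- off the planes of `N` the function `u` depends only on the sides -/
def Fn (N : Finset E) (u : E → ℤ) : Prop :=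
  ∀ x y, (∀ n ∈ N, 0 < ⟪n, x⟫ * ⟪n, y⟫) → u x = u y

/-- `u` is an arrangement function -/
def AF (u : E → ℤ) : Prop := ∃ N, IsArr N ∧ Fn N u

/-- off the planes of `N` -/
def Gen (N : Finset E) (x : E) : Prop := ∀ n ∈ N, ⟪n, x⟫ ≠ 0

/-- vertices of the arrangement -/
def Vert (N : Finset E) : Set E :=
  {v | ‖v‖ = 1 ∧ ∃ n ∈ N, ∃ m ∈ N, n ≠ m ∧ ⟪n, v⟫ = 0 ∧ ⟪m, v⟫ = 0}

/-- `(a,b)` is an edge of the great circle with normal `n`, counterclockwise around `n` -/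
structure IsEdge (N : Finset E) (n a b : E) : Prop where
  mem : n ∈ N
  va : a ∈ Vert N
  vb : b ∈ Vert N
  na : ⟪n, a⟫ = 0
  nb : ⟪n, b⟫ = 0
  pos : 0 < det3 n a b
  no : ∀ c ∈ Vert N, ⟪n, c⟫ = 0 → ¬ (0 < det3 n a c ∧ 0 < det3 n c b)

/-- edges as a set of triples `(n, a, b)` -/
def EdgeSet (N : Finset E) : Set (E × E × E) := {e | IsEdge N e.1 e.2.1 e.2.2}

/-- value of `u` on the side `n` of the point `m` -/
def sv (u : E → ℤ) (m n : E) : ℤ := limUnder (𝓝[>] (0:ℝ)) (fun ε : ℝ => u (m + ε • n))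

/-- jump of `u` across the great circle with normal `n` at the point `m` -/
def Jmp (u : E → ℤ) (n m : E) : ℤ := sv u m n - sv u m (-n)

/-- total variation computed in the arrangement `N` -/
def TVN (M : Met) (N : Finset E) (u : E → ℤ) : ℝ :=
  ∑ᶠ e ∈ EdgeSet N, |(Jmp u e.1 (e.2.1 + e.2.2) : ℝ)| * ell M e.2.1 e.2.2

open Classical in
/-- total variation -/
def TV (M : Met) (u : E → ℤ) : ℝ := if h : AF u then TVN M h.choose u else 0

/-- the signed indicator function of the triangle `(a,b,c)` -/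
def tri (a b c : E) (p : E) : ℤ :=
  if 0 < det3 p b c ∧ 0 < det3 a p c ∧ 0 < det3 a b p ∧ 0 < det3 a b c then 1
  else if det3 p b c < 0 ∧ det3 a p c < 0 ∧ det3 a b p < 0 ∧ det3 a b c < 0 then -1 else 0

/-- cone over a system of darts -/
def coneF (x : E) (s : Multiset (E × E)) (p : E) : ℤ := (s.map fun e => tri x e.1 e.2 p).sum

/-- the integer `c(u)` -/
structure CC (M : Met) (L r : ℝ) where
  c : (E → ℤ) → ℤ
  add : ∀ u v, AF u → AF v → TV M u + TV M v < L → c (fun x => u x + v x) = c u + c v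
  neg : ∀ u, AF u → TV M u < L → c (fun x => - u x) = - c u
  const : ∀ u (k : ℤ), AF u → TV M u < L → c (fun x => u x + k) = c u - k
  loc : ∀ u, AF u → TV M u < L → ∀ q : E, ‖q‖ = 1 →
    (∃ N, IsArr N ∧ ∀ x, Gen N x → r < ‖nrm x - q‖ → u x = 0) → c u = 0

/-! ## Round circles -/

/-- positively oriented orthonormal frame `(v, e₁, e₂)` -/
structure Frm (v e₁ e₂ : E) : Prop where
  v1 : ‖v‖ = 1
  e1 : ‖e₁‖ = 1
  e2 : ‖e₂‖ = 1
  v_e1 : ⟪v, e₁⟫ = 0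
  v_e2 : ⟪v, e₂⟫ = 0
  e1_e2 : ⟪e₁, e₂⟫ = 0
  or : det3 v e₁ e₂ = 1

/-- point of the circle `{x ∈ S² : ⟪v,x⟫ = t}` -/
def cpt (v e₁ e₂ : E) (t φ : ℝ) : E :=
  t • v + √(1 - t ^ 2) • (Real.cos φ • e₁ + Real.sin φ • e₂)

/-- `g`-length of the circle `{x ∈ S² : ⟪v,x⟫ = t}` -/
def clen (M : Met) (v e₁ e₂ : E) (t : ℝ) : ℝ :=
  ∫ φ in (0:ℝ)..(2 * π), M.f (cpt v e₁ e₂ t φ) * √(1 - t ^ 2)

/-- area of the metric -/
def Area (M : Met) : ℝ :=
  ∫ x : Metric.sphere (0 : E) 1, M.f (x : E) ^ 2 ∂((volume : Measure E).toSphere)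

/-- inscribed `n`-gon -/
def ngon (v e₁ e₂ : E) (t : ℝ) (n : ℕ) : List E :=
  List.ofFn fun j : Fin n => cpt v e₁ e₂ t (2 * π * (j : ℝ) / n)

/-- the function of the cap `{⟪v,x⟫ > t}` approximated by the `n`-gon -/
def capF (v e₁ e₂ : E) (t : ℝ) (n : ℕ) : E → ℤ := coneF v (cyc (ngon v e₁ e₂ t n))

end

end CGA
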