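import Pool.Agent.CGA.FIns
import Pool.Agent.CGA.ATh
import Pool.Agent.CGA.ACtr

/-! PROJECT CGA, module FHol: the lift and the triangle function `Th`.

`lift_hol`: `exp_cone` (consecutive vertices are not antipodal: `‖e.1 - e.2‖ ≤ δ ≤ 1`, and `‖e.1 - e.2‖ = 2` if `e.1 = -e.2`)
and `Lift.hol` give `exp (2πi Σ) ‖Bg‖ = exp (2πi I) ‖Bg‖`, `‖Bg‖ ≠ 0` (`FineL.Bg_ne_zero`); `Complex.exp_eq_exp_iff_exists_int`.

`lift_const_list`: `Λ.I (List.replicate (n + 1) q) = 0` by induction with `Lift.dup`, `Lift.sing` (`FineL` of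
`List.replicate (n+1) q`: `cyc` consists of the pairs `(q, q)`, `ell_self`; or by induction with `FineL.dup`).

`lift_loc`: `r` from `exists_ctr`; `l = List.ofFn x`, `x : Fin n → E`, `n = l.length ≠ 0`.  `X t i = ctr q t (x i)`,
`g t = ∑ i, Th q (X t i) (X t (i + 1))` (`cyc_ofFn`).  `‖x i - q‖ ≤ r ≤ 1/2` gives `0 < ⟪q, x i⟫` (`unit_inner_le`).  The
polygons `List.ofFn (X t)` are fine: `norm_ctr`, and by `exists_ctr` (`cyc_ofFn`) the mesh and all `ell` do not increase.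
`X` is continuous on `[0,1]` (`continuousOn_ctr`), `g` is continuous (`continuousAt_Th`, the slit plane condition holds since
`0 < (T3 ..).re` by `Th_small`).  `hint` of `lift_const` is `lift_hol` (`X t i ≠ -q` as `‖X t i - q‖ ≤ 1/2`).  At `t = 1` all points are `q`
(`ctr_one`), `I = 0` and `g 1 = 0` (`Th_self`), at `t = 0` it is the polygon `l` (`ctr_zero`). -/

set_option linter.all false

namespace CGA

open scoped RealInnerProductSpace Real Topology
open MeasureTheory Set Filter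

private theorem FHol_anti {M : Met} {δ L : ℝ} (hδ : δ ≤ 1) {l : List E} (h : FineL M δ L l) :
    ∀ e ∈ cyc l, e.1 ≠ -e.2 := by
  intro e he hcon
  have h1 : e.2 ∈ l := by
    have h2 := (List.of_mem_zip (show (e.1, e.2) ∈ l.zip (l.rotate 1) from he)).2
    exact List.mem_rotate.1 h2
  have h3 := h.unit e.2 h1
  have h4 := h.mesh e he
  have h5 : e.1 - e.2 = (-2 : ℝ) • e.2 := by
    rw [hcon, neg_smul, two_smul]
    abel
  rw [h5, norm_smul, h3] at h4
  norm_num at h4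
  linarith

private theorem FHol_llen {M : Met} {n : ℕ} [NeZero n] (X : Fin n → E) :
    llen M (cyc (List.ofFn X)) = ∑ i, ell M (X i) (X (i + 1)) := by
  rw [cyc_ofFn]
  unfold llen
  rw [List.map_ofFn, List.sum_ofFn]
  rfl

private theorem FHol_sum {q : E} {n : ℕ} [NeZero n] (X : Fin n → E) :
    ((cyc (List.ofFn X)).map fun e => Th q e.1 e.2).sum = ∑ i, Th q (X i) (X (i + 1)) := by
  rw [cyc_ofFn, List.map_ofFn, List.sum_ofFn]
  rfl

private theorem FHol_rep {M : Met} {δ L : ℝ} (hδ : 0 ≤ δ) (hL : 0 < L) {q : E} (hq : ‖q‖ = 1) :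
    ∀ n : ℕ, FineL M δ L (List.replicate (n + 1) q) := by
  intro n
  induction n with
  | zero =>
    refine ⟨by simp, ?_, ?_, ?_⟩
    · intro x hx
      rw [(List.mem_replicate.1 hx).2]
      exact hq
    · intro e he
      have h1 : e = (q, q) := by simpa [cyc] using he
      rw [h1]
      simpa using hδ
    · have h1 : cyc (List.replicate (0 + 1) q) = [(q, q)] := by simp [cyc]
      rw [h1]
      unfold llen
      simpa using hL
  | succ n ih =>
    rw [List.replicate_succ] at ih ⊢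
    rw [List.replicate_succ]
    exact ih.dup hδ

theorem lift_hol {M : Met} {δ L : ℝ} (hδ : δ ≤ 1) (Λ : Lift M δ L) {l : List E}
    (h : FineL M δ L l) {q : E} (hq : ‖q‖ = 1) (hql : ∀ x ∈ l, x ≠ - q) :
    ∃ k : ℤ, Λ.I l = ((cyc l).map fun e => Th q e.1 e.2).sum + k := by
  have hanti := FHol_anti hδ h
  have h1 := exp_cone hq h.ne h.unit hanti hql
  have h2 := Λ.hol l h
  have h0 : Bg l ≠ 0 := h.Bg_ne_zero hδ
  have hn0 : ((‖Bg l‖ : ℝ) : ℂ) ≠ 0 := by exact_mod_cast (norm_pos_iff.2 h0).ne'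
  have h3 : Complex.exp (2 * π * Complex.I * (Λ.I l : ℂ)) =
      Complex.exp (2 * π * Complex.I * (((cyc l).map fun e => Th q e.1 e.2).sum : ℝ)) :=
    mul_right_cancel₀ hn0 (h2.trans h1.symm)
  obtain ⟨n, hn⟩ := Complex.exp_eq_exp_iff_exists_int.1 h3
  refine ⟨n, ?_⟩
  have hpi : (2 * π * Complex.I : ℂ) ≠ 0 := by
    have := Real.pi_ne_zero
    have h5 : (π : ℂ) ≠ 0 := by exact_mod_cast this
    exact mul_ne_zero (mul_ne_zero two_ne_zero h5) Complex.I_ne_zero
  have h6 : (2 * π * Complex.I : ℂ) * (Λ.I l : ℂ) =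
      (2 * π * Complex.I : ℂ) * ((((cyc l).map fun e => Th q e.1 e.2).sum : ℝ) + n) := by
    rw [hn]
    ring
  have h7 := mul_left_cancel₀ hpi h6
  have h8 : ((Λ.I l : ℝ) : ℂ) = ((((cyc l).map fun e => Th q e.1 e.2).sum + n : ℝ) : ℂ) := by
    rw [h7]
    push_cast
    rfl
  exact Complex.ofReal_injective h8

theorem lift_const_list {M : Met} {δ L : ℝ} (hδ : 0 ≤ δ) (hL : 0 < L) (Λ : Lift M δ L) {q : E}
    (hq : ‖q‖ = 1) (n : ℕ) : Λ.I (List.replicate (n + 1) q) = 0 := by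
  induction n with
  | zero => exact Λ.sing q hq
  | succ n ih =>
    have h := FHol_rep (M := M) hδ hL hq n
    rw [List.replicate_succ] at h ih
    rw [List.replicate_succ, List.replicate_succ, Λ.dup q _ h]
    exact ih

theorem lift_loc {M : Met} {δ L : ℝ} (hδ0 : 0 ≤ δ) (hδ : δ ≤ 1) (hL : 0 < L) (Λ : Lift M δ L) :
    ∃ r > 0, r ≤ 1 / 2 ∧ ∀ q : E, ‖q‖ = 1 → ∀ l : List E, FineL M δ L l →
      (∀ x ∈ l, ‖x - q‖ ≤ r) → Λ.I l = ((cyc l).map fun e => Th q e.1 e.2).sum := by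
  obtain ⟨r, hr, hr2, hc⟩ := exists_ctr M
  refine ⟨r, hr, hr2, fun q hq l hl hlr => ?_⟩
  obtain ⟨n, x, hx⟩ : ∃ (n : ℕ) (x : Fin n → E), List.ofFn x = l :=
    ⟨l.length, fun i => l.get i, List.ofFn_get l⟩
  have hn : NeZero n := by
    refine ⟨fun h0 => hl.ne ?_⟩
    rw [← hx]
    subst h0
    simp
  have hxl : ∀ i, x i ∈ l := by
    intro i
    rw [← hx]
    exact List.mem_ofFn.2 ⟨i, rfl⟩
  have hxu : ∀ i, ‖x i‖ = 1 := fun i => hl.unit _ (hxl i)
  have hxr : ∀ i, ‖x i - q‖ ≤ r := fun i => hlr _ (hxl i)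
  have hxe : ∀ i, (x i, x (i + 1)) ∈ cyc l := by
    intro i
    rw [← hx, cyc_ofFn]
    exact List.mem_ofFn.2 ⟨i, rfl⟩
  have hqx : ∀ i, 0 < ⟪q, x i⟫ := by
    intro i
    rw [unit_inner_le hq (hxu i)]
    have h1 : ‖q - x i‖ ≤ 1 / 2 := by
      rw [norm_sub_rev]
      exact (hxr i).trans hr2
    have h2 := norm_nonneg (q - x i)
    nlinarith
  obtain ⟨X, hX⟩ : ∃ X : ℝ → Fin n → E, X = fun t i => ctr q t (x i) := ⟨_, rfl⟩
  have hXu : ∀ t ∈ Icc (0:ℝ) 1, ∀ i, ‖X t i‖ = 1 := by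
    intro t ht i
    rw [hX]
    exact norm_ctr hq (hqx i) ht
  have hXq : ∀ t ∈ Icc (0:ℝ) 1, ∀ i, ‖X t i - q‖ ≤ 1 / 2 := by
    intro t ht i
    rw [hX]
    exact ((hc q hq t ht _ _ (hxu i) (hxu i) (hxr i) (hxr i)).2.2.2.trans (hxr i)).trans hr2
  have hF : ∀ t ∈ Icc (0:ℝ) 1, FineL M δ L (List.ofFn (X t)) := by
    intro t ht
    refine ⟨?_, ?_, ?_, ?_⟩
    · intro h0
      have h1 := congrArg List.length h0
      rw [List.length_ofFn, List.length_nil] at h1
      exact hn.out h1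
    · intro y hy
      obtain ⟨i, rfl⟩ := List.mem_ofFn.1 hy
      exact hXu t ht i
    · intro e he
      rw [cyc_ofFn] at he
      obtain ⟨i, rfl⟩ := List.mem_ofFn.1 he
      have h1 := (hc q hq t ht _ _ (hxu i) (hxu (i + 1)) (hxr i) (hxr (i + 1))).2.2.1
      have h2 := hl.mesh _ (hxe i)
      rw [hX]
      exact h1.trans h2
    · rw [FHol_llen]
      have h1 := hl.len
      rw [← hx, FHol_llen] at h1
      refine lt_of_le_of_lt (Finset.sum_le_sum fun i _ => ?_) h1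
      rw [hX]
      exact (hc q hq t ht _ _ (hxu i) (hxu (i + 1)) (hxr i) (hxr (i + 1))).1
  have hXi : ∀ i, ContinuousOn (fun t => X t i) (Icc 0 1) := by
    intro i
    rw [hX]
    exact (continuousOn_ctr hq).comp (f := fun t : ℝ => (t, x i)) (by fun_prop)
      fun t ht => ⟨ht, hqx i⟩
  have hXc : ContinuousOn X (Icc 0 1) := continuousOn_pi.2 hXi
  have hg : ContinuousOn (fun t => ∑ i, Th q (X t i) (X t (i + 1))) (Icc 0 1) := by
    refine continuousOn_finset_sum _ fun i _ => ?_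
    intro t ht
    have h1 := (Th_small hq (hXu t ht i) (hXu t ht (i + 1)) (hXq t ht i) (hXq t ht (i + 1))).2
    have h2 := continuousAt_Th (a := q) (b := X t i) (c := X t (i + 1)) (Or.inl h1)
    have h3 : ContinuousWithinAt (fun t => (q, X t i, X t (i + 1))) (Icc 0 1) t :=
      continuousWithinAt_const.prodMk ((hXi i t ht).prodMk (hXi (i + 1) t ht))
    exact ContinuousAt.comp_continuousWithinAt (g := fun p : E × E × E => Th p.1 p.2.1 p.2.2)
      (f := fun t => (q, X t i, X t (i + 1))) h2 h3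
  have h1 := lift_const Λ X hXc hF (fun t => ∑ i, Th q (X t i) (X t (i + 1))) hg (by
    intro t ht
    obtain ⟨k, hk⟩ := lift_hol hδ Λ (hF t ht) hq (by
      intro y hy
      obtain ⟨i, rfl⟩ := List.mem_ofFn.1 hy
      intro hcon
      have h4 := hXq t ht i
      rw [hcon] at h4
      have h5 : -q - q = (-2 : ℝ) • q := by
        rw [neg_smul, two_smul]
        abel
      rw [h5, norm_smul, hq] at h4
      norm_num at h4)
    refine ⟨k, ?_⟩
    rw [hk, FHol_sum])
  have e1 : X 1 = fun _ => q := by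
    rw [hX]
    funext i
    exact ctr_one hq (hqx i)
  have e0 : X 0 = x := by
    rw [hX]
    funext i
    exact ctr_zero (hxu i)
  have h2 : Λ.I (List.ofFn (X 1)) = 0 := by
    rw [e1, List.ofFn_const]
    obtain ⟨k, hk⟩ : ∃ k, n = k + 1 := Nat.exists_eq_succ_of_ne_zero hn.out
    rw [hk]
    exact lift_const_list hδ0 hL Λ hq k
  have h3 : ∑ i, Th q (X 1 i) (X 1 (i + 1)) = 0 := by
    rw [e1]
    exact Finset.sum_eq_zero fun i _ => Th_self hq hq
  have h4 : Λ.I (List.ofFn (X 1)) - ∑ i, Th q (X 1 i) (X 1 (i + 1)) =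
      Λ.I (List.ofFn (X 0)) - ∑ i, Th q (X 0 i) (X 0 (i + 1)) := h1
  rw [h2, h3, e0, ← FHol_sum, hx] at h4
  linarith

end CGA
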