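import Pool.Agent.CGA.FTotB
import Pool.Agent.CGA.FHol

/-! PROJECT CGA, module FFin: the total lift exists (chunk F).

`sum_edg`: induction on `S` (`edg_cons`, `Multiset.map_add`, `Multiset.sum_add`, `Multiset.map_coe`, `Multiset.sum_coe`).
`totT_hol`: a system `S` of `s`; every vertex `x` of `l ∈ S` is `e.1` for an edge `e ∈ cyc l`, `e ∈ s`, so `det3 q x e.2 ≠ 0` and
`x ≠ -q`; `lift_hol` for every `l ∈ S` and sum (induction on `S`).
`totT_loc`: the same with `lift_loc`.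
`tot_exists`: `δ' = δ`, `r` from `lift_loc`, `T = totT Λ`. -/

set_option linter.all false

namespace CGA

open scoped RealInnerProductSpace Real Topology
open MeasureTheory Set Filter

theorem sum_edg (f : E × E → ℝ) (S : List (List E)) :
    ((edgF S).map f).sum = (S.map fun l => ((cyc l).map f).sum).sum := by
  induction S with
  | nil => rw [edg_nil]; simp
  | cons l S ih =>
    rw [edg_cons, Multiset.map_add, Multiset.sum_add, ih, Multiset.map_coe, Multiset.sum_coe,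
      List.map_cons, List.sum_cons]

private theorem FFin_sum {I f : List E → ℝ} (S : List (List E))
    (h : ∀ l ∈ S, ∃ k : ℤ, I l = f l + k) : ∃ k : ℤ, (S.map I).sum = (S.map f).sum + k := by
  induction S with
  | nil => exact ⟨0, by simp⟩
  | cons l S ih =>
    obtain ⟨k1, h1⟩ := h l List.mem_cons_self
    obtain ⟨k2, h2⟩ := ih fun l' hl' => h l' (List.mem_cons_of_mem _ hl')
    refine ⟨k1 + k2, ?_⟩
    rw [List.map_cons, List.map_cons, List.sum_cons, List.sum_cons, h1, h2]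
    push_cast
    ring

private theorem FFin_vert {l : List E} {x : E} (hx : x ∈ l) : ∃ e ∈ cyc l, e.1 = x := by
  have h1 := cyc_fst l
  have h0 : x ∈ (l : Multiset E) := Multiset.mem_coe.2 hx
  rw [← h1] at h0
  obtain ⟨e, he, h2⟩ := Multiset.mem_map.1 h0
  exact ⟨e, Multiset.mem_coe.1 he, h2⟩

theorem totT_hol {M : Met} {δ L L' : ℝ} (hδ : δ ≤ 1) (hL : L' ≤ L) (Λ : Lift M δ L)
    (hΛ : Λ.Bouquet) {s : Multiset (E × E)} (hs : Good M δ L' s) {q : E} (hq : ‖q‖ = 1)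
    (h : ∀ e ∈ s, det3 q e.1 e.2 ≠ 0) :
    ∃ k : ℤ, totT Λ s = (s.map fun e => Th q e.1 e.2).sum + k := by
  obtain ⟨S, hS, rfl⟩ := exists_sys hs.bal
  rw [totT_eq le_rfl hL Λ hΛ hs hS rfl, sum_edg]
  refine FFin_sum S fun l hl => ?_
  have hle := le_edg hl
  refine lift_hol hδ Λ (fine_of_le le_rfl hL hs (hS l hl) hle) hq fun x hx hxq => ?_
  obtain ⟨e, he, h2⟩ := FFin_vert hx
  refine h e (Multiset.mem_of_le hle (Multiset.mem_coe.2 he)) ?_
  rw [h2, hxq]
  simp only [det3, PiLp.neg_apply]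
  ring

theorem totT_loc {M : Met} {δ L L' : ℝ} (hL : L' ≤ L) (Λ : Lift M δ L)
    (hΛ : Λ.Bouquet) {r : ℝ} {q : E} (hloc : ∀ l : List E, FineL M δ L l →
      (∀ x ∈ l, ‖x - q‖ ≤ r) → Λ.I l = ((cyc l).map fun e => Th q e.1 e.2).sum)
    {s : Multiset (E × E)} (hs : Good M δ L' s) (h : ∀ e ∈ s, ‖e.1 - q‖ ≤ r) :
    totT Λ s = (s.map fun e => Th q e.1 e.2).sum := by
  obtain ⟨S, hS, rfl⟩ := exists_sys hs.bal
  rw [totT_eq le_rfl hL Λ hΛ hs hS rfl, sum_edg]
  refine congrArg List.sum (List.map_congr_left fun l hl => ?_)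
  have hle := le_edg hl
  refine hloc l (fine_of_le le_rfl hL hs (hS l hl) hle) fun x hx => ?_
  obtain ⟨e, he, h2⟩ := FFin_vert hx
  rw [← h2]
  exact h e (Multiset.mem_of_le hle (Multiset.mem_coe.2 he))

theorem tot_exists (M : Met) {δ L L' : ℝ} (hδ : 0 < δ) (hδ' : δ ≤ 1) (hL' : 0 < L') (hLL : L' < L)
    (Λ : Lift M δ L) (hΛ : Λ.Bouquet) :
    ∃ δ' > 0, δ' ≤ δ ∧ ∃ r > 0, Nonempty (Tot M δ' L' r) := by
  obtain ⟨r, hr, _, hloc⟩ := lift_loc hδ.le hδ' (hL'.trans hLL) Λ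
  exact ⟨δ, hδ, le_rfl, r, hr, ⟨{
    T := totT Λ
    add := fun s t hs ht h => totT_add hLL.le Λ hΛ hs ht h
    cancel := fun s a b hs ha hb hab h => totT_cancel hLL.le Λ hΛ hs ha hb hab h
    rev := fun s hs => totT_rev hLL.le Λ hΛ hs
    sub := fun s a b hs t ht => totT_sub hδ.le hδ' hLL.le Λ hΛ hs ht
    hol := fun s hs q hq h => totT_hol hδ' hLL.le Λ hΛ hs hq h
    loc := fun s hs q hq h => totT_loc hLL.le Λ hΛ (hloc q hq) hs h }⟩⟩

end CGA
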