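import Pool.Agent.CGA.FStep

/-! PROJECT CGA, module FInd: the sum of `I` over a system depends only on its edges.

`follow`: induction on `r` (generalising `p`, `z`, `S`).  `r = []`: `S' = S`.  `r = w :: r'`: `follow_step` (the edges
`pth (x :: p ++ [z])` and `(z, w)` are part of `pth (x :: p ++ z :: w :: r')`, by `pth_append`, `pth_cons_cons`), then the
induction hypothesis with `p ++ [z]`, `w` (`List.append_assoc`; `Bq` and the edges are transported along
`Eqv.edge`).  Here `z :: r = (z :: r).dropLast ++ [(z :: r).getLast _]`; the statement avoids this by the hypothesis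
`hr : z :: r = u ++ [v]`: for `r = []` it gives `u = []`, `z = v`; for `r = w :: r'` it gives `u = z :: u'`, `w :: r' = u' ++ [v]`.

`extract`: if the polygon `m = x :: m'` has all its edges in `edgF S`, then `S` is equivalent to a system `m :: T`.
Let `m' ++ [x] = z :: r`.  The edge `(x, z)` is in `cyc m ≤ edgF S`; by `mem_edgF`, `exists_rotate` and `Eqv_perm`, `Eqv_rotate`
`S` is equivalent to `S₁` with `Pref S₁ x [] z`.  By `follow` (`p = []`, `u = m'`, `v = x`; `cyc m = pth (x :: m' ++ [x])`)
it is equivalent to `S₂` with `Pref S₂ x m' x`, i.e. `S₂.Perm ((x :: m' ++ q) :: T)` and `(q ++ [x]).head? = some x`: `q = []`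
(done) or `q = x :: q'` and `Eqv_split` gives `(x :: m') :: (x :: q') :: T`.

`sys_indep`: induction on `S` (generalising `S'`).  `S = []`: `edgF S' = 0` and the polygons of `S'` are
nonempty, so `S' = []` (`length_cyc`).  `S = m :: S₀`: by `extract` `S'` is equivalent to `m :: T`, and
`edgF T = edgF S₀` (cancel `cyc m`); `Bq` is inherited by `edgF S₀ ≤ edgF S`.  -/

set_option linter.all false

namespace CGA

open scoped RealInnerProductSpace Real Topology
open MeasureTheory Set Filter

theorem Bq.mono {I : List E → ℝ} {s t : Multiset (E × E)} (h : Bq I t) (hst : s ≤ t) : Bq I s :=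
  ⟨fun l hl => h.rot l (hl.trans hst), fun x l₁ l₂ hl => h.join x l₁ l₂ (hl.trans hst)⟩

theorem follow {I : List E → ℝ} {x : E} (r : List E) :
    ∀ (S : List (List E)), (∀ l ∈ S, l ≠ []) → Bq I (edgF S) → ∀ (p : List E) (z : E) (u : List E)
      (v : E), z :: r = u ++ [v] → Pref S x p z →
      (pth (x :: p ++ z :: r) : Multiset (E × E)) ≤ edgF S → ∃ S', Eqv I S S' ∧ Pref S' x (p ++ u) v := by
  induction r with
  | nil =>
    intro S hne hB p z u v hr hp _
    cases u with
    | nil =>
      have hzv : z = v := by simpa using hr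
      subst hzv
      refine ⟨S, Eqv_refl hne, ?_⟩
      rw [List.append_nil]
      exact hp
    | cons a u =>
      exfalso
      have h1 := congrArg List.length hr
      simp at h1
  | cons w r ih =>
    intro S hne hB p z u v hr hp hle
    cases u with
    | nil =>
      exfalso
      have h1 := congrArg List.length hr
      simp at h1
    | cons a u =>
      rw [List.cons_append, List.cons.injEq] at hr
      obtain ⟨rfl, hr⟩ := hr
      have h1 : pth (x :: p ++ z :: w :: r) = pth (x :: p ++ [z]) ++ (z, w) :: pth (w :: r) := by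
        rw [pth_append, pth_cons_cons]
      have hmem : (z, w) ::ₘ (pth (x :: p ++ [z]) : Multiset (E × E)) ≤ edgF S := by
        refine le_trans ?_ hle
        rw [h1, ← Multiset.coe_add, ← Multiset.singleton_add, add_comm]
        apply add_le_add le_rfl
        rw [← Multiset.cons_coe]
        exact Multiset.singleton_le.2 (Multiset.mem_cons_self _ _)
      obtain ⟨S₁, e1, hp1⟩ := follow_step hne hB hp hmem
      obtain ⟨S₂, e2, hp2⟩ := ih S₁ e1.ne (by rw [e1.edge]; exact hB) (p ++ [z]) w u v hr hp1
        (by
          rw [e1.edge, show x :: (p ++ [z]) ++ w :: r = x :: p ++ z :: w :: r by simp]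
          exact hle)
      refine ⟨S₂, e1.trans e2, ?_⟩
      rw [show p ++ z :: u = p ++ [z] ++ u by simp]
      exact hp2

theorem extract {I : List E → ℝ} {S : List (List E)} (hne : ∀ l ∈ S, l ≠ [])
    (hB : Bq I (edgF S)) {m : List E} (hm : m ≠ []) (h : (cyc m : Multiset (E × E)) ≤ edgF S) :
    ∃ T, Eqv I S (m :: T) := by
  have bq : ∀ {S' : List (List E)}, Eqv I S S' → Bq I (edgF S') := by
    intro S' h
    rw [h.edge]
    exact hB
  cases m with
  | nil => exact absurd rfl hm
  | cons x m' =>
    obtain ⟨z, r, hzr⟩ : ∃ z r, m' ++ [x] = z :: r := by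
      cases m' with
      | nil => exact ⟨x, [], rfl⟩
      | cons a m' => exact ⟨a, m' ++ [x], rfl⟩
    have hcyc : cyc (x :: m') = pth (x :: z :: r) := by
      rw [cyc_cons, List.cons_append, hzr]
    have hxz : (x, z) ∈ edgF S := by
      apply Multiset.mem_of_le h
      rw [hcyc, pth_cons_cons]
      exact Multiset.mem_coe.2 List.mem_cons_self
    obtain ⟨l, hl, hxzl⟩ := mem_edgF.1 hxz
    obtain ⟨k, v, hk, hv⟩ := exists_rotate hxzl
    obtain ⟨T₁, T₂, hS⟩ := List.append_of_mem hl
    have e1 : Eqv I S (l :: (T₁ ++ T₂)) := by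
      apply Eqv_perm hne
      rw [hS]
      exact List.perm_middle
    have e2 : Eqv I S (l.rotate k :: (T₁ ++ T₂)) := e1.trans (Eqv_rotate k e1.ne (bq e1))
    rw [hk] at e2
    have hp : Pref ((x :: v) :: (T₁ ++ T₂)) x [] z := ⟨v, T₁ ++ T₂, List.Perm.refl _, hv⟩
    obtain ⟨S₂, e3, q, T, hperm, hq⟩ := follow r _ e2.ne (bq e2) [] z m' x hzr.symm hp (by
      rw [e2.edge, show x :: [] ++ z :: r = x :: z :: r from rfl, ← hcyc]
      exact h)
    rw [List.nil_append] at hperm
    have e4 : Eqv I S ((x :: m' ++ q) :: T) :=
      e2.trans (e3.trans (Eqv_perm e3.ne hperm))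
    cases q with
    | nil =>
      rw [List.append_nil] at e4
      exact ⟨T, e4⟩
    | cons y q =>
      have hyx : y = x := by simpa using hq
      subst hyx
      exact ⟨_, e4.trans (Eqv_split (fun l hl => e4.ne l (List.mem_cons_of_mem _ hl)) (bq e4))⟩

/-- the sum of `I` over a system of closed polygons depends only on the edges -/
theorem sys_indep {I : List E → ℝ} {S S' : List (List E)} (hS : ∀ l ∈ S, l ≠ [])
    (hS' : ∀ l ∈ S', l ≠ []) (hB : Bq I (edgF S)) (h : edgF S' = edgF S) :
    (S.map I).sum = (S'.map I).sum := by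
  induction S generalizing S' with
  | nil =>
    cases S' with
    | nil => rfl
    | cons l T =>
      exfalso
      rw [edg_cons, edg_nil] at h
      have h1 := congrArg Multiset.card h
      rw [Multiset.card_add, Multiset.coe_card, length_cyc, Multiset.card_zero] at h1
      apply hS' l List.mem_cons_self
      rw [← List.length_eq_zero_iff]
      omega
  | cons m S₀ ih =>
    have hB' : Bq I (edgF S') := by
      rw [h]
      exact hB
    obtain ⟨T, e⟩ := extract hS' hB' (hS m List.mem_cons_self) (by
      rw [h, edg_cons]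
      exact Multiset.le_add_right _ _)
    have h1 : edgF T = edgF S₀ := by
      have h2 := e.edge
      rw [h, edg_cons, edg_cons] at h2
      exact add_left_cancel h2
    have h3 := ih (S' := T) (fun l hl => hS l (List.mem_cons_of_mem _ hl))
      (fun l hl => e.ne l (List.mem_cons_of_mem _ hl)) (hB.mono (by
        rw [edg_cons]
        exact Multiset.le_add_left _ _)) h1
    have h4 := e.sum
    rw [List.map_cons, List.sum_cons] at h4
    rw [List.map_cons, List.sum_cons, h3, h4]

end CGA
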