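import Pool.Agent.CGA.ABg

/-! PROJECT CGA, module FIns: insertion of a point of an edge does not change the lift.

`lift_int`: if `l`, `l'` are fine and `Bg l' = k * Bg l` with `k > 0`, then `I l' - I l` is an integer: by `Lift.hol` and
`FineL.Bg_ne_zero` both `exp(2πi I)` are equal to `Bg / |Bg|`, so `exp (2πi (I l' - I l)) = 1` (`Complex.exp_eq_one_iff`).

`lift_const`: a continuous path `X : ℝ → (Fin n → E)` of fine polygons on `[0,1]` such that all `I (X t) - I (X 0)` are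
integers has `I (X 1) = I (X 0)`: `t ↦ I (List.ofFn (X t))` is continuous on `[0,1]` (`Lift.cont`,
`ContinuousOn.comp`), the image of the interval is preconnected and contained in `I (X 0) + ℤ` (intermediate value
theorem: otherwise some value is not in `I (X 0) + ℤ`; or `IsPreconnected.constant`-type lemmas).

`lift_insert`: slide `c_s = nrm ((1-s) a + s b)` from `s = 0` to `s = t`: the polygons `a :: c_s :: b :: l` are fine
(`FineL.insert`), `Bg (a :: c_s :: b :: l) = k_s * Bg (a :: b :: l)` (`Bg_insert`), so by `lift_int` (for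
`a :: b :: l`) all the differences are integers; at `s = 0` `c_0 = a` (`nrm_of_unit`) and `I (a :: a :: b :: l) = I (a :: b :: l)`
by `Lift.dup`.  Write `a :: c_s :: b :: l = List.ofFn (Fin.cons a (Fin.cons c_s (fun i => (b :: l).get i)))`
(`List.ofFn_get`, `List.ofFn_succ`).  -/

set_option linter.all false

namespace CGA

open scoped RealInnerProductSpace Real Topology
open MeasureTheory Set Filter

private theorem FIns_mesh_mem {a b : E} {l : List E} : (a, b) ∈ cyc (a :: b :: l) := by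
  have e1 : cyc (a :: b :: l) = (a, b) :: pth (b :: l ++ [a]) := by
    rw [cyc_cons]
    rfl
  rw [e1]
  exact List.mem_cons_self

theorem lift_int {M : Met} {δ L : ℝ} (hδ : δ ≤ 1) (Λ : Lift M δ L) {l l' : List E}
    (h : FineL M δ L l) (h' : FineL M δ L l') (hB : ∃ k : ℝ, 0 < k ∧ Bg l' = (k : ℂ) * Bg l) :
    ∃ n : ℤ, Λ.I l' = Λ.I l + n := by
  obtain ⟨k, hk, hB⟩ := hB
  have h0 : Bg l ≠ 0 := h.Bg_ne_zero hδ
  have h1 := Λ.hol l h
  have h2 := Λ.hol l' h'
  have hn : ‖Bg l'‖ = k * ‖Bg l‖ := by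
    rw [hB, norm_mul, Complex.norm_real, Real.norm_eq_abs, abs_of_pos hk]
  have hk0 : (k : ℂ) ≠ 0 := by exact_mod_cast hk.ne'
  have hn0 : ((‖Bg l‖ : ℝ) : ℂ) ≠ 0 := by exact_mod_cast (norm_pos_iff.2 h0).ne'
  rw [hn, hB] at h2
  have h3 : Complex.exp (2 * π * Complex.I * (Λ.I l' : ℂ)) =
      Complex.exp (2 * π * Complex.I * (Λ.I l : ℂ)) := by
    have h4 : (k : ℂ) * (Complex.exp (2 * π * Complex.I * (Λ.I l' : ℂ)) * ((‖Bg l‖ : ℝ) : ℂ)) =
        (k : ℂ) * (Complex.exp (2 * π * Complex.I * (Λ.I l : ℂ)) * ((‖Bg l‖ : ℝ) : ℂ)) := by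
      rw [h1, ← h2]
      push_cast
      ring
    exact mul_right_cancel₀ hn0 (mul_left_cancel₀ hk0 h4)
  obtain ⟨n, hn⟩ := Complex.exp_eq_exp_iff_exists_int.1 h3
  refine ⟨n, ?_⟩
  have hpi : (2 * π * Complex.I : ℂ) ≠ 0 := by
    have := Real.pi_ne_zero
    have h5 : (π : ℂ) ≠ 0 := by exact_mod_cast this
    exact mul_ne_zero (mul_ne_zero two_ne_zero h5) Complex.I_ne_zero
  have h6 : (2 * π * Complex.I : ℂ) * (Λ.I l' : ℂ) =
      (2 * π * Complex.I : ℂ) * ((Λ.I l : ℂ) + n) := by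
    rw [hn]
    ring
  have h7 := mul_left_cancel₀ hpi h6
  have h8 : ((Λ.I l' : ℝ) : ℂ) = ((Λ.I l + n : ℝ) : ℂ) := by
    rw [h7]
    push_cast
    rfl
  exact_mod_cast h8

theorem lift_const {M : Met} {δ L : ℝ} (Λ : Lift M δ L) {n : ℕ} (X : ℝ → Fin n → E)
    (hX : ContinuousOn X (Icc 0 1)) (hF : ∀ t ∈ Icc (0:ℝ) 1, FineL M δ L (List.ofFn (X t)))
    (g : ℝ → ℝ) (hg : ContinuousOn g (Icc 0 1))
    (hint : ∀ t ∈ Icc (0:ℝ) 1, ∃ k : ℤ, Λ.I (List.ofFn (X t)) = g t + k) :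
    Λ.I (List.ofFn (X 1)) - g 1 = Λ.I (List.ofFn (X 0)) - g 0 := by
  have hc : ContinuousOn (fun t => Λ.I (List.ofFn (X t)) - g t) (Icc 0 1) := by
    refine ContinuousOn.sub ?_ hg
    exact (Λ.cont n).comp hX fun t ht => hF t ht
  by_contra hne
  have h0 : (0 : ℝ) ∈ Icc (0:ℝ) 1 := ⟨le_rfl, zero_le_one⟩
  have h1 : (1 : ℝ) ∈ Icc (0:ℝ) 1 := ⟨zero_le_one, le_rfl⟩
  obtain ⟨k0, hk0⟩ := hint 0 h0
  obtain ⟨k1, hk1⟩ := hint 1 h1
  have e0 : Λ.I (List.ofFn (X 0)) - g 0 = k0 := by rw [hk0]; ring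
  have e1 : Λ.I (List.ofFn (X 1)) - g 1 = k1 := by rw [hk1]; ring
  rw [e0, e1] at hne
  have hkne : k1 ≠ k0 := fun h => hne (by rw [h])
  have key : ∀ k : ℤ, (k : ℝ) + 1 / 2 ∉ (fun t => Λ.I (List.ofFn (X t)) - g t) '' Icc 0 1 := by
    rintro k ⟨t, ht, hkt⟩
    obtain ⟨j, hj⟩ := hint t ht
    have h2 : (j : ℝ) = (k : ℝ) + 1 / 2 := by
      rw [← hkt]
      show (j : ℝ) = Λ.I (List.ofFn (X t)) - g t
      rw [hj]
      ring
    have h3 : ((2 * j : ℤ) : ℝ) = ((2 * k + 1 : ℤ) : ℝ) := by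
      push_cast
      linarith
    have h4 : 2 * j = 2 * k + 1 := by exact_mod_cast h3
    omega
  rcases lt_or_gt_of_ne hkne with h | h
  · have h5 := intermediate_value_Icc' zero_le_one hc
    apply key k1
    apply h5
    show (k1 : ℝ) + 1 / 2 ∈ Icc (Λ.I (List.ofFn (X 1)) - g 1) (Λ.I (List.ofFn (X 0)) - g 0)
    rw [e0, e1]
    have h6 : (k1 : ℝ) + 1 ≤ k0 := by exact_mod_cast h
    constructor <;> linarith
  · have h5 := intermediate_value_Icc zero_le_one hc
    apply key k0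
    apply h5
    show (k0 : ℝ) + 1 / 2 ∈ Icc (Λ.I (List.ofFn (X 0)) - g 0) (Λ.I (List.ofFn (X 1)) - g 1)
    rw [e0, e1]
    have h6 : (k0 : ℝ) + 1 ≤ k1 := by exact_mod_cast h
    constructor <;> linarith

theorem lift_insert {M : Met} {δ L : ℝ} (hδ0 : 0 ≤ δ) (hδ : δ ≤ 1) (Λ : Lift M δ L) {a b : E}
    {l : List E} (h : FineL M δ L (a :: b :: l)) {t : ℝ} (ht : t ∈ Icc (0:ℝ) 1) :
    Λ.I (a :: nrm ((1 - t) • a + t • b) :: b :: l) = Λ.I (a :: b :: l) := by
  have ha : ‖a‖ = 1 := h.unit a List.mem_cons_self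
  have hb : ‖b‖ = 1 := h.unit b (List.mem_cons_of_mem _ List.mem_cons_self)
  have hab : ‖a - b‖ < 2 := by
    have := h.mesh (a, b) FIns_mesh_mem
    simp only at this
    linarith
  obtain ⟨c, hc⟩ : ∃ c : ℝ → E, c = fun s => nrm ((1 - s) • a + s • b) := ⟨_, rfl⟩
  have hcc : Continuous c := by
    rw [hc]
    exact continuousOn_nrm.comp_continuous (by fun_prop) fun s => seg_ne_zero ha hb hab s
  obtain ⟨X, hX⟩ : ∃ X : ℝ → Fin (l.length + 3) → E,
      X = fun s i => (a :: c (s * t) :: b :: l).get i := ⟨_, rfl⟩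
  have hXl : ∀ s, List.ofFn (X s) = a :: c (s * t) :: b :: l := by
    intro s
    rw [hX]
    exact List.ofFn_get _
  have hst : ∀ s ∈ Icc (0:ℝ) 1, s * t ∈ Icc (0:ℝ) 1 := fun s hs =>
    ⟨mul_nonneg hs.1 ht.1, mul_le_one₀ hs.2 ht.1 ht.2⟩
  have hFi : ∀ s ∈ Icc (0:ℝ) 1, FineL M δ L (List.ofFn (X s)) := by
    intro s hs
    rw [hXl, hc]
    exact h.insert hδ (hst s hs)
  have hXc : Continuous X := by
    have hXi : ∀ i, Continuous fun s => X s i := by
      rw [hX]
      intro i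
      refine Fin.cases ?_ (fun j => Fin.cases ?_ (fun j' => ?_) j) i
      · show Continuous fun _ : ℝ => a
        exact continuous_const
      · show Continuous fun s : ℝ => c (s * t)
        exact hcc.comp (continuous_id.mul continuous_const)
      · have e : ∀ s : ℝ, (a :: c (s * t) :: b :: l).get j'.succ.succ = (b :: l).get j' :=
          fun s => rfl
        show Continuous fun s : ℝ => (a :: c (s * t) :: b :: l).get j'.succ.succ
        simp only [e]
        exact continuous_const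
    exact continuous_pi hXi
  have h1 := lift_const Λ X hXc.continuousOn hFi (fun _ => Λ.I (a :: b :: l)) continuousOn_const
    (fun s hs => lift_int hδ Λ h (hFi s hs) (by
      rw [hXl, hc]
      exact Bg_insert ha hb hab (hst s hs) l))
  have h2 : c (0 * t) = a := by
    rw [hc]
    show nrm ((1 - 0 * t) • a + (0 * t) • b) = a
    rw [zero_mul, sub_zero, one_smul, zero_smul, add_zero, nrm_of_unit ha]
  have h3 := sub_left_inj.1 h1
  rw [hXl, hXl, h2, one_mul, Λ.dup a (b :: l) h, hc] at h3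
  exact h3

/-- insertion in the first edge `(a, b)` of `a :: l`, where `b` is the vertex following `a` cyclically
(`l = b :: l'`: `lift_insert`; `l = []`, `b = a`: `nrm (..) = a` and `Lift.dup`) -/
theorem lift_insert_gen {M : Met} {δ L : ℝ} (hδ0 : 0 ≤ δ) (hδ : δ ≤ 1) (Λ : Lift M δ L) {a : E}
    {l : List E} (h : FineL M δ L (a :: l)) {t : ℝ} (ht : t ∈ Icc (0:ℝ) 1) {b : E}
    (hb : (l ++ [a]).head? = some b) :
    Λ.I (a :: nrm ((1 - t) • a + t • b) :: l) = Λ.I (a :: l) := by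
  cases l with
  | nil =>
    have hba : a = b := by simpa using hb
    have ha : ‖a‖ = 1 := h.unit a List.mem_cons_self
    rw [← hba, ← add_smul, sub_add_cancel, one_smul, nrm_of_unit ha]
    exact Λ.dup a [] h
  | cons b' l' =>
    have hba : b' = b := by simpa using hb
    rw [← hba]
    exact lift_insert hδ0 hδ Λ (by exact h) ht

end CGA
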