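import Pool.Agent.CGA.FSys

/-! PROJECT CGA, module FStep: moves of systems of closed polygons.

`Eqv I S S'`: `S'` consists of nonempty polygons, has the same edges and the same sum of `I` as `S`.
`Bq I s`: `I` is invariant under rotation and additive on bouquets for polygons with edges in `s`.

`Eqv_rotate`: `cyc_rotate_coe` and induction on `k` (`List.rotate_rotate`; all rotations of `l` have the same
edges, which are `≤ edgF (l :: T)`), for `I (l.rotate k) = I l`.
`Eqv_join`: `cyc_join` and `Bq.join`.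

`Pref S x p z`: some polygon of `S` is `x :: p ++ q` and the vertex after `x :: p` (cyclically) is `z`.

`follow_step`: the vertices `x, p, z` are consecutive in the polygon `l = x :: p ++ q`, and the edge `(z, w)` is
available besides the edges of the path `x, p, z`.  Let `S.Perm ((x :: p ++ q) :: T)`, `(q ++ [x]).head? = some z`; we have
`cyc (x :: p ++ q) = pth (x :: p ++ q ++ [x])` (`cyc_cons`).
Case `q = z :: q'`.  By `pth_append`, `cyc (x :: p ++ z :: q') = pth (x :: p ++ [z]) ++ pth (z :: q' ++ [x])`, so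
`(z, w) ∈ pth (z :: q' ++ [x])` or `(z, w) ∈ edgF T` (cancel `pth (x :: p ++ [z])` in `hmem`).
 (1) `(z, w) ∈ pth (z :: q' ++ [x])`: by `mem_pth` `z :: q' ++ [x] = u ++ z :: w :: v`.  If `u = []`: then
   `(q' ++ [x]).head? = some w` and `S' = S` works (`q'` in the place of `q`).  If `u = z :: u'`:
   `q' ++ [x] = u' ++ z :: w :: v`, and taking off the last element: `q' = u' ++ z :: v'` with
   `(v' ++ [x]).head? = some w` (`v' = (w :: v).dropLast`).  So `l = x :: p ++ z :: u' ++ z :: v'`, a rotation of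
   `z :: u' ++ z :: (v' ++ x :: p)`.  `Eqv_join` splits it into `z :: u'` and `z :: (v' ++ x :: p)`, and the latter
   is a rotation of `x :: p ++ z :: v'`.  `S' = (x :: p ++ z :: v') :: (z :: u') :: T`.
 (2) `(z, w) ∈ edgF T`: by `mem_edgF` and `exists_rotate` there is `l' ∈ T`, `l'.rotate k = z :: v`, `(v ++ [z]).head? = some w`;
   `T.Perm (l' :: T')`.  `l` is a rotation of `z :: (q' ++ x :: p)`.  Join: `z :: v ++ z :: (q' ++ x :: p)`, a rotation of
   `x :: p ++ (z :: v ++ z :: q')`.  `S' = (x :: p ++ [z] ++ (v ++ z :: q')) :: T'`, `(v ++ z :: q' ++ [x]).head? = some w`.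
Case `q = []`: `z = x`, `cyc (x :: p) = pth (x :: p ++ [x])`, so `(z, w) ∈ edgF T`; `l' ∈ T`, `l'.rotate k = x :: v`,
   `(v ++ [x]).head? = some w`; `T.Perm (l' :: T')`; join: `x :: p ++ x :: v`.  `S' = (x :: p ++ x :: v) :: T'`. -/

set_option linter.all false

namespace CGA

open scoped RealInnerProductSpace Real Topology
open MeasureTheory Set Filter

/-- `I` is invariant under rotation and additive on bouquets, for polygons with edges in `s` -/
structure Bq (I : List E → ℝ) (s : Multiset (E × E)) : Prop where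
  rot : ∀ l : List E, (cyc l : Multiset (E × E)) ≤ s → I (l.rotate 1) = I l
  join : ∀ (x : E) (l₁ l₂ : List E), (cyc (x :: l₁ ++ x :: l₂) : Multiset (E × E)) ≤ s →
    I (x :: l₁ ++ x :: l₂) = I (x :: l₁) + I (x :: l₂)

/-- equivalent systems of closed polygons -/
structure Eqv (I : List E → ℝ) (S S' : List (List E)) : Prop where
  ne : ∀ l ∈ S', l ≠ []
  edge : edgF S' = edgF S
  sum : (S'.map I).sum = (S.map I).sum

theorem Eqv_refl {I : List E → ℝ} {S : List (List E)} (h : ∀ l ∈ S, l ≠ []) : Eqv I S S :=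
  ⟨h, rfl, rfl⟩

theorem Eqv.trans {I : List E → ℝ} {S S' S'' : List (List E)} (h : Eqv I S S')
    (h' : Eqv I S' S'') : Eqv I S S'' :=
  ⟨h'.ne, h'.edge.trans h.edge, h'.sum.trans h.sum⟩

theorem Eqv_perm {I : List E → ℝ} {S S' : List (List E)} (h : ∀ l ∈ S, l ≠ [])
    (hp : S.Perm S') : Eqv I S S' :=
  ⟨fun l hl => h l (hp.mem_iff.2 hl), (edg_perm hp).symm, ((hp.map I).sum_eq).symm⟩

theorem Eqv_rotate {I : List E → ℝ} {T : List (List E)} {l : List E} (k : ℕ)
    (hne : ∀ l' ∈ l :: T, l' ≠ []) (hB : Bq I (edgF (l :: T))) :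
    Eqv I (l :: T) (l.rotate k :: T) := by
  have hI : ∀ k : ℕ, I (l.rotate k) = I l := by
    intro k
    induction k with
    | zero => rw [List.rotate_zero]
    | succ k ih =>
      rw [← List.rotate_rotate, hB.rot, ih]
      rw [cyc_rotate_coe, edg_cons]
      exact Multiset.le_add_right _ _
  refine ⟨?_, ?_, ?_⟩
  · intro l' hl'
    rcases List.mem_cons.1 hl' with h | h
    · rw [h]
      intro h0
      apply hne l List.mem_cons_self
      rw [← List.length_eq_zero_iff, ← List.length_rotate (n := k), h0]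
      rfl
    · exact hne l' (List.mem_cons_of_mem _ h)
  · rw [edg_cons, edg_cons, cyc_rotate_coe]
  · rw [List.map_cons, List.map_cons, List.sum_cons, List.sum_cons, hI]

theorem Eqv_split {I : List E → ℝ} {T : List (List E)} {x : E} {l₁ l₂ : List E}
    (hne : ∀ l' ∈ T, l' ≠ []) (hB : Bq I (edgF ((x :: l₁ ++ x :: l₂) :: T))) :
    Eqv I ((x :: l₁ ++ x :: l₂) :: T) ((x :: l₁) :: (x :: l₂) :: T) := by
  refine ⟨?_, ?_, ?_⟩
  · intro l' hl'
    rcases List.mem_cons.1 hl' with h | h
    · rw [h]
      exact List.cons_ne_nil _ _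
    · rcases List.mem_cons.1 h with h | h
      · rw [h]
        exact List.cons_ne_nil _ _
      · exact hne l' h
  · rw [edg_cons, edg_cons, edg_cons, cyc_join, add_assoc]
  · have h1 := hB.join x l₁ l₂ (by
      rw [edg_cons]
      exact Multiset.le_add_right _ _)
    rw [List.map_cons, List.map_cons, List.map_cons, List.sum_cons, List.sum_cons, List.sum_cons,
      h1, add_assoc]

theorem Eqv_join {I : List E → ℝ} {T : List (List E)} {x : E} {l₁ l₂ : List E}
    (hne : ∀ l' ∈ T, l' ≠ []) (hB : Bq I (edgF ((x :: l₁) :: (x :: l₂) :: T))) :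
    Eqv I ((x :: l₁) :: (x :: l₂) :: T) ((x :: l₁ ++ x :: l₂) :: T) := by
  have he : edgF ((x :: l₁ ++ x :: l₂) :: T) = edgF ((x :: l₁) :: (x :: l₂) :: T) := by
    rw [edg_cons, edg_cons, edg_cons, cyc_join, add_assoc]
  refine ⟨?_, he, ?_⟩
  · intro l' hl'
    rcases List.mem_cons.1 hl' with h | h
    · rw [h]
      exact List.cons_ne_nil _ _
    · exact hne l' h
  · have h1 := hB.join x l₁ l₂ (by
      rw [← he, edg_cons]
      exact Multiset.le_add_right _ _)
    rw [List.map_cons, List.map_cons, List.map_cons, List.sum_cons, List.sum_cons, List.sum_cons,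
      h1, add_assoc]

/-- some polygon of `S` is `x :: p ++ q` and the vertex following `x :: p` is `z` -/
def Pref (S : List (List E)) (x : E) (p : List E) (z : E) : Prop :=
  ∃ q T, S.Perm ((x :: p ++ q) :: T) ∧ (q ++ [x]).head? = some z

private theorem FStep_mem {a : E × E} {P R : Multiset (E × E)} (h : a ::ₘ P ≤ P + R) : a ∈ R := by
  rw [← Multiset.singleton_add, add_comm P R] at h
  exact Multiset.singleton_le.1 (le_of_add_le_add_right h)

private theorem FStep_out {T : List (List E)} {l : List E} (h : l ∈ T) :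
    ∃ T', T.Perm (l :: T') := by
  obtain ⟨T₁, T₂, rfl⟩ := List.append_of_mem h
  exact ⟨T₁ ++ T₂, List.perm_middle⟩

theorem follow_step {I : List E → ℝ} {S : List (List E)} (hne : ∀ l ∈ S, l ≠ [])
    (hB : Bq I (edgF S)) {x : E} {p : List E} {z w : E} (hp : Pref S x p z)
    (hmem : (z, w) ::ₘ (pth (x :: p ++ [z]) : Multiset (E × E)) ≤ edgF S) :
    ∃ S', Eqv I S S' ∧ Pref S' x (p ++ [z]) w := by
  obtain ⟨q, T, hperm, hz⟩ := hp
  have e0 : Eqv I S ((x :: p ++ q) :: T) := Eqv_perm hne hperm
  have hT : ∀ l ∈ T, l ≠ [] := fun l hl => e0.ne l (List.mem_cons_of_mem _ hl)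
  have hedge : edgF S = (cyc (x :: p ++ q) : Multiset (E × E)) + edgF T := by
    rw [← e0.edge, edg_cons]
  have bq : ∀ {S' : List (List E)}, Eqv I S S' → Bq I (edgF S') := by
    intro S' h
    rw [h.edge]
    exact hB
  -- taking out a polygon of `T` through the edge `(z, w)`
  have out : (z, w) ∈ edgF T → ∃ v T', (v ++ [z]).head? = some w ∧
      Eqv I S ((x :: p ++ q) :: (z :: v) :: T') := by
    intro h
    obtain ⟨l', hl', hzw⟩ := mem_edgF.1 h
    obtain ⟨k, v, hk, hv⟩ := exists_rotate hzw
    obtain ⟨T', hT'⟩ := FStep_out hl'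
    refine ⟨v, T', hv, ?_⟩
    have e1 : Eqv I S (l' :: (x :: p ++ q) :: T') :=
      e0.trans (Eqv_perm e0.ne ((hT'.cons _).trans (List.Perm.swap _ _ _)))
    have e2 : Eqv I S (l'.rotate k :: (x :: p ++ q) :: T') :=
      e1.trans (Eqv_rotate k e1.ne (bq e1))
    rw [hk] at e2
    exact e2.trans (Eqv_perm e2.ne (List.Perm.swap _ _ _))
  cases q with
  | nil =>
    have hzx : x = z := by
      simpa using hz
    subst hzx
    have hcyc : cyc (x :: p ++ []) = pth (x :: p ++ [x]) := by
      rw [List.append_nil, cyc_cons]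
    rw [hedge, hcyc] at hmem
    obtain ⟨v, T', hv, e1⟩ := out (FStep_mem hmem)
    rw [List.append_nil] at e1
    have e2 : Eqv I S ((x :: p ++ x :: v) :: T') :=
      e1.trans (Eqv_join (fun l hl => e1.ne l
        (List.mem_cons_of_mem _ (List.mem_cons_of_mem _ hl))) (bq e1))
    refine ⟨_, e2, v, T', ?_, hv⟩
    rw [show x :: (p ++ [x]) ++ v = x :: p ++ x :: v by simp]
  | cons z' q' =>
    have hzz : z' = z := by
      simpa using hz
    subst hzz
    have hcyc : cyc (x :: p ++ z' :: q') =
        pth (x :: p ++ [z']) ++ pth (z' :: (q' ++ [x])) := by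
      rw [← pth_append, List.cons_append, cyc_cons]
      simp
    have hmem2 : (z', w) ∈ (pth (z' :: (q' ++ [x])) : Multiset (E × E)) + edgF T := by
      apply FStep_mem (P := (pth (x :: p ++ [z']) : Multiset (E × E)))
      rw [← add_assoc, Multiset.coe_add, ← hcyc, ← hedge]
      exact hmem
    rcases Multiset.mem_add.1 hmem2 with h1 | h1
    · obtain ⟨u, v, huv⟩ := mem_pth.1 (Multiset.mem_coe.1 h1)
      cases u with
      | nil =>
        have h2 : q' ++ [x] = w :: v := by simpa using huv
        refine ⟨_, e0, q', T, ?_, ?_⟩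
        · rw [show x :: (p ++ [z']) ++ q' = x :: p ++ z' :: q' by simp]
        · rw [h2]
          rfl
      | cons y u' =>
        rw [List.cons_append, List.cons.injEq] at huv
        obtain ⟨rfl, huv⟩ := huv
        obtain ⟨v', x', hv'⟩ : ∃ v' x', w :: v = v' ++ [x'] :=
          ⟨(w :: v).dropLast, (w :: v).getLast (List.cons_ne_nil _ _),
            (List.dropLast_append_getLast (List.cons_ne_nil _ _)).symm⟩
        have h3 : q' ++ [x] = (u' ++ z' :: v') ++ [x'] := by
          rw [huv, hv']
          simp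
        obtain ⟨hq', hx'⟩ := List.append_inj' h3 rfl
        have hx'' : x = x' := by simpa using hx'
        subst hx''
        subst hq'
        have e1 : Eqv I S ((x :: p ++ z' :: (u' ++ z' :: v')).rotate (x :: p).length :: T) :=
          e0.trans (Eqv_rotate _ e0.ne (bq e0))
        rw [List.rotate_append_length_eq] at e1
        have h4 : z' :: (u' ++ z' :: v') ++ (x :: p) = z' :: u' ++ z' :: (v' ++ x :: p) := by
          simp
        rw [h4] at e1
        have e2 : Eqv I S ((z' :: u') :: (z' :: (v' ++ x :: p)) :: T) :=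
          e1.trans (Eqv_split hT (bq e1))
        have e3 : Eqv I S ((z' :: (v' ++ x :: p)) :: (z' :: u') :: T) :=
          e2.trans (Eqv_perm e2.ne (List.Perm.swap _ _ _))
        have h5 : z' :: (v' ++ x :: p) = (z' :: v') ++ (x :: p) := by simp
        rw [h5] at e3
        have e4 : Eqv I S (((z' :: v') ++ (x :: p)).rotate (z' :: v').length :: (z' :: u') :: T) :=
          e3.trans (Eqv_rotate _ e3.ne (bq e3))
        rw [List.rotate_append_length_eq] at e4
        refine ⟨_, e4, v', (z' :: u') :: T, ?_, ?_⟩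
        · rw [show x :: (p ++ [z']) ++ v' = x :: p ++ z' :: v' by simp]
        · rw [← hv']
          rfl
    · obtain ⟨v, T', hv, e1⟩ := out h1
      have e2 : Eqv I S ((x :: p ++ z' :: q').rotate (x :: p).length :: (z' :: v) :: T') :=
        e1.trans (Eqv_rotate _ e1.ne (bq e1))
      rw [List.rotate_append_length_eq] at e2
      have e3 : Eqv I S ((z' :: v) :: (z' :: q' ++ x :: p) :: T') :=
        e2.trans (Eqv_perm e2.ne (List.Perm.swap _ _ _))
      have h6 : z' :: q' ++ x :: p = z' :: (q' ++ x :: p) := rfl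
      rw [h6] at e3
      have e4 : Eqv I S ((z' :: v ++ z' :: (q' ++ x :: p)) :: T') :=
        e3.trans (Eqv_join (fun l hl => e3.ne l
          (List.mem_cons_of_mem _ (List.mem_cons_of_mem _ hl))) (bq e3))
      have h5 : z' :: v ++ z' :: (q' ++ x :: p) = (z' :: v ++ z' :: q') ++ (x :: p) := by simp
      rw [h5] at e4
      have e5 : Eqv I S (((z' :: v ++ z' :: q') ++ (x :: p)).rotate
          (z' :: v ++ z' :: q').length :: T') :=
        e4.trans (Eqv_rotate _ e4.ne (bq e4))
      rw [List.rotate_append_length_eq] at e5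
      refine ⟨_, e5, v ++ z' :: q', T', ?_, ?_⟩
      · rw [show x :: (p ++ [z']) ++ (v ++ z' :: q') = x :: p ++ (z' :: v ++ z' :: q') by simp]
      · cases v with
        | nil => simpa using hv
        | cons a v => simpa using hv

end CGA
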