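import Pool.Agent.CGA.ACyc

/-! PROJECT CGA, module FSys: systems of closed polygons and their edges.

`edgF S` is the multiset of all edges of the closed polygons in the list `S`.  Everything is elementary
(`List.map_cons`, `List.sum_cons`, `List.map_append`, `List.Perm.map`, `List.Perm.sum_eq`).
`edg_reverse`, `edg_bal`: induction on `S` with `cyc_reverse`, `cyc_fst`, `cyc_snd` of `ACyc` (`Multiset.map_add`).
`mem_pth`: induction on `p` with `pth_cons_cons`.
`exists_rotate`: `l ≠ []` since `cyc [] = []`.  Take `k` with `(cyc l)[k] = (z, w)` (`List.getElem_of_mem`); then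
`(cyc l).rotate k = cyc (l.rotate k)` (`cyc_rotate`) has the head `(z, w)`.  Write `l.rotate k = z' :: v`; then
`cyc (z' :: v) = pth (z' :: v ++ [z'])` (`cyc_cons`) has the head `(z', (v ++ [z']).head)` (cases on `v`,
`pth_cons_cons`).  So `z' = z`. -/

set_option linter.all false

namespace CGA

open scoped RealInnerProductSpace Real Topology
open MeasureTheory Set Filter

/-- the edges of a system of closed polygons -/
def edgF (S : List (List E)) : Multiset (E × E) :=
  (S.map fun l => (cyc l : Multiset (E × E))).sum

theorem edg_nil : edgF [] = 0 := by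
  rfl

theorem edg_cons (l : List E) (S : List (List E)) :
    edgF (l :: S) = (cyc l : Multiset (E × E)) + edgF S := by
  unfold edgF
  rw [List.map_cons, List.sum_cons]

theorem edg_append (S T : List (List E)) : edgF (S ++ T) = edgF S + edgF T := by
  unfold edgF
  rw [List.map_append, List.sum_append]

theorem edg_perm {S T : List (List E)} (h : S.Perm T) : edgF S = edgF T := by
  unfold edgF
  exact (h.map _).sum_eq

theorem le_edg {S : List (List E)} {l : List E} (h : l ∈ S) :
    (cyc l : Multiset (E × E)) ≤ edgF S := by
  obtain ⟨u, v, rfl⟩ := List.append_of_mem h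
  rw [edg_append, edg_cons]
  calc (cyc l : Multiset (E × E)) ≤ (cyc l : Multiset (E × E)) + edgF v := Multiset.le_add_right _ _
    _ ≤ edgF u + ((cyc l : Multiset (E × E)) + edgF v) := Multiset.le_add_left _ _

theorem edg_reverse (S : List (List E)) : edgF (S.map List.reverse) = (edgF S).map Prod.swap := by
  induction S with
  | nil => rfl
  | cons l S ih => rw [List.map_cons, edg_cons, edg_cons, Multiset.map_add, ih, cyc_reverse]

theorem edg_bal (S : List (List E)) : (edgF S).map Prod.fst = (edgF S).map Prod.snd := by
  induction S with
  | nil => rfl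
  | cons l S ih => rw [edg_cons, Multiset.map_add, Multiset.map_add, ih, cyc_fst, cyc_snd]

theorem mem_edgF {S : List (List E)} {e : E × E} : e ∈ edgF S ↔ ∃ l ∈ S, e ∈ cyc l := by
  induction S with
  | nil => simp [edg_nil]
  | cons l S ih => simp [edg_cons, ih]

theorem mem_pth {p : List E} {z w : E} : (z, w) ∈ pth p ↔ ∃ u v, p = u ++ z :: w :: v := by
  induction p with
  | nil =>
    constructor
    · intro h
      exact absurd h (List.not_mem_nil)
    · rintro ⟨u, v, h⟩
      have := congrArg List.length h
      simp at this
  | cons a t ih =>
    cases t with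
    | nil =>
      constructor
      · intro h
        exact absurd h (List.not_mem_nil)
      · rintro ⟨u, v, h⟩
        have := congrArg List.length h
        simp at this
        omega
    | cons b t =>
      rw [pth_cons_cons, List.mem_cons, ih]
      constructor
      · rintro (h | ⟨u, v, h⟩)
        · rw [Prod.mk.injEq] at h
          exact ⟨[], t, by rw [h.1, h.2]; rfl⟩
        · exact ⟨a :: u, v, by rw [h]; rfl⟩
      · rintro ⟨u, v, h⟩
        cases u with
        | nil =>
          simp only [List.nil_append, List.cons.injEq] at h
          left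
          rw [h.1, h.2.1]
        | cons c u =>
          simp only [List.cons_append, List.cons.injEq] at h
          right
          exact ⟨u, v, h.2⟩

/-- a closed polygon with the edge `(z, w)` can be rotated so that it starts with this edge -/
theorem exists_rotate {l : List E} {z w : E} (h : (z, w) ∈ cyc l) :
    ∃ k v, l.rotate k = z :: v ∧ (v ++ [z]).head? = some w := by
  cases l with
  | nil => exact absurd h (List.not_mem_nil)
  | cons x t =>
    rw [cyc_cons] at h
    obtain ⟨u, v, hv⟩ := mem_pth.1 h
    rcases List.eq_nil_or_concat v with rfl | ⟨v', y, rfl⟩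
    · have h1 : x :: t ++ [x] = (u ++ [z]) ++ [w] := by
        rw [hv]
        simp
      have h2 := List.append_inj' h1 rfl
      obtain ⟨h3, h4⟩ := h2
      refine ⟨u.length, u, ?_, ?_⟩
      · rw [h3, List.rotate_append_length_eq]
        rfl
      · rw [← h3]
        simp only [List.head?_cons]
        simp only [List.cons.injEq, and_true] at h4
        rw [h4]
    · have h1 : x :: t ++ [x] = (u ++ z :: w :: v') ++ [y] := by
        rw [hv]
        simp
      have h2 := List.append_inj' h1 rfl
      obtain ⟨h3, h4⟩ := h2
      refine ⟨u.length, w :: v' ++ u, ?_, ?_⟩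
      · rw [h3, List.rotate_append_length_eq]
        rfl
      · rfl

/-- insertion of a vertex `c` in the first edge `(a, b)` (cases on `v`: `cyc_cons`, `pth_cons_cons`) -/
theorem cyc_insert {a b : E} {v : List E} (h : (v ++ [a]).head? = some b) (c : E) :
    ∃ R : List (E × E), cyc (a :: v) = (a, b) :: R ∧ cyc (a :: c :: v) = (a, c) :: (c, b) :: R := by
  cases v with
  | nil =>
    simp only [List.nil_append, List.head?_cons, Option.some.injEq] at h
    subst h
    exact ⟨[], by rw [cyc_cons]; rfl, by rw [cyc_cons]; rfl⟩
  | cons d v =>
    simp only [List.cons_append, List.head?_cons, Option.some.injEq] at h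
    subst h
    exact ⟨pth (d :: v ++ [a]), by rw [cyc_cons]; rfl, by rw [cyc_cons]; rfl⟩

end CGA
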