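import Pool.Agent.CGA.FInd
import Pool.Agent.CGA.FIns

/-! PROJECT CGA, module FTot: definition of the total lift.

`exists_sys`: `exists_cyc_decomp` (`edgF` unfolds to the same sum).
`fine_of_le`: the edges of `l` are in `s`; every vertex of `l` is `e.1` for an edge `e ∈ cyc l` (`cyc_fst`); the length is
`mass M (cyc l) ≤ mass M s < L' ≤ L` (`mass_le_of_le`, `mass_coe`).
`Bq_of_good`: `Lift.rot`, `Lift.Bouquet` with `fine_of_le` (`rot` is trivial for `l = []`).
`totT_eq`: the chosen system of `s` and `S` have the same edges: `sys_indep`. -/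

set_option linter.all false

namespace CGA

open scoped RealInnerProductSpace Real Topology
open MeasureTheory Set Filter

theorem exists_sys {s : Multiset (E × E)} (h : s.map Prod.fst = s.map Prod.snd) :
    ∃ S : List (List E), (∀ l ∈ S, l ≠ []) ∧ edgF S = s := by
  obtain ⟨S, hS, hs⟩ := exists_cyc_decomp s h
  exact ⟨S, hS, hs.symm⟩

theorem fine_of_le {M : Met} {δ δ' L L' : ℝ} (hδ : δ' ≤ δ) (hL : L' ≤ L) {s : Multiset (E × E)}
    (hs : Good M δ' L' s) {l : List E} (hl : l ≠ []) (h : (cyc l : Multiset (E × E)) ≤ s) :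
    FineL M δ L l := by
  refine ⟨hl, ?_, ?_, ?_⟩
  · intro x hx
    have h1 : x ∈ (cyc l : Multiset (E × E)).map Prod.fst := by
      rw [cyc_fst]
      exact Multiset.mem_coe.2 hx
    obtain ⟨e, he, rfl⟩ := Multiset.mem_map.1 h1
    exact (hs.unit e (Multiset.mem_of_le h he)).1
  · intro e he
    exact (hs.mesh e (Multiset.mem_of_le h (Multiset.mem_coe.2 he))).trans hδ
  · rw [← mass_coe]
    exact lt_of_le_of_lt (mass_le_of_le M h) (lt_of_lt_of_le hs.len hL)

theorem Bq_of_good {M : Met} {δ δ' L L' : ℝ} (hδ : δ' ≤ δ) (hL : L' ≤ L) (Λ : Lift M δ L)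
    (hΛ : Λ.Bouquet) {s : Multiset (E × E)} (hs : Good M δ' L' s) : Bq Λ.I s := by
  refine ⟨?_, ?_⟩
  · intro l hl
    by_cases h0 : l = []
    · rw [h0]
      rfl
    · exact Λ.rot l (fine_of_le hδ hL hs h0 hl)
  · intro x l₁ l₂ hl
    exact hΛ x l₁ l₂ (fine_of_le hδ hL hs (by simp) hl)

open Classical in
/-- the total lift: the sum of `I` over any system of closed polygons with the edges `s` -/
noncomputable def totT {M : Met} {δ L : ℝ} (Λ : Lift M δ L) (s : Multiset (E × E)) : ℝ :=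
  if h : s.map Prod.fst = s.map Prod.snd then ((exists_sys h).choose.map Λ.I).sum else 0

theorem totT_eq {M : Met} {δ δ' L L' : ℝ} (hδ : δ' ≤ δ) (hL : L' ≤ L) (Λ : Lift M δ L)
    (hΛ : Λ.Bouquet) {s : Multiset (E × E)} (hs : Good M δ' L' s) {S : List (List E)}
    (hS : ∀ l ∈ S, l ≠ []) (h : edgF S = s) : totT Λ s = (S.map Λ.I).sum := by
  unfold totT
  rw [dif_pos hs.bal]
  have h1 := (exists_sys hs.bal).choose_spec
  refine sys_indep h1.1 hS ?_ ?_
  · rw [h1.2]
    exact Bq_of_good hδ hL Λ hΛ hs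
  · rw [h, h1.2]

end CGA
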