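import Pool.Agent.CGA.FTot

/-! PROJECT CGA, module FTotB: the properties `add`, `cancel`, `rev`, `sub` of the total lift.

Always choose systems with `exists_sys` and evaluate with `totT_eq`.
`totT_add`: `S ++ S'` (`edg_append`), `Good (s + t)` by `mass_add`, `Multiset.map_add`.
`lift_pair`: `I [a, b] = 0`: `rev` gives `I [b, a] = - I [a, b]`, `rot` gives `I [b, a] = I [a, b]`.
`totT_cancel`: `[a, b] :: S`; `cyc [a, b] = [(a, b), (b, a)]`; `Good` of `(a,b) ::ₘ (b,a) ::ₘ s` by `mass_cons`, `ell_comm`;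
`[a, b]` is fine by `fine_of_le`.
`totT_rev`: `S.map List.reverse` (`edg_reverse`), `Lift.rev`, `mass_swap`.
`totT_sub`: let `edgF S = (a, b) ::ₘ s`; by `mem_edgF`, `exists_rotate` there are `l ∈ S`, `k`, `v` with `l.rotate k = a :: v` and
`(v ++ [a]).head? = some b`; `S.Perm (l :: T)`; by `Eqv_perm`, `Eqv_rotate` (`Bq_of_good`) the system `(a :: v) :: T` has the same edges and
the same sum.  With `c = nrm (..)` the system `(a :: c :: v) :: T` has the edges `(a, c) ::ₘ (c, b) ::ₘ s` (`cyc_insert`), and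
`I (a :: c :: v) = I (a :: v)` (`lift_insert_gen`).  `Good` of the new edges: `norm_nrm`, `seg_ne_zero`, `norm_sub_arc_le`,
`ell_add_nrm`. -/

set_option linter.all false

namespace CGA

open scoped RealInnerProductSpace Real Topology
open MeasureTheory Set Filter

variable {M : Met} {δ L L' : ℝ}

theorem totT_add (hL : L' ≤ L) (Λ : Lift M δ L) (hΛ : Λ.Bouquet) {s t : Multiset (E × E)}
    (hs : Good M δ L' s) (ht : Good M δ L' t) (h : mass M s + mass M t < L') :
    totT Λ (s + t) = totT Λ s + totT Λ t := by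
  obtain ⟨S, hS, hSs⟩ := exists_sys hs.bal
  obtain ⟨T, hT, hTt⟩ := exists_sys ht.bal
  have hg : Good M δ L' (s + t) := by
    refine ⟨?_, ?_, ?_, ?_⟩
    · intro e he
      rcases Multiset.mem_add.1 he with he | he
      · exact hs.unit e he
      · exact ht.unit e he
    · intro e he
      rcases Multiset.mem_add.1 he with he | he
      · exact hs.mesh e he
      · exact ht.mesh e he
    · rw [Multiset.map_add, Multiset.map_add, hs.bal, ht.bal]
    · rw [mass_add]
      exact h
  have hne : ∀ l ∈ S ++ T, l ≠ [] := by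
    intro l hl
    rcases List.mem_append.1 hl with hl | hl
    · exact hS l hl
    · exact hT l hl
  rw [totT_eq le_rfl hL Λ hΛ hg hne (by rw [edg_append, hSs, hTt]),
    totT_eq le_rfl hL Λ hΛ hs hS hSs, totT_eq le_rfl hL Λ hΛ ht hT hTt, List.map_append,
    List.sum_append]

theorem lift_pair (Λ : Lift M δ L) {a b : E} (h : FineL M δ L [a, b]) : Λ.I [a, b] = 0 := by
  have h1 : Λ.I [b, a] = - Λ.I [a, b] := Λ.rev [a, b] h
  have h2 : Λ.I [b, a] = Λ.I [a, b] := Λ.rot [a, b] h
  linarith

private theorem FTotB_cyc (a b : E) : cyc [a, b] = [(a, b), (b, a)] := rfl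

theorem totT_cancel (hL : L' ≤ L) (Λ : Lift M δ L) (hΛ : Λ.Bouquet) {s : Multiset (E × E)}
    {a b : E} (hs : Good M δ L' s) (ha : ‖a‖ = 1) (hb : ‖b‖ = 1) (hab : ‖a - b‖ ≤ δ)
    (h : mass M s + 2 * ell M a b < L') : totT Λ ((a, b) ::ₘ (b, a) ::ₘ s) = totT Λ s := by
  obtain ⟨S, hS, hSs⟩ := exists_sys hs.bal
  have hg : Good M δ L' ((a, b) ::ₘ (b, a) ::ₘ s) := by
    refine ⟨?_, ?_, ?_, ?_⟩
    · intro e he
      rcases Multiset.mem_cons.1 he with rfl | he
      · exact ⟨ha, hb⟩
      · rcases Multiset.mem_cons.1 he with rfl | he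
        · exact ⟨hb, ha⟩
        · exact hs.unit e he
    · intro e he
      rcases Multiset.mem_cons.1 he with rfl | he
      · exact hab
      · rcases Multiset.mem_cons.1 he with rfl | he
        · simpa only [norm_sub_rev] using hab
        · exact hs.mesh e he
    · rw [Multiset.map_cons, Multiset.map_cons, Multiset.map_cons, Multiset.map_cons, hs.bal]
      exact Multiset.cons_swap _ _ _
    · rw [mass_cons, mass_cons]
      simp only
      rw [ell_comm M b a]
      linarith
  have hedg : edgF ([a, b] :: S) = (a, b) ::ₘ (b, a) ::ₘ s := by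
    rw [edg_cons, hSs, FTotB_cyc, ← Multiset.cons_coe, ← Multiset.cons_coe, Multiset.cons_add,
      Multiset.cons_add]
    simp
  have hle : (cyc [a, b] : Multiset (E × E)) ≤ (a, b) ::ₘ (b, a) ::ₘ s := by
    rw [← hedg]
    exact le_edg List.mem_cons_self
  have hf : FineL M δ L [a, b] := fine_of_le le_rfl hL hg (by simp) hle
  have hne : ∀ l ∈ [a, b] :: S, l ≠ [] := by
    intro l hl
    rcases List.mem_cons.1 hl with rfl | hl
    · simp
    · exact hS l hl
  rw [totT_eq le_rfl hL Λ hΛ hg hne hedg, totT_eq le_rfl hL Λ hΛ hs hS hSs, List.map_cons,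
    List.sum_cons, lift_pair Λ hf, zero_add]

theorem totT_rev (hL : L' ≤ L) (Λ : Lift M δ L) (hΛ : Λ.Bouquet) {s : Multiset (E × E)}
    (hs : Good M δ L' s) : totT Λ (s.map Prod.swap) = - totT Λ s := by
  obtain ⟨S, hS, hSs⟩ := exists_sys hs.bal
  have hg : Good M δ L' (s.map Prod.swap) := by
    refine ⟨?_, ?_, ?_, ?_⟩
    · intro e he
      obtain ⟨e', he', rfl⟩ := Multiset.mem_map.1 he
      exact (hs.unit e' he').symm
    · intro e he
      obtain ⟨e', he', rfl⟩ := Multiset.mem_map.1 he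
      rw [Prod.fst_swap, Prod.snd_swap, norm_sub_rev]
      exact hs.mesh e' he'
    · rw [Multiset.map_map, Multiset.map_map]
      exact hs.bal.symm
    · rw [mass_swap]
      exact hs.len
  have hne : ∀ l ∈ S.map List.reverse, l ≠ [] := by
    intro l hl
    obtain ⟨l', hl', rfl⟩ := List.mem_map.1 hl
    intro h0
    exact hS l' hl' (List.reverse_eq_nil_iff.1 h0)
  rw [totT_eq le_rfl hL Λ hΛ hg hne (by rw [edg_reverse, hSs]),
    totT_eq le_rfl hL Λ hΛ hs hS hSs, List.map_map]
  have key : ∀ T : List (List E), (∀ l ∈ T, FineL M δ L l) →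
      (T.map (Λ.I ∘ List.reverse)).sum = - (T.map Λ.I).sum := by
    intro T hT
    induction T with
    | nil => simp
    | cons l T ih =>
      rw [List.map_cons, List.sum_cons, List.map_cons, List.sum_cons,
        ih fun l' hl' => hT l' (List.mem_cons_of_mem _ hl')]
      have h1 : (Λ.I ∘ List.reverse) l = - Λ.I l := Λ.rev l (hT l List.mem_cons_self)
      rw [h1]
      ring
  refine key S fun l hl => fine_of_le le_rfl hL hs (hS l hl) ?_
  rw [← hSs]
  exact le_edg hl

theorem totT_sub (hδ0 : 0 ≤ δ) (hδ : δ ≤ 1) (hL : L' ≤ L) (Λ : Lift M δ L) (hΛ : Λ.Bouquet)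
    {s : Multiset (E × E)} {a b : E} (hs : Good M δ L' ((a, b) ::ₘ s)) {t : ℝ}
    (ht : t ∈ Icc (0:ℝ) 1) :
    totT Λ ((a, nrm ((1 - t) • a + t • b)) ::ₘ (nrm ((1 - t) • a + t • b), b) ::ₘ s) =
      totT Λ ((a, b) ::ₘ s) := by
  obtain ⟨S, hS, hSs⟩ := exists_sys hs.bal
  obtain ⟨ha, hb⟩ := hs.unit (a, b) (Multiset.mem_cons_self _ _)
  have hab : ‖a - b‖ ≤ δ := hs.mesh (a, b) (Multiset.mem_cons_self _ _)
  simp only at ha hb
  have hab1 : ‖a - b‖ ≤ 1 := hab.trans hδ
  have hab2 : ‖a - b‖ < 2 := by linarith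
  have hmem : (a, b) ∈ edgF S := by
    rw [hSs]
    exact Multiset.mem_cons_self _ _
  obtain ⟨l, hl, hle⟩ := mem_edgF.1 hmem
  obtain ⟨k, v, hk, hv⟩ := exists_rotate hle
  obtain ⟨S1, S2, hS12⟩ := List.append_of_mem hl
  have hperm : S.Perm (l :: (S1 ++ S2)) := by
    rw [hS12]
    exact List.perm_middle
  have hE1 := Eqv_perm (I := Λ.I) hS hperm
  have hB : Bq Λ.I (edgF (l :: (S1 ++ S2))) := by
    rw [hE1.edge, hSs]
    exact Bq_of_good le_rfl hL Λ hΛ hs
  have hE2 := Eqv_rotate (I := Λ.I) k hE1.ne hB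
  rw [hk] at hE2
  have hE := hE1.trans hE2
  set T := S1 ++ S2 with hT
  have hedge : edgF ((a :: v) :: T) = (a, b) ::ₘ s := hE.edge.trans hSs
  set c := nrm ((1 - t) • a + t • b) with hc
  obtain ⟨R, hR1, hR2⟩ := cyc_insert hv c
  have hs' : s = (R : Multiset (E × E)) + edgF T := by
    rw [edg_cons, hR1] at hedge
    have h1 : (((a, b) :: R : List (E × E)) : Multiset (E × E)) + edgF T =
        (a, b) ::ₘ ((R : Multiset (E × E)) + edgF T) := by
      rw [← Multiset.cons_coe, Multiset.cons_add]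
    rw [h1] at hedge
    exact ((Multiset.cons_inj_right _).1 hedge).symm
  have hedge2 : edgF ((a :: c :: v) :: T) = (a, c) ::ₘ (c, b) ::ₘ s := by
    rw [edg_cons, hR2, hs', ← Multiset.cons_coe, ← Multiset.cons_coe, Multiset.cons_add,
      Multiset.cons_add]
  have hcu : ‖c‖ = 1 := norm_nrm (seg_ne_zero ha hb hab2 t)
  have harc := norm_sub_arc_le ha hb hab1 ht
  have hg : Good M δ L' ((a, c) ::ₘ (c, b) ::ₘ s) := by
    refine ⟨?_, ?_, ?_, ?_⟩
    · intro e he
      rcases Multiset.mem_cons.1 he with rfl | he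
      · exact ⟨ha, hcu⟩
      · rcases Multiset.mem_cons.1 he with rfl | he
        · exact ⟨hcu, hb⟩
        · exact hs.unit e (Multiset.mem_cons_of_mem he)
    · intro e he
      rcases Multiset.mem_cons.1 he with rfl | he
      · exact harc.1.trans hab
      · rcases Multiset.mem_cons.1 he with rfl | he
        · exact harc.2.trans hab
        · exact hs.mesh e (Multiset.mem_cons_of_mem he)
    · have h1 := hs.bal
      rw [Multiset.map_cons, Multiset.map_cons] at h1
      rw [Multiset.map_cons, Multiset.map_cons, Multiset.map_cons, Multiset.map_cons]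
      simp only at h1 ⊢
      rw [Multiset.cons_swap, h1]
    · have h1 := hs.len
      rw [mass_cons] at h1
      rw [mass_cons, mass_cons]
      simp only at h1 ⊢
      have h2 := ell_add_nrm M ha hb hab2 ht
      rw [← hc] at h2
      linarith
  have hne2 : ∀ l' ∈ (a :: c :: v) :: T, l' ≠ [] := by
    intro l' hl'
    rcases List.mem_cons.1 hl' with rfl | hl'
    · simp
    · exact hE.ne l' (List.mem_cons_of_mem _ hl')
  have hf : FineL M δ L (a :: v) := by
    refine fine_of_le le_rfl hL hs (by simp) ?_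
    rw [← hedge]
    exact le_edg List.mem_cons_self
  rw [totT_eq le_rfl hL Λ hΛ hg hne2 hedge2, totT_eq le_rfl hL Λ hΛ hs hE.ne hedge,
    List.map_cons, List.sum_cons, List.map_cons, List.sum_cons, hc,
    lift_insert_gen hδ0 hδ Λ hf ht hv]

end CGA
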