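import Pool.Agent.CGA.GSv

/-! PROJECT CGA, module GAF: closure properties of arrangement functions.

tri a b c p depends only on the signs of ⟪p, crs b c⟫, ⟪p, crs c a⟫, ⟪p, crs a b⟫ (det3 p b c, det3 a p c, det3 a b p) and on the constant det3 a b c; if one of the three cross products is 0 then
tri = 0.  Otherwise use `isArr_extend` with S = the three cross products; 0 < ⟪can (nrm k), x⟫ * ⟪can (nrm k), y⟫ ⇒ 0 < ⟪k,x⟫ * ⟪k,y⟫. -/

set_option linter.all false

namespace CGA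

open scoped RealInnerProductSpace Real Topology
open MeasureTheory Set Filter

theorem AF.common {u v : E → ℤ} (hu : AF u) (hv : AF v) : ∃ N, IsArr N ∧ Fn N u ∧ Fn N v := by
  classical
  obtain ⟨N, hN, h1⟩ := hu
  obtain ⟨N', hN', h2⟩ := hv
  refine ⟨_, hN.union hN', Fn.mono ?_ h1, Fn.mono ?_ h2⟩
  · intro n hn
    simp [hn]
  · intro n hn
    simp [hn]

theorem AF.comp2 {u v : E → ℤ} (hu : AF u) (hv : AF v) (g : ℤ → ℤ → ℤ) :
    AF fun x => g (u x) (v x) := by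
  obtain ⟨N, hN, h1, h2⟩ := hu.common hv
  refine ⟨N, hN, fun x y hxy => ?_⟩
  beta_reduce
  rw [h1 x y hxy, h2 x y hxy]

theorem AF.const (k : ℤ) : AF fun _ => k :=
  ⟨_, isArr_base, fun _ _ _ => rfl⟩

theorem AF.add {u v : E → ℤ} (hu : AF u) (hv : AF v) : AF fun x => u x + v x :=
  hu.comp2 hv fun a b => a + b

theorem AF.neg {u : E → ℤ} (hu : AF u) : AF fun x => - u x :=
  hu.comp2 hu fun a _ => -a

theorem AF.max0 {u : E → ℤ} (hu : AF u) : AF fun x => max (u x) 0 :=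
  hu.comp2 hu fun a _ => max a 0

theorem AF.sum {ι : Type*} (S : Finset ι) (u : ι → E → ℤ) (hu : ∀ i ∈ S, AF (u i)) :
    AF fun x => ∑ i ∈ S, u i x := by
  classical
  induction S using Finset.induction_on with
  | empty =>
    simp only [Finset.sum_empty]
    exact AF.const 0
  | insert i S hi ih =>
    simp only [Finset.sum_insert hi]
    exact (hu i (Finset.mem_insert_self i S)).add
      (ih fun j hj => hu j (Finset.mem_insert_of_mem hj))

theorem AF.msum {ι : Type*} (S : Multiset ι) (u : ι → E → ℤ) (hu : ∀ i ∈ S, AF (u i)) :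
    AF fun x => (S.map fun i => u i x).sum := by
  induction S using Multiset.induction_on with
  | empty =>
    simp only [Multiset.map_zero, Multiset.sum_zero]
    exact AF.const 0
  | cons i S ih =>
    simp only [Multiset.map_cons, Multiset.sum_cons]
    exact (hu i (Multiset.mem_cons_self i S)).add
      (ih fun j hj => hu j (Multiset.mem_cons_of_mem hj))

private theorem GAF_sgn {N : Finset E} {k : E} (hk : k ≠ 0) (hm : can (nrm k) ∈ N) {x y : E}
    (hxy : ∀ n ∈ N, 0 < ⟪n, x⟫ * ⟪n, y⟫) : 0 < ⟪x, k⟫ * ⟪y, k⟫ := by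
  have h1 := (inner_can_mul_pos (nrm k) x y).1 (hxy _ hm)
  unfold nrm at h1
  rw [real_inner_smul_left, real_inner_smul_left] at h1
  have h2 : 0 < ‖k‖⁻¹ := inv_pos.2 (norm_pos_iff.2 hk)
  have h3 : ‖k‖⁻¹ * ⟪k, x⟫ * (‖k‖⁻¹ * ⟪k, y⟫) = (‖k‖⁻¹ * ‖k‖⁻¹) * (⟪k, x⟫ * ⟪k, y⟫) := by ring
  rw [h3] at h1
  have h4 := (mul_pos_iff_of_pos_left (mul_pos h2 h2)).1 h1
  rw [real_inner_comm x k, real_inner_comm y k] at h4
  exact h4

private theorem GAF_iff {s t : ℝ} (h : 0 < s * t) : (0 < s ↔ 0 < t) ∧ (s < 0 ↔ t < 0) := by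
  rcases mul_pos_iff.1 h with ⟨h1, h2⟩ | ⟨h1, h2⟩
  · exact ⟨⟨fun _ => h2, fun _ => h1⟩, ⟨fun h3 => absurd h3 h1.not_gt, fun h3 => absurd h3 h2.not_gt⟩⟩
  · exact ⟨⟨fun h3 => absurd h3 h1.not_gt, fun h3 => absurd h3 h2.not_gt⟩, ⟨fun _ => h2, fun _ => h1⟩⟩

private theorem GAF_deg {a b c : E} (h : det3 a b c = 0) (p : E) : tri a b c p = 0 := by
  unfold tri
  rw [if_neg (fun h1 => h1.2.2.2.ne' h), if_neg (fun h1 => h1.2.2.2.ne h)]

theorem Fn_tri {N : Finset E} {a b c : E}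
    (h1 : crs b c ≠ 0 → can (nrm (crs b c)) ∈ N) (h2 : crs c a ≠ 0 → can (nrm (crs c a)) ∈ N)
    (h3 : crs a b ≠ 0 → can (nrm (crs a b)) ∈ N) : Fn N (tri a b c) := by
  intro x y hxy
  by_cases hd : det3 a b c = 0
  · rw [GAF_deg hd, GAF_deg hd]
  have d1 : ∀ p : E, det3 p b c = ⟪p, crs b c⟫ := fun p => det3_eq_inner p b c
  have d2 : ∀ p : E, det3 a p c = ⟪p, crs c a⟫ := fun p => by
    rw [det3_cyc, det3_eq_inner]
  have d3 : ∀ p : E, det3 a b p = ⟪p, crs a b⟫ := fun p => by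
    rw [det3_cyc, det3_cyc, det3_eq_inner]
  have c1 : crs b c ≠ 0 := fun h => hd (by rw [d1, h, inner_zero_right])
  have c2 : crs c a ≠ 0 := fun h => hd (by rw [d2, h, inner_zero_right])
  have c3 : crs a b ≠ 0 := fun h => hd (by rw [d3, h, inner_zero_right])
  obtain ⟨i1, j1⟩ := GAF_iff (GAF_sgn c1 (h1 c1) hxy)
  obtain ⟨i2, j2⟩ := GAF_iff (GAF_sgn c2 (h2 c2) hxy)
  obtain ⟨i3, j3⟩ := GAF_iff (GAF_sgn c3 (h3 c3) hxy)
  rw [← d1, ← d1] at i1 j1
  rw [← d2, ← d2] at i2 j2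
  rw [← d3, ← d3] at i3 j3
  unfold tri
  simp only [i1, i2, i3, j1, j2, j3]

theorem AF_tri (a b c : E) : AF (tri a b c) := by
  classical
  obtain ⟨N', _, hN', hk⟩ := isArr_extend isArr_base
    ((({crs b c, crs c a, crs a b} : Finset E)).filter fun k => k ≠ 0)
    (fun k hk => (Finset.mem_filter.1 hk).2)
  refine ⟨N', hN', Fn_tri (fun h => hk _ ?_) (fun h => hk _ ?_) (fun h => hk _ ?_)⟩
  · simp [h]
  · simp [h]
  · simp [h]

theorem AF_coneF (x : E) (s : Multiset (E × E)) : AF (coneF x s) :=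
  AF.msum s (fun e => tri x e.1 e.2) fun e _ => AF_tri x e.1 e.2

theorem exists_arr_of_AF {ι : Type*} (S : Finset ι) (u : ι → E → ℤ) (hu : ∀ i ∈ S, AF (u i)) :
    ∃ N, IsArr N ∧ ∀ i ∈ S, Fn N (u i) := by
  classical
  induction S using Finset.induction_on with
  | empty => exact ⟨_, isArr_base, fun i hi => absurd hi (Finset.notMem_empty i)⟩
  | insert i S hi ih =>
    obtain ⟨N, hN, h1⟩ := ih fun j hj => hu j (Finset.mem_insert_of_mem hj)
    obtain ⟨N', hN', h2⟩ := hu i (Finset.mem_insert_self i S)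
    refine ⟨_, hN.union hN', fun j hj => ?_⟩
    rcases Finset.mem_insert.1 hj with rfl | hj'
    · refine Fn.mono ?_ h2
      intro n hn
      simp [hn]
    · refine Fn.mono ?_ (h1 j hj')
      intro n hn
      simp [hn]

end CGA
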