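import Pool.Agent.CGA.GSv

/-! PROJECT CGA, module GBalA: the local structure at a vertex v.

Let v be a vertex, D = {± nrm (crs n v) : n ∈ N, ⟪n,v⟫ = 0}: this is a CSet for the circle with normal v (finite, antipodal, unit, ⟂ v, two non-parallel: two planes through v).
For d ∈ D let S d be the eventual value (δ → 0+) of u (v + δ (d + succ d)), succ = next point of D counterclockwise around v.  (For n ∈ N through v: ⟪n, d + succ d⟫ ≠ 0, since otherwise a point of D, namely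
± nrm (crs n v) ∥ d + succ d, would lie strictly between; for n not through v the sign is the sign of ⟪n,v⟫.)
Jump at the outgoing edge: n through v, t = crs n v (unit), m = v + δ t: the +n side of m is counterclockwise (crs v t = n): u (m + εn) has the signs of v + δ' (t + succ t), so
Jmp u n (v + δ t) = S t - S (pred t); at m = v - δ t: d = -t, the +n side is clockwise: Jmp u n (v - δ t) = S (pred d) - S d.
Formal statement: a function S : E → ℤ with these two properties for all n through v and all small δ > 0. -/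

set_option linter.all false

namespace CGA

open scoped RealInnerProductSpace Real Topology
open MeasureTheory Set Filter

/-- directions of the planes through v -/
def Dir (N : Finset E) (v : E) : Set E :=
  {d | ∃ n ∈ N, ⟪n, v⟫ = 0 ∧ (d = crs n v ∨ d = -crs n v)}

/-- the determinant with a direction is an inner product -/
private theorem gbala_det (v k w : E) :
    det3 v (crs k v) w = ‖v‖ ^ 2 * ⟪k, w⟫ - ⟪k, v⟫ * ⟪v, w⟫ := by
  rw [normsq3, inner3, inner3, inner3]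
  simp [det3, crs]
  ring

private theorem gbala_det' {v k w : E} (hv : ‖v‖ = 1) (hk : ⟪k, v⟫ = 0) :
    det3 v (crs k v) w = ⟪k, w⟫ := by
  rw [gbala_det, hv, hk]
  ring

private theorem gbala_neg_left (v e w : E) : det3 v (-e) w = - det3 v e w := det3_neg2 v e w

private theorem gbala_unit {v k : E} (hv : ‖v‖ = 1) (hk : ‖k‖ = 1) (hkv : ⟪k, v⟫ = 0) :
    ‖crs k v‖ = 1 := by
  have h := norm_crs_sq k v
  rw [hv, hk, hkv] at h
  have h1 : ‖crs k v‖ ^ 2 = 1 := by rw [h]; norm_num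
  nlinarith [norm_nonneg (crs k v), sq_nonneg (‖crs k v‖ - 1)]

theorem Dir_cset {N : Finset E} (hN : IsArr N) {v : E} (hv : v ∈ Vert N) : CSet v (Dir N v) := by
  obtain ⟨hv1, n, hn, m, hm, hnm, hnv, hmv⟩ := hv
  refine ⟨hv1, ?_, ?_, ?_, ?_, ?_⟩
  · have h1 : Dir N v ⊆ ((fun n => crs n v) '' (N : Set E)) ∪ ((fun n => -crs n v) '' (N : Set E)) := by
      rintro d ⟨k, hk, -, hd | hd⟩
      · exact Or.inl ⟨k, hk, hd.symm⟩
      · exact Or.inr ⟨k, hk, hd.symm⟩
    exact ((N.finite_toSet.image _).union (N.finite_toSet.image _)).subset h1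
  · rintro d ⟨k, hk, hkv, rfl | rfl⟩
    · exact gbala_unit hv1 (hN.unit k hk) hkv
    · rw [norm_neg]
      exact gbala_unit hv1 (hN.unit k hk) hkv
  · rintro d ⟨k, hk, hkv, rfl | rfl⟩
    · rw [real_inner_comm]
      exact inner_crs_right k v
    · rw [inner_neg_right, real_inner_comm, inner_crs_right, neg_zero]
  · rintro d ⟨k, hk, hkv, rfl | rfl⟩
    · exact ⟨k, hk, hkv, Or.inr rfl⟩
    · exact ⟨k, hk, hkv, Or.inl (neg_neg _)⟩
  · refine ⟨crs n v, ⟨n, hn, hnv, Or.inl rfl⟩, crs m v, ⟨m, hm, hmv, Or.inl rfl⟩, ?_⟩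
    rw [gbala_det' hv1 hnv]
    intro h0
    have h1 : crs n m = det3 v n m • v := by
      refine crs_eq_smul hv1 ?_ ?_
      · rw [real_inner_comm]
        exact hnv
      · rw [real_inner_comm]
        exact hmv
    have h2 : det3 v n m = 0 := by
      rw [det3_cyc, det3_eq_inner]
      exact h0
    rw [h2, zero_smul] at h1
    exact hN.crs_ne hn hm hnm h1

private theorem gbala_sgn {x m v : ℝ} (h1 : 0 < x * v) (h2 : 0 < m * v) : 0 < x * m := by
  rcases mul_pos_iff.1 h1 with ⟨a, b⟩ | ⟨a, b⟩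
  · rcases mul_pos_iff.1 h2 with ⟨c, d⟩ | ⟨c, d⟩
    · exact mul_pos a c
    · linarith
  · rcases mul_pos_iff.1 h2 with ⟨c, d⟩ | ⟨c, d⟩
    · linarith
    · exact mul_pos_of_neg_of_neg a c

/-- the planes through `v` do not separate neighbouring directions -/
private theorem gbala_nonneg {N : Finset E} {v : E} (hv : ‖v‖ = 1) {a b k : E} (hk : k ∈ N)
    (hkv : ⟪k, v⟫ = 0) (h : Nxt v (Dir N v) a b) : 0 ≤ ⟪k, a⟫ * ⟪k, b⟫ := by
  by_contra hcon
  push Not at hcon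
  have ea : det3 v (crs k v) a = ⟪k, a⟫ := gbala_det' hv hkv
  have eb : det3 v (crs k v) b = ⟪k, b⟫ := gbala_det' hv hkv
  have hm : crs k v ∈ Dir N v := ⟨k, hk, hkv, Or.inl rfl⟩
  have hm' : -crs k v ∈ Dir N v := ⟨k, hk, hkv, Or.inr rfl⟩
  have e1 : det3 v a (crs k v) = - ⟪k, a⟫ := by rw [det3_swap23, ea]
  rcases mul_neg_iff.1 hcon with ⟨h1, h2⟩ | ⟨h1, h2⟩
  · refine h.no _ hm' ⟨?_, ?_⟩
    · rw [det3_neg3, e1]
      linarith
    · rw [det3_neg2, eb]
      linarith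
  · refine h.no _ hm ⟨?_, ?_⟩
    · rw [e1]
      linarith
    · rw [eb]
      exact h2

private theorem gbala_small {N : Finset E} (v : E) : ∃ δ₀ > 0, ∀ w : E, ‖w‖ < δ₀ → ∀ k ∈ N,
    ⟪k, v⟫ ≠ 0 → 0 < ⟪k, v + w⟫ * ⟪k, v⟫ := by
  have h1 : ∀ᶠ w in 𝓝 (0 : E), ∀ k ∈ N, ⟪k, v⟫ ≠ 0 → 0 < ⟪k, v + w⟫ * ⟪k, v⟫ := by
    rw [Filter.eventually_all_finset]
    intro k hk
    by_cases hkv : ⟪k, v⟫ = 0
    · exact Filter.Eventually.of_forall fun w h => absurd hkv h
    · have hc : Continuous fun w : E => ⟪k, v + w⟫ * ⟪k, v⟫ := by fun_prop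
      have hp : 0 < ⟪k, v + 0⟫ * ⟪k, v⟫ := by
        rw [add_zero]
        exact mul_self_pos.2 hkv
      filter_upwards [hc.continuousAt.eventually (lt_mem_nhds hp)] with w hw _
      exact hw
  rw [Metric.eventually_nhds_iff] at h1
  obtain ⟨δ₀, hδ, h2⟩ := h1
  exact ⟨δ₀, hδ, fun w hw => h2 (by rwa [dist_zero_right])⟩

/-- signs at the points near a vertex -/
private theorem gbala_key {N : Finset E} (hN : IsArr N) {v : E} (hv : v ∈ Vert N) {δ₀ : ℝ}
    (hδ₀ : 0 < δ₀) (hF : ∀ w : E, ‖w‖ < δ₀ → ∀ k ∈ N, ⟪k, v⟫ ≠ 0 → 0 < ⟪k, v + w⟫ * ⟪k, v⟫)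
    {n : E} (hn : n ∈ N) (hnv : ⟪n, v⟫ = 0) {t : E} (ht : t = crs n v ∨ t = -crs n v) {δ : ℝ}
    (hδ : 0 < δ) (hδ' : δ < δ₀) {a b : E} (hab : Nxt v (Dir N v) a b) (h : t = a ∨ t = b) :
    ∀ k ∈ N, k ≠ n → 0 < ⟪k, v + (δ₀ / 3) • (a + b)⟫ * ⟪k, v + δ • t⟫ := by
  intro k hk hkn
  have hC := Dir_cset hN hv
  have hv1 := hv.1
  have htu : ‖t‖ = 1 := by
    rcases ht with rfl | rfl
    · exact gbala_unit hv1 (hN.unit n hn) hnv
    · rw [norm_neg]
      exact gbala_unit hv1 (hN.unit n hn) hnv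
  by_cases hkv : ⟪k, v⟫ = 0
  · have e1 : ⟪k, v + (δ₀ / 3) • (a + b)⟫ = δ₀ / 3 * (⟪k, a⟫ + ⟪k, b⟫) := by
      rw [inner_add_right, hkv, inner_smul_right, inner_add_right]
      ring
    have e2 : ⟪k, v + δ • t⟫ = δ * ⟪k, t⟫ := by
      rw [inner_add_right, hkv, inner_smul_right]
      ring
    have hkt : ⟪k, t⟫ ≠ 0 := by
      have h1 : ⟪k, crs n v⟫ ≠ 0 := by
        intro h0
        have h1 : crs k n = det3 v k n • v := by
          refine crs_eq_smul hv1 ?_ ?_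
          · rw [real_inner_comm]
            exact hkv
          · rw [real_inner_comm]
            exact hnv
        have h2 : det3 v k n = 0 := by
          rw [det3_cyc, det3_eq_inner]
          exact h0
        rw [h2, zero_smul] at h1
        exact hN.crs_ne hk hn hkn h1
      rcases ht with rfl | rfl
      · exact h1
      · rw [inner_neg_right]
        exact neg_ne_zero.2 h1
    have h0 := gbala_nonneg hv1 hk hkv hab
    rw [e1, e2]
    have h3 : 0 < (⟪k, a⟫ + ⟪k, b⟫) * ⟪k, t⟫ := by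
      have h4 : 0 < ⟪k, t⟫ * ⟪k, t⟫ := mul_self_pos.2 hkt
      rcases h with rfl | rfl
      · nlinarith
      · nlinarith
    have h5 : δ₀ / 3 * (⟪k, a⟫ + ⟪k, b⟫) * (δ * ⟪k, t⟫) =
        δ₀ / 3 * δ * ((⟪k, a⟫ + ⟪k, b⟫) * ⟪k, t⟫) := by ring
    rw [h5]
    positivity
  · have h1 : ‖(δ₀ / 3) • (a + b)‖ < δ₀ := by
      rw [norm_smul, Real.norm_eq_abs, abs_of_pos (by positivity)]
      have h2 : ‖a + b‖ ≤ 2 := by
        refine (norm_add_le _ _).trans ?_
        rw [hC.unit a hab.ma, hC.unit b hab.mb]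
        norm_num
      nlinarith
    have h2 : ‖δ • t‖ < δ₀ := by
      rw [norm_smul, Real.norm_eq_abs, abs_of_pos hδ, htu, mul_one]
      exact hδ'
    exact gbala_sgn (hF _ h1 k hk hkv) (hF _ h2 k hk hkv)

private theorem gbala_onG {N : Finset E} (hN : IsArr N) {v : E} (hv : v ∈ Vert N) {δ₀ : ℝ}
    (hδ₀ : 0 < δ₀) (hF : ∀ w : E, ‖w‖ < δ₀ → ∀ k ∈ N, ⟪k, v⟫ ≠ 0 → 0 < ⟪k, v + w⟫ * ⟪k, v⟫)
    {n : E} (hn : n ∈ N) (hnv : ⟪n, v⟫ = 0) {t : E} (ht : t = crs n v ∨ t = -crs n v) {δ : ℝ}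
    (hδ : 0 < δ) (hδ' : δ < δ₀) {a b : E} (hab : Nxt v (Dir N v) a b) (h : t = a ∨ t = b) :
    OnG N n (v + δ • t) := by
  refine ⟨hn, ?_, ?_⟩
  · have h1 : ⟪n, t⟫ = 0 := by
      rcases ht with rfl | rfl
      · rw [real_inner_comm]
        exact inner_crs_left n v
      · rw [inner_neg_right, real_inner_comm, inner_crs_left, neg_zero]
    rw [inner_add_right, hnv, inner_smul_right, h1]
    ring
  · intro k hk hkn h0
    have h1 := gbala_key hN hv hδ₀ hF hn hnv ht hδ hδ' hab h k hk hkn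
    rw [h0, mul_zero] at h1
    exact lt_irrefl _ h1

theorem exists_local {N : Finset E} (hN : IsArr N) {v : E} (hv : v ∈ Vert N) {u : E → ℤ}
    (hu : Fn N u) : ∃ S : E → ℤ, ∀ n ∈ N, ⟪n, v⟫ = 0 → ∀ d' d'' : E,
      Nxt v (Dir N v) d' (crs n v) → Nxt v (Dir N v) d'' (-crs n v) →
      ∀ᶠ δ in 𝓝[>] (0:ℝ), OnG N n (v + δ • crs n v) ∧ OnG N n (v - δ • crs n v) ∧
        Jmp u n (v + δ • crs n v) = S (crs n v) - S d' ∧
        Jmp u n (v - δ • crs n v) = S d'' - S (-crs n v) := by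
  have hC := Dir_cset hN hv
  have hv1 := hv.1
  choose! s hs using fun a (ha : a ∈ Dir N v) => hC.exists_nxt ha
  obtain ⟨δ₀, hδ₀, hF⟩ := gbala_small (N := N) v
  refine ⟨fun d => u (v + (δ₀ / 3) • (d + s d)), ?_⟩
  intro n hn hnv d' d'' h' h''
  have ht : crs n v ∈ Dir N v := ⟨n, hn, hnv, Or.inl rfl⟩
  have ht' : -crs n v ∈ Dir N v := ⟨n, hn, hnv, Or.inr rfl⟩
  have hst := hs _ ht
  have hst' := hs _ ht'
  have e' : s d' = crs n v := hC.nxt_unique (hs d' h'.ma) h'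
  have e'' : s d'' = -crs n v := hC.nxt_unique (hs d'' h''.ma) h''
  have hnt : ⟪n, crs n v⟫ = 0 := by
    rw [real_inner_comm]
    exact inner_crs_left n v
  have hin : ∀ w : E, ⟪n, w⟫ = det3 v (crs n v) w := fun w => (gbala_det' hv1 hnv).symm
  have hx : ∀ a b : E, ⟪n, v + (δ₀ / 3) • (a + b)⟫ = δ₀ / 3 * (⟪n, a⟫ + ⟪n, b⟫) := by
    intro a b
    rw [inner_add_right, hnv, inner_smul_right, inner_add_right]
    ring
  have hpos : 0 < δ₀ / 3 := by positivity
  filter_upwards [Ioo_mem_nhdsGT hδ₀] with δ hδ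
  have g1 : OnG N n (v + δ • crs n v) :=
    gbala_onG hN hv hδ₀ hF hn hnv (Or.inl rfl) hδ.1 hδ.2 hst (Or.inl rfl)
  have g2 : OnG N n (v + δ • (-crs n v)) :=
    gbala_onG hN hv hδ₀ hF hn hnv (Or.inr rfl) hδ.1 hδ.2 hst' (Or.inl rfl)
  have hsub : v - δ • crs n v = v + δ • (-crs n v) := by
    rw [smul_neg, sub_eq_add_neg]
  rw [hsub]
  refine ⟨g1, g2, ?_, ?_⟩
  · have s1 : sv u (v + δ • crs n v) n = u (v + (δ₀ / 3) • (crs n v + s (crs n v))) := by
      refine sv_pos hN hu g1 ?_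
        (gbala_key hN hv hδ₀ hF hn hnv (Or.inl rfl) hδ.1 hδ.2 hst (Or.inl rfl))
      rw [hx, hnt, zero_add, hin]
      exact mul_pos hpos hst.pos
    have s2 : sv u (v + δ • crs n v) (-n) = u (v + (δ₀ / 3) • (d' + s d')) := by
      rw [e']
      refine sv_neg hN hu g1 ?_
        (gbala_key hN hv hδ₀ hF hn hnv (Or.inl rfl) hδ.1 hδ.2 h' (Or.inr rfl))
      rw [hx, hnt, add_zero, hin, det3_swap23]
      have := mul_pos hpos h'.pos
      linarith
    unfold Jmp
    rw [s1, s2]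
  · have s1 : sv u (v + δ • (-crs n v)) n = u (v + (δ₀ / 3) • (d'' + s d'')) := by
      rw [e'']
      refine sv_pos hN hu g2 ?_
        (gbala_key hN hv hδ₀ hF hn hnv (Or.inr rfl) hδ.1 hδ.2 h'' (Or.inr rfl))
      rw [hx, inner_neg_right, hnt, neg_zero, add_zero, hin]
      have h3 := h''.pos
      rw [det3_neg3, det3_swap23, neg_neg] at h3
      exact mul_pos hpos h3
    have s2 : sv u (v + δ • (-crs n v)) (-n) = u (v + (δ₀ / 3) • (-crs n v + s (-crs n v))) := by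
      refine sv_neg hN hu g2 ?_
        (gbala_key hN hv hδ₀ hF hn hnv (Or.inr rfl) hδ.1 hδ.2 hst' (Or.inl rfl))
      rw [hx, inner_neg_right, hnt, neg_zero, zero_add, hin]
      have h3 := hst'.pos
      rw [det3_neg2] at h3
      have := mul_pos hpos h3
      linarith
    unfold Jmp
    rw [s1, s2]

end CGA
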