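import Pool.Agent.CGA.GTVN

/-! PROJECT CGA, module GBd: the boundary multiset. -/

set_option linter.all false

namespace CGA

open scoped RealInnerProductSpace Real Topology
open MeasureTheory Set Filter

theorem mem_bd {N : Finset E} (hN : IsArr N) {u : E → ℤ} {d : E × E} (hd : d ∈ bd N u) :
    ∃ n, (IsEdge N n d.1 d.2 ∧ 0 < Jmp u n (d.1 + d.2)) ∨
      (IsEdge N n d.2 d.1 ∧ Jmp u n (d.2 + d.1) < 0) := by
  unfold bd at hd
  rw [Multiset.mem_sum] at hd
  obtain ⟨⟨n, a, b⟩, he, hd⟩ := hd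
  have hE : IsEdge N n a b := (mem_edg hN).1 he
  rw [Multiset.mem_add, Multiset.mem_replicate, Multiset.mem_replicate] at hd
  refine ⟨n, ?_⟩
  rcases hd with ⟨h1, h2⟩ | ⟨h1, h2⟩
  · left
    rw [h2]
    refine ⟨hE, ?_⟩
    by_contra h3
    exact h1 (Int.toNat_of_nonpos (not_lt.1 h3))
  · right
    rw [h2]
    refine ⟨hE, ?_⟩
    by_contra h3
    exact h1 (Int.toNat_of_nonpos (by
      have h4 := not_lt.1 h3
      show -Jmp u n (a + b) ≤ 0
      have h5 : 0 ≤ Jmp u n (a + b) := h4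
      omega))

private theorem GBd_sum {N : Finset E} (u : E → ℤ) {A : Type*} [AddCommMonoid A]
    (φ : E × E → A) : ((bd N u).map φ).sum = ∑ e ∈ edg N,
      ((Je u e).toNat • φ (e.2.1, e.2.2) + (-Je u e).toNat • φ (e.2.2, e.2.1)) := by
  unfold bd
  have h1 : ∀ m : Multiset (E × E), (m.map φ).sum =
      (Multiset.sumAddMonoidHom.comp (Multiset.mapAddMonoidHom φ)) m := fun m => rfl
  rw [h1, map_sum]
  refine Finset.sum_congr rfl fun e _ => ?_
  rw [← h1, Multiset.map_add, Multiset.sum_add, Multiset.map_replicate, Multiset.map_replicate,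
    Multiset.sum_replicate, Multiset.sum_replicate]

/-- sums over the boundary of an antisymmetric function -/
theorem bd_sum {N : Finset E} (hN : IsArr N) (u : E → ℤ) {A : Type*} [AddCommGroup A]
    (φ : E × E → A) (hφ : ∀ n a b, IsEdge N n a b → φ (b, a) = - φ (a, b)) :
    ((bd N u).map φ).sum = ∑ e ∈ edg N, Je u e • φ (e.2.1, e.2.2) := by
  rw [GBd_sum]
  refine Finset.sum_congr rfl ?_
  rintro ⟨n, a, b⟩ he
  rw [hφ n a b ((mem_edg hN).1 he), smul_neg, ← sub_eq_add_neg, ← natCast_zsmul, ← natCast_zsmul,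
    ← sub_smul, Int.toNat_sub_toNat_neg]

/-- sums over the boundary of a symmetric function -/
theorem bd_sum_abs {N : Finset E} (hN : IsArr N) (u : E → ℤ)
    (φ : E × E → ℝ) (hφ : ∀ n a b, IsEdge N n a b → φ (b, a) = φ (a, b)) :
    ((bd N u).map φ).sum = ∑ e ∈ edg N, |(Je u e : ℝ)| * φ (e.2.1, e.2.2) := by
  rw [GBd_sum]
  refine Finset.sum_congr rfl ?_
  rintro ⟨n, a, b⟩ he
  rw [hφ n a b ((mem_edg hN).1 he), nsmul_eq_mul, nsmul_eq_mul, ← add_mul]
  congr 1
  have h1 : ((Je u (n, a, b)).toNat : ℤ) + ((-Je u (n, a, b)).toNat : ℤ) = |Je u (n, a, b)| := by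
    rcases le_total 0 (Je u (n, a, b)) with h | h
    · rw [abs_of_nonneg h]
      omega
    · rw [abs_of_nonpos h]
      omega
  exact_mod_cast h1

theorem mass_bd (M : Met) {N : Finset E} (hN : IsArr N) (u : E → ℤ) :
    mass M (bd N u) = TVN M N u := by
  rw [TVN_eq_sum M hN]
  exact bd_sum_abs hN u (fun e => ell M e.1 e.2) (fun n a b _ => ell_comm M _ _)

theorem bd_neg {N : Finset E} (hN : IsArr N) {u : E → ℤ} (hu : Fn N u) :
    bd N (fun x => - u x) = (bd N u).map Prod.swap := by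
  unfold bd
  have h1 : ∀ m : Multiset (E × E), m.map Prod.swap =
      (Multiset.mapAddMonoidHom (Prod.swap : E × E → E × E)) m := fun m => rfl
  rw [h1, map_sum]
  refine Finset.sum_congr rfl ?_
  rintro ⟨n, a, b⟩ he
  have hE : IsEdge N n a b := (mem_edg hN).1 he
  have h2 : Je (fun x => - u x) (n, a, b) = - Je u (n, a, b) := Jmp_neg hN hu (hE.mid hN).1
  rw [← h1, h2, Multiset.map_add, Multiset.map_replicate, Multiset.map_replicate, neg_neg,
    add_comm]
  rfl

theorem bd_add_const {N : Finset E} (hN : IsArr N) {u : E → ℤ} (hu : Fn N u) (k : ℤ) :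
    bd N (fun x => u x + k) = bd N u := by
  unfold bd
  refine Finset.sum_congr rfl ?_
  rintro ⟨n, a, b⟩ he
  have hE : IsEdge N n a b := (mem_edg hN).1 he
  have h2 : Je (fun x => u x + k) (n, a, b) = Je u (n, a, b) :=
    Jmp_add_const hN hu k (hE.mid hN).1
  rw [h2]

theorem bd_congr {N : Finset E} (hN : IsArr N) {u v : E → ℤ} (hu : Fn N u) (hv : Fn N v)
    (huv : ∀ x, Gen N x → u x = v x) : bd N u = bd N v := by
  unfold bd
  refine Finset.sum_congr rfl ?_
  rintro ⟨n, a, b⟩ he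
  have hE : IsEdge N n a b := (mem_edg hN).1 he
  have h2 : Je u (n, a, b) = Je v (n, a, b) := by
    obtain ⟨h3, h4⟩ := sv_congr hN hu hv huv (hE.mid hN).1
    show sv u (a + b) n - sv u (a + b) (-n) = sv v (a + b) n - sv v (a + b) (-n)
    rw [h3, h4]
  rw [h2]

private theorem GBd_pair (p q : ℤ) (x y : E × E) :
    Multiset.replicate p.toNat x + Multiset.replicate (-p).toNat y +
      (Multiset.replicate q.toNat x + Multiset.replicate (-q).toNat y) =
    Multiset.replicate (p + q).toNat x + Multiset.replicate (-(p + q)).toNat y +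
      Multiset.replicate (p.toNat + q.toNat - (p + q).toNat) x +
      Multiset.replicate (p.toNat + q.toNat - (p + q).toNat) y := by
  have h1 : p.toNat + q.toNat = (p + q).toNat + (p.toNat + q.toNat - (p + q).toNat) := by omega
  have h2 : (-p).toNat + (-q).toNat = (-(p + q)).toNat + (p.toNat + q.toNat - (p + q).toNat) := by
    omega
  calc Multiset.replicate p.toNat x + Multiset.replicate (-p).toNat y +
      (Multiset.replicate q.toNat x + Multiset.replicate (-q).toNat y)
      = Multiset.replicate (p.toNat + q.toNat) x +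
        Multiset.replicate ((-p).toNat + (-q).toNat) y := by
        rw [Multiset.replicate_add, Multiset.replicate_add]
        abel
    _ = _ := by
        rw [h1, h2, Multiset.replicate_add, Multiset.replicate_add]
        rw [← h1]
        abel

/-- additivity up to pairs of opposite darts -/
theorem bd_add {N : Finset E} (hN : IsArr N) {u v : E → ℤ} (hu : Fn N u) (hv : Fn N v) :
    ∃ P : Multiset (E × E), bd N u + bd N v = bd N (fun x => u x + v x) + P + P.map Prod.swap := by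
  refine ⟨∑ e ∈ edg N, Multiset.replicate
    ((Je u e).toNat + (Je v e).toNat - (Je u e + Je v e).toNat) (e.2.1, e.2.2), ?_⟩
  have h1 : ∀ m : Multiset (E × E), m.map Prod.swap =
      (Multiset.mapAddMonoidHom (Prod.swap : E × E → E × E)) m := fun m => rfl
  rw [h1, map_sum]
  unfold bd
  rw [← Finset.sum_add_distrib, ← Finset.sum_add_distrib, ← Finset.sum_add_distrib]
  refine Finset.sum_congr rfl ?_
  rintro ⟨n, a, b⟩ he
  have hE : IsEdge N n a b := (mem_edg hN).1 he
  have h2 : Je (fun x => u x + v x) (n, a, b) = Je u (n, a, b) + Je v (n, a, b) :=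
    Jmp_add hN hu hv (hE.mid hN).1
  rw [← h1, h2, Multiset.map_replicate]
  exact GBd_pair _ _ _ _

/-- if `u` vanishes generically near points of the open arc close to an end point there is no jump -/
private theorem GBd_zero {N : Finset E} (hN : IsArr N) {u : E → ℤ} (hu : Fn N u) {q : E} {r : ℝ}
    (h0 : ∀ x, Gen N x → r < ‖nrm x - q‖ → u x = 0) {n a b : E} (he : IsEdge N n a b) {s : ℝ}
    (hs : s ∈ Ioo (0:ℝ) 1) (hr : r < ‖nrm ((1 - s) • a + s • b) - q‖) : Jmp u n (a + b) = 0 := by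
  set m : E := (1 - s) • a + s • b with hm
  have hb : Betw n a m b := betw_pos_comb he.pos (by linarith [hs.2]) hs.1
  have hmp : ⟪n, m⟫ = 0 := by
    rw [hm, inner_add_right, inner_smul_right, inner_smul_right, he.na, he.nb]
    simp
  have hG : OnG N n m := he.onG hN hmp hb
  have hm0 : m ≠ 0 := hG.ne_zero hN
  rw [← Jmp_edge hN hu he hmp hb]
  have hcont : ContinuousAt (fun x : E => ‖nrm x - q‖) m := by
    have h1 : ContinuousAt nrm m := continuousOn_nrm.continuousAt (by
      exact (isOpen_compl_singleton (x := (0 : E))).mem_nhds hm0)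
    exact (h1.sub continuousAt_const).norm
  have h2 : ∀ᶠ x in 𝓝 m, r < ‖nrm x - q‖ := hcont.eventually (lt_mem_nhds hr)
  have h3 : Tendsto (fun ε : ℝ => m + ε • n) (𝓝[>] 0) (𝓝 m) := by
    have h4 : Continuous fun ε : ℝ => m + ε • n := by fun_prop
    have h5 := h4.tendsto 0
    simp only [zero_smul, add_zero] at h5
    exact h5.mono_left nhdsWithin_le_nhds
  have h3' : Tendsto (fun ε : ℝ => m - ε • n) (𝓝[>] 0) (𝓝 m) := by
    have h4 : Continuous fun ε : ℝ => m - ε • n := by fun_prop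
    have h5 := h4.tendsto 0
    simp only [zero_smul, sub_zero] at h5
    exact h5.mono_left nhdsWithin_le_nhds
  obtain ⟨ε, h6, h7, h8⟩ := ((sv_eventually hN hu hG).and
    ((h3.eventually h2).and (h3'.eventually h2))).exists
  show sv u m n - sv u m (-n) = 0
  rw [← h6.1, ← h6.2.1, h0 _ h6.2.2.1 h7, h0 _ h6.2.2.2 h8, sub_zero]

private theorem GBd_end {N : Finset E} (hN : IsArr N) {u : E → ℤ} (hu : Fn N u) {q : E} {r : ℝ}
    (h0 : ∀ x, Gen N x → r < ‖nrm x - q‖ → u x = 0) {n a b : E} (he : IsEdge N n a b)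
    (hJ : Jmp u n (a + b) ≠ 0) : ‖a - q‖ ≤ r ∧ ‖b - q‖ ≤ r := by
  have hne : ∀ s : ℝ, (1 - s) • a + s • b ≠ 0 :=
    fun s => seg_ne_zero he.unit.1 he.unit.2 he.lt_two.1 s
  have hc : Continuous fun s : ℝ => ‖nrm ((1 - s) • a + s • b) - q‖ := by
    have h1 : Continuous fun s : ℝ => nrm ((1 - s) • a + s • b) := by
      rw [← continuousOn_univ]
      refine continuousOn_nrm.comp (by fun_prop) ?_
      intro s _
      exact hne s
    exact (h1.sub continuous_const).norm
  constructor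
  · by_contra hlt
    have h1 : r < ‖nrm ((1 - (0:ℝ)) • a + (0:ℝ) • b) - q‖ := by
      simp only [sub_zero, one_smul, zero_smul, add_zero]
      rw [nrm_of_unit he.unit.1]
      exact not_le.1 hlt
    have h2 : ∀ᶠ s in 𝓝 (0:ℝ), r < ‖nrm ((1 - s) • a + s • b) - q‖ :=
      hc.continuousAt.eventually (lt_mem_nhds h1)
    have h3 : ∀ᶠ s in 𝓝[>] (0:ℝ), r < ‖nrm ((1 - s) • a + s • b) - q‖ :=
      h2.filter_mono nhdsWithin_le_nhds
    obtain ⟨s, h4, h5⟩ := (h3.and (Ioo_mem_nhdsGT (zero_lt_one' ℝ))).exists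
    exact hJ (GBd_zero hN hu h0 he h5 h4)
  · by_contra hlt
    have h1 : r < ‖nrm ((1 - (1:ℝ)) • a + (1:ℝ) • b) - q‖ := by
      simp only [sub_self, one_smul, zero_smul, zero_add]
      rw [nrm_of_unit he.unit.2]
      exact not_le.1 hlt
    have h2 : ∀ᶠ s in 𝓝 (1:ℝ), r < ‖nrm ((1 - s) • a + s • b) - q‖ :=
      hc.continuousAt.eventually (lt_mem_nhds h1)
    have h3 : ∀ᶠ s in 𝓝[<] (1:ℝ), r < ‖nrm ((1 - s) • a + s • b) - q‖ :=
      h2.filter_mono nhdsWithin_le_nhds
    obtain ⟨s, h4, h5⟩ := (h3.and (Ioo_mem_nhdsLT (zero_lt_one' ℝ))).exists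
    exact hJ (GBd_zero hN hu h0 he h5 h4)

/-- darts of the boundary of a function supported near `q` are near `q` -/
theorem bd_near {N : Finset E} (hN : IsArr N) {u : E → ℤ} (hu : Fn N u) {q : E} {r : ℝ}
    (h0 : ∀ x, Gen N x → r < ‖nrm x - q‖ → u x = 0) :
    ∀ d ∈ bd N u, ‖d.1 - q‖ ≤ r ∧ ‖d.2 - q‖ ≤ r := by
  intro d hd
  obtain ⟨n, ⟨he, hJ⟩ | ⟨he, hJ⟩⟩ := mem_bd hN hd
  · exact GBd_end hN hu h0 he hJ.ne'
  · exact (GBd_end hN hu h0 he hJ.ne).symm

end CGA
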