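import Pool.Agent.CGA.GBalA
import Pool.Agent.CGA.GBd

/-! PROJECT CGA, module GBalB: the boundary is balanced.

Vertex balance: Σ_{e ∈ edg N, e.2.1 = v} Je u e = Σ_{e ∈ edg N, e.2.2 = v} Je u e.  If v is not a vertex both sums are empty.  If v is a vertex: for each n ∈ N through v there is exactly one edge (n,v,b) and exactly
one edge (n,a,v) (CSet.exists_nxt, nxt_unique, prev); v + δ crs n v is between v and b (det3 n v (crs n v) = 1 > 0) and v - δ crs n v is between a and v, for small δ, so (Jmp_edge) the two jumps are those of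
exists_local, and the difference of the two sums is Σ_{d ∈ Dir N v} (S d - S (pred d)) = 0, pred being a permutation of the finite set Dir N v (the map n ↦ {crs n v, -crs n v} is a bijection of the planes through v with the
pairs {d,-d}).
Then (bd N u).map fst = (bd N u).map snd by comparing counts (Multiset.ext): count v of both sides are Σ (Je)⁺[e.2.1=v] + (Je)⁻[e.2.2=v] and Σ (Je)⁺[e.2.2=v] + (Je)⁻[e.2.1=v]. -/

set_option linter.all false

namespace CGA

open scoped RealInnerProductSpace Real Topology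
open MeasureTheory Set Filter

private theorem det_c {n v : E} (hn : ‖n‖ = 1) (hv : ‖v‖ = 1) (h : ⟪n, v⟫ = 0) :
    det3 n v (crs n v) = 1 := by
  rw [det3_cyc, det3_cyc, det3_eq_inner, real_inner_self_eq_norm_sq, norm_crs_sq, hn, hv, h]
  norm_num

private theorem je_out {N : Finset E} (hN : IsArr N) {u : E → ℤ} (hu : Fn N u) {n v b : E}
    (hv : ‖v‖ = 1) (hE : IsEdge N n v b) {J : ℤ}
    (h : ∀ᶠ δ in 𝓝[>] (0:ℝ), Jmp u n (v + δ • crs n v) = J) : Jmp u n (v + b) = J := by
  have hn := hN.unit n hE.mem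
  have h1 : ∀ᶠ δ in 𝓝[>] (0:ℝ), 0 < δ := eventually_mem_nhdsWithin
  have h2 : ∀ᶠ δ in 𝓝[>] (0:ℝ), 0 < det3 n v b + δ * det3 n (crs n v) b := by
    have ht : Tendsto (fun δ : ℝ => det3 n v b + δ * det3 n (crs n v) b) (𝓝[>] 0)
        (𝓝 (det3 n v b + 0 * det3 n (crs n v) b)) :=
      (tendsto_const_nhds.add (tendsto_id.mul_const _)).mono_left nhdsWithin_le_nhds
    rw [zero_mul, add_zero] at ht
    exact ht.eventually_const_lt hE.pos
  obtain ⟨δ, hδ, hδ1, hδ2⟩ := (h.and (h1.and h2)).exists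
  rw [← hδ]
  symm
  refine Jmp_edge hN hu hE ?_ ⟨?_, ?_⟩
  · rw [inner_add_right, real_inner_smul_right, hE.na, real_inner_comm, inner_crs_left]
    ring
  · have h3 := det3_lin3 1 δ n v v (crs n v)
    rw [one_smul, det3_self23, det_c hn hv hE.na] at h3
    rw [h3]
    linarith
  · have h3 := det3_lin2 1 δ n v (crs n v) b
    rw [one_smul] at h3
    rw [h3]
    linarith

private theorem je_in {N : Finset E} (hN : IsArr N) {u : E → ℤ} (hu : Fn N u) {n v a : E}
    (hv : ‖v‖ = 1) (hE : IsEdge N n a v) {J : ℤ}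
    (h : ∀ᶠ δ in 𝓝[>] (0:ℝ), Jmp u n (v - δ • crs n v) = J) : Jmp u n (a + v) = J := by
  have hn := hN.unit n hE.mem
  have h1 : ∀ᶠ δ in 𝓝[>] (0:ℝ), 0 < δ := eventually_mem_nhdsWithin
  have h2 : ∀ᶠ δ in 𝓝[>] (0:ℝ), 0 < det3 n a v + (-δ) * det3 n a (crs n v) := by
    have ht : Tendsto (fun δ : ℝ => det3 n a v + (-δ) * det3 n a (crs n v)) (𝓝[>] 0)
        (𝓝 (det3 n a v + (-0) * det3 n a (crs n v))) :=
      (tendsto_const_nhds.add (tendsto_id.neg.mul_const _)).mono_left nhdsWithin_le_nhds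
    rw [neg_zero, zero_mul, add_zero] at ht
    exact ht.eventually_const_lt hE.pos
  obtain ⟨δ, hδ, hδ1, hδ2⟩ := (h.and (h1.and h2)).exists
  rw [← hδ]
  symm
  have e0 : v - δ • crs n v = (1 : ℝ) • v + (-δ) • crs n v := by
    rw [one_smul, neg_smul, sub_eq_add_neg]
  refine Jmp_edge hN hu hE ?_ ⟨?_, ?_⟩
  · rw [inner_sub_right, real_inner_smul_right, hE.nb, real_inner_comm, inner_crs_left]
    ring
  · rw [e0, det3_lin3]
    linarith
  · rw [e0, det3_lin2, det3_self23, det3_swap23, det_c hn hv hE.nb]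
    linarith

theorem vertex_balance {N : Finset E} (hN : IsArr N) {u : E → ℤ} (hu : Fn N u) (v : E) :
    (open Classical in ∑ e ∈ (edg N).filter (fun e => e.2.1 = v), Je u e) =
      (open Classical in ∑ e ∈ (edg N).filter (fun e => e.2.2 = v), Je u e) := by
  classical
  by_cases hv : v ∈ Vert N
  swap
  · rw [Finset.sum_eq_zero, Finset.sum_eq_zero]
    · intro e he
      rw [Finset.mem_filter] at he
      exact absurd (he.2 ▸ ((mem_edg hN).1 he.1).vb) hv
    · intro e he
      rw [Finset.mem_filter] at he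
      exact absurd (he.2 ▸ ((mem_edg hN).1 he.1).va) hv
  have hv1 : ‖v‖ = 1 := hv.1
  have hD := Dir_cset hN hv
  obtain ⟨S, hS⟩ := exists_local hN hv hu
  let pred : E → E := fun d => if h : ∃ a, Nxt v (Dir N v) a d then h.choose else 0
  have hpred : ∀ d ∈ Dir N v, Nxt v (Dir N v) (pred d) d := by
    intro d hd
    have h := hD.exists_prev hd
    simp only [pred, dif_pos h]
    exact h.choose_spec
  let D : Finset E := hD.fin.toFinset
  have hDm : ∀ d, d ∈ D ↔ d ∈ Dir N v := fun d => Set.Finite.mem_toFinset _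
  have hperm : ∑ d ∈ D, S (pred d) = ∑ d ∈ D, S d := by
    refine Finset.sum_bij (fun d _ => pred d) ?_ ?_ ?_ ?_
    · intro d hd
      rw [hDm] at hd ⊢
      exact (hpred d hd).ma
    · intro d hd d' hd' he
      rw [hDm] at hd hd'
      have h1 := hpred d hd
      have h2 := hpred d' hd'
      rw [← he] at h2
      exact hD.nxt_unique h1 h2
    · intro d hd
      rw [hDm] at hd
      obtain ⟨c, hc⟩ := hD.exists_nxt hd
      exact ⟨c, (hDm c).2 hc.mb, hD.prev_unique (hpred c hc.mb) hc⟩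
    · intro d _
      rfl
  let F : E → ℤ := fun d => S d - S (pred d)
  have hF0 : ∑ d ∈ D, F d = 0 := by
    simp only [F, Finset.sum_sub_distrib, hperm, sub_self]
  let Nv : Finset E := N.filter (fun n => ⟪n, v⟫ = 0)
  have hNv : ∀ n, n ∈ Nv ↔ n ∈ N ∧ ⟪n, v⟫ = 0 := fun n => Finset.mem_filter
  have hinj : ∀ n ∈ Nv, ∀ m ∈ Nv, crs n v = crs m v → n = m := by
    intro n hn m hm h
    rw [hNv] at hn hm
    have h1 : crs v (crs n v) = crs v (crs m v) := by rw [h]
    have h2 : ∀ k : E, ⟪k, v⟫ = 0 → crs v (crs k v) = k := by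
      intro k hk
      rw [crs_swap v k, ← neg_one_smul ℝ (crs v k), crs_smul2, crs_crs, hv1, real_inner_comm, hk]
      simp
    rwa [h2 n hn.2, h2 m hm.2] at h1
  have hinj2 : ∀ n ∈ Nv, ∀ m ∈ Nv, crs n v ≠ -crs m v := by
    intro n hn m hm h
    rw [hNv] at hn hm
    have h1 : crs v (crs n v) = crs v (-crs m v) := by rw [h]
    have h2 : ∀ k : E, ⟪k, v⟫ = 0 → crs v (crs k v) = k := by
      intro k hk
      rw [crs_swap v k, ← neg_one_smul ℝ (crs v k), crs_smul2, crs_crs, hv1, real_inner_comm, hk]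
      simp
    rw [h2 n hn.2, ← neg_one_smul ℝ (crs m v), crs_smul2, h2 m hm.2, neg_one_smul] at h1
    have h3 := hN.can n hn.1
    rw [h1] at h3
    exact not_Can_neg (hN.can m hm.1) h3
  have hsplit : ∑ d ∈ D, F d = ∑ n ∈ Nv, F (crs n v) + ∑ n ∈ Nv, F (-crs n v) := by
    have hDe : D = Nv.image (fun n => crs n v) ∪ Nv.image (fun n => -crs n v) := by
      ext d
      rw [hDm, Finset.mem_union, Finset.mem_image, Finset.mem_image]
      constructor
      · rintro ⟨n, hn, hnv, h | h⟩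
        · exact Or.inl ⟨n, (hNv n).2 ⟨hn, hnv⟩, h.symm⟩
        · exact Or.inr ⟨n, (hNv n).2 ⟨hn, hnv⟩, h.symm⟩
      · rintro (⟨n, hn, h⟩ | ⟨n, hn, h⟩)
        · exact ⟨n, ((hNv n).1 hn).1, ((hNv n).1 hn).2, Or.inl h.symm⟩
        · exact ⟨n, ((hNv n).1 hn).1, ((hNv n).1 hn).2, Or.inr h.symm⟩
    rw [hDe, Finset.sum_union, Finset.sum_image, Finset.sum_image]
    · intro n hn m hm h
      exact hinj n hn m hm (neg_injective h)
    · intro n hn m hm h
      exact hinj n hn m hm h
    · rw [Finset.disjoint_left]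
      intro d hd hd'
      rw [Finset.mem_image] at hd hd'
      obtain ⟨n, hn, h⟩ := hd
      obtain ⟨m, hm, h'⟩ := hd'
      exact hinj2 n hn m hm (h.trans h'.symm)
  have hdir : ∀ n ∈ Nv, crs n v ∈ Dir N v ∧ -crs n v ∈ Dir N v := by
    intro n hn
    rw [hNv] at hn
    exact ⟨⟨n, hn.1, hn.2, Or.inl rfl⟩, ⟨n, hn.1, hn.2, Or.inr rfl⟩⟩
  have hvo : ∀ n ∈ Nv, v ∈ VertOn N n := by
    intro n hn
    exact ⟨hv, ((hNv n).1 hn).2⟩
  have hout : ∑ e ∈ (edg N).filter (fun e => e.2.1 = v), Je u e = ∑ n ∈ Nv, F (crs n v) := by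
    refine Finset.sum_bij (fun e _ => e.1) ?_ ?_ ?_ ?_
    · intro e he
      rw [Finset.mem_filter, mem_edg hN] at he
      exact (hNv _).2 ⟨he.1.mem, by rw [← he.2]; exact he.1.na⟩
    · rintro ⟨n, a, b⟩ he ⟨n', a', b'⟩ he' h
      rw [Finset.mem_filter, mem_edg hN] at he he'
      simp only at he he' h
      obtain ⟨he1, rfl⟩ := he
      obtain ⟨he2, rfl⟩ := he'
      subst h
      have hn := he1.mem
      have h1 := ((isEdge_iff hN).1 he1).2
      have h2 := ((isEdge_iff hN).1 he2).2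
      rw [(hN.cset hn).nxt_unique h1 h2]
    · intro n hn
      obtain ⟨⟨b, hb⟩, _⟩ := exists_out hN ((hNv n).1 hn).1 (hvo n hn)
      refine ⟨(n, v, b), ?_, rfl⟩
      rw [Finset.mem_filter, mem_edg hN]
      exact ⟨hb, rfl⟩
    · rintro ⟨n, a, b⟩ he
      rw [Finset.mem_filter, mem_edg hN] at he
      simp only at he
      obtain ⟨he1, rfl⟩ := he
      have hnNv : n ∈ Nv := (hNv n).2 ⟨he1.mem, he1.na⟩
      have h1 := hS n he1.mem he1.na _ _ (hpred _ (hdir n hnNv).1) (hpred _ (hdir n hnNv).2)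
      exact je_out hN hu hv1 he1 (h1.mono fun δ hδ => hδ.2.2.1)
  have hin : ∑ e ∈ (edg N).filter (fun e => e.2.2 = v), Je u e = ∑ n ∈ Nv, -F (-crs n v) := by
    refine Finset.sum_bij (fun e _ => e.1) ?_ ?_ ?_ ?_
    · intro e he
      rw [Finset.mem_filter, mem_edg hN] at he
      exact (hNv _).2 ⟨he.1.mem, by rw [← he.2]; exact he.1.nb⟩
    · rintro ⟨n, a, b⟩ he ⟨n', a', b'⟩ he' h
      rw [Finset.mem_filter, mem_edg hN] at he he'
      simp only at he he' h
      obtain ⟨he1, rfl⟩ := he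
      obtain ⟨he2, rfl⟩ := he'
      subst h
      have hn := he1.mem
      have h1 := ((isEdge_iff hN).1 he1).2
      have h2 := ((isEdge_iff hN).1 he2).2
      rw [(hN.cset hn).prev_unique h1 h2]
    · intro n hn
      obtain ⟨_, ⟨b, hb⟩⟩ := exists_out hN ((hNv n).1 hn).1 (hvo n hn)
      refine ⟨(n, b, v), ?_, rfl⟩
      rw [Finset.mem_filter, mem_edg hN]
      exact ⟨hb, rfl⟩
    · rintro ⟨n, a, b⟩ he
      rw [Finset.mem_filter, mem_edg hN] at he
      simp only at he
      obtain ⟨he1, rfl⟩ := he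
      have hnNv : n ∈ Nv := (hNv n).2 ⟨he1.mem, he1.nb⟩
      have h1 := hS n he1.mem he1.nb _ _ (hpred _ (hdir n hnNv).1) (hpred _ (hdir n hnNv).2)
      have h2 := je_in hN hu hv1 he1 (h1.mono fun δ hδ => hδ.2.2.2)
      simp only [Je, F]
      rw [h2]
      ring
  rw [hout, hin, Finset.sum_neg_distrib]
  rw [hsplit] at hF0
  linarith

theorem bd_balanced {N : Finset E} (hN : IsArr N) {u : E → ℤ} (hu : Fn N u) :
    (bd N u).map Prod.fst = (bd N u).map Prod.snd := by
  classical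
  have hmap : ∀ (g : E × E → E), (bd N u).map g = ∑ e ∈ edg N,
      (Multiset.replicate (Je u e).toNat (g (e.2.1, e.2.2)) +
        Multiset.replicate (-Je u e).toNat (g (e.2.2, e.2.1))) := by
    intro g
    unfold bd
    rw [← Multiset.coe_mapAddMonoidHom, map_sum]
    refine Finset.sum_congr rfl fun e _ => ?_
    rw [Multiset.coe_mapAddMonoidHom, Multiset.map_add, Multiset.map_replicate,
      Multiset.map_replicate]
  refine Multiset.ext.2 fun v => ?_
  rw [hmap, hmap, Multiset.count_sum', Multiset.count_sum']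
  have hb := vertex_balance hN hu v
  rw [Finset.sum_filter, Finset.sum_filter] at hb
  zify
  have key : ∀ (a b : E) (j : ℤ),
      ((Multiset.count v (Multiset.replicate j.toNat a + Multiset.replicate (-j).toNat b) : ℕ) : ℤ) =
        (if a = v then (j.toNat : ℤ) else 0) + (if b = v then ((-j).toNat : ℤ) else 0) := by
    intro a b j
    rw [Multiset.count_add, Multiset.count_replicate, Multiset.count_replicate]
    push_cast
    rfl
  simp only [key]
  rw [← sub_eq_zero, ← Finset.sum_sub_distrib]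
  rw [← sub_eq_zero, ← Finset.sum_sub_distrib] at hb
  rw [← hb]
  refine Finset.sum_congr rfl fun e _ => ?_
  have h1 : ((Je u e).toNat : ℤ) - ((-Je u e).toNat : ℤ) = Je u e := Int.toNat_sub_toNat_neg _
  split_ifs <;> linarith

end CGA
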