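import Pool.Agent.CGA.GDefs

/-! PROJECT CGA, module GCan: canonical normals, basic facts on `IsArr`.
`crs n m = 0` with `n, m` unit gives `n = ±m` (`norm_crs_sq`, equality in Cauchy-Schwarz), and `Can n`, `Can (-n)` exclude each other. -/

set_option linter.all false

namespace CGA

open scoped RealInnerProductSpace Real Topology
open MeasureTheory Set Filter

private theorem GCan_neg (v : E) (i : Fin 3) : (-v) i = -(v i) := rfl

private theorem GCan_or {v : E} (hv : v ≠ 0) : Can v ∨ Can (-v) := by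
  unfold Can
  simp only [GCan_neg]
  rcases lt_trichotomy (v 0) 0 with h0 | h0 | h0
  · exact Or.inr (Or.inl (by linarith))
  · rcases lt_trichotomy (v 1) 0 with h1 | h1 | h1
    · exact Or.inr (Or.inr ⟨by linarith, Or.inl (by linarith)⟩)
    · rcases lt_trichotomy (v 2) 0 with h2 | h2 | h2
      · exact Or.inr (Or.inr ⟨by linarith, Or.inr ⟨by linarith, by linarith⟩⟩)
      · exfalso
        apply hv
        ext i
        fin_cases i
        · exact h0
        · exact h1
        · exact h2
      · exact Or.inl (Or.inr ⟨h0, Or.inr ⟨h1, h2⟩⟩)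
    · exact Or.inl (Or.inr ⟨h0, Or.inl h1⟩)
  · exact Or.inl (Or.inl h0)

private theorem GCan_not {v : E} (h : Can v) : ¬ Can (-v) := by
  unfold Can at h ⊢
  simp only [GCan_neg]
  rintro (g | ⟨g, g1 | ⟨g1, g2⟩⟩)
  · rcases h with h | ⟨h, _⟩ <;> linarith
  · rcases h with h | ⟨h, h1 | ⟨h1, _⟩⟩ <;> linarith
  · rcases h with h | ⟨h, h1 | ⟨h1, h2⟩⟩ <;> linarith

private theorem GCan_single (i : Fin 3) (x : E) : ⟪EuclideanSpace.single i (1:ℝ), x⟫ = x i := by
  rw [EuclideanSpace.inner_single_left]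
  simp

private theorem GCan_dense {n : E} (hn : n ≠ 0) : Dense {y : E | ⟪n, y⟫ ≠ 0} := by
  rw [Metric.dense_iff]
  intro x r hr
  by_cases h : ⟪n, x⟫ = 0
  · have hn0 : 0 < ‖n‖ := norm_pos_iff.2 hn
    refine ⟨x + (r / (2 * ‖n‖)) • n, ?_, ?_⟩
    · rw [Metric.mem_ball, dist_eq_norm, add_sub_cancel_left, norm_smul, Real.norm_eq_abs,
        abs_of_pos (by positivity)]
      have e : r / (2 * ‖n‖) * ‖n‖ = r / 2 := by field_simp
      rw [e]
      linarith
    · show ⟪n, x + (r / (2 * ‖n‖)) • n⟫ ≠ 0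
      rw [inner_add_right, h, zero_add, real_inner_smul_right, real_inner_self_eq_norm_sq]
      positivity
  · exact ⟨x, Metric.mem_ball_self hr, h⟩

theorem can_Can {v : E} (hv : v ≠ 0) : Can (can v) := by
  unfold can
  by_cases h : Can v
  · rw [if_pos h]
    exact h
  · rw [if_neg h]
    exact (GCan_or hv).resolve_left h

theorem not_Can_neg {v : E} (h : Can v) : ¬ Can (-v) := by
  exact GCan_not h

theorem can_eq (v : E) : can v = v ∨ can v = -v := by
  unfold can
  by_cases h : Can v
  · exact Or.inl (if_pos h)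
  · exact Or.inr (if_neg h)

theorem can_of_Can {v : E} (h : Can v) : can v = v := by
  unfold can
  exact if_pos h

theorem can_neg (v : E) : can (-v) = can v := by
  by_cases hv : v = 0
  · rw [hv, neg_zero]
  · unfold can
    by_cases h : Can v
    · rw [if_pos h, if_neg (GCan_not h), neg_neg]
    · rw [if_neg h, if_pos ((GCan_or hv).resolve_left h)]

theorem norm_can (v : E) : ‖can v‖ = ‖v‖ := by
  rcases can_eq v with h | h
  · rw [h]
  · rw [h, norm_neg]

theorem inner_can_eq_zero (v x : E) : ⟪can v, x⟫ = 0 ↔ ⟪v, x⟫ = 0 := by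
  rcases can_eq v with h | h
  · rw [h]
  · rw [h, inner_neg_left, neg_eq_zero]

theorem inner_can_mul_pos (v x y : E) : 0 < ⟪can v, x⟫ * ⟪can v, y⟫ ↔ 0 < ⟪v, x⟫ * ⟪v, y⟫ := by
  rcases can_eq v with h | h
  · rw [h]
  · rw [h, inner_neg_left, inner_neg_left, neg_mul_neg]

theorem IsArr.crs_ne {N : Finset E} (hN : IsArr N) {n m : E} (hn : n ∈ N) (hm : m ∈ N)
    (h : n ≠ m) : crs n m ≠ 0 := by
  refine crs_ne_zero (hN.unit n hn) (hN.unit m hm) h ?_
  intro h'
  have h1 := hN.can n hn
  rw [h'] at h1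
  exact GCan_not (hN.can m hm) h1

theorem eq_of_perp {n m a b : E} (hn : ‖n‖ = 1) (hm : ‖m‖ = 1) (cn : Can n) (cm : Can m)
    (hab : crs a b ≠ 0) (h1 : ⟪n, a⟫ = 0) (h2 : ⟪n, b⟫ = 0) (h3 : ⟪m, a⟫ = 0) (h4 : ⟪m, b⟫ = 0) :
    n = m := by
  have e1 := crs_eq_smul hn h1 h2
  have e2 := crs_eq_smul hm h3 h4
  have e3 : det3 n a b • n = det3 m a b • m := by rw [← e1, ← e2]
  have hd : det3 n a b ≠ 0 := by
    intro h0
    rw [e1, h0, zero_smul] at hab
    exact hab rfl
  have e4 : |det3 n a b| = |det3 m a b| := by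
    have e5 := congrArg norm e3
    rw [norm_smul, norm_smul, hn, hm, mul_one, mul_one] at e5
    exact e5
  rcases abs_eq_abs.1 e4 with h | h
  · rw [← h] at e3
    exact smul_right_injective E hd e3
  · exfalso
    have e6 : det3 m a b = -det3 n a b := by rw [h, neg_neg]
    rw [e6, neg_smul, ← smul_neg] at e3
    have e7 : n = -m := smul_right_injective E hd e3
    rw [e7] at cn
    exact GCan_not cm cn

theorem nvec_spec {a b : E} (h : crs a b ≠ 0) :
    ‖nvec a b‖ = 1 ∧ Can (nvec a b) ∧ ⟪nvec a b, a⟫ = 0 ∧ ⟪nvec a b, b⟫ = 0 := by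
  have h1 : ‖nrm (crs a b)‖ = 1 := norm_nrm h
  have h2 : nrm (crs a b) ≠ 0 := by
    intro h0
    rw [h0, norm_zero] at h1
    exact zero_ne_one h1
  unfold nvec
  refine ⟨by rw [norm_can, h1], can_Can h2, ?_, ?_⟩
  · rw [inner_can_eq_zero]
    unfold nrm
    rw [real_inner_smul_left, inner_crs_left, mul_zero]
  · rw [inner_can_eq_zero]
    unfold nrm
    rw [real_inner_smul_left, inner_crs_right, mul_zero]

theorem isArr_base : IsArr (Finset.univ.image fun i : Fin 3 => EuclideanSpace.single i (1:ℝ)) := by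
  refine ⟨?_, ?_, ?_⟩
  · intro n hn
    obtain ⟨i, -, rfl⟩ := Finset.mem_image.1 hn
    simp
  · intro n hn
    obtain ⟨i, -, rfl⟩ := Finset.mem_image.1 hn
    unfold Can
    fin_cases i
    · left
      simp
    · right
      refine ⟨by simp, Or.inl (by simp)⟩
    · right
      refine ⟨by simp, Or.inr ⟨by simp, by simp⟩⟩
  · intro i
    exact Finset.mem_image_of_mem _ (Finset.mem_univ i)

theorem IsArr.union {N N' : Finset E} (h : IsArr N) (h' : IsArr N') : IsArr (N ∪ N') := by
  refine ⟨?_, ?_, ?_⟩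
  · intro n hn
    rcases Finset.mem_union.1 hn with hn | hn
    · exact h.unit n hn
    · exact h'.unit n hn
  · intro n hn
    rcases Finset.mem_union.1 hn with hn | hn
    · exact h.can n hn
    · exact h'.can n hn
  · intro i
    exact Finset.mem_union_left _ (h.coord i)

theorem isArr_extend {N : Finset E} (h : IsArr N) (S : Finset E) (hS : ∀ k ∈ S, k ≠ 0) :
    ∃ N' : Finset E, N ⊆ N' ∧ IsArr N' ∧ ∀ k ∈ S, can (nrm k) ∈ N' := by
  classical
  refine ⟨N ∪ S.image fun k => can (nrm k), Finset.subset_union_left, ⟨?_, ?_, ?_⟩, ?_⟩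
  · intro n hn
    rcases Finset.mem_union.1 hn with hn | hn
    · exact h.unit n hn
    · obtain ⟨k, hk, rfl⟩ := Finset.mem_image.1 hn
      rw [norm_can, norm_nrm (hS k hk)]
  · intro n hn
    rcases Finset.mem_union.1 hn with hn | hn
    · exact h.can n hn
    · obtain ⟨k, hk, rfl⟩ := Finset.mem_image.1 hn
      apply can_Can
      intro h0
      have h1 := norm_nrm (hS k hk)
      rw [h0, norm_zero] at h1
      exact zero_ne_one h1
  · intro i
    exact Finset.mem_union_left _ (h.coord i)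
  · intro k hk
    exact Finset.mem_union_right _ (Finset.mem_image_of_mem _ hk)

theorem IsArr.nonempty {N : Finset E} (h : IsArr N) : N.Nonempty := by
  exact ⟨_, h.coord 0⟩

/-- a point on all planes is zero -/
theorem IsArr.eq_zero {N : Finset E} (h : IsArr N) {x : E} (hx : ∀ n ∈ N, ⟪n, x⟫ = 0) : x = 0 := by
  ext i
  have h1 := hx _ (h.coord i)
  rw [GCan_single] at h1
  exact h1

theorem Gen.ne_zero {N : Finset E} (h : IsArr N) {x : E} (hx : Gen N x) : x ≠ 0 := by
  rintro rfl
  exact hx _ (h.coord 0) (inner_zero_right _)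

theorem gen_nrm {N : Finset E} (h : IsArr N) {x : E} (hx : Gen N x) : Gen N (nrm x) := by
  intro n hn
  have hx0 := hx.ne_zero h
  have h1 : 0 < ‖x‖ := norm_pos_iff.2 hx0
  unfold nrm
  rw [real_inner_smul_right]
  exact mul_ne_zero (inv_ne_zero h1.ne') (hx n hn)

theorem Gen.mono {N N' : Finset E} (h : N ⊆ N') {x : E} (hx : Gen N' x) : Gen N x := by
  intro n hn
  exact hx n (h hn)

/-- finitely many planes do not cover an open set -/
theorem exists_gen_near (N : Finset E) (hN : ∀ n ∈ N, n ≠ 0) (x : E) {ε : ℝ} (hε : 0 < ε) :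
    ∃ y, ‖y - x‖ < ε ∧ Gen N y := by
  classical
  have key : Dense {y : E | Gen N y} := by
    induction N using Finset.induction_on with
    | empty =>
      have e : {y : E | Gen ∅ y} = Set.univ := by
        ext y
        simp [Gen]
      rw [e]
      exact dense_univ
    | insert n N hnN ih =>
      have ih' := ih fun m hm => hN m (Finset.mem_insert_of_mem hm)
      have e : {y : E | Gen (insert n N) y} = {y : E | ⟪n, y⟫ ≠ 0} ∩ {y : E | Gen N y} := by
        ext y
        constructor
        · intro hy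
          exact ⟨hy n (Finset.mem_insert_self _ _), fun m hm => hy m (Finset.mem_insert_of_mem hm)⟩
        · rintro ⟨hy1, hy2⟩ m hm
          rcases Finset.mem_insert.1 hm with rfl | hm
          · exact hy1
          · exact hy2 m hm
      rw [e]
      refine (GCan_dense (hN n (Finset.mem_insert_self _ _))).inter_of_isOpen_left ih' ?_
      exact isOpen_ne_fun (by fun_prop) continuous_const
  obtain ⟨y, hy1, hy2⟩ := Metric.dense_iff.1 key x ε hε
  rw [Metric.mem_ball, dist_eq_norm] at hy1
  exact ⟨y, hy1, hy2⟩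

end CGA
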