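import Pool.Agent.CGA.GTri

/-! PROJECT CGA, module GCone: jump and support of cone functions.

Jmp_coneF: induction on the multiset for the sum (Jmp_add, Jmp of the zero function), giving Σ (dsg x e.1 + dsg e.1 e.2 + dsg e.2 x); Σ dsg x e.1 - dsg x e.2 = 0 because s is balanced.
Support: if tri x a b p ≠ 0 then (cramer) p is a positive multiple of a convex combination y of x, a, b (all three coefficients det3 p a b, det3 x p b, det3 x a p have the sign of det3 x a b); |y - x| ≤ r, y ≠ 0,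
|nrm y - x| ≤ |nrm y - y| + |y - x| ≤ 2 r since |1 - |y|| ≤ |y - x|. -/

set_option linter.all false

namespace CGA

open scoped RealInnerProductSpace Real Topology
open MeasureTheory Set Filter

theorem coneF_add (x : E) (s t : Multiset (E × E)) (p : E) :
    coneF x (s + t) p = coneF x s p + coneF x t p := by
  unfold coneF
  rw [Multiset.map_add, Multiset.sum_add]

theorem Fn_coneF {N : Finset E} {x : E} {s : Multiset (E × E)}
    (h : ∀ e ∈ s, TriOK N x e.1 e.2) : Fn N (coneF x s) := by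
  intro p q hpq
  unfold coneF
  refine congrArg Multiset.sum (Multiset.map_congr rfl fun e he => ?_)
  exact (h e he).fn p q hpq

private theorem GCone_Jmp0 (n m : E) : Jmp (fun _ => (0 : ℤ)) n m = 0 := by
  unfold Jmp sv
  exact sub_self _

private theorem GCone_Jmp {N : Finset E} (hN : IsArr N) {x : E} (s : Multiset (E × E))
    (h : ∀ e ∈ s, TriOK N x e.1 e.2) {n m : E} (hm : OnG N n m) :
    Jmp (coneF x s) n m =
      (s.map fun e => dsg x e.1 n m + dsg e.1 e.2 n m + dsg e.2 x n m).sum := by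
  induction s using Multiset.induction_on with
  | empty =>
    have h1 : coneF x 0 = fun _ => (0 : ℤ) := by
      funext p
      unfold coneF
      rw [Multiset.map_zero, Multiset.sum_zero]
    rw [h1, GCone_Jmp0, Multiset.map_zero, Multiset.sum_zero]
  | cons e s ih =>
    have hs : ∀ e ∈ s, TriOK N x e.1 e.2 := fun e' he' => h e' (Multiset.mem_cons_of_mem he')
    have he : TriOK N x e.1 e.2 := h e (Multiset.mem_cons_self e s)
    have h1 : coneF x (e ::ₘ s) = fun p => tri x e.1 e.2 p + coneF x s p := by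
      funext p
      unfold coneF
      rw [Multiset.map_cons, Multiset.sum_cons]
    rw [h1, Jmp_add hN he.fn (Fn_coneF hs) hm, Jmp_tri hN he hm, ih hs, Multiset.map_cons,
      Multiset.sum_cons]

theorem Jmp_coneF {N : Finset E} (hN : IsArr N) {x : E} {s : Multiset (E × E)}
    (h : ∀ e ∈ s, TriOK N x e.1 e.2) (hs : s.map Prod.fst = s.map Prod.snd) {n m : E}
    (hm : OnG N n m) : Jmp (coneF x s) n m = (s.map fun e => dsg e.1 e.2 n m).sum := by
  rw [GCone_Jmp hN s h hm, Multiset.sum_map_add, Multiset.sum_map_add]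
  have h1 : (s.map fun e => dsg x e.1 n m).sum = (s.map fun e => dsg x e.2 n m).sum := by
    have h2 : ((s.map Prod.fst).map fun y => dsg x y n m).sum =
        ((s.map Prod.snd).map fun y => dsg x y n m).sum := by rw [hs]
    rw [Multiset.map_map, Multiset.map_map] at h2
    exact h2
  have h3 : (s.map fun e : E × E => dsg e.2 x n m).sum =
      -(s.map fun e : E × E => dsg x e.2 n m).sum := by
    rw [← Multiset.sum_map_neg', Multiset.map_map]
    exact congrArg Multiset.sum (Multiset.map_congr rfl fun (e : E × E) _ => dsg_swap x e.2 n m)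
  rw [h1, h3]
  ring

private theorem GCone_conv {x a b p : E} (hx : ‖x‖ = 1) {r : ℝ} (ha : ‖a - x‖ ≤ r)
    (hb : ‖b - x‖ ≤ r) {α β γ : ℝ} (hα : 0 < α) (hβ : 0 < β) (hγ : 0 < γ)
    (hp : p = α • x + β • a + γ • b) (hp0 : p ≠ 0) : ‖nrm p - x‖ ≤ 2 * r := by
  have hr : 0 ≤ r := (norm_nonneg _).trans ha
  obtain ⟨S, hS⟩ : ∃ S, S = α + β + γ := ⟨_, rfl⟩
  have hS0 : 0 < S := by rw [hS]; positivity
  obtain ⟨y, hy⟩ : ∃ y, y = S⁻¹ • p := ⟨_, rfl⟩
  have hy0 : y ≠ 0 := by
    rw [hy]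
    exact smul_ne_zero (inv_ne_zero hS0.ne') hp0
  have h1 : nrm p = nrm y := by
    rw [hy, nrm_smul (inv_pos.2 hS0)]
  have h2 : y - x = S⁻¹ • (β • (a - x) + γ • (b - x)) := by
    have h3 : x = S⁻¹ • (S • x) := by rw [smul_smul, inv_mul_cancel₀ hS0.ne', one_smul]
    have h4 : S⁻¹ • p - S⁻¹ • (S • x) = S⁻¹ • (β • (a - x) + γ • (b - x)) := by
      rw [hp, hS, ← smul_sub]
      congr 1
      module
    rw [← h3] at h4
    rw [hy, h4]
  have h3 : ‖y - x‖ ≤ r := by
    rw [h2, norm_smul, Real.norm_eq_abs, abs_of_pos (inv_pos.2 hS0), inv_mul_le_iff₀ hS0]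
    calc ‖β • (a - x) + γ • (b - x)‖ ≤ ‖β • (a - x)‖ + ‖γ • (b - x)‖ := norm_add_le _ _
      _ = β * ‖a - x‖ + γ * ‖b - x‖ := by
          rw [norm_smul, norm_smul, Real.norm_eq_abs, Real.norm_eq_abs, abs_of_pos hβ,
            abs_of_pos hγ]
      _ ≤ β * r + γ * r := by gcongr
      _ ≤ S * r := by rw [hS]; nlinarith
  have hyn : 0 < ‖y‖ := norm_pos_iff.2 hy0
  have h4 : ‖nrm y - y‖ = |1 - ‖y‖| := by
    have h5 : nrm y - y = (‖y‖⁻¹ * (1 - ‖y‖)) • y := by
      unfold nrm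
      rw [mul_sub, mul_one, inv_mul_cancel₀ hyn.ne', sub_smul, one_smul]
    rw [h5, norm_smul, Real.norm_eq_abs, abs_mul, abs_of_pos (inv_pos.2 hyn)]
    field_simp
  have h5 : |1 - ‖y‖| ≤ r := by
    rw [← hx]
    refine (abs_norm_sub_norm_le x y).trans ?_
    rw [norm_sub_rev]
    exact h3
  rw [h1]
  calc ‖nrm y - x‖ = ‖(nrm y - y) + (y - x)‖ := by rw [sub_add_sub_cancel]
    _ ≤ ‖nrm y - y‖ + ‖y - x‖ := norm_add_le _ _
    _ ≤ r + r := add_le_add (h4.le.trans h5) h3
    _ = 2 * r := by ring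

private theorem GCone_tri {x a b p : E} (hx : ‖x‖ = 1) {r : ℝ} (ha : ‖a - x‖ ≤ r)
    (hb : ‖b - x‖ ≤ r) (hp : p ≠ 0) (h : 2 * r < ‖nrm p - x‖) : tri x a b p = 0 := by
  have hc := cramer x a b p
  unfold tri
  split_ifs with h1 h2
  · exfalso
    obtain ⟨k1, k2, k3, k4⟩ := h1
    refine absurd (GCone_conv hx ha hb (α := (det3 x a b)⁻¹ * det3 p a b)
      (β := (det3 x a b)⁻¹ * det3 x p b) (γ := (det3 x a b)⁻¹ * det3 x a p)
      (by positivity) (by positivity) (by positivity) ?_ hp) (not_le.2 h)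
    rw [mul_smul, mul_smul, mul_smul, ← smul_add, ← smul_add, ← hc, smul_smul,
      inv_mul_cancel₀ k4.ne', one_smul]
  · exfalso
    obtain ⟨k1, k2, k3, k4⟩ := h2
    have k4' : (det3 x a b)⁻¹ < 0 := inv_lt_zero.2 k4
    refine absurd (GCone_conv hx ha hb (α := (det3 x a b)⁻¹ * det3 p a b)
      (β := (det3 x a b)⁻¹ * det3 x p b) (γ := (det3 x a b)⁻¹ * det3 x a p)
      (mul_pos_of_neg_of_neg k4' k1) (mul_pos_of_neg_of_neg k4' k2)
      (mul_pos_of_neg_of_neg k4' k3) ?_ hp) (not_le.2 h)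
    rw [mul_smul, mul_smul, mul_smul, ← smul_add, ← smul_add, ← hc, smul_smul,
      inv_mul_cancel₀ k4.ne, one_smul]
  · rfl

theorem coneF_eq_zero {x : E} (hx : ‖x‖ = 1) {s : Multiset (E × E)} {r : ℝ} (hr : r ≤ 1 / 2)
    (hs : ∀ e ∈ s, ‖e.1 - x‖ ≤ r ∧ ‖e.2 - x‖ ≤ r) {p : E} (hp : p ≠ 0)
    (h : 2 * r < ‖nrm p - x‖) : coneF x s p = 0 := by
  unfold coneF
  refine Multiset.sum_eq_zero fun k hk => ?_
  obtain ⟨e, he, rfl⟩ := Multiset.mem_map.1 hk
  exact GCone_tri hx (hs e he).1 (hs e he).2 hp h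

/-- jump of a sum of cone functions -/
theorem Jmp_cones {N : Finset E} (hN : IsArr N) (S : Multiset (E × Multiset (E × E)))
    (h : ∀ p ∈ S, p.2.map Prod.fst = p.2.map Prod.snd ∧ ∀ e ∈ p.2, TriOK N p.1 e.1 e.2)
    {n m : E} (hm : OnG N n m) :
    Fn N (fun x => (S.map fun p => coneF p.1 p.2 x).sum) ∧
    Jmp (fun x => (S.map fun p => coneF p.1 p.2 x).sum) n m =
      ((S.map Prod.snd).sum.map fun e => dsg e.1 e.2 n m).sum := by
  induction S using Multiset.induction_on with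
  | empty =>
    simp only [Multiset.map_zero, Multiset.sum_zero]
    exact ⟨fun _ _ _ => rfl, GCone_Jmp0 n m⟩
  | cons q S ih =>
    obtain ⟨ih1, ih2⟩ := ih fun p hp => h p (Multiset.mem_cons_of_mem hp)
    obtain ⟨hb, ht⟩ := h q (Multiset.mem_cons_self q S)
    have h1 : Fn N (coneF q.1 q.2) := Fn_coneF ht
    simp only [Multiset.map_cons, Multiset.sum_cons]
    refine ⟨fun y z hyz => ?_, ?_⟩
    · have e1 := h1 y z hyz
      have e2 := ih1 y z hyz
      beta_reduce at e2 ⊢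
      rw [e1, e2]
    · rw [Jmp_add hN h1 ih1 hm, ih2, Jmp_coneF hN ht hb hm, Multiset.map_add, Multiset.sum_add]

end CGA
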