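import Pool.Agent.CGA.GVert

/-! PROJECT CGA, module GConn: chambers are connected through walls.

Induction on the number of n ∈ N that separate p and p' (⟪n,p⟫⟪n,p'⟫ < 0).  If it is 0 use h1.  Otherwise replace p' by a point p'' of the same chamber such that the segment from p to p'' meets no intersection
of two planes: for n ≠ k in N the vector ⟪n,p⟫ k - ⟪k,p⟫ n is nonzero; if (1-t)p + t p'' is on both planes then it is orthogonal to p''; `exists_gen_near` applied to the finite set of all these vectors together with N.
The crossing times t_n = ⟪n,p⟫/(⟪n,p⟫ - ⟪n,p''⟫) of the separating n are then different; take the smallest, m = (1-t_n)p + t_n p'': OnG N n m, points of the segment just before m are in the chamber of p and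
also in the chamber of m ± εn (same signs), points just after m are in the chamber of m ∓ εn, and have one separating plane less with p''. -/

set_option linter.all false

namespace CGA

open scoped RealInnerProductSpace Real Topology
open MeasureTheory Set Filter

private theorem GConn_near {N : Finset E} {p : E} (hp : Gen N p) :
    ∃ ε > 0, ∀ y : E, ‖y - p‖ < ε → ∀ n ∈ N, 0 < ⟪n, p⟫ * ⟪n, y⟫ := by
  have h : ∀ᶠ y in 𝓝 p, ∀ n ∈ N, 0 < ⟪n, p⟫ * ⟪n, y⟫ := by
    rw [Finset.eventually_all]
    intro n hn
    have hc : Continuous fun y : E => ⟪n, p⟫ * ⟪n, y⟫ := by fun_prop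
    have h0 : 0 < ⟪n, p⟫ * ⟪n, p⟫ := mul_self_pos.2 (hp n hn)
    exact hc.continuousAt.eventually (lt_mem_nhds h0)
  obtain ⟨ε, hε, h⟩ := Metric.eventually_nhds_iff.1 h
  exact ⟨ε, hε, fun y hy => h (by rwa [dist_eq_norm])⟩

theorem gen_connected {N : Finset E} (hN : IsArr N) {A : Type*} (W : E → A)
    (h1 : ∀ p p', Gen N p → Gen N p' → (∀ n ∈ N, 0 < ⟪n, p⟫ * ⟪n, p'⟫) → W p = W p')
    (h2 : ∀ n m, OnG N n m → ∃ᶠ ε in 𝓝[>] (0:ℝ), W (m + ε • n) = W (m - ε • n)) :
    ∀ p p', Gen N p → Gen N p' → W p = W p' := by
  classical
  have key : ∀ c : ℕ, ∀ p p', Gen N p → Gen N p' →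
      (N.filter fun n => ⟪n, p⟫ * ⟪n, p'⟫ < 0).card = c → W p = W p' := by
    intro c
    induction c using Nat.strong_induction_on with
    | _ c ih =>
      intro p p' hp hp' hc
      by_cases hS : (N.filter fun n => ⟪n, p⟫ * ⟪n, p'⟫ < 0) = ∅
      · refine h1 p p' hp hp' fun n hn => ?_
        have h3 : n ∉ N.filter fun n => ⟪n, p⟫ * ⟪n, p'⟫ < 0 := by
          rw [hS]
          exact Finset.notMem_empty n
        rw [Finset.mem_filter, not_and, not_lt] at h3
        exact lt_of_le_of_ne (h3 hn) (mul_ne_zero (hp n hn) (hp' n hn)).symm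
      · -- the point p''
        set K : Finset E := ((N ×ˢ N).filter fun z : E × E => z.1 ≠ z.2).image
          fun z : E × E => ⟪z.1, p⟫ • z.2 - ⟪z.2, p⟫ • z.1 with hK
        have hK0 : ∀ k ∈ K, k ≠ 0 := by
          intro k hk
          rw [hK, Finset.mem_image] at hk
          obtain ⟨z, hz, rfl⟩ := hk
          rw [Finset.mem_filter, Finset.mem_product] at hz
          intro h0
          have h3 := hN.crs_ne hz.1.1 hz.1.2 hz.2
          have h4 : crs z.1 (⟪z.1, p⟫ • z.2 - ⟪z.2, p⟫ • z.1) = ⟪z.1, p⟫ • crs z.1 z.2 := by
            have h5 := crs_lin2 (⟪z.1, p⟫) (-⟪z.2, p⟫) z.1 z.2 z.1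
            rw [crs_self, smul_zero, add_zero, neg_smul, ← sub_eq_add_neg] at h5
            exact h5
          rw [h0] at h4
          have h6 : crs z.1 0 = 0 := by
            have h7 := crs_smul2 0 z.1 z.1
            rwa [zero_smul, zero_smul] at h7
          rw [h6] at h4
          rcases smul_eq_zero.1 h4.symm with h7 | h7
          · exact hp _ hz.1.1 h7
          · exact h3 h7
        obtain ⟨ε, hε, hnear⟩ := GConn_near hp'
        obtain ⟨q, hq, hqK⟩ := exists_gen_near K hK0 p' hε
        have hsg := hnear q hq
        have hqN : Gen N q := fun n hn h0 => by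
          have := hsg n hn
          rw [h0, mul_zero] at this
          exact lt_irrefl _ this
        have hWq : W p' = W q := h1 p' q hp' hqN hsg
        have hSeq : (N.filter fun n => ⟪n, p⟫ * ⟪n, q⟫ < 0) =
            N.filter fun n => ⟪n, p⟫ * ⟪n, p'⟫ < 0 := by
          refine Finset.filter_congr fun n hn => ?_
          have h3 := hsg n hn
          have h4 := hp n hn
          constructor
          · intro h5
            by_contra h6
            push Not at h6
            nlinarith [mul_pos_iff.1 h3, sq_nonneg ⟪n, p⟫, mul_nonneg h6 h3.le,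
              mul_self_pos.2 (hp' n hn), mul_neg_of_neg_of_pos h5 (mul_self_pos.2 (hp' n hn))]
          · intro h5
            by_contra h6
            push Not at h6
            nlinarith [mul_nonneg h6 h3.le, mul_self_pos.2 (hqN n hn),
              mul_neg_of_neg_of_pos h5 (mul_self_pos.2 (hqN n hn))]
        have hne : (N.filter fun n => ⟪n, p⟫ * ⟪n, q⟫ < 0).Nonempty := by
          rw [hSeq]
          exact Finset.nonempty_iff_ne_empty.2 hS
        obtain ⟨n, hnS, hmin⟩ := Finset.exists_min_image _
          (fun n => ⟪n, p⟫ / (⟪n, p⟫ - ⟪n, q⟫)) hne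
        rw [Finset.mem_filter] at hnS
        obtain ⟨hn, hneg⟩ := hnS
        set a := ⟪n, p⟫ with ha
        set b := ⟪n, q⟫ with hb
        have ha0 : a ≠ 0 := hp n hn
        have hb0 : b ≠ 0 := hqN n hn
        have hab : a - b ≠ 0 := by
          intro h0
          have h3 : a = b := sub_eq_zero.1 h0
          rw [h3] at hneg
          nlinarith [mul_self_nonneg b]
        set t := a / (a - b) with ht
        have hsq : 0 < a * a - a * b := by nlinarith [mul_self_pos.2 ha0]
        have ht' : t = a * a / (a * a - a * b) := by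
          rw [ht]
          field_simp
        have ht0 : 0 < t := by
          rw [ht']
          exact div_pos (mul_self_pos.2 ha0) hsq
        have ht1 : t < 1 := by
          rw [ht', div_lt_one hsq]
          linarith
        set m := (1 - t) • p + t • q with hm
        have him : ∀ k : E, ⟪k, m⟫ = (1 - t) * ⟪k, p⟫ + t * ⟪k, q⟫ := by
          intro k
          rw [hm, inner_add_right, real_inner_smul_right, real_inner_smul_right]
        have hnm : ⟪n, m⟫ = 0 := by
          rw [him, ← ha, ← hb, ht]
          field_simp
          ring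
        have hgen : ∀ k ∈ N, k ≠ n → ⟪k, m⟫ ≠ 0 := by
          intro k hk hkn h0
          have h3 : (⟪n, p⟫ • k - ⟪k, p⟫ • n) ∈ K := by
            rw [hK, Finset.mem_image]
            exact ⟨(n, k), by
              rw [Finset.mem_filter, Finset.mem_product]
              exact ⟨⟨hn, hk⟩, hkn.symm⟩, rfl⟩
          have h4 := hqK _ h3
          apply h4
          rw [inner_sub_left, real_inner_smul_left, real_inner_smul_left]
          rw [him] at h0 hnm
          have h5 : t * (⟪n, p⟫ * ⟪k, q⟫ - ⟪k, p⟫ * ⟪n, q⟫) = 0 := by
            linear_combination ⟪n, p⟫ * h0 - ⟪k, p⟫ * hnm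
          rcases mul_eq_zero.1 h5 with h6 | h6
          · exact absurd h6 ht0.ne'
          · exact h6
        have hOn : OnG N n m := ⟨hn, hnm, hgen⟩
        have hside : ∀ k ∈ N, k ≠ n → 0 < ⟪k, p⟫ * ⟪k, m⟫ := by
          intro k hk hkn
          have hk0 := hp k hk
          have hkq := hqN k hk
          rcases lt_or_gt_of_ne (mul_ne_zero hk0 hkq) with h3 | h3
          · have h4 := hmin k (Finset.mem_filter.2 ⟨hk, h3⟩)
            have hsq' : 0 < ⟪k, p⟫ * ⟪k, p⟫ - ⟪k, p⟫ * ⟪k, q⟫ := by
              nlinarith [mul_self_pos.2 hk0]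
            have h5 : ⟪k, p⟫ / (⟪k, p⟫ - ⟪k, q⟫) =
                ⟪k, p⟫ * ⟪k, p⟫ / (⟪k, p⟫ * ⟪k, p⟫ - ⟪k, p⟫ * ⟪k, q⟫) := by
              have h6 : ⟪k, p⟫ - ⟪k, q⟫ ≠ 0 := by
                intro h7
                have h8 : ⟪k, p⟫ * ⟪k, p⟫ - ⟪k, p⟫ * ⟪k, q⟫ = 0 := by
                  rw [← mul_sub, h7, mul_zero]
                rw [h8] at hsq'
                exact lt_irrefl _ hsq'
              field_simp
            have h6 : t * (⟪k, p⟫ * ⟪k, p⟫ - ⟪k, p⟫ * ⟪k, q⟫) ≤ ⟪k, p⟫ * ⟪k, p⟫ := by
              have h7 : t ≤ ⟪k, p⟫ * ⟪k, p⟫ / (⟪k, p⟫ * ⟪k, p⟫ - ⟪k, p⟫ * ⟪k, q⟫) := by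
                rw [← h5]
                exact h4
              rwa [le_div_iff₀ hsq'] at h7
            have h8 : 0 ≤ ⟪k, p⟫ * ⟪k, m⟫ := by
              rw [him]
              linarith
            exact lt_of_le_of_ne h8 (mul_ne_zero hk0 (hgen k hk hkn)).symm
          · rw [him]
            have h4 : 0 < ⟪k, p⟫ * ⟪k, p⟫ := mul_self_pos.2 hk0
            nlinarith [mul_pos ht0 h3, mul_pos (sub_pos.2 ht1) h4]
        -- the small displacement
        have hev : ∀ᶠ ε in 𝓝[>] (0:ℝ), 0 < ε ∧ ∀ k ∈ N, k ≠ n →
            0 < ⟪k, m⟫ * ⟪k, m + ε • n⟫ ∧ 0 < ⟪k, m⟫ * ⟪k, m - ε • n⟫ := by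
          refine Filter.Eventually.and self_mem_nhdsWithin ?_
          refine Filter.Eventually.filter_mono nhdsWithin_le_nhds ?_
          rw [Finset.eventually_all]
          intro k hk
          by_cases hkn : k = n
          · exact Filter.Eventually.of_forall fun ε h => absurd hkn h
          · have h0 : 0 < ⟪k, m⟫ * ⟪k, m⟫ := mul_self_pos.2 (hgen k hk hkn)
            have hc1 : Continuous fun ε : ℝ => ⟪k, m⟫ * ⟪k, m + ε • n⟫ := by fun_prop
            have hc2 : Continuous fun ε : ℝ => ⟪k, m⟫ * ⟪k, m - ε • n⟫ := by fun_prop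
            have h3 := hc1.continuousAt (x := 0) |>.eventually
              (lt_mem_nhds (show 0 < ⟪k, m⟫ * ⟪k, m + (0:ℝ) • n⟫ by simpa using h0))
            have h4 := hc2.continuousAt (x := 0) |>.eventually
              (lt_mem_nhds (show 0 < ⟪k, m⟫ * ⟪k, m - (0:ℝ) • n⟫ by simpa using h0))
            filter_upwards [h3, h4] with ε h5 h6 _
            exact ⟨h5, h6⟩
        obtain ⟨δ, hW, hδ, hk⟩ := ((h2 n m hOn).and_eventually hev).exists
        have hnn : ⟪n, n⟫ = 1 := by
          rw [real_inner_self_eq_norm_sq, hN.unit n hn, one_pow]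
        have hin1 : ⟪n, m + δ • n⟫ = δ := by
          rw [inner_add_right, real_inner_smul_right, hnm, hnn]
          ring
        have hin2 : ⟪n, m - δ • n⟫ = -δ := by
          rw [inner_sub_right, real_inner_smul_right, hnm, hnn]
          ring
        -- general step: x1 on the side of p, x2 on the side of q
        have step : ∀ x1 x2 : E, (∀ k ∈ N, k ≠ n → 0 < ⟪k, m⟫ * ⟪k, x1⟫) →
            (∀ k ∈ N, k ≠ n → 0 < ⟪k, m⟫ * ⟪k, x2⟫) → 0 < a * ⟪n, x1⟫ → 0 < b * ⟪n, x2⟫ →
            W x1 = W x2 → W p = W q := by
          intro x1 x2 hx1 hx2 hn1 hn2 hWx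
          have hs1 : ∀ k ∈ N, 0 < ⟪k, p⟫ * ⟪k, x1⟫ := by
            intro k hk'
            by_cases hkn : k = n
            · rw [hkn]
              exact hn1
            · have h3 := hside k hk' hkn
              have h4 := hx1 k hk' hkn
              rcases mul_pos_iff.1 h3 with h5 | h5
              · rcases mul_pos_iff.1 h4 with h6 | h6
                · exact mul_pos h5.1 h6.2
                · exact absurd h5.2 (not_lt.2 h6.1.le)
              · rcases mul_pos_iff.1 h4 with h6 | h6
                · exact absurd h6.1 (not_lt.2 h5.2.le)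
                · exact mul_pos_of_neg_of_neg h5.1 h6.2
          have hg1 : Gen N x1 := fun k hk' h0 => by
            have := hs1 k hk'
            rw [h0, mul_zero] at this
            exact lt_irrefl _ this
          have hg2 : Gen N x2 := by
            intro k hk' h0
            by_cases hkn : k = n
            · rw [hkn] at h0
              rw [h0, mul_zero] at hn2
              exact lt_irrefl _ hn2
            · have := hx2 k hk' hkn
              rw [h0, mul_zero] at this
              exact lt_irrefl _ this
          have hW2 : W x2 = W q := by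
            refine ih _ ?_ x2 q hg2 hqN rfl
            rw [← hc, ← hSeq]
            refine Finset.card_lt_card ?_
            rw [Finset.ssubset_iff_of_subset]
            · refine ⟨n, Finset.mem_filter.2 ⟨hn, hneg⟩, ?_⟩
              rw [Finset.mem_filter, not_and, not_lt]
              intro _
              rw [mul_comm]
              exact hn2.le
            · intro k hk'
              rw [Finset.mem_filter] at hk' ⊢
              refine ⟨hk'.1, ?_⟩
              by_cases hkn : k = n
              · exfalso
                have h3 := hk'.2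
                rw [hkn, mul_comm] at h3
                exact absurd hn2 (not_lt.2 h3.le)
              · have h3 := hside k hk'.1 hkn
                have h4 := hx2 k hk'.1 hkn
                have h5 := hk'.2
                rcases mul_pos_iff.1 h3 with h6 | h6
                · rcases mul_pos_iff.1 h4 with h7 | h7
                  · rcases mul_neg_iff.1 h5 with h8 | h8
                    · exact mul_neg_of_pos_of_neg h6.1 h8.2
                    · exact absurd h7.2 (not_lt.2 h8.1.le)
                  · exact absurd h6.2 (not_lt.2 h7.1.le)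
                · rcases mul_pos_iff.1 h4 with h7 | h7
                  · exact absurd h7.1 (not_lt.2 h6.2.le)
                  · rcases mul_neg_iff.1 h5 with h8 | h8
                    · exact absurd h8.1 (not_lt.2 h7.2.le)
                    · exact mul_neg_of_neg_of_pos h6.1 h8.2
          rw [h1 p x1 hp hg1 hs1, hWx, hW2]
        have hfin : W p = W q := by
          rcases lt_or_gt_of_ne ha0 with h3 | h3
          · have hbp : 0 < b := by
              rcases mul_neg_iff.1 hneg with h4 | h4
              · exact absurd h4.1 (not_lt.2 h3.le)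
              · exact h4.2
            refine step (m - δ • n) (m + δ • n) (fun k hk' hkn => (hk k hk' hkn).2)
              (fun k hk' hkn => (hk k hk' hkn).1) ?_ ?_ hW.symm
            · rw [hin2]
              exact mul_pos_of_neg_of_neg h3 (by linarith)
            · rw [hin1]
              exact mul_pos hbp hδ
          · have hbn : b < 0 := by
              rcases mul_neg_iff.1 hneg with h4 | h4
              · exact h4.2
              · exact absurd h4.1 (not_lt.2 h3.le)
            refine step (m + δ • n) (m - δ • n) (fun k hk' hkn => (hk k hk' hkn).1)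
              (fun k hk' hkn => (hk k hk' hkn).2) ?_ ?_ hW
            · rw [hin1]
              exact mul_pos h3 hδ
            · rw [hin2]
              exact mul_pos_of_neg_of_neg hbn (by linarith)
        rw [hfin, hWq]
  intro p p' hp hp'
  exact key _ p p' hp hp' rfl

end CGA
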