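import Pool.Agent.CGA.AEllB

/-! PROJECT CGA, chunk G: definitions (great circle arrangements). -/

set_option linter.all false

namespace CGA

open scoped RealInnerProductSpace Real Topology
open MeasureTheory Set Filter

noncomputable section

open Classical in
/-- canonical representative of `±v` -/
def can (v : E) : E := if Can v then v else -v

/-- canonical unit normal of the plane spanned by `a, b` -/
def nvec (a b : E) : E := can (nrm (crs a b))

/-- finite antipodally symmetric set of unit vectors in the plane `n^⊥`, not all parallel -/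
structure CSet (n : E) (V : Set E) : Prop where
  n1 : ‖n‖ = 1
  fin : V.Finite
  unit : ∀ v ∈ V, ‖v‖ = 1
  perp : ∀ v ∈ V, ⟪n, v⟫ = 0
  anti : ∀ v ∈ V, -v ∈ V
  two : ∃ v ∈ V, ∃ w ∈ V, det3 n v w ≠ 0

/-- `b` is the next point after `a` on the circle `n^⊥`, counterclockwise around `n` -/
structure Nxt (n : E) (V : Set E) (a b : E) : Prop where
  ma : a ∈ V
  mb : b ∈ V
  pos : 0 < det3 n a b
  no : ∀ c ∈ V, ¬ (0 < det3 n a c ∧ 0 < det3 n c b)

/-- `m` lies in the open arc from `a` to `b` (of length `< π`, counterclockwise around `n`) -/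
def Betw (n a m b : E) : Prop := 0 < det3 n a m ∧ 0 < det3 n m b

/-- `m` is a generic point of the great circle of `n ∈ N` -/
structure OnG (N : Finset E) (n m : E) : Prop where
  mem : n ∈ N
  perp : ⟪n, m⟫ = 0
  gen : ∀ k ∈ N, k ≠ n → ⟪k, m⟫ ≠ 0

/-- vertices on the circle of `n` -/
def VertOn (N : Finset E) (n : E) : Set E := {v | v ∈ Vert N ∧ ⟪n, v⟫ = 0}

open Classical in
/-- crossing number of the dart `(a,b)` with the great circle of `n` at the point `m`:
`±1` if `m` is in the open arc between `a` and `b` -/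
def dsg (a b n m : E) : ℤ :=
  if ⟪n, a⟫ = 0 ∧ ⟪n, b⟫ = 0 ∧ 0 < det3 n a b ∧ 0 < det3 n a m ∧ 0 < det3 n m b then 1
  else if ⟪n, a⟫ = 0 ∧ ⟪n, b⟫ = 0 ∧ det3 n a b < 0 ∧ det3 n a m < 0 ∧ det3 n m b < 0 then -1 else 0

/-- edges as a finite set (`Set.Finite.toFinset`, empty if not finite) -/
def edg (N : Finset E) : Finset (E × E × E) :=
  open Classical in if h : (EdgeSet N).Finite then h.toFinset else ∅

/-- jump of `u` across the edge `e` -/
def Je (u : E → ℤ) (e : E × E × E) : ℤ := Jmp u e.1 (e.2.1 + e.2.2)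

/-- boundary of `u` in the arrangement `N` -/
def bd (N : Finset E) (u : E → ℤ) : Multiset (E × E) :=
  ∑ e ∈ edg N, (Multiset.replicate (Je u e).toNat (e.2.1, e.2.2) +
    Multiset.replicate (-Je u e).toNat (e.2.2, e.2.1))

/-- one dart is subdivided -/
def SubStep (s s' : Multiset (E × E)) : Prop :=
  ∃ (a b : E) (s₀ : Multiset (E × E)), ∃ t ∈ Icc (0:ℝ) 1, ‖a‖ = 1 ∧ ‖b‖ = 1 ∧ ‖a - b‖ < 2 ∧
    s = (a, b) ::ₘ s₀ ∧
    s' = (a, nrm ((1 - t) • a + t • b)) ::ₘ (nrm ((1 - t) • a + t • b), b) ::ₘ s₀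

/-- `N` separates points of distance `≥ δ` -/
def FineArr (δ : ℝ) (N : Finset E) : Prop :=
  ∀ a b : E, ‖a‖ = 1 → ‖b‖ = 1 → δ ≤ ‖a - b‖ → ∃ m ∈ N, ⟪m, a⟫ * ⟪m, b⟫ < 0

/-- the Stokes function of `u` -/
def Wst (N : Finset E) (u : E → ℤ) (p : E) : ℝ :=
  u p + ((bd N u).map fun e => Th (-p) e.1 e.2).sum

end

end CGA
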