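import Pool.Agent.CGA.GBd

/-! PROJECT CGA, module GDsg: crossing numbers of darts.

sum_abs_dsg: if a = b everything is 0 (det3 n a a = 0).  Otherwise crs a b ≠ 0 (a ≠ -b), n0 = can (nrm (crs a b)) ∈ N; for e = (n,a',b') with n ≠ n0 dsg = 0 (n ⟂ a, b implies n = n0, eq_of_perp).  If 0 < det3 n0 a b:
|dsg a b n0 m| = 1 iff Betw n0 a m b, and CSet.arc_sum (V = VertOn N n0, F = ell, ell_add_between) gives ell a b.  If det3 n0 a b < 0 exchange a and b (dsg_swap, ell_comm).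
Jmp_eq_dsg: by bd_sum the right side is Σ_{e ∈ edg N} Je u e • dsg e.2.1 e.2.2 n m.  If n ∉ N all terms vanish (an edge (k,a,b) with n ⟂ a,b has k = n) and Jmp u n m = 0 (Jmp_new).  If n ∈ N then OnG N n m and the only nonzero
term is the edge containing m, where dsg = 1 and Je u e = Jmp u n m (Jmp_edge). -/

set_option linter.all false

namespace CGA

open scoped RealInnerProductSpace Real Topology
open MeasureTheory Set Filter

theorem dsg_swap (a b n m : E) : dsg b a n m = - dsg a b n m := by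
  unfold dsg
  rw [det3_swap23 n a b, det3_swap23 n m b, det3_swap23 n a m]
  by_cases h1 : ⟪n, a⟫ = 0 ∧ ⟪n, b⟫ = 0
  · obtain ⟨ha, hb⟩ := h1
    simp only [ha, hb, true_and]
    by_cases h2 : 0 < det3 n a b ∧ 0 < det3 n a m ∧ 0 < det3 n m b
    · obtain ⟨h3, h4, h5⟩ := h2
      rw [if_neg (by rintro ⟨h6, -⟩; linarith), if_pos ⟨by linarith, by linarith, by linarith⟩,
        if_pos ⟨h3, h4, h5⟩]
    · by_cases h3 : det3 n a b < 0 ∧ det3 n a m < 0 ∧ det3 n m b < 0
      · obtain ⟨h4, h5, h6⟩ := h3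
        rw [if_pos ⟨by linarith, by linarith, by linarith⟩, if_neg h2, if_pos ⟨h4, h5, h6⟩]
        norm_num
      · rw [if_neg (fun h => h3 ⟨by linarith [h.1], by linarith [h.2.2], by linarith [h.2.1]⟩),
          if_neg (fun h => h2 ⟨by linarith [h.1], by linarith [h.2.2], by linarith [h.2.1]⟩),
          if_neg h2, if_neg h3]
        norm_num
  · rw [if_neg (fun h => h1 ⟨h.2.1, h.1⟩), if_neg (fun h => h1 ⟨h.2.1, h.1⟩),
      if_neg (fun h => h1 ⟨h.1, h.2.1⟩), if_neg (fun h => h1 ⟨h.1, h.2.1⟩)]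
    norm_num

theorem dsg_self (a n m : E) : dsg a a n m = 0 := by
  unfold dsg
  rw [det3_self23, if_neg (fun h => lt_irrefl _ h.2.2.1), if_neg (fun h => lt_irrefl _ h.2.2.1)]

theorem dsg_eq_one {a b n m : E} (ha : ⟪n, a⟫ = 0) (hb : ⟪n, b⟫ = 0) (hab : 0 < det3 n a b)
    (h : Betw n a m b) : dsg a b n m = 1 := by
  unfold dsg
  rw [if_pos ⟨ha, hb, hab, h.1, h.2⟩]

theorem dsg_eq_zero_of_perp {a b n m : E} (h : ⟪n, a⟫ ≠ 0 ∨ ⟪n, b⟫ ≠ 0) : dsg a b n m = 0 := by
  unfold dsg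
  rcases h with h | h
  · rw [if_neg (fun h' => h h'.1), if_neg (fun h' => h h'.1)]
  · rw [if_neg (fun h' => h h'.2.1), if_neg (fun h' => h h'.2.1)]

private theorem GDsg_pos (M : Met) {N : Finset E} (hN : IsArr N) {a b n : E} (hn : n ∈ N)
    (ha : a ∈ VertOn N n) (hb : b ∈ VertOn N n) (hab : 0 < det3 n a b) :
    ∑ e ∈ edg N, |(dsg a b e.1 (e.2.1 + e.2.2) : ℝ)| * ell M e.2.1 e.2.2 = ell M a b := by
  classical
  have hcs := hN.cset hn
  have hcr : crs a b ≠ 0 := by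
    intro h0
    rw [det3_eq_inner, h0, inner_zero_right] at hab
    exact lt_irrefl _ hab
  have hfin : {e : E × E | Nxt n (VertOn N n) e.1 e.2 ∧ Betw n a (e.1 + e.2) b}.Finite :=
    (hcs.fin.prod hcs.fin).subset fun e he => ⟨he.1.ma, he.1.mb⟩
  have hsum := hcs.arc_sum (fun x y => ell M x y) (fun x c y hx hc hy hxy hb' =>
    (ell_add_between M (hcs.unit x hx) (hcs.unit y hy) (hcs.unit c hc) (hcs.perp x hx)
      (hcs.perp y hy) (hcs.perp c hc) hxy hb'.1 hb'.2).symm) a ha b hb hab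
  rw [hsum, finsum_mem_eq_finite_toFinset_sum _ hfin]
  have himg : ∑ e ∈ hfin.toFinset, ell M e.1 e.2 =
      ∑ e ∈ hfin.toFinset.image (fun p => (n, p)),
        |(dsg a b e.1 (e.2.1 + e.2.2) : ℝ)| * ell M e.2.1 e.2.2 := by
    rw [Finset.sum_image (fun x _ y _ hxy => (Prod.mk.inj hxy).2)]
    refine Finset.sum_congr rfl fun p hp => ?_
    rw [Set.Finite.mem_toFinset] at hp
    rw [dsg_eq_one ha.2 hb.2 hab hp.2]
    simp
  rw [himg]
  symm
  apply Finset.sum_subset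
  · intro e he
    obtain ⟨p, hp, rfl⟩ := Finset.mem_image.1 he
    rw [Set.Finite.mem_toFinset] at hp
    exact (mem_edg hN).2 ((isEdge_iff hN).2 ⟨hn, hp.1⟩)
  · intro e he hne
    have h1 := (mem_edg hN).1 he
    by_cases hk : ⟪e.1, a⟫ = 0 ∧ ⟪e.1, b⟫ = 0
    · have h2 : e.1 = n := eq_of_perp (hN.unit _ h1.mem) (hN.unit _ hn) (hN.can _ h1.mem)
        (hN.can _ hn) hcr hk.1 hk.2 ha.2 hb.2
      have h3 : ¬ Betw n a (e.2.1 + e.2.2) b := by
        intro h4
        apply hne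
        rw [Finset.mem_image]
        refine ⟨e.2, ?_, Prod.ext h2.symm rfl⟩
        rw [Set.Finite.mem_toFinset]
        have h5 := ((isEdge_iff hN).1 h1).2
        rw [h2] at h5
        exact ⟨h5, h4⟩
      have h6 : dsg a b e.1 (e.2.1 + e.2.2) = 0 := by
        rw [h2]
        unfold dsg
        rw [if_neg (fun h => h3 h.2.2.2), if_neg (fun h => by linarith [h.2.2.1])]
      rw [h6]
      simp
    · have h6 : dsg a b e.1 (e.2.1 + e.2.2) = 0 :=
        dsg_eq_zero_of_perp (by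
          by_contra h7
          push Not at h7
          exact hk h7)
      rw [h6]
      simp

theorem sum_abs_dsg (M : Met) {N : Finset E} (hN : IsArr N) {a b : E} (ha : ‖a‖ = 1)
    (hb : ‖b‖ = 1) (hab : a ≠ -b) (hp : crs a b ≠ 0 → can (nrm (crs a b)) ∈ N)
    (hva : a ∈ Vert N) (hvb : b ∈ Vert N) :
    ∑ e ∈ edg N, |(dsg a b e.1 (e.2.1 + e.2.2) : ℝ)| * ell M e.2.1 e.2.2 = ell M a b := by
  by_cases h0 : a = b
  · subst h0
    rw [ell_self]
    refine Finset.sum_eq_zero fun e _ => ?_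
    rw [dsg_self]
    simp
  have hcr := crs_ne_zero ha hb h0 hab
  have hn := hp hcr
  obtain ⟨h1, h2, h3, h4⟩ := nvec_spec hcr
  change nvec a b ∈ N at hn
  have h5 : det3 (nvec a b) a b ≠ 0 := fun h6 => by
    rcases (det3_eq_zero_iff h1 ha hb h3 h4).1 h6 with h7 | h7
    · exact h0 h7
    · exact hab h7
  rcases lt_or_gt_of_ne h5 with h6 | h6
  · have h7 : 0 < det3 (nvec a b) b a := by
      rw [det3_swap23]
      linarith
    rw [ell_comm, ← GDsg_pos M hN hn ⟨hvb, h4⟩ ⟨hva, h3⟩ h7]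
    refine Finset.sum_congr rfl fun e _ => ?_
    rw [dsg_swap a b]
    simp
  · exact GDsg_pos M hN hn ⟨hva, h3⟩ ⟨hvb, h4⟩ h6

theorem Jmp_eq_dsg {N N' : Finset E} (hN : IsArr N) (hN' : IsArr N') (hNN : N ⊆ N') {u : E → ℤ}
    (hu : Fn N u) {n m : E} (h : OnG N' n m) :
    Jmp u n m = ((bd N u).map fun d => dsg d.1 d.2 n m).sum := by
  rw [bd_sum hN u (fun d => dsg d.1 d.2 n m) (fun _ a b _ => dsg_swap a b n m)]
  have key : ∀ e ∈ edg N, ⟪n, e.2.1⟫ = 0 → ⟪n, e.2.2⟫ = 0 → n = e.1 := by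
    intro e he h1 h2
    have h3 := (mem_edg hN).1 he
    have hcr : crs e.2.1 e.2.2 ≠ 0 := by
      intro h0
      have h4 := h3.pos
      rw [det3_eq_inner, h0, inner_zero_right] at h4
      exact lt_irrefl _ h4
    exact eq_of_perp (hN'.unit _ h.mem) (hN.unit _ h3.mem) (hN'.can _ h.mem) (hN.can _ h3.mem)
      hcr h1 h2 h3.na h3.nb
  have hz : ∀ e ∈ edg N, n ≠ e.1 → dsg e.2.1 e.2.2 n m = 0 := by
    intro e he h1
    apply dsg_eq_zero_of_perp
    by_contra h2
    push Not at h2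
    exact h1 (key e he h2.1 h2.2)
  by_cases hn : n ∈ N
  · have hm := h.mono hNN hn
    obtain ⟨a, b, h1, h2⟩ := hm.exists_edge hN
    rw [Finset.sum_eq_single (n, a, b)]
    · show Jmp u n m = Jmp u n (a + b) • dsg a b n m
      rw [dsg_eq_one h1.na h1.nb h1.pos h2, Jmp_edge hN hu h1 h.perp h2, smul_eq_mul, mul_one]
    · intro e he hne
      by_cases h3 : n = e.1
      · have h4 := (mem_edg hN).1 he
        rw [← h3] at h4
        have h5 : ¬ Betw n e.2.1 m e.2.2 := by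
          intro h6
          obtain ⟨h7, h8⟩ := IsEdge.unique hN h.perp h4 h6 h1 h2
          exact hne (Prod.ext h3.symm (Prod.ext h7 h8))
        have h6 : dsg e.2.1 e.2.2 n m = 0 := by
          unfold dsg
          rw [if_neg (fun h => h5 h.2.2.2), if_neg (fun h => by linarith [h.2.2.1, h4.pos])]
        rw [h6, smul_zero]
      · rw [hz e he h3, smul_zero]
    · intro h3
      exact absurd ((mem_edg hN).2 h1) h3
  · rw [Jmp_new hN hN' hNN hu hn h]
    symm
    refine Finset.sum_eq_zero fun e he => ?_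
    have h3 := (mem_edg hN).1 he
    rw [hz e he (fun h4 => hn (h4 ▸ h3.mem)), smul_zero]

end CGA
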