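import Pool.Agent.CGA.GVert

/-! PROJECT CGA, module GFine: fine arrangements.

For unit a, b with |a-b| ≥ δ let m0 = (b-a)/|b-a|: ⟪m0,b⟫ = |b-a|/2 ≥ δ/2 and ⟪m0,a⟫ = -|b-a|/2.  The unit sphere is compact: a finite set F of unit vectors is δ/4-dense; m ∈ F with
|m-m0| ≤ δ/4 has ⟪m,a⟫ < 0 < ⟪m,b⟫, and can m = ± m has the same property (product of the two numbers).  Extend N by can (nrm m), m ∈ F (isArr_extend).
Mesh: if IsEdge N n a b and |a-b| ≥ δ take m ∈ N with ⟪m,a⟫⟪m,b⟫ < 0; the point c = nrm(|⟪m,b⟫| a + |⟪m,a⟫| b) is between a and b and ⟪m,c⟫ = 0, m ≠ n, so c is a vertex strictly between. -/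

set_option linter.all false

namespace CGA

open scoped RealInnerProductSpace Real Topology
open MeasureTheory Set Filter

theorem FineArr.mono {δ : ℝ} {N N' : Finset E} (h : FineArr δ N) (hN : N ⊆ N') : FineArr δ N' := by
  intro a b ha hb hab
  obtain ⟨m, hm, h1⟩ := h a b ha hb hab
  exact ⟨m, hN hm, h1⟩

theorem FineArr.mesh {δ : ℝ} {N : Finset E} (hN : IsArr N) (h : FineArr δ N) {n a b : E}
    (he : IsEdge N n a b) : ‖a - b‖ < δ := by
  by_contra hlt
  push Not at hlt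
  obtain ⟨m, hm, h1⟩ := h a b he.unit.1 he.unit.2 hlt
  have hmn : n ≠ m := by
    rintro rfl
    rw [he.na, zero_mul] at h1
    exact lt_irrefl _ h1
  have ha0 : ⟪m, a⟫ ≠ 0 := by
    intro h0
    rw [h0, zero_mul] at h1
    exact lt_irrefl _ h1
  have hb0 : ⟪m, b⟫ ≠ 0 := by
    intro h0
    rw [h0, mul_zero] at h1
    exact lt_irrefl _ h1
  have hB := betw_pos_comb he.pos (abs_pos.2 hb0) (abs_pos.2 ha0)
  obtain ⟨c, hc⟩ : ∃ c : E, c = |⟪m, b⟫| • a + |⟪m, a⟫| • b := ⟨_, rfl⟩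
  rw [← hc] at hB
  have hmc : ⟪m, c⟫ = 0 := by
    rw [hc, inner_add_right, real_inner_smul_right, real_inner_smul_right]
    rcases lt_or_gt_of_ne ha0 with h2 | h2
    · have h3 : 0 < ⟪m, b⟫ := by
        by_contra h4
        push Not at h4
        nlinarith
      rw [abs_of_pos h3, abs_of_neg h2]
      ring
    · have h3 : ⟪m, b⟫ < 0 := by
        by_contra h4
        push Not at h4
        nlinarith
      rw [abs_of_neg h3, abs_of_pos h2]
      ring
  have hnc : ⟪n, c⟫ = 0 := by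
    rw [hc, inner_add_right, real_inner_smul_right, real_inner_smul_right, he.na, he.nb, mul_zero,
      mul_zero, add_zero]
  have hc0 : c ≠ 0 := by
    intro h0
    have h2 := hB.1
    rw [h0] at h2
    have h3 : det3 n a (0 : E) = 0 := by
      unfold det3
      simp
    rw [h3] at h2
    exact lt_irrefl _ h2
  have hinv : 0 < ‖c‖⁻¹ := inv_pos.2 (norm_pos_iff.2 hc0)
  refine he.no (nrm c) ⟨norm_nrm hc0, n, he.mem, m, hm, hmn, ?_, ?_⟩ ?_ ⟨?_, ?_⟩
  · unfold nrm
    rw [real_inner_smul_right, hnc, mul_zero]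
  · unfold nrm
    rw [real_inner_smul_right, hmc, mul_zero]
  · unfold nrm
    rw [real_inner_smul_right, hnc, mul_zero]
  · unfold nrm
    rw [det3_smul3]
    exact mul_pos hinv hB.1
  · unfold nrm
    rw [det3_smul2]
    exact mul_pos hinv hB.2

theorem exists_fineArr {N : Finset E} (hN : IsArr N) {δ : ℝ} (hδ : 0 < δ) :
    ∃ N', N ⊆ N' ∧ IsArr N' ∧ FineArr δ N' := by
  classical
  obtain ⟨t, hts, htf, hcov⟩ := (isCompact_sphere (0 : E) 1).finite_cover_balls
    (e := δ / 4) (by positivity)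
  have hunit : ∀ k ∈ t, ‖k‖ = 1 := fun k hk => mem_sphere_zero_iff_norm.1 (hts hk)
  obtain ⟨N', h1, h2, h3⟩ := isArr_extend hN htf.toFinset (by
    intro k hk h0
    have h4 := hunit k (htf.mem_toFinset.1 hk)
    rw [h0, norm_zero] at h4
    exact zero_ne_one h4)
  refine ⟨N', h1, h2, ?_⟩
  intro a b ha hb hab
  have hd : 0 < ‖b - a‖ := by
    rw [norm_sub_rev]
    linarith
  have hba : b - a ≠ 0 := norm_pos_iff.1 hd
  obtain ⟨m0, hm0⟩ : ∃ m0 : E, m0 = nrm (b - a) := ⟨_, rfl⟩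
  have hm01 : ‖m0‖ = 1 := by
    rw [hm0]
    exact norm_nrm hba
  have h4 := hcov (mem_sphere_zero_iff_norm.2 hm01)
  simp only [mem_iUnion] at h4
  obtain ⟨m, hmt, hm⟩ := h4
  rw [Metric.mem_ball, dist_eq_norm] at hm
  have hab2 := unit_inner_le ha hb
  have haa : ⟪a, a⟫ = 1 := by rw [real_inner_self_eq_norm_sq, ha, one_pow]
  have hbb : ⟪b, b⟫ = 1 := by rw [real_inner_self_eq_norm_sq, hb, one_pow]
  have hbn : ⟪m0, b⟫ = ‖b - a‖ / 2 := by
    rw [hm0]
    unfold nrm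
    rw [real_inner_smul_left, inner_sub_left, hbb, hab2, norm_sub_rev a b]
    field_simp
    ring
  have han : ⟪m0, a⟫ = - (‖b - a‖ / 2) := by
    rw [hm0]
    unfold nrm
    rw [real_inner_smul_left, inner_sub_left, haa, real_inner_comm, hab2, norm_sub_rev a b]
    field_simp
    ring
  have e1 : ⟪m, b⟫ = ⟪m0, b⟫ - ⟪m0 - m, b⟫ := by
    rw [inner_sub_left]
    ring
  have e2 : ⟪m, a⟫ = ⟪m0, a⟫ - ⟪m0 - m, a⟫ := by
    rw [inner_sub_left]
    ring
  have e3 : |⟪m0 - m, b⟫| ≤ ‖m0 - m‖ := by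
    have := abs_real_inner_le_norm (m0 - m) b
    rwa [hb, mul_one] at this
  have e4 : |⟪m0 - m, a⟫| ≤ ‖m0 - m‖ := by
    have := abs_real_inner_le_norm (m0 - m) a
    rwa [ha, mul_one] at this
  rw [norm_sub_rev] at hab
  have hmb : 0 < ⟪m, b⟫ := by
    rw [e1, hbn]
    have := (abs_le.1 e3).2
    linarith
  have hma : ⟪m, a⟫ < 0 := by
    rw [e2, han]
    have := (abs_le.1 e4).1
    linarith
  have hmem := h3 m (htf.mem_toFinset.2 hmt)
  rw [nrm_of_unit (hunit m hmt)] at hmem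
  refine ⟨can m, hmem, ?_⟩
  rcases can_eq m with h5 | h5
  · rw [h5]
    exact mul_neg_of_neg_of_pos hma hmb
  · rw [h5, inner_neg_left, inner_neg_left, neg_mul_neg]
    exact mul_neg_of_neg_of_pos hma hmb

end CGA
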