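import Pool.Agent.CGA.GTVN
import Pool.Agent.CGA.GAF

/-! PROJECT CGA, module GTVa: properties of the total variation.  Everything edge by edge in a common arrangement (TV_eq, TVN_eq_sum, sv_comp, Jmp_add ...).
TV_posneg: |max(p,0) - max(q,0)| + |max(-p,0) - max(-q,0)| = |p - q| for integers p, q. -/

set_option linter.all false

namespace CGA

open scoped RealInnerProductSpace Real Topology
open MeasureTheory Set Filter

private theorem GTVa_mid {N : Finset E} (hN : IsArr N) {e : E × E × E} (he : e ∈ edg N) :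
    OnG N e.1 (e.2.1 + e.2.2) := (IsEdge.mid hN ((mem_edg hN).1 he)).1

theorem TV_nonneg (M : Met) (u : E → ℤ) : 0 ≤ TV M u := by
  unfold TV
  split_ifs with h
  · rw [TVN_eq_sum M h.choose_spec.1 u]
    exact Finset.sum_nonneg fun e _ => mul_nonneg (abs_nonneg _) (ell_nonneg M _ _)
  · exact le_rfl

theorem TV_add_le (M : Met) {u v : E → ℤ} (hu : AF u) (hv : AF v) :
    TV M (fun x => u x + v x) ≤ TV M u + TV M v := by
  obtain ⟨N, hN, hu', hv'⟩ := hu.common hv
  have huv : Fn N (fun x => u x + v x) := by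
    intro x y hxy
    simp only
    rw [hu' x y hxy, hv' x y hxy]
  rw [TV_eq M hN hu', TV_eq M hN hv', TV_eq M hN huv, TVN_eq_sum M hN, TVN_eq_sum M hN,
    TVN_eq_sum M hN, ← Finset.sum_add_distrib]
  refine Finset.sum_le_sum fun e he => ?_
  have h1 : Je (fun x => u x + v x) e = Je u e + Je v e := Jmp_add hN hu' hv' (GTVa_mid hN he)
  rw [h1, ← add_mul]
  refine mul_le_mul_of_nonneg_right ?_ (ell_nonneg M _ _)
  push_cast
  exact abs_add_le _ _

theorem TV_neg (M : Met) {u : E → ℤ} (hu : AF u) : TV M (fun x => - u x) = TV M u := by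
  obtain ⟨N, hN, hu'⟩ := hu
  have huv : Fn N (fun x => - u x) := by
    intro x y hxy
    simp only
    rw [hu' x y hxy]
  rw [TV_eq M hN hu', TV_eq M hN huv, TVN_eq_sum M hN, TVN_eq_sum M hN]
  refine Finset.sum_congr rfl fun e he => ?_
  have h1 : Je (fun x => - u x) e = - Je u e := Jmp_neg hN hu' (GTVa_mid hN he)
  rw [h1]
  push_cast
  rw [abs_neg]

theorem TV_add_const (M : Met) {u : E → ℤ} (hu : AF u) (k : ℤ) :
    TV M (fun x => u x + k) = TV M u := by
  obtain ⟨N, hN, hu'⟩ := hu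
  have huv : Fn N (fun x => u x + k) := by
    intro x y hxy
    simp only
    rw [hu' x y hxy]
  rw [TV_eq M hN hu', TV_eq M hN huv, TVN_eq_sum M hN, TVN_eq_sum M hN]
  refine Finset.sum_congr rfl fun e he => ?_
  have h1 : Je (fun x => u x + k) e = Je u e := Jmp_add_const hN hu' k (GTVa_mid hN he)
  rw [h1]

theorem TV_const (M : Met) (k : ℤ) : TV M (fun _ => k) = 0 := by
  obtain ⟨N, hN, hu'⟩ := AF.const k
  rw [TV_eq M hN hu', TVN_eq_sum M hN]
  refine Finset.sum_eq_zero fun e he => ?_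
  have h1 : ∀ m n : E, sv (fun _ => k) m n = k := by
    intro m n
    unfold sv
    exact Tendsto.limUnder_eq tendsto_const_nhds
  have h2 : Je (fun _ => k) e = 0 := by
    unfold Je Jmp
    rw [h1, h1, sub_self]
  rw [h2]
  simp

theorem TV_posneg (M : Met) {u : E → ℤ} (hu : AF u) :
    TV M (fun x => max (u x) 0) + TV M (fun x => max (- u x) 0) = TV M u := by
  obtain ⟨N, hN, hu'⟩ := hu
  have h1 : Fn N (fun x => max (u x) 0) := by
    intro x y hxy
    simp only
    rw [hu' x y hxy]
  have h2 : Fn N (fun x => max (- u x) 0) := by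
    intro x y hxy
    simp only
    rw [hu' x y hxy]
  rw [TV_eq M hN hu', TV_eq M hN h1, TV_eq M hN h2, TVN_eq_sum M hN, TVN_eq_sum M hN,
    TVN_eq_sum M hN, ← Finset.sum_add_distrib]
  refine Finset.sum_congr rfl fun e he => ?_
  obtain ⟨p, q, hp, hq, hs⟩ := exists_sides hN (GTVa_mid hN he)
  obtain ⟨a1, a2⟩ := hs _ hu'
  obtain ⟨b1, b2⟩ := hs _ h1
  obtain ⟨c1, c2⟩ := hs _ h2
  unfold Je Jmp
  rw [a1, a2, b1, b2, c1, c2, ← add_mul]
  congr 1
  generalize u p = x
  generalize u q = y
  have key : |max x 0 - max y 0| + |max (-x) 0 - max (-y) 0| = |x - y| := by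
    rcases le_total x 0 with hx | hx <;> rcases le_total y 0 with hy | hy
    · rw [max_eq_right hx, max_eq_right hy, max_eq_left (neg_nonneg.2 hx),
        max_eq_left (neg_nonneg.2 hy)]
      have : -x - -y = -(x - y) := by ring
      rw [this, abs_neg]
      simp
    · rw [max_eq_right hx, max_eq_left hy, max_eq_left (neg_nonneg.2 hx),
        max_eq_right (neg_nonpos.2 hy)]
      have e1 : |0 - y| = y := by rw [zero_sub, abs_neg, abs_of_nonneg hy]
      have e2 : |-x - 0| = -x := by rw [sub_zero, abs_of_nonneg (neg_nonneg.2 hx)]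
      have e3 : |x - y| = y - x := by rw [abs_of_nonpos (by linarith)]; ring
      rw [e1, e2, e3]
      ring
    · rw [max_eq_left hx, max_eq_right hy, max_eq_right (neg_nonpos.2 hx),
        max_eq_left (neg_nonneg.2 hy)]
      have e1 : |x - 0| = x := by rw [sub_zero, abs_of_nonneg hx]
      have e2 : |0 - -y| = -y := by
        rw [zero_sub, neg_neg, abs_of_nonpos hy]
      have e3 : |x - y| = x - y := abs_of_nonneg (by linarith)
      rw [e1, e2, e3]
      ring
    · rw [max_eq_left hx, max_eq_left hy, max_eq_right (neg_nonpos.2 hx),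
        max_eq_right (neg_nonpos.2 hy)]
      simp
  exact_mod_cast key

theorem TV_congr (M : Met) {u v : E → ℤ} (hu : AF u) (hv : AF v)
    (h : ∃ N, IsArr N ∧ ∀ x, Gen N x → u x = v x) : TV M u = TV M v := by
  classical
  obtain ⟨N₁, hN₁, hu₁, hv₁⟩ := hu.common hv
  obtain ⟨N₂, hN₂, h₂⟩ := h
  have hN : IsArr (N₁ ∪ N₂) := hN₁.union hN₂
  have hu' : Fn (N₁ ∪ N₂) u := Fn.mono Finset.subset_union_left hu₁
  have hv' : Fn (N₁ ∪ N₂) v := Fn.mono Finset.subset_union_left hv₁
  rw [TV_eq M hN hu', TV_eq M hN hv', TVN_eq_sum M hN, TVN_eq_sum M hN]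
  refine Finset.sum_congr rfl fun e he => ?_
  have h1 := sv_congr hN hu' hv'
    (fun x hx => h₂ x fun n hn => hx n (Finset.mem_union_right _ hn)) (GTVa_mid hN he)
  have h2 : Je u e = Je v e := by
    unfold Je Jmp
    rw [h1.1, h1.2]
  rw [h2]

end CGA
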