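import Pool.Agent.CGA.GCone
import Pool.Agent.CGA.GFine
import Pool.Agent.CGA.GBalB
import Pool.Agent.CGA.GTVa

/-! PROJECT CGA, module GMod: `arr_mod`.

N fine (exists_fineArr, mesh δ) with Fn N u, z = bd N u: mem_bd, IsEdge.unit, lt_two, FineArr.mesh, bd_balanced, mass_bd, TV_eq.
Given y ≤ z, y', S: N' ⊇ N with all triangles (p.1, e.1, e.2) OK (exists_triOK applied to the finite set of the triples) .  For OnG N' n m (in particular the midpoints of the edges of N'), with w = Σ cones: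
Jmp (u+w) n m = Jmp u n m + Jmp w n m = Σ_{z} dsg + Σ_{y' + y.swap} dsg = Σ_{z-y} dsg + Σ_{y'} dsg (Jmp_eq_dsg, Jmp_cones, dsg_swap, z = (z - y) + y).  So |Jmp| ≤ Σ_{z-y}|dsg| + Σ_{y'}|dsg|.
Multiply by ell e, sum over e ∈ edg N' and exchange the sums: sum_abs_dsg (for darts of z: they are edges of N: plane in N', end points are vertices, not antipodal; for darts of y' ≤ (S.map snd).sum: TriOK; not antipodal:
if det3 ≠ 0 clear, otherwise both within 1 of the apex).  TV M (u+w) = TVN M N' (u+w) (TV_eq). -/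

set_option linter.all false

namespace CGA

open scoped RealInnerProductSpace Real Topology
open MeasureTheory Set Filter

private theorem GMod_ne_neg {a b : E} (ha : ‖a‖ = 1) (h : ‖a - b‖ < 2) : a ≠ -b := by
  intro h0
  have h1 : a - b = (2 : ℝ) • a := by
    have : b = -a := by rw [h0, neg_neg]
    rw [this, sub_neg_eq_add, two_smul]
  rw [h1, norm_smul, ha, Real.norm_eq_abs, abs_two, mul_one] at h
  exact lt_irrefl _ h

/-- the dart sum of a dart of an edge -/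
private theorem GMod_edge (M : Met) {N N' : Finset E} (hN : IsArr N) (hN' : IsArr N')
    (hNN : N ⊆ N') {n a b : E} (h : IsEdge N n a b) :
    (∑ e ∈ edg N', |(dsg a b e.1 (e.2.1 + e.2.2) : ℝ)| * ell M e.2.1 e.2.2 = ell M a b) ∧
    (∑ e ∈ edg N', |(dsg b a e.1 (e.2.1 + e.2.2) : ℝ)| * ell M e.2.1 e.2.2 = ell M b a) := by
  have hu := h.unit
  have hlt := h.lt_two
  have hab : a ≠ -b := GMod_ne_neg hu.1 hlt.1
  have hba : b ≠ -a := GMod_ne_neg hu.2 (by rw [norm_sub_rev]; exact hlt.1)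
  have hva : a ∈ Vert N' := Vert_mono hNN h.va
  have hvb : b ∈ Vert N' := Vert_mono hNN h.vb
  have hp : crs a b ≠ 0 → can (nrm (crs a b)) ∈ N' := by
    intro hc
    obtain ⟨n1, n2, n3, n4⟩ := nvec_spec hc
    have : n = nvec a b := eq_of_perp (hN.unit n h.mem) n1 (hN.can n h.mem) n2 hc h.na h.nb n3 n4
    have h2 : nvec a b ∈ N' := this ▸ hNN h.mem
    exact h2
  have hp' : crs b a ≠ 0 → can (nrm (crs b a)) ∈ N' := by
    intro hc
    obtain ⟨n1, n2, n3, n4⟩ := nvec_spec hc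
    have : n = nvec b a := eq_of_perp (hN.unit n h.mem) n1 (hN.can n h.mem) n2 hc h.nb h.na n3 n4
    have h2 : nvec b a ∈ N' := this ▸ hNN h.mem
    exact h2
  exact ⟨sum_abs_dsg M hN' hu.1 hu.2 hab hp hva hvb, sum_abs_dsg M hN' hu.2 hu.1 hba hp' hvb hva⟩

private theorem GMod_tri (M : Met) {N' : Finset E} (hN' : IsArr N') {x a b : E}
    (h : TriOK N' x a b) :
    ∑ e ∈ edg N', |(dsg a b e.1 (e.2.1 + e.2.2) : ℝ)| * ell M e.2.1 e.2.2 = ell M a b := by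
  have hab : a ≠ -b := by
    intro h0
    rcases h.ok with h1 | ⟨w, h1, h2, h3⟩
    · apply h1
      rw [h0, det3_neg2, det3_self23, neg_zero]
    · rw [h0, inner_neg_right] at h2
      linarith
  exact sum_abs_dsg M hN' h.ub h.uc hab h.pbc h.vb h.vc

private theorem GMod_mass_add (M : Met) (s t : Multiset (E × E)) :
    mass M (s + t) = mass M s + mass M t := by
  unfold mass
  rw [Multiset.map_add, Multiset.sum_add]

private theorem GMod_sum_swap {ι : Type*} (S : Finset ι) (t : Multiset (E × E))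
    (φ : E × E → ι → ℝ) : ∑ e ∈ S, (t.map fun d => φ d e).sum = (t.map fun d => ∑ e ∈ S, φ d e).sum := by
  induction t using Multiset.induction_on with
  | empty => simp
  | cons a t ih => simp only [Multiset.map_cons, Multiset.sum_cons, Finset.sum_add_distrib, ih]

private theorem GMod_abs_sum (t : Multiset (E × E)) (φ : E × E → ℤ) :
    |(((t.map φ).sum : ℤ) : ℝ)| ≤ (t.map fun d => |(φ d : ℝ)|).sum := by
  induction t using Multiset.induction_on with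
  | empty => simp
  | cons a t ih =>
    simp only [Multiset.map_cons, Multiset.sum_cons, Int.cast_add]
    exact (abs_add_le _ _).trans (by linarith)

private theorem GMod_mul (t : Multiset (E × E)) (φ : E × E → ℝ) (c : ℝ) :
    (t.map φ).sum * c = (t.map fun d => φ d * c).sum := by
  rw [Multiset.sum_map_mul_right]

theorem arr_modH (M : Met) {u : E → ℤ} (hu : AF u) {δ : ℝ} (hδ : 0 < δ) :
    ∃ z : Multiset (E × E), (∀ e ∈ z, ‖e.1‖ = 1 ∧ ‖e.2‖ = 1 ∧ e.1 ≠ e.2 ∧ ‖e.1 - e.2‖ ≤ δ) ∧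
      z.map Prod.fst = z.map Prod.snd ∧ mass M z = TV M u ∧
      ∀ y ≤ z, ∀ (y' : Multiset (E × E)) (S : Multiset (E × Multiset (E × E))),
        (∀ p ∈ S, ‖p.1‖ = 1 ∧ p.2.map Prod.fst = p.2.map Prod.snd ∧
          ∀ e ∈ p.2, ‖e.1‖ = 1 ∧ ‖e.2‖ = 1 ∧
            (det3 p.1 e.1 e.2 ≠ 0 ∨ ∃ w : E, 0 < ⟪w, p.1⟫ ∧ 0 < ⟪w, e.1⟫ ∧ 0 < ⟪w, e.2⟫)) →
        (S.map Prod.snd).sum = y' + y.map Prod.swap →
        TV M (fun x => u x + (S.map fun p => coneF p.1 p.2 x).sum) ≤ mass M z - mass M y + mass M y' := by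
  classical
  obtain ⟨N0, hN0, hu0⟩ := hu
  obtain ⟨N, h0, hN, hfine⟩ := exists_fineArr hN0 hδ
  have huN : Fn N u := hu0.mono h0
  have hz : ∀ d ∈ bd N u, ∃ n, IsEdge N n d.1 d.2 ∨ IsEdge N n d.2 d.1 := by
    intro d hd
    obtain ⟨n, h | h⟩ := mem_bd hN hd
    · exact ⟨n, Or.inl h.1⟩
    · exact ⟨n, Or.inr h.1⟩
  refine ⟨bd N u, ?_, bd_balanced hN huN, ?_, ?_⟩
  · intro e he
    obtain ⟨n, h | h⟩ := hz e he
    · exact ⟨h.unit.1, h.unit.2, h.lt_two.2, (hfine.mesh hN h).le⟩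
    · refine ⟨h.unit.2, h.unit.1, h.lt_two.2.symm, ?_⟩
      rw [norm_sub_rev]
      exact (hfine.mesh hN h).le
  · rw [mass_bd M hN u, TV_eq M hN huN]
  intro y hy y' S hS hsum
  set T : Finset (E × E × E) :=
    (S.bind fun p => p.2.map fun e => (p.1, e.1, e.2)).toFinset with hT
  have hmemT : ∀ p ∈ S, ∀ e ∈ p.2, (p.1, e.1, e.2) ∈ T := by
    intro p hp e he
    rw [hT, Multiset.mem_toFinset, Multiset.mem_bind]
    exact ⟨p, hp, Multiset.mem_map.2 ⟨e, he, rfl⟩⟩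
  have hTok : ∀ t ∈ T, ‖t.1‖ = 1 ∧ ‖t.2.1‖ = 1 ∧ ‖t.2.2‖ = 1 ∧
      (det3 t.1 t.2.1 t.2.2 ≠ 0 ∨ ∃ w : E, 0 < ⟪w, t.1⟫ ∧ 0 < ⟪w, t.2.1⟫ ∧ 0 < ⟪w, t.2.2⟫) := by
    intro t ht
    rw [hT, Multiset.mem_toFinset, Multiset.mem_bind] at ht
    obtain ⟨p, hp, ht⟩ := ht
    obtain ⟨e, he, rfl⟩ := Multiset.mem_map.1 ht
    obtain ⟨h1, -, h3⟩ := hS p hp
    obtain ⟨h4, h5, h6⟩ := h3 e he
    exact ⟨h1, h4, h5, h6⟩
  obtain ⟨N', hNN', hN', hOK⟩ := exists_triOK hN T hTok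
  have hTri : ∀ p ∈ S, ∀ e ∈ p.2, TriOK N' p.1 e.1 e.2 := fun p hp e he =>
    hOK _ (hmemT p hp e he)
  have hu' : Fn N' u := huN.mono hNN'
  set w : E → ℤ := fun x => (S.map fun p => coneF p.1 p.2 x).sum with hw
  have hwFn : Fn N' w := by
    intro x x' hxx
    simp only [hw]
    congr 1
    exact Multiset.map_congr rfl fun p hp => Fn_coneF (fun e he => hTri p hp e he) x x' hxx
  have huw : Fn N' (fun x => u x + w x) := by
    intro x x' hxx
    simp only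
    rw [hu' x x' hxx, hwFn x x' hxx]
  set t : Multiset (E × E) := (bd N u - y) + y' with ht
  have hjump : ∀ e ∈ edg N', Je (fun x => u x + w x) e =
      (t.map fun d => dsg d.1 d.2 e.1 (e.2.1 + e.2.2)).sum := by
    intro e he
    have hed := (mem_edg hN').1 he
    have hm := (hed.mid hN').1
    have j1 := Jmp_add hN' hu' hwFn hm
    have j2 := Jmp_eq_dsg hN hN' hNN' huN hm
    have j3 := (Jmp_cones hN' S (fun p hp => ⟨(hS p hp).2.1, hTri p hp⟩) hm).2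
    have j4 : (y.map fun d => dsg d.2 d.1 e.1 (e.2.1 + e.2.2)).sum =
        -(y.map fun d => dsg d.1 d.2 e.1 (e.2.1 + e.2.2)).sum := by
      rw [← Multiset.sum_map_neg]
      congr 1
      exact Multiset.map_congr rfl fun d _ => dsg_swap _ _ _ _
    have j5 : bd N u = (bd N u - y) + y := (tsub_add_cancel_of_le hy).symm
    unfold Je
    rw [j1, j2, hw, j3, hsum, ht, Multiset.map_add, Multiset.sum_add, Multiset.map_add,
      Multiset.sum_add, Multiset.map_map]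
    have j6 : (y.map ((fun d : E × E => dsg d.1 d.2 e.1 (e.2.1 + e.2.2)) ∘ Prod.swap)).sum =
        -(y.map fun d => dsg d.1 d.2 e.1 (e.2.1 + e.2.2)).sum := j4
    rw [j6]
    nth_rewrite 1 [j5]
    rw [Multiset.map_add, Multiset.sum_add]
    ring
  have hell : ∀ d ∈ t, ∑ e ∈ edg N', |(dsg d.1 d.2 e.1 (e.2.1 + e.2.2) : ℝ)| * ell M e.2.1 e.2.2 =
      ell M d.1 d.2 := by
    intro d hd
    rw [ht, Multiset.mem_add] at hd
    rcases hd with hd | hd
    · obtain ⟨n, h | h⟩ := hz d (Multiset.mem_of_le tsub_le_self hd)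
      · exact (GMod_edge M hN hN' hNN' h).1
      · exact (GMod_edge M hN hN' hNN' h).2
    · have hd2 : d ∈ (S.map Prod.snd).sum := by
        rw [hsum]
        exact Multiset.mem_add.2 (Or.inl hd)
      have hd3 : d ∈ (S.map Prod.snd).join := hd2
      obtain ⟨q, hq, hdq⟩ := Multiset.mem_join.1 hd3
      obtain ⟨p, hp, rfl⟩ := Multiset.mem_map.1 hq
      exact GMod_tri M hN' (hTri p hp d hdq)
  have hmass : mass M t = mass M (bd N u) - mass M y + mass M y' := by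
    have : mass M (bd N u) = mass M (bd N u - y) + mass M y := by
      rw [← GMod_mass_add, tsub_add_cancel_of_le hy]
    rw [ht, GMod_mass_add, this]
    ring
  rw [← hmass, TV_eq M hN' huw, TVN_eq_sum M hN']
  calc ∑ e ∈ edg N', |(Je (fun x => u x + w x) e : ℝ)| * ell M e.2.1 e.2.2
      ≤ ∑ e ∈ edg N', (t.map fun d => |(dsg d.1 d.2 e.1 (e.2.1 + e.2.2) : ℝ)| *
          ell M e.2.1 e.2.2).sum := by
        refine Finset.sum_le_sum fun e he => ?_
        rw [← GMod_mul t (fun d => |(dsg d.1 d.2 e.1 (e.2.1 + e.2.2) : ℝ)|), hjump e he]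
        exact mul_le_mul_of_nonneg_right (GMod_abs_sum t _) (ell_nonneg M _ _)
    _ = (t.map fun d => ∑ e ∈ edg N', |(dsg d.1 d.2 e.1 (e.2.1 + e.2.2) : ℝ)| *
          ell M e.2.1 e.2.2).sum := GMod_sum_swap _ _ _
    _ = mass M t := by
        unfold mass
        congr 1
        exact Multiset.map_congr rfl hell

private theorem GMod_near {x a : E} (hx : ‖x‖ = 1) (ha : ‖a‖ = 1) (h : ‖a - x‖ ≤ 1) :
    0 < ⟪x, a⟫ := by
  rw [real_inner_comm, unit_inner_le ha hx]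
  nlinarith [norm_nonneg (a - x)]

/-- special case of `arr_modH` (`w = p.1`) -/
theorem arr_mod (M : Met) {u : E → ℤ} (hu : AF u) {δ : ℝ} (hδ : 0 < δ) :
    ∃ z : Multiset (E × E), (∀ e ∈ z, ‖e.1‖ = 1 ∧ ‖e.2‖ = 1 ∧ e.1 ≠ e.2 ∧ ‖e.1 - e.2‖ ≤ δ) ∧
      z.map Prod.fst = z.map Prod.snd ∧ mass M z = TV M u ∧
      ∀ y ≤ z, ∀ (y' : Multiset (E × E)) (S : Multiset (E × Multiset (E × E))),
        (∀ p ∈ S, ‖p.1‖ = 1 ∧ p.2.map Prod.fst = p.2.map Prod.snd ∧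
          ∀ e ∈ p.2, ‖e.1‖ = 1 ∧ ‖e.2‖ = 1 ∧
            (det3 p.1 e.1 e.2 ≠ 0 ∨ (‖e.1 - p.1‖ ≤ 1 ∧ ‖e.2 - p.1‖ ≤ 1))) →
        (S.map Prod.snd).sum = y' + y.map Prod.swap →
        TV M (fun x => u x + (S.map fun p => coneF p.1 p.2 x).sum) ≤ mass M z - mass M y + mass M y' := by
  obtain ⟨z, h1, h2, h3, h4⟩ := arr_modH M hu hδ
  refine ⟨z, h1, h2, h3, fun y hy y' S hS hsum => h4 y hy y' S (fun p hp => ?_) hsum⟩
  obtain ⟨a1, a2, a3⟩ := hS p hp
  refine ⟨a1, a2, fun e he => ?_⟩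
  obtain ⟨b1, b2, b3⟩ := a3 e he
  refine ⟨b1, b2, b3.imp_right fun h => ⟨p.1, ?_, GMod_near a1 b1 h.1, GMod_near a1 b2 h.2⟩⟩
  rw [real_inner_self_eq_norm_sq, a1]
  norm_num

/-- the case u = 0 -/
theorem TV_coneF_leH (M : Met) {x : E} (hx : ‖x‖ = 1) {s : Multiset (E × E)}
    (hs : s.map Prod.fst = s.map Prod.snd)
    (h : ∀ e ∈ s, ‖e.1‖ = 1 ∧ ‖e.2‖ = 1 ∧
      (det3 x e.1 e.2 ≠ 0 ∨ ∃ w : E, 0 < ⟪w, x⟫ ∧ 0 < ⟪w, e.1⟫ ∧ 0 < ⟪w, e.2⟫)) :
    TV M (coneF x s) ≤ mass M s := by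
  obtain ⟨z, -, -, hz3, hz4⟩ := arr_modH M (AF.const 0) (δ := 1) one_pos
  have h1 := hz4 0 (Multiset.zero_le _) s {(x, s)} (by
    intro p hp
    rw [Multiset.mem_singleton] at hp
    subst hp
    exact ⟨hx, hs, h⟩) (by simp)
  have h2 : (fun p => (0 : ℤ) + ((({(x, s)} : Multiset (E × Multiset (E × E))).map
      fun q => coneF q.1 q.2 p).sum)) = coneF x s := by
    funext p
    simp
  have h3 : mass M 0 = 0 := by simp [mass]
  rw [h2, hz3, TV_const, h3] at h1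
  linarith

theorem TV_coneF_le (M : Met) {x : E} (hx : ‖x‖ = 1) {s : Multiset (E × E)}
    (hs : s.map Prod.fst = s.map Prod.snd)
    (h : ∀ e ∈ s, ‖e.1‖ = 1 ∧ ‖e.2‖ = 1 ∧ (det3 x e.1 e.2 ≠ 0 ∨ (‖e.1 - x‖ ≤ 1 ∧ ‖e.2 - x‖ ≤ 1))) :
    TV M (coneF x s) ≤ mass M s := by
  refine TV_coneF_leH M hx hs fun e he => ?_
  obtain ⟨b1, b2, b3⟩ := h e he
  refine ⟨b1, b2, b3.imp_right fun h => ⟨x, ?_, GMod_near hx b1 h.1, GMod_near hx b2 h.2⟩⟩
  rw [real_inner_self_eq_norm_sq, hx]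
  norm_num

end CGA
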