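import Pool.Agent.CGA.GBd

/-! PROJECT CGA, module GRef: the boundary in a finer arrangement is a subdivision.

SubStep is compatible with adding darts, and (up to swapping both darts: for t ↦ 1-t the same point) with Prod.swap.
For an edge (n,a,b) of N and V = VertOn N' n: by CSet.arc_induction, {(x,y)} →* chain x y := Σᶠ_{e: Nxt n V e.1 e.2, Betw n x (e.1+e.2) y} {(e.1,e.2)} and also
{(y,x)} →* (chain x y).map swap (a point c between x and y is nrm((1-t)x+ty) for some t: Betw.exists_comb).  Sum over the darts of bd N u; bd N' u is the sum of the chains by sum_edges_refine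
(with A = Multiset (E × E), Φ n a' b' = replicate (Je)⁺ (a',b') + replicate (Je)⁻ (b',a')). -/

set_option linter.all false

namespace CGA

open scoped RealInnerProductSpace Real Topology
open MeasureTheory Set Filter

theorem SubStep.add_right {s s' : Multiset (E × E)} (h : SubStep s s') (t : Multiset (E × E)) :
    SubStep (s + t) (s' + t) := by
  obtain ⟨a, b, s₀, τ, hτ, ha, hb, hab, rfl, rfl⟩ := h
  exact ⟨a, b, s₀ + t, τ, hτ, ha, hb, hab, by rw [Multiset.cons_add],
    by rw [Multiset.cons_add, Multiset.cons_add]⟩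

private theorem GRef_swap {s s' : Multiset (E × E)} (h : SubStep s s') :
    SubStep (s.map Prod.swap) (s'.map Prod.swap) := by
  obtain ⟨a, b, s₀, τ, hτ, ha, hb, hab, rfl, rfl⟩ := h
  refine ⟨b, a, s₀.map Prod.swap, 1 - τ, ⟨by linarith [hτ.2], by linarith [hτ.1]⟩, hb, ha,
    by rw [norm_sub_rev]; exact hab, by rw [Multiset.map_cons]; rfl, ?_⟩
  have h1 : (1 - (1 - τ)) • b + (1 - τ) • a = (1 - τ) • a + τ • b := by
    rw [sub_sub_cancel, add_comm]
  rw [h1, Multiset.map_cons, Multiset.map_cons, Multiset.cons_swap]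
  rfl

theorem SubStep.swap {s s' : Multiset (E × E)} (h : SubStep s s') :
    SubStep (s.map Prod.swap) (s'.map Prod.swap) ∨
      ∃ s'', SubStep (s.map Prod.swap) s'' ∧ s'' = s'.map Prod.swap :=
  Or.inl (GRef_swap h)

private theorem GRef_radd {s s' t t' : Multiset (E × E)}
    (h : Relation.ReflTransGen SubStep s s') (h' : Relation.ReflTransGen SubStep t t') :
    Relation.ReflTransGen SubStep (s + t) (s' + t') := by
  have h1 : Relation.ReflTransGen SubStep (s + t) (s' + t) :=
    h.lift (fun x => x + t) fun a b hab => hab.add_right t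
  have h2 : Relation.ReflTransGen SubStep (s' + t) (s' + t') :=
    h'.lift (fun x => s' + x) fun a b hab => by
      have h3 := hab.add_right s'
      rwa [add_comm a, add_comm b] at h3
  exact h1.trans h2

private theorem GRef_rsmul {s s' : Multiset (E × E)} (h : Relation.ReflTransGen SubStep s s')
    (k : ℕ) : Relation.ReflTransGen SubStep (k • s) (k • s') := by
  induction k with
  | zero =>
    rw [zero_nsmul, zero_nsmul]
  | succ k ih =>
    rw [succ_nsmul, succ_nsmul]
    exact GRef_radd ih h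

private theorem GRef_rsum {ι : Type*} (S : Finset ι) (f g : ι → Multiset (E × E))
    (h : ∀ i ∈ S, Relation.ReflTransGen SubStep (f i) (g i)) :
    Relation.ReflTransGen SubStep (∑ i ∈ S, f i) (∑ i ∈ S, g i) := by
  classical
  induction S using Finset.induction_on with
  | empty => rw [Finset.sum_empty, Finset.sum_empty]
  | insert a S ha ih =>
    rw [Finset.sum_insert ha, Finset.sum_insert ha]
    exact GRef_radd (h a (Finset.mem_insert_self a S))
      (ih fun i hi => h i (Finset.mem_insert_of_mem hi))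

private theorem GRef_rswap {s s' : Multiset (E × E)} (h : Relation.ReflTransGen SubStep s s') :
    Relation.ReflTransGen SubStep (s.map Prod.swap) (s'.map Prod.swap) :=
  h.lift (fun x => x.map Prod.swap) fun _ _ hab => GRef_swap hab

/-- the arcs between two points -/
private def GRef_S (n : E) (V : Set E) (x y : E) : Set (E × E) :=
  {e : E × E | Nxt n V e.1 e.2 ∧ Betw n x (e.1 + e.2) y}

private noncomputable def GRef_chain (n : E) (V : Set E) (x y : E) : Multiset (E × E) :=
  ∑ᶠ e ∈ GRef_S n V x y, ({e} : Multiset (E × E))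

private theorem GRef_fin {n : E} {V : Set E} (h : CSet n V) (x y : E) :
    (GRef_S n V x y).Finite :=
  (h.fin.prod h.fin).subset fun _ he => ⟨he.1.ma, he.1.mb⟩

private theorem GRef_perp {n : E} {V : Set E} (h : CSet n V) {a b : E} (hab : Nxt n V a b) :
    ⟪n, a + b⟫ = 0 := by
  rw [inner_add_right, h.perp a hab.ma, h.perp b hab.mb, add_zero]

private theorem GRef_nxt {n : E} {V : Set E} (h : CSet n V) {a b : E} (hab : Nxt n V a b) :
    GRef_chain n V a b = {(a, b)} := by
  have h1 : GRef_S n V a b = {(a, b)} := by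
    ext e
    constructor
    · rintro ⟨he1, he2⟩
      have h2 := h.arc_unique (GRef_perp h he1) he1 (betw_mid he1.pos) hab he2
      exact Prod.ext h2.1 h2.2
    · intro he
      rw [Set.mem_singleton_iff] at he
      subst he
      exact ⟨hab, betw_mid hab.pos⟩
  unfold GRef_chain
  rw [h1, finsum_mem_singleton]

private theorem GRef_ne {n : E} {V : Set E} (h : CSet n V) {c a b : E} (hc : c ∈ V)
    (hab : Nxt n V a b) : det3 n c (a + b) ≠ 0 := by
  intro h0
  have hm : ⟪n, a + b⟫ = 0 := GRef_perp h hab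
  have hmid := betw_mid hab.pos
  have hm0 : a + b ≠ 0 := by
    intro h1
    have h2 := hmid.1
    rw [h1] at h2
    have h3 : det3 n a 0 = 0 := by
      have h4 := det3_smul3 0 n a a
      rwa [zero_smul, zero_mul] at h4
    rw [h3] at h2
    exact lt_irrefl _ h2
  set m := a + b with hmdef
  have hnm : ‖nrm m‖ = 1 := norm_nrm hm0
  have hpos : 0 < ‖m‖⁻¹ := inv_pos.2 (norm_pos_iff.2 hm0)
  have h1 : det3 n c (nrm m) = 0 := by
    unfold nrm
    rw [det3_smul3, h0, mul_zero]
  have h2 : ⟪n, nrm m⟫ = 0 := by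
    unfold nrm
    rw [real_inner_smul_right, hm, mul_zero]
  rcases (det3_eq_zero_iff h.n1 (h.unit c hc) hnm (h.perp c hc) h2).1 h1 with h3 | h3
  · refine hab.no c hc ⟨?_, ?_⟩
    · rw [h3, nrm, det3_smul3]
      exact mul_pos hpos hmid.1
    · rw [h3, nrm, det3_smul2]
      exact mul_pos hpos hmid.2
  · refine hab.no (-c) (h.anti c hc) ⟨?_, ?_⟩
    · rw [h3, neg_neg, nrm, det3_smul3]
      exact mul_pos hpos hmid.1
    · rw [h3, neg_neg, nrm, det3_smul2]
      exact mul_pos hpos hmid.2

private theorem GRef_add {n : E} {V : Set E} (h : CSet n V) {a c b : E} (ha : a ∈ V)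
    (hc : c ∈ V) (hb : b ∈ V) (hab : 0 < det3 n a b) (hm : Betw n a c b) :
    GRef_chain n V a b = GRef_chain n V a c + GRef_chain n V c b := by
  have pa := h.perp a ha
  have pb := h.perp b hb
  have pc := h.perp c hc
  have h1 : GRef_S n V a b = GRef_S n V a c ∪ GRef_S n V c b := by
    ext e
    constructor
    · rintro ⟨he1, he2⟩
      have hne := GRef_ne h hc he1
      rcases Betw.split pa pc (GRef_perp h he1) pb hab hm he2 hne with h2 | h2
      · exact Or.inl ⟨he1, h2⟩
      · exact Or.inr ⟨he1, h2⟩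
    · rintro (⟨he1, he2⟩ | ⟨he1, he2⟩)
      · exact ⟨he1, Betw.trans_left pa pc (GRef_perp h he1) pb hab hm he2⟩
      · exact ⟨he1, Betw.trans_right pa pc (GRef_perp h he1) pb hab hm he2⟩
  have h2 : Disjoint (GRef_S n V a c) (GRef_S n V c b) := by
    rw [Set.disjoint_left]
    rintro e ⟨-, he⟩ ⟨-, he'⟩
    have h3 := he.2
    have h4 := he'.1
    rw [det3_swap23] at h3
    linarith
  unfold GRef_chain
  rw [h1, finsum_mem_union h2 (GRef_fin h a c) (GRef_fin h c b)]

private theorem GRef_step {n a c b : E} (ha : ‖a‖ = 1) (hb : ‖b‖ = 1) (hc : ‖c‖ = 1)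
    (pa : ⟪n, a⟫ = 0) (pc : ⟪n, c⟫ = 0) (pb : ⟪n, b⟫ = 0) (hab : 0 < det3 n a b)
    (hm : Betw n a c b) :
    SubStep {(a, b)} (({(a, c)} : Multiset (E × E)) + {(c, b)}) := by
  obtain ⟨s, t, hs, ht, hcomb⟩ := Betw.exists_comb pa pc pb hab hm
  have hst : 0 < s + t := by linarith
  have h1 : (1 - t / (s + t)) • a + (t / (s + t)) • b = (s + t)⁻¹ • c := by
    rw [hcomb, smul_add, smul_smul, smul_smul]
    congr 2
    · field_simp
      ring
    · field_simp
  have h2 : nrm ((1 - t / (s + t)) • a + (t / (s + t)) • b) = c := by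
    rw [h1, nrm_smul (inv_pos.2 hst), nrm_of_unit hc]
  have hlt : ‖a - b‖ < 2 := by
    have h3 : ‖a - b‖ ≤ 2 := by
      have := norm_sub_le a b
      rw [ha, hb] at this
      linarith
    refine lt_of_le_of_ne h3 fun h4 => ?_
    have h5 := norm_sub_sq_real a b
    rw [h4, ha, hb] at h5
    have h6 : 1 + ⟪a, b⟫ = 0 := by linarith
    have h7 := (unit_antipodal ha hb).1 h6
    rw [h7, det3_neg2, det3_self23, neg_zero] at hab
    exact lt_irrefl _ hab
  refine ⟨a, b, 0, t / (s + t), ⟨by positivity, ?_⟩, ha, hb, hlt, rfl, ?_⟩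
  · rw [div_le_one hst]
    linarith
  · rw [h2]
    rfl

private theorem GRef_sub {n : E} {V : Set E} (h : CSet n V) {x y : E} (hx : x ∈ V) (hy : y ∈ V)
    (hxy : 0 < det3 n x y) : Relation.ReflTransGen SubStep {(x, y)} (GRef_chain n V x y) := by
  refine h.arc_induction
    (fun x y => Relation.ReflTransGen SubStep {(x, y)} (GRef_chain n V x y)) ?_ ?_ x hx y hy hxy
  · intro a b hab
    rw [GRef_nxt h hab]
  · intro a c b ha hc hb hab hm h1 h2
    rw [GRef_add h ha hc hb hab hm]
    exact (Relation.ReflTransGen.single (GRef_step (h.unit a ha) (h.unit b hb) (h.unit c hc)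
      (h.perp a ha) (h.perp c hc) (h.perp b hb) hab hm)).trans (GRef_radd h1 h2)

theorem bd_refine {N N' : Finset E} (hN : IsArr N) (hN' : IsArr N') (hNN : N ⊆ N') {u : E → ℤ}
    (hu : Fn N u) : Relation.ReflTransGen SubStep (bd N u) (bd N' u) := by
  have hchain : bd N' u = ∑ e ∈ edg N,
      ((Je u e).toNat • GRef_chain e.1 (VertOn N' e.1) e.2.1 e.2.2 +
        (-Je u e).toNat • (GRef_chain e.1 (VertOn N' e.1) e.2.1 e.2.2).map Prod.swap) := by
    refine sum_edges_refine hN hN' hNN
      (fun n a b => Multiset.replicate (Je u (n, a, b)).toNat (a, b) +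
        Multiset.replicate (-Je u (n, a, b)).toNat (b, a))
      (fun n a b x y => (Je u (n, a, b)).toNat • GRef_chain n (VertOn N' n) x y +
        (-Je u (n, a, b)).toNat • (GRef_chain n (VertOn N' n) x y).map Prod.swap) ?_ ?_ ?_
    · intro n a b h hn
      have h1 : Je u (n, a, b) = 0 := Jmp_new hN hN' hNN hu hn (h.mid hN').1
      simp [h1]
    · intro n a b a' b' h h' hb
      have h1 : Je u (n, a', b') = Je u (n, a, b) := by
        refine Jmp_edge hN hu h ?_ hb
        rw [inner_add_right, h'.na, h'.nb, add_zero]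
      have hcs := hN'.cset h'.mem
      have h2 := GRef_nxt hcs ((isEdge_iff hN').1 h').2
      simp only [h1, h2, Multiset.nsmul_singleton, Multiset.map_singleton, Prod.swap_prod_mk]
    · intro n a b h x c y hx hc hy hxy hm
      have hcs := hN'.cset (hNN h.mem)
      simp only [GRef_add hcs hx hc hy hxy hm, Multiset.map_add, smul_add]
      abel
  rw [hchain]
  unfold bd
  refine GRef_rsum _ _ _ fun e he => ?_
  have hE := (mem_edg hN).1 he
  have hcs := hN'.cset (hNN hE.mem)
  have ha : e.2.1 ∈ VertOn N' e.1 := ⟨Vert_mono hNN hE.va, hE.na⟩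
  have hb : e.2.2 ∈ VertOn N' e.1 := ⟨Vert_mono hNN hE.vb, hE.nb⟩
  have h1 := GRef_sub hcs ha hb hE.pos
  have h2 := GRef_rswap h1
  rw [Multiset.map_singleton, Prod.swap_prod_mk] at h2
  rw [← Multiset.nsmul_singleton, ← Multiset.nsmul_singleton]
  exact GRef_radd (GRef_rsmul h1 _) (GRef_rsmul h2 _)

end CGA
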