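import Pool.Agent.CGA.GBalB
import Pool.Agent.CGA.AThS

/-! PROJECT CGA, module GSt1: the Stokes function is constant on chambers.

For a generic unit p and an edge (n,a,b) of N: det3 (-p) a b = - ⟪p, crs a b⟫ ≠ 0 since crs a b = det3 n a b • n.  So Th (-p) b a = - Th (-p) a b (Th_swap) and by bd_sum
W p = u p + Σ_e Je u e * Th (-p) a b.  For p, p' in the same chamber let p_t = nrm((1-t)p+tp') (generic, same chamber).  By Th_apex (q = -p_t, q' = -p, q ≠ -q' because p_t ≠ -p: some ⟪n,.⟫ has the same sign) applied to all darts of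
the balanced multiset bd N u, Σ_bd Th(-p_t,.) - Σ_bd Th(-p,.) is an integer (Σ g(b) - g(a) = 0 as map fst = map snd); it is continuous in t (continuousAt_Th, mem_slitPlane_of_det) and 0 at t = 0, so it is 0 at t = 1. -/

set_option linter.all false

namespace CGA

open scoped RealInnerProductSpace Real Topology
open MeasureTheory Set Filter

private theorem GSt1_det {N : Finset E} (hN : IsArr N) {n a b x : E} (h : IsEdge N n a b)
    (hx : ⟪n, x⟫ ≠ 0) : det3 x a b ≠ 0 := by
  rw [det3_eq_inner, crs_eq_smul (hN.unit n h.mem) h.na h.nb, real_inner_smul_right,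
    real_inner_comm]
  exact mul_ne_zero h.pos.ne' hx

private theorem GSt1_gen {N : Finset E} {p : E} (hg : Gen N p) : Gen N (-p) := by
  intro n hn
  rw [inner_neg_right]
  exact neg_ne_zero.2 (hg n hn)

theorem Wst_eq_sum {N : Finset E} (hN : IsArr N) (u : E → ℤ) {p : E} (hp : ‖p‖ = 1)
    (hg : Gen N p) : Wst N u p = u p + ∑ e ∈ edg N, (Je u e : ℝ) * Th (-p) e.2.1 e.2.2 := by
  unfold Wst
  have h1 := bd_sum hN u (fun e : E × E => Th (-p) e.1 e.2) (fun n a b h =>
    Th_swap (GSt1_det hN h (GSt1_gen hg n h.mem)))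
  rw [h1]
  congr 1
  refine Finset.sum_congr rfl fun e _ => ?_
  rw [zsmul_eq_mul]

private theorem GSt1_dart {N : Finset E} (hN : IsArr N) {u : E → ℤ} {d : E × E}
    (hd : d ∈ bd N u) : ∃ n ∈ N, ⟪n, d.1⟫ = 0 ∧ ⟪n, d.2⟫ = 0 ∧ ‖d.1‖ = 1 ∧ ‖d.2‖ = 1 ∧
      d.1 ≠ -d.2 ∧ ∀ x : E, ⟪n, x⟫ ≠ 0 → det3 x d.1 d.2 ≠ 0 := by
  obtain ⟨n, ⟨h, -⟩ | ⟨h, -⟩⟩ := mem_bd hN hd
  · refine ⟨n, h.mem, h.na, h.nb, h.unit.1, h.unit.2, ?_, fun x hx => GSt1_det hN h hx⟩
    intro h0
    have h1 := h.pos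
    rw [h0, det3_neg2, det3_self23, neg_zero] at h1
    exact lt_irrefl _ h1
  · refine ⟨n, h.mem, h.nb, h.na, h.unit.2, h.unit.1, ?_, fun x hx => ?_⟩
    · intro h0
      have h1 := h.pos
      rw [h0, det3_neg3, det3_self23, neg_zero] at h1
      exact lt_irrefl _ h1
    · have h1 := GSt1_det hN h hx
      rw [det3_swap23]
      exact neg_ne_zero.2 h1

private theorem GSt1_int (s : Multiset (E × E)) (φ ψ : E × E → ℝ)
    (h : ∀ e ∈ s, ∃ k : ℤ, φ e = ψ e + k) : ∃ K : ℤ, (s.map φ).sum = (s.map ψ).sum + K := by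
  induction s using Multiset.induction_on with
  | empty => exact ⟨0, by simp⟩
  | cons a s ih =>
    obtain ⟨K, hK⟩ := ih fun e he => h e (Multiset.mem_cons_of_mem he)
    obtain ⟨k, hk⟩ := h a (Multiset.mem_cons_self a s)
    refine ⟨k + K, ?_⟩
    rw [Multiset.map_cons, Multiset.map_cons, Multiset.sum_cons, Multiset.sum_cons, hK, hk]
    push_cast
    ring

private theorem GSt1_sub (s : Multiset (E × E)) (φ ψ : E × E → ℝ) :
    (s.map fun e => φ e - ψ e).sum = (s.map φ).sum - (s.map ψ).sum := by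
  induction s using Multiset.induction_on with
  | empty => simp
  | cons a s ih =>
    rw [Multiset.map_cons, Multiset.map_cons, Multiset.map_cons, Multiset.sum_cons,
      Multiset.sum_cons, Multiset.sum_cons, ih]
    ring

private theorem GSt1_cont (s : Multiset (E × E)) (f : E × E → ℝ → ℝ) (S : Set ℝ)
    (h : ∀ e ∈ s, ContinuousOn (f e) S) :
    ContinuousOn (fun t => (s.map fun e => f e t).sum) S := by
  induction s using Multiset.induction_on with
  | empty =>
    simp only [Multiset.map_zero, Multiset.sum_zero]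
    exact continuousOn_const
  | cons a s ih =>
    simp only [Multiset.map_cons, Multiset.sum_cons]
    exact (h a (Multiset.mem_cons_self a s)).add
      (ih fun e he => h e (Multiset.mem_cons_of_mem he))

private theorem GSt1_ivt {G : ℝ → ℝ} (hc : ContinuousOn G (Icc 0 1)) (h0 : G 0 = 0)
    (hi : ∀ t ∈ Icc (0:ℝ) 1, ∃ k : ℤ, G t = k) : G 1 = 0 := by
  obtain ⟨K, hK⟩ := hi 1 ⟨zero_le_one, le_rfl⟩
  rcases lt_trichotomy K 0 with h | h | h
  · exfalso
    have h1 : (K : ℝ) ≤ -1 := by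
      have : K ≤ -1 := by omega
      exact_mod_cast this
    have h2 := intermediate_value_Icc' (zero_le_one (α := ℝ)) hc
    obtain ⟨t, ht, hGt⟩ := h2 (show (-(1/2) : ℝ) ∈ Icc (G 1) (G 0) by
      rw [h0, hK]
      constructor <;> linarith)
    obtain ⟨k, hk⟩ := hi t ht
    rw [hk] at hGt
    have h3 : (2 * k : ℝ) = -1 := by linarith
    have h4 : 2 * k = -1 := by exact_mod_cast h3
    omega
  · rw [hK, h, Int.cast_zero]
  · exfalso
    have h1 : (1 : ℝ) ≤ K := by
      have : 1 ≤ K := by omega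
      exact_mod_cast this
    have h2 := intermediate_value_Icc (zero_le_one (α := ℝ)) hc
    obtain ⟨t, ht, hGt⟩ := h2 (show ((1/2) : ℝ) ∈ Icc (G 0) (G 1) by
      rw [h0, hK]
      constructor <;> linarith)
    obtain ⟨k, hk⟩ := hi t ht
    rw [hk] at hGt
    have h3 : (2 * k : ℝ) = 1 := by linarith
    have h4 : 2 * k = 1 := by exact_mod_cast h3
    omega

theorem Wst_chamber {N : Finset E} (hN : IsArr N) {u : E → ℤ} (hu : Fn N u) {p p' : E}
    (hp : ‖p‖ = 1) (hp' : ‖p'‖ = 1) (hg : Gen N p) (hg' : Gen N p')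
    (hs : ∀ n ∈ N, 0 < ⟪n, p⟫ * ⟪n, p'⟫) : Wst N u p = Wst N u p' := by
  have hup : u p = u p' := hu p p' hs
  -- the path
  have hv : ∀ t ∈ Icc (0:ℝ) 1, ∀ n ∈ N, 0 < ⟪n, p⟫ * ⟪n, (1 - t) • p + t • p'⟫ := by
    intro t ht n hn
    rw [inner_add_right, real_inner_smul_right, real_inner_smul_right]
    have h1 := hs n hn
    have h2 : 0 < ⟪n, p⟫ * ⟪n, p⟫ := mul_self_pos.2 (hg n hn)
    rcases eq_or_lt_of_le ht.1 with h3 | h3
    · rw [← h3]
      simpa using h2
    · nlinarith [mul_pos h3 h1, mul_nonneg (sub_nonneg.2 ht.2) h2.le]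
  have hv0 : ∀ t ∈ Icc (0:ℝ) 1, (1 - t) • p + t • p' ≠ 0 := by
    intro t ht h0
    obtain ⟨n, hn⟩ := hN.nonempty
    have h1 := hv t ht n hn
    rw [h0, inner_zero_right, mul_zero] at h1
    exact lt_irrefl _ h1
  set P : ℝ → E := fun t => nrm ((1 - t) • p + t • p') with hP
  have hPn : ∀ t ∈ Icc (0:ℝ) 1, ∀ n ∈ N, 0 < ⟪n, p⟫ * ⟪n, P t⟫ := by
    intro t ht n hn
    have h1 := hv t ht n hn
    have h2 : 0 < ‖(1 - t) • p + t • p'‖⁻¹ := inv_pos.2 (norm_pos_iff.2 (hv0 t ht))
    simp only [hP, nrm, real_inner_smul_right]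
    have h3 := mul_pos h2 h1
    linarith [h3, mul_left_comm ⟪n, p⟫ ‖(1 - t) • p + t • p'‖⁻¹ ⟪n, (1 - t) • p + t • p'⟫]
  have hPg : ∀ t ∈ Icc (0:ℝ) 1, ∀ n ∈ N, ⟪n, P t⟫ ≠ 0 := by
    intro t ht n hn h0
    have h1 := hPn t ht n hn
    rw [h0, mul_zero] at h1
    exact lt_irrefl _ h1
  have hP1 : ∀ t ∈ Icc (0:ℝ) 1, ‖P t‖ = 1 := fun t ht => norm_nrm (hv0 t ht)
  have hP0 : P 0 = p := by
    simp only [hP, sub_zero, one_smul, zero_smul, add_zero]
    exact nrm_of_unit hp
  have hPe : P 1 = p' := by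
    simp only [hP, sub_self, one_smul, zero_smul, zero_add]
    exact nrm_of_unit hp'
  have hPc : ContinuousOn P (Icc 0 1) := by
    refine continuousOn_nrm.comp (Continuous.continuousOn (by fun_prop)) fun t ht => hv0 t ht
  set F : ℝ → ℝ := fun t => ((bd N u).map fun e => Th (-P t) e.1 e.2).sum with hF
  have hFc : ContinuousOn F (Icc 0 1) := by
    refine GSt1_cont (bd N u) (fun e t => Th (-P t) e.1 e.2) _ fun e he => ?_
    obtain ⟨n, hn, -, -, -, -, -, hdet⟩ := GSt1_dart hN he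
    intro t ht
    have h1 : det3 (-P t) e.1 e.2 ≠ 0 := hdet _ (by
      rw [inner_neg_right]
      exact neg_ne_zero.2 (hPg t ht n hn))
    have h2 := continuousAt_Th (mem_slitPlane_of_det h1)
    have h3 : ContinuousWithinAt (fun t => ((-P t, e.1, e.2) : E × E × E)) (Icc 0 1) t :=
      (hPc t ht).neg.prodMk (continuousWithinAt_const.prodMk continuousWithinAt_const)
    exact ContinuousAt.comp_continuousWithinAt (g := fun p : E × E × E => Th p.1 p.2.1 p.2.2)
      (f := fun t => ((-P t, e.1, e.2) : E × E × E)) h2 h3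
  have hint : ∀ t ∈ Icc (0:ℝ) 1, ∃ k : ℤ, F t - F 0 = k := by
    intro t ht
    obtain ⟨n0, hn0⟩ := hN.nonempty
    have hqq : (-P t) ≠ -(-p) := by
      intro h0
      have h1 := hPn t ht n0 hn0
      have h2 : P t = -p := by
        rw [neg_neg] at h0
        rw [← h0, neg_neg]
      rw [h2, inner_neg_right] at h1
      nlinarith [mul_self_nonneg ⟪n0, p⟫]
    obtain ⟨g, hgx⟩ := Th_apex (q := -P t) (q' := -p) (by rw [norm_neg, hP1 t ht])
      (by rw [norm_neg, hp]) hqq
    have h1 : ∀ e ∈ bd N u, ∃ k : ℤ, Th (-P t) e.1 e.2 - Th (-p) e.1 e.2 =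
        (g e.2 - g e.1) + k := by
      intro e he
      obtain ⟨n, hn, ha, hb, ha1, hb1, hab, -⟩ := GSt1_dart hN he
      refine hgx e.1 e.2 ha1 hb1 ?_ ?_ ?_ ?_ hab
      · rw [neg_neg]
        intro h0
        rw [h0] at ha
        exact hPg t ht n hn ha
      · rw [neg_neg]
        intro h0
        rw [h0] at ha
        exact hg n hn ha
      · rw [neg_neg]
        intro h0
        rw [h0] at hb
        exact hPg t ht n hn hb
      · rw [neg_neg]
        intro h0
        rw [h0] at hb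
        exact hg n hn hb
    obtain ⟨K, hK⟩ := GSt1_int (bd N u) (fun e => Th (-P t) e.1 e.2 - Th (-p) e.1 e.2)
      (fun e => g e.2 - g e.1) h1
    refine ⟨K, ?_⟩
    rw [GSt1_sub, GSt1_sub] at hK
    have h2 : ((bd N u).map fun e => g e.2).sum = ((bd N u).map fun e => g e.1).sum := by
      have h3 := congrArg (fun s : Multiset E => (s.map g).sum) (bd_balanced hN hu)
      simp only [Multiset.map_map, Function.comp_def] at h3
      exact h3.symm
    rw [h2, sub_self, zero_add] at hK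
    simp only [hF, hP0]
    exact hK
  have hfin := GSt1_ivt (G := fun t => F t - F 0) (hFc.sub continuousOn_const) (sub_self _) hint
  have h5 : F 1 = F 0 := sub_eq_zero.1 hfin
  simp only [hF, hP0, hPe] at h5
  unfold Wst
  rw [hup, h5]

end CGA
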