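import Pool.Agent.CGA.GSt1
import Pool.Agent.CGA.GConn
import Pool.Agent.CGA.AThJ

/-! PROJECT CGA, module GSt2: Stokes' formula: the function Wst N u is constant on generic unit vectors.

Apply gen_connected to W p := Wst N u (nrm p).  h1: Wst_chamber.  h2: for OnG N n m: for small ε both points nrm (m ± εn) are generic and stay in one chamber each, so W(m+εn) - W(m-εn) is constant for small ε; by Wst_eq_sum
it is u(m+εn) - u(m-εn) + Σ_e Je u e (Th(-nrm(m+εn)) a b - Th(-nrm(m-εn)) a b).  (u (nrm x) = u x for generic x.)  The first difference is Jmp u n m.  For the edges e = (k,a,b): if k ≠ n then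
det3 m a b = det3 k a b ⟪k, m⟫ ≠ 0 and the difference tends to 0 (Th_jump_off); if k = n and e is the edge containing m, it tends to -1 (Th_jump_in) and Je u e = Jmp u n m; for the other edges with k = n it tends to 0
(Th_jump_out; if 0 ≤ [a m] and 0 ≤ [m b] then, since det3 n v m ≠ 0 for all vertices v on the circle, m is between a and b, so e is the edge containing m). -/

set_option linter.all false

namespace CGA

open scoped RealInnerProductSpace Real Topology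
open MeasureTheory Set Filter

private theorem gst2_inner_nrm {x : E} (n : E) : ⟪n, nrm x⟫ = ‖x‖⁻¹ * ⟪n, x⟫ := by
  unfold nrm
  rw [inner_smul_right]

private theorem gst2_u {N : Finset E} (hN : IsArr N) {u : E → ℤ} (hu : Fn N u) {x : E}
    (hx : Gen N x) : u (nrm x) = u x := by
  have hp : 0 < ‖x‖⁻¹ := inv_pos.2 (norm_pos_iff.2 (hx.ne_zero hN))
  refine hu _ _ fun n hn => ?_
  rw [gst2_inner_nrm]
  have h1 : ‖x‖⁻¹ * ⟪n, x⟫ * ⟪n, x⟫ = ‖x‖⁻¹ * (⟪n, x⟫ * ⟪n, x⟫) := by ring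
  rw [h1]
  exact mul_pos hp (mul_self_pos.2 (hx n hn))

private theorem gst2_chamber {N : Finset E} (hN : IsArr N) {u : E → ℤ} (hu : Fn N u) :
    ∀ p p', Gen N p → Gen N p' → (∀ n ∈ N, 0 < ⟪n, p⟫ * ⟪n, p'⟫) →
      Wst N u (nrm p) = Wst N u (nrm p') := by
  intro p p' hp hp' hs
  refine Wst_chamber hN hu (norm_nrm (hp.ne_zero hN)) (norm_nrm (hp'.ne_zero hN))
    (gen_nrm hN hp) (gen_nrm hN hp') fun n hn => ?_
  rw [gst2_inner_nrm, gst2_inner_nrm]
  have h1 : 0 < ‖p‖⁻¹ := inv_pos.2 (norm_pos_iff.2 (hp.ne_zero hN))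
  have h2 : 0 < ‖p'‖⁻¹ := inv_pos.2 (norm_pos_iff.2 (hp'.ne_zero hN))
  have h3 : ‖p‖⁻¹ * ⟪n, p⟫ * (‖p'‖⁻¹ * ⟪n, p'⟫) = ‖p‖⁻¹ * ‖p'‖⁻¹ * (⟪n, p⟫ * ⟪n, p'⟫) := by ring
  rw [h3]
  exact mul_pos (mul_pos h1 h2) (hs n hn)

/-- the sides of a generic point of a circle -/
private theorem gst2_side {N : Finset E} (hN : IsArr N) {n m : E} (h : OnG N n m) :
    ∃ δ > 0, ∀ s : ℝ, |s| < δ → ∀ k ∈ N, k ≠ n → 0 < ⟪k, m + s • n⟫ * ⟪k, m⟫ := by
  have h1 : ∀ᶠ s in 𝓝 (0 : ℝ), ∀ k ∈ N, k ≠ n → 0 < ⟪k, m + s • n⟫ * ⟪k, m⟫ := by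
    rw [Filter.eventually_all_finset]
    intro k hk
    by_cases hkn : k = n
    · exact Filter.Eventually.of_forall fun s h => absurd hkn h
    · have hc : Continuous fun s : ℝ => ⟪k, m + s • n⟫ * ⟪k, m⟫ := by fun_prop
      have hp : 0 < ⟪k, m + (0 : ℝ) • n⟫ * ⟪k, m⟫ := by
        rw [zero_smul, add_zero]
        exact mul_self_pos.2 (h.gen k hk hkn)
      filter_upwards [hc.continuousAt.eventually (lt_mem_nhds hp)] with s hs _
      exact hs
  rw [Metric.eventually_nhds_iff] at h1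
  obtain ⟨δ, hδ, h2⟩ := h1
  exact ⟨δ, hδ, fun s hs => h2 (by rwa [Real.dist_eq, sub_zero])⟩

private theorem gst2_sgn {x m v : ℝ} (h1 : 0 < x * v) (h2 : 0 < m * v) : 0 < x * m := by
  rcases mul_pos_iff.1 h1 with ⟨a, b⟩ | ⟨a, b⟩
  · rcases mul_pos_iff.1 h2 with ⟨c, d⟩ | ⟨c, d⟩
    · exact mul_pos a c
    · linarith
  · rcases mul_pos_iff.1 h2 with ⟨c, d⟩ | ⟨c, d⟩
    · linarith
    · exact mul_pos_of_neg_of_neg a c

private theorem gst2_ncoord {n m : E} (hn : ‖n‖ = 1) (hnm : ⟪n, m⟫ = 0) (s : ℝ) :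
    ⟪n, m + s • n⟫ = s := by
  rw [inner_add_right, hnm, inner_smul_right, real_inner_self_eq_norm_sq, hn]
  ring

open Classical in
/-- the limit of the edge terms -/
private theorem gst2_edge {N : Finset E} (hN : IsArr N) {n m : E} (h : OnG N n m) {e : E × E × E}
    (he : e ∈ edg N) :
    Tendsto (fun ε : ℝ => Th (- nrm (m + ε • n)) e.2.1 e.2.2 - Th (- nrm (m - ε • n)) e.2.1 e.2.2)
      (𝓝[>] 0) (𝓝 (if e.1 = n ∧ Betw n e.2.1 m e.2.2 then (-1 : ℝ) else 0)) := by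
  obtain ⟨k, a, b⟩ := e
  have hE : IsEdge N k a b := (mem_edg hN).1 he
  have hm0 : m ≠ 0 := h.ne_zero hN
  have hn1 : ‖n‖ = 1 := hN.unit n h.mem
  obtain ⟨ha, hb⟩ := hE.unit
  change Tendsto (fun ε : ℝ => Th (- nrm (m + ε • n)) a b - Th (- nrm (m - ε • n)) a b)
      (𝓝[>] 0) (𝓝 (if k = n ∧ Betw n a m b then (-1 : ℝ) else 0))
  by_cases hk : k = n
  · subst hk
    by_cases hB : Betw k a m b
    · rw [if_pos ⟨rfl, hB⟩]
      exact Th_jump_in hn1 ha hb hE.na hE.nb h.perp hE.pos hB.1 hB.2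
    · rw [if_neg (fun hh => hB hh.2)]
      refine Th_jump_out hn1 ha hb hE.na hE.nb h.perp hm0 hE.pos ?_
      rintro ⟨h1, h2⟩
      have h3 : det3 k a m ≠ 0 := h.det3_ne_zero hN ⟨hE.va, hE.na⟩
      have h4 : det3 k b m ≠ 0 := h.det3_ne_zero hN ⟨hE.vb, hE.nb⟩
      have h5 : det3 k m b ≠ 0 := by
        rw [det3_swap23]
        exact neg_ne_zero.2 h4
      exact hB ⟨lt_of_le_of_ne h1 (Ne.symm h3), lt_of_le_of_ne h2 (Ne.symm h5)⟩
  · rw [if_neg (fun hh => hk hh.1)]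
    refine Th_jump_off hn1 ha hb hm0 ?_
    rw [det3_eq_inner, crs_eq_smul (hN.unit k hE.mem) hE.na hE.nb, inner_smul_right,
      real_inner_comm]
    exact mul_ne_zero hE.pos.ne' (h.gen k hE.mem hk)

private theorem gst2_wall {N : Finset E} (hN : IsArr N) {u : E → ℤ} (hu : Fn N u) {n m : E}
    (h : OnG N n m) :
    ∀ᶠ ε in 𝓝[>] (0:ℝ), Wst N u (nrm (m + ε • n)) = Wst N u (nrm (m - ε • n)) := by
  classical
  have hn1 : ‖n‖ = 1 := hN.unit n h.mem
  obtain ⟨δ, hδ, hs⟩ := gst2_side hN h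
  have hgen : ∀ s : ℝ, s ≠ 0 → |s| < δ → Gen N (m + s • n) := by
    intro s hs0 hsδ k hk hk0
    by_cases hkn : k = n
    · rw [hkn, gst2_ncoord hn1 h.perp] at hk0
      exact hs0 hk0
    · have := hs s hsδ k hk hkn
      rw [hk0, zero_mul] at this
      exact lt_irrefl _ this
  have hconst : ∀ s s' : ℝ, |s| < δ → |s'| < δ → 0 < s * s' →
      Wst N u (nrm (m + s • n)) = Wst N u (nrm (m + s' • n)) := by
    intro s s' h1 h2 h3
    have hs0 : s ≠ 0 := by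
      rintro rfl
      rw [zero_mul] at h3
      exact lt_irrefl _ h3
    have hs0' : s' ≠ 0 := by
      rintro rfl
      rw [mul_zero] at h3
      exact lt_irrefl _ h3
    refine gst2_chamber hN hu _ _ (hgen s hs0 h1) (hgen s' hs0' h2) fun k hk => ?_
    by_cases hkn : k = n
    · rw [hkn, gst2_ncoord hn1 h.perp, gst2_ncoord hn1 h.perp]
      exact h3
    · exact gst2_sgn (hs s h1 k hk hkn) (hs s' h2 k hk hkn)
  have hsub : ∀ ε : ℝ, m - ε • n = m + (-ε) • n := fun ε => by rw [neg_smul, sub_eq_add_neg]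
  have hδ2 : |δ / 2| < δ := by rw [abs_of_pos (by positivity)]; linarith
  have hδ2' : |-(δ / 2)| < δ := by rw [abs_neg]; exact hδ2
  obtain ⟨c₁, hc₁⟩ : ∃ c, c = Wst N u (nrm (m + (δ / 2) • n)) := ⟨_, rfl⟩
  obtain ⟨c₂, hc₂⟩ : ∃ c, c = Wst N u (nrm (m + (-(δ / 2)) • n)) := ⟨_, rfl⟩
  have hev : ∀ᶠ ε in 𝓝[>] (0:ℝ), Wst N u (nrm (m + ε • n)) = c₁ ∧
      Wst N u (nrm (m - ε • n)) = c₂ := by
    filter_upwards [Ioo_mem_nhdsGT hδ] with ε hε
    have h1 : |ε| < δ := by rw [abs_of_pos hε.1]; exact hε.2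
    refine ⟨?_, ?_⟩
    · rw [hc₁]
      exact hconst _ _ h1 hδ2 (mul_pos hε.1 (by positivity))
    · rw [hc₂, hsub]
      refine hconst _ _ (by rw [abs_neg]; exact h1) hδ2' ?_
      rw [neg_mul_neg]
      exact mul_pos hε.1 (by positivity)
  -- the limit of the difference
  obtain ⟨a₀, b₀, hE₀, hB₀⟩ := h.exists_edge hN
  have hlim : Tendsto (fun ε : ℝ => (Jmp u n m : ℝ) + ∑ e ∈ edg N, (Je u e : ℝ) *
      (Th (- nrm (m + ε • n)) e.2.1 e.2.2 - Th (- nrm (m - ε • n)) e.2.1 e.2.2)) (𝓝[>] 0)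
      (𝓝 ((Jmp u n m : ℝ) + ∑ e ∈ edg N, (Je u e : ℝ) *
        (if e.1 = n ∧ Betw n e.2.1 m e.2.2 then (-1 : ℝ) else 0))) :=
    tendsto_const_nhds.add (tendsto_finsetSum _ fun e he => (gst2_edge hN h he).const_mul _)
  have hzero : (Jmp u n m : ℝ) + ∑ e ∈ edg N, (Je u e : ℝ) *
        (if e.1 = n ∧ Betw n e.2.1 m e.2.2 then (-1 : ℝ) else 0) = 0 := by
    rw [Finset.sum_eq_single (n, a₀, b₀)]
    · rw [if_pos ⟨rfl, hB₀⟩]
      have h1 : Je u (n, a₀, b₀) = Jmp u n m := (Jmp_edge hN hu hE₀ h.perp hB₀).symm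
      rw [h1]
      ring
    · rintro ⟨k, a, b⟩ he hne
      rw [if_neg, mul_zero]
      rintro ⟨hk, hB⟩
      have hk' : k = n := hk
      subst hk'
      have hE : IsEdge N k a b := (mem_edg hN).1 he
      obtain ⟨h1, h2⟩ := IsEdge.unique hN h.perp hE hB hE₀ hB₀
      rw [h1, h2] at hne
      exact hne rfl
    · intro hne
      exact absurd ((mem_edg hN).2 hE₀) hne
  rw [hzero] at hlim
  have hD : ∀ᶠ ε in 𝓝[>] (0:ℝ), (Jmp u n m : ℝ) + ∑ e ∈ edg N, (Je u e : ℝ) *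
      (Th (- nrm (m + ε • n)) e.2.1 e.2.2 - Th (- nrm (m - ε • n)) e.2.1 e.2.2) = c₁ - c₂ := by
    filter_upwards [hev, sv_eventually hN hu h] with ε h1 h2
    obtain ⟨h3, h4, h5, h6⟩ := h2
    rw [← h1.1, ← h1.2, Wst_eq_sum hN u (norm_nrm (h5.ne_zero hN)) (gen_nrm hN h5),
      Wst_eq_sum hN u (norm_nrm (h6.ne_zero hN)) (gen_nrm hN h6), gst2_u hN hu h5,
      gst2_u hN hu h6, h3, h4]
    simp only [mul_sub, Finset.sum_sub_distrib, Jmp]
    push_cast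
    ring
  have hc : c₁ - c₂ = 0 :=
    tendsto_nhds_unique (tendsto_const_nhds.congr' (hD.mono fun ε h => h.symm)) hlim
  filter_upwards [hev] with ε h1
  rw [h1.1, h1.2]
  linarith

theorem stokes {N : Finset E} (hN : IsArr N) {u : E → ℤ} (hu : Fn N u) {p p' : E}
    (hp : ‖p‖ = 1) (hp' : ‖p'‖ = 1) (hg : Gen N p) (hg' : Gen N p') :
    Wst N u p = Wst N u p' := by
  have h := gen_connected hN (fun p => Wst N u (nrm p)) (gst2_chamber hN hu)
    (fun n m hnm => (gst2_wall hN hu hnm).frequently) p p' hg hg'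
  simp only [nrm_of_unit hp, nrm_of_unit hp'] at h
  exact h

end CGA
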