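import Pool.Agent.CGA.GCan

/-! PROJECT CGA, module GSuc1: successor on a finite antipodal subset of a great circle.

Write [a b] = det3 n a b for a, b in the plane n^⊥.  Plucker: [a b][c d] - [a c][b d] + [a d][b c] = 0
(apply det3 n · d to `det3_plane`).  P = {c ∈ V : 0 < [a c]} is finite and nonempty (some v ∈ V has [a v] ≠ 0, take ±v; such a v exists
because of `two`: if [a v] = [a w] = 0 for unit a then v, w are parallel).  On P the relation c ≺ c' :⟺ 0 < [c c'] is transitive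
([a c'][c c''] = [a c][c' c''] + [a c''][c c'], all in P) and total ([c c'] = 0 and both in P, unit ⇒ c = c').  b = minimum of P.
Previous point: Nxt n V a b ↔ Nxt (-n) V b a, CSet (-n) V. -/

set_option linter.all false

namespace CGA

open scoped RealInnerProductSpace Real Topology
open MeasureTheory Set Filter

/-- inner products with a point of the plane -/
private theorem GSuc1_inner {n a b c : E} (ha : ⟪n, a⟫ = 0) (hb : ⟪n, b⟫ = 0) (hc : ⟪n, c⟫ = 0)
    (m : E) : det3 n a b * ⟪m, c⟫ = det3 n c b * ⟪m, a⟫ + det3 n a c * ⟪m, b⟫ := by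
  have h1 := congrArg (fun x : E => ⟪m, x⟫) (det3_plane (d := c) ha hb hc)
  simp only [inner_add_right, real_inner_smul_right] at h1
  exact h1

theorem plucker {n a b c d : E} (ha : ⟪n, a⟫ = 0) (hb : ⟪n, b⟫ = 0) (hc : ⟪n, c⟫ = 0)
    (hd : ⟪n, d⟫ = 0) :
    det3 n a b * det3 n c d - det3 n a c * det3 n b d + det3 n a d * det3 n b c = 0 := by
  have _ := hd
  have h1 := congrArg (fun x : E => det3 n x d) (det3_plane (d := c) ha hb hc)
  rw [det3_smul2, det3_lin2, det3_swap23 n b c] at h1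
  linear_combination h1

/-- two unit vectors of the plane with `[a b] = 0` are equal or opposite -/
theorem det3_eq_zero_iff {n a b : E} (hn : ‖n‖ = 1) (ha : ‖a‖ = 1) (hb : ‖b‖ = 1)
    (hna : ⟪n, a⟫ = 0) (hnb : ⟪n, b⟫ = 0) : det3 n a b = 0 ↔ a = b ∨ a = -b := by
  constructor
  · intro h
    by_contra hcon
    rw [not_or] at hcon
    apply crs_ne_zero ha hb hcon.1 hcon.2
    rw [crs_eq_smul hn hna hnb, h, zero_smul]
  · rintro (h | h)
    · rw [h, det3_self23]
    · rw [h, det3_neg2, det3_self23, neg_zero]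

theorem CSet.neg {n : E} {V : Set E} (h : CSet n V) : CSet (-n) V := by
  refine ⟨by rw [norm_neg]; exact h.n1, h.fin, h.unit, ?_, h.anti, ?_⟩
  · intro v hv
    rw [inner_neg_left, h.perp v hv, neg_zero]
  · obtain ⟨v, hv, w, hw, hvw⟩ := h.two
    refine ⟨v, hv, w, hw, ?_⟩
    rw [det3_neg1]
    exact neg_ne_zero.2 hvw

theorem nxt_neg {n : E} {V : Set E} {a b : E} : Nxt (-n) V b a ↔ Nxt n V a b := by
  have e : ∀ x y : E, det3 (-n) x y = det3 n y x := by
    intro x y
    rw [det3_neg1, det3_swap23 n y x, neg_neg]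
  constructor
  · intro h
    refine ⟨h.mb, h.ma, by rw [← e]; exact h.pos, ?_⟩
    intro c hc h1
    apply h.no c hc
    rw [e, e]
    exact ⟨h1.2, h1.1⟩
  · intro h
    refine ⟨h.mb, h.ma, by rw [e]; exact h.pos, ?_⟩
    intro c hc h1
    rw [e, e] at h1
    exact h.no c hc ⟨h1.2, h1.1⟩

theorem CSet.exists_nxt {n : E} {V : Set E} (h : CSet n V) {a : E} (ha : a ∈ V) :
    ∃ b, Nxt n V a b := by
  classical
  have ha0 : a ≠ 0 := by
    intro h0
    have := h.unit a ha
    rw [h0, norm_zero] at this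
    exact zero_ne_one this
  have hfin : {c | c ∈ V ∧ 0 < det3 n a c}.Finite := h.fin.subset fun c hc => hc.1
  have hne : hfin.toFinset.Nonempty := by
    obtain ⟨v, hv, w, hw, hvw⟩ := h.two
    have h1 : det3 n a v ≠ 0 ∨ det3 n a w ≠ 0 := by
      by_contra hcon
      rw [not_or, not_not, not_not] at hcon
      have h2 := det3_plane (d := a) (h.perp v hv) (h.perp w hw) (h.perp a ha)
      rw [hcon.2, det3_swap23 n a v, hcon.1, neg_zero, zero_smul, zero_smul, add_zero] at h2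
      rcases smul_eq_zero.1 h2 with h3 | h3
      · exact hvw h3
      · exact ha0 h3
    have h2 : ∀ u ∈ V, det3 n a u ≠ 0 → ∃ c ∈ V, 0 < det3 n a c := by
      intro u hu hne
      rcases lt_or_gt_of_ne hne with h3 | h3
      · refine ⟨-u, h.anti u hu, ?_⟩
        rw [det3_neg3]
        linarith
      · exact ⟨u, hu, h3⟩
    rcases h1 with h1 | h1
    · obtain ⟨c, hc1, hc2⟩ := h2 v hv h1
      exact ⟨c, hfin.mem_toFinset.2 ⟨hc1, hc2⟩⟩
    · obtain ⟨c, hc1, hc2⟩ := h2 w hw h1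
      exact ⟨c, hfin.mem_toFinset.2 ⟨hc1, hc2⟩⟩
  obtain ⟨b, hb, hmax⟩ := Finset.exists_max_image hfin.toFinset
    (fun c => ⟪a, c⟫ / det3 n a c) hne
  rw [hfin.mem_toFinset] at hb
  refine ⟨b, ha, hb.1, hb.2, ?_⟩
  rintro c hc ⟨h1, h2⟩
  have h3 : ⟪a, c⟫ / det3 n a c ≤ ⟪a, b⟫ / det3 n a b := hmax c (hfin.mem_toFinset.2 ⟨hc, h1⟩)
  have hb2 : 0 < det3 n a b := hb.2
  rw [div_le_div_iff₀ h1 hb2] at h3
  have h4 := GSuc1_inner (h.perp a ha) (h.perp b hb.1) (h.perp c hc) a
  have h5 : ⟪a, a⟫ = 1 := by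
    rw [real_inner_self_eq_norm_sq, h.unit a ha, one_pow]
  rw [h5] at h4
  linarith

theorem CSet.nxt_unique {n : E} {V : Set E} (h : CSet n V) {a b b' : E} (h1 : Nxt n V a b)
    (h2 : Nxt n V a b') : b = b' := by
  have hub := h.unit b h1.mb
  have hub' := h.unit b' h2.mb
  have hpb := h.perp b h1.mb
  have hpb' := h.perp b' h2.mb
  rcases lt_trichotomy (det3 n b b') 0 with h3 | h3 | h3
  · exfalso
    apply h1.no b' h2.mb
    refine ⟨h2.pos, ?_⟩
    rw [det3_swap23]
    linarith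
  · rcases (det3_eq_zero_iff h.n1 hub hub' hpb hpb').1 h3 with h4 | h4
    · exact h4
    · exfalso
      have h5 := h1.pos
      rw [h4, det3_neg3] at h5
      linarith [h2.pos]
  · exact absurd ⟨h1.pos, h3⟩ (h2.no b h1.mb)

theorem CSet.exists_prev {n : E} {V : Set E} (h : CSet n V) {b : E} (hb : b ∈ V) :
    ∃ a, Nxt n V a b := by
  obtain ⟨a, ha⟩ := h.neg.exists_nxt hb
  exact ⟨a, nxt_neg.1 ha⟩

theorem CSet.prev_unique {n : E} {V : Set E} (h : CSet n V) {a a' b : E} (h1 : Nxt n V a b)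
    (h2 : Nxt n V a' b) : a = a' := by
  exact h.neg.nxt_unique (nxt_neg.2 h1) (nxt_neg.2 h2)

end CGA
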