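import Pool.Agent.CGA.GSuc1

/-! PROJECT CGA, module GSuc2: every generic point of the circle lies in exactly one arc (a, next a).

Existence: P = {v ∈ V : 0 < [v m]} is nonempty and finite; a = maximum of P for v ≺ v' :⟺ 0 < [v v'] (transitive and total on P as in GSuc1), b = next a.
If [m b] < 0 then b ∈ P and a ≺ b, contradiction.  Uniqueness: if 0 < [a a'] then by Plucker [a m][a' b] = [a a'][m b] + [a b][a' m] > 0, so a' lies strictly between
a and b, contradiction; symmetric. -/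

set_option linter.all false

namespace CGA

open scoped RealInnerProductSpace Real Topology
open MeasureTheory Set Filter

/-- inner products with a point of the plane -/
private theorem GSuc2_inner {n a b c : E} (ha : ⟪n, a⟫ = 0) (hb : ⟪n, b⟫ = 0) (hc : ⟪n, c⟫ = 0)
    (m : E) : det3 n a b * ⟪m, c⟫ = det3 n c b * ⟪m, a⟫ + det3 n a c * ⟪m, b⟫ := by
  have h1 := congrArg (fun x : E => ⟪m, x⟫) (det3_plane (d := c) ha hb hc)
  simp only [inner_add_right, real_inner_smul_right] at h1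
  exact h1

theorem Betw.trans_left {n a c m b : E} (ha : ⟪n, a⟫ = 0) (hc : ⟪n, c⟫ = 0) (hm : ⟪n, m⟫ = 0)
    (hb : ⟪n, b⟫ = 0) (hab : 0 < det3 n a b) (h : Betw n a c b) (h' : Betw n a m c) :
    Betw n a m b := by
  obtain ⟨h1, h2⟩ := h
  obtain ⟨h3, h4⟩ := h'
  refine ⟨h3, ?_⟩
  -- `[a c][m b] = [a m][c b] + [a b][m c]`
  have h5 := plucker ha hc hm hb
  rw [det3_swap23 n m c] at h5
  have h6 : det3 n a c * det3 n m b = det3 n a m * det3 n c b + det3 n a b * det3 n m c := by
    linear_combination h5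
  have h7 : 0 < det3 n a c * det3 n m b := by
    rw [h6]
    positivity
  exact (mul_pos_iff_of_pos_left h1).1 h7

theorem Betw.trans_right {n a c m b : E} (ha : ⟪n, a⟫ = 0) (hc : ⟪n, c⟫ = 0) (hm : ⟪n, m⟫ = 0)
    (hb : ⟪n, b⟫ = 0) (hab : 0 < det3 n a b) (h : Betw n a c b) (h' : Betw n c m b) :
    Betw n a m b := by
  obtain ⟨h1, h2⟩ := h
  obtain ⟨h3, h4⟩ := h'
  refine ⟨?_, h4⟩
  have h5 := plucker ha hc hm hb
  have h6 : det3 n a m * det3 n c b = det3 n a c * det3 n m b + det3 n a b * det3 n c m := by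
    linear_combination (-1 : ℝ) * h5
  have h7 : 0 < det3 n a m * det3 n c b := by
    rw [h6]
    positivity
  exact (mul_pos_iff_of_pos_right h2).1 h7

/-- a point of the arc different from `c` is on one side of `c` -/
theorem Betw.split {n a c m b : E} (ha : ⟪n, a⟫ = 0) (hc : ⟪n, c⟫ = 0) (hm : ⟪n, m⟫ = 0)
    (hb : ⟪n, b⟫ = 0) (hab : 0 < det3 n a b) (h : Betw n a c b) (h' : Betw n a m b)
    (hcm : det3 n c m ≠ 0) : Betw n a m c ∨ Betw n c m b := by
  rcases lt_or_gt_of_ne hcm with h1 | h1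
  · left
    refine ⟨h'.1, ?_⟩
    rw [det3_swap23]
    linarith
  · right
    exact ⟨h1, h'.2⟩

theorem betw_mid {n a b : E} (hab : 0 < det3 n a b) : Betw n a (a + b) b := by
  have e : a + b = (1 : ℝ) • a + (1 : ℝ) • b := by rw [one_smul, one_smul]
  constructor
  · rw [e, det3_lin3, det3_self23]
    linarith
  · rw [e, det3_lin2, det3_self23]
    linarith

theorem betw_pos_comb {n a b : E} (hab : 0 < det3 n a b) {s t : ℝ} (hs : 0 < s) (ht : 0 < t) :
    Betw n a (s • a + t • b) b := by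
  constructor
  · rw [det3_lin3, det3_self23, mul_zero, zero_add]
    positivity
  · rw [det3_lin2, det3_self23, mul_zero, add_zero]
    positivity

/-- a point between is a positive combination -/
theorem Betw.exists_comb {n a m b : E} (ha : ⟪n, a⟫ = 0) (hm : ⟪n, m⟫ = 0) (hb : ⟪n, b⟫ = 0)
    (hab : 0 < det3 n a b) (h : Betw n a m b) : ∃ s t : ℝ, 0 < s ∧ 0 < t ∧ m = s • a + t • b := by
  obtain ⟨h1, h2⟩ := h
  refine ⟨det3 n m b / det3 n a b, det3 n a m / det3 n a b, by positivity, by positivity, ?_⟩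
  have h3 := det3_plane (d := m) ha hb hm
  have h4 : m = (det3 n a b)⁻¹ • (det3 n a b • m) := by
    rw [smul_smul, inv_mul_cancel₀ hab.ne', one_smul]
  rw [h3, smul_add, smul_smul, smul_smul] at h4
  rw [div_eq_inv_mul, div_eq_inv_mul]
  exact h4

theorem CSet.exists_arc {n : E} {V : Set E} (h : CSet n V) {m : E} (hm : ⟪n, m⟫ = 0)
    (hgen : ∀ v ∈ V, det3 n v m ≠ 0) : ∃ a b, Nxt n V a b ∧ Betw n a m b := by
  classical
  obtain ⟨v, hv, w, hw, hvw⟩ := h.two
  have hm0 : m ≠ 0 := by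
    intro h0
    apply hgen v hv
    rw [h0]
    have := det3_smul3 0 n v 0
    rw [zero_smul, zero_mul] at this
    exact this
  have hfin : {c | c ∈ V ∧ 0 < det3 n c m}.Finite := h.fin.subset fun c hc => hc.1
  have hne : hfin.toFinset.Nonempty := by
    rcases lt_or_gt_of_ne (hgen v hv) with h1 | h1
    · refine ⟨-v, hfin.mem_toFinset.2 ⟨h.anti v hv, ?_⟩⟩
      rw [det3_neg2]
      linarith
    · exact ⟨v, hfin.mem_toFinset.2 ⟨hv, h1⟩⟩
  obtain ⟨a, ha, hmax⟩ := Finset.exists_max_image hfin.toFinset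
    (fun c => ⟪m, c⟫ / det3 n c m) hne
  rw [hfin.mem_toFinset] at ha
  have ham : 0 < det3 n a m := ha.2
  obtain ⟨b, hb⟩ := h.exists_nxt ha.1
  refine ⟨a, b, hb, ham, ?_⟩
  rcases lt_or_gt_of_ne (hgen b hb.mb) with h1 | h1
  · rw [det3_swap23]
    linarith
  · exfalso
    have h3 : ⟪m, b⟫ / det3 n b m ≤ ⟪m, a⟫ / det3 n a m :=
      hmax b (hfin.mem_toFinset.2 ⟨hb.mb, h1⟩)
    rw [div_le_div_iff₀ h1 ham] at h3
    have h4 := GSuc2_inner (h.perp a ha.1) (h.perp b hb.mb) hm m
    rw [det3_swap23 n b m] at h4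
    have h5 : 0 < ⟪m, m⟫ := by
      rw [real_inner_self_eq_norm_sq]
      have := norm_pos_iff.2 hm0
      positivity
    have h6 : 0 < det3 n a b * ⟪m, m⟫ := mul_pos hb.pos h5
    linarith

theorem CSet.arc_unique {n : E} {V : Set E} (h : CSet n V) {m a b a' b' : E} (hm : ⟪n, m⟫ = 0)
    (h1 : Nxt n V a b) (h2 : Betw n a m b) (h3 : Nxt n V a' b') (h4 : Betw n a' m b') :
    a = a' ∧ b = b' := by
  have hpa := h.perp a h1.ma
  have hpb := h.perp b h1.mb
  have hpa' := h.perp a' h3.ma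
  have hpb' := h.perp b' h3.mb
  have key : ∀ {a b a' : E}, Nxt n V a b → Betw n a m b → a' ∈ V → 0 < det3 n a' m →
      ⟪n, a⟫ = 0 → ⟪n, b⟫ = 0 → ⟪n, a'⟫ = 0 → ¬ 0 < det3 n a a' := by
    intro a b a' g1 g2 g3 g4 qa qb qa' g5
    -- `[a m][a' b] = [a a'][m b] + [a b][a' m]`
    have g6 := plucker qa qa' hm qb
    have g7 : det3 n a m * det3 n a' b = det3 n a a' * det3 n m b + det3 n a b * det3 n a' m := by
      linear_combination (-1 : ℝ) * g6
    have g8 : 0 < det3 n a m * det3 n a' b := by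
      rw [g7]
      have g9 := g1.pos
      have g10 := g2.2
      positivity
    exact g1.no a' g3 ⟨g5, (mul_pos_iff_of_pos_left g2.1).1 g8⟩
  have haa : a = a' := by
    rcases lt_trichotomy (det3 n a a') 0 with g | g | g
    · exfalso
      refine key h3 h4 h1.ma h2.1 hpa' hpb' hpa ?_
      rw [det3_swap23]
      linarith
    · rcases (det3_eq_zero_iff h.n1 (h.unit a h1.ma) (h.unit a' h3.ma) hpa hpa').1 g with g' | g'
      · exact g'
      · exfalso
        have g1 := h2.1
        rw [g', det3_neg2] at g1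
        linarith [h4.1]
    · exact absurd g (key h1 h2 h3.ma h4.1 hpa hpb hpa')
  refine ⟨haa, ?_⟩
  rw [← haa] at h3
  exact h.nxt_unique h1 h3

end CGA
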