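import Pool.Agent.CGA.GSuc2

/-! PROJECT CGA, module GSuc3: induction and summation over the arcs.

`arc_induction`: strong induction on the number of c ∈ V with Betw n a c b (finite).  If there is none, Nxt n V a b.  If c is one, the points between a and c, and
between c and b, are between a and b and different from c (`Betw.trans_left/right`), so the counts are smaller.
`arc_sum`: by arc_induction.  Nxt a b: the only arc e with mid e in (a,b) is (a,b) (`arc_unique`).  Split at c: an arc e = (e1,e2) with mid e between a and b has mid e ≠ ± c direction (det3 n c (e1+e2) ≠ 0,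
otherwise c or -c would be between e1 and e2), so it lies in exactly one of the two parts (`Betw.split`; not in both: [m c] > 0 and [c m] > 0 is impossible). -/

set_option linter.all false

namespace CGA

open scoped RealInnerProductSpace Real Topology
open MeasureTheory Set Filter

theorem CSet.arc_induction {n : E} {V : Set E} (h : CSet n V) (P : E → E → Prop)
    (h1 : ∀ a b, Nxt n V a b → P a b)
    (h2 : ∀ a c b, a ∈ V → c ∈ V → b ∈ V → 0 < det3 n a b → Betw n a c b → P a c → P c b → P a b) :
    ∀ a ∈ V, ∀ b ∈ V, 0 < det3 n a b → P a b := by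
  have key : ∀ k : ℕ, ∀ a ∈ V, ∀ b ∈ V, 0 < det3 n a b →
      {m | m ∈ V ∧ Betw n a m b}.ncard < k → P a b := by
    intro k
    induction k with
    | zero =>
      intro a _ b _ _ h
      exact absurd h (Nat.not_lt_zero _)
    | succ k ih =>
      intro a ha b hb hab hk
      by_cases hc : ∃ c ∈ V, Betw n a c b
      · obtain ⟨c, hc, hacb⟩ := hc
        have hfin : {m | m ∈ V ∧ Betw n a m b}.Finite := h.fin.subset fun m hm => hm.1
        have hnot : ∀ x y : E, ¬ Betw n x c c ∧ ¬ Betw n c c y := fun x y =>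
          ⟨fun h3 => by
            have := h3.2
            rw [det3_self23] at this
            exact lt_irrefl _ this, fun h3 => by
            have := h3.1
            rw [det3_self23] at this
            exact lt_irrefl _ this⟩
        have l1 : {m | m ∈ V ∧ Betw n a m c}.ncard < {m | m ∈ V ∧ Betw n a m b}.ncard := by
          refine Set.ncard_lt_ncard ⟨fun m hm => ⟨hm.1, ?_⟩, fun hsub => ?_⟩ hfin
          · exact Betw.trans_left (h.perp a ha) (h.perp c hc) (h.perp m hm.1) (h.perp b hb) hab
              hacb hm.2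
          · exact (hnot a b).1 (hsub ⟨hc, hacb⟩).2
        have l2 : {m | m ∈ V ∧ Betw n c m b}.ncard < {m | m ∈ V ∧ Betw n a m b}.ncard := by
          refine Set.ncard_lt_ncard ⟨fun m hm => ⟨hm.1, ?_⟩, fun hsub => ?_⟩ hfin
          · exact Betw.trans_right (h.perp a ha) (h.perp c hc) (h.perp m hm.1) (h.perp b hb) hab
              hacb hm.2
          · exact (hnot a b).2 (hsub ⟨hc, hacb⟩).2
        exact h2 a c b ha hc hb hab hacb (ih a ha c hc hacb.1 (by omega))
          (ih c hc b hb hacb.2 (by omega))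
      · push Not at hc
        exact h1 a b ⟨ha, hb, hab, fun c hc' h3 => hc c hc' h3⟩
  intro a ha b hb hab
  exact key _ a ha b hb hab (Nat.lt_succ_self _)

private theorem GSuc3_mid {n : E} {V : Set E} (h : CSet n V) {c x a b : E} (hc : c ∈ V)
    (hx : ⟪n, x⟫ = 0) (hcx : det3 n c x ≠ 0) (hab : Nxt n V a b) : det3 n c (a + b) ≠ 0 := by
  intro h0
  have e1 : det3 n c (a + b) = det3 n c a + det3 n c b := by
    have := det3_lin3 1 1 n c a b
    rwa [one_smul, one_smul, one_mul, one_mul] at this
  rw [e1] at h0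
  have e2 : det3 n a c = - det3 n c a := det3_swap23 n c a
  have e3 : det3 n b c = - det3 n c b := det3_swap23 n c b
  rcases lt_trichotomy (det3 n c b) 0 with h1 | h1 | h1
  · refine hab.no (-c) (h.anti c hc) ⟨?_, ?_⟩
    · rw [det3_neg3, e2]
      linarith
    · rw [det3_neg2]
      linarith
  · have h2 : det3 n c a = 0 := by linarith
    have h3 := plucker (h.perp a hab.ma) (h.perp b hab.mb) (h.perp c hc) hx
    rw [e2, e3, h1, h2] at h3
    simp only [neg_zero, zero_mul, mul_zero, sub_zero, add_zero] at h3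
    rcases mul_eq_zero.1 h3 with h4 | h4
    · exact absurd h4 hab.pos.ne'
    · exact hcx h4
  · refine hab.no c hc ⟨?_, h1⟩
    rw [e2]
    linarith

theorem CSet.arc_sum {n : E} {V : Set E} (h : CSet n V) {A : Type*} [AddCommMonoid A]
    (F : E → E → A)
    (hF : ∀ a c b, a ∈ V → c ∈ V → b ∈ V → 0 < det3 n a b → Betw n a c b → F a b = F a c + F c b) :
    ∀ a ∈ V, ∀ b ∈ V, 0 < det3 n a b →
      F a b = ∑ᶠ e ∈ {e : E × E | Nxt n V e.1 e.2 ∧ Betw n a (e.1 + e.2) b}, F e.1 e.2 := by
  have hperp : ∀ {e : E × E}, Nxt n V e.1 e.2 → ⟪n, e.1 + e.2⟫ = 0 := fun {e} he => by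
    rw [inner_add_right, h.perp _ he.ma, h.perp _ he.mb, add_zero]
  have hfin : ∀ x y : E, {e : E × E | Nxt n V e.1 e.2 ∧ Betw n x (e.1 + e.2) y}.Finite :=
    fun x y => (h.fin.prod h.fin).subset fun e he => ⟨he.1.ma, he.1.mb⟩
  refine h.arc_induction (fun a b =>
    F a b = ∑ᶠ e ∈ {e : E × E | Nxt n V e.1 e.2 ∧ Betw n a (e.1 + e.2) b}, F e.1 e.2) ?_ ?_
  · intro a b hab
    have hS : {e : E × E | Nxt n V e.1 e.2 ∧ Betw n a (e.1 + e.2) b} = {(a, b)} := by
      ext e
      constructor
      · rintro ⟨h1, h2⟩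
        obtain ⟨h3, h4⟩ := h.arc_unique (hperp h1) h1 (betw_mid h1.pos) hab h2
        exact Prod.ext h3 h4
      · intro he
        rw [mem_singleton_iff] at he
        subst he
        exact ⟨hab, betw_mid hab.pos⟩
    rw [hS, finsum_mem_singleton]
  · intro a c b ha hc hb hab hacb h1 h2
    have hS : {e : E × E | Nxt n V e.1 e.2 ∧ Betw n a (e.1 + e.2) b} =
        {e : E × E | Nxt n V e.1 e.2 ∧ Betw n a (e.1 + e.2) c} ∪
          {e : E × E | Nxt n V e.1 e.2 ∧ Betw n c (e.1 + e.2) b} := by
      ext e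
      constructor
      · rintro ⟨h3, h4⟩
        have h5 : det3 n c (e.1 + e.2) ≠ 0 :=
          GSuc3_mid h hc (h.perp b hb) hacb.2.ne' h3
        rcases Betw.split (h.perp a ha) (h.perp c hc) (hperp h3) (h.perp b hb) hab hacb h4 h5
          with h6 | h6
        · exact Or.inl ⟨h3, h6⟩
        · exact Or.inr ⟨h3, h6⟩
      · rintro (⟨h3, h4⟩ | ⟨h3, h4⟩)
        · exact ⟨h3, Betw.trans_left (h.perp a ha) (h.perp c hc) (hperp h3) (h.perp b hb) hab
            hacb h4⟩
        · exact ⟨h3, Betw.trans_right (h.perp a ha) (h.perp c hc) (hperp h3) (h.perp b hb) hab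
            hacb h4⟩
    have hd : Disjoint {e : E × E | Nxt n V e.1 e.2 ∧ Betw n a (e.1 + e.2) c}
        {e : E × E | Nxt n V e.1 e.2 ∧ Betw n c (e.1 + e.2) b} := by
      rw [Set.disjoint_left]
      rintro e ⟨-, h3⟩ ⟨-, h4⟩
      have h5 := h3.2
      have h6 := h4.1
      rw [det3_swap23 n (e.1 + e.2) c] at h6
      linarith
    show F a b = ∑ᶠ e ∈ {e : E × E | Nxt n V e.1 e.2 ∧ Betw n a (e.1 + e.2) b}, F e.1 e.2
    rw [hF a c b ha hc hb hab hacb, h1, h2, hS, finsum_mem_union hd (hfin _ _) (hfin _ _)]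

end CGA
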