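import Pool.Agent.CGA.GVert

/-! PROJECT CGA, module GSv: side values of arrangement functions.

For OnG N n m the points m + εn (ε > 0 small) are generic and have the same signs as m for k ≠ n (continuity), so u is eventually constant; `sv` is the limit in the discrete
space ℤ (`Tendsto.limUnder_eq` with tendsto_const after eventual equality). -/

set_option linter.all false

namespace CGA

open scoped RealInnerProductSpace Real Topology
open MeasureTheory Set Filter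

theorem Fn.mono {N N' : Finset E} (h : N ⊆ N') {u : E → ℤ} (hu : Fn N u) : Fn N' u :=
  fun x y hxy => hu x y fun n hn => hxy n (h hn)

private theorem gsv_lim {u : E → ℤ} {m d : E} {z : ℤ}
    (h : ∀ᶠ ε in 𝓝[>] (0:ℝ), u (m + ε • d) = z) : sv u m d = z := by
  unfold sv
  refine Tendsto.limUnder_eq ?_
  exact tendsto_const_nhds.congr' (h.mono fun ε hε => hε.symm)

private theorem gsv_near {N : Finset E} {n m : E} (h : OnG N n m) (d : E) {g : E → ℝ}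
    (hg : ∀ k ∈ N, k ≠ n → 0 < ⟪k, m⟫ * g k) :
    ∀ᶠ ε in 𝓝[>] (0:ℝ), ∀ k ∈ N, k ≠ n → 0 < ⟪k, m + ε • d⟫ * g k := by
  rw [Filter.eventually_all_finset]
  intro k hk
  by_cases hkn : k = n
  · exact Filter.Eventually.of_forall fun ε hne => absurd hkn hne
  · have h1 : Tendsto (fun ε : ℝ => ⟪k, m + ε • d⟫ * g k) (𝓝[>] 0) (𝓝 (⟪k, m + (0:ℝ) • d⟫ * g k)) := by
      have hc : Continuous fun ε : ℝ => ⟪k, m + ε • d⟫ * g k := by fun_prop
      exact (hc.tendsto 0).mono_left nhdsWithin_le_nhds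
    rw [zero_smul, add_zero] at h1
    filter_upwards [h1.eventually (lt_mem_nhds (hg k hk hkn))] with ε hε _
    exact hε

private theorem gsv_aux {N : Finset E} {u : E → ℤ} (hu : Fn N u) {n m d : E}
    (h : OnG N n m) {x : E} (hx : 0 < ⟪n, d⟫ * ⟪n, x⟫)
    (hx' : ∀ k ∈ N, k ≠ n → 0 < ⟪k, x⟫ * ⟪k, m⟫) : sv u m d = u x := by
  apply gsv_lim
  have h1 := gsv_near h d (g := fun k => ⟪k, x⟫) (fun k hk hkn => by
    have := hx' k hk hkn
    linarith [mul_comm ⟪k, x⟫ ⟪k, m⟫])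
  filter_upwards [h1, self_mem_nhdsWithin] with ε hε hε0
  have hε1 : (0:ℝ) < ε := hε0
  apply hu
  intro k hk
  by_cases hkn : k = n
  · subst hkn
    rw [inner_add_right, h.perp, zero_add, inner_smul_right]
    have := mul_pos hε1 hx
    linarith [mul_assoc ε ⟪k, d⟫ ⟪k, x⟫]
  · exact hε k hk hkn

private theorem gsv_nn {N : Finset E} (hN : IsArr N) {n : E} (hn : n ∈ N) : ⟪n, n⟫ = 1 := by
  rw [real_inner_self_eq_norm_sq, hN.unit n hn]
  norm_num

theorem sv_pos {N : Finset E} (hN : IsArr N) {u : E → ℤ} (hu : Fn N u) {n m : E}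
    (h : OnG N n m) {x : E} (hx : 0 < ⟪n, x⟫) (hx' : ∀ k ∈ N, k ≠ n → 0 < ⟪k, x⟫ * ⟪k, m⟫) :
    sv u m n = u x := by
  refine gsv_aux hu h ?_ hx'
  rw [gsv_nn hN h.mem, one_mul]
  exact hx

theorem sv_neg {N : Finset E} (hN : IsArr N) {u : E → ℤ} (hu : Fn N u) {n m : E}
    (h : OnG N n m) {x : E} (hx : ⟪n, x⟫ < 0) (hx' : ∀ k ∈ N, k ≠ n → 0 < ⟪k, x⟫ * ⟪k, m⟫) :
    sv u m (-n) = u x := by
  refine gsv_aux hu h ?_ hx'
  rw [inner_neg_right, gsv_nn hN h.mem]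
  linarith

private theorem gsv_plus {N : Finset E} (hN : IsArr N) {n m : E} (h : OnG N n m) (ε : ℝ) :
    ⟪n, m + ε • n⟫ = ε := by
  rw [inner_add_right, h.perp, zero_add, inner_smul_right, gsv_nn hN h.mem, mul_one]

private theorem gsv_minus {N : Finset E} (hN : IsArr N) {n m : E} (h : OnG N n m) (ε : ℝ) :
    ⟪n, m - ε • n⟫ = -ε := by
  rw [inner_sub_right, h.perp, zero_sub, inner_smul_right, gsv_nn hN h.mem, mul_one]

private theorem gsv_gen {N : Finset E} {n m x : E} (hx : ⟪n, x⟫ ≠ 0)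
    (hx' : ∀ k ∈ N, k ≠ n → 0 < ⟪k, x⟫ * ⟪k, m⟫) : Gen N x := by
  intro k hk
  by_cases hkn : k = n
  · rw [hkn]
    exact hx
  · intro h0
    have := hx' k hk hkn
    rw [h0, zero_mul] at this
    exact lt_irrefl _ this

private theorem gsv_both {N : Finset E} (hN : IsArr N) {n m : E} (h : OnG N n m) :
    ∀ᶠ ε in 𝓝[>] (0:ℝ), 0 < ε ∧ (∀ k ∈ N, k ≠ n → 0 < ⟪k, m + ε • n⟫ * ⟪k, m⟫) ∧
      (∀ k ∈ N, k ≠ n → 0 < ⟪k, m - ε • n⟫ * ⟪k, m⟫) := by
  have hg : ∀ k ∈ N, k ≠ n → 0 < ⟪k, m⟫ * ⟪k, m⟫ := fun k hk hkn =>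
    mul_self_pos.2 (h.gen k hk hkn)
  have h1 := gsv_near h n (g := fun k => ⟪k, m⟫) hg
  have h2 := gsv_near h (-n) (g := fun k => ⟪k, m⟫) hg
  filter_upwards [h1, h2, self_mem_nhdsWithin] with ε a1 a2 a3
  refine ⟨a3, a1, fun k hk hkn => ?_⟩
  have := a2 k hk hkn
  rwa [smul_neg, ← sub_eq_add_neg] at this

theorem sv_eventually {N : Finset E} (hN : IsArr N) {u : E → ℤ} (hu : Fn N u) {n m : E}
    (h : OnG N n m) : ∀ᶠ ε in 𝓝[>] (0:ℝ), u (m + ε • n) = sv u m n ∧ u (m - ε • n) = sv u m (-n) ∧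
      Gen N (m + ε • n) ∧ Gen N (m - ε • n) := by
  filter_upwards [gsv_both hN h] with ε hε
  obtain ⟨h0, h1, h2⟩ := hε
  have p1 : 0 < ⟪n, m + ε • n⟫ := by rw [gsv_plus hN h]; exact h0
  have p2 : ⟪n, m - ε • n⟫ < 0 := by rw [gsv_minus hN h]; linarith
  exact ⟨(sv_pos hN hu h p1 h1).symm, (sv_neg hN hu h p2 h2).symm, gsv_gen p1.ne' h1,
    gsv_gen p2.ne h2⟩

/-- points on both sides -/
private theorem gsv_pts {N : Finset E} (hN : IsArr N) {n m : E} (h : OnG N n m) :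
    ∃ p q, 0 < ⟪n, p⟫ ∧ ⟪n, q⟫ < 0 ∧ (∀ k ∈ N, k ≠ n → 0 < ⟪k, p⟫ * ⟪k, m⟫) ∧
      (∀ k ∈ N, k ≠ n → 0 < ⟪k, q⟫ * ⟪k, m⟫) := by
  obtain ⟨ε, h0, h1, h2⟩ := (gsv_both hN h).exists
  refine ⟨m + ε • n, m - ε • n, ?_, ?_, h1, h2⟩
  · rw [gsv_plus hN h]; exact h0
  · rw [gsv_minus hN h]; linarith

/-- side values of all functions of `Fn N` are values at two generic points -/
theorem exists_sides {N : Finset E} (hN : IsArr N) {n m : E} (h : OnG N n m) :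
    ∃ p q, Gen N p ∧ Gen N q ∧ ∀ u : E → ℤ, Fn N u → sv u m n = u p ∧ sv u m (-n) = u q := by
  obtain ⟨p, q, h1, h2, h3, h4⟩ := gsv_pts hN h
  exact ⟨p, q, gsv_gen h1.ne' h3, gsv_gen h2.ne h4, fun u hu =>
    ⟨sv_pos hN hu h h1 h3, sv_neg hN hu h h2 h4⟩⟩

private theorem gsv_trans {a b c : ℝ} (h1 : 0 < a * b) (h2 : 0 < b * c) : 0 < a * c := by
  have h3 := mul_pos h1 h2
  have hb : b ≠ 0 := by
    rintro rfl
    simp at h1
  have hb2 : 0 < b * b := mul_self_pos.2 hb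
  have h4 : a * b * (b * c) = (b * b) * (a * c) := by ring
  rw [h4] at h3
  exact pos_of_mul_pos_right h3 hb2.le |> fun h => h

theorem Jmp_congr {N : Finset E} (hN : IsArr N) {u : E → ℤ} (hu : Fn N u) {n m m' : E}
    (h : OnG N n m) (h' : OnG N n m') (hs : ∀ k ∈ N, k ≠ n → 0 < ⟪k, m⟫ * ⟪k, m'⟫) :
    Jmp u n m = Jmp u n m' := by
  obtain ⟨p, q, h1, h2, h3, h4⟩ := gsv_pts hN h
  unfold Jmp
  rw [sv_pos hN hu h h1 h3, sv_neg hN hu h h2 h4,
    sv_pos hN hu h' h1 (fun k hk hkn => gsv_trans (h3 k hk hkn) (hs k hk hkn)),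
    sv_neg hN hu h' h2 (fun k hk hkn => gsv_trans (h4 k hk hkn) (hs k hk hkn))]

theorem Jmp_edge {N : Finset E} (hN : IsArr N) {u : E → ℤ} (hu : Fn N u) {n a b m : E}
    (h : IsEdge N n a b) (hm : ⟪n, m⟫ = 0) (hb : Betw n a m b) : Jmp u n m = Jmp u n (a + b) := by
  obtain ⟨h1, h2⟩ := h.mid hN
  exact Jmp_congr hN hu (h.onG hN hm hb) h1 (h.same_side hN hm h1.perp hb h2)

private theorem gsv_Fn {N : Finset E} {u v : E → ℤ} (hu : Fn N u) (hv : Fn N v)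
    (g : ℤ → ℤ → ℤ) : Fn N (fun x => g (u x) (v x)) := fun x y hxy => by
  simp only
  rw [hu x y hxy, hv x y hxy]

theorem sv_comp {N : Finset E} (hN : IsArr N) {u v : E → ℤ} (hu : Fn N u) (hv : Fn N v)
    (g : ℤ → ℤ → ℤ) {n m : E} (h : OnG N n m) :
    sv (fun x => g (u x) (v x)) m n = g (sv u m n) (sv v m n) ∧
    sv (fun x => g (u x) (v x)) m (-n) = g (sv u m (-n)) (sv v m (-n)) := by
  obtain ⟨p, q, _, _, hpq⟩ := exists_sides hN h
  rw [(hpq u hu).1, (hpq v hv).1, (hpq _ (gsv_Fn hu hv g)).1, (hpq u hu).2, (hpq v hv).2,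
    (hpq _ (gsv_Fn hu hv g)).2]
  exact ⟨rfl, rfl⟩

theorem Jmp_add {N : Finset E} (hN : IsArr N) {u v : E → ℤ} (hu : Fn N u) (hv : Fn N v) {n m : E}
    (h : OnG N n m) : Jmp (fun x => u x + v x) n m = Jmp u n m + Jmp v n m := by
  have h1 := sv_comp hN hu hv (fun a b => a + b) h
  unfold Jmp
  rw [h1.1, h1.2]
  ring

theorem Jmp_neg {N : Finset E} (hN : IsArr N) {u : E → ℤ} (hu : Fn N u) {n m : E}
    (h : OnG N n m) : Jmp (fun x => - u x) n m = - Jmp u n m := by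
  have h1 := sv_comp hN hu hu (fun a _ => -a) h
  unfold Jmp
  rw [h1.1, h1.2]
  ring

theorem Jmp_add_const {N : Finset E} (hN : IsArr N) {u : E → ℤ} (hu : Fn N u) (k : ℤ) {n m : E}
    (h : OnG N n m) : Jmp (fun x => u x + k) n m = Jmp u n m := by
  have h1 := sv_comp hN hu hu (fun a _ => a + k) h
  unfold Jmp
  rw [h1.1, h1.2]
  ring

/-- if N' contains N and n is a new plane, there is no jump -/
theorem Jmp_new {N N' : Finset E} (hN : IsArr N) (hN' : IsArr N') (hNN : N ⊆ N') {u : E → ℤ}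
    (hu : Fn N u) {n m : E} (hn : n ∉ N) (h : OnG N' n m) : Jmp u n m = 0 := by
  obtain ⟨p, q, h1, h2, h3, h4⟩ := gsv_pts hN' h
  have hu' := hu.mono hNN
  unfold Jmp
  rw [sv_pos hN' hu' h h1 h3, sv_neg hN' hu' h h2 h4, sub_eq_zero]
  apply hu
  intro k hk
  have hkn : k ≠ n := fun h => hn (h ▸ hk)
  have h5 := h4 k (hNN hk) hkn
  rw [mul_comm] at h5
  exact gsv_trans (h3 k (hNN hk) hkn) h5

/-- generically equal functions have the same side values at generic points of edges -/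
theorem sv_congr {N : Finset E} (hN : IsArr N) {u v : E → ℤ} (hu : Fn N u) (hv : Fn N v)
    (huv : ∀ x, Gen N x → u x = v x) {n m : E} (h : OnG N n m) :
    sv u m n = sv v m n ∧ sv u m (-n) = sv v m (-n) := by
  obtain ⟨p, q, hp, hq, hpq⟩ := exists_sides hN h
  rw [(hpq u hu).1, (hpq v hv).1, (hpq u hu).2, (hpq v hv).2]
  exact ⟨huv p hp, huv q hq⟩

end CGA
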