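import Pool.Agent.CGA.GTVa
import Pool.Agent.CGA.GConn
import Pool.Agent.CGA.GFine

/-! PROJECT CGA, module GTV0: total variation zero means generically constant.

Choose N with Fn N u and FineArr 1 N.  TVN = 0 and ell > 0 on edges (ell_pos, |a-b| < 1) give Je u e = 0 for all edges, hence Jmp u n m = 0 whenever OnG N n m (Jmp_edge).  gen_connected with W = u: h1 is Fn N u, h2 is
sv_eventually. -/

set_option linter.all false

namespace CGA

open scoped RealInnerProductSpace Real Topology
open MeasureTheory Set Filter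

theorem TV_eq_zero (M : Met) {u : E → ℤ} (hu : AF u) (h : TV M u = 0) :
    ∃ (k : ℤ) (N : Finset E), IsArr N ∧ ∀ x, Gen N x → u x = k := by
  obtain ⟨N₀, hN₀, hu₀⟩ := hu
  obtain ⟨N, hNN, hN, hF⟩ := exists_fineArr hN₀ one_pos
  have hu' : Fn N u := hu₀.mono hNN
  rw [TV_eq M hN hu', TVN_eq_sum M hN] at h
  have hJ : ∀ n a b, IsEdge N n a b → Jmp u n (a + b) = 0 := by
    intro n a b he
    have h1 := (Finset.sum_eq_zero_iff_of_nonneg (fun e _ =>
      mul_nonneg (abs_nonneg _) (ell_nonneg M _ _))).1 h (n, a, b) ((mem_edg hN).2 he)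
    have h2 : 0 < ell M a b :=
      ell_pos M he.unit.1 he.unit.2 (hF.mesh hN he).le he.lt_two.2
    have h3 : |((Je u (n, a, b) : ℤ) : ℝ)| = 0 := by
      rcases mul_eq_zero.1 h1 with h4 | h4
      · exact h4
      · exact absurd h4 h2.ne'
    have h5 := abs_eq_zero.1 h3
    exact_mod_cast h5
  have hgen := gen_connected hN u (fun p p' _ _ hs => hu' p p' hs) (by
    intro n m hm
    obtain ⟨a, b, he, hb⟩ := hm.exists_edge hN
    have h1 : Jmp u n m = 0 := by rw [Jmp_edge hN hu' he hm.perp hb, hJ n a b he]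
    have h2 : sv u m n = sv u m (-n) := sub_eq_zero.1 h1
    refine Filter.Eventually.frequently ?_
    filter_upwards [sv_eventually hN hu' hm] with ε hε
    rw [hε.1, hε.2.1, h2])
  by_cases hp : ∃ p, Gen N p
  · obtain ⟨p, hp⟩ := hp
    exact ⟨u p, N, hN, fun x hx => hgen x p hx hp⟩
  · exact ⟨0, N, hN, fun x hx => absurd ⟨x, hx⟩ hp⟩

end CGA
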