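import Pool.Agent.CGA.GSv
import Pool.Agent.CGA.GSuc3

/-! PROJECT CGA, module GTVN: the total variation does not depend on the arrangement.

TVN M N u = Σ_{e ∈ edg N} |Je u e| ell e.  For N ⊆ N' (both IsArr, Fn N u): edges e' = (n,a',b') of N' with n ∉ N have Je = 0 (Jmp_new, IsEdge.mid).  For n ∈ N the midpoint m' of e' is OnG N' hence OnG N,
so it lies in exactly one edge e = (n,a,b) of N (OnG.exists_edge, IsEdge.unique) and Je u e' = Jmp u n m' = Je u e (Jmp_edge).  Hence Σ_{e'} = Σ_{e ∈ edg N} |Je u e| Σ_{e' : mid e' between a and b} ell e' and the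
inner sum is ell a b by `CSet.arc_sum` (V = VertOn N' n, F = ell, additivity `ell_add_between`).  TV_eq: for h.choose = N0 compare N and N0 with N ∪ N0. -/

set_option linter.all false

namespace CGA

open scoped RealInnerProductSpace Real Topology
open MeasureTheory Set Filter

theorem TVN_eq_sum (M : Met) {N : Finset E} (hN : IsArr N) (u : E → ℤ) :
    TVN M N u = ∑ e ∈ edg N, |(Je u e : ℝ)| * ell M e.2.1 e.2.2 := by
  classical
  unfold TVN edg
  rw [dif_pos (EdgeSet_finite hN), finsum_mem_eq_finite_toFinset_sum _ (EdgeSet_finite hN)]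
  rfl

/-- sum over the edges of a finer arrangement, grouped by the edges of the coarser one -/
theorem sum_edges_refine {N N' : Finset E} (hN : IsArr N) (hN' : IsArr N') (hNN : N ⊆ N')
    {A : Type*} [AddCommMonoid A] (Φ : E → E → E → A) (Ψ : E → E → E → E → E → A)
    (h0 : ∀ n a b, IsEdge N' n a b → n ∉ N → Φ n a b = 0)
    (h1 : ∀ n a b a' b', IsEdge N n a b → IsEdge N' n a' b' → Betw n a (a' + b') b →
      Φ n a' b' = Ψ n a b a' b')
    (h2 : ∀ n a b, IsEdge N n a b → ∀ x c y, x ∈ VertOn N' n → c ∈ VertOn N' n → y ∈ VertOn N' n →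
      0 < det3 n x y → Betw n x c y → Ψ n a b x y = Ψ n a b x c + Ψ n a b c y) :
    ∑ e ∈ edg N', Φ e.1 e.2.1 e.2.2 = ∑ e ∈ edg N, Ψ e.1 e.2.1 e.2.2 e.2.1 e.2.2 := by
  classical
  have key : ∀ e ∈ edg N, Ψ e.1 e.2.1 e.2.2 e.2.1 e.2.2 =
      ∑ e' ∈ edg N', if e'.1 = e.1 ∧ Betw e.1 e.2.1 (e'.2.1 + e'.2.2) e.2.2 then
        Φ e'.1 e'.2.1 e'.2.2 else 0 := by
    rintro ⟨n, a, b⟩ he
    have hE : IsEdge N n a b := (mem_edg hN).1 he
    have hn' : n ∈ N' := hNN hE.mem
    have hC := hN'.cset hn'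
    have ha : a ∈ VertOn N' n := ⟨Vert_mono hNN hE.va, hE.na⟩
    have hb : b ∈ VertOn N' n := ⟨Vert_mono hNN hE.vb, hE.nb⟩
    have hs := hC.arc_sum (Ψ n a b)
      (fun x c y hx hc hy hxy hbt => h2 n a b hE x c y hx hc hy hxy hbt) a ha b hb hE.pos
    show Ψ n a b a b = _
    rw [hs]
    have hfin : {e : E × E | Nxt n (VertOn N' n) e.1 e.2 ∧ Betw n a (e.1 + e.2) b}.Finite := by
      have hinj : Function.Injective (fun f : E × E => ((n, f.1, f.2) : E × E × E)) := by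
        rintro ⟨x, y⟩ ⟨x', y'⟩ h
        simpa using h
      refine ((EdgeSet_finite hN').preimage hinj.injOn).subset ?_
      intro f hf
      exact (isEdge_iff hN').2 ⟨hn', hf.1⟩
    rw [finsum_mem_eq_finite_toFinset_sum _ hfin, ← Finset.sum_filter]
    refine Finset.sum_nbij' (fun f => (n, f.1, f.2)) (fun e => e.2) ?_ ?_ ?_ ?_ ?_
    · intro f hf
      rw [Set.Finite.mem_toFinset] at hf
      rw [Finset.mem_filter]
      exact ⟨(mem_edg hN').2 ((isEdge_iff hN').2 ⟨hn', hf.1⟩), rfl, hf.2⟩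
    · rintro ⟨n', x, y⟩ hf
      rw [Finset.mem_filter] at hf
      obtain ⟨h3, h4, h5⟩ := hf
      have h4' : n' = n := h4
      subst h4'
      rw [Set.Finite.mem_toFinset]
      exact ⟨((isEdge_iff hN').1 ((mem_edg hN').1 h3)).2, h5⟩
    · intro f _
      rfl
    · rintro ⟨n', x, y⟩ hf
      rw [Finset.mem_filter] at hf
      have h4' : n' = n := hf.2.1
      subst h4'
      rfl
    · intro f hf
      rw [Set.Finite.mem_toFinset] at hf
      exact (h1 n a b f.1 f.2 hE ((isEdge_iff hN').2 ⟨hn', hf.1⟩) hf.2).symm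
  rw [Finset.sum_congr rfl key, Finset.sum_comm]
  refine Finset.sum_congr rfl ?_
  rintro ⟨n, a', b'⟩ he'
  have hE' : IsEdge N' n a' b' := (mem_edg hN').1 he'
  by_cases hn : n ∈ N
  · have hm := hE'.mid hN'
    have hm2 : OnG N n (a' + b') := hm.1.mono hNN hn
    obtain ⟨a, b, hE, hb⟩ := hm2.exists_edge hN
    rw [Finset.sum_eq_single (n, a, b)]
    · rw [if_pos ⟨rfl, hb⟩]
    · rintro ⟨n₁, a₁, b₁⟩ h3 h4
      rw [if_neg]
      rintro ⟨h5, h6⟩
      have h5' : n = n₁ := h5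
      subst h5'
      obtain ⟨h7, h8⟩ := IsEdge.unique hN hm2.perp ((mem_edg hN).1 h3) h6 hE hb
      apply h4
      have h7' : a₁ = a := h7
      have h8' : b₁ = b := h8
      rw [h7', h8']
    · intro h3
      exact absurd ((mem_edg hN).2 hE) h3
  · have h3 : Φ n a' b' = 0 := h0 n a' b' hE' hn
    show Φ n a' b' = _
    rw [h3]
    symm
    refine Finset.sum_eq_zero ?_
    rintro ⟨n₁, a₁, b₁⟩ h4
    rw [if_neg]
    rintro ⟨h5, -⟩
    have h5' : n = n₁ := h5
    exact hn (h5' ▸ ((mem_edg hN).1 h4).mem)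

theorem TVN_mono (M : Met) {N N' : Finset E} (hN : IsArr N) (hN' : IsArr N') (hNN : N ⊆ N')
    {u : E → ℤ} (hu : Fn N u) : TVN M N u = TVN M N' u := by
  rw [TVN_eq_sum M hN, TVN_eq_sum M hN']
  symm
  refine sum_edges_refine hN hN' hNN (fun n a b => |(Jmp u n (a + b) : ℝ)| * ell M a b)
    (fun n a b x y => |(Jmp u n (a + b) : ℝ)| * ell M x y) ?_ ?_ ?_
  · intro n a b he hn
    show |(Jmp u n (a + b) : ℝ)| * ell M a b = 0
    rw [Jmp_new hN hN' hNN hu hn (he.mid hN').1]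
    simp
  · intro n a b a' b' he he' hb
    show |(Jmp u n (a' + b') : ℝ)| * ell M a' b' = |(Jmp u n (a + b) : ℝ)| * ell M a' b'
    rw [Jmp_edge hN hu he (he'.mid hN').1.perp hb]
  · intro n a b he x c y hx hc hy hxy hb
    show |(Jmp u n (a + b) : ℝ)| * ell M x y =
      |(Jmp u n (a + b) : ℝ)| * ell M x c + |(Jmp u n (a + b) : ℝ)| * ell M c y
    rw [← mul_add, ell_add_between M hx.1.1 hy.1.1 hc.1.1 hx.2 hy.2 hc.2 hxy hb.1 hb.2]

theorem TV_eq (M : Met) {N : Finset E} (hN : IsArr N) {u : E → ℤ} (hu : Fn N u) :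
    TV M u = TVN M N u := by
  have h : AF u := ⟨N, hN, hu⟩
  unfold TV
  rw [dif_pos h]
  obtain ⟨h1, h2⟩ := h.choose_spec
  rw [TVN_mono M h1 (h1.union hN) Finset.subset_union_left h2,
    ← TVN_mono M hN (h1.union hN) Finset.subset_union_right hu]

end CGA
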