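import Pool.Agent.CGA.GDsg
import Pool.Agent.CGA.GAF

/-! PROJECT CGA, module GTri: the jump of a triangle function.

Nondegenerate case D = det3 a b c > 0 (D < 0: tri a b c = - tri a c b).  tri = 1 exactly where ⟪p,k1⟫, ⟪p,k2⟫, ⟪p,k3⟫ > 0, k1 = crs b c, k2 = crs c a, k3 = crs a b (det3 p b c = ⟪p,k1⟫, ...).
Let OnG N n m.  If n = can (nrm k3) (n ⟂ a, b; then n is not ⟂ c): m = α a + β b (it is in the plane of a and b), ⟪m,k1⟫ = α D, ⟪m,k2⟫ = β D, both nonzero (the planes of k1, k2 are in N and different from n), so the side value on the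
side ⟪.,k3⟫ > 0 is 1 iff α, β > 0, on the other side 0; det3 n a m = β det3 n a b, det3 n m b = α det3 n a b.  So Jmp = dsg a b n m, and the other two dsg vanish.  Same for k1, k2 (cyclic symmetry of tri).
If n is none of the three, all dsg vanish and the signs of m + εn and m - εn are the same for all three planes, Jmp = 0.
Degenerate case D = 0, b and c within distance 1 of a: tri = 0.  If n is ⟂ a and b but not c then crs a b = 0 (otherwise n ⟂ c since c is in the plane of a, b), so a = b, dsg a b = 0; likewise for the other pairs (b ≠ -c because both are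
within 1 of a).  If n ⟂ a, b, c: let s(x) = 1 if 0 < det3 n x m and 0 otherwise; if 0 < ⟪a,m⟫ or m is in the cone spanned by a, b, c: dsg x y n m = s x - s y for x, y ∈ {a,b,c} when m is in the half plane ... it is simplest to write
b = β0 a + β1 t, c = γ0 a + γ1 t, m = μ0 a + μ1 t with t = crs n a, β0, γ0 > 0 (≥ 1/2): in coordinates x = (x0,x1) with x0 > 0 the quantity det3 n x m = x0 μ1 - x1 μ0; if μ0 ≤ 0 no arc between two of the points contains m; if μ0 > 0 the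
arc from x to y contains m iff the slope μ1/μ0 is strictly between the slopes x1/x0 and y1/y0 (m is not parallel to a vertex), so dsg x y = [slope x < slope m] - [slope y < slope m], and the cyclic sum vanishes. -/

set_option linter.all false

namespace CGA

open scoped RealInnerProductSpace Real Topology
open MeasureTheory Set Filter

/-- the arrangement contains the planes and the vertices of the triangle -/
structure TriOK (N : Finset E) (a b c : E) : Prop where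
  ua : ‖a‖ = 1
  ub : ‖b‖ = 1
  uc : ‖c‖ = 1
  ok : det3 a b c ≠ 0 ∨ ∃ w : E, 0 < ⟪w, a⟫ ∧ 0 < ⟪w, b⟫ ∧ 0 < ⟪w, c⟫
  pab : crs a b ≠ 0 → can (nrm (crs a b)) ∈ N
  pbc : crs b c ≠ 0 → can (nrm (crs b c)) ∈ N
  pca : crs c a ≠ 0 → can (nrm (crs c a)) ∈ N
  va : a ∈ Vert N
  vb : b ∈ Vert N
  vc : c ∈ Vert N

private theorem gtri_orth (x : E) : ∃ z : E, ‖z‖ = 1 ∧ ⟪x, z⟫ = 0 := by
  obtain ⟨φ, hφ⟩ : ∃ φ : E →ₗ[ℝ] ℝ, φ = innerₛₗ ℝ x := ⟨_, rfl⟩
  have h1 : LinearMap.ker φ ≠ ⊥ := by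
    refine LinearMap.ker_ne_bot_of_finrank_lt ?_
    rw [Module.finrank_self, finrank_euclideanSpace_fin]
    norm_num
  obtain ⟨z, hz, hz0⟩ := (Submodule.ne_bot_iff _).1 h1
  rw [LinearMap.mem_ker, hφ] at hz
  have h2 : ⟪x, z⟫ = 0 := hz
  refine ⟨nrm z, norm_nrm hz0, ?_⟩
  unfold nrm
  rw [inner_smul_right, h2, mul_zero]

private theorem gtri_inner_nrm (k x : E) : ⟪nrm k, x⟫ = 0 ↔ k = 0 ∨ ⟪k, x⟫ = 0 := by
  unfold nrm
  rw [inner_smul_left]
  simp

private theorem gtri_vert {N : Finset E} {a k : E} (ha : ‖a‖ = 1) (hk : ‖k‖ = 1)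
    (hak : ⟪a, k⟫ = 0) (h1 : can (nrm k) ∈ N) (h2 : can (nrm (crs a k)) ∈ N) : a ∈ Vert N := by
  have hk0 : k ≠ 0 := by
    rintro rfl
    rw [norm_zero] at hk
    exact zero_ne_one hk
  refine ⟨ha, _, h1, _, h2, ?_, ?_, ?_⟩
  · intro h
    have h3 : ⟪can (nrm (crs a k)), k⟫ = 0 := by
      rw [inner_can_eq_zero, gtri_inner_nrm]
      exact Or.inr (inner_crs_right a k)
    rw [← h, inner_can_eq_zero, gtri_inner_nrm] at h3
    rcases h3 with h3 | h3
    · exact hk0 h3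
    · rw [real_inner_self_eq_norm_sq, hk] at h3
      norm_num at h3
  · rw [inner_can_eq_zero, gtri_inner_nrm, real_inner_comm]
    exact Or.inr hak
  · rw [inner_can_eq_zero, gtri_inner_nrm]
    exact Or.inr (inner_crs_left a k)

private theorem gtri_crs {a k : E} (ha : ‖a‖ = 1) (hk : ‖k‖ = 1) (hak : ⟪a, k⟫ = 0) :
    crs a k ≠ 0 := by
  intro h
  have h1 := norm_crs_sq a k
  rw [h, ha, hk, hak, norm_zero] at h1
  norm_num at h1

/-- enlarge an arrangement so that given triangles are OK -/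
theorem exists_triOK {N : Finset E} (hN : IsArr N) (S : Finset (E × E × E))
    (hS : ∀ t ∈ S, ‖t.1‖ = 1 ∧ ‖t.2.1‖ = 1 ∧ ‖t.2.2‖ = 1 ∧
      (det3 t.1 t.2.1 t.2.2 ≠ 0 ∨ ∃ w : E, 0 < ⟪w, t.1⟫ ∧ 0 < ⟪w, t.2.1⟫ ∧ 0 < ⟪w, t.2.2⟫)) :
    ∃ N', N ⊆ N' ∧ IsArr N' ∧ ∀ t ∈ S, TriOK N' t.1 t.2.1 t.2.2 := by
  classical
  choose k hk1 hk2 using gtri_orth
  obtain ⟨S', hS'⟩ : ∃ S' : Finset E, S' = (S.biUnion fun t =>
      {crs t.1 t.2.1, crs t.2.1 t.2.2, crs t.2.2 t.1, k t.1, crs t.1 (k t.1), k t.2.1,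
        crs t.2.1 (k t.2.1), k t.2.2, crs t.2.2 (k t.2.2)}).filter fun x => x ≠ 0 := ⟨_, rfl⟩
  obtain ⟨N', hN', hA, hc⟩ := isArr_extend hN S' (by
    intro x hx
    rw [hS', Finset.mem_filter] at hx
    exact hx.2)
  refine ⟨N', hN', hA, ?_⟩
  rintro ⟨a, b, c⟩ ht
  obtain ⟨ha, hb, hc1, hok⟩ := hS _ ht
  have hmem : ∀ x : E, x ∈ ({crs a b, crs b c, crs c a, k a, crs a (k a), k b,
        crs b (k b), k c, crs c (k c)} : Finset E) → x ≠ 0 → can (nrm x) ∈ N' := by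
    intro x hx hx0
    refine hc x ?_
    rw [hS', Finset.mem_filter]
    exact ⟨Finset.mem_biUnion.2 ⟨_, ht, hx⟩, hx0⟩
  have hk0 : ∀ x, k x ≠ 0 := by
    intro x h
    have := hk1 x
    rw [h, norm_zero] at this
    exact zero_ne_one this
  simp only at ha hb hc1 hok ⊢
  refine ⟨ha, hb, hc1, hok, hmem _ (by simp), hmem _ (by simp), hmem _ (by simp), ?_, ?_, ?_⟩
  · exact gtri_vert ha (hk1 a) (hk2 a) (hmem _ (by simp) (hk0 a))
      (hmem _ (by simp) (gtri_crs ha (hk1 a) (hk2 a)))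
  · exact gtri_vert hb (hk1 b) (hk2 b) (hmem _ (by simp) (hk0 b))
      (hmem _ (by simp) (gtri_crs hb (hk1 b) (hk2 b)))
  · exact gtri_vert hc1 (hk1 c) (hk2 c) (hmem _ (by simp) (hk0 c))
      (hmem _ (by simp) (gtri_crs hc1 (hk1 c) (hk2 c)))

theorem TriOK.fn {N : Finset E} {a b c : E} (h : TriOK N a b c) : Fn N (tri a b c) :=
  Fn_tri h.pbc h.pca h.pab

/-- sign of a determinant on both sides of a generic point -/
private theorem gtri_ev {f : E → ℝ} (hf : Continuous f) {m n : E} (h0 : f m ≠ 0) :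
    ∀ᶠ ε in 𝓝[>] (0:ℝ), 0 < f (m + ε • n) * f m ∧ 0 < f (m - ε • n) * f m := by
  have hp : 0 < f m * f m := mul_self_pos.2 h0
  have h1 : Continuous fun ε : ℝ => f (m + ε • n) * f m := by fun_prop
  have h2 : Continuous fun ε : ℝ => f (m - ε • n) * f m := by fun_prop
  have e1 : ∀ᶠ ε in 𝓝 (0:ℝ), 0 < f (m + ε • n) * f m :=
    h1.continuousAt.eventually (lt_mem_nhds (by simpa using hp))
  have e2 : ∀ᶠ ε in 𝓝 (0:ℝ), 0 < f (m - ε • n) * f m :=
    h2.continuousAt.eventually (lt_mem_nhds (by simpa using hp))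
  exact (e1.and e2).filter_mono nhdsWithin_le_nhds

private theorem gtri_cont1 (b c : E) : Continuous fun p : E => det3 p b c :=
  continuous_det3.comp (by fun_prop : Continuous fun p : E => ((p, b, c) : E × E × E))

private theorem gtri_cont2 (a c : E) : Continuous fun p : E => det3 a p c :=
  continuous_det3.comp (by fun_prop : Continuous fun p : E => ((a, p, c) : E × E × E))

private theorem gtri_cont3 (a b : E) : Continuous fun p : E => det3 a b p :=
  continuous_det3.comp (by fun_prop : Continuous fun p : E => ((a, b, p) : E × E × E))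

private theorem gtri_ne {N : Finset E} {n m k : E} (hm : OnG N n m)
    (hk : can (nrm k) ∈ N) (hne : can (nrm k) ≠ n) : ⟪k, m⟫ ≠ 0 := by
  intro h0
  refine hm.gen _ hk hne ?_
  rw [inner_can_eq_zero, gtri_inner_nrm]
  exact Or.inr h0

/-- the plane of `x, y` -/
private theorem gtri_plane {N : Finset E} (hN : IsArr N) {n x y z : E} (hn : n ∈ N)
    (hx : ⟪n, x⟫ = 0) (hy : ⟪n, y⟫ = 0) : det3 x y z = det3 n x y * ⟪n, z⟫ := by
  rw [det3_cyc, det3_cyc, det3_eq_inner, crs_eq_smul (hN.unit n hn) hx hy, inner_smul_right,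
    real_inner_comm]

/-- if the plane `n` is the plane of `x, y` then `n` contains both -/
private theorem gtri_can {n x y : E} (h : can (nrm (crs x y)) = n) : ⟪n, x⟫ = 0 ∧ ⟪n, y⟫ = 0 := by
  rw [← h, inner_can_eq_zero, inner_can_eq_zero, gtri_inner_nrm, gtri_inner_nrm]
  exact ⟨Or.inr (inner_crs_left x y), Or.inr (inner_crs_right x y)⟩

private theorem gtri_crs_ne {x y z : E} (h : det3 x y z ≠ 0) : crs x y ≠ 0 := by
  intro h0
  apply h
  rw [det3_cyc, det3_cyc, det3_eq_inner, h0, inner_zero_right]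

private theorem gtri_sg {P F d x D : ℝ} (h : 0 < P * F) (hg : d * F = x * D) (hd : d ≠ 0) :
    (0 < P ↔ 0 < x * (D * d)) ∧ (P < 0 ↔ x * (D * d) < 0) := by
  have h1 : d * d * F = x * (D * d) := by
    calc d * d * F = d * (d * F) := by ring
      _ = x * (D * d) := by rw [hg]; ring
  have hdd : 0 < d * d := mul_self_pos.2 hd
  rcases mul_pos_iff.1 h with ⟨a, b⟩ | ⟨a, b⟩
  · have h2 : 0 < x * (D * d) := by
      rw [← h1]
      exact mul_pos hdd b
    exact ⟨⟨fun _ => h2, fun _ => a⟩,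
      ⟨fun h3 => absurd h3 (not_lt.2 a.le), fun h3 => absurd h3 (not_lt.2 h2.le)⟩⟩
  · have h2 : x * (D * d) < 0 := by
      rw [← h1]
      exact mul_neg_of_pos_of_neg hdd b
    exact ⟨⟨fun h3 => absurd h3 (not_lt.2 a.le), fun h3 => absurd h3 (not_lt.2 h2.le)⟩,
      ⟨fun _ => h2, fun _ => a⟩⟩

private theorem gtri_mp {c : ℝ} (hc : 0 < c) (x : ℝ) : (0 < x * c ↔ 0 < x) ∧ (x * c < 0 ↔ x < 0) := by
  refine ⟨⟨fun h => ?_, fun h => mul_pos h hc⟩, ⟨fun h => ?_, fun h => mul_neg_of_neg_of_pos h hc⟩⟩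
  · by_contra h1
    exact absurd (mul_nonpos_of_nonpos_of_nonneg (not_lt.1 h1) hc.le) (not_le.2 h)
  · by_contra h1
    exact absurd (mul_nonneg (not_lt.1 h1) hc.le) (not_le.2 h)

private theorem gtri_mn {c : ℝ} (hc : c < 0) (x : ℝ) : (0 < x * c ↔ x < 0) ∧ (x * c < 0 ↔ 0 < x) := by
  refine ⟨⟨fun h => ?_, fun h => mul_pos_of_neg_of_neg h hc⟩,
    ⟨fun h => ?_, fun h => mul_neg_of_pos_of_neg h hc⟩⟩
  · by_contra h1
    exact absurd (mul_nonpos_of_nonneg_of_nonpos (not_lt.1 h1) hc.le) (not_le.2 h)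
  · by_contra h1
    exact absurd (mul_nonneg_of_nonpos_of_nonpos (not_lt.1 h1) hc.le) (not_le.2 h)

private theorem gtri_fin {P1 P2 Q1 Q2 x y d D ε : ℝ} (hε : 0 < ε) (hD : D ≠ 0) (hd : d ≠ 0)
    (p1 : (0 < P1 ↔ 0 < x * (D * d)) ∧ (P1 < 0 ↔ x * (D * d) < 0))
    (p2 : (0 < P2 ↔ 0 < y * (D * d)) ∧ (P2 < 0 ↔ y * (D * d) < 0))
    (q1 : (0 < Q1 ↔ 0 < x * (D * d)) ∧ (Q1 < 0 ↔ x * (D * d) < 0))
    (q2 : (0 < Q2 ↔ 0 < y * (D * d)) ∧ (Q2 < 0 ↔ y * (D * d) < 0)) :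
    ((if 0 < P1 ∧ 0 < P2 ∧ 0 < ε * d ∧ 0 < D then (1 : ℤ)
      else if P1 < 0 ∧ P2 < 0 ∧ ε * d < 0 ∧ D < 0 then -1 else 0) -
    (if 0 < Q1 ∧ 0 < Q2 ∧ 0 < -(ε * d) ∧ 0 < D then (1 : ℤ)
      else if Q1 < 0 ∧ Q2 < 0 ∧ -(ε * d) < 0 ∧ D < 0 then -1 else 0)) =
    (if 0 < d ∧ 0 < y ∧ 0 < x then (1 : ℤ) else if d < 0 ∧ y < 0 ∧ x < 0 then -1 else 0) := by
  rcases lt_or_gt_of_ne hD with hD0 | hD0 <;> rcases lt_or_gt_of_ne hd with hd0 | hd0
  · have hc : 0 < D * d := mul_pos_of_neg_of_neg hD0 hd0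
    have a1 : ¬ (0 < D) := not_lt.2 hD0.le
    have a2 : ¬ (0 < d) := not_lt.2 hd0.le
    have a3 : ε * d < 0 := mul_neg_of_pos_of_neg hε hd0
    have a4 : ¬ (-(ε * d) < 0) := by linarith
    simp only [p1, p2, q1, q2, gtri_mp hc, a1, a2, a3, a4, hD0, hd0, and_false, false_and,
      and_true, true_and, if_false, sub_zero]
    by_cases hx0 : x < 0 <;> by_cases hy0 : y < 0 <;> simp [hx0, hy0]
  · have hc : D * d < 0 := mul_neg_of_neg_of_pos hD0 hd0
    have a1 : ¬ (0 < D) := not_lt.2 hD0.le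
    have a2 : ¬ (d < 0) := not_lt.2 hd0.le
    have a3 : ¬ (ε * d < 0) := not_lt.2 (mul_pos hε hd0).le
    have a4 : -(ε * d) < 0 := by linarith [mul_pos hε hd0]
    simp only [p1, p2, q1, q2, gtri_mn hc, a1, a2, a3, a4, hD0, hd0, and_false, false_and,
      and_true, true_and, if_false, sub_zero]
    by_cases hx0 : 0 < x <;> by_cases hy0 : 0 < y <;> simp [hx0, hy0]
  · have hc : D * d < 0 := mul_neg_of_pos_of_neg hD0 hd0
    have a1 : ¬ (D < 0) := not_lt.2 hD0.le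
    have a2 : ¬ (0 < d) := not_lt.2 hd0.le
    have a3 : ¬ (0 < ε * d) := not_lt.2 (mul_neg_of_pos_of_neg hε hd0).le
    have a4 : 0 < -(ε * d) := by linarith [mul_neg_of_pos_of_neg hε hd0]
    simp only [p1, p2, q1, q2, gtri_mn hc, a1, a2, a3, a4, hD0, hd0, and_false, false_and,
      and_true, true_and, if_false, sub_zero]
    by_cases hx0 : x < 0 <;> by_cases hy0 : y < 0 <;> simp [hx0, hy0]
  · have hc : 0 < D * d := mul_pos hD0 hd0
    have a1 : ¬ (D < 0) := not_lt.2 hD0.le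
    have a2 : ¬ (d < 0) := not_lt.2 hd0.le
    have a3 : 0 < ε * d := mul_pos hε hd0
    have a4 : ¬ (0 < -(ε * d)) := by linarith
    simp only [p1, p2, q1, q2, gtri_mp hc, a1, a2, a3, a4, hD0, hd0, and_false, false_and,
      and_true, true_and, if_false, sub_zero]
    by_cases hx0 : 0 < x <;> by_cases hy0 : 0 < y <;> simp [hx0, hy0]

/-- the value of a crossing number in terms of the slopes -/
private theorem gtri_slope {xm ym xy x0 y0 m0 : ℝ} (hx : 0 < x0) (hy : 0 < y0) (hxm : xm ≠ 0)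
    (hym : ym ≠ 0) (h : m0 * xy = y0 * xm - x0 * ym) :
    (if 0 < xy ∧ 0 < xm ∧ 0 < -ym then (1 : ℤ) else if xy < 0 ∧ xm < 0 ∧ -ym < 0 then -1 else 0) =
      (if 0 < m0 ∧ 0 < xm then 1 else 0) - (if 0 < m0 ∧ 0 < ym then 1 else 0) := by
  rcases lt_or_gt_of_ne hxm with h1 | h1 <;> rcases lt_or_gt_of_ne hym with h2 | h2
  · have a1 : ¬ (0 < xm) := not_lt.2 h1.le
    have a2 : ¬ (0 < ym) := not_lt.2 h2.le
    have a3 : ¬ (-ym < 0) := by linarith
    simp [a1, a2, a3]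
  · have a1 : ¬ (0 < xm) := not_lt.2 h1.le
    have a3 : -ym < 0 := by linarith
    have hneg : m0 * xy < 0 := by
      rw [h]
      have := mul_neg_of_pos_of_neg hy h1
      have := mul_pos hx h2
      linarith
    by_cases hm : 0 < m0
    · have hxy : xy < 0 := by
        by_contra h3
        have := mul_nonneg hm.le (not_lt.1 h3)
        linarith
      simp [a1, h1, a3, hm, hxy, h2]
    · have hxy : ¬ (xy < 0) := by
        intro h3
        have := mul_nonneg_of_nonpos_of_nonpos (not_lt.1 hm) h3.le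
        linarith
      simp [a1, hm, hxy]
  · have a1 : ¬ (xm < 0) := not_lt.2 h1.le
    have a2 : ¬ (0 < ym) := not_lt.2 h2.le
    have a3 : 0 < -ym := by linarith
    have hpos : 0 < m0 * xy := by
      rw [h]
      have := mul_pos hy h1
      have := mul_neg_of_pos_of_neg hx h2
      linarith
    by_cases hm : 0 < m0
    · have hxy : 0 < xy := by
        by_contra h3
        have := mul_nonpos_of_nonneg_of_nonpos hm.le (not_lt.1 h3)
        linarith
      simp [a1, h1, a3, hm, hxy, a2]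
    · have hxy : ¬ (0 < xy) := by
        intro h3
        have := mul_nonpos_of_nonpos_of_nonneg (not_lt.1 hm) h3.le
        linarith
      simp [a1, hm, hxy]
  · have a1 : ¬ (xm < 0) := not_lt.2 h1.le
    have a3 : ¬ (0 < -ym) := by linarith
    simp [a1, a3, h1, h2]

/-- the case that `n` is the plane of `a, b` -/
private theorem gtri_case {N : Finset E} (hN : IsArr N) {a b c : E} (hfn : Fn N (tri a b c))
    (hpbc : crs b c ≠ 0 → can (nrm (crs b c)) ∈ N) (hpca : crs c a ≠ 0 → can (nrm (crs c a)) ∈ N)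
    (hd : det3 a b c ≠ 0) {n m : E} (hm : OnG N n m) (hna : ⟪n, a⟫ = 0) (hnb : ⟪n, b⟫ = 0) :
    Jmp (tri a b c) n m = dsg a b n m + dsg b c n m + dsg c a n m := by
  have hn := hm.mem
  have hD : det3 a b c = det3 n a b * ⟪n, c⟫ := gtri_plane hN hn hna hnb
  have hdd : det3 n a b ≠ 0 := by
    intro h0
    rw [hD, h0, zero_mul] at hd
    exact hd rfl
  have hnc : ⟪n, c⟫ ≠ 0 := by
    intro h0
    rw [hD, h0, mul_zero] at hd
    exact hd rfl
  rw [dsg_eq_zero_of_perp (Or.inr hnc : ⟪n, b⟫ ≠ 0 ∨ ⟪n, c⟫ ≠ 0),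
    dsg_eq_zero_of_perp (Or.inl hnc : ⟪n, c⟫ ≠ 0 ∨ ⟪n, a⟫ ≠ 0), add_zero, add_zero]
  have hbc : crs b c ≠ 0 := gtri_crs_ne (z := a) (by rwa [det3_cyc, det3_cyc])
  have hca : crs c a ≠ 0 := gtri_crs_ne (z := b) (by rwa [det3_cyc])
  -- the values at `m`
  have f1m : det3 m b c ≠ 0 := by
    rw [det3_eq_inner, real_inner_comm]
    refine gtri_ne hm (hpbc hbc) fun h => ?_
    exact hnc (gtri_can h).2
  have f2m : det3 a m c ≠ 0 := by
    rw [det3_cyc, det3_eq_inner, real_inner_comm]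
    refine gtri_ne hm (hpca hca) fun h => ?_
    exact hnc (gtri_can h).1
  have f3m : det3 a b m = 0 := by
    rw [gtri_plane hN hn hna hnb, hm.perp, mul_zero]
  have f3n : det3 a b n = det3 n a b := by rw [det3_cyc, det3_cyc]
  have hpl := det3_plane (d := a) hna hnb hm.perp
  have g1 : det3 n a b * det3 m b c = det3 n m b * det3 a b c := by
    have h1 := congrArg (fun x => det3 x b c) hpl
    simp only [det3_smul1, det3_lin1, det3_self12, mul_zero, add_zero] at h1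
    exact h1
  have g2 : det3 n a b * det3 a m c = det3 n a m * det3 a b c := by
    have h1 := congrArg (fun x => det3 a x c) hpl
    simp only [det3_smul2, det3_lin2, det3_self12, mul_zero, zero_add] at h1
    exact h1
  have f3p : ∀ ε : ℝ, det3 a b (m + ε • n) = ε * det3 n a b := by
    intro ε
    have h1 := det3_lin3 1 ε a b m n
    rw [one_smul, one_mul, f3m, f3n, zero_add] at h1
    exact h1
  have f3q : ∀ ε : ℝ, det3 a b (m - ε • n) = -(ε * det3 n a b) := by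
    intro ε
    have h1 := f3p (-ε)
    rw [neg_smul, ← sub_eq_add_neg] at h1
    rw [h1]
    ring
  obtain ⟨ε, h1, h2, h3, h4⟩ := (((sv_eventually hN hfn hm).and
    (gtri_ev (gtri_cont1 b c) (n := n) f1m)).and ((gtri_ev (gtri_cont2 a c) (n := n) f2m).and
      self_mem_nhdsWithin)).exists.imp fun ε h => (⟨h.1.1, h.1.2, h.2.1, h.2.2⟩ : _ ∧ _ ∧ _ ∧ _)
  have hε : 0 < ε := h4
  obtain ⟨e1, e2, -, -⟩ := h1
  obtain ⟨p1, q1⟩ := h2
  obtain ⟨p2, q2⟩ := h3
  unfold Jmp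
  rw [← e1, ← e2]
  have t3 := f3p ε
  have t4 := f3q ε
  have s1 := gtri_sg p1 g1 hdd
  have s2 := gtri_sg p2 g2 hdd
  have s3 := gtri_sg q1 g1 hdd
  have s4 := gtri_sg q2 g2 hdd
  have key := gtri_fin hε hd hdd s1 s2 s3 s4
  unfold tri dsg
  rw [t3, t4]
  simp only [hna, hnb, true_and]
  exact key

private theorem gtri_cyc (a b c : E) : tri a b c = tri b c a := by
  funext p
  have e1 : (0 < det3 p b c ∧ 0 < det3 a p c ∧ 0 < det3 a b p ∧ 0 < det3 a b c) ↔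
      (0 < det3 p c a ∧ 0 < det3 b p a ∧ 0 < det3 b c p ∧ 0 < det3 b c a) := by
    rw [det3_cyc p b c, det3_cyc a p c, det3_cyc a b p, det3_cyc a b c]
    tauto
  have e2 : (det3 p b c < 0 ∧ det3 a p c < 0 ∧ det3 a b p < 0 ∧ det3 a b c < 0) ↔
      (det3 p c a < 0 ∧ det3 b p a < 0 ∧ det3 b c p < 0 ∧ det3 b c a < 0) := by
    rw [det3_cyc p b c, det3_cyc a p c, det3_cyc a b p, det3_cyc a b c]
    tauto
  unfold tri
  simp only [e1, e2]

private theorem gtri_same {P Q F : ℝ} (hp : 0 < P * F) (hq : 0 < Q * F) :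
    (0 < P ↔ 0 < Q) ∧ (P < 0 ↔ Q < 0) := by
  rcases mul_pos_iff.1 hp with ⟨a, b⟩ | ⟨a, b⟩
  · rcases mul_pos_iff.1 hq with ⟨c, d⟩ | ⟨c, d⟩
    · exact ⟨⟨fun _ => c, fun _ => a⟩,
        ⟨fun h => absurd h (not_lt.2 a.le), fun h => absurd h (not_lt.2 c.le)⟩⟩
    · exact absurd b (not_lt.2 d.le)
  · rcases mul_pos_iff.1 hq with ⟨c, d⟩ | ⟨c, d⟩
    · exact absurd d (not_lt.2 b.le)
    · exact ⟨⟨fun h => absurd h (not_lt.2 a.le), fun h => absurd h (not_lt.2 c.le)⟩,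
        ⟨fun _ => c, fun _ => a⟩⟩

/-- nondegenerate triangle -/
theorem Jmp_tri_nondeg {N : Finset E} (hN : IsArr N) {a b c : E} (h : TriOK N a b c)
    (hd : det3 a b c ≠ 0) {n m : E} (hm : OnG N n m) :
    Jmp (tri a b c) n m = dsg a b n m + dsg b c n m + dsg c a n m := by
  by_cases hab : ⟪n, a⟫ = 0 ∧ ⟪n, b⟫ = 0
  · exact gtri_case hN h.fn h.pbc h.pca hd hm hab.1 hab.2
  by_cases hbc : ⟪n, b⟫ = 0 ∧ ⟪n, c⟫ = 0
  · have h1 := gtri_case (a := b) (b := c) (c := a) hN (by rw [← gtri_cyc]; exact h.fn) h.pca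
      h.pab (by rwa [← det3_cyc]) hm hbc.1 hbc.2
    rw [gtri_cyc, h1]
    ring
  by_cases hca : ⟪n, c⟫ = 0 ∧ ⟪n, a⟫ = 0
  · have h1 := gtri_case (a := c) (b := a) (c := b) hN
      (by rw [← gtri_cyc b c a, ← gtri_cyc a b c]; exact h.fn) h.pab
      h.pbc (by rwa [← det3_cyc, ← det3_cyc]) hm hca.1 hca.2
    rw [gtri_cyc, gtri_cyc, h1]
    ring
  rw [dsg_eq_zero_of_perp (not_and_or.1 hab), dsg_eq_zero_of_perp (not_and_or.1 hbc),
    dsg_eq_zero_of_perp (not_and_or.1 hca), add_zero, add_zero]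
  have cab : crs a b ≠ 0 := gtri_crs_ne hd
  have cbc : crs b c ≠ 0 := gtri_crs_ne (z := a) (by rwa [det3_cyc, det3_cyc])
  have cca : crs c a ≠ 0 := gtri_crs_ne (z := b) (by rwa [det3_cyc])
  have f1m : det3 m b c ≠ 0 := by
    rw [det3_eq_inner, real_inner_comm]
    exact gtri_ne hm (h.pbc cbc) fun h0 => hbc (gtri_can h0)
  have f2m : det3 a m c ≠ 0 := by
    rw [det3_cyc, det3_eq_inner, real_inner_comm]
    exact gtri_ne hm (h.pca cca) fun h0 => hca (gtri_can h0)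
  have f3m : det3 a b m ≠ 0 := by
    rw [det3_cyc, det3_cyc, det3_eq_inner, real_inner_comm]
    exact gtri_ne hm (h.pab cab) fun h0 => hab (gtri_can h0)
  obtain ⟨ε, h1, h2, h3, h4⟩ := (((sv_eventually hN h.fn hm).and
    (gtri_ev (gtri_cont1 b c) (n := n) f1m)).and ((gtri_ev (gtri_cont2 a c) (n := n) f2m).and
      (gtri_ev (gtri_cont3 a b) (n := n) f3m))).exists.imp
        fun ε h => (⟨h.1.1, h.1.2, h.2.1, h.2.2⟩ : _ ∧ _ ∧ _ ∧ _)
  obtain ⟨e1, e2, -, -⟩ := h1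
  have s1 := gtri_same h2.1 h2.2
  have s2 := gtri_same h3.1 h3.2
  have s3 := gtri_same h4.1 h4.2
  unfold Jmp
  rw [← e1, ← e2]
  unfold tri
  simp only [s1, s2, s3, sub_self]

private theorem gtri_dz {n x y m : E} (h : ⟪n, x⟫ ≠ 0 ∨ ⟪n, y⟫ ≠ 0 ∨ det3 n x y = 0) :
    dsg x y n m = 0 := by
  rcases h with h | h | h
  · exact dsg_eq_zero_of_perp (Or.inl h)
  · exact dsg_eq_zero_of_perp (Or.inr h)
  · unfold dsg
    rw [h]
    simp

private theorem gtri_dsg {n a x y m : E} (hn : ‖n‖ = 1) (hx : ⟪n, x⟫ = 0) (hy : ⟪n, y⟫ = 0)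
    (hm : ⟪n, m⟫ = 0) (x0 : 0 < ⟪a, x⟫) (y0 : 0 < ⟪a, y⟫) (hxm : det3 n x m ≠ 0)
    (hym : det3 n y m ≠ 0) : dsg x y n m =
      (if 0 < ⟪a, m⟫ ∧ 0 < det3 n x m then 1 else 0) -
        (if 0 < ⟪a, m⟫ ∧ 0 < det3 n y m then 1 else 0) := by
  have hpl := det3_plane (d := a) hx hy hm
  have h1 : ⟪a, m⟫ * det3 n x y = ⟪a, y⟫ * det3 n x m - ⟪a, x⟫ * det3 n y m := by
    have h2 := congrArg (fun z => ⟪a, z⟫) hpl
    simp only [inner_smul_right, inner_add_right] at h2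
    rw [det3_swap23 n y m] at h2
    linarith
  have key := gtri_slope x0 y0 hxm hym h1
  unfold dsg
  rw [det3_swap23 n y m]
  simp only [hx, hy, true_and]
  exact key

/-- degenerate triangle -/
theorem dsg_cyc_deg {N : Finset E} (hN : IsArr N) {a b c : E} (h : TriOK N a b c)
    (hd : det3 a b c = 0) {n m : E} (hm : OnG N n m) :
    dsg a b n m + dsg b c n m + dsg c a n m = 0 := by
  have hn := hm.mem
  have hn1 := hN.unit n hn
  by_cases hall : ⟪n, a⟫ = 0 ∧ ⟪n, b⟫ = 0 ∧ ⟪n, c⟫ = 0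
  · obtain ⟨ha, hb, hc⟩ := hall
    obtain ⟨w, a0, b0, c0⟩ := h.ok.resolve_left fun h0 => h0 hd
    have am := hm.det3_ne_zero hN ⟨h.va, ha⟩
    have bm := hm.det3_ne_zero hN ⟨h.vb, hb⟩
    have cm := hm.det3_ne_zero hN ⟨h.vc, hc⟩
    rw [gtri_dsg hn1 ha hb hm.perp a0 b0 am bm, gtri_dsg hn1 hb hc hm.perp b0 c0 bm cm,
      gtri_dsg hn1 hc ha hm.perp c0 a0 cm am]
    ring
  · have key : ∀ x y z : E, det3 x y z = 0 → ¬ (⟪n, x⟫ = 0 ∧ ⟪n, y⟫ = 0 ∧ ⟪n, z⟫ = 0) →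
        dsg x y n m = 0 := by
      intro x y z hxyz hnot
      by_cases hx : ⟪n, x⟫ = 0
      · by_cases hy : ⟪n, y⟫ = 0
        · have hz : ⟪n, z⟫ ≠ 0 := fun hz => hnot ⟨hx, hy, hz⟩
          have h1 : det3 x y z = det3 n x y * ⟪n, z⟫ := gtri_plane hN hn hx hy
          rw [hxyz] at h1
          exact gtri_dz (Or.inr (Or.inr ((mul_eq_zero.1 h1.symm).resolve_right hz)))
        · exact gtri_dz (Or.inr (Or.inl hy))
      · exact gtri_dz (Or.inl hx)
    rw [key a b c hd hall, key b c a (by rwa [← det3_cyc]) (fun h => hall ⟨h.2.2, h.1, h.2.1⟩),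
      key c a b (by rwa [← det3_cyc, ← det3_cyc]) (fun h => hall ⟨h.2.1, h.2.2, h.1⟩)]
    rfl

theorem Jmp_tri {N : Finset E} (hN : IsArr N) {a b c : E} (h : TriOK N a b c) {n m : E}
    (hm : OnG N n m) : Jmp (tri a b c) n m = dsg a b n m + dsg b c n m + dsg c a n m := by
  by_cases hd : det3 a b c = 0
  · rw [dsg_cyc_deg hN h hd hm]
    obtain ⟨p, q, -, -, hpq⟩ := exists_sides hN hm
    obtain ⟨h1, h2⟩ := hpq _ h.fn
    have h0 : ∀ x : E, tri a b c x = 0 := by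
      intro x
      unfold tri
      rw [hd]
      simp
    unfold Jmp
    rw [h1, h2, h0, h0, sub_zero]
  · exact Jmp_tri_nondeg hN h hd hm

end CGA
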