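import Pool.Agent.CGA.GTVa
import Pool.Agent.CGA.GMod

/-! # PROJECT CGA, module GUse: the facts of the chunk G in the form used by J and K -/

set_option linter.all false

namespace CGA.K

open scoped RealInnerProductSpace Real Topology
open MeasureTheory Set Filter

theorem TV_eq (M : Met) {N : Finset E} (hN : IsArr N) {u : E → ℤ} (hu : Fn N u) :
    TV M u = TVN M N u := CGA.TV_eq M hN hu

theorem EdgeSet_finite {N : Finset E} (hN : IsArr N) : (EdgeSet N).Finite := CGA.EdgeSet_finite hN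

theorem exists_sides {N : Finset E} (hN : IsArr N) {e : E × E × E} (he : e ∈ EdgeSet N) :
    ∃ p q : E, Gen N p ∧ Gen N q ∧ ∀ u : E → ℤ, Fn N u →
      sv u (e.2.1 + e.2.2) e.1 = u p ∧ sv u (e.2.1 + e.2.2) (-e.1) = u q :=
  CGA.exists_sides hN (IsEdge.mid hN he).1

theorem fn_mono {N N' : Finset E} (h : N ⊆ N') {u : E → ℤ} (hu : Fn N u) : Fn N' u :=
  fun x y hxy => hu x y fun n hn => hxy n (h hn)

open Classical in
theorem arr_union {N N' : Finset E} (h : IsArr N) (h' : IsArr N') : IsArr (N ∪ N') := by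
  refine ⟨fun n hn => ?_, fun n hn => ?_, fun i => Finset.mem_union_left _ (h.coord i)⟩
  · rcases Finset.mem_union.1 hn with hn | hn
    · exact h.unit n hn
    · exact h'.unit n hn
  · rcases Finset.mem_union.1 hn with hn | hn
    · exact h.can n hn
    · exact h'.can n hn

theorem af_add {u v : E → ℤ} (hu : AF u) (hv : AF v) : AF fun x => u x + v x := AF.add hu hv

theorem af_neg {u : E → ℤ} (hu : AF u) : AF fun x => - u x := AF.neg hu

theorem af_const (k : ℤ) : AF fun _ => k := AF.const k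

theorem TV_nonneg (M : Met) (u : E → ℤ) : 0 ≤ TV M u := CGA.TV_nonneg M u

theorem TV_add_le (M : Met) {u v : E → ℤ} (hu : AF u) (hv : AF v) :
    TV M (fun x => u x + v x) ≤ TV M u + TV M v := CGA.TV_add_le M hu hv

theorem TV_neg (M : Met) {u : E → ℤ} (hu : AF u) : TV M (fun x => - u x) = TV M u :=
  CGA.TV_neg M hu

theorem TV_add_const (M : Met) {u : E → ℤ} (hu : AF u) (k : ℤ) :
    TV M (fun x => u x + k) = TV M u := CGA.TV_add_const M hu k

theorem af_tri (a b c : E) : AF (tri a b c) := AF_tri a b c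

theorem af_coneF (x : E) (s : Multiset (E × E)) : AF (coneF x s) := AF_coneF x s

/-- an arrangement containing the planes with the given (nonzero) normals -/
theorem exists_arr (V : Finset E) (hV : ∀ v ∈ V, v ≠ 0) :
    ∃ N, IsArr N ∧ ∀ v ∈ V, ∃ n ∈ N, ∃ t : ℝ, t ≠ 0 ∧ v = t • n := by
  obtain ⟨N, -, hN, h⟩ := isArr_extend isArr_base V hV
  refine ⟨N, hN, fun v hv => ⟨_, h v hv, ?_⟩⟩
  have h0 : ‖v‖ ≠ 0 := norm_ne_zero_iff.2 (hV v hv)
  rcases can_eq (nrm v) with h1 | h1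
  · exact ⟨‖v‖, h0, by rw [h1, smul_nrm]⟩
  · exact ⟨-‖v‖, neg_ne_zero.2 h0, by rw [h1, neg_smul_neg, smul_nrm]⟩

theorem arr_mod (M : Met) {u : E → ℤ} (hu : AF u) {δ : ℝ} (hδ : 0 < δ) :
    ∃ z : Multiset (E × E), (∀ e ∈ z, ‖e.1‖ = 1 ∧ ‖e.2‖ = 1 ∧ e.1 ≠ e.2 ∧ ‖e.1 - e.2‖ ≤ δ) ∧
      z.map Prod.fst = z.map Prod.snd ∧ mass M z = TV M u ∧
      ∀ y ≤ z, ∀ (y' : Multiset (E × E)) (S : Multiset (E × Multiset (E × E))),
        (∀ p ∈ S, ‖p.1‖ = 1 ∧ p.2.map Prod.fst = p.2.map Prod.snd ∧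
          ∀ e ∈ p.2, ‖e.1‖ = 1 ∧ ‖e.2‖ = 1 ∧
            (det3 p.1 e.1 e.2 ≠ 0 ∨ ∃ w, 0 < ⟪w, p.1⟫ ∧ 0 < ⟪w, e.1⟫ ∧ 0 < ⟪w, e.2⟫)) →
        (S.map Prod.snd).sum = y' + y.map Prod.swap →
        TV M (fun x => u x + (S.map fun p => coneF p.1 p.2 x).sum) ≤ mass M z - mass M y + mass M y' :=
  arr_modH M hu hδ

end CGA.K
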