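import Pool.Agent.CGA.GSuc2

/-! PROJECT CGA, module GVert: vertices and edges of an arrangement.

`Vert N` is contained in {± nrm (crs n m) : n, m ∈ N, n ≠ m} (eq_of_perp type argument: v ⟂ n, m unit ⇒ v ∥ crs n m ≠ 0), hence finite.  Two non-parallel vertices on the circle of n:
otherwise all k ∈ N, k ≠ n contain the same line d of n^⊥ (k ⟂ d), and also n ⟂ d, contradiction to `IsArr.eq_zero`.  Interior points of an edge are generic for the
other planes (OnG): if ⟪k,m⟫ = 0 for k ≠ n then nrm m is a vertex strictly between.  `OnG.exists_edge`: CSet.exists_arc; det3 n v m = 0 for a vertex v would give m ∥ v, but some k ≠ n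
contains v.  `same_side`: the points of the segment between m and m' are between a and b (positive combinations), so ⟪k,.⟫ has no zero on the segment. -/

set_option linter.all false

namespace CGA

open scoped RealInnerProductSpace Real Topology
open MeasureTheory Set Filter

private theorem GVert_par {v x : E} (hv : ‖v‖ = 1) {d : ℝ} (hd : d ≠ 0) (h : x = d • v) :
    v = nrm x ∨ v = -nrm x := by
  rcases lt_or_gt_of_ne hd with h1 | h1
  · right
    have e : x = (-d) • (-v) := by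
      rw [h, smul_neg, neg_smul, neg_neg]
    rw [e, nrm_smul (neg_pos.2 h1), nrm_neg, nrm_of_unit hv, neg_neg]
  · left
    rw [h, nrm_smul h1, nrm_of_unit hv]

theorem IsArr.vert_finite {N : Finset E} (hN : IsArr N) : (Vert N).Finite := by
  classical
  refine Set.Finite.subset (s := ⋃ p ∈ ((N ×ˢ N : Finset (E × E)) : Set (E × E)),
    {nrm (crs p.1 p.2), -nrm (crs p.1 p.2)}) ?_ ?_
  · exact Set.Finite.biUnion (Finset.finite_toSet _) fun p _ => Set.toFinite _
  · rintro v ⟨hv, n, hn, m, hm, hnm, h1, h2⟩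
    rw [Set.mem_iUnion₂]
    refine ⟨(n, m), by simp [hn, hm], ?_⟩
    have h3 : crs n m = det3 v n m • v :=
      crs_eq_smul hv (by rw [real_inner_comm]; exact h1) (by rw [real_inner_comm]; exact h2)
    have h4 : det3 v n m ≠ 0 := by
      intro h5
      rw [h5, zero_smul] at h3
      exact hN.crs_ne hn hm hnm h3
    exact GVert_par hv h4 h3

theorem EdgeSet_finite {N : Finset E} (hN : IsArr N) : (EdgeSet N).Finite := by
  refine Set.Finite.subset (s := (N : Set E) ×ˢ (Vert N ×ˢ Vert N)) ?_ ?_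
  · exact (Finset.finite_toSet N).prod (hN.vert_finite.prod hN.vert_finite)
  · rintro ⟨n, a, b⟩ h
    exact ⟨h.mem, h.va, h.vb⟩

theorem mem_edg {N : Finset E} (hN : IsArr N) {e : E × E × E} :
    e ∈ edg N ↔ IsEdge N e.1 e.2.1 e.2.2 := by
  unfold edg
  rw [dif_pos (EdgeSet_finite hN), Set.Finite.mem_toFinset]
  rfl

private theorem GVert_anti {N : Finset E} {v : E} (h : v ∈ Vert N) : -v ∈ Vert N := by
  obtain ⟨hv, n, hn, m, hm, hnm, h1, h2⟩ := h
  exact ⟨by rw [norm_neg, hv], n, hn, m, hm, hnm, by rw [inner_neg_right, h1, neg_zero],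
    by rw [inner_neg_right, h2, neg_zero]⟩

private theorem GVert_other {N : Finset E} (hN : IsArr N) (n : E) : ∃ k ∈ N, k ≠ n := by
  by_cases h : EuclideanSpace.single (0 : Fin 3) (1:ℝ) = n
  · refine ⟨_, hN.coord 1, ?_⟩
    rw [← h]
    intro h1
    have h2 := congrArg (fun x : E => x 0) h1
    simp at h2
  · exact ⟨_, hN.coord 0, h⟩

private theorem GVert_nrm_inner {k x : E} (h : ⟪k, x⟫ = 0) : ⟪k, nrm x⟫ = 0 := by
  unfold nrm
  rw [real_inner_smul_right, h, mul_zero]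

private theorem GVert_crs {N : Finset E} (hN : IsArr N) {n k : E} (hn : n ∈ N) (hk : k ∈ N)
    (h : n ≠ k) : nrm (crs n k) ∈ VertOn N n ∧ ⟪k, nrm (crs n k)⟫ = 0 := by
  have h0 := hN.crs_ne hn hk h
  have h1 : ⟪n, crs n k⟫ = 0 := by rw [real_inner_comm]; exact inner_crs_left n k
  have h2 : ⟪k, crs n k⟫ = 0 := by rw [real_inner_comm]; exact inner_crs_right n k
  exact ⟨⟨⟨norm_nrm h0, n, hn, k, hk, h, GVert_nrm_inner h1, GVert_nrm_inner h2⟩,
    GVert_nrm_inner h1⟩, GVert_nrm_inner h2⟩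

theorem IsArr.cset {N : Finset E} (hN : IsArr N) {n : E} (hn : n ∈ N) : CSet n (VertOn N n) where
  n1 := hN.unit n hn
  fin := hN.vert_finite.subset fun v hv => hv.1
  unit := fun v hv => hv.1.1
  perp := fun v hv => hv.2
  anti := fun v hv => ⟨GVert_anti hv.1, by rw [inner_neg_right, hv.2, neg_zero]⟩
  two := by
    obtain ⟨k, hk, hkn⟩ := GVert_other hN n
    obtain ⟨h1, h2⟩ := GVert_crs hN hn hk hkn.symm
    by_contra hcon
    push Not at hcon
    have h3 : ∀ l ∈ N, ⟪l, nrm (crs n k)⟫ = 0 := by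
      intro l hl
      by_cases hln : l = n
      · rw [hln]
        exact h1.2
      · obtain ⟨h4, h5⟩ := GVert_crs hN hn hl (fun h => hln h.symm)
        have h6 := hcon _ h1 _ h4
        rcases (det3_eq_zero_iff (hN.unit n hn) h1.1.1 h4.1.1 h1.2 h4.2).1 h6 with h7 | h7
        · rw [h7]
          exact h5
        · rw [h7, inner_neg_right, h5, neg_zero]
    have h4 := hN.eq_zero h3
    have h5 := h1.1.1
    rw [h4, norm_zero] at h5
    exact zero_ne_one h5

theorem isEdge_iff {N : Finset E} (hN : IsArr N) {n a b : E} :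
    IsEdge N n a b ↔ n ∈ N ∧ Nxt n (VertOn N n) a b := by
  constructor
  · intro h
    exact ⟨h.mem, ⟨h.va, h.na⟩, ⟨h.vb, h.nb⟩, h.pos, fun c hc => h.no c hc.1 hc.2⟩
  · rintro ⟨hn, h⟩
    exact ⟨hn, h.ma.1, h.mb.1, h.ma.2, h.mb.2, h.pos, fun c hc hc' => h.no c ⟨hc, hc'⟩⟩

theorem IsEdge.unit {N : Finset E} {n a b : E} (h : IsEdge N n a b) : ‖a‖ = 1 ∧ ‖b‖ = 1 :=
  ⟨h.va.1, h.vb.1⟩

theorem IsEdge.lt_two {N : Finset E} {n a b : E} (h : IsEdge N n a b) : ‖a - b‖ < 2 ∧ a ≠ b := by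
  obtain ⟨ha, hb⟩ := h.unit
  constructor
  · by_contra h1
    push Not at h1
    have h2 := unit_inner_le ha hb
    have h3 := abs_real_inner_le_norm a b
    rw [ha, hb, mul_one] at h3
    have h4 := (abs_le.1 h3).1
    have h5 : 1 + ⟪a, b⟫ = 0 := by nlinarith
    have h6 := (unit_antipodal ha hb).1 h5
    have h7 := h.pos
    rw [h6, det3_neg2] at h7
    simp at h7
  · intro h1
    have h7 := h.pos
    rw [h1] at h7
    simp at h7

private theorem GVert_det_nrm2 (n a m : E) : det3 n a (nrm m) = ‖m‖⁻¹ * det3 n a m := by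
  unfold nrm
  rw [det3_smul3]

private theorem GVert_det_nrm1 (n a m : E) : det3 n (nrm m) a = ‖m‖⁻¹ * det3 n m a := by
  unfold nrm
  rw [det3_smul2]

theorem IsEdge.onG {N : Finset E} (hN : IsArr N) {n a b m : E} (h : IsEdge N n a b)
    (hm : ⟪n, m⟫ = 0) (hb : Betw n a m b) : OnG N n m := by
  refine ⟨h.mem, hm, fun k hk hkn h0 => ?_⟩
  have hm0 : m ≠ 0 := by
    intro h1
    have h2 := hb.1
    rw [h1] at h2
    have h3 := det3_smul3 0 n a (0:E)
    rw [smul_zero, zero_mul] at h3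
    rw [h3] at h2
    exact lt_irrefl _ h2
  have hpos : 0 < ‖m‖⁻¹ := inv_pos.2 (norm_pos_iff.2 hm0)
  refine h.no (nrm m) ⟨norm_nrm hm0, n, h.mem, k, hk, fun h => hkn h.symm, GVert_nrm_inner hm,
    GVert_nrm_inner h0⟩ (GVert_nrm_inner hm) ⟨?_, ?_⟩
  · rw [GVert_det_nrm2]
    exact mul_pos hpos hb.1
  · rw [GVert_det_nrm1]
    exact mul_pos hpos hb.2

theorem IsEdge.mid {N : Finset E} (hN : IsArr N) {n a b : E} (h : IsEdge N n a b) :
    OnG N n (a + b) ∧ Betw n a (a + b) b := by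
  have h1 : Betw n a (a + b) b := betw_mid h.pos
  exact ⟨h.onG hN (by rw [inner_add_right, h.na, h.nb, add_zero]) h1, h1⟩

theorem OnG.ne_zero {N : Finset E} (hN : IsArr N) {n m : E} (h : OnG N n m) : m ≠ 0 := by
  obtain ⟨k, hk, hkn⟩ := GVert_other hN n
  intro h0
  exact h.gen k hk hkn (by rw [h0, inner_zero_right])

theorem OnG.det3_ne_zero {N : Finset E} (hN : IsArr N) {n m v : E} (h : OnG N n m)
    (hv : v ∈ VertOn N n) : det3 n v m ≠ 0 := by
  intro h0
  have hn := hN.unit n h.mem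
  have h1 : crs v m = det3 n v m • n := crs_eq_smul hn hv.2 h.perp
  have h2 := crs_crs v m
  rw [h1, h0, zero_smul, hv.1.1, one_pow, one_smul] at h2
  have h3 : crs v 0 = 0 := by
    have h4 := crs_smul2 0 v (0:E)
    rw [smul_zero, zero_smul] at h4
    exact h4
  rw [h3] at h2
  have h4 : m = ⟪v, m⟫ • v := (sub_eq_zero.1 h2.symm).symm
  obtain ⟨-, n1, hn1, n2, hn2, h12, e1, e2⟩ := hv.1
  have h5 : ∃ k ∈ N, k ≠ n ∧ ⟪k, v⟫ = 0 := by
    by_cases h6 : n1 = n
    · exact ⟨n2, hn2, fun h7 => h12 (h6.trans h7.symm), e2⟩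
    · exact ⟨n1, hn1, h6, e1⟩
  obtain ⟨k, hk, hkn, hkv⟩ := h5
  refine h.gen k hk hkn ?_
  rw [h4, real_inner_smul_right, hkv, mul_zero]

theorem OnG.exists_edge {N : Finset E} (hN : IsArr N) {n m : E} (h : OnG N n m) :
    ∃ a b, IsEdge N n a b ∧ Betw n a m b := by
  obtain ⟨a, b, h1, h2⟩ := (hN.cset h.mem).exists_arc h.perp fun v hv => h.det3_ne_zero hN hv
  exact ⟨a, b, (isEdge_iff hN).2 ⟨h.mem, h1⟩, h2⟩

theorem IsEdge.unique {N : Finset E} (hN : IsArr N) {n m a b a' b' : E} (hm : ⟪n, m⟫ = 0)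
    (h1 : IsEdge N n a b) (h2 : Betw n a m b) (h3 : IsEdge N n a' b') (h4 : Betw n a' m b') :
    a = a' ∧ b = b' :=
  (hN.cset h1.mem).arc_unique hm ((isEdge_iff hN).1 h1).2 h2 ((isEdge_iff hN).1 h3).2 h4

theorem IsEdge.same_side {N : Finset E} (hN : IsArr N) {n a b m m' : E} (h : IsEdge N n a b)
    (hm : ⟪n, m⟫ = 0) (hm' : ⟪n, m'⟫ = 0) (h1 : Betw n a m b) (h2 : Betw n a m' b) :
    ∀ k ∈ N, k ≠ n → 0 < ⟪k, m⟫ * ⟪k, m'⟫ := by
  intro k hk hkn
  have e1 := (h.onG hN hm h1).gen k hk hkn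
  have e2 := (h.onG hN hm' h2).gen k hk hkn
  by_contra hcon
  push Not at hcon
  have p1 : 0 < |⟪k, m⟫| := abs_pos.2 e1
  have p2 : 0 < |⟪k, m'⟫| := abs_pos.2 e2
  have hB : Betw n a (|⟪k, m'⟫| • m + |⟪k, m⟫| • m') b := by
    constructor
    · rw [det3_lin3]
      exact add_pos (mul_pos p2 h1.1) (mul_pos p1 h2.1)
    · rw [det3_lin2]
      exact add_pos (mul_pos p2 h1.2) (mul_pos p1 h2.2)
  have hp : ⟪n, |⟪k, m'⟫| • m + |⟪k, m⟫| • m'⟫ = 0 := by
    rw [inner_add_right, real_inner_smul_right, real_inner_smul_right, hm, hm', mul_zero, mul_zero,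
      add_zero]
  refine (h.onG hN hp hB).gen k hk hkn ?_
  rw [inner_add_right, real_inner_smul_right, real_inner_smul_right]
  rcases lt_or_gt_of_ne e1 with q1 | q1 <;> rcases lt_or_gt_of_ne e2 with q2 | q2
  · have := mul_pos_of_neg_of_neg q1 q2
    linarith
  · rw [abs_of_neg q1, abs_of_pos q2]
    ring
  · rw [abs_of_pos q1, abs_of_neg q2]
    ring
  · have := mul_pos q1 q2
    linarith

theorem Vert_mono {N N' : Finset E} (h : N ⊆ N') : Vert N ⊆ Vert N' := by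
  rintro v ⟨hv, n, hn, m, hm, r⟩
  exact ⟨hv, n, h hn, m, h hm, r⟩

theorem OnG.mono {N N' : Finset E} (h : N ⊆ N') {n m : E} (hn : n ∈ N) (hm : OnG N' n m) :
    OnG N n m :=
  ⟨hn, hm.perp, fun k hk hkn => hm.gen k (h hk) hkn⟩

theorem OnG.gen_of_notMem {N N' : Finset E} (h : N ⊆ N') {n m : E} (hn : n ∉ N)
    (hm : OnG N' n m) : Gen N m :=
  fun k hk => hm.gen k (h hk) fun h1 => hn (h1 ▸ hk)

/-- two different planes of N through a unit vector make it a vertex -/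
theorem mem_VertOn {N : Finset E} {n k a : E} (hn : n ∈ N) (hk : k ∈ N) (hnk : n ≠ k)
    (ha : ‖a‖ = 1) (h1 : ⟪n, a⟫ = 0) (h2 : ⟪k, a⟫ = 0) : a ∈ VertOn N n :=
  ⟨⟨ha, n, hn, k, hk, hnk, h1, h2⟩, h1⟩

/-- an edge has an outgoing edge at its end, on the same circle -/
theorem exists_out {N : Finset E} (hN : IsArr N) {n a : E} (hn : n ∈ N) (ha : a ∈ VertOn N n) :
    (∃ b, IsEdge N n a b) ∧ (∃ b, IsEdge N n b a) := by
  obtain ⟨b, hb⟩ := (hN.cset hn).exists_nxt ha
  obtain ⟨c, hc⟩ := (hN.cset hn).exists_prev ha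
  exact ⟨⟨b, (isEdge_iff hN).2 ⟨hn, hb⟩⟩, ⟨c, (isEdge_iff hN).2 ⟨hn, hc⟩⟩⟩

end CGA
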