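import Pool.Agent.CGA.HVal

/-! PROJECT CGA, module HCC: the integer `c(u)` and its properties. -/

set_option linter.all false

namespace CGA

open scoped RealInnerProductSpace Real Topology
open MeasureTheory Set Filter

noncomputable section

/-- a total lift with a smaller radius -/
def Tot.shrink {M : Met} {δ L r : ℝ} (T : Tot M δ L r) {r' : ℝ} (h : r' ≤ r) :
    Tot M δ L r' where
  T := T.T
  add := T.add
  cancel := T.cancel
  rev := T.rev
  sub := T.sub
  hol := T.hol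
  loc := fun s hs q hq hr => T.loc s hs q hq fun e he => (hr e he).trans h

open Classical in
/-- the integer `c(u)` -/
def cval {M : Met} {δ L r : ℝ} (T : Tot M δ L r) (u : E → ℤ) : ℤ :=
  if h : ∃ k : ℤ, ∀ N, IsArr N → FineArr δ N → Fn N u → ValN T N u k then h.choose else 0

variable {M : Met} {δ L r : ℝ}

theorem cval_spec (hδ0 : 0 < δ) (hδ : δ ≤ 1) (T : Tot M δ L r) {u : E → ℤ} (hu : AF u)
    (hTV : TV M u < L) {N : Finset E} (hN : IsArr N) (hf : FineArr δ N) (hFu : Fn N u) {p : E}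
    (hp : ‖p‖ = 1) (hg : Gen N p) : T.T (bd N u) = Wst N u p + cval T u := by
  have h := exists_val hδ0 hδ T hu hTV
  unfold cval
  rw [dif_pos h]
  exact h.choose_spec N hN hf hFu p hp hg

private theorem hCC_mid {N : Finset E} (hN : IsArr N) {e : E × E × E} (he : e ∈ edg N) :
    OnG N e.1 (e.2.1 + e.2.2) := (IsEdge.mid hN ((mem_edg hN).1 he)).1

private theorem hCC_Fadd {N : Finset E} {u v : E → ℤ} (hu : Fn N u) (hv : Fn N v) :
    Fn N (fun x => u x + v x) := by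
  intro x y hxy
  simp only
  rw [hu x y hxy, hv x y hxy]

private theorem hCC_Fneg {N : Finset E} {u : E → ℤ} (hu : Fn N u) : Fn N (fun x => - u x) := by
  intro x y hxy
  simp only
  rw [hu x y hxy]

theorem Wst_add {N : Finset E} (hN : IsArr N) {u v : E → ℤ} (hu : Fn N u) (hv : Fn N v) {p : E}
    (hp : ‖p‖ = 1) (hg : Gen N p) :
    Wst N (fun x => u x + v x) p = Wst N u p + Wst N v p := by
  rw [Wst_eq_sum hN _ hp hg, Wst_eq_sum hN _ hp hg, Wst_eq_sum hN _ hp hg]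
  have h1 : ∑ e ∈ edg N, (Je (fun x => u x + v x) e : ℝ) * Th (-p) e.2.1 e.2.2 =
      ∑ e ∈ edg N, (Je u e : ℝ) * Th (-p) e.2.1 e.2.2 +
        ∑ e ∈ edg N, (Je v e : ℝ) * Th (-p) e.2.1 e.2.2 := by
    rw [← Finset.sum_add_distrib]
    refine Finset.sum_congr rfl fun e he => ?_
    have h2 : Je (fun x => u x + v x) e = Je u e + Je v e := Jmp_add hN hu hv (hCC_mid hN he)
    rw [h2]
    push_cast
    ring
  rw [h1]
  push_cast
  ring

theorem Wst_neg {N : Finset E} (hN : IsArr N) {u : E → ℤ} (hu : Fn N u) {p : E}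
    (hp : ‖p‖ = 1) (hg : Gen N p) :
    Wst N (fun x => - u x) p = - Wst N u p := by
  rw [Wst_eq_sum hN _ hp hg, Wst_eq_sum hN _ hp hg]
  have h1 : ∑ e ∈ edg N, (Je (fun x => - u x) e : ℝ) * Th (-p) e.2.1 e.2.2 =
      - ∑ e ∈ edg N, (Je u e : ℝ) * Th (-p) e.2.1 e.2.2 := by
    rw [← Finset.sum_neg_distrib]
    refine Finset.sum_congr rfl fun e he => ?_
    have h2 : Je (fun x => - u x) e = - Je u e := Jmp_neg hN hu (hCC_mid hN he)
    rw [h2]
    push_cast
    ring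
  rw [h1]
  push_cast
  ring

theorem cval_add (hδ0 : 0 < δ) (hδ : δ ≤ 1) (T : Tot M δ L r) {u v : E → ℤ} (hu : AF u)
    (hv : AF v) (h : TV M u + TV M v < L) :
    cval T (fun x => u x + v x) = cval T u + cval T v := by
  have hu0 := TV_nonneg M u
  have hv0 := TV_nonneg M v
  obtain ⟨N, hN, hf, hFu, hFv⟩ := exists_common hδ0 hu hv
  obtain ⟨x, hx⟩ := exists_unitvec
  obtain ⟨p, hp, hg, -⟩ := exists_gen_unit hN hx (ε := 1) one_pos
  have hFuv : Fn N (fun x => u x + v x) := hCC_Fadd hFu hFv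
  have e1 := cval_spec hδ0 hδ T hu (by linarith) hN hf hFu hp hg
  have e2 := cval_spec hδ0 hδ T hv (by linarith) hN hf hFv hp hg
  have e3 := cval_spec hδ0 hδ T (hu.add hv) (by linarith [TV_add_le M hu hv]) hN hf hFuv hp hg
  have g1 := good_bd hN hf hFu (L := L) (M := M) (by linarith)
  have g2 := good_bd hN hf hFv (L := L) (M := M) (by linarith)
  have g3 := good_bd hN hf hFuv (L := L) (M := M) (by linarith [TV_add_le M hu hv])
  obtain ⟨P, hP⟩ := bd_add hN hFu hFv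
  have m1 : mass M (bd N u) = TV M u := by rw [mass_bd M hN, TV_eq M hN hFu]
  have m2 : mass M (bd N v) = TV M v := by rw [mass_bd M hN, TV_eq M hN hFv]
  have e4 := T.add _ _ g1 g2 (by rw [m1, m2]; exact h)
  have hPmem : ∀ e ∈ P, ‖e.1‖ = 1 ∧ ‖e.2‖ = 1 ∧ ‖e.1 - e.2‖ ≤ δ := by
    intro e he
    have h1 : e ∈ bd N u + bd N v := by
      rw [hP]
      exact Multiset.mem_add.2 (Or.inl (Multiset.mem_add.2 (Or.inr he)))
    rcases Multiset.mem_add.1 h1 with h2 | h2
    · exact ⟨(g1.unit e h2).1, (g1.unit e h2).2, g1.mesh e h2⟩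
    · exact ⟨(g2.unit e h2).1, (g2.unit e h2).2, g2.mesh e h2⟩
  have hmass : mass M (bd N (fun x => u x + v x)) + 2 * mass M P < L := by
    have h1 := congrArg (mass M) hP
    rw [mass_add, mass_add, mass_add, mass_swap, m1, m2] at h1
    linarith
  obtain ⟨-, e5⟩ := T.T_cancel g3 P hPmem hmass
  rw [← hP, e4, e1, e2, e3, Wst_add hN hFu hFv hp hg] at e5
  have h3 : ((cval T (fun x => u x + v x) : ℤ) : ℝ) = cval T u + cval T v := by linarith
  exact_mod_cast h3

theorem cval_neg (hδ0 : 0 < δ) (hδ : δ ≤ 1) (T : Tot M δ L r) {u : E → ℤ} (hu : AF u)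
    (h : TV M u < L) : cval T (fun x => - u x) = - cval T u := by
  obtain ⟨N, hN, hf, hFu, -⟩ := exists_common hδ0 hu hu
  obtain ⟨x, hx⟩ := exists_unitvec
  obtain ⟨p, hp, hg, -⟩ := exists_gen_unit hN hx (ε := 1) one_pos
  have e1 := cval_spec hδ0 hδ T hu h hN hf hFu hp hg
  have e3 := cval_spec hδ0 hδ T hu.neg (by rw [TV_neg M hu]; exact h) hN hf (hCC_Fneg hFu) hp hg
  have g1 := good_bd hN hf hFu h
  have e4 := T.rev _ g1
  rw [bd_neg hN hFu, e4, e1, Wst_neg hN hFu hp hg] at e3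
  have h3 : ((cval T (fun x => - u x) : ℤ) : ℝ) = - cval T u := by linarith
  exact_mod_cast h3

theorem cval_const (hδ0 : 0 < δ) (hδ : δ ≤ 1) (T : Tot M δ L r) {u : E → ℤ} (k : ℤ) (hu : AF u)
    (h : TV M u < L) : cval T (fun x => u x + k) = cval T u - k := by
  obtain ⟨N, hN, hf, hFu, -⟩ := exists_common hδ0 hu hu
  obtain ⟨x, hx⟩ := exists_unitvec
  obtain ⟨p, hp, hg, -⟩ := exists_gen_unit hN hx (ε := 1) one_pos
  have hFk : Fn N (fun x => u x + k) := hCC_Fadd hFu (fun _ _ _ => rfl)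
  have e1 := cval_spec hδ0 hδ T hu h hN hf hFu hp hg
  have e3 := cval_spec hδ0 hδ T (hu.add (AF.const k)) (by rw [TV_add_const M hu]; exact h) hN hf
    hFk hp hg
  have e4 : Wst N (fun x => u x + k) p = Wst N u p + k := by
    unfold Wst
    rw [bd_add_const hN hFu]
    push_cast
    ring
  rw [bd_add_const hN hFu, e1, e4] at e3
  have h3 : ((cval T (fun x => u x + k) : ℤ) : ℝ) = cval T u - k := by linarith
  exact_mod_cast h3

theorem cval_loc (hδ0 : 0 < δ) (hδ : δ ≤ 1) (hr : 0 < r) (hr1 : r ≤ 1) (T : Tot M δ L r)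
    {u : E → ℤ} (hu : AF u) (h : TV M u < L) {q : E} (hq : ‖q‖ = 1)
    (h0 : ∃ N, IsArr N ∧ ∀ x, Gen N x → r / 2 < ‖nrm x - q‖ → u x = 0) : cval T u = 0 := by
  classical
  obtain ⟨N₀, hN₀, h0⟩ := h0
  obtain ⟨N₁, hN₁, hF₁⟩ := hu
  obtain ⟨N, hNN, hN, hf⟩ := exists_fineArr (hN₀.union hN₁) hδ0
  have hFu : Fn N u := hF₁.mono (Finset.subset_union_right.trans hNN)
  have h0' : ∀ x, Gen N x → r / 2 < ‖nrm x - q‖ → u x = 0 := fun x hx =>
    h0 x (hx.mono (Finset.subset_union_left.trans hNN))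
  have hnear := bd_near hN hFu h0'
  obtain ⟨p, hp, hg, hpq⟩ := exists_gen_unit hN (x := -q) (by rw [norm_neg]; exact hq)
    (ε := r / 2) (by positivity)
  have e1 := cval_spec hδ0 hδ T ⟨N₁, hN₁, hF₁⟩ h hN hf hFu hp hg
  have g1 := good_bd hN hf hFu h
  have e2 := T.loc _ g1 (-p) (by rw [norm_neg]; exact hp) (by
    intro e he
    have h1 := (hnear e he).1
    have h2 : e.1 - -p = (e.1 - q) + (p - -q) := by abel
    rw [h2]
    refine (norm_add_le _ _).trans ?_
    linarith)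
  have hup : u p = 0 := by
    refine h0' p hg ?_
    rw [nrm_of_unit hp]
    have h1 : p - q = (p - -q) - (2:ℝ) • q := by
      rw [two_smul]
      abel
    have h2 : ‖(2:ℝ) • q‖ = 2 := by
      rw [norm_smul, hq]
      norm_num
    have h3 := norm_sub_norm_le ((2:ℝ) • q) (p - -q)
    rw [norm_sub_rev ((2:ℝ) • q) (p - -q), ← h1, h2] at h3
    linarith
  rw [e2] at e1
  unfold Wst at e1
  rw [hup] at e1
  have h3 : ((cval T u : ℤ) : ℝ) = 0 := by
    push_cast at e1
    linarith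
  exact_mod_cast h3

/-- chunk H (for `r ≤ 1`) -/
theorem cc_exists (M : Met) {δ L r : ℝ} (hδ : 0 < δ) (hδ' : δ ≤ 1) (hr : 0 < r)
    (hr1 : r ≤ 1) (T : Tot M δ L r) : Nonempty (CC M L (r / 2)) :=
  ⟨{ c := cval T
     add := fun u v hu hv h => cval_add hδ hδ' T hu hv h
     neg := fun u hu h => cval_neg hδ hδ' T hu h
     const := fun u k hu h => cval_const hδ hδ' T k hu h
     loc := fun u hu h q hq h0 => cval_loc hδ hδ' hr hr1 T hu h hq h0 }⟩

end

end CGA
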