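import Pool.Agent.CGA.GSt2
import Pool.Agent.CGA.GRef
import Pool.Agent.CGA.GFine
import Pool.Agent.CGA.GTVa
import Pool.Agent.CGA.ACyc

/-! PROJECT CGA, module HTot: the total lift and the area sums under subdivision and cancellation. -/

set_option linter.all false

namespace CGA

open scoped RealInnerProductSpace Real Topology
open MeasureTheory Set Filter

theorem good_bd {M : Met} {δ L : ℝ} {N : Finset E} (hN : IsArr N) (hf : FineArr δ N) {u : E → ℤ}
    (hu : Fn N u) (hTV : TV M u < L) : Good M δ L (bd N u) where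
  unit := by
    intro e he
    obtain ⟨n, ⟨h, -⟩ | ⟨h, -⟩⟩ := mem_bd hN he
    · exact h.unit
    · exact ⟨h.unit.2, h.unit.1⟩
  mesh := by
    intro e he
    obtain ⟨n, ⟨h, -⟩ | ⟨h, -⟩⟩ := mem_bd hN he
    · exact (FineArr.mesh hN hf h).le
    · rw [norm_sub_rev]
      exact (FineArr.mesh hN hf h).le
  bal := bd_balanced hN hu
  len := by
    rw [mass_bd M hN, ← TV_eq M hN hu]
    exact hTV

theorem SubStep.good {M : Met} {δ L : ℝ} (hδ : δ ≤ 1) {s s' : Multiset (E × E)}
    (h : SubStep s s') (hs : Good M δ L s) : Good M δ L s' := by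
  obtain ⟨a, b, s₀, t, ht, ha, hb, hab, rfl, rfl⟩ := h
  have hm : ‖a - b‖ ≤ δ := hs.mesh (a, b) (Multiset.mem_cons_self _ _)
  have hc : ‖nrm ((1 - t) • a + t • b)‖ = 1 := norm_nrm (seg_ne_zero ha hb hab t)
  obtain ⟨h1, h2⟩ := norm_sub_arc_le ha hb (hm.trans hδ) ht
  refine ⟨?_, ?_, ?_, ?_⟩
  · intro e he
    rcases Multiset.mem_cons.1 he with rfl | he
    · exact ⟨ha, hc⟩
    rcases Multiset.mem_cons.1 he with rfl | he
    · exact ⟨hc, hb⟩
    · exact hs.unit e (Multiset.mem_cons_of_mem he)
  · intro e he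
    rcases Multiset.mem_cons.1 he with rfl | he
    · exact h1.trans hm
    rcases Multiset.mem_cons.1 he with rfl | he
    · exact h2.trans hm
    · exact hs.mesh e (Multiset.mem_cons_of_mem he)
  · have h3 := hs.bal
    simp only [Multiset.map_cons] at h3 ⊢
    rw [Multiset.cons_swap, h3]
  · have h3 := hs.len
    rw [mass_cons] at h3
    rw [mass_cons, mass_cons]
    have h4 := ell_add_nrm M ha hb hab ht
    simp only at h3 ⊢
    linarith

theorem Tot.T_subStep {M : Met} {δ L r : ℝ} (T : Tot M δ L r) {s s' : Multiset (E × E)}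
    (h : SubStep s s') (hs : Good M δ L s) : T.T s' = T.T s := by
  obtain ⟨a, b, s₀, t, ht, ha, hb, hab, rfl, rfl⟩ := h
  exact T.sub s₀ a b hs t ht

theorem Tot.T_refine {M : Met} {δ L r : ℝ} (T : Tot M δ L r) (hδ : δ ≤ 1)
    {s s' : Multiset (E × E)} (h : Relation.ReflTransGen SubStep s s') (hs : Good M δ L s) :
    Good M δ L s' ∧ T.T s' = T.T s := by
  induction h with
  | refl => exact ⟨hs, rfl⟩
  | tail _ h2 ih => exact ⟨h2.good hδ ih.1, (T.T_subStep h2 ih.1).trans ih.2⟩

/-- no dart is seen degenerate from `q` -/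
def NDg (q : E) (s : Multiset (E × E)) : Prop := ∀ e ∈ s, det3 q e.1 e.2 ≠ 0 ∨ e.1 = e.2

private theorem hTot_det1 (q a b : E) (t : ℝ) :
    det3 q a (nrm ((1 - t) • a + t • b)) = ‖(1 - t) • a + t • b‖⁻¹ * (t * det3 q a b) := by
  unfold nrm
  rw [det3_smul3, det3_lin3]
  have h : det3 q a a = 0 := by
    unfold det3
    ring
  rw [h]
  ring

private theorem hTot_det2 (q a b : E) (t : ℝ) :
    det3 q (nrm ((1 - t) • a + t • b)) b = ‖(1 - t) • a + t • b‖⁻¹ * ((1 - t) * det3 q a b) := by
  unfold nrm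
  rw [det3_smul2, det3_lin2]
  have h : det3 q b b = 0 := by
    unfold det3
    ring
  rw [h]
  ring

theorem SubStep.thSum {q : E} (hq : ‖q‖ = 1) {s s' : Multiset (E × E)} (h : SubStep s s')
    (hs : NDg q s) : NDg q s' ∧
      (s'.map fun e => Th q e.1 e.2).sum = (s.map fun e => Th q e.1 e.2).sum := by
  obtain ⟨a, b, s₀, t, ht, ha, hb, hab, rfl, rfl⟩ := h
  have hs₀ : NDg q s₀ := fun e he => hs e (Multiset.mem_cons_of_mem he)
  have hc : ‖nrm ((1 - t) • a + t • b)‖ = 1 := norm_nrm (seg_ne_zero ha hb hab t)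
  have hne : ‖(1 - t) • a + t • b‖⁻¹ ≠ 0 :=
    inv_ne_zero (norm_ne_zero_iff.2 (seg_ne_zero ha hb hab t))
  rcases hs (a, b) (Multiset.mem_cons_self _ _) with hd | hd
  · simp only at hd
    refine ⟨?_, ?_⟩
    · intro e he
      rcases Multiset.mem_cons.1 he with rfl | he
      · by_cases h0 : t = 0
        · right
          simp only [h0, sub_zero, one_smul, zero_smul, add_zero]
          exact (nrm_of_unit ha).symm
        · left
          simp only
          rw [hTot_det1]
          exact mul_ne_zero hne (mul_ne_zero h0 hd)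
      rcases Multiset.mem_cons.1 he with rfl | he
      · by_cases h0 : t = 1
        · right
          simp only [h0, sub_self, one_smul, zero_smul, zero_add]
          exact nrm_of_unit hb
        · left
          simp only
          rw [hTot_det2]
          exact mul_ne_zero hne (mul_ne_zero (sub_ne_zero.2 (Ne.symm h0)) hd)
      · exact hs₀ e he
    · simp only [Multiset.map_cons, Multiset.sum_cons]
      have h4 := Th_add hq ha hb hab hd ht
      linarith
  · simp only at hd
    subst hd
    have h1 : (1 - t) • a + t • a = a := by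
      rw [← add_smul]
      simp
    rw [h1, nrm_of_unit ha]
    refine ⟨?_, ?_⟩
    · intro e he
      rcases Multiset.mem_cons.1 he with rfl | he
      · right
        rfl
      rcases Multiset.mem_cons.1 he with rfl | he
      · right
        rfl
      · exact hs₀ e he
    · simp only [Multiset.map_cons, Multiset.sum_cons, Th_self hq ha]
      ring

theorem thSum_refine {q : E} (hq : ‖q‖ = 1) {s s' : Multiset (E × E)}
    (h : Relation.ReflTransGen SubStep s s') (hs : NDg q s) : NDg q s' ∧
      (s'.map fun e => Th q e.1 e.2).sum = (s.map fun e => Th q e.1 e.2).sum := by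
  induction h with
  | refl => exact ⟨hs, rfl⟩
  | tail _ h2 ih =>
    obtain ⟨h3, h4⟩ := h2.thSum hq ih.1
    exact ⟨h3, h4.trans ih.2⟩

theorem Tot.T_cancel {M : Met} {δ L r : ℝ} (T : Tot M δ L r) {s : Multiset (E × E)}
    (hs : Good M δ L s) (P : Multiset (E × E))
    (hP : ∀ e ∈ P, ‖e.1‖ = 1 ∧ ‖e.2‖ = 1 ∧ ‖e.1 - e.2‖ ≤ δ)
    (hm : mass M s + 2 * mass M P < L) :
    Good M δ L (s + P + P.map Prod.swap) ∧ T.T (s + P + P.map Prod.swap) = T.T s := by
  induction P using Multiset.induction_on with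
  | empty =>
    rw [Multiset.map_zero, add_zero, add_zero]
    exact ⟨hs, rfl⟩
  | cons e P ih =>
    rw [mass_cons] at hm
    have hell : 0 ≤ ell M e.1 e.2 := ell_nonneg M _ _
    obtain ⟨h1, h2⟩ := ih (fun e' he' => hP e' (Multiset.mem_cons_of_mem he')) (by linarith)
    obtain ⟨ha, hb, hab⟩ := hP e (Multiset.mem_cons_self _ _)
    have heq : s + (e ::ₘ P) + (e ::ₘ P).map Prod.swap =
        (e.1, e.2) ::ₘ (e.2, e.1) ::ₘ (s + P + P.map Prod.swap) := by
      rw [Multiset.map_cons, Multiset.add_cons, Multiset.add_cons, Multiset.cons_add,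
        Multiset.cons_swap]
      rfl
    have hmass : mass M (s + P + P.map Prod.swap) + 2 * ell M e.1 e.2 < L := by
      rw [mass_add, mass_add, mass_swap]
      linarith
    rw [heq]
    refine ⟨⟨?_, ?_, ?_, ?_⟩, ?_⟩
    · intro d hd
      rcases Multiset.mem_cons.1 hd with rfl | hd
      · exact ⟨ha, hb⟩
      rcases Multiset.mem_cons.1 hd with rfl | hd
      · exact ⟨hb, ha⟩
      · exact h1.unit d hd
    · intro d hd
      rcases Multiset.mem_cons.1 hd with rfl | hd
      · exact hab
      rcases Multiset.mem_cons.1 hd with rfl | hd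
      · rw [norm_sub_rev]
        exact hab
      · exact h1.mesh d hd
    · simp only [Multiset.map_cons]
      rw [Multiset.cons_swap, h1.bal]
    · rw [mass_cons, mass_cons]
      simp only
      rw [ell_comm M e.2 e.1]
      linarith
    · rw [T.cancel _ e.1 e.2 h1 ha hb hab hmass, h2]

end CGA
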