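import Pool.Agent.CGA.HTot

/-! PROJECT CGA, module HVal: the integer attached to an arrangement function. -/

set_option linter.all false

namespace CGA

open scoped RealInnerProductSpace Real Topology
open MeasureTheory Set Filter

/-- the darts of the boundary are not degenerate seen from `-p`, `p` generic -/
theorem det3_bd_ne {N : Finset E} (hN : IsArr N) {u : E → ℤ} {p : E} (hp : Gen N p)
    {e : E × E} (he : e ∈ bd N u) : det3 (-p) e.1 e.2 ≠ 0 := by
  have key : ∀ n a b, IsEdge N n a b → det3 (-p) a b ≠ 0 := by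
    intro n a b h
    rw [det3_neg1, det3_eq_inner, crs_eq_smul (hN.unit n h.mem) h.na h.nb, inner_smul_right,
      real_inner_comm]
    exact neg_ne_zero.2 (mul_ne_zero h.pos.ne' (hp n h.mem))
  obtain ⟨n, ⟨h, -⟩ | ⟨h, -⟩⟩ := mem_bd hN he
  · exact key n _ _ h
  · rw [det3_swap23]
    exact neg_ne_zero.2 (key n _ _ h)

theorem exists_gen_unit {N : Finset E} (hN : IsArr N) {x : E} (hx : ‖x‖ = 1) {ε : ℝ}
    (hε : 0 < ε) : ∃ p, ‖p‖ = 1 ∧ Gen N p ∧ ‖p - x‖ < ε := by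
  have hN0 : ∀ n ∈ N, n ≠ 0 := by
    intro n hn h
    have := hN.unit n hn
    rw [h, norm_zero] at this
    exact zero_ne_one this
  obtain ⟨y, hy, hg⟩ := exists_gen_near N hN0 x (ε := min (ε / 2) (1 / 2)) (by positivity)
  have h1 : ‖y - x‖ < ε / 2 := hy.trans_le (min_le_left _ _)
  have h2 : ‖y - x‖ < 1 / 2 := hy.trans_le (min_le_right _ _)
  have hyn : 1 / 2 ≤ ‖y‖ := by
    have h3 := norm_sub_norm_le x y
    rw [norm_sub_rev, hx] at h3
    linarith
  refine ⟨nrm y, norm_nrm (hg.ne_zero hN), gen_nrm hN hg, ?_⟩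
  have h4 := norm_nrm_sub_le (x := y) (y := x) (ρ := 1 / 2) (by norm_num) hyn (by rw [hx]; norm_num)
  rw [nrm_of_unit hx] at h4
  have h5 : ‖y - x‖ / (1 / 2) = 2 * ‖y - x‖ := by ring
  rw [h5] at h4
  linarith

/-- `k` is the value of `u` computed in `N` -/
def ValN {M : Met} {δ L r : ℝ} (T : Tot M δ L r) (N : Finset E) (u : E → ℤ) (k : ℤ) : Prop :=
  ∀ p, ‖p‖ = 1 → Gen N p → T.T (bd N u) = Wst N u p + k

theorem exists_unitvec : ∃ x : E, ‖x‖ = 1 := ⟨EuclideanSpace.single 0 1, by simp⟩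

theorem exists_valN {M : Met} {δ L r : ℝ} (T : Tot M δ L r) {N : Finset E} (hN : IsArr N)
    (hf : FineArr δ N) {u : E → ℤ} (hu : Fn N u) (hTV : TV M u < L) : ∃ k, ValN T N u k := by
  obtain ⟨x, hx⟩ := exists_unitvec
  obtain ⟨p, hp, hg, -⟩ := exists_gen_unit hN hx (ε := 1) one_pos
  have hG := good_bd hN hf hu hTV
  obtain ⟨k, hk⟩ := T.hol _ hG (-p) (by rw [norm_neg]; exact hp)
    (fun e he => det3_bd_ne hN hg he)
  refine ⟨k - u p, fun p' hp' hg' => ?_⟩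
  rw [stokes hN hu hp' hp hg' hg, hk]
  unfold Wst
  push_cast
  ring

theorem ValN.unique {M : Met} {δ L r : ℝ} {T : Tot M δ L r} {N : Finset E} (hN : IsArr N)
    {u : E → ℤ} {k k' : ℤ} (h : ValN T N u k) (h' : ValN T N u k') : k = k' := by
  obtain ⟨x, hx⟩ := exists_unitvec
  obtain ⟨p, hp, hg, -⟩ := exists_gen_unit hN hx (ε := 1) one_pos
  have h1 := h p hp hg
  have h2 := h' p hp hg
  rw [h1] at h2
  have h3 : (k : ℝ) = k' := by linarith
  exact_mod_cast h3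

theorem ValN.mono {M : Met} {δ L r : ℝ} (hδ : δ ≤ 1) {T : Tot M δ L r} {N N' : Finset E}
    (hN : IsArr N) (hN' : IsArr N') (hNN : N ⊆ N') (hf : FineArr δ N) {u : E → ℤ} (hu : Fn N u)
    (hTV : TV M u < L) {k : ℤ} (h : ValN T N u k) : ValN T N' u k := by
  intro p hp hg
  have hg0 : Gen N p := hg.mono hNN
  have hG := good_bd hN hf hu hTV
  have href := bd_refine hN hN' hNN hu
  obtain ⟨-, h1⟩ := T.T_refine hδ href hG
  obtain ⟨-, h2⟩ := thSum_refine (q := -p) (by rw [norm_neg]; exact hp) href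
    (fun e he => Or.inl (det3_bd_ne hN hg0 he))
  rw [h1, h p hp hg0]
  unfold Wst
  rw [h2]

theorem exists_common {δ : ℝ} (hδ : 0 < δ) {u v : E → ℤ} (hu : AF u) (hv : AF v) :
    ∃ N, IsArr N ∧ FineArr δ N ∧ Fn N u ∧ Fn N v := by
  obtain ⟨N, hN, h1, h2⟩ := hu.common hv
  obtain ⟨N', h3, h4, h5⟩ := exists_fineArr hN hδ
  exact ⟨N', h4, h5, h1.mono h3, h2.mono h3⟩

/-- the integer `c(u)` exists -/
theorem exists_val {M : Met} {δ L r : ℝ} (hδ0 : 0 < δ) (hδ : δ ≤ 1) (T : Tot M δ L r)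
    {u : E → ℤ} (hu : AF u) (hTV : TV M u < L) :
    ∃ k : ℤ, ∀ N, IsArr N → FineArr δ N → Fn N u → ValN T N u k := by
  classical
  obtain ⟨N, hN, hf, hFu, -⟩ := exists_common hδ0 hu hu
  obtain ⟨k, hk⟩ := exists_valN T hN hf hFu hTV
  refine ⟨k, fun N' hN' hf' hFu' => ?_⟩
  obtain ⟨k', hk'⟩ := exists_valN T hN' hf' hFu' hTV
  have hU : IsArr (N ∪ N') := hN.union hN'
  have h1 : ValN T (N ∪ N') u k :=
    hk.mono hδ hN hU Finset.subset_union_left hf hFu hTV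
  have h2 : ValN T (N ∪ N') u k' :=
    hk'.mono hδ hN' hU Finset.subset_union_right hf' hFu' hTV
  rw [h1.unique hU h2]
  exact hk'

end CGA
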