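import Pool.Agent.CGA.IGen

/-! PROJECT CGA, module IAvoid (chunk I). A generic point outside of finitely many small balls.
Let `e = EuclideanSpace.single 0 1`, `e' = EuclideanSpace.single 1 1`. The set `B ⊆ ℝ` of the `h` with `|h - ⟪e, x⟫| ≤ R` for some `(x, R) ∈ Q` is closed (finite union of closed intervals) and has
measure `≤ ∑ 2 R < 2` (induction on the list, `Real.volume_Icc`, `measure_union_le`), so there is `h ∈ (-1, 1)` not in `B`. The set `V = {y | y ≠ 0 ∧ ⟪e, nrm y⟫ ∉ B}` is open (`continuousOn_nrm`)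
and contains `h e + √(1 - h²) e'`. Take a generic point `p ∈ V` (`exists_gen`). For `(x, R) ∈ Q`: `R < |⟪e, nrm p⟫ - ⟪e, x⟫| ≤ ‖nrm p - x‖` (`abs_real_inner_le_norm`). -/

set_option linter.all false

namespace CGA

open scoped RealInnerProductSpace Real Topology
open MeasureTheory Set Filter

private theorem IAvoid_sum (Q : List (E × ℝ)) (hR : ∀ i ∈ Q, 0 ≤ i.2) :
    0 ≤ (Q.map Prod.snd).sum := by
  refine List.sum_nonneg fun r hr => ?_
  obtain ⟨i, hi, rfl⟩ := List.mem_map.1 hr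
  exact hR i hi

private theorem IAvoid_B (Q : List (E × ℝ)) (hR : ∀ i ∈ Q, 0 ≤ i.2) :
    ∃ B : Set ℝ, IsClosed B ∧ volume B ≤ ENNReal.ofReal (2 * (Q.map Prod.snd).sum) ∧
      ∀ i ∈ Q, ∀ h : ℝ, |h - i.1 0| ≤ i.2 → h ∈ B := by
  induction Q with
  | nil =>
    refine ⟨∅, isClosed_empty, by simp, ?_⟩
    intro i hi
    simp at hi
  | cons j Q ih =>
    have hR' : ∀ i ∈ Q, 0 ≤ i.2 := fun i hi => hR i (List.mem_cons_of_mem _ hi)
    obtain ⟨B, hB, hv, hm⟩ := ih hR'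
    have hj : 0 ≤ j.2 := hR j List.mem_cons_self
    refine ⟨B ∪ Icc (j.1 0 - j.2) (j.1 0 + j.2), hB.union isClosed_Icc, ?_, ?_⟩
    · refine (measure_union_le _ _).trans ?_
      rw [Real.volume_Icc, List.map_cons, List.sum_cons]
      have h1 : j.1 0 + j.2 - (j.1 0 - j.2) = 2 * j.2 := by ring
      have h2 : 2 * (j.2 + (Q.map Prod.snd).sum) = 2 * (Q.map Prod.snd).sum + 2 * j.2 := by ring
      have h3 := IAvoid_sum Q hR'
      rw [h1, h2, ENNReal.ofReal_add (by positivity) (by positivity)]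
      gcongr
    · intro i hi h hh
      rcases List.mem_cons.1 hi with rfl | hi'
      · right
        have := abs_le.1 hh
        exact ⟨by linarith [this.1], by linarith [this.2]⟩
      · left
        exact hm i hi' h hh

theorem exists_gen_outside {N : Finset E} (hN : IsArr N) (Q : List (E × ℝ))
    (hR : ∀ i ∈ Q, 0 ≤ i.2) (hsum : (Q.map Prod.snd).sum < 1) :
    ∃ p, Gen N p ∧ ∀ i ∈ Q, i.2 < ‖nrm p - i.1‖ := by
  obtain ⟨B, hB, hv, hm⟩ := IAvoid_B Q hR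
  have hs := IAvoid_sum Q hR
  obtain ⟨h, hh, hhB⟩ : ∃ h ∈ Ioo (-1 : ℝ) 1, h ∉ B := by
    by_contra hcon
    push Not at hcon
    have h1 : volume (Ioo (-1 : ℝ) 1) ≤ ENNReal.ofReal (2 * (Q.map Prod.snd).sum) :=
      (measure_mono hcon).trans hv
    rw [Real.volume_Ioo, ENNReal.ofReal_le_ofReal_iff (by positivity)] at h1
    linarith
  have hVo : IsOpen {y : E | y ≠ 0 ∧ (nrm y) 0 ∉ B} := by
    have h1 : ContinuousOn (fun y : E => (nrm y) 0) {x : E | x ≠ 0} :=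
      (EuclideanSpace.proj (𝕜 := ℝ) (0 : Fin 3)).continuous.comp_continuousOn continuousOn_nrm
    exact h1.isOpen_inter_preimage isOpen_ne hB.isOpen_compl
  have hVn : {y : E | y ≠ 0 ∧ (nrm y) 0 ∉ B}.Nonempty := by
    have hsq : 0 ≤ 1 - h ^ 2 := by nlinarith [hh.1, hh.2]
    have hn : ‖(WithLp.toLp 2 ![h, √(1 - h ^ 2), 0] : E)‖ = 1 := by
      rw [EuclideanSpace.norm_eq, Fin.sum_univ_three]
      have h2 : ‖(WithLp.toLp 2 ![h, √(1 - h ^ 2), 0] : E) 0‖ ^ 2 +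
          ‖(WithLp.toLp 2 ![h, √(1 - h ^ 2), 0] : E) 1‖ ^ 2 +
          ‖(WithLp.toLp 2 ![h, √(1 - h ^ 2), 0] : E) 2‖ ^ 2 = 1 := by
        simp only [Real.norm_eq_abs, sq_abs]
        show h ^ 2 + √(1 - h ^ 2) ^ 2 + 0 ^ 2 = 1
        rw [Real.sq_sqrt hsq]
        ring
      rw [h2, Real.sqrt_one]
    refine ⟨WithLp.toLp 2 ![h, √(1 - h ^ 2), 0], ?_, ?_⟩
    · intro h0
      rw [h0, norm_zero] at hn
      exact zero_ne_one hn
    · rw [nrm_of_unit hn]
      exact hhB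
  obtain ⟨p, ⟨_, hp2⟩, hp⟩ := exists_gen hN hVo hVn
  refine ⟨p, hp, fun i hi => ?_⟩
  by_contra hcon
  push Not at hcon
  refine hp2 (hm i hi _ (le_trans ?_ hcon))
  have h3 := PiLp.norm_apply_le (nrm p - i.1) 0
  rw [Real.norm_eq_abs] at h3
  exact h3

end CGA
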