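import Pool.Agent.CGA.IDefs

/-! PROJECT CGA, module ISup (chunk I). The support of a cone.
`tri_supp`: let `D = det3 x a b ≠ 0`. By `cramer`, `D p = det3 p a b • x + det3 x p b • a + det3 x a p • b`, and (the definition of `tri`) the three coefficients divided by `D` are
positive: `p = α x + β a + γ b`. With `s = α + β + γ > 0` the point `y = s⁻¹ p` is a convex combination, so `‖y - x‖ ≤ R`; `y ≠ 0` (else `D = 0`), `nrm p = nrm y`
and `‖nrm y - y‖ = |1 - ‖y‖| ≤ ‖x - y‖ ≤ R`. `coneF_supp`: every summand is zero.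
`OkCone.of_near`: clear. -/

set_option linter.all false

namespace CGA

open scoped RealInnerProductSpace Real Topology
open MeasureTheory Set Filter

private theorem isup_aux {x a b p : E} {R α β γ : ℝ} (hx : ‖x‖ = 1) (ha : ‖a - x‖ ≤ R)
    (hb : ‖b - x‖ ≤ R) (hα : 0 < α) (hβ : 0 < β) (hγ : 0 < γ)
    (hp : p = α • x + β • a + γ • b) (hp0 : p ≠ 0) : ‖nrm p - x‖ ≤ 2 * R := by
  have hR : 0 ≤ R := (norm_nonneg _).trans ha
  obtain ⟨s, hs⟩ : ∃ s, s = α + β + γ := ⟨_, rfl⟩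
  have hs0 : 0 < s := by rw [hs]; positivity
  obtain ⟨y, hy⟩ : ∃ y : E, y = s⁻¹ • p := ⟨_, rfl⟩
  have hyx : ‖y - x‖ ≤ R := by
    have e1 : y - x = (β / s) • (a - x) + (γ / s) • (b - x) := by
      have e2 : s • (y - x) = s • ((β / s) • (a - x) + (γ / s) • (b - x)) := by
        rw [hy, smul_sub, smul_smul, mul_inv_cancel₀ hs0.ne', one_smul, smul_add, smul_smul,
          smul_smul, mul_div_cancel₀ _ hs0.ne', mul_div_cancel₀ _ hs0.ne', hp, hs]
        module
      have e3 := congrArg (fun v => s⁻¹ • v) e2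
      simpa only [smul_smul, inv_mul_cancel₀ hs0.ne', one_smul] using e3
    rw [e1]
    refine (norm_add_le _ _).trans ?_
    rw [norm_smul, norm_smul, Real.norm_eq_abs, Real.norm_eq_abs, abs_of_pos (by positivity),
      abs_of_pos (by positivity)]
    have e4 : β / s * ‖a - x‖ ≤ β / s * R := mul_le_mul_of_nonneg_left ha (by positivity)
    have e5 : γ / s * ‖b - x‖ ≤ γ / s * R := mul_le_mul_of_nonneg_left hb (by positivity)
    have e6 : β / s + γ / s ≤ 1 := by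
      rw [← add_div, div_le_one hs0, hs]
      linarith
    have e7 : (β / s + γ / s) * R ≤ 1 * R := mul_le_mul_of_nonneg_right e6 hR
    linarith
  have hy0 : y ≠ 0 := by
    rw [hy]
    exact smul_ne_zero (inv_ne_zero hs0.ne') hp0
  have hn : 0 < ‖y‖ := norm_pos_iff.2 hy0
  have hnrm : nrm p = nrm y := by
    unfold nrm
    rw [hy, norm_smul, norm_inv, Real.norm_eq_abs, abs_of_pos hs0, mul_inv, inv_inv, smul_smul]
    congr 1
    field_simp
  have h1 : ‖nrm y - y‖ ≤ R := by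
    have e1 : nrm y - y = (‖y‖⁻¹ - 1) • y := by
      unfold nrm
      rw [sub_smul, one_smul]
    rw [e1, norm_smul, Real.norm_eq_abs]
    have e2 : |‖y‖⁻¹ - 1| * ‖y‖ = |1 - ‖y‖| := by
      rw [← abs_of_pos hn, ← abs_mul, abs_of_pos hn, sub_mul, inv_mul_cancel₀ hn.ne', one_mul]
    rw [e2, ← hx]
    refine (abs_norm_sub_norm_le x y).trans ?_
    rw [norm_sub_rev]
    exact hyx
  rw [hnrm]
  calc ‖nrm y - x‖ = ‖(nrm y - y) + (y - x)‖ := by rw [sub_add_sub_cancel]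
    _ ≤ ‖nrm y - y‖ + ‖y - x‖ := norm_add_le _ _
    _ ≤ 2 * R := by linarith

theorem tri_supp {x a b p : E} {R : ℝ} (hx : ‖x‖ = 1) (ha : ‖a - x‖ ≤ R) (hb : ‖b - x‖ ≤ R)
    (h : tri x a b p ≠ 0) : ‖nrm p - x‖ ≤ 2 * R := by
  have hc := cramer x a b p
  have hp0 : det3 p a b ≠ 0 → p ≠ 0 := by
    rintro h1 rfl
    apply h1
    simp [det3]
  unfold tri at h
  split_ifs at h with h1 h2
  · obtain ⟨hA, hB, hC, hD⟩ := h1
    refine isup_aux (α := det3 p a b / det3 x a b) (β := det3 x p b / det3 x a b)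
      (γ := det3 x a p / det3 x a b) hx ha hb (by positivity) (by positivity) (by positivity) ?_
      (hp0 hA.ne')
    have e3 := congrArg (fun v => (det3 x a b)⁻¹ • v) hc
    simp only [smul_add, smul_smul, inv_mul_cancel₀ hD.ne', one_smul] at e3
    rw [div_eq_inv_mul, div_eq_inv_mul, div_eq_inv_mul]
    exact e3
  · obtain ⟨hA, hB, hC, hD⟩ := h2
    refine isup_aux (α := det3 p a b / det3 x a b) (β := det3 x p b / det3 x a b)
      (γ := det3 x a p / det3 x a b) hx ha hb (div_pos_of_neg_of_neg hA hD)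
      (div_pos_of_neg_of_neg hB hD) (div_pos_of_neg_of_neg hC hD) ?_ (hp0 hA.ne)
    have e3 := congrArg (fun v => (det3 x a b)⁻¹ • v) hc
    simp only [smul_add, smul_smul, inv_mul_cancel₀ hD.ne, one_smul] at e3
    rw [div_eq_inv_mul, div_eq_inv_mul, div_eq_inv_mul]
    exact e3
  · exact absurd rfl h

theorem coneF_supp {x : E} {s : Multiset (E × E)} {R : ℝ} (hx : ‖x‖ = 1)
    (hs : ∀ e ∈ s, ‖e.1 - x‖ ≤ R ∧ ‖e.2 - x‖ ≤ R) {p : E} (hp : 2 * R < ‖nrm p - x‖) :
    coneF x s p = 0 := by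
  unfold coneF
  refine Multiset.sum_eq_zero fun k hk => ?_
  obtain ⟨e, he, rfl⟩ := Multiset.mem_map.1 hk
  by_contra h
  exact absurd (tri_supp hx (hs e he).1 (hs e he).2 h) (not_le.2 hp)

theorem OkCone.of_near {x : E} {s : Multiset (E × E)} {R : ℝ} (hx : ‖x‖ = 1) (hR : R < 1)
    (hbal : s.map Prod.fst = s.map Prod.snd)
    (hs : ∀ e ∈ s, ‖e.1‖ = 1 ∧ ‖e.2‖ = 1 ∧ ‖e.1 - x‖ ≤ R ∧ ‖e.2 - x‖ ≤ R) : OkCone x s := by
  refine ⟨hx, hbal, fun e he => ?_⟩
  obtain ⟨h1, h2, h3, h4⟩ := hs e he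
  exact ⟨h1, h2, h3.trans hR.le, h4.trans hR.le⟩

end CGA
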