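import Pool.Agent.CGA.IGen
import Pool.Agent.CGA.ISup

/-! PROJECT CGA, module ICc (chunk I). Properties of `c`.
`c_zero`: `C.add` for `u = v = 0` (`hG.tv_const`). `c_const`: `C.const` for `u = 0`. `c_congr`: `v = u + (v - u)`, `v - u` is generically `0`, so its `TV` is `TV 0 = 0` (`tv_congr`, `tv_const`) and
`c (v - u) = 0` by `C.loc` (any unit `q`, e.g. `EuclideanSpace.single 0 1`); then `C.add`.
`tv_cone`: `Bdry M 0 1 z` (`hG.bdry`), `mass z = TV 0 = 0`, and `mod` for `y = 0`, `y' = s`, `S = {(x, s)}`.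
`c_cone`: `C.loc` with `q = x`: generic (all) `p` with `r < ‖nrm p - x‖` have `2 R < ‖nrm p - x‖` (`coneF_supp`). `c_add_cone`: `C.add`. -/

set_option linter.all false

namespace CGA

open scoped RealInnerProductSpace Real Topology
open MeasureTheory Set Filter

theorem CC.c_zero {M : Met} {L r : ℝ} (hG : GFacts M) (C : CC M L r) (hL : 0 < L) :
    C.c (fun _ => 0) = 0 := by
  have h := C.add (fun _ => 0) (fun _ => 0) (hG.af_const 0) (hG.af_const 0)
    (by rw [hG.tv_const, add_zero]; exact hL)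
  have h2 : (fun x : E => (0 : ℤ) + 0) = fun _ => 0 := rfl
  rw [h2] at h
  exact (add_eq_left.1 h.symm)

theorem CC.c_const {M : Met} {L r : ℝ} (hG : GFacts M) (C : CC M L r) (hL : 0 < L) (k : ℤ) :
    C.c (fun _ => k) = -k := by
  have h := C.const (fun _ => 0) k (hG.af_const 0) (by rw [hG.tv_const]; exact hL)
  rw [CC.c_zero hG C hL, zero_sub] at h
  have h2 : (fun x : E => (0 : ℤ) + k) = fun _ => k := by
    funext x
    exact zero_add k
  rw [h2] at h
  exact h

theorem CC.c_congr {M : Met} {L r : ℝ} (hG : GFacts M) (C : CC M L r) {u v : E → ℤ} (hu : AF u)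
    (hv : AF v) (h : EqG u v) (hT : TV M u < L) : C.c u = C.c v := by
  have hw : AF (fun x => v x + (fun x => - u x) x) := hG.af_add v _ hv (hG.af_neg u hu)
  have hw0 : EqG (fun x => v x + (fun x => - u x) x) (fun _ => 0) := by
    obtain ⟨N, hN, h1⟩ := h
    refine ⟨N, hN, fun x hx => ?_⟩
    show v x + - u x = 0
    rw [h1 x hx, add_neg_cancel]
  have hTw : TV M (fun x => v x + (fun x => - u x) x) = 0 := by
    rw [hG.tv_congr _ _ hw (hG.af_const 0) hw0, hG.tv_const]
  have hL : 0 < L := (hG.tv_nonneg u).trans_lt hT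
  have hc : C.c (fun x => v x + (fun x => - u x) x) = 0 := by
    refine C.loc _ hw (by rw [hTw]; exact hL) (EuclideanSpace.single 0 1) (by simp) ?_
    obtain ⟨N, hN, h1⟩ := hw0
    exact ⟨N, hN, fun x hx _ => h1 x hx⟩
  have h2 := C.add u (fun x => v x + (fun x => - u x) x) hu hw (by rw [hTw, add_zero]; exact hT)
  rw [hc, add_zero] at h2
  rw [← h2]
  congr 1
  funext x
  show u x + (v x + - u x) = v x
  ring

theorem tv_cone {M : Met} (hG : GFacts M) {x : E} {s : Multiset (E × E)} (h : OkCone x s) :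
    TV M (coneF x s) ≤ mass M s := by
  obtain ⟨z, hz⟩ := hG.bdry (fun _ => 0) (hG.af_const 0) 1 one_pos
  have h1 : mass M z = 0 := by rw [hz.mass_eq, hG.tv_const]
  have h2 := hz.mod 0 (Multiset.zero_le z) s {(x, s)} (fun p hp => by
    rw [Multiset.mem_singleton.1 hp]
    exact h) (by simp)
  have h3 : (fun p => (0 : ℤ) + (({(x, s)} : Multiset (E × Multiset (E × E))).map
      fun q => coneF q.1 q.2 p).sum) = coneF x s := by
    funext p
    simp
  have h4 : mass M (0 : Multiset (E × E)) = 0 := by simp [mass]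
  rw [h3, h1, h4] at h2
  linarith

theorem CC.c_cone {M : Met} {L r : ℝ} (hG : GFacts M) (C : CC M L r) {x : E}
    {s : Multiset (E × E)} {R : ℝ} (h : OkCone x s)
    (hs : ∀ e ∈ s, ‖e.1 - x‖ ≤ R ∧ ‖e.2 - x‖ ≤ R) (hR : 2 * R ≤ r) (hm : mass M s < L) :
    C.c (coneF x s) = 0 := by
  refine C.loc _ (hG.af_cone x s h) ((tv_cone hG h).trans_lt hm) x h.unit ?_
  obtain ⟨N, hN⟩ := exists_isArr
  exact ⟨N, hN, fun p _ hp => coneF_supp h.unit hs (hR.trans_lt hp)⟩

theorem CC.c_add_cone {M : Met} {L r : ℝ} (hG : GFacts M) (C : CC M L r) {u : E → ℤ} {x : E}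
    {s : Multiset (E × E)} {R : ℝ} (hu : AF u) (h : OkCone x s)
    (hs : ∀ e ∈ s, ‖e.1 - x‖ ≤ R ∧ ‖e.2 - x‖ ≤ R) (hR : 2 * R ≤ r)
    (hT : TV M u + mass M s < L) :
    AF (fun p => u p + coneF x s p) ∧
      TV M (fun p => u p + coneF x s p) ≤ TV M u + mass M s ∧
      C.c (fun p => u p + coneF x s p) = C.c u := by
  have h1 := hG.af_cone x s h
  have h2 := tv_cone hG h
  refine ⟨hG.af_add u _ hu h1, (hG.tv_add u _ hu h1).trans (by linarith), ?_⟩
  rw [C.add u _ hu h1 (by linarith), CC.c_cone hG C h hs hR ?_, add_zero]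
  have := hG.tv_nonneg u
  linarith

end CGA
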