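import Pool.Agent.CGA.ICc

/-! PROJECT CGA, module ICut (chunk I). Local modification and positive part.
`c w = 0` by `C.loc`, `c (u + w) = c u` by `C.add`. Let `u' = max (u + w) 0`, `v = max (-(u + w)) 0` (both `AF`: `af_add`, `af_neg`, `af_max`), `TV u' + TV v = TV (u + w) < L` (`tv_posneg`, `tv_add`).
At generic points outside of the ball `w = 0`, `u ≥ 0`, so `v = 0`: `c (-v) = 0` (`C.neg` and `C.loc`). `u + w = u' + (-v)` pointwise, so `c (u + w) = c u' + c (-v)` (`C.add`, `tv_neg`).
`u' ≥ 0` everywhere (`nonnegG_max`), `TV u' ≤ TV (u + w)` because `TV v ≥ 0`. -/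

set_option linter.all false

namespace CGA

open scoped RealInnerProductSpace Real Topology
open MeasureTheory Set Filter

theorem CC.cut {M : Met} {L r : ℝ} (hG : GFacts M) (C : CC M L r) {u w : E → ℤ} {q : E}
    (hq : ‖q‖ = 1) (hu : AF u) (hw : AF w) (h0 : NonnegG u) (hs : SuppG w q r)
    (hT : TV M u + TV M w < L) :
    ∃ u', AF u' ∧ NonnegG u' ∧ C.c u' = C.c u ∧ TV M u' ≤ TV M (fun x => u x + w x) := by
  have tu := hG.tv_nonneg u
  have tw := hG.tv_nonneg w
  have hf : AF fun x => u x + w x := hG.af_add u w hu hw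
  have hfT := hG.tv_add u w hu hw
  have c1 : C.c w = 0 := C.loc w hw (by linarith) q hq hs
  have c2 : C.c (fun x => u x + w x) = C.c u := by
    rw [C.add u w hu hw hT, c1, add_zero]
  have hp : AF fun x => max (u x + w x) 0 := hG.af_max _ hf
  have hn : AF fun x => - (u x + w x) := hG.af_neg _ hf
  have hv : AF fun x => max (-(u x + w x)) 0 := hG.af_max _ hn
  have hmv : AF fun x => - max (-(u x + w x)) 0 := hG.af_neg _ hv
  have e1 := hG.tv_posneg _ hf
  have tp := hG.tv_nonneg fun x => max (u x + w x) 0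
  have tv := hG.tv_nonneg fun x => max (-(u x + w x)) 0
  have e2 := hG.tv_neg _ hv
  have c3 : C.c (fun x => - max (-(u x + w x)) 0) = 0 := by
    refine C.loc _ hmv (by rw [e2]; linarith) q hq ?_
    obtain ⟨N₁, hN₁, h1⟩ := h0
    obtain ⟨N₂, hN₂, h2⟩ := hs
    obtain ⟨N, hN, hs1, hs2⟩ := isArr_union hN₁ hN₂
    refine ⟨N, hN, fun x hx hr => ?_⟩
    have a1 := h1 x (hx.monoI hs1)
    have a2 := h2 x (hx.monoI hs2) hr
    have a3 : -(u x + w x) ≤ 0 := by omega
    show - max (-(u x + w x)) 0 = 0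
    rw [max_eq_right a3, neg_zero]
  have c4 : C.c (fun x => max (u x + w x) 0 + - max (-(u x + w x)) 0) =
      C.c (fun x => max (u x + w x) 0) + C.c (fun x => - max (-(u x + w x)) 0) :=
    C.add _ _ hp hmv (by rw [e2]; linarith)
  have c5 : (fun x => max (u x + w x) 0 + - max (-(u x + w x)) 0) = fun x => u x + w x := by
    funext x
    omega
  rw [c5, c3, add_zero] at c4
  exact ⟨_, hp, nonnegG_max _, by rw [← c4, c2], by linarith⟩

end CGA
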