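import Pool.Agent.CGA.ACyc

/-! PROJECT CGA, module IDefs (chunk I): definitions (final file, no `sorry`).

`Bdry M u δ z`: `z` is a boundary of `u` as given by `arr_mod`.  `GFacts M`: the facts on arrangement
functions from chunk G which are used in chunk I (the modules of chunk I take it as a hypothesis; it is
instantiated at the end).  `NonnegG`, `SuppG`, `EqG`: statements at generic points. -/

set_option linter.all false

namespace CGA

open scoped RealInnerProductSpace Real Topology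
open MeasureTheory Set Filter

/-- nonnegative at generic points -/
def NonnegG (u : E → ℤ) : Prop := ∃ N, IsArr N ∧ ∀ x, Gen N x → 0 ≤ u x

/-- equal at generic points -/
def EqG (u v : E → ℤ) : Prop := ∃ N, IsArr N ∧ ∀ x, Gen N x → u x = v x

/-- zero at the generic points outside of the ball -/
def SuppG (u : E → ℤ) (q : E) (r : ℝ) : Prop :=
  ∃ N, IsArr N ∧ ∀ x, Gen N x → r < ‖nrm x - q‖ → u x = 0

/-- `(x, s)` is the data of a cone: apex `x`, a balanced system `s` of darts near `x` -/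
structure OkCone (x : E) (s : Multiset (E × E)) : Prop where
  unit : ‖x‖ = 1
  bal : s.map Prod.fst = s.map Prod.snd
  dart : ∀ e ∈ s, ‖e.1‖ = 1 ∧ ‖e.2‖ = 1 ∧ ‖e.1 - x‖ ≤ 1 ∧ ‖e.2 - x‖ ≤ 1

/-- `z` is a boundary of `u` of mesh `≤ δ` -/
structure Bdry (M : Met) (u : E → ℤ) (δ : ℝ) (z : Multiset (E × E)) : Prop where
  edge : ∀ e ∈ z, ‖e.1‖ = 1 ∧ ‖e.2‖ = 1 ∧ e.1 ≠ e.2 ∧ ‖e.1 - e.2‖ ≤ δ
  bal : z.map Prod.fst = z.map Prod.snd
  mass_eq : mass M z = TV M u
  mod : ∀ y ≤ z, ∀ (y' : Multiset (E × E)) (S : Multiset (E × Multiset (E × E))),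
    (∀ p ∈ S, OkCone p.1 p.2) → (S.map Prod.snd).sum = y' + y.map Prod.swap →
    TV M (fun x => u x + (S.map fun p => coneF p.1 p.2 x).sum) ≤ mass M z - mass M y + mass M y'

/-- facts on arrangement functions -/
structure GFacts (M : Met) : Prop where
  af_add : ∀ u v, AF u → AF v → AF (fun x => u x + v x)
  af_neg : ∀ u, AF u → AF (fun x => - u x)
  af_const : ∀ k : ℤ, AF (fun _ => k)
  af_max : ∀ u, AF u → AF (fun x => max (u x) 0)
  af_cone : ∀ x s, OkCone x s → AF (coneF x s)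
  tv_nonneg : ∀ u, 0 ≤ TV M u
  tv_add : ∀ u v, AF u → AF v → TV M (fun x => u x + v x) ≤ TV M u + TV M v
  tv_neg : ∀ u, AF u → TV M (fun x => - u x) = TV M u
  tv_const : ∀ k : ℤ, TV M (fun _ => k) = 0
  tv_posneg : ∀ u, AF u →
    TV M (fun x => max (u x) 0) + TV M (fun x => max (- u x) 0) = TV M u
  tv_congr : ∀ u v, AF u → AF v → EqG u v → TV M u = TV M v
  tv_zero : ∀ u, AF u → TV M u = 0 → ∃ k : ℤ, EqG u (fun _ => k)
  bdry : ∀ u, AF u → ∀ δ : ℝ, 0 < δ → ∃ z, Bdry M u δ z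

/-- the conclusion of `kappa` -/
def Kap (M : Met) (L ρ ρ' κ δ : ℝ) : Prop :=
  ∀ l : List E, (∀ x ∈ l, ‖x‖ = 1) → (∀ e ∈ cyc l, ‖e.1 - e.2‖ ≤ δ) →
    ρ' ≤ llen M (cyc l) → llen M (cyc l) ≤ L →
    ∃ i k x y, k < l.length ∧ (l.rotate i)[0]? = some x ∧ (l.rotate i)[k]? = some y ∧
      llen M (pth ((l.rotate i).take (k + 1))) ≤ ρ ∧
      dist' M x y + κ ≤ llen M (pth ((l.rotate i).take (k + 1)))

/-- total length of a list of closed polygons -/
noncomputable def tlen (M : Met) (Ls : List (List E)) : ℝ := (Ls.map fun l => llen M (cyc l)).sum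

/-- all darts of a list of closed polygons -/
noncomputable def darts (Ls : List (List E)) : Multiset (E × E) :=
  (Ls.map fun l => (cyc l : Multiset (E × E))).sum

/-- nonempty closed polygon with unit vertices and mesh `≤ 1` -/
structure OkPoly (l : List E) : Prop where
  ne : l ≠ []
  unit : ∀ x ∈ l, ‖x‖ = 1
  mesh : ∀ e ∈ cyc l, ‖e.1 - e.2‖ ≤ 1

end CGA
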