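import Pool.Agent.CGA.IMain
import Pool.Agent.CGA.GMod
import Pool.Agent.CGA.GTV0
import Pool.Agent.CGA.C2End

/-! PROJECT CGA, module IEnd: the theorem of chunk I, from `cc_nonpos_of`, the facts of chunk G and `kappa`. -/

set_option linter.all false

namespace CGA

open scoped RealInnerProductSpace Real Topology
open MeasureTheory Set Filter

/-- the facts of chunk G used in chunk I -/
theorem gFacts (M : Met) : GFacts M where
  af_add _ _ hu hv := hu.add hv
  af_neg _ hu := hu.neg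
  af_const k := AF.const k
  af_max _ hu := hu.max0
  af_cone x s _ := AF_coneF x s
  tv_nonneg u := TV_nonneg M u
  tv_add _ _ hu hv := TV_add_le M hu hv
  tv_neg _ hu := TV_neg M hu
  tv_const k := TV_const M k
  tv_posneg _ hu := TV_posneg M hu
  tv_congr _ _ hu hv h := TV_congr M hu hv h
  tv_zero _ hu h := TV_eq_zero M hu h
  bdry _ hu _ hδ := by
    obtain ⟨z, h1, h2, h3, h4⟩ := arr_mod M hu hδ
    refine ⟨z, h1, h2, h3, fun y hy y' S hS hsum => h4 y hy y' S (fun p hp => ?_) hsum⟩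
    obtain ⟨a1, a2, a3⟩ := hS p hp
    refine ⟨a1, a2, fun e he => ?_⟩
    obtain ⟨b1, b2, b3⟩ := a3 e he
    exact ⟨b1, b2, Or.inr b3⟩

theorem cc_nonpos (M : Met) {L L' r : ℝ} (hr : 0 < r) (hL' : L' < L) (hN : NoGeo M L)
    (C : CC M L r) (u : E → ℤ) (hu : AF u) (h0 : ∃ N, IsArr N ∧ ∀ x, Gen N x → 0 ≤ u x)
    (hTV : TV M u < L') : C.c u ≤ 0 := by
  have hL : 0 < L := ((TV_nonneg M u).trans_lt hTV).trans hL'
  refine cc_nonpos_of M hr hL' (gFacts M) (fun ρ ρ' hρ hρ' => ?_) C u hu h0 hTV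
  exact kappa M hL hN hρ hρ'

end CGA
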