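import Pool.Agent.CGA.IDefs

/-! PROJECT CGA, module IGen (chunk I). Generic points.
`isArr_union`: `N = N₁ ∪ N₂` (classical decidable equality). `exists_isArr`: the set of the three coordinate vectors (`Finset.univ.image`);
`Can` by cases. `exists_gen`: for `n ∈ N` the set `{x | ⟪n, x⟫ ≠ 0}` is open and dense (if `⟪n, x⟫ = 0` then `⟪n, x + t n⟫ = t ≠ 0`); a finite intersection of open dense sets
is dense (induction on the finset, `Dense.inter_of_isOpen_left`). The rest: take the union of the two arrangements. -/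

set_option linter.all false

namespace CGA

open scoped RealInnerProductSpace Real Topology
open MeasureTheory Set Filter

theorem isArr_union {N₁ N₂ : Finset E} (h₁ : IsArr N₁) (h₂ : IsArr N₂) :
    ∃ N, IsArr N ∧ N₁ ⊆ N ∧ N₂ ⊆ N := by
  classical
  refine ⟨N₁ ∪ N₂, ⟨?_, ?_, ?_⟩, Finset.subset_union_left, Finset.subset_union_right⟩
  · intro n hn
    rcases Finset.mem_union.1 hn with h | h
    · exact h₁.unit n h
    · exact h₂.unit n h
  · intro n hn
    rcases Finset.mem_union.1 hn with h | h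
    · exact h₁.can n h
    · exact h₂.can n h
  · intro i
    exact Finset.mem_union_left _ (h₁.coord i)

theorem Gen.monoI {N₁ N₂ : Finset E} (h : N₁ ⊆ N₂) {x : E} (hx : Gen N₂ x) : Gen N₁ x :=
  fun n hn => hx n (h hn)

theorem exists_isArr : ∃ N : Finset E, IsArr N := by
  classical
  refine ⟨Finset.univ.image fun i : Fin 3 => EuclideanSpace.single i (1:ℝ), ⟨?_, ?_, ?_⟩⟩
  · intro n hn
    obtain ⟨i, _, rfl⟩ := Finset.mem_image.1 hn
    simp
  · intro n hn
    obtain ⟨i, _, rfl⟩ := Finset.mem_image.1 hn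
    unfold Can
    fin_cases i
    · left
      simp
    · right
      refine ⟨by simp, Or.inl (by simp)⟩
    · right
      refine ⟨by simp, Or.inr ⟨by simp, by simp⟩⟩
  · intro i
    exact Finset.mem_image_of_mem _ (Finset.mem_univ i)

private theorem IGen_aux (N : Finset E) : (∀ n ∈ N, ‖n‖ = 1) → ∀ V : Set E, IsOpen V →
    V.Nonempty → ∃ x ∈ V, Gen N x := by
  classical
  induction N using Finset.induction_on with
  | empty =>
    intro _ V _ ⟨x, hx⟩
    exact ⟨x, hx, fun n hn => absurd hn (Finset.notMem_empty n)⟩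
  | insert n s hn ih =>
    intro hu V hV ⟨x, hx⟩
    have hc : Continuous fun x : E => ⟪n, x⟫ := continuous_const.inner continuous_id
    have hV' : IsOpen (V ∩ {x | ⟪n, x⟫ ≠ 0}) := hV.inter (isOpen_ne_fun hc continuous_const)
    have hne : (V ∩ {x | ⟪n, x⟫ ≠ 0}).Nonempty := by
      by_cases h0 : ⟪n, x⟫ = 0
      · have h1 : Tendsto (fun t : ℝ => x + t • n) (𝓝[≠] 0) (𝓝 x) := by
          have h2 : Continuous fun t : ℝ => x + t • n := by fun_prop
          have h3 := h2.tendsto 0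
          rw [zero_smul, add_zero] at h3
          exact h3.mono_left nhdsWithin_le_nhds
        have h4 := (h1.eventually (hV.mem_nhds hx)).and self_mem_nhdsWithin
        obtain ⟨t, ht, ht0⟩ := h4.exists
        refine ⟨x + t • n, ht, ?_⟩
        show ⟪n, x + t • n⟫ ≠ 0
        rw [inner_add_right, h0, zero_add, real_inner_smul_right, real_inner_self_eq_norm_sq,
          hu n (Finset.mem_insert_self n s), one_pow, mul_one]
        exact ht0
      · exact ⟨x, hx, h0⟩
    obtain ⟨y, hy, hg⟩ := ih (fun m hm => hu m (Finset.mem_insert_of_mem hm)) _ hV' hne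
    refine ⟨y, hy.1, fun m hm => ?_⟩
    rcases Finset.mem_insert.1 hm with rfl | h
    · exact hy.2
    · exact hg m h

theorem exists_gen {N : Finset E} (hN : IsArr N) {V : Set E} (hV : IsOpen V) (hne : V.Nonempty) :
    ∃ x ∈ V, Gen N x := IGen_aux N hN.unit V hV hne

theorem EqG.of_eq {u v : E → ℤ} (h : ∀ x, u x = v x) : EqG u v := by
  obtain ⟨N, hN⟩ := exists_isArr
  exact ⟨N, hN, fun x _ => h x⟩

theorem EqG.symm {u v : E → ℤ} (h : EqG u v) : EqG v u := by
  obtain ⟨N, hN, h⟩ := h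
  exact ⟨N, hN, fun x hx => (h x hx).symm⟩

theorem EqG.trans {u v w : E → ℤ} (h : EqG u v) (h' : EqG v w) : EqG u w := by
  obtain ⟨N₁, hN₁, h₁⟩ := h
  obtain ⟨N₂, hN₂, h₂⟩ := h'
  obtain ⟨N, hN, s₁, s₂⟩ := isArr_union hN₁ hN₂
  exact ⟨N, hN, fun x hx => (h₁ x (hx.monoI s₁)).trans (h₂ x (hx.monoI s₂))⟩

theorem NonnegG.congr {u v : E → ℤ} (h : NonnegG u) (h' : EqG u v) : NonnegG v := by
  obtain ⟨N₁, hN₁, h₁⟩ := h
  obtain ⟨N₂, hN₂, h₂⟩ := h'
  obtain ⟨N, hN, s₁, s₂⟩ := isArr_union hN₁ hN₂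
  exact ⟨N, hN, fun x hx => (h₂ x (hx.monoI s₂)) ▸ h₁ x (hx.monoI s₁)⟩

theorem nonnegG_max (u : E → ℤ) : NonnegG (fun x => max (u x) 0) := by
  obtain ⟨N, hN⟩ := exists_isArr
  exact ⟨N, hN, fun x _ => le_max_right _ _⟩

end CGA
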