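import Pool.Agent.CGA.IPoly

/-! PROJECT CGA, module IPick (chunk I). Elementary combinatorics.
`pick`: induction on the list: if `a ≤ w l` or the sum of the rest is `< a` ... (simplest: induction for all `a`: if `(Ls.map w).sum ≤ a + b` take everything; otherwise drop the first element: the sum of the rest is
`> a + b - w l ≥ a`). `pigeon`: the sum over the classes `j : Fin K` of the sums of the classes is the total sum (induction on the list); if all were `< total / K` the total would be `< total`
(`Finset.sum_lt_sum_of_nonempty`). `exists_cover`: the sphere is compact (`isCompact_sphere`), finite cover by balls of radius `R` with centres on the sphere (`IsCompact.elim_nhds_subcover`), indexed by `Fin K` (`Finset.equivFin`). -/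

set_option linter.all false

namespace CGA

open scoped RealInnerProductSpace Real Topology
open MeasureTheory Set Filter

theorem pick {α : Type} (w : α → ℝ) (Ls : List α) {a b : ℝ} (hw : ∀ l ∈ Ls, 0 ≤ w l ∧ w l ≤ b)
    (ha : 0 ≤ a) (hb : 0 ≤ b) (h : a ≤ (Ls.map w).sum) :
    ∃ Ls' : List α, Ls'.Sublist Ls ∧ a ≤ (Ls'.map w).sum ∧ (Ls'.map w).sum ≤ a + b := by
  induction Ls with
  | nil =>
    refine ⟨[], List.Sublist.refl _, h, ?_⟩
    simp only [List.map_nil, List.sum_nil] at h ⊢
    linarith
  | cons l Ls ih =>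
    by_cases h1 : ((l :: Ls).map w).sum ≤ a + b
    · exact ⟨l :: Ls, List.Sublist.refl _, h, h1⟩
    · have h2 : a ≤ (Ls.map w).sum := by
        rw [List.map_cons, List.sum_cons] at h1
        have := (hw l List.mem_cons_self).2
        linarith [not_le.1 h1]
      obtain ⟨Ls', h3, h4, h5⟩ := ih (fun x hx => hw x (List.mem_cons_of_mem _ hx)) h2
      exact ⟨Ls', h3.trans (List.sublist_cons_self _ _), h4, h5⟩

theorem pigeon {α : Type} (w : α → ℝ) (Ls : List α) {K : ℕ} (hK : 0 < K) (c : α → Fin K) :
    ∃ j, (Ls.map w).sum / K ≤ ((Ls.filter fun l => c l = j).map w).sum := by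
  have hsum : ∑ j, ((Ls.filter fun l => c l = j).map w).sum = (Ls.map w).sum := by
    induction Ls with
    | nil => simp
    | cons l Ls ih =>
      have h1 : ∀ j, (((l :: Ls).filter fun l => c l = j).map w).sum =
          (if c l = j then w l else 0) + ((Ls.filter fun l => c l = j).map w).sum := by
        intro j
        by_cases hj : c l = j
        · rw [List.filter_cons_of_pos (by simpa using hj), List.map_cons, List.sum_cons, if_pos hj]
        · rw [List.filter_cons_of_neg (by simpa using hj), if_neg hj, zero_add]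
      rw [Finset.sum_congr rfl fun j _ => h1 j, Finset.sum_add_distrib, ih, List.map_cons,
        List.sum_cons]
      simp
  by_contra hcon
  have hcon' : ∀ j, ((Ls.filter fun l => c l = j).map w).sum < (Ls.map w).sum / K := by
    intro j
    by_contra hj
    exact hcon ⟨j, not_lt.1 hj⟩
  have hne : (Finset.univ : Finset (Fin K)).Nonempty := ⟨⟨0, hK⟩, Finset.mem_univ _⟩
  have h2 := Finset.sum_lt_sum_of_nonempty hne fun j _ => hcon' j
  rw [hsum, Finset.sum_const, Finset.card_univ, Fintype.card_fin, nsmul_eq_mul] at h2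
  have hK' : (0 : ℝ) < K := by exact_mod_cast hK
  have h3 : (K : ℝ) * ((Ls.map w).sum / K) = (Ls.map w).sum := by field_simp
  rw [h3] at h2
  exact lt_irrefl _ h2

theorem exists_cover {R : ℝ} (hR : 0 < R) : ∃ K : ℕ, 0 < K ∧ ∃ q : Fin K → E,
    (∀ j, ‖q j‖ = 1) ∧ ∀ x : E, ‖x‖ = 1 → ∃ j, ‖x - q j‖ ≤ R := by
  have hc : IsCompact (Metric.sphere (0 : E) 1) := isCompact_sphere _ _
  obtain ⟨t, ht, hcov⟩ := hc.elim_nhds_subcover (fun x => Metric.ball x R)
    (fun x _ => Metric.ball_mem_nhds x hR)
  have h0 : ∃ x : E, ‖x‖ = 1 := ⟨EuclideanSpace.single 0 (1:ℝ), by simp⟩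
  have hmem : ∀ x : E, ‖x‖ = 1 → ∃ y ∈ t, ‖x - y‖ ≤ R := by
    intro x hx
    have h1 : x ∈ Metric.sphere (0 : E) 1 := by simpa using hx
    have h2 := hcov h1
    simp only [mem_iUnion, Metric.mem_ball, exists_prop] at h2
    obtain ⟨y, hy, hd⟩ := h2
    rw [dist_eq_norm] at hd
    exact ⟨y, hy, hd.le⟩
  have hne : 0 < t.card := by
    obtain ⟨x, hx⟩ := h0
    obtain ⟨y, hy, -⟩ := hmem x hx
    exact Finset.card_pos.2 ⟨y, hy⟩
  refine ⟨t.card, hne, fun j => (t.equivFin.symm j : E), ?_, ?_⟩
  · intro j
    have := ht _ (t.equivFin.symm j).2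
    simpa using this
  · intro x hx
    obtain ⟨y, hy, hd⟩ := hmem x hx
    refine ⟨t.equivFin ⟨y, hy⟩, ?_⟩
    simp only [Equiv.symm_apply_apply]
    exact hd

end CGA
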