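import Pool.Agent.CGA.IDefs

/-! PROJECT CGA, module IPoly (chunk I). Closed polygons, combinatorics.
`mem_cyc`: `List.of_mem_zip`, `List.mem_rotate`. `cyc_bal`: `cyc_fst`, `cyc_snd`. `darts_*`: induction on the list. `OkPoly.near`: `l = x :: l'`, `cyc_cons`, `dist_le_llen` for the path `x :: (l' ++ [x])`.
`pth_take_le`: `pth (l.take k) = (pth l).take (k - 1)` is a sublist of `pth l`, and `pth l = l.zip l.tail` is a sublist (prefix) of `cyc l = l.zip (l.rotate 1)` (`l.rotate 1 = l.tail ++ [head]`);
with `cyc_rotate_coe`. `pth_bal`: induction on the list (`pth_cons_cons`).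
`Bdry.decomp`: `exists_cyc_decomp`; the darts of the polygons are in `z`; every vertex `x` of `l` is the first component of a dart (`cyc_fst`), so it is a unit vector. `tlen Ls = mass z = TV u` (`mass_darts`). -/

set_option linter.all false

namespace CGA

open scoped RealInnerProductSpace Real Topology
open MeasureTheory Set Filter

theorem mem_cyc {l : List E} {e : E × E} (h : e ∈ cyc l) : e.1 ∈ l ∧ e.2 ∈ l := by
  obtain ⟨a, b⟩ := e
  have := List.of_mem_zip h
  exact ⟨this.1, List.mem_rotate.1 this.2⟩

theorem iPoly_mem_pth {l : List E} {e : E × E} (h : e ∈ pth l) : e.1 ∈ l ∧ e.2 ∈ l := by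
  obtain ⟨a, b⟩ := e
  have := List.of_mem_zip h
  exact ⟨this.1, List.mem_of_mem_tail this.2⟩

theorem cyc_bal (l : List E) : (cyc l : Multiset (E × E)).map Prod.fst =
    (cyc l : Multiset (E × E)).map Prod.snd := by
  rw [cyc_fst, cyc_snd]

theorem bal_swap {s : Multiset (E × E)} (h : s.map Prod.fst = s.map Prod.snd) :
    (s.map Prod.swap).map Prod.fst = (s.map Prod.swap).map Prod.snd := by
  rw [Multiset.map_map, Multiset.map_map]
  exact h.symm

@[simp] theorem darts_nil : darts [] = 0 := by
  simp [darts]

@[simp] theorem darts_cons (l : List E) (Ls : List (List E)) :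
    darts (l :: Ls) = (cyc l : Multiset (E × E)) + darts Ls := by
  simp [darts]

theorem mem_darts {Ls : List (List E)} {e : E × E} : e ∈ darts Ls ↔ ∃ l ∈ Ls, e ∈ cyc l := by
  induction Ls with
  | nil => simp
  | cons l Ls ih => simp [ih]

theorem darts_bal (Ls : List (List E)) : (darts Ls).map Prod.fst = (darts Ls).map Prod.snd := by
  induction Ls with
  | nil => simp
  | cons l Ls ih => rw [darts_cons, Multiset.map_add, Multiset.map_add, cyc_bal, ih]

theorem mass_darts (M : Met) (Ls : List (List E)) : mass M (darts Ls) = tlen M Ls := by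
  induction Ls with
  | nil => simp [mass, tlen]
  | cons l Ls ih =>
    rw [darts_cons, mass_add, ih, mass_coe]
    simp [tlen]

theorem tlen_nonneg (M : Met) (Ls : List (List E)) : 0 ≤ tlen M Ls := by
  rw [← mass_darts]
  exact mass_nonneg M _

theorem cyc_le_darts {Ls : List (List E)} {l : List E} (h : l ∈ Ls) :
    (cyc l : Multiset (E × E)) ≤ darts Ls := by
  induction Ls with
  | nil => simp at h
  | cons l' Ls ih =>
    rw [darts_cons]
    rcases List.mem_cons.1 h with h | h
    · rw [h]
      exact Multiset.le_add_right _ _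
    · exact (ih h).trans (Multiset.le_add_left _ _)

theorem llen_le_tlen (M : Met) {Ls : List (List E)} {l : List E} (h : l ∈ Ls) :
    llen M (cyc l) ≤ tlen M Ls := by
  rw [← mass_darts, ← mass_coe]
  exact mass_le_of_le M (cyc_le_darts h)

theorem darts_le_of_sublist {Ls Ls' : List (List E)} (h : Ls'.Sublist Ls) :
    darts Ls' ≤ darts Ls := by
  induction h with
  | slnil => exact le_rfl
  | cons l _ ih =>
    rw [darts_cons]
    exact ih.trans (Multiset.le_add_left _ _)
  | cons_cons l _ ih =>
    rw [darts_cons, darts_cons]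
    exact Multiset.add_le_add_left ih

theorem OkPoly.near (M : Met) {m F : ℝ} (hm : 0 < m) (hf : ∀ x : E, x ≠ 0 → m ≤ M.f x ∧ M.f x ≤ F)
    {l : List E} (h : OkPoly l) : ∀ y ∈ l, m * ‖y - l.headD 0‖ ≤ llen M (cyc l) := by
  obtain ⟨x, l', rfl⟩ : ∃ x l', l = x :: l' := List.exists_cons_of_ne_nil h.ne
  intro y hy
  rw [cyc_cons]
  have h1 := dist_le_llen M hm hf x (l' ++ [x]) (by
    intro z hz
    apply h.unit
    rcases List.mem_cons.1 hz with hz | hz
    · rw [hz]; exact List.mem_cons_self
    · rcases List.mem_append.1 hz with hz | hz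
      · exact List.mem_cons_of_mem _ hz
      · rw [List.mem_singleton.1 hz]; exact List.mem_cons_self) (by
    intro e he
    apply h.mesh
    rw [cyc_cons]
    exact he) y (by
    rcases List.mem_cons.1 hy with hy | hy
    · rw [hy]; exact List.mem_cons_self
    · exact List.mem_cons_of_mem _ (List.mem_append_left _ hy))
  exact h1

theorem OkPoly.head_mem {l : List E} (h : OkPoly l) : l.headD 0 ∈ l := by
  obtain ⟨x, l', rfl⟩ : ∃ x l', l = x :: l' := List.exists_cons_of_ne_nil h.ne
  exact List.mem_cons_self

private theorem pth_le_cyc (l : List E) : (pth l : Multiset (E × E)) ≤ (cyc l : Multiset (E × E)) := by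
  cases l with
  | nil => exact le_rfl
  | cons x t =>
    rw [cyc_cons]
    rcases t.eq_nil_or_concat with h | ⟨t', b, h⟩
    · subst h
      simp [pth]
    · rw [List.concat_eq_append] at h
      subst h
      have h1 : x :: (t' ++ [b]) ++ [x] = (x :: t') ++ b :: [x] := by simp
      have h2 : x :: (t' ++ [b]) = x :: t' ++ [b] := by simp
      rw [h1, pth_append, h2, ← Multiset.coe_add]
      exact Multiset.le_add_right _ _

private theorem pth_take (l : List E) (k : ℕ) : (pth (l.take k)).Sublist (pth l) := by
  induction l generalizing k with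
  | nil => simp [pth]
  | cons x t ih =>
    cases k with
    | zero => simp [pth]
    | succ k =>
      cases t with
      | nil => simp [pth]
      | cons y t =>
        cases k with
        | zero => simp [pth]
        | succ k =>
          have := ih (k + 1)
          rw [List.take_succ_cons] at this
          rw [List.take_succ_cons, List.take_succ_cons, pth_cons_cons, pth_cons_cons]
          exact this.cons_cons _

theorem pth_take_le (l : List E) (i k : ℕ) :
    (pth ((l.rotate i).take k) : Multiset (E × E)) ≤ (cyc l : Multiset (E × E)) := by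
  rw [← cyc_rotate_coe l i]
  exact ((pth_take (l.rotate i) k).subperm : _).trans (pth_le_cyc _)

theorem pth_bal {l : List E} {x y : E} (hx : l.head? = some x) (hy : l.getLast? = some y) :
    (pth l : Multiset (E × E)).map Prod.fst + {y} = (pth l : Multiset (E × E)).map Prod.snd + {x} := by
  induction l generalizing x with
  | nil => simp at hx
  | cons a t ih =>
    have hax : a = x := by simpa using hx
    subst hax
    cases t with
    | nil =>
      have : a = y := by simpa using hy
      subst this
      simp [pth]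
    | cons b t =>
      have h1 := ih (x := b) rfl (by rw [← hy]; simp [List.getLast?_cons_cons])
      rw [pth_cons_cons]
      rw [← Multiset.cons_coe, Multiset.map_cons, Multiset.map_cons, Multiset.cons_add, h1,
        Multiset.cons_add]
      simp only [Multiset.add_comm _ {b}, Multiset.add_comm _ {a}, Multiset.singleton_add]
      exact Multiset.cons_swap _ _ _

theorem Bdry.decomp {M : Met} {u : E → ℤ} {δ : ℝ} {z : Multiset (E × E)} (h : Bdry M u δ z)
    (hδ : δ ≤ 1) : ∃ Ls : List (List E),
      (∀ l ∈ Ls, OkPoly l ∧ ∀ e ∈ cyc l, ‖e.1 - e.2‖ ≤ δ) ∧ z = darts Ls ∧ tlen M Ls = TV M u := by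
  obtain ⟨Ls, h1, h2⟩ := exists_cyc_decomp z h.bal
  have hz : z = darts Ls := h2
  refine ⟨Ls, fun l hl => ?_, hz, by rw [← mass_darts, ← hz, h.mass_eq]⟩
  have hm : ∀ e ∈ cyc l, e ∈ z := fun e he => by rw [hz]; exact mem_darts.2 ⟨l, hl, he⟩
  refine ⟨⟨h1 l hl, fun x hx => ?_, fun e he => ((h.edge e (hm e he)).2.2.2).trans hδ⟩,
    fun e he => (h.edge e (hm e he)).2.2.2⟩
  have hx' : x ∈ (cyc l : Multiset (E × E)).map Prod.fst := by
    rw [cyc_fst]
    exact hx
  obtain ⟨e, he, rfl⟩ := Multiset.mem_map.1 hx'
  exact (h.edge e (hm e he)).1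

end CGA
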