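import Pool.Agent.CGA.ICut
import Pool.Agent.CGA.IPoly

/-! PROJECT CGA, module IStA (chunk I). A long closed polygon of the boundary has a shortcut.
`hK` gives `i, k, x, y` and the path `P = (l.rotate i).take (k + 1)` from `x` to `y`; `P ≠ []`, `P.head? = some x`, `P.getLast? = some y` (as `k < l.length`). It is in the set of the definition of `dist'`, so (`exists_lt_of_csInf_lt`) there is a
path `Q` (unit vertices, mesh `≤ 1`) from `x` to `y` with `llen (pth Q) < dist' x y + κ / 2`. Let `s = pth Q + (pth P).map swap`, `R = ρ / m`, `w = coneF x s`. All vertices of `P` and `Q` are within `R` of `x`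
(`dist_le_llen`; `llen (pth Q) ≤ llen (pth P) ≤ ρ`; write `P = x :: _`, `Q = x :: _`). Balanced: `pth_bal` for `P` and `Q`. So `OkCone x s` (`OkCone.of_near`), `SuppG w x r` (`coneF_supp`), `TV w ≤ mass s ≤ 2 ρ` (`tv_cone`, `mass_swap`).
`Bdry.mod` for `y = pth P ≤ cyc l ≤ z` (`pth_take_le`), `y' = pth Q`, `S = {(x, s)}`: `TV (u + w) ≤ TV u - llen (pth P) + llen (pth Q) ≤ TV u - κ / 2`. Then `CC.cut`. -/

set_option linter.all false

namespace CGA

open scoped RealInnerProductSpace Real Topology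
open MeasureTheory Set Filter

theorem CC.step_long {M : Met} {L r : ℝ} (hG : GFacts M) (C : CC M L r) {m F : ℝ} (hm : 0 < m)
    (hf : ∀ x : E, x ≠ 0 → m ≤ M.f x ∧ M.f x ≤ F) {ρ ρ' κ δ : ℝ} (hρ0 : 0 ≤ ρ) (hρ : 2 * (ρ / m) ≤ r)
    (hρ1 : ρ / m < 1) (hκ : 0 < κ) (hK : Kap M L ρ ρ' κ δ) {u : E → ℤ} (hu : AF u)
    (h0 : NonnegG u) (hT : TV M u + 2 * ρ < L) {δ' : ℝ} {z : Multiset (E × E)}
    (hz : Bdry M u δ' z) {l : List E} (hl : OkPoly l) (hmesh : ∀ e ∈ cyc l, ‖e.1 - e.2‖ ≤ δ)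
    (hlz : (cyc l : Multiset (E × E)) ≤ z) (hlen : ρ' ≤ llen M (cyc l)) :
    ∃ u', AF u' ∧ NonnegG u' ∧ C.c u' = C.c u ∧ TV M u' ≤ TV M u - κ / 2 := by
  classical
  have hlL : llen M (cyc l) ≤ L := by
    have h1 : llen M (cyc l) ≤ mass M z := by
      rw [← mass_coe]
      exact mass_le_of_le M hlz
    rw [hz.mass_eq] at h1
    linarith
  obtain ⟨i, k, x, y, hk, hx0, hyk, hP1, hP2⟩ := hK l hl.unit hmesh hlen hlL
  set P : List E := (l.rotate i).take (k + 1) with hP
  have hPhead : P.head? = some x := by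
    rw [hP, List.head?_take]
    simp only [Nat.succ_ne_zero, if_false]
    rw [List.head?_eq_getElem?]
    exact hx0
  have hPlast : P.getLast? = some y := by
    rw [hP, List.getLast?_take]
    simp only [Nat.succ_ne_zero, if_false, Nat.add_sub_cancel]
    rw [hyk]
    rfl
  have hPmem : ∀ v ∈ P, v ∈ l := fun v hv => List.mem_rotate.1 (List.mem_of_mem_take hv)
  have hPunit : ∀ v ∈ P, ‖v‖ = 1 := fun v hv => hl.unit v (hPmem v hv)
  have hPle := pth_take_le l i (k + 1)
  have hPcyc : ∀ e ∈ pth P, e ∈ cyc l := fun e he => by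
    have h1 : e ∈ (pth P : Multiset (E × E)) := he
    exact Multiset.mem_coe.1 (Multiset.mem_of_le hPle h1)
  have hPmesh : ∀ e ∈ pth P, ‖e.1 - e.2‖ ≤ 1 := fun e he => hl.mesh e (hPcyc e he)
  -- a shorter path
  have hset : {r | ∃ l : List E, (∀ z ∈ l, ‖z‖ = 1) ∧ l.head? = some x ∧ l.getLast? = some y ∧
      (∀ e ∈ pth l, ‖e.1 - e.2‖ ≤ 1) ∧ r = llen M (pth l)}.Nonempty :=
    ⟨_, P, hPunit, hPhead, hPlast, hPmesh, rfl⟩
  obtain ⟨_, ⟨Q, hQunit, hQhead, hQlast, hQmesh, rfl⟩, hQ⟩ :=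
    exists_lt_of_csInf_lt hset (lt_add_of_pos_right (dist' M x y) (half_pos hκ))
  have hQP : llen M (pth Q) ≤ llen M (pth P) - κ / 2 := by linarith
  have hx1 : ‖x‖ = 1 := hQunit x (List.mem_of_head? hQhead)
  have hnear : ∀ W : List E, (∀ v ∈ W, ‖v‖ = 1) → W.head? = some x →
      (∀ e ∈ pth W, ‖e.1 - e.2‖ ≤ 1) → llen M (pth W) ≤ ρ → ∀ v ∈ W, ‖v - x‖ ≤ ρ / m := by
    intro W h1 h2 h3 h4 v hv
    obtain ⟨W', rfl⟩ : ∃ W', W = x :: W' := by
      cases W with
      | nil => simp at h2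
      | cons a W' =>
        simp only [List.head?_cons, Option.some.injEq] at h2
        exact ⟨W', by rw [h2]⟩
    have h5 := dist_le_llen M hm hf x W' h1 h3 v hv
    rw [le_div_iff₀ hm]
    linarith
  have hnP := hnear P hPunit hPhead hPmesh hP1
  have hnQ := hnear Q hQunit hQhead hQmesh (by linarith)
  set s : Multiset (E × E) := (pth Q : Multiset (E × E)) + (pth P : Multiset (E × E)).map Prod.swap
    with hs
  have hsmem : ∀ e ∈ s, ‖e.1‖ = 1 ∧ ‖e.2‖ = 1 ∧ ‖e.1 - x‖ ≤ ρ / m ∧ ‖e.2 - x‖ ≤ ρ / m := by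
    intro e he
    rcases Multiset.mem_add.1 he with h1 | h1
    · have h2 := iPoly_mem_pth (Multiset.mem_coe.1 h1)
      exact ⟨hQunit _ h2.1, hQunit _ h2.2, hnQ _ h2.1, hnQ _ h2.2⟩
    · obtain ⟨e', he', rfl⟩ := Multiset.mem_map.1 h1
      have h2 := iPoly_mem_pth (Multiset.mem_coe.1 he')
      exact ⟨hPunit _ h2.2, hPunit _ h2.1, hnP _ h2.2, hnP _ h2.1⟩
  have hsbal : s.map Prod.fst = s.map Prod.snd := by
    have h1 := pth_bal hQhead hQlast
    have h2 := pth_bal hPhead hPlast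
    have e1 : ((pth P : Multiset (E × E)).map Prod.swap).map Prod.fst =
        (pth P : Multiset (E × E)).map Prod.snd := by
      rw [Multiset.map_map]
      rfl
    have e2 : ((pth P : Multiset (E × E)).map Prod.swap).map Prod.snd =
        (pth P : Multiset (E × E)).map Prod.fst := by
      rw [Multiset.map_map]
      rfl
    rw [hs, Multiset.map_add, Multiset.map_add, e1, e2]
    generalize (pth Q : Multiset (E × E)).map Prod.fst = Qf at *
    generalize (pth Q : Multiset (E × E)).map Prod.snd = Qs at *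
    generalize (pth P : Multiset (E × E)).map Prod.fst = Pf at *
    generalize (pth P : Multiset (E × E)).map Prod.snd = Ps at *
    have h3 : (Qf + Ps) + ({x} + {y}) = (Qs + Pf) + ({x} + {y}) := by
      calc (Qf + Ps) + ({x} + {y}) = (Qf + {y}) + (Ps + {x}) := by abel
        _ = (Qs + {x}) + (Pf + {y}) := by rw [h1, h2]
        _ = (Qs + Pf) + ({x} + {y}) := by abel
    exact add_right_cancel h3
  have hok : OkCone x s := OkCone.of_near hx1 hρ1 hsbal hsmem
  have hmass : mass M s = llen M (pth Q) + llen M (pth P) := by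
    rw [hs, mass_add, mass_swap, mass_coe, mass_coe]
  have htv := tv_cone hG hok
  obtain ⟨N₀, hN₀⟩ := exists_isArr
  have hsupp : SuppG (coneF x s) x r := ⟨N₀, hN₀, fun p _ hp =>
    coneF_supp hx1 (fun e he => ⟨(hsmem e he).2.2.1, (hsmem e he).2.2.2⟩) (lt_of_le_of_lt hρ hp)⟩
  obtain ⟨u', a1, a2, a3, a4⟩ := C.cut hG hx1 hu (hG.af_cone x s hok) h0 hsupp (by linarith)
  refine ⟨u', a1, a2, a3, a4.trans ?_⟩
  have h5 := hz.mod (pth P : Multiset (E × E)) (hPle.trans hlz) (pth Q : Multiset (E × E))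
    {(x, s)} (by
      intro p hp
      rw [Multiset.mem_singleton] at hp
      subst hp
      exact hok) (by
      rw [Multiset.map_singleton, Multiset.sum_singleton])
  simp only [Multiset.map_singleton, Multiset.sum_singleton] at h5
  rw [mass_coe, mass_coe, hz.mass_eq] at h5
  linarith

end CGA
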