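import Pool.Agent.CGA.ICut
import Pool.Agent.CGA.IPoly

/-! PROJECT CGA, module IStB (chunk I). Removing a group of closed polygons near a point.
`s = (darts Ls).map swap`, `OkCone q s` (`OkCone.of_near`, `darts_bal`, `bal_swap`, `mem_darts`, `mem_cyc`), `w = coneF q s`, `SuppG w q r` (`coneF_supp`), `TV w ≤ mass s = tlen Ls` (`tv_cone`, `mass_swap`, `mass_darts`).
`Bdry.mod` for `y = darts Ls`, `y' = 0`, `S = {(q, s)}`: `TV (u + w) ≤ TV u - tlen Ls`. Then `CC.cut`. -/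

set_option linter.all false

namespace CGA

open scoped RealInnerProductSpace Real Topology
open MeasureTheory Set Filter

theorem CC.step_group {M : Met} {L r : ℝ} (hG : GFacts M) (C : CC M L r) {q : E} (hq : ‖q‖ = 1)
    {R : ℝ} (hR : 2 * R ≤ r) (hR1 : R < 1) {u : E → ℤ} (hu : AF u) (h0 : NonnegG u) {δ' : ℝ}
    {z : Multiset (E × E)} (hz : Bdry M u δ' z) {Ls : List (List E)}
    (hLs : ∀ l ∈ Ls, OkPoly l ∧ ∀ x ∈ l, ‖x - q‖ ≤ R) (hle : darts Ls ≤ z)
    (hT : TV M u + tlen M Ls < L) :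
    ∃ u', AF u' ∧ NonnegG u' ∧ C.c u' = C.c u ∧ TV M u' ≤ TV M u - tlen M Ls := by
  obtain ⟨s, hs⟩ : ∃ s, s = (darts Ls).map Prod.swap := ⟨_, rfl⟩
  have hmem : ∀ e ∈ s, ‖e.1‖ = 1 ∧ ‖e.2‖ = 1 ∧ ‖e.1 - q‖ ≤ R ∧ ‖e.2 - q‖ ≤ R := by
    intro e he
    rw [hs] at he
    obtain ⟨e', he', rfl⟩ := Multiset.mem_map.1 he
    obtain ⟨l, hl, hel⟩ := mem_darts.1 he'
    obtain ⟨h1, h2⟩ := mem_cyc hel
    obtain ⟨h3, h4⟩ := hLs l hl
    exact ⟨h3.unit _ h2, h3.unit _ h1, h4 _ h2, h4 _ h1⟩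
  have hbal : s.map Prod.fst = s.map Prod.snd := by
    rw [hs]
    exact bal_swap (darts_bal Ls)
  have hok : OkCone q s := OkCone.of_near hq hR1 hbal hmem
  have hw : AF (coneF q s) := hG.af_cone q s hok
  have hsupp : SuppG (coneF q s) q r := by
    obtain ⟨N, hN⟩ := exists_isArr
    exact ⟨N, hN, fun x _ hx => coneF_supp hq (fun e he => (hmem e he).2.2) (by linarith)⟩
  have hms : mass M s = tlen M Ls := by
    rw [hs, mass_swap, mass_darts]
  have hTw : TV M (coneF q s) ≤ tlen M Ls := hms ▸ tv_cone hG hok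
  obtain ⟨u', h1, h2, h3, h4⟩ := CC.cut hG C hq hu hw h0 hsupp (by linarith)
  refine ⟨u', h1, h2, h3, h4.trans ?_⟩
  have h5 := hz.mod (darts Ls) hle 0 {(q, s)} (by
    intro p hp
    rw [Multiset.mem_singleton] at hp
    rw [hp]
    exact hok) (by
    rw [Multiset.map_singleton, Multiset.sum_singleton, zero_add]
    exact hs)
  simp only [Multiset.map_singleton, Multiset.sum_singleton] at h5
  rw [hz.mass_eq, mass_darts] at h5
  have h6 : mass M (0 : Multiset (E × E)) = 0 := by simp [mass]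
  rw [h6] at h5
  linarith

end CGA
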