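import Pool.Agent.CGA.ISmall
import Pool.Agent.CGA.IStA
import Pool.Agent.CGA.IStB
import Pool.Agent.CGA.IPick

/-! PROJECT CGA, module IMain (chunk I). The main argument of chunk I.
`0 ≤ TV u < L' < L`, so `L > 0`. Bounds `m, F`. `d = L - L'`. `ρ = min (d / 8) (min (m * r / 4) (m / 2))`, `R' = min r 1 / 8`, `ρ' = min (m * R') (d / 4)`; `κ, δ` from `hK`, `δ' = min δ 1`; `ρ₀` from `cc_small`; `K, q` from `exists_cover` (radius `R'`);
`a = min (ρ₀ / K) (d / 4)`, `κ₀ = min (κ / 4) (a / 2)`. Suppose `c u ≥ 1`. The set `T` of the numbers `TV v`, `v` `AF`, `NonnegG`, `TV v < L'`, `1 ≤ c v`, is nonempty and bounded below by `0`; choose `v` with `TV v < sInf T + κ₀`. By `cc_small` `TV v ≥ ρ₀`. Boundary of mesh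
`δ'`, `Bdry.decomp`, polygons `Ls`. (1) If some `l ∈ Ls` has `ρ' ≤ llen (cyc l)`: `CC.step_long` gives an element of `T` which is `≤ TV v - κ / 2 < sInf T`. (2) Otherwise choose for each `l` a class `j` with `‖l.headD 0 - q j‖ ≤ R'` (for `l ∈ Ls`); `pigeon` (weights `llen (cyc l)`): a class
with total length `≥ TV v / K ≥ ρ₀ / K ≥ a`; `pick` in this class: a sublist with total length in `[a, a + ρ']`; all vertices are within `R' + ρ' / m ≤ 2 R'` of `q j` (`OkPoly.near`); `TV v + a + ρ' < L`; `CC.step_group` with `R = 2 R'` gives an element of `T` which is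
`≤ TV v - a < sInf T`. -/

set_option linter.all false

namespace CGA

open scoped RealInnerProductSpace Real Topology
open MeasureTheory Set Filter

theorem cc_nonpos_of (M : Met) {L L' r : ℝ} (hr : 0 < r) (hL' : L' < L) (hG : GFacts M)
    (hK : ∀ ρ ρ' : ℝ, 0 < ρ → 0 < ρ' → ∃ κ > 0, ∃ δ > 0, Kap M L ρ ρ' κ δ) (C : CC M L r)
    (u : E → ℤ) (hu : AF u) (h0 : NonnegG u) (hTV : TV M u < L') : C.c u ≤ 0 := by
  classical
  have hTV0 := hG.tv_nonneg u
  have hL : 0 < L := by linarith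
  obtain ⟨m, F, Kl, hm, -, -, hf, -, -⟩ := M.exists_bounds
  have hd : 0 < L - L' := by linarith
  obtain ⟨ρ, hρ, hρ1, hρ2, hρ3⟩ : ∃ ρ : ℝ, 0 < ρ ∧ ρ ≤ (L - L') / 8 ∧ ρ ≤ m * r / 4 ∧ ρ ≤ m / 2 :=
    ⟨min ((L - L') / 8) (min (m * r / 4) (m / 2)), by positivity, min_le_left _ _,
      (min_le_right _ _).trans (min_le_left _ _), (min_le_right _ _).trans (min_le_right _ _)⟩
  obtain ⟨R', hR', hR1, hR2⟩ : ∃ R' : ℝ, 0 < R' ∧ 8 * R' ≤ r ∧ 8 * R' ≤ 1 :=
    ⟨min r 1 / 8, by positivity, by linarith [min_le_left r 1], by linarith [min_le_right r 1]⟩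
  obtain ⟨ρ', hρ', hρ'1, hρ'2⟩ : ∃ ρ' : ℝ, 0 < ρ' ∧ ρ' ≤ m * R' ∧ ρ' ≤ (L - L') / 4 :=
    ⟨min (m * R') ((L - L') / 4), by positivity, min_le_left _ _, min_le_right _ _⟩
  obtain ⟨κ, hκ, δ, hδ, hKap⟩ := hK ρ ρ' hρ hρ'
  obtain ⟨ρ₀, hρ₀, hsmall⟩ := cc_small M hL hr hG C
  obtain ⟨K, hKpos, q, hq, hcov⟩ := exists_cover hR'
  have hK' : (0:ℝ) < K := by exact_mod_cast hKpos
  obtain ⟨a, ha, ha1, ha2⟩ : ∃ a : ℝ, 0 < a ∧ a ≤ ρ₀ / K ∧ a ≤ (L - L') / 4 :=
    ⟨min (ρ₀ / K) ((L - L') / 4), by positivity, min_le_left _ _, min_le_right _ _⟩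
  obtain ⟨κ₀, hκ₀, hκ1, hκ2⟩ : ∃ κ₀ : ℝ, 0 < κ₀ ∧ κ₀ ≤ κ / 4 ∧ κ₀ ≤ a / 2 :=
    ⟨min (κ / 4) (a / 2), by positivity, min_le_left _ _, min_le_right _ _⟩
  by_contra hcon
  rw [not_le] at hcon
  let T : Set ℝ := {t | ∃ v, AF v ∧ NonnegG v ∧ TV M v < L' ∧ 1 ≤ C.c v ∧ TV M v = t}
  have hT0 : T.Nonempty := ⟨_, u, hu, h0, hTV, by omega, rfl⟩
  have hTb : BddBelow T := ⟨0, by
    rintro _ ⟨v, -, -, -, -, rfl⟩
    exact hG.tv_nonneg v⟩
  obtain ⟨_, ⟨v, hv, hv0, hvT, hvc, rfl⟩, hlt⟩ :=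
    exists_lt_of_csInf_lt hT0 (lt_add_of_pos_right (sInf T) hκ₀)
  have key : ∀ v', AF v' → NonnegG v' → C.c v' = C.c v → TV M v' < sInf T → TV M v' ≤ TV M v →
      False := by
    intro v' h1 h2 h3 h4 h5
    have h6 : TV M v' ∈ T := ⟨v', h1, h2, by linarith, by rw [h3]; exact hvc, rfl⟩
    exact absurd (csInf_le hTb h6) (not_le.2 h4)
  have hbig : ρ₀ ≤ TV M v := by
    by_contra h
    have := hsmall v hv hv0 (not_le.1 h)
    omega
  obtain ⟨z, hz⟩ := hG.bdry v hv (min δ 1) (lt_min hδ one_pos)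
  obtain ⟨Ls, hLs, hzL, htl⟩ := hz.decomp (min_le_right _ _)
  by_cases h1 : ∃ l ∈ Ls, ρ' ≤ llen M (cyc l)
  · obtain ⟨l, hl, hlen⟩ := h1
    obtain ⟨v', a1, a2, a3, a4⟩ := C.step_long hG hm hf (ρ := ρ) (ρ' := ρ') (κ := κ) (δ := δ)
      hρ.le (by
        have : ρ / m ≤ r / 4 := by
          rw [div_le_iff₀ hm]
          linarith
        linarith)
      (by
        rw [div_lt_one hm]
        linarith) hκ hKap hv hv0 (by linarith) hz (hLs l hl).1
      (fun e he => ((hLs l hl).2 e he).trans (min_le_left _ _))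
      (by rw [hzL]; exact cyc_le_darts hl) hlen
    exact key v' a1 a2 a3 (by linarith) (by linarith)
  · push Not at h1
    let c : List E → Fin K := fun l =>
      if h : ∃ j, ‖l.headD 0 - q j‖ ≤ R' then h.choose else ⟨0, hKpos⟩
    have hc : ∀ l ∈ Ls, ‖l.headD 0 - q (c l)‖ ≤ R' := by
      intro l hl
      have h2 : ∃ j, ‖l.headD 0 - q j‖ ≤ R' :=
        hcov _ ((hLs l hl).1.unit _ (hLs l hl).1.head_mem)
      have h3 : c l = h2.choose := dif_pos h2
      rw [h3]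
      exact h2.choose_spec
    obtain ⟨j, hj⟩ := pigeon (fun l => llen M (cyc l)) Ls hKpos c
    have hj2 : a ≤ ((Ls.filter fun l => c l = j).map fun l => llen M (cyc l)).sum := by
      refine ha1.trans (le_trans ?_ hj)
      have h3 : (Ls.map fun l => llen M (cyc l)).sum = TV M v := htl
      rw [h3]
      exact div_le_div_of_nonneg_right hbig hK'.le
    obtain ⟨Ls', hsub, hs1, hs2⟩ := pick (fun l => llen M (cyc l)) (Ls.filter fun l => c l = j)
      (b := ρ') (fun l hl => ⟨llen_nonneg M _, (h1 l (List.mem_of_mem_filter hl)).le⟩) ha.le hρ'.le hj2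
    have hmem : ∀ l ∈ Ls', l ∈ Ls ∧ c l = j := by
      intro l hl
      have h3 := List.mem_filter.1 (hsub.subset hl)
      exact ⟨h3.1, by simpa using h3.2⟩
    have hs1' : a ≤ tlen M Ls' := hs1
    have hs2' : tlen M Ls' ≤ a + ρ' := hs2
    obtain ⟨v', a1, a2, a3, a4⟩ := C.step_group hG (hq j) (R := 2 * R') (by linarith) (by linarith)
      hv hv0 hz (Ls := Ls') (by
        intro l hl
        obtain ⟨h3, h4⟩ := hmem l hl
        refine ⟨(hLs l h3).1, fun x hx => ?_⟩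
        have h5 := (hLs l h3).1.near M hm hf x hx
        have h6 := hc l h3
        rw [h4] at h6
        have h7 : ‖x - l.headD 0‖ ≤ R' := by
          have h8 := (h1 l h3).le
          have h9 : m * ‖x - l.headD 0‖ ≤ m * R' := by linarith
          exact le_of_mul_le_mul_left h9 hm
        calc ‖x - q j‖ = ‖(x - l.headD 0) + (l.headD 0 - q j)‖ := by rw [sub_add_sub_cancel]
          _ ≤ ‖x - l.headD 0‖ + ‖l.headD 0 - q j‖ := norm_add_le _ _
          _ ≤ 2 * R' := by linarith)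
      (by
        rw [hzL]
        exact darts_le_of_sublist (hsub.trans List.filter_sublist))
      (by linarith)
    exact key v' a1 a2 a3 (by linarith) (by linarith)

end CGA
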