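import Pool.Agent.CGA.ICc
import Pool.Agent.CGA.IPoly

/-! PROJECT CGA, module IRem (chunk I). Removing short closed polygons one after the other.
`coneL Ls` is the sum of the cones over the reversed polygons, apex = first vertex. `okCone_poly`: `OkCone.of_near` with `R = llen / m` (`OkPoly.near`), `cyc_bal`, `bal_swap`.
`c_add_coneL`: induction on `Ls` for all `u`: `u + coneL (l :: Ls) = (u + cone l) + coneL Ls` (pointwise, `add_assoc`), `CC.c_add_cone` with `R = llen (cyc l) / m` for the first polygon (`mass_swap`, `mass_coe`), then the induction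
hypothesis for `u + cone l`. `tv_coneL`: `Bdry.mod` for `y = z`, `y' = 0`, `S` = the multiset of the pairs (apex, reversed darts): `TV ≤ mass z - mass z + 0 = 0`, and `TV ≥ 0`.
`coneL_supp`: `coneF_supp` for each summand. -/

set_option linter.all false

namespace CGA

open scoped RealInnerProductSpace Real Topology
open MeasureTheory Set Filter

/-- the cones over the reversed polygons, apex = first vertex -/
noncomputable def coneL (Ls : List (List E)) (p : E) : ℤ :=
  (Ls.map fun l => coneF (l.headD 0) ((cyc l : Multiset (E × E)).map Prod.swap) p).sum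

private theorem IRem_near (M : Met) {m F : ℝ} (hm : 0 < m)
    (hf : ∀ x : E, x ≠ 0 → m ≤ M.f x ∧ M.f x ≤ F) {l : List E} (h : OkPoly l) :
    ∀ e ∈ (cyc l : Multiset (E × E)).map Prod.swap,
      ‖e.1‖ = 1 ∧ ‖e.2‖ = 1 ∧
        ‖e.1 - l.headD 0‖ ≤ llen M (cyc l) / m ∧ ‖e.2 - l.headD 0‖ ≤ llen M (cyc l) / m := by
  intro e he
  obtain ⟨e', he', rfl⟩ := Multiset.mem_map.1 he
  obtain ⟨h1, h2⟩ := mem_cyc (Multiset.mem_coe.1 he')
  have hn : ∀ y ∈ l, ‖y - l.headD 0‖ ≤ llen M (cyc l) / m := by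
    intro y hy
    rw [le_div_iff₀ hm, mul_comm]
    exact h.near M hm hf y hy
  exact ⟨h.unit _ h2, h.unit _ h1, hn _ h2, hn _ h1⟩

theorem okCone_poly (M : Met) {m F : ℝ} (hm : 0 < m) (hf : ∀ x : E, x ≠ 0 → m ≤ M.f x ∧ M.f x ≤ F)
    {l : List E} (h : OkPoly l) (hl : llen M (cyc l) < m) :
    OkCone (l.headD 0) ((cyc l : Multiset (E × E)).map Prod.swap) ∧
      ∀ e ∈ (cyc l : Multiset (E × E)).map Prod.swap,
        ‖e.1 - l.headD 0‖ ≤ llen M (cyc l) / m ∧ ‖e.2 - l.headD 0‖ ≤ llen M (cyc l) / m := by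
  have hx : ‖l.headD 0‖ = 1 := h.unit _ h.head_mem
  have h1 := IRem_near M hm hf h
  refine ⟨OkCone.of_near hx (R := llen M (cyc l) / m) ?_ (bal_swap (cyc_bal l)) h1,
    fun e he => (h1 e he).2.2⟩
  rw [div_lt_one hm]
  exact hl

theorem CC.c_add_coneL {M : Met} {L r : ℝ} (hG : GFacts M) (C : CC M L r) {m F : ℝ} (hm : 0 < m)
    (hf : ∀ x : E, x ≠ 0 → m ≤ M.f x ∧ M.f x ≤ F) (Ls : List (List E))
    (hLs : ∀ l ∈ Ls, OkPoly l ∧ llen M (cyc l) < m ∧ 2 * llen M (cyc l) ≤ m * r) {u : E → ℤ}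
    (hu : AF u) (hT : TV M u + tlen M Ls < L) :
    AF (fun p => u p + coneL Ls p) ∧ TV M (fun p => u p + coneL Ls p) ≤ TV M u + tlen M Ls ∧
      C.c (fun p => u p + coneL Ls p) = C.c u := by
  induction Ls generalizing u with
  | nil =>
    have e : (fun p => u p + coneL [] p) = u := by
      funext p
      simp [coneL]
    rw [e]
    refine ⟨hu, ?_, rfl⟩
    simp [tlen]
  | cons l Ls ih =>
    obtain ⟨h1, h2, h3⟩ := hLs l List.mem_cons_self
    have ht : tlen M (l :: Ls) = llen M (cyc l) + tlen M Ls := by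
      unfold tlen
      rw [List.map_cons, List.sum_cons]
    have hT0 := tlen_nonneg M Ls
    have hk := okCone_poly M hm hf h1 h2
    have hms : mass M ((cyc l : Multiset (E × E)).map Prod.swap) = llen M (cyc l) := by
      rw [mass_swap, mass_coe]
    have hR : 2 * (llen M (cyc l) / m) ≤ r := by
      rw [← mul_div_assoc, div_le_iff₀ hm, mul_comm r m]
      exact h3
    obtain ⟨g1, g2, g3⟩ := C.c_add_cone hG hu hk.1 hk.2 hR (by rw [hms]; linarith)
    rw [hms] at g2
    obtain ⟨k1, k2, k3⟩ := ih (fun l' hl' => hLs l' (List.mem_cons_of_mem _ hl')) g1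
      (by linarith)
    have e : (fun p => u p + coneL (l :: Ls) p) = fun p =>
        (u p + coneF (l.headD 0) ((cyc l : Multiset (E × E)).map Prod.swap) p) + coneL Ls p := by
      funext p
      unfold coneL
      rw [List.map_cons, List.sum_cons, add_assoc]
    rw [e]
    refine ⟨k1, ?_, k3.trans g3⟩
    linarith

private theorem IRem_sum (Ls : List (List E)) :
    (((Ls.map fun l => (l.headD 0, (cyc l : Multiset (E × E)).map Prod.swap) :
      List (E × Multiset (E × E))) : Multiset (E × Multiset (E × E))).map Prod.snd).sum =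
      0 + (darts Ls).map Prod.swap := by
  rw [zero_add]
  induction Ls with
  | nil => simp
  | cons l Ls ih =>
    rw [darts_cons, Multiset.map_add, ← ih]
    rw [List.map_cons]
    simp

private theorem IRem_cone (Ls : List (List E)) (p : E) :
    (((Ls.map fun l => (l.headD 0, (cyc l : Multiset (E × E)).map Prod.swap) :
      List (E × Multiset (E × E))) : Multiset (E × Multiset (E × E))).map
        fun q => coneF q.1 q.2 p).sum = coneL Ls p := by
  unfold coneL
  rw [Multiset.map_coe, Multiset.sum_coe, List.map_map]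
  rfl

theorem Bdry.tv_coneL {M : Met} (hG : GFacts M) {m F : ℝ} (hm : 0 < m)
    (hf : ∀ x : E, x ≠ 0 → m ≤ M.f x ∧ M.f x ≤ F) {u : E → ℤ} {δ : ℝ} {Ls : List (List E)}
    (h : Bdry M u δ (darts Ls)) (hLs : ∀ l ∈ Ls, OkPoly l ∧ llen M (cyc l) < m) :
    TV M (fun p => u p + coneL Ls p) = 0 := by
  refine le_antisymm ?_ (hG.tv_nonneg _)
  have h1 := h.mod (darts Ls) le_rfl 0
    ((Ls.map fun l => (l.headD 0, (cyc l : Multiset (E × E)).map Prod.swap) :
      List (E × Multiset (E × E))) : Multiset (E × Multiset (E × E))) (by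
      intro q hq
      rw [Multiset.mem_coe, List.mem_map] at hq
      obtain ⟨l, hl, rfl⟩ := hq
      exact (okCone_poly M hm hf (hLs l hl).1 (hLs l hl).2).1) (IRem_sum Ls)
  have e : (fun x => u x + (((Ls.map fun l => (l.headD 0, (cyc l : Multiset (E × E)).map Prod.swap) :
      List (E × Multiset (E × E))) : Multiset (E × Multiset (E × E))).map
        fun q => coneF q.1 q.2 x).sum) = fun p => u p + coneL Ls p := by
    funext p
    rw [IRem_cone]
  rw [e] at h1
  have h0 : mass M 0 = 0 := by simp [mass]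
  rw [h0] at h1
  linarith

theorem coneL_supp (M : Met) {m F : ℝ} (hm : 0 < m) (hf : ∀ x : E, x ≠ 0 → m ≤ M.f x ∧ M.f x ≤ F)
    {Ls : List (List E)} (hLs : ∀ l ∈ Ls, OkPoly l ∧ llen M (cyc l) < m) {p : E}
    (hp : ∀ l ∈ Ls, 2 * llen M (cyc l) / m < ‖nrm p - l.headD 0‖) : coneL Ls p = 0 := by
  unfold coneL
  refine List.sum_eq_zero fun v hv => ?_
  obtain ⟨l, hl, rfl⟩ := List.mem_map.1 hv
  obtain ⟨h1, h2⟩ := hLs l hl
  refine coneF_supp (R := llen M (cyc l) / m) (h1.unit _ h1.head_mem)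
    (okCone_poly M hm hf h1 h2).2 ?_
  rw [← mul_div_assoc]
  exact hp l hl

end CGA
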