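import Pool.Agent.CGA.IRem
import Pool.Agent.CGA.IAvoid

/-! PROJECT CGA, module ISmall (chunk I). `c ≤ 0` for functions of small variation.
Bounds `m, F` from `M.exists_bounds`. `ρ₀ = min (L / 2) (min (m * r / 2) (m / 4))`. Boundary `z` of mesh `1` (`hG.bdry`), `Bdry.decomp`, closed polygons `Ls` with `tlen Ls = TV u < ρ₀`; all are shorter than `ρ₀`
(`llen_le_tlen`). `u₁ = u + coneL Ls`: `TV u₁ = 0` (`Bdry.tv_coneL`), `c u₁ = c u` (`c_add_coneL`, `TV u + tlen < L`), `AF u₁`. So `u₁` is generically a constant `k` (`tv_zero`), `c u₁ = -k` (`c_congr`, `c_const`).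
`k ≥ 0`: in the union of the arrangements of `NonnegG u` and of `EqG u₁ k` take a generic point `p` outside of the balls (`exists_gen_outside` for the list `Ls.map fun l => (l.headD 0, 2 * llen (cyc l) / m)`, sum `= 2 TV u / m < 1`):
`coneL Ls p = 0` (`coneL_supp`), so `k = u₁ p = u p ≥ 0`. -/

set_option linter.all false

namespace CGA

open scoped RealInnerProductSpace Real Topology
open MeasureTheory Set Filter

theorem cc_small (M : Met) {L r : ℝ} (hL : 0 < L) (hr : 0 < r) (hG : GFacts M) (C : CC M L r) :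
    ∃ ρ₀ > 0, ∀ u : E → ℤ, AF u → NonnegG u → TV M u < ρ₀ → C.c u ≤ 0 := by
  obtain ⟨m, F, Kl, hm, -, -, hf, -, -⟩ := M.exists_bounds
  obtain ⟨ρ₀, hρ₀, hρ1, hρ2, hρ3⟩ : ∃ ρ₀ : ℝ, 0 < ρ₀ ∧ ρ₀ ≤ L / 2 ∧ ρ₀ ≤ m * r / 2 ∧ ρ₀ ≤ m / 4 :=
    ⟨min (L / 2) (min (m * r / 2) (m / 4)), by positivity, min_le_left _ _,
      (min_le_right _ _).trans (min_le_left _ _), (min_le_right _ _).trans (min_le_right _ _)⟩
  refine ⟨ρ₀, hρ₀, fun u hu h0 hT => ?_⟩
  obtain ⟨z, hz⟩ := hG.bdry u hu 1 one_pos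
  obtain ⟨Ls, hLs, hzL, htl⟩ := hz.decomp le_rfl
  subst hzL
  have hlen : ∀ l ∈ Ls, llen M (cyc l) < ρ₀ := fun l hl =>
    lt_of_le_of_lt (llen_le_tlen M hl) (by rw [htl]; exact hT)
  have hLs' : ∀ l ∈ Ls, OkPoly l ∧ llen M (cyc l) < m ∧ 2 * llen M (cyc l) ≤ m * r := fun l hl =>
    ⟨(hLs l hl).1, by linarith [hlen l hl], by linarith [hlen l hl]⟩
  have hLs'' : ∀ l ∈ Ls, OkPoly l ∧ llen M (cyc l) < m := fun l hl => ⟨(hLs' l hl).1, (hLs' l hl).2.1⟩
  obtain ⟨h1, h2, h3⟩ := C.c_add_coneL hG hm hf Ls hLs' hu (by rw [htl]; linarith)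
  have h4 := hz.tv_coneL hG hm hf hLs''
  obtain ⟨k, hk⟩ := hG.tv_zero _ h1 h4
  have h5 : C.c u = -k := by
    rw [← h3, C.c_congr hG h1 (hG.af_const k) hk (by rw [h4]; exact hL), C.c_const hG hL]
  obtain ⟨N₁, hN₁, hk⟩ := hk
  obtain ⟨N₂, hN₂, h0⟩ := h0
  obtain ⟨N, hN, hs1, hs2⟩ := isArr_union hN₁ hN₂
  obtain ⟨p, hp, hpQ⟩ := exists_gen_outside hN (Ls.map fun l => (l.headD 0, 2 * llen M (cyc l) / m))
    (by
      intro i hi
      obtain ⟨l, hl, rfl⟩ := List.mem_map.1 hi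
      have := llen_nonneg M (cyc l)
      positivity)
    (by
      rw [List.map_map]
      have h6 : (Ls.map (Prod.snd ∘ fun l => (l.headD 0, 2 * llen M (cyc l) / m))).sum =
          tlen M Ls * (2 / m) := by
        unfold tlen
        rw [← List.sum_map_mul_right]
        congr 1
        refine List.map_congr_left fun l _ => ?_
        simp only [Function.comp_apply]
        ring
      rw [h6, htl, ← mul_div_assoc, div_lt_one hm]
      linarith)
  have h7 : coneL Ls p = 0 := coneL_supp M hm hf hLs'' (by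
    intro l hl
    exact hpQ (l.headD 0, 2 * llen M (cyc l) / m) (List.mem_map.2 ⟨l, hl, rfl⟩))
  have h8 : u p + coneL Ls p = k := hk p (hp.monoI hs1)
  have h9 := h0 p (hp.monoI hs2)
  rw [h7, add_zero] at h8
  rw [h5]
  omega

end CGA
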