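import Mathlib

/-! # PROJECT CGA, module JMin: a finite minimisation

Regions `σ : R`, edges `e ∈ S` of weight `w e ≥ 0` with the two sides `p e`, `q e`.  If the sets `D i` cover the regions,
there is a choice `a σ` with `D (a σ) σ` such that the perimeter of each class `{a = i}` is at most the perimeter of
`D i`: a choice with the least total weight of the edges across which it changes. -/

set_option linter.all false

namespace CGA.K

open Classical in
theorem JMin {R α : Type*} [Finite R] (S : Finset α) (w : α → ℝ) (hw : ∀ e ∈ S, 0 ≤ w e)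
    (p q : α → R) (D : Fin 4 → R → Prop) (hcov : ∀ σ, ∃ i, D i σ) :
    ∃ a : R → Fin 4, (∀ σ, D (a σ) σ) ∧ ∀ i,
      ∑ e ∈ S, w e * (if (a (p e) = i ↔ a (q e) = i) then (0:ℝ) else 1) ≤
        ∑ e ∈ S, w e * (if (D i (p e) ↔ D i (q e)) then (0:ℝ) else 1) := by
  set A : Set (R → Fin 4) := {a | ∀ σ, D (a σ) σ} with hA
  have hne : A.Nonempty := by
    choose a ha using hcov
    exact ⟨a, ha⟩
  obtain ⟨a, ha, hmin⟩ := Set.exists_min_image A
    (fun a => ∑ e ∈ S, w e * (if a (p e) = a (q e) then (0:ℝ) else 1)) (Set.toFinite A) hne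
  refine ⟨a, ha, fun i => ?_⟩
  set a' : R → Fin 4 := fun σ => if D i σ then i else a σ with ha'
  have ha'A : a' ∈ A := by
    intro σ
    by_cases h : D i σ
    · simp [ha', h]
    · simp only [ha', h, if_false]
      exact ha σ
  have h1 := hmin a' ha'A
  have key : ∀ e ∈ S, w e * (if (a (p e) = i ↔ a (q e) = i) then (0:ℝ) else 1) +
      w e * (if a' (p e) = a' (q e) then (0:ℝ) else 1) ≤
      w e * (if (D i (p e) ↔ D i (q e)) then (0:ℝ) else 1) +
      w e * (if a (p e) = a (q e) then (0:ℝ) else 1) := by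
    intro e he
    rw [← mul_add, ← mul_add]
    refine mul_le_mul_of_nonneg_left ?_ (hw e he)
    have hp : a (p e) = i → D i (p e) := fun h => h ▸ ha (p e)
    have hq : a (q e) = i → D i (q e) := fun h => h ▸ ha (q e)
    have b1 : ∀ (P : Prop) [Decidable P], (if P then (0:ℝ) else 1) ≤ 1 := fun P _ => by split_ifs <;> norm_num
    have b0 : ∀ (P : Prop) [Decidable P], 0 ≤ (if P then (0:ℝ) else 1) := fun P _ => by split_ifs <;> norm_num
    by_cases dp : D i (p e) <;> by_cases dq : D i (q e)
    · have e1 : a' (p e) = a' (q e) := by simp [ha', dp, dq]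
      rw [if_pos e1, if_pos (iff_of_true dp dq)]
      by_cases h : a (p e) = a (q e)
      · rw [if_pos (by rw [h]), if_pos h]
      · rw [if_neg h]
        linarith [b1 (a (p e) = i ↔ a (q e) = i)]
    · have n2 : a (q e) ≠ i := fun h => dq (hq h)
      rw [if_neg (show ¬ (D i (p e) ↔ D i (q e)) from fun h => dq (h.1 dp))]
      by_cases h : a (p e) = i
      · rw [if_neg (show ¬ (a (p e) = a (q e)) from fun h' => n2 (h' ▸ h))]
        linarith [b1 (a (p e) = i ↔ a (q e) = i), b1 (a' (p e) = a' (q e))]
      · rw [if_pos (iff_of_false h n2)]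
        linarith [b1 (a' (p e) = a' (q e)), b0 (a (p e) = a (q e))]
    · have n1 : a (p e) ≠ i := fun h => dp (hp h)
      rw [if_neg (show ¬ (D i (p e) ↔ D i (q e)) from fun h => dp (h.2 dq))]
      by_cases h : a (q e) = i
      · rw [if_neg (show ¬ (a (p e) = a (q e)) from fun h' => n1 (h'.trans h))]
        linarith [b1 (a (p e) = i ↔ a (q e) = i), b1 (a' (p e) = a' (q e))]
      · rw [if_pos (iff_of_false n1 h)]
        linarith [b1 (a' (p e) = a' (q e)), b0 (a (p e) = a (q e))]
    · have n1 : a (p e) ≠ i := fun h => dp (hp h)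
      have n2 : a (q e) ≠ i := fun h => dq (hq h)
      have e1 : a' (p e) = a (p e) := by simp [ha', dp]
      have e2 : a' (q e) = a (q e) := by simp [ha', dq]
      rw [e1, e2, if_pos (iff_of_false n1 n2), if_pos (iff_of_false dp dq)]
  have h2 := Finset.sum_le_sum key
  rw [Finset.sum_add_distrib, Finset.sum_add_distrib] at h2
  linarith

end CGA.K
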