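import Pool.Agent.CGA.GUse
import Pool.Agent.CGA.JMin
import Pool.Agent.CGA.AEllR

/-! # PROJECT CGA, module JFin: the sphere is not covered by four small sets

Common arrangement `N'`; the region of a generic point is its set of signs.  `JMin` gives a choice `a` of one of the
`D i` for each region such that `F i = {a = i}` has total variation at most that of `D i`.  `c (F i) = 0`: it is `≤ 0`
and `c (D i - F i) ≤ 0`.  Then `c (F 0 + F 1) = 0` and `c (F 2 + F 3) = 0`, but `F 2 + F 3 = 1 - (F 0 + F 1)`. -/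

set_option linter.all false

namespace CGA.K

open scoped RealInnerProductSpace Real Topology
open MeasureTheory Set Filter

private theorem j_TV (M : Met) {N : Finset E} (hN : IsArr N) {P Q : E × E × E → E}
    (hPQ : ∀ e ∈ EdgeSet N, ∀ u : E → ℤ, Fn N u →
      sv u (e.2.1 + e.2.2) e.1 = u (P e) ∧ sv u (e.2.1 + e.2.2) (-e.1) = u (Q e))
    {u : E → ℤ} (hu : Fn N u) :
    TV M u = ∑ e ∈ (EdgeSet_finite hN).toFinset, ell M e.2.1 e.2.2 * |(u (P e) - u (Q e) : ℝ)| := by
  rw [TV_eq M hN hu, TVN, finsum_mem_eq_finite_toFinset_sum _ (EdgeSet_finite hN)]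
  refine Finset.sum_congr rfl fun e he => ?_
  have he' : e ∈ EdgeSet N := (EdgeSet_finite hN).mem_toFinset.1 he
  obtain ⟨h1, h2⟩ := hPQ e he' u hu
  rw [Jmp, h1, h2, mul_comm]
  push_cast
  rfl

open Classical in
theorem no_cover (M : Met) {L L' r : ℝ} (hr : 0 < r) (hL' : L' < L) (C : CC M L r)
    (hS : ∀ u : E → ℤ, AF u → (∃ N, IsArr N ∧ ∀ x, Gen N x → 0 ≤ u x) → TV M u < L' → C.c u ≤ 0)
    (D : Fin 4 → E → ℤ) (hD : ∀ i, AF (D i)) (h01 : ∀ i x, D i x = 0 ∨ D i x = 1)
    (hTV : ∀ i, TV M (D i) < L' / 2) (hc : ∀ i, C.c (D i) = 0) (N : Finset E) (hN : IsArr N) :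
    ∃ x, Gen N x ∧ ∀ i, D i x = 0 := by
  by_contra hcon
  push Not at hcon
  choose Ni hNi hFi using hD
  set N' : Finset E := N ∪ (Finset.univ : Finset (Fin 4)).biUnion Ni with hN'def
  have hsub : N ⊆ N' := Finset.subset_union_left
  have hsubi : ∀ i, Ni i ⊆ N' := fun i =>
    (Finset.subset_biUnion_of_mem Ni (Finset.mem_univ i)).trans Finset.subset_union_right
  have hN' : IsArr N' := by
    refine ⟨fun n hn => ?_, fun n hn => ?_, fun i => hsub (hN.coord i)⟩
    · rcases Finset.mem_union.1 hn with h | h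
      · exact hN.unit n h
      · obtain ⟨i, -, hi⟩ := Finset.mem_biUnion.1 h
        exact (hNi i).unit n hi
    · rcases Finset.mem_union.1 hn with h | h
      · exact hN.can n h
      · obtain ⟨i, -, hi⟩ := Finset.mem_biUnion.1 h
        exact (hNi i).can n hi
  have hF' : ∀ i, Fn N' (D i) := fun i => fn_mono (hsubi i) (hFi i)
  set lab : E → (↥N' → Prop) := fun x n => 0 < ⟪(n : E), x⟫ with hlab
  have lab_eq : ∀ x y, Gen N' x → Gen N' y → lab x = lab y → ∀ n ∈ N', 0 < ⟪n, x⟫ * ⟪n, y⟫ := by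
    intro x y hx hy h n hn
    have h1 : (0 < ⟪n, x⟫) = (0 < ⟪n, y⟫) := congrFun h ⟨n, hn⟩
    by_cases hp : 0 < ⟪n, x⟫
    · exact mul_pos hp (h1 ▸ hp)
    · have hq : ¬ 0 < ⟪n, y⟫ := h1 ▸ hp
      have a1 : ⟪n, x⟫ < 0 := lt_of_le_of_ne (not_lt.1 hp) (hx n hn)
      have a2 : ⟪n, y⟫ < 0 := lt_of_le_of_ne (not_lt.1 hq) (hy n hn)
      exact mul_pos_of_neg_of_neg a1 a2
  have lab_of : ∀ x y, (∀ n ∈ N', 0 < ⟪n, x⟫ * ⟪n, y⟫) → lab x = lab y := by
    intro x y h
    funext n
    have h1 := h n n.2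
    refine propext ⟨fun hp => ?_, fun hp => ?_⟩
    · exact (pos_iff_pos_of_mul_pos h1).1 hp
    · exact (pos_iff_pos_of_mul_pos h1).2 hp
  set Dp : Fin 4 → (↥N' → Prop) → Prop := fun i σ => ∀ x, Gen N' x → lab x = σ → D i x = 1 with hDp
  have Dp_iff : ∀ i x, Gen N' x → (Dp i (lab x) ↔ D i x = 1) := by
    intro i x hx
    refine ⟨fun h => h x hx rfl, fun h y hy hxy => ?_⟩
    rw [hF' i y x (lab_eq y x hy hx hxy)]
    exact h
  have hcov : ∀ σ, ∃ i, Dp i σ := by
    intro σ
    by_cases h : ∃ x, Gen N' x ∧ lab x = σ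
    · obtain ⟨x, hx, rfl⟩ := h
      obtain ⟨i, hi⟩ := hcon x fun n hn => hx n (hsub hn)
      exact ⟨i, (Dp_iff i x hx).2 ((h01 i x).resolve_left hi)⟩
    · exact ⟨0, fun x hx hxσ => absurd ⟨x, hx, hxσ⟩ h⟩
  choose! P Q hP hQ hPQ using fun e (he : e ∈ EdgeSet N') => exists_sides hN' he
  obtain ⟨a, ha, hle⟩ := JMin (EdgeSet_finite hN').toFinset (fun e => ell M e.2.1 e.2.2)
    (fun e _ => ell_nonneg M _ _) (fun e => lab (P e)) (fun e => lab (Q e)) Dp hcov
  set F : Fin 4 → E → ℤ := fun i x => if a (lab x) = i then 1 else 0 with hFdef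
  have hFn : ∀ i, Fn N' (F i) := by
    intro i x y h
    simp only [hFdef]
    rw [lab_of x y h]
  have hAF : ∀ i, AF (F i) := fun i => ⟨N', hN', hFn i⟩
  have hAD : ∀ i, AF (D i) := fun i => ⟨N', hN', hF' i⟩
  have hTVle : ∀ i, TV M (F i) ≤ TV M (D i) := by
    intro i
    rw [j_TV M hN' hPQ (hFn i), j_TV M hN' hPQ (hF' i)]
    refine le_trans (le_of_eq ?_) ((hle i).trans (le_of_eq ?_))
    · refine Finset.sum_congr rfl fun e he => ?_
      congr 1
      simp only [hFdef]
      by_cases h1 : a (lab (P e)) = i <;> by_cases h2 : a (lab (Q e)) = i <;> simp [h1, h2]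
    · refine Finset.sum_congr rfl fun e he => ?_
      have he' : e ∈ EdgeSet N' := (EdgeSet_finite hN').mem_toFinset.1 he
      congr 1
      have d1 := Dp_iff i (P e) (hP e he')
      have d2 := Dp_iff i (Q e) (hQ e he')
      rcases h01 i (P e) with h1 | h1 <;> rcases h01 i (Q e) with h2 | h2 <;>
        simp [d1, d2, h1, h2]
  have hL0 : 0 < L' := by
    have h1 := hTV 0
    have h2 := TV_nonneg M (D 0)
    linarith
  have hTVF : ∀ i, TV M (F i) < L' / 2 := fun i => (hTVle i).trans_lt (hTV i)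
  have hcF : ∀ i, C.c (F i) = 0 := by
    intro i
    have h1 : C.c (F i) ≤ 0 := by
      refine hS _ (hAF i) ⟨N', hN', fun x _ => ?_⟩ (by have := hTVF i; linarith)
      simp only [hFdef]
      split_ifs <;> norm_num
    have h2 : C.c (fun x => D i x + - F i x) ≤ 0 := by
      refine hS _ (af_add (hAD i) (af_neg (hAF i))) ⟨N', hN', fun x hx => ?_⟩ ?_
      · have hd := h01 i x
        by_cases h : a (lab x) = i
        · have h3 : D i x = 1 := by
            have := ha (lab x)
            rw [h] at this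
            exact this x hx rfl
          simp [hFdef, h, h3]
        · simp only [hFdef, h, if_false]
          rcases hd with hd | hd <;> simp [hd]
      · have h3 := TV_add_le M (hAD i) (af_neg (hAF i))
        have h4 := TV_neg M (hAF i)
        have h5 := hTVF i
        have h6 := hTV i
        linarith
    have h3 := C.add (D i) (fun x => - F i x) (hAD i) (af_neg (hAF i)) (by
      rw [TV_neg M (hAF i)]
      have h5 := hTVF i
      have h6 := hTV i
      linarith)
    have h4 := C.neg (F i) (hAF i) (by have h5 := hTVF i; linarith)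
    rw [h3, h4, hc i] at h2
    linarith
  have hadd : ∀ i j, C.c (fun x => F i x + F j x) = 0 := by
    intro i j
    rw [C.add _ _ (hAF i) (hAF j) (by have h5 := hTVF i; have h6 := hTVF j; linarith), hcF, hcF,
      add_zero]
  have hG : AF fun x => F 0 x + F 1 x := af_add (hAF 0) (hAF 1)
  have hGTV : TV M (fun x => F 0 x + F 1 x) < L := by
    have h1 := TV_add_le M (hAF 0) (hAF 1)
    have h5 := hTVF 0
    have h6 := hTVF 1
    linarith
  have e : (fun x => F 2 x + F 3 x) = fun x => - (F 0 x + F 1 x) + 1 := by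
    funext x
    simp only [hFdef]
    have : ∀ k : Fin 4, (if k = 2 then (1:ℤ) else 0) + (if k = 3 then (1:ℤ) else 0) =
        -((if k = 0 then (1:ℤ) else 0) + (if k = 1 then (1:ℤ) else 0)) + 1 := by decide
    exact this _
  have h1 := hadd 2 3
  rw [e, C.const _ 1 (af_neg hG) (by rw [TV_neg M hG]; exact hGTV), C.neg _ hG hGTV, hadd 0 1] at h1
  norm_num at h1

end CGA.K
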