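import Pool.Agent.CGA.KTV

/-! # PROJECT CGA, module KCC: elementary consequences of the axioms of `CC`

PROOF.  `cc_zero`: `C.loc` with any `q` and any arrangement (`exists_arr ∅`); `TV M (fun _ => 0) = 0 < L`.
`cc_one`: `C.const (fun _ => 0) 1`: `c (0 + 1) = c 0 - 1`.
`cc_congr`: `w x := v x + - u x` is an arrangement function, generically `0`, so `TV w = 0` (`TV_zero`) and `c w = 0` (`C.loc`, any `q`);
`v = u + w`, `C.add`.
`cap_compl`: `capF + capF'` is generically `1` (`capF_compl`, `exists_capArr`); `C.add` (both total variations are `< L'/2`, and `L' < L`),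
`cc_congr` with the constant function `1` (total variation `0`), `cc_one`: the sum of the two integers is `-1`.  Both are `≤ 0` by `hS`
(`capF01`), so if one is not `0` then the other is `0`. -/

set_option linter.all false

namespace CGA.K

open scoped RealInnerProductSpace Real Topology
open MeasureTheory Set Filter

private theorem kcc_arr : ∃ N : Finset E, IsArr N := by
  obtain ⟨N, hN, -⟩ := exists_arr ∅ (by simp)
  exact ⟨N, hN⟩

private theorem kcc_unit : ‖(EuclideanSpace.single (0 : Fin 3) (1 : ℝ) : E)‖ = 1 := by simp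

private theorem kcc_TV0 (M : Met) : TV M (fun _ => 0) = 0 := by
  obtain ⟨N, hN⟩ := kcc_arr
  exact TV_zero M (af_const 0) ⟨N, hN, fun _ _ => rfl⟩

private theorem kcc_loc {M : Met} {L r : ℝ} (hL : 0 < L) (C : CC M L r) {u : E → ℤ} (hu : AF u)
    (h : ∃ N, IsArr N ∧ ∀ x, Gen N x → u x = 0) : C.c u = 0 := by
  have h0 : TV M u = 0 := TV_zero M hu h
  obtain ⟨N, hN, hz⟩ := h
  exact C.loc u hu (by rw [h0]; exact hL) _ kcc_unit ⟨N, hN, fun x hx _ => hz x hx⟩

theorem cc_zero {M : Met} {L r : ℝ} (hL : 0 < L) (C : CC M L r) : C.c (fun _ => 0) = 0 := by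
  obtain ⟨N, hN⟩ := kcc_arr
  exact kcc_loc hL C (af_const 0) ⟨N, hN, fun _ _ => rfl⟩

theorem cc_one {M : Met} {L r : ℝ} (hL : 0 < L) (C : CC M L r) : C.c (fun _ => 1) = -1 := by
  have h1 := C.const (fun _ => 0) 1 (af_const 0) (by rw [kcc_TV0]; exact hL)
  rw [cc_zero hL C] at h1
  simpa using h1

theorem cc_congr {M : Met} {L r : ℝ} (hL : 0 < L) (C : CC M L r) {u v : E → ℤ} (hu : AF u) (hv : AF v)
    (hTV : TV M u < L) (h : ∃ N, IsArr N ∧ ∀ x, Gen N x → u x = v x) : C.c v = C.c u := by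
  have hw : AF fun x => v x + -u x := af_add hv (af_neg hu)
  have hz : ∃ N, IsArr N ∧ ∀ x, Gen N x → (fun x => v x + -u x) x = 0 := by
    obtain ⟨N, hN, hx⟩ := h
    refine ⟨N, hN, fun x hg => ?_⟩
    simp only
    rw [hx x hg]
    ring
  have h0 := TV_zero M hw hz
  have hc := kcc_loc hL C hw hz
  have h1 := C.add u (fun x => v x + -u x) hu hw (by rw [h0, add_zero]; exact hTV)
  have h2 : (fun x => u x + (v x + -u x)) = v := by
    funext x
    ring
  rw [h2, hc, add_zero] at h1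
  exact h1

theorem cap_compl (M : Met) {L L' r : ℝ} (h0 : 0 < L') (hL' : L' < L) (C : CC M L r)
    (hS : ∀ u : E → ℤ, AF u → (∃ N, IsArr N ∧ ∀ x, Gen N x → 0 ≤ u x) → TV M u < L' → C.c u ≤ 0)
    {v e₁ e₂ : E} (h : Frm v e₁ e₂) {t : ℝ} (ht : |t| < 1) {n : ℕ} (hn : 3 ≤ n)
    (h1 : TV M (capF v e₁ e₂ t n) < L' / 2) (h2 : TV M (capF (-v) e₁ (-e₂) (-t) n) < L' / 2)
    (h3 : C.c (capF v e₁ e₂ t n) ≠ 0) : C.c (capF (-v) e₁ (-e₂) (-t) n) = 0 := by
  have hL : 0 < L := h0.trans hL'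
  have a1 := af_capF v e₁ e₂ t n
  have a2 := af_capF (-v) e₁ (-e₂) (-t) n
  obtain ⟨N, hN, hx⟩ := exists_capArr h ht hn
  have hadd := C.add _ _ a1 a2 (by linarith)
  -- the sum is generically one
  have hone : C.c (fun x => capF v e₁ e₂ t n x + capF (-v) e₁ (-e₂) (-t) n x) = C.c fun _ => 1 := by
    refine cc_congr hL C (u := fun _ => 1) (af_const 1) (af_add a1 a2) ?_ ⟨N, hN, fun x hg => ?_⟩
    · have h5 := TV_add_const M (u := fun _ => 0) (af_const 0) 1
      rw [kcc_TV0] at h5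
      simp only [zero_add] at h5
      rw [h5]
      exact hL
    · obtain ⟨h6, h7⟩ := hx x hg
      exact (capF_compl h ht hn h6 h7).symm
  rw [hone, cc_one hL C] at hadd
  have b1 : C.c (capF v e₁ e₂ t n) ≤ 0 := by
    refine hS _ a1 ⟨N, hN, fun x _ => ?_⟩ (by linarith)
    rcases capF01 h ht hn x with h8 | h8 <;> rw [h8]
    exact zero_le_one
  have b2 : C.c (capF (-v) e₁ (-e₂) (-t) n) ≤ 0 := by
    refine hS _ a2 ⟨N, hN, fun x hg => ?_⟩ (by linarith)
    obtain ⟨h6, h7⟩ := hx x hg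
    have h9 := capF_compl h ht hn h6 h7
    rcases capF01 h ht hn x with h8 | h8 <;> omega
  omega

end CGA.K
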