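import Pool.Agent.CGA.KSec
import Pool.Agent.CGA.GUse
import Pool.Agent.CGA.ACyc

/-! # PROJECT CGA, module KCap: the functions `capF`

`q_j = cpt v e₁ e₂ t (ang n j)`.
PROOF.  `capF_eq_sum`, `llen_ngon`: `cyc_ofFn` (with `NeZero n`), `ngon = List.ofFn (fun j => q_j)`; for the last index `X (i+1) = q_0 = q_n`
(`cpt_add_two_pi`, `ang n n = 2π`); sums over `List.ofFn` are sums over `Fin n` (`List.sum_ofFn`), `Fin.sum_univ_eq_sum_range`.
`capF_neg_eq_sum`: `cpt (-v) e₁ (-e₂) (-t) (ang n i) = cpt v e₁ e₂ t (- ang n i) = q_{n-i}` for `i ≤ n` (`cpt_neg`, periodicity), then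
reflect the sum (`Finset.sum_range_reflect`).
`capF01`: at most one summand is not `0` (`tri_pos` with `det3_v_ngon_pos`; `sector_unique`) and it is `1`.
`capF_compl`: `x ≠ 0`; `exists_sector` for `nrm x` gives `j` with `x` in the sector `j`; all other summands of both sums vanish
(`sector_unique`); `tri v q_j q_{j+1} x = 1` iff `0 < det3 x q_j q_{j+1}`, and `tri (-v) q_{j+1} q_j x = 1` iff
`0 < det3 x q_{j+1} q_j = - det3 x q_j q_{j+1}` (`det3_neg1`, `det3_swap23`, ...).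
`exists_capArr`: `exists_arr` for the normals `crs v q_j` (`≠ 0` since `|t| < 1`: `norm_crs_sq`) and `crs q_j q_{j+1}` (`≠ 0` since
`det3 v q_j q_{j+1} > 0`); `det3 v q_j x = ⟪x, crs v q_j⟫` up to cyclic order. -/

set_option linter.all false

namespace CGA.K

open scoped RealInnerProductSpace Real Topology
open MeasureTheory Set Filter

private theorem kcap_qn (v e₁ e₂ : E) (t : ℝ) {n : ℕ} (hn : 1 ≤ n) :
    cpt v e₁ e₂ t (ang n n) = cpt v e₁ e₂ t (ang n 0) := by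
  have hn' : (n : ℝ) ≠ 0 := by
    have : n ≠ 0 := by omega
    exact_mod_cast this
  have h1 : ang n n = 0 + 2 * π := by unfold ang; field_simp; ring
  have h2 : ang n 0 = 0 := by unfold ang; simp
  rw [h1, h2, cpt_add_two_pi]

private theorem kcap_cyc (v e₁ e₂ : E) (t : ℝ) {n : ℕ} (hn : 1 ≤ n) :
    cyc (ngon v e₁ e₂ t n) = List.ofFn fun j : Fin n =>
      (cpt v e₁ e₂ t (ang n j), cpt v e₁ e₂ t (ang n (j + 1))) := by
  haveI : NeZero n := ⟨by omega⟩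
  unfold ngon
  rw [cyc_ofFn]
  congr 1
  funext i
  refine Prod.ext rfl ?_
  show cpt v e₁ e₂ t (2 * π * (((i + 1 : Fin n) : ℕ) : ℝ) / n) = cpt v e₁ e₂ t (ang n ((i : ℕ) + 1))
  by_cases hi : (i : ℕ) + 1 < n
  · have : ((i + 1 : Fin n) : ℕ) = (i : ℕ) + 1 := by
      rw [Fin.val_add]
      have h1 : ((1 : Fin n) : ℕ) = 1 % n := Fin.val_one' n
      rw [h1, Nat.add_mod_mod, Nat.mod_eq_of_lt hi]
    rw [this]
    rfl
  · have h2 : (i : ℕ) + 1 = n := by have := i.2; omega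
    have : ((i + 1 : Fin n) : ℕ) = 0 := by
      rw [Fin.val_add]
      have h1 : ((1 : Fin n) : ℕ) = 1 % n := Fin.val_one' n
      rw [h1, Nat.add_mod_mod, h2, Nat.mod_self]
    rw [this, h2, kcap_qn v e₁ e₂ t hn]
    rfl

theorem capF_eq_sum (v e₁ e₂ : E) (t : ℝ) {n : ℕ} (hn : 1 ≤ n) (x : E) :
    capF v e₁ e₂ t n x = ∑ j ∈ Finset.range n,
      tri v (cpt v e₁ e₂ t (ang n j)) (cpt v e₁ e₂ t (ang n (j + 1))) x := by
  unfold capF coneF
  rw [kcap_cyc v e₁ e₂ t hn, Multiset.map_coe, Multiset.sum_coe, List.map_ofFn, List.sum_ofFn]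
  exact Fin.sum_univ_eq_sum_range
    (fun j => tri v (cpt v e₁ e₂ t (ang n j)) (cpt v e₁ e₂ t (ang n (j + 1))) x) n

theorem llen_ngon (M : Met) (v e₁ e₂ : E) (t : ℝ) {n : ℕ} (hn : 1 ≤ n) :
    llen M (cyc (ngon v e₁ e₂ t n)) = ∑ j ∈ Finset.range n,
      ell M (cpt v e₁ e₂ t (ang n j)) (cpt v e₁ e₂ t (ang n (j + 1))) := by
  unfold llen
  rw [kcap_cyc v e₁ e₂ t hn, List.map_ofFn, List.sum_ofFn]
  exact Fin.sum_univ_eq_sum_range
    (fun j => ell M (cpt v e₁ e₂ t (ang n j)) (cpt v e₁ e₂ t (ang n (j + 1)))) n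

private theorem kcap_neg (v e₁ e₂ : E) (t : ℝ) {n : ℕ} (hn : 1 ≤ n) {i : ℕ} (hi : i ≤ n) :
    cpt (-v) e₁ (-e₂) (-t) (ang n i) = cpt v e₁ e₂ t (ang n (n - i)) := by
  have hn' : (n : ℝ) ≠ 0 := by
    have : n ≠ 0 := by omega
    exact_mod_cast this
  rw [cpt_neg]
  have h1 : ang n (n - i) = -ang n i + 2 * π := by
    unfold ang
    rw [Nat.cast_sub hi]
    field_simp
    ring
  rw [h1, cpt_add_two_pi]

theorem capF_neg_eq_sum (v e₁ e₂ : E) (t : ℝ) {n : ℕ} (hn : 1 ≤ n) (x : E) :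
    capF (-v) e₁ (-e₂) (-t) n x = ∑ j ∈ Finset.range n,
      tri (-v) (cpt v e₁ e₂ t (ang n (j + 1))) (cpt v e₁ e₂ t (ang n j)) x := by
  rw [capF_eq_sum _ _ _ _ hn, ← Finset.sum_range_reflect]
  refine Finset.sum_congr rfl fun j hj => ?_
  have hj' : j < n := Finset.mem_range.1 hj
  rw [kcap_neg v e₁ e₂ t hn (by omega), kcap_neg v e₁ e₂ t hn (by omega)]
  have h1 : n - (n - 1 - j) = j + 1 := by omega
  have h2 : n - (n - 1 - j + 1) = j := by omega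
  rw [h1, h2]

/-- the value of `capF` in a sector -/
theorem capF_sector {v e₁ e₂ : E} (h : Frm v e₁ e₂) {t : ℝ} (ht : |t| < 1) {n : ℕ} (hn : 3 ≤ n)
    {x : E} {j : ℕ} (hj : j < n) (h1 : 0 < det3 v (cpt v e₁ e₂ t (ang n j)) x)
    (h2 : 0 < det3 v x (cpt v e₁ e₂ t (ang n (j + 1)))) :
    capF v e₁ e₂ t n x = tri v (cpt v e₁ e₂ t (ang n j)) (cpt v e₁ e₂ t (ang n (j + 1))) x := by
  rw [capF_eq_sum _ _ _ _ (by omega)]
  refine Finset.sum_eq_single j (fun k hk hkj => ?_) (fun hj' => absurd (Finset.mem_range.2 hj) hj')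
  rw [tri_pos (det3_v_ngon_pos h ht hn k), if_neg]
  rintro ⟨-, h3, h4⟩
  exact hkj (sector_unique h ht hn x (Finset.mem_range.1 hk) hj h4 h3 h1 h2)

theorem capF01 {v e₁ e₂ : E} (h : Frm v e₁ e₂) {t : ℝ} (ht : |t| < 1) {n : ℕ} (hn : 3 ≤ n) (x : E) :
    capF v e₁ e₂ t n x = 0 ∨ capF v e₁ e₂ t n x = 1 := by
  by_cases hex : ∃ j < n, 0 < det3 v (cpt v e₁ e₂ t (ang n j)) x ∧
      0 < det3 v x (cpt v e₁ e₂ t (ang n (j + 1)))
  · obtain ⟨j, hj, h1, h2⟩ := hex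
    rw [capF_sector h ht hn hj h1 h2, tri_pos (det3_v_ngon_pos h ht hn j)]
    split_ifs
    · exact Or.inr rfl
    · exact Or.inl rfl
  · left
    rw [capF_eq_sum _ _ _ _ (by omega)]
    refine Finset.sum_eq_zero fun k hk => ?_
    rw [tri_pos (det3_v_ngon_pos h ht hn k), if_neg]
    rintro ⟨-, h3, h4⟩
    exact hex ⟨k, Finset.mem_range.1 hk, h4, h3⟩

theorem capF_compl {v e₁ e₂ : E} (h : Frm v e₁ e₂) {t : ℝ} (ht : |t| < 1) {n : ℕ} (hn : 3 ≤ n)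
    {x : E} (h1 : ∀ j < n, det3 v (cpt v e₁ e₂ t (ang n j)) x ≠ 0)
    (h2 : ∀ j < n, det3 x (cpt v e₁ e₂ t (ang n j)) (cpt v e₁ e₂ t (ang n (j + 1))) ≠ 0) :
    capF v e₁ e₂ t n x + capF (-v) e₁ (-e₂) (-t) n x = 1 := by
  have hx0 : x ≠ 0 := by
    intro h0
    apply h1 0 (by omega)
    rw [h0]
    simp [det3]
  have hxp : 0 < ‖x‖⁻¹ := inv_pos.2 (norm_pos_iff.2 hx0)
  have e1 : ∀ q : E, det3 v q (nrm x) = ‖x‖⁻¹ * det3 v q x := fun q => det3_smul3 _ _ _ _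
  have e2 : ∀ q : E, det3 v (nrm x) q = ‖x‖⁻¹ * det3 v x q := fun q => det3_smul2 _ _ _ _
  obtain ⟨j, hj, hj1, hj2⟩ := exists_sector h ht hn (norm_nrm hx0)
    (fun j hj => by rw [e1]; exact mul_ne_zero hxp.ne' (h1 j hj))
  rw [e1, mul_pos_iff_of_pos_left hxp] at hj1
  rw [e2, mul_pos_iff_of_pos_left hxp] at hj2
  have hneg : ∀ k, 0 < det3 (-v) (cpt v e₁ e₂ t (ang n (k + 1))) (cpt v e₁ e₂ t (ang n k)) := by
    intro k
    rw [det3_neg1, det3_swap23, neg_neg]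
    exact det3_v_ngon_pos h ht hn k
  have hB : capF (-v) e₁ (-e₂) (-t) n x =
      tri (-v) (cpt v e₁ e₂ t (ang n (j + 1))) (cpt v e₁ e₂ t (ang n j)) x := by
    rw [capF_neg_eq_sum _ _ _ _ (by omega)]
    refine Finset.sum_eq_single j (fun k hk hkj => ?_)
      (fun hj' => absurd (Finset.mem_range.2 hj) hj')
    rw [tri_pos (hneg k), if_neg]
    rintro ⟨-, h3, h4⟩
    rw [det3_neg1, det3_swap23, neg_neg] at h3 h4
    exact hkj (sector_unique h ht hn x (Finset.mem_range.1 hk) hj h3 h4 hj1 hj2)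
  rw [capF_sector h ht hn hj hj1 hj2, hB, tri_pos (det3_v_ngon_pos h ht hn j), tri_pos (hneg j)]
  have c1 : 0 < det3 (-v) x (cpt v e₁ e₂ t (ang n j)) := by
    rw [det3_neg1, det3_swap23, neg_neg]
    exact hj1
  have c2 : 0 < det3 (-v) (cpt v e₁ e₂ t (ang n (j + 1))) x := by
    rw [det3_neg1, det3_swap23, neg_neg]
    exact hj2
  have c3 : det3 x (cpt v e₁ e₂ t (ang n (j + 1))) (cpt v e₁ e₂ t (ang n j)) =
      - det3 x (cpt v e₁ e₂ t (ang n j)) (cpt v e₁ e₂ t (ang n (j + 1))) := det3_swap23 _ _ _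
  rw [c3]
  rcases lt_or_gt_of_ne (h2 j hj) with hlt | hgt
  · rw [if_neg (fun hh => absurd hh.1 (not_lt.2 hlt.le)), if_pos ⟨by linarith, c1, c2⟩]
    rfl
  · rw [if_pos ⟨hgt, hj2, hj1⟩, if_neg (fun hh => by linarith [hh.1])]
    rfl

theorem exists_capArr {v e₁ e₂ : E} (h : Frm v e₁ e₂) {t : ℝ} (ht : |t| < 1) {n : ℕ} (hn : 3 ≤ n) :
    ∃ N, IsArr N ∧ ∀ x, Gen N x → (∀ j < n, det3 v (cpt v e₁ e₂ t (ang n j)) x ≠ 0) ∧
      ∀ j < n, det3 x (cpt v e₁ e₂ t (ang n j)) (cpt v e₁ e₂ t (ang n (j + 1))) ≠ 0 := by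
  classical
  have hcr1 : ∀ j, crs v (cpt v e₁ e₂ t (ang n j)) ≠ 0 := by
    intro j h0
    have h1 := norm_crs_sq v (cpt v e₁ e₂ t (ang n j))
    rw [h0, norm_zero, h.v1, norm_cpt h ht.le, inner_v_cpt h] at h1
    have := (sq_lt_one_iff_abs_lt_one t).2 ht
    nlinarith
  have hcr2 : ∀ j, crs (cpt v e₁ e₂ t (ang n j)) (cpt v e₁ e₂ t (ang n (j + 1))) ≠ 0 := by
    intro j h0
    have h1 := det3_v_ngon_pos h ht hn j
    rw [det3_eq_inner, h0, inner_zero_right] at h1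
    exact lt_irrefl _ h1
  obtain ⟨N, hN, hNV⟩ := exists_arr
    ((Finset.range n).image (fun j => crs v (cpt v e₁ e₂ t (ang n j))) ∪
      (Finset.range n).image
        (fun j => crs (cpt v e₁ e₂ t (ang n j)) (cpt v e₁ e₂ t (ang n (j + 1))))) (by
    intro w hw
    rcases Finset.mem_union.1 hw with hw | hw
    · obtain ⟨j, -, rfl⟩ := Finset.mem_image.1 hw
      exact hcr1 j
    · obtain ⟨j, -, rfl⟩ := Finset.mem_image.1 hw
      exact hcr2 j)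
  refine ⟨N, hN, fun x hx => ⟨fun j hj => ?_, fun j hj => ?_⟩⟩
  · obtain ⟨m, hm, s, hs, he⟩ := hNV (crs v (cpt v e₁ e₂ t (ang n j)))
      (Finset.mem_union_left _ (Finset.mem_image.2 ⟨j, Finset.mem_range.2 hj, rfl⟩))
    rw [← det3_cyc x v, det3_eq_inner, he, inner_smul_right, real_inner_comm]
    exact mul_ne_zero hs (hx m hm)
  · obtain ⟨m, hm, s, hs, he⟩ := hNV
      (crs (cpt v e₁ e₂ t (ang n j)) (cpt v e₁ e₂ t (ang n (j + 1))))
      (Finset.mem_union_right _ (Finset.mem_image.2 ⟨j, Finset.mem_range.2 hj, rfl⟩))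
    rw [det3_eq_inner, he, inner_smul_right, real_inner_comm]
    exact mul_ne_zero hs (hx m hm)

end CGA.K
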