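import Pool.Agent.CGA.ANrm

/-! # PROJECT CGA, module KCpt: frames and the circles `cpt`

Coordinates `⟪v,x⟫, ⟪e₁,x⟫, ⟪e₂,x⟫` with respect to a positively oriented orthonormal frame (`Frm`).
PROOF.  `frm_basis`: an orthonormal family of three vectors in `E` (dimension 3) is a basis
(`OrthonormalBasis`, e.g. `basisOfOrthonormalOfCardEqFinrank`, or directly: by Cramer's rule `cramer v e₁ e₂ x`,
`det3 v e₁ e₂ = 1`: `x = det3 x e₁ e₂ • v + det3 v x e₂ • e₁ + det3 v e₁ x • e₂`; taking the inner products with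
`v, e₁, e₂` identifies the coefficients with `⟪v,x⟫, ⟪e₁,x⟫, ⟪e₂,x⟫`).
`frm_inner_eq`, `frm_det3_eq`: expand both vectors by `frm_basis` (multilinearity: `det3_lin1` ..).
`exists_frm`: take a unit vector `e₁ ⊥ v` (e.g. `nrm (crs v w)` with `w = single i 1` not parallel to `v`), `e₂ := crs v e₁`;
`det3 v e₁ e₂ = ⟪e₂, crs v e₁⟫ = ‖crs v e₁‖² = 1` (`norm_crs_sq`).
`cpt`: `⟪v, cpt⟫ = t`, `⟪e₁, cpt⟫ = √(1-t²) cos φ`, `⟪e₂, cpt⟫ = √(1-t²) sin φ`, norm by Pythagoras (`frm_normsq`).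
`norm_cpt_sub_le`: `‖cpt φ - cpt ψ‖² = (1-t²)((cos φ - cos ψ)² + (sin φ - sin ψ)²) = (1-t²)(2 - 2 cos (φ-ψ)) ≤ (φ-ψ)²`
(`Real.one_sub_sq_div_two_le_cos`).  `norm_cpt_sub_t`: triangle inequality. -/

set_option linter.all false

namespace CGA.K

open scoped RealInnerProductSpace Real Topology
open MeasureTheory Set Filter

theorem frm_basis {v e₁ e₂ : E} (h : Frm v e₁ e₂) (x : E) :
    x = ⟪v, x⟫ • v + ⟪e₁, x⟫ • e₁ + ⟪e₂, x⟫ • e₂ := by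
  have h0 := cramer v e₁ e₂ x
  rw [h.or, one_smul] at h0
  obtain ⟨α, β, γ, hx⟩ : ∃ α β γ : ℝ, x = α • v + β • e₁ + γ • e₂ := ⟨_, _, _, h0⟩
  have hvv : ⟪v, v⟫ = 1 := by rw [real_inner_self_eq_norm_sq, h.v1, one_pow]
  have h11 : ⟪e₁, e₁⟫ = 1 := by rw [real_inner_self_eq_norm_sq, h.e1, one_pow]
  have h22 : ⟪e₂, e₂⟫ = 1 := by rw [real_inner_self_eq_norm_sq, h.e2, one_pow]
  have h1v : ⟪e₁, v⟫ = 0 := by rw [real_inner_comm, h.v_e1]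
  have h2v : ⟪e₂, v⟫ = 0 := by rw [real_inner_comm, h.v_e2]
  have h21 : ⟪e₂, e₁⟫ = 0 := by rw [real_inner_comm, h.e1_e2]
  have hα : ⟪v, x⟫ = α := by
    rw [hx, inner_add_right, inner_add_right, real_inner_smul_right, real_inner_smul_right,
      real_inner_smul_right, hvv, h.v_e1, h.v_e2]
    ring
  have hβ : ⟪e₁, x⟫ = β := by
    rw [hx, inner_add_right, inner_add_right, real_inner_smul_right, real_inner_smul_right,
      real_inner_smul_right, h1v, h11, h.e1_e2]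
    ring
  have hγ : ⟪e₂, x⟫ = γ := by
    rw [hx, inner_add_right, inner_add_right, real_inner_smul_right, real_inner_smul_right,
      real_inner_smul_right, h2v, h21, h22]
    ring
  rw [hα, hβ, hγ]
  exact hx

theorem frm_inner_eq {v e₁ e₂ : E} (h : Frm v e₁ e₂) (x y : E) :
    ⟪x, y⟫ = ⟪v, x⟫ * ⟪v, y⟫ + ⟪e₁, x⟫ * ⟪e₁, y⟫ + ⟪e₂, x⟫ * ⟪e₂, y⟫ := by
  have h1 : ⟪x, y⟫ = ⟪⟪v, x⟫ • v + ⟪e₁, x⟫ • e₁ + ⟪e₂, x⟫ • e₂, y⟫ :=
    congrArg (fun z => ⟪z, y⟫) (frm_basis h x)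
  rw [inner_add_left, inner_add_left, real_inner_smul_left, real_inner_smul_left,
    real_inner_smul_left] at h1
  exact h1

theorem frm_normsq {v e₁ e₂ : E} (h : Frm v e₁ e₂) (x : E) :
    ‖x‖ ^ 2 = ⟪v, x⟫ ^ 2 + ⟪e₁, x⟫ ^ 2 + ⟪e₂, x⟫ ^ 2 := by
  rw [← real_inner_self_eq_norm_sq, frm_inner_eq h x x]
  ring

private theorem KCpt_det (v e₁ e₂ : E) (x0 x1 x2 y0 y1 y2 z0 z1 z2 : ℝ) :
    det3 (x0 • v + x1 • e₁ + x2 • e₂) (y0 • v + y1 • e₁ + y2 • e₂) (z0 • v + z1 • e₁ + z2 • e₂) =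
      (x0 * (y1 * z2 - y2 * z1) + x1 * (y2 * z0 - y0 * z2) + x2 * (y0 * z1 - y1 * z0)) *
        det3 v e₁ e₂ := by
  unfold det3
  simp only [PiLp.add_apply, PiLp.smul_apply, smul_eq_mul]
  ring

theorem frm_det3_eq {v e₁ e₂ : E} (h : Frm v e₁ e₂) (x y z : E) :
    det3 x y z = ⟪v, x⟫ * (⟪e₁, y⟫ * ⟪e₂, z⟫ - ⟪e₂, y⟫ * ⟪e₁, z⟫) +
      ⟪e₁, x⟫ * (⟪e₂, y⟫ * ⟪v, z⟫ - ⟪v, y⟫ * ⟪e₂, z⟫) +
      ⟪e₂, x⟫ * (⟪v, y⟫ * ⟪e₁, z⟫ - ⟪e₁, y⟫ * ⟪v, z⟫) := by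
  have h1 := KCpt_det v e₁ e₂ ⟪v, x⟫ ⟪e₁, x⟫ ⟪e₂, x⟫ ⟪v, y⟫ ⟪e₁, y⟫ ⟪e₂, y⟫ ⟪v, z⟫ ⟪e₁, z⟫ ⟪e₂, z⟫
  rw [← frm_basis h x, ← frm_basis h y, ← frm_basis h z, h.or, mul_one] at h1
  exact h1

theorem frm_neg {v e₁ e₂ : E} (h : Frm v e₁ e₂) : Frm (-v) e₁ (-e₂) := by
  refine ⟨by rw [norm_neg, h.v1], h.e1, by rw [norm_neg, h.e2], by rw [inner_neg_left, h.v_e1, neg_zero],
    by rw [inner_neg_neg, h.v_e2], by rw [inner_neg_right, h.e1_e2, neg_zero], ?_⟩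
  rw [det3_neg1, det3_neg3, neg_neg, h.or]

theorem exists_frm {v : E} (hv : ‖v‖ = 1) : ∃ e₁ e₂, Frm v e₁ e₂ := by
  obtain ⟨w, hw1, hw2⟩ : ∃ w : E, ‖w‖ = 1 ∧ ⟪v, w⟫ = 0 := by
    by_cases h0 : v 0 = 0 ∧ v 1 = 0
    · refine ⟨WithLp.toLp 2 ![1, 0, 0], ?_, ?_⟩
      · have h1 := normsq3 (WithLp.toLp 2 ![1, 0, 0] : E)
        have h2 : ‖(WithLp.toLp 2 ![1, 0, 0] : E)‖ ^ 2 = 1 := by
          rw [h1]
          simp
        nlinarith [norm_nonneg (WithLp.toLp 2 ![1, 0, 0] : E)]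
      · rw [inner3]
        simp [h0.1]
    · obtain ⟨w, hw⟩ : ∃ w : E, w = WithLp.toLp 2 ![-v 1, v 0, 0] := ⟨_, rfl⟩
      have hw0 : w ≠ 0 := by
        intro h1
        apply h0
        have h2 := normsq3 w
        rw [h1, norm_zero] at h2
        rw [hw] at h1
        constructor
        · have h3 := congrArg (fun z : E => z 1) h1
          simpa using h3
        · have h3 := congrArg (fun z : E => z 0) h1
          simpa using h3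
      refine ⟨nrm w, norm_nrm hw0, ?_⟩
      unfold nrm
      rw [real_inner_smul_right, inner3, hw]
      simp
      right
      ring
  have hvw : ⟪crs v w, v⟫ = 0 := inner_crs_left v w
  have hww : ⟪crs v w, w⟫ = 0 := inner_crs_right v w
  have hn : ‖crs v w‖ ^ 2 = 1 := by
    rw [norm_crs_sq, hv, hw1, hw2]
    ring
  have hn1 : ‖crs v w‖ = 1 := by
    nlinarith [norm_nonneg (crs v w)]
  refine ⟨w, crs v w, hv, hw1, hn1, hw2, by rw [real_inner_comm, hvw], by rw [real_inner_comm, hww], ?_⟩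
  rw [← det3_cyc, det3_eq_inner, real_inner_self_eq_norm_sq, hn]

theorem inner_v_cpt {v e₁ e₂ : E} (h : Frm v e₁ e₂) (t φ : ℝ) : ⟪v, cpt v e₁ e₂ t φ⟫ = t := by
  unfold cpt
  rw [inner_add_right, real_inner_smul_right, real_inner_smul_right, inner_add_right,
    real_inner_smul_right, real_inner_smul_right, h.v_e1, h.v_e2, real_inner_self_eq_norm_sq, h.v1]
  ring

theorem inner_e1_cpt {v e₁ e₂ : E} (h : Frm v e₁ e₂) (t φ : ℝ) :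
    ⟪e₁, cpt v e₁ e₂ t φ⟫ = √(1 - t ^ 2) * Real.cos φ := by
  unfold cpt
  rw [inner_add_right, real_inner_smul_right, real_inner_smul_right, inner_add_right,
    real_inner_smul_right, real_inner_smul_right, h.e1_e2, real_inner_comm, h.v_e1,
    real_inner_self_eq_norm_sq, h.e1]
  ring

theorem inner_e2_cpt {v e₁ e₂ : E} (h : Frm v e₁ e₂) (t φ : ℝ) :
    ⟪e₂, cpt v e₁ e₂ t φ⟫ = √(1 - t ^ 2) * Real.sin φ := by
  have h2v : ⟪e₂, v⟫ = 0 := by rw [real_inner_comm, h.v_e2]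
  have h21 : ⟪e₂, e₁⟫ = 0 := by rw [real_inner_comm, h.e1_e2]
  unfold cpt
  rw [inner_add_right, real_inner_smul_right, real_inner_smul_right, inner_add_right,
    real_inner_smul_right, real_inner_smul_right, h21, h2v,
    real_inner_self_eq_norm_sq, h.e2]
  ring

private theorem KCpt_r {t : ℝ} (ht : |t| ≤ 1) : √(1 - t ^ 2) ^ 2 = 1 - t ^ 2 := by
  apply Real.sq_sqrt
  have := abs_le.1 ht
  nlinarith [this.1, this.2]

theorem norm_cpt {v e₁ e₂ : E} (h : Frm v e₁ e₂) {t : ℝ} (ht : |t| ≤ 1) (φ : ℝ) :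
    ‖cpt v e₁ e₂ t φ‖ = 1 := by
  have h1 := frm_normsq h (cpt v e₁ e₂ t φ)
  rw [inner_v_cpt h, inner_e1_cpt h, inner_e2_cpt h] at h1
  have h2 : ‖cpt v e₁ e₂ t φ‖ ^ 2 = 1 := by
    rw [h1, mul_pow, mul_pow, KCpt_r ht]
    have := Real.sin_sq_add_cos_sq φ
    linear_combination (1 - t ^ 2) * this
  nlinarith [norm_nonneg (cpt v e₁ e₂ t φ)]

theorem cpt_neg (v e₁ e₂ : E) (t φ : ℝ) : cpt (-v) e₁ (-e₂) (-t) φ = cpt v e₁ e₂ t (-φ) := by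
  unfold cpt
  rw [neg_sq, Real.cos_neg, Real.sin_neg, neg_smul_neg, smul_neg, neg_smul]

theorem cpt_add_two_pi (v e₁ e₂ : E) (t φ : ℝ) :
    cpt v e₁ e₂ t (φ + 2 * π) = cpt v e₁ e₂ t φ := by
  unfold cpt
  rw [Real.cos_add_two_pi, Real.sin_add_two_pi]

theorem norm_cpt_sub_sq {v e₁ e₂ : E} (h : Frm v e₁ e₂) {t : ℝ} (ht : |t| ≤ 1) (φ ψ : ℝ) :
    ‖cpt v e₁ e₂ t φ - cpt v e₁ e₂ t ψ‖ ^ 2 = (1 - t ^ 2) * (2 - 2 * Real.cos (φ - ψ)) := by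
  rw [frm_normsq h, inner_sub_right, inner_sub_right, inner_sub_right, inner_v_cpt h, inner_v_cpt h,
    inner_e1_cpt h, inner_e1_cpt h, inner_e2_cpt h, inner_e2_cpt h, Real.cos_sub]
  have h1 := Real.sin_sq_add_cos_sq φ
  have h2 := Real.sin_sq_add_cos_sq ψ
  have h3 := KCpt_r ht
  linear_combination (√(1 - t ^ 2) ^ 2) * h1 + (√(1 - t ^ 2) ^ 2) * h2 +
    (2 - 2 * (Real.cos φ * Real.cos ψ + Real.sin φ * Real.sin ψ)) * h3

theorem norm_cpt_sub_le {v e₁ e₂ : E} (h : Frm v e₁ e₂) {t : ℝ} (ht : |t| ≤ 1) (φ ψ : ℝ) :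
    ‖cpt v e₁ e₂ t φ - cpt v e₁ e₂ t ψ‖ ≤ |φ - ψ| := by
  apply le_of_sq_le_sq _ (abs_nonneg _)
  rw [norm_cpt_sub_sq h ht, sq_abs]
  have h1 := Real.one_sub_sq_div_two_le_cos (x := φ - ψ)
  have h2 := Real.cos_le_one (φ - ψ)
  nlinarith [sq_nonneg t]

theorem norm_cpt_sub_t {v e₁ e₂ : E} (h : Frm v e₁ e₂) (t t' φ : ℝ) :
    ‖cpt v e₁ e₂ t φ - cpt v e₁ e₂ t' φ‖ ≤ |t - t'| + |√(1 - t ^ 2) - √(1 - t' ^ 2)| := by
  have h1 : cpt v e₁ e₂ t φ - cpt v e₁ e₂ t' φ = (t - t') • v +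
      (√(1 - t ^ 2) - √(1 - t' ^ 2)) • (Real.cos φ • e₁ + Real.sin φ • e₂) := by
    unfold cpt
    rw [sub_smul, sub_smul]
    abel
  have h2 : ‖Real.cos φ • e₁ + Real.sin φ • e₂‖ = 1 := by
    have h3 := norm_cpt h (t := 0) (by simp) φ
    unfold cpt at h3
    rwa [zero_smul, zero_add, zero_pow (by norm_num), sub_zero, Real.sqrt_one, one_smul] at h3
  rw [h1]
  refine (norm_add_le _ _).trans ?_
  rw [norm_smul, norm_smul, h.v1, h2, mul_one, mul_one, Real.norm_eq_abs, Real.norm_eq_abs]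

theorem continuous_cpt (v e₁ e₂ : E) : Continuous fun p : ℝ × ℝ => cpt v e₁ e₂ p.1 p.2 := by
  unfold cpt
  fun_prop

theorem cpt_ne {v e₁ e₂ : E} (h : Frm v e₁ e₂) {t : ℝ} (ht : |t| < 1) (φ : ℝ) :
    cpt v e₁ e₂ t φ ≠ v ∧ cpt v e₁ e₂ t φ ≠ -v := by
  have h0 := inner_v_cpt h t φ
  constructor
  · intro h1
    rw [h1, real_inner_self_eq_norm_sq, h.v1] at h0
    rw [← h0] at ht
    norm_num at ht
  · intro h1
    rw [h1, inner_neg_right, real_inner_self_eq_norm_sq, h.v1] at h0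
    rw [← h0] at ht
    norm_num at ht

/-- a unit vector is a point of the circle at its height -/
theorem exists_cpt {v e₁ e₂ : E} (h : Frm v e₁ e₂) {x : E} (hx : ‖x‖ = 1) :
    ∃ φ ∈ Ico (0:ℝ) (2 * π), x = cpt v e₁ e₂ ⟪v, x⟫ φ := by
  obtain ⟨z, hz⟩ : ∃ z : ℂ, z = ⟨⟪e₁, x⟫, ⟪e₂, x⟫⟩ := ⟨_, rfl⟩
  have h1 := frm_normsq h x
  have hn : ‖z‖ = √(1 - ⟪v, x⟫ ^ 2) := by
    rw [Complex.norm_eq_sqrt_sq_add_sq, hz]
    congr 1
    simp only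
    rw [hx] at h1
    linarith
  have h2 := Complex.norm_mul_cos_arg z
  have h3 := Complex.norm_mul_sin_arg z
  rw [hn] at h2 h3
  have hre : z.re = ⟪e₁, x⟫ := by rw [hz]
  have him : z.im = ⟪e₂, x⟫ := by rw [hz]
  rw [hre] at h2
  rw [him] at h3
  have key : ∀ φ : ℝ, Real.cos φ = Real.cos z.arg → Real.sin φ = Real.sin z.arg →
      x = cpt v e₁ e₂ ⟪v, x⟫ φ := by
    intro φ hc hs
    unfold cpt
    rw [hc, hs, smul_add, smul_smul, smul_smul, h2, h3, ← add_assoc]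
    exact frm_basis h x
  by_cases h0 : 0 ≤ z.arg
  · exact ⟨z.arg, ⟨h0, (Complex.arg_le_pi z).trans_lt (by linarith [Real.pi_pos])⟩, key _ rfl rfl⟩
  · push Not at h0
    have h4 := Complex.neg_pi_lt_arg z
    exact ⟨z.arg + 2 * π, ⟨by linarith [Real.pi_pos], by linarith⟩,
      key _ (Real.cos_add_two_pi _) (Real.sin_add_two_pi _)⟩

end CGA.K
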