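import Pool.Agent.CGA.KQuad
import Pool.Agent.CGA.KCC

/-! # PROJECT CGA, module KStab: `c (capF t n)` is locally constant in `t`

PROOF.  `stab_choice`: `clen` is continuous at `t₀` (`continuousAt_clen`), `√(1-t²)` is continuous, `norm_cpt_sub_t`: for `t₁, t₂` close to `t₀` and
small `ε` all conditions hold (`h ∈ [t₁-ε, t₂+ε]` is close to `t₂`).
`quad_c`: let `F` be the upper bound of `f`, `ell ≤ 2F|a-b|` (`ell_bounds`).  For `n` large: `2π/n ≤ r/4` and `≤ η`, `quad_near`, both `llen (cyc ngon) < L'/2` (`capF_evt`).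
`TV (quad j) ≤ 2F(2η + 2η)` (`TV_quad_le`, sides `≤ 2π/n ≤ η` by `norm_cpt_sub_le` and `≤ η` by hypothesis), partial sums: `TV ≤ L' + 4Fη` (`TV_quad_sum_le`).
With `η ≤ 1`, `12 F η < L - L'` everything stays `< L`.  `c (quad j) = 0`: `C.loc` with `q = cpt t₂ (ang n j)` and any arrangement: if `quad j x ≠ 0`, `x ≠ 0`
and `quad j (nrm x) ≠ 0` (`tri_nrm`), so `‖nrm x - q‖ ≤ 2π/n + r/2 < r` by `quad_near`.  Induction on `k`: `c (∑_{j<k} quad j) = 0`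
(`C.add`, `Finset.sum_range_succ`; `cc_zero`).  For `k = n` the sum is `capF t₁ n - capF t₂ n` (`capF_eq_sum`) and
`c (capF t₁ n + - capF t₂ n) = c (capF t₁ n) - c (capF t₂ n)` (`C.add`, `C.neg`, total variations `< L'/2`). -/

set_option linter.all false

namespace CGA.K

open scoped RealInnerProductSpace Real Topology
open MeasureTheory Set Filter

theorem stab_choice (M : Met) {v e₁ e₂ : E} (h : Frm v e₁ e₂) {t₀ c η : ℝ} (ht : |t₀| < 1)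
    (hc : clen M v e₁ e₂ t₀ < c) (hη : 0 < η) :
    ∃ t₁ t₂ ε : ℝ, -1 < t₁ ∧ t₁ < t₀ ∧ t₀ < t₂ ∧ t₂ < 1 ∧ 0 < ε ∧
      clen M v e₁ e₂ t₁ < c ∧ clen M v e₁ e₂ t₂ < c ∧
      (∀ φ, ‖cpt v e₁ e₂ t₁ φ - cpt v e₁ e₂ t₂ φ‖ ≤ η) ∧
      ∀ s φ, t₁ - ε ≤ s → s ≤ t₂ + ε → ‖cpt v e₁ e₂ s φ - cpt v e₁ e₂ t₂ φ‖ ≤ η := by
  have h1 : ∀ᶠ t in 𝓝 t₀, clen M v e₁ e₂ t < c :=
    (continuousAt_clen M h ht).eventually (gt_mem_nhds hc)
  have h2 : ∀ᶠ t in 𝓝 t₀, |t| < 1 := continuous_abs.continuousAt.eventually (gt_mem_nhds ht)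
  have h3 : ∀ᶠ t in 𝓝 t₀, |t - t₀| + |√(1 - t ^ 2) - √(1 - t₀ ^ 2)| < η / 2 := by
    have hcont : Continuous fun t : ℝ => |t - t₀| + |√(1 - t ^ 2) - √(1 - t₀ ^ 2)| := by fun_prop
    refine hcont.continuousAt.eventually (gt_mem_nhds ?_)
    simp only [sub_self, abs_zero, add_zero]
    linarith
  obtain ⟨δ, hδ, hall⟩ := Metric.eventually_nhds_iff.1 ((h1.and h2).and h3)
  have key : ∀ t, |t - t₀| < δ → (clen M v e₁ e₂ t < c ∧ |t| < 1) ∧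
      |t - t₀| + |√(1 - t ^ 2) - √(1 - t₀ ^ 2)| < η / 2 := by
    intro t ht
    exact hall (by rwa [Real.dist_eq])
  have key2 : ∀ t φ, |t - t₀| < δ → ‖cpt v e₁ e₂ t φ - cpt v e₁ e₂ t₀ φ‖ ≤ η / 2 :=
    fun t φ ht => (norm_cpt_sub_t h t t₀ φ).trans (key t ht).2.le
  have key3 : ∀ t t' φ, |t - t₀| < δ → |t' - t₀| < δ →
      ‖cpt v e₁ e₂ t φ - cpt v e₁ e₂ t' φ‖ ≤ η := by
    intro t t' φ ht ht'
    have e1 : cpt v e₁ e₂ t φ - cpt v e₁ e₂ t' φ =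
        (cpt v e₁ e₂ t φ - cpt v e₁ e₂ t₀ φ) - (cpt v e₁ e₂ t' φ - cpt v e₁ e₂ t₀ φ) := by abel
    rw [e1]
    refine (norm_sub_le _ _).trans ?_
    linarith [key2 t φ ht, key2 t' φ ht']
  have b1 : |(t₀ - δ / 4) - t₀| < δ := by
    rw [abs_lt]
    constructor <;> linarith
  have b2 : |(t₀ + δ / 4) - t₀| < δ := by
    rw [abs_lt]
    constructor <;> linarith
  refine ⟨t₀ - δ / 4, t₀ + δ / 4, δ / 4, ?_, by linarith, by linarith, ?_, by linarith,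
    (key _ b1).1.1, (key _ b2).1.1, fun φ => key3 _ _ φ b1 b2, ?_⟩
  · exact (abs_lt.1 (key _ b1).1.2).1
  · exact (abs_lt.1 (key _ b2).1.2).2
  · intro s φ hs1 hs2
    refine key3 _ _ φ ?_ b2
    rw [abs_lt]
    constructor <;> linarith

private theorem KStab_sum {M : Met} {L r : ℝ} (hL : 0 < L) (C : CC M L r) (q : ℕ → E → ℤ)
    {a b : ℝ} (hab : a + b < L) (n : ℕ) (hq : ∀ j < n, AF (q j)) (hq0 : ∀ j < n, C.c (q j) = 0)
    (hS : ∀ k ≤ n, AF (fun x => ∑ j ∈ Finset.range k, q j x))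
    (ha : ∀ k ≤ n, TV M (fun x => ∑ j ∈ Finset.range k, q j x) ≤ a)
    (hb : ∀ j < n, TV M (q j) ≤ b) :
    ∀ k ≤ n, C.c (fun x => ∑ j ∈ Finset.range k, q j x) = 0 := by
  intro k
  induction k with
  | zero =>
    intro _
    simpa using cc_zero hL C
  | succ k ih =>
    intro hk
    have h1 : (fun x => ∑ j ∈ Finset.range (k + 1), q j x) =
        fun x => (∑ j ∈ Finset.range k, q j x) + q k x := by
      funext x
      rw [Finset.sum_range_succ]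
    rw [h1]
    have h2 := C.add (fun x => ∑ j ∈ Finset.range k, q j x) (q k) (hS k (by omega))
      (hq k (by omega)) (by linarith [ha k (by omega), hb k (by omega)])
    rw [h2, ih (by omega), hq0 k (by omega), add_zero]

theorem stab (M : Met) {L L' r : ℝ} (hr : 0 < r) (h0 : 0 < L') (hL' : L' < L) (C : CC M L r)
    {v e₁ e₂ : E} (h : Frm v e₁ e₂) {t₀ : ℝ} (ht : |t₀| < 1) (hc : clen M v e₁ e₂ t₀ < L' / 2) :
    ∃ t₁ t₂ : ℝ, -1 < t₁ ∧ t₁ < t₀ ∧ t₀ < t₂ ∧ t₂ < 1 ∧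
      clen M v e₁ e₂ t₁ < L' / 2 ∧ clen M v e₁ e₂ t₂ < L' / 2 ∧
      ∀ᶠ n : ℕ in atTop, C.c (capF v e₁ e₂ t₁ n) = C.c (capF v e₁ e₂ t₂ n) := by
  obtain ⟨m, F, K, hm, hmF, -, hf, -, -⟩ := M.exists_bounds
  have hF : 0 < F := lt_of_lt_of_le hm hmF
  obtain ⟨η, hη, hη1, hηr, hηF⟩ : ∃ η : ℝ, 0 < η ∧ η ≤ 1 ∧ η ≤ r / 4 ∧ 16 * F * η ≤ L - L' := by
    refine ⟨min 1 (min (r / 4) ((L - L') / (16 * F))), ?_, min_le_left _ _,
      (min_le_right _ _).trans (min_le_left _ _), ?_⟩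
    · have : 0 < (L - L') / (16 * F) := div_pos (by linarith) (by positivity)
      exact lt_min one_pos (lt_min (by linarith) this)
    · have h1 : min 1 (min (r / 4) ((L - L') / (16 * F))) ≤ (L - L') / (16 * F) :=
        (min_le_right _ _).trans (min_le_right _ _)
      rw [le_div_iff₀ (by positivity)] at h1
      linarith
  obtain ⟨t₁, t₂, ε, h1, h2, h3, h4, hε, hc1, hc2, hcl, hcl2⟩ := stab_choice M h ht hc hη
  have ha1 : |t₁| < 1 := abs_lt.2 ⟨h1, by linarith⟩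
  have ha2 : |t₂| < 1 := abs_lt.2 ⟨by linarith, h4⟩
  refine ⟨t₁, t₂, h1, h2, h3, h4, hc1, hc2, ?_⟩
  have hpi : ∀ᶠ n : ℕ in atTop, 2 * π / (n : ℝ) ≤ η := by
    have : Tendsto (fun n : ℕ => 2 * π / (n : ℝ)) atTop (𝓝 0) :=
      tendsto_const_div_atTop_nhds_zero_nat _
    exact (this.eventually (gt_mem_nhds hη)).mono fun n hn => hn.le
  filter_upwards [eventually_ge_atTop 3, hpi, quad_near h ha1 ha2 (by linarith) hε,
    capF_evt M h ha1 hc1, capF_evt M h ha2 hc2] with n hn hpn hnear hC1 hC2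
  have hLpos : 0 < L := h0.trans hL'
  have hside : ∀ t, |t| < 1 → ∀ j, ‖cpt v e₁ e₂ t (ang n j) - cpt v e₁ e₂ t (ang n (j + 1))‖ ≤ η := by
    intro t ht j
    refine (norm_cpt_sub_le h ht.le _ _).trans ?_
    have e1 : ang n j - ang n (j + 1) = -(2 * π / n) := by
      unfold ang
      push_cast
      ring
    rw [e1, abs_neg, abs_of_nonneg (by positivity)]
    exact hpn
  have hell : ∀ a b : E, ‖a‖ = 1 → ‖b‖ = 1 → ‖a - b‖ ≤ η → ell M a b ≤ 2 * F * η := by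
    intro a b ha hb hab
    refine (ell_bounds M hm hf ha hb (hab.trans hη1)).2.trans ?_
    exact mul_le_mul_of_nonneg_left hab (by positivity)
  have hu : ∀ t, |t| < 1 → ∀ φ, ‖cpt v e₁ e₂ t φ‖ = 1 := fun t ht φ => norm_cpt h ht.le φ
  have hFη : 0 < F * η := mul_pos hF hη
  have hTVq : ∀ j < n, TV M (quad v e₁ e₂ t₁ t₂ n j) ≤ 8 * (F * η) := by
    intro j hj
    refine (TV_quad_le M h ha1 ha2 hn hj).trans ?_
    have a1 := hell _ _ (hu t₁ ha1 (ang n j)) (hu t₁ ha1 (ang n (j + 1))) (hside t₁ ha1 j)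
    have a2 := hell _ _ (hu t₂ ha2 (ang n j)) (hu t₂ ha2 (ang n (j + 1))) (hside t₂ ha2 j)
    have a3 := hell _ _ (hu t₁ ha1 (ang n (j + 1))) (hu t₂ ha2 (ang n (j + 1))) (hcl _)
    have a4 := hell _ _ (hu t₂ ha2 (ang n j)) (hu t₁ ha1 (ang n j))
      (by rw [norm_sub_rev]; exact hcl _)
    linarith
  have hTVS : ∀ k ≤ n, TV M (fun x => ∑ j ∈ Finset.range k, quad v e₁ e₂ t₁ t₂ n j x) ≤
      L' + 4 * (F * η) := by
    intro k hk
    refine (TV_quad_sum_le M h ha1 ha2 hn hk).trans ?_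
    have a3 := hell _ _ (hu t₁ ha1 (ang n k)) (hu t₂ ha2 (ang n k)) (hcl _)
    have a4 := hell _ _ (hu t₂ ha2 (ang n 0)) (hu t₁ ha1 (ang n 0))
      (by rw [norm_sub_rev]; exact hcl _)
    linarith [hC1.2, hC2.2]
  have hcq : ∀ j < n, C.c (quad v e₁ e₂ t₁ t₂ n j) = 0 := by
    intro j hj
    refine C.loc _ (af_quad _ _ _ _ _ _ _) (by linarith [hTVq j hj])
      (cpt v e₁ e₂ t₂ (ang n j)) (hu t₂ ha2 _) ?_
    obtain ⟨N, hN, -⟩ := af_quad v e₁ e₂ t₁ t₂ n j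
    refine ⟨N, hN, fun x hx hxr => ?_⟩
    by_contra hne
    have hx0 : x ≠ 0 := by
      rintro rfl
      exact hx _ (hN.coord 0) (by simp)
    have hy1 : ‖nrm x‖ = 1 := norm_nrm hx0
    have hne' : quad v e₁ e₂ t₁ t₂ n j (nrm x) ≠ 0 := by
      unfold quad at hne ⊢
      rw [tri_nrm _ _ _ hx0, tri_nrm _ _ _ hx0]
      exact hne
    obtain ⟨b1, b2, b3⟩ := hnear j hj (nrm x) hy1 hne'
    have b4 := hcl2 ⟪v, nrm x⟫ (ang n j) b1 b2
    have b5 : ‖nrm x - cpt v e₁ e₂ t₂ (ang n j)‖ ≤ 2 * π / n + η := by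
      have e1 : nrm x - cpt v e₁ e₂ t₂ (ang n j) =
          (nrm x - cpt v e₁ e₂ ⟪v, nrm x⟫ (ang n j)) +
          (cpt v e₁ e₂ ⟪v, nrm x⟫ (ang n j) - cpt v e₁ e₂ t₂ (ang n j)) := by abel
      rw [e1]
      exact (norm_add_le _ _).trans (add_le_add b3 b4)
    linarith
  have hsum := KStab_sum hLpos C (quad v e₁ e₂ t₁ t₂ n) (a := L' + 4 * (F * η))
    (b := 8 * (F * η)) (by linarith) n (fun j _ => af_quad _ _ _ _ _ _ _) hcq
    (fun k _ => af_quad_sum _ _ _ _ _ _ _) hTVS hTVq n le_rfl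
  have e1 : (fun x => ∑ j ∈ Finset.range n, quad v e₁ e₂ t₁ t₂ n j x) =
      fun x => capF v e₁ e₂ t₁ n x + (fun x => - capF v e₁ e₂ t₂ n x) x := by
    funext x
    unfold quad
    rw [Finset.sum_sub_distrib, ← capF_eq_sum v e₁ e₂ t₁ (by omega : 1 ≤ n) x,
      ← capF_eq_sum v e₁ e₂ t₂ (by omega : 1 ≤ n) x, sub_eq_add_neg]
  rw [e1, C.add _ _ (af_capF _ _ _ _ _) (af_neg (af_capF _ _ _ _ _)) ?_,
    C.neg _ (af_capF _ _ _ _ _) (by linarith [hC2.1])] at hsum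
  · linarith
  · rw [TV_neg M (af_capF _ _ _ _ _)]
    linarith [hC1.1, hC2.1]

end CGA.K
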