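import Pool.Agent.CGA.KHel
import Pool.Agent.CGA.KStab

/-! # PROJECT CGA, module KFin: the point of Helly -/

set_option linter.all false

namespace CGA.K

open scoped RealInnerProductSpace Real Topology
open MeasureTheory Set Filter

theorem helly (M : Met) {L L' r : ℝ} (hr : 0 < r) (h0 : 0 < L') (hL' : L' < L) (C : CC M L r)
    (hS : ∀ u : E → ℤ, AF u → (∃ N, IsArr N ∧ ∀ x, Gen N x → 0 ≤ u x) → TV M u < L' → C.c u ≤ 0) :
    ∃ p : E, ‖p‖ < 1 ∧ ∀ v e₁ e₂, Frm v e₁ e₂ → L' / 2 ≤ clen M v e₁ e₂ ⟪v, p⟫ := by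
  obtain ⟨p, hp, hall⟩ := helly_pt M hr h0 hL' C hS
  refine ⟨p, hp, fun v e₁ e₂ h => ?_⟩
  by_contra hcon
  have hcon := not_le.1 hcon
  have hv : |⟪v, p⟫| < 1 := by
    refine (abs_real_inner_le_norm v p).trans_lt ?_
    rw [h.v1, one_mul]
    exact hp
  obtain ⟨t₁, t₂, a1, a2, a3, a4, c1, c2, hev⟩ := stab M hr h0 hL' C h hv hcon
  have b1 : |t₁| < 1 := abs_lt.2 ⟨a1, by linarith⟩
  have b2 : |t₂| < 1 := abs_lt.2 ⟨by linarith, a4⟩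
  by_cases hf : ∃ᶠ n : ℕ in atTop, C.c (capF v e₁ e₂ t₁ n) = 0
  · have := hall v e₁ e₂ t₁ ⟨h, b1, c1, hf⟩
    linarith
  · rw [not_frequently] at hf
    have hneg : Frm (-v) e₁ (-e₂) := frm_neg h
    have c3 : clen M (-v) e₁ (-e₂) (-t₂) < L' / 2 := by rw [clen_neg]; exact c2
    have b3 : |(-t₂)| < 1 := by rw [abs_neg]; exact b2
    have hev2 : ∀ᶠ n : ℕ in atTop, C.c (capF (-v) e₁ (-e₂) (-t₂) n) = 0 := by
      filter_upwards [hf, hev, capF_evt M h b2 c2, capF_evt M hneg b3 c3, eventually_ge_atTop 3]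
        with n n1 n2 n3 n4 n5
      exact cap_compl M h0 hL' C hS h b2 n5 n3.1 n4.1 (by rw [← n2]; exact n1)
    have := hall (-v) e₁ (-e₂) (-t₂) ⟨hneg, b3, c3, hev2.frequently⟩
    rw [inner_neg_left] at this
    linarith

end CGA.K

namespace CGA

open scoped RealInnerProductSpace Real Topology
open MeasureTheory Set Filter

theorem helly (M : Met) {L L' r : ℝ} (hr : 0 < r) (h0 : 0 < L') (hL' : L' < L) (C : CC M L r)
    (hS : ∀ u : E → ℤ, AF u → (∃ N, IsArr N ∧ ∀ x, Gen N x → 0 ≤ u x) → TV M u < L' → C.c u ≤ 0) :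
    ∃ p : E, ‖p‖ < 1 ∧ ∀ v e₁ e₂, Frm v e₁ e₂ → L' / 2 ≤ clen M v e₁ e₂ ⟪v, p⟫ :=
  K.helly M hr h0 hL' C hS

theorem no_cover (M : Met) {L L' r : ℝ} (hr : 0 < r) (hL' : L' < L) (C : CC M L r)
    (hS : ∀ u : E → ℤ, AF u → (∃ N, IsArr N ∧ ∀ x, Gen N x → 0 ≤ u x) → TV M u < L' → C.c u ≤ 0)
    (D : Fin 4 → E → ℤ) (hD : ∀ i, AF (D i)) (h01 : ∀ i x, D i x = 0 ∨ D i x = 1)
    (hTV : ∀ i, TV M (D i) < L' / 2) (hc : ∀ i, C.c (D i) = 0) (N : Finset E) (hN : IsArr N) :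
    ∃ x, Gen N x ∧ ∀ i, D i x = 0 :=
  K.no_cover M hr hL' C hS D hD h01 hTV hc N hN

end CGA
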