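import Pool.Agent.CGA.KCap

/-! # PROJECT CGA, module KHgt: `capF` is the cap `{⟪v,x⟫ > t}` up to `ε`

`q_j = cpt v e₁ e₂ t (ang n j)`, `a = π/n`, `r = √(1-t²) > 0`.
PROOF.  MARGIN: for `h, t ∈ [-1,1]`, `r h - t √(1-h²) = sin (arccos t - arccos h)` (`Real.sin_sub`, `Real.cos_arccos`, `Real.sin_arccos`).
If `h > t` then `0 < arccos t - arccos h ≤ arccos t < π`, so it is positive; if `h < t`, `0 < arccos h - arccos t ≤ π - arccos t < π`, so it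
is negative.  By compactness (`h ∈ [t+ε, 1]`, resp. `[-1, t-ε]`; the function of `h` is continuous) there is `c > 0` with
`r h - t√(1-h²) ≥ c` for `t + ε ≤ h ≤ 1` and `≤ -c` for `-1 ≤ h ≤ t - ε`.
`tri_high`: a unit vector `x` in the sector `j` is `cpt h θ`, `h = ⟪v,x⟫`, `|h| < 1`, `ang n j < θ < ang n (j+1)` (`exists_cpt`, `sector_iff`;
if `|h| = 1` the determinant `det3 v q_j x` vanishes by `det3_v_cpt`), so `|θ - (ang n j + a)| < a`.  By `det3_cpt_cpt` with `φ = ang n j`, `2a = 2π/n`: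
`det3 x q_j q_{j+1} = 2 r sin a * B`, `B = r cos a h - t √(1-h²) cos (θ - μ)`, and `|B - (r h - t√(1-h²))| ≤ 2 (1 - cos a) ≤ a²`
(`Real.one_sub_sq_div_two_le_cos`).  For `n` with `a² < c` the sign of `B` is the sign of the margin; `tri_pos`, `det3_v_ngon_pos`.
`sector_near`: `norm_cpt_sub_le`, `0 < θ - ang n j < 2π/n`.
`capF_high`: `exists_sector` and `capF_sector`.  `capF_low`: if `capF x ≠ 0` some summand is not zero, so `x` is in the sector `j` and `tri = 1`. -/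

set_option linter.all false

namespace CGA.K

open scoped RealInnerProductSpace Real Topology
open MeasureTheory Set Filter

private theorem KHgt_sin {t h : ℝ} (ht : |t| < 1) (hh : |h| ≤ 1) :
    √(1 - t ^ 2) * h - t * √(1 - h ^ 2) = Real.sin (Real.arccos t - Real.arccos h) := by
  obtain ⟨t1, t2⟩ := abs_lt.1 ht
  obtain ⟨h1, h2⟩ := abs_le.1 hh
  rw [Real.sin_sub, Real.sin_arccos, Real.sin_arccos, Real.cos_arccos t1.le t2.le,
    Real.cos_arccos h1 h2]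

private theorem KHgt_pos {t h : ℝ} (ht : |t| < 1) (hh : |h| ≤ 1) (hlt : t < h) :
    0 < √(1 - t ^ 2) * h - t * √(1 - h ^ 2) := by
  rw [KHgt_sin ht hh]
  obtain ⟨t1, t2⟩ := abs_lt.1 ht
  obtain ⟨h1, h2⟩ := abs_le.1 hh
  have e1 : Real.arccos h < Real.arccos t :=
    Real.strictAntiOn_arccos ⟨t1.le, t2.le⟩ ⟨h1, h2⟩ hlt
  have e2 : Real.arccos t < π := by
    have := Real.strictAntiOn_arccos (⟨le_rfl, by norm_num⟩ : (-1:ℝ) ∈ Icc (-1:ℝ) 1)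
      ⟨t1.le, t2.le⟩ t1
    rwa [Real.arccos_neg_one] at this
  exact Real.sin_pos_of_pos_of_lt_pi (by linarith) (by linarith [Real.arccos_nonneg h])

private theorem KHgt_neg {t h : ℝ} (ht : |t| < 1) (hh : |h| ≤ 1) (hlt : h < t) :
    √(1 - t ^ 2) * h - t * √(1 - h ^ 2) < 0 := by
  have h1 := KHgt_pos (t := -t) (h := -h) (by rwa [abs_neg]) (by rwa [abs_neg]) (by linarith)
  rw [neg_sq, neg_sq] at h1
  linarith

private theorem KHgt_margin {t : ℝ} (ht : |t| < 1) {ε : ℝ} (hε : 0 < ε) :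
    ∃ c : ℝ, 0 < c ∧ ∀ h : ℝ, |h| ≤ 1 →
      (t + ε ≤ h → c ≤ √(1 - t ^ 2) * h - t * √(1 - h ^ 2)) ∧
      (h ≤ t - ε → √(1 - t ^ 2) * h - t * √(1 - h ^ 2) ≤ -c) := by
  have hc : Continuous fun h : ℝ => √(1 - t ^ 2) * h - t * √(1 - h ^ 2) := by fun_prop
  obtain ⟨t1, t2⟩ := abs_lt.1 ht
  obtain ⟨c1, hc1, hc1'⟩ := (isCompact_Icc (a := t + ε) (b := 1)).exists_forall_le'
    hc.continuousOn (a := 0) (fun h hh => KHgt_pos ht (abs_le.2 ⟨by linarith [hh.1], hh.2⟩)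
      (by linarith [hh.1]))
  obtain ⟨c2, hc2, hc2'⟩ := (isCompact_Icc (a := -1) (b := t - ε)).exists_forall_le'
    hc.neg.continuousOn (a := 0) (fun h hh => neg_pos.2 (KHgt_neg ht
      (abs_le.2 ⟨hh.1, by linarith [hh.2]⟩) (by linarith [hh.2])))
  refine ⟨min c1 c2, lt_min hc1 hc2, fun h hh => ⟨fun h1 => ?_, fun h1 => ?_⟩⟩
  · exact (min_le_left _ _).trans (hc1' h ⟨h1, (abs_le.1 hh).2⟩)
  · have h2 := (min_le_right c1 c2).trans (hc2' h ⟨(abs_le.1 hh).1, h1⟩)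
    have h3 : min c1 c2 ≤ -(√(1 - t ^ 2) * h - t * √(1 - h ^ 2)) := h2
    linarith

private theorem KHgt_sqrt (s : ℝ) : √(1 - s ^ 2) ≤ 1 := by
  have h1 : √(1 - s ^ 2) ≤ √1 := Real.sqrt_le_sqrt (by nlinarith [sq_nonneg s])
  rwa [Real.sqrt_one] at h1

private theorem KHgt_B {t h a θ : ℝ} (ht : |t| < 1) (hh : |h| ≤ 1) (hθ : |θ| ≤ a) :
    |√(1 - t ^ 2) * Real.cos a * h - t * √(1 - h ^ 2) * Real.cos θ -
      (√(1 - t ^ 2) * h - t * √(1 - h ^ 2))| ≤ a ^ 2 := by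
  have e1 : √(1 - t ^ 2) * Real.cos a * h - t * √(1 - h ^ 2) * Real.cos θ -
      (√(1 - t ^ 2) * h - t * √(1 - h ^ 2)) =
      t * √(1 - h ^ 2) * (1 - Real.cos θ) - √(1 - t ^ 2) * h * (1 - Real.cos a) := by ring
  rw [e1]
  have a1 : |t * √(1 - h ^ 2)| ≤ 1 := by
    rw [abs_mul, abs_of_nonneg (Real.sqrt_nonneg _)]
    exact mul_le_one₀ ht.le (Real.sqrt_nonneg _) (KHgt_sqrt h)
  have a2 : |√(1 - t ^ 2) * h| ≤ 1 := by
    rw [abs_mul, abs_of_nonneg (Real.sqrt_nonneg _)]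
    exact mul_le_one₀ (KHgt_sqrt t) (abs_nonneg _) hh
  have b1 : 0 ≤ 1 - Real.cos θ := by linarith [Real.cos_le_one θ]
  have b2 : 0 ≤ 1 - Real.cos a := by linarith [Real.cos_le_one a]
  have c1 : 1 - Real.cos θ ≤ θ ^ 2 / 2 := by linarith [Real.one_sub_sq_div_two_le_cos (x := θ)]
  have c2 : 1 - Real.cos a ≤ a ^ 2 / 2 := by linarith [Real.one_sub_sq_div_two_le_cos (x := a)]
  have d1 : θ ^ 2 ≤ a ^ 2 := by
    rw [← sq_abs θ]
    exact pow_le_pow_left₀ (abs_nonneg _) hθ 2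
  calc |t * √(1 - h ^ 2) * (1 - Real.cos θ) - √(1 - t ^ 2) * h * (1 - Real.cos a)|
      ≤ |t * √(1 - h ^ 2) * (1 - Real.cos θ)| + |√(1 - t ^ 2) * h * (1 - Real.cos a)| :=
        abs_sub _ _
    _ = |t * √(1 - h ^ 2)| * (1 - Real.cos θ) + |√(1 - t ^ 2) * h| * (1 - Real.cos a) := by
        rw [abs_mul (t * √(1 - h ^ 2)), abs_mul (√(1 - t ^ 2) * h), abs_of_nonneg b1,
          abs_of_nonneg b2]
    _ ≤ 1 * (1 - Real.cos θ) + 1 * (1 - Real.cos a) := by gcongr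
    _ ≤ a ^ 2 := by linarith

private theorem KHgt_inner {v e₁ e₂ : E} (h : Frm v e₁ e₂) {x : E} (hx : ‖x‖ = 1) :
    |⟪v, x⟫| ≤ 1 := by
  have := abs_real_inner_le_norm v x
  rwa [h.v1, hx, one_mul] at this

/-- a point of a sector in coordinates -/
private theorem KHgt_coord {v e₁ e₂ : E} (h : Frm v e₁ e₂) {t : ℝ} (ht : |t| < 1) {n : ℕ}
    (hn : 3 ≤ n) {j : ℕ} (hj : j < n) {x : E} (hx : ‖x‖ = 1)
    (h1 : 0 < det3 v (cpt v e₁ e₂ t (ang n j)) x)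
    (h2 : 0 < det3 v x (cpt v e₁ e₂ t (ang n (j + 1)))) :
    ∃ θ : ℝ, x = cpt v e₁ e₂ ⟪v, x⟫ θ ∧ |⟪v, x⟫| < 1 ∧ ang n j < θ ∧
      θ < ang n j + 2 * (π / n) := by
  obtain ⟨θ, hθ, hxe⟩ := exists_cpt h hx
  have hs1 := KHgt_inner h hx
  obtain ⟨s, hs⟩ : ∃ s : ℝ, s = ⟪v, x⟫ := ⟨_, rfl⟩
  rw [← hs] at hxe hs1
  rw [hxe] at h1 h2
  have hs2 : |s| < 1 := by
    refine lt_of_le_of_ne hs1 fun h3 => ?_
    have h4 : s ^ 2 = 1 := by rw [← sq_abs, h3, one_pow]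
    rw [det3_v_cpt h, h4] at h1
    simp at h1
  have h3 := (sector_iff h ht hn hs2 hθ hj).1 ⟨h1, h2⟩
  have e1 : ang n (j + 1) = ang n j + 2 * (π / n) := by
    unfold ang
    push_cast
    ring
  rw [e1] at h3
  refine ⟨θ, by rw [← hs]; exact hxe, by rw [← hs]; exact hs2, h3.1, h3.2⟩

theorem tri_high {v e₁ e₂ : E} (h : Frm v e₁ e₂) {t : ℝ} (ht : |t| < 1) {ε : ℝ} (hε : 0 < ε) :
    ∃ n₀ : ℕ, 3 ≤ n₀ ∧ ∀ n, n₀ ≤ n → ∀ j < n, ∀ x : E, ‖x‖ = 1 →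
      0 < det3 v (cpt v e₁ e₂ t (ang n j)) x → 0 < det3 v x (cpt v e₁ e₂ t (ang n (j + 1))) →
      (t + ε ≤ ⟪v, x⟫ →
        tri v (cpt v e₁ e₂ t (ang n j)) (cpt v e₁ e₂ t (ang n (j + 1))) x = 1) ∧
      (⟪v, x⟫ ≤ t - ε →
        tri v (cpt v e₁ e₂ t (ang n j)) (cpt v e₁ e₂ t (ang n (j + 1))) x = 0) := by
  obtain ⟨c, hc, hm⟩ := KHgt_margin ht hε
  have hlim : Tendsto (fun n : ℕ => (π / (n : ℝ)) ^ 2) atTop (𝓝 (0 ^ 2)) :=
    (tendsto_const_div_atTop_nhds_zero_nat π).pow 2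
  rw [zero_pow two_ne_zero] at hlim
  obtain ⟨N, hN⟩ := eventually_atTop.1 (hlim.eventually_lt_const hc)
  refine ⟨max 3 N, le_max_left _ _, fun n hn j hj x hx h1 h2 => ?_⟩
  have hn3 : 3 ≤ n := (le_max_left _ _).trans hn
  have hna := hN n ((le_max_right _ _).trans hn)
  obtain ⟨θ, hxe, hs, hθ1, hθ2⟩ := KHgt_coord h ht hn3 hj hx h1 h2
  have hpi := Real.pi_pos
  have hn0 : (0 : ℝ) < n := by
    have : 0 < n := by omega
    exact_mod_cast this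
  have hnR : (3 : ℝ) ≤ n := by exact_mod_cast hn3
  have ha0 : 0 < π / n := by positivity
  have ha1 : π / n < π := by
    rw [div_lt_iff₀ hn0]
    nlinarith
  have e1 : ang n (j + 1) = ang n j + 2 * (π / n) := by
    unfold ang
    push_cast
    ring
  have hd := det3_cpt_cpt h ht.le (ang n j) (π / n) θ (s := ⟪v, x⟫)
  rw [← hxe, ← e1] at hd
  have hB := KHgt_B (h := ⟪v, x⟫) (a := π / n) (θ := θ - (ang n j + π / n)) ht hs.le
    (abs_le.2 ⟨by linarith, by linarith⟩)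
  have hB' := abs_le.1 hB
  have hr : 0 < √(1 - t ^ 2) := by
    apply Real.sqrt_pos.2
    have := sq_lt_one_iff_abs_lt_one t |>.2 ht
    linarith
  have hsin : 0 < Real.sin (π / n) := Real.sin_pos_of_pos_of_lt_pi ha0 ha1
  have hpre : 0 < 2 * √(1 - t ^ 2) * Real.sin (π / n) := by positivity
  have hm' := hm ⟪v, x⟫ hs.le
  rw [tri_pos (det3_v_ngon_pos h ht hn3 j)]
  constructor
  · intro hge
    have h3 := hm'.1 hge
    have h4 : 0 < det3 x (cpt v e₁ e₂ t (ang n j)) (cpt v e₁ e₂ t (ang n (j + 1))) := by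
      rw [hd]
      exact mul_pos hpre (by linarith [hB'.1])
    rw [if_pos ⟨h4, h2, h1⟩]
  · intro hle
    have h3 := hm'.2 hle
    rw [if_neg]
    rintro ⟨h4, _⟩
    rw [hd] at h4
    have h5 := (mul_pos_iff_of_pos_left hpre).1 h4
    linarith [hB'.2]

theorem sector_near {v e₁ e₂ : E} (h : Frm v e₁ e₂) {t : ℝ} (ht : |t| < 1) {n : ℕ} (hn : 3 ≤ n)
    {j : ℕ} (hj : j < n) {x : E} (hx : ‖x‖ = 1) (h1 : 0 < det3 v (cpt v e₁ e₂ t (ang n j)) x)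
    (h2 : 0 < det3 v x (cpt v e₁ e₂ t (ang n (j + 1)))) :
    ‖x - cpt v e₁ e₂ ⟪v, x⟫ (ang n j)‖ ≤ 2 * π / n := by
  obtain ⟨θ, hxe, hs, hθ1, hθ2⟩ := KHgt_coord h ht hn hj hx h1 h2
  have h3 := norm_cpt_sub_le h hs.le θ (ang n j)
  rw [← hxe] at h3
  refine h3.trans ?_
  have e1 : 2 * π / (n : ℝ) = 2 * (π / n) := by ring
  rw [abs_of_pos (by linarith), e1]
  linarith

theorem capF_high {v e₁ e₂ : E} (h : Frm v e₁ e₂) {t : ℝ} (ht : |t| < 1) {ε : ℝ} (hε : 0 < ε) :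
    ∀ᶠ n : ℕ in atTop, ∀ x : E, ‖x‖ = 1 → t + ε ≤ ⟪v, x⟫ →
      (∀ j < n, det3 v (cpt v e₁ e₂ t (ang n j)) x ≠ 0) → capF v e₁ e₂ t n x = 1 := by
  obtain ⟨n₀, hn₀, htri⟩ := tri_high h ht hε
  filter_upwards [eventually_ge_atTop n₀] with n hn x hx hge hg
  have hn3 : 3 ≤ n := hn₀.trans hn
  obtain ⟨j, hj, h1, h2⟩ := exists_sector h ht hn3 hx hg
  rw [capF_sector h ht hn3 hj h1 h2]
  exact (htri n hn j hj x hx h1 h2).1 hge

theorem capF_low {v e₁ e₂ : E} (h : Frm v e₁ e₂) {t : ℝ} (ht : |t| < 1) {ε : ℝ} (hε : 0 < ε) :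
    ∀ᶠ n : ℕ in atTop, ∀ x : E, ‖x‖ = 1 → ⟪v, x⟫ ≤ t - ε → capF v e₁ e₂ t n x = 0 := by
  obtain ⟨n₀, hn₀, htri⟩ := tri_high h ht hε
  filter_upwards [eventually_ge_atTop n₀] with n hn x hx hle
  have hn3 : 3 ≤ n := hn₀.trans hn
  rw [capF_eq_sum v e₁ e₂ t (by omega) x]
  refine Finset.sum_eq_zero fun j hj => ?_
  have hj' := Finset.mem_range.1 hj
  by_cases h1 : 0 < det3 v (cpt v e₁ e₂ t (ang n j)) x ∧
      0 < det3 v x (cpt v e₁ e₂ t (ang n (j + 1)))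
  · exact (htri n hn j hj' x hx h1.1 h1.2).2 hle
  · rw [tri_pos (det3_v_ngon_pos h ht hn3 j), if_neg fun h2 => h1 ⟨h2.2.2, h2.2.1⟩]

end CGA.K
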