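import Pool.Agent.CGA.KCC
import Pool.Agent.CGA.KHgt
import Pool.Agent.CGA.JFin

/-! # PROJECT CGA, module KHel: Helly's theorem for the small caps

PROOF.  `four`: let `g x = max_k (⟪v_k, x⟫ - t_k)`, continuous on the compact unit sphere (`Finset.sup'`, `IsCompact.exists_isMinOn`), with a minimum at
`x₀`; it suffices: for each `ε > 0` there is a unit `x` with `g x ≤ ε`.  For each `k` choose `n_k ≥ 3` (frequently and eventually) with
`c (capF_k n_k) = 0`, `TV < L'/2` (`capF_evt`) and the conclusion of `capF_high` with `ε`.  Let `N` be an arrangement containing those of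
`exists_capArr` for the four caps.  `no_cover` with `D k = capF_k n_k` (`capF01`, `af_capF`) gives a generic `x` with `D k x = 0` for all
`k`; `x ≠ 0` (generic), replace it by `nrm x` (`coneF_nrm`, `det3_smul`), still not in the planes; `capF_high`: `⟪v_k, nrm x⟫ < t_k + ε`.
`tiny`: for `t → 1-`, `clen → 0` (`tendsto_clen_one`); fix `t` with `clen < L'/2` and `2 - 2 (t - (1-t)) < r²`, i.e. every unit `x` with
`⟪v,x⟫ > t - (1 - t)` has `‖x - v‖ < r` (`‖x-v‖² = 2 - 2⟪v,x⟫`); for `n` large `capF_low` with `ε = 1 - t`, so `capF x = 0` if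
`‖nrm x - v‖ > r` (`coneF_nrm`; `x ≠ 0`); `C.loc` (`TV < L'/2 < L`, `capF_evt`).
`helly_pt`: index type `ι` = the quadruples `(v,e₁,e₂,t)` with `Small`; the sets `{x | ‖x‖ ≤ 1 ∧ ⟪v,x⟫ ≤ t}` are compact and convex;
`Convex.helly_theorem_compact'` (`finrank ℝ E = 3`): for a finite set `I` of at most four indices the intersection is nonempty: `I = ∅` trivial,
otherwise enumerate `I` by a map `Fin 4 → ι` with range `I` and use `four`.  `‖p‖ ≤ 1` since `ι` is nonempty (`tiny` for any frame, `exists_frm`); if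
`‖p‖ = 1`, `tiny` for a frame with `v = p` gives `1 = ⟪p,p⟫ ≤ t < 1`, a contradiction. -/

set_option linter.all false

namespace CGA.K

open scoped RealInnerProductSpace Real Topology
open MeasureTheory Set Filter

/-- `(v,e₁,e₂,t)`: the cap `{⟪v,x⟫ > t}` is on the small side of a short circle -/
structure Small (M : Met) {L r : ℝ} (C : CC M L r) (L' : ℝ) (v e₁ e₂ : E) (t : ℝ) : Prop where
  frm : Frm v e₁ e₂
  lt : |t| < 1
  short : clen M v e₁ e₂ t < L' / 2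
  freq : ∃ᶠ n : ℕ in atTop, C.c (capF v e₁ e₂ t n) = 0

private theorem KHel_ne {N : Finset E} (hN : IsArr N) {x : E} (hx : Gen N x) : x ≠ 0 := by
  intro h
  apply hx _ (hN.coord 0)
  rw [h, inner_zero_right]

private theorem KHel_norm {x : E} (hx : x ≠ 0) : ‖nrm x‖ = 1 := norm_nrm hx

private theorem KHel_eps (M : Met) {L L' r : ℝ} (hr : 0 < r) (h0 : 0 < L') (hL' : L' < L)
    (C : CC M L r)
    (hS : ∀ u : E → ℤ, AF u → (∃ N, IsArr N ∧ ∀ x, Gen N x → 0 ≤ u x) → TV M u < L' → C.c u ≤ 0)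
    (v e₁ e₂ : Fin 4 → E) (t : Fin 4 → ℝ) (h : ∀ k, Small M C L' (v k) (e₁ k) (e₂ k) (t k))
    {ε : ℝ} (hε : 0 < ε) :
    ∃ x : E, ‖x‖ = 1 ∧ ∀ k, ⟪v k, x⟫ ≤ t k + ε := by
  classical
  have hex : ∀ k, ∃ n : ℕ, C.c (capF (v k) (e₁ k) (e₂ k) (t k) n) = 0 ∧ 3 ≤ n ∧
      TV M (capF (v k) (e₁ k) (e₂ k) (t k) n) < L' / 2 ∧
      ∀ x : E, ‖x‖ = 1 → t k + ε ≤ ⟪v k, x⟫ →
        (∀ j < n, det3 (v k) (cpt (v k) (e₁ k) (e₂ k) (t k) (ang n j)) x ≠ 0) →
        capF (v k) (e₁ k) (e₂ k) (t k) n x = 1 := by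
    intro k
    have h1 := (h k).freq
    have h2 := (eventually_ge_atTop (3:ℕ)).and ((capF_evt M (h k).frm (h k).lt (h k).short).and
      (capF_high (h k).frm (h k).lt hε))
    obtain ⟨n, hn⟩ := (h1.and_eventually h2).exists
    exact ⟨n, hn.1, hn.2.1, hn.2.2.1.1, hn.2.2.2⟩
  choose n hc h3 hTV hhigh using hex
  have hcap := fun k => exists_capArr (h k).frm (h k).lt (h3 k)
  choose Ni hNi hgen using hcap
  set N : Finset E := (Finset.univ : Finset (Fin 4)).biUnion Ni with hNdef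
  have hsub : ∀ i, Ni i ⊆ N := fun i => Finset.subset_biUnion_of_mem Ni (Finset.mem_univ i)
  have hN : IsArr N := by
    refine ⟨fun n hn => ?_, fun n hn => ?_, fun i => hsub 0 ((hNi 0).coord i)⟩
    · obtain ⟨i, -, hi⟩ := Finset.mem_biUnion.1 hn
      exact (hNi i).unit n hi
    · obtain ⟨i, -, hi⟩ := Finset.mem_biUnion.1 hn
      exact (hNi i).can n hi
  obtain ⟨x, hx, hD⟩ := no_cover M hr hL' C hS (fun k => capF (v k) (e₁ k) (e₂ k) (t k) (n k))
    (fun k => af_capF _ _ _ _ _) (fun k x => capF01 (h k).frm (h k).lt (h3 k) x) hTV hc N hN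
  have hx0 : x ≠ 0 := KHel_ne hN hx
  refine ⟨nrm x, norm_nrm hx0, fun k => ?_⟩
  by_contra hcon
  push Not at hcon
  have h4 := hhigh k (nrm x) (norm_nrm hx0) hcon.le (by
    intro j hj
    have h5 := (hgen k x (fun m hm => hx m (hsub k hm))).1 j hj
    have h6 : 0 < ‖x‖ := norm_pos_iff.2 hx0
    unfold nrm
    rw [det3_smul3]
    exact mul_ne_zero (inv_ne_zero h6.ne') h5)
  have h7 : capF (v k) (e₁ k) (e₂ k) (t k) (n k) (nrm x) = 0 := by
    have h8 := hD k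
    unfold capF at h8 ⊢
    rw [coneF_nrm _ _ hx0]
    exact h8
  rw [h7] at h4
  norm_num at h4

theorem four (M : Met) {L L' r : ℝ} (hr : 0 < r) (h0 : 0 < L') (hL' : L' < L) (C : CC M L r)
    (hS : ∀ u : E → ℤ, AF u → (∃ N, IsArr N ∧ ∀ x, Gen N x → 0 ≤ u x) → TV M u < L' → C.c u ≤ 0)
    (v e₁ e₂ : Fin 4 → E) (t : Fin 4 → ℝ) (h : ∀ k, Small M C L' (v k) (e₁ k) (e₂ k) (t k)) :
    ∃ x : E, ‖x‖ = 1 ∧ ∀ k, ⟪v k, x⟫ ≤ t k := by
  let S : ℕ → Set E := fun m => Metric.sphere (0 : E) 1 ∩ {x | ∀ k, ⟪v k, x⟫ ≤ t k + 1 / ((m : ℝ) + 1)}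
  have hcl2 : ∀ m, IsClosed {x : E | ∀ k, ⟪v k, x⟫ ≤ t k + 1 / ((m : ℝ) + 1)} := by
    intro m
    simp only [Set.setOf_forall]
    exact isClosed_iInter fun k => isClosed_le (by fun_prop) continuous_const
  have hcl : ∀ m, IsClosed (S m) := fun m => Metric.isClosed_sphere.inter (hcl2 m)
  have hco : ∀ m, IsCompact (S m) := fun m => (isCompact_sphere (0 : E) 1).inter_right (hcl2 m)
  obtain ⟨x, hx⟩ := IsCompact.nonempty_iInter_of_sequence_nonempty_isCompact_isClosed S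
    (by
      rintro m x ⟨h1, h2⟩
      refine ⟨h1, fun k => (h2 k).trans ?_⟩
      have h3 : 1 / (((m + 1 : ℕ) : ℝ) + 1) ≤ 1 / ((m : ℝ) + 1) := by
        apply one_div_le_one_div_of_le (by positivity)
        push_cast
        linarith
      linarith)
    (by
      intro m
      obtain ⟨x, h1, h2⟩ := KHel_eps M hr h0 hL' C hS v e₁ e₂ t h (ε := 1 / ((m : ℝ) + 1))
        (by positivity)
      exact ⟨x, by simpa using h1, h2⟩)
    (hco 0) hcl
  rw [Set.mem_iInter] at hx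
  refine ⟨x, by simpa using (hx 0).1, fun k => ?_⟩
  have h1 : Tendsto (fun m : ℕ => t k + 1 / ((m : ℝ) + 1)) atTop (𝓝 (t k + 0)) :=
    tendsto_const_nhds.add tendsto_one_div_add_atTop_nhds_zero_nat
  rw [add_zero] at h1
  exact ge_of_tendsto' h1 fun m => (hx m).2 k

theorem tiny (M : Met) {L L' r : ℝ} (hr : 0 < r) (h0 : 0 < L') (hL' : L' < L) (C : CC M L r)
    {v e₁ e₂ : E} (h : Frm v e₁ e₂) : ∃ t, Small M C L' v e₁ e₂ t := by
  have h1 : ∀ᶠ t in 𝓝[<] (1:ℝ), clen M v e₁ e₂ t < L' / 2 :=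
    (tendsto_clen_one M h).eventually_lt_const (by linarith)
  have h2 : ∀ᶠ t in 𝓝[<] (1:ℝ), max 0 (1 - r ^ 2 / 4) < t := by
    apply eventually_nhdsWithin_of_eventually_nhds
    apply lt_mem_nhds
    apply max_lt one_pos
    have : 0 < r ^ 2 := by positivity
    linarith
  have h3 : ∀ᶠ t in 𝓝[<] (1:ℝ), t < 1 := eventually_mem_nhdsWithin
  obtain ⟨t, ht1, ht2, ht3⟩ := (h1.and (h2.and h3)).exists
  have ht0 : 0 < t := lt_of_le_of_lt (le_max_left _ _) ht2
  have htr : 1 - r ^ 2 / 4 < t := lt_of_le_of_lt (le_max_right _ _) ht2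
  have hlt : |t| < 1 := by rw [abs_of_pos ht0]; exact ht3
  refine ⟨t, h, hlt, ht1, ?_⟩
  apply Eventually.frequently
  filter_upwards [eventually_ge_atTop (3:ℕ), capF_evt M h hlt ht1,
    capF_low h hlt (ε := 1 - t) (by linarith)] with n hn hTV hlow
  obtain ⟨N, hN, -⟩ := exists_capArr h hlt hn
  apply C.loc _ (af_capF _ _ _ _ _) (by linarith [hTV.1]) v h.v1
  refine ⟨N, hN, fun x hx hxr => ?_⟩
  have hx0 := KHel_ne hN hx
  have h4 : capF v e₁ e₂ t n x = capF v e₁ e₂ t n (nrm x) := by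
    unfold capF
    rw [coneF_nrm _ _ hx0]
  rw [h4]
  apply hlow _ (norm_nrm hx0)
  have h5 : ‖nrm x - v‖ ^ 2 = 2 - 2 * ⟪v, nrm x⟫ := by
    rw [norm_sub_sq_real, norm_nrm hx0, h.v1, real_inner_comm]
    ring
  have h6 : r ^ 2 < ‖nrm x - v‖ ^ 2 := pow_lt_pow_left₀ hxr hr.le (by norm_num)
  rw [h5] at h6
  linarith

theorem helly_pt (M : Met) {L L' r : ℝ} (hr : 0 < r) (h0 : 0 < L') (hL' : L' < L) (C : CC M L r)
    (hS : ∀ u : E → ℤ, AF u → (∃ N, IsArr N ∧ ∀ x, Gen N x → 0 ≤ u x) → TV M u < L' → C.c u ≤ 0) :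
    ∃ p : E, ‖p‖ < 1 ∧ ∀ v e₁ e₂ t, Small M C L' v e₁ e₂ t → ⟪v, p⟫ ≤ t := by
  classical
  let ι := {q : E × E × E × ℝ // Small M C L' q.1 q.2.1 q.2.2.1 q.2.2.2}
  let F : ι → Set E := fun q => Metric.closedBall (0 : E) 1 ∩ {x | ⟪q.1.1, x⟫ ≤ q.1.2.2.2}
  have hcl : ∀ q : ι, IsClosed {x : E | ⟪q.1.1, x⟫ ≤ q.1.2.2.2} := fun q =>
    isClosed_le (by fun_prop) continuous_const
  have hcv : ∀ q : ι, Convex ℝ {x : E | ⟪q.1.1, x⟫ ≤ q.1.2.2.2} := by
    intro q x hx y hy a b ha hb hab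
    simp only [Set.mem_setOf_eq] at hx hy ⊢
    rw [inner_add_right, real_inner_smul_right, real_inner_smul_right]
    calc a * ⟪q.1.1, x⟫ + b * ⟪q.1.1, y⟫ ≤ a * q.1.2.2.2 + b * q.1.2.2.2 :=
          add_le_add (mul_le_mul_of_nonneg_left hx ha) (mul_le_mul_of_nonneg_left hy hb)
      _ = q.1.2.2.2 := by rw [← add_mul, hab, one_mul]
  have hH : (⋂ i, F i).Nonempty := by
    apply Convex.helly_theorem_compact' (𝕜 := ℝ)
      (fun q => (convex_closedBall (0 : E) 1).inter (hcv q))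
      (fun q => (isCompact_closedBall (0 : E) 1).inter_right (hcl q))
    intro I hI
    have hfr : Module.finrank ℝ E = 3 := by simp [E]
    rw [hfr] at hI
    rcases I.eq_empty_or_nonempty with hIe | hIn
    · subst hIe
      simp
    · have hcard : Fintype.card I ≤ Fintype.card (Fin 4) := by
        simpa using hI
      obtain ⟨emb⟩ := Function.Embedding.nonempty_of_card_le hcard
      haveI : Nonempty I := hIn.to_subtype
      have hsurj := Function.invFun_surjective emb.injective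
      set φ : Fin 4 → I := Function.invFun emb with hφ
      obtain ⟨x, hx1, hx2⟩ := four M hr h0 hL' C hS (fun k => (φ k).1.1.1)
        (fun k => (φ k).1.1.2.1) (fun k => (φ k).1.1.2.2.1) (fun k => (φ k).1.1.2.2.2)
        (fun k => (φ k).1.2)
      refine ⟨x, ?_⟩
      simp only [Set.mem_iInter]
      intro q hq
      refine ⟨by simp [hx1], ?_⟩
      obtain ⟨k, hk⟩ := hsurj ⟨q, hq⟩
      have h5 := hx2 k
      simp only [hk] at h5
      exact h5
  obtain ⟨p, hp⟩ := hH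
  rw [Set.mem_iInter] at hp
  have hall : ∀ v e₁ e₂ t, Small M C L' v e₁ e₂ t → ⟪v, p⟫ ≤ t := fun v e₁ e₂ t h =>
    (hp ⟨(v, e₁, e₂, t), h⟩).2
  refine ⟨p, ?_, hall⟩
  have hp1 : ‖p‖ ≤ 1 := by
    obtain ⟨e₁, e₂, hF⟩ := exists_frm (v := EuclideanSpace.single (0 : Fin 3) (1:ℝ)) (by simp)
    obtain ⟨t, ht⟩ := tiny M hr h0 hL' C hF
    have := (hp ⟨(_, e₁, e₂, t), ht⟩).1
    simpa using this
  rcases lt_or_eq_of_le hp1 with h | h
  · exact h
  · exfalso
    obtain ⟨e₁, e₂, hF⟩ := exists_frm h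
    obtain ⟨t, ht⟩ := tiny M hr h0 hL' C hF
    have h1 := hall _ _ _ _ ht
    rw [real_inner_self_eq_norm_sq, h] at h1
    have h2 := (abs_lt.1 ht.lt).2
    linarith

end CGA.K
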