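import Pool.Agent.CGA.KCap
import Pool.Agent.CGA.AEllB

/-! # PROJECT CGA, module KMass: length of the inscribed polygons and of the circles

PROOF.  `tendsto_ngon`: let `r = √(1-t²)`, `F, K` the bounds of `f` (`Met.exists_bounds`), `C` from `ell_approx`, `Δ = 2π/n ≤ 1`, `q_j = cpt t (ang n j)`.
`‖q_j - q_{j+1}‖² = r² (2 - 2 cos Δ)` (`norm_cpt_sub_sq`), so `‖q_j - q_{j+1}‖ = 2 r sin (Δ/2) ∈ [r Δ - Δ³, r Δ]` and `≤ Δ`
(`Real.sin_gt_sub_cube` or any bound `x - x³ ≤ sin x`).  Hence `|ell q_j q_{j+1} - f(q_j) r Δ| ≤ C Δ² + F Δ³ ≤ (C+F) Δ²`.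
`|∫_{ang j}^{ang (j+1)} f(cpt φ) r dφ - f(q_j) r Δ| ≤ K Δ²` (`|f(cpt φ) - f(q_j)| ≤ K |φ - ang j| ≤ K Δ`).  Sum over `j < n`
(`llen_ngon`, `intervalIntegral.sum_integral_adjacent_intervals`): `|llen - clen| ≤ n (C+F+K) Δ² = (C+F+K)(2π)²/n → 0`.
`clen_neg`: `cpt_neg`, substitution `φ ↦ -φ` and periodicity (`Function.Periodic.intervalIntegral_add_eq`).
`continuousAt_clen`: the integrand `f(cpt t φ) √(1-t²)` is jointly continuous on `|t| < 1` (`‖cpt‖ = 1`, `Met.continuousOn_f`); e.g.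
`intervalIntegral.continuousAt_of_dominated_interval` or uniform continuity on compact sets.
`tendsto_clen_one`: `0 ≤ clen ≤ 2π F √(1-t²) → 0`. -/

set_option linter.all false

namespace CGA.K

open scoped RealInnerProductSpace Real Topology
open MeasureTheory Set Filter

private theorem KMass_cont_cpt (v e₁ e₂ : E) (t : ℝ) : Continuous fun φ : ℝ => cpt v e₁ e₂ t φ :=
  (continuous_cpt v e₁ e₂).comp (continuous_const.prodMk continuous_id)

private theorem KMass_ne {v e₁ e₂ : E} (h : Frm v e₁ e₂) {t : ℝ} (ht : |t| ≤ 1) (φ : ℝ) :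
    cpt v e₁ e₂ t φ ≠ 0 := by
  intro h0
  have h1 := norm_cpt h ht φ
  rw [h0, norm_zero] at h1
  exact zero_ne_one h1

private theorem KMass_cont_g (M : Met) {v e₁ e₂ : E} (h : Frm v e₁ e₂) {t : ℝ} (ht : |t| ≤ 1) :
    Continuous fun φ : ℝ => M.f (cpt v e₁ e₂ t φ) * √(1 - t ^ 2) := by
  have h1 : Continuous fun φ : ℝ => M.f (cpt v e₁ e₂ t φ) := by
    refine continuous_iff_continuousAt.2 fun φ => ?_
    have h2 : ContinuousAt M.f (cpt v e₁ e₂ t φ) :=
      M.continuousOn_f.continuousAt (isOpen_ne.mem_nhds (KMass_ne h ht φ))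
    exact ContinuousAt.comp (f := fun φ : ℝ => cpt v e₁ e₂ t φ) h2
      (KMass_cont_cpt v e₁ e₂ t).continuousAt
  exact h1.mul continuous_const

private theorem KMass_chord {v e₁ e₂ : E} (h : Frm v e₁ e₂) {t : ℝ} (ht : |t| ≤ 1) (φ : ℝ) {D : ℝ}
    (hD : 0 < D) (hD1 : D ≤ 1) :
    |‖cpt v e₁ e₂ t φ - cpt v e₁ e₂ t (φ + D)‖ - √(1 - t ^ 2) * D| ≤ D ^ 2 := by
  have ht2 : 0 ≤ 1 - t ^ 2 := by
    have := (sq_le_one_iff_abs_le_one t).2 ht
    linarith
  have hr0 : 0 ≤ √(1 - t ^ 2) := Real.sqrt_nonneg _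
  have hr1 : √(1 - t ^ 2) ≤ 1 := by
    rw [Real.sqrt_le_one]
    nlinarith [sq_nonneg t]
  have hs0 : 0 ≤ Real.sin (D / 2) :=
    Real.sin_nonneg_of_nonneg_of_le_pi (by linarith) (by linarith [Real.pi_gt_three])
  have hs1 : Real.sin (D / 2) ≤ D / 2 := Real.sin_le (by linarith)
  have hs2 : D / 2 - (D / 2) ^ 3 / 6 < Real.sin (D / 2) :=
    Real.sin_gt_sub_cube (by linarith)
  have h1 : ‖cpt v e₁ e₂ t φ - cpt v e₁ e₂ t (φ + D)‖ = √(1 - t ^ 2) * (2 * Real.sin (D / 2)) := by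
    rw [← Real.sqrt_sq (norm_nonneg (cpt v e₁ e₂ t φ - cpt v e₁ e₂ t (φ + D))), norm_cpt_sub_sq h ht,
      ← Real.sqrt_sq (mul_nonneg hr0 (mul_nonneg zero_le_two hs0))]
    congr 1
    rw [mul_pow, Real.sq_sqrt ht2]
    have h2 : Real.cos (φ - (φ + D)) = 1 - 2 * Real.sin (D / 2) ^ 2 := by
      have h3 : φ - (φ + D) = -(2 * (D / 2)) := by ring
      rw [h3, Real.cos_neg, Real.cos_two_mul]
      nlinarith [Real.sin_sq_add_cos_sq (D / 2)]
    rw [h2]
    ring
  rw [h1, abs_le]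
  have h4 : D - D ^ 2 ≤ 2 * Real.sin (D / 2) := by
    nlinarith [mul_pos hD hD, mul_nonneg (mul_pos hD hD).le (sub_nonneg.2 hD1)]
  constructor
  · nlinarith [mul_le_mul_of_nonneg_left h4 hr0, mul_nonneg (sub_nonneg.2 hr1) (sq_nonneg D)]
  · nlinarith [mul_le_mul_of_nonneg_left hs1 hr0, sq_nonneg D]

theorem tendsto_ngon (M : Met) {v e₁ e₂ : E} (h : Frm v e₁ e₂) {t : ℝ} (ht : |t| < 1) :
    Tendsto (fun n : ℕ => llen M (cyc (ngon v e₁ e₂ t n))) atTop (𝓝 (clen M v e₁ e₂ t)) := by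
  obtain ⟨m, F, K, hm, hmF, hK, hf, hLip, -⟩ := M.exists_bounds
  obtain ⟨C, hC, hell⟩ := ell_approx M
  have ht' : |t| ≤ 1 := ht.le
  set r : ℝ := √(1 - t ^ 2) with hr
  have hr0 : 0 ≤ r := Real.sqrt_nonneg _
  have hr1 : r ≤ 1 := by
    rw [hr, Real.sqrt_le_one]
    nlinarith [sq_nonneg t]
  have hF0 : 0 < F := hm.trans_le hmF
  have hcg := KMass_cont_g M h ht'
  have key : ∀ n : ℕ, 7 ≤ n → dist (llen M (cyc (ngon v e₁ e₂ t n))) (clen M v e₁ e₂ t) ≤
      (C + F + K) * (2 * π) ^ 2 / n := by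
    intro n hn
    have hn1 : 1 ≤ n := by omega
    have hnR : (0 : ℝ) < n := by exact_mod_cast (show 0 < n by omega)
    have hn7 : (7 : ℝ) ≤ n := by exact_mod_cast hn
    set D : ℝ := 2 * π / n with hD
    have hD0 : 0 < D := by positivity
    have hD1 : D ≤ 1 := by
      rw [hD, div_le_one hnR]
      have := Real.pi_lt_d2
      linarith
    have hang : ∀ j : ℕ, ang n (j + 1) = ang n j + D := by
      intro j
      unfold ang
      rw [hD]
      push_cast
      field_simp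
    have h1 : clen M v e₁ e₂ t = ∑ j ∈ Finset.range n, ∫ φ in (ang n j)..(ang n (j + 1)),
        M.f (cpt v e₁ e₂ t φ) * √(1 - t ^ 2) := by
      rw [intervalIntegral.sum_integral_adjacent_intervals
        (fun k _ => hcg.intervalIntegrable _ _)]
      have e0 : ang n 0 = 0 := by simp [ang]
      have e1 : ang n n = 2 * π := by
        unfold ang
        field_simp
      rw [e0, e1]
      rfl
    rw [llen_ngon M v e₁ e₂ t hn1, h1, Real.dist_eq, ← Finset.sum_sub_distrib]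
    have hterm : ∀ j ∈ Finset.range n,
        |ell M (cpt v e₁ e₂ t (ang n j)) (cpt v e₁ e₂ t (ang n (j + 1))) -
          ∫ φ in (ang n j)..(ang n (j + 1)), M.f (cpt v e₁ e₂ t φ) * √(1 - t ^ 2)| ≤
        (C + F + K) * D ^ 2 := by
      intro j _
      set q : E := cpt v e₁ e₂ t (ang n j) with hq
      set q' : E := cpt v e₁ e₂ t (ang n (j + 1)) with hq'
      have uq : ‖q‖ = 1 := norm_cpt h ht' _
      have uq' : ‖q'‖ = 1 := norm_cpt h ht' _
      have hqq : ‖q - q'‖ ≤ D := by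
        have := norm_cpt_sub_le h ht' (ang n j) (ang n (j + 1))
        rw [hang j] at this
        have e2 : |ang n j - (ang n j + D)| = D := by
          rw [show ang n j - (ang n j + D) = -D by ring, abs_neg, abs_of_pos hD0]
        rw [hq, hq', hang j]
        linarith
      have a1 := hell q q' uq uq' (hqq.trans hD1)
      have a2 : |‖q - q'‖ - r * D| ≤ D ^ 2 := by
        rw [hq, hq', hang j]
        exact KMass_chord h ht' _ hD0 hD1
      have hfq := hf q (KMass_ne h ht' _)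
      have hfq0 : 0 < M.f q := hm.trans_le hfq.1
      have a3 : |(∫ φ in (ang n j)..(ang n (j + 1)), M.f (cpt v e₁ e₂ t φ) * √(1 - t ^ 2)) -
          M.f q * r * D| ≤ K * D ^ 2 := by
        have e3 : M.f q * r * D = ∫ φ in (ang n j)..(ang n (j + 1)), M.f q * r := by
          rw [intervalIntegral.integral_const, hang j, smul_eq_mul]
          ring
        rw [e3, ← intervalIntegral.integral_sub (hcg.intervalIntegrable _ _)
          (intervalIntegrable_const), ← Real.norm_eq_abs]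
        have e4 : ∀ φ ∈ Set.uIoc (ang n j) (ang n (j + 1)),
            ‖M.f (cpt v e₁ e₂ t φ) * √(1 - t ^ 2) - M.f q * r‖ ≤ K * D := by
          intro φ hφ
          rw [hang j, Set.uIoc_of_le (by linarith)] at hφ
          have b1 := hLip (cpt v e₁ e₂ t φ) q (norm_cpt h ht' _) uq
          have b2 := norm_cpt_sub_le h ht' φ (ang n j)
          have b3 : |φ - ang n j| ≤ D := by
            rw [abs_of_nonneg (by linarith [hφ.1])]
            linarith [hφ.2]
          rw [← hr, ← sub_mul, Real.norm_eq_abs, abs_mul, abs_of_nonneg hr0]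
          calc |M.f (cpt v e₁ e₂ t φ) - M.f q| * r ≤ |M.f (cpt v e₁ e₂ t φ) - M.f q| * 1 :=
                mul_le_mul_of_nonneg_left hr1 (abs_nonneg _)
            _ ≤ K * ‖cpt v e₁ e₂ t φ - q‖ := by rw [mul_one]; exact b1
            _ ≤ K * D := mul_le_mul_of_nonneg_left (b2.trans b3) hK.le
        have e5 := intervalIntegral.norm_integral_le_of_norm_le_const e4
        rw [hang j, show ang n j + D - ang n j = D by ring, abs_of_pos hD0] at e5
        rw [hang j]
        calc _ ≤ K * D * D := e5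
          _ = K * D ^ 2 := by ring
      have a4 : |M.f q * ‖q - q'‖ - M.f q * r * D| ≤ F * D ^ 2 := by
        rw [mul_assoc, ← mul_sub, abs_mul, abs_of_pos hfq0]
        exact mul_le_mul hfq.2 a2 (abs_nonneg _) hF0.le
      have a5 : C * ‖q - q'‖ ^ 2 ≤ C * D ^ 2 :=
        mul_le_mul_of_nonneg_left (pow_le_pow_left₀ (norm_nonneg _) hqq 2) hC.le
      rw [abs_le] at a1 a3 a4 ⊢
      constructor <;> nlinarith [a1.1, a1.2, a3.1, a3.2, a4.1, a4.2]
    calc _ ≤ ∑ j ∈ Finset.range n,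
          |ell M (cpt v e₁ e₂ t (ang n j)) (cpt v e₁ e₂ t (ang n (j + 1))) -
          ∫ φ in (ang n j)..(ang n (j + 1)), M.f (cpt v e₁ e₂ t φ) * √(1 - t ^ 2)| :=
          Finset.abs_sum_le_sum_abs _ _
      _ ≤ ∑ _j ∈ Finset.range n, (C + F + K) * D ^ 2 := Finset.sum_le_sum hterm
      _ = (C + F + K) * (2 * π) ^ 2 / n := by
          rw [Finset.sum_const, Finset.card_range, nsmul_eq_mul, hD]
          field_simp
  rw [tendsto_iff_dist_tendsto_zero]
  refine squeeze_zero' (Eventually.of_forall fun _ => dist_nonneg)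
    (eventually_atTop.2 ⟨7, key⟩) ?_
  exact tendsto_const_div_atTop_nhds_zero_nat _

theorem clen_neg (M : Met) (v e₁ e₂ : E) (t : ℝ) :
    clen M (-v) e₁ (-e₂) (-t) = clen M v e₁ e₂ t := by
  have h1 : clen M (-v) e₁ (-e₂) (-t) =
      ∫ φ in (0:ℝ)..(2 * π), (fun φ => M.f (cpt v e₁ e₂ t φ) * √(1 - t ^ 2)) (-φ) := by
    unfold clen
    refine intervalIntegral.integral_congr fun φ _ => ?_
    simp only [cpt_neg, neg_sq]
  have hper : Function.Periodic (fun φ => M.f (cpt v e₁ e₂ t φ) * √(1 - t ^ 2)) (2 * π) := by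
    intro φ
    simp only [cpt_add_two_pi]
  rw [h1, intervalIntegral.integral_comp_neg (a := 0) (b := 2 * π)
    (fun φ => M.f (cpt v e₁ e₂ t φ) * √(1 - t ^ 2))]
  have h2 := hper.intervalIntegral_add_eq (-(2 * π)) 0
  rw [neg_add_cancel, zero_add] at h2
  rw [neg_zero, h2]
  rfl

theorem continuousAt_clen (M : Met) {v e₁ e₂ : E} (h : Frm v e₁ e₂) {t : ℝ} (ht : |t| < 1) :
    ContinuousAt (fun t => clen M v e₁ e₂ t) t := by
  obtain ⟨m, F, K, hm, hmF, hK, hf, hLip, -⟩ := M.exists_bounds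
  have hnb : ∀ᶠ s : ℝ in 𝓝 t, |s| < 1 :=
    (isOpen_lt continuous_abs continuous_const).mem_nhds ht
  unfold clen
  refine intervalIntegral.continuousAt_of_dominated_interval (bound := fun _ => F) ?_ ?_ ?_ ?_
  · filter_upwards [hnb] with s hs
    exact (KMass_cont_g M h hs.le).aestronglyMeasurable
  · filter_upwards [hnb] with s hs
    refine Eventually.of_forall fun φ _ => ?_
    have hb := hf _ (KMass_ne h hs.le φ)
    have hb0 : 0 < M.f (cpt v e₁ e₂ s φ) := hm.trans_le hb.1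
    have hr1 : √(1 - s ^ 2) ≤ 1 := by
      rw [Real.sqrt_le_one]
      nlinarith [sq_nonneg s]
    rw [Real.norm_eq_abs, abs_of_nonneg (mul_nonneg hb0.le (Real.sqrt_nonneg _))]
    calc M.f (cpt v e₁ e₂ s φ) * √(1 - s ^ 2) ≤ M.f (cpt v e₁ e₂ s φ) * 1 :=
          mul_le_mul_of_nonneg_left hr1 hb0.le
      _ ≤ F := by rw [mul_one]; exact hb.2
  · exact intervalIntegrable_const
  · refine Eventually.of_forall fun φ _ => ?_
    have h2 : ContinuousAt M.f (cpt v e₁ e₂ t φ) :=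
      M.continuousOn_f.continuousAt (isOpen_ne.mem_nhds (KMass_ne h ht.le φ))
    have h3 : ContinuousAt (fun s : ℝ => cpt v e₁ e₂ s φ) t :=
      ((continuous_cpt v e₁ e₂).comp (continuous_id.prodMk continuous_const)).continuousAt
    have h4 : ContinuousAt (fun s : ℝ => M.f (cpt v e₁ e₂ s φ)) t :=
      ContinuousAt.comp (f := fun s : ℝ => cpt v e₁ e₂ s φ) h2 h3
    have h5 : Continuous fun s : ℝ => √(1 - s ^ 2) :=
      Real.continuous_sqrt.comp (continuous_const.sub (continuous_pow 2))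
    exact h4.mul h5.continuousAt

theorem tendsto_clen_one (M : Met) {v e₁ e₂ : E} (h : Frm v e₁ e₂) :
    Tendsto (fun t => clen M v e₁ e₂ t) (𝓝[<] (1:ℝ)) (𝓝 0) := by
  obtain ⟨m, F, K, hm, hmF, hK, hf, hLip, -⟩ := M.exists_bounds
  have hF0 : 0 < F := hm.trans_le hmF
  have hev : ∀ᶠ t : ℝ in 𝓝[<] (1:ℝ), 0 < t ∧ t < 1 := by
    have h1 : ∀ᶠ t : ℝ in 𝓝[<] (1:ℝ), 0 < t :=
      mem_nhdsWithin_of_mem_nhds (lt_mem_nhds zero_lt_one)
    filter_upwards [h1, self_mem_nhdsWithin] with t h2 h3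
    exact ⟨h2, h3⟩
  have hb : ∀ t : ℝ, 0 < t ∧ t < 1 → ∀ φ, 0 ≤ M.f (cpt v e₁ e₂ t φ) * √(1 - t ^ 2) ∧
      M.f (cpt v e₁ e₂ t φ) * √(1 - t ^ 2) ≤ F * √(1 - t ^ 2) := by
    intro t ht φ
    have ht' : |t| ≤ 1 := by rw [abs_of_pos ht.1]; exact ht.2.le
    have hb := hf _ (KMass_ne h ht' φ)
    exact ⟨mul_nonneg (hm.trans_le hb.1).le (Real.sqrt_nonneg _),
      mul_le_mul_of_nonneg_right hb.2 (Real.sqrt_nonneg _)⟩
  have hlim : Tendsto (fun t : ℝ => 2 * π * (F * √(1 - t ^ 2))) (𝓝[<] (1:ℝ)) (𝓝 0) := by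
    have h5 : Continuous fun t : ℝ => 2 * π * (F * √(1 - t ^ 2)) :=
      continuous_const.mul (continuous_const.mul
        (Real.continuous_sqrt.comp (continuous_const.sub (continuous_pow 2))))
    have h6 := h5.tendsto 1
    have h7 : 2 * π * (F * √(1 - (1:ℝ) ^ 2)) = 0 := by norm_num
    rw [h7] at h6
    exact h6.mono_left nhdsWithin_le_nhds
  refine squeeze_zero' ?_ ?_ hlim
  · filter_upwards [hev] with t ht
    exact intervalIntegral.integral_nonneg (by positivity) fun φ _ => (hb t ht φ).1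
  · filter_upwards [hev] with t ht
    have ht' : |t| ≤ 1 := by rw [abs_of_pos ht.1]; exact ht.2.le
    have h8 : clen M v e₁ e₂ t ≤ ∫ φ in (0:ℝ)..(2 * π), F * √(1 - t ^ 2) :=
      intervalIntegral.integral_mono_on (by positivity)
        ((KMass_cont_g M h ht').intervalIntegrable _ _) intervalIntegrable_const
        fun φ _ => (hb t ht φ).2
    rw [intervalIntegral.integral_const, smul_eq_mul, sub_zero] at h8
    exact h8

end CGA.K
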