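import Pool.Agent.CGA.KTV
import Pool.Agent.CGA.KHgt

/-! # PROJECT CGA, module KQuad: the quadrilaterals between two circles

`a_j = cpt v e₁ e₂ t₁ (ang n j)`, `b_j = cpt v e₁ e₂ t₂ (ang n j)`; `quad j = tri v a_j a_{j+1} - tri v b_j b_{j+1}`.
PROOF.  `quad_sum_cone`: `coneF v` of `(a_j,a_{j+1})`, `(b_{j+1},b_j)` (`j < k`) and of the two short sides `(a_k,b_k)`, `(b_0,a_0)` is
`∑_{j<k} quad j`: `tri_swap`, and `tri v a_k b_k = 0` because `det3 v a_k b_k = 0` (`det3_v_cpt` with `θ = φ`; `tri_zero`).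
The multiset `quadS` is balanced (heads `a_1..a_k, b_0..b_{k-1}, b_k, a_0`; tails `a_0..a_{k-1}, b_1..b_k, a_k, b_0`), by induction on `k`.
`TV_quad_sum_le`: `TV_coneF_le`; the conditions: `det3 v a_j a_{j+1} > 0`; for the radial darts `(a_k,b_k)` (`φ = ang n k`) take
`w = (cos φ e₁ + sin φ e₂) + ε v` with small `ε > 0`: `⟪w,v⟫ = ε`, `⟪w,a_k⟫ = √(1-t₁²) + ε t₁ > 0`, `⟪w,b_k⟫ = √(1-t₂²) + ε t₂ > 0`.
`TV_quad_le`: the same with the four sides of one quadrilateral: `quad j = coneF v {(a_j,a_{j+1}), (a_{j+1},b_{j+1}), (b_{j+1},b_j), (b_j,a_j)}`.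
`quad_near`: if `quad j x ≠ 0` one of the two `tri` is not `0`, so `x` lies in the sector `j` (which is the same for `t₁` and `t₂`: both are
positive multiples of `sin (θ - ang n j)`, `sin (ang n (j+1) - θ)`, `det3_v_cpt`); if `⟪v,x⟫ ≥ t₂ + ε` both are `1`, if
`⟪v,x⟫ ≤ t₁ - ε` both are `0` (`tri_high` for `t₁` and `t₂`), so `t₁ - ε < ⟪v,x⟫ < t₂ + ε`; `sector_near`. -/

set_option linter.all false

namespace CGA.K

open scoped RealInnerProductSpace Real Topology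
open MeasureTheory Set Filter

noncomputable def quad (v e₁ e₂ : E) (t₁ t₂ : ℝ) (n j : ℕ) (x : E) : ℤ :=
  tri v (cpt v e₁ e₂ t₁ (ang n j)) (cpt v e₁ e₂ t₁ (ang n (j + 1))) x -
    tri v (cpt v e₁ e₂ t₂ (ang n j)) (cpt v e₁ e₂ t₂ (ang n (j + 1))) x

/-- boundary of the first `k` quadrilaterals -/
noncomputable def quadS (v e₁ e₂ : E) (t₁ t₂ : ℝ) (n k : ℕ) : Multiset (E × E) :=
  (cpt v e₁ e₂ t₁ (ang n k), cpt v e₁ e₂ t₂ (ang n k)) ::ₘ
  (cpt v e₁ e₂ t₂ (ang n 0), cpt v e₁ e₂ t₁ (ang n 0)) ::ₘ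
  ((Multiset.range k).map fun j => (cpt v e₁ e₂ t₁ (ang n j), cpt v e₁ e₂ t₁ (ang n (j + 1)))) +
  ((Multiset.range k).map fun j => (cpt v e₁ e₂ t₂ (ang n (j + 1)), cpt v e₁ e₂ t₂ (ang n j)))

private theorem KQuad_rad {v e₁ e₂ : E} (h : Frm v e₁ e₂) (t s φ : ℝ) :
    det3 v (cpt v e₁ e₂ t φ) (cpt v e₁ e₂ s φ) = 0 := by
  rw [det3_v_cpt h, sub_self, Real.sin_zero, mul_zero]

private theorem KQuad_coneSum (v : E) (f : ℕ → E × E) (k : ℕ) (x : E) :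
    coneF v ((Multiset.range k).map f) x = ∑ j ∈ Finset.range k, tri v (f j).1 (f j).2 x := by
  unfold coneF
  rw [Multiset.map_map]
  rfl

theorem quad_sum_cone {v e₁ e₂ : E} (h : Frm v e₁ e₂) (t₁ t₂ : ℝ) (n k : ℕ) (x : E) :
    coneF v (quadS v e₁ e₂ t₁ t₂ n k) x = ∑ j ∈ Finset.range k, quad v e₁ e₂ t₁ t₂ n j x := by
  unfold quadS
  rw [coneF_add, coneF_cons, coneF_cons, KQuad_coneSum, KQuad_coneSum,
    tri_zero (KQuad_rad h _ _ _), tri_zero (KQuad_rad h _ _ _), zero_add, zero_add,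
    ← Finset.sum_add_distrib]
  refine Finset.sum_congr rfl fun j _ => ?_
  unfold quad
  show tri v (cpt v e₁ e₂ t₁ (ang n j)) (cpt v e₁ e₂ t₁ (ang n (j + 1))) x +
    tri v (cpt v e₁ e₂ t₂ (ang n (j + 1))) (cpt v e₁ e₂ t₂ (ang n j)) x = _
  rw [tri_swap v (cpt v e₁ e₂ t₂ (ang n j))]
  ring

theorem af_quad (v e₁ e₂ : E) (t₁ t₂ : ℝ) (n j : ℕ) : AF (quad v e₁ e₂ t₁ t₂ n j) := by
  have h := af_add (af_tri v (cpt v e₁ e₂ t₁ (ang n j)) (cpt v e₁ e₂ t₁ (ang n (j + 1))))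
    (af_neg (af_tri v (cpt v e₁ e₂ t₂ (ang n j)) (cpt v e₁ e₂ t₂ (ang n (j + 1)))))
  have e : quad v e₁ e₂ t₁ t₂ n j = fun x =>
      tri v (cpt v e₁ e₂ t₁ (ang n j)) (cpt v e₁ e₂ t₁ (ang n (j + 1))) x +
      - tri v (cpt v e₁ e₂ t₂ (ang n j)) (cpt v e₁ e₂ t₂ (ang n (j + 1))) x := by
    funext x
    unfold quad
    ring
  rw [e]
  exact h

theorem af_quad_sum (v e₁ e₂ : E) (t₁ t₂ : ℝ) (n k : ℕ) :
    AF (fun x => ∑ j ∈ Finset.range k, quad v e₁ e₂ t₁ t₂ n j x) := by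
  induction k with
  | zero =>
    simp only [Finset.range_zero, Finset.sum_empty]
    exact af_const 0
  | succ k ih =>
    simp only [Finset.sum_range_succ]
    exact af_add ih (af_quad v e₁ e₂ t₁ t₂ n k)

private theorem KQuad_w {v e₁ e₂ : E} (h : Frm v e₁ e₂) {t₁ t₂ : ℝ} (h1 : |t₁| < 1)
    (h2 : |t₂| < 1) (φ : ℝ) :
    ∃ w : E, 0 < ⟪w, v⟫ ∧ 0 < ⟪w, cpt v e₁ e₂ t₁ φ⟫ ∧ 0 < ⟪w, cpt v e₁ e₂ t₂ φ⟫ := by
  have r1 : 0 < √(1 - t₁ ^ 2) := Real.sqrt_pos.2 (by have := (sq_lt_one_iff_abs_lt_one t₁).2 h1; linarith)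
  have r2 : 0 < √(1 - t₂ ^ 2) := Real.sqrt_pos.2 (by have := (sq_lt_one_iff_abs_lt_one t₂).2 h2; linarith)
  set ε := min (√(1 - t₁ ^ 2)) (√(1 - t₂ ^ 2)) with hε
  have hεp : 0 < ε := lt_min r1 r2
  have key : ∀ t : ℝ, ⟪(Real.cos φ • e₁ + Real.sin φ • e₂) + ε • v, cpt v e₁ e₂ t φ⟫ =
      √(1 - t ^ 2) + ε * t := by
    intro t
    rw [inner_add_left, inner_add_left, real_inner_smul_left, real_inner_smul_left,
      real_inner_smul_left, inner_v_cpt h, inner_e1_cpt h, inner_e2_cpt h]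
    have := Real.sin_sq_add_cos_sq φ
    linear_combination √(1 - t ^ 2) * this
  have hpos : ∀ t : ℝ, |t| < 1 → ε ≤ √(1 - t ^ 2) → 0 < √(1 - t ^ 2) + ε * t := by
    intro t ht hle
    have h3 := (abs_lt.1 ht).1
    nlinarith
  refine ⟨(Real.cos φ • e₁ + Real.sin φ • e₂) + ε • v, ?_, ?_, ?_⟩
  · rw [inner_add_left, inner_add_left, real_inner_smul_left, real_inner_smul_left,
      real_inner_smul_left, real_inner_self_eq_norm_sq, h.v1, real_inner_comm, h.v_e1,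
      real_inner_comm, h.v_e2]
    linarith
  · rw [key]
    exact hpos t₁ h1 (min_le_left _ _)
  · rw [key]
    exact hpos t₂ h2 (min_le_right _ _)

private theorem KQuad_massSum (M : Met) (f : ℕ → E × E) (k : ℕ) :
    mass M ((Multiset.range k).map f) = ∑ j ∈ Finset.range k, ell M (f j).1 (f j).2 := by
  unfold mass
  rw [Multiset.map_map]
  rfl

private theorem KQuad_shift (a : ℕ → E) (k : ℕ) :
    ({a k} : Multiset E) + (Multiset.range k).map a =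
      {a 0} + (Multiset.range k).map fun j => a (j + 1) := by
  induction k with
  | zero => simp
  | succ k ih =>
    rw [Multiset.range_succ, Multiset.map_cons, Multiset.map_cons, ← Multiset.singleton_add (a k),
      ih, ← Multiset.singleton_add (a (k + 1))]
    exact add_left_comm _ _ _

private theorem KQuad_bal (v e₁ e₂ : E) (t₁ t₂ : ℝ) (n k : ℕ) :
    (quadS v e₁ e₂ t₁ t₂ n k).map Prod.fst = (quadS v e₁ e₂ t₁ t₂ n k).map Prod.snd := by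
  unfold quadS
  have hA := KQuad_shift (fun j => cpt v e₁ e₂ t₁ (ang n j)) k
  have hB := KQuad_shift (fun j => cpt v e₁ e₂ t₂ (ang n j)) k
  simp only [Multiset.map_add, Multiset.map_cons, Multiset.map_map, Function.comp_def]
  simp only [← Multiset.singleton_add]
  try simp only at hA hB
  generalize (Multiset.range k).map (fun j => cpt v e₁ e₂ t₁ (ang n j)) = A at *
  generalize (Multiset.range k).map (fun j => cpt v e₁ e₂ t₁ (ang n (j + 1))) = A' at *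
  generalize (Multiset.range k).map (fun j => cpt v e₁ e₂ t₂ (ang n j)) = B at *
  generalize (Multiset.range k).map (fun j => cpt v e₁ e₂ t₂ (ang n (j + 1))) = B' at *
  generalize ({cpt v e₁ e₂ t₁ (ang n k)} : Multiset E) = ak at *
  generalize ({cpt v e₁ e₂ t₁ (ang n 0)} : Multiset E) = a0 at *
  generalize ({cpt v e₁ e₂ t₂ (ang n k)} : Multiset E) = bk at *
  generalize ({cpt v e₁ e₂ t₂ (ang n 0)} : Multiset E) = b0 at *
  calc ak + (b0 + A) + B' = (ak + A) + (b0 + B') := by abel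
    _ = (a0 + A') + (bk + B) := by rw [hA, ← hB]
    _ = bk + (a0 + A') + B := by abel

theorem TV_quad_sum_le (M : Met) {v e₁ e₂ : E} (h : Frm v e₁ e₂) {t₁ t₂ : ℝ} (h1 : |t₁| < 1)
    (h2 : |t₂| < 1) {n : ℕ} (hn : 3 ≤ n) {k : ℕ} (hk : k ≤ n) :
    TV M (fun x => ∑ j ∈ Finset.range k, quad v e₁ e₂ t₁ t₂ n j x) ≤
      llen M (cyc (ngon v e₁ e₂ t₁ n)) + llen M (cyc (ngon v e₁ e₂ t₂ n)) +
      ell M (cpt v e₁ e₂ t₁ (ang n k)) (cpt v e₁ e₂ t₂ (ang n k)) +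
      ell M (cpt v e₁ e₂ t₂ (ang n 0)) (cpt v e₁ e₂ t₁ (ang n 0)) := by
  have e : (fun x => ∑ j ∈ Finset.range k, quad v e₁ e₂ t₁ t₂ n j x) =
      coneF v (quadS v e₁ e₂ t₁ t₂ n k) := funext fun x => (quad_sum_cone h t₁ t₂ n k x).symm
  rw [e]
  refine (TV_coneF_le M h.v1 (KQuad_bal v e₁ e₂ t₁ t₂ n k) ?_).trans ?_
  · intro d hd
    unfold quadS at hd
    rw [Multiset.mem_add, Multiset.mem_cons, Multiset.mem_cons, Multiset.mem_map,
      Multiset.mem_map] at hd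
    rcases hd with (rfl | rfl | ⟨j, -, rfl⟩) | ⟨j, -, rfl⟩
    · exact ⟨norm_cpt h h1.le _, norm_cpt h h2.le _, Or.inr (KQuad_w h h1 h2 _)⟩
    · exact ⟨norm_cpt h h2.le _, norm_cpt h h1.le _, Or.inr (KQuad_w h h2 h1 _)⟩
    · exact ⟨norm_cpt h h1.le _, norm_cpt h h1.le _, Or.inl (det3_v_ngon_pos h h1 hn j).ne'⟩
    · refine ⟨norm_cpt h h2.le _, norm_cpt h h2.le _, Or.inl ?_⟩
      rw [det3_swap23]
      exact neg_ne_zero.2 (det3_v_ngon_pos h h2 hn j).ne'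
  · unfold quadS
    have hm : ∀ s t : Multiset (E × E), mass M (s + t) = mass M s + mass M t := by
      intro s t
      simp [mass]
    have hc : ∀ (d : E × E) (s : Multiset (E × E)), mass M (d ::ₘ s) = ell M d.1 d.2 + mass M s := by
      intro d s
      simp [mass]
    rw [hm, hc, hc, KQuad_massSum, KQuad_massSum, llen_ngon M v e₁ e₂ t₁ (by omega : 1 ≤ n),
      llen_ngon M v e₁ e₂ t₂ (by omega : 1 ≤ n)]
    have hsub : Finset.range k ⊆ Finset.range n := Finset.range_mono hk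
    have s1 : ∑ j ∈ Finset.range k, ell M (cpt v e₁ e₂ t₁ (ang n j)) (cpt v e₁ e₂ t₁ (ang n (j + 1)))
        ≤ ∑ j ∈ Finset.range n, ell M (cpt v e₁ e₂ t₁ (ang n j)) (cpt v e₁ e₂ t₁ (ang n (j + 1))) :=
      Finset.sum_le_sum_of_subset_of_nonneg hsub fun _ _ _ => ell_nonneg M _ _
    have s2 : ∑ j ∈ Finset.range k, ell M (cpt v e₁ e₂ t₂ (ang n (j + 1))) (cpt v e₁ e₂ t₂ (ang n j))
        ≤ ∑ j ∈ Finset.range n, ell M (cpt v e₁ e₂ t₂ (ang n j)) (cpt v e₁ e₂ t₂ (ang n (j + 1))) := by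
      simp only [fun j => ell_comm M (cpt v e₁ e₂ t₂ (ang n (j + 1))) (cpt v e₁ e₂ t₂ (ang n j))]
      exact Finset.sum_le_sum_of_subset_of_nonneg hsub fun _ _ _ => ell_nonneg M _ _
    simp only
    linarith

theorem TV_quad_le (M : Met) {v e₁ e₂ : E} (h : Frm v e₁ e₂) {t₁ t₂ : ℝ} (h1 : |t₁| < 1)
    (h2 : |t₂| < 1) {n : ℕ} (hn : 3 ≤ n) {j : ℕ} (hj : j < n) :
    TV M (quad v e₁ e₂ t₁ t₂ n j) ≤
      ell M (cpt v e₁ e₂ t₁ (ang n j)) (cpt v e₁ e₂ t₁ (ang n (j + 1))) +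
      ell M (cpt v e₁ e₂ t₂ (ang n j)) (cpt v e₁ e₂ t₂ (ang n (j + 1))) +
      ell M (cpt v e₁ e₂ t₁ (ang n (j + 1))) (cpt v e₁ e₂ t₂ (ang n (j + 1))) +
      ell M (cpt v e₁ e₂ t₂ (ang n j)) (cpt v e₁ e₂ t₁ (ang n j)) := by
  have e : quad v e₁ e₂ t₁ t₂ n j = coneF v
      ((cpt v e₁ e₂ t₁ (ang n j), cpt v e₁ e₂ t₁ (ang n (j + 1))) ::ₘ
      (cpt v e₁ e₂ t₁ (ang n (j + 1)), cpt v e₁ e₂ t₂ (ang n (j + 1))) ::ₘ
      (cpt v e₁ e₂ t₂ (ang n (j + 1)), cpt v e₁ e₂ t₂ (ang n j)) ::ₘ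
      (cpt v e₁ e₂ t₂ (ang n j), cpt v e₁ e₂ t₁ (ang n j)) ::ₘ 0) := by
    funext x
    rw [coneF_cons, coneF_cons, coneF_cons, coneF_cons, coneF_zero, tri_zero (KQuad_rad h _ _ _),
      tri_zero (KQuad_rad h _ _ _)]
    unfold quad
    simp only
    rw [tri_swap v (cpt v e₁ e₂ t₂ (ang n j))]
    ring
  rw [e]
  refine (TV_coneF_le M h.v1 ?_ ?_).trans ?_
  · rw [Multiset.map_cons, Multiset.map_cons, Multiset.map_cons, Multiset.map_cons,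
      Multiset.map_zero, Multiset.map_cons, Multiset.map_cons, Multiset.map_cons,
      Multiset.map_cons, Multiset.map_zero]
    have hrot : ∀ a b c d : E, a ::ₘ b ::ₘ c ::ₘ d ::ₘ (0 : Multiset E) =
        b ::ₘ c ::ₘ d ::ₘ a ::ₘ 0 := by
      intro a b c d
      rw [Multiset.cons_swap a b, Multiset.cons_swap a c, Multiset.cons_swap a d]
    exact hrot _ _ _ _
  · intro d hd
    rw [Multiset.mem_cons, Multiset.mem_cons, Multiset.mem_cons, Multiset.mem_cons] at hd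
    rcases hd with rfl | rfl | rfl | rfl | hd
    · exact ⟨norm_cpt h h1.le _, norm_cpt h h1.le _, Or.inl (det3_v_ngon_pos h h1 hn j).ne'⟩
    · exact ⟨norm_cpt h h1.le _, norm_cpt h h2.le _, Or.inr (KQuad_w h h1 h2 _)⟩
    · refine ⟨norm_cpt h h2.le _, norm_cpt h h2.le _, Or.inl ?_⟩
      rw [det3_swap23]
      exact neg_ne_zero.2 (det3_v_ngon_pos h h2 hn j).ne'
    · exact ⟨norm_cpt h h2.le _, norm_cpt h h1.le _, Or.inr (KQuad_w h h2 h1 _)⟩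
    · exact absurd hd (Multiset.notMem_zero _)
  · unfold mass
    simp only [Multiset.map_cons, Multiset.map_zero, Multiset.sum_cons, Multiset.sum_zero]
    rw [ell_comm M (cpt v e₁ e₂ t₂ (ang n (j + 1))) (cpt v e₁ e₂ t₂ (ang n j))]
    linarith

theorem quad_near {v e₁ e₂ : E} (h : Frm v e₁ e₂) {t₁ t₂ : ℝ} (h1 : |t₁| < 1) (h2 : |t₂| < 1)
    (h12 : t₁ < t₂) {ε : ℝ} (hε : 0 < ε) :
    ∀ᶠ n : ℕ in atTop, ∀ j < n, ∀ x : E, ‖x‖ = 1 → quad v e₁ e₂ t₁ t₂ n j x ≠ 0 →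
      t₁ - ε ≤ ⟪v, x⟫ ∧ ⟪v, x⟫ ≤ t₂ + ε ∧ ‖x - cpt v e₁ e₂ ⟪v, x⟫ (ang n j)‖ ≤ 2 * π / n := by
  obtain ⟨n₁, hn₁, H1⟩ := tri_high h h1 hε
  obtain ⟨n₂, hn₂, H2⟩ := tri_high h h2 hε
  filter_upwards [eventually_ge_atTop (max n₁ n₂)] with n hn j hj x hx hq
  have hna : n₁ ≤ n := (le_max_left _ _).trans hn
  have hnb : n₂ ≤ n := (le_max_right _ _).trans hn
  have hn3 : 3 ≤ n := hn₁.trans hna
  obtain ⟨θ, -, hθ⟩ := exists_cpt h hx
  set s := ⟪v, x⟫ with hs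
  have r1 : 0 < √(1 - t₁ ^ 2) := Real.sqrt_pos.2 (by
    have := (sq_lt_one_iff_abs_lt_one t₁).2 h1; linarith)
  have r2 : 0 < √(1 - t₂ ^ 2) := Real.sqrt_pos.2 (by
    have := (sq_lt_one_iff_abs_lt_one t₂).2 h2; linarith)
  -- the sector does not depend on the height
  have hsec : ∀ t t' : ℝ, 0 < √(1 - t ^ 2) → 0 < √(1 - t' ^ 2) →
      (0 < det3 v (cpt v e₁ e₂ t (ang n j)) x → 0 < det3 v (cpt v e₁ e₂ t' (ang n j)) x) ∧
      (0 < det3 v x (cpt v e₁ e₂ t (ang n (j + 1))) →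
        0 < det3 v x (cpt v e₁ e₂ t' (ang n (j + 1)))) := by
    intro t t' ht ht'
    rw [hθ, det3_v_cpt h, det3_v_cpt h, det3_v_cpt h, det3_v_cpt h]
    refine ⟨fun h3 => ?_, fun h3 => ?_⟩
    · rw [mul_assoc] at h3 ⊢
      exact mul_pos ht' ((mul_pos_iff_of_pos_left ht).1 h3)
    · have h4 : √(1 - s ^ 2) * √(1 - t ^ 2) * Real.sin (ang n (j + 1) - θ) =
          √(1 - t ^ 2) * (√(1 - s ^ 2) * Real.sin (ang n (j + 1) - θ)) := by ring
      have h5 : √(1 - s ^ 2) * √(1 - t' ^ 2) * Real.sin (ang n (j + 1) - θ) =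
          √(1 - t' ^ 2) * (√(1 - s ^ 2) * Real.sin (ang n (j + 1) - θ)) := by ring
      rw [h4] at h3
      rw [h5]
      exact mul_pos ht' ((mul_pos_iff_of_pos_left ht).1 h3)
  have htri : ∀ t : ℝ, |t| < 1 →
      tri v (cpt v e₁ e₂ t (ang n j)) (cpt v e₁ e₂ t (ang n (j + 1))) x ≠ 0 →
      0 < det3 v (cpt v e₁ e₂ t (ang n j)) x ∧ 0 < det3 v x (cpt v e₁ e₂ t (ang n (j + 1))) := by
    intro t ht h3
    rw [tri_pos (det3_v_ngon_pos h ht hn3 j)] at h3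
    by_contra hcon
    apply h3
    rw [if_neg]
    rintro ⟨-, h4, h5⟩
    exact hcon ⟨h5, h4⟩
  have hboth : (0 < det3 v (cpt v e₁ e₂ t₁ (ang n j)) x ∧
      0 < det3 v x (cpt v e₁ e₂ t₁ (ang n (j + 1)))) ∧
      (0 < det3 v (cpt v e₁ e₂ t₂ (ang n j)) x ∧
      0 < det3 v x (cpt v e₁ e₂ t₂ (ang n (j + 1)))) := by
    by_cases h3 : tri v (cpt v e₁ e₂ t₁ (ang n j)) (cpt v e₁ e₂ t₁ (ang n (j + 1))) x = 0
    · have h4 : tri v (cpt v e₁ e₂ t₂ (ang n j)) (cpt v e₁ e₂ t₂ (ang n (j + 1))) x ≠ 0 := by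
        intro h4
        apply hq
        unfold quad
        rw [h3, h4, sub_self]
      have h5 := htri t₂ h2 h4
      exact ⟨⟨(hsec t₂ t₁ r2 r1).1 h5.1, (hsec t₂ t₁ r2 r1).2 h5.2⟩, h5⟩
    · have h5 := htri t₁ h1 h3
      exact ⟨h5, ⟨(hsec t₁ t₂ r1 r2).1 h5.1, (hsec t₁ t₂ r1 r2).2 h5.2⟩⟩
  obtain ⟨⟨a1, a2⟩, ⟨b1, b2⟩⟩ := hboth
  have A := H1 n hna j hj x hx a1 a2
  have B := H2 n hnb j hj x hx b1 b2
  refine ⟨?_, ?_, sector_near h h1 hn3 hj hx a1 a2⟩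
  · by_contra hcon
    push Not at hcon
    apply hq
    unfold quad
    rw [A.2 hcon.le, B.2 (by linarith), sub_self]
  · by_contra hcon
    push Not at hcon
    apply hq
    unfold quad
    rw [A.1 (by linarith), B.1 hcon.le, sub_self]

end CGA.K
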