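import Pool.Agent.CGA.ANrm

/-! # PROJECT CGA, module KTri: the functions `tri` and `coneF`

PROOF.  Unfold `tri`; `det3_swap12`, .. of AVec for the signs of the determinants; `det3_smul1` ... for the
homogeneity. `coneF x s p = (s.map ..).sum`. -/

set_option linter.all false

namespace CGA.K

open scoped RealInnerProductSpace Real Topology
open MeasureTheory Set Filter

theorem tri_swap (a b c p : E) : tri a c b p = - tri a b c p := by
  unfold tri
  rw [det3_swap23 p b c, det3_swap23 a b p, det3_swap23 a p c, det3_swap23 a b c]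
  simp only [Left.neg_pos_iff, Left.neg_neg_iff]
  by_cases h1 : 0 < det3 p b c ∧ 0 < det3 a p c ∧ 0 < det3 a b p ∧ 0 < det3 a b c
  · have h2 : ¬ (det3 p b c < 0 ∧ det3 a b p < 0 ∧ det3 a p c < 0 ∧ det3 a b c < 0) :=
      fun h => absurd h.1 (not_lt.2 h1.1.le)
    rw [if_neg h2, if_pos ⟨h1.1, h1.2.2.1, h1.2.1, h1.2.2.2⟩, if_pos h1]
  · rw [if_neg h1]
    have h1' : ¬ (0 < det3 p b c ∧ 0 < det3 a b p ∧ 0 < det3 a p c ∧ 0 < det3 a b c) :=
      fun h => h1 ⟨h.1, h.2.2.1, h.2.1, h.2.2.2⟩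
    rw [if_neg h1']
    by_cases h2 : det3 p b c < 0 ∧ det3 a p c < 0 ∧ det3 a b p < 0 ∧ det3 a b c < 0
    · rw [if_pos h2, if_pos ⟨h2.1, h2.2.2.1, h2.2.1, h2.2.2.2⟩, neg_neg]
    · have h2' : ¬ (det3 p b c < 0 ∧ det3 a b p < 0 ∧ det3 a p c < 0 ∧ det3 a b c < 0) :=
        fun h => h2 ⟨h.1, h.2.2.1, h.2.1, h.2.2.2⟩
      rw [if_neg h2, if_neg h2', neg_zero]

theorem tri_zero {a b c : E} (h : det3 a b c = 0) (p : E) : tri a b c p = 0 := by
  unfold tri
  rw [if_neg, if_neg]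
  · intro h1
    rw [h] at h1
    exact lt_irrefl _ h1.2.2.2
  · intro h1
    rw [h] at h1
    exact lt_irrefl _ h1.2.2.2

theorem tri_pos {a b c : E} (h : 0 < det3 a b c) (p : E) :
    tri a b c p = if 0 < det3 p b c ∧ 0 < det3 a p c ∧ 0 < det3 a b p then 1 else 0 := by
  unfold tri
  by_cases h1 : 0 < det3 p b c ∧ 0 < det3 a p c ∧ 0 < det3 a b p
  · rw [if_pos h1, if_pos ⟨h1.1, h1.2.1, h1.2.2, h⟩]
  · rw [if_neg h1, if_neg (fun h2 => h1 ⟨h2.1, h2.2.1, h2.2.2.1⟩),
      if_neg (fun h2 => absurd h2.2.2.2 (not_lt.2 h.le))]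

theorem tri_smul (a b c p : E) {s : ℝ} (hs : 0 < s) : tri a b c (s • p) = tri a b c p := by
  have h1 : ∀ x : ℝ, 0 < s * x ↔ 0 < x := fun x => mul_pos_iff_of_pos_left hs
  have h2 : ∀ x : ℝ, s * x < 0 ↔ x < 0 := by
    intro x
    constructor
    · intro h
      by_contra hx
      push Not at hx
      exact absurd h (not_lt.2 (mul_nonneg hs.le hx))
    · intro h
      exact mul_neg_of_pos_of_neg hs h
  unfold tri
  simp only [det3_smul1, det3_smul2, det3_smul3, h1, h2]

theorem tri_nrm (a b c : E) {p : E} (hp : p ≠ 0) : tri a b c (nrm p) = tri a b c p :=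
  tri_smul a b c p (inv_pos.2 (norm_pos_iff.2 hp))

@[simp] theorem coneF_zero (x p : E) : coneF x 0 p = 0 := by
  unfold coneF
  rw [Multiset.map_zero, Multiset.sum_zero]

theorem coneF_cons (x : E) (e : E × E) (s : Multiset (E × E)) (p : E) :
    coneF x (e ::ₘ s) p = tri x e.1 e.2 p + coneF x s p := by
  unfold coneF
  rw [Multiset.map_cons, Multiset.sum_cons]

theorem coneF_add (x : E) (s t : Multiset (E × E)) (p : E) :
    coneF x (s + t) p = coneF x s p + coneF x t p := by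
  unfold coneF
  rw [Multiset.map_add, Multiset.sum_add]

theorem coneF_nrm (x : E) (s : Multiset (E × E)) {p : E} (hp : p ≠ 0) :
    coneF x s (nrm p) = coneF x s p := by
  unfold coneF
  simp only [tri_nrm _ _ _ hp]

end CGA.K
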