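import Pool.Agent.CGA.KCpt
import Pool.Agent.CGA.KTri

/-! # PROJECT CGA, module KSec: the sectors of the triangles `(v, q_j, q_{j+1})`

`ang n j = 2πj/n`, `q_j = cpt v e₁ e₂ t (ang n j)`, `Δ = 2π/n`.
PROOF.  `det3_v_cpt`: `frm_det3_eq` with the coordinates of `v` (`1,0,0`) and of `cpt`.
`exists_sector`: for a unit vector `x = cpt ⟪v,x⟫ φ` (`exists_cpt`), put `j = ⌊n φ / 2π⌋₊ < n`, `ang n j ≤ φ < ang n (j+1)`, and
`φ ≠ ang n j` because otherwise `det3 v q_j x = √(1-t²)√(1-⟪v,x⟫²) sin (φ - ang n j) = 0`.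
`sector_iff`: `det3 v q_k x = c sin (φ - ang n k)`, `det3 v x q_{k+1} = c sin (ang n (k+1) - φ)` with `c = √(1-t²)√(1-h²) > 0`
(`|h| < 1`).  For `φ ∈ [0, 2π)`, `0 ≤ ang n k < ang n (k+1) ≤ 2π`: both `φ - ang n k` and `ang n (k+1) - φ` lie in
`(-2π, 2π]`; where the sine is positive the argument is in `(0, π)` or in `(-2π, -π)`, and the sum of the two arguments is
`Δ ∈ (0, 2π/3]`, so both are in `(0, π)`.  Conversely `0 < φ - ang n k < Δ < π`.
`sector_unique`: `x ≠ 0`, replace `x` by `nrm x = cpt ⟪v, nrm x⟫ φ` (`exists_cpt`, `det3_smul2`, `det3_smul3`); `|⟪v, nrm x⟫| < 1`, otherwise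
the determinants vanish; by `sector_iff` `ang n j < φ < ang n (j+1)` and `ang n k < φ < ang n (k+1)`, so `j = k`.
`det3_cpt_cpt`: `det3 x q q'` for `q = cpt φ`, `q' = cpt ψ`, `ψ - φ = 2a`, `μ = (φ+ψ)/2`: by `frm_det3_eq` it equals
`⟪v,x⟫ r² sin 2a + ⟪e₁,x⟫ t r (sin φ - sin ψ) + ⟪e₂,x⟫ t r (cos ψ - cos φ)`, and `sin ψ - sin φ = 2 sin a cos μ`,
`cos φ - cos ψ = 2 sin a sin μ`, `sin 2a = 2 sin a cos a`; for `x = cpt h θ` the last bracket is
`r cos a h - t √(1-h²) cos (θ - μ)`. -/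

set_option linter.all false

namespace CGA.K

open scoped RealInnerProductSpace Real Topology
open MeasureTheory Set Filter

/-- the angles of the vertices of `ngon` -/
noncomputable def ang (n j : ℕ) : ℝ := 2 * π * (j : ℝ) / n

theorem det3_v_cpt {v e₁ e₂ : E} (h : Frm v e₁ e₂) (t φ s θ : ℝ) :
    det3 v (cpt v e₁ e₂ t φ) (cpt v e₁ e₂ s θ) = √(1 - t ^ 2) * √(1 - s ^ 2) * Real.sin (θ - φ) := by
  rw [frm_det3_eq h, inner_e1_cpt h, inner_e2_cpt h, inner_e1_cpt h, inner_e2_cpt h,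
    real_inner_comm v e₁, real_inner_comm v e₂, h.v_e1, h.v_e2, real_inner_self_eq_norm_sq, h.v1,
    Real.sin_sub]
  ring

private theorem ksec_ang (n j : ℕ) : ang n (j + 1) = ang n j + 2 * π / n := by
  unfold ang
  push_cast
  ring

private theorem ksec_step {n : ℕ} (hn : 3 ≤ n) : 0 < 2 * π / (n : ℝ) ∧ 2 * π / (n : ℝ) < π := by
  have hn' : (3:ℝ) ≤ n := by exact_mod_cast hn
  have hp := Real.pi_pos
  refine ⟨by positivity, ?_⟩
  rw [div_lt_iff₀ (by linarith)]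
  nlinarith

private theorem ksec_mono {n : ℕ} (hn : 3 ≤ n) {j k : ℕ} (hjk : j ≤ k) : ang n j ≤ ang n k := by
  unfold ang
  have : (j : ℝ) ≤ k := by exact_mod_cast hjk
  have hp := Real.pi_pos
  gcongr

private theorem ksec_pos {t : ℝ} (ht : |t| < 1) : 0 < √(1 - t ^ 2) := by
  apply Real.sqrt_pos.2
  have := sq_lt_one_iff_abs_lt_one t |>.2 ht
  linarith

theorem det3_v_ngon_pos {v e₁ e₂ : E} (h : Frm v e₁ e₂) {t : ℝ} (ht : |t| < 1) {n : ℕ} (hn : 3 ≤ n)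
    (j : ℕ) : 0 < det3 v (cpt v e₁ e₂ t (ang n j)) (cpt v e₁ e₂ t (ang n (j + 1))) := by
  rw [det3_v_cpt h, ksec_ang, add_sub_cancel_left]
  have h1 := ksec_pos ht
  have h2 := ksec_step hn
  have h3 := Real.sin_pos_of_pos_of_lt_pi h2.1 h2.2
  positivity

private theorem ksec_sin {A : ℝ} (h1 : -(2 * π) < A) (h2 : A ≤ 2 * π) (hs : 0 < Real.sin A) :
    (0 < A ∧ A < π) ∨ A < -π := by
  by_cases h3 : A < -π
  · exact Or.inr h3
  · left
    push Not at h3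
    by_contra h4
    rw [not_and_or, not_lt, not_lt] at h4
    rcases h4 with h4 | h4
    · have := Real.sin_nonpos_of_nonpos_of_neg_pi_le h4 h3
      linarith
    · have h5 : Real.sin (A - 2 * π) ≤ 0 :=
        Real.sin_nonpos_of_nonpos_of_neg_pi_le (by linarith) (by linarith)
      rw [Real.sin_sub_two_pi] at h5
      linarith

/-- the sectors (they do not depend on `t`), and they are disjoint -/
theorem sector_iff {v e₁ e₂ : E} (h : Frm v e₁ e₂) {t : ℝ} (ht : |t| < 1) {n : ℕ} (hn : 3 ≤ n)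
    {s φ : ℝ} (hs : |s| < 1) (hφ : φ ∈ Ico (0:ℝ) (2 * π)) {k : ℕ} (hk : k < n) :
    (0 < det3 v (cpt v e₁ e₂ t (ang n k)) (cpt v e₁ e₂ s φ) ∧
      0 < det3 v (cpt v e₁ e₂ s φ) (cpt v e₁ e₂ t (ang n (k + 1)))) ↔
      ang n k < φ ∧ φ < ang n (k + 1) := by
  have hc : 0 < √(1 - t ^ 2) * √(1 - s ^ 2) := mul_pos (ksec_pos ht) (ksec_pos hs)
  have hc' : 0 < √(1 - s ^ 2) * √(1 - t ^ 2) := mul_pos (ksec_pos hs) (ksec_pos ht)
  rw [det3_v_cpt h, det3_v_cpt h, mul_pos_iff_of_pos_left hc, mul_pos_iff_of_pos_left hc']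
  have hst := ksec_step hn
  have ha := ksec_ang n k
  have hp := Real.pi_pos
  have hn' : (0:ℝ) < n := by
    have : 0 < n := by omega
    exact_mod_cast this
  have hk0 : 0 ≤ ang n k := by unfold ang; positivity
  have hk1 : ang n (k + 1) ≤ 2 * π := by
    have := ksec_mono hn (show k + 1 ≤ n from hk)
    have h2 : ang n n = 2 * π := by unfold ang; field_simp
    linarith
  constructor
  · rintro ⟨h1, h2⟩
    have g1 := ksec_sin (A := φ - ang n k) (by linarith [hφ.1]) (by linarith [hφ.2]) h1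
    have g2 := ksec_sin (A := ang n (k + 1) - φ) (by linarith [hφ.2]) (by linarith [hφ.1]) h2
    rcases g1 with g1 | g1
    · rcases g2 with g2 | g2
      · exact ⟨by linarith [g1.1], by linarith [g2.1]⟩
      · exfalso; linarith [g1.2]
    · exfalso
      rcases g2 with g2 | g2
      · linarith [g2.2]
      · linarith
  · rintro ⟨h1, h2⟩
    exact ⟨Real.sin_pos_of_pos_of_lt_pi (by linarith) (by linarith),
      Real.sin_pos_of_pos_of_lt_pi (by linarith) (by linarith)⟩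

private theorem ksec_abs {v e₁ e₂ : E} (h : Frm v e₁ e₂) {t φ s θ : ℝ} (hs : |s| ≤ 1)
    (hd : det3 v (cpt v e₁ e₂ t φ) (cpt v e₁ e₂ s θ) ≠ 0) : |s| < 1 := by
  rcases lt_or_eq_of_le hs with h1 | h1
  · exact h1
  · exfalso
    apply hd
    have h2 : s ^ 2 = 1 := by rw [← sq_abs, h1, one_pow]
    rw [det3_v_cpt h, h2]
    simp

private theorem ksec_inner {v e₁ e₂ : E} (h : Frm v e₁ e₂) {x : E} (hx : ‖x‖ = 1) : |⟪v, x⟫| ≤ 1 := by
  have := abs_real_inner_le_norm v x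
  rwa [h.v1, hx, one_mul] at this

theorem exists_sector {v e₁ e₂ : E} (h : Frm v e₁ e₂) {t : ℝ} (ht : |t| < 1) {n : ℕ} (hn : 3 ≤ n)
    {x : E} (hx : ‖x‖ = 1) (hg : ∀ j < n, det3 v (cpt v e₁ e₂ t (ang n j)) x ≠ 0) :
    ∃ j < n, 0 < det3 v (cpt v e₁ e₂ t (ang n j)) x ∧
      0 < det3 v x (cpt v e₁ e₂ t (ang n (j + 1))) := by
  obtain ⟨φ, hφ, hxe⟩ := exists_cpt h hx
  have hp := Real.pi_pos
  have hn' : (0:ℝ) < n := by
    have : 0 < n := by omega
    exact_mod_cast this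
  have hs : |⟪v, x⟫| < 1 := by
    refine ksec_abs h (t := t) (φ := ang n 0) (θ := φ) (ksec_inner h hx) ?_
    rw [← hxe]
    exact hg 0 (by omega)
  set s := ⟪v, x⟫ with hsd
  have hq0 : 0 ≤ (n : ℝ) * φ / (2 * π) := by have := hφ.1; positivity
  set j := ⌊(n : ℝ) * φ / (2 * π)⌋₊ with hj
  have hj1 : (j : ℝ) ≤ n * φ / (2 * π) := Nat.floor_le hq0
  have hj2 : (n : ℝ) * φ / (2 * π) < j + 1 := Nat.lt_floor_add_one _
  have hjn : j < n := by
    have h1 : (n : ℝ) * φ / (2 * π) < n := by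
      rw [div_lt_iff₀ (by positivity)]
      exact mul_lt_mul_of_pos_left hφ.2 hn'
    have : (j : ℝ) < n := lt_of_le_of_lt hj1 h1
    exact_mod_cast this
  have a1 : ang n j ≤ φ := by
    unfold ang
    rw [div_le_iff₀ hn']
    rw [le_div_iff₀ (by positivity)] at hj1
    linarith
  have a2 : φ < ang n (j + 1) := by
    unfold ang
    rw [lt_div_iff₀ hn']
    rw [div_lt_iff₀ (by positivity)] at hj2
    push_cast
    linarith
  have a3 : ang n j ≠ φ := by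
    intro he
    apply hg j hjn
    rw [hxe, det3_v_cpt h, he, sub_self, Real.sin_zero, mul_zero]
  have := (sector_iff h ht hn hs hφ hjn).2 ⟨lt_of_le_of_ne a1 a3, a2⟩
  rw [← hxe] at this
  exact ⟨j, hjn, this⟩

theorem sector_unique {v e₁ e₂ : E} (h : Frm v e₁ e₂) {t : ℝ} (ht : |t| < 1) {n : ℕ} (hn : 3 ≤ n)
    (x : E) {j k : ℕ} (hj : j < n) (hk : k < n)
    (hj1 : 0 < det3 v (cpt v e₁ e₂ t (ang n j)) x) (hj2 : 0 < det3 v x (cpt v e₁ e₂ t (ang n (j + 1))))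
    (hk1 : 0 < det3 v (cpt v e₁ e₂ t (ang n k)) x) (hk2 : 0 < det3 v x (cpt v e₁ e₂ t (ang n (k + 1)))) :
    j = k := by
  have hx0 : x ≠ 0 := by
    intro h0
    rw [h0] at hj1
    have : det3 v (cpt v e₁ e₂ t (ang n j)) 0 = 0 := by simp [det3]
    rw [this] at hj1
    exact lt_irrefl _ hj1
  have hxp : 0 < ‖x‖⁻¹ := inv_pos.2 (norm_pos_iff.2 hx0)
  have hy : ‖nrm x‖ = 1 := norm_nrm hx0
  obtain ⟨φ, hφ, hxe⟩ := exists_cpt h hy
  have e1 : ∀ q : E, det3 v q (nrm x) = ‖x‖⁻¹ * det3 v q x := fun q => det3_smul3 _ _ _ _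
  have e2 : ∀ q : E, det3 v (nrm x) q = ‖x‖⁻¹ * det3 v x q := fun q => det3_smul2 _ _ _ _
  have j1 := mul_pos hxp hj1
  have j2 := mul_pos hxp hj2
  have k1 := mul_pos hxp hk1
  have k2 := mul_pos hxp hk2
  rw [← e1] at j1 k1
  rw [← e2] at j2 k2
  have hs : |⟪v, nrm x⟫| < 1 := by
    refine ksec_abs h (t := t) (φ := ang n j) (θ := φ) (ksec_inner h hy) ?_
    rw [← hxe]
    exact j1.ne'
  set s := ⟪v, nrm x⟫ with hsd
  rw [hxe] at j1 j2 k1 k2
  have g1 := (sector_iff h ht hn hs hφ hj).1 ⟨j1, j2⟩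
  have g2 := (sector_iff h ht hn hs hφ hk).1 ⟨k1, k2⟩
  rcases lt_trichotomy j k with hlt | heq | hlt
  · have := ksec_mono hn (show j + 1 ≤ k from hlt)
    exfalso
    linarith [g1.2, g2.1]
  · exact heq
  · have := ksec_mono hn (show k + 1 ≤ j from hlt)
    exfalso
    linarith [g1.1, g2.2]

theorem det3_cpt_cpt {v e₁ e₂ : E} (h : Frm v e₁ e₂) {t s : ℝ} (ht : |t| ≤ 1) (φ a θ : ℝ) :
    det3 (cpt v e₁ e₂ s θ) (cpt v e₁ e₂ t φ) (cpt v e₁ e₂ t (φ + 2 * a)) =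
      2 * √(1 - t ^ 2) * Real.sin a *
        (√(1 - t ^ 2) * Real.cos a * s - t * √(1 - s ^ 2) * Real.cos (θ - (φ + a))) := by
  obtain ⟨μ, hμ⟩ : ∃ μ, μ = φ + a := ⟨_, rfl⟩
  have e1 : φ = μ - a := by rw [hμ]; ring
  have e2 : φ + 2 * a = μ + a := by rw [hμ]; ring
  have e3 : φ + a = μ := hμ.symm
  rw [e2, e3, e1]
  rw [frm_det3_eq h]
  simp only [inner_v_cpt h, inner_e1_cpt h, inner_e2_cpt h]
  rw [Real.cos_sub θ μ, Real.sin_sub, Real.cos_sub, Real.sin_add, Real.cos_add]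
  have hsc := Real.sin_sq_add_cos_sq μ
  linear_combination (2 * s * √(1 - t ^ 2) ^ 2 * Real.sin a * Real.cos a) * hsc

end CGA.K
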