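import Pool.Agent.CGA.KMass

/-! # PROJECT CGA, module KTV: total variation of cones and caps

PROOF.  `TV_coneF_le`: `arr_mod` with `u = 0` (`af_const 0`), `δ = 1`, gives `z` with `mass z = TV 0`.  For `y = 0`, `y' = s`, `S = {(x, s)}` the
conclusion is `TV (0 + coneF x s) ≤ mass z + mass s`, and `mass z = TV M (fun _ => 0) = 0`: by `TV_zero` below.
`TV_zero`: `TV_neg`, or `TV_eq` with `u` generically `0` on `N`: the jumps vanish by `exists_sides`.
`TV_capF_le`: the darts of `cyc ngon` are `(q_j, q_{j+1})`; the multiset is balanced (`cyc_fst`, `cyc_snd`), unit (`norm_cpt`);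
`det3 v q_j q_{j+1} > 0` (`det3_v_ngon_pos`); `mass_coe`.
`capF_evt`: `tendsto_ngon`. -/

set_option linter.all false

namespace CGA.K

open scoped RealInnerProductSpace Real Topology
open MeasureTheory Set Filter

/-- a generically vanishing function has total variation `0` -/
theorem TV_zero (M : Met) {u : E → ℤ} (hu : AF u) (h : ∃ N, IsArr N ∧ ∀ x, Gen N x → u x = 0) :
    TV M u = 0 := by
  classical
  obtain ⟨N₁, hN₁, hu₁⟩ := hu
  obtain ⟨N, hN, hz⟩ := h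
  have hN' : IsArr (N₁ ∪ N) := arr_union hN₁ hN
  have hu' : Fn (N₁ ∪ N) u := fn_mono Finset.subset_union_left hu₁
  rw [TV_eq M hN' hu']
  unfold TVN
  refine finsum_mem_eq_zero_of_forall_eq_zero fun e he => ?_
  obtain ⟨p, q, hp, hq, hs⟩ := exists_sides hN' he
  obtain ⟨h1, h2⟩ := hs u hu'
  have hp0 : u p = 0 := hz p fun n hn => hp n (Finset.mem_union_right _ hn)
  have hq0 : u q = 0 := hz q fun n hn => hq n (Finset.mem_union_right _ hn)
  unfold Jmp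
  rw [h1, h2, hp0, hq0]
  simp

theorem TV_coneF_le (M : Met) {x : E} (hx : ‖x‖ = 1) {s : Multiset (E × E)}
    (hbal : s.map Prod.fst = s.map Prod.snd)
    (hs : ∀ e ∈ s, ‖e.1‖ = 1 ∧ ‖e.2‖ = 1 ∧
      (det3 x e.1 e.2 ≠ 0 ∨ ∃ w, 0 < ⟪w, x⟫ ∧ 0 < ⟪w, e.1⟫ ∧ 0 < ⟪w, e.2⟫)) :
    TV M (coneF x s) ≤ mass M s := by
  have h0 : AF fun _ : E => (0 : ℤ) := af_const 0
  obtain ⟨z, -, -, hz, hmod⟩ := arr_mod M h0 one_pos
  have hz0 : mass M z = 0 := by
    rw [hz]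
    refine TV_zero M h0 ?_
    obtain ⟨N, hN, -⟩ := h0
    exact ⟨N, hN, fun _ _ => rfl⟩
  have h1 := hmod 0 (Multiset.zero_le _) s {(x, s)} ?_ ?_
  · have h2 : (fun x' : E => (0 : ℤ) +
        (({(x, s)} : Multiset (E × Multiset (E × E))).map fun p => coneF p.1 p.2 x').sum) =
        coneF x s := by
      funext x'
      simp
    have h3 : mass M (0 : Multiset (E × E)) = 0 := by simp [mass]
    rw [h2, hz0, h3] at h1
    linarith
  · intro p hp
    rw [Multiset.mem_singleton.1 hp]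
    exact ⟨hx, hbal, hs⟩
  · simp

theorem af_capF (v e₁ e₂ : E) (t : ℝ) (n : ℕ) : AF (capF v e₁ e₂ t n) := af_coneF _ _

private theorem KTV_succ (v e₁ e₂ : E) (t : ℝ) {n : ℕ} [NeZero n] (i : Fin n) :
    cpt v e₁ e₂ t (2 * π * (((i + 1 : Fin n) : ℕ) : ℝ) / n) = cpt v e₁ e₂ t (ang n (i + 1)) := by
  unfold ang
  have hn : (0 : ℝ) < n := by exact_mod_cast (NeZero.pos n)
  by_cases h : i.1 + 1 < n
  · have h1 : ((i + 1 : Fin n) : ℕ) = i.1 + 1 := by
      rw [Fin.val_add, Fin.val_one']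
      rw [Nat.add_mod, Nat.mod_mod, ← Nat.add_mod, Nat.mod_eq_of_lt h]
    rw [h1]
  · have h2 : i.1 + 1 = n := by have := i.2; omega
    have h1 : ((i + 1 : Fin n) : ℕ) = 0 := by
      rw [Fin.val_add, Fin.val_one']
      rw [Nat.add_mod, Nat.mod_mod, ← Nat.add_mod, h2, Nat.mod_self]
    rw [h1, h2]
    have h4 : 2 * π * (n : ℝ) / n = 2 * π * ((0 : ℕ) : ℝ) / n + 2 * π := by
      field_simp
      simp
    rw [h4, cpt_add_two_pi]

theorem TV_capF_le (M : Met) {v e₁ e₂ : E} (h : Frm v e₁ e₂) {t : ℝ} (ht : |t| < 1) {n : ℕ}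
    (hn : 3 ≤ n) : TV M (capF v e₁ e₂ t n) ≤ llen M (cyc (ngon v e₁ e₂ t n)) := by
  haveI : NeZero n := ⟨by omega⟩
  rw [← mass_coe]
  refine TV_coneF_le M h.v1 (by rw [cyc_fst, cyc_snd]) ?_
  intro e he
  unfold ngon at he
  rw [cyc_ofFn, Multiset.mem_coe, List.mem_ofFn] at he
  obtain ⟨i, rfl⟩ := he
  simp only [KTV_succ]
  have hpos := det3_v_ngon_pos h ht hn i
  have hp1 : cpt v e₁ e₂ t (2 * π * ((i : ℕ) : ℝ) / n) = cpt v e₁ e₂ t (ang n i) := rfl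
  rw [hp1]
  exact ⟨norm_cpt h ht.le _, norm_cpt h ht.le _, Or.inl hpos.ne'⟩

theorem capF_evt (M : Met) {v e₁ e₂ : E} (h : Frm v e₁ e₂) {t : ℝ} (ht : |t| < 1) {c : ℝ}
    (hc : clen M v e₁ e₂ t < c) :
    ∀ᶠ n : ℕ in atTop, TV M (capF v e₁ e₂ t n) < c ∧ llen M (cyc (ngon v e₁ e₂ t n)) < c := by
  filter_upwards [(tendsto_ngon M h ht).eventually (gt_mem_nhds hc), eventually_ge_atTop 3]
    with n h1 h2
  exact ⟨(TV_capF_le M h ht h2).trans_lt h1, h1⟩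

end CGA.K
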