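import Pool.Agent.CGA.SolB
import Pool.Agent.CGA.Corn

/-! PROJECT CGA, chunk C2, module KapA: a closed chain of minimising geodesics without corners.

From the triangle inequality `2ℓ/J ≤ dist'(p_j, p_{j+2}) ≤ dist'(p_j,p_{j+1}) + dist'(p_{j+1},p_{j+2}) ≤ 2ℓ/J`, so `dist'(p_j,p_{j+1}) = ℓ/J =: s > 0`.
Choose (`choose`, from `hmin`) functions `G, W : E → E → ℝ → E` with, for unit `x, y`: `Sol M 0 1 (G x y) (W x y)`, end points `x, y`, speed `dist' x y`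
(to use `choose` first state `∀ x y, ∃ γ w, ‖x‖ = 1 → ‖y‖ = 1 → ...`).  Put `γ_j = G (p j) (p (j+1))`, `w_j = W (p j) (p (j+1))`; by periodicity of `p`
`γ_{j+J} = γ_j`, `w_{j+J} = w_j`.  `noCorner` for `(γ_j, w_j)`, `(γ_{j+1}, w_{j+1})`: `w_j 1 = w_{j+1} 0`.  `glue_many`: `Γ, W` on `[0, J]` with
`Γ J = γ_J 0 = γ_0 0 = Γ 0`, `W J = w_J 0 = w_0 0 = W 0`, `‖W 0‖ = s f(Γ 0)`.  `hloop` with `T = J`: `ClosedGeo M (s J)`, `s J = ℓ`.
-/

set_option linter.all false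

namespace CGA

open scoped RealInnerProductSpace Real Topology
open MeasureTheory Set Filter

theorem closedGeo_of_nodes (M : Met) (hmin : MinGeo M) (hloop : LoopSol M) {J : ℕ} (hJ : 0 < J)
    {ℓ : ℝ} (hℓ : 0 < ℓ) (p : ℕ → E) (hp : ∀ j, ‖p j‖ = 1) (hper : ∀ j, p (j + J) = p j)
    (h1 : ∀ j, dist' M (p j) (p (j + 1)) ≤ ℓ / J)
    (h2 : ∀ j, 2 * (ℓ / J) ≤ dist' M (p j) (p (j + 2))) : ClosedGeo M ℓ := by
  have hJ' : (0:ℝ) < J := by exact_mod_cast hJ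
  have hs0 : 0 < ℓ / J := div_pos hℓ hJ'
  have hd : ∀ j, dist' M (p j) (p (j + 1)) = ℓ / J := by
    intro j
    have h3 := dist'_triangle M (hp j) (hp (j + 1)) (hp (j + 2))
    have h4 := h2 j
    have h5 := h1 j
    have h6 := h1 (j + 1)
    exact le_antisymm h5 (by linarith)
  have hch : ∀ x y : E, ∃ γ w : ℝ → E, ‖x‖ = 1 → ‖y‖ = 1 →
      (Sol M 0 1 γ w ∧ γ 0 = x ∧ γ 1 = y ∧
        ∀ t ∈ Icc (0:ℝ) 1, ‖w t‖ = dist' M x y * M.f (γ t)) := by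
    intro x y
    by_cases hxy : ‖x‖ = 1 ∧ ‖y‖ = 1
    · obtain ⟨γ, w, h⟩ := hmin x y hxy.1 hxy.2
      exact ⟨γ, w, fun _ _ => h⟩
    · exact ⟨fun _ => 0, fun _ => 0, fun hx hy => absurd ⟨hx, hy⟩ hxy⟩
  choose G W hGW using hch
  have key := fun j => hGW (p j) (p (j + 1)) (hp j) (hp (j + 1))
  have hγ : ∀ j, G (p j) (p (j + 1)) 1 = G (p (j + 1)) (p (j + 1 + 1)) 0 := by
    intro j
    rw [(key j).2.2.1, (key (j + 1)).2.1]
  have hsp : ∀ j, ∀ t ∈ Icc (0:ℝ) 1,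
      ‖W (p j) (p (j + 1)) t‖ = ℓ / J * M.f (G (p j) (p (j + 1)) t) := by
    intro j t ht
    rw [(key j).2.2.2 t ht, hd j]
  have hw : ∀ j, W (p j) (p (j + 1)) 1 = W (p (j + 1)) (p (j + 1 + 1)) 0 := by
    intro j
    refine noCorner M hs0 (key j).1 (key (j + 1)).1 (hsp j) (hsp (j + 1)) (hγ j) ?_
    rw [(key j).2.1, (key (j + 1)).2.2.1]
    exact h2 j
  obtain ⟨Γ, Ω, hS, e1, e2, e3, e4⟩ := glue_many M (fun j => G (p j) (p (j + 1)))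
    (fun j => W (p j) (p (j + 1))) (fun j => (key j).1) hγ hw J
  have hp0 : p J = p 0 := by
    have h := hper 0
    rwa [zero_add] at h
  have hp1 : p (J + 1) = p 1 := by
    have h := hper 1
    rwa [add_comm 1 J] at h
  simp only [hp0, hp1] at e3 e4
  have h7 := hloop J (ℓ / J) Γ Ω hJ' hs0 hS (e3.trans e1.symm) (e4.trans e2.symm) (by
    rw [e1, e2]
    exact hsp 0 0 ⟨le_rfl, zero_le_one⟩)
  rwa [div_mul_cancel₀ _ hJ'.ne'] at h7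

end CGA
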