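import Pool.Agent.CGA.LDef

/-! # CGA, L / LAn: the angle substitution

Let `|β| < 1`, `D φ = 1 + β cos φ > 0`, `s = √(1 - β²) > 0`.  Put `ψ φ = ∫_0^φ s / D`; so `ψ' = s / D > 0`.
Put `Z φ = (cos φ + β + i s sin φ) / D φ`; then `Z 0 = 1`, `|Z| = 1` (`(cos φ + β)² + s² sin² φ = D²`) and
`Z' = i ψ' Z`: indeed `((cos φ + β)/D)' = (- sin φ (1 + β cos φ) + (cos φ + β) β sin φ)/D² = - s² sin φ/D²
= - (s/D) (s sin φ/D)` and `(s sin φ/D)' = s (cos φ + β)/D²`.
So `Z e^{-iψ}` is constant `= 1`, i.e. `cos ψ = (cos φ + β)/D`, `sin ψ = s sin φ/D` (`exists_angle`); at `φ = 2π`: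
`cos ψ(2π) = 1`, so `ψ(2π) = 2 π k`, with `k ≥ 1` since `ψ(2π) > ψ(0) = 0`.

`angle_subst`: `H φ = h (ψ φ) ψ' φ` for all `φ` by the hypothesis `hH`, so
`∫_0^{2π} H = ∫_{ψ 0}^{ψ(2π)} h = ∫_0^{2πk} h ≥ ∫_0^{2π} h` (`h ≥ 0`), by
`intervalIntegral.integral_comp_mul_deriv`. (Periodicity of `h` is not needed.) -/

set_option linter.all false

namespace CGA.PU

open scoped RealInnerProductSpace Real Topology
open MeasureTheory Set Filter CGA

theorem D_pos {β : ℝ} (hβ : |β| < 1) (φ : ℝ) : 0 < 1 + β * Real.cos φ := by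
  have h1 : |β * Real.cos φ| < 1 := by
    rw [abs_mul]
    have h2 := Real.abs_cos_le_one φ
    have h3 := abs_nonneg β
    have h4 := abs_nonneg (Real.cos φ)
    nlinarith
  have := neg_abs_le (β * Real.cos φ)
  linarith

theorem exists_angle {β : ℝ} (hβ : |β| < 1) : ∃ ψ : ℝ → ℝ,
    (∀ φ, HasDerivAt ψ (√(1 - β ^ 2) / (1 + β * Real.cos φ)) φ) ∧ ψ 0 = 0 ∧
    (∃ k : ℕ, 1 ≤ k ∧ ψ (2 * π) = 2 * π * k) ∧ ∀ φ, Ang β φ (ψ φ) := by
  have hβ2 : 0 < 1 - β ^ 2 := by
    have := abs_lt.1 hβ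
    nlinarith
  set S := √(1 - β ^ 2) with hS
  have hSpos : 0 < S := Real.sqrt_pos.2 hβ2
  have hS2 : S ^ 2 = 1 - β ^ 2 := Real.sq_sqrt hβ2.le
  have hD := D_pos hβ
  set g : ℝ → ℝ := fun φ => S / (1 + β * Real.cos φ) with hg
  have hgc : Continuous g := by
    refine continuous_const.div (by fun_prop) fun φ => (hD φ).ne'
  set ψ : ℝ → ℝ := fun φ => ∫ x in (0:ℝ)..φ, g x with hψ
  have hder : ∀ φ, HasDerivAt ψ (g φ) φ := fun φ =>
    intervalIntegral.integral_hasDerivAt_right (hgc.intervalIntegrable _ _)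
      (hgc.stronglyMeasurableAtFilter _ _) hgc.continuousAt
  set c : ℝ → ℝ := fun φ => (Real.cos φ + β) / (1 + β * Real.cos φ) with hc
  set s : ℝ → ℝ := fun φ => S * Real.sin φ / (1 + β * Real.cos φ) with hs
  have hdD : ∀ φ, HasDerivAt (fun φ => 1 + β * Real.cos φ) (-(β * Real.sin φ)) φ := by
    intro φ
    have := ((Real.hasDerivAt_cos φ).const_mul β).const_add 1
    simpa using this
  have hdc : ∀ φ, HasDerivAt c (-(g φ * s φ)) φ := by
    intro φ
    have h1 := ((Real.hasDerivAt_cos φ).add_const β).div (hdD φ) (hD φ).ne'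
    refine h1.congr_deriv ?_
    simp only [hg, hs]
    have := (hD φ).ne'
    field_simp
    linear_combination (Real.sin φ) * hS2
  have hds : ∀ φ, HasDerivAt s (g φ * c φ) φ := by
    intro φ
    have h1 := ((Real.hasDerivAt_sin φ).const_mul S).div (hdD φ) (hD φ).ne'
    refine h1.congr_deriv ?_
    simp only [hg, hc]
    rw [div_mul_div_comm, ← pow_two]
    congr 1
    linear_combination (S * β) * (Real.sin_sq_add_cos_sq φ)
  have hU : ∀ φ, HasDerivAt (fun φ => c φ * Real.cos (ψ φ) + s φ * Real.sin (ψ φ)) 0 φ := by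
    intro φ
    have h1 := ((hdc φ).mul (hder φ).cos).add ((hds φ).mul (hder φ).sin)
    refine h1.congr_deriv ?_
    ring
  have hV : ∀ φ, HasDerivAt (fun φ => s φ * Real.cos (ψ φ) - c φ * Real.sin (ψ φ)) 0 φ := by
    intro φ
    have h1 := ((hds φ).mul (hder φ).cos).sub ((hdc φ).mul (hder φ).sin)
    refine h1.congr_deriv ?_
    ring
  have h00 : ψ 0 = 0 := by simp [hψ]
  have hUc : ∀ φ, c φ * Real.cos (ψ φ) + s φ * Real.sin (ψ φ) = 1 := by
    intro φ
    have := is_const_of_deriv_eq_zero (fun x => (hU x).differentiableAt) (fun x => (hU x).deriv) φ 0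
    simp only [h00] at this
    rw [this]
    have h1 := (hD 0).ne'
    rw [Real.cos_zero, mul_one] at h1
    simp only [hc, hs, Real.cos_zero, Real.sin_zero, mul_one, mul_zero, zero_div, add_zero]
    rw [div_eq_one_iff_eq h1]
  have hVc : ∀ φ, s φ * Real.cos (ψ φ) - c φ * Real.sin (ψ φ) = 0 := by
    intro φ
    have := is_const_of_deriv_eq_zero (fun x => (hV x).differentiableAt) (fun x => (hV x).deriv) φ 0
    simp only [h00] at this
    rw [this]
    simp [hs]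
  have hAng : ∀ φ, Ang β φ (ψ φ) := by
    intro φ
    have h1 := hUc φ
    have h2 := hVc φ
    have h3 := Real.sin_sq_add_cos_sq (ψ φ)
    have h4 : Real.cos (ψ φ) = c φ := by
      linear_combination (-Real.cos (ψ φ)) * h1 + Real.sin (ψ φ) * h2 + c φ * h3
    have h5 : Real.sin (ψ φ) = s φ := by
      linear_combination (-Real.sin (ψ φ)) * h1 - Real.cos (ψ φ) * h2 + s φ * h3
    exact ⟨h4, h5⟩
  refine ⟨ψ, hder, h00, ?_, hAng⟩
  have hpos : 0 < ψ (2 * π) := by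
    refine intervalIntegral.intervalIntegral_pos_of_pos (hgc.intervalIntegrable _ _)
      (fun x => div_pos hSpos (hD x)) (by positivity)
  have h1 : Real.cos (ψ (2 * π)) = 1 := by
    rw [(hAng (2 * π)).1, Real.cos_two_pi]
    have h2 := hD 0
    rw [Real.cos_zero] at h2
    rw [div_eq_one_iff_eq h2.ne']
    ring
  obtain ⟨n, hn⟩ := (Real.cos_eq_one_iff _).1 h1
  have hn0 : 0 < n := by
    by_contra hneg
    have h3 : (n : ℝ) ≤ 0 := by exact_mod_cast not_lt.1 hneg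
    have h4 : (n : ℝ) * (2 * π) ≤ 0 := mul_nonpos_of_nonpos_of_nonneg h3 (by positivity)
    linarith
  refine ⟨n.toNat, by omega, ?_⟩
  rw [← hn]
  have h5 : ((n.toNat : ℕ) : ℝ) = (n : ℝ) := by
    have : ((n.toNat : ℕ) : ℤ) = n := Int.toNat_of_nonneg hn0.le
    exact_mod_cast this
  rw [h5]
  ring

theorem angle_subst {β : ℝ} (hβ : |β| < 1) {h H : ℝ → ℝ} (hc : Continuous h) (h0 : ∀ x, 0 ≤ h x)
    (hH : ∀ φ ψ, Ang β φ ψ → H φ = h ψ * (√(1 - β ^ 2) / (1 + β * Real.cos φ))) :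
    ∫ x in (0:ℝ)..(2 * π), h x ≤ ∫ x in (0:ℝ)..(2 * π), H x := by
  obtain ⟨ψ, hder, h00, ⟨k, hk, hψk⟩, hAng⟩ := exists_angle hβ
  have e : H = fun φ => (h ∘ ψ) φ * (√(1 - β ^ 2) / (1 + β * Real.cos φ)) := by
    ext φ
    exact hH φ (ψ φ) (hAng φ)
  have hgc : Continuous fun φ => √(1 - β ^ 2) / (1 + β * Real.cos φ) := by
    refine continuous_const.div (by fun_prop) fun φ => (D_pos hβ φ).ne'
  rw [e, intervalIntegral.integral_comp_mul_deriv (fun x _ => hder x) hgc.continuousOn hc, h00, hψk]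
  have hk' : (1 : ℝ) ≤ k := by exact_mod_cast hk
  refine intervalIntegral.integral_mono_interval le_rfl (by positivity) ?_ ?_
    (hc.intervalIntegrable _ _)
  · have := Real.pi_pos
    nlinarith
  · exact Eventually.of_forall fun x => h0 x

end CGA.PU
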