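import Pool.Agent.CGA.LDef

/-! # CGA, L / LPo: polar coordinates for homogeneous functions

`G` homogeneous of degree `0`, `N` homogeneous of degree `1`, `N > 0` off `0`:
`3 ∫_{x ≠ 0, N x < 1} G = ∫_{S²} G(θ) N(θ)^{-3} dσ(θ)`. -/

set_option linter.all false

namespace CGA.PU

open scoped RealInnerProductSpace Real Topology
open MeasureTheory Set Filter CGA

theorem dimE : Module.finrank ℝ E = 3 := by
  simp [E]

theorem polar {G : E → ENNReal} (hG : Measurable G) (hG1 : ∀ (t : ℝ) (x : E), 0 < t → G (t • x) = G x)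
    {N : E → ℝ} (hN : Measurable N) (hN1 : ∀ (t : ℝ) (x : E), 0 < t → N (t • x) = t * N x)
    (hN2 : ∀ x : E, x ≠ 0 → 0 < N x) :
    3 * ∫⁻ x in {x : E | x ≠ 0 ∧ N x < 1}, G x =
      ∫⁻ θ : Metric.sphere (0 : E) 1, G θ * ENNReal.ofReal ((N θ)⁻¹ ^ 3) ∂σ := by
  have hs : MeasurableSet {x : E | x ≠ 0 ∧ N x < 1} := by
    refine MeasurableSet.inter (measurableSet_singleton (0:E)).compl ?_
    exact measurableSet_lt hN measurable_const
  set H : E → ENNReal := indicator {x : E | x ≠ 0 ∧ N x < 1} G with hH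
  have hHm : Measurable H := hG.indicator hs
  have h1 : ∫⁻ x in {x : E | x ≠ 0 ∧ N x < 1}, G x = ∫⁻ x, H x := (lintegral_indicator hs G).symm
  have h2 : ∫⁻ x, H x = ∫⁻ x : ({0}ᶜ : Set E), H x ∂(Measure.comap (↑) (volume : Measure E)) := by
    rw [lintegral_subtype_comap (measurableSet_singleton (0:E)).compl, ← lintegral_indicator
      (measurableSet_singleton (0:E)).compl]
    congr 1
    ext x
    by_cases hx : x = 0
    · simp [hx, hH]
    · rw [indicator_of_mem (by simpa using hx)]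
  have mp := Measure.measurePreserving_homeomorphUnitSphereProd (volume : Measure E)
  have h3 : ∫⁻ x : ({0}ᶜ : Set E), H x ∂(Measure.comap (↑) (volume : Measure E)) =
      ∫⁻ b : Metric.sphere (0 : E) 1 × Ioi (0:ℝ), H (b.2.1 • b.1.1)
        ∂(σ.prod (Measure.volumeIoiPow (Module.finrank ℝ E - 1))) := by
    rw [← mp.lintegral_comp_emb (Homeomorph.measurableEmbedding _)]
    refine lintegral_congr fun a => ?_
    congr 1
    rw [homeomorphUnitSphereProd_apply_snd_coe, homeomorphUnitSphereProd_apply_fst_coe, smul_smul,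
      mul_inv_cancel₀ (norm_ne_zero_iff.2 a.2), one_smul]
  have hm : Measurable fun b : Metric.sphere (0 : E) 1 × Ioi (0:ℝ) => H (b.2.1 • b.1.1) := by
    refine hHm.comp ?_
    exact ((continuous_subtype_val.comp continuous_snd).smul
      (continuous_subtype_val.comp continuous_fst)).measurable
  rw [h1, h2, h3, lintegral_prod _ hm.aemeasurable, dimE, ← lintegral_const_mul]
  · refine lintegral_congr fun θ => ?_
    have hθ : (θ : E) ≠ 0 := by
      intro h
      have := θ.2
      rw [h] at this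
      simp at this
    have hNθ := hN2 _ hθ
    have e : ∀ r : Ioi (0:ℝ), H (r.1 • (θ : E)) =
        indicator (Iio (⟨(N θ)⁻¹, inv_pos.2 hNθ⟩ : Ioi (0:ℝ))) (fun _ => G θ) r := by
      intro r
      have hr : (0:ℝ) < r.1 := r.2
      have hmem : (r.1 • (θ : E)) ∈ {x : E | x ≠ 0 ∧ N x < 1} ↔
          r ∈ Iio (⟨(N θ)⁻¹, inv_pos.2 hNθ⟩ : Ioi (0:ℝ)) := by
        rw [mem_setOf_eq, hN1 _ _ hr, mem_Iio, ← Subtype.coe_lt_coe]
        constructor
        · rintro ⟨_, h⟩
          rw [lt_inv_comm₀ hr hNθ, ← one_div, lt_div_iff₀ hr]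
          linarith [mul_comm (N θ) r.1]
        · intro h
          refine ⟨smul_ne_zero hr.ne' hθ, ?_⟩
          rw [lt_inv_comm₀ hr hNθ, ← one_div, lt_div_iff₀ hr] at h
          linarith [mul_comm (N θ) r.1]
      rw [hH]
      by_cases hc : (r.1 • (θ : E)) ∈ {x : E | x ≠ 0 ∧ N x < 1}
      · rw [indicator_of_mem hc, indicator_of_mem (hmem.1 hc), hG1 _ _ hr]
      · rw [indicator_of_notMem hc, indicator_of_notMem (fun h => hc (hmem.2 h))]
    simp only [e]
    rw [lintegral_indicator measurableSet_Iio, setLIntegral_const, Measure.volumeIoiPow_apply_Iio]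
    have h4 : (3 : ENNReal) * (G θ * ENNReal.ofReal ((N θ)⁻¹ ^ (3 - 1 + 1) / ((3 - 1 : ℕ) + 1))) =
        G θ * (3 * ENNReal.ofReal ((N θ)⁻¹ ^ (3 - 1 + 1) / ((3 - 1 : ℕ) + 1))) := by
      ring
    rw [h4]
    congr 1
    have h5 : (3 : ENNReal) = ENNReal.ofReal 3 := by norm_num
    rw [h5, ← ENNReal.ofReal_mul (by norm_num)]
    congr 1
    norm_num
    ring
  · exact Measurable.lintegral_prod_right' hm

theorem polar_norm {G : E → ENNReal} (hG : Measurable G)
    (hG1 : ∀ (t : ℝ) (x : E), 0 < t → G (t • x) = G x) :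
    3 * ∫⁻ x in {x : E | x ≠ 0 ∧ ‖x‖ < 1}, G x = ∫⁻ θ : Metric.sphere (0 : E) 1, G θ ∂σ := by
  rw [polar hG hG1 measurable_norm (fun t x ht => by rw [norm_smul, Real.norm_of_nonneg ht.le])
    (fun x hx => norm_pos_iff.2 hx)]
  refine lintegral_congr fun θ => ?_
  rw [norm_eq_of_mem_sphere θ]
  simp

/-- the measure of the sphere -/
theorem sigma_univ : σ.real univ = 4 * π := by
  rw [Measure.toSphere_real_apply_univ, dimE, Measure.real, EuclideanSpace.volume_ball_fin_three]
  have h : (ENNReal.ofReal (π * 4 / 3)).toReal = π * 4 / 3 :=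
    ENNReal.toReal_ofReal (by positivity)
  simp
  rw [h]
  ring

end CGA.PU
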