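import Pool.Agent.CGA.LDe
import Pool.Agent.CGA.LPo

/-! # CGA, L / LCv: conformal invariance of the area and rotation invariance of the measure -/

set_option linter.all false

namespace CGA.PU

open scoped RealInnerProductSpace Real Topology
open MeasureTheory Set Filter CGA

theorem measurable_f (M : Met) : Measurable M.f :=
  measurable_of_continuousOn_compl_singleton 0 (f_cont M)

theorem sph_ne (θ : Metric.sphere (0 : E) 1) : (θ : E) ≠ 0 := by
  intro h
  have := θ.2
  rw [h] at this
  simp at this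

theorem sph_cont {G : E → ℝ} (hG : ContinuousOn G (Metric.sphere 0 1)) :
    Continuous fun θ : Metric.sphere (0 : E) 1 => G θ :=
  hG.comp_continuous continuous_subtype_val fun θ => θ.2

theorem conf_inv (M : Met) {p : E} (hp : ‖p‖ < 1) :
    ∫ θ : Metric.sphere (0 : E) 1, Gw M p θ ^ 2 ∂σ = Area M := by
  have hsub : Metric.sphere (0 : E) 1 ⊆ {0}ᶜ := fun x hx => by
    rintro rfl
    simp at hx
  have c1 : Continuous fun θ : Metric.sphere (0 : E) 1 => Gw M p θ ^ 2 :=
    (sph_cont ((Gw_cont M hp).mono hsub)).pow 2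
  have c2 : Continuous fun θ : Metric.sphere (0 : E) 1 => M.f θ ^ 2 :=
    (sph_cont ((f_cont M).mono hsub)).pow 2
  unfold Area
  rw [integral_eq_lintegral_of_nonneg_ae (Eventually.of_forall fun θ => by positivity)
    c1.aestronglyMeasurable, integral_eq_lintegral_of_nonneg_ae
    (Eventually.of_forall fun θ => by positivity) c2.aestronglyMeasurable]
  congr 1
  have hBm : Measurable (Bo p) := (continuous_Bo p).measurable
  have m2 : Measurable fun y : E => ENNReal.ofReal (M.f y ^ 2) :=
    ENNReal.measurable_ofReal.comp ((measurable_f M).pow_const 2)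
  have m1 : Measurable fun x : E => ENNReal.ofReal (‖Bo p x‖ / ‖x‖) * ENNReal.ofReal (M.f (Bo p x) ^ 2) := by
    refine Measurable.mul ?_ (m2.comp hBm)
    exact ENNReal.measurable_ofReal.comp (hBm.norm.div measurable_norm)
  have h1 := lintegral_Bo hp (fun y => ENNReal.ofReal (M.f y ^ 2))
  have h2 := polar_norm m2 (fun t x ht => by rw [M.hom t x ht])
  have h3 := polar m1 (fun t x ht => by
    rw [Bo_smul p x ht.le, M.hom t _ ht, norm_smul, norm_smul, Real.norm_of_nonneg ht.le,
      mul_div_mul_left _ _ ht.ne']) (N := fun x => ‖Bo p x‖) hBm.norm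
    (fun t x ht => by rw [Bo_smul p x ht.le, norm_smul, Real.norm_of_nonneg ht.le])
    (fun x hx => norm_Bo_pos hp hx)
  rw [← h2, ← h1, h3]
  refine lintegral_congr fun θ => ?_
  have hpos := norm_Bo_pos hp (sph_ne θ)
  rw [norm_eq_of_mem_sphere θ, div_one, ← ENNReal.ofReal_mul (norm_nonneg _),
    ← ENNReal.ofReal_mul (by positivity)]
  congr 1
  unfold Gw
  field_simp

theorem rot_inv (R : E ≃ₗᵢ[ℝ] E) {G : E → ℝ} (hG : ContinuousOn G (Metric.sphere 0 1))
    (hG0 : ∀ x ∈ Metric.sphere (0 : E) 1, 0 ≤ G x) :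
    ∫ θ : Metric.sphere (0 : E) 1, G (R θ) ∂σ = ∫ θ : Metric.sphere (0 : E) 1, G θ ∂σ := by
  have hR : ∀ x ∈ Metric.sphere (0 : E) 1, R x ∈ Metric.sphere (0 : E) 1 := fun x hx => by
    rw [mem_sphere_zero_iff_norm] at hx ⊢
    rw [R.norm_map, hx]
  have c1 : Continuous fun θ : Metric.sphere (0 : E) 1 => G (R θ) :=
    hG.comp_continuous (R.continuous.comp continuous_subtype_val) fun θ => hR _ θ.2
  have c2 := sph_cont hG
  rw [integral_eq_lintegral_of_nonneg_ae (Eventually.of_forall fun θ => hG0 _ (hR _ θ.2))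
    c1.aestronglyMeasurable, integral_eq_lintegral_of_nonneg_ae
    (Eventually.of_forall fun θ => hG0 _ θ.2) c2.aestronglyMeasurable]
  congr 1
  set K : E → ENNReal := fun x => ENNReal.ofReal (G (‖x‖⁻¹ • x)) with hK
  have hns : ∀ x : E, x ∈ ({0}ᶜ : Set E) → ‖x‖⁻¹ • x ∈ Metric.sphere (0 : E) 1 := fun x hx => by
    rw [mem_sphere_zero_iff_norm, norm_smul, norm_inv, norm_norm, inv_mul_cancel₀]
    exact norm_ne_zero_iff.2 hx
  have hKc : ContinuousOn (fun x : E => G (‖x‖⁻¹ • x)) {0}ᶜ := by
    refine hG.comp ?_ hns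
    have c0 : ContinuousOn (fun x : E => ‖x‖⁻¹) {0}ᶜ :=
      ContinuousOn.inv₀ (continuous_norm.continuousOn) fun x hx => norm_ne_zero_iff.2 hx
    exact c0.smul continuousOn_id
  have hKm : Measurable K :=
    ENNReal.measurable_ofReal.comp (measurable_of_continuousOn_compl_singleton 0 hKc)
  have hK1 : ∀ (t : ℝ) (x : E), 0 < t → K (t • x) = K x := by
    intro t x ht
    simp only [hK]
    rw [norm_smul, Real.norm_of_nonneg ht.le, smul_smul, mul_inv, mul_comm t⁻¹, mul_assoc,
      inv_mul_cancel₀ ht.ne', mul_one]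
  have hRm : Measurable (R : E → E) := R.continuous.measurable
  have hKR : Measurable fun x : E => K (R x) := hKm.comp hRm
  have h1 := polar_norm hKm hK1
  have h2 := polar_norm hKR (fun t x ht => by rw [map_smul, hK1 t _ ht])
  have e1 : ∀ θ : Metric.sphere (0 : E) 1, K θ = ENNReal.ofReal (G θ) := fun θ => by
    simp only [hK]
    rw [norm_eq_of_mem_sphere θ, inv_one, one_smul]
  have e2 : ∀ θ : Metric.sphere (0 : E) 1, K (R θ) = ENNReal.ofReal (G (R θ)) := fun θ => by
    simp only [hK]
    rw [R.norm_map, norm_eq_of_mem_sphere θ, inv_one, one_smul]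
  simp only [e1] at h1
  simp only [e2] at h2
  rw [← h1, ← h2]
  congr 1
  have hs : MeasurableSet {x : E | x ≠ 0 ∧ ‖x‖ < 1} := by
    refine MeasurableSet.inter (measurableSet_singleton (0:E)).compl ?_
    exact measurableSet_lt measurable_norm measurable_const
  have mp : MeasurePreserving R volume volume := R.measurePreserving
  have h3 := mp.setLIntegral_comp_preimage hs hKm
  rw [← h3]
  congr 2
  ext x
  simp

end CGA.PU
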