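import Pool.Agent.CGA.LHa
import Pool.Agent.CGA.LCv

/-! # CGA, L / LAv: the average over all great circles

Let `G` be continuous and nonnegative on the unit sphere.  Let `μ` be from `exists_haar`,
`A(x) = ∫ G (R⁻¹ x) dμ(R)`, a constant `c` on the unit sphere.
* Fubini: `∫_R ∫_{S²} G(R⁻¹ θ) dσ dμ = ∫_{S²} A dσ = 4 π c` and the inner integral on the left is `∫ G dσ` for all
  `R` (`rot_inv`), so `∫ G dσ = 4 π c`.
* For orthonormal `a, b` and all `R` the pair `R⁻¹ a, R⁻¹ b` is orthonormal, so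
  `ℓ ≤ ∫_0^{2π} G(R⁻¹(cos φ a + sin φ b)) dφ`; integrate over `R`, swap: `ℓ ≤ ∫_0^{2π} A(..) dφ = 2 π c`.
* hence `2 ℓ ≤ ∫ G dσ`. -/

set_option linter.all false

namespace CGA.PU

open scoped RealInnerProductSpace Real Topology
open MeasureTheory Set Filter CGA

/-- action on the sphere -/
noncomputable def act (R : OG) (θ : Metric.sphere (0 : E) 1) : Metric.sphere (0 : E) 1 :=
  ⟨(R : E →L[ℝ] E) θ, by
    rw [mem_sphere_zero_iff_norm, OG_norm]
    exact norm_eq_of_mem_sphere θ⟩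

theorem act_mul (R S : OG) (θ : Metric.sphere (0 : E) 1) : act (R * S) θ = act R (act S θ) := by
  apply Subtype.ext
  rfl

theorem act_cont : Continuous fun q : OG × Metric.sphere (0 : E) 1 => act q.1⁻¹ q.2 := by
  refine Continuous.subtype_mk ?_ _
  have h1 : Continuous fun q : OG × Metric.sphere (0 : E) 1 => ((q.1⁻¹ : OG) : E →L[ℝ] E) :=
    continuous_subtype_val.comp (continuous_inv.comp continuous_fst)
  exact h1.clm_apply (continuous_subtype_val.comp continuous_snd)

theorem act_contL (θ : Metric.sphere (0 : E) 1) : Continuous fun R : OG => act R⁻¹ θ := by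
  refine Continuous.subtype_mk ?_ _
  have h1 : Continuous fun R : OG => ((R⁻¹ : OG) : E →L[ℝ] E) :=
    continuous_subtype_val.comp continuous_inv
  exact h1.clm_apply continuous_const

/-- point of a great circle -/
noncomputable def gc {a b : E} (ha : ‖a‖ = 1) (hb : ‖b‖ = 1) (hab : ⟪a, b⟫ = 0) (φ : ℝ) :
    Metric.sphere (0 : E) 1 :=
  ⟨Real.cos φ • a + Real.sin φ • b, by
    rw [mem_sphere_zero_iff_norm, ← sq_eq_sq₀ (norm_nonneg _) zero_le_one, norm_add_sq_real,
      inner_smul_left, inner_smul_right, hab, norm_smul, norm_smul, ha, hb]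
    simp⟩

theorem gc_cont {a b : E} (ha : ‖a‖ = 1) (hb : ‖b‖ = 1) (hab : ⟪a, b⟫ = 0) :
    Continuous (gc ha hb hab) := by
  refine Continuous.subtype_mk ?_ _
  fun_prop

theorem act_contG {a b : E} (ha : ‖a‖ = 1) (hb : ‖b‖ = 1) (hab : ⟪a, b⟫ = 0) :
    Continuous fun q : OG × ℝ => act q.1⁻¹ (gc ha hb hab q.2) := by
  refine Continuous.subtype_mk ?_ _
  have h1 : Continuous fun q : OG × ℝ => ((q.1⁻¹ : OG) : E →L[ℝ] E) :=
    continuous_subtype_val.comp (continuous_inv.comp continuous_fst)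
  exact h1.clm_apply (continuous_subtype_val.comp ((gc_cont ha hb hab).comp continuous_snd))

theorem average {G : E → ℝ} (hG : ContinuousOn G (Metric.sphere 0 1))
    (hG0 : ∀ x ∈ Metric.sphere (0 : E) 1, 0 ≤ G x) {ℓ : ℝ}
    (h : ∀ a b : E, ‖a‖ = 1 → ‖b‖ = 1 → ⟪a, b⟫ = 0 →
      ℓ ≤ ∫ φ in (0:ℝ)..(2 * π), G (Real.cos φ • a + Real.sin φ • b)) :
    2 * ℓ ≤ ∫ θ : Metric.sphere (0 : E) 1, G θ ∂σ := by
  obtain ⟨m, hB, μ, hP, hinv⟩ := exists_haar
  have hg : Continuous fun θ : Metric.sphere (0 : E) 1 => G θ := sph_cont hG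
  set g : Metric.sphere (0 : E) 1 → ℝ := fun θ => G θ with hgdef
  have hF : Continuous fun q : OG × Metric.sphere (0 : E) 1 => g (act q.1⁻¹ q.2) :=
    hg.comp act_cont
  set A : Metric.sphere (0 : E) 1 → ℝ := fun θ => ∫ R : OG, g (act R⁻¹ θ) ∂μ with hA
  -- `A` is constant
  have hconst : ∀ θ₁ θ₂ : Metric.sphere (0 : E) 1, A θ₂ = A θ₁ := by
    intro θ₁ θ₂
    obtain ⟨S, hS⟩ := OG_trans (norm_eq_of_mem_sphere θ₁) (norm_eq_of_mem_sphere θ₂)
    have hS' : act S θ₁ = θ₂ := Subtype.ext hS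
    have hcc : Continuous fun R : OG => g (act R⁻¹ θ₁) :=
      hg.comp (act_contL θ₁)
    have h1 := hinv S⁻¹ (fun R => g (act R⁻¹ θ₁)) hcc
    have h2 : ∀ R : OG, g (act (S⁻¹ * R)⁻¹ θ₁) = g (act R⁻¹ θ₂) := by
      intro R
      rw [mul_inv_rev, inv_inv, act_mul, hS']
    simp only [h2] at h1
    exact h1
  set a0 : E := EuclideanSpace.single 0 1 with ha0
  set b0 : E := EuclideanSpace.single 1 1 with hb0
  have ha : ‖a0‖ = 1 := by simp [ha0]
  have hb : ‖b0‖ = 1 := by simp [hb0]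
  have hab : ⟪a0, b0⟫ = 0 := by simp [ha0, hb0, EuclideanSpace.inner_single_left]
  set c := A (gc ha hb hab 0) with hc
  have hAc : ∀ θ, A θ = c := fun θ => hconst _ θ
  obtain ⟨C, hC⟩ : ∃ C, ∀ θ, ‖g θ‖ ≤ C := by
    obtain ⟨C, hC⟩ := isCompact_univ.exists_bound_of_continuousOn hg.continuousOn
    exact ⟨C, fun θ => hC θ (mem_univ _)⟩
  -- the first swap
  have key1 : ∫ θ, G θ ∂σ = 4 * π * c := by
    have hint : Integrable (Function.uncurry fun (R : OG) (θ : Metric.sphere (0 : E) 1) =>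
        g (act R⁻¹ θ)) (μ.prod σ) :=
      Integrable.of_bound (hF.aestronglyMeasurable) C (Eventually.of_forall fun q => hC _)
    have h1 := integral_integral_swap hint
    have h2 : ∀ R : OG, ∫ θ, g (act R⁻¹ θ) ∂σ = ∫ θ, g θ ∂σ := by
      intro R
      obtain ⟨S, hS⟩ := OG_iso R⁻¹
      have := rot_inv S hG hG0
      simp only [hS] at this
      exact this
    simp only [h2] at h1
    rw [integral_const] at h1
    have h3 : ∀ θ : Metric.sphere (0 : E) 1, ∫ R : OG, g (act R⁻¹ θ) ∂μ = c := hAc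
    simp only [h3] at h1
    rw [integral_const, sigma_univ] at h1
    simpa using h1
  -- the second swap
  have key2 : ℓ ≤ 2 * π * c := by
    have hF2 : Continuous fun q : OG × ℝ => g (act q.1⁻¹ (gc ha hb hab q.2)) :=
      hg.comp (act_contG ha hb hab)
    have hint : Integrable (Function.uncurry fun (R : OG) (φ : ℝ) =>
        g (act R⁻¹ (gc ha hb hab φ))) (μ.prod (volume.restrict (Ioc 0 (2 * π)))) :=
      Integrable.of_bound (hF2.aestronglyMeasurable) C (Eventually.of_forall fun q => hC _)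
    have h1 := integral_integral_swap hint
    have h3 : ∀ φ : ℝ, ∫ R : OG, g (act R⁻¹ (gc ha hb hab φ)) ∂μ = c := fun φ => hAc _
    simp only [h3] at h1
    rw [integral_const] at h1
    have h4 : (volume.restrict (Ioc 0 (2 * π))).real univ = 2 * π := by
      rw [measureReal_restrict_apply_univ, Real.volume_real_Ioc_of_le (by positivity), sub_zero]
    rw [h4, smul_eq_mul] at h1
    rw [← h1]
    have h5 : ∀ R : OG, ℓ ≤ ∫ φ in Ioc 0 (2 * π), g (act R⁻¹ (gc ha hb hab φ)) := by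
      intro R
      have h6 := h (((R⁻¹ : OG) : E →L[ℝ] E) a0) (((R⁻¹ : OG) : E →L[ℝ] E) b0) (by rw [OG_norm, ha]) (by rw [OG_norm, hb])
        (by rw [OG_inner, hab])
      rw [intervalIntegral.integral_of_le (by positivity)] at h6
      refine h6.trans (le_of_eq ?_)
      congr 1
      ext φ
      simp only [hgdef]
      congr 1
      simp [act, gc]
    calc ℓ = ∫ R : OG, ℓ ∂μ := by simp
      _ ≤ _ := integral_mono (integrable_const _) hint.integral_prod_left h5
  rw [key1]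
  nlinarith
end CGA.PU
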