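import Pool.Agent.CGA.LDef

/-! # CGA, L / LBo: algebra of the boost

Put `γ = gam p`, `κ = γ²/(γ+1)`, `P = ‖p‖²`, `s = ⟪p,x⟫`, `r = ‖x‖`, `c = κ s + γ r`, so `Bo p x = x + c p`.
Since `γ² (1 - P) = 1` one has `γ² P = γ² - 1` and `κ P = γ - 1`, `κ (γ + 1) = γ²`.

* `norm_Bo`: `‖x + c p‖² = r² + 2 c s + c² P` and
  `c² P = κ (γ - 1) s² + 2 γ (γ - 1) s r + (γ² - 1) r²`, so the sum is `γ² (r + s)²`; and `r + s ≥ 0`
  because `|s| ≤ ‖p‖ r ≤ r`.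
* `Bo_Bo`: with `y = Bo p x`: `Bo (-p) y = y - (γ ‖y‖ - κ ⟪p,y⟫) p`, `‖y‖ = γ (r + s)`, `⟪p,y⟫ = s + c P`;
  the coefficient of `p` is `c + κ (s + c P) - γ² (r + s) = c (1 + κ P) + κ s - γ² (r + s)
  = c γ + κ s - γ² (r + s) = 0`. -/

set_option linter.all false

namespace CGA.PU

open scoped RealInnerProductSpace Real Topology
open MeasureTheory Set Filter CGA

theorem one_sub_pos' {p : E} (hp : ‖p‖ < 1) : 0 < 1 - ‖p‖ ^ 2 := by
  have := norm_nonneg p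
  nlinarith

theorem one_le_gam {p : E} (hp : ‖p‖ < 1) : 1 ≤ gam p := by
  have h := one_sub_pos' hp
  unfold gam
  rw [le_div_iff₀ (Real.sqrt_pos.2 h), one_mul]
  rw [Real.sqrt_le_one]
  nlinarith [sq_nonneg ‖p‖]

theorem gam_pos {p : E} (hp : ‖p‖ < 1) : 0 < gam p := lt_of_lt_of_le one_pos (one_le_gam hp)

theorem gam_sq {p : E} (hp : ‖p‖ < 1) : gam p ^ 2 * (1 - ‖p‖ ^ 2) = 1 := by
  have h := one_sub_pos' hp
  unfold gam
  rw [div_pow, Real.sq_sqrt h.le, one_pow, one_div_mul_cancel h.ne']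

theorem gam_neg (p : E) : gam (-p) = gam p := by
  simp [gam]

theorem gam_kap {p : E} (hp : ‖p‖ < 1) : gam p ^ 2 / (gam p + 1) * (gam p + 1) = gam p ^ 2 := by
  have := gam_pos hp
  field_simp

theorem gam_kapP {p : E} (hp : ‖p‖ < 1) : gam p ^ 2 / (gam p + 1) * ‖p‖ ^ 2 = gam p - 1 := by
  have := gam_pos hp
  have h1 := gam_sq hp
  field_simp
  linear_combination -h1

theorem Bo_zero (p : E) : Bo p 0 = 0 := by
  simp [Bo]

theorem Bo_smul (p x : E) {t : ℝ} (ht : 0 ≤ t) : Bo p (t • x) = t • Bo p x := by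
  simp only [Bo, inner_smul_right, norm_smul, Real.norm_of_nonneg ht, smul_add, smul_smul]
  congr 2
  ring

theorem abs_inner_lt {p : E} (hp : ‖p‖ < 1) {x : E} (hx : x ≠ 0) : |⟪p, x⟫| < ‖x‖ := by
  have h1 := abs_real_inner_le_norm p x
  have h2 : 0 < ‖x‖ := norm_pos_iff.2 hx
  nlinarith

theorem norm_add_inner_nonneg {p : E} (hp : ‖p‖ < 1) (x : E) : 0 ≤ ‖x‖ + ⟪p, x⟫ := by
  rcases eq_or_ne x 0 with h | h
  · simp [h]
  · have h1 := abs_inner_lt hp h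
    have h2 := neg_abs_le ⟪p, x⟫
    linarith

theorem norm_Bo {p : E} (hp : ‖p‖ < 1) (x : E) : ‖Bo p x‖ = gam p * (‖x‖ + ⟪p, x⟫) := by
  have hg := gam_pos hp
  have hs := gam_sq hp
  have hk := gam_kap hp
  have hkP := gam_kapP hp
  have hpos := norm_add_inner_nonneg hp x
  rw [← sq_eq_sq₀ (norm_nonneg _) (by positivity)]
  unfold Bo
  generalize gam p ^ 2 / (gam p + 1) = κ at *
  rw [norm_add_sq_real, inner_smul_right, norm_smul, real_inner_comm p x, mul_pow, Real.norm_eq_abs, sq_abs]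
  generalize ⟪p, x⟫ = s at *
  generalize gam p = g at *
  generalize ‖x‖ = r at *
  generalize ‖p‖ = P at *
  linear_combination (κ * s ^ 2 + 2 * g * s * r) * hkP + s ^ 2 * hk - r ^ 2 * hs

theorem norm_Bo_pos {p : E} (hp : ‖p‖ < 1) {x : E} (hx : x ≠ 0) : 0 < ‖Bo p x‖ := by
  rw [norm_Bo hp]
  have h1 := abs_inner_lt hp hx
  have h2 := neg_abs_le ⟪p, x⟫
  exact mul_pos (gam_pos hp) (by linarith)

theorem Bo_ne {p : E} (hp : ‖p‖ < 1) {x : E} (hx : x ≠ 0) : Bo p x ≠ 0 :=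
  norm_pos_iff.1 (norm_Bo_pos hp hx)

theorem Bo_neg_Bo {p : E} (hp : ‖p‖ < 1) (x : E) : Bo (-p) (Bo p x) = x := by
  have hk := gam_kap hp
  have hkP := gam_kapP hp
  have hn := norm_Bo hp x
  have h1 : ⟪p, Bo p x⟫ = ⟪p, x⟫ + (gam p ^ 2 / (gam p + 1) * ⟪p, x⟫ + gam p * ‖x‖) * ‖p‖ ^ 2 := by
    unfold Bo
    rw [inner_add_right, inner_smul_right, real_inner_self_eq_norm_sq]
  have h2 : Bo (-p) (Bo p x) = Bo p x +
      (gam p ^ 2 / (gam p + 1) * ⟪-p, Bo p x⟫ + gam p * ‖Bo p x‖) • (-p) := by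
    rw [Bo, gam_neg]
  rw [h2, inner_neg_left, h1, hn]
  have h3 : Bo p x = x + (gam p ^ 2 / (gam p + 1) * ⟪p, x⟫ + gam p * ‖x‖) • p := rfl
  rw [h3, smul_neg, ← neg_smul, add_assoc, ← add_smul]
  generalize gam p ^ 2 / (gam p + 1) = κ at *
  generalize ⟪p, x⟫ = s at *
  generalize gam p = g at *
  generalize ‖x‖ = r at *
  generalize ‖p‖ ^ 2 = P at *
  have h4 : κ * s + g * r + -(κ * -(s + (κ * s + g * r) * P) + g * (g * (r + s))) = 0 := by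
    linear_combination (κ * s + g * r) * hkP + s * hk
  rw [h4, zero_smul, add_zero]

theorem Bo_Bo_neg {p : E} (hp : ‖p‖ < 1) (x : E) : Bo p (Bo (-p) x) = x := by
  have hp' : ‖-p‖ < 1 := by rwa [norm_neg]
  have := Bo_neg_Bo hp' x
  rwa [neg_neg] at this

theorem continuous_Bo (p : E) : Continuous (Bo p) := by
  unfold Bo
  fun_prop

theorem Bo_injective {p : E} (hp : ‖p‖ < 1) : Function.Injective (Bo p) :=
  Function.LeftInverse.injective (Bo_neg_Bo hp)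

/-- the boost maps `{x ≠ 0, ‖Bo p x‖ < 1}` onto the punctured ball -/
theorem Bo_image {p : E} (hp : ‖p‖ < 1) :
    Bo p '' {x | x ≠ 0 ∧ ‖Bo p x‖ < 1} = {y | y ≠ 0 ∧ ‖y‖ < 1} := by
  have hp' : ‖-p‖ < 1 := by rwa [norm_neg]
  ext y
  constructor
  · rintro ⟨x, ⟨h1, h2⟩, rfl⟩
    exact ⟨Bo_ne hp h1, h2⟩
  · rintro ⟨h1, h2⟩
    refine ⟨Bo (-p) y, ⟨Bo_ne hp' h1, ?_⟩, Bo_Bo_neg hp y⟩
    rwa [Bo_Bo_neg hp]

theorem f_cont (M : Met) : ContinuousOn M.f {0}ᶜ := M.smooth.continuousOn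

/-- `Gw` is positive, continuous off `0`, homogeneous of degree `-1` -/
theorem Gw_pos (M : Met) {p : E} (hp : ‖p‖ < 1) {x : E} (hx : x ≠ 0) : 0 < Gw M p x :=
  div_pos (M.pos _ (Bo_ne hp hx)) (norm_Bo_pos hp hx)

theorem Gw_smul (M : Met) {p : E} (hp : ‖p‖ < 1) (x : E) {t : ℝ} (ht : 0 < t) :
    Gw M p (t • x) = t⁻¹ * Gw M p x := by
  unfold Gw
  rw [Bo_smul p x ht.le, M.hom t _ ht, norm_smul, Real.norm_of_nonneg ht.le]
  rw [div_eq_mul_inv, mul_inv, div_eq_mul_inv]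
  ring

theorem Gw_cont (M : Met) {p : E} (hp : ‖p‖ < 1) : ContinuousOn (Gw M p) {0}ᶜ := by
  unfold Gw
  refine ContinuousOn.div ?_ (continuous_Bo p).norm.continuousOn fun x hx => (norm_Bo_pos hp hx).ne'
  exact (f_cont M).comp (continuous_Bo p).continuousOn fun x hx => Bo_ne hp hx

end CGA.PU
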