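import Pool.Agent.CGA.LBo

/-! # CGA, L / LDe: derivative and determinant of the boost

* derivative: `Bo p x = x + (κ ⟪p,x⟫ + γ ‖x‖) p`; for `x ≠ 0` the derivative of the norm is `⟪x/‖x‖, ·⟫`.
* determinant: `dBo p x = 1 + a ⊗ p` with `a = κ p + (γ/‖x‖) x`, so `det = 1 + a(p) = 1 + κ ‖p‖² + γ ⟪x,p⟫/‖x‖
  = γ + γ ⟪p,x⟫/‖x‖ = ‖Bo p x‖ / ‖x‖` (`norm_Bo`; `κ ‖p‖² = γ - 1`). -/

set_option linter.all false

namespace CGA.PU

open scoped RealInnerProductSpace Real Topology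
open MeasureTheory Set Filter CGA

theorem hasFDerivAt_nrm {x : E} (hx : x ≠ 0) :
    HasFDerivAt (fun y : E => ‖y‖) ((1 / ‖x‖) • innerSL ℝ x) x := by
  have hx' : ‖x‖ ≠ 0 := norm_ne_zero_iff.2 hx
  have h1 : HasFDerivAt (fun y : E => ‖y‖ ^ 2) (2 • (innerSL ℝ x)) x :=
    (hasStrictFDerivAt_norm_sq x).hasFDerivAt
  have h2 := h1.sqrt (by positivity)
  have e : (fun y : E => √(‖y‖ ^ 2)) = fun y => ‖y‖ := by
    ext y
    exact Real.sqrt_sq (norm_nonneg _)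
  rw [e] at h2
  refine h2.congr_fderiv ?_
  rw [Real.sqrt_sq (norm_nonneg _), ← Nat.cast_smul_eq_nsmul ℝ, smul_smul]
  congr 1
  push_cast
  field_simp

theorem hasFDerivAt_Bo (p : E) {x : E} (hx : x ≠ 0) : HasFDerivAt (Bo p) (dBo p x) x := by
  have h1 := hasFDerivAt_nrm hx
  have h2 : HasFDerivAt (fun y : E => (⟪p, y⟫ : ℝ)) (innerSL ℝ p) x := (innerSL ℝ p).hasFDerivAt
  have h3 := ((h2.const_mul (gam p ^ 2 / (gam p + 1))).add (h1.const_mul (gam p))).smul_const p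
  have h4 := (hasFDerivAt_id x).add h3
  refine h4.congr_fderiv ?_
  unfold dBo
  rw [smul_smul, mul_one_div]

theorem det_dBo {p : E} (hp : ‖p‖ < 1) {x : E} (hx : x ≠ 0) : (dBo p x).det = ‖Bo p x‖ / ‖x‖ := by
  have hx' : ‖x‖ ≠ 0 := norm_ne_zero_iff.2 hx
  set a : E →L[ℝ] ℝ := (gam p ^ 2 / (gam p + 1)) • innerSL ℝ p + (gam p / ‖x‖) • innerSL ℝ x with ha
  have h1 : ((dBo p x : E →L[ℝ] E) : E →ₗ[ℝ] E) = LinearMap.transvection (a : E →ₗ[ℝ] ℝ) p := by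
    ext y
    simp [dBo, LinearMap.transvection.apply, ha]
  rw [ContinuousLinearMap.det, h1, LinearMap.transvection.det, norm_Bo hp]
  have h2 : (a : E →ₗ[ℝ] ℝ) p = gam p ^ 2 / (gam p + 1) * ‖p‖ ^ 2 + gam p / ‖x‖ * ⟪p, x⟫ := by
    simp [ha, real_inner_comm]
  rw [h2, gam_kapP hp]
  field_simp
  ring

theorem isOpen_dom (p : E) : IsOpen {x : E | x ≠ 0 ∧ ‖Bo p x‖ < 1} := by
  refine IsOpen.and ?_ ?_
  · exact isOpen_compl_singleton
  · exact isOpen_lt (continuous_Bo p).norm continuous_const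

/-- change of variables by the boost -/
theorem lintegral_Bo {p : E} (hp : ‖p‖ < 1) (F : E → ENNReal) :
    ∫⁻ x in {x : E | x ≠ 0 ∧ ‖Bo p x‖ < 1}, ENNReal.ofReal (‖Bo p x‖ / ‖x‖) * F (Bo p x) =
      ∫⁻ y in {y : E | y ≠ 0 ∧ ‖y‖ < 1}, F y := by
  have h := lintegral_image_eq_lintegral_abs_det_fderiv_mul (volume : Measure E)
    (isOpen_dom p).measurableSet (f' := dBo p)
    (fun x hx => (hasFDerivAt_Bo p hx.1).hasFDerivWithinAt) ((Bo_injective hp).injOn) F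
  rw [Bo_image hp] at h
  rw [h]
  refine setLIntegral_congr_fun (isOpen_dom p).measurableSet fun x hx => ?_
  rw [det_dBo hp hx.1, abs_of_nonneg (by positivity)]

end CGA.PU
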