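import Pool.Agent.CGA.Defs

/-! # CGA, chunk L (Pu's argument): definitions

`Bo p` is the boost with velocity `p` acting on the light cone, read on `E = ℝ³` (the light cone point
`(x, ‖x‖)`).  It is homogeneous of degree 1 for positive factors, `x ↦ Bo p x / ‖Bo p x‖` is a Möbius
map of the sphere with conformal factor `‖Bo p x‖⁻¹` at unit vectors `x`. -/

set_option linter.all false

namespace CGA.PU

open scoped RealInnerProductSpace Real Topology
open MeasureTheory Set Filter CGA

noncomputable section

/-- Lorentz factor -/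
def gam (p : E) : ℝ := 1 / √(1 - ‖p‖ ^ 2)

/-- boost -/
def Bo (p x : E) : E := x + (gam p ^ 2 / (gam p + 1) * ⟪p, x⟫ + gam p * ‖x‖) • p

/-- derivative of the boost at `x ≠ 0` -/
def dBo (p x : E) : E →L[ℝ] E :=
  ContinuousLinearMap.id ℝ E +
    ((gam p ^ 2 / (gam p + 1)) • innerSL ℝ p + (gam p / ‖x‖) • innerSL ℝ x).smulRight p

/-- the conformal weight of the pulled back metric, homogeneous of degree `-1` -/
def Gw (M : Met) (p x : E) : ℝ := M.f (Bo p x) / ‖Bo p x‖

/-- the function of the angle -/
def Ang (β : ℝ) (φ ψ : ℝ) : Prop :=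
  Real.cos ψ = (Real.cos φ + β) / (1 + β * Real.cos φ) ∧
  Real.sin ψ = √(1 - β ^ 2) * Real.sin φ / (1 + β * Real.cos φ)

/-- the group of rotations and reflections -/
abbrev OG := unitary (E →L[ℝ] E)

/-- total measure of the sphere etc.: the measure on the sphere -/
abbrev σ : Measure (Metric.sphere (0 : E) 1) := (volume : Measure E).toSphere

end

end CGA.PU
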