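import Pool.Agent.CGA.LBo
import Pool.Agent.CGA.LAn

/-! # CGA, L / LGe: the boost maps great circles to circles `{⟪v,·⟫ = ⟪v,p⟫}`

Let `(n, a, b)` be a frame with `⟪b,p⟫ = 0`.  Put `γ = gam p`, `κ = γ²/(γ+1)`, `q = ⟪n,p⟫`, `β = ⟪a,p⟫`,
so `p = q n + β a` and `P = ‖p‖² = q² + β²`, `γ² (1 - q² - β²) = 1`, `κ (q² + β²) = γ - 1`, `κ(γ+1) = γ²`.
`m = n + κ q p = (1 + κ q²) n + κ q β a`, `‖m‖² = 1 + 2 κ q² + κ² q² P = 1 + κ q² (2 + γ - 1) = 1 + γ² q²`,
and `1 + γ² q² = γ² (1 - β²)`.  Put `μ = ‖m‖ = √(1 + γ² q²)`,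
`v = m/μ`, `e₁ = ((1 + κ q²) a - κ q β n)/μ`, `e₂ = b`: a frame.
`t = ⟪v,p⟫ = (q + κ q P)/μ = γ q/μ`, `1 - t² = 1/μ²`, so `√(1 - t²) = 1/μ`, `√(1-t²) √(1-β²) = 1/γ`.
For `x = cos φ a + sin φ b` : `‖x‖ = 1`, `⟪p,x⟫ = β cos φ`, `‖Bo p x‖ = γ (1 + β cos φ)`,
`Bo p x = x + (κ β cos φ + γ) p`, and for `Ang β φ ψ`: `Bo p x = γ (1 + β cos φ) • cpt v e₁ b t ψ`. -/

set_option linter.all false

namespace CGA.PU

open scoped RealInnerProductSpace Real Topology
open MeasureTheory Set Filter CGA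

theorem inner3 (x y : E) : ⟪x, y⟫ = x 0 * y 0 + x 1 * y 1 + x 2 * y 2 := by
  rw [PiLp.inner_apply, Fin.sum_univ_three]
  simp [mul_comm]

theorem norm3 (x : E) : ‖x‖ ^ 2 = x 0 ^ 2 + x 1 ^ 2 + x 2 ^ 2 := by
  rw [← real_inner_self_eq_norm_sq, inner3]
  ring

/-- expansion of a vector in a frame, when the third component vanishes -/
theorem frm_expand {n a b : E} (hF : Frm n a b) (p : E) :
    p = ⟪n, p⟫ • n + ⟪a, p⟫ • a + ⟪b, p⟫ • b := by
  have ho : Orthonormal ℝ ![n, a, b] := by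
    constructor
    · intro i
      fin_cases i
      · exact hF.v1
      · exact hF.e1
      · exact hF.e2
    · intro i j hij
      have h1 := hF.v_e1
      have h2 := hF.v_e2
      have h3 := hF.e1_e2
      fin_cases i <;> fin_cases j <;> simp_all [real_inner_comm]
  have hc : Fintype.card (Fin 3) = Module.finrank ℝ E := by simp [E]
  let B := basisOfOrthonormalOfCardEqFinrank ho hc
  let OB := B.toOrthonormalBasis (by simpa [B] using ho)
  have h := OB.sum_repr' p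
  rw [Fin.sum_univ_three] at h
  have e : ∀ i, OB i = ![n, a, b] i := by
    intro i
    simp [OB, B]
  rw [e 0, e 1, e 2] at h
  simpa using h.symm

theorem det3_comb (n a b : E) (A B : ℝ) :
    det3 (A • n + B • a) (A • a - B • n) b = (A ^ 2 + B ^ 2) * det3 n a b := by
  simp only [det3, PiLp.add_apply, PiLp.sub_apply, PiLp.smul_apply, smul_eq_mul]
  ring

theorem det3_smul (x y b : E) (s t : ℝ) : det3 (s • x) (t • y) b = s * t * det3 x y b := by
  simp only [det3, PiLp.smul_apply, smul_eq_mul]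
  ring

/-- rotation of the first two vectors of a frame -/
theorem frm_rot {n a b : E} (hF : Frm n a b) {A B : ℝ} (h : A ^ 2 + B ^ 2 = 1) :
    Frm (A • n + B • a) (A • a - B • n) b := by
  have h1 := hF.v_e1
  have h2 := hF.v_e2
  have h3 := hF.e1_e2
  have h4 : ⟪n, n⟫ = 1 := by rw [real_inner_self_eq_norm_sq, hF.v1]; norm_num
  have h5 : ⟪a, a⟫ = 1 := by rw [real_inner_self_eq_norm_sq, hF.e1]; norm_num
  have h6 : ⟪a, n⟫ = 0 := by rw [real_inner_comm]; exact h1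
  refine ⟨?_, ?_, hF.e2, ?_, ?_, ?_, ?_⟩
  · rw [← sq_eq_sq₀ (norm_nonneg _) zero_le_one, ← real_inner_self_eq_norm_sq]
    simp only [inner_add_left, inner_add_right, inner_smul_left, inner_smul_right, h1, h4, h5, h6]
    simp
    linarith
  · rw [← sq_eq_sq₀ (norm_nonneg _) zero_le_one, ← real_inner_self_eq_norm_sq]
    simp only [inner_sub_left, inner_sub_right, inner_smul_left, inner_smul_right, h1, h4, h5, h6]
    simp
    linarith
  · simp only [inner_add_left, inner_sub_right, inner_smul_left, inner_smul_right, h1, h4, h5, h6]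
    simp
    ring
  · simp only [inner_add_left, inner_smul_left, h2, h3]
    simp
  · simp only [inner_sub_left, inner_smul_left, h2, h3]
    simp
  · rw [det3_comb, h, hF.or, one_mul]

theorem cpt_norm {v e₁ e₂ : E} (hF : Frm v e₁ e₂) {t : ℝ} (ht : t ^ 2 ≤ 1) (φ : ℝ) :
    ‖cpt v e₁ e₂ t φ‖ = 1 := by
  have h1 := hF.v_e1
  have h2 := hF.v_e2
  have h3 := hF.e1_e2
  have h4 : ⟪v, v⟫ = 1 := by rw [real_inner_self_eq_norm_sq, hF.v1]; norm_num
  have h5 : ⟪e₁, e₁⟫ = 1 := by rw [real_inner_self_eq_norm_sq, hF.e1]; norm_num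
  have h6 : ⟪e₂, e₂⟫ = 1 := by rw [real_inner_self_eq_norm_sq, hF.e2]; norm_num
  have h7 : ⟪e₁, v⟫ = 0 := by rw [real_inner_comm]; exact h1
  have h8 : ⟪e₂, v⟫ = 0 := by rw [real_inner_comm]; exact h2
  have h9 : ⟪e₂, e₁⟫ = 0 := by rw [real_inner_comm]; exact h3
  have h10 : √(1 - t ^ 2) ^ 2 = 1 - t ^ 2 := Real.sq_sqrt (by linarith)
  have h11 := Real.sin_sq_add_cos_sq φ
  rw [← sq_eq_sq₀ (norm_nonneg _) zero_le_one, ← real_inner_self_eq_norm_sq]
  unfold cpt
  simp only [inner_add_left, inner_add_right, inner_smul_left, inner_smul_right, h1, h2, h3, h4, h5,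
    h6, h7, h8, h9]
  simp
  linear_combination h10 + √(1 - t ^ 2) ^ 2 * h11

/-- the frame of the image circle -/
theorem exists_frame {p : E} (hp : ‖p‖ < 1) {n a b : E} (hF : Frm n a b) (hb : ⟪b, p⟫ = 0) :
    ∃ v e₁ : E, Frm v e₁ b ∧ ∃ t : ℝ, ⟪v, p⟫ = t ∧ t ^ 2 < 1 ∧
      √(1 - t ^ 2) * √(1 - ⟪a, p⟫ ^ 2) * gam p = 1 ∧
      ∀ φ ψ, Ang ⟪a, p⟫ φ ψ → Bo p (Real.cos φ • a + Real.sin φ • b) =
        (gam p * (1 + ⟪a, p⟫ * Real.cos φ)) • cpt v e₁ b t ψ := by
  have h1 := hF.v_e1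
  have h2 := hF.v_e2
  have h3 := hF.e1_e2
  have h4 : ⟪n, n⟫ = 1 := by rw [real_inner_self_eq_norm_sq, hF.v1]; norm_num
  have h5 : ⟪a, a⟫ = 1 := by rw [real_inner_self_eq_norm_sq, hF.e1]; norm_num
  have h6 : ⟪a, n⟫ = 0 := by rw [real_inner_comm]; exact h1
  have hbb : ⟪b, b⟫ = 1 := by rw [real_inner_self_eq_norm_sq, hF.e2]; norm_num
  have hγ := gam_pos hp
  have hγs := gam_sq hp
  have hk := gam_kap hp
  have hkP := gam_kapP hp
  have hpe := frm_expand hF p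
  rw [hb, zero_smul, add_zero] at hpe
  have hP : ‖p‖ ^ 2 = ⟪n, p⟫ ^ 2 + ⟪a, p⟫ ^ 2 := by
    rw [← real_inner_self_eq_norm_sq]
    nth_rewrite 1 [hpe]
    rw [inner_add_left, inner_smul_left, inner_smul_left]
    simp
    ring
  set q := ⟪n, p⟫ with hq
  set β := ⟪a, p⟫ with hβ
  set γ := gam p with hγd
  have hBo : ∀ x : E, Bo p x = x + (γ ^ 2 / (γ + 1) * ⟪p, x⟫ + γ * ‖x‖) • p := fun x => rfl
  set κ := γ ^ 2 / (γ + 1) with hκ
  rw [hP] at hγs hkP
  -- `μ`
  set μ := √(1 + γ ^ 2 * q ^ 2) with hμ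
  have hμ0 : 0 < 1 + γ ^ 2 * q ^ 2 := by positivity
  have hμp : 0 < μ := Real.sqrt_pos.2 hμ0
  have hμ2 : μ ^ 2 = 1 + γ ^ 2 * q ^ 2 := Real.sq_sqrt hμ0.le
  have hμ3 : μ ^ 2 = γ ^ 2 * (1 - β ^ 2) := by
    rw [hμ2]
    linear_combination -hγs
  have hβ1 : 0 < 1 - β ^ 2 := by
    by_contra hcon
    have : γ ^ 2 * (1 - β ^ 2) ≤ 0 := mul_nonpos_of_nonneg_of_nonpos (by positivity) (not_lt.1 hcon)
    nlinarith [pow_pos hμp 2]
  set A := 1 + κ * q ^ 2 with hA
  set B := κ * q * β with hB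
  have hAB : A ^ 2 + B ^ 2 = μ ^ 2 := by
    rw [hμ2, hA, hB]
    linear_combination (κ * q ^ 2) * hkP + q ^ 2 * hk
  have hAB1 : (A / μ) ^ 2 + (B / μ) ^ 2 = 1 := by
    rw [div_pow, div_pow, ← add_div, hAB, div_self (by positivity)]
  have hFr := frm_rot hF hAB1
  have htv : ⟪(A / μ) • n + (B / μ) • a, p⟫ = γ * q / μ := by
    rw [inner_add_left, inner_smul_left, inner_smul_left]
    simp only [conj_trivial, ← hq, ← hβ]
    rw [hA, hB]
    field_simp
    linear_combination q * hkP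
  refine ⟨(A / μ) • n + (B / μ) • a, (A / μ) • a - (B / μ) • n, hFr, γ * q / μ, htv, ?_, ?_, ?_⟩
  · rw [div_pow, div_lt_one (by positivity), hμ2, mul_pow]
    linarith
  · have e1 : 1 - (γ * q / μ) ^ 2 = (1 / μ) ^ 2 := by
      rw [div_pow, mul_pow, one_div, inv_pow, ← one_div, eq_div_iff (by positivity), sub_mul,
        div_mul_cancel₀ _ (by positivity), hμ2]
      ring
    have e2 : 1 - β ^ 2 = (μ / γ) ^ 2 := by
      rw [div_pow, hμ3]
      field_simp
    rw [e1, e2, Real.sqrt_sq (by positivity), Real.sqrt_sq (by positivity)]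
    field_simp
  · intro φ ψ hA'
    obtain ⟨hc, hs⟩ := hA'
    have hβabs : |β| < 1 := by
      rw [← sq_lt_one_iff_abs_lt_one]
      linarith
    have hD := D_pos hβabs φ
    have e1 : 1 - (γ * q / μ) ^ 2 = (1 / μ) ^ 2 := by
      rw [div_pow, mul_pow, one_div, inv_pow, ← one_div, eq_div_iff (by positivity), sub_mul,
        div_mul_cancel₀ _ (by positivity), hμ2]
      ring
    have e2 : √(1 - β ^ 2) = μ / γ := by
      have : 1 - β ^ 2 = (μ / γ) ^ 2 := by
        rw [div_pow, hμ3]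
        field_simp
      rw [this, Real.sqrt_sq (by positivity)]
    have hab : ⟪a, b⟫ = 0 := h3
    have hx1 : ‖Real.cos φ • a + Real.sin φ • b‖ = 1 := by
      rw [← sq_eq_sq₀ (norm_nonneg _) zero_le_one, norm_add_sq_real, inner_smul_left,
        inner_smul_right, hab, norm_smul, norm_smul, hF.e1, hF.e2]
      simp
    have hx2 : ⟪p, Real.cos φ • a + Real.sin φ • b⟫ = β * Real.cos φ := by
      rw [inner_add_right, inner_smul_right, inner_smul_right, real_inner_comm a p,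
        real_inner_comm b p, hb, ← hβ]
      ring
    rw [hBo, hx1, hx2]
    unfold cpt
    rw [e1, Real.sqrt_sq (by positivity), hc, hs, e2]
    set C := Real.cos φ with hC
    set S := Real.sin φ with hS
    set D := 1 + β * C with hDd
    -- component identities
    have E1 : (κ * (β * C) + γ * 1) * q = γ * D * (γ * q / μ * (A / μ) - 1 / μ * ((C + β) / D) * (B / μ)) := by
      have : γ * D * (γ * q / μ * (A / μ) - 1 / μ * ((C + β) / D) * (B / μ)) =
          γ * (γ * q * A * D - (C + β) * B) / μ ^ 2 := by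
        field_simp
      rw [this, eq_div_iff (by positivity), hμ2, hA, hB, hDd]
      linear_combination (γ * q) * hkP + (C * q * β - γ * q ^ 3) * hk
    have E2 : C + (κ * (β * C) + γ * 1) * β =
        γ * D * (γ * q / μ * (B / μ) + 1 / μ * ((C + β) / D) * (A / μ)) := by
      have : γ * D * (γ * q / μ * (B / μ) + 1 / μ * ((C + β) / D) * (A / μ)) =
          γ * (γ * q * B * D + (C + β) * A) / μ ^ 2 := by
        field_simp
      rw [this, eq_div_iff (by positivity), hμ2, hA, hB, hDd]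
      linear_combination C * hkP - (γ * β * q ^ 2 + C * q ^ 2) * hk
    have E3 : S = γ * D * (1 / μ * (μ / γ * S / D)) := by
      field_simp
    have L : C • a + S • b + (κ * (β * C) + γ * 1) • p =
        ((κ * (β * C) + γ * 1) * q) • n + (C + (κ * (β * C) + γ * 1) * β) • a + S • b := by
      have e : (κ * (β * C) + γ * 1) • p = (κ * (β * C) + γ * 1) • (q • n + β • a) := by rw [← hpe]
      rw [e]
      module
    have R : (γ * D) • ((γ * q / μ) • ((A / μ) • n + (B / μ) • a) +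
        (1 / μ) • (((C + β) / D) • ((A / μ) • a - (B / μ) • n) + (μ / γ * S / D) • b)) =
        (γ * D * (γ * q / μ * (A / μ) - 1 / μ * ((C + β) / D) * (B / μ))) • n +
        (γ * D * (γ * q / μ * (B / μ) + 1 / μ * ((C + β) / D) * (A / μ))) • a +
        (γ * D * (1 / μ * (μ / γ * S / D))) • b := by
      module
    rw [L, R, ← E1, ← E2, ← E3]

theorem cpt_cont (v e₁ e₂ : E) (t : ℝ) : Continuous (cpt v e₁ e₂ t) := by
  unfold cpt
  fun_prop

theorem circle0 (M : Met) {p : E} (hp : ‖p‖ < 1) {n a b : E} (hF : Frm n a b) (hb : ⟪b, p⟫ = 0)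
    {ℓ : ℝ} (h : ∀ v e₁ e₂, Frm v e₁ e₂ → ℓ ≤ clen M v e₁ e₂ ⟪v, p⟫) :
    ℓ ≤ ∫ φ in (0:ℝ)..(2 * π), Gw M p (Real.cos φ • a + Real.sin φ • b) := by
  obtain ⟨v, e₁, hFr, t, ht, ht2, hsq, hB⟩ := exists_frame hp hF hb
  have h1 := h v e₁ b hFr
  rw [ht] at h1
  refine h1.trans ?_
  unfold clen
  have hβ : |⟪a, p⟫| < 1 := by
    have := abs_real_inner_le_norm a p
    rw [hF.e1, one_mul] at this
    linarith
  have hcn : ∀ ψ, cpt v e₁ b t ψ ≠ 0 := by
    intro ψ h0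
    have := cpt_norm hFr ht2.le ψ
    rw [h0, norm_zero] at this
    exact zero_ne_one this
  refine angle_subst hβ ?_ ?_ ?_
  · exact ((f_cont M).comp_continuous (cpt_cont _ _ _ _) fun ψ => hcn ψ).mul continuous_const
  · intro ψ
    exact mul_nonneg (M.pos _ (hcn ψ)).le (Real.sqrt_nonneg _)
  · intro φ ψ hA
    have hD := D_pos hβ φ
    have hγ := gam_pos hp
    have hpos : 0 < gam p * (1 + ⟪a, p⟫ * Real.cos φ) := mul_pos hγ hD
    unfold Gw
    rw [hB φ ψ hA, M.hom _ _ hpos, norm_smul, cpt_norm hFr ht2.le, Real.norm_of_nonneg hpos.le]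
    rw [mul_one, mul_assoc (M.f _), ← mul_div_assoc, div_eq_mul_inv]
    congr 1
    rw [eq_div_iff hD.ne', mul_inv, mul_assoc, inv_mul_cancel₀ hD.ne', mul_one]
    exact (eq_inv_of_mul_eq_one_left hsq).symm

theorem frm_crs {a b : E} (ha : ‖a‖ = 1) (hb : ‖b‖ = 1) (hab : ⟪a, b⟫ = 0) : Frm (crs a b) a b := by
  have h1 := norm3 a
  have h2 := norm3 b
  rw [ha] at h1
  rw [hb] at h2
  rw [inner3] at hab
  have h3 : det3 (crs a b) a b = 1 := by
    simp only [det3, crs]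
    simp
    linear_combination (b 0 ^ 2 + b 1 ^ 2 + b 2 ^ 2) * (-h1) - h2 -
      (a 0 * b 0 + a 1 * b 1 + a 2 * b 2) * hab
  have h4 : ‖crs a b‖ ^ 2 = 1 := by
    rw [norm3]
    rw [← h3]
    simp only [det3, crs]
    simp
    ring
  refine ⟨?_, ha, hb, ?_, ?_, ?_, h3⟩
  · rw [← sq_eq_sq₀ (norm_nonneg _) zero_le_one, h4]
    norm_num
  · rw [inner3]
    simp [crs]
    ring
  · rw [inner3]
    simp [crs]
    ring
  · rw [inner3]
    exact hab

theorem frm_cyc {x y z : E} (h : Frm x y z) : Frm y z x := by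
  refine ⟨h.e1, h.e2, h.v1, h.e1_e2, ?_, ?_, ?_⟩
  · rw [real_inner_comm]
    exact h.v_e1
  · rw [real_inner_comm]
    exact h.v_e2
  · rw [← h.or]
    simp only [det3]
    ring

theorem circle_pair (M : Met) {p : E} (hp : ‖p‖ < 1) {ℓ : ℝ}
    (h : ∀ v e₁ e₂, Frm v e₁ e₂ → ℓ ≤ clen M v e₁ e₂ ⟪v, p⟫)
    {a b : E} (ha : ‖a‖ = 1) (hb : ‖b‖ = 1) (hab : ⟪a, b⟫ = 0) :
    ℓ ≤ ∫ φ in (0:ℝ)..(2 * π), Gw M p (Real.cos φ • a + Real.sin φ • b) := by
  have hF := frm_crs ha hb hab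
  set z : ℂ := ⟨⟪a, p⟫, ⟪b, p⟫⟩ with hz
  set α := Complex.arg z with hα
  have hre : ‖z‖ * Real.cos α = ⟪a, p⟫ := Complex.norm_mul_cos_arg z
  have him : ‖z‖ * Real.sin α = ⟪b, p⟫ := Complex.norm_mul_sin_arg z
  have hF' := frm_cyc (frm_cyc (frm_rot (frm_cyc hF) (A := Real.cos α) (B := Real.sin α)
    (by linarith [Real.sin_sq_add_cos_sq α])))
  have hb' : ⟪Real.cos α • b - Real.sin α • a, p⟫ = 0 := by
    rw [inner_sub_left, inner_smul_left, inner_smul_left, ← hre, ← him]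
    simp
    ring
  have h1 := circle0 M hp hF' hb' h
  refine h1.trans (le_of_eq ?_)
  set F : ℝ → ℝ := fun φ => Gw M p (Real.cos φ • a + Real.sin φ • b) with hFd
  have hper : Function.Periodic F (2 * π) := by
    intro φ
    simp only [hFd, Real.cos_add_two_pi, Real.sin_add_two_pi]
  have e : ∀ φ, Gw M p (Real.cos φ • (Real.cos α • a + Real.sin α • b) +
      Real.sin φ • (Real.cos α • b - Real.sin α • a)) = F (φ + α) := by
    intro φ
    simp only [hFd, Real.cos_add, Real.sin_add]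
    congr 1
    module
  simp only [e]
  rw [intervalIntegral.integral_comp_add_right F α, zero_add, add_comm (2 * π) α,
    hper.intervalIntegral_add_eq α 0, zero_add]

end CGA.PU
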