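import Pool.Agent.CGA.LDef

/-! # CGA, L / LHa: the compact group `OG = unitary (E →L[ℝ] E)` and its Haar probability measure -/

set_option linter.all false

namespace CGA.PU

open scoped RealInnerProductSpace Real Topology
open MeasureTheory Set Filter CGA

instance contStarOG : ContinuousStar (E →L[ℝ] E) :=
  ⟨(ContinuousLinearMap.adjoint : (E →L[ℝ] E) ≃ₗᵢ⋆[ℝ] (E →L[ℝ] E)).continuous⟩

instance compactOG : CompactSpace OG := by
  have h1 : IsCompact ((unitary (E →L[ℝ] E) : Submonoid (E →L[ℝ] E)) : Set (E →L[ℝ] E)) := by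
    refine Metric.isCompact_of_isClosed_isBounded isClosed_unitary ?_
    refine (Metric.isBounded_iff_subset_closedBall 0).2 ⟨1, fun u hu => ?_⟩
    rw [mem_closedBall_zero_iff]
    refine ContinuousLinearMap.opNorm_le_bound _ zero_le_one fun x => ?_
    rw [one_mul]
    exact (Unitary.norm_map ⟨u, hu⟩ x).le
  exact isCompact_iff_compactSpace.1 h1

theorem OG_norm (R : OG) (x : E) : ‖(R : E →L[ℝ] E) x‖ = ‖x‖ := Unitary.norm_map R x

theorem OG_inner (R : OG) (x y : E) : ⟪(R : E →L[ℝ] E) x, (R : E →L[ℝ] E) y⟫ = ⟪x, y⟫ :=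
  Unitary.inner_map_map R x y

/-- every `R` comes from a linear isometry -/
theorem OG_iso (R : OG) : ∃ S : E ≃ₗᵢ[ℝ] E, ∀ x, S x = (R : E →L[ℝ] E) x :=
  ⟨Unitary.linearIsometryEquiv R, fun x => rfl⟩

theorem OG_trans {x y : E} (hx : ‖x‖ = 1) (hy : ‖y‖ = 1) : ∃ R : OG, (R : E →L[ℝ] E) x = y := by
  refine ⟨Unitary.linearIsometryEquiv.symm ((ℝ ∙ (x - y))ᗮ.reflection), ?_⟩
  have := Submodule.reflection_sub (v := x) (w := y) (hx.trans hy.symm)
  exact this

/-- there is a left invariant probability measure on `OG` -/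
theorem exists_haar : ∃ (m : MeasurableSpace OG) (_ : @BorelSpace OG _ m) (μ : @Measure OG m),
    IsProbabilityMeasure μ ∧
      ∀ (S : OG) (F : OG → ℝ), Continuous F → ∫ R, F (S * R) ∂μ = ∫ R, F R ∂μ := by
  letI m : MeasurableSpace OG := borel OG
  haveI hB : BorelSpace OG := ⟨rfl⟩
  refine ⟨m, hB, Measure.haarMeasure ⊤, ⟨?_⟩, fun S F _ => ?_⟩
  · have := Measure.haarMeasure_self (G := OG) (K₀ := ⊤)
    simpa using this
  · exact integral_mul_left_eq_self F S

end CGA.PU
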