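import Pool.Agent.CGA.LGe
import Pool.Agent.CGA.LAv

/-! # CGA, L / LPu: the final inequality

`average` for `G = Gw M p` (`circle_pair`) gives `2 ℓ ≤ I = ∫ G dσ`; for every real `t`
`0 ≤ ∫ (G - t)² = Area - 2 t I + 4 π t²` (`conf_inv`, `sigma_univ`); with `t = I/(4π)`: `I² ≤ 4 π Area`.
So `4 ℓ² ≤ I² ≤ 4 π Area`. -/

set_option linter.all false

namespace CGA

open scoped RealInnerProductSpace Real Topology
open MeasureTheory Set Filter CGA.PU

theorem pu (M : Met) {ℓ : ℝ} (hℓ : 0 ≤ ℓ) {p : E} (hp : ‖p‖ < 1)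
    (h : ∀ v e₁ e₂, Frm v e₁ e₂ → ℓ ≤ clen M v e₁ e₂ ⟪v, p⟫) : ℓ ^ 2 ≤ π * Area M := by
  have hsub : Metric.sphere (0 : E) 1 ⊆ {0}ᶜ := fun x hx => by
    rintro rfl
    simp at hx
  have hG : ContinuousOn (Gw M p) (Metric.sphere 0 1) := (Gw_cont M hp).mono hsub
  have hGc := sph_cont hG
  have h1 := average hG (fun x hx => (Gw_pos M hp (hsub hx)).le)
    (fun a b ha hb hab => circle_pair M hp h ha hb hab)
  set I := ∫ θ : Metric.sphere (0 : E) 1, Gw M p θ ∂σ with hI
  have i1 : Integrable (fun θ : Metric.sphere (0 : E) 1 => Gw M p θ) σ :=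
    hGc.integrable_of_hasCompactSupport (HasCompactSupport.of_compactSpace _)
  have i2 : Integrable (fun θ : Metric.sphere (0 : E) 1 => Gw M p θ ^ 2) σ :=
    (hGc.pow 2).integrable_of_hasCompactSupport (HasCompactSupport.of_compactSpace _)
  have key : ∀ t : ℝ, 0 ≤ Area M - 2 * t * I + 4 * π * t ^ 2 := by
    intro t
    have h2 : 0 ≤ ∫ θ : Metric.sphere (0 : E) 1, (Gw M p θ - t) ^ 2 ∂σ :=
      integral_nonneg fun θ => sq_nonneg _
    have h3 : ∀ θ : Metric.sphere (0 : E) 1, (Gw M p θ - t) ^ 2 =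
        (Gw M p θ ^ 2 - 2 * t * Gw M p θ) + t ^ 2 := fun θ => by ring
    simp only [h3] at h2
    have i3 : Integrable (fun θ : Metric.sphere (0 : E) 1 => 2 * t * Gw M p θ) σ := i1.const_mul _
    have i4 : Integrable (fun θ : Metric.sphere (0 : E) 1 => Gw M p θ ^ 2 - 2 * t * Gw M p θ) σ :=
      i2.sub i3
    rw [integral_add i4 (integrable_const _), integral_sub i2 i3,
      integral_const_mul, integral_const, PU.sigma_univ, conf_inv M hp, smul_eq_mul] at h2
    exact h2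
  have hπ := Real.pi_pos
  have h4 := key (I / (4 * π))
  have h5 : Area M - 2 * (I / (4 * π)) * I + 4 * π * (I / (4 * π)) ^ 2 =
      (4 * π * Area M - I ^ 2) / (4 * π) := by
    field_simp
    ring
  rw [h5, le_div_iff₀ (by positivity), zero_mul] at h4
  have h6 : (2 * ℓ) ^ 2 ≤ I ^ 2 := pow_le_pow_left₀ (by positivity) h1 2
  nlinarith

end CGA
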