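import Pool.Agent.CGA.AMet

/-! # CGA / MArea: the area is positive -/

set_option linter.all false

namespace CGA

open scoped RealInnerProductSpace Real Topology
open MeasureTheory Set Filter

noncomputable section

theorem Area_pos (M : Met) : 0 < Area M := by
  obtain ⟨m, F, K, hm, hmF, hK, hb, -, -⟩ := M.exists_bounds
  have hcont : Continuous fun x : Metric.sphere (0 : E) 1 => M.f (x : E) ^ 2 := by
    refine Continuous.pow ?_ 2
    refine M.continuousOn_f.comp_continuous continuous_subtype_val fun x => ?_
    intro h
    have hx : ‖(x : E)‖ = 1 := by simpa using x.2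
    rw [h] at hx
    simp at hx
  have hne : ∀ x : Metric.sphere (0 : E) 1, (x : E) ≠ 0 := by
    intro x h
    have hx : ‖(x : E)‖ = 1 := by simpa using x.2
    rw [h] at hx
    simp at hx
  set μ := (volume : Measure E).toSphere with hμ
  have hint : Integrable (fun x : Metric.sphere (0 : E) 1 => M.f (x : E) ^ 2) μ :=
    hcont.integrable_of_hasCompactSupport (HasCompactSupport.of_compactSpace _)
  have h1 : ∫ x : Metric.sphere (0 : E) 1, m ^ 2 ∂μ ≤ ∫ x, M.f (x : E) ^ 2 ∂μ := by
    refine integral_mono (integrable_const _) hint fun x => ?_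
    exact pow_le_pow_left₀ hm.le (hb x (hne x)).1 2
  rw [integral_const, smul_eq_mul] at h1
  have h2 : 0 < μ.real univ := by
    rw [hμ, Measure.toSphere_real_apply_univ]
    refine mul_pos (by simp) ?_
    rw [Measure.real, ENNReal.toReal_pos_iff]
    exact ⟨Metric.measure_ball_pos _ _ one_pos, measure_ball_lt_top⟩
  have h3 : 0 < μ.real univ * m ^ 2 := mul_pos h2 (pow_pos hm 2)
  exact lt_of_lt_of_le h3 h1

end

end CGA
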