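import Pool.Agent.CGA.MPer
import Pool.Agent.CGA.MArea
import Pool.Agent.CGA.C1Gap
import Pool.Agent.CGA.BEnd
import Pool.Agent.CGA.DFin
import Pool.Agent.CGA.FFin
import Pool.Agent.CGA.HCC
import Pool.Agent.CGA.IEnd
import Pool.Agent.CGA.KFin

/-! # CGA / MAsm: assembly of the chunk theorems (everything except Pu's argument) -/

set_option linter.all false

namespace CGA

open scoped RealInnerProductSpace Real Topology Manifold ContDiff
open MeasureTheory Set Filter Module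

/-- If there is no closed geodesic of length at most `L0`, then for some point `p` of the open unit
ball all the circles in the planes through `p` have length at least `L' / 2`, `L' > L0`. -/
theorem exists_point (M : Met) {L0 : ℝ} (hL0p : 0 < L0) (hNG : NoGeo M L0) :
    ∃ L' > L0, ∃ p : E, ‖p‖ < 1 ∧ ∀ v e₁ e₂, Frm v e₁ e₂ → L' / 2 ≤ clen M v e₁ e₂ ⟪v, p⟫ := by
  obtain ⟨L1, hL1, hNG1⟩ := gap M hL0p hNG
  obtain ⟨L', h1, h2⟩ := exists_between hL1
  obtain ⟨L'', h3, h4⟩ := exists_between h2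
  obtain ⟨L, h5, h6⟩ := exists_between h4
  have mono : ∀ {a b : ℝ}, a ≤ b → NoGeo M b → NoGeo M a := fun hab h ℓ hℓ hg =>
    lt_of_le_of_lt hab (h ℓ hℓ hg)
  obtain ⟨δ, hδ, hδ1, ⟨Λ⟩⟩ := lift_exists M (by linarith) h6 hNG1
  have hB := bouquet M hδ hδ1 (by linarith) (mono h6.le hNG1) Λ
  obtain ⟨δ', hδ', hδδ, r, hr, ⟨T⟩⟩ := tot_exists M hδ hδ1 (by linarith : 0 < L'') h5 Λ hB
  have hr' : 0 < min r 1 := lt_min hr one_pos
  obtain ⟨C⟩ := cc_exists M hδ' (hδδ.trans hδ1) hr' (min_le_right _ _)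
    (T.shrink (min_le_left r 1))
  have hr2 : 0 < min r 1 / 2 := by positivity
  have hS := cc_nonpos M hr2 h3 (mono (by linarith) hNG1) C
  obtain ⟨p, hp, hall⟩ := helly M hr2 (by linarith) h3 C (fun u hu h0 hT => hS u hu h0 hT)
  exact ⟨L', h1, p, hp, hall⟩

/-- The main theorem for `Met`, from Pu's inequality. -/
theorem main_of_pu (M : Met)
    (pu : ∀ {ℓ : ℝ}, 0 ≤ ℓ → ∀ {p : E}, ‖p‖ < 1 →
      (∀ v e₁ e₂, Frm v e₁ e₂ → ℓ ≤ clen M v e₁ e₂ ⟪v, p⟫) → ℓ ^ 2 ≤ π * Area M) :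
    ∃ ℓ, 0 < ℓ ∧ ClosedGeo M ℓ ∧ ℓ ^ 2 ≤ 4 * π * Area M := by
  by_contra hcon
  push Not at hcon
  have hA : 0 < Area M := Area_pos M
  have h4 : 0 < 4 * π * Area M := by positivity
  set L0 := √(4 * π * Area M) with hL0
  have hL0p : 0 < L0 := Real.sqrt_pos.2 h4
  have hsq : L0 ^ 2 = 4 * π * Area M := Real.sq_sqrt h4.le
  have hNG : NoGeo M L0 := by
    intro ℓ hℓ hg
    have := hcon ℓ hℓ hg
    rw [← hsq] at this
    exact lt_of_pow_lt_pow_left₀ 2 hℓ.le this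
  obtain ⟨L', h1, p, hp, hall⟩ := exists_point M hL0p hNG
  have := pu (by linarith : 0 ≤ L' / 2) hp hall
  nlinarith

end CGA
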