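import Pool.Agent.CGA.Defs

/-! # CGA / MDef: the metrics `f² g₀` on the Mathlib sphere and their closed geodesics -/

set_option linter.all false

namespace CGA

open scoped RealInnerProductSpace Real Topology Manifold ContDiff
open MeasureTheory Set Filter Module

noncomputable section

/-- The unit sphere `S²` in `ℝ³`. -/
abbrev S2 := Metric.sphere (0 : E) 1

/-- The extension of a function on `S²` to `ℝ³ \ {0}` which is constant on rays. -/
def homExt (f : S2 → ℝ) (x : E) : ℝ :=
  if h : x = 0 then 1 else f ⟨‖x‖⁻¹ • x, by simp [norm_smul, h]⟩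

/-- The gradient of `log f` at `x ∈ S²` (tangential to `S²`, with respect to the round metric). -/
def gradLog (f : S2 → ℝ) (x : E) : E := gradient (fun y => Real.log (homExt f y)) x

/-- `γ` is a closed geodesic, of length `ℓ > 0`, of the Riemannian metric `g = f² g₀` on the sphere
(`g₀` is the round metric): `γ` is a `C²` curve on the unit sphere, parametrised with period `1`
proportionally to the `g`-length, and its covariant derivative
`D_t γ' = γ'' + |γ'|² γ + 2 ⟪grad log f, γ'⟫ γ' - |γ'|² grad log f` for `g` is zero. -/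
structure IsClosedGeodesic (f : S2 → ℝ) (ℓ : ℝ) (γ : ℝ → E) : Prop where
  pos : 0 < ℓ
  contDiff : ContDiff ℝ 2 γ
  mem_sphere : ∀ t, ‖γ t‖ = 1
  periodic : ∀ t, γ (t + 1) = γ t
  speed : ∀ t, homExt f (γ t) * ‖deriv γ t‖ = ℓ
  geodesic : ∀ t, deriv (deriv γ) t + ‖deriv γ t‖ ^ 2 • γ t +
    (2 * ⟪gradLog f (γ t), deriv γ t⟫) • deriv γ t - ‖deriv γ t‖ ^ 2 • gradLog f (γ t) = 0

/-- The area of the sphere with the Riemannian metric `f² g₀`. -/
def area (f : S2 → ℝ) : ℝ := ∫ x : S2, f x ^ 2 ∂((volume : Measure E).toSphere)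

end

end CGA
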