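import Pool.Agent.CGA.MAsm
import Pool.Agent.CGA.LPu

/-! # CGA / MEnd: the main theorem -/

set_option linter.all false

namespace CGA

open scoped RealInnerProductSpace Real Topology Manifold ContDiff
open MeasureTheory Set Filter Module

theorem main (M : Met) : ∃ ℓ, 0 < ℓ ∧ ClosedGeo M ℓ ∧ ℓ ^ 2 ≤ 4 * π * Area M :=
  main_of_pu M fun hℓ _ hp h => pu M hℓ hp h

theorem main_theorem (f : S2 → ℝ) (hf : ContMDiff (𝓡 2) 𝓘(ℝ, ℝ) 2 f) (hpos : ∀ x, 0 < f x) :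
    ∃ (ℓ : ℝ) (γ : ℝ → E), IsClosedGeodesic f ℓ γ ∧ ℓ ^ 2 ≤ 4 * π * area f := by
  obtain ⟨ℓ, hℓ, hg, hle⟩ := main (metOf f hf hpos)
  obtain ⟨γ, hγ⟩ := isClosedGeodesic_of f hf hpos hℓ hg
  refine ⟨ℓ, γ, hγ, ?_⟩
  rw [area_metOf] at hle
  exact hle

end CGA
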