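import Pool.Agent.CGA.MSm
import Pool.Agent.CGA.AMet

/-! # CGA / MPer: periodic extension of a closed geodesic and its regularity -/

set_option linter.all false

namespace CGA

open scoped RealInnerProductSpace Real Topology Manifold ContDiff
open MeasureTheory Set Filter Module

noncomputable section

private theorem mPer_fract {t : ℝ} (h0 : 0 ≤ t) (h1 : t < 1) : Int.fract t = t :=
  Int.fract_eq_self.2 ⟨h0, h1⟩

/-- The periodic extension of a solution of an integral equation. -/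
theorem mPer_ext {F h : ℝ → E} (hc : ContinuousOn h (Icc (0:ℝ) 1)) (h01 : h 1 = h 0)
    (hF : ∀ t ∈ Icc (0:ℝ) 1, F t = F 0 + ∫ s in (0:ℝ)..t, h s) (hF1 : F 1 = F 0) (t : ℝ) :
    HasDerivAt (fun t => F (Int.fract t)) (h (Int.fract t)) t := by
  have hH : Continuous (h ∘ Int.fract) := hc.comp_fract'' h01.symm
  have hper : Function.Periodic (h ∘ Int.fract) (1:ℝ) := by
    intro x
    simp [Function.comp]
  have hint : ∀ a b : ℝ, IntervalIntegrable (h ∘ Int.fract) volume a b := fun a b =>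
    hH.intervalIntegrable a b
  have heq : ∀ t ∈ Icc (0:ℝ) 1, ∫ s in (0:ℝ)..t, (h ∘ Int.fract) s = ∫ s in (0:ℝ)..t, h s := by
    intro t ht
    refine intervalIntegral.integral_congr fun s hs => ?_
    rw [uIcc_of_le ht.1] at hs
    rcases lt_or_eq_of_le (hs.2.trans ht.2) with h2 | h2
    · simp only [Function.comp, mPer_fract hs.1 h2]
    · simp only [Function.comp, h2, Int.fract_one, h01]
  have h1 : ∫ s in (0:ℝ)..1, (h ∘ Int.fract) s = 0 := by
    rw [heq 1 ⟨zero_le_one, le_rfl⟩]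
    have := hF 1 ⟨zero_le_one, le_rfl⟩
    rw [hF1] at this
    simpa using this
  have hG : ∀ t : ℝ, F (Int.fract t) = F 0 + ∫ s in (0:ℝ)..t, (h ∘ Int.fract) s := by
    intro t
    have ht : Int.fract t ∈ Icc (0:ℝ) 1 := ⟨Int.fract_nonneg t, (Int.fract_lt_one t).le⟩
    rw [hF _ ht, ← heq _ ht]
    congr 1
    have h2 := hper.intervalIntegral_add_zsmul_eq ⌊t⌋ (Int.fract t) hint
    rw [hper.intervalIntegral_add_eq (Int.fract t) 0, zero_add, h1, smul_zero] at h2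
    have h3 : Int.fract t + ⌊t⌋ • (1:ℝ) = t := by
      rw [zsmul_eq_mul, mul_one, add_comm]
      exact Int.floor_add_fract t
    rw [h3] at h2
    have h4 := intervalIntegral.integral_add_adjacent_intervals (hint 0 (Int.fract t))
      (hint (Int.fract t) t)
    rw [h2, add_zero] at h4
    exact h4
  have h5 : (fun t => F (Int.fract t)) = fun t => F 0 + ∫ s in (0:ℝ)..t, (h ∘ Int.fract) s :=
    funext hG
  rw [h5]
  have h6 := (intervalIntegral.integral_hasDerivAt_right (hint 0 t)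
    (hH.stronglyMeasurableAtFilter _ _) hH.continuousAt)
  exact h6.const_add _

theorem gradLog_eq (f : S2 → ℝ) (hf : ContMDiff (𝓡 2) 𝓘(ℝ, ℝ) 2 f) (hpos : ∀ x, 0 < f x)
    {x : E} (hx : x ≠ 0) :
    gradLog f x = (homExt f x)⁻¹ • gradient (homExt f) x := by
  have h1 : HasGradientAt (homExt f) (gradient (homExt f) x) x :=
    (metOf f hf hpos).hasGradientAt hx
  have h2 : homExt f x ≠ 0 := ((metOf f hf hpos).pos x hx).ne'
  have h3 := (h1.hasFDerivAt.log h2)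
  unfold gradLog
  refine HasGradientAt.gradient ?_
  rw [hasGradientAt_iff_hasFDerivAt, map_smul]
  exact h3

private theorem mPer_alg {a : ℝ} (ha : a ≠ 0) (i n : ℝ) (p d g : E) :
    (a ^ 2)⁻¹ • ((a ^ 4 * n / a ^ 3) • g - (a ^ 4 * n / a ^ 2) • p) +
      (-(2 * a * i) / (a ^ 2) ^ 2) • (a ^ 2 • d) + n • p + (2 * (a⁻¹ * i)) • d -
      n • a⁻¹ • g = 0 := by
  have e1 : (a ^ 2)⁻¹ * (a ^ 4 * n / a ^ 3) = n * a⁻¹ := by field_simp
  have e2 : (a ^ 2)⁻¹ * (a ^ 4 * n / a ^ 2) = n := by field_simp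
  have e3 : -(2 * a * i) / (a ^ 2) ^ 2 * a ^ 2 = - (2 * (a⁻¹ * i)) := by field_simp
  rw [smul_sub, smul_smul, smul_smul, smul_smul, e1, e2, e3, smul_smul, neg_smul]
  abel

/-- Periodic solutions of the geodesic equation. -/
structure PerSol (M : Met) (ℓ : ℝ) (c v : ℝ → E) : Prop where
  d1 : ∀ t, HasDerivAt c ((M.f (c t) ^ 2)⁻¹ • v t) t
  d2 : ∀ t, HasDerivAt v (rhs M (c t) (v t)) t
  cnorm : ∀ t, ‖c t‖ = 1
  vnorm : ∀ t, ‖v t‖ = ℓ * M.f (c t)
  per : ∀ t, c (t + 1) = c t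

theorem exists_perSol (M : Met) {ℓ : ℝ} (h : ClosedGeo M ℓ) : ∃ c v : ℝ → E, PerSol M ℓ c v := by
  obtain ⟨γ, w, hS, hγ, hw, hsp⟩ := h
  have hne : ∀ t ∈ Icc (0:ℝ) 1, γ t ≠ 0 := by
    intro t ht h0
    have := hS.unit t ht
    rw [h0] at this
    simp at this
  have hcf : ContinuousOn (fun t => M.f (γ t)) (Icc (0:ℝ) 1) :=
    M.continuousOn_f.comp hS.cγ hne
  have hfp : ∀ t ∈ Icc (0:ℝ) 1, 0 < M.f (γ t) := fun t ht => M.pos _ (hne t ht)
  have hc1 : ContinuousOn (fun s => (M.f (γ s) ^ 2)⁻¹ • w s) (Icc (0:ℝ) 1) :=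
    ((hcf.pow 2).inv₀ fun t ht => (pow_pos (hfp t ht) 2).ne').smul hS.cw
  have hc2 : ContinuousOn (fun s => rhs M (γ s) (w s)) (Icc (0:ℝ) 1) := by
    have := M.continuousOn_rhs.comp (hS.cγ.prodMk hS.cw) (fun t ht => hne t ht)
    exact this
  have hfr : ∀ t : ℝ, Int.fract t ∈ Icc (0:ℝ) 1 := fun t =>
    ⟨Int.fract_nonneg t, (Int.fract_lt_one t).le⟩
  refine ⟨fun t => γ (Int.fract t), fun t => w (Int.fract t), ?_, ?_, ?_, ?_, ?_⟩
  · intro t
    exact mPer_ext (F := γ) (h := fun s => (M.f (γ s) ^ 2)⁻¹ • w s) hc1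
      (by simp only [hγ, hw]) hS.eqγ hγ t
  · intro t
    exact mPer_ext (F := w) (h := fun s => rhs M (γ s) (w s)) hc2
      (by simp only [hγ, hw]) hS.eqw hw t
  · exact fun t => hS.unit _ (hfr t)
  · exact fun t => hsp _ (hfr t)
  · intro t
    simp

namespace PerSol

variable {M : Met} {ℓ : ℝ} {c v : ℝ → E} (h : PerSol M ℓ c v)

include h

theorem cne (t : ℝ) : c t ≠ 0 := by
  intro h0
  have := h.cnorm t
  rw [h0] at this
  simp at this

theorem fpos (t : ℝ) : 0 < M.f (c t) := M.pos _ (h.cne t)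

theorem cc : Continuous c := continuous_iff_continuousAt.2 fun t => (h.d1 t).continuousAt

theorem vc : Continuous v := continuous_iff_continuousAt.2 fun t => (h.d2 t).continuousAt

theorem gradc : Continuous fun t => gradient M.f (c t) :=
  M.continuousOn_gradient.comp_continuous h.cc h.cne

theorem fcc : Continuous fun t => M.f (c t) := M.continuousOn_f.comp_continuous h.cc h.cne

theorem dc : deriv c = fun t => (M.f (c t) ^ 2)⁻¹ • v t := funext fun t => (h.d1 t).deriv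

theorem dfc (t : ℝ) :
    HasDerivAt (fun t => M.f (c t)) (⟪gradient M.f (c t), (M.f (c t) ^ 2)⁻¹ • v t⟫) t := by
  have h1 := (M.hasGradientAt (h.cne t)).hasFDerivAt.comp_hasDerivAt t (h.d1 t)
  rw [InnerProductSpace.toDual_apply_apply] at h1
  exact h1

theorem dfi (t : ℝ) : HasDerivAt (fun t => (M.f (c t) ^ 2)⁻¹)
    (-(2 * M.f (c t) * ⟪gradient M.f (c t), (M.f (c t) ^ 2)⁻¹ • v t⟫) / (M.f (c t) ^ 2) ^ 2) t := by
  have h1 := ((h.dfc t).fun_pow 2).fun_inv (pow_pos (h.fpos t) 2).ne'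
  have h2 : -(((2:ℕ):ℝ) * M.f (c t) ^ (2 - 1) *
      ⟪gradient M.f (c t), (M.f (c t) ^ 2)⁻¹ • v t⟫) / (M.f (c t) ^ 2) ^ 2 =
      -(2 * M.f (c t) * ⟪gradient M.f (c t), (M.f (c t) ^ 2)⁻¹ • v t⟫) /
        (M.f (c t) ^ 2) ^ 2 := by
    norm_num
  rw [h2] at h1
  exact h1

theorem d3 (t : ℝ) : HasDerivAt (fun t => (M.f (c t) ^ 2)⁻¹ • v t)
    ((M.f (c t) ^ 2)⁻¹ • rhs M (c t) (v t) +
      (-(2 * M.f (c t) * ⟪gradient M.f (c t), (M.f (c t) ^ 2)⁻¹ • v t⟫) /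
        (M.f (c t) ^ 2) ^ 2) • v t) t :=
  (h.dfi t).fun_smul (h.d2 t)

theorem rhsc : Continuous fun t => rhs M (c t) (v t) := by
  have h1 : Continuous fun t => (c t, v t) := h.cc.prodMk h.vc
  have h2 : ∀ t, (c t, v t) ∈ {p : E × E | p.1 ≠ 0} := fun t => h.cne t
  have h3 := M.continuousOn_rhs.comp_continuous h1 h2
  exact h3

theorem contDiff : ContDiff ℝ 2 c := by
  rw [show (2 : ℕ∞ω) = 1 + 1 by norm_num, contDiff_succ_iff_deriv]
  refine ⟨fun t => (h.d1 t).differentiableAt, by simp, ?_⟩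
  rw [h.dc, contDiff_one_iff_deriv]
  refine ⟨fun t => (h.d3 t).differentiableAt, ?_⟩
  have h1 : deriv (fun t => (M.f (c t) ^ 2)⁻¹ • v t) = fun t =>
      (M.f (c t) ^ 2)⁻¹ • rhs M (c t) (v t) +
      (-(2 * M.f (c t) * ⟪gradient M.f (c t), (M.f (c t) ^ 2)⁻¹ • v t⟫) /
        (M.f (c t) ^ 2) ^ 2) • v t := funext fun t => (h.d3 t).deriv
  rw [h1]
  have hi : Continuous fun t => (M.f (c t) ^ 2)⁻¹ :=
    (h.fcc.pow 2).inv₀ fun t => (pow_pos (h.fpos t) 2).ne'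
  have h5 : Continuous fun t =>
      (-(2 * M.f (c t) * ⟪gradient M.f (c t), (M.f (c t) ^ 2)⁻¹ • v t⟫) /
        (M.f (c t) ^ 2) ^ 2) := by
    refine Continuous.div ?_ ((h.fcc.pow 2).pow 2) fun t =>
      (pow_pos (pow_pos (h.fpos t) 2) 2).ne'
    exact ((continuous_const.mul h.fcc).mul (h.gradc.inner (hi.smul h.vc))).neg
  exact (hi.smul h.rhsc).add (h5.smul h.vc)

theorem speed (t : ℝ) : M.f (c t) * ‖deriv c t‖ = ℓ := by
  have h1 : ‖deriv c t‖ = (M.f (c t) ^ 2)⁻¹ * (ℓ * M.f (c t)) := by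
    rw [h.dc]
    simp only
    rw [norm_smul, h.vnorm, Real.norm_eq_abs, abs_of_pos (inv_pos.2 (pow_pos (h.fpos t) 2))]
  rw [h1]
  have := (h.fpos t).ne'
  field_simp

theorem geodesic (t : ℝ) : deriv (deriv c) t + ‖deriv c t‖ ^ 2 • c t +
    (2 * ⟪(M.f (c t))⁻¹ • gradient M.f (c t), deriv c t⟫) • deriv c t -
    ‖deriv c t‖ ^ 2 • ((M.f (c t))⁻¹ • gradient M.f (c t)) = 0 := by
  have h2 : deriv (deriv c) t = (M.f (c t) ^ 2)⁻¹ • rhs M (c t) (v t) +
      (-(2 * M.f (c t) * ⟪gradient M.f (c t), deriv c t⟫) / (M.f (c t) ^ 2) ^ 2) • v t := by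
    rw [h.dc]
    exact (h.d3 t).deriv
  have hv : v t = M.f (c t) ^ 2 • deriv c t := by
    rw [h.dc]
    simp only
    rw [smul_smul, mul_inv_cancel₀ (pow_pos (h.fpos t) 2).ne', one_smul]
  have hn : ‖v t‖ ^ 2 = M.f (c t) ^ 4 * ‖deriv c t‖ ^ 2 := by
    rw [hv, norm_smul, mul_pow, Real.norm_eq_abs, abs_of_pos (pow_pos (h.fpos t) 2)]
    ring
  rw [h2]
  unfold rhs
  rw [hn, hv, real_inner_smul_left]
  exact mPer_alg (h.fpos t).ne' _ _ _ _ _

end PerSol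

theorem isClosedGeodesic_of (f : S2 → ℝ) (hf : ContMDiff (𝓡 2) 𝓘(ℝ, ℝ) 2 f)
    (hpos : ∀ x, 0 < f x) {ℓ : ℝ} (hℓ : 0 < ℓ) (h : ClosedGeo (metOf f hf hpos) ℓ) :
    ∃ γ : ℝ → E, IsClosedGeodesic f ℓ γ := by
  obtain ⟨c, v, hc⟩ := exists_perSol _ h
  refine ⟨c, hℓ, hc.contDiff, hc.cnorm, hc.per, hc.speed, fun t => ?_⟩
  rw [gradLog_eq f hf hpos (hc.cne t)]
  exact hc.geodesic t

end

end CGA
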