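import Pool.Agent.CGA.MDef

/-! # CGA / MSm: the homogeneous extension of a `C²` function on the sphere is a `Met` -/

set_option linter.all false

namespace CGA

open scoped RealInnerProductSpace Real Topology Manifold ContDiff
open MeasureTheory Set Filter Module

noncomputable section

theorem homExt_of_ne (f : S2 → ℝ) {x : E} (h : x ≠ 0) :
    homExt f x = f ⟨‖x‖⁻¹ • x, by simp [norm_smul, h]⟩ := by
  unfold homExt
  rw [dif_neg h]

theorem homExt_coe (f : S2 → ℝ) (x : S2) : homExt f (x : E) = f x := by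
  have hx : ‖(x : E)‖ = 1 := by simpa using x.2
  have h0 : (x : E) ≠ 0 := by
    intro h
    rw [h] at hx
    simp at hx
  rw [homExt_of_ne f h0]
  congr 1
  ext1
  simp [hx]

theorem contDiffOn_homExt {f : S2 → ℝ} (hf : ContMDiff (𝓡 2) 𝓘(ℝ, ℝ) 2 f) :
    ContDiffOn ℝ 2 (homExt f) {0}ᶜ := by
  haveI : Fact (finrank ℝ E = 2 + 1) := ⟨by simp⟩
  let U : TopologicalSpace.Opens E := ⟨{0}ᶜ, isOpen_compl_singleton⟩
  have hne : ∀ x : U, (x : E) ≠ 0 := fun x => x.2
  have hg : ContMDiff 𝓘(ℝ, E) 𝓘(ℝ, E) 2 (fun x : U => ‖(x : E)‖⁻¹ • (x : E)) := by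
    intro x
    have h1 : ContMDiffAt 𝓘(ℝ, E) 𝓘(ℝ, E) 2 (fun x : E => ‖x‖⁻¹ • x) (x : E) := by
      rw [contMDiffAt_iff_contDiffAt]
      exact ((contDiffAt_norm ℝ (hne x)).inv (norm_ne_zero_iff.2 (hne x))).smul contDiffAt_id
    exact contMDiffAt_subtype_iff.2 h1
  have hg' : ∀ x : U, ‖(x : E)‖⁻¹ • (x : E) ∈ Metric.sphere (0 : E) 1 := by
    intro x
    simp [norm_smul, hne x]
  have h2 := hf.comp (hg.codRestrict_sphere hg')
  intro x hx
  have h3 := h2 ⟨x, hx⟩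
  have h4 : ContMDiffAt 𝓘(ℝ, E) 𝓘(ℝ, ℝ) 2 (fun x : U => homExt f x) ⟨x, hx⟩ := by
    have h5 : (fun x : U => homExt f x) =
        f ∘ (Set.codRestrict (fun x : U => ‖(x : E)‖⁻¹ • (x : E)) _ hg') := by
      funext y
      rw [homExt_of_ne f (hne y)]
      rfl
    rw [h5]
    exact h3
  have h6 := contMDiffAt_subtype_iff.1 h4
  exact (contMDiffAt_iff_contDiffAt.1 h6).contDiffWithinAt

/-- The metric `f² g₀`. -/
def metOf (f : S2 → ℝ) (hf : ContMDiff (𝓡 2) 𝓘(ℝ, ℝ) 2 f) (hpos : ∀ x, 0 < f x) : Met where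
  f := homExt f
  smooth := contDiffOn_homExt hf
  pos := by
    intro x hx
    rw [homExt_of_ne f hx]
    exact hpos _
  hom := by
    intro t x ht
    by_cases hx : x = 0
    · rw [hx, smul_zero]
    · rw [homExt_of_ne f hx, homExt_of_ne f (smul_ne_zero ht.ne' hx)]
      congr 1
      ext1
      simp only [norm_smul, Real.norm_eq_abs, abs_of_pos ht, smul_smul]
      congr 1
      field_simp

theorem area_metOf (f : S2 → ℝ) (hf : ContMDiff (𝓡 2) 𝓘(ℝ, ℝ) 2 f) (hpos : ∀ x, 0 < f x) :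
    Area (metOf f hf hpos) = area f := by
  unfold Area area
  congr 1
  funext x
  change homExt f (x : E) ^ 2 = f x ^ 2
  rw [homExt_coe]

end

end CGA
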