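import Pool.Agent.CGA.VarV

/-! PROJECT CGA, chunk C2, module MinCh: chains of minimal energy.

`exists_min_chain`: the set `{X : ℕ → E | ∀ i, ‖X i‖ = 1} ∩ {X | X 0 = X₀ 0} ∩ {X | X n = X₀ n}` is compact in the product
topology (`isCompact_univ_pi` for `Metric.sphere 0 1`, closed conditions) and contains `X₀`; `EnN M n τ` is continuous on it (a finite sum of
products of `M.f (X i)` (`Met.continuousOn_f`, `X i ≠ 0`) and norms): `IsCompact.exists_isMinOn`.
`min_chain_crit`: let `Y = Function.update X (i+1) y` with `‖y‖ = 1`; `i + 1 < n`, so `Y 0 = X 0`, `Y n = X n` and only the terms `i` and `i+1` of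
the sum change; cancel the other terms (`Finset.sum_erase`/split off the two indices, or show
`EnN Y - EnN X = new two terms - old two terms` with `Finset.sum_sub_distrib` and `Finset.sum_subset`/`Finset.sum_pair`), then `vertex_crit`.
-/

set_option linter.all false

namespace CGA

open scoped RealInnerProductSpace Real Topology
open MeasureTheory Set Filter

private theorem MinCh_ne {x : E} (h : ‖x‖ = 1) : x ≠ 0 := by
  rintro rfl
  rw [norm_zero] at h
  exact zero_ne_one h

private theorem MinCh_cont (M : Met) (n : ℕ) (τ : ℕ → ℝ) :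
    ContinuousOn (EnN M n τ) {X : ℕ → E | ∀ i, ‖X i‖ = 1} := by
  have hf : ∀ j : ℕ, ContinuousOn (fun X : ℕ → E => M.f (X j)) {X | ∀ i, ‖X i‖ = 1} := fun j =>
    M.continuousOn_f.comp (continuous_apply j).continuousOn fun X hX => MinCh_ne (hX j)
  have hc : ∀ j : ℕ, ContinuousOn (fun X : ℕ → E => X j) {X | ∀ i, ‖X i‖ = 1} := fun j =>
    (continuous_apply j).continuousOn
  show ContinuousOn (fun X : ℕ → E => ∑ i ∈ Finset.range n,
    M.f (X i) * M.f (X (i + 1)) * ‖X (i + 1) - X i‖ ^ 2 / τ i) _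
  apply continuousOn_finset_sum
  intro i _
  exact (((hf i).mul (hf (i + 1))).mul (((hc (i + 1)).sub (hc i)).norm.pow 2)).div_const _

theorem exists_min_chain (M : Met) (n : ℕ) (τ : ℕ → ℝ) (X₀ : ℕ → E) (h0 : ∀ i, ‖X₀ i‖ = 1) :
    ∃ X : ℕ → E, (∀ i, ‖X i‖ = 1) ∧ X 0 = X₀ 0 ∧ X n = X₀ n ∧
      ∀ Y : ℕ → E, (∀ i, ‖Y i‖ = 1) → Y 0 = X₀ 0 → Y n = X₀ n → EnN M n τ X ≤ EnN M n τ Y := by
  have hS : IsCompact {X : ℕ → E | ∀ i, ‖X i‖ = 1} := by
    have h1 : IsCompact (Set.pi univ (fun _ : ℕ => Metric.sphere (0 : E) 1)) :=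
      isCompact_univ_pi fun _ => isCompact_sphere 0 1
    have h2 : {X : ℕ → E | ∀ i, ‖X i‖ = 1} = Set.pi univ (fun _ : ℕ => Metric.sphere (0 : E) 1) := by
      ext X
      simp only [Set.mem_ofPred_eq, Set.mem_pi, Set.mem_univ, true_implies, mem_sphere_iff_norm,
        sub_zero]
    rw [h2]
    exact h1
  have hcl : IsClosed ({X : ℕ → E | X 0 = X₀ 0} ∩ {X : ℕ → E | X n = X₀ n}) :=
    (isClosed_eq (continuous_apply 0) continuous_const).inter
      (isClosed_eq (continuous_apply n) continuous_const)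
  have hK := hS.inter_right hcl
  obtain ⟨X, hX, hmin⟩ := hK.exists_isMinOn ⟨X₀, h0, rfl, rfl⟩
    ((MinCh_cont M n τ).mono inter_subset_left)
  exact ⟨X, hX.1, hX.2.1, hX.2.2, fun Y h1 h2 h3 => hmin ⟨h1, h2, h3⟩⟩

theorem min_chain_crit (M : Met) (n : ℕ) (τ : ℕ → ℝ) (X : ℕ → E) (hX : ∀ i, ‖X i‖ = 1)
    (hmin : ∀ Y : ℕ → E, (∀ i, ‖Y i‖ = 1) → Y 0 = X 0 → Y n = X n → EnN M n τ X ≤ EnN M n τ Y)
    {i : ℕ} (hi : i + 1 < n) : CritN M τ X i := by
  intro v hv
  refine vertex_crit M (hX (i + 1)) hv (X i) (X (i + 2)) (τ i) (τ (i + 1)) ?_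
  intro y hy
  have hYu : ∀ j, ‖Function.update X (i + 1) y j‖ = 1 := by
    intro j
    by_cases hj : j = i + 1
    · subst hj
      rw [Function.update_self]
      exact hy
    · rw [Function.update_of_ne hj]
      exact hX j
  have h1 := hmin (Function.update X (i + 1) y) hYu
    (Function.update_of_ne (by omega) _ _) (Function.update_of_ne (by omega) _ _)
  rw [EnN, EnN] at h1
  have hi1 : i ∈ Finset.range n := Finset.mem_range.2 (by omega)
  have hi2 : i + 1 ∈ (Finset.range n).erase i :=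
    Finset.mem_erase.2 ⟨by omega, Finset.mem_range.2 hi⟩
  have e0 : Function.update X (i + 1) y i = X i := Function.update_of_ne (by omega) _ _
  have e1 : Function.update X (i + 1) y (i + 1) = y := Function.update_self _ _ _
  have e2 : Function.update X (i + 1) y (i + 1 + 1) = X (i + 2) :=
    Function.update_of_ne (by omega) _ _
  rw [← Finset.add_sum_erase _ _ hi1, ← Finset.add_sum_erase _ _ hi2,
    ← Finset.add_sum_erase _ (fun j => M.f (Function.update X (i + 1) y j) *
      M.f (Function.update X (i + 1) y (j + 1)) *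
      ‖Function.update X (i + 1) y (j + 1) - Function.update X (i + 1) y j‖ ^ 2 / τ j) hi1,
    ← Finset.add_sum_erase _ (fun j => M.f (Function.update X (i + 1) y j) *
      M.f (Function.update X (i + 1) y (j + 1)) *
      ‖Function.update X (i + 1) y (j + 1) - Function.update X (i + 1) y j‖ ^ 2 / τ j) hi2] at h1
  have h2 : ∑ j ∈ ((Finset.range n).erase i).erase (i + 1),
      M.f (Function.update X (i + 1) y j) * M.f (Function.update X (i + 1) y (j + 1)) *
      ‖Function.update X (i + 1) y (j + 1) - Function.update X (i + 1) y j‖ ^ 2 / τ j =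
      ∑ j ∈ ((Finset.range n).erase i).erase (i + 1),
        M.f (X j) * M.f (X (j + 1)) * ‖X (j + 1) - X j‖ ^ 2 / τ j := by
    apply Finset.sum_congr rfl
    intro j hj
    rw [Finset.mem_erase, Finset.mem_erase] at hj
    obtain ⟨hj1, hj2, _⟩ := hj
    rw [Function.update_of_ne hj1, Function.update_of_ne (a := j + 1) (by omega)]
  simp only [e0, e1, e2] at h1
  rw [h2] at h1
  have e3 : X (i + 1 + 1) = X (i + 2) := rfl
  rw [e3] at h1
  linarith

end CGA
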