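import Pool.Agent.CGA.C1SolB

/-! PROJECT CGA, chunk C2, module SolB: concatenation of many solutions.

`sol_const`: `rhs M x 0 = 0`, all integrals are `0`.
`glue_many`: induction on `J`: `J = 0`: constant functions `γ 0 0`, `w 0 0` (on `Icc 0 0`, all integrals are `0`); step: `sol_concat` (C1SolB) with
`sol_shift M J (h J)` on `[J, J+1]`, value at `J+1` is `γ J 1 = γ (J+1) 0`.
-/

set_option linter.all false

namespace CGA

open scoped RealInnerProductSpace Real Topology
open MeasureTheory Set Filter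

theorem sol_const (M : Met) {a b : ℝ} {x : E} (hx : ‖x‖ = 1) :
    Sol M a b (fun _ => x) (fun _ => 0) := by
  have h0 : rhs M x 0 = 0 := by
    simp [rhs]
  refine ⟨continuousOn_const, continuousOn_const, fun _ _ => hx, fun t _ => ?_, fun t _ => ?_⟩
  · simp
  · simp [h0]

theorem glue_many (M : Met) (γ w : ℕ → ℝ → E) (h : ∀ j, Sol M 0 1 (γ j) (w j))
    (hγ : ∀ j, γ j 1 = γ (j + 1) 0) (hw : ∀ j, w j 1 = w (j + 1) 0) (J : ℕ) :
    ∃ Γ W : ℝ → E, Sol M 0 J Γ W ∧ Γ 0 = γ 0 0 ∧ W 0 = w 0 0 ∧ Γ J = γ J 0 ∧ W J = w J 0 := by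
  induction J with
  | zero =>
    have hu : ‖γ 0 0‖ = 1 := (h 0).unit 0 ⟨le_rfl, zero_le_one⟩
    refine ⟨fun _ => γ 0 0, fun _ => w 0 0, ?_, rfl, rfl, rfl, rfl⟩
    rw [Nat.cast_zero]
    refine ⟨continuousOn_const, continuousOn_const, fun _ _ => hu, fun t ht => ?_, fun t ht => ?_⟩
    · have : t = 0 := le_antisymm ht.2 ht.1
      rw [this, intervalIntegral.integral_same, add_zero]
    · have : t = 0 := le_antisymm ht.2 ht.1
      rw [this, intervalIntegral.integral_same, add_zero]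
  | succ J ih =>
    obtain ⟨Γ, W, hS, h0, h0', h1, h1'⟩ := ih
    have hs := sol_shift M (J : ℝ) (h J)
    rw [zero_add, add_comm 1 (J : ℝ)] at hs
    have hJ : (0 : ℝ) ≤ (J : ℝ) := Nat.cast_nonneg J
    have hc := sol_concat M hS hs hJ (by linarith) (by rw [sub_self]; exact h1)
      (by rw [sub_self]; exact h1')
    refine ⟨fun t => if t ≤ (J : ℝ) then Γ t else γ J (t - J),
      fun t => if t ≤ (J : ℝ) then W t else w J (t - J), ?_, ?_, ?_, ?_, ?_⟩
    · rw [Nat.cast_succ]
      exact hc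
    · simp only [hJ, if_true]
      exact h0
    · simp only [hJ, if_true]
      exact h0'
    · have h2 : ¬ ((J : ℝ) + 1 ≤ (J : ℝ)) := by linarith
      rw [Nat.cast_succ]
      simp only [h2, if_false, add_sub_cancel_left]
      exact hγ J
    · have h2 : ¬ ((J : ℝ) + 1 ≤ (J : ℝ)) := by linarith
      rw [Nat.cast_succ]
      simp only [h2, if_false, add_sub_cancel_left]
      exact hw J

end CGA
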