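import Pool.Agent.CGA.C1Sol
import Pool.Agent.CGA.AMet

/-! PROJECT CGA, chunk C2, module SolC: speed, tangents at the end points.

`contF`: `γ t ≠ 0` as `‖γ t‖ = 1`; `Met.continuousOn_f` (AMet), `M.f > 0`.
`speed`: `sol_speed` (C1Sol), `s = ‖w a‖ / f(γ a)`.
`right_tangent`, `left_tangent`: difference quotients at the end points: `δ⁻¹(γ(a+δ) - γ a) = δ⁻¹∫_a^{a+δ} g`, `g = f⁻²w` continuous on `Icc a b`
(`sol_restrict`-style: `γ b - γ (b-δ) = ∫_{b-δ}^b g` by `intervalIntegral.integral_add_adjacent_intervals`).  Either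
`intervalIntegral.integral_hasDerivWithinAt_right` and `hasDerivWithinAt_iff_tendsto_slope`, or directly: given `ε` choose `δ₀` with `‖g s - g a‖ ≤ ε` on
`[a, a+δ₀]`, then `‖δ⁻¹∫_a^{a+δ} g - g a‖ = ‖δ⁻¹∫ (g - g a)‖ ≤ ε` (`intervalIntegral.norm_integral_le_of_norm_le_const`).
-/

set_option linter.all false

namespace CGA

open scoped RealInnerProductSpace Real Topology
open MeasureTheory Set Filter

variable {M : Met} {a b : ℝ} {γ w : ℝ → E}

private theorem SolC_ne (h : Sol M a b γ w) {t : ℝ} (ht : t ∈ Icc a b) : γ t ≠ 0 := by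
  intro h0
  have h1 := h.unit t ht
  rw [h0, norm_zero] at h1
  exact zero_ne_one h1

theorem Sol.contF (h : Sol M a b γ w) :
    ContinuousOn (fun s => (M.f (γ s) ^ 2)⁻¹ • w s) (Icc a b) := by
  have h1 : ContinuousOn (fun s => M.f (γ s)) (Icc a b) :=
    M.continuousOn_f.comp h.cγ fun t ht => SolC_ne h ht
  exact ((h1.pow 2).inv₀ fun t ht => (pow_pos (M.pos _ (SolC_ne h ht)) 2).ne').smul h.cw

theorem Sol.speed (h : Sol M a b γ w) (hab : a ≤ b) :
    ∃ s : ℝ, 0 ≤ s ∧ ∀ t ∈ Icc a b, ‖w t‖ = s * M.f (γ t) := by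
  have ha : a ∈ Icc a b := ⟨le_rfl, hab⟩
  have hp := M.pos _ (SolC_ne h ha)
  refine ⟨‖w a‖ / M.f (γ a), by positivity, fun t ht => ?_⟩
  have h1 := sol_speed M h ha ht
  rw [div_mul_eq_mul_div, h1, mul_div_cancel_right₀ _ hp.ne']

/-- `γ v - γ u` is the integral of the velocity -/
theorem Sol.sub_eq (h : Sol M a b γ w) {u v : ℝ} (hu : u ∈ Icc a b) (hv : v ∈ Icc a b) :
    γ v - γ u = ∫ s in u..v, (M.f (γ s) ^ 2)⁻¹ • w s := by
  have hi : ∀ {t : ℝ}, t ∈ Icc a b →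
      IntervalIntegrable (fun s => (M.f (γ s) ^ 2)⁻¹ • w s) volume a t := fun {t} ht =>
    (h.contF.mono (Icc_subset_Icc_right ht.2)).intervalIntegrable_of_Icc ht.1
  rw [h.eqγ v hv, h.eqγ u hu, add_sub_add_left_eq_sub,
    intervalIntegral.integral_interval_sub_left (hi hv) (hi hu)]

/-- the velocity, extended continuously -/
private theorem SolC_ext (h : Sol M a b γ w) (hab : a ≤ b) :
    ∃ H : ℝ → E, (∀ t ∈ Icc a b, HasDerivAt H ((M.f (γ t) ^ 2)⁻¹ • w t) t) ∧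
      ∀ u ∈ Icc a b, ∀ v ∈ Icc a b, H v - H u = γ v - γ u := by
  set g : ℝ → E := fun s => (M.f (γ s) ^ 2)⁻¹ • w s with hg
  set g' : ℝ → E := IccExtend hab (fun s => g s) with hg'
  have hc : Continuous g' := (continuousOn_iff_continuous_restrict.1 h.contF).Icc_extend'
  have he : ∀ t ∈ Icc a b, g' t = g t := fun t ht => IccExtend_of_mem hab _ ht
  refine ⟨fun t => ∫ s in a..t, g' s, fun t ht => ?_, fun u hu v hv => ?_⟩
  · have h1 := intervalIntegral.integral_hasDerivAt_right (hc.intervalIntegrable a t)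
      (hc.stronglyMeasurableAtFilter _ _) hc.continuousAt
    rw [he t ht] at h1
    exact h1
  · rw [h.sub_eq hu hv, intervalIntegral.integral_interval_sub_left (hc.intervalIntegrable a v)
      (hc.intervalIntegrable a u)]
    refine intervalIntegral.integral_congr fun s hs => ?_
    exact he s (uIcc_subset_Icc hu hv hs)

theorem Sol.right_tangent (h : Sol M a b γ w) (hab : a < b) :
    Tendsto (fun δ : ℝ => δ⁻¹ • (γ (a + δ) - γ a)) (𝓝[>] 0) (𝓝 ((M.f (γ a) ^ 2)⁻¹ • w a)) := by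
  obtain ⟨H, h1, h2⟩ := SolC_ext h hab.le
  have ha : a ∈ Icc a b := ⟨le_rfl, hab.le⟩
  have h3 := (hasDerivAt_iff_tendsto_slope_zero.1 (h1 a ha)).mono_left
    (nhdsWithin_mono (0:ℝ) (fun x (hx : 0 < x) => hx.ne'))
  refine h3.congr' ?_
  filter_upwards [Ioo_mem_nhdsGT (sub_pos.2 hab)] with δ hδ
  rw [h2 a ha (a + δ) ⟨by linarith [hδ.1], by linarith [hδ.2]⟩]

theorem Sol.left_tangent (h : Sol M a b γ w) (hab : a < b) :
    Tendsto (fun δ : ℝ => δ⁻¹ • (γ b - γ (b - δ))) (𝓝[>] 0) (𝓝 ((M.f (γ b) ^ 2)⁻¹ • w b)) := by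
  obtain ⟨H, h1, h2⟩ := SolC_ext h hab.le
  have hb : b ∈ Icc a b := ⟨hab.le, le_rfl⟩
  have h4 : Tendsto (fun δ : ℝ => -δ) (𝓝[>] 0) (𝓝[≠] 0) := by
    refine tendsto_nhdsWithin_iff.2 ⟨?_, ?_⟩
    · have : Tendsto (fun δ : ℝ => -δ) (𝓝 0) (𝓝 (-0)) := tendsto_id.neg
      rw [neg_zero] at this
      exact this.mono_left nhdsWithin_le_nhds
    · filter_upwards [self_mem_nhdsWithin] with δ (hδ : 0 < δ)
      exact neg_ne_zero.2 hδ.ne'
  have h3 := (hasDerivAt_iff_tendsto_slope_zero.1 (h1 b hb)).comp h4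
  refine h3.congr' ?_
  filter_upwards [Ioo_mem_nhdsGT (sub_pos.2 hab)] with δ hδ
  have h5 := h2 (b - δ) ⟨by linarith [hδ.2], by linarith [hδ.1]⟩ b hb
  rw [Function.comp_apply, ← h5, ← sub_eq_add_neg, inv_neg, neg_smul, ← smul_neg, neg_sub]

end CGA
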