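import Pool.Agent.CGA.PthD
import Pool.Agent.CGA.MinCh
import Pool.Agent.CGA.SolB
import Pool.Agent.CGA.SolC
import Pool.Agent.CGA.SolD

/-! PROJECT CGA, chunk C2, module MinG: existence of minimising geodesics.

`x = y`: constant solution (`sol_const`, SolB), `dist' M x x = 0`.  `x ≠ y`: `d = dist' M x y > 0` (`dist'_pos`).  For each `k`, with `ε = δ = 1/(k+1)`:
`exists_fine_chain`, `exists_steps` (with `D = d + ε`), `exists_min_chain`, `min_chain_crit` give `n k, τ k, X k` with `X k 0 = x`, `X k (n k) = y`,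
`CritN` at the interior vertices and `EnN ≤ (d + ε)² ≤ (d+1)²`.  `hlim` with `U = hyperfilter ℕ` (`δ k = 1/(k+1) → 0` along `U`:
`Filter.hyperfilter_le_atTop` / `Nat.hyperfilter_le_atTop`): a solution with `γ 0 = x`, `γ 1 = y` (limits of constants, `tendsto_nhds_unique`) and
`∫ ‖w‖²/f² ≤ d²` (`le_of_tendsto'`-type argument: `EnN M (n k) (τ k) (X k) ≤ (d + 1/(k+1))²→ d²`).  `Sol.speed`: `‖w t‖ = s f(γ t)`, so the integral is `s²`
and `s ≤ d`.  `Sol.dist_le` with `u = 0, v = 1`: `d ≤ s`.  Hence `s = d`.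
-/

set_option linter.all false

namespace CGA

open scoped RealInnerProductSpace Real Topology
open MeasureTheory Set Filter

theorem minGeo_of (M : Met) (hlim : LimChain M) : MinGeo M := by
  intro x y hx hy
  by_cases hxy : x = y
  · subst hxy
    refine ⟨fun _ => x, fun _ => 0, sol_const M hx, rfl, rfl, ?_⟩
    intro t _
    rw [dist'_self M hx, norm_zero, zero_mul]
  have hd : 0 < dist' M x y := dist'_pos M hx hy hxy
  have step : ∀ k : ℕ, ∃ (n : ℕ) (τ : ℕ → ℝ) (X : ℕ → E), 0 < n ∧ (∀ i, 0 < τ i) ∧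
      (∀ i, τ i ≤ 1 / ((k : ℝ) + 1)) ∧ ∑ i ∈ Finset.range n, τ i = 1 ∧ (∀ i, ‖X i‖ = 1) ∧
      X 0 = x ∧ X n = y ∧ (∀ i, i + 1 < n → CritN M τ X i) ∧
      EnN M n τ X ≤ (dist' M x y + 1 / ((k : ℝ) + 1)) ^ 2 := by
    intro k
    have hk : (0:ℝ) < 1 / ((k : ℝ) + 1) := by positivity
    obtain ⟨n, X₀, hn, hn2, hX0, h0, h1, hS, hc⟩ := exists_fine_chain M hx hy hk hk
    obtain ⟨τ, ht, htδ, ht1, hE⟩ := exists_steps M hn X₀ hX0 hS hc hn2
    obtain ⟨X, hX, e0, en, hmin⟩ := exists_min_chain M n τ X₀ hX0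
    refine ⟨n, τ, X, hn, ht, htδ, ht1, hX, e0.trans h0, en.trans h1, fun i hi =>
      min_chain_crit M n τ X hX ?_ hi, (hmin X₀ hX0 rfl rfl).trans hE⟩
    intro Y hY h0' h1'
    exact hmin Y hY (h0'.trans e0) (h1'.trans en)
  choose n τ X hn hτ hτδ hτ1 hX hX0 hXn hcr hE using step
  have hlim0 : Tendsto (fun k : ℕ => 1 / ((k : ℝ) + 1)) (hyperfilter ℕ : Filter ℕ) (𝓝 0) :=
    tendsto_one_div_add_atTop_nhds_zero_nat.mono_left Nat.hyperfilter_le_atTop
  obtain ⟨γ, w, hS, l0, l1, lE⟩ := hlim (hyperfilter ℕ) n τ X (fun k => 1 / ((k : ℝ) + 1))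
    ((dist' M x y + 1) ^ 2) hlim0 hn hτ (fun k i _ => hτδ k i) hτ1 hX hcr (by
      intro k
      refine (hE k).trans ?_
      have h1 : 1 / ((k : ℝ) + 1) ≤ 1 := by
        rw [div_le_one (by positivity)]
        have : (0:ℝ) ≤ k := Nat.cast_nonneg k
        linarith
      have h2 : (0:ℝ) < 1 / ((k : ℝ) + 1) := by positivity
      gcongr)
  have g0 : γ 0 = x := by
    refine tendsto_nhds_unique l0 ?_
    simp only [hX0]
    exact tendsto_const_nhds
  have g1 : γ 1 = y := by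
    refine tendsto_nhds_unique l1 ?_
    simp only [hXn]
    exact tendsto_const_nhds
  have hint : (∫ t in (0:ℝ)..1, ‖w t‖ ^ 2 / M.f (γ t) ^ 2) ≤ dist' M x y ^ 2 := by
    have h2 : Tendsto (fun k : ℕ => (dist' M x y + 1 / ((k : ℝ) + 1)) ^ 2)
        (hyperfilter ℕ : Filter ℕ) (𝓝 ((dist' M x y + 0) ^ 2)) :=
      (tendsto_const_nhds.add hlim0).pow 2
    rw [add_zero] at h2
    exact le_of_tendsto_of_tendsto' lE h2 hE
  obtain ⟨s, hs0, hs⟩ := hS.speed zero_le_one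
  have hI : (∫ t in (0:ℝ)..1, ‖w t‖ ^ 2 / M.f (γ t) ^ 2) = s ^ 2 := by
    have h3 : (∫ t in (0:ℝ)..1, ‖w t‖ ^ 2 / M.f (γ t) ^ 2) = ∫ t in (0:ℝ)..1, s ^ 2 := by
      refine intervalIntegral.integral_congr fun t ht => ?_
      rw [uIcc_of_le zero_le_one] at ht
      have hne : γ t ≠ 0 := by
        intro h0
        have h1 := hS.unit t ht
        rw [h0, norm_zero] at h1
        exact zero_ne_one h1
      have hf := M.pos (γ t) hne
      show ‖w t‖ ^ 2 / M.f (γ t) ^ 2 = s ^ 2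
      rw [hs t ht, mul_pow, mul_div_cancel_right₀ _ (pow_pos hf 2).ne']
    rw [h3, intervalIntegral.integral_const]
    simp
  rw [hI] at hint
  have hsd : s ≤ dist' M x y := abs_le_of_sq_le_sq' hint hd.le |>.2
  have hds : dist' M x y ≤ s := by
    have h4 := hS.dist_le hs hs0 (u := 0) (v := 1) ⟨le_rfl, zero_le_one⟩ ⟨zero_le_one, le_rfl⟩
      zero_le_one
    rw [g0, g1] at h4
    linarith
  refine ⟨γ, w, hS, g0, g1, ?_⟩
  intro t ht
  rw [hs t ht, le_antisymm hsd hds]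

end CGA
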