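import Pool.Agent.CGA.PthB

/-! PROJECT CGA, chunk C2, module NodA: closed lists as periodic functions.

`cX l i = l.getD (i % l.length) 0`, `cL M l i = Σ_{j<i} ell (cX l j) (cX l (j+1))` (PthDef).
`cyc l = l.zip (l.rotate 1)`; `(l.rotate 1)[j] = l[(j+1) % l.length]` (`List.getElem_rotate`), so the `j`-th element of `cyc l` is `(cX l j, cX l (j+1))` for
`j < l.length` (and for general `j` take `j % l.length`; `(j % n + 1) % n = (j+1) % n`: `Nat.mod_add_mod`).
`cL_length`: `llen M (cyc l)` is the sum over the list, `List.sum_ofFn`/`Finset.sum_range` with `cyc l = List.ofFn (fun j : Fin l.length => (cX l j, cX l (j+1)))`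
(`List.ext_getElem`).  `cL_add_length`: `Finset.sum_range_add` / `Finset.sum_range_succ` (induction on `i`: both sides change by the same edge, by periodicity).
`rotate_get`: `List.getElem?_rotate`.  `llen_sub`: `(l.rotate i).take (k+1)` has length `k+1` and `j`-th entry `cX l (i+j)`, so
`pth` of it is `List.ofFn (fun j : Fin k => (cX l (i+j), cX l (i+j+1)))`; `Finset.sum_range_add`.
-/

set_option linter.all false

namespace CGA

open scoped RealInnerProductSpace Real Topology
open MeasureTheory Set Filter

variable {l : List E}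

private theorem NodA_get (l : List E) {j : ℕ} (hj : j < l.length) : cX l j = l[j] := by
  unfold cX
  rw [Nat.mod_eq_of_lt hj, List.getD_eq_getElem l 0 hj]

private theorem NodA_mod (l : List E) (hl : 0 < l.length) (i : ℕ) :
    cX l i = l[i % l.length]'(Nat.mod_lt _ hl) := by
  unfold cX
  rw [List.getD_eq_getElem l 0 (Nat.mod_lt _ hl)]

theorem cX_mem (hl : l ≠ []) (i : ℕ) : cX l i ∈ l := by
  have h0 : 0 < l.length := List.length_pos_iff.2 hl
  rw [NodA_mod l h0]
  exact List.getElem_mem _

theorem cX_add_length (l : List E) (i : ℕ) : cX l (i + l.length) = cX l i := by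
  unfold cX
  rw [Nat.add_mod_right]

theorem cX_add_mul_length (l : List E) (i k : ℕ) : cX l (i + l.length * k) = cX l i := by
  unfold cX
  rw [Nat.add_mul_mod_self_left]

private theorem NodA_cyc (l : List E) :
    cyc l = List.ofFn fun j : Fin l.length => (cX l (j : ℕ), cX l ((j : ℕ) + 1)) := by
  apply List.ext_getElem
  · simp [cyc]
  · intro j h1 h2
    have hj : j < l.length := by simpa [cyc] using h1
    simp only [cyc, List.getElem_zip, List.getElem_ofFn, List.getElem_rotate]
    rw [NodA_get l hj, NodA_mod l (by omega) (j + 1)]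

theorem cX_edge_mem (hl : l ≠ []) (i : ℕ) : (cX l i, cX l (i + 1)) ∈ cyc l := by
  have h0 : 0 < l.length := List.length_pos_iff.2 hl
  rw [NodA_cyc, List.mem_ofFn]
  refine ⟨⟨i % l.length, Nat.mod_lt _ h0⟩, ?_⟩
  simp only [cX, Nat.mod_mod, Nat.mod_add_mod]

theorem cL_length (M : Met) (hl : l ≠ []) : cL M l l.length = llen M (cyc l) := by
  unfold llen cL
  rw [NodA_cyc, List.map_ofFn, List.sum_ofFn, Finset.sum_range]
  rfl

theorem cL_add_length (M : Met) (hl : l ≠ []) (i : ℕ) :
    cL M l (i + l.length) = cL M l i + llen M (cyc l) := by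
  rw [← cL_length M hl, add_comm i]
  unfold cL
  rw [Finset.sum_range_add, add_comm]
  congr 1
  refine Finset.sum_congr rfl fun j _ => ?_
  have h1 : cX l (l.length + j) = cX l j := by rw [add_comm, cX_add_length]
  have h2 : cX l (l.length + j + 1) = cX l (j + 1) := by
    rw [show l.length + j + 1 = (j + 1) + l.length by ring, cX_add_length]
  rw [h1, h2]

theorem cL_add_mul_length (M : Met) (hl : l ≠ []) (i k : ℕ) :
    cL M l (i + l.length * k) = cL M l i + k * llen M (cyc l) := by
  induction k with
  | zero => simp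
  | succ k ih =>
    rw [show i + l.length * (k + 1) = (i + l.length * k) + l.length by ring,
      cL_add_length M hl, ih]
    push_cast
    ring

theorem cL_mono (M : Met) (l : List E) : Monotone (cL M l) := by
  refine monotone_nat_of_le_succ fun i => ?_
  unfold cL
  rw [Finset.sum_range_succ]
  linarith [ell_nonneg M (cX l i) (cX l (i + 1))]

theorem rotate_get (i : ℕ) {k : ℕ} (hk : k < l.length) : (l.rotate i)[k]? = some (cX l (i + k)) := by
  have h0 : 0 < l.length := by omega
  rw [List.getElem?_rotate hk, List.getElem?_eq_getElem (Nat.mod_lt _ h0), NodA_mod l h0]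
  simp only [add_comm]

private theorem NodA_len (i : ℕ) {k : ℕ} (hk : k < l.length) :
    ((l.rotate i).take (k + 1)).length = k + 1 := by
  rw [List.length_take, List.length_rotate]
  omega

private theorem NodA_take (i : ℕ) {k j : ℕ} (hk : k < l.length) (hj : j < k + 1) :
    ((l.rotate i).take (k + 1))[j]? = some (cX l (i + j)) := by
  rw [List.getElem?_take_of_lt hj]
  exact rotate_get i (by omega)

private theorem NodA_pth (i : ℕ) {k : ℕ} (hk : k < l.length) :
    pth ((l.rotate i).take (k + 1)) =
      List.ofFn fun j : Fin k => (cX l (i + (j : ℕ)), cX l (i + (j : ℕ) + 1)) := by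
  have hlen := NodA_len (l := l) i hk
  apply List.ext_getElem?
  intro j
  by_cases hj : j < k
  · have h1 := NodA_take (l := l) i hk (j := j) (by omega)
    have h2 := NodA_take (l := l) i hk (j := j + 1) (by omega)
    have h4 : (pth ((l.rotate i).take (k + 1)))[j]? =
        some (cX l (i + j), cX l (i + (j + 1))) := by
      unfold pth
      exact List.getElem?_zip_eq_some.2 ⟨h1, by rw [List.getElem?_tail]; exact h2⟩
    rw [h4, List.getElem?_ofFn]
    simp [hj, add_assoc]
  · have h3 : (pth ((l.rotate i).take (k + 1))).length = k := by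
      unfold pth
      rw [List.length_zip, List.length_tail, hlen]
      omega
    rw [List.getElem?_eq_none (by rw [h3]; omega), List.getElem?_eq_none (by simp; omega)]

theorem llen_sub (M : Met) (i : ℕ) {k : ℕ} (hk : k < l.length) :
    llen M (pth ((l.rotate i).take (k + 1))) = cL M l (i + k) - cL M l i := by
  unfold llen cL
  rw [NodA_pth i hk, List.map_ofFn, List.sum_ofFn, Finset.sum_range_add, add_sub_cancel_left,
    Finset.sum_range]
  rfl

theorem pathL_sub (hu : ∀ x ∈ l, ‖x‖ = 1) (hm : ∀ e ∈ cyc l, ‖e.1 - e.2‖ ≤ 1) (i : ℕ) {k : ℕ}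
    (hk : k < l.length) : PathL (cX l i) (cX l (i + k)) ((l.rotate i).take (k + 1)) := by
  have hl : l ≠ [] := by
    intro h
    rw [h] at hk
    simp at hk
  refine ⟨?_, ?_, ?_, ?_⟩
  · intro z hz
    exact hu z (List.mem_rotate.1 (List.mem_of_mem_take hz))
  · rw [List.head?_eq_getElem?]
    have h1 := NodA_take (l := l) i hk (j := 0) (by omega)
    simpa using h1
  · rw [List.getLast?_eq_getElem?, NodA_len i hk]
    exact NodA_take (l := l) i hk (j := k) (by omega)
  · intro e he
    rw [NodA_pth i hk, List.mem_ofFn] at he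
    obtain ⟨j, rfl⟩ := he
    exact hm _ (cX_edge_mem hl _)

end CGA
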