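import Pool.Agent.CGA.PthDef
import Pool.Agent.CGA.ACyc

/-! PROJECT CGA, chunk C2, module PthA: operations on paths.

* `append`: `l = l₀ ++ [y]` (from `last`: `List.getLast?_eq_some_iff` or `List.dropLast_append_getLast?`), `l' = y :: l₁`
  (from `head`: `List.head?_eq_some_iff`), so `l ++ l'.tail = l₀ ++ y :: l₁`; `pth_append` (ACyc):
  `pth (l₀ ++ y :: l₁) = pth (l₀ ++ [y]) ++ pth (y :: l₁)`.  `llen` of an append is the sum (`List.map_append, List.sum_append`).
* `reverse`: `pth_reverse` (an equality of multisets), `mass_coe`, `mass_swap`; membership in lists is membership in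
  the multisets (`Multiset.mem_coe`), `norm_sub_rev`.
* `exists_path`: if `0 ≤ ⟪x,y⟫`, `c = nrm (x + y)`: `x + y ≠ 0`, `⟪x,c⟫ = (1+⟪x,y⟫)/‖x+y‖`, `‖x+y‖² = 2(1+⟪x,y⟫)`, so
  `⟪x,c⟫ = √((1+⟪x,y⟫)/2) ≥ √(1/2) ≥ 1/2`, hence `‖x-c‖² = 2 - 2⟪x,c⟫ ≤ 1` and the same for `y`: path `[x, c, y]`.
  In general there is a unit vector `z` orthogonal to `x` and `y` (dimension 3: if `crs x y ≠ 0` take `nrm (crs x y)`;
  otherwise `y = ± x` and take a unit vector orthogonal to `x`, e.g. `nrm (crs x e)` with `e` a coordinate vector with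
  `crs x e ≠ 0`; or use `exists_norm_eq`/finrank of the orthogonal complement of the span of `x, y`): path
  `[x, c, z, c', y]` with `c` from the first case for `x, z` and `c'` for `z, y`; it has 4 edges of length at most `1`,
  each of `g`-length at most `2F` (`ell_bounds`, `Met.exists_bounds`).
-/

set_option linter.all false

namespace CGA

open scoped RealInnerProductSpace Real Topology
open MeasureTheory Set Filter

theorem llen_append (M : Met) (s t : List (E × E)) : llen M (s ++ t) = llen M s + llen M t := by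
  unfold llen
  rw [List.map_append, List.sum_append]

theorem PathL.unit_left {x y : E} {l : List E} (h : PathL x y l) : ‖x‖ = 1 :=
  h.unit x (List.mem_of_head? h.head)

theorem PathL.unit_right {x y : E} {l : List E} (h : PathL x y l) : ‖y‖ = 1 :=
  h.unit y (List.mem_of_getLast? h.last)

theorem PathL.single {x : E} (hx : ‖x‖ = 1) : PathL x x [x] := by
  refine ⟨?_, rfl, rfl, ?_⟩
  · intro z hz
    rw [List.mem_singleton.1 hz]
    exact hx
  · intro e he
    simp [pth] at he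

theorem PathL.edge {x y : E} (hx : ‖x‖ = 1) (hy : ‖y‖ = 1) (h : ‖x - y‖ ≤ 1) : PathL x y [x, y] := by
  refine ⟨?_, rfl, rfl, ?_⟩
  · intro z hz
    simp only [List.mem_cons, List.not_mem_nil, or_false] at hz
    rcases hz with rfl | rfl
    · exact hx
    · exact hy
  · intro e he
    have h1 : pth [x, y] = [(x, y)] := rfl
    rw [h1, List.mem_singleton] at he
    rw [he]
    exact h

theorem llen_pth_single (M : Met) (x : E) : llen M (pth [x]) = 0 := by
  simp [pth, llen]

theorem llen_pth_edge (M : Met) (x y : E) : llen M (pth [x, y]) = ell M x y := by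
  simp [pth, llen]

theorem PathL.append {x y z : E} {l l' : List E} (h : PathL x y l) (h' : PathL y z l') :
    PathL x z (l ++ l'.tail) ∧
      ∀ M : Met, llen M (pth (l ++ l'.tail)) = llen M (pth l) + llen M (pth l') := by
  obtain ⟨l₀, hl₀⟩ := List.getLast?_eq_some_iff.1 h.last
  obtain ⟨l₁, hl₁⟩ := List.head?_eq_some_iff.1 h'.head
  have e1 : l ++ l'.tail = l₀ ++ y :: l₁ := by
    rw [hl₀, hl₁]
    simp
  have e2 : pth (l ++ l'.tail) = pth l ++ pth l' := by
    rw [e1, pth_append, ← hl₀, ← hl₁]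
  refine ⟨⟨?_, ?_, ?_, ?_⟩, fun M => by rw [e2, llen_append]⟩
  · intro w hw
    rcases List.mem_append.1 hw with hw | hw
    · exact h.unit w hw
    · exact h'.unit w (List.mem_of_mem_tail hw)
  · rw [List.head?_append, h.head]
    rfl
  · rw [e1, ← hl₁, List.getLast?_append, h'.last]
    rfl
  · intro e he
    rw [e2] at he
    rcases List.mem_append.1 he with he | he
    · exact h.mesh e he
    · exact h'.mesh e he

theorem PathL.reverse {x y : E} {l : List E} (h : PathL x y l) :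
    PathL y x l.reverse ∧ ∀ M : Met, llen M (pth l.reverse) = llen M (pth l) := by
  refine ⟨⟨?_, ?_, ?_, ?_⟩, fun M => by rw [← mass_coe, pth_reverse, mass_swap, mass_coe]⟩
  · intro w hw
    exact h.unit w (List.mem_reverse.1 hw)
  · rw [List.head?_reverse, h.last]
  · rw [List.getLast?_reverse, h.head]
  · intro e he
    rw [← Multiset.mem_coe, pth_reverse] at he
    obtain ⟨e', he', rfl⟩ := Multiset.mem_map.1 he
    rw [Prod.fst_swap, Prod.snd_swap, norm_sub_rev]
    exact h.mesh e' (Multiset.mem_coe.1 he')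

private theorem ptha_orth (x y : E) : ∃ z : E, ‖z‖ = 1 ∧ ⟪x, z⟫ = 0 ∧ ⟪y, z⟫ = 0 := by
  obtain ⟨φ, hφ⟩ : ∃ φ : E →ₗ[ℝ] ℝ × ℝ, φ = LinearMap.prod (innerₛₗ ℝ x) (innerₛₗ ℝ y) := ⟨_, rfl⟩
  have h1 : LinearMap.ker φ ≠ ⊥ := by
    refine LinearMap.ker_ne_bot_of_finrank_lt ?_
    rw [Module.finrank_prod, Module.finrank_self, finrank_euclideanSpace_fin]
    norm_num
  obtain ⟨z, hz, hz0⟩ := (Submodule.ne_bot_iff _).1 h1
  rw [LinearMap.mem_ker, hφ] at hz
  have h2 : ⟪x, z⟫ = 0 := congrArg Prod.fst hz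
  have h3 : ⟪y, z⟫ = 0 := congrArg Prod.snd hz
  refine ⟨nrm z, norm_nrm hz0, ?_, ?_⟩
  · unfold nrm
    rw [inner_smul_right, h2, mul_zero]
  · unfold nrm
    rw [inner_smul_right, h3, mul_zero]

private theorem ptha_mid {x z : E} (hx : ‖x‖ = 1) (hz : ‖z‖ = 1) (h : ⟪x, z⟫ = 0) :
    ∃ c : E, ‖c‖ = 1 ∧ ‖x - c‖ ≤ 1 ∧ ‖c - z‖ ≤ 1 := by
  have h1 : ‖x + z‖ ^ 2 = 2 := by
    rw [@norm_add_sq_real, hx, hz, h]
    norm_num
  have h0 : x + z ≠ 0 := by
    intro h2
    rw [h2, norm_zero] at h1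
    norm_num at h1
  have hp : 0 < ‖x + z‖ := norm_pos_iff.2 h0
  have hle : ‖x + z‖ ≤ 2 := by nlinarith
  have hc : ‖nrm (x + z)‖ = 1 := norm_nrm h0
  have hin : 1 / 2 ≤ ‖x + z‖⁻¹ := by
    rw [one_div]
    exact inv_anti₀ hp hle
  have hxc : ⟪x, nrm (x + z)⟫ = ‖x + z‖⁻¹ := by
    unfold nrm
    rw [inner_smul_right, inner_add_right, h, real_inner_self_eq_norm_sq, hx]
    ring
  have hzc : ⟪nrm (x + z), z⟫ = ‖x + z‖⁻¹ := by
    unfold nrm
    rw [inner_smul_left, inner_add_left, h, real_inner_self_eq_norm_sq, hz]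
    simp
  refine ⟨nrm (x + z), hc, ?_, ?_⟩
  · have h3 := unit_inner_le hx hc
    rw [hxc] at h3
    nlinarith [norm_nonneg (x - nrm (x + z))]
  · have h3 := unit_inner_le hc hz
    rw [hzc] at h3
    nlinarith [norm_nonneg (nrm (x + z) - z)]

theorem exists_path (M : Met) {F : ℝ} (hF : ∀ x : E, x ≠ 0 → M.f x ≤ F) {x y : E} (hx : ‖x‖ = 1)
    (hy : ‖y‖ = 1) : ∃ l : List E, PathL x y l ∧ llen M (pth l) ≤ 8 * F := by
  obtain ⟨m, F', K, hm, -, -, hb, -, -⟩ := M.exists_bounds
  have hf : ∀ x : E, x ≠ 0 → m ≤ M.f x ∧ M.f x ≤ F := fun x hx => ⟨(hb x hx).1, hF x hx⟩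
  have hF0 : 0 ≤ F := by
    have hx0 : x ≠ 0 := by
      intro h
      rw [h, norm_zero] at hx
      exact zero_ne_one hx
    exact hm.le.trans ((hf x hx0).1.trans (hf x hx0).2)
  obtain ⟨z, hz, hxz, hyz⟩ := ptha_orth x y
  obtain ⟨c, hc, h1, h2⟩ := ptha_mid hx hz hxz
  obtain ⟨c', hc', h3, h4⟩ := ptha_mid hz hy (by rw [real_inner_comm]; exact hyz)
  have hell : ∀ {a b : E}, ‖a‖ = 1 → ‖b‖ = 1 → ‖a - b‖ ≤ 1 → ell M a b ≤ 2 * F := by
    intro a b ha hb' hab
    refine (ell_bounds M hm hf ha hb' hab).2.trans ?_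
    nlinarith [norm_nonneg (a - b)]
  refine ⟨[x, c, z, c', y], ⟨?_, rfl, rfl, ?_⟩, ?_⟩
  · intro w hw
    simp only [List.mem_cons, List.not_mem_nil, or_false] at hw
    rcases hw with rfl | rfl | rfl | rfl | rfl
    · exact hx
    · exact hc
    · exact hz
    · exact hc'
    · exact hy
  · intro e he
    have h5 : pth [x, c, z, c', y] = [(x, c), (c, z), (z, c'), (c', y)] := rfl
    rw [h5] at he
    simp only [List.mem_cons, List.not_mem_nil, or_false] at he
    rcases he with rfl | rfl | rfl | rfl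
    · exact h1
    · exact h2
    · exact h3
    · exact h4
  · have h5 : llen M (pth [x, c, z, c', y]) = ell M x c + (ell M c z + (ell M z c' + ell M c' y)) := by
      simp [pth, llen]
    rw [h5]
    linarith [hell hx hc h1, hell hc hz h2, hell hz hc' h3, hell hc' hy h4]

end CGA
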