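import Pool.Agent.CGA.PthB

/-! PROJECT CGA, chunk C2, module PthC: paths as chains, refinement by bisection.

* `PathL.chain`: `X i = l.getD i y`.  `X 0 = x`, `X (l.length - 1) = y`, `X i = y` for `i ≥ l.length`; for `i + 1 < l.length` the pair
  `(X i, X (i+1))` is the `i`-th entry of `pth l = l.zip l.tail`, which has length `l.length - 1`; the last step
  `(X (l.length-1), X l.length) = (y, y)` has length `0` (`ell_self`).  (Induction on the list is also possible.)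
* `chain_bisect`: `X' j = X (j/2)` for even `j` and `X' j = nrm ((1/2) X (j/2) + (1/2) X (j/2+1))` for odd `j`.  With `a, b` unit, `|a-b| ≤ η ≤ 1`,
  `u = (a+b)/2`, `c = nrm u`: `‖u‖² = 1 - ‖a-b‖²/4` (`norm_seg_sq`), `⟪a,c⟫ = ‖u‖`, so `‖a-c‖² = 2 - 2‖u‖ = ‖a-b‖²/(2(1+‖u‖))`, `‖u‖ ≥ √(3/4)`,
  so `‖a-c‖² ≤ ‖a-b‖²/(2·1.86) ≤ (9/25)‖a-b‖²`, the same for `b`.  The sums agree by `ell_add_nrm` (`t = 1/2`) and
  `Finset.sum_range_succ` (induction on `n`, `2(n+1) = 2n+1+1`).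
* `chain_refine`: iterate.
-/

set_option linter.all false

namespace CGA

open scoped RealInnerProductSpace Real Topology
open MeasureTheory Set Filter

private theorem pthc_chain (M : Met) (t : List E) : ∀ x y : E, PathL x y (x :: t) →
    ∃ X : ℕ → E, (∀ i, ‖X i‖ = 1) ∧ X 0 = x ∧ X (t.length + 1) = y ∧
      (∀ i, ‖X (i + 1) - X i‖ ≤ 1) ∧
      ∑ i ∈ Finset.range (t.length + 1), ell M (X i) (X (i + 1)) = llen M (pth (x :: t)) := by
  induction t with
  | nil =>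
    intro x y h
    have h1 : x = y := by
      have := h.last
      simpa using this
    have hx : ‖x‖ = 1 := h.unit_left
    refine ⟨fun _ => x, fun _ => hx, rfl, h1, ?_, ?_⟩
    · intro i
      rw [sub_self, norm_zero]
      norm_num
    · simp [pth, llen]
  | cons z t ih =>
    intro x y h
    have hz : PathL z y (z :: t) := by
      refine ⟨fun w hw => h.unit w (List.mem_cons_of_mem _ hw), rfl, ?_, ?_⟩
      · have := h.last
        rw [List.getLast?_cons_cons] at this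
        exact this
      · intro e he
        exact h.mesh e (by rw [pth_cons_cons]; exact List.mem_cons_of_mem _ he)
    obtain ⟨X, h1, h2, h3, h4, h5⟩ := ih z y hz
    have hxz : ‖x - z‖ ≤ 1 := h.mesh (x, z) (by rw [pth_cons_cons]; exact List.mem_cons_self)
    refine ⟨fun i => Nat.casesOn i x X, ?_, rfl, h3, ?_, ?_⟩
    · intro i
      cases i with
      | zero => exact h.unit_left
      | succ i => exact h1 i
    · intro i
      cases i with
      | zero =>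
        change ‖X 0 - x‖ ≤ 1
        rw [h2, norm_sub_rev]
        exact hxz
      | succ i => exact h4 i
    · rw [List.length_cons, Finset.sum_range_succ']
      change ∑ i ∈ Finset.range (t.length + 1), ell M (X i) (X (i + 1)) + ell M x (X 0) = _
      rw [h5, h2, pth_cons_cons]
      unfold llen
      rw [List.map_cons, List.sum_cons, add_comm]

theorem PathL.chain (M : Met) {x y : E} {l : List E} (h : PathL x y l) :
    ∃ X : ℕ → E, (∀ i, ‖X i‖ = 1) ∧ X 0 = x ∧ X l.length = y ∧ (∀ i, ‖X (i + 1) - X i‖ ≤ 1) ∧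
      ∑ i ∈ Finset.range l.length, ell M (X i) (X (i + 1)) = llen M (pth l) := by
  obtain ⟨t, rfl⟩ := List.head?_eq_some_iff.1 h.head
  exact pthc_chain M t x y h

private theorem pthc_mid {a b : E} (ha : ‖a‖ = 1) (hb : ‖b‖ = 1) (h : ‖a - b‖ ≤ 1) :
    ‖a - nrm ((1 - 1 / 2 : ℝ) • a + (1 / 2 : ℝ) • b)‖ ≤ 3 / 5 * ‖a - b‖ := by
  have h0 : (1 - 1 / 2 : ℝ) • a + (1 / 2 : ℝ) • b ≠ 0 := seg_ne_zero ha hb (by linarith) (1 / 2)
  have hsq := norm_seg_sq ha hb (1 / 2)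
  have hin : ⟪a, (1 - 1 / 2 : ℝ) • a + (1 / 2 : ℝ) • b⟫ =
      ‖(1 - 1 / 2 : ℝ) • a + (1 / 2 : ℝ) • b‖ ^ 2 := by
    rw [hsq, inner_add_right, inner_smul_right, inner_smul_right, real_inner_self_eq_norm_sq, ha,
      unit_inner_le ha hb]
    ring
  generalize (1 - 1 / 2 : ℝ) • a + (1 / 2 : ℝ) • b = u at h0 hsq hin
  have hc := unit_inner_le ha (norm_nrm h0)
  have hp : 0 < ‖u‖ := norm_pos_iff.2 h0
  have hau : ⟪a, nrm u⟫ = ‖u‖ := by
    unfold nrm
    rw [inner_smul_right, hin]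
    field_simp
  rw [hau] at hc
  have hd := norm_nonneg (a - b)
  have hs1 : ‖u‖ ≤ 1 := by nlinarith
  have hs2 : 3 / 4 ≤ ‖u‖ := by nlinarith
  have h1 : ‖a - nrm u‖ ^ 2 ≤ (3 / 5 * ‖a - b‖) ^ 2 := by
    have h2 : ‖a - nrm u‖ ^ 2 = 2 * (1 - ‖u‖) := by linarith
    have h3 : ‖a - b‖ ^ 2 = 4 * ((1 - ‖u‖) * (1 + ‖u‖)) := by nlinarith
    rw [mul_pow, h2, h3]
    nlinarith [mul_nonneg (sub_nonneg.2 hs1) (sub_nonneg.2 hs2)]
  exact (pow_le_pow_iff_left₀ (norm_nonneg _) (by positivity) two_ne_zero).1 h1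

theorem chain_bisect (M : Met) {X : ℕ → E} (hX : ∀ i, ‖X i‖ = 1) {η : ℝ} (hη : η ≤ 1)
    (hm : ∀ i, ‖X (i + 1) - X i‖ ≤ η) :
    ∃ X' : ℕ → E, (∀ i, ‖X' i‖ = 1) ∧ (∀ i, ‖X' (i + 1) - X' i‖ ≤ 3 / 5 * η) ∧
      ∀ n, X' (2 * n) = X n ∧
        ∑ i ∈ Finset.range (2 * n), ell M (X' i) (X' (i + 1)) =
          ∑ i ∈ Finset.range n, ell M (X i) (X (i + 1)) := by
  obtain ⟨X', h0, h1⟩ : ∃ X' : ℕ → E, (∀ n, X' (2 * n) = X n) ∧
      ∀ n, X' (2 * n + 1) = nrm ((1 - 1 / 2 : ℝ) • X n + (1 / 2 : ℝ) • X (n + 1)) := by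
    refine ⟨fun j => if j % 2 = 0 then X (j / 2) else
      nrm ((1 - 1 / 2 : ℝ) • X (j / 2) + (1 / 2 : ℝ) • X (j / 2 + 1)), ?_, ?_⟩
    · intro n
      have e1 : 2 * n % 2 = 0 := by omega
      have e2 : 2 * n / 2 = n := by omega
      simp only [e1, e2, if_true]
    · intro n
      have e1 : ¬ (2 * n + 1) % 2 = 0 := by omega
      have e2 : (2 * n + 1) / 2 = n := by omega
      simp only [e1, e2, if_false]
  have hm1 : ∀ n, ‖X n - X (n + 1)‖ ≤ 1 := fun n => by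
    rw [norm_sub_rev]
    exact (hm n).trans hη
  have hmid : ∀ n, ‖X n - X' (2 * n + 1)‖ ≤ 3 / 5 * η ∧ ‖X' (2 * n + 1) - X (n + 1)‖ ≤ 3 / 5 * η := by
    intro n
    have e1 := pthc_mid (hX n) (hX (n + 1)) (hm1 n)
    have e2 := pthc_mid (hX (n + 1)) (hX n) (by rw [norm_sub_rev]; exact hm1 n)
    have e3 : (1 - 1 / 2 : ℝ) • X (n + 1) + (1 / 2 : ℝ) • X n =
        (1 - 1 / 2 : ℝ) • X n + (1 / 2 : ℝ) • X (n + 1) := by
      norm_num
      exact add_comm _ _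
    rw [e3, ← h1] at e2
    rw [← h1, norm_sub_rev (X n) (X (n + 1))] at e1
    have := hm n
    refine ⟨by linarith, ?_⟩
    rw [norm_sub_rev]
    linarith
  have hunit : ∀ i, ‖X' i‖ = 1 := by
    intro i
    obtain ⟨k, hk | hk⟩ := Nat.even_or_odd' i
    · rw [hk, h0]
      exact hX k
    · rw [hk, h1]
      exact norm_nrm (seg_ne_zero (hX k) (hX (k + 1)) (by linarith [hm1 k]) (1 / 2))
  refine ⟨X', hunit, ?_, ?_⟩
  · intro i
    obtain ⟨k, hk | hk⟩ := Nat.even_or_odd' i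
    · rw [hk, h0, norm_sub_rev]
      exact (hmid k).1
    · have e1 : i + 1 = 2 * (k + 1) := by omega
      rw [e1, hk, h0, norm_sub_rev]
      exact (hmid k).2
  · intro n
    refine ⟨h0 n, ?_⟩
    induction n with
    | zero => simp
    | succ n ih =>
      have e1 : 2 * (n + 1) = 2 * n + 1 + 1 := by omega
      rw [e1, Finset.sum_range_succ, Finset.sum_range_succ, ih, Finset.sum_range_succ, add_assoc]
      have e2 : 2 * n + 1 + 1 = 2 * (n + 1) := by omega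
      rw [e2, h0 n, h0 (n + 1), h1 n]
      congr 1
      exact ell_add_nrm M (hX n) (hX (n + 1)) (by linarith [hm1 n]) (by norm_num)

theorem chain_refine (M : Met) {X : ℕ → E} (hX : ∀ i, ‖X i‖ = 1)
    (hm : ∀ i, ‖X (i + 1) - X i‖ ≤ 1) (k : ℕ) :
    ∃ X' : ℕ → E, (∀ i, ‖X' i‖ = 1) ∧ (∀ i, ‖X' (i + 1) - X' i‖ ≤ (3 / 5) ^ k) ∧
      ∀ n, X' (2 ^ k * n) = X n ∧
        ∑ i ∈ Finset.range (2 ^ k * n), ell M (X' i) (X' (i + 1)) =
          ∑ i ∈ Finset.range n, ell M (X i) (X (i + 1)) := by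
  induction k with
  | zero =>
    refine ⟨X, hX, by simpa using hm, ?_⟩
    intro n
    simp
  | succ k ih =>
    obtain ⟨Y, h1, h2, h3⟩ := ih
    obtain ⟨Z, h4, h5, h6⟩ := chain_bisect M h1 (pow_le_one₀ (by norm_num) (by norm_num)) h2
    refine ⟨Z, h4, ?_, ?_⟩
    · intro i
      rw [pow_succ']
      exact h5 i
    · intro n
      have e1 : 2 ^ (k + 1) * n = 2 * (2 ^ k * n) := by ring
      rw [e1, (h6 _).1, (h6 _).2]
      exact h3 n

end CGA
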