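import Pool.Agent.CGA.PthC

/-! PROJECT CGA, chunk C2, module PthD: fine chains of almost minimal length and time steps.

* `exists_fine_chain`: take a path with `llen < dist' + ε/2` (`exists_path_lt`), its chain (`PathL.chain`, `n₀ = l.length ≥ 1`), refine `k` times
  (`chain_refine`): `n = 2^k n₀`, mesh `≤ (3/5)^k =: η`, `Σ ell < d + ε/2`.  By the second inequality of `ell_chord`:
  `chord_i ≤ (1 + Cη) ell_i`, so `Σ chord ≤ (1+Cη)(d+ε/2) < d + ε` for large `k`, and `chord_i ≤ F η` (`√(f f) ≤ F`,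
  `Met.exists_bounds`).  Each of the finitely many conditions holds for all large `k` (use `Filter.Eventually` along `atTop`:
  `(3/5)^k → 0`, `2^k → ∞`).
* `exists_steps`: `c_i = √(f(X_i) f(X_{i+1})) ‖X_{i+1} - X_i‖`, `S = Σ c_i < D`, `η = (D - S)/n > 0`, `τ_i = (c_i + η)/D`.  `Σ τ_i = (S + nη)/D = 1`.
  `τ_i ≤ δ/2 + 1/n ≤ δ`.  `c_i² = f(X_i) f(X_{i+1}) ‖·‖²`, so the energy is `Σ c_i²/τ_i = D Σ c_i · c_i/(c_i+η) ≤ D Σ c_i ≤ D²`.
-/

set_option linter.all false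

namespace CGA

open scoped RealInnerProductSpace Real Topology
open MeasureTheory Set Filter

theorem exists_fine_chain (M : Met) {x y : E} (hx : ‖x‖ = 1) (hy : ‖y‖ = 1) {ε δ : ℝ} (hε : 0 < ε)
    (hδ : 0 < δ) :
    ∃ (n : ℕ) (X : ℕ → E), 0 < n ∧ 2 ≤ δ * n ∧ (∀ i, ‖X i‖ = 1) ∧ X 0 = x ∧ X n = y ∧
      ∑ i ∈ Finset.range n, √(M.f (X i) * M.f (X (i + 1))) * ‖X (i + 1) - X i‖
        < dist' M x y + ε ∧
      ∀ i, √(M.f (X i) * M.f (X (i + 1))) * ‖X (i + 1) - X i‖ ≤ δ * (dist' M x y + ε) / 2 := by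
  obtain ⟨l, hl, hlen⟩ := exists_path_lt M hx hy (half_pos hε)
  obtain ⟨X, hX, hX0, hXn, hXs, hsum⟩ := PathL.chain M hl
  obtain ⟨m, F, K, hm, hmF, hK, hf, -, -⟩ := M.exists_bounds
  obtain ⟨C, hC, hch⟩ := ell_chord M
  set d := dist' M x y with hd
  have hd0 : 0 ≤ d := dist'_nonneg M x y
  have hn0 : 0 < l.length := by
    by_contra h
    have h1 : l = [] := List.length_eq_zero_iff.1 (by omega)
    have h2 := hl.head
    rw [h1] at h2
    simp at h2
  have hp : Tendsto (fun k : ℕ => ((3:ℝ) / 5) ^ k) atTop (𝓝 0) :=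
    tendsto_pow_atTop_nhds_zero_of_lt_one (by norm_num) (by norm_num)
  have e1 : ∀ᶠ k : ℕ in atTop, (1 + C * ((3:ℝ) / 5) ^ k) * (d + ε / 2) < d + ε := by
    have : Tendsto (fun k : ℕ => (1 + C * ((3:ℝ) / 5) ^ k) * (d + ε / 2)) atTop
        (𝓝 ((1 + C * 0) * (d + ε / 2))) :=
      ((hp.const_mul C).const_add 1).mul_const _
    exact this.eventually (gt_mem_nhds (by linarith)) 
  have e2 : ∀ᶠ k : ℕ in atTop, F * ((3:ℝ) / 5) ^ k < δ * (d + ε) / 2 := by
    have : Tendsto (fun k : ℕ => F * ((3:ℝ) / 5) ^ k) atTop (𝓝 (F * 0)) := hp.const_mul F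
    exact this.eventually (gt_mem_nhds (by rw [mul_zero]; positivity))
  have e3 : ∀ᶠ k : ℕ in atTop, 2 / δ ≤ (2:ℝ) ^ k :=
    (tendsto_pow_atTop_atTop_of_one_lt (by norm_num : (1:ℝ) < 2)).eventually_ge_atTop _
  obtain ⟨k, h1, h2, h3⟩ := (e1.and (e2.and e3)).exists
  obtain ⟨Y, hY, hYs, hYr⟩ := chain_refine M hX hXs k
  have hF : 0 < F := lt_of_lt_of_le hm hmF
  have hne : ∀ i, Y i ≠ 0 := fun i h => by
    have := hY i
    rw [h, norm_zero] at this
    exact zero_ne_one this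
  have hY1 : ∀ i, ‖Y i - Y (i + 1)‖ ≤ 1 := fun i => by
    rw [norm_sub_rev]
    exact (hYs i).trans (pow_le_one₀ (by norm_num) (by norm_num))
  have hell : ∀ i, 0 ≤ ell M (Y i) (Y (i + 1)) := fun i => ell_nonneg M _ _
  have hchord : ∀ i, √(M.f (Y i) * M.f (Y (i + 1))) * ‖Y (i + 1) - Y i‖ ≤
      (1 + C * (3 / 5) ^ k) * ell M (Y i) (Y (i + 1)) := by
    intro i
    have a := (hch (Y i) (Y (i + 1)) (hY i) (hY _) (hY1 i)).2.1
    rw [norm_sub_rev] at a
    refine a.trans (mul_le_mul_of_nonneg_right ?_ (hell i))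
    have := hYs i
    nlinarith
  refine ⟨2 ^ k * l.length, Y, by positivity, ?_, hY, ?_, ?_, ?_, ?_⟩
  · have h4 : (1:ℝ) ≤ (l.length : ℝ) := by exact_mod_cast hn0
    have h5 : 2 ≤ δ * 2 ^ k := by
      rw [div_le_iff₀ hδ] at h3
      linarith
    push_cast
    have h6 : 0 < δ * (2:ℝ) ^ k := by positivity
    nlinarith
  · have := (hYr 0).1
    rw [Nat.mul_zero] at this
    rw [this, hX0]
  · rw [(hYr l.length).1, hXn]
  · calc ∑ i ∈ Finset.range (2 ^ k * l.length), √(M.f (Y i) * M.f (Y (i + 1))) * ‖Y (i + 1) - Y i‖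
        ≤ ∑ i ∈ Finset.range (2 ^ k * l.length), (1 + C * (3 / 5) ^ k) * ell M (Y i) (Y (i + 1)) :=
          Finset.sum_le_sum fun i _ => hchord i
      _ = (1 + C * (3 / 5) ^ k) * llen M (pth l) := by
          rw [← Finset.mul_sum, (hYr l.length).2, hsum]
      _ ≤ (1 + C * (3 / 5) ^ k) * (d + ε / 2) :=
          mul_le_mul_of_nonneg_left hlen.le (by positivity)
      _ < d + ε := h1
  · intro i
    have b1 : √(M.f (Y i) * M.f (Y (i + 1))) ≤ F := by
      rw [Real.sqrt_le_left hF.le]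
      have c1 := (hf _ (hne i)).2
      have c2 := (hf _ (hne (i + 1))).2
      have c3 := M.pos _ (hne i)
      have c4 := M.pos _ (hne (i + 1))
      nlinarith
    calc √(M.f (Y i) * M.f (Y (i + 1))) * ‖Y (i + 1) - Y i‖ ≤ F * (3 / 5) ^ k :=
          mul_le_mul b1 (hYs i) (norm_nonneg _) hF.le
      _ ≤ _ := h2.le

theorem exists_steps (M : Met) {n : ℕ} (hn : 0 < n) (X : ℕ → E) (hX : ∀ i, ‖X i‖ = 1) {D δ : ℝ}
    (hS : ∑ i ∈ Finset.range n, √(M.f (X i) * M.f (X (i + 1))) * ‖X (i + 1) - X i‖ < D)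
    (hc : ∀ i, √(M.f (X i) * M.f (X (i + 1))) * ‖X (i + 1) - X i‖ ≤ δ * D / 2)
    (hnδ : 2 ≤ δ * n) :
    ∃ τ : ℕ → ℝ, (∀ i, 0 < τ i) ∧ (∀ i, τ i ≤ δ) ∧ ∑ i ∈ Finset.range n, τ i = 1 ∧
      EnN M n τ X ≤ D ^ 2 := by
  set c : ℕ → ℝ := fun i => √(M.f (X i) * M.f (X (i + 1))) * ‖X (i + 1) - X i‖ with hcd
  have hc0 : ∀ i, 0 ≤ c i := fun i => by positivity
  set S := ∑ i ∈ Finset.range n, c i with hSd
  have hS0 : 0 ≤ S := Finset.sum_nonneg fun i _ => hc0 i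
  have hD : 0 < D := lt_of_le_of_lt hS0 hS
  have hnr : (0:ℝ) < n := by exact_mod_cast hn
  set η := (D - S) / n with hη
  have hη0 : 0 < η := div_pos (by linarith [hS]) hnr
  have hne : ∀ i, X i ≠ 0 := fun i h => by
    have := hX i
    rw [h, norm_zero] at this
    exact zero_ne_one this
  refine ⟨fun i => (c i + η) / D, fun i => by have := hc0 i; positivity, fun i => ?_, ?_, ?_⟩
  · rw [div_le_iff₀ hD]
    have h1 := hc i
    have h2 : η ≤ D / n := by
      rw [hη]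
      gcongr
      linarith
    have h3 : D / n ≤ δ * D / 2 := by
      rw [div_le_iff₀ hnr]
      nlinarith
    have h4 : c i ≤ δ * D / 2 := h1
    linarith
  · rw [← Finset.sum_div, Finset.sum_add_distrib, Finset.sum_const, Finset.card_range,
      nsmul_eq_mul, hη, ← hSd]
    field_simp
    ring
  · have hterm : ∀ i, M.f (X i) * M.f (X (i + 1)) * ‖X (i + 1) - X i‖ ^ 2 / ((c i + η) / D) ≤
        D * c i := by
      intro i
      have h1 : M.f (X i) * M.f (X (i + 1)) * ‖X (i + 1) - X i‖ ^ 2 = c i ^ 2 := by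
        rw [hcd]
        simp only
        rw [mul_pow, Real.sq_sqrt (mul_nonneg (M.pos _ (hne i)).le (M.pos _ (hne (i + 1))).le)]
      have h2 := hc0 i
      have h3 : 0 < c i + η := by linarith
      rw [h1, div_div_eq_mul_div, div_le_iff₀ h3]
      nlinarith [mul_nonneg (mul_nonneg hD.le h2) hη0.le]
    calc EnN M n (fun i => (c i + η) / D) X
        = ∑ i ∈ Finset.range n,
          M.f (X i) * M.f (X (i + 1)) * ‖X (i + 1) - X i‖ ^ 2 / ((c i + η) / D) := rfl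
      _ ≤ ∑ i ∈ Finset.range n, D * c i := Finset.sum_le_sum fun i _ => hterm i
      _ = D * S := by rw [← Finset.mul_sum]
      _ ≤ D ^ 2 := by nlinarith

end CGA
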