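import Pool.Agent.CGA.Defs

/-! PROJECT CGA, chunk C2, module PthDef (final file): paths as lists. -/

set_option linter.all false

namespace CGA

open scoped RealInnerProductSpace Real Topology
open MeasureTheory Set Filter

/-- polygonal path from `x` to `y` with unit vertices and edges of length at most `1` -/
structure PathL (x y : E) (l : List E) : Prop where
  unit : ∀ z ∈ l, ‖z‖ = 1
  head : l.head? = some x
  last : l.getLast? = some y
  mesh : ∀ e ∈ pth l, ‖e.1 - e.2‖ ≤ 1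

theorem dist'_eq (M : Met) (x y : E) :
    dist' M x y = sInf {r | ∃ l : List E, PathL x y l ∧ r = llen M (pth l)} := by
  unfold dist'
  congr 1
  ext r
  constructor
  · rintro ⟨l, h1, h2, h3, h4, h5⟩
    exact ⟨l, ⟨h1, h2, h3, h4⟩, h5⟩
  · rintro ⟨l, ⟨h1, h2, h3, h4⟩, h5⟩
    exact ⟨l, h1, h2, h3, h4, h5⟩

/-- the part of `limChain` (chunk C1) which is used in chunk C2 -/
def LimChain (M : Met) : Prop :=
  ∀ (U : Ultrafilter ℕ) (n : ℕ → ℕ) (τ : ℕ → ℕ → ℝ) (X : ℕ → ℕ → E) (δ : ℕ → ℝ) (C : ℝ),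
    Tendsto δ U (𝓝 0) → (∀ k, 0 < n k) → (∀ k i, 0 < τ k i) → (∀ k, ∀ i < n k, τ k i ≤ δ k) →
    (∀ k, ∑ i ∈ Finset.range (n k), τ k i = 1) → (∀ k i, ‖X k i‖ = 1) →
    (∀ k i, i + 1 < n k → CritN M (τ k) (X k) i) → (∀ k, EnN M (n k) (τ k) (X k) ≤ C) →
    ∃ γ w : ℝ → E, Sol M 0 1 γ w ∧
      Tendsto (fun k => X k 0) U (𝓝 (γ 0)) ∧ Tendsto (fun k => X k (n k)) U (𝓝 (γ 1)) ∧
      Tendsto (fun k => EnN M (n k) (τ k) (X k)) U
        (𝓝 (∫ t in (0:ℝ)..1, ‖w t‖ ^ 2 / M.f (γ t) ^ 2))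

/-- `closedGeo_of_sol` (chunk C1) as a property -/
def LoopSol (M : Met) : Prop :=
  ∀ (T s : ℝ) (γ w : ℝ → E), 0 < T → 0 < s → Sol M 0 T γ w → γ T = γ 0 → w T = w 0 →
    ‖w 0‖ = s * M.f (γ 0) → ClosedGeo M (s * T)

/-- minimising geodesics exist (`minGeo`) -/
def MinGeo (M : Met) : Prop :=
  ∀ x y : E, ‖x‖ = 1 → ‖y‖ = 1 → ∃ γ w : ℝ → E, Sol M 0 1 γ w ∧ γ 0 = x ∧ γ 1 = y ∧
    ∀ t ∈ Icc (0:ℝ) 1, ‖w t‖ = dist' M x y * M.f (γ t)

/-! ### closed lists as periodic functions -/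

/-- the vertices of a closed polygon as a periodic function of `i` -/
noncomputable def cX (l : List E) (i : ℕ) : E := l.getD (i % l.length) 0

/-- cumulative length -/
noncomputable def cL (M : Met) (l : List E) (i : ℕ) : ℝ :=
  ∑ j ∈ Finset.range i, ell M (cX l j) (cX l (j + 1))

end CGA
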