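import Pool.Agent.CGA.AMet

/-! PROJECT CGA, chunk C2, module VarV: first variation of the energy with respect to one vertex (for chunks B, C, D).

`z_t = nrm (z + t v)`.  `HasDerivAt (fun t => z_t) v 0` (`‖z + tv‖² = 1 + t²‖v‖²`, or composition of `z + tv` with `‖·‖⁻¹ • ·`:
derivative `v - ⟪z,v⟫ z = v`).  `M.f (nrm (z + t v)) = M.f (z + t v)` near `t = 0` (`Met.f_nrm`), derivative `⟪∇f(z), v⟫` by
`Met.hasGradientAt`.  `‖z_t - a‖²` has derivative `2⟪z - a, v⟫`, `‖b - z_t‖²` has derivative `-2⟪b - z, v⟫` (`HasDerivAt.norm_sq`).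
Product rule, then `inner_add_left, inner_smul_left, inner_sub_left` and `ring`.
`vertex_crit`: a local minimum at `t = 0` has derivative `0` (`IsLocalMin.hasDerivAt_eq_zero`).
-/

set_option linter.all false

namespace CGA

open scoped RealInnerProductSpace Real Topology
open MeasureTheory Set Filter

private theorem varV_ne {z v : E} (hz : ‖z‖ = 1) (hv : ⟪z, v⟫ = 0) (t : ℝ) : z + t • v ≠ 0 := by
  intro h
  have h1 : ⟪z, z + t • v⟫ = 1 := by
    rw [inner_add_right, inner_smul_right, hv, real_inner_self_eq_norm_sq, hz]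
    ring
  rw [h, inner_zero_right] at h1
  exact zero_ne_one h1

theorem varV_hasDerivAt_nrm {z v : E} (hz : ‖z‖ = 1) (hv : ⟪z, v⟫ = 0) :
    HasDerivAt (fun t : ℝ => nrm (z + t • v)) v 0 := by
  have hn : ∀ t : ℝ, ‖z + t • v‖ = √(1 + t ^ 2 * ‖v‖ ^ 2) := by
    intro t
    rw [← Real.sqrt_sq (norm_nonneg (z + t • v))]
    congr 1
    rw [norm_add_sq_real, inner_smul_right, hv, norm_smul, hz, Real.norm_eq_abs, mul_pow, sq_abs]
    ring
  have h1 : HasDerivAt (fun t : ℝ => 1 + t ^ 2 * ‖v‖ ^ 2) 0 0 := by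
    have := (((hasDerivAt_id (0:ℝ)).pow 2).mul_const (‖v‖ ^ 2)).const_add 1
    simpa using this
  have h2 : HasDerivAt (fun t : ℝ => ‖z + t • v‖) 0 0 := by
    have h3 := h1.sqrt (by norm_num)
    have h4 : (fun t : ℝ => ‖z + t • v‖) = fun t : ℝ => √(1 + t ^ 2 * ‖v‖ ^ 2) := funext hn
    rw [h4]
    simpa using h3
  have h3 : HasDerivAt (fun t : ℝ => ‖z + t • v‖⁻¹) 0 0 := by
    have h4 : HasDerivAt (fun t : ℝ => ‖z + t • v‖⁻¹) _ 0 := h2.inv (by simp [hz])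
    simpa using h4
  have h4 : HasDerivAt (fun t : ℝ => z + t • v) v 0 := by
    simpa using ((hasDerivAt_id (0:ℝ)).smul_const v).const_add z
  have h5 : HasDerivAt (fun t : ℝ => ‖z + t • v‖⁻¹ • (z + t • v)) _ 0 := h3.smul h4
  have h6 : HasDerivAt (fun t : ℝ => ‖z + t • v‖⁻¹ • (z + t • v)) v 0 :=
    h5.congr_deriv (by simp [hz])
  exact h6

theorem hasDerivAt_f_nrm (M : Met) {z v : E} (hz : ‖z‖ = 1) (hv : ⟪z, v⟫ = 0) :
    HasDerivAt (fun t : ℝ => M.f (nrm (z + t • v))) ⟪gradient M.f z, v⟫ 0 := by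
  have hz0 : z ≠ 0 := by
    intro h
    rw [h, norm_zero] at hz
    exact zero_ne_one hz
  have h0 : nrm (z + (0:ℝ) • v) = z := by simp [nrm, hz]
  have hg : HasFDerivAt M.f (innerSL ℝ (gradient M.f z)) (nrm (z + (0:ℝ) • v)) := by
    rw [h0]
    exact (M.hasGradientAt hz0).hasFDerivAt
  have h1 : HasDerivAt (fun t : ℝ => M.f (nrm (z + t • v))) _ 0 :=
    hg.comp_hasDerivAt (0:ℝ) (varV_hasDerivAt_nrm hz hv)
  exact h1.congr_deriv (by simp)

theorem hasDerivAt_vertex (M : Met) {z v : E} (hz : ‖z‖ = 1) (hv : ⟪z, v⟫ = 0) (a b : E)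
    (τ σ : ℝ) :
    HasDerivAt (fun t : ℝ =>
      M.f a * M.f (nrm (z + t • v)) * ‖nrm (z + t • v) - a‖ ^ 2 / τ +
        M.f (nrm (z + t • v)) * M.f b * ‖b - nrm (z + t • v)‖ ^ 2 / σ)
      ⟪(2:ℝ) • ((M.f a * M.f z / τ) • (z - a) - (M.f z * M.f b / σ) • (b - z)) +
        (M.f b * ‖b - z‖ ^ 2 / σ + M.f a * ‖z - a‖ ^ 2 / τ) • gradient M.f z, v⟫ 0 := by
  have h0 : nrm (z + (0:ℝ) • v) = z := by simp [nrm, hz]
  have hn := varV_hasDerivAt_nrm hz hv
  have hf := hasDerivAt_f_nrm M hz hv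
  have h1 : HasDerivAt (fun t : ℝ => ‖nrm (z + t • v) - a‖ ^ 2) (2 * ⟪z - a, v⟫) 0 := by
    have := (hn.sub_const a).norm_sq
    rw [h0] at this
    exact this
  have h2 : HasDerivAt (fun t : ℝ => ‖b - nrm (z + t • v)‖ ^ 2) (2 * ⟪b - z, -v⟫) 0 := by
    have := (hn.const_sub b).norm_sq
    rw [h0] at this
    exact this
  have h3 := ((hf.const_mul (M.f a)).mul h1).div_const τ
  have h4 := ((hf.mul_const (M.f b)).mul h2).div_const σ
  have h5 : HasDerivAt (fun t : ℝ =>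
      M.f a * M.f (nrm (z + t • v)) * ‖nrm (z + t • v) - a‖ ^ 2 / τ +
        M.f (nrm (z + t • v)) * M.f b * ‖b - nrm (z + t • v)‖ ^ 2 / σ) _ 0 := h3.add h4
  refine h5.congr_deriv ?_
  rw [h0]
  simp only [inner_add_left, inner_smul_left, inner_sub_left, inner_neg_right, conj_trivial]
  ring

/-- a vertex which minimises the two terms of the energy is critical -/
theorem vertex_crit (M : Met) {z v : E} (hz : ‖z‖ = 1) (hv : ⟪z, v⟫ = 0) (a b : E) (τ σ : ℝ)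
    (hmin : ∀ y : E, ‖y‖ = 1 →
      M.f a * M.f z * ‖z - a‖ ^ 2 / τ + M.f z * M.f b * ‖b - z‖ ^ 2 / σ ≤
      M.f a * M.f y * ‖y - a‖ ^ 2 / τ + M.f y * M.f b * ‖b - y‖ ^ 2 / σ) :
    ⟪(2:ℝ) • ((M.f a * M.f z / τ) • (z - a) - (M.f z * M.f b / σ) • (b - z)) +
      (M.f b * ‖b - z‖ ^ 2 / σ + M.f a * ‖z - a‖ ^ 2 / τ) • gradient M.f z, v⟫ = 0 := by
  have h0 : nrm (z + (0:ℝ) • v) = z := by simp [nrm, hz]
  refine IsLocalMin.hasDerivAt_eq_zero ?_ (hasDerivAt_vertex M hz hv a b τ σ)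
  refine Filter.Eventually.of_forall fun t => ?_
  simp only [h0]
  exact hmin _ (norm_nrm (varV_ne hz hv t))

end CGA
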